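import Pool.Agent.MalP.VDefs

/-! # `f` and `c` (temporary copy; helper9 owns this file) -/

set_option autoImplicit false

namespace Pool.Agent.MalP

universe v

section

variable {A : Type v} [NonUnitalNonAssocRing A]

/-- `f(x0,x1,x2,x3,x4;v)` -/
def fv (x0 x1 x2 x3 x4 v : A) : A := P108 x0 x1 x2 x3 (v * x4) - P108 x0 x1 x2 x3 v * x4

/-- `c(x0,...,x5)` -/
def cc (x0 x1 x2 x3 x4 x5 : A) : A :=
  fv x1 x2 x3 x4 x5 x0 - fv x0 x2 x3 x4 x5 x1 + fv x0 x1 x3 x4 x5 x2 - fv x0 x1 x2 x4 x5 x3 +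
    fv x0 x1 x2 x3 x5 x4 - fv x0 x1 x2 x3 x4 x5

end

end Pool.Agent.MalP
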