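import Pool.Agent.MalP.P5.C5
import Pool.Agent.MalP.W5.Fw

/-! # Characteristic 5: the algebras with `c = 0` -/

set_option autoImplicit false

namespace Pool.Agent.MalP

universe u v

theorem isA5 (F : Type u) [Field F] (h5 : (5 : F) = 0) {A : Type v} [NonUnitalNonAssocRing A]
    [Module F A] (h : IsMalcev A) (hc : ∀ x0 x1 x2 x3 x4 x5 : A, cc x0 x1 x2 x3 x4 x5 = 0) :
    W5.IsA5 A := by
  have := C23.of5 F h5
  have k := isC5 F h5 h
  exact
    { toIsMalcev := h
      s0 := k.s0
      c0 := hc
      w1 := by
        intro x0 x1 x2 x3 x4 u v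
        have e := k.W1 x0 x1 x2 x3 x4 u v
        rw [hc, hc, zero_mul, sub_zero] at e
        exact tf_of_field (M := 1) F 2 _ smooth_2 e
      w2 := by
        intro u v y1 y2 y3 a
        rw [k.W2]
        simp only [hc, sub_zero, add_zero, smul_zero]
      w3 := by
        intro y1 y2 y3 a x
        rw [k.W3, hc, neg_zero]
      w4 := by
        intro u v y1 y2 y3 y4
        rw [k.W4, hc, smul_zero, add_zero] }

end Pool.Agent.MalP
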