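import Pool.Agent.MalP.QF
import Pool.Agent.MalP.P5.A5
import Pool.Agent.MalP.W5.N6
import Pool.Agent.MalP.Z5.Z7

/-! # Characteristic 5: the homogeneous elements of `QF` in the kernel of `phi` -/

set_option autoImplicit false

namespace Pool.Agent.MalP

universe u

variable {F : Type u} [Field F]

namespace Q5Aux

variable (F) in
/-- the identities of `c` in the free Malcev algebra -/
theorem zm (h5 : (5 : F) = 0) : Z5.ZM F where
  ca := (isC5 F h5 (FreeMalcev.isMalcev (F := F) (X := ℕ))).CB.toCA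
  z1 := (isC5 F h5 (FreeMalcev.isMalcev (F := F) (X := ℕ))).z1
  cR2 := (isC5 F h5 (FreeMalcev.isMalcev (F := F) (X := ℕ))).cR2
  cRR := (isC5 F h5 (FreeMalcev.isMalcev (F := F) (X := ℕ))).cRR

variable (F) in
/-- the quotient by the ideal generated by the values of `c` -/
theorem bq (h5 : (5 : F) = 0) : W5.IsA5 (W5.BQ F) := by
  have hs : ∀ a : W5.BQ F, ∃ b : FreeMalcev F ℕ, W5.pq F b = a := fun a => IQ.mk_surj a
  have hA : IsMalcev (FreeMalcev F ℕ) := FreeMalcev.isMalcev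
  apply isA5 F h5
  · refine { sq := ?_, mal := ?_ }
    · intro x
      obtain ⟨x, rfl⟩ := hs x
      rw [← map_mul, hA.sq, map_zero]
    · intro x y z
      obtain ⟨x, rfl⟩ := hs x
      obtain ⟨y, rfl⟩ := hs y
      obtain ⟨z, rfl⟩ := hs z
      rw [← map_mul, ← hom_Jac, ← hom_Jac, ← map_mul, hA.mal]
  · intro x0 x1 x2 x3 x4 x5
    obtain ⟨x0, rfl⟩ := hs x0
    obtain ⟨x1, rfl⟩ := hs x1
    obtain ⟨x2, rfl⟩ := hs x2
    obtain ⟨x3, rfl⟩ := hs x3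
    obtain ⟨x4, rfl⟩ := hs x4
    obtain ⟨x5, rfl⟩ := hs x5
    rw [← W5.hom_cc]
    exact W5.pq_eq_zero.2 (W5.cc_mem_Qc F _ _ _ _ _ _)

theorem QF_QV {q : FreeMalcev F ℕ} (hq : q ∈ QF F (FreeMalcev F ℕ)) : q ∈ W5.QV F (FreeMalcev F ℕ) := by
  have h : QF F (FreeMalcev F ℕ) ≤ W5.QV F (FreeMalcev F ℕ) :=
    QF_le F (W5.QV_idl F) (fun a b c d v z => W5.fv_mem_QV F a b c d z v)
  exact h hq

theorem isQc : Z5.IsQc (W5.Qc F (FreeMalcev F ℕ)) := fun _ h1 h2 => W5.Qc_le F h1 h2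

end Q5Aux

open Q5Aux

variable [C23 F]

/-- (Q5): not seven letters -/
theorem Q5_main (h5 : (5 : F) = 0) {L : Finset ℕ} (hL : L.card ≠ 7) {q : FreeMalcev F ℕ}
    (hq : q ∈ QF F (FreeMalcev F ℕ)) (hm : q ∈ GM F L.val) (h0 : phi F q = 0) : q = 0 :=
  Z5.Z5_main (zm F h5) h5 isQc
    (W5.W5_main (bq F h5) h5 (QF_QV hq) hm (fun i => by rw [h0]; rfl)) hm hL h0

/-- (Q5): seven letters -/
theorem Q5_seven (h5 : (5 : F) = 0) {L : Finset ℕ} (hL : L.card = 7) {q : FreeMalcev F ℕ}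
    (hq : q ∈ QF F (FreeMalcev F ℕ)) (hm : q ∈ GM F L.val) (h0 : phi F q = 0) {i j : ℕ} (hi : i ∈ L)
    (hj : j ∈ L) (hij : i ≠ j) :
    FreeMalcev.lift FreeMalcev.isMalcev (fun k => FreeMalcev.of (Equiv.swap i j k)) q = - q :=
  Z5.Z7_main (zm F h5) (isC5 F h5 FreeMalcev.isMalcev).z0 h5 isQc hL
    (W5.W5_main (bq F h5) h5 (QF_QV hq) hm (fun i => by rw [h0]; rfl)) hm h0 hi hj hij

/-- (Q5') -/
theorem Q5_high (h5 : (5 : F) = 0) {m : Multiset ℕ} {i : ℕ} (hi : 4 ≤ m.count i)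
    {q : FreeMalcev F ℕ} (hq : q ∈ QF F (FreeMalcev F ℕ)) (hm : q ∈ GM F m) : q = 0 :=
  Z5.Z5_high (zm F h5) isQc hi (W5.QV_high (bq F h5) h5 hi (QF_QV hq) hm) hm

end Pool.Agent.MalP
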