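import Pool.Agent.MalP.P5.Ex5

/-! # Characteristic 5: the exact identities as expressions -/

set_option autoImplicit false

namespace Pool.Agent.MalP

universe u v

open PEx

/-- (z0) `c(X5, b) b = 0`: letters 0..3 odd; 4; 5 = 6 -/
def z0Ex : PEx := cc (.X 0) (.X 1) (.X 2) (.X 3) (.X 4) (.X 5) * .X 6

/-- (W1) letters 0..3 and 4, 5 odd; 6 -/
def W1xEx : PEx :=
  2 • fv (.X 0) (.X 1) (.X 2) (.X 3) (.X 6) (.X 4 * .X 5) -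
    cc (.X 4 * .X 5) (.X 0) (.X 1) (.X 2) (.X 3) (.X 6) +
    cc (.X 0) (.X 1) (.X 2) (.X 3) (.X 6) (.X 4) * .X 5

/-- (W2) letters 0..2 and 3, 4 odd; 5 = 6 -/
def W2xEx : PEx :=
  2 • fv (.X 3 * .X 4) (.X 0) (.X 1) (.X 2) (.X 5) (.X 6) -
    2 • cc (.X 5 * .X 3) (.X 4) (.X 0) (.X 1) (.X 2) (.X 6) +
    cc (.X 5 * .X 0) (.X 1) (.X 2) (.X 3) (.X 4) (.X 6)

/-- (W3) letters 0..2 odd; 3 = 4; 5 = 6 -/
def W3xEx : PEx :=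
  fv (.X 0) (.X 1) (.X 2) (.X 3) (.X 5) (.X 4) * .X 6 +
    cc (.X 3 * .X 5) (.X 0) (.X 1) (.X 2) (.X 4) (.X 6)

/-- (W4) letters 0..2 odd; 3; 4; 5 = 6 -/
def W4xEx : PEx :=
  2 • (fv (.X 4) (.X 5) (.X 0) (.X 1) (.X 2) (.X 3) * .X 6) -
    2 • fv (.X 4 * .X 5) (.X 6) (.X 0) (.X 1) (.X 2) (.X 3) +
    cc (.X 5 * .X 3) (.X 4) (.X 6) (.X 0) (.X 1) (.X 2)

/-- (zP) letters 0..3 and 4..6 odd -/
def zPEx : PEx :=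
  cc (.X 0) (.X 1) (.X 2) (.X 3) (.X 4) (.X 5) * .X 6 +
    6 • cc (.X 0 * .X 1) (.X 2) (.X 3) (.X 4) (.X 5) (.X 6) +
    12 • cc (.X 3 * .X 4) (.X 0) (.X 1) (.X 2) (.X 5) (.X 6) +
    3 • cc (.X 4 * .X 5) (.X 0) (.X 1) (.X 2) (.X 3) (.X 6)

/-- (E) `c(X6) (ab) = 0`: letters 0..3 and 4..7 odd -/
def zEEx : PEx := cc (.X 0) (.X 1) (.X 2) (.X 3) (.X 4) (.X 5) * (.X 6 * .X 7)

/-- the identities: Malcev, `5 = 0` -/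
def idsM5 : List PEx := [antiEx, sagleEx, fiveEx]

theorem idsM5_ml : ∀ e ∈ idsM5, e.ml = true := by decide +kernel

theorem exZ5_ml : [z0Ex, W1xEx, W2xEx, W3xEx, W4xEx, zPEx, zEEx].all PEx.ml = true := by
  decide +kernel

end Pool.Agent.MalP
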