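import Pool.Agent.MalP.Check4
import Pool.Agent.MalP.P5.ExZ5

/-! # Certificate of zEEx -/

set_option autoImplicit false
set_option maxRecDepth 100000

namespace Pool.Agent.MalP

universe u

namespace Chk

noncomputable def dzE_c49 : Cm := .mk (nat_lit 10) (nat_lit 49) (nat_lit 12) (nat_lit 3) (.c (nat_lit 3) (nat_lit 1) (nat_lit 2) (nat_lit 1) (nat_lit 3) (.c (nat_lit 5) (nat_lit 1) (nat_lit 1) (nat_lit 1) (nat_lit 4) (.c (nat_lit 6) (nat_lit 2) (nat_lit 0) (nat_lit 1) (nat_lit 5) .nil)))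

noncomputable def dzE_c34 : Cm := .mk (nat_lit 14) (nat_lit 34) (nat_lit 15) (nat_lit 3) (.c (nat_lit 3) (nat_lit 1) (nat_lit 3) (nat_lit 1) (nat_lit 3) (.c (nat_lit 4) (nat_lit 1) (nat_lit 2) (nat_lit 1) (nat_lit 4) (.c (nat_lit 6) (nat_lit 2) (nat_lit 1) (nat_lit 1) (nat_lit 5) (.c (nat_lit 8) (nat_lit 2) (nat_lit 0) (nat_lit 1) (nat_lit 7) .nil))))

noncomputable def dzE_c19 : Cm := .mk (nat_lit 19) (nat_lit 19) (nat_lit 18) (nat_lit 3) (.c (nat_lit 4) (nat_lit 1) (nat_lit 3) (nat_lit 1) (nat_lit 3) (.c (nat_lit 8) (nat_lit 2) (nat_lit 1) (nat_lit 1) (nat_lit 4) (.c (nat_lit 10) (nat_lit 1) (nat_lit 0) (nat_lit 1) (nat_lit 6) .nil)))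

noncomputable def dzE_c65 : Cm := .mk (nat_lit 24) (nat_lit 65) (nat_lit 22) (nat_lit 4) (.c (nat_lit 5) (nat_lit 1) (nat_lit 3) (nat_lit 1) (nat_lit 4) (.c (nat_lit 6) (nat_lit 2) (nat_lit 2) (nat_lit 1) (nat_lit 5) (.c (nat_lit 11) (nat_lit 1) (nat_lit 1) (nat_lit 1) (nat_lit 7) (.c (nat_lit 12) (nat_lit 3) (nat_lit 0) (nat_lit 1) (nat_lit 8) .nil))))

noncomputable def dzE_c50 : Cm := .mk (nat_lit 30) (nat_lit 50) (nat_lit 26) (nat_lit 6) (.c (nat_lit 5) (nat_lit 1) (nat_lit 4) (nat_lit 1) (nat_lit 6) (.c (nat_lit 6) (nat_lit 2) (nat_lit 3) (nat_lit 1) (nat_lit 7) (.c (nat_lit 8) (nat_lit 2) (nat_lit 2) (nat_lit 1) (nat_lit 9) (.c (nat_lit 12) (nat_lit 3) (nat_lit 1) (nat_lit 1) (nat_lit 11) (.c (nat_lit 15) (nat_lit 3) (nat_lit 0) (nat_lit 1) (nat_lit 14) .nil)))))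

noncomputable def dzE_c35 : Cm := .mk (nat_lit 41) (nat_lit 35) (nat_lit 32) (nat_lit 6) (.c (nat_lit 6) (nat_lit 2) (nat_lit 4) (nat_lit 1) (nat_lit 6) (.c (nat_lit 8) (nat_lit 2) (nat_lit 3) (nat_lit 1) (nat_lit 8) (.c (nat_lit 10) (nat_lit 1) (nat_lit 2) (nat_lit 1) (nat_lit 10) (.c (nat_lit 15) (nat_lit 3) (nat_lit 1) (nat_lit 1) (nat_lit 11) (.c (nat_lit 18) (nat_lit 3) (nat_lit 0) (nat_lit 1) (nat_lit 14) .nil)))))

noncomputable def dzE_c20 : Cm := .mk (nat_lit 52) (nat_lit 20) (nat_lit 38) (nat_lit 4) (.c (nat_lit 8) (nat_lit 2) (nat_lit 4) (nat_lit 1) (nat_lit 4) (.c (nat_lit 10) (nat_lit 1) (nat_lit 3) (nat_lit 1) (nat_lit 6) (.c (nat_lit 18) (nat_lit 3) (nat_lit 1) (nat_lit 1) (nat_lit 7) (.c (nat_lit 21) (nat_lit 1) (nat_lit 0) (nat_lit 1) (nat_lit 10) .nil))))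

noncomputable def dzE_c66 : Cm := .mk (nat_lit 59) (nat_lit 66) (nat_lit 42) (nat_lit 10) (.c (nat_lit 6) (nat_lit 2) (nat_lit 6) (nat_lit 2) (nat_lit 10) (.c (nat_lit 8) (nat_lit 2) (nat_lit 5) (nat_lit 1) (nat_lit 14) (.c (nat_lit 11) (nat_lit 1) (nat_lit 4) (nat_lit 1) (nat_lit 16) (.c (nat_lit 12) (nat_lit 3) (nat_lit 3) (nat_lit 1) (nat_lit 17) (.c (nat_lit 15) (nat_lit 3) (nat_lit 2) (nat_lit 1) (nat_lit 20) (.c (nat_lit 22) (nat_lit 4) (nat_lit 1) (nat_lit 1) (nat_lit 23) (.c (nat_lit 26) (nat_lit 6) (nat_lit 0) (nat_lit 1) (nat_lit 27) .nil)))))))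

noncomputable def dzE_c51 : Cm := .mk (nat_lit 80) (nat_lit 51) (nat_lit 52) (nat_lit 11) (.c (nat_lit 8) (nat_lit 2) (nat_lit 6) (nat_lit 2) (nat_lit 11) (.c (nat_lit 10) (nat_lit 1) (nat_lit 5) (nat_lit 1) (nat_lit 15) (.c (nat_lit 12) (nat_lit 3) (nat_lit 4) (nat_lit 1) (nat_lit 16) (.c (nat_lit 15) (nat_lit 3) (nat_lit 3) (nat_lit 1) (nat_lit 19) (.c (nat_lit 18) (nat_lit 3) (nat_lit 2) (nat_lit 1) (nat_lit 22) (.c (nat_lit 26) (nat_lit 6) (nat_lit 1) (nat_lit 1) (nat_lit 25) (.c (nat_lit 32) (nat_lit 6) (nat_lit 0) (nat_lit 1) (nat_lit 31) .nil)))))))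

noncomputable def dzE_c36 : Cm := .mk (nat_lit 104) (nat_lit 36) (nat_lit 63) (nat_lit 10) (.c (nat_lit 8) (nat_lit 2) (nat_lit 8) (nat_lit 2) (nat_lit 10) (.c (nat_lit 10) (nat_lit 1) (nat_lit 6) (nat_lit 2) (nat_lit 14) (.c (nat_lit 15) (nat_lit 3) (nat_lit 4) (nat_lit 1) (nat_lit 16) (.c (nat_lit 18) (nat_lit 3) (nat_lit 3) (nat_lit 1) (nat_lit 19) (.c (nat_lit 21) (nat_lit 1) (nat_lit 2) (nat_lit 1) (nat_lit 22) (.c (nat_lit 32) (nat_lit 6) (nat_lit 1) (nat_lit 1) (nat_lit 23) (.c (nat_lit 38) (nat_lit 4) (nat_lit 0) (nat_lit 1) (nat_lit 29) .nil)))))))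

noncomputable def dzE_c67 : Cm := .mk (nat_lit 125) (nat_lit 67) (nat_lit 73) (nat_lit 16) (.c (nat_lit 11) (nat_lit 1) (nat_lit 10) (nat_lit 1) (nat_lit 16) (.c (nat_lit 12) (nat_lit 3) (nat_lit 8) (nat_lit 2) (nat_lit 17) (.c (nat_lit 15) (nat_lit 3) (nat_lit 6) (nat_lit 2) (nat_lit 23) (.c (nat_lit 18) (nat_lit 3) (nat_lit 5) (nat_lit 1) (nat_lit 29) (.c (nat_lit 22) (nat_lit 4) (nat_lit 4) (nat_lit 1) (nat_lit 32) (.c (nat_lit 26) (nat_lit 6) (nat_lit 3) (nat_lit 1) (nat_lit 36) (.c (nat_lit 32) (nat_lit 6) (nat_lit 2) (nat_lit 1) (nat_lit 42) (.c (nat_lit 42) (nat_lit 10) (nat_lit 1) (nat_lit 1) (nat_lit 48) (.c (nat_lit 52) (nat_lit 11) (nat_lit 0) (nat_lit 1) (nat_lit 58) .nil)))))))))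

noncomputable def dzE_c52 : Cm := .mk (nat_lit 170) (nat_lit 52) (nat_lit 89) (nat_lit 16) (.c (nat_lit 12) (nat_lit 3) (nat_lit 10) (nat_lit 1) (nat_lit 16) (.c (nat_lit 15) (nat_lit 3) (nat_lit 8) (nat_lit 2) (nat_lit 19) (.c (nat_lit 18) (nat_lit 3) (nat_lit 6) (nat_lit 2) (nat_lit 25) (.c (nat_lit 21) (nat_lit 1) (nat_lit 5) (nat_lit 1) (nat_lit 31) (.c (nat_lit 26) (nat_lit 6) (nat_lit 4) (nat_lit 1) (nat_lit 32) (.c (nat_lit 32) (nat_lit 6) (nat_lit 3) (nat_lit 1) (nat_lit 38) (.c (nat_lit 38) (nat_lit 4) (nat_lit 2) (nat_lit 1) (nat_lit 44) (.c (nat_lit 52) (nat_lit 11) (nat_lit 1) (nat_lit 1) (nat_lit 48) (.c (nat_lit 63) (nat_lit 10) (nat_lit 0) (nat_lit 1) (nat_lit 59) .nil)))))))))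

noncomputable def dzE_i0 : IL := (.e true (nat_lit 4) (nat_lit 62) (nat_lit 0) (nat_lit 8) (.i false (nat_lit 6) (nat_lit 2) (.c (nat_lit 36) (nat_lit 35) (.c (nat_lit 2) (nat_lit 32) .nil)) (.i true (nat_lit 10) (nat_lit 2) (.c (nat_lit 33) (nat_lit 35) (.c (nat_lit 2) (nat_lit 32) .nil)) (.i false (nat_lit 2) (nat_lit 2) (.c (nat_lit 34) (nat_lit 35) (.c (nat_lit 2) (nat_lit 32) .nil)) (.i true (nat_lit 2) (nat_lit 2) (.c (nat_lit 35) (nat_lit 35) (.c (nat_lit 2) (nat_lit 32) .nil)) (.i false (nat_lit 4) (nat_lit 2) (.c (nat_lit 26) (nat_lit 50) (.c (nat_lit 3) (nat_lit 17) .nil)) (.i false (nat_lit 8) (nat_lit 2) (.c (nat_lit 29) (nat_lit 50) (.c (nat_lit 3) (nat_lit 17) .nil)) (.i true (nat_lit 8) (nat_lit 2) (.c (nat_lit 30) (nat_lit 50) (.c (nat_lit 3) (nat_lit 17) .nil)) (.i false (nat_lit 4) (nat_lit 2) (.c (nat_lit 31) (nat_lit 50) (.c (nat_lit 3) (nat_lit 17) .nil))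 (.i true (nat_lit 4) (nat_lit 2) (.c (nat_lit 48) (nat_lit 66) (.c (nat_lit 1) (nat_lit 1) .nil)) (.i true (nat_lit 8) (nat_lit 2) (.c (nat_lit 49) (nat_lit 66) (.c (nat_lit 1) (nat_lit 1) .nil)) (.i false (nat_lit 4) (nat_lit 2) (.c (nat_lit 32) (nat_lit 35) (.c (nat_lit 2) (nat_lit 32) .nil)) (.i false (nat_lit 4) (nat_lit 2) (.c (nat_lit 37) (nat_lit 35) (.c (nat_lit 2) (nat_lit 32) .nil)) (.i false (nat_lit 8) (nat_lit 2) (.c (nat_lit 51) (nat_lit 66) (.c (nat_lit 1) (nat_lit 1) .nil)) (.i false (nat_lit 4) (nat_lit 2) (.c (nat_lit 43) (nat_lit 66) (.c (nat_lit 1) (nat_lit 1) .nil)) (.i true (nat_lit 8) (nat_lit 2) (.c (nat_lit 44) (nat_lit 66) (.c (nat_lit 1) (nat_lit 1) .nil)) (.i false (nat_lit 4) (nat_lit 2) (.c (nat_lit 45) (nat_lit 66) (.c (nat_lit 1) (nat_lit 1) .nil)) (.i true (nat_lit 4) (nat_lit 2) (.c (nat_lit 16) (nat_lit 34) (.c (nat_lit 6) (nat_lit 33) .nil))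 (.i false (nat_lit 4) (nat_lit 2) (.c (nat_lit 17) (nat_lit 34) (.c (nat_lit 6) (nat_lit 33) .nil)) (.i false (nat_lit 8) (nat_lit 2) (.c (nat_lit 55) (nat_lit 51) (.c (nat_lit 0) (nat_lit 16) .nil)) (.i true (nat_lit 4) (nat_lit 2) (.c (nat_lit 60) (nat_lit 51) (.c (nat_lit 0) (nat_lit 16) .nil)) (.i true (nat_lit 4) (nat_lit 2) (.c (nat_lit 61) (nat_lit 51) (.c (nat_lit 0) (nat_lit 16) .nil)) (.i true (nat_lit 4) (nat_lit 2) (.c (nat_lit 62) (nat_lit 51) (.c (nat_lit 0) (nat_lit 16) .nil)) (.i false (nat_lit 4) (nat_lit 2) (.c (nat_lit 59) (nat_lit 51) (.c (nat_lit 0) (nat_lit 16) .nil)) (.i true (nat_lit 4) (nat_lit 2) (.c (nat_lit 12) (nat_lit 49) (.c (nat_lit 8) (nat_lit 18) .nil)) .nil)))))))))))))))))))))))))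

noncomputable def dzE_i1 : IL := (.s true (nat_lit 1) (nat_lit 4) (nat_lit 2) (nat_lit 1) (nat_lit 2) false (nat_lit 0) true (nat_lit 6) true (nat_lit 4) true (nat_lit 6) true (nat_lit 7) (.s false (nat_lit 2) (nat_lit 4) (nat_lit 2) (nat_lit 2) (nat_lit 1) true (nat_lit 2) true (nat_lit 7) true (nat_lit 4) true (nat_lit 6) true (nat_lit 6) (.s true (nat_lit 2) (nat_lit 5) (nat_lit 0) (nat_lit 4) (nat_lit 1) true (nat_lit 5) true (nat_lit 7) true (nat_lit 3) true (nat_lit 8) true (nat_lit 4) (.s false (nat_lit 1) (nat_lit 5) (nat_lit 1) (nat_lit 0) (nat_lit 4) true (nat_lit 0) true (nat_lit 4) true (nat_lit 3) true (nat_lit 7) true (nat_lit 8) (.s false (nat_lit 2) (nat_lit 6) (nat_lit 0) (nat_lit 1) (nat_lit 3) true (nat_lit 2) true (nat_lit 5) true (nat_lit 2) true (nat_lit 8) true (nat_lit 7) (.s true (nat_lit 1) (nat_lit 6) (nat_lit 1) (nat_lit 2) (nat_lit 1) true (nat_lit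 4) true (nat_lit 7) true (nat_lit 2) true (nat_lit 7) true (nat_lit 6) (.s false (nat_lit 2) (nat_lit 7) (nat_lit 2) (nat_lit 1) (nat_lit 1) true (nat_lit 2) true (nat_lit 7) true (nat_lit 2) true (nat_lit 6) true (nat_lit 7) (.s false (nat_lit 2) (nat_lit 8) (nat_lit 0) (nat_lit 2) (nat_lit 1) true (nat_lit 5) true (nat_lit 7) true (nat_lit 1) true (nat_lit 8) true (nat_lit 6) (.s true (nat_lit 2) (nat_lit 9) (nat_lit 0) (nat_lit 2) (nat_lit 1) true (nat_lit 5) true (nat_lit 7) true (nat_lit 1) true (nat_lit 8) true (nat_lit 6) (.s true (nat_lit 1) (nat_lit 9) (nat_lit 2) (nat_lit 0) (nat_lit 1) true (nat_lit 2) true (nat_lit 7) true (nat_lit 1) true (nat_lit 6) true (nat_lit 8) (.s false (nat_lit 1) (nat_lit 10) (nat_lit 2) (nat_lit 0) (nat_lit 0) true (nat_lit 3) true (nat_lit 8) true (nat_lit 0) true (nat_lit 6) true (nat_lit 8) (.s false (nat_lit 2) (nat_lit 12) (nat_lit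 0) (nat_lit 1) (nat_lit 1) true (nat_lit 5) true (nat_lit 7) false (nat_lit 1) true (nat_lit 8) true (nat_lit 7) (.s false (nat_lit 1) (nat_lit 12) (nat_lit 1) (nat_lit 0) (nat_lit 1) true (nat_lit 4) true (nat_lit 7) false (nat_lit 1) true (nat_lit 7) true (nat_lit 8) (.s false (nat_lit 1) (nat_lit 12) (nat_lit 1) (nat_lit 1) (nat_lit 0) true (nat_lit 5) true (nat_lit 8) false (nat_lit 1) true (nat_lit 7) true (nat_lit 7) (.s false (nat_lit 1) (nat_lit 19) (nat_lit 0) (nat_lit 0) (nat_lit 0) true (nat_lit 6) true (nat_lit 8) false (nat_lit 3) true (nat_lit 8) true (nat_lit 8) (.e true (nat_lit 2) (nat_lit 33) (nat_lit 2) (nat_lit 6) (.e false (nat_lit 2) (nat_lit 34) (nat_lit 2) (nat_lit 6) (.e false (nat_lit 2) (nat_lit 35) (nat_lit 2) (nat_lit 6) (.e true (nat_lit 4) (nat_lit 31) (nat_lit 3) (nat_lit 5) (.e false (nat_lit 4) (nat_lit 48) (nat_lit 1) (nat_lit 7) (.e true (nat_lit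 4) (nat_lit 51) (nat_lit 1) (nat_lit 7) (.e true (nat_lit 2) (nat_lit 42) (nat_lit 1) (nat_lit 7) (.e true (nat_lit 2) (nat_lit 44) (nat_lit 1) (nat_lit 7) (.e false (nat_lit 4) (nat_lit 45) (nat_lit 1) (nat_lit 7) (.e true (nat_lit 2) (nat_lit 55) (nat_lit 0) (nat_lit 8) dzE_i0)))))))))))))))))))))))))

noncomputable def dzE_i2 : IL := (.s false (nat_lit 1) (nat_lit 9) (nat_lit 2) (nat_lit 0) (nat_lit 1) true (nat_lit 2) true (nat_lit 7) true (nat_lit 1) true (nat_lit 6) true (nat_lit 8) (.s false (nat_lit 2) (nat_lit 11) (nat_lit 1) (nat_lit 1) (nat_lit 1) true (nat_lit 4) true (nat_lit 7) false (nat_lit 0) true (nat_lit 7) true (nat_lit 7) (.s false (nat_lit 1) (nat_lit 12) (nat_lit 0) (nat_lit 1) (nat_lit 1) true (nat_lit 5) true (nat_lit 7) false (nat_lit 1) true (nat_lit 8) true (nat_lit 7) (.s false (nat_lit 2) (nat_lit 12) (nat_lit 1) (nat_lit 0) (nat_lit 1) true (nat_lit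 4) true (nat_lit 7) false (nat_lit 1) true (nat_lit 7) true (nat_lit 8) (.s false (nat_lit 1) (nat_lit 12) (nat_lit 1) (nat_lit 1) (nat_lit 0) true (nat_lit 5) true (nat_lit 8) false (nat_lit 1) true (nat_lit 7) true (nat_lit 7) (.s false (nat_lit 2) (nat_lit 19) (nat_lit 0) (nat_lit 0) (nat_lit 0) true (nat_lit 6) true (nat_lit 8) false (nat_lit 3) true (nat_lit 8) true (nat_lit 8) (.e true (nat_lit 2) (nat_lit 34) (nat_lit 2) (nat_lit 6) (.e false (nat_lit 2) (nat_lit 35) (nat_lit 2) (nat_lit 6) (.e false (nat_lit 2) (nat_lit 44) (nat_lit 1) (nat_lit 7) (.e true (nat_lit 4) (nat_lit 48) (nat_lit 1) (nat_lit 7) (.e false (nat_lit 4) (nat_lit 55) (nat_lit 0) (nat_lit 8) (.e true (nat_lit 2) (nat_lit 56) (nat_lit 0) (nat_lit 8) (.e false (nat_lit 2) (nat_lit 57) (nat_lit 0) (nat_lit 8) (.e true (nat_lit 4) (nat_lit 62) (nat_lit 0) (nat_lit 8) (.i false (nat_lit 4) (nat_lit 2) (.c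 (nat_lit 58) (nat_lit 51) (.c (nat_lit 0) (nat_lit 16) .nil)) (.i true (nat_lit 4) (nat_lit 2) (.c (nat_lit 12) (nat_lit 49) (.c (nat_lit 8) (nat_lit 18) .nil)) (.i false (nat_lit 4) (nat_lit 2) (.c (nat_lit 26) (nat_lit 50) (.c (nat_lit 3) (nat_lit 17) .nil)) (.i false (nat_lit 4) (nat_lit 2) (.c (nat_lit 33) (nat_lit 35) (.c (nat_lit 2) (nat_lit 32) .nil)) (.i false (nat_lit 4) (nat_lit 2) (.c (nat_lit 23) (nat_lit 65) (.c (nat_lit 4) (nat_lit 2) .nil)) (.i false (nat_lit 4) (nat_lit 2) (.c (nat_lit 42) (nat_lit 66) (.c (nat_lit 1) (nat_lit 1) .nil)) (.i true (nat_lit 4) (nat_lit 2) (.c (nat_lit 45) (nat_lit 66) (.c (nat_lit 1) (nat_lit 1) .nil)) (.i false (nat_lit 4) (nat_lit 2) (.c (nat_lit 49) (nat_lit 66) (.c (nat_lit 1) (nat_lit 1) .nil)) (.i true (nat_lit 4) (nat_lit 2) (.c (nat_lit 16) (nat_lit 34) (.c (nat_lit 6) (nat_lit 33) .nil)) (.i true (nat_lit 4) (nat_lit 2) (.c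 (nat_lit 19) (nat_lit 19) (.c (nat_lit 5) (nat_lit 48) .nil)) (.i true (nat_lit 4) (nat_lit 2) (.c (nat_lit 57) (nat_lit 51) (.c (nat_lit 0) (nat_lit 16) .nil)) .nil)))))))))))))))))))))))))

noncomputable def dzE_i3 : IL := (.e false (nat_lit 20) (nat_lit 48) (nat_lit 1) (nat_lit 7) (.e true (nat_lit 10) (nat_lit 51) (nat_lit 1) (nat_lit 7) (.e true (nat_lit 10) (nat_lit 55) (nat_lit 0) (nat_lit 8) (.i true (nat_lit 4) (nat_lit 2) (.c (nat_lit 43) (nat_lit 66) (.c (nat_lit 1) (nat_lit 1) .nil)) (.i false (nat_lit 10) (nat_lit 2) (.c (nat_lit 33) (nat_lit 35) (.c (nat_lit 2) (nat_lit 32) .nil)) (.i true (nat_lit 2) (nat_lit 2) (.c (nat_lit 34) (nat_lit 35) (.c (nat_lit 2) (nat_lit 32) .nil)) (.i true (nat_lit 2) (nat_lit 2) (.c (nat_lit 35) (nat_lit 35) (.c (nat_lit 2) (nat_lit 32) .nil)) (.i true (nat_lit 2) (nat_lit 2) (.c (nat_lit 36) (nat_lit 35) (.c (nat_lit 2) (nat_lit 32)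 .nil)) (.i false (nat_lit 4) (nat_lit 2) (.c (nat_lit 16) (nat_lit 34) (.c (nat_lit 6) (nat_lit 33) .nil)) (.i true (nat_lit 4) (nat_lit 2) (.c (nat_lit 17) (nat_lit 34) (.c (nat_lit 6) (nat_lit 33) .nil)) (.i true (nat_lit 8) (nat_lit 2) (.c (nat_lit 51) (nat_lit 66) (.c (nat_lit 1) (nat_lit 1) .nil)) (.i false (nat_lit 4) (nat_lit 2) (.c (nat_lit 42) (nat_lit 66) (.c (nat_lit 1) (nat_lit 1) .nil)) (.i false (nat_lit 4) (nat_lit 2) (.c (nat_lit 44) (nat_lit 66) (.c (nat_lit 1) (nat_lit 1) .nil)) (.i true (nat_lit 4) (nat_lit 2) (.c (nat_lit 45) (nat_lit 66) (.c (nat_lit 1) (nat_lit 1) .nil)) (.i false (nat_lit 4) (nat_lit 2) (.c (nat_lit 48) (nat_lit 66) (.c (nat_lit 1) (nat_lit 1) .nil)) (.i false (nat_lit 4) (nat_lit 2) (.c (nat_lit 49) (nat_lit 66) (.c (nat_lit 1) (nat_lit 1) .nil)) (.i true (nat_lit 4) (nat_lit 2) (.c (nat_lit 32) (nat_lit 35) (.c (nat_lit 2) (nat_lit 32)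 .nil)) (.i true (nat_lit 4) (nat_lit 2) (.c (nat_lit 37) (nat_lit 35) (.c (nat_lit 2) (nat_lit 32) .nil)) (.i false (nat_lit 4) (nat_lit 2) (.c (nat_lit 31) (nat_lit 50) (.c (nat_lit 3) (nat_lit 17) .nil)) (.i false (nat_lit 4) (nat_lit 2) (.c (nat_lit 42) (nat_lit 66) (.c (nat_lit 1) (nat_lit 1) .nil)) (.i false (nat_lit 4) (nat_lit 2) (.c (nat_lit 44) (nat_lit 66) (.c (nat_lit 1) (nat_lit 1) .nil)) (.i true (nat_lit 4) (nat_lit 2) (.c (nat_lit 45) (nat_lit 66) (.c (nat_lit 1) (nat_lit 1) .nil)) (.i true (nat_lit 8) (nat_lit 2) (.c (nat_lit 48) (nat_lit 66) (.c (nat_lit 1) (nat_lit 1) .nil)) (.i false (nat_lit 4) (nat_lit 2) (.c (nat_lit 51) (nat_lit 66) (.c (nat_lit 1) (nat_lit 1) .nil)) (.i false (nat_lit 4) (nat_lit 2) (.c (nat_lit 55) (nat_lit 51) (.c (nat_lit 0) (nat_lit 16) .nil)) .nil)))))))))))))))))))))))))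

noncomputable def dzE_i4 : IL := (.i false (nat_lit 4) (nat_lit 2) (.c (nat_lit 23) (nat_lit 65) (.c (nat_lit 4) (nat_lit 2) .nil)) (.i true (nat_lit 4) (nat_lit 2) (.c (nat_lit 51) (nat_lit 66) (.c (nat_lit 1) (nat_lit 1) .nil)) (.i false (nat_lit 8) (nat_lit 2) (.c (nat_lit 42) (nat_lit 66) (.c (nat_lit 1) (nat_lit 1) .nil)) (.i true (nat_lit 8) (nat_lit 2) (.c (nat_lit 43) (nat_lit 66) (.c (nat_lit 1) (nat_lit 1) .nil)) (.i false (nat_lit 4) (nat_lit 2) (.c (nat_lit 44) (nat_lit 66) (.c (nat_lit 1) (nat_lit 1) .nil)) (.i true (nat_lit 4) (nat_lit 2) (.c (nat_lit 45) (nat_lit 66) (.c (nat_lit 1) (nat_lit 1) .nil)) (.i true (nat_lit 4) (nat_lit 2) (.c (nat_lit 17) (nat_lit 34) (.c (nat_lit 6) (nat_lit 33) .nil)) (.i true (nat_lit 4) (nat_lit 2) (.c (nat_lit 19) (nat_lit 19) (.c (nat_lit 5) (nat_lit 48) .nil)) (.i true (nat_lit 4) (nat_lit 2) (.c (nat_lit 53) (nat_lit 51) (.c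 (nat_lit 0) (nat_lit 16) .nil)) (.i false (nat_lit 4) (nat_lit 2) (.c (nat_lit 54) (nat_lit 51) (.c (nat_lit 0) (nat_lit 16) .nil)) (.i true (nat_lit 8) (nat_lit 2) (.c (nat_lit 55) (nat_lit 51) (.c (nat_lit 0) (nat_lit 16) .nil)) (.i true (nat_lit 4) (nat_lit 2) (.c (nat_lit 56) (nat_lit 51) (.c (nat_lit 0) (nat_lit 16) .nil)) (.i true (nat_lit 8) (nat_lit 2) (.c (nat_lit 57) (nat_lit 51) (.c (nat_lit 0) (nat_lit 16) .nil)) (.i false (nat_lit 8) (nat_lit 2) (.c (nat_lit 58) (nat_lit 51) (.c (nat_lit 0) (nat_lit 16) .nil)) (.i false (nat_lit 4) (nat_lit 2) (.c (nat_lit 60) (nat_lit 51) (.c (nat_lit 0) (nat_lit 16) .nil)) (.i false (nat_lit 4) (nat_lit 2) (.c (nat_lit 61) (nat_lit 51) (.c (nat_lit 0) (nat_lit 16) .nil)) (.i false (nat_lit 4) (nat_lit 2) (.c (nat_lit 62) (nat_lit 51) (.c (nat_lit 0) (nat_lit 16) .nil)) (.i true (nat_lit 4) (nat_lit 2) (.c (nat_lit 59) (nat_lit 51)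 (.c (nat_lit 0) (nat_lit 16) .nil)) (.i true (nat_lit 4) (nat_lit 2) (.c (nat_lit 12) (nat_lit 49) (.c (nat_lit 8) (nat_lit 18) .nil)) (.i true (nat_lit 4) (nat_lit 2) (.c (nat_lit 34) (nat_lit 35) (.c (nat_lit 2) (nat_lit 32) .nil)) (.i true (nat_lit 4) (nat_lit 2) (.c (nat_lit 45) (nat_lit 66) (.c (nat_lit 1) (nat_lit 1) .nil)) (.i false (nat_lit 4) (nat_lit 2) (.c (nat_lit 51) (nat_lit 66) (.c (nat_lit 1) (nat_lit 1) .nil)) (.i false (nat_lit 4) (nat_lit 2) (.c (nat_lit 55) (nat_lit 51) (.c (nat_lit 0) (nat_lit 16) .nil)) (.i false (nat_lit 4) (nat_lit 2) (.c (nat_lit 62) (nat_lit 51) (.c (nat_lit 0) (nat_lit 16) .nil)) (.i false (nat_lit 4) (nat_lit 2) (.c (nat_lit 31) (nat_lit 50) (.c (nat_lit 3) (nat_lit 17) .nil)) .nil)))))))))))))))))))))))))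

noncomputable def dzE_i5 : IL := (.e true (nat_lit 2) (nat_lit 34) (nat_lit 2) (nat_lit 6) (.e true (nat_lit 4) (nat_lit 35) (nat_lit 2) (nat_lit 6) (.e true (nat_lit 4) (nat_lit 36) (nat_lit 2) (nat_lit 6) (.e false (nat_lit 2) (nat_lit 31) (nat_lit 3) (nat_lit 5) (.e false (nat_lit 2) (nat_lit 43) (nat_lit 1) (nat_lit 7) (.e false (nat_lit 2) (nat_lit 44) (nat_lit 1) (nat_lit 7) (.e true (nat_lit 2) (nat_lit 45) (nat_lit 1) (nat_lit 7) (.e false (nat_lit 2) (nat_lit 55) (nat_lit 0) (nat_lit 8) (.e false (nat_lit 2) (nat_lit 62) (nat_lit 0) (nat_lit 8) (.e false (nat_lit 10) (nat_lit 34) (nat_lit 2) (nat_lit 6) (.e false (nat_lit 10) (nat_lit 45) (nat_lit 1) (nat_lit 7) (.e true (nat_lit 10) (nat_lit 51) (nat_lit 1) (nat_lit 7) (.e true (nat_lit 10) (nat_lit 55) (nat_lit 0) (nat_lit 8) (.e true (nat_lit 10) (nat_lit 62) (nat_lit 0) (nat_lit 8) (.e true (nat_lit 10) (nat_lit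 31) (nat_lit 3) (nat_lit 5) (.i false (nat_lit 4) (nat_lit 2) (.c (nat_lit 52) (nat_lit 51) (.c (nat_lit 0) (nat_lit 16) .nil)) (.i false (nat_lit 2) (nat_lit 2) (.c (nat_lit 33) (nat_lit 35) (.c (nat_lit 2) (nat_lit 32) .nil)) (.i false (nat_lit 2) (nat_lit 2) (.c (nat_lit 34) (nat_lit 35) (.c (nat_lit 2) (nat_lit 32) .nil)) (.i false (nat_lit 2) (nat_lit 2) (.c (nat_lit 35) (nat_lit 35) (.c (nat_lit 2) (nat_lit 32) .nil)) (.i false (nat_lit 2) (nat_lit 2) (.c (nat_lit 36) (nat_lit 35) (.c (nat_lit 2) (nat_lit 32) .nil)) (.i false (nat_lit 4) (nat_lit 2) (.c (nat_lit 26) (nat_lit 50) (.c (nat_lit 3) (nat_lit 17) .nil)) (.i false (nat_lit 4) (nat_lit 2) (.c (nat_lit 29) (nat_lit 50) (.c (nat_lit 3) (nat_lit 17) .nil)) (.i true (nat_lit 4) (nat_lit 2) (.c (nat_lit 30) (nat_lit 50) (.c (nat_lit 3) (nat_lit 17) .nil)) (.i false (nat_lit 4) (nat_lit 2) (.c (nat_lit 48) (nat_lit 66)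 (.c (nat_lit 1) (nat_lit 1) .nil)) (.i false (nat_lit 4) (nat_lit 2) (.c (nat_lit 49) (nat_lit 66) (.c (nat_lit 1) (nat_lit 1) .nil)) dzE_i4)))))))))))))))))))))))))

noncomputable def dzE_i6 : IL := (.i true (nat_lit 4) (nat_lit 2) (.c (nat_lit 17) (nat_lit 34) (.c (nat_lit 6) (nat_lit 33) .nil)) (.i true (nat_lit 4) (nat_lit 2) (.c (nat_lit 51) (nat_lit 66) (.c (nat_lit 1) (nat_lit 1) .nil)) (.i true (nat_lit 4) (nat_lit 2) (.c (nat_lit 43) (nat_lit 66) (.c (nat_lit 1) (nat_lit 1) .nil)) (.i false (nat_lit 4) (nat_lit 2) (.c (nat_lit 44) (nat_lit 66) (.c (nat_lit 1) (nat_lit 1) .nil)) (.i true (nat_lit 4) (nat_lit 2) (.c (nat_lit 32) (nat_lit 35) (.c (nat_lit 2) (nat_lit 32) .nil)) (.i true (nat_lit 4) (nat_lit 2) (.c (nat_lit 37) (nat_lit 35) (.c (nat_lit 2) (nat_lit 32) .nil)) (.i false (nat_lit 4) (nat_lit 2) (.c (nat_lit 19) (nat_lit 19) (.c (nat_lit 5) (nat_lit 48) .nil))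 (.i false (nat_lit 8) (nat_lit 2) (.c (nat_lit 53) (nat_lit 51) (.c (nat_lit 0) (nat_lit 16) .nil)) (.i true (nat_lit 8) (nat_lit 2) (.c (nat_lit 54) (nat_lit 51) (.c (nat_lit 0) (nat_lit 16) .nil)) (.i false (nat_lit 4) (nat_lit 2) (.c (nat_lit 55) (nat_lit 51) (.c (nat_lit 0) (nat_lit 16) .nil)) (.i false (nat_lit 4) (nat_lit 2) (.c (nat_lit 58) (nat_lit 51) (.c (nat_lit 0) (nat_lit 16) .nil)) (.i false (nat_lit 4) (nat_lit 2) (.c (nat_lit 60) (nat_lit 51) (.c (nat_lit 0) (nat_lit 16) .nil)) (.i false (nat_lit 4) (nat_lit 2) (.c (nat_lit 61) (nat_lit 51) (.c (nat_lit 0) (nat_lit 16) .nil)) (.i true (nat_lit 4) (nat_lit 2) (.c (nat_lit 23) (nat_lit 65) (.c (nat_lit 4) (nat_lit 2) .nil)) (.i true (nat_lit 4) (nat_lit 2) (.c (nat_lit 59) (nat_lit 51) (.c (nat_lit 0) (nat_lit 16) .nil)) (.i false (nat_lit 4) (nat_lit 2) (.c (nat_lit 34) (nat_lit 35) (.c (nat_lit 2) (nat_lit 32)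 .nil)) (.i true (nat_lit 4) (nat_lit 2) (.c (nat_lit 42) (nat_lit 66) (.c (nat_lit 1) (nat_lit 1) .nil)) (.i true (nat_lit 4) (nat_lit 2) (.c (nat_lit 44) (nat_lit 66) (.c (nat_lit 1) (nat_lit 1) .nil)) (.i false (nat_lit 4) (nat_lit 2) (.c (nat_lit 45) (nat_lit 66) (.c (nat_lit 1) (nat_lit 1) .nil)) (.i false (nat_lit 12) (nat_lit 2) (.c (nat_lit 48) (nat_lit 66) (.c (nat_lit 1) (nat_lit 1) .nil)) (.i true (nat_lit 4) (nat_lit 2) (.c (nat_lit 51) (nat_lit 66) (.c (nat_lit 1) (nat_lit 1) .nil)) (.i true (nat_lit 4) (nat_lit 2) (.c (nat_lit 55) (nat_lit 51) (.c (nat_lit 0) (nat_lit 16) .nil)) (.i true (nat_lit 4) (nat_lit 2) (.c (nat_lit 31) (nat_lit 50) (.c (nat_lit 3) (nat_lit 17) .nil)) (.i true (nat_lit 4) (nat_lit 2) (.c (nat_lit 33) (nat_lit 35) (.c (nat_lit 2) (nat_lit 32) .nil)) (.i true (nat_lit 4) (nat_lit 2) (.c (nat_lit 57) (nat_lit 51) (.c (nat_lit 0) (nat_lit 16)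 .nil)) .nil)))))))))))))))))))))))))

noncomputable def dzE_i7 : IL := (.e false (nat_lit 2) (nat_lit 31) (nat_lit 3) (nat_lit 5) (.e false (nat_lit 4) (nat_lit 48) (nat_lit 1) (nat_lit 7) (.e true (nat_lit 4) (nat_lit 42) (nat_lit 1) (nat_lit 7) (.e false (nat_lit 2) (nat_lit 43) (nat_lit 1) (nat_lit 7) (.e false (nat_lit 2) (nat_lit 44) (nat_lit 1) (nat_lit 7) (.e true (nat_lit 2) (nat_lit 57) (nat_lit 0) (nat_lit 8) (.e true (nat_lit 4) (nat_lit 58) (nat_lit 0) (nat_lit 8) (.e true (nat_lit 2) (nat_lit 59) (nat_lit 0) (nat_lit 8) (.e true (nat_lit 2) (nat_lit 52) (nat_lit 0) (nat_lit 8) (.e true (nat_lit 10) (nat_lit 34) (nat_lit 2) (nat_lit 6) (.e false (nat_lit 10) (nat_lit 42) (nat_lit 1) (nat_lit 7) (.e false (nat_lit 10) (nat_lit 44) (nat_lit 1) (nat_lit 7) (.e true (nat_lit 10) (nat_lit 45) (nat_lit 1) (nat_lit 7) (.e true (nat_lit 30) (nat_lit 48) (nat_lit 1) (nat_lit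 7) (.e false (nat_lit 10) (nat_lit 51) (nat_lit 1) (nat_lit 7) (.e false (nat_lit 10) (nat_lit 55) (nat_lit 0) (nat_lit 8) (.e false (nat_lit 10) (nat_lit 31) (nat_lit 3) (nat_lit 5) (.e false (nat_lit 10) (nat_lit 33) (nat_lit 2) (nat_lit 6) (.e false (nat_lit 10) (nat_lit 57) (nat_lit 0) (nat_lit 8) (.i false (nat_lit 6) (nat_lit 2) (.c (nat_lit 33) (nat_lit 35) (.c (nat_lit 2) (nat_lit 32) .nil)) (.i false (nat_lit 2) (nat_lit 2) (.c (nat_lit 34) (nat_lit 35) (.c (nat_lit 2) (nat_lit 32) .nil)) (.i false (nat_lit 2) (nat_lit 2) (.c (nat_lit 35) (nat_lit 35) (.c (nat_lit 2) (nat_lit 32) .nil)) (.i true (nat_lit 6) (nat_lit 2) (.c (nat_lit 36) (nat_lit 35) (.c (nat_lit 2) (nat_lit 32) .nil)) (.i false (nat_lit 4) (nat_lit 2) (.c (nat_lit 48) (nat_lit 66) (.c (nat_lit 1) (nat_lit 1) .nil)) (.i false (nat_lit 4) (nat_lit 2) (.c (nat_lit 16) (nat_lit 34) (.c (nat_lit 6) (nat_lit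 33) .nil)) dzE_i6)))))))))))))))))))))))))

noncomputable def dzE_i8 : IL := (.s false (nat_lit 1) (nat_lit 12) (nat_lit 0) (nat_lit 1) (nat_lit 1) true (nat_lit 5) true (nat_lit 7) false (nat_lit 1) true (nat_lit 8) true (nat_lit 7) (.s false (nat_lit 1) (nat_lit 12) (nat_lit 1) (nat_lit 0) (nat_lit 1) true (nat_lit 4) true (nat_lit 7) false (nat_lit 1) true (nat_lit 7) true (nat_lit 8) (.s false (nat_lit 1) (nat_lit 12) (nat_lit 1) (nat_lit 1) (nat_lit 0) true (nat_lit 5) true (nat_lit 8) false (nat_lit 1) true (nat_lit 7) true (nat_lit 7) (.s false (nat_lit 1) (nat_lit 19) (nat_lit 0) (nat_lit 0) (nat_lit 0) true (nat_lit 6) true (nat_lit 8) false (nat_lit 3) true (nat_lit 8) true (nat_lit 8) (.e true (nat_lit 2) (nat_lit 33) (nat_lit 2) (nat_lit 6) (.e false (nat_lit 2) (nat_lit 34) (nat_lit 2) (nat_lit 6) (.e true (nat_lit 4) (nat_lit 48) (nat_lit 1) (nat_lit 7) (.e false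 (nat_lit 2) (nat_lit 51) (nat_lit 1) (nat_lit 7) (.e false (nat_lit 4) (nat_lit 42) (nat_lit 1) (nat_lit 7) (.e false (nat_lit 4) (nat_lit 44) (nat_lit 1) (nat_lit 7) (.e false (nat_lit 2) (nat_lit 45) (nat_lit 1) (nat_lit 7) (.i false (nat_lit 8) (nat_lit 2) (.c (nat_lit 49) (nat_lit 66) (.c (nat_lit 1) (nat_lit 1) .nil)) (.i false (nat_lit 12) (nat_lit 2) (.c (nat_lit 33) (nat_lit 35) (.c (nat_lit 2) (nat_lit 32) .nil)) (.i true (nat_lit 4) (nat_lit 2) (.c (nat_lit 34) (nat_lit 35) (.c (nat_lit 2) (nat_lit 32) .nil)) (.i true (nat_lit 4) (nat_lit 2) (.c (nat_lit 36) (nat_lit 35) (.c (nat_lit 2) (nat_lit 32) .nil)) (.i false (nat_lit 4) (nat_lit 2) (.c (nat_lit 48) (nat_lit 66) (.c (nat_lit 1) (nat_lit 1) .nil)) (.i true (nat_lit 4) (nat_lit 2) (.c (nat_lit 32) (nat_lit 35) (.c (nat_lit 2) (nat_lit 32) .nil)) (.i true (nat_lit 4) (nat_lit 2) (.c (nat_lit 37) (nat_lit 35) (.c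 (nat_lit 2) (nat_lit 32) .nil)) (.i true (nat_lit 12) (nat_lit 2) (.c (nat_lit 51) (nat_lit 66) (.c (nat_lit 1) (nat_lit 1) .nil)) (.i false (nat_lit 4) (nat_lit 2) (.c (nat_lit 42) (nat_lit 66) (.c (nat_lit 1) (nat_lit 1) .nil)) (.i true (nat_lit 4) (nat_lit 2) (.c (nat_lit 43) (nat_lit 66) (.c (nat_lit 1) (nat_lit 1) .nil)) (.i false (nat_lit 4) (nat_lit 2) (.c (nat_lit 44) (nat_lit 66) (.c (nat_lit 1) (nat_lit 1) .nil)) (.i true (nat_lit 8) (nat_lit 2) (.c (nat_lit 45) (nat_lit 66) (.c (nat_lit 1) (nat_lit 1) .nil)) (.i false (nat_lit 4) (nat_lit 2) (.c (nat_lit 16) (nat_lit 34) (.c (nat_lit 6) (nat_lit 33) .nil)) (.i true (nat_lit 4) (nat_lit 2) (.c (nat_lit 17) (nat_lit 34) (.c (nat_lit 6) (nat_lit 33) .nil)) .nil)))))))))))))))))))))))))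

noncomputable def dzE_i9 : IL := (.e true (nat_lit 10) (nat_lit 35) (nat_lit 2) (nat_lit 6) (.i false (nat_lit 4) (nat_lit 2) (.c (nat_lit 53) (nat_lit 51) (.c (nat_lit 0) (nat_lit 16) .nil)) (.i false (nat_lit 8) (nat_lit 2) (.c (nat_lit 33) (nat_lit 35) (.c (nat_lit 2) (nat_lit 32) .nil)) (.i true (nat_lit 4) (nat_lit 2) (.c (nat_lit 36) (nat_lit 35) (.c (nat_lit 2) (nat_lit 32) .nil)) (.i false (nat_lit 4) (nat_lit 2) (.c (nat_lit 48) (nat_lit 66) (.c (nat_lit 1) (nat_lit 1) .nil)) (.i false (nat_lit 4) (nat_lit 2) (.c (nat_lit 49) (nat_lit 66) (.c (nat_lit 1) (nat_lit 1) .nil)) (.i false (nat_lit 4) (nat_lit 2) (.c (nat_lit 16) (nat_lit 34) (.c (nat_lit 6) (nat_lit 33) .nil)) (.i true (nat_lit 4) (nat_lit 2) (.c (nat_lit 17) (nat_lit 34) (.c (nat_lit 6) (nat_lit 33) .nil)) (.i true (nat_lit 8) (nat_lit 2) (.c (nat_lit 51) (nat_lit 66) (.c (nat_lit 1) (nat_lit 1) .nil)) (.i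 false (nat_lit 4) (nat_lit 2) (.c (nat_lit 42) (nat_lit 66) (.c (nat_lit 1) (nat_lit 1) .nil)) (.i true (nat_lit 4) (nat_lit 2) (.c (nat_lit 43) (nat_lit 66) (.c (nat_lit 1) (nat_lit 1) .nil)) (.i false (nat_lit 4) (nat_lit 2) (.c (nat_lit 44) (nat_lit 66) (.c (nat_lit 1) (nat_lit 1) .nil)) (.i true (nat_lit 4) (nat_lit 2) (.c (nat_lit 45) (nat_lit 66) (.c (nat_lit 1) (nat_lit 1) .nil)) (.i true (nat_lit 4) (nat_lit 2) (.c (nat_lit 32) (nat_lit 35) (.c (nat_lit 2) (nat_lit 32) .nil)) (.i true (nat_lit 4) (nat_lit 2) (.c (nat_lit 37) (nat_lit 35) (.c (nat_lit 2) (nat_lit 32) .nil)) (.i false (nat_lit 4) (nat_lit 2) (.c (nat_lit 55) (nat_lit 51) (.c (nat_lit 0) (nat_lit 16) .nil)) (.i true (nat_lit 4) (nat_lit 2) (.c (nat_lit 57) (nat_lit 51) (.c (nat_lit 0) (nat_lit 16) .nil)) (.i false (nat_lit 4) (nat_lit 2) (.c (nat_lit 48) (nat_lit 66) (.c (nat_lit 1) (nat_lit 1) .nil)) (.i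 true (nat_lit 4) (nat_lit 2) (.c (nat_lit 44) (nat_lit 66) (.c (nat_lit 1) (nat_lit 1) .nil)) (.i true (nat_lit 4) (nat_lit 2) (.c (nat_lit 45) (nat_lit 66) (.c (nat_lit 1) (nat_lit 1) .nil)) (.i false (nat_lit 4) (nat_lit 2) (.c (nat_lit 51) (nat_lit 66) (.c (nat_lit 1) (nat_lit 1) .nil)) (.i false (nat_lit 4) (nat_lit 2) (.c (nat_lit 56) (nat_lit 51) (.c (nat_lit 0) (nat_lit 16) .nil)) (.i true (nat_lit 4) (nat_lit 2) (.c (nat_lit 62) (nat_lit 51) (.c (nat_lit 0) (nat_lit 16) .nil)) (.i false (nat_lit 4) (nat_lit 2) (.c (nat_lit 31) (nat_lit 50) (.c (nat_lit 3) (nat_lit 17) .nil)) (.i false (nat_lit 4) (nat_lit 2) (.c (nat_lit 35) (nat_lit 35) (.c (nat_lit 2) (nat_lit 32) .nil)) .nil)))))))))))))))))))))))))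

noncomputable def dzE_i10 : IL := (.s false (nat_lit 1) (nat_lit 6) (nat_lit 3) (nat_lit 0) (nat_lit 1) true (nat_lit 1) true (nat_lit 7) true (nat_lit 2) true (nat_lit 5) true (nat_lit 8) (.s true (nat_lit 1) (nat_lit 6) (nat_lit 3) (nat_lit 1) (nat_lit 0) true (nat_lit 2) true (nat_lit 8) true (nat_lit 2) true (nat_lit 5) true (nat_lit 7) (.s true (nat_lit 1) (nat_lit 8) (nat_lit 0) (nat_lit 2) (nat_lit 1) true (nat_lit 5) true (nat_lit 7) true (nat_lit 1) true (nat_lit 8) true (nat_lit 6) (.s false (nat_lit 1) (nat_lit 12) (nat_lit 0) (nat_lit 1) (nat_lit 1) true (nat_lit 5) true (nat_lit 7) false (nat_lit 1) true (nat_lit 8) true (nat_lit 7) (.s true (nat_lit 1) (nat_lit 13) (nat_lit 0) (nat_lit 1) (nat_lit 1) true (nat_lit 5) true (nat_lit 7) false (nat_lit 1) true (nat_lit 8) true (nat_lit 7) (.s false (nat_lit 1) (nat_lit 16) (nat_lit 0) (nat_lit 0) (nat_lit 1) true (nat_lit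 5) true (nat_lit 7) false (nat_lit 2) true (nat_lit 8) true (nat_lit 8) (.s false (nat_lit 1) (nat_lit 16) (nat_lit 0) (nat_lit 1) (nat_lit 0) true (nat_lit 6) true (nat_lit 8) false (nat_lit 2) true (nat_lit 8) true (nat_lit 7) (.s true (nat_lit 1) (nat_lit 16) (nat_lit 1) (nat_lit 0) (nat_lit 0) true (nat_lit 5) true (nat_lit 8) false (nat_lit 2) true (nat_lit 7) true (nat_lit 8) (.e false (nat_lit 4) (nat_lit 33) (nat_lit 2) (nat_lit 6) (.e true (nat_lit 4) (nat_lit 34) (nat_lit 2) (nat_lit 6) (.e true (nat_lit 2) (nat_lit 48) (nat_lit 1) (nat_lit 7) (.e false (nat_lit 2) (nat_lit 42) (nat_lit 1) (nat_lit 7) (.e true (nat_lit 2) (nat_lit 44) (nat_lit 1) (nat_lit 7) (.e true (nat_lit 4) (nat_lit 52) (nat_lit 0) (nat_lit 8) (.e true (nat_lit 2) (nat_lit 55) (nat_lit 0) (nat_lit 8) (.e false (nat_lit 4) (nat_lit 56) (nat_lit 0) (nat_lit 8) (.e false (nat_lit 2) (nat_lit 57) (nat_lit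 0) (nat_lit 8) (.e true (nat_lit 4) (nat_lit 62) (nat_lit 0) (nat_lit 8) (.e true (nat_lit 10) (nat_lit 48) (nat_lit 1) (nat_lit 7) (.e false (nat_lit 10) (nat_lit 44) (nat_lit 1) (nat_lit 7) (.e false (nat_lit 10) (nat_lit 45) (nat_lit 1) (nat_lit 7) (.e true (nat_lit 10) (nat_lit 51) (nat_lit 1) (nat_lit 7) (.e true (nat_lit 10) (nat_lit 56) (nat_lit 0) (nat_lit 8) (.e false (nat_lit 10) (nat_lit 62) (nat_lit 0) (nat_lit 8) (.e true (nat_lit 10) (nat_lit 31) (nat_lit 3) (nat_lit 5) dzE_i9)))))))))))))))))))))))))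

noncomputable def dzE_i11 : IL := (.e false (nat_lit 4) (nat_lit 57) (nat_lit 0) (nat_lit 8) (.e true (nat_lit 4) (nat_lit 58) (nat_lit 0) (nat_lit 8) (.e false (nat_lit 2) (nat_lit 59) (nat_lit 0) (nat_lit 8) (.e true (nat_lit 2) (nat_lit 60) (nat_lit 0) (nat_lit 8) (.e true (nat_lit 10) (nat_lit 34) (nat_lit 2) (nat_lit 6) (.e false (nat_lit 10) (nat_lit 55) (nat_lit 0) (nat_lit 8) (.e true (nat_lit 10) (nat_lit 62) (nat_lit 0) (nat_lit 8) (.e true (nat_lit 10) (nat_lit 48) (nat_lit 1) (nat_lit 7) (.i true (nat_lit 4) (nat_lit 2) (.c (nat_lit 16) (nat_lit 34) (.c (nat_lit 6) (nat_lit 33) .nil)) (.i false (nat_lit 4) (nat_lit 2) (.c (nat_lit 17) (nat_lit 34) (.c (nat_lit 6) (nat_lit 33) .nil)) (.i false (nat_lit 8) (nat_lit 2) (.c (nat_lit 51) (nat_lit 66) (.c (nat_lit 1) (nat_lit 1) .nil)) (.i true (nat_lit 4) (nat_lit 2) (.c (nat_lit 42) (nat_lit 66) (.c (nat_lit 1) (nat_lit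 1) .nil)) (.i false (nat_lit 4) (nat_lit 2) (.c (nat_lit 43) (nat_lit 66) (.c (nat_lit 1) (nat_lit 1) .nil)) (.i true (nat_lit 4) (nat_lit 2) (.c (nat_lit 44) (nat_lit 66) (.c (nat_lit 1) (nat_lit 1) .nil)) (.i false (nat_lit 4) (nat_lit 2) (.c (nat_lit 45) (nat_lit 66) (.c (nat_lit 1) (nat_lit 1) .nil)) (.i true (nat_lit 4) (nat_lit 2) (.c (nat_lit 48) (nat_lit 66) (.c (nat_lit 1) (nat_lit 1) .nil)) (.i true (nat_lit 4) (nat_lit 2) (.c (nat_lit 49) (nat_lit 66) (.c (nat_lit 1) (nat_lit 1) .nil)) (.i false (nat_lit 4) (nat_lit 2) (.c (nat_lit 32) (nat_lit 35) (.c (nat_lit 2) (nat_lit 32) .nil)) (.i true (nat_lit 8) (nat_lit 2) (.c (nat_lit 33) (nat_lit 35) (.c (nat_lit 2) (nat_lit 32) .nil)) (.i false (nat_lit 4) (nat_lit 2) (.c (nat_lit 36) (nat_lit 35) (.c (nat_lit 2) (nat_lit 32) .nil)) (.i false (nat_lit 4) (nat_lit 2) (.c (nat_lit 37) (nat_lit 35) (.c (nat_lit 2) (nat_lit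 32) .nil)) (.i false (nat_lit 4) (nat_lit 2) (.c (nat_lit 34) (nat_lit 35) (.c (nat_lit 2) (nat_lit 32) .nil)) (.i true (nat_lit 4) (nat_lit 2) (.c (nat_lit 55) (nat_lit 51) (.c (nat_lit 0) (nat_lit 16) .nil)) (.i false (nat_lit 4) (nat_lit 2) (.c (nat_lit 62) (nat_lit 51) (.c (nat_lit 0) (nat_lit 16) .nil)) (.i false (nat_lit 4) (nat_lit 2) (.c (nat_lit 48) (nat_lit 66) (.c (nat_lit 1) (nat_lit 1) .nil)) .nil)))))))))))))))))))))))))

noncomputable def dzE_i12 : IL := (.s false (nat_lit 1) (nat_lit 6) (nat_lit 2) (nat_lit 1) (nat_lit 1) true (nat_lit 2) true (nat_lit 7) true (nat_lit 2) true (nat_lit 6) true (nat_lit 7) (.s false (nat_lit 1) (nat_lit 10) (nat_lit 2) (nat_lit 0) (nat_lit 0) true (nat_lit 3) true (nat_lit 8) true (nat_lit 0) true (nat_lit 6) true (nat_lit 8) (.s true (nat_lit 1) (nat_lit 11) (nat_lit 1) (nat_lit 1) (nat_lit 1) true (nat_lit 4) true (nat_lit 7)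 false (nat_lit 0) true (nat_lit 7) true (nat_lit 7) (.e false (nat_lit 2) (nat_lit 42) (nat_lit 1) (nat_lit 7) (.e false (nat_lit 2) (nat_lit 44) (nat_lit 1) (nat_lit 7) (.e false (nat_lit 2) (nat_lit 48) (nat_lit 1) (nat_lit 7) (.e false (nat_lit 2) (nat_lit 53) (nat_lit 0) (nat_lit 8) (.e false (nat_lit 2) (nat_lit 55) (nat_lit 0) (nat_lit 8) (.e true (nat_lit 4) (nat_lit 45) (nat_lit 1) (nat_lit 7) (.e false (nat_lit 4) (nat_lit 49) (nat_lit 1) (nat_lit 7) (.e false (nat_lit 4) (nat_lit 62) (nat_lit 0) (nat_lit 8) (.e false (nat_lit 4) (nat_lit 33) (nat_lit 2) (nat_lit 6) (.e true (nat_lit 4) (nat_lit 34) (nat_lit 2) (nat_lit 6) (.e true (nat_lit 4) (nat_lit 51) (nat_lit 1) (nat_lit 7) (.e true (nat_lit 10) (nat_lit 42) (nat_lit 1) (nat_lit 7) (.e true (nat_lit 10) (nat_lit 44) (nat_lit 1) (nat_lit 7) (.e false (nat_lit 10) (nat_lit 48) (nat_lit 1) (nat_lit 7) (.e true (nat_lit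 10) (nat_lit 62) (nat_lit 0) (nat_lit 8) (.i false (nat_lit 4) (nat_lit 2) (.c (nat_lit 54) (nat_lit 51) (.c (nat_lit 0) (nat_lit 16) .nil)) (.i true (nat_lit 4) (nat_lit 2) (.c (nat_lit 53) (nat_lit 51) (.c (nat_lit 0) (nat_lit 16) .nil)) (.i true (nat_lit 4) (nat_lit 2) (.c (nat_lit 55) (nat_lit 51) (.c (nat_lit 0) (nat_lit 16) .nil)) (.i false (nat_lit 4) (nat_lit 2) (.c (nat_lit 42) (nat_lit 66) (.c (nat_lit 1) (nat_lit 1) .nil)) (.i false (nat_lit 4) (nat_lit 2) (.c (nat_lit 44) (nat_lit 66) (.c (nat_lit 1) (nat_lit 1) .nil)) (.i true (nat_lit 4) (nat_lit 2) (.c (nat_lit 48) (nat_lit 66) (.c (nat_lit 1) (nat_lit 1) .nil)) (.i false (nat_lit 4) (nat_lit 2) (.c (nat_lit 62) (nat_lit 51) (.c (nat_lit 0) (nat_lit 16) .nil)) .nil)))))))))))))))))))))))))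

noncomputable def dzE_i13 : IL := (.e false (nat_lit 2) (nat_lit 55) (nat_lit 0) (nat_lit 8) (.e true (nat_lit 2) (nat_lit 60) (nat_lit 0) (nat_lit 8) (.e false (nat_lit 2) (nat_lit 62) (nat_lit 0) (nat_lit 8) (.e true (nat_lit 2) (nat_lit 52) (nat_lit 0) (nat_lit 8) (.e true (nat_lit 4) (nat_lit 53) (nat_lit 0) (nat_lit 8) (.e false (nat_lit 4) (nat_lit 54) (nat_lit 0) (nat_lit 8) (.e true (nat_lit 2) (nat_lit 56) (nat_lit 0) (nat_lit 8) (.e true (nat_lit 2) (nat_lit 58) (nat_lit 0) (nat_lit 8) (.e false (nat_lit 2) (nat_lit 35) (nat_lit 2) (nat_lit 6) (.e true (nat_lit 4) (nat_lit 57) (nat_lit 0) (nat_lit 8) (.e false (nat_lit 10) (nat_lit 44) (nat_lit 1) (nat_lit 7) (.e false (nat_lit 10) (nat_lit 62) (nat_lit 0) (nat_lit 8) (.e true (nat_lit 20) (nat_lit 48) (nat_lit 1) (nat_lit 7) (.e false (nat_lit 10) (nat_lit 57) (nat_lit 0) (nat_lit 8) (.i false (nat_lit 4) (nat_lit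 2) (.c (nat_lit 44) (nat_lit 66) (.c (nat_lit 1) (nat_lit 1) .nil)) (.i true (nat_lit 4) (nat_lit 2) (.c (nat_lit 59) (nat_lit 51) (.c (nat_lit 0) (nat_lit 16) .nil)) (.i false (nat_lit 4) (nat_lit 2) (.c (nat_lit 60) (nat_lit 51) (.c (nat_lit 0) (nat_lit 16) .nil)) (.i false (nat_lit 4) (nat_lit 2) (.c (nat_lit 61) (nat_lit 51) (.c (nat_lit 0) (nat_lit 16) .nil)) (.i false (nat_lit 4) (nat_lit 2) (.c (nat_lit 53) (nat_lit 51) (.c (nat_lit 0) (nat_lit 16) .nil)) (.i true (nat_lit 4) (nat_lit 2) (.c (nat_lit 54) (nat_lit 51) (.c (nat_lit 0) (nat_lit 16) .nil)) (.i false (nat_lit 4) (nat_lit 2) (.c (nat_lit 58) (nat_lit 51) (.c (nat_lit 0) (nat_lit 16) .nil)) (.i true (nat_lit 4) (nat_lit 2) (.c (nat_lit 44) (nat_lit 66) (.c (nat_lit 1) (nat_lit 1) .nil)) (.i true (nat_lit 4) (nat_lit 2) (.c (nat_lit 62) (nat_lit 51) (.c (nat_lit 0) (nat_lit 16) .nil)) (.i false (nat_lit 8) (nat_lit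 2) (.c (nat_lit 48) (nat_lit 66) (.c (nat_lit 1) (nat_lit 1) .nil)) (.i true (nat_lit 4) (nat_lit 2) (.c (nat_lit 57) (nat_lit 51) (.c (nat_lit 0) (nat_lit 16) .nil)) .nil)))))))))))))))))))))))))

noncomputable def dzE_i14 : IL := (.e false (nat_lit 2) (nat_lit 27) (nat_lit 3) (nat_lit 5) (.e true (nat_lit 4) (nat_lit 49) (nat_lit 1) (nat_lit 7) (.e false (nat_lit 2) (nat_lit 43) (nat_lit 1) (nat_lit 7) (.e true (nat_lit 4) (nat_lit 44) (nat_lit 1) (nat_lit 7) (.e false (nat_lit 2) (nat_lit 45) (nat_lit 1) (nat_lit 7) (.e false (nat_lit 2) (nat_lit 51) (nat_lit 1) (nat_lit 7) (.e true (nat_lit 2) (nat_lit 52) (nat_lit 0) (nat_lit 8) (.e false (nat_lit 4) (nat_lit 55) (nat_lit 0) (nat_lit 8) (.e false (nat_lit 2) (nat_lit 56) (nat_lit 0) (nat_lit 8) (.e true (nat_lit 4) (nat_lit 62) (nat_lit 0) (nat_lit 8) (.e false (nat_lit 2) (nat_lit 59) (nat_lit 0) (nat_lit 8) (.e true (nat_lit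 2) (nat_lit 60) (nat_lit 0) (nat_lit 8) (.e true (nat_lit 2) (nat_lit 61) (nat_lit 0) (nat_lit 8) (.e false (nat_lit 10) (nat_lit 34) (nat_lit 2) (nat_lit 6) (.e false (nat_lit 10) (nat_lit 42) (nat_lit 1) (nat_lit 7) (.e false (nat_lit 20) (nat_lit 44) (nat_lit 1) (nat_lit 7) (.e true (nat_lit 20) (nat_lit 48) (nat_lit 1) (nat_lit 7) (.e true (nat_lit 10) (nat_lit 55) (nat_lit 0) (nat_lit 8) (.e true (nat_lit 20) (nat_lit 35) (nat_lit 2) (nat_lit 6) (.i true (nat_lit 4) (nat_lit 2) (.c (nat_lit 34) (nat_lit 35) (.c (nat_lit 2) (nat_lit 32) .nil)) (.i true (nat_lit 4) (nat_lit 2) (.c (nat_lit 42) (nat_lit 66) (.c (nat_lit 1) (nat_lit 1) .nil)) (.i true (nat_lit 8) (nat_lit 2) (.c (nat_lit 44) (nat_lit 66) (.c (nat_lit 1) (nat_lit 1) .nil)) (.i false (nat_lit 8) (nat_lit 2) (.c (nat_lit 48) (nat_lit 66) (.c (nat_lit 1) (nat_lit 1) .nil)) (.i false (nat_lit 4) (nat_lit 2) (.c (nat_lit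 55) (nat_lit 51) (.c (nat_lit 0) (nat_lit 16) .nil)) (.i false (nat_lit 8) (nat_lit 2) (.c (nat_lit 35) (nat_lit 35) (.c (nat_lit 2) (nat_lit 32) .nil)) .nil)))))))))))))))))))))))))

noncomputable def dzE_i15 : IL := (.e true (nat_lit 10) (nat_lit 48) (nat_lit 1) (nat_lit 7) (.e false (nat_lit 10) (nat_lit 51) (nat_lit 1) (nat_lit 7) (.e true (nat_lit 20) (nat_lit 33) (nat_lit 2) (nat_lit 6) (.e true (nat_lit 10) (nat_lit 34) (nat_lit 2) (nat_lit 6) (.e false (nat_lit 10) (nat_lit 55) (nat_lit 0) (nat_lit 8) (.e false (nat_lit 10) (nat_lit 56) (nat_lit 0) (nat_lit 8) (.e true (nat_lit 10) (nat_lit 62) (nat_lit 0) (nat_lit 8) (.e false (nat_lit 10) (nat_lit 35) (nat_lit 2) (nat_lit 6) (.e false (nat_lit 10) (nat_lit 57) (nat_lit 0) (nat_lit 8) (.i true (nat_lit 4) (nat_lit 2) (.c (nat_lit 52) (nat_lit 51) (.c (nat_lit 0) (nat_lit 16) .nil)) (.i false (nat_lit 4) (nat_lit 2) (.c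 (nat_lit 55) (nat_lit 51) (.c (nat_lit 0) (nat_lit 16) .nil)) (.i false (nat_lit 4) (nat_lit 2) (.c (nat_lit 56) (nat_lit 51) (.c (nat_lit 0) (nat_lit 16) .nil)) (.i true (nat_lit 4) (nat_lit 2) (.c (nat_lit 62) (nat_lit 51) (.c (nat_lit 0) (nat_lit 16) .nil)) (.i false (nat_lit 4) (nat_lit 2) (.c (nat_lit 53) (nat_lit 51) (.c (nat_lit 0) (nat_lit 16) .nil)) (.i true (nat_lit 4) (nat_lit 2) (.c (nat_lit 42) (nat_lit 66) (.c (nat_lit 1) (nat_lit 1) .nil)) (.i true (nat_lit 4) (nat_lit 2) (.c (nat_lit 44) (nat_lit 66) (.c (nat_lit 1) (nat_lit 1) .nil)) (.i false (nat_lit 4) (nat_lit 2) (.c (nat_lit 48) (nat_lit 66) (.c (nat_lit 1) (nat_lit 1) .nil)) (.i true (nat_lit 4) (nat_lit 2) (.c (nat_lit 51) (nat_lit 66) (.c (nat_lit 1) (nat_lit 1) .nil)) (.i false (nat_lit 8) (nat_lit 2) (.c (nat_lit 33) (nat_lit 35) (.c (nat_lit 2) (nat_lit 32) .nil)) (.i false (nat_lit 4) (nat_lit 2) (.c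 (nat_lit 34) (nat_lit 35) (.c (nat_lit 2) (nat_lit 32) .nil)) (.i true (nat_lit 4) (nat_lit 2) (.c (nat_lit 55) (nat_lit 51) (.c (nat_lit 0) (nat_lit 16) .nil)) (.i true (nat_lit 4) (nat_lit 2) (.c (nat_lit 56) (nat_lit 51) (.c (nat_lit 0) (nat_lit 16) .nil)) (.i false (nat_lit 4) (nat_lit 2) (.c (nat_lit 62) (nat_lit 51) (.c (nat_lit 0) (nat_lit 16) .nil)) (.i true (nat_lit 4) (nat_lit 2) (.c (nat_lit 35) (nat_lit 35) (.c (nat_lit 2) (nat_lit 32) .nil)) (.i true (nat_lit 4) (nat_lit 2) (.c (nat_lit 57) (nat_lit 51) (.c (nat_lit 0) (nat_lit 16) .nil)) .nil)))))))))))))))))))))))))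

noncomputable def dzE_i16 : IL := (.e false (nat_lit 10) (nat_lit 55) (nat_lit 0) (nat_lit 8) (.e true (nat_lit 10) (nat_lit 62) (nat_lit 0) (nat_lit 8) (.e false (nat_lit 10) (nat_lit 31) (nat_lit 3) (nat_lit 5) (.e false (nat_lit 10) (nat_lit 35) (nat_lit 2) (nat_lit 6) (.i false (nat_lit 4) (nat_lit 2) (.c (nat_lit 17) (nat_lit 34) (.c (nat_lit 6) (nat_lit 33) .nil)) (.i true (nat_lit 4) (nat_lit 2) (.c (nat_lit 16) (nat_lit 34) (.c (nat_lit 6) (nat_lit 33) .nil)) (.i false (nat_lit 8) (nat_lit 2) (.c (nat_lit 51) (nat_lit 66) (.c (nat_lit 1) (nat_lit 1) .nil)) (.i true (nat_lit 4) (nat_lit 2) (.c (nat_lit 42) (nat_lit 66) (.c (nat_lit 1) (nat_lit 1) .nil)) (.i false (nat_lit 4) (nat_lit 2) (.c (nat_lit 43) (nat_lit 66) (.c (nat_lit 1) (nat_lit 1) .nil)) (.i true (nat_lit 4) (nat_lit 2) (.c (nat_lit 44) (nat_lit 66) (.c (nat_lit 1) (nat_lit 1) .nil)) (.i false (nat_lit 4)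 (nat_lit 2) (.c (nat_lit 45) (nat_lit 66) (.c (nat_lit 1) (nat_lit 1) .nil)) (.i true (nat_lit 4) (nat_lit 2) (.c (nat_lit 48) (nat_lit 66) (.c (nat_lit 1) (nat_lit 1) .nil)) (.i true (nat_lit 4) (nat_lit 2) (.c (nat_lit 49) (nat_lit 66) (.c (nat_lit 1) (nat_lit 1) .nil)) (.i false (nat_lit 4) (nat_lit 2) (.c (nat_lit 32) (nat_lit 35) (.c (nat_lit 2) (nat_lit 32) .nil)) (.i true (nat_lit 8) (nat_lit 2) (.c (nat_lit 33) (nat_lit 35) (.c (nat_lit 2) (nat_lit 32) .nil)) (.i false (nat_lit 4) (nat_lit 2) (.c (nat_lit 36) (nat_lit 35) (.c (nat_lit 2) (nat_lit 32) .nil)) (.i false (nat_lit 4) (nat_lit 2) (.c (nat_lit 37) (nat_lit 35) (.c (nat_lit 2) (nat_lit 32) .nil)) (.i false (nat_lit 4) (nat_lit 2) (.c (nat_lit 42) (nat_lit 66) (.c (nat_lit 1) (nat_lit 1) .nil)) (.i false (nat_lit 4) (nat_lit 2) (.c (nat_lit 44) (nat_lit 66) (.c (nat_lit 1) (nat_lit 1) .nil)) (.i false (nat_lit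 4) (nat_lit 2) (.c (nat_lit 45) (nat_lit 66) (.c (nat_lit 1) (nat_lit 1) .nil)) (.i true (nat_lit 4) (nat_lit 2) (.c (nat_lit 48) (nat_lit 66) (.c (nat_lit 1) (nat_lit 1) .nil)) (.i true (nat_lit 4) (nat_lit 2) (.c (nat_lit 55) (nat_lit 51) (.c (nat_lit 0) (nat_lit 16) .nil)) (.i false (nat_lit 4) (nat_lit 2) (.c (nat_lit 62) (nat_lit 51) (.c (nat_lit 0) (nat_lit 16) .nil)) (.i true (nat_lit 4) (nat_lit 2) (.c (nat_lit 31) (nat_lit 50) (.c (nat_lit 3) (nat_lit 17) .nil)) (.i true (nat_lit 4) (nat_lit 2) (.c (nat_lit 35) (nat_lit 35) (.c (nat_lit 2) (nat_lit 32) .nil)) .nil)))))))))))))))))))))))))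

noncomputable def dzE_i17 : IL := (.s false (nat_lit 1) (nat_lit 5) (nat_lit 4) (nat_lit 0) (nat_lit 1) true (nat_lit 0) true (nat_lit 7) true (nat_lit 3) true (nat_lit 4) true (nat_lit 8) (.s false (nat_lit 1) (nat_lit 10) (nat_lit 0) (nat_lit 0) (nat_lit 2) true (nat_lit 3) true (nat_lit 6) true (nat_lit 0) true (nat_lit 8) true (nat_lit 8) (.s true (nat_lit 2) (nat_lit 11) (nat_lit 1) (nat_lit 1) (nat_lit 1) true (nat_lit 4) true (nat_lit 7) false (nat_lit 0) true (nat_lit 7) true (nat_lit 7) (.e false (nat_lit 4) (nat_lit 44) (nat_lit 1) (nat_lit 7) (.e false (nat_lit 2) (nat_lit 56) (nat_lit 0) (nat_lit 8) (.e true (nat_lit 2) (nat_lit 57) (nat_lit 0) (nat_lit 8) (.e true (nat_lit 2) (nat_lit 58) (nat_lit 0) (nat_lit 8) (.e true (nat_lit 2) (nat_lit 45) (nat_lit 1) (nat_lit 7) (.e true (nat_lit 2) (nat_lit 43) (nat_lit 1) (nat_lit 7) (.e false (nat_lit 2) (nat_lit 49) (nat_lit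 1) (nat_lit 7) (.e false (nat_lit 2) (nat_lit 60) (nat_lit 0) (nat_lit 8) (.e false (nat_lit 2) (nat_lit 61) (nat_lit 0) (nat_lit 8) (.e false (nat_lit 2) (nat_lit 36) (nat_lit 2) (nat_lit 6) (.e true (nat_lit 10) (nat_lit 56) (nat_lit 0) (nat_lit 8) (.e false (nat_lit 10) (nat_lit 62) (nat_lit 0) (nat_lit 8) (.e true (nat_lit 10) (nat_lit 34) (nat_lit 2) (nat_lit 6) (.e false (nat_lit 10) (nat_lit 35) (nat_lit 2) (nat_lit 6) (.e true (nat_lit 10) (nat_lit 42) (nat_lit 1) (nat_lit 7) (.e false (nat_lit 10) (nat_lit 33) (nat_lit 2) (nat_lit 6) (.i false (nat_lit 4) (nat_lit 2) (.c (nat_lit 56) (nat_lit 51) (.c (nat_lit 0) (nat_lit 16) .nil)) (.i true (nat_lit 4) (nat_lit 2) (.c (nat_lit 62) (nat_lit 51) (.c (nat_lit 0) (nat_lit 16) .nil)) (.i false (nat_lit 4) (nat_lit 2) (.c (nat_lit 34) (nat_lit 35) (.c (nat_lit 2) (nat_lit 32) .nil)) (.i true (nat_lit 4) (nat_lit 2) (.c (nat_lit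 35) (nat_lit 35) (.c (nat_lit 2) (nat_lit 32) .nil)) (.i false (nat_lit 4) (nat_lit 2) (.c (nat_lit 42) (nat_lit 66) (.c (nat_lit 1) (nat_lit 1) .nil)) (.i true (nat_lit 4) (nat_lit 2) (.c (nat_lit 33) (nat_lit 35) (.c (nat_lit 2) (nat_lit 32) .nil)) .nil)))))))))))))))))))))))))

noncomputable def dzE_i18 : IL := (.e false (nat_lit 2) (nat_lit 52) (nat_lit 0) (nat_lit 8) (.e false (nat_lit 4) (nat_lit 53) (nat_lit 0) (nat_lit 8) (.e true (nat_lit 4) (nat_lit 54) (nat_lit 0) (nat_lit 8) (.e true (nat_lit 4) (nat_lit 55) (nat_lit 0) (nat_lit 8) (.e false (nat_lit 2) (nat_lit 56) (nat_lit 0) (nat_lit 8) (.e true (nat_lit 4) (nat_lit 58) (nat_lit 0) (nat_lit 8) (.e false (nat_lit 4) (nat_lit 59) (nat_lit 0) (nat_lit 8) (.e true (nat_lit 2) (nat_lit 60) (nat_lit 0) (nat_lit 8) (.e true (nat_lit 4) (nat_lit 61) (nat_lit 0) (nat_lit 8) (.e true (nat_lit 2) (nat_lit 48) (nat_lit 1) (nat_lit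 7) (.e true (nat_lit 2) (nat_lit 42) (nat_lit 1) (nat_lit 7) (.e false (nat_lit 10) (nat_lit 42) (nat_lit 1) (nat_lit 7) (.e true (nat_lit 10) (nat_lit 44) (nat_lit 1) (nat_lit 7) (.e false (nat_lit 10) (nat_lit 48) (nat_lit 1) (nat_lit 7) (.e false (nat_lit 20) (nat_lit 55) (nat_lit 0) (nat_lit 8) (.e true (nat_lit 30) (nat_lit 62) (nat_lit 0) (nat_lit 8) (.e true (nat_lit 10) (nat_lit 34) (nat_lit 2) (nat_lit 6) (.i true (nat_lit 4) (nat_lit 2) (.c (nat_lit 53) (nat_lit 51) (.c (nat_lit 0) (nat_lit 16) .nil)) (.i false (nat_lit 4) (nat_lit 2) (.c (nat_lit 54) (nat_lit 51) (.c (nat_lit 0) (nat_lit 16) .nil)) (.i true (nat_lit 4) (nat_lit 2) (.c (nat_lit 42) (nat_lit 66) (.c (nat_lit 1) (nat_lit 1) .nil)) (.i false (nat_lit 4) (nat_lit 2) (.c (nat_lit 44) (nat_lit 66) (.c (nat_lit 1) (nat_lit 1) .nil)) (.i true (nat_lit 4) (nat_lit 2) (.c (nat_lit 48) (nat_lit 66) (.c (nat_lit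 1) (nat_lit 1) .nil)) (.i true (nat_lit 8) (nat_lit 2) (.c (nat_lit 55) (nat_lit 51) (.c (nat_lit 0) (nat_lit 16) .nil)) (.i false (nat_lit 12) (nat_lit 2) (.c (nat_lit 62) (nat_lit 51) (.c (nat_lit 0) (nat_lit 16) .nil)) (.i false (nat_lit 4) (nat_lit 2) (.c (nat_lit 34) (nat_lit 35) (.c (nat_lit 2) (nat_lit 32) .nil)) .nil)))))))))))))))))))))))))

noncomputable def dzE_i19 : IL := (.e true (nat_lit 4) (nat_lit 24) (nat_lit 4) (nat_lit 4) (.e false (nat_lit 4) (nat_lit 42) (nat_lit 1) (nat_lit 7) (.e true (nat_lit 4) (nat_lit 45) (nat_lit 1) (nat_lit 7) (.e false (nat_lit 4) (nat_lit 49) (nat_lit 1) (nat_lit 7) (.e false (nat_lit 2) (nat_lit 32) (nat_lit 2) (nat_lit 6) (.e true (nat_lit 10) (nat_lit 42) (nat_lit 1) (nat_lit 7) (.e true (nat_lit 10) (nat_lit 44) (nat_lit 1) (nat_lit 7) (.e false (nat_lit 10) (nat_lit 55) (nat_lit 0) (nat_lit 8) (.e true (nat_lit 10) (nat_lit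 56) (nat_lit 0) (nat_lit 8) (.e true (nat_lit 20) (nat_lit 62) (nat_lit 0) (nat_lit 8) (.e false (nat_lit 20) (nat_lit 33) (nat_lit 2) (nat_lit 6) (.e true (nat_lit 10) (nat_lit 34) (nat_lit 2) (nat_lit 6) (.e false (nat_lit 10) (nat_lit 35) (nat_lit 2) (nat_lit 6) (.e false (nat_lit 10) (nat_lit 45) (nat_lit 1) (nat_lit 7) (.e true (nat_lit 10) (nat_lit 31) (nat_lit 3) (nat_lit 5) (.i false (nat_lit 4) (nat_lit 2) (.c (nat_lit 42) (nat_lit 66) (.c (nat_lit 1) (nat_lit 1) .nil)) (.i false (nat_lit 4) (nat_lit 2) (.c (nat_lit 44) (nat_lit 66) (.c (nat_lit 1) (nat_lit 1) .nil)) (.i true (nat_lit 4) (nat_lit 2) (.c (nat_lit 55) (nat_lit 51) (.c (nat_lit 0) (nat_lit 16) .nil)) (.i false (nat_lit 4) (nat_lit 2) (.c (nat_lit 56) (nat_lit 51) (.c (nat_lit 0) (nat_lit 16) .nil)) (.i false (nat_lit 8) (nat_lit 2) (.c (nat_lit 62) (nat_lit 51) (.c (nat_lit 0) (nat_lit 16) .nil)) (.i true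 (nat_lit 8) (nat_lit 2) (.c (nat_lit 33) (nat_lit 35) (.c (nat_lit 2) (nat_lit 32) .nil)) (.i false (nat_lit 4) (nat_lit 2) (.c (nat_lit 34) (nat_lit 35) (.c (nat_lit 2) (nat_lit 32) .nil)) (.i true (nat_lit 4) (nat_lit 2) (.c (nat_lit 35) (nat_lit 35) (.c (nat_lit 2) (nat_lit 32) .nil)) (.i true (nat_lit 4) (nat_lit 2) (.c (nat_lit 45) (nat_lit 66) (.c (nat_lit 1) (nat_lit 1) .nil)) (.i false (nat_lit 4) (nat_lit 2) (.c (nat_lit 31) (nat_lit 50) (.c (nat_lit 3) (nat_lit 17) .nil)) .nil)))))))))))))))))))))))))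

noncomputable def dzE_i20 : IL := (.e false (nat_lit 4) (nat_lit 56) (nat_lit 1) (nat_lit 7) (.e true (nat_lit 2) (nat_lit 57) (nat_lit 1) (nat_lit 7) (.e true (nat_lit 2) (nat_lit 60) (nat_lit 1) (nat_lit 7) (.e true (nat_lit 2) (nat_lit 61) (nat_lit 1) (nat_lit 7) (.e false (nat_lit 2) (nat_lit 59) (nat_lit 1) (nat_lit 7) (.e true (nat_lit 4) (nat_lit 52) (nat_lit 1) (nat_lit 7) (.i false (nat_lit 4) (nat_lit 2) (.c (nat_lit 71) (nat_lit 36) (.c (nat_lit 0) (nat_lit 16) .nil)) (.i false (nat_lit 4) (nat_lit 2) (.c (nat_lit 39) (nat_lit 20) (.c (nat_lit 2) (nat_lit 32) .nil)) (.i true (nat_lit 4) (nat_lit 2) (.c (nat_lit 40) (nat_lit 20) (.c (nat_lit 2) (nat_lit 32) .nil)) (.i true (nat_lit 4) (nat_lit 2) (.c (nat_lit 27) (nat_lit 50) (.c (nat_lit 4) (nat_lit 2) .nil)) (.i false (nat_lit 4) (nat_lit 2) (.c (nat_lit 28) (nat_lit 50) (.c (nat_lit 4) (nat_lit 2) .nil)) (.i false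 (nat_lit 4) (nat_lit 2) (.c (nat_lit 31) (nat_lit 50) (.c (nat_lit 4) (nat_lit 2) .nil)) (.i true (nat_lit 4) (nat_lit 2) (.c (nat_lit 63) (nat_lit 36) (.c (nat_lit 0) (nat_lit 16) .nil)) (.i false (nat_lit 20) (nat_lit 2) (.c (nat_lit 64) (nat_lit 36) (.c (nat_lit 0) (nat_lit 16) .nil)) (.i true (nat_lit 8) (nat_lit 2) (.c (nat_lit 65) (nat_lit 36) (.c (nat_lit 0) (nat_lit 16) .nil)) (.i true (nat_lit 8) (nat_lit 2) (.c (nat_lit 67) (nat_lit 36) (.c (nat_lit 0) (nat_lit 16) .nil)) (.i true (nat_lit 8) (nat_lit 2) (.c (nat_lit 68) (nat_lit 36) (.c (nat_lit 0) (nat_lit 16) .nil)) (.i true (nat_lit 4) (nat_lit 2) (.c (nat_lit 29) (nat_lit 50) (.c (nat_lit 4) (nat_lit 2) .nil)) (.i false (nat_lit 4) (nat_lit 2) (.c (nat_lit 30) (nat_lit 50) (.c (nat_lit 4) (nat_lit 2) .nil)) (.i false (nat_lit 4) (nat_lit 2) (.c (nat_lit 69) (nat_lit 36) (.c (nat_lit 0) (nat_lit 16) .nil)) (.i true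 (nat_lit 4) (nat_lit 2) (.c (nat_lit 70) (nat_lit 36) (.c (nat_lit 0) (nat_lit 16) .nil)) (.i true (nat_lit 4) (nat_lit 2) (.c (nat_lit 53) (nat_lit 51) (.c (nat_lit 1) (nat_lit 1) .nil)) (.i true (nat_lit 4) (nat_lit 2) (.c (nat_lit 56) (nat_lit 51) (.c (nat_lit 1) (nat_lit 1) .nil)) (.i false (nat_lit 4) (nat_lit 2) (.c (nat_lit 58) (nat_lit 51) (.c (nat_lit 1) (nat_lit 1) .nil)) (.i false (nat_lit 4) (nat_lit 2) (.c (nat_lit 52) (nat_lit 51) (.c (nat_lit 1) (nat_lit 1) .nil)) .nil)))))))))))))))))))))))))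

noncomputable def dzE_i21 : IL := (.i true (nat_lit 4) (nat_lit 2) (.c (nat_lit 27) (nat_lit 50) (.c (nat_lit 4) (nat_lit 2) .nil)) (.i true (nat_lit 8) (nat_lit 2) (.c (nat_lit 63) (nat_lit 36) (.c (nat_lit 0) (nat_lit 16) .nil)) (.i false (nat_lit 20) (nat_lit 2) (.c (nat_lit 64) (nat_lit 36) (.c (nat_lit 0) (nat_lit 16) .nil)) (.i true (nat_lit 4) (nat_lit 2) (.c (nat_lit 65) (nat_lit 36) (.c (nat_lit 0) (nat_lit 16) .nil)) (.i true (nat_lit 12) (nat_lit 2) (.c (nat_lit 68) (nat_lit 36) (.c (nat_lit 0) (nat_lit 16) .nil)) (.i true (nat_lit 4) (nat_lit 2) (.c (nat_lit 29) (nat_lit 50) (.c (nat_lit 4) (nat_lit 2) .nil)) (.i false (nat_lit 4) (nat_lit 2) (.c (nat_lit 30) (nat_lit 50) (.c (nat_lit 4) (nat_lit 2) .nil)) (.i false (nat_lit 4) (nat_lit 2) (.c (nat_lit 69) (nat_lit 36) (.c (nat_lit 0) (nat_lit 16) .nil)) (.i true (nat_lit 4) (nat_lit 2) (.c (nat_lit 70) (nat_lit 36)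 (.c (nat_lit 0) (nat_lit 16) .nil)) (.i false (nat_lit 4) (nat_lit 2) (.c (nat_lit 53) (nat_lit 51) (.c (nat_lit 1) (nat_lit 1) .nil)) (.i true (nat_lit 4) (nat_lit 2) (.c (nat_lit 55) (nat_lit 51) (.c (nat_lit 1) (nat_lit 1) .nil)) (.i true (nat_lit 4) (nat_lit 2) (.c (nat_lit 56) (nat_lit 51) (.c (nat_lit 1) (nat_lit 1) .nil)) (.i false (nat_lit 4) (nat_lit 2) (.c (nat_lit 57) (nat_lit 51) (.c (nat_lit 1) (nat_lit 1) .nil)) (.i false (nat_lit 8) (nat_lit 2) (.c (nat_lit 62) (nat_lit 51) (.c (nat_lit 1) (nat_lit 1) .nil)) (.i true (nat_lit 4) (nat_lit 2) (.c (nat_lit 59) (nat_lit 51) (.c (nat_lit 1) (nat_lit 1) .nil)) (.i false (nat_lit 4) (nat_lit 2) (.c (nat_lit 13) (nat_lit 49) (.c (nat_lit 10) (nat_lit 3) .nil)) (.i false (nat_lit 4) (nat_lit 2) (.c (nat_lit 41) (nat_lit 20) (.c (nat_lit 2) (nat_lit 32) .nil)) (.i true (nat_lit 4) (nat_lit 2) (.c (nat_lit 16) (nat_lit 34)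 (.c (nat_lit 8) (nat_lit 18) .nil)) (.i false (nat_lit 4) (nat_lit 2) (.c (nat_lit 34) (nat_lit 35) (.c (nat_lit 3) (nat_lit 17) .nil)) (.i false (nat_lit 4) (nat_lit 2) (.c (nat_lit 63) (nat_lit 36) (.c (nat_lit 0) (nat_lit 16) .nil)) (.i true (nat_lit 4) (nat_lit 2) (.c (nat_lit 69) (nat_lit 36) (.c (nat_lit 0) (nat_lit 16) .nil)) (.i true (nat_lit 4) (nat_lit 2) (.c (nat_lit 56) (nat_lit 51) (.c (nat_lit 1) (nat_lit 1) .nil)) (.i false (nat_lit 4) (nat_lit 2) (.c (nat_lit 60) (nat_lit 51) (.c (nat_lit 1) (nat_lit 1) .nil)) (.i false (nat_lit 4) (nat_lit 2) (.c (nat_lit 61) (nat_lit 51) (.c (nat_lit 1) (nat_lit 1) .nil)) (.i false (nat_lit 4) (nat_lit 2) (.c (nat_lit 52) (nat_lit 51) (.c (nat_lit 1) (nat_lit 1) .nil)) .nil)))))))))))))))))))))))))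

noncomputable def dzE_i22 : IL := (.s false (nat_lit 2) (nat_lit 10) (nat_lit 2) (nat_lit 1) (nat_lit 0) true (nat_lit 3) true (nat_lit 8) true (nat_lit 0) true (nat_lit 6) true (nat_lit 7) (.s true (nat_lit 2) (nat_lit 13) (nat_lit 1) (nat_lit 1) (nat_lit 1) true (nat_lit 4) true (nat_lit 7) false (nat_lit 0) true (nat_lit 7) true (nat_lit 7) (.s false (nat_lit 2) (nat_lit 16) (nat_lit 0) (nat_lit 1) (nat_lit 1) true (nat_lit 5) true (nat_lit 7) false (nat_lit 1) true (nat_lit 8) true (nat_lit 7) (.s false (nat_lit 2) (nat_lit 16) (nat_lit 1) (nat_lit 0) (nat_lit 1) true (nat_lit 4) true (nat_lit 7) false (nat_lit 1) true (nat_lit 7) true (nat_lit 8) (.s false (nat_lit 2) (nat_lit 16) (nat_lit 1) (nat_lit 1) (nat_lit 0) true (nat_lit 5) true (nat_lit 8) false (nat_lit 1) true (nat_lit 7) true (nat_lit 7) (.s true (nat_lit 1) (nat_lit 21) (nat_lit 0) (nat_lit 0) (nat_lit 0) true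 (nat_lit 6) true (nat_lit 8) false (nat_lit 3) true (nat_lit 8) true (nat_lit 8) (.e false (nat_lit 2) (nat_lit 63) (nat_lit 0) (nat_lit 8) (.e true (nat_lit 4) (nat_lit 64) (nat_lit 0) (nat_lit 8) (.e false (nat_lit 2) (nat_lit 69) (nat_lit 0) (nat_lit 8) (.e false (nat_lit 2) (nat_lit 70) (nat_lit 0) (nat_lit 8) (.e true (nat_lit 4) (nat_lit 53) (nat_lit 1) (nat_lit 7) (.e false (nat_lit 2) (nat_lit 56) (nat_lit 1) (nat_lit 7) (.e true (nat_lit 4) (nat_lit 57) (nat_lit 1) (nat_lit 7) (.e false (nat_lit 4) (nat_lit 60) (nat_lit 1) (nat_lit 7) (.e false (nat_lit 4) (nat_lit 61) (nat_lit 1) (nat_lit 7) (.e false (nat_lit 2) (nat_lit 52) (nat_lit 1) (nat_lit 7) (.e true (nat_lit 4) (nat_lit 71) (nat_lit 0) (nat_lit 8) (.e true (nat_lit 10) (nat_lit 63) (nat_lit 0) (nat_lit 8) (.e false (nat_lit 10) (nat_lit 69) (nat_lit 0) (nat_lit 8) (.e false (nat_lit 10) (nat_lit 56) (nat_lit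 1) (nat_lit 7) (.e true (nat_lit 10) (nat_lit 60) (nat_lit 1) (nat_lit 7) (.e true (nat_lit 10) (nat_lit 61) (nat_lit 1) (nat_lit 7) (.e true (nat_lit 10) (nat_lit 52) (nat_lit 1) (nat_lit 7) (.i true (nat_lit 8) (nat_lit 2) (.c (nat_lit 67) (nat_lit 36) (.c (nat_lit 0) (nat_lit 16) .nil)) (.i true (nat_lit 4) (nat_lit 2) (.c (nat_lit 40) (nat_lit 20) (.c (nat_lit 2) (nat_lit 32) .nil)) dzE_i21)))))))))))))))))))))))))

noncomputable def dzE_i23 : IL := (.e true (nat_lit 4) (nat_lit 60) (nat_lit 1) (nat_lit 7) (.e true (nat_lit 4) (nat_lit 61) (nat_lit 1) (nat_lit 7) (.e false (nat_lit 2) (nat_lit 53) (nat_lit 1) (nat_lit 7) (.e true (nat_lit 4) (nat_lit 56) (nat_lit 1) (nat_lit 7) (.e false (nat_lit 4) (nat_lit 63) (nat_lit 0) (nat_lit 8) (.e false (nat_lit 2) (nat_lit 64) (nat_lit 0) (nat_lit 8) (.e false (nat_lit 4) (nat_lit 67) (nat_lit 0) (nat_lit 8) (.e false (nat_lit 4)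 (nat_lit 68) (nat_lit 0) (nat_lit 8) (.e false (nat_lit 4) (nat_lit 52) (nat_lit 1) (nat_lit 7) (.e false (nat_lit 4) (nat_lit 71) (nat_lit 0) (nat_lit 8) (.e false (nat_lit 10) (nat_lit 60) (nat_lit 1) (nat_lit 7) (.e false (nat_lit 10) (nat_lit 61) (nat_lit 1) (nat_lit 7) (.e false (nat_lit 10) (nat_lit 53) (nat_lit 1) (nat_lit 7) (.e true (nat_lit 10) (nat_lit 56) (nat_lit 1) (nat_lit 7) (.e true (nat_lit 10) (nat_lit 68) (nat_lit 0) (nat_lit 8) (.e true (nat_lit 20) (nat_lit 69) (nat_lit 0) (nat_lit 8) (.i false (nat_lit 4) (nat_lit 2) (.c (nat_lit 58) (nat_lit 51) (.c (nat_lit 1) (nat_lit 1) .nil)) (.i true (nat_lit 4) (nat_lit 2) (.c (nat_lit 53) (nat_lit 51) (.c (nat_lit 1) (nat_lit 1) .nil)) (.i true (nat_lit 4) (nat_lit 2) (.c (nat_lit 64) (nat_lit 36) (.c (nat_lit 0) (nat_lit 16) .nil)) (.i true (nat_lit 4) (nat_lit 2) (.c (nat_lit 60) (nat_lit 51) (.c (nat_lit 1) (nat_lit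 1) .nil)) (.i true (nat_lit 4) (nat_lit 2) (.c (nat_lit 61) (nat_lit 51) (.c (nat_lit 1) (nat_lit 1) .nil)) (.i true (nat_lit 4) (nat_lit 2) (.c (nat_lit 53) (nat_lit 51) (.c (nat_lit 1) (nat_lit 1) .nil)) (.i false (nat_lit 4) (nat_lit 2) (.c (nat_lit 56) (nat_lit 51) (.c (nat_lit 1) (nat_lit 1) .nil)) (.i false (nat_lit 4) (nat_lit 2) (.c (nat_lit 68) (nat_lit 36) (.c (nat_lit 0) (nat_lit 16) .nil)) (.i false (nat_lit 8) (nat_lit 2) (.c (nat_lit 69) (nat_lit 36) (.c (nat_lit 0) (nat_lit 16) .nil)) .nil)))))))))))))))))))))))))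

noncomputable def dzE_i24 : IL := (.e true (nat_lit 4) (nat_lit 56) (nat_lit 1) (nat_lit 7) (.e true (nat_lit 2) (nat_lit 58) (nat_lit 1) (nat_lit 7) (.e false (nat_lit 4) (nat_lit 52) (nat_lit 1) (nat_lit 7) (.e false (nat_lit 4) (nat_lit 69) (nat_lit 0) (nat_lit 8) (.e true (nat_lit 2) (nat_lit 70) (nat_lit 0) (nat_lit 8) (.e true (nat_lit 4) (nat_lit 71) (nat_lit 0) (nat_lit 8) (.e true (nat_lit 10) (nat_lit 63) (nat_lit 0) (nat_lit 8) (.e false (nat_lit 10) (nat_lit 56) (nat_lit 1) (nat_lit 7) (.e true (nat_lit 20) (nat_lit 52) (nat_lit 1) (nat_lit 7) (.e true (nat_lit 10) (nat_lit 57) (nat_lit 1) (nat_lit 7) (.e true (nat_lit 10) (nat_lit 60) (nat_lit 1) (nat_lit 7) (.e true (nat_lit 10) (nat_lit 61) (nat_lit 1) (nat_lit 7) (.e true (nat_lit 10) (nat_lit 68) (nat_lit 0) (nat_lit 8) (.e false (nat_lit 10) (nat_lit 70) (nat_lit 0) (nat_lit 8) (.i true (nat_lit 4) (nat_lit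 2) (.c (nat_lit 53) (nat_lit 51) (.c (nat_lit 1) (nat_lit 1) .nil)) (.i false (nat_lit 4) (nat_lit 2) (.c (nat_lit 58) (nat_lit 51) (.c (nat_lit 1) (nat_lit 1) .nil)) (.i false (nat_lit 4) (nat_lit 2) (.c (nat_lit 71) (nat_lit 36) (.c (nat_lit 0) (nat_lit 16) .nil)) (.i false (nat_lit 4) (nat_lit 2) (.c (nat_lit 63) (nat_lit 36) (.c (nat_lit 0) (nat_lit 16) .nil)) (.i true (nat_lit 4) (nat_lit 2) (.c (nat_lit 56) (nat_lit 51) (.c (nat_lit 1) (nat_lit 1) .nil)) (.i false (nat_lit 8) (nat_lit 2) (.c (nat_lit 52) (nat_lit 51) (.c (nat_lit 1) (nat_lit 1) .nil)) (.i false (nat_lit 4) (nat_lit 2) (.c (nat_lit 57) (nat_lit 51) (.c (nat_lit 1) (nat_lit 1) .nil)) (.i false (nat_lit 4) (nat_lit 2) (.c (nat_lit 60) (nat_lit 51) (.c (nat_lit 1) (nat_lit 1) .nil)) (.i false (nat_lit 4) (nat_lit 2) (.c (nat_lit 61) (nat_lit 51) (.c (nat_lit 1) (nat_lit 1) .nil)) (.i false (nat_lit 4) (nat_lit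 2) (.c (nat_lit 68) (nat_lit 36) (.c (nat_lit 0) (nat_lit 16) .nil)) (.i true (nat_lit 4) (nat_lit 2) (.c (nat_lit 70) (nat_lit 36) (.c (nat_lit 0) (nat_lit 16) .nil)) .nil)))))))))))))))))))))))))

noncomputable def dzE_i25 : IL := (.e true (nat_lit 10) (nat_lit 70) (nat_lit 0) (nat_lit 8) (.i false (nat_lit 2) (nat_lit 2) (.c (nat_lit 29) (nat_lit 50) (.c (nat_lit 4) (nat_lit 2) .nil)) (.i false (nat_lit 2) (nat_lit 2) (.c (nat_lit 27) (nat_lit 50) (.c (nat_lit 4) (nat_lit 2) .nil)) (.i false (nat_lit 4) (nat_lit 2) (.c (nat_lit 67) (nat_lit 36) (.c (nat_lit 0) (nat_lit 16) .nil)) (.i true (nat_lit 2) (nat_lit 2) (.c (nat_lit 30) (nat_lit 50) (.c (nat_lit 4) (nat_lit 2) .nil)) (.i false (nat_lit 2) (nat_lit 2) (.c (nat_lit 26) (nat_lit 50) (.c (nat_lit 4) (nat_lit 2) .nil)) (.i true (nat_lit 4) (nat_lit 2) (.c (nat_lit 70) (nat_lit 36) (.c (nat_lit 0) (nat_lit 16) .nil)) (.i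 false (nat_lit 4) (nat_lit 2) (.c (nat_lit 55) (nat_lit 51) (.c (nat_lit 1) (nat_lit 1) .nil)) (.i false (nat_lit 4) (nat_lit 2) (.c (nat_lit 56) (nat_lit 51) (.c (nat_lit 1) (nat_lit 1) .nil)) (.i true (nat_lit 4) (nat_lit 2) (.c (nat_lit 57) (nat_lit 51) (.c (nat_lit 1) (nat_lit 1) .nil)) (.i false (nat_lit 4) (nat_lit 2) (.c (nat_lit 58) (nat_lit 51) (.c (nat_lit 1) (nat_lit 1) .nil)) (.i true (nat_lit 8) (nat_lit 2) (.c (nat_lit 62) (nat_lit 51) (.c (nat_lit 1) (nat_lit 1) .nil)) (.i true (nat_lit 4) (nat_lit 2) (.c (nat_lit 13) (nat_lit 49) (.c (nat_lit 10) (nat_lit 3) .nil)) (.i false (nat_lit 4) (nat_lit 2) (.c (nat_lit 19) (nat_lit 19) (.c (nat_lit 6) (nat_lit 33) .nil)) (.i true (nat_lit 4) (nat_lit 2) (.c (nat_lit 20) (nat_lit 19) (.c (nat_lit 6) (nat_lit 33) .nil)) (.i true (nat_lit 4) (nat_lit 2) (.c (nat_lit 52) (nat_lit 51) (.c (nat_lit 1) (nat_lit 1) .nil)) (.i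 true (nat_lit 4) (nat_lit 2) (.c (nat_lit 16) (nat_lit 34) (.c (nat_lit 9) (nat_lit 18) .nil)) (.i false (nat_lit 4) (nat_lit 2) (.c (nat_lit 17) (nat_lit 34) (.c (nat_lit 9) (nat_lit 18) .nil)) (.i true (nat_lit 4) (nat_lit 2) (.c (nat_lit 52) (nat_lit 51) (.c (nat_lit 1) (nat_lit 1) .nil)) (.i true (nat_lit 4) (nat_lit 2) (.c (nat_lit 53) (nat_lit 51) (.c (nat_lit 1) (nat_lit 1) .nil)) (.i true (nat_lit 4) (nat_lit 2) (.c (nat_lit 59) (nat_lit 51) (.c (nat_lit 1) (nat_lit 1) .nil)) (.i true (nat_lit 4) (nat_lit 2) (.c (nat_lit 60) (nat_lit 51) (.c (nat_lit 1) (nat_lit 1) .nil)) (.i true (nat_lit 4) (nat_lit 2) (.c (nat_lit 61) (nat_lit 51) (.c (nat_lit 1) (nat_lit 1) .nil)) (.i true (nat_lit 4) (nat_lit 2) (.c (nat_lit 68) (nat_lit 36) (.c (nat_lit 0) (nat_lit 16) .nil)) (.i false (nat_lit 4) (nat_lit 2) (.c (nat_lit 70) (nat_lit 36) (.c (nat_lit 0) (nat_lit 16) .nil)) .nil)))))))))))))))))))))))))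

noncomputable def dzE_i26 : IL := (.s false (nat_lit 1) (nat_lit 15) (nat_lit 1) (nat_lit 0) (nat_lit 1) true (nat_lit 4) true (nat_lit 7) false (nat_lit 1) true (nat_lit 7) true (nat_lit 8) (.s true (nat_lit 1) (nat_lit 16) (nat_lit 1) (nat_lit 0) (nat_lit 1) true (nat_lit 4) true (nat_lit 7) false (nat_lit 1) true (nat_lit 7) true (nat_lit 8) (.s false (nat_lit 2) (nat_lit 16) (nat_lit 1) (nat_lit 1) (nat_lit 0) true (nat_lit 5) true (nat_lit 8) false (nat_lit 1) true (nat_lit 7) true (nat_lit 7) (.s true (nat_lit 1) (nat_lit 17) (nat_lit 1) (nat_lit 1) (nat_lit 0) true (nat_lit 5) true (nat_lit 8) false (nat_lit 1) true (nat_lit 7) true (nat_lit 7) (.s false (nat_lit 2) (nat_lit 20) (nat_lit 0) (nat_lit 0) (nat_lit 1) true (nat_lit 5) true (nat_lit 7) false (nat_lit 2) true (nat_lit 8) true (nat_lit 8) (.s false (nat_lit 2) (nat_lit 20) (nat_lit 0) (nat_lit 1) (nat_lit 0)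 true (nat_lit 6) true (nat_lit 8) false (nat_lit 2) true (nat_lit 8) true (nat_lit 7) (.e false (nat_lit 2) (nat_lit 27) (nat_lit 4) (nat_lit 4) (.e true (nat_lit 2) (nat_lit 64) (nat_lit 0) (nat_lit 8) (.e false (nat_lit 2) (nat_lit 65) (nat_lit 0) (nat_lit 8) (.e false (nat_lit 2) (nat_lit 67) (nat_lit 0) (nat_lit 8) (.e true (nat_lit 4) (nat_lit 68) (nat_lit 0) (nat_lit 8) (.e true (nat_lit 4) (nat_lit 69) (nat_lit 0) (nat_lit 8) (.e false (nat_lit 4) (nat_lit 70) (nat_lit 0) (nat_lit 8) (.e true (nat_lit 2) (nat_lit 53) (nat_lit 1) (nat_lit 7) (.e true (nat_lit 2) (nat_lit 54) (nat_lit 1) (nat_lit 7) (.e true (nat_lit 2) (nat_lit 55) (nat_lit 1) (nat_lit 7) (.e false (nat_lit 4) (nat_lit 57) (nat_lit 1) (nat_lit 7) (.e true (nat_lit 2) (nat_lit 59) (nat_lit 1) (nat_lit 7) (.e false (nat_lit 2) (nat_lit 71) (nat_lit 0) (nat_lit 8) (.e false (nat_lit 10) (nat_lit 52) (nat_lit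 1) (nat_lit 7) (.e false (nat_lit 10) (nat_lit 53) (nat_lit 1) (nat_lit 7) (.e false (nat_lit 10) (nat_lit 59) (nat_lit 1) (nat_lit 7) (.e false (nat_lit 10) (nat_lit 60) (nat_lit 1) (nat_lit 7) (.e false (nat_lit 10) (nat_lit 61) (nat_lit 1) (nat_lit 7) (.e false (nat_lit 10) (nat_lit 68) (nat_lit 0) (nat_lit 8) dzE_i25)))))))))))))))))))))))))

noncomputable def dzE_i27 : IL := (.e false (nat_lit 2) (nat_lit 29) (nat_lit 4) (nat_lit 4) (.e false (nat_lit 2) (nat_lit 55) (nat_lit 1) (nat_lit 7) (.e true (nat_lit 2) (nat_lit 59) (nat_lit 1) (nat_lit 7) (.e false (nat_lit 2) (nat_lit 60) (nat_lit 1) (nat_lit 7) (.e false (nat_lit 2) (nat_lit 61) (nat_lit 1) (nat_lit 7) (.e false (nat_lit 2) (nat_lit 71) (nat_lit 0) (nat_lit 8) (.e true (nat_lit 2) (nat_lit 64) (nat_lit 0) (nat_lit 8) (.e false (nat_lit 2) (nat_lit 65) (nat_lit 0) (nat_lit 8) (.e false (nat_lit 10) (nat_lit 52)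 (nat_lit 1) (nat_lit 7) (.e true (nat_lit 10) (nat_lit 55) (nat_lit 1) (nat_lit 7) (.e true (nat_lit 10) (nat_lit 69) (nat_lit 0) (nat_lit 8) (.i false (nat_lit 4) (nat_lit 2) (.c (nat_lit 30) (nat_lit 50) (.c (nat_lit 4) (nat_lit 2) .nil)) (.i true (nat_lit 4) (nat_lit 2) (.c (nat_lit 29) (nat_lit 50) (.c (nat_lit 4) (nat_lit 2) .nil)) (.i false (nat_lit 4) (nat_lit 2) (.c (nat_lit 33) (nat_lit 35) (.c (nat_lit 3) (nat_lit 17) .nil)) (.i true (nat_lit 4) (nat_lit 2) (.c (nat_lit 34) (nat_lit 35) (.c (nat_lit 3) (nat_lit 17) .nil)) (.i true (nat_lit 4) (nat_lit 2) (.c (nat_lit 57) (nat_lit 51) (.c (nat_lit 1) (nat_lit 1) .nil)) (.i false (nat_lit 4) (nat_lit 2) (.c (nat_lit 58) (nat_lit 51) (.c (nat_lit 1) (nat_lit 1) .nil)) (.i true (nat_lit 4) (nat_lit 2) (.c (nat_lit 16) (nat_lit 34) (.c (nat_lit 9) (nat_lit 18) .nil)) (.i false (nat_lit 4) (nat_lit 2) (.c (nat_lit 17) (nat_lit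 34) (.c (nat_lit 9) (nat_lit 18) .nil)) (.i true (nat_lit 4) (nat_lit 2) (.c (nat_lit 71) (nat_lit 36) (.c (nat_lit 0) (nat_lit 16) .nil)) (.i false (nat_lit 8) (nat_lit 2) (.c (nat_lit 64) (nat_lit 36) (.c (nat_lit 0) (nat_lit 16) .nil)) (.i true (nat_lit 8) (nat_lit 2) (.c (nat_lit 65) (nat_lit 36) (.c (nat_lit 0) (nat_lit 16) .nil)) (.i true (nat_lit 4) (nat_lit 2) (.c (nat_lit 52) (nat_lit 51) (.c (nat_lit 1) (nat_lit 1) .nil)) (.i false (nat_lit 4) (nat_lit 2) (.c (nat_lit 55) (nat_lit 51) (.c (nat_lit 1) (nat_lit 1) .nil)) (.i false (nat_lit 4) (nat_lit 2) (.c (nat_lit 69) (nat_lit 36) (.c (nat_lit 0) (nat_lit 16) .nil)) .nil)))))))))))))))))))))))))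

noncomputable def dzE_i28 : IL := (.e false (nat_lit 4) (nat_lit 58) (nat_lit 1) (nat_lit 7) (.e false (nat_lit 2) (nat_lit 53) (nat_lit 1) (nat_lit 7) (.e false (nat_lit 2) (nat_lit 69) (nat_lit 0) (nat_lit 8) (.e false (nat_lit 4) (nat_lit 70) (nat_lit 0) (nat_lit 8) (.e false (nat_lit 20) (nat_lit 63) (nat_lit 0) (nat_lit 8) (.e false (nat_lit 10) (nat_lit 64) (nat_lit 0) (nat_lit 8) (.e true (nat_lit 10) (nat_lit 53) (nat_lit 1) (nat_lit 7) (.e false (nat_lit 20) (nat_lit 55) (nat_lit 1) (nat_lit 7) (.e true (nat_lit 10) (nat_lit 56) (nat_lit 1) (nat_lit 7) (.e false (nat_lit 10) (nat_lit 54) (nat_lit 1) (nat_lit 7) (.e false (nat_lit 10) (nat_lit 69) (nat_lit 0) (nat_lit 8) (.i false (nat_lit 4) (nat_lit 2) (.c (nat_lit 39) (nat_lit 20) (.c (nat_lit 2) (nat_lit 32) .nil)) (.i true (nat_lit 4) (nat_lit 2) (.c (nat_lit 40) (nat_lit 20) (.c (nat_lit 2) (nat_lit 32) .nil)) (.i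 false (nat_lit 4) (nat_lit 2) (.c (nat_lit 64) (nat_lit 36) (.c (nat_lit 0) (nat_lit 16) .nil)) (.i true (nat_lit 4) (nat_lit 2) (.c (nat_lit 29) (nat_lit 50) (.c (nat_lit 4) (nat_lit 2) .nil)) (.i false (nat_lit 4) (nat_lit 2) (.c (nat_lit 30) (nat_lit 50) (.c (nat_lit 4) (nat_lit 2) .nil)) (.i true (nat_lit 4) (nat_lit 2) (.c (nat_lit 53) (nat_lit 51) (.c (nat_lit 1) (nat_lit 1) .nil)) (.i true (nat_lit 4) (nat_lit 2) (.c (nat_lit 69) (nat_lit 36) (.c (nat_lit 0) (nat_lit 16) .nil)) (.i true (nat_lit 8) (nat_lit 2) (.c (nat_lit 63) (nat_lit 36) (.c (nat_lit 0) (nat_lit 16) .nil)) (.i true (nat_lit 4) (nat_lit 2) (.c (nat_lit 64) (nat_lit 36) (.c (nat_lit 0) (nat_lit 16) .nil)) (.i false (nat_lit 4) (nat_lit 2) (.c (nat_lit 53) (nat_lit 51) (.c (nat_lit 1) (nat_lit 1) .nil)) (.i true (nat_lit 8) (nat_lit 2) (.c (nat_lit 55) (nat_lit 51) (.c (nat_lit 1) (nat_lit 1) .nil)) (.i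 false (nat_lit 4) (nat_lit 2) (.c (nat_lit 56) (nat_lit 51) (.c (nat_lit 1) (nat_lit 1) .nil)) (.i true (nat_lit 4) (nat_lit 2) (.c (nat_lit 54) (nat_lit 51) (.c (nat_lit 1) (nat_lit 1) .nil)) (.i true (nat_lit 4) (nat_lit 2) (.c (nat_lit 69) (nat_lit 36) (.c (nat_lit 0) (nat_lit 16) .nil)) .nil)))))))))))))))))))))))))

noncomputable def dzE_i29 : IL := (.e true (nat_lit 2) (nat_lit 61) (nat_lit 1) (nat_lit 7) (.e false (nat_lit 4) (nat_lit 26) (nat_lit 4) (nat_lit 4) (.e true (nat_lit 4) (nat_lit 52) (nat_lit 1) (nat_lit 7) (.e false (nat_lit 2) (nat_lit 54) (nat_lit 1) (nat_lit 7) (.e false (nat_lit 2) (nat_lit 71) (nat_lit 0) (nat_lit 8) (.e true (nat_lit 10) (nat_lit 56) (nat_lit 1) (nat_lit 7) (.e true (nat_lit 20) (nat_lit 54) (nat_lit 1) (nat_lit 7) (.e true (nat_lit 10) (nat_lit 69) (nat_lit 0) (nat_lit 8) (.e true (nat_lit 10) (nat_lit 59) (nat_lit 1) (nat_lit 7) (.e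 true (nat_lit 10) (nat_lit 70) (nat_lit 0) (nat_lit 8) (.i false (nat_lit 2) (nat_lit 2) (.c (nat_lit 27) (nat_lit 50) (.c (nat_lit 4) (nat_lit 2) .nil)) (.i true (nat_lit 2) (nat_lit 2) (.c (nat_lit 29) (nat_lit 50) (.c (nat_lit 4) (nat_lit 2) .nil)) (.i false (nat_lit 2) (nat_lit 2) (.c (nat_lit 30) (nat_lit 50) (.c (nat_lit 4) (nat_lit 2) .nil)) (.i true (nat_lit 8) (nat_lit 2) (.c (nat_lit 55) (nat_lit 51) (.c (nat_lit 1) (nat_lit 1) .nil)) (.i true (nat_lit 4) (nat_lit 2) (.c (nat_lit 56) (nat_lit 51) (.c (nat_lit 1) (nat_lit 1) .nil)) (.i false (nat_lit 4) (nat_lit 2) (.c (nat_lit 58) (nat_lit 51) (.c (nat_lit 1) (nat_lit 1) .nil)) (.i false (nat_lit 4) (nat_lit 2) (.c (nat_lit 62) (nat_lit 51) (.c (nat_lit 1) (nat_lit 1) .nil)) (.i true (nat_lit 2) (nat_lit 2) (.c (nat_lit 26) (nat_lit 50) (.c (nat_lit 4) (nat_lit 2) .nil)) (.i false (nat_lit 4) (nat_lit 2) (.c (nat_lit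 52) (nat_lit 51) (.c (nat_lit 1) (nat_lit 1) .nil)) (.i true (nat_lit 4) (nat_lit 2) (.c (nat_lit 53) (nat_lit 51) (.c (nat_lit 1) (nat_lit 1) .nil)) (.i false (nat_lit 4) (nat_lit 2) (.c (nat_lit 56) (nat_lit 51) (.c (nat_lit 1) (nat_lit 1) .nil)) (.i false (nat_lit 8) (nat_lit 2) (.c (nat_lit 54) (nat_lit 51) (.c (nat_lit 1) (nat_lit 1) .nil)) (.i false (nat_lit 4) (nat_lit 2) (.c (nat_lit 69) (nat_lit 36) (.c (nat_lit 0) (nat_lit 16) .nil)) (.i false (nat_lit 4) (nat_lit 2) (.c (nat_lit 59) (nat_lit 51) (.c (nat_lit 1) (nat_lit 1) .nil)) (.i false (nat_lit 4) (nat_lit 2) (.c (nat_lit 70) (nat_lit 36) (.c (nat_lit 0) (nat_lit 16) .nil)) .nil)))))))))))))))))))))))))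

noncomputable def dzE_i30 : IL := (.e true (nat_lit 2) (nat_lit 61) (nat_lit 1) (nat_lit 7) (.e true (nat_lit 2) (nat_lit 62) (nat_lit 1) (nat_lit 7) (.e true (nat_lit 4) (nat_lit 64) (nat_lit 0) (nat_lit 8) (.e false (nat_lit 4) (nat_lit 65) (nat_lit 0) (nat_lit 8) (.e false (nat_lit 4) (nat_lit 67) (nat_lit 0) (nat_lit 8) (.e true (nat_lit 4) (nat_lit 52) (nat_lit 1) (nat_lit 7) (.e true (nat_lit 4) (nat_lit 69) (nat_lit 0) (nat_lit 8) (.e true (nat_lit 20) (nat_lit 55) (nat_lit 1) (nat_lit 7) (.e false (nat_lit 10) (nat_lit 57) (nat_lit 1) (nat_lit 7) (.e false (nat_lit 20) (nat_lit 52) (nat_lit 1) (nat_lit 7) (.e false (nat_lit 10) (nat_lit 53) (nat_lit 1) (nat_lit 7) (.e false (nat_lit 10) (nat_lit 54) (nat_lit 1) (nat_lit 7) (.e false (nat_lit 20) (nat_lit 60) (nat_lit 1) (nat_lit 7) (.e false (nat_lit 20) (nat_lit 61) (nat_lit 1) (nat_lit 7) (.e false (nat_lit 20) (nat_lit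 59) (nat_lit 1) (nat_lit 7) (.i false (nat_lit 4) (nat_lit 2) (.c (nat_lit 56) (nat_lit 51) (.c (nat_lit 1) (nat_lit 1) .nil)) (.i true (nat_lit 4) (nat_lit 2) (.c (nat_lit 58) (nat_lit 51) (.c (nat_lit 1) (nat_lit 1) .nil)) (.i false (nat_lit 8) (nat_lit 2) (.c (nat_lit 55) (nat_lit 51) (.c (nat_lit 1) (nat_lit 1) .nil)) (.i true (nat_lit 4) (nat_lit 2) (.c (nat_lit 57) (nat_lit 51) (.c (nat_lit 1) (nat_lit 1) .nil)) (.i true (nat_lit 8) (nat_lit 2) (.c (nat_lit 52) (nat_lit 51) (.c (nat_lit 1) (nat_lit 1) .nil)) (.i true (nat_lit 4) (nat_lit 2) (.c (nat_lit 53) (nat_lit 51) (.c (nat_lit 1) (nat_lit 1) .nil)) (.i true (nat_lit 4) (nat_lit 2) (.c (nat_lit 54) (nat_lit 51) (.c (nat_lit 1) (nat_lit 1) .nil)) (.i true (nat_lit 8) (nat_lit 2) (.c (nat_lit 60) (nat_lit 51) (.c (nat_lit 1) (nat_lit 1) .nil)) (.i true (nat_lit 8) (nat_lit 2) (.c (nat_lit 61) (nat_lit 51) (.c (nat_lit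 1) (nat_lit 1) .nil)) (.i true (nat_lit 8) (nat_lit 2) (.c (nat_lit 59) (nat_lit 51) (.c (nat_lit 1) (nat_lit 1) .nil)) .nil)))))))))))))))))))))))))

noncomputable def dzE_i31 : IL := (.e false (nat_lit 2) (nat_lit 33) (nat_lit 3) (nat_lit 5) (.e true (nat_lit 2) (nat_lit 52) (nat_lit 1) (nat_lit 7) (.e false (nat_lit 4) (nat_lit 53) (nat_lit 1) (nat_lit 7) (.e false (nat_lit 4) (nat_lit 55) (nat_lit 1) (nat_lit 7) (.e false (nat_lit 2) (nat_lit 56) (nat_lit 1) (nat_lit 7) (.e true (nat_lit 2) (nat_lit 57) (nat_lit 1) (nat_lit 7) (.e true (nat_lit 2) (nat_lit 58) (nat_lit 1) (nat_lit 7) (.e true (nat_lit 2) (nat_lit 62) (nat_lit 1) (nat_lit 7) (.e true (nat_lit 2) (nat_lit 71) (nat_lit 0) (nat_lit 8) (.e true (nat_lit 10) (nat_lit 52) (nat_lit 1) (nat_lit 7) (.e false (nat_lit 10) (nat_lit 53) (nat_lit 1) (nat_lit 7) (.e true (nat_lit 10) (nat_lit 54) (nat_lit 1) (nat_lit 7)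 (.e false (nat_lit 10) (nat_lit 56) (nat_lit 1) (nat_lit 7) (.e true (nat_lit 10) (nat_lit 68) (nat_lit 0) (nat_lit 8) (.e false (nat_lit 10) (nat_lit 70) (nat_lit 0) (nat_lit 8) (.e true (nat_lit 10) (nat_lit 63) (nat_lit 0) (nat_lit 8) (.e false (nat_lit 10) (nat_lit 59) (nat_lit 1) (nat_lit 7) (.i false (nat_lit 4) (nat_lit 2) (.c (nat_lit 52) (nat_lit 51) (.c (nat_lit 1) (nat_lit 1) .nil)) (.i true (nat_lit 4) (nat_lit 2) (.c (nat_lit 53) (nat_lit 51) (.c (nat_lit 1) (nat_lit 1) .nil)) (.i false (nat_lit 4) (nat_lit 2) (.c (nat_lit 54) (nat_lit 51) (.c (nat_lit 1) (nat_lit 1) .nil)) (.i true (nat_lit 4) (nat_lit 2) (.c (nat_lit 56) (nat_lit 51) (.c (nat_lit 1) (nat_lit 1) .nil)) (.i false (nat_lit 4) (nat_lit 2) (.c (nat_lit 68) (nat_lit 36) (.c (nat_lit 0) (nat_lit 16) .nil)) (.i true (nat_lit 4) (nat_lit 2) (.c (nat_lit 70) (nat_lit 36) (.c (nat_lit 0) (nat_lit 16) .nil))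 (.i false (nat_lit 4) (nat_lit 2) (.c (nat_lit 63) (nat_lit 36) (.c (nat_lit 0) (nat_lit 16) .nil)) (.i true (nat_lit 4) (nat_lit 2) (.c (nat_lit 59) (nat_lit 51) (.c (nat_lit 1) (nat_lit 1) .nil)) .nil)))))))))))))))))))))))))

noncomputable def dzE_i32 : IL := (.e true (nat_lit 2) (nat_lit 62) (nat_lit 1) (nat_lit 7) (.e true (nat_lit 20) (nat_lit 54) (nat_lit 1) (nat_lit 7) (.e false (nat_lit 10) (nat_lit 55) (nat_lit 1) (nat_lit 7) (.e false (nat_lit 10) (nat_lit 56) (nat_lit 1) (nat_lit 7) (.e true (nat_lit 10) (nat_lit 59) (nat_lit 1) (nat_lit 7) (.e true (nat_lit 10) (nat_lit 60) (nat_lit 1) (nat_lit 7) (.e true (nat_lit 10) (nat_lit 61) (nat_lit 1) (nat_lit 7) (.e true (nat_lit 10) (nat_lit 68) (nat_lit 0) (nat_lit 8) (.e false (nat_lit 10) (nat_lit 70) (nat_lit 0) (nat_lit 8) (.e true (nat_lit 10) (nat_lit 52) (nat_lit 1) (nat_lit 7) (.e true (nat_lit 20) (nat_lit 57)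 (nat_lit 1) (nat_lit 7) (.i true (nat_lit 4) (nat_lit 2) (.c (nat_lit 64) (nat_lit 36) (.c (nat_lit 0) (nat_lit 16) .nil)) (.i false (nat_lit 4) (nat_lit 2) (.c (nat_lit 67) (nat_lit 36) (.c (nat_lit 0) (nat_lit 16) .nil)) (.i false (nat_lit 4) (nat_lit 2) (.c (nat_lit 65) (nat_lit 36) (.c (nat_lit 0) (nat_lit 16) .nil)) (.i false (nat_lit 4) (nat_lit 2) (.c (nat_lit 56) (nat_lit 51) (.c (nat_lit 1) (nat_lit 1) .nil)) (.i false (nat_lit 8) (nat_lit 2) (.c (nat_lit 54) (nat_lit 51) (.c (nat_lit 1) (nat_lit 1) .nil)) (.i true (nat_lit 4) (nat_lit 2) (.c (nat_lit 55) (nat_lit 51) (.c (nat_lit 1) (nat_lit 1) .nil)) (.i true (nat_lit 4) (nat_lit 2) (.c (nat_lit 56) (nat_lit 51) (.c (nat_lit 1) (nat_lit 1) .nil)) (.i false (nat_lit 4) (nat_lit 2) (.c (nat_lit 59) (nat_lit 51) (.c (nat_lit 1) (nat_lit 1) .nil)) (.i false (nat_lit 4) (nat_lit 2) (.c (nat_lit 60) (nat_lit 51) (.c (nat_lit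 1) (nat_lit 1) .nil)) (.i false (nat_lit 4) (nat_lit 2) (.c (nat_lit 61) (nat_lit 51) (.c (nat_lit 1) (nat_lit 1) .nil)) (.i false (nat_lit 4) (nat_lit 2) (.c (nat_lit 68) (nat_lit 36) (.c (nat_lit 0) (nat_lit 16) .nil)) (.i true (nat_lit 4) (nat_lit 2) (.c (nat_lit 70) (nat_lit 36) (.c (nat_lit 0) (nat_lit 16) .nil)) (.i false (nat_lit 4) (nat_lit 2) (.c (nat_lit 52) (nat_lit 51) (.c (nat_lit 1) (nat_lit 1) .nil)) (.i false (nat_lit 8) (nat_lit 2) (.c (nat_lit 57) (nat_lit 51) (.c (nat_lit 1) (nat_lit 1) .nil)) .nil)))))))))))))))))))))))))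

noncomputable def dzE_i33 : IL := (.e false (nat_lit 2) (nat_lit 26) (nat_lit 4) (nat_lit 4) (.e true (nat_lit 4) (nat_lit 53) (nat_lit 1) (nat_lit 7) (.e false (nat_lit 4) (nat_lit 54) (nat_lit 1) (nat_lit 7) (.e true (nat_lit 2) (nat_lit 55) (nat_lit 1) (nat_lit 7) (.e true (nat_lit 4) (nat_lit 60) (nat_lit 1) (nat_lit 7) (.e true (nat_lit 2) (nat_lit 61) (nat_lit 1) (nat_lit 7) (.e false (nat_lit 2) (nat_lit 59) (nat_lit 1) (nat_lit 7) (.e true (nat_lit 2) (nat_lit 68) (nat_lit 0) (nat_lit 8) (.e false (nat_lit 2) (nat_lit 71) (nat_lit 0) (nat_lit 8) (.e false (nat_lit 4) (nat_lit 67) (nat_lit 0) (nat_lit 8) (.e true (nat_lit 2) (nat_lit 70) (nat_lit 0) (nat_lit 8) (.e false (nat_lit 10) (nat_lit 53) (nat_lit 1) (nat_lit 7) (.e true (nat_lit 10) (nat_lit 55) (nat_lit 1) (nat_lit 7) (.e true (nat_lit 10) (nat_lit 56) (nat_lit 1) (nat_lit 7) (.e false (nat_lit 10) (nat_lit 57)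 (nat_lit 1) (nat_lit 7) (.e true (nat_lit 10) (nat_lit 69) (nat_lit 0) (nat_lit 8) (.e false (nat_lit 10) (nat_lit 60) (nat_lit 1) (nat_lit 7) (.e false (nat_lit 10) (nat_lit 61) (nat_lit 1) (nat_lit 7) (.i true (nat_lit 4) (nat_lit 2) (.c (nat_lit 53) (nat_lit 51) (.c (nat_lit 1) (nat_lit 1) .nil)) (.i false (nat_lit 4) (nat_lit 2) (.c (nat_lit 55) (nat_lit 51) (.c (nat_lit 1) (nat_lit 1) .nil)) (.i false (nat_lit 4) (nat_lit 2) (.c (nat_lit 56) (nat_lit 51) (.c (nat_lit 1) (nat_lit 1) .nil)) (.i true (nat_lit 4) (nat_lit 2) (.c (nat_lit 57) (nat_lit 51) (.c (nat_lit 1) (nat_lit 1) .nil)) (.i false (nat_lit 4) (nat_lit 2) (.c (nat_lit 69) (nat_lit 36) (.c (nat_lit 0) (nat_lit 16) .nil)) (.i true (nat_lit 4) (nat_lit 2) (.c (nat_lit 60) (nat_lit 51) (.c (nat_lit 1) (nat_lit 1) .nil)) (.i true (nat_lit 4) (nat_lit 2) (.c (nat_lit 61) (nat_lit 51) (.c (nat_lit 1) (nat_lit 1) .nil))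 .nil)))))))))))))))))))))))))

noncomputable def dzE_i34 : IL := (.e true (nat_lit 2) (nat_lit 71) (nat_lit 0) (nat_lit 8) (.e true (nat_lit 4) (nat_lit 53) (nat_lit 1) (nat_lit 7) (.e false (nat_lit 4) (nat_lit 54) (nat_lit 1) (nat_lit 7) (.e true (nat_lit 4) (nat_lit 55) (nat_lit 1) (nat_lit 7) (.e true (nat_lit 10) (nat_lit 52) (nat_lit 1) (nat_lit 7) (.e true (nat_lit 10) (nat_lit 57) (nat_lit 1) (nat_lit 7) (.e true (nat_lit 10) (nat_lit 59) (nat_lit 1) (nat_lit 7) (.e true (nat_lit 10) (nat_lit 60) (nat_lit 1) (nat_lit 7) (.e true (nat_lit 10) (nat_lit 61) (nat_lit 1) (nat_lit 7) (.e true (nat_lit 10) (nat_lit 68) (nat_lit 0) (nat_lit 8) (.e false (nat_lit 10) (nat_lit 70) (nat_lit 0) (nat_lit 8) (.i false (nat_lit 4) (nat_lit 2) (.c (nat_lit 39) (nat_lit 20) (.c (nat_lit 2) (nat_lit 32) .nil)) (.i true (nat_lit 4) (nat_lit 2) (.c (nat_lit 40) (nat_lit 20) (.c (nat_lit 2)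 (nat_lit 32) .nil)) (.i true (nat_lit 4) (nat_lit 2) (.c (nat_lit 63) (nat_lit 36) (.c (nat_lit 0) (nat_lit 16) .nil)) (.i false (nat_lit 4) (nat_lit 2) (.c (nat_lit 64) (nat_lit 36) (.c (nat_lit 0) (nat_lit 16) .nil)) (.i true (nat_lit 4) (nat_lit 2) (.c (nat_lit 29) (nat_lit 50) (.c (nat_lit 4) (nat_lit 2) .nil)) (.i false (nat_lit 4) (nat_lit 2) (.c (nat_lit 30) (nat_lit 50) (.c (nat_lit 4) (nat_lit 2) .nil)) (.i true (nat_lit 4) (nat_lit 2) (.c (nat_lit 69) (nat_lit 36) (.c (nat_lit 0) (nat_lit 16) .nil)) (.i false (nat_lit 4) (nat_lit 2) (.c (nat_lit 52) (nat_lit 51) (.c (nat_lit 1) (nat_lit 1) .nil)) (.i false (nat_lit 4) (nat_lit 2) (.c (nat_lit 57) (nat_lit 51) (.c (nat_lit 1) (nat_lit 1) .nil)) (.i false (nat_lit 4) (nat_lit 2) (.c (nat_lit 59) (nat_lit 51) (.c (nat_lit 1) (nat_lit 1) .nil)) (.i false (nat_lit 4) (nat_lit 2) (.c (nat_lit 60) (nat_lit 51) (.c (nat_lit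 1) (nat_lit 1) .nil)) (.i false (nat_lit 4) (nat_lit 2) (.c (nat_lit 61) (nat_lit 51) (.c (nat_lit 1) (nat_lit 1) .nil)) (.i false (nat_lit 4) (nat_lit 2) (.c (nat_lit 68) (nat_lit 36) (.c (nat_lit 0) (nat_lit 16) .nil)) (.i true (nat_lit 4) (nat_lit 2) (.c (nat_lit 70) (nat_lit 36) (.c (nat_lit 0) (nat_lit 16) .nil)) .nil)))))))))))))))))))))))))

noncomputable def dzE_i35 : IL := (.e false (nat_lit 5) (nat_lit 57) (nat_lit 1) (nat_lit 7) (.e false (nat_lit 5) (nat_lit 59) (nat_lit 1) (nat_lit 7) (.e true (nat_lit 5) (nat_lit 63) (nat_lit 0) (nat_lit 8) (.e false (nat_lit 10) (nat_lit 68) (nat_lit 0) (nat_lit 8) (.e false (nat_lit 5) (nat_lit 53) (nat_lit 1) (nat_lit 7) (.e false (nat_lit 10) (nat_lit 60) (nat_lit 1) (nat_lit 7) (.e false (nat_lit 10) (nat_lit 61) (nat_lit 1) (nat_lit 7) (.e true (nat_lit 5) (nat_lit 70) (nat_lit 0) (nat_lit 8) (.e true (nat_lit 5) (nat_lit 54)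 (nat_lit 1) (nat_lit 7) (.i false (nat_lit 2) (nat_lit 2) (.c (nat_lit 40) (nat_lit 20) (.c (nat_lit 2) (nat_lit 32) .nil)) (.i true (nat_lit 2) (nat_lit 2) (.c (nat_lit 39) (nat_lit 20) (.c (nat_lit 2) (nat_lit 32) .nil)) (.i true (nat_lit 2) (nat_lit 2) (.c (nat_lit 64) (nat_lit 36) (.c (nat_lit 0) (nat_lit 16) .nil)) (.i false (nat_lit 2) (nat_lit 2) (.c (nat_lit 29) (nat_lit 50) (.c (nat_lit 4) (nat_lit 2) .nil)) (.i true (nat_lit 2) (nat_lit 2) (.c (nat_lit 30) (nat_lit 50) (.c (nat_lit 4) (nat_lit 2) .nil)) (.i false (nat_lit 2) (nat_lit 2) (.c (nat_lit 69) (nat_lit 36) (.c (nat_lit 0) (nat_lit 16) .nil)) (.i true (nat_lit 4) (nat_lit 2) (.c (nat_lit 52) (nat_lit 51) (.c (nat_lit 1) (nat_lit 1) .nil)) (.i true (nat_lit 2) (nat_lit 2) (.c (nat_lit 57) (nat_lit 51) (.c (nat_lit 1) (nat_lit 1) .nil)) (.i true (nat_lit 2) (nat_lit 2) (.c (nat_lit 59) (nat_lit 51) (.c (nat_lit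 1) (nat_lit 1) .nil)) (.i false (nat_lit 2) (nat_lit 2) (.c (nat_lit 63) (nat_lit 36) (.c (nat_lit 0) (nat_lit 16) .nil)) (.i true (nat_lit 4) (nat_lit 2) (.c (nat_lit 68) (nat_lit 36) (.c (nat_lit 0) (nat_lit 16) .nil)) (.i true (nat_lit 2) (nat_lit 2) (.c (nat_lit 53) (nat_lit 51) (.c (nat_lit 1) (nat_lit 1) .nil)) (.i true (nat_lit 4) (nat_lit 2) (.c (nat_lit 60) (nat_lit 51) (.c (nat_lit 1) (nat_lit 1) .nil)) (.i true (nat_lit 4) (nat_lit 2) (.c (nat_lit 61) (nat_lit 51) (.c (nat_lit 1) (nat_lit 1) .nil)) (.i false (nat_lit 2) (nat_lit 2) (.c (nat_lit 70) (nat_lit 36) (.c (nat_lit 0) (nat_lit 16) .nil)) (.i false (nat_lit 2) (nat_lit 2) (.c (nat_lit 54) (nat_lit 51) (.c (nat_lit 1) (nat_lit 1) .nil)) .nil)))))))))))))))))))))))))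

noncomputable def dzE_i36 : IL := (.e false (nat_lit 4) (nat_lit 64) (nat_lit 0) (nat_lit 8) (.e true (nat_lit 4) (nat_lit 65) (nat_lit 0) (nat_lit 8) (.e true (nat_lit 2) (nat_lit 67) (nat_lit 0) (nat_lit 8) (.e false (nat_lit 2) (nat_lit 68) (nat_lit 0) (nat_lit 8) (.e false (nat_lit 2) (nat_lit 70) (nat_lit 0) (nat_lit 8) (.e true (nat_lit 2) (nat_lit 71) (nat_lit 0) (nat_lit 8) (.e true (nat_lit 2) (nat_lit 56) (nat_lit 1) (nat_lit 7) (.e true (nat_lit 20) (nat_lit 52) (nat_lit 1) (nat_lit 7) (.e true (nat_lit 10) (nat_lit 53) (nat_lit 1) (nat_lit 7) (.e false (nat_lit 10) (nat_lit 55) (nat_lit 1) (nat_lit 7) (.e true (nat_lit 10) (nat_lit 60) (nat_lit 1) (nat_lit 7) (.e true (nat_lit 10) (nat_lit 61) (nat_lit 1) (nat_lit 7) (.e false (nat_lit 10) (nat_lit 64) (nat_lit 0) (nat_lit 8) (.e true (nat_lit 10) (nat_lit 59) (nat_lit 1) (nat_lit 7) (.e true (nat_lit 10) (nat_lit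 68) (nat_lit 0) (nat_lit 8) (.e false (nat_lit 10) (nat_lit 69) (nat_lit 0) (nat_lit 8) (.i false (nat_lit 8) (nat_lit 2) (.c (nat_lit 52) (nat_lit 51) (.c (nat_lit 1) (nat_lit 1) .nil)) (.i false (nat_lit 4) (nat_lit 2) (.c (nat_lit 53) (nat_lit 51) (.c (nat_lit 1) (nat_lit 1) .nil)) (.i true (nat_lit 4) (nat_lit 2) (.c (nat_lit 55) (nat_lit 51) (.c (nat_lit 1) (nat_lit 1) .nil)) (.i false (nat_lit 4) (nat_lit 2) (.c (nat_lit 60) (nat_lit 51) (.c (nat_lit 1) (nat_lit 1) .nil)) (.i false (nat_lit 4) (nat_lit 2) (.c (nat_lit 61) (nat_lit 51) (.c (nat_lit 1) (nat_lit 1) .nil)) (.i true (nat_lit 4) (nat_lit 2) (.c (nat_lit 64) (nat_lit 36) (.c (nat_lit 0) (nat_lit 16) .nil)) (.i false (nat_lit 4) (nat_lit 2) (.c (nat_lit 59) (nat_lit 51) (.c (nat_lit 1) (nat_lit 1) .nil)) (.i false (nat_lit 4) (nat_lit 2) (.c (nat_lit 68) (nat_lit 36) (.c (nat_lit 0) (nat_lit 16) .nil)) (.i true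 (nat_lit 4) (nat_lit 2) (.c (nat_lit 69) (nat_lit 36) (.c (nat_lit 0) (nat_lit 16) .nil)) .nil)))))))))))))))))))))))))

noncomputable def dzE_i37 : IL := (.s false (nat_lit 1) (nat_lit 17) (nat_lit 0) (nat_lit 1) (nat_lit 1) true (nat_lit 5) true (nat_lit 7) false (nat_lit 1) true (nat_lit 8) true (nat_lit 7) (.e false (nat_lit 2) (nat_lit 34) (nat_lit 3) (nat_lit 5) (.e false (nat_lit 2) (nat_lit 54) (nat_lit 1) (nat_lit 7) (.e true (nat_lit 2) (nat_lit 63) (nat_lit 0) (nat_lit 8) (.e true (nat_lit 4) (nat_lit 64) (nat_lit 0) (nat_lit 8) (.e true (nat_lit 2) (nat_lit 65) (nat_lit 0) (nat_lit 8) (.e true (nat_lit 2) (nat_lit 67) (nat_lit 0) (nat_lit 8) (.e true (nat_lit 2) (nat_lit 68) (nat_lit 0) (nat_lit 8) (.e true (nat_lit 2) (nat_lit 71) (nat_lit 0) (nat_lit 8) (.e true (nat_lit 2) (nat_lit 58) (nat_lit 1) (nat_lit 7) (.e true (nat_lit 10) (nat_lit 53) (nat_lit 1) (nat_lit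 7) (.e true (nat_lit 10) (nat_lit 54) (nat_lit 1) (nat_lit 7) (.e true (nat_lit 10) (nat_lit 57) (nat_lit 1) (nat_lit 7) (.e true (nat_lit 10) (nat_lit 59) (nat_lit 1) (nat_lit 7) (.e true (nat_lit 10) (nat_lit 60) (nat_lit 1) (nat_lit 7) (.e true (nat_lit 10) (nat_lit 61) (nat_lit 1) (nat_lit 7) (.e true (nat_lit 10) (nat_lit 52) (nat_lit 1) (nat_lit 7) (.i false (nat_lit 4) (nat_lit 2) (.c (nat_lit 64) (nat_lit 36) (.c (nat_lit 0) (nat_lit 16) .nil)) (.i false (nat_lit 4) (nat_lit 2) (.c (nat_lit 53) (nat_lit 51) (.c (nat_lit 1) (nat_lit 1) .nil)) (.i false (nat_lit 4) (nat_lit 2) (.c (nat_lit 54) (nat_lit 51) (.c (nat_lit 1) (nat_lit 1) .nil)) (.i false (nat_lit 4) (nat_lit 2) (.c (nat_lit 57) (nat_lit 51) (.c (nat_lit 1) (nat_lit 1) .nil)) (.i false (nat_lit 4) (nat_lit 2) (.c (nat_lit 59) (nat_lit 51) (.c (nat_lit 1) (nat_lit 1) .nil)) (.i false (nat_lit 4) (nat_lit 2) (.c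 (nat_lit 60) (nat_lit 51) (.c (nat_lit 1) (nat_lit 1) .nil)) (.i false (nat_lit 4) (nat_lit 2) (.c (nat_lit 61) (nat_lit 51) (.c (nat_lit 1) (nat_lit 1) .nil)) (.i false (nat_lit 4) (nat_lit 2) (.c (nat_lit 52) (nat_lit 51) (.c (nat_lit 1) (nat_lit 1) .nil)) .nil)))))))))))))))))))))))))

noncomputable def dzE_i38 : IL := (.e true (nat_lit 4) (nat_lit 69) (nat_lit 0) (nat_lit 8) (.e false (nat_lit 2) (nat_lit 63) (nat_lit 0) (nat_lit 8) (.e false (nat_lit 4) (nat_lit 64) (nat_lit 0) (nat_lit 8) (.e false (nat_lit 4) (nat_lit 67) (nat_lit 0) (nat_lit 8) (.e false (nat_lit 4) (nat_lit 68) (nat_lit 0) (nat_lit 8) (.e false (nat_lit 2) (nat_lit 70) (nat_lit 0) (nat_lit 8) (.e false (nat_lit 2) (nat_lit 27) (nat_lit 4) (nat_lit 4) (.e true (nat_lit 2) (nat_lit 31) (nat_lit 4) (nat_lit 4) (.e false (nat_lit 2) (nat_lit 65) (nat_lit 0) (nat_lit 8) (.e true (nat_lit 2) (nat_lit 71) (nat_lit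 0) (nat_lit 8) (.e true (nat_lit 10) (nat_lit 63) (nat_lit 0) (nat_lit 8) (.e true (nat_lit 10) (nat_lit 64) (nat_lit 0) (nat_lit 8) (.e false (nat_lit 10) (nat_lit 53) (nat_lit 1) (nat_lit 7) (.e false (nat_lit 10) (nat_lit 54) (nat_lit 1) (nat_lit 7) (.e true (nat_lit 10) (nat_lit 55) (nat_lit 1) (nat_lit 7) (.e false (nat_lit 20) (nat_lit 59) (nat_lit 1) (nat_lit 7) (.e true (nat_lit 10) (nat_lit 68) (nat_lit 0) (nat_lit 8) (.i true (nat_lit 4) (nat_lit 2) (.c (nat_lit 64) (nat_lit 36) (.c (nat_lit 0) (nat_lit 16) .nil)) (.i false (nat_lit 4) (nat_lit 2) (.c (nat_lit 63) (nat_lit 36) (.c (nat_lit 0) (nat_lit 16) .nil)) (.i false (nat_lit 4) (nat_lit 2) (.c (nat_lit 64) (nat_lit 36) (.c (nat_lit 0) (nat_lit 16) .nil)) (.i true (nat_lit 4) (nat_lit 2) (.c (nat_lit 53) (nat_lit 51) (.c (nat_lit 1) (nat_lit 1) .nil)) (.i true (nat_lit 4) (nat_lit 2) (.c (nat_lit 54) (nat_lit 51)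 (.c (nat_lit 1) (nat_lit 1) .nil)) (.i false (nat_lit 4) (nat_lit 2) (.c (nat_lit 55) (nat_lit 51) (.c (nat_lit 1) (nat_lit 1) .nil)) (.i true (nat_lit 8) (nat_lit 2) (.c (nat_lit 59) (nat_lit 51) (.c (nat_lit 1) (nat_lit 1) .nil)) (.i false (nat_lit 4) (nat_lit 2) (.c (nat_lit 68) (nat_lit 36) (.c (nat_lit 0) (nat_lit 16) .nil)) .nil)))))))))))))))))))))))))

noncomputable def dzE_i39 : IL := (.e true (nat_lit 4) (nat_lit 68) (nat_lit 0) (nat_lit 8) (.e true (nat_lit 2) (nat_lit 70) (nat_lit 0) (nat_lit 8) (.e true (nat_lit 10) (nat_lit 52) (nat_lit 1) (nat_lit 7) (.e false (nat_lit 10) (nat_lit 55) (nat_lit 1) (nat_lit 7) (.e true (nat_lit 10) (nat_lit 57) (nat_lit 1) (nat_lit 7) (.e true (nat_lit 10) (nat_lit 61) (nat_lit 1) (nat_lit 7) (.e false (nat_lit 10) (nat_lit 63) (nat_lit 0) (nat_lit 8) (.e false (nat_lit 10) (nat_lit 64) (nat_lit 0) (nat_lit 8) (.e false (nat_lit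 10) (nat_lit 70) (nat_lit 0) (nat_lit 8) (.e true (nat_lit 10) (nat_lit 60) (nat_lit 1) (nat_lit 7) (.e true (nat_lit 10) (nat_lit 53) (nat_lit 1) (nat_lit 7) (.e true (nat_lit 10) (nat_lit 59) (nat_lit 1) (nat_lit 7) (.e false (nat_lit 10) (nat_lit 69) (nat_lit 0) (nat_lit 8) (.i false (nat_lit 4) (nat_lit 2) (.c (nat_lit 64) (nat_lit 36) (.c (nat_lit 0) (nat_lit 16) .nil)) (.i false (nat_lit 4) (nat_lit 2) (.c (nat_lit 52) (nat_lit 51) (.c (nat_lit 1) (nat_lit 1) .nil)) (.i true (nat_lit 4) (nat_lit 2) (.c (nat_lit 55) (nat_lit 51) (.c (nat_lit 1) (nat_lit 1) .nil)) (.i false (nat_lit 4) (nat_lit 2) (.c (nat_lit 57) (nat_lit 51) (.c (nat_lit 1) (nat_lit 1) .nil)) (.i false (nat_lit 4) (nat_lit 2) (.c (nat_lit 61) (nat_lit 51) (.c (nat_lit 1) (nat_lit 1) .nil)) (.i true (nat_lit 4) (nat_lit 2) (.c (nat_lit 63) (nat_lit 36) (.c (nat_lit 0) (nat_lit 16) .nil)) (.i true (nat_lit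 4) (nat_lit 2) (.c (nat_lit 64) (nat_lit 36) (.c (nat_lit 0) (nat_lit 16) .nil)) (.i true (nat_lit 4) (nat_lit 2) (.c (nat_lit 70) (nat_lit 36) (.c (nat_lit 0) (nat_lit 16) .nil)) (.i false (nat_lit 4) (nat_lit 2) (.c (nat_lit 60) (nat_lit 51) (.c (nat_lit 1) (nat_lit 1) .nil)) (.i false (nat_lit 4) (nat_lit 2) (.c (nat_lit 53) (nat_lit 51) (.c (nat_lit 1) (nat_lit 1) .nil)) (.i false (nat_lit 4) (nat_lit 2) (.c (nat_lit 59) (nat_lit 51) (.c (nat_lit 1) (nat_lit 1) .nil)) (.i true (nat_lit 4) (nat_lit 2) (.c (nat_lit 69) (nat_lit 36) (.c (nat_lit 0) (nat_lit 16) .nil)) .nil)))))))))))))))))))))))))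

noncomputable def dzE_i40 : IL := (.e false (nat_lit 2) (nat_lit 56) (nat_lit 1) (nat_lit 7) (.e false (nat_lit 2) (nat_lit 57) (nat_lit 1) (nat_lit 7) (.e true (nat_lit 4) (nat_lit 58) (nat_lit 1) (nat_lit 7) (.e false (nat_lit 2) (nat_lit 59) (nat_lit 1) (nat_lit 7) (.e true (nat_lit 2) (nat_lit 60) (nat_lit 1) (nat_lit 7) (.e true (nat_lit 2) (nat_lit 61) (nat_lit 1) (nat_lit 7) (.e true (nat_lit 2) (nat_lit 62) (nat_lit 1) (nat_lit 7) (.e false (nat_lit 10) (nat_lit 53) (nat_lit 1) (nat_lit 7) (.e true (nat_lit 10) (nat_lit 54) (nat_lit 1) (nat_lit 7) (.e true (nat_lit 10) (nat_lit 55) (nat_lit 1) (nat_lit 7) (.e true (nat_lit 10) (nat_lit 57) (nat_lit 1) (nat_lit 7) (.e false (nat_lit 10) (nat_lit 60) (nat_lit 1) (nat_lit 7) (.e false (nat_lit 10) (nat_lit 61) (nat_lit 1) (nat_lit 7) (.e true (nat_lit 10) (nat_lit 63) (nat_lit 0) (nat_lit 8) (.e true (nat_lit 10) (nat_lit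 64) (nat_lit 0) (nat_lit 8) (.e true (nat_lit 10) (nat_lit 69) (nat_lit 0) (nat_lit 8) (.i true (nat_lit 4) (nat_lit 2) (.c (nat_lit 53) (nat_lit 51) (.c (nat_lit 1) (nat_lit 1) .nil)) (.i false (nat_lit 4) (nat_lit 2) (.c (nat_lit 54) (nat_lit 51) (.c (nat_lit 1) (nat_lit 1) .nil)) (.i false (nat_lit 4) (nat_lit 2) (.c (nat_lit 55) (nat_lit 51) (.c (nat_lit 1) (nat_lit 1) .nil)) (.i false (nat_lit 4) (nat_lit 2) (.c (nat_lit 57) (nat_lit 51) (.c (nat_lit 1) (nat_lit 1) .nil)) (.i true (nat_lit 4) (nat_lit 2) (.c (nat_lit 60) (nat_lit 51) (.c (nat_lit 1) (nat_lit 1) .nil)) (.i true (nat_lit 4) (nat_lit 2) (.c (nat_lit 61) (nat_lit 51) (.c (nat_lit 1) (nat_lit 1) .nil)) (.i false (nat_lit 4) (nat_lit 2) (.c (nat_lit 63) (nat_lit 36) (.c (nat_lit 0) (nat_lit 16) .nil)) (.i false (nat_lit 4) (nat_lit 2) (.c (nat_lit 64) (nat_lit 36) (.c (nat_lit 0) (nat_lit 16) .nil)) (.i false (nat_lit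 4) (nat_lit 2) (.c (nat_lit 69) (nat_lit 36) (.c (nat_lit 0) (nat_lit 16) .nil)) .nil)))))))))))))))))))))))))

noncomputable def dzE_t0 : Tr := (.nd (.nd (.nd (.nd (.nd (.nd (.nd .leaf (nat_lit 0) (nat_lit 0) (.p (nat_lit 2) (nat_lit 2) .z) .df .leaf) (nat_lit 1024) (nat_lit 1) (.p (nat_lit 3) (nat_lit 2) .z) .df (.nd .leaf (nat_lit 1025) (nat_lit 2) (.p (nat_lit 4) (nat_lit 2) .z) .df .leaf)) (nat_lit 2048) (nat_lit 3) (.p (nat_lit 5) (nat_lit 2) .z) .df (.nd (.nd .leaf (nat_lit 2049) (nat_lit 4) (.p (nat_lit 6) (nat_lit 2) .z) .df .leaf) (nat_lit 3072) (nat_lit 5) (.p (nat_lit 7) (nat_lit 2) .z) .df .leaf)) (nat_lit 3073) (nat_lit 6) (.p (nat_lit 8) (nat_lit 2) .z) .df (.nd (.nd (.nd .leaf (nat_lit 3074) (nat_lit 13) (.p (nat_lit 12) (nat_lit 2) (.n (nat_lit 13) (nat_lit 2) .z)) (.ct dzE_c49 (nat_lit 2) (nat_lit 0) (.s true (nat_lit 1) (nat_lit 1) (nat_lit 0) (nat_lit 0) (nat_lit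 0) true (nat_lit 0) true (nat_lit 2) true (nat_lit 1) true (nat_lit 2) true (nat_lit 2) (.e false (nat_lit 2) (nat_lit 5) (nat_lit 1) (nat_lit 1) (.e true (nat_lit 2) (nat_lit 6) (nat_lit 0) (nat_lit 2) .nil)))) .leaf) (nat_lit 4096) (nat_lit 7) (.p (nat_lit 9) (nat_lit 2) .z) .df (.nd .leaf (nat_lit 4097) (nat_lit 8) (.p (nat_lit 10) (nat_lit 2) .z) .df .leaf)) (nat_lit 4098) (nat_lit 18) (.p (nat_lit 16) (nat_lit 4) (.n (nat_lit 17) (nat_lit 4) .z)) (.ct dzE_c34 (nat_lit 2) (nat_lit 1) (.s true (nat_lit 1) (nat_lit 1) (nat_lit 0) (nat_lit 1) (nat_lit 0) true (nat_lit 1) true (nat_lit 3) true (nat_lit 2) true (nat_lit 3) true (nat_lit 2) (.e true (nat_lit 4) (nat_lit 8) (nat_lit 0) (nat_lit 3) (.e false (nat_lit 4) (nat_lit 7) (nat_lit 1) (nat_lit 2) .nil)))) (.nd (.nd .leaf (nat_lit 4099) (nat_lit 22) (.p (nat_lit 19) (nat_lit 2) (.n (nat_lit 20) (nat_lit 2) .z)) (.ct dzE_c19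 (nat_lit 2) (nat_lit 0) (.s true (nat_lit 1) (nat_lit 1) (nat_lit 0) (nat_lit 1) (nat_lit 1) true (nat_lit 0) true (nat_lit 1) true (nat_lit 1) true (nat_lit 2) true (nat_lit 1) (.e true (nat_lit 2) (nat_lit 10) (nat_lit 0) (nat_lit 2) (.e false (nat_lit 2) (nat_lit 9) (nat_lit 1) (nat_lit 1) .nil)))) .leaf) (nat_lit 5120) (nat_lit 9) (.p (nat_lit 11) (nat_lit 2) .z) .df .leaf))) (nat_lit 5121) (nat_lit 10) (.p (nat_lit 12) (nat_lit 2) .z) .df (.nd (.nd (.nd (.nd .leaf (nat_lit 5123) (nat_lit 27) (.n (nat_lit 22) (nat_lit 2) (.p (nat_lit 23) (nat_lit 2) .z)) (.ct dzE_c65 (nat_lit 4) (nat_lit 0) (.s true (nat_lit 1) (nat_lit 2) (nat_lit 0) (nat_lit 0) (nat_lit 1) true (nat_lit 0) true (nat_lit 2) true (nat_lit 1) true (nat_lit 3) true (nat_lit 3) (.s false (nat_lit 1) (nat_lit 2) (nat_lit 0) (nat_lit 1) (nat_lit 0) true (nat_lit 1) true (nat_lit 3) true (nat_lit 1) true (nat_lit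 3) true (nat_lit 2) (.s true (nat_lit 1) (nat_lit 2) (nat_lit 1) (nat_lit 0) (nat_lit 0) true (nat_lit 0) true (nat_lit 3) true (nat_lit 1) true (nat_lit 2) true (nat_lit 3) (.e true (nat_lit 4) (nat_lit 11) (nat_lit 1) (nat_lit 2) (.e false (nat_lit 4) (nat_lit 12) (nat_lit 0) (nat_lit 3) .nil)))))) .leaf) (nat_lit 5124) (nat_lit 39) (.n (nat_lit 27) (nat_lit 2) (.p (nat_lit 28) (nat_lit 2) (.p (nat_lit 29) (nat_lit 4) (.n (nat_lit 30) (nat_lit 4) (.p (nat_lit 31) (nat_lit 2) .z))))) (.ct dzE_c50 (nat_lit 2) (nat_lit 0) (.s true (nat_lit 1) (nat_lit 2) (nat_lit 1) (nat_lit 0) (nat_lit 1) true (nat_lit 0) true (nat_lit 3) true (nat_lit 2) true (nat_lit 3) true (nat_lit 4) (.e true (nat_lit 2) (nat_lit 8) (nat_lit 2) (nat_lit 2) (.e true (nat_lit 2) (nat_lit 12) (nat_lit 1) (nat_lit 3) (.e false (nat_lit 2) (nat_lit 15) (nat_lit 0) (nat_lit 4) .nil))))) (.nd .leaf (nat_lit 6144)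 (nat_lit 11) (.p (nat_lit 13) (nat_lit 2) .z) .df .leaf)) (nat_lit 6145) (nat_lit 14) (.p (nat_lit 15) (nat_lit 2) .z) .df (.nd (.nd .leaf (nat_lit 6146) (nat_lit 28) (.n (nat_lit 23) (nat_lit 4) (.p (nat_lit 24) (nat_lit 4) .z)) (.ct dzE_c65 (nat_lit 2) (nat_lit 1) (.s true (nat_lit 1) (nat_lit 2) (nat_lit 0) (nat_lit 0) (nat_lit 1) true (nat_lit 0) true (nat_lit 2) true (nat_lit 1) true (nat_lit 3) true (nat_lit 3) (.e true (nat_lit 2) (nat_lit 5) (nat_lit 3) (nat_lit 0) (.e true (nat_lit 2) (nat_lit 11) (nat_lit 1) (nat_lit 2) (.e true (nat_lit 2) (nat_lit 12) (nat_lit 0) (nat_lit 3) (.e false (nat_lit 4) (nat_lit 13) (nat_lit 0) (nat_lit 3) .nil)))))) .leaf) (nat_lit 6147) (nat_lit 35) (.p (nat_lit 31) (nat_lit 2) .z) .df .leaf)) (nat_lit 6148) (nat_lit 48) (.p (nat_lit 32) (nat_lit 2) (.n (nat_lit 33) (nat_lit 6) (.p (nat_lit 34) (nat_lit 2) (.p (nat_lit 36) (nat_lit 2) (.p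 (nat_lit 37) (nat_lit 2) .z))))) (.ct dzE_c35 (nat_lit 2) (nat_lit 0) (.s true (nat_lit 1) (nat_lit 4) (nat_lit 0) (nat_lit 0) (nat_lit 1) true (nat_lit 1) true (nat_lit 3) true (nat_lit 0) true (nat_lit 4) true (nat_lit 4) (.e true (nat_lit 2) (nat_lit 9) (nat_lit 3) (nat_lit 1) (.e false (nat_lit 2) (nat_lit 15) (nat_lit 1) (nat_lit 3) (.e true (nat_lit 2) (nat_lit 16) (nat_lit 1) (nat_lit 3) (.e true (nat_lit 2) (nat_lit 17) (nat_lit 1) (nat_lit 3) (.e false (nat_lit 2) (nat_lit 19) (nat_lit 0) (nat_lit 4) .nil))))))) (.nd (.nd (.nd .leaf (nat_lit 6150) (nat_lit 79) (.n (nat_lit 42) (nat_lit 2) (.p (nat_lit 43) (nat_lit 4) (.n (nat_lit 44) (nat_lit 2) (.n (nat_lit 48) (nat_lit 2) (.p (nat_lit 51) (nat_lit 4) .z))))) (.ct dzE_c66 (nat_lit 2) (nat_lit 0) (.s false (nat_lit 1) (nat_lit 6) (nat_lit 0) (nat_lit 0) (nat_lit 1) true (nat_lit 3) true (nat_lit 5) true (nat_lit 0) true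 (nat_lit 6) true (nat_lit 6) (.e false (nat_lit 2) (nat_lit 13) (nat_lit 3) (nat_lit 3) (.e false (nat_lit 2) (nat_lit 24) (nat_lit 1) (nat_lit 5) (.e true (nat_lit 2) (nat_lit 31) (nat_lit 0) (nat_lit 6) (.e true (nat_lit 2) (nat_lit 28) (nat_lit 0) (nat_lit 6) .nil)))))) .leaf) (nat_lit 7168) (nat_lit 12) (.p (nat_lit 14) (nat_lit 2) .z) .df .leaf) (nat_lit 7169) (nat_lit 15) (.p (nat_lit 16) (nat_lit 2) .z) .df (.nd (.nd .leaf (nat_lit 7170) (nat_lit 29) (.p (nat_lit 22) (nat_lit 2) (.n (nat_lit 24) (nat_lit 2) .z)) (.ct dzE_c65 (nat_lit 2) (nat_lit 1) (.s true (nat_lit 1) (nat_lit 2) (nat_lit 1) (nat_lit 0) (nat_lit 0) true (nat_lit 0) true (nat_lit 3) true (nat_lit 1) true (nat_lit 2) true (nat_lit 3) (.e true (nat_lit 2) (nat_lit 5) (nat_lit 3) (nat_lit 0) (.e true (nat_lit 2) (nat_lit 13) (nat_lit 0) (nat_lit 3) (.e false (nat_lit 2) (nat_lit 12) (nat_lit 0) (nat_lit 3)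 .nil))))) .leaf) (nat_lit 7171) (nat_lit 37) (.p (nat_lit 26) (nat_lit 1) (.n (nat_lit 27) (nat_lit 1) (.p (nat_lit 29) (nat_lit 1) (.n (nat_lit 30) (nat_lit 1) .z)))) (.ct dzE_c50 (nat_lit 4) (nat_lit 1) (.s true (nat_lit 1) (nat_lit 3) (nat_lit 1) (nat_lit 0) (nat_lit 0) true (nat_lit 1) true (nat_lit 4) true (nat_lit 1) true (nat_lit 3) true (nat_lit 4) (.e true (nat_lit 2) (nat_lit 17) (nat_lit 0) (nat_lit 4) (.e false (nat_lit 2) (nat_lit 12) (nat_lit 1) (nat_lit 3) (.e true (nat_lit 2) (nat_lit 13) (nat_lit 1) (nat_lit 3) (.e false (nat_lit 2) (nat_lit 16) (nat_lit 0) (nat_lit 4) .nil)))))) .leaf)))) (nat_lit 7172) (nat_lit 46) (.p (nat_lit 37) (nat_lit 2) .z) .df (.nd (.nd (.nd (.nd (.nd .leaf (nat_lit 7174) (nat_lit 70) (.p (nat_lit 42) (nat_lit 6) (.n (nat_lit 43) (nat_lit 6) (.p (nat_lit 44) (nat_lit 2) (.n (nat_lit 45) (nat_lit 2) (.n (nat_lit 47) (nat_lit 2) (.p (nat_lit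 48) (nat_lit 2) (.p (nat_lit 49) (nat_lit 4) (.n (nat_lit 51) (nat_lit 4) .z)))))))) (.ct dzE_c66 (nat_lit 4) (nat_lit 0) (.s true (nat_lit 1) (nat_lit 2) (nat_lit 1) (nat_lit 1) (nat_lit 2) true (nat_lit 0) true (nat_lit 4) true (nat_lit 4) true (nat_lit 5) true (nat_lit 5) (.s false (nat_lit 1) (nat_lit 6) (nat_lit 0) (nat_lit 0) (nat_lit 1) true (nat_lit 3) true (nat_lit 5) true (nat_lit 0) true (nat_lit 6) true (nat_lit 6) (.s false (nat_lit 1) (nat_lit 6) (nat_lit 0) (nat_lit 1) (nat_lit 0) true (nat_lit 4) true (nat_lit 6) true (nat_lit 0) true (nat_lit 6) true (nat_lit 5) (.s false (nat_lit 1) (nat_lit 6) (nat_lit 1) (nat_lit 0) (nat_lit 0) true (nat_lit 3) true (nat_lit 6) true (nat_lit 0) true (nat_lit 5) true (nat_lit 6) (.e true (nat_lit 4) (nat_lit 16) (nat_lit 2) (nat_lit 4) (.e false (nat_lit 4) (nat_lit 17) (nat_lit 2) (nat_lit 4) (.e false (nat_lit 8) (nat_lit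 23) (nat_lit 1) (nat_lit 5) (.e true (nat_lit 8) (nat_lit 24) (nat_lit 1) (nat_lit 5) (.e false (nat_lit 4) (nat_lit 13) (nat_lit 3) (nat_lit 3) (.e true (nat_lit 4) (nat_lit 31) (nat_lit 0) (nat_lit 6) .nil))))))))))) .leaf) (nat_lit 7175) (nat_lit 75) (.n (nat_lit 42) (nat_lit 1) (.p (nat_lit 43) (nat_lit 1) (.n (nat_lit 48) (nat_lit 2) (.p (nat_lit 49) (nat_lit 1) (.p (nat_lit 50) (nat_lit 2) (.p (nat_lit 51) (nat_lit 1) .z)))))) (.ct dzE_c66 (nat_lit 2) (nat_lit 0) (.s false (nat_lit 1) (nat_lit 3) (nat_lit 0) (nat_lit 0) (nat_lit 3) true (nat_lit 0) true (nat_lit 3) true (nat_lit 3) true (nat_lit 6) true (nat_lit 6) (.e false (nat_lit 2) (nat_lit 14) (nat_lit 3) (nat_lit 3) (.e true (nat_lit 2) (nat_lit 12) (nat_lit 3) (nat_lit 3) (.e false (nat_lit 2) (nat_lit 13) (nat_lit 3) (nat_lit 3) (.e false (nat_lit 1) (nat_lit 26) (nat_lit 0) (nat_lit 6) (.e true (nat_lit 1) (nat_lit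 27) (nat_lit 0) (nat_lit 6) (.e false (nat_lit 1) (nat_lit 29) (nat_lit 0) (nat_lit 6) (.e true (nat_lit 1) (nat_lit 30) (nat_lit 0) (nat_lit 6) .nil))))))))) (.nd .leaf (nat_lit 8192) (nat_lit 16) (.p (nat_lit 17) (nat_lit 2) .z) .df .leaf)) (nat_lit 8193) (nat_lit 19) (.p (nat_lit 18) (nat_lit 2) .z) .df (.nd (.nd .leaf (nat_lit 8194) (nat_lit 36) (.n (nat_lit 26) (nat_lit 2) (.p (nat_lit 27) (nat_lit 2) (.n (nat_lit 29) (nat_lit 4) (.p (nat_lit 30) (nat_lit 4) (.n (nat_lit 31) (nat_lit 2) .z))))) (.ct dzE_c50 (nat_lit 2) (nat_lit 2) (.s true (nat_lit 1) (nat_lit 2) (nat_lit 0) (nat_lit 1) (nat_lit 1) true (nat_lit 1) true (nat_lit 3) true (nat_lit 2) true (nat_lit 4) true (nat_lit 3) (.e true (nat_lit 2) (nat_lit 6) (nat_lit 3) (nat_lit 1) (.e true (nat_lit 2) (nat_lit 12) (nat_lit 1) (nat_lit 3) (.e true (nat_lit 4) (nat_lit 16) (nat_lit 0) (nat_lit 4) (.e false (nat_lit 4)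 (nat_lit 17) (nat_lit 0) (nat_lit 4) (.e false (nat_lit 2) (nat_lit 13) (nat_lit 1) (nat_lit 3) .nil))))))) .leaf) (nat_lit 8195) (nat_lit 49) (.n (nat_lit 33) (nat_lit 1) (.p (nat_lit 34) (nat_lit 1) (.n (nat_lit 35) (nat_lit 1) (.p (nat_lit 36) (nat_lit 1) .z)))) (.ct dzE_c35 (nat_lit 4) (nat_lit 1) (.s true (nat_lit 1) (nat_lit 3) (nat_lit 0) (nat_lit 1) (nat_lit 1) true (nat_lit 1) true (nat_lit 3) true (nat_lit 1) true (nat_lit 4) true (nat_lit 3) (.e true (nat_lit 2) (nat_lit 16) (nat_lit 1) (nat_lit 3) (.e true (nat_lit 2) (nat_lit 19) (nat_lit 0) (nat_lit 4) (.e false (nat_lit 2) (nat_lit 20) (nat_lit 0) (nat_lit 4) (.e false (nat_lit 2) (nat_lit 17) (nat_lit 1) (nat_lit 3) .nil)))))) .leaf)) (nat_lit 8196) (nat_lit 56) (.n (nat_lit 39) (nat_lit 2) (.p (nat_lit 41) (nat_lit 2) .z)) (.ct dzE_c20 (nat_lit 4) (nat_lit 0) (.s true (nat_lit 1) (nat_lit 3) (nat_lit 1) (nat_lit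 1) (nat_lit 1) true (nat_lit 0) true (nat_lit 2) true (nat_lit 1) true (nat_lit 2) true (nat_lit 2) (.s true (nat_lit 1) (nat_lit 4) (nat_lit 1) (nat_lit 0) (nat_lit 1) true (nat_lit 0) true (nat_lit 2) true (nat_lit 0) true (nat_lit 2) true (nat_lit 3) (.s false (nat_lit 1) (nat_lit 4) (nat_lit 1) (nat_lit 1) (nat_lit 0) true (nat_lit 1) true (nat_lit 3) true (nat_lit 0) true (nat_lit 2) true (nat_lit 2) (.e true (nat_lit 4) (nat_lit 19) (nat_lit 1) (nat_lit 2) (.e false (nat_lit 4) (nat_lit 21) (nat_lit 0) (nat_lit 3) .nil)))))) (.nd (.nd (.nd .leaf (nat_lit 8197) (nat_lit 74) (.n (nat_lit 42) (nat_lit 2) (.p (nat_lit 43) (nat_lit 2) (.p (nat_lit 47) (nat_lit 2) (.p (nat_lit 48) (nat_lit 2) (.n (nat_lit 49) (nat_lit 2) (.p (nat_lit 51) (nat_lit 2) .z)))))) (.ct dzE_c66 (nat_lit 2) (nat_lit 1) (.s false (nat_lit 1) (nat_lit 3) (nat_lit 2) (nat_lit 1) (nat_lit 0) true (nat_lit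 1) true (nat_lit 6) true (nat_lit 3) true (nat_lit 4) true (nat_lit 5) (.e false (nat_lit 2) (nat_lit 26) (nat_lit 0) (nat_lit 6) (.e true (nat_lit 2) (nat_lit 27) (nat_lit 0) (nat_lit 6) (.e false (nat_lit 2) (nat_lit 13) (nat_lit 3) (nat_lit 3) (.e false (nat_lit 2) (nat_lit 22) (nat_lit 1) (nat_lit 5) (.e true (nat_lit 2) (nat_lit 24) (nat_lit 1) (nat_lit 5) .nil))))))) .leaf) (nat_lit 8198) (nat_lit 100) (.p (nat_lit 52) (nat_lit 2) (.n (nat_lit 55) (nat_lit 2) (.n (nat_lit 56) (nat_lit 2) (.p (nat_lit 62) (nat_lit 2) .z)))) (.ct dzE_c51 (nat_lit 2) (nat_lit 0) (.s false (nat_lit 1) (nat_lit 6) (nat_lit 1) (nat_lit 0) (nat_lit 1) true (nat_lit 2) true (nat_lit 5) true (nat_lit 0) true (nat_lit 5) true (nat_lit 6) (.e false (nat_lit 2) (nat_lit 13) (nat_lit 4) (nat_lit 2) (.e false (nat_lit 2) (nat_lit 28) (nat_lit 1) (nat_lit 5) (.e true (nat_lit 2) (nat_lit 31) (nat_lit 1)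 (nat_lit 5) (.e true (nat_lit 2) (nat_lit 32) (nat_lit 0) (nat_lit 6) .nil)))))) (.nd .leaf (nat_lit 8199) (nat_lit 99) (.p (nat_lit 52) (nat_lit 2) (.n (nat_lit 53) (nat_lit 2) (.n (nat_lit 55) (nat_lit 4) (.n (nat_lit 56) (nat_lit 2) (.n (nat_lit 57) (nat_lit 1) (.p (nat_lit 58) (nat_lit 3) (.n (nat_lit 59) (nat_lit 1) (.p (nat_lit 60) (nat_lit 1) (.p (nat_lit 62) (nat_lit 2) .z))))))))) (.ct dzE_c51 (nat_lit 2) (nat_lit 0) (.s false (nat_lit 1) (nat_lit 3) (nat_lit 0) (nat_lit 1) (nat_lit 3) true (nat_lit 0) true (nat_lit 3) true (nat_lit 3) true (nat_lit 6) true (nat_lit 5) (.e false (nat_lit 2) (nat_lit 16) (nat_lit 3) (nat_lit 3) (.e true (nat_lit 1) (nat_lit 33) (nat_lit 0) (nat_lit 6) (.e false (nat_lit 1) (nat_lit 34) (nat_lit 0) (nat_lit 6) (.e true (nat_lit 1) (nat_lit 35) (nat_lit 0) (nat_lit 6) (.e false (nat_lit 1) (nat_lit 36) (nat_lit 0) (nat_lit 6) .nil)))))))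 .leaf)) (nat_lit 8200) (nat_lit 120) (.p (nat_lit 64) (nat_lit 1) (.n (nat_lit 65) (nat_lit 1) (.p (nat_lit 66) (nat_lit 1) (.n (nat_lit 67) (nat_lit 1) (.n (nat_lit 68) (nat_lit 2) (.p (nat_lit 69) (nat_lit 2) (.n (nat_lit 70) (nat_lit 2) (.p (nat_lit 72) (nat_lit 2) .z)))))))) (.ct dzE_c36 (nat_lit 2) (nat_lit 0) (.s false (nat_lit 1) (nat_lit 3) (nat_lit 1) (nat_lit 1) (nat_lit 3) true (nat_lit 0) true (nat_lit 3) true (nat_lit 3) true (nat_lit 5) true (nat_lit 5) (.e false (nat_lit 2) (nat_lit 18) (nat_lit 3) (nat_lit 3) (.e false (nat_lit 2) (nat_lit 19) (nat_lit 3) (nat_lit 3) (.e true (nat_lit 2) (nat_lit 20) (nat_lit 3) (nat_lit 3) (.e true (nat_lit 1) (nat_lit 33) (nat_lit 1) (nat_lit 5) (.e false (nat_lit 1) (nat_lit 34) (nat_lit 1) (nat_lit 5) (.e true (nat_lit 1) (nat_lit 35) (nat_lit 1) (nat_lit 5) (.e false (nat_lit 1) (nat_lit 36) (nat_lit 1) (nat_lit 5) .nil)))))))))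 (.nd (.nd .leaf (nat_lit 9216) (nat_lit 17) (.n (nat_lit 15) (nat_lit 2) (.p (nat_lit 16) (nat_lit 2) (.p (nat_lit 17) (nat_lit 2) .z))) (.ct dzE_c34 (nat_lit 2) (nat_lit 3) (.s false (nat_lit 1) (nat_lit 1) (nat_lit 0) (nat_lit 0) (nat_lit 1) true (nat_lit 0) true (nat_lit 2) true (nat_lit 2) true (nat_lit 3) true (nat_lit 3) (.a false (nat_lit 2) (nat_lit 3) (nat_lit 3) (nat_lit 0) (nat_lit 0) (.e false (nat_lit 2) (nat_lit 7) (nat_lit 1) (nat_lit 2) (.e true (nat_lit 2) (nat_lit 6) (nat_lit 1) (nat_lit 2) (.e false (nat_lit 2) (nat_lit 8) (nat_lit 0) (nat_lit 3) .nil)))))) .leaf) (nat_lit 9217) (nat_lit 20) (.p (nat_lit 19) (nat_lit 2) .z) .df .leaf))) (nat_lit 9218) (nat_lit 40) (.p (nat_lit 27) (nat_lit 2) (.n (nat_lit 28) (nat_lit 2) (.n (nat_lit 31) (nat_lit 2) .z))) (.ct dzE_c50 (nat_lit 2) (nat_lit 2) (.s true (nat_lit 1) (nat_lit 2) (nat_lit 1) (nat_lit 1) (nat_lit 0)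 true (nat_lit 1) true (nat_lit 4) true (nat_lit 2) true (nat_lit 3) true (nat_lit 3) (.e true (nat_lit 2) (nat_lit 6) (nat_lit 3) (nat_lit 1) (.e true (nat_lit 2) (nat_lit 15) (nat_lit 0) (nat_lit 4) (.e false (nat_lit 2) (nat_lit 13) (nat_lit 1) (nat_lit 3) .nil))))) (.nd (.nd (.nd (.nd .leaf (nat_lit 9219) (nat_lit 47) (.p (nat_lit 33) (nat_lit 4) (.n (nat_lit 34) (nat_lit 4) (.p (nat_lit 35) (nat_lit 2) (.n (nat_lit 36) (nat_lit 2) (.n (nat_lit 37) (nat_lit 2) .z))))) (.ct dzE_c35 (nat_lit 2) (nat_lit 1) (.s true (nat_lit 1) (nat_lit 4) (nat_lit 1) (nat_lit 0) (nat_lit 0) true (nat_lit 1) true (nat_lit 4) true (nat_lit 0) true (nat_lit 3) true (nat_lit 4) (.e true (nat_lit 2) (nat_lit 20) (nat_lit 0) (nat_lit 4) (.e true (nat_lit 2) (nat_lit 7) (nat_lit 4) (nat_lit 0) (.e false (nat_lit 4) (nat_lit 16) (nat_lit 1) (nat_lit 3) (.e true (nat_lit 4) (nat_lit 17) (nat_lit 1) (nat_lit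 3) (.e false (nat_lit 2) (nat_lit 19) (nat_lit 0) (nat_lit 4) .nil))))))) .leaf) (nat_lit 9220) (nat_lit 57) (.p (nat_lit 39) (nat_lit 4) (.n (nat_lit 40) (nat_lit 4) .z)) (.ct dzE_c20 (nat_lit 2) (nat_lit 0) (.s true (nat_lit 1) (nat_lit 4) (nat_lit 1) (nat_lit 0) (nat_lit 1) true (nat_lit 0) true (nat_lit 2) true (nat_lit 0) true (nat_lit 2) true (nat_lit 3) (.e true (nat_lit 4) (nat_lit 20) (nat_lit 1) (nat_lit 2) (.e true (nat_lit 2) (nat_lit 8) (nat_lit 4) (nat_lit 0) (.e false (nat_lit 2) (nat_lit 19) (nat_lit 1) (nat_lit 2) (.e false (nat_lit 2) (nat_lit 21) (nat_lit 0) (nat_lit 3) .nil)))))) (.nd .leaf (nat_lit 9221) (nat_lit 78) (.n (nat_lit 42) (nat_lit 2) (.p (nat_lit 44) (nat_lit 2) (.p (nat_lit 48) (nat_lit 2) .z))) (.ct dzE_c66 (nat_lit 2) (nat_lit 1) (.s false (nat_lit 1) (nat_lit 5) (nat_lit 1) (nat_lit 1) (nat_lit 0) true (nat_lit 3) true (nat_lit 6) true (nat_lit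 1) true (nat_lit 5) true (nat_lit 5) (.e false (nat_lit 2) (nat_lit 12) (nat_lit 3) (nat_lit 3) (.e false (nat_lit 2) (nat_lit 26) (nat_lit 0) (nat_lit 6) (.e true (nat_lit 2) (nat_lit 23) (nat_lit 1) (nat_lit 5) .nil))))) .leaf)) (nat_lit 9222) (nat_lit 102) (.n (nat_lit 55) (nat_lit 4) (.n (nat_lit 56) (nat_lit 2) (.n (nat_lit 57) (nat_lit 2) (.p (nat_lit 58) (nat_lit 6) (.n (nat_lit 59) (nat_lit 4) (.p (nat_lit 60) (nat_lit 2) (.p (nat_lit 61) (nat_lit 2) (.p (nat_lit 62) (nat_lit 2) .z)))))))) (.ct dzE_c51 (nat_lit 2) (nat_lit 0) (.s false (nat_lit 1) (nat_lit 6) (nat_lit 1) (nat_lit 1) (nat_lit 0) true (nat_lit 3) true (nat_lit 6) true (nat_lit 0) true (nat_lit 5) true (nat_lit 5) (.e false (nat_lit 2) (nat_lit 15) (nat_lit 3) (nat_lit 3) (.e false (nat_lit 2) (nat_lit 32) (nat_lit 0) (nat_lit 6) (.e true (nat_lit 2) (nat_lit 31) (nat_lit 1) (nat_lit 5) (.e true (nat_lit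 2) (nat_lit 27) (nat_lit 1) (nat_lit 5) .nil)))))) (.nd (.nd .leaf (nat_lit 9224) (nat_lit 119) (.p (nat_lit 63) (nat_lit 2) (.n (nat_lit 64) (nat_lit 6) (.p (nat_lit 65) (nat_lit 2) (.p (nat_lit 67) (nat_lit 2) (.p (nat_lit 68) (nat_lit 6) (.n (nat_lit 69) (nat_lit 2) (.p (nat_lit 70) (nat_lit 2) (.p (nat_lit 71) (nat_lit 2) .z)))))))) (.ct dzE_c36 (nat_lit 2) (nat_lit 0) (.s false (nat_lit 1) (nat_lit 4) (nat_lit 1) (nat_lit 0) (nat_lit 3) true (nat_lit 0) true (nat_lit 3) true (nat_lit 2) true (nat_lit 5) true (nat_lit 6) (.e false (nat_lit 2) (nat_lit 20) (nat_lit 3) (nat_lit 3) (.e false (nat_lit 2) (nat_lit 37) (nat_lit 1) (nat_lit 5) (.e true (nat_lit 2) (nat_lit 39) (nat_lit 0) (nat_lit 6) (.e false (nat_lit 2) (nat_lit 40) (nat_lit 0) (nat_lit 6) .nil)))))) .leaf) (nat_lit 10240) (nat_lit 21) (.p (nat_lit 20) (nat_lit 2) .z) .df .leaf)) (nat_lit 10241) (nat_lit 23) (.p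 (nat_lit 21) (nat_lit 2) .z) .df (.nd (.nd (.nd .leaf (nat_lit 10242) (nat_lit 51) (.n (nat_lit 32) (nat_lit 2) (.p (nat_lit 33) (nat_lit 2) (.p (nat_lit 34) (nat_lit 2) (.n (nat_lit 36) (nat_lit 2) (.n (nat_lit 37) (nat_lit 2) .z))))) (.ct dzE_c35 (nat_lit 2) (nat_lit 2) (.s true (nat_lit 1) (nat_lit 2) (nat_lit 1) (nat_lit 1) (nat_lit 1) true (nat_lit 0) true (nat_lit 3) true (nat_lit 2) true (nat_lit 3) true (nat_lit 3) (.e true (nat_lit 2) (nat_lit 6) (nat_lit 4) (nat_lit 0) (.e true (nat_lit 4) (nat_lit 16) (nat_lit 1) (nat_lit 3) (.e false (nat_lit 4) (nat_lit 17) (nat_lit 1) (nat_lit 3) .nil))))) .leaf) (nat_lit 10243) (nat_lit 58) (.p (nat_lit 40) (nat_lit 2) (.n (nat_lit 41) (nat_lit 2) .z)) (.ct dzE_c20 (nat_lit 2) (nat_lit 1) (.s true (nat_lit 1) (nat_lit 3) (nat_lit 1) (nat_lit 1) (nat_lit 1) true (nat_lit 0) true (nat_lit 2) true (nat_lit 1) true (nat_lit 2) true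 (nat_lit 2) (.e true (nat_lit 2) (nat_lit 8) (nat_lit 4) (nat_lit 0) (.e true (nat_lit 2) (nat_lit 19) (nat_lit 1) (nat_lit 2) (.e false (nat_lit 2) (nat_lit 20) (nat_lit 1) (nat_lit 2) .nil))))) .leaf) (nat_lit 10245) (nat_lit 101) (.n (nat_lit 53) (nat_lit 4) (.p (nat_lit 54) (nat_lit 4) (.n (nat_lit 55) (nat_lit 4) (.p (nat_lit 56) (nat_lit 2) (.n (nat_lit 57) (nat_lit 2) (.n (nat_lit 58) (nat_lit 2) (.p (nat_lit 60) (nat_lit 2) (.p (nat_lit 61) (nat_lit 2) (.p (nat_lit 62) (nat_lit 2) .z))))))))) (.ct dzE_c51 (nat_lit 2) (nat_lit 1) (.s false (nat_lit 1) (nat_lit 5) (nat_lit 1) (nat_lit 1) (nat_lit 1) true (nat_lit 2) true (nat_lit 5) true (nat_lit 1) true (nat_lit 5) true (nat_lit 5) (.e false (nat_lit 2) (nat_lit 12) (nat_lit 4) (nat_lit 2) (.e false (nat_lit 2) (nat_lit 27) (nat_lit 1) (nat_lit 5) (.e true (nat_lit 2) (nat_lit 28) (nat_lit 1) (nat_lit 5) (.e true (nat_lit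 4) (nat_lit 29) (nat_lit 1) (nat_lit 5) (.e false (nat_lit 4) (nat_lit 30) (nat_lit 1) (nat_lit 5) (.e true (nat_lit 2) (nat_lit 31) (nat_lit 1) (nat_lit 5) .nil)))))))) (.nd (.nd .leaf (nat_lit 10246) (nat_lit 123) (.n (nat_lit 63) (nat_lit 2) (.p (nat_lit 64) (nat_lit 2) (.p (nat_lit 65) (nat_lit 2) (.n (nat_lit 68) (nat_lit 4) (.n (nat_lit 70) (nat_lit 2) (.p (nat_lit 71) (nat_lit 2) .z)))))) (.ct dzE_c36 (nat_lit 2) (nat_lit 1) (.s false (nat_lit 1) (nat_lit 10) (nat_lit 0) (nat_lit 0) (nat_lit 1) true (nat_lit 3) true (nat_lit 5) false (nat_lit 1) true (nat_lit 6) true (nat_lit 6) (.e false (nat_lit 2) (nat_lit 20) (nat_lit 3) (nat_lit 3) (.e false (nat_lit 2) (nat_lit 36) (nat_lit 1) (nat_lit 5) (.e true (nat_lit 2) (nat_lit 40) (nat_lit 0) (nat_lit 6) .nil))))) .leaf) (nat_lit 10247) (nat_lit 121) (.n (nat_lit 68) (nat_lit 2) (.p (nat_lit 71) (nat_lit 2) .z)) (.ct dzE_c36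 (nat_lit 2) (nat_lit 1) (.s false (nat_lit 1) (nat_lit 7) (nat_lit 1) (nat_lit 1) (nat_lit 1) true (nat_lit 2) true (nat_lit 5) true (nat_lit 1) true (nat_lit 5) true (nat_lit 5) (.e false (nat_lit 2) (nat_lit 16) (nat_lit 4) (nat_lit 2) (.e true (nat_lit 2) (nat_lit 37) (nat_lit 1) (nat_lit 5) .nil)))) .leaf))))) (nat_lit 11265) (nat_lit 24) (.p (nat_lit 22) (nat_lit 2) .z) .df (.nd (.nd (.nd (.nd (.nd (.nd .leaf (nat_lit 11268) (nat_lit 77) (.n (nat_lit 43) (nat_lit 2) (.p (nat_lit 44) (nat_lit 4) (.n (nat_lit 45) (nat_lit 2) (.p (nat_lit 49) (nat_lit 2) .z)))) (.ct dzE_c66 (nat_lit 2) (nat_lit 2) (.s true (nat_lit 1) (nat_lit 5) (nat_lit 1) (nat_lit 0) (nat_lit 1) true (nat_lit 2) true (nat_lit 5) true (nat_lit 1) true (nat_lit 5) true (nat_lit 6) (.e false (nat_lit 2) (nat_lit 8) (nat_lit 5) (nat_lit 1) (.e true (nat_lit 2) (nat_lit 22) (nat_lit 1) (nat_lit 5) (.e false (nat_lit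 2) (nat_lit 26) (nat_lit 0) (nat_lit 6) .nil))))) .leaf) (nat_lit 12288) (nat_lit 25) (.p (nat_lit 23) (nat_lit 2) .z) .df (.nd .leaf (nat_lit 12289) (nat_lit 30) (.p (nat_lit 26) (nat_lit 2) .z) .df .leaf)) (nat_lit 12291) (nat_lit 65) (.p (nat_lit 48) (nat_lit 2) .z) .df (.nd (.nd .leaf (nat_lit 12292) (nat_lit 93) (.n (nat_lit 55) (nat_lit 2) (.n (nat_lit 59) (nat_lit 2) (.p (nat_lit 60) (nat_lit 2) (.p (nat_lit 61) (nat_lit 2) (.p (nat_lit 62) (nat_lit 2) .z))))) (.ct dzE_c51 (nat_lit 4) (nat_lit 2) (.s true (nat_lit 1) (nat_lit 3) (nat_lit 1) (nat_lit 1) (nat_lit 2) true (nat_lit 0) true (nat_lit 4) true (nat_lit 3) true (nat_lit 5) true (nat_lit 5) (.s false (nat_lit 1) (nat_lit 3) (nat_lit 1) (nat_lit 2) (nat_lit 1) true (nat_lit 2) true (nat_lit 5) true (nat_lit 3) true (nat_lit 5) true (nat_lit 4) (.s false (nat_lit 1) (nat_lit 3) (nat_lit 2) (nat_lit 1) (nat_lit 1) true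 (nat_lit 0) true (nat_lit 5) true (nat_lit 3) true (nat_lit 4) true (nat_lit 5) (.s false (nat_lit 1) (nat_lit 4) (nat_lit 2) (nat_lit 1) (nat_lit 0) true (nat_lit 1) true (nat_lit 6) true (nat_lit 2) true (nat_lit 4) true (nat_lit 5) (.s true (nat_lit 1) (nat_lit 5) (nat_lit 1) (nat_lit 1) (nat_lit 1) true (nat_lit 2) true (nat_lit 5) true (nat_lit 1) true (nat_lit 5) true (nat_lit 5) (.e true (nat_lit 4) (nat_lit 16) (nat_lit 3) (nat_lit 3) (.e false (nat_lit 4) (nat_lit 17) (nat_lit 3) (nat_lit 3) (.e true (nat_lit 8) (nat_lit 31) (nat_lit 1) (nat_lit 5) (.e false (nat_lit 4) (nat_lit 13) (nat_lit 4) (nat_lit 2) (.e true (nat_lit 4) (nat_lit 29) (nat_lit 1) (nat_lit 5) (.e false (nat_lit 4) (nat_lit 30) (nat_lit 1) (nat_lit 5) (.e false (nat_lit 4) (nat_lit 33) (nat_lit 0) (nat_lit 6) (.e true (nat_lit 4) (nat_lit 34) (nat_lit 0) (nat_lit 6) .nil)))))))))))))) .leaf) (nat_lit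 12297) (nat_lit 159) (.p (nat_lit 73) (nat_lit 4) (.n (nat_lit 74) (nat_lit 2) (.p (nat_lit 76) (nat_lit 4) (.n (nat_lit 78) (nat_lit 2) (.n (nat_lit 79) (nat_lit 2) (.p (nat_lit 83) (nat_lit 2) (.p (nat_lit 86) (nat_lit 4) (.p (nat_lit 87) (nat_lit 4) (.p (nat_lit 88) (nat_lit 4) .z))))))))) (.ct dzE_c67 (nat_lit 2) (nat_lit 1) (.s false (nat_lit 1) (nat_lit 12) (nat_lit 1) (nat_lit 1) (nat_lit 0) true (nat_lit 5) true (nat_lit 8) false (nat_lit 1) true (nat_lit 7) true (nat_lit 7) (.e false (nat_lit 2) (nat_lit 26) (nat_lit 3) (nat_lit 5) dzE_i18))) .leaf)) (nat_lit 13312) (nat_lit 26) (.p (nat_lit 24) (nat_lit 2) .z) .df (.nd (.nd (.nd .leaf (nat_lit 13313) (nat_lit 31) (.p (nat_lit 27) (nat_lit 2) .z) .df .leaf) (nat_lit 13315) (nat_lit 66) (.p (nat_lit 49) (nat_lit 2) .z) .df (.nd .leaf (nat_lit 13316) (nat_lit 90) (.p (nat_lit 62) (nat_lit 2) .z) .df .leaf)) (nat_lit 13320)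 (nat_lit 165) (.p (nat_lit 73) (nat_lit 4) (.p (nat_lit 74) (nat_lit 4) (.p (nat_lit 76) (nat_lit 2) (.p (nat_lit 77) (nat_lit 2) (.p (nat_lit 78) (nat_lit 4) (.p (nat_lit 80) (nat_lit 4) (.n (nat_lit 81) (nat_lit 2) (.p (nat_lit 86) (nat_lit 2) (.p (nat_lit 87) (nat_lit 2) (.n (nat_lit 88) (nat_lit 2) .z)))))))))) (.ct dzE_c67 (nat_lit 2) (nat_lit 1) (.s false (nat_lit 1) (nat_lit 13) (nat_lit 0) (nat_lit 1) (nat_lit 1) true (nat_lit 5) true (nat_lit 7) false (nat_lit 1) true (nat_lit 8) true (nat_lit 7) (.e false (nat_lit 2) (nat_lit 27) (nat_lit 3) (nat_lit 5) (.e false (nat_lit 2) (nat_lit 43) (nat_lit 1) (nat_lit 7) (.e true (nat_lit 2) (nat_lit 62) (nat_lit 0) (nat_lit 8) (.e true (nat_lit 2) (nat_lit 45) (nat_lit 1) (nat_lit 7) (.e false (nat_lit 10) (nat_lit 42) (nat_lit 1) (nat_lit 7) (.e false (nat_lit 10) (nat_lit 44) (nat_lit 1) (nat_lit 7) (.e false (nat_lit 10) (nat_lit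 34) (nat_lit 2) (nat_lit 6) (.e true (nat_lit 10) (nat_lit 35) (nat_lit 2) (nat_lit 6) (.i true (nat_lit 4) (nat_lit 2) (.c (nat_lit 42) (nat_lit 66) (.c (nat_lit 1) (nat_lit 1) .nil)) (.i true (nat_lit 4) (nat_lit 2) (.c (nat_lit 44) (nat_lit 66) (.c (nat_lit 1) (nat_lit 1) .nil)) (.i true (nat_lit 4) (nat_lit 2) (.c (nat_lit 34) (nat_lit 35) (.c (nat_lit 2) (nat_lit 32) .nil)) (.i false (nat_lit 4) (nat_lit 2) (.c (nat_lit 35) (nat_lit 35) (.c (nat_lit 2) (nat_lit 32) .nil)) .nil)))))))))))))) (.nd (.nd .leaf (nat_lit 13321) (nat_lit 162) (.n (nat_lit 73) (nat_lit 2) (.n (nat_lit 74) (nat_lit 2) (.n (nat_lit 75) (nat_lit 4) (.n (nat_lit 76) (nat_lit 2) (.p (nat_lit 78) (nat_lit 4) (.n (nat_lit 79) (nat_lit 2) (.p (nat_lit 83) (nat_lit 4) (.p (nat_lit 85) (nat_lit 4) (.n (nat_lit 86) (nat_lit 2) (.p (nat_lit 88) (nat_lit 4) .z)))))))))) (.ct dzE_c67 (nat_lit 2) (nat_lit 1) (.s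 false (nat_lit 1) (nat_lit 13) (nat_lit 1) (nat_lit 1) (nat_lit 0) true (nat_lit 5) true (nat_lit 8) false (nat_lit 1) true (nat_lit 7) true (nat_lit 7) (.e false (nat_lit 2) (nat_lit 27) (nat_lit 3) (nat_lit 5) (.e false (nat_lit 2) (nat_lit 52) (nat_lit 0) (nat_lit 8) (.e false (nat_lit 2) (nat_lit 56) (nat_lit 0) (nat_lit 8) (.e true (nat_lit 2) (nat_lit 57) (nat_lit 0) (nat_lit 8) (.e true (nat_lit 2) (nat_lit 58) (nat_lit 0) (nat_lit 8) (.e false (nat_lit 2) (nat_lit 59) (nat_lit 0) (nat_lit 8) (.e true (nat_lit 2) (nat_lit 49) (nat_lit 1) (nat_lit 7) (.e true (nat_lit 2) (nat_lit 43) (nat_lit 1) (nat_lit 7) (.e false (nat_lit 10) (nat_lit 55) (nat_lit 0) (nat_lit 8) (.e true (nat_lit 10) (nat_lit 56) (nat_lit 0) (nat_lit 8) (.e true (nat_lit 10) (nat_lit 33) (nat_lit 2) (nat_lit 6) (.e false (nat_lit 10) (nat_lit 35) (nat_lit 2) (nat_lit 6) (.i true (nat_lit 4) (nat_lit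 2) (.c (nat_lit 55) (nat_lit 51) (.c (nat_lit 0) (nat_lit 16) .nil)) (.i false (nat_lit 4) (nat_lit 2) (.c (nat_lit 56) (nat_lit 51) (.c (nat_lit 0) (nat_lit 16) .nil)) (.i false (nat_lit 4) (nat_lit 2) (.c (nat_lit 33) (nat_lit 35) (.c (nat_lit 2) (nat_lit 32) .nil)) (.i true (nat_lit 4) (nat_lit 2) (.c (nat_lit 35) (nat_lit 35) (.c (nat_lit 2) (nat_lit 32) .nil)) .nil)))))))))))))))))) .leaf) (nat_lit 13322) (nat_lit 213) (.p (nat_lit 89) (nat_lit 2) (.n (nat_lit 90) (nat_lit 2) (.p (nat_lit 91) (nat_lit 2) (.n (nat_lit 94) (nat_lit 4) (.n (nat_lit 95) (nat_lit 4) (.n (nat_lit 96) (nat_lit 4) (.n (nat_lit 97) (nat_lit 4) (.p (nat_lit 101) (nat_lit 4) (.p (nat_lit 102) (nat_lit 4) (.n (nat_lit 103) (nat_lit 4) (.p (nat_lit 104) (nat_lit 2) .z))))))))))) (.ct dzE_c52 (nat_lit 2) (nat_lit 0) (.s false (nat_lit 1) (nat_lit 13) (nat_lit 1) (nat_lit 1) (nat_lit 1) true (nat_lit 4)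 true (nat_lit 7) false (nat_lit 0) true (nat_lit 7) true (nat_lit 7) (.e false (nat_lit 2) (nat_lit 27) (nat_lit 4) (nat_lit 4) (.e true (nat_lit 2) (nat_lit 62) (nat_lit 1) (nat_lit 7) .nil)))) .leaf))) (nat_lit 14337) (nat_lit 38) (.n (nat_lit 26) (nat_lit 1) (.p (nat_lit 27) (nat_lit 1) (.n (nat_lit 29) (nat_lit 1) (.p (nat_lit 30) (nat_lit 3) (.n (nat_lit 31) (nat_lit 2) .z))))) (.ct dzE_c50 (nat_lit 2) (nat_lit 3) (.s true (nat_lit 1) (nat_lit 3) (nat_lit 0) (nat_lit 0) (nat_lit 1) true (nat_lit 1) true (nat_lit 3) true (nat_lit 1) true (nat_lit 4) true (nat_lit 4) (.e true (nat_lit 2) (nat_lit 7) (nat_lit 3) (nat_lit 1) (.e true (nat_lit 2) (nat_lit 6) (nat_lit 3) (nat_lit 1) (.e false (nat_lit 2) (nat_lit 17) (nat_lit 0) (nat_lit 4) .nil))))) (.nd (.nd (.nd (.nd .leaf (nat_lit 14339) (nat_lit 67) (.p (nat_lit 50) (nat_lit 2) .z) .df .leaf) (nat_lit 15360) (nat_lit 32) (.p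 (nat_lit 28) (nat_lit 2) .z) .df (.nd .leaf (nat_lit 15361) (nat_lit 41) (.p (nat_lit 32) (nat_lit 2) .z) .df .leaf)) (nat_lit 15362) (nat_lit 76) (.p (nat_lit 42) (nat_lit 6) (.n (nat_lit 43) (nat_lit 4) (.p (nat_lit 44) (nat_lit 2) (.n (nat_lit 45) (nat_lit 4) (.p (nat_lit 48) (nat_lit 2) (.p (nat_lit 49) (nat_lit 4) (.n (nat_lit 51) (nat_lit 4) .z))))))) (.ct dzE_c66 (nat_lit 2) (nat_lit 4) (.s true (nat_lit 1) (nat_lit 6) (nat_lit 0) (nat_lit 1) (nat_lit 0) true (nat_lit 4) true (nat_lit 6) true (nat_lit 0) true (nat_lit 6) true (nat_lit 5) (.e true (nat_lit 2) (nat_lit 27) (nat_lit 0) (nat_lit 6) (.e false (nat_lit 2) (nat_lit 7) (nat_lit 6) (nat_lit 0) (.e false (nat_lit 2) (nat_lit 31) (nat_lit 0) (nat_lit 6) (.e false (nat_lit 2) (nat_lit 24) (nat_lit 1) (nat_lit 5) .nil)))))) (.nd (.nd .leaf (nat_lit 15363) (nat_lit 96) (.p (nat_lit 52) (nat_lit 2) (.n (nat_lit 55) (nat_lit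 2) (.n (nat_lit 56) (nat_lit 2) (.n (nat_lit 57) (nat_lit 4) (.p (nat_lit 58) (nat_lit 4) (.n (nat_lit 59) (nat_lit 2) (.p (nat_lit 60) (nat_lit 2) (.p (nat_lit 61) (nat_lit 2) (.p (nat_lit 62) (nat_lit 2) .z))))))))) (.ct dzE_c51 (nat_lit 2) (nat_lit 3) (.s true (nat_lit 1) (nat_lit 3) (nat_lit 2) (nat_lit 1) (nat_lit 1) true (nat_lit 0) true (nat_lit 5) true (nat_lit 3) true (nat_lit 4) true (nat_lit 5) (.s true (nat_lit 1) (nat_lit 4) (nat_lit 2) (nat_lit 1) (nat_lit 0) true (nat_lit 1) true (nat_lit 6) true (nat_lit 2) true (nat_lit 4) true (nat_lit 5) (.s false (nat_lit 1) (nat_lit 5) (nat_lit 1) (nat_lit 1) (nat_lit 1) true (nat_lit 2) true (nat_lit 5) true (nat_lit 1) true (nat_lit 5) true (nat_lit 5) (.s false (nat_lit 1) (nat_lit 6) (nat_lit 1) (nat_lit 0) (nat_lit 1) true (nat_lit 2) true (nat_lit 5) true (nat_lit 0) true (nat_lit 5) true (nat_lit 6) (.e true (nat_lit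 4) (nat_lit 33) (nat_lit 0) (nat_lit 6) (.e false (nat_lit 4) (nat_lit 34) (nat_lit 0) (nat_lit 6) (.e false (nat_lit 2) (nat_lit 28) (nat_lit 1) (nat_lit 5) (.e false (nat_lit 2) (nat_lit 12) (nat_lit 4) (nat_lit 2) (.e true (nat_lit 2) (nat_lit 32) (nat_lit 0) (nat_lit 6) .nil)))))))))) .leaf) (nat_lit 15364) (nat_lit 118) (.n (nat_lit 64) (nat_lit 4) (.p (nat_lit 65) (nat_lit 4) (.p (nat_lit 67) (nat_lit 2) (.n (nat_lit 68) (nat_lit 2) (.n (nat_lit 70) (nat_lit 2) (.p (nat_lit 71) (nat_lit 2) .z)))))) (.ct dzE_c36 (nat_lit 2) (nat_lit 2) (.s true (nat_lit 1) (nat_lit 4) (nat_lit 2) (nat_lit 1) (nat_lit 1) true (nat_lit 1) true (nat_lit 5) true (nat_lit 2) true (nat_lit 4) true (nat_lit 5) (.s false (nat_lit 1) (nat_lit 10) (nat_lit 0) (nat_lit 0) (nat_lit 1) true (nat_lit 3) true (nat_lit 5) false (nat_lit 1) true (nat_lit 6) true (nat_lit 6) (.e true (nat_lit 6) (nat_lit 33)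 (nat_lit 1) (nat_lit 5) (.e false (nat_lit 2) (nat_lit 34) (nat_lit 1) (nat_lit 5) (.e false (nat_lit 2) (nat_lit 32) (nat_lit 1) (nat_lit 5) (.e false (nat_lit 4) (nat_lit 36) (nat_lit 1) (nat_lit 5) (.e false (nat_lit 2) (nat_lit 37) (nat_lit 1) (nat_lit 5) (.e false (nat_lit 2) (nat_lit 20) (nat_lit 3) (nat_lit 3) (.e true (nat_lit 2) (nat_lit 40) (nat_lit 0) (nat_lit 6) .nil)))))))))) .leaf)) (nat_lit 15366) (nat_lit 169) (.n (nat_lit 73) (nat_lit 2) (.n (nat_lit 74) (nat_lit 4) (.p (nat_lit 75) (nat_lit 2) (.p (nat_lit 77) (nat_lit 4) (.p (nat_lit 78) (nat_lit 2) (.n (nat_lit 79) (nat_lit 4) (.n (nat_lit 80) (nat_lit 4) (.p (nat_lit 81) (nat_lit 2) (.n (nat_lit 85) (nat_lit 2) (.n (nat_lit 87) (nat_lit 2) (.p (nat_lit 88) (nat_lit 4) .z))))))))))) (.ct dzE_c67 (nat_lit 2) (nat_lit 2) (.s false (nat_lit 1) (nat_lit 6) (nat_lit 1) (nat_lit 2) (nat_lit 1) true (nat_lit 4) true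 (nat_lit 7) true (nat_lit 2) true (nat_lit 7) true (nat_lit 6) (.e false (nat_lit 4) (nat_lit 23) (nat_lit 4) (nat_lit 4) dzE_i19))) (.nd (.nd (.nd .leaf (nat_lit 15367) (nat_lit 168) (.p (nat_lit 73) (nat_lit 2) (.p (nat_lit 74) (nat_lit 2) (.n (nat_lit 75) (nat_lit 2) (.n (nat_lit 76) (nat_lit 4) (.p (nat_lit 77) (nat_lit 4) (.p (nat_lit 78) (nat_lit 2) (.n (nat_lit 79) (nat_lit 2) (.n (nat_lit 83) (nat_lit 4) (.p (nat_lit 85) (nat_lit 2) (.n (nat_lit 86) (nat_lit 4) (.p (nat_lit 87) (nat_lit 4) (.p (nat_lit 88) (nat_lit 2) .z)))))))))))) (.ct dzE_c67 (nat_lit 2) (nat_lit 2) (.s false (nat_lit 1) (nat_lit 6) (nat_lit 3) (nat_lit 1) (nat_lit 0) true (nat_lit 2) true (nat_lit 8) true (nat_lit 2) true (nat_lit 5) true (nat_lit 7) (.e false (nat_lit 2) (nat_lit 55) (nat_lit 0) (nat_lit 8) (.e false (nat_lit 2) (nat_lit 17) (nat_lit 6) (nat_lit 2) (.e true (nat_lit 2) (nat_lit 31)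 (nat_lit 3) (nat_lit 5) (.e false (nat_lit 2) (nat_lit 49) (nat_lit 1) (nat_lit 7) .nil)))))) .leaf) (nat_lit 15368) (nat_lit 201) (.n (nat_lit 89) (nat_lit 4) (.n (nat_lit 90) (nat_lit 4) (.p (nat_lit 91) (nat_lit 4) (.n (nat_lit 92) (nat_lit 4) (.p (nat_lit 94) (nat_lit 2) (.p (nat_lit 96) (nat_lit 4) (.p (nat_lit 97) (nat_lit 4) (.n (nat_lit 98) (nat_lit 4) (.p (nat_lit 99) (nat_lit 4) (.n (nat_lit 101) (nat_lit 2) (.p (nat_lit 102) (nat_lit 2) (.n (nat_lit 103) (nat_lit 4) (.p (nat_lit 104) (nat_lit 2) .z))))))))))))) (.ct dzE_c52 (nat_lit 2) (nat_lit 1) (.s false (nat_lit 1) (nat_lit 15) (nat_lit 0) (nat_lit 1) (nat_lit 1) true (nat_lit 5) true (nat_lit 7) false (nat_lit 1) true (nat_lit 8) true (nat_lit 7) (.e false (nat_lit 2) (nat_lit 32) (nat_lit 3) (nat_lit 5) (.e false (nat_lit 2) (nat_lit 52) (nat_lit 1) (nat_lit 7) dzE_i36)))) .leaf) (nat_lit 15369) (nat_lit 211)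 (.n (nat_lit 89) (nat_lit 2) (.n (nat_lit 90) (nat_lit 2) (.p (nat_lit 91) (nat_lit 2) (.n (nat_lit 92) (nat_lit 2) (.p (nat_lit 94) (nat_lit 4) (.n (nat_lit 95) (nat_lit 2) (.n (nat_lit 101) (nat_lit 2) (.p (nat_lit 102) (nat_lit 2) (.n (nat_lit 103) (nat_lit 2) (.p (nat_lit 104) (nat_lit 2) .z)))))))))) (.ct dzE_c52 (nat_lit 2) (nat_lit 1) (.s false (nat_lit 1) (nat_lit 6) (nat_lit 4) (nat_lit 1) (nat_lit 0) true (nat_lit 1) true (nat_lit 8) true (nat_lit 2) true (nat_lit 4) true (nat_lit 7) (.e false (nat_lit 2) (nat_lit 63) (nat_lit 0) (nat_lit 8) (.e false (nat_lit 4) (nat_lit 64) (nat_lit 0) (nat_lit 8) (.e false (nat_lit 2) (nat_lit 65) (nat_lit 0) (nat_lit 8) (.e false (nat_lit 2) (nat_lit 67) (nat_lit 0) (nat_lit 8) (.e false (nat_lit 2) (nat_lit 68) (nat_lit 0) (nat_lit 8) (.e false (nat_lit 2) (nat_lit 20) (nat_lit 6) (nat_lit 2) (.e true (nat_lit 2) (nat_lit 31) (nat_lit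 4) (nat_lit 4) (.e false (nat_lit 2) (nat_lit 62) (nat_lit 1) (nat_lit 7) (.e true (nat_lit 10) (nat_lit 63) (nat_lit 0) (nat_lit 8) (.e true (nat_lit 10) (nat_lit 64) (nat_lit 0) (nat_lit 8) (.e false (nat_lit 10) (nat_lit 52) (nat_lit 1) (nat_lit 7) (.e false (nat_lit 10) (nat_lit 53) (nat_lit 1) (nat_lit 7) (.e true (nat_lit 10) (nat_lit 55) (nat_lit 1) (nat_lit 7) (.e false (nat_lit 10) (nat_lit 59) (nat_lit 1) (nat_lit 7) (.e true (nat_lit 10) (nat_lit 70) (nat_lit 0) (nat_lit 8) (.i true (nat_lit 4) (nat_lit 2) (.c (nat_lit 64) (nat_lit 36) (.c (nat_lit 0) (nat_lit 16) .nil)) (.i false (nat_lit 4) (nat_lit 2) (.c (nat_lit 63) (nat_lit 36) (.c (nat_lit 0) (nat_lit 16) .nil)) (.i false (nat_lit 4) (nat_lit 2) (.c (nat_lit 64) (nat_lit 36) (.c (nat_lit 0) (nat_lit 16) .nil)) (.i true (nat_lit 4) (nat_lit 2) (.c (nat_lit 52) (nat_lit 51) (.c (nat_lit 1) (nat_lit 1) .nil)) (.i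 true (nat_lit 4) (nat_lit 2) (.c (nat_lit 53) (nat_lit 51) (.c (nat_lit 1) (nat_lit 1) .nil)) (.i false (nat_lit 4) (nat_lit 2) (.c (nat_lit 55) (nat_lit 51) (.c (nat_lit 1) (nat_lit 1) .nil)) (.i true (nat_lit 4) (nat_lit 2) (.c (nat_lit 59) (nat_lit 51) (.c (nat_lit 1) (nat_lit 1) .nil)) (.i false (nat_lit 4) (nat_lit 2) (.c (nat_lit 70) (nat_lit 36) (.c (nat_lit 0) (nat_lit 16) .nil)) .nil))))))))))))))))))))))))) (.nd (.nd .leaf (nat_lit 16384) (nat_lit 33) (.p (nat_lit 29) (nat_lit 2) .z) .df .leaf) (nat_lit 16385) (nat_lit 42) (.p (nat_lit 33) (nat_lit 2) .z) .df .leaf)))) (nat_lit 16386) (nat_lit 68) (.p (nat_lit 51) (nat_lit 2) .z) .df (.nd (.nd (.nd (.nd (.nd .leaf (nat_lit 16387) (nat_lit 92) (.p (nat_lit 52) (nat_lit 2) (.n (nat_lit 53) (nat_lit 2) (.n (nat_lit 55) (nat_lit 4) (.n (nat_lit 56) (nat_lit 2) (.p (nat_lit 58) (nat_lit 2) (.p (nat_lit 62) (nat_lit 2) .z))))))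 (.ct dzE_c51 (nat_lit 2) (nat_lit 3) (.s false (nat_lit 1) (nat_lit 3) (nat_lit 0) (nat_lit 1) (nat_lit 3) true (nat_lit 0) true (nat_lit 3) true (nat_lit 3) true (nat_lit 6) true (nat_lit 5) (.s false (nat_lit 2) (nat_lit 3) (nat_lit 0) (nat_lit 3) (nat_lit 1) true (nat_lit 3) true (nat_lit 5) true (nat_lit 3) true (nat_lit 6) true (nat_lit 3) (.s true (nat_lit 1) (nat_lit 8) (nat_lit 1) (nat_lit 0) (nat_lit 0) true (nat_lit 3) true (nat_lit 6) false (nat_lit 0) true (nat_lit 5) true (nat_lit 6) (.e false (nat_lit 2) (nat_lit 33) (nat_lit 0) (nat_lit 6) (.e true (nat_lit 2) (nat_lit 34) (nat_lit 0) (nat_lit 6) (.e false (nat_lit 2) (nat_lit 35) (nat_lit 0) (nat_lit 6) (.e true (nat_lit 2) (nat_lit 36) (nat_lit 0) (nat_lit 6) (.e true (nat_lit 2) (nat_lit 29) (nat_lit 1) (nat_lit 5) (.e false (nat_lit 2) (nat_lit 30) (nat_lit 1) (nat_lit 5) (.e false (nat_lit 2) (nat_lit 17) (nat_lit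 3) (nat_lit 3) (.e true (nat_lit 2) (nat_lit 37) (nat_lit 0) (nat_lit 6) (.e true (nat_lit 2) (nat_lit 31) (nat_lit 1) (nat_lit 5) .nil))))))))))))) .leaf) (nat_lit 16388) (nat_lit 112) (.p (nat_lit 71) (nat_lit 2) .z) .df (.nd .leaf (nat_lit 16390) (nat_lit 161) (.n (nat_lit 73) (nat_lit 2) (.n (nat_lit 74) (nat_lit 2) (.p (nat_lit 77) (nat_lit 2) (.p (nat_lit 78) (nat_lit 2) (.p (nat_lit 79) (nat_lit 4) (.n (nat_lit 83) (nat_lit 2) (.n (nat_lit 86) (nat_lit 2) (.n (nat_lit 87) (nat_lit 2) (.n (nat_lit 88) (nat_lit 4) .z))))))))) (.ct dzE_c67 (nat_lit 2) (nat_lit 2) (.s false (nat_lit 1) (nat_lit 6) (nat_lit 0) (nat_lit 3) (nat_lit 1) true (nat_lit 5) true (nat_lit 7) true (nat_lit 2) true (nat_lit 8) true (nat_lit 5) (.e true (nat_lit 2) (nat_lit 31) (nat_lit 3) (nat_lit 5) (.e false (nat_lit 2) (nat_lit 49) (nat_lit 1) (nat_lit 7) (.e false (nat_lit 2) (nat_lit 52) (nat_lit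 0) (nat_lit 8) (.e true (nat_lit 2) (nat_lit 55) (nat_lit 0) (nat_lit 8) (.e true (nat_lit 2) (nat_lit 56) (nat_lit 0) (nat_lit 8) (.e false (nat_lit 2) (nat_lit 62) (nat_lit 0) (nat_lit 8) (.e false (nat_lit 2) (nat_lit 28) (nat_lit 3) (nat_lit 5) (.e false (nat_lit 10) (nat_lit 31) (nat_lit 3) (nat_lit 5) (.e true (nat_lit 10) (nat_lit 42) (nat_lit 1) (nat_lit 7) (.e true (nat_lit 10) (nat_lit 44) (nat_lit 1) (nat_lit 7) (.e true (nat_lit 10) (nat_lit 45) (nat_lit 1) (nat_lit 7) (.e false (nat_lit 10) (nat_lit 48) (nat_lit 1) (nat_lit 7) (.e false (nat_lit 10) (nat_lit 55) (nat_lit 0) (nat_lit 8) (.e false (nat_lit 10) (nat_lit 56) (nat_lit 0) (nat_lit 8) (.e true (nat_lit 10) (nat_lit 62) (nat_lit 0) (nat_lit 8) (.i true (nat_lit 4) (nat_lit 2) (.c (nat_lit 31) (nat_lit 50) (.c (nat_lit 3) (nat_lit 17) .nil)) (.i false (nat_lit 4) (nat_lit 2) (.c (nat_lit 42) (nat_lit 66) (.c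 (nat_lit 1) (nat_lit 1) .nil)) (.i false (nat_lit 4) (nat_lit 2) (.c (nat_lit 44) (nat_lit 66) (.c (nat_lit 1) (nat_lit 1) .nil)) (.i false (nat_lit 4) (nat_lit 2) (.c (nat_lit 45) (nat_lit 66) (.c (nat_lit 1) (nat_lit 1) .nil)) (.i true (nat_lit 4) (nat_lit 2) (.c (nat_lit 48) (nat_lit 66) (.c (nat_lit 1) (nat_lit 1) .nil)) (.i true (nat_lit 4) (nat_lit 2) (.c (nat_lit 55) (nat_lit 51) (.c (nat_lit 0) (nat_lit 16) .nil)) (.i true (nat_lit 4) (nat_lit 2) (.c (nat_lit 56) (nat_lit 51) (.c (nat_lit 0) (nat_lit 16) .nil)) (.i false (nat_lit 4) (nat_lit 2) (.c (nat_lit 62) (nat_lit 51) (.c (nat_lit 0) (nat_lit 16) .nil)) .nil))))))))))))))))))))))))) .leaf)) (nat_lit 16391) (nat_lit 164) (.n (nat_lit 73) (nat_lit 2) (.n (nat_lit 74) (nat_lit 4) (.n (nat_lit 75) (nat_lit 2) (.p (nat_lit 76) (nat_lit 4) (.n (nat_lit 78) (nat_lit 2) (.n (nat_lit 79) (nat_lit 2) (.n (nat_lit 83) (nat_lit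 2) (.p (nat_lit 84) (nat_lit 2) (.p (nat_lit 85) (nat_lit 2) (.p (nat_lit 86) (nat_lit 4) (.p (nat_lit 87) (nat_lit 4) (.p (nat_lit 88) (nat_lit 2) .z)))))))))))) (.ct dzE_c67 (nat_lit 2) (nat_lit 2) (.s false (nat_lit 1) (nat_lit 16) (nat_lit 1) (nat_lit 0) (nat_lit 0) true (nat_lit 5) true (nat_lit 8) false (nat_lit 2) true (nat_lit 7) true (nat_lit 8) (.e false (nat_lit 2) (nat_lit 29) (nat_lit 3) (nat_lit 5) (.e false (nat_lit 2) (nat_lit 57) (nat_lit 0) (nat_lit 8) (.e true (nat_lit 2) (nat_lit 51) (nat_lit 1) (nat_lit 7) (.e true (nat_lit 2) (nat_lit 53) (nat_lit 0) (nat_lit 8) .nil)))))) (.nd (.nd .leaf (nat_lit 16392) (nat_lit 210) (.n (nat_lit 89) (nat_lit 4) (.n (nat_lit 90) (nat_lit 2) (.p (nat_lit 91) (nat_lit 2) (.n (nat_lit 92) (nat_lit 2) (.p (nat_lit 93) (nat_lit 4) (.p (nat_lit 94) (nat_lit 2) (.n (nat_lit 95) (nat_lit 2) (.p (nat_lit 98) (nat_lit 4) (.p (nat_lit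 102) (nat_lit 2) (.p (nat_lit 103) (nat_lit 4) (.p (nat_lit 104) (nat_lit 2) .z))))))))))) (.ct dzE_c52 (nat_lit 2) (nat_lit 1) (.s false (nat_lit 1) (nat_lit 16) (nat_lit 0) (nat_lit 1) (nat_lit 1) true (nat_lit 5) true (nat_lit 7) false (nat_lit 1) true (nat_lit 8) true (nat_lit 7) (.e false (nat_lit 2) (nat_lit 33) (nat_lit 3) (nat_lit 5) (.e false (nat_lit 2) (nat_lit 53) (nat_lit 1) (nat_lit 7) (.e true (nat_lit 2) (nat_lit 71) (nat_lit 0) (nat_lit 8) (.e true (nat_lit 2) (nat_lit 57) (nat_lit 1) (nat_lit 7) (.e true (nat_lit 10) (nat_lit 52) (nat_lit 1) (nat_lit 7) (.e false (nat_lit 10) (nat_lit 56) (nat_lit 1) (nat_lit 7) (.e false (nat_lit 10) (nat_lit 69) (nat_lit 0) (nat_lit 8) (.e false (nat_lit 10) (nat_lit 70) (nat_lit 0) (nat_lit 8) (.i false (nat_lit 4) (nat_lit 2) (.c (nat_lit 52) (nat_lit 51) (.c (nat_lit 1) (nat_lit 1) .nil)) (.i true (nat_lit 4) (nat_lit 2)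 (.c (nat_lit 56) (nat_lit 51) (.c (nat_lit 1) (nat_lit 1) .nil)) (.i true (nat_lit 4) (nat_lit 2) (.c (nat_lit 69) (nat_lit 36) (.c (nat_lit 0) (nat_lit 16) .nil)) (.i true (nat_lit 4) (nat_lit 2) (.c (nat_lit 70) (nat_lit 36) (.c (nat_lit 0) (nat_lit 16) .nil)) .nil)))))))))))))) .leaf) (nat_lit 16393) (nat_lit 207) (.n (nat_lit 89) (nat_lit 4) (.n (nat_lit 93) (nat_lit 2) (.p (nat_lit 94) (nat_lit 2) (.n (nat_lit 95) (nat_lit 4) (.n (nat_lit 96) (nat_lit 4) (.n (nat_lit 97) (nat_lit 4) (.p (nat_lit 98) (nat_lit 4) (.p (nat_lit 99) (nat_lit 2) (.p (nat_lit 101) (nat_lit 4) (.p (nat_lit 102) (nat_lit 4) (.p (nat_lit 103) (nat_lit 2) (.p (nat_lit 104) (nat_lit 2) .z)))))))))))) (.ct dzE_c52 (nat_lit 2) (nat_lit 1) (.s false (nat_lit 1) (nat_lit 16) (nat_lit 1) (nat_lit 1) (nat_lit 0) true (nat_lit 5) true (nat_lit 8) false (nat_lit 1) true (nat_lit 7) true (nat_lit 7) (.e false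 (nat_lit 2) (nat_lit 33) (nat_lit 3) (nat_lit 5) (.e false (nat_lit 2) (nat_lit 64) (nat_lit 0) (nat_lit 8) (.e true (nat_lit 2) (nat_lit 52) (nat_lit 1) (nat_lit 7) (.e false (nat_lit 4) (nat_lit 55) (nat_lit 1) (nat_lit 7) (.e false (nat_lit 2) (nat_lit 56) (nat_lit 1) (nat_lit 7) (.e true (nat_lit 2) (nat_lit 58) (nat_lit 1) (nat_lit 7) (.e true (nat_lit 2) (nat_lit 62) (nat_lit 1) (nat_lit 7) (.e true (nat_lit 10) (nat_lit 52) (nat_lit 1) (nat_lit 7) (.e false (nat_lit 10) (nat_lit 53) (nat_lit 1) (nat_lit 7) (.e true (nat_lit 10) (nat_lit 54) (nat_lit 1) (nat_lit 7) (.e false (nat_lit 10) (nat_lit 70) (nat_lit 0) (nat_lit 8) (.i false (nat_lit 4) (nat_lit 2) (.c (nat_lit 52) (nat_lit 51) (.c (nat_lit 1) (nat_lit 1) .nil)) (.i true (nat_lit 4) (nat_lit 2) (.c (nat_lit 53) (nat_lit 51) (.c (nat_lit 1) (nat_lit 1) .nil)) (.i false (nat_lit 4) (nat_lit 2) (.c (nat_lit 54) (nat_lit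 51) (.c (nat_lit 1) (nat_lit 1) .nil)) (.i true (nat_lit 4) (nat_lit 2) (.c (nat_lit 70) (nat_lit 36) (.c (nat_lit 0) (nat_lit 16) .nil)) .nil))))))))))))))))) .leaf)) (nat_lit 17408) (nat_lit 34) (.p (nat_lit 30) (nat_lit 2) .z) .df (.nd (.nd (.nd .leaf (nat_lit 17409) (nat_lit 43) (.p (nat_lit 34) (nat_lit 2) .z) .df .leaf) (nat_lit 17410) (nat_lit 69) (.p (nat_lit 42) (nat_lit 2) (.n (nat_lit 43) (nat_lit 2) (.p (nat_lit 44) (nat_lit 2) (.n (nat_lit 45) (nat_lit 2) (.p (nat_lit 48) (nat_lit 2) (.p (nat_lit 49) (nat_lit 2) (.n (nat_lit 51) (nat_lit 2) .z))))))) (.ct dzE_c66 (nat_lit 2) (nat_lit 4) (.s true (nat_lit 1) (nat_lit 3) (nat_lit 0) (nat_lit 1) (nat_lit 2) true (nat_lit 1) true (nat_lit 4) true (nat_lit 3) true (nat_lit 6) true (nat_lit 5) (.s true (nat_lit 1) (nat_lit 3) (nat_lit 0) (nat_lit 2) (nat_lit 1) true (nat_lit 3) true (nat_lit 5) true (nat_lit 3) true (nat_lit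 6) true (nat_lit 4) (.s false (nat_lit 1) (nat_lit 3) (nat_lit 2) (nat_lit 1) (nat_lit 0) true (nat_lit 1) true (nat_lit 6) true (nat_lit 3) true (nat_lit 4) true (nat_lit 5) (.e true (nat_lit 2) (nat_lit 16) (nat_lit 2) (nat_lit 4) (.e false (nat_lit 2) (nat_lit 12) (nat_lit 3) (nat_lit 3) (.e false (nat_lit 2) (nat_lit 13) (nat_lit 3) (nat_lit 3) (.e false (nat_lit 2) (nat_lit 23) (nat_lit 1) (nat_lit 5) (.e true (nat_lit 2) (nat_lit 24) (nat_lit 1) (nat_lit 5) (.e false (nat_lit 2) (nat_lit 26) (nat_lit 0) (nat_lit 6) (.e true (nat_lit 2) (nat_lit 27) (nat_lit 0) (nat_lit 6) .nil))))))))))) (.nd .leaf (nat_lit 17411) (nat_lit 91) (.p (nat_lit 52) (nat_lit 2) (.n (nat_lit 54) (nat_lit 2) (.n (nat_lit 55) (nat_lit 2) (.n (nat_lit 56) (nat_lit 2) (.n (nat_lit 57) (nat_lit 2) (.p (nat_lit 58) (nat_lit 4) (.n (nat_lit 59) (nat_lit 2) (.p (nat_lit 60) (nat_lit 2) (.p (nat_lit 61)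 (nat_lit 2) (.p (nat_lit 62) (nat_lit 2) .z)))))))))) (.ct dzE_c51 (nat_lit 2) (nat_lit 3) (.s false (nat_lit 1) (nat_lit 6) (nat_lit 1) (nat_lit 0) (nat_lit 1) true (nat_lit 2) true (nat_lit 5) true (nat_lit 0) true (nat_lit 5) true (nat_lit 6) (.s true (nat_lit 1) (nat_lit 8) (nat_lit 0) (nat_lit 0) (nat_lit 1) true (nat_lit 3) true (nat_lit 5) false (nat_lit 0) true (nat_lit 6) true (nat_lit 6) (.e false (nat_lit 2) (nat_lit 13) (nat_lit 4) (nat_lit 2) (.e false (nat_lit 2) (nat_lit 28) (nat_lit 1) (nat_lit 5) (.e true (nat_lit 2) (nat_lit 31) (nat_lit 1) (nat_lit 5) (.e true (nat_lit 2) (nat_lit 32) (nat_lit 0) (nat_lit 6) (.e true (nat_lit 2) (nat_lit 30) (nat_lit 1) (nat_lit 5) (.e true (nat_lit 2) (nat_lit 33) (nat_lit 0) (nat_lit 6) (.e false (nat_lit 4) (nat_lit 34) (nat_lit 0) (nat_lit 6) (.e true (nat_lit 2) (nat_lit 35) (nat_lit 0) (nat_lit 6) (.e false (nat_lit 2)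 (nat_lit 36) (nat_lit 0) (nat_lit 6) (.e false (nat_lit 2) (nat_lit 37) (nat_lit 0) (nat_lit 6) .nil))))))))))))) .leaf)) (nat_lit 17412) (nat_lit 117) (.p (nat_lit 63) (nat_lit 2) (.n (nat_lit 64) (nat_lit 6) (.p (nat_lit 65) (nat_lit 2) (.p (nat_lit 67) (nat_lit 2) (.p (nat_lit 68) (nat_lit 2) (.p (nat_lit 71) (nat_lit 2) .z)))))) (.ct dzE_c36 (nat_lit 2) (nat_lit 2) (.s false (nat_lit 1) (nat_lit 4) (nat_lit 1) (nat_lit 3) (nat_lit 0) true (nat_lit 3) true (nat_lit 6) true (nat_lit 2) true (nat_lit 5) true (nat_lit 3) (.e false (nat_lit 2) (nat_lit 20) (nat_lit 3) (nat_lit 3) (.e false (nat_lit 2) (nat_lit 40) (nat_lit 0) (nat_lit 6) (.e true (nat_lit 2) (nat_lit 41) (nat_lit 0) (nat_lit 6) (.e true (nat_lit 2) (nat_lit 37) (nat_lit 1) (nat_lit 5) .nil)))))) (.nd (.nd .leaf (nat_lit 17414) (nat_lit 153) (.n (nat_lit 73) (nat_lit 2) (.n (nat_lit 74) (nat_lit 2) (.n (nat_lit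 75) (nat_lit 4) (.p (nat_lit 77) (nat_lit 2) (.n (nat_lit 79) (nat_lit 2) (.n (nat_lit 83) (nat_lit 4) (.p (nat_lit 85) (nat_lit 4) (.n (nat_lit 86) (nat_lit 2) (.p (nat_lit 87) (nat_lit 2) (.p (nat_lit 88) (nat_lit 2) .z)))))))))) (.ct dzE_c67 (nat_lit 2) (nat_lit 2) (.s false (nat_lit 2) (nat_lit 4) (nat_lit 2) (nat_lit 2) (nat_lit 1) true (nat_lit 2) true (nat_lit 7) true (nat_lit 4) true (nat_lit 6) true (nat_lit 6) (.s false (nat_lit 1) (nat_lit 6) (nat_lit 0) (nat_lit 3) (nat_lit 1) true (nat_lit 5) true (nat_lit 7) true (nat_lit 2) true (nat_lit 8) true (nat_lit 5) (.s true (nat_lit 1) (nat_lit 6) (nat_lit 2) (nat_lit 1) (nat_lit 1) true (nat_lit 2) true (nat_lit 7) true (nat_lit 2) true (nat_lit 6) true (nat_lit 7) (.e true (nat_lit 2) (nat_lit 43) (nat_lit 1) (nat_lit 7) (.e false (nat_lit 2) (nat_lit 45) (nat_lit 1) (nat_lit 7) (.e true (nat_lit 2) (nat_lit 33) (nat_lit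 2) (nat_lit 6) (.e false (nat_lit 2) (nat_lit 34) (nat_lit 2) (nat_lit 6) (.e true (nat_lit 2) (nat_lit 31) (nat_lit 3) (nat_lit 5) (.e false (nat_lit 2) (nat_lit 52) (nat_lit 0) (nat_lit 8) (.e true (nat_lit 2) (nat_lit 55) (nat_lit 0) (nat_lit 8) (.e true (nat_lit 2) (nat_lit 56) (nat_lit 0) (nat_lit 8) (.e false (nat_lit 2) (nat_lit 62) (nat_lit 0) (nat_lit 8) (.e false (nat_lit 2) (nat_lit 28) (nat_lit 3) (nat_lit 5) (.e true (nat_lit 10) (nat_lit 42) (nat_lit 1) (nat_lit 7) (.e true (nat_lit 10) (nat_lit 44) (nat_lit 1) (nat_lit 7) (.e true (nat_lit 10) (nat_lit 45) (nat_lit 1) (nat_lit 7) (.e false (nat_lit 10) (nat_lit 48) (nat_lit 1) (nat_lit 7) dzE_i16)))))))))))))))))) .leaf) (nat_lit 17416) (nat_lit 203) (.p (nat_lit 89) (nat_lit 2) (.n (nat_lit 90) (nat_lit 4) (.n (nat_lit 91) (nat_lit 4) (.n (nat_lit 92) (nat_lit 4) (.n (nat_lit 93) (nat_lit 2) (.n (nat_lit 96) (nat_lit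 2) (.n (nat_lit 97) (nat_lit 2) (.n (nat_lit 99) (nat_lit 2) (.n (nat_lit 101) (nat_lit 2) (.n (nat_lit 102) (nat_lit 4) (.n (nat_lit 103) (nat_lit 4) (.p (nat_lit 104) (nat_lit 2) .z)))))))))))) (.ct dzE_c52 (nat_lit 2) (nat_lit 1) dzE_i37) .leaf))) (nat_lit 17417) (nat_lit 206) (.p (nat_lit 89) (nat_lit 4) (.p (nat_lit 90) (nat_lit 2) (.n (nat_lit 91) (nat_lit 2) (.n (nat_lit 92) (nat_lit 2) (.n (nat_lit 93) (nat_lit 2) (.n (nat_lit 94) (nat_lit 4) (.n (nat_lit 95) (nat_lit 2) (.p (nat_lit 96) (nat_lit 2) (.p (nat_lit 97) (nat_lit 2) (.p (nat_lit 102) (nat_lit 2) (.p (nat_lit 104) (nat_lit 2) .z))))))))))) (.ct dzE_c52 (nat_lit 2) (nat_lit 1) (.s false (nat_lit 1) (nat_lit 17) (nat_lit 1) (nat_lit 1) (nat_lit 0) true (nat_lit 5) true (nat_lit 8) false (nat_lit 1) true (nat_lit 7) true (nat_lit 7) (.e false (nat_lit 2) (nat_lit 34) (nat_lit 3) (nat_lit 5) (.e false (nat_lit 2)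 (nat_lit 65) (nat_lit 0) (nat_lit 8) (.e true (nat_lit 2) (nat_lit 52) (nat_lit 1) (nat_lit 7) (.e false (nat_lit 2) (nat_lit 55) (nat_lit 1) (nat_lit 7) dzE_i40)))))) (.nd (.nd (.nd (.nd .leaf (nat_lit 18432) (nat_lit 50) (.n (nat_lit 33) (nat_lit 1) (.p (nat_lit 34) (nat_lit 3) (.n (nat_lit 35) (nat_lit 1) (.p (nat_lit 36) (nat_lit 1) (.p (nat_lit 37) (nat_lit 2) .z))))) (.ct dzE_c35 (nat_lit 2) (nat_lit 4) (.s false (nat_lit 1) (nat_lit 3) (nat_lit 1) (nat_lit 0) (nat_lit 1) true (nat_lit 0) true (nat_lit 3) true (nat_lit 1) true (nat_lit 3) true (nat_lit 4) (.e false (nat_lit 2) (nat_lit 7) (nat_lit 4) (nat_lit 0) (.e false (nat_lit 2) (nat_lit 17) (nat_lit 1) (nat_lit 3) (.e false (nat_lit 2) (nat_lit 8) (nat_lit 3) (nat_lit 1) .nil))))) .leaf) (nat_lit 18433) (nat_lit 52) (.p (nat_lit 38) (nat_lit 2) .z) .df (.nd .leaf (nat_lit 18434) (nat_lit 103) (.p (nat_lit 52) (nat_lit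 2) (.n (nat_lit 53) (nat_lit 2) (.p (nat_lit 54) (nat_lit 2) (.n (nat_lit 55) (nat_lit 4) (.n (nat_lit 56) (nat_lit 2) (.n (nat_lit 57) (nat_lit 2) (.p (nat_lit 58) (nat_lit 2) (.n (nat_lit 59) (nat_lit 2) (.p (nat_lit 60) (nat_lit 2) (.p (nat_lit 62) (nat_lit 2) .z)))))))))) (.ct dzE_c51 (nat_lit 2) (nat_lit 4) (.s true (nat_lit 1) (nat_lit 3) (nat_lit 1) (nat_lit 1) (nat_lit 2) true (nat_lit 0) true (nat_lit 4) true (nat_lit 3) true (nat_lit 5) true (nat_lit 5) (.e false (nat_lit 2) (nat_lit 8) (nat_lit 6) (nat_lit 0) (.e true (nat_lit 4) (nat_lit 16) (nat_lit 3) (nat_lit 3) (.e false (nat_lit 4) (nat_lit 17) (nat_lit 3) (nat_lit 3) (.e true (nat_lit 2) (nat_lit 31) (nat_lit 1) (nat_lit 5) (.e false (nat_lit 2) (nat_lit 26) (nat_lit 1) (nat_lit 5) (.e true (nat_lit 2) (nat_lit 27) (nat_lit 1) (nat_lit 5) .nil)))))))) .leaf)) (nat_lit 18435) (nat_lit 113) (.p (nat_lit 72) (nat_lit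 2) .z) .df (.nd (.nd .leaf (nat_lit 19456) (nat_lit 44) (.p (nat_lit 35) (nat_lit 2) .z) .df .leaf) (nat_lit 19457) (nat_lit 53) (.p (nat_lit 39) (nat_lit 2) .z) .df .leaf)) (nat_lit 19458) (nat_lit 97) (.n (nat_lit 55) (nat_lit 2) (.p (nat_lit 57) (nat_lit 4) (.n (nat_lit 58) (nat_lit 4) (.p (nat_lit 59) (nat_lit 2) (.n (nat_lit 60) (nat_lit 2) (.n (nat_lit 61) (nat_lit 2) (.p (nat_lit 62) (nat_lit 2) .z))))))) (.ct dzE_c51 (nat_lit 2) (nat_lit 4) (.s true (nat_lit 1) (nat_lit 3) (nat_lit 2) (nat_lit 1) (nat_lit 1) true (nat_lit 0) true (nat_lit 5) true (nat_lit 3) true (nat_lit 4) true (nat_lit 5) (.s true (nat_lit 1) (nat_lit 4) (nat_lit 1) (nat_lit 0) (nat_lit 2) true (nat_lit 0) true (nat_lit 4) true (nat_lit 2) true (nat_lit 5) true (nat_lit 6) (.s false (nat_lit 1) (nat_lit 6) (nat_lit 1) (nat_lit 0) (nat_lit 1) true (nat_lit 2) true (nat_lit 5) true (nat_lit 0) true (nat_lit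 5) true (nat_lit 6) (.s false (nat_lit 1) (nat_lit 6) (nat_lit 1) (nat_lit 1) (nat_lit 0) true (nat_lit 3) true (nat_lit 6) true (nat_lit 0) true (nat_lit 5) true (nat_lit 5) (.e true (nat_lit 4) (nat_lit 31) (nat_lit 1) (nat_lit 5) (.e true (nat_lit 2) (nat_lit 12) (nat_lit 4) (nat_lit 2) (.e false (nat_lit 4) (nat_lit 13) (nat_lit 4) (nat_lit 2) (.e false (nat_lit 4) (nat_lit 33) (nat_lit 0) (nat_lit 6) (.e true (nat_lit 4) (nat_lit 34) (nat_lit 0) (nat_lit 6) .nil)))))))))) (.nd (.nd (.nd .leaf (nat_lit 19459) (nat_lit 114) (.p (nat_lit 66) (nat_lit 2) (.n (nat_lit 67) (nat_lit 2) (.n (nat_lit 68) (nat_lit 2) (.p (nat_lit 69) (nat_lit 2) (.n (nat_lit 70) (nat_lit 2) (.p (nat_lit 71) (nat_lit 2) .z)))))) (.ct dzE_c36 (nat_lit 2) (nat_lit 3) (.s true (nat_lit 1) (nat_lit 4) (nat_lit 0) (nat_lit 1) (nat_lit 3) true (nat_lit 1) true (nat_lit 3) true (nat_lit 2) true (nat_lit 6)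 true (nat_lit 5) (.s false (nat_lit 1) (nat_lit 7) (nat_lit 1) (nat_lit 1) (nat_lit 1) true (nat_lit 2) true (nat_lit 5) true (nat_lit 1) true (nat_lit 5) true (nat_lit 5) (.e false (nat_lit 2) (nat_lit 39) (nat_lit 0) (nat_lit 6) (.e true (nat_lit 2) (nat_lit 41) (nat_lit 0) (nat_lit 6) (.e false (nat_lit 2) (nat_lit 35) (nat_lit 1) (nat_lit 5) (.e true (nat_lit 2) (nat_lit 36) (nat_lit 1) (nat_lit 5) (.e false (nat_lit 2) (nat_lit 16) (nat_lit 4) (nat_lit 2) (.e true (nat_lit 2) (nat_lit 37) (nat_lit 1) (nat_lit 5) .nil))))))))) .leaf) (nat_lit 19461) (nat_lit 163) (.p (nat_lit 78) (nat_lit 4) (.n (nat_lit 83) (nat_lit 4) (.n (nat_lit 86) (nat_lit 2) (.p (nat_lit 87) (nat_lit 2) (.p (nat_lit 88) (nat_lit 2) .z))))) (.ct dzE_c67 (nat_lit 2) (nat_lit 3) (.s false (nat_lit 1) (nat_lit 19) (nat_lit 0) (nat_lit 0) (nat_lit 0) true (nat_lit 6) true (nat_lit 8) false (nat_lit 3) true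 (nat_lit 8) true (nat_lit 8) (.e false (nat_lit 2) (nat_lit 35) (nat_lit 2) (nat_lit 6) (.e true (nat_lit 2) (nat_lit 59) (nat_lit 0) (nat_lit 8) (.e false (nat_lit 2) (nat_lit 55) (nat_lit 0) (nat_lit 8) (.e true (nat_lit 4) (nat_lit 57) (nat_lit 0) (nat_lit 8) (.e false (nat_lit 4) (nat_lit 58) (nat_lit 0) (nat_lit 8) (.e false (nat_lit 2) (nat_lit 60) (nat_lit 0) (nat_lit 8) (.e false (nat_lit 2) (nat_lit 61) (nat_lit 0) (nat_lit 8) (.e true (nat_lit 2) (nat_lit 62) (nat_lit 0) (nat_lit 8) (.e true (nat_lit 10) (nat_lit 55) (nat_lit 0) (nat_lit 8) (.e false (nat_lit 10) (nat_lit 48) (nat_lit 1) (nat_lit 7) (.e false (nat_lit 10) (nat_lit 62) (nat_lit 0) (nat_lit 8) (.e false (nat_lit 10) (nat_lit 34) (nat_lit 2) (nat_lit 6) (.i false (nat_lit 4) (nat_lit 2) (.c (nat_lit 55) (nat_lit 51) (.c (nat_lit 0) (nat_lit 16) .nil)) (.i true (nat_lit 4) (nat_lit 2) (.c (nat_lit 48) (nat_lit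 66) (.c (nat_lit 1) (nat_lit 1) .nil)) (.i true (nat_lit 4) (nat_lit 2) (.c (nat_lit 62) (nat_lit 51) (.c (nat_lit 0) (nat_lit 16) .nil)) (.i true (nat_lit 4) (nat_lit 2) (.c (nat_lit 34) (nat_lit 35) (.c (nat_lit 2) (nat_lit 32) .nil)) .nil)))))))))))))))))) .leaf) (nat_lit 19462) (nat_lit 209) (.n (nat_lit 90) (nat_lit 4) (.p (nat_lit 91) (nat_lit 4) (.n (nat_lit 93) (nat_lit 4) (.n (nat_lit 94) (nat_lit 2) (.n (nat_lit 96) (nat_lit 4) (.n (nat_lit 97) (nat_lit 4) (.p (nat_lit 101) (nat_lit 4) (.p (nat_lit 104) (nat_lit 2) .z)))))))) (.ct dzE_c52 (nat_lit 2) (nat_lit 2) (.s true (nat_lit 1) (nat_lit 6) (nat_lit 1) (nat_lit 1) (nat_lit 3) true (nat_lit 1) true (nat_lit 5) true (nat_lit 2) true (nat_lit 7) true (nat_lit 7) (.e false (nat_lit 2) (nat_lit 15) (nat_lit 8) (nat_lit 1) (.e true (nat_lit 2) (nat_lit 32) (nat_lit 3) (nat_lit 5) (.e false (nat_lit 2) (nat_lit 20) (nat_lit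 6) (nat_lit 2) (.e false (nat_lit 2) (nat_lit 52) (nat_lit 1) (nat_lit 7) (.e true (nat_lit 2) (nat_lit 56) (nat_lit 1) (nat_lit 7) (.e false (nat_lit 2) (nat_lit 62) (nat_lit 1) (nat_lit 7) (.e false (nat_lit 10) (nat_lit 52) (nat_lit 1) (nat_lit 7) (.e true (nat_lit 10) (nat_lit 57) (nat_lit 1) (nat_lit 7) (.e true (nat_lit 10) (nat_lit 60) (nat_lit 1) (nat_lit 7) (.e true (nat_lit 10) (nat_lit 61) (nat_lit 1) (nat_lit 7) (.e true (nat_lit 10) (nat_lit 64) (nat_lit 0) (nat_lit 8) (.e false (nat_lit 10) (nat_lit 68) (nat_lit 0) (nat_lit 8) (.i true (nat_lit 4) (nat_lit 2) (.c (nat_lit 52) (nat_lit 51) (.c (nat_lit 1) (nat_lit 1) .nil)) (.i false (nat_lit 4) (nat_lit 2) (.c (nat_lit 57) (nat_lit 51) (.c (nat_lit 1) (nat_lit 1) .nil)) (.i false (nat_lit 4) (nat_lit 2) (.c (nat_lit 60) (nat_lit 51) (.c (nat_lit 1) (nat_lit 1) .nil)) (.i false (nat_lit 4) (nat_lit 2) (.c (nat_lit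 61) (nat_lit 51) (.c (nat_lit 1) (nat_lit 1) .nil)) (.i false (nat_lit 4) (nat_lit 2) (.c (nat_lit 64) (nat_lit 36) (.c (nat_lit 0) (nat_lit 16) .nil)) (.i true (nat_lit 4) (nat_lit 2) (.c (nat_lit 68) (nat_lit 36) (.c (nat_lit 0) (nat_lit 16) .nil)) .nil)))))))))))))))))))) (.nd (.nd .leaf (nat_lit 20480) (nat_lit 45) (.p (nat_lit 36) (nat_lit 2) .z) .df .leaf) (nat_lit 20481) (nat_lit 54) (.p (nat_lit 40) (nat_lit 2) .z) .df .leaf))))))

noncomputable def dzE_t1 : Tr := (.nd (.nd (.nd (.nd (.nd (.nd (.nd .leaf (nat_lit 20483) (nat_lit 115) (.n (nat_lit 64) (nat_lit 2) (.p (nat_lit 65) (nat_lit 2) (.p (nat_lit 71) (nat_lit 2) .z))) (.ct dzE_c36 (nat_lit 2) (nat_lit 3) (.s false (nat_lit 1) (nat_lit 3) (nat_lit 1) (nat_lit 1) (nat_lit 3) true (nat_lit 0) true (nat_lit 3) true (nat_lit 3) true (nat_lit 5) true (nat_lit 5) (.s true (nat_lit 1) (nat_lit 8) (nat_lit 0) (nat_lit 1)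 (nat_lit 1) true (nat_lit 3) true (nat_lit 5) true (nat_lit 0) true (nat_lit 6) true (nat_lit 5) (.e false (nat_lit 2) (nat_lit 19) (nat_lit 3) (nat_lit 3) (.e true (nat_lit 2) (nat_lit 33) (nat_lit 1) (nat_lit 5) (.e false (nat_lit 2) (nat_lit 34) (nat_lit 1) (nat_lit 5) (.e true (nat_lit 2) (nat_lit 35) (nat_lit 1) (nat_lit 5) (.e false (nat_lit 2) (nat_lit 36) (nat_lit 1) (nat_lit 5) (.e true (nat_lit 2) (nat_lit 39) (nat_lit 0) (nat_lit 6) (.e false (nat_lit 2) (nat_lit 41) (nat_lit 0) (nat_lit 6) (.e false (nat_lit 2) (nat_lit 37) (nat_lit 1) (nat_lit 5) .nil))))))))))) .leaf) (nat_lit 20485) (nat_lit 166) (.n (nat_lit 73) (nat_lit 2) (.n (nat_lit 74) (nat_lit 2) (.p (nat_lit 75) (nat_lit 4) (.n (nat_lit 76) (nat_lit 4) (.n (nat_lit 77) (nat_lit 4) (.n (nat_lit 78) (nat_lit 2) (.n (nat_lit 83) (nat_lit 4) (.n (nat_lit 85) (nat_lit 4) (.n (nat_lit 86) (nat_lit 2) (.p (nat_lit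 87) (nat_lit 2) (.p (nat_lit 88) (nat_lit 2) .z))))))))))) (.ct dzE_c67 (nat_lit 2) (nat_lit 3) (.s false (nat_lit 1) (nat_lit 10) (nat_lit 0) (nat_lit 0) (nat_lit 2) true (nat_lit 3) true (nat_lit 6) true (nat_lit 0) true (nat_lit 8) true (nat_lit 8) (.e false (nat_lit 2) (nat_lit 36) (nat_lit 2) (nat_lit 6) (.e false (nat_lit 4) (nat_lit 53) (nat_lit 0) (nat_lit 8) (.e true (nat_lit 4) (nat_lit 54) (nat_lit 0) (nat_lit 8) (.e false (nat_lit 4) (nat_lit 55) (nat_lit 0) (nat_lit 8) (.e true (nat_lit 2) (nat_lit 62) (nat_lit 0) (nat_lit 8) (.e true (nat_lit 10) (nat_lit 62) (nat_lit 0) (nat_lit 8) (.i false (nat_lit 4) (nat_lit 2) (.c (nat_lit 62) (nat_lit 51) (.c (nat_lit 0) (nat_lit 16) .nil)) .nil))))))))) (.nd .leaf (nat_lit 20486) (nat_lit 205) (.n (nat_lit 89) (nat_lit 4) (.n (nat_lit 90) (nat_lit 4) (.p (nat_lit 91) (nat_lit 4) (.n (nat_lit 94) (nat_lit 2) (.n (nat_lit 95)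 (nat_lit 4) (.p (nat_lit 98) (nat_lit 4) (.p (nat_lit 99) (nat_lit 2) (.p (nat_lit 102) (nat_lit 2) (.p (nat_lit 103) (nat_lit 2) (.p (nat_lit 104) (nat_lit 2) .z)))))))))) (.ct dzE_c52 (nat_lit 2) (nat_lit 2) (.s false (nat_lit 1) (nat_lit 20) (nat_lit 0) (nat_lit 0) (nat_lit 1) true (nat_lit 5) true (nat_lit 7) false (nat_lit 2) true (nat_lit 8) true (nat_lit 8) (.e false (nat_lit 2) (nat_lit 36) (nat_lit 3) (nat_lit 5) (.e false (nat_lit 2) (nat_lit 60) (nat_lit 1) (nat_lit 7) (.e true (nat_lit 4) (nat_lit 64) (nat_lit 0) (nat_lit 8) (.e true (nat_lit 2) (nat_lit 65) (nat_lit 0) (nat_lit 8) (.e true (nat_lit 2) (nat_lit 71) (nat_lit 0) (nat_lit 8) (.e true (nat_lit 2) (nat_lit 63) (nat_lit 0) (nat_lit 8) (.e true (nat_lit 2) (nat_lit 67) (nat_lit 0) (nat_lit 8) dzE_i39))))))))) .leaf)) (nat_lit 20487) (nat_lit 208) (.p (nat_lit 90) (nat_lit 2) (.p (nat_lit 93) (nat_lit 4) (.n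 (nat_lit 95) (nat_lit 4) (.n (nat_lit 96) (nat_lit 4) (.n (nat_lit 97) (nat_lit 2) (.n (nat_lit 98) (nat_lit 2) (.p (nat_lit 99) (nat_lit 4) (.p (nat_lit 102) (nat_lit 4) (.n (nat_lit 103) (nat_lit 4) (.p (nat_lit 104) (nat_lit 2) .z)))))))))) (.ct dzE_c52 (nat_lit 2) (nat_lit 2) (.s false (nat_lit 1) (nat_lit 20) (nat_lit 0) (nat_lit 1) (nat_lit 0) true (nat_lit 6) true (nat_lit 8) false (nat_lit 2) true (nat_lit 8) true (nat_lit 7) (.e false (nat_lit 2) (nat_lit 40) (nat_lit 2) (nat_lit 6) (.e false (nat_lit 2) (nat_lit 67) (nat_lit 0) (nat_lit 8) (.e false (nat_lit 2) (nat_lit 64) (nat_lit 0) (nat_lit 8) (.e true (nat_lit 2) (nat_lit 65) (nat_lit 0) (nat_lit 8) (.e true (nat_lit 2) (nat_lit 71) (nat_lit 0) (nat_lit 8) (.e true (nat_lit 2) (nat_lit 60) (nat_lit 1) (nat_lit 7) (.e true (nat_lit 10) (nat_lit 52) (nat_lit 1) (nat_lit 7) (.e false (nat_lit 10) (nat_lit 54) (nat_lit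 1) (nat_lit 7) (.e true (nat_lit 10) (nat_lit 60) (nat_lit 1) (nat_lit 7) (.e true (nat_lit 10) (nat_lit 61) (nat_lit 1) (nat_lit 7) (.e true (nat_lit 10) (nat_lit 68) (nat_lit 0) (nat_lit 8) (.i false (nat_lit 4) (nat_lit 2) (.c (nat_lit 52) (nat_lit 51) (.c (nat_lit 1) (nat_lit 1) .nil)) (.i true (nat_lit 4) (nat_lit 2) (.c (nat_lit 54) (nat_lit 51) (.c (nat_lit 1) (nat_lit 1) .nil)) (.i false (nat_lit 4) (nat_lit 2) (.c (nat_lit 60) (nat_lit 51) (.c (nat_lit 1) (nat_lit 1) .nil)) (.i false (nat_lit 4) (nat_lit 2) (.c (nat_lit 61) (nat_lit 51) (.c (nat_lit 1) (nat_lit 1) .nil)) (.i false (nat_lit 4) (nat_lit 2) (.c (nat_lit 68) (nat_lit 36) (.c (nat_lit 0) (nat_lit 16) .nil)) .nil)))))))))))))))))) (.nd (.nd .leaf (nat_lit 21504) (nat_lit 55) (.p (nat_lit 41) (nat_lit 2) .z) .df .leaf) (nat_lit 21506) (nat_lit 122) (.p (nat_lit 67) (nat_lit 2) (.n (nat_lit 68) (nat_lit 2) (.n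 (nat_lit 70) (nat_lit 2) (.p (nat_lit 71) (nat_lit 2) .z)))) (.ct dzE_c36 (nat_lit 2) (nat_lit 4) (.s true (nat_lit 1) (nat_lit 10) (nat_lit 0) (nat_lit 1) (nat_lit 0) true (nat_lit 4) true (nat_lit 6) false (nat_lit 1) true (nat_lit 6) true (nat_lit 5) (.e false (nat_lit 2) (nat_lit 10) (nat_lit 7) (nat_lit 1) (.e true (nat_lit 2) (nat_lit 41) (nat_lit 0) (nat_lit 6) (.e false (nat_lit 2) (nat_lit 36) (nat_lit 1) (nat_lit 5) .nil))))) .leaf)) (nat_lit 21509) (nat_lit 212) (.n (nat_lit 89) (nat_lit 4) (.p (nat_lit 90) (nat_lit 4) (.p (nat_lit 91) (nat_lit 2) (.p (nat_lit 93) (nat_lit 2) (.n (nat_lit 94) (nat_lit 2) (.n (nat_lit 95) (nat_lit 4) (.p (nat_lit 96) (nat_lit 2) (.p (nat_lit 97) (nat_lit 2) (.p (nat_lit 98) (nat_lit 4) (.p (nat_lit 99) (nat_lit 2) (.p (nat_lit 102) (nat_lit 2) (.p (nat_lit 103) (nat_lit 2) (.p (nat_lit 104) (nat_lit 2) .z))))))))))))) (.ct dzE_c52 (nat_lit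 2) (nat_lit 3) (.s false (nat_lit 1) (nat_lit 21) (nat_lit 0) (nat_lit 0) (nat_lit 0) true (nat_lit 6) true (nat_lit 8) false (nat_lit 3) true (nat_lit 8) true (nat_lit 8) (.e false (nat_lit 2) (nat_lit 41) (nat_lit 2) (nat_lit 6) (.e false (nat_lit 2) (nat_lit 70) (nat_lit 0) (nat_lit 8) (.e true (nat_lit 2) (nat_lit 67) (nat_lit 0) (nat_lit 8) (.e false (nat_lit 2) (nat_lit 68) (nat_lit 0) (nat_lit 8) (.e true (nat_lit 2) (nat_lit 71) (nat_lit 0) (nat_lit 8) (.e true (nat_lit 10) (nat_lit 52) (nat_lit 1) (nat_lit 7) (.e true (nat_lit 10) (nat_lit 59) (nat_lit 1) (nat_lit 7) (.e false (nat_lit 10) (nat_lit 56) (nat_lit 1) (nat_lit 7) (.e false (nat_lit 10) (nat_lit 69) (nat_lit 0) (nat_lit 8) (.i false (nat_lit 4) (nat_lit 2) (.c (nat_lit 52) (nat_lit 51) (.c (nat_lit 1) (nat_lit 1) .nil)) (.i false (nat_lit 4) (nat_lit 2) (.c (nat_lit 59) (nat_lit 51) (.c (nat_lit 1) (nat_lit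 1) .nil)) (.i true (nat_lit 4) (nat_lit 2) (.c (nat_lit 56) (nat_lit 51) (.c (nat_lit 1) (nat_lit 1) .nil)) (.i true (nat_lit 4) (nat_lit 2) (.c (nat_lit 69) (nat_lit 36) (.c (nat_lit 0) (nat_lit 16) .nil)) .nil))))))))))))))) (.nd (.nd (.nd .leaf (nat_lit 22529) (nat_lit 72) (.n (nat_lit 42) (nat_lit 2) (.p (nat_lit 43) (nat_lit 4) (.n (nat_lit 44) (nat_lit 2) (.p (nat_lit 45) (nat_lit 2) (.p (nat_lit 47) (nat_lit 2) (.p (nat_lit 48) (nat_lit 2) (.n (nat_lit 49) (nat_lit 4) (.p (nat_lit 51) (nat_lit 2) .z)))))))) (.ct dzE_c66 (nat_lit 2) (nat_lit 5) (.s true (nat_lit 1) (nat_lit 3) (nat_lit 0) (nat_lit 2) (nat_lit 1) true (nat_lit 3) true (nat_lit 5) true (nat_lit 3) true (nat_lit 6) true (nat_lit 4) (.e false (nat_lit 4) (nat_lit 12) (nat_lit 3) (nat_lit 3) (.e true (nat_lit 2) (nat_lit 13) (nat_lit 3) (nat_lit 3) (.e false (nat_lit 2) (nat_lit 24) (nat_lit 1) (nat_lit 5) (.e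 false (nat_lit 2) (nat_lit 31) (nat_lit 0) (nat_lit 6) (.e true (nat_lit 2) (nat_lit 17) (nat_lit 2) (nat_lit 4) .nil))))))) .leaf) (nat_lit 22532) (nat_lit 155) (.n (nat_lit 73) (nat_lit 4) (.p (nat_lit 74) (nat_lit 4) (.n (nat_lit 76) (nat_lit 2) (.n (nat_lit 78) (nat_lit 4) (.p (nat_lit 79) (nat_lit 2) (.n (nat_lit 80) (nat_lit 4) (.p (nat_lit 81) (nat_lit 2) (.p (nat_lit 83) (nat_lit 4) (.p (nat_lit 86) (nat_lit 4) (.n (nat_lit 87) (nat_lit 4) (.p (nat_lit 88) (nat_lit 2) .z))))))))))) (.ct dzE_c67 (nat_lit 2) (nat_lit 4) (.s false (nat_lit 1) (nat_lit 5) (nat_lit 1) (nat_lit 0) (nat_lit 4) true (nat_lit 0) true (nat_lit 4) true (nat_lit 3) true (nat_lit 7) true (nat_lit 8) dzE_i17)) (.nd .leaf (nat_lit 23553) (nat_lit 59) (.p (nat_lit 42) (nat_lit 2) .z) .df .leaf)) (nat_lit 23556) (nat_lit 156) (.n (nat_lit 73) (nat_lit 2) (.n (nat_lit 74) (nat_lit 2) (.n (nat_lit 78) (nat_lit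 4) (.p (nat_lit 79) (nat_lit 4) (.p (nat_lit 83) (nat_lit 4) (.n (nat_lit 86) (nat_lit 4) (.n (nat_lit 87) (nat_lit 2) (.n (nat_lit 88) (nat_lit 2) .z)))))))) (.ct dzE_c67 (nat_lit 2) (nat_lit 4) (.s false (nat_lit 1) (nat_lit 5) (nat_lit 4) (nat_lit 0) (nat_lit 1) true (nat_lit 0) true (nat_lit 7) true (nat_lit 3) true (nat_lit 4) true (nat_lit 8) (.s true (nat_lit 1) (nat_lit 11) (nat_lit 1) (nat_lit 1) (nat_lit 1) true (nat_lit 4) true (nat_lit 7) false (nat_lit 0) true (nat_lit 7) true (nat_lit 7) (.s false (nat_lit 1) (nat_lit 19) (nat_lit 0) (nat_lit 0) (nat_lit 0) true (nat_lit 6) true (nat_lit 8) false (nat_lit 3) true (nat_lit 8) true (nat_lit 8) (.e true (nat_lit 2) (nat_lit 42) (nat_lit 1) (nat_lit 7) (.e false (nat_lit 2) (nat_lit 44) (nat_lit 1) (nat_lit 7) (.e false (nat_lit 2) (nat_lit 48) (nat_lit 1) (nat_lit 7) (.e true (nat_lit 4) (nat_lit 59) (nat_lit 0) (nat_lit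 8) (.e false (nat_lit 4) (nat_lit 60) (nat_lit 0) (nat_lit 8) (.e false (nat_lit 4) (nat_lit 61) (nat_lit 0) (nat_lit 8) (.e false (nat_lit 2) (nat_lit 35) (nat_lit 2) (nat_lit 6) (.e true (nat_lit 4) (nat_lit 57) (nat_lit 0) (nat_lit 8) (.e false (nat_lit 4) (nat_lit 58) (nat_lit 0) (nat_lit 8) (.e false (nat_lit 10) (nat_lit 48) (nat_lit 1) (nat_lit 7) (.e true (nat_lit 20) (nat_lit 55) (nat_lit 0) (nat_lit 8) (.e false (nat_lit 20) (nat_lit 62) (nat_lit 0) (nat_lit 8) (.e false (nat_lit 10) (nat_lit 34) (nat_lit 2) (nat_lit 6) (.i true (nat_lit 4) (nat_lit 2) (.c (nat_lit 48) (nat_lit 66) (.c (nat_lit 1) (nat_lit 1) .nil)) (.i false (nat_lit 8) (nat_lit 2) (.c (nat_lit 55) (nat_lit 51) (.c (nat_lit 0) (nat_lit 16) .nil)) (.i true (nat_lit 8) (nat_lit 2) (.c (nat_lit 62) (nat_lit 51) (.c (nat_lit 0) (nat_lit 16) .nil)) (.i true (nat_lit 4) (nat_lit 2) (.c (nat_lit 34) (nat_lit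 35) (.c (nat_lit 2) (nat_lit 32) .nil)) .nil))))))))))))))))))))) (.nd (.nd .leaf (nat_lit 24577) (nat_lit 60) (.p (nat_lit 43) (nat_lit 2) .z) .df .leaf) (nat_lit 24580) (nat_lit 157) (.n (nat_lit 73) (nat_lit 2) (.n (nat_lit 74) (nat_lit 2) (.p (nat_lit 75) (nat_lit 4) (.n (nat_lit 76) (nat_lit 2) (.n (nat_lit 78) (nat_lit 2) (.n (nat_lit 83) (nat_lit 4) (.n (nat_lit 85) (nat_lit 4) (.p (nat_lit 86) (nat_lit 4) (.n (nat_lit 87) (nat_lit 4) (.p (nat_lit 88) (nat_lit 2) .z)))))))))) (.ct dzE_c67 (nat_lit 1) (nat_lit 4) (.s false (nat_lit 1) (nat_lit 4) (nat_lit 2) (nat_lit 1) (nat_lit 2) false (nat_lit 0) true (nat_lit 6) true (nat_lit 4) true (nat_lit 6) true (nat_lit 7) (.s true (nat_lit 1) (nat_lit 6) (nat_lit 2) (nat_lit 1) (nat_lit 1) true (nat_lit 2) true (nat_lit 7) true (nat_lit 2) true (nat_lit 6) true (nat_lit 7) (.e true (nat_lit 1) (nat_lit 33) (nat_lit 2) (nat_lit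 6) (.e false (nat_lit 1) (nat_lit 34) (nat_lit 2) (nat_lit 6) (.e false (nat_lit 1) (nat_lit 23) (nat_lit 4) (nat_lit 4) (.e false (nat_lit 1) (nat_lit 51) (nat_lit 1) (nat_lit 7) (.e false (nat_lit 2) (nat_lit 42) (nat_lit 1) (nat_lit 7) (.e false (nat_lit 1) (nat_lit 43) (nat_lit 1) (nat_lit 7) (.e false (nat_lit 2) (nat_lit 44) (nat_lit 1) (nat_lit 7) (.e false (nat_lit 2) (nat_lit 48) (nat_lit 1) (nat_lit 7) (.e false (nat_lit 5) (nat_lit 33) (nat_lit 2) (nat_lit 6) (.e true (nat_lit 5) (nat_lit 62) (nat_lit 0) (nat_lit 8) (.e true (nat_lit 5) (nat_lit 48) (nat_lit 1) (nat_lit 7) (.i false (nat_lit 2) (nat_lit 2) (.c (nat_lit 24) (nat_lit 65) (.c (nat_lit 4) (nat_lit 2) .nil)) (.i false (nat_lit 2) (nat_lit 2) (.c (nat_lit 33) (nat_lit 35) (.c (nat_lit 2) (nat_lit 32) .nil)) (.i true (nat_lit 2) (nat_lit 2) (.c (nat_lit 34) (nat_lit 35) (.c (nat_lit 2) (nat_lit 32) .nil))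 (.i true (nat_lit 2) (nat_lit 2) (.c (nat_lit 23) (nat_lit 65) (.c (nat_lit 4) (nat_lit 2) .nil)) (.i true (nat_lit 2) (nat_lit 2) (.c (nat_lit 51) (nat_lit 66) (.c (nat_lit 1) (nat_lit 1) .nil)) (.i true (nat_lit 2) (nat_lit 2) (.c (nat_lit 43) (nat_lit 66) (.c (nat_lit 1) (nat_lit 1) .nil)) (.i true (nat_lit 2) (nat_lit 2) (.c (nat_lit 33) (nat_lit 35) (.c (nat_lit 2) (nat_lit 32) .nil)) (.i false (nat_lit 2) (nat_lit 2) (.c (nat_lit 62) (nat_lit 51) (.c (nat_lit 0) (nat_lit 16) .nil)) (.i false (nat_lit 2) (nat_lit 2) (.c (nat_lit 48) (nat_lit 66) (.c (nat_lit 1) (nat_lit 1) .nil)) .nil))))))))))))))))))))))) .leaf))) (nat_lit 26624) (nat_lit 61) (.p (nat_lit 44) (nat_lit 2) .z) .df (.nd (.nd (.nd (.nd .leaf (nat_lit 26625) (nat_lit 95) (.p (nat_lit 52) (nat_lit 2) (.n (nat_lit 53) (nat_lit 6) (.p (nat_lit 54) (nat_lit 6) (.n (nat_lit 55) (nat_lit 4) (.p (nat_lit 56) (nat_lit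 2) (.n (nat_lit 58) (nat_lit 4) (.p (nat_lit 59) (nat_lit 4) (.n (nat_lit 60) (nat_lit 2) (.n (nat_lit 61) (nat_lit 4) .z))))))))) (.ct dzE_c51 (nat_lit 2) (nat_lit 5) (.s false (nat_lit 1) (nat_lit 3) (nat_lit 0) (nat_lit 1) (nat_lit 3) true (nat_lit 0) true (nat_lit 3) true (nat_lit 3) true (nat_lit 6) true (nat_lit 5) (.s true (nat_lit 1) (nat_lit 8) (nat_lit 1) (nat_lit 0) (nat_lit 0) true (nat_lit 3) true (nat_lit 6) false (nat_lit 0) true (nat_lit 5) true (nat_lit 6) (.e false (nat_lit 2) (nat_lit 16) (nat_lit 3) (nat_lit 3) (.e true (nat_lit 2) (nat_lit 17) (nat_lit 3) (nat_lit 3) (.e true (nat_lit 2) (nat_lit 37) (nat_lit 0) (nat_lit 6) (.e false (nat_lit 2) (nat_lit 27) (nat_lit 1) (nat_lit 5) (.e true (nat_lit 4) (nat_lit 29) (nat_lit 1) (nat_lit 5) (.e false (nat_lit 4) (nat_lit 30) (nat_lit 1) (nat_lit 5) (.e true (nat_lit 2) (nat_lit 31) (nat_lit 1) (nat_lit 5) .nil))))))))))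 .leaf) (nat_lit 26627) (nat_lit 150) (.n (nat_lit 73) (nat_lit 4) (.p (nat_lit 74) (nat_lit 2) (.n (nat_lit 75) (nat_lit 4) (.n (nat_lit 76) (nat_lit 4) (.p (nat_lit 77) (nat_lit 4) (.p (nat_lit 78) (nat_lit 4) (.p (nat_lit 79) (nat_lit 4) (.p (nat_lit 80) (nat_lit 4) (.n (nat_lit 82) (nat_lit 2) (.p (nat_lit 83) (nat_lit 2) (.p (nat_lit 85) (nat_lit 4) (.n (nat_lit 86) (nat_lit 4) (.p (nat_lit 87) (nat_lit 2) (.p (nat_lit 88) (nat_lit 4) .z)))))))))))))) (.ct dzE_c67 (nat_lit 2) (nat_lit 5) (.s false (nat_lit 1) (nat_lit 5) (nat_lit 4) (nat_lit 0) (nat_lit 1) true (nat_lit 0) true (nat_lit 7) true (nat_lit 3) true (nat_lit 4) true (nat_lit 8) (.s true (nat_lit 1) (nat_lit 11) (nat_lit 1) (nat_lit 1) (nat_lit 1) true (nat_lit 4) true (nat_lit 7) false (nat_lit 0) true (nat_lit 7) true (nat_lit 7) (.s true (nat_lit 1) (nat_lit 12) (nat_lit 0) (nat_lit 1) (nat_lit 1) true (nat_lit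 5) true (nat_lit 7) false (nat_lit 1) true (nat_lit 8) true (nat_lit 7) (.s false (nat_lit 1) (nat_lit 12) (nat_lit 1) (nat_lit 0) (nat_lit 1) true (nat_lit 4) true (nat_lit 7) false (nat_lit 1) true (nat_lit 7) true (nat_lit 8) (.s false (nat_lit 1) (nat_lit 19) (nat_lit 0) (nat_lit 0) (nat_lit 0) true (nat_lit 6) true (nat_lit 8) false (nat_lit 3) true (nat_lit 8) true (nat_lit 8) (.e true (nat_lit 4) (nat_lit 42) (nat_lit 1) (nat_lit 7) (.e true (nat_lit 4) (nat_lit 44) (nat_lit 1) (nat_lit 7) dzE_i13)))))))) (.nd .leaf (nat_lit 26628) (nat_lit 191) (.p (nat_lit 89) (nat_lit 2) (.p (nat_lit 90) (nat_lit 2) (.p (nat_lit 91) (nat_lit 4) (.p (nat_lit 92) (nat_lit 2) (.p (nat_lit 93) (nat_lit 2) (.n (nat_lit 94) (nat_lit 4) (.p (nat_lit 95) (nat_lit 4) (.n (nat_lit 101) (nat_lit 2) (.n (nat_lit 102) (nat_lit 2) (.p (nat_lit 103) (nat_lit 2) (.p (nat_lit 104) (nat_lit 2) .z)))))))))))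 (.ct dzE_c52 (nat_lit 2) (nat_lit 4) (.s false (nat_lit 2) (nat_lit 4) (nat_lit 0) (nat_lit 4) (nat_lit 2) true (nat_lit 3) true (nat_lit 6) true (nat_lit 4) true (nat_lit 8) true (nat_lit 4) (.s true (nat_lit 1) (nat_lit 4) (nat_lit 1) (nat_lit 3) (nat_lit 2) true (nat_lit 2) true (nat_lit 6) true (nat_lit 4) true (nat_lit 7) true (nat_lit 5) (.s false (nat_lit 1) (nat_lit 6) (nat_lit 1) (nat_lit 1) (nat_lit 3) true (nat_lit 1) true (nat_lit 5) true (nat_lit 2) true (nat_lit 7) true (nat_lit 7) (.s true (nat_lit 1) (nat_lit 6) (nat_lit 1) (nat_lit 3) (nat_lit 1) true (nat_lit 4) true (nat_lit 7) true (nat_lit 2) true (nat_lit 7) true (nat_lit 5) (.s false (nat_lit 2) (nat_lit 8) (nat_lit 1) (nat_lit 3) (nat_lit 0) true (nat_lit 5) true (nat_lit 8) true (nat_lit 1) true (nat_lit 7) true (nat_lit 5) (.s false (nat_lit 1) (nat_lit 8) (nat_lit 2) (nat_lit 1) (nat_lit 1) true (nat_lit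 2) true (nat_lit 7) true (nat_lit 1) true (nat_lit 6) true (nat_lit 7) (.s true (nat_lit 2) (nat_lit 8) (nat_lit 3) (nat_lit 0) (nat_lit 1) true (nat_lit 1) true (nat_lit 7) true (nat_lit 1) true (nat_lit 5) true (nat_lit 8) (.s true (nat_lit 2) (nat_lit 9) (nat_lit 4) (nat_lit 0) (nat_lit 0) true (nat_lit 1) true (nat_lit 8) true (nat_lit 1) true (nat_lit 4) true (nat_lit 8) (.s true (nat_lit 2) (nat_lit 16) (nat_lit 0) (nat_lit 1) (nat_lit 1) true (nat_lit 5) true (nat_lit 7) false (nat_lit 1) true (nat_lit 8) true (nat_lit 7) (.e false (nat_lit 2) (nat_lit 27) (nat_lit 4) (nat_lit 4) (.e true (nat_lit 4) (nat_lit 63) (nat_lit 0) (nat_lit 8) (.e false (nat_lit 2) (nat_lit 64) (nat_lit 0) (nat_lit 8) (.e true (nat_lit 4) (nat_lit 65) (nat_lit 0) (nat_lit 8) (.e true (nat_lit 2) (nat_lit 29) (nat_lit 4) (nat_lit 4) (.e false (nat_lit 2) (nat_lit 30) (nat_lit 4) (nat_lit 4) (.e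 true (nat_lit 4) (nat_lit 55) (nat_lit 1) (nat_lit 7) (.e false (nat_lit 4) (nat_lit 57) (nat_lit 1) (nat_lit 7) dzE_i28)))))))))))))))))) .leaf)) (nat_lit 27648) (nat_lit 62) (.p (nat_lit 45) (nat_lit 2) .z) .df (.nd (.nd .leaf (nat_lit 27649) (nat_lit 94) (.p (nat_lit 52) (nat_lit 2) (.p (nat_lit 56) (nat_lit 2) (.n (nat_lit 57) (nat_lit 2) (.n (nat_lit 58) (nat_lit 2) (.p (nat_lit 59) (nat_lit 2) .z))))) (.ct dzE_c51 (nat_lit 2) (nat_lit 5) (.s false (nat_lit 1) (nat_lit 3) (nat_lit 2) (nat_lit 1) (nat_lit 1) true (nat_lit 0) true (nat_lit 5) true (nat_lit 3) true (nat_lit 4) true (nat_lit 5) (.s false (nat_lit 1) (nat_lit 4) (nat_lit 2) (nat_lit 1) (nat_lit 0) true (nat_lit 1) true (nat_lit 6) true (nat_lit 2) true (nat_lit 4) true (nat_lit 5) (.s true (nat_lit 1) (nat_lit 5) (nat_lit 1) (nat_lit 1) (nat_lit 1) true (nat_lit 2) true (nat_lit 5) true (nat_lit 1) true (nat_lit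 5) true (nat_lit 5) (.s true (nat_lit 1) (nat_lit 6) (nat_lit 1) (nat_lit 0) (nat_lit 1) true (nat_lit 2) true (nat_lit 5) true (nat_lit 0) true (nat_lit 5) true (nat_lit 6) (.s true (nat_lit 1) (nat_lit 7) (nat_lit 1) (nat_lit 1) (nat_lit 0) true (nat_lit 3) true (nat_lit 6) true (nat_lit 0) true (nat_lit 5) true (nat_lit 5) (.s false (nat_lit 1) (nat_lit 9) (nat_lit 1) (nat_lit 0) (nat_lit 0) true (nat_lit 3) true (nat_lit 6) false (nat_lit 0) true (nat_lit 5) true (nat_lit 6) (.e false (nat_lit 2) (nat_lit 30) (nat_lit 1) (nat_lit 5) (.e true (nat_lit 6) (nat_lit 34) (nat_lit 0) (nat_lit 6) (.e true (nat_lit 2) (nat_lit 12) (nat_lit 4) (nat_lit 2) (.e false (nat_lit 4) (nat_lit 32) (nat_lit 0) (nat_lit 6) (.e false (nat_lit 2) (nat_lit 17) (nat_lit 3) (nat_lit 3) (.e false (nat_lit 2) (nat_lit 35) (nat_lit 0) (nat_lit 6) .nil))))))))))))) .leaf) (nat_lit 27651) (nat_lit 145)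 (.n (nat_lit 73) (nat_lit 2) (.n (nat_lit 74) (nat_lit 2) (.n (nat_lit 75) (nat_lit 2) (.n (nat_lit 76) (nat_lit 2) (.p (nat_lit 77) (nat_lit 4) (.p (nat_lit 78) (nat_lit 2) (.p (nat_lit 79) (nat_lit 4) (.p (nat_lit 80) (nat_lit 4) (.n (nat_lit 81) (nat_lit 2) (.p (nat_lit 85) (nat_lit 4) (.p (nat_lit 86) (nat_lit 2) (.n (nat_lit 87) (nat_lit 4) (.p (nat_lit 88) (nat_lit 4) .z))))))))))))) (.ct dzE_c67 (nat_lit 2) (nat_lit 5) (.s true (nat_lit 2) (nat_lit 3) (nat_lit 1) (nat_lit 3) (nat_lit 2) true (nat_lit 2) true (nat_lit 6) true (nat_lit 5) true (nat_lit 7) true (nat_lit 5) (.s true (nat_lit 2) (nat_lit 4) (nat_lit 2) (nat_lit 2) (nat_lit 1) true (nat_lit 2) true (nat_lit 7) true (nat_lit 4) true (nat_lit 6) true (nat_lit 6) (.s true (nat_lit 1) (nat_lit 5) (nat_lit 0) (nat_lit 4) (nat_lit 1) true (nat_lit 5) true (nat_lit 7) true (nat_lit 3) true (nat_lit 8) true (nat_lit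 4) (.s true (nat_lit 2) (nat_lit 5) (nat_lit 1) (nat_lit 0) (nat_lit 4) true (nat_lit 0) true (nat_lit 4) true (nat_lit 3) true (nat_lit 7) true (nat_lit 8) (.s false (nat_lit 2) (nat_lit 5) (nat_lit 4) (nat_lit 0) (nat_lit 1) true (nat_lit 0) true (nat_lit 7) true (nat_lit 3) true (nat_lit 4) true (nat_lit 8) (.s false (nat_lit 2) (nat_lit 6) (nat_lit 0) (nat_lit 1) (nat_lit 3) true (nat_lit 2) true (nat_lit 5) true (nat_lit 2) true (nat_lit 8) true (nat_lit 7) (.s true (nat_lit 1) (nat_lit 6) (nat_lit 0) (nat_lit 3) (nat_lit 1) true (nat_lit 5) true (nat_lit 7) true (nat_lit 2) true (nat_lit 8) true (nat_lit 5) (.s true (nat_lit 1) (nat_lit 6) (nat_lit 2) (nat_lit 1) (nat_lit 1) true (nat_lit 2) true (nat_lit 7) true (nat_lit 2) true (nat_lit 6) true (nat_lit 7) (.s false (nat_lit 1) (nat_lit 7) (nat_lit 2) (nat_lit 1) (nat_lit 1) true (nat_lit 2) true (nat_lit 7) true (nat_lit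 2) true (nat_lit 6) true (nat_lit 7) (.s false (nat_lit 1) (nat_lit 6) (nat_lit 3) (nat_lit 0) (nat_lit 1) true (nat_lit 1) true (nat_lit 7) true (nat_lit 2) true (nat_lit 5) true (nat_lit 8) (.s true (nat_lit 1) (nat_lit 6) (nat_lit 3) (nat_lit 1) (nat_lit 0) true (nat_lit 2) true (nat_lit 8) true (nat_lit 2) true (nat_lit 5) true (nat_lit 7) (.s false (nat_lit 1) (nat_lit 8) (nat_lit 0) (nat_lit 2) (nat_lit 1) true (nat_lit 5) true (nat_lit 7) true (nat_lit 1) true (nat_lit 8) true (nat_lit 6) (.s true (nat_lit 2) (nat_lit 10) (nat_lit 2) (nat_lit 0) (nat_lit 0) true (nat_lit 3) true (nat_lit 8) true (nat_lit 0) true (nat_lit 6) true (nat_lit 8) (.s true (nat_lit 2) (nat_lit 11) (nat_lit 1) (nat_lit 1) (nat_lit 1) true (nat_lit 4) true (nat_lit 7) false (nat_lit 0) true (nat_lit 7) true (nat_lit 7) (.s true (nat_lit 1) (nat_lit 12) (nat_lit 0) (nat_lit 1) (nat_lit 1) true (nat_lit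 5) true (nat_lit 7) false (nat_lit 1) true (nat_lit 8) true (nat_lit 7) (.s true (nat_lit 1) (nat_lit 13) (nat_lit 0) (nat_lit 1) (nat_lit 1) true (nat_lit 5) true (nat_lit 7) false (nat_lit 1) true (nat_lit 8) true (nat_lit 7) (.e false (nat_lit 2) (nat_lit 34) (nat_lit 2) (nat_lit 6) (.e true (nat_lit 4) (nat_lit 35) (nat_lit 2) (nat_lit 6) (.e false (nat_lit 4) (nat_lit 36) (nat_lit 2) (nat_lit 6) dzE_i7)))))))))))))))))))) .leaf)) (nat_lit 27652) (nat_lit 184) (.p (nat_lit 104) (nat_lit 2) .z) .df (.nd (.nd (.nd .leaf (nat_lit 28672) (nat_lit 73) (.p (nat_lit 42) (nat_lit 2) (.n (nat_lit 43) (nat_lit 2) (.p (nat_lit 44) (nat_lit 2) (.n (nat_lit 47) (nat_lit 2) (.p (nat_lit 48) (nat_lit 2) (.p (nat_lit 49) (nat_lit 2) (.n (nat_lit 51) (nat_lit 4) .z))))))) (.ct dzE_c66 (nat_lit 2) (nat_lit 6) (.s true (nat_lit 1) (nat_lit 6) (nat_lit 1) (nat_lit 0) (nat_lit 0) true (nat_lit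 3) true (nat_lit 6) true (nat_lit 0) true (nat_lit 5) true (nat_lit 6) (.e true (nat_lit 2) (nat_lit 13) (nat_lit 3) (nat_lit 3) (.e false (nat_lit 2) (nat_lit 7) (nat_lit 6) (nat_lit 0) (.e true (nat_lit 4) (nat_lit 23) (nat_lit 1) (nat_lit 5) (.e false (nat_lit 4) (nat_lit 24) (nat_lit 1) (nat_lit 5) (.e false (nat_lit 2) (nat_lit 27) (nat_lit 0) (nat_lit 6) .nil))))))) .leaf) (nat_lit 28673) (nat_lit 80) (.p (nat_lit 52) (nat_lit 2) .z) .df .leaf) (nat_lit 28675) (nat_lit 152) (.p (nat_lit 73) (nat_lit 4) (.p (nat_lit 74) (nat_lit 2) (.p (nat_lit 75) (nat_lit 4) (.n (nat_lit 76) (nat_lit 2) (.p (nat_lit 77) (nat_lit 4) (.n (nat_lit 78) (nat_lit 4) (.p (nat_lit 83) (nat_lit 4) (.n (nat_lit 85) (nat_lit 4) (.n (nat_lit 86) (nat_lit 4) (.n (nat_lit 87) (nat_lit 4) .z)))))))))) (.ct dzE_c67 (nat_lit 2) (nat_lit 5) (.s true (nat_lit 1) (nat_lit 6) (nat_lit 0) (nat_lit 3) (nat_lit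 1) true (nat_lit 5) true (nat_lit 7) true (nat_lit 2) true (nat_lit 8) true (nat_lit 5) (.s false (nat_lit 1) (nat_lit 16) (nat_lit 0) (nat_lit 0) (nat_lit 1) true (nat_lit 5) true (nat_lit 7) false (nat_lit 2) true (nat_lit 8) true (nat_lit 8) (.s false (nat_lit 1) (nat_lit 16) (nat_lit 0) (nat_lit 1) (nat_lit 0) true (nat_lit 6) true (nat_lit 8) false (nat_lit 2) true (nat_lit 8) true (nat_lit 7) (.s true (nat_lit 1) (nat_lit 16) (nat_lit 1) (nat_lit 0) (nat_lit 0) true (nat_lit 5) true (nat_lit 8) false (nat_lit 2) true (nat_lit 7) true (nat_lit 8) (.e false (nat_lit 2) (nat_lit 31) (nat_lit 3) (nat_lit 5) (.e true (nat_lit 2) (nat_lit 49) (nat_lit 1) (nat_lit 7) (.e false (nat_lit 4) (nat_lit 52) (nat_lit 0) (nat_lit 8) (.e true (nat_lit 4) (nat_lit 56) (nat_lit 0) (nat_lit 8) (.e false (nat_lit 4) (nat_lit 62) (nat_lit 0) (nat_lit 8) (.e true (nat_lit 2) (nat_lit 53) (nat_lit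 0) (nat_lit 8) (.e true (nat_lit 4) (nat_lit 58) (nat_lit 0) (nat_lit 8) (.e true (nat_lit 4) (nat_lit 57) (nat_lit 0) (nat_lit 8) (.e false (nat_lit 2) (nat_lit 33) (nat_lit 2) (nat_lit 6) (.e false (nat_lit 2) (nat_lit 51) (nat_lit 1) (nat_lit 7) (.e false (nat_lit 10) (nat_lit 42) (nat_lit 1) (nat_lit 7) (.e false (nat_lit 10) (nat_lit 44) (nat_lit 1) (nat_lit 7) dzE_i15))))))))))))))))) (.nd (.nd .leaf (nat_lit 28676) (nat_lit 204) (.n (nat_lit 89) (nat_lit 2) (.n (nat_lit 90) (nat_lit 4) (.p (nat_lit 91) (nat_lit 4) (.p (nat_lit 92) (nat_lit 4) (.p (nat_lit 94) (nat_lit 4) (.p (nat_lit 95) (nat_lit 2) (.n (nat_lit 96) (nat_lit 4) (.n (nat_lit 97) (nat_lit 4) (.p (nat_lit 104) (nat_lit 2) .z))))))))) (.ct dzE_c52 (nat_lit 2) (nat_lit 4) (.s true (nat_lit 1) (nat_lit 9) (nat_lit 4) (nat_lit 0) (nat_lit 0) true (nat_lit 1) true (nat_lit 8) true (nat_lit 1) true (nat_lit 4) true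 (nat_lit 8) dzE_i38)) .leaf) (nat_lit 29696) (nat_lit 63) (.p (nat_lit 46) (nat_lit 2) .z) .df .leaf)))) (nat_lit 29697) (nat_lit 81) (.p (nat_lit 53) (nat_lit 2) .z) .df (.nd (.nd (.nd (.nd (.nd .leaf (nat_lit 29699) (nat_lit 136) (.p (nat_lit 84) (nat_lit 2) .z) .df .leaf) (nat_lit 29700) (nat_lit 189) (.p (nat_lit 89) (nat_lit 2) (.p (nat_lit 90) (nat_lit 2) (.n (nat_lit 91) (nat_lit 4) (.p (nat_lit 92) (nat_lit 4) (.p (nat_lit 93) (nat_lit 4) (.p (nat_lit 95) (nat_lit 2) (.p (nat_lit 96) (nat_lit 2) (.p (nat_lit 97) (nat_lit 2) (.p (nat_lit 101) (nat_lit 4) (.p (nat_lit 102) (nat_lit 4) (.n (nat_lit 103) (nat_lit 2) (.p (nat_lit 104) (nat_lit 2) .z)))))))))))) (.ct dzE_c52 (nat_lit 2) (nat_lit 4) (.s true (nat_lit 1) (nat_lit 4) (nat_lit 0) (nat_lit 4) (nat_lit 2) true (nat_lit 3) true (nat_lit 6) true (nat_lit 4) true (nat_lit 8) true (nat_lit 4) (.s false (nat_lit 1) (nat_lit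 4) (nat_lit 3) (nat_lit 0) (nat_lit 3) false (nat_lit 1) true (nat_lit 5) true (nat_lit 4) true (nat_lit 5) true (nat_lit 8) (.s false (nat_lit 2) (nat_lit 5) (nat_lit 1) (nat_lit 1) (nat_lit 4) true (nat_lit 0) true (nat_lit 4) true (nat_lit 3) true (nat_lit 7) true (nat_lit 7) (.s false (nat_lit 1) (nat_lit 6) (nat_lit 1) (nat_lit 0) (nat_lit 4) true (nat_lit 0) true (nat_lit 4) true (nat_lit 2) true (nat_lit 7) true (nat_lit 8) (.s false (nat_lit 2) (nat_lit 6) (nat_lit 1) (nat_lit 1) (nat_lit 3) true (nat_lit 1) true (nat_lit 5) true (nat_lit 2) true (nat_lit 7) true (nat_lit 7) (.s true (nat_lit 2) (nat_lit 6) (nat_lit 4) (nat_lit 1) (nat_lit 0) true (nat_lit 1) true (nat_lit 8) true (nat_lit 2) true (nat_lit 4) true (nat_lit 7) (.s true (nat_lit 2) (nat_lit 9) (nat_lit 1) (nat_lit 1) (nat_lit 2) true (nat_lit 2) true (nat_lit 6) true (nat_lit 1) true (nat_lit 7) true (nat_lit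 7) (.s true (nat_lit 2) (nat_lit 9) (nat_lit 2) (nat_lit 1) (nat_lit 1) true (nat_lit 2) true (nat_lit 7) true (nat_lit 1) true (nat_lit 6) true (nat_lit 7) (.s false (nat_lit 1) (nat_lit 9) (nat_lit 3) (nat_lit 0) (nat_lit 1) true (nat_lit 1) true (nat_lit 7) true (nat_lit 1) true (nat_lit 5) true (nat_lit 8) (.s true (nat_lit 1) (nat_lit 9) (nat_lit 4) (nat_lit 0) (nat_lit 0) true (nat_lit 1) true (nat_lit 8) true (nat_lit 1) true (nat_lit 4) true (nat_lit 8) (.s true (nat_lit 2) (nat_lit 10) (nat_lit 0) (nat_lit 0) (nat_lit 3) true (nat_lit 2) true (nat_lit 5) true (nat_lit 0) true (nat_lit 8) true (nat_lit 8) (.s false (nat_lit 2) (nat_lit 13) (nat_lit 1) (nat_lit 1) (nat_lit 1) true (nat_lit 4) true (nat_lit 7) false (nat_lit 0) true (nat_lit 7) true (nat_lit 7) (.s true (nat_lit 2) (nat_lit 15) (nat_lit 0) (nat_lit 1) (nat_lit 1) true (nat_lit 5) true (nat_lit 7) false (nat_lit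 1) true (nat_lit 8) true (nat_lit 7) (.s true (nat_lit 1) (nat_lit 17) (nat_lit 0) (nat_lit 1) (nat_lit 1) true (nat_lit 5) true (nat_lit 7) false (nat_lit 1) true (nat_lit 8) true (nat_lit 7) dzE_i26))))))))))))))) (.nd .leaf (nat_lit 30720) (nat_lit 71) (.p (nat_lit 42) (nat_lit 2) (.n (nat_lit 43) (nat_lit 2) (.p (nat_lit 44) (nat_lit 2) (.n (nat_lit 45) (nat_lit 2) (.p (nat_lit 46) (nat_lit 2) (.p (nat_lit 49) (nat_lit 2) (.n (nat_lit 51) (nat_lit 2) .z))))))) (.ct dzE_c66 (nat_lit 2) (nat_lit 6) (.s true (nat_lit 1) (nat_lit 3) (nat_lit 0) (nat_lit 0) (nat_lit 3) true (nat_lit 0) true (nat_lit 3) true (nat_lit 3) true (nat_lit 6) true (nat_lit 6) (.s false (nat_lit 1) (nat_lit 3) (nat_lit 0) (nat_lit 2) (nat_lit 1) true (nat_lit 3) true (nat_lit 5) true (nat_lit 3) true (nat_lit 6) true (nat_lit 4) (.s false (nat_lit 1) (nat_lit 7) (nat_lit 1) (nat_lit 0) (nat_lit 0) true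 (nat_lit 3) true (nat_lit 6) true (nat_lit 0) true (nat_lit 5) true (nat_lit 6) (.e true (nat_lit 2) (nat_lit 12) (nat_lit 3) (nat_lit 3) (.e false (nat_lit 2) (nat_lit 29) (nat_lit 0) (nat_lit 6) (.e false (nat_lit 2) (nat_lit 17) (nat_lit 2) (nat_lit 4) .nil))))))) .leaf)) (nat_lit 30721) (nat_lit 82) (.p (nat_lit 54) (nat_lit 2) .z) .df (.nd (.nd .leaf (nat_lit 30723) (nat_lit 154) (.p (nat_lit 76) (nat_lit 4) (.n (nat_lit 77) (nat_lit 2) (.p (nat_lit 78) (nat_lit 2) (.p (nat_lit 83) (nat_lit 4) (.p (nat_lit 84) (nat_lit 2) .z))))) (.ct dzE_c67 (nat_lit 1) (nat_lit 5) (.s true (nat_lit 1) (nat_lit 3) (nat_lit 1) (nat_lit 3) (nat_lit 2) true (nat_lit 2) true (nat_lit 6) true (nat_lit 5) true (nat_lit 7) true (nat_lit 5) (.e false (nat_lit 1) (nat_lit 33) (nat_lit 2) (nat_lit 6) (.e true (nat_lit 1) (nat_lit 34) (nat_lit 2) (nat_lit 6) (.e false (nat_lit 1) (nat_lit 35) (nat_lit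 2) (nat_lit 6) (.e true (nat_lit 1) (nat_lit 36) (nat_lit 2) (nat_lit 6) (.e false (nat_lit 1) (nat_lit 29) (nat_lit 3) (nat_lit 5) (.e true (nat_lit 2) (nat_lit 31) (nat_lit 3) (nat_lit 5) (.e true (nat_lit 2) (nat_lit 48) (nat_lit 1) (nat_lit 7) (.e false (nat_lit 2) (nat_lit 49) (nat_lit 1) (nat_lit 7) (.e true (nat_lit 5) (nat_lit 42) (nat_lit 1) (nat_lit 7) (.e true (nat_lit 5) (nat_lit 44) (nat_lit 1) (nat_lit 7) (.e false (nat_lit 10) (nat_lit 48) (nat_lit 1) (nat_lit 7) (.e true (nat_lit 5) (nat_lit 51) (nat_lit 1) (nat_lit 7) (.i false (nat_lit 2) (nat_lit 2) (.c (nat_lit 30) (nat_lit 50) (.c (nat_lit 3) (nat_lit 17) .nil)) (.i true (nat_lit 2) (nat_lit 2) (.c (nat_lit 29) (nat_lit 50) (.c (nat_lit 3) (nat_lit 17) .nil)) (.i false (nat_lit 2) (nat_lit 2) (.c (nat_lit 42) (nat_lit 66) (.c (nat_lit 1) (nat_lit 1) .nil)) (.i false (nat_lit 2) (nat_lit 2) (.c (nat_lit 44)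 (nat_lit 66) (.c (nat_lit 1) (nat_lit 1) .nil)) (.i true (nat_lit 4) (nat_lit 2) (.c (nat_lit 48) (nat_lit 66) (.c (nat_lit 1) (nat_lit 1) .nil)) (.i false (nat_lit 2) (nat_lit 2) (.c (nat_lit 51) (nat_lit 66) (.c (nat_lit 1) (nat_lit 1) .nil)) .nil)))))))))))))))))))) .leaf) (nat_lit 30724) (nat_lit 190) (.p (nat_lit 89) (nat_lit 4) (.n (nat_lit 91) (nat_lit 2) (.n (nat_lit 92) (nat_lit 2) (.p (nat_lit 93) (nat_lit 4) (.n (nat_lit 94) (nat_lit 4) (.n (nat_lit 95) (nat_lit 2) (.n (nat_lit 96) (nat_lit 2) (.n (nat_lit 97) (nat_lit 2) (.n (nat_lit 101) (nat_lit 2) (.n (nat_lit 102) (nat_lit 2) (.p (nat_lit 103) (nat_lit 4) (.p (nat_lit 104) (nat_lit 2) .z)))))))))))) (.ct dzE_c52 (nat_lit 2) (nat_lit 4) (.s true (nat_lit 2) (nat_lit 4) (nat_lit 1) (nat_lit 3) (nat_lit 2) true (nat_lit 2) true (nat_lit 6) true (nat_lit 4) true (nat_lit 7) true (nat_lit 5) (.s false (nat_lit 2) (nat_lit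 5) (nat_lit 1) (nat_lit 1) (nat_lit 4) true (nat_lit 0) true (nat_lit 4) true (nat_lit 3) true (nat_lit 7) true (nat_lit 7) (.s true (nat_lit 2) (nat_lit 6) (nat_lit 1) (nat_lit 3) (nat_lit 1) true (nat_lit 4) true (nat_lit 7) true (nat_lit 2) true (nat_lit 7) true (nat_lit 5) (.s true (nat_lit 2) (nat_lit 9) (nat_lit 1) (nat_lit 1) (nat_lit 2) true (nat_lit 2) true (nat_lit 6) true (nat_lit 1) true (nat_lit 7) true (nat_lit 7) (.s false (nat_lit 2) (nat_lit 8) (nat_lit 2) (nat_lit 1) (nat_lit 1) true (nat_lit 2) true (nat_lit 7) true (nat_lit 1) true (nat_lit 6) true (nat_lit 7) (.s true (nat_lit 2) (nat_lit 10) (nat_lit 0) (nat_lit 0) (nat_lit 3) true (nat_lit 2) true (nat_lit 5) true (nat_lit 0) true (nat_lit 8) true (nat_lit 8) (.s true (nat_lit 2) (nat_lit 13) (nat_lit 1) (nat_lit 1) (nat_lit 1) true (nat_lit 4) true (nat_lit 7) false (nat_lit 0) true (nat_lit 7) true (nat_lit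 7) (.s false (nat_lit 2) (nat_lit 15) (nat_lit 0) (nat_lit 1) (nat_lit 1) true (nat_lit 5) true (nat_lit 7) false (nat_lit 1) true (nat_lit 8) true (nat_lit 7) (.s false (nat_lit 1) (nat_lit 16) (nat_lit 1) (nat_lit 1) (nat_lit 0) true (nat_lit 5) true (nat_lit 8) false (nat_lit 1) true (nat_lit 7) true (nat_lit 7) (.s true (nat_lit 1) (nat_lit 17) (nat_lit 1) (nat_lit 1) (nat_lit 0) true (nat_lit 5) true (nat_lit 8) false (nat_lit 1) true (nat_lit 7) true (nat_lit 7) (.s false (nat_lit 2) (nat_lit 20) (nat_lit 0) (nat_lit 0) (nat_lit 1) true (nat_lit 5) true (nat_lit 7) false (nat_lit 2) true (nat_lit 8) true (nat_lit 8) (.s false (nat_lit 2) (nat_lit 20) (nat_lit 0) (nat_lit 1) (nat_lit 0) true (nat_lit 6) true (nat_lit 8) false (nat_lit 2) true (nat_lit 8) true (nat_lit 7) dzE_i27))))))))))))) .leaf)) (nat_lit 31744) (nat_lit 64) (.p (nat_lit 47) (nat_lit 2) .z) .df (.nd (.nd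 (.nd .leaf (nat_lit 31745) (nat_lit 83) (.p (nat_lit 55) (nat_lit 2) .z) .df .leaf) (nat_lit 31747) (nat_lit 137) (.p (nat_lit 85) (nat_lit 2) .z) .df (.nd .leaf (nat_lit 31748) (nat_lit 194) (.p (nat_lit 89) (nat_lit 2) (.p (nat_lit 90) (nat_lit 4) (.n (nat_lit 91) (nat_lit 4) (.n (nat_lit 94) (nat_lit 4) (.p (nat_lit 95) (nat_lit 4) (.n (nat_lit 96) (nat_lit 2) (.n (nat_lit 97) (nat_lit 2) .z))))))) (.ct dzE_c52 (nat_lit 2) (nat_lit 4) (.s false (nat_lit 1) (nat_lit 6) (nat_lit 1) (nat_lit 0) (nat_lit 4) true (nat_lit 0) true (nat_lit 4) true (nat_lit 2) true (nat_lit 7) true (nat_lit 8) (.s false (nat_lit 1) (nat_lit 6) (nat_lit 1) (nat_lit 1) (nat_lit 3) true (nat_lit 1) true (nat_lit 5) true (nat_lit 2) true (nat_lit 7) true (nat_lit 7) (.s true (nat_lit 1) (nat_lit 9) (nat_lit 4) (nat_lit 0) (nat_lit 0) true (nat_lit 1) true (nat_lit 8) true (nat_lit 1) true (nat_lit 4)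 true (nat_lit 8) (.s true (nat_lit 1) (nat_lit 13) (nat_lit 1) (nat_lit 1) (nat_lit 1) true (nat_lit 4) true (nat_lit 7) false (nat_lit 0) true (nat_lit 7) true (nat_lit 7) (.s true (nat_lit 1) (nat_lit 15) (nat_lit 0) (nat_lit 1) (nat_lit 1) true (nat_lit 5) true (nat_lit 7) false (nat_lit 1) true (nat_lit 8) true (nat_lit 7) (.e false (nat_lit 4) (nat_lit 55) (nat_lit 1) (nat_lit 7) (.e true (nat_lit 4) (nat_lit 56) (nat_lit 1) (nat_lit 7) (.e false (nat_lit 2) (nat_lit 57) (nat_lit 1) (nat_lit 7) (.e false (nat_lit 4) (nat_lit 58) (nat_lit 1) (nat_lit 7) (.e false (nat_lit 4) (nat_lit 59) (nat_lit 1) (nat_lit 7) (.e true (nat_lit 2) (nat_lit 60) (nat_lit 1) (nat_lit 7) dzE_i30)))))))))))) .leaf)) (nat_lit 32768) (nat_lit 84) (.p (nat_lit 56) (nat_lit 2) .z) .df (.nd (.nd .leaf (nat_lit 32769) (nat_lit 104) (.p (nat_lit 63) (nat_lit 2) .z) .df .leaf) (nat_lit 32770) (nat_lit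 158) (.n (nat_lit 73) (nat_lit 4) (.n (nat_lit 74) (nat_lit 2) (.p (nat_lit 76) (nat_lit 4) (.n (nat_lit 78) (nat_lit 4) (.n (nat_lit 79) (nat_lit 2) (.n (nat_lit 80) (nat_lit 4) (.p (nat_lit 81) (nat_lit 2) (.p (nat_lit 83) (nat_lit 4) (.p (nat_lit 88) (nat_lit 2) .z))))))))) (.ct dzE_c67 (nat_lit 2) (nat_lit 6) (.s false (nat_lit 1) (nat_lit 6) (nat_lit 2) (nat_lit 1) (nat_lit 1) true (nat_lit 2) true (nat_lit 7) true (nat_lit 2) true (nat_lit 6) true (nat_lit 7) (.e false (nat_lit 2) (nat_lit 42) (nat_lit 1) (nat_lit 7) (.e true (nat_lit 4) (nat_lit 33) (nat_lit 2) (nat_lit 6) (.e true (nat_lit 2) (nat_lit 34) (nat_lit 2) (nat_lit 6) (.e true (nat_lit 2) (nat_lit 36) (nat_lit 2) (nat_lit 6) (.e true (nat_lit 2) (nat_lit 37) (nat_lit 2) (nat_lit 6) (.e false (nat_lit 2) (nat_lit 44) (nat_lit 1) (nat_lit 7) (.e true (nat_lit 4) (nat_lit 45) (nat_lit 1) (nat_lit 7) (.e false (nat_lit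 2) (nat_lit 48) (nat_lit 1) (nat_lit 7) (.e false (nat_lit 4) (nat_lit 49) (nat_lit 1) (nat_lit 7) (.e true (nat_lit 4) (nat_lit 51) (nat_lit 1) (nat_lit 7) (.e true (nat_lit 20) (nat_lit 42) (nat_lit 1) (nat_lit 7) (.e false (nat_lit 10) (nat_lit 33) (nat_lit 2) (nat_lit 6) (.e true (nat_lit 10) (nat_lit 44) (nat_lit 1) (nat_lit 7) (.e false (nat_lit 10) (nat_lit 48) (nat_lit 1) (nat_lit 7) (.e true (nat_lit 10) (nat_lit 55) (nat_lit 0) (nat_lit 8) (.i false (nat_lit 4) (nat_lit 2) (.c (nat_lit 33) (nat_lit 35) (.c (nat_lit 2) (nat_lit 32) .nil)) (.i false (nat_lit 8) (nat_lit 2) (.c (nat_lit 42) (nat_lit 66) (.c (nat_lit 1) (nat_lit 1) .nil)) (.i true (nat_lit 4) (nat_lit 2) (.c (nat_lit 33) (nat_lit 35) (.c (nat_lit 2) (nat_lit 32) .nil)) (.i false (nat_lit 4) (nat_lit 2) (.c (nat_lit 44) (nat_lit 66) (.c (nat_lit 1) (nat_lit 1) .nil)) (.i true (nat_lit 4) (nat_lit 2) (.c (nat_lit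 48) (nat_lit 66) (.c (nat_lit 1) (nat_lit 1) .nil)) (.i false (nat_lit 4) (nat_lit 2) (.c (nat_lit 55) (nat_lit 51) (.c (nat_lit 0) (nat_lit 16) .nil)) .nil))))))))))))))))))))))) .leaf))) (nat_lit 32771) (nat_lit 197) (.p (nat_lit 89) (nat_lit 2) (.n (nat_lit 90) (nat_lit 2) (.p (nat_lit 91) (nat_lit 2) (.n (nat_lit 92) (nat_lit 4) (.p (nat_lit 93) (nat_lit 2) (.n (nat_lit 94) (nat_lit 4) (.p (nat_lit 96) (nat_lit 2) (.p (nat_lit 97) (nat_lit 2) (.n (nat_lit 99) (nat_lit 4) (.p (nat_lit 103) (nat_lit 2) (.p (nat_lit 104) (nat_lit 2) .z))))))))))) (.ct dzE_c52 (nat_lit 2) (nat_lit 5) (.s true (nat_lit 1) (nat_lit 9) (nat_lit 4) (nat_lit 0) (nat_lit 0) true (nat_lit 1) true (nat_lit 8) true (nat_lit 1) true (nat_lit 4) true (nat_lit 8) (.s true (nat_lit 1) (nat_lit 15) (nat_lit 0) (nat_lit 1) (nat_lit 1) true (nat_lit 5) true (nat_lit 7) false (nat_lit 1) true (nat_lit 8) true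 (nat_lit 7) (.s false (nat_lit 1) (nat_lit 15) (nat_lit 1) (nat_lit 0) (nat_lit 1) true (nat_lit 4) true (nat_lit 7) false (nat_lit 1) true (nat_lit 7) true (nat_lit 8) (.e true (nat_lit 4) (nat_lit 69) (nat_lit 0) (nat_lit 8) (.e true (nat_lit 4) (nat_lit 67) (nat_lit 0) (nat_lit 8) (.e false (nat_lit 2) (nat_lit 68) (nat_lit 0) (nat_lit 8) (.e false (nat_lit 2) (nat_lit 27) (nat_lit 4) (nat_lit 4) (.e true (nat_lit 2) (nat_lit 31) (nat_lit 4) (nat_lit 4) (.e true (nat_lit 4) (nat_lit 65) (nat_lit 0) (nat_lit 8) (.e true (nat_lit 4) (nat_lit 52) (nat_lit 1) (nat_lit 7) (.e true (nat_lit 4) (nat_lit 56) (nat_lit 1) (nat_lit 7) (.e false (nat_lit 2) (nat_lit 55) (nat_lit 1) (nat_lit 7) (.e false (nat_lit 4) (nat_lit 57) (nat_lit 1) (nat_lit 7) (.e true (nat_lit 4) (nat_lit 58) (nat_lit 1) (nat_lit 7) (.e false (nat_lit 2) (nat_lit 59) (nat_lit 1) (nat_lit 7) (.e true (nat_lit 2)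 (nat_lit 60) (nat_lit 1) (nat_lit 7) (.e true (nat_lit 2) (nat_lit 61) (nat_lit 1) (nat_lit 7) dzE_i32)))))))))))))))))) (.nd (.nd (.nd (.nd .leaf (nat_lit 33792) (nat_lit 85) (.p (nat_lit 57) (nat_lit 2) .z) .df .leaf) (nat_lit 33793) (nat_lit 105) (.p (nat_lit 64) (nat_lit 2) .z) .df (.nd .leaf (nat_lit 33794) (nat_lit 138) (.p (nat_lit 86) (nat_lit 2) .z) .df .leaf)) (nat_lit 33795) (nat_lit 195) (.p (nat_lit 89) (nat_lit 2) (.n (nat_lit 90) (nat_lit 4) (.p (nat_lit 91) (nat_lit 4) (.n (nat_lit 92) (nat_lit 4) (.n (nat_lit 93) (nat_lit 2) (.p (nat_lit 94) (nat_lit 2) (.n (nat_lit 96) (nat_lit 2) (.n (nat_lit 97) (nat_lit 2) (.n (nat_lit 99) (nat_lit 2) (.n (nat_lit 101) (nat_lit 2) (.n (nat_lit 102) (nat_lit 4) (.n (nat_lit 103) (nat_lit 4) (.p (nat_lit 104) (nat_lit 2) .z))))))))))))) (.ct dzE_c52 (nat_lit 2) (nat_lit 5) (.s true (nat_lit 1) (nat_lit 16) (nat_lit 0) (nat_lit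 1) (nat_lit 1) true (nat_lit 5) true (nat_lit 7) false (nat_lit 1) true (nat_lit 8) true (nat_lit 7) (.s false (nat_lit 1) (nat_lit 16) (nat_lit 1) (nat_lit 0) (nat_lit 1) true (nat_lit 4) true (nat_lit 7) false (nat_lit 1) true (nat_lit 7) true (nat_lit 8) (.e false (nat_lit 2) (nat_lit 71) (nat_lit 0) (nat_lit 8) (.e false (nat_lit 4) (nat_lit 57) (nat_lit 1) (nat_lit 7) (.e false (nat_lit 2) (nat_lit 29) (nat_lit 4) (nat_lit 4) (.e true (nat_lit 2) (nat_lit 52) (nat_lit 1) (nat_lit 7) (.e false (nat_lit 4) (nat_lit 55) (nat_lit 1) (nat_lit 7) (.e false (nat_lit 2) (nat_lit 56) (nat_lit 1) (nat_lit 7) (.e true (nat_lit 2) (nat_lit 58) (nat_lit 1) (nat_lit 7) (.e true (nat_lit 2) (nat_lit 62) (nat_lit 1) (nat_lit 7) (.e true (nat_lit 2) (nat_lit 64) (nat_lit 0) (nat_lit 8) (.e true (nat_lit 10) (nat_lit 55) (nat_lit 1) (nat_lit 7) (.e true (nat_lit 10) (nat_lit 56) (nat_lit 1)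 (nat_lit 7) (.e true (nat_lit 10) (nat_lit 68) (nat_lit 0) (nat_lit 8) (.e true (nat_lit 20) (nat_lit 69) (nat_lit 0) (nat_lit 8) (.i false (nat_lit 4) (nat_lit 2) (.c (nat_lit 55) (nat_lit 51) (.c (nat_lit 1) (nat_lit 1) .nil)) (.i false (nat_lit 4) (nat_lit 2) (.c (nat_lit 56) (nat_lit 51) (.c (nat_lit 1) (nat_lit 1) .nil)) (.i false (nat_lit 4) (nat_lit 2) (.c (nat_lit 68) (nat_lit 36) (.c (nat_lit 0) (nat_lit 16) .nil)) (.i false (nat_lit 8) (nat_lit 2) (.c (nat_lit 69) (nat_lit 36) (.c (nat_lit 0) (nat_lit 16) .nil)) .nil)))))))))))))))))))) (.nd (.nd .leaf (nat_lit 34816) (nat_lit 86) (.p (nat_lit 58) (nat_lit 2) .z) .df .leaf) (nat_lit 34817) (nat_lit 106) (.p (nat_lit 65) (nat_lit 2) .z) .df .leaf)) (nat_lit 34818) (nat_lit 139) (.p (nat_lit 87) (nat_lit 2) .z) .df (.nd (.nd (.nd .leaf (nat_lit 34819) (nat_lit 196) (.p (nat_lit 90) (nat_lit 4) (.n (nat_lit 91) (nat_lit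 2) (.p (nat_lit 92) (nat_lit 2) (.p (nat_lit 93) (nat_lit 4) (.p (nat_lit 94) (nat_lit 2) (.p (nat_lit 95) (nat_lit 4) (.n (nat_lit 96) (nat_lit 2) (.n (nat_lit 97) (nat_lit 2) (.n (nat_lit 98) (nat_lit 2) (.p (nat_lit 99) (nat_lit 2) (.n (nat_lit 101) (nat_lit 4) (.p (nat_lit 104) (nat_lit 2) .z)))))))))))) (.ct dzE_c52 (nat_lit 2) (nat_lit 5) (.s true (nat_lit 1) (nat_lit 8) (nat_lit 1) (nat_lit 3) (nat_lit 0) true (nat_lit 5) true (nat_lit 8) true (nat_lit 1) true (nat_lit 7) true (nat_lit 5) (.s false (nat_lit 1) (nat_lit 8) (nat_lit 3) (nat_lit 0) (nat_lit 1) true (nat_lit 1) true (nat_lit 7) true (nat_lit 1) true (nat_lit 5) true (nat_lit 8) (.s false (nat_lit 1) (nat_lit 16) (nat_lit 0) (nat_lit 1) (nat_lit 1) true (nat_lit 5) true (nat_lit 7) false (nat_lit 1) true (nat_lit 8) true (nat_lit 7) dzE_i31)))) .leaf) (nat_lit 35840) (nat_lit 87) (.p (nat_lit 59) (nat_lit 2)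 .z) .df .leaf) (nat_lit 35841) (nat_lit 107) (.p (nat_lit 66) (nat_lit 2) .z) .df (.nd (.nd .leaf (nat_lit 35842) (nat_lit 140) (.p (nat_lit 88) (nat_lit 2) .z) .df .leaf) (nat_lit 36864) (nat_lit 88) (.p (nat_lit 60) (nat_lit 2) .z) .df .leaf))))) (nat_lit 36865) (nat_lit 108) (.p (nat_lit 67) (nat_lit 2) .z) .df (.nd (.nd (.nd (.nd (.nd (.nd .leaf (nat_lit 36866) (nat_lit 141) (.n (nat_lit 73) (nat_lit 2) (.n (nat_lit 74) (nat_lit 2) (.p (nat_lit 75) (nat_lit 4) (.p (nat_lit 76) (nat_lit 4) (.n (nat_lit 77) (nat_lit 4) (.n (nat_lit 78) (nat_lit 2) (.n (nat_lit 83) (nat_lit 4) (.n (nat_lit 85) (nat_lit 4) (.n (nat_lit 86) (nat_lit 2) (.p (nat_lit 87) (nat_lit 2) (.p (nat_lit 88) (nat_lit 2) .z))))))))))) (.ct dzE_c67 (nat_lit 2) (nat_lit 6) (.s false (nat_lit 1) (nat_lit 3) (nat_lit 1) (nat_lit 3) (nat_lit 2) true (nat_lit 2) true (nat_lit 6) true (nat_lit 5) true (nat_lit 7)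 true (nat_lit 5) dzE_i1)) .leaf) (nat_lit 36867) (nat_lit 198) (.n (nat_lit 89) (nat_lit 2) (.p (nat_lit 91) (nat_lit 2) (.n (nat_lit 92) (nat_lit 4) (.p (nat_lit 93) (nat_lit 4) (.p (nat_lit 94) (nat_lit 4) (.p (nat_lit 97) (nat_lit 2) (.n (nat_lit 98) (nat_lit 4) (.n (nat_lit 99) (nat_lit 2) (.p (nat_lit 101) (nat_lit 2) (.n (nat_lit 103) (nat_lit 2) (.p (nat_lit 104) (nat_lit 2) .z))))))))))) (.ct dzE_c52 (nat_lit 2) (nat_lit 5) (.s false (nat_lit 1) (nat_lit 5) (nat_lit 1) (nat_lit 1) (nat_lit 4) true (nat_lit 0) true (nat_lit 4) true (nat_lit 3) true (nat_lit 7) true (nat_lit 7) (.s true (nat_lit 1) (nat_lit 10) (nat_lit 0) (nat_lit 0) (nat_lit 3) true (nat_lit 2) true (nat_lit 5) true (nat_lit 0) true (nat_lit 8) true (nat_lit 8) (.s false (nat_lit 1) (nat_lit 10) (nat_lit 2) (nat_lit 1) (nat_lit 0) true (nat_lit 3) true (nat_lit 8) true (nat_lit 0) true (nat_lit 6) true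 (nat_lit 7) (.s false (nat_lit 1) (nat_lit 20) (nat_lit 0) (nat_lit 1) (nat_lit 0) true (nat_lit 6) true (nat_lit 8) false (nat_lit 2) true (nat_lit 8) true (nat_lit 7) (.s true (nat_lit 1) (nat_lit 21) (nat_lit 0) (nat_lit 0) (nat_lit 0) true (nat_lit 6) true (nat_lit 8) false (nat_lit 3) true (nat_lit 8) true (nat_lit 8) dzE_i33)))))) (.nd .leaf (nat_lit 37888) (nat_lit 89) (.p (nat_lit 61) (nat_lit 2) .z) .df .leaf)) (nat_lit 37889) (nat_lit 109) (.p (nat_lit 68) (nat_lit 2) .z) .df (.nd (.nd .leaf (nat_lit 37890) (nat_lit 151) (.n (nat_lit 73) (nat_lit 4) (.p (nat_lit 74) (nat_lit 4) (.n (nat_lit 75) (nat_lit 4) (.n (nat_lit 76) (nat_lit 4) (.p (nat_lit 77) (nat_lit 4) (.n (nat_lit 78) (nat_lit 4) (.p (nat_lit 79) (nat_lit 2) (.p (nat_lit 80) (nat_lit 4) (.n (nat_lit 81) (nat_lit 2) (.p (nat_lit 85) (nat_lit 4) (.p (nat_lit 86) (nat_lit 4) (.n (nat_lit 88) (nat_lit 4) .z))))))))))))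 (.ct dzE_c67 (nat_lit 2) (nat_lit 6) (.s false (nat_lit 1) (nat_lit 3) (nat_lit 1) (nat_lit 3) (nat_lit 2) true (nat_lit 2) true (nat_lit 6) true (nat_lit 5) true (nat_lit 7) true (nat_lit 5) (.s true (nat_lit 1) (nat_lit 8) (nat_lit 0) (nat_lit 2) (nat_lit 1) true (nat_lit 5) true (nat_lit 7) true (nat_lit 1) true (nat_lit 8) true (nat_lit 6) (.s false (nat_lit 1) (nat_lit 12) (nat_lit 0) (nat_lit 1) (nat_lit 1) true (nat_lit 5) true (nat_lit 7) false (nat_lit 1) true (nat_lit 8) true (nat_lit 7) (.e true (nat_lit 2) (nat_lit 34) (nat_lit 2) (nat_lit 6) dzE_i14))))) .leaf) (nat_lit 37891) (nat_lit 192) (.p (nat_lit 89) (nat_lit 4) (.n (nat_lit 90) (nat_lit 4) (.n (nat_lit 93) (nat_lit 2) (.p (nat_lit 96) (nat_lit 2) (.p (nat_lit 98) (nat_lit 4) (.p (nat_lit 99) (nat_lit 2) (.n (nat_lit 101) (nat_lit 2) (.n (nat_lit 102) (nat_lit 2) (.n (nat_lit 103) (nat_lit 4) .z))))))))) (.ct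 dzE_c52 (nat_lit 2) (nat_lit 5) (.s false (nat_lit 1) (nat_lit 4) (nat_lit 0) (nat_lit 4) (nat_lit 2) true (nat_lit 3) true (nat_lit 6) true (nat_lit 4) true (nat_lit 8) true (nat_lit 4) (.s true (nat_lit 1) (nat_lit 6) (nat_lit 1) (nat_lit 0) (nat_lit 4) true (nat_lit 0) true (nat_lit 4) true (nat_lit 2) true (nat_lit 7) true (nat_lit 8) (.s false (nat_lit 1) (nat_lit 7) (nat_lit 1) (nat_lit 3) (nat_lit 1) true (nat_lit 4) true (nat_lit 7) true (nat_lit 2) true (nat_lit 7) true (nat_lit 5) (.s false (nat_lit 1) (nat_lit 7) (nat_lit 3) (nat_lit 1) (nat_lit 1) true (nat_lit 1) true (nat_lit 7) true (nat_lit 2) true (nat_lit 5) true (nat_lit 7) (.s false (nat_lit 1) (nat_lit 6) (nat_lit 4) (nat_lit 1) (nat_lit 0) true (nat_lit 1) true (nat_lit 8) true (nat_lit 2) true (nat_lit 4) true (nat_lit 7) (.s false (nat_lit 1) (nat_lit 9) (nat_lit 2) (nat_lit 1) (nat_lit 1) true (nat_lit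 2) true (nat_lit 7) true (nat_lit 1) true (nat_lit 6) true (nat_lit 7) (.s false (nat_lit 1) (nat_lit 13) (nat_lit 1) (nat_lit 1) (nat_lit 1) true (nat_lit 4) true (nat_lit 7) false (nat_lit 0) true (nat_lit 7) true (nat_lit 7) (.s true (nat_lit 1) (nat_lit 16) (nat_lit 0) (nat_lit 1) (nat_lit 1) true (nat_lit 5) true (nat_lit 7) false (nat_lit 1) true (nat_lit 8) true (nat_lit 7) (.e true (nat_lit 4) (nat_lit 27) (nat_lit 4) (nat_lit 4) (.e true (nat_lit 2) (nat_lit 55) (nat_lit 1) (nat_lit 7) (.e false (nat_lit 4) (nat_lit 56) (nat_lit 1) (nat_lit 7) (.e false (nat_lit 2) (nat_lit 57) (nat_lit 1) (nat_lit 7) (.e true (nat_lit 4) (nat_lit 58) (nat_lit 1) (nat_lit 7) dzE_i29)))))))))))))) .leaf)) (nat_lit 38912) (nat_lit 124) (.p (nat_lit 63) (nat_lit 2) (.n (nat_lit 64) (nat_lit 7) (.p (nat_lit 65) (nat_lit 5) (.n (nat_lit 66) (nat_lit 1) (.p (nat_lit 67) (nat_lit 3) (.p (nat_lit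 68) (nat_lit 6) (.n (nat_lit 69) (nat_lit 2) (.p (nat_lit 70) (nat_lit 2) (.p (nat_lit 71) (nat_lit 2) (.n (nat_lit 72) (nat_lit 2) .z)))))))))) (.ct dzE_c36 (nat_lit 2) (nat_lit 6) (.s false (nat_lit 1) (nat_lit 8) (nat_lit 1) (nat_lit 0) (nat_lit 1) true (nat_lit 2) true (nat_lit 5) true (nat_lit 0) true (nat_lit 5) true (nat_lit 6) (.e false (nat_lit 2) (nat_lit 17) (nat_lit 4) (nat_lit 2) (.e false (nat_lit 2) (nat_lit 34) (nat_lit 1) (nat_lit 5) (.e false (nat_lit 2) (nat_lit 37) (nat_lit 1) (nat_lit 5) (.e true (nat_lit 2) (nat_lit 8) (nat_lit 8) (nat_lit 0) .nil)))))) (.nd (.nd (.nd .leaf (nat_lit 39936) (nat_lit 110) (.p (nat_lit 69) (nat_lit 2) .z) .df .leaf) (nat_lit 39938) (nat_lit 199) (.n (nat_lit 89) (nat_lit 4) (.n (nat_lit 94) (nat_lit 2) (.n (nat_lit 95) (nat_lit 4) (.p (nat_lit 98) (nat_lit 4) (.p (nat_lit 99) (nat_lit 2) (.n (nat_lit 101) (nat_lit 2) (.p (nat_lit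 102) (nat_lit 4) (.p (nat_lit 104) (nat_lit 2) .z)))))))) (.ct dzE_c52 (nat_lit 2) (nat_lit 6) (.s false (nat_lit 2) (nat_lit 4) (nat_lit 0) (nat_lit 4) (nat_lit 2) true (nat_lit 3) true (nat_lit 6) true (nat_lit 4) true (nat_lit 8) true (nat_lit 4) (.s true (nat_lit 2) (nat_lit 9) (nat_lit 4) (nat_lit 0) (nat_lit 0) true (nat_lit 1) true (nat_lit 8) true (nat_lit 1) true (nat_lit 4) true (nat_lit 8) (.s false (nat_lit 1) (nat_lit 10) (nat_lit 2) (nat_lit 1) (nat_lit 0) true (nat_lit 3) true (nat_lit 8) true (nat_lit 0) true (nat_lit 6) true (nat_lit 7) (.s false (nat_lit 1) (nat_lit 13) (nat_lit 1) (nat_lit 1) (nat_lit 1) true (nat_lit 4) true (nat_lit 7) false (nat_lit 0) true (nat_lit 7) true (nat_lit 7) (.s true (nat_lit 1) (nat_lit 21) (nat_lit 0) (nat_lit 0) (nat_lit 0) true (nat_lit 6) true (nat_lit 8) false (nat_lit 3) true (nat_lit 8) true (nat_lit 8) (.e false (nat_lit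 2) (nat_lit 27) (nat_lit 4) (nat_lit 4) (.e false (nat_lit 4) (nat_lit 63) (nat_lit 0) (nat_lit 8) (.e false (nat_lit 4) (nat_lit 64) (nat_lit 0) (nat_lit 8) (.e true (nat_lit 2) (nat_lit 65) (nat_lit 0) (nat_lit 8) (.e true (nat_lit 4) (nat_lit 68) (nat_lit 0) (nat_lit 8) (.e false (nat_lit 2) (nat_lit 29) (nat_lit 4) (nat_lit 4) (.e true (nat_lit 2) (nat_lit 30) (nat_lit 4) (nat_lit 4) (.e false (nat_lit 2) (nat_lit 69) (nat_lit 0) (nat_lit 8) (.e false (nat_lit 2) (nat_lit 70) (nat_lit 0) (nat_lit 8) dzE_i34))))))))))))))) (.nd .leaf (nat_lit 40960) (nat_lit 116) (.p (nat_lit 63) (nat_lit 2) (.n (nat_lit 64) (nat_lit 4) (.p (nat_lit 67) (nat_lit 2) (.p (nat_lit 68) (nat_lit 4) (.p (nat_lit 70) (nat_lit 2) .z))))) (.ct dzE_c36 (nat_lit 2) (nat_lit 6) (.s false (nat_lit 1) (nat_lit 4) (nat_lit 1) (nat_lit 0) (nat_lit 3) true (nat_lit 0) true (nat_lit 3) true (nat_lit 2) true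 (nat_lit 5) true (nat_lit 6) (.s true (nat_lit 1) (nat_lit 9) (nat_lit 0) (nat_lit 1) (nat_lit 1) true (nat_lit 3) true (nat_lit 5) true (nat_lit 0) true (nat_lit 6) true (nat_lit 5) (.a false (nat_lit 4) (nat_lit 8) (nat_lit 9) (nat_lit 0) (nat_lit 0) (.e false (nat_lit 2) (nat_lit 20) (nat_lit 3) (nat_lit 3) (.e false (nat_lit 2) (nat_lit 37) (nat_lit 1) (nat_lit 5) (.e false (nat_lit 2) (nat_lit 39) (nat_lit 0) (nat_lit 6) (.e true (nat_lit 2) (nat_lit 19) (nat_lit 3) (nat_lit 3) (.e false (nat_lit 2) (nat_lit 32) (nat_lit 1) (nat_lit 5) (.e true (nat_lit 2) (nat_lit 33) (nat_lit 1) (nat_lit 5) (.e true (nat_lit 2) (nat_lit 34) (nat_lit 1) (nat_lit 5) (.e false (nat_lit 2) (nat_lit 35) (nat_lit 1) (nat_lit 5) .nil)))))))))))) .leaf)) (nat_lit 40962) (nat_lit 200) (.p (nat_lit 89) (nat_lit 2) (.p (nat_lit 90) (nat_lit 4) (.n (nat_lit 91) (nat_lit 4) (.n (nat_lit 92) (nat_lit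 2) (.n (nat_lit 94) (nat_lit 4) (.n (nat_lit 95) (nat_lit 2) (.p (nat_lit 96) (nat_lit 4) (.p (nat_lit 97) (nat_lit 4) (.n (nat_lit 98) (nat_lit 2) (.p (nat_lit 99) (nat_lit 4) (.p (nat_lit 102) (nat_lit 4) (.p (nat_lit 103) (nat_lit 4) (.p (nat_lit 104) (nat_lit 2) .z))))))))))))) (.ct dzE_c52 (nat_lit 1) (nat_lit 6) (.s true (nat_lit 1) (nat_lit 4) (nat_lit 0) (nat_lit 4) (nat_lit 2) true (nat_lit 3) true (nat_lit 6) true (nat_lit 4) true (nat_lit 8) true (nat_lit 4) (.s false (nat_lit 1) (nat_lit 9) (nat_lit 4) (nat_lit 0) (nat_lit 0) true (nat_lit 1) true (nat_lit 8) true (nat_lit 1) true (nat_lit 4) true (nat_lit 8) (.e false (nat_lit 1) (nat_lit 39) (nat_lit 2) (nat_lit 6) (.e false (nat_lit 2) (nat_lit 63) (nat_lit 0) (nat_lit 8) (.e true (nat_lit 1) (nat_lit 64) (nat_lit 0) (nat_lit 8) (.e false (nat_lit 2) (nat_lit 65) (nat_lit 0) (nat_lit 8) (.e true (nat_lit 1) (nat_lit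 29) (nat_lit 4) (nat_lit 4) (.e false (nat_lit 1) (nat_lit 30) (nat_lit 4) (nat_lit 4) (.e true (nat_lit 1) (nat_lit 69) (nat_lit 0) (nat_lit 8) (.e true (nat_lit 2) (nat_lit 70) (nat_lit 0) (nat_lit 8) (.e false (nat_lit 2) (nat_lit 71) (nat_lit 0) (nat_lit 8) (.e false (nat_lit 10) (nat_lit 52) (nat_lit 1) (nat_lit 7) dzE_i35))))))))))))) (.nd (.nd .leaf (nat_lit 41984) (nat_lit 111) (.p (nat_lit 70) (nat_lit 2) .z) .df .leaf) (nat_lit 41986) (nat_lit 202) (.p (nat_lit 89) (nat_lit 2) (.p (nat_lit 92) (nat_lit 2) (.n (nat_lit 94) (nat_lit 4) (.p (nat_lit 95) (nat_lit 4) (.n (nat_lit 96) (nat_lit 2) (.n (nat_lit 97) (nat_lit 2) (.p (nat_lit 104) (nat_lit 2) .z))))))) (.ct dzE_c52 (nat_lit 2) (nat_lit 6) (.s true (nat_lit 1) (nat_lit 6) (nat_lit 1) (nat_lit 3) (nat_lit 1) true (nat_lit 4) true (nat_lit 7) true (nat_lit 2) true (nat_lit 7) true (nat_lit 5) (.s false (nat_lit 1)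 (nat_lit 8) (nat_lit 2) (nat_lit 1) (nat_lit 1) true (nat_lit 2) true (nat_lit 7) true (nat_lit 1) true (nat_lit 6) true (nat_lit 7) (.e false (nat_lit 2) (nat_lit 31) (nat_lit 4) (nat_lit 4) (.e true (nat_lit 2) (nat_lit 52) (nat_lit 1) (nat_lit 7) (.e false (nat_lit 2) (nat_lit 55) (nat_lit 1) (nat_lit 7) (.e false (nat_lit 2) (nat_lit 56) (nat_lit 1) (nat_lit 7) (.e true (nat_lit 2) (nat_lit 59) (nat_lit 1) (nat_lit 7) (.e false (nat_lit 2) (nat_lit 60) (nat_lit 1) (nat_lit 7) (.e false (nat_lit 2) (nat_lit 61) (nat_lit 1) (nat_lit 7) (.e true (nat_lit 2) (nat_lit 62) (nat_lit 1) (nat_lit 7) (.e true (nat_lit 2) (nat_lit 32) (nat_lit 3) (nat_lit 5) (.e false (nat_lit 2) (nat_lit 15) (nat_lit 8) (nat_lit 1) (.e false (nat_lit 2) (nat_lit 39) (nat_lit 2) (nat_lit 6) (.e false (nat_lit 10) (nat_lit 52) (nat_lit 1) (nat_lit 7) (.e false (nat_lit 10) (nat_lit 59) (nat_lit 1) (nat_lit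 7) (.e true (nat_lit 10) (nat_lit 69) (nat_lit 0) (nat_lit 8) (.e false (nat_lit 10) (nat_lit 70) (nat_lit 0) (nat_lit 8) (.e true (nat_lit 10) (nat_lit 64) (nat_lit 0) (nat_lit 8) (.i true (nat_lit 4) (nat_lit 2) (.c (nat_lit 52) (nat_lit 51) (.c (nat_lit 1) (nat_lit 1) .nil)) (.i true (nat_lit 4) (nat_lit 2) (.c (nat_lit 59) (nat_lit 51) (.c (nat_lit 1) (nat_lit 1) .nil)) (.i false (nat_lit 4) (nat_lit 2) (.c (nat_lit 69) (nat_lit 36) (.c (nat_lit 0) (nat_lit 16) .nil)) (.i true (nat_lit 4) (nat_lit 2) (.c (nat_lit 70) (nat_lit 36) (.c (nat_lit 0) (nat_lit 16) .nil)) (.i false (nat_lit 4) (nat_lit 2) (.c (nat_lit 64) (nat_lit 36) (.c (nat_lit 0) (nat_lit 16) .nil)) .nil)))))))))))))))))))))))) .leaf))) (nat_lit 43009) (nat_lit 125) (.p (nat_lit 73) (nat_lit 2) .z) .df (.nd (.nd (.nd (.nd .leaf (nat_lit 44033) (nat_lit 143) (.n (nat_lit 73) (nat_lit 4) (.n (nat_lit 74) (nat_lit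 4) (.p (nat_lit 75) (nat_lit 4) (.p (nat_lit 76) (nat_lit 4) (.n (nat_lit 77) (nat_lit 2) (.p (nat_lit 78) (nat_lit 2) (.n (nat_lit 79) (nat_lit 4) (.p (nat_lit 83) (nat_lit 2) (.n (nat_lit 85) (nat_lit 4) (.n (nat_lit 87) (nat_lit 4) (.p (nat_lit 88) (nat_lit 4) .z))))))))))) (.ct dzE_c67 (nat_lit 2) (nat_lit 7) (.s true (nat_lit 1) (nat_lit 3) (nat_lit 2) (nat_lit 1) (nat_lit 3) false (nat_lit 1) true (nat_lit 5) true (nat_lit 5) true (nat_lit 6) true (nat_lit 7) (.s true (nat_lit 2) (nat_lit 4) (nat_lit 2) (nat_lit 2) (nat_lit 1) true (nat_lit 2) true (nat_lit 7) true (nat_lit 4) true (nat_lit 6) true (nat_lit 6) (.s false (nat_lit 1) (nat_lit 6) (nat_lit 0) (nat_lit 1) (nat_lit 3) true (nat_lit 2) true (nat_lit 5) true (nat_lit 2) true (nat_lit 8) true (nat_lit 7) (.s false (nat_lit 1) (nat_lit 6) (nat_lit 2) (nat_lit 1) (nat_lit 1) true (nat_lit 2) true (nat_lit 7) true (nat_lit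 2) true (nat_lit 6) true (nat_lit 7) (.s false (nat_lit 1) (nat_lit 6) (nat_lit 3) (nat_lit 0) (nat_lit 1) true (nat_lit 1) true (nat_lit 7) true (nat_lit 2) true (nat_lit 5) true (nat_lit 8) (.s true (nat_lit 1) (nat_lit 6) (nat_lit 3) (nat_lit 1) (nat_lit 0) true (nat_lit 2) true (nat_lit 8) true (nat_lit 2) true (nat_lit 5) true (nat_lit 7) (.s false (nat_lit 1) (nat_lit 12) (nat_lit 0) (nat_lit 1) (nat_lit 1) true (nat_lit 5) true (nat_lit 7) false (nat_lit 1) true (nat_lit 8) true (nat_lit 7) (.s true (nat_lit 2) (nat_lit 13) (nat_lit 0) (nat_lit 1) (nat_lit 1) true (nat_lit 5) true (nat_lit 7) false (nat_lit 1) true (nat_lit 8) true (nat_lit 7) (.e true (nat_lit 2) (nat_lit 31) (nat_lit 3) (nat_lit 5) (.e true (nat_lit 4) (nat_lit 33) (nat_lit 2) (nat_lit 6) (.e false (nat_lit 4) (nat_lit 34) (nat_lit 2) (nat_lit 6) (.e false (nat_lit 4) (nat_lit 35) (nat_lit 2) (nat_lit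 6) (.e true (nat_lit 4) (nat_lit 36) (nat_lit 2) (nat_lit 6) (.e false (nat_lit 2) (nat_lit 42) (nat_lit 1) (nat_lit 7) (.e true (nat_lit 2) (nat_lit 44) (nat_lit 1) (nat_lit 7) (.e false (nat_lit 2) (nat_lit 45) (nat_lit 1) (nat_lit 7) (.e false (nat_lit 2) (nat_lit 62) (nat_lit 0) (nat_lit 8) (.e true (nat_lit 4) (nat_lit 57) (nat_lit 0) (nat_lit 8) (.e false (nat_lit 4) (nat_lit 58) (nat_lit 0) (nat_lit 8) (.e true (nat_lit 10) (nat_lit 31) (nat_lit 3) (nat_lit 5) (.e true (nat_lit 10) (nat_lit 42) (nat_lit 1) (nat_lit 7) (.e true (nat_lit 10) (nat_lit 44) (nat_lit 1) (nat_lit 7) (.e false (nat_lit 10) (nat_lit 45) (nat_lit 1) (nat_lit 7) dzE_i3)))))))))))))))))))))))) .leaf) (nat_lit 45057) (nat_lit 126) (.p (nat_lit 74) (nat_lit 2) .z) .df (.nd .leaf (nat_lit 46081) (nat_lit 127) (.p (nat_lit 75) (nat_lit 2) .z) .df .leaf)) (nat_lit 47105) (nat_lit 167) (.n (nat_lit 73) (nat_lit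 4) (.n (nat_lit 74) (nat_lit 2) (.p (nat_lit 75) (nat_lit 2) (.n (nat_lit 76) (nat_lit 4) (.n (nat_lit 78) (nat_lit 2) (.p (nat_lit 79) (nat_lit 4) (.p (nat_lit 80) (nat_lit 2) (.n (nat_lit 83) (nat_lit 4) (.n (nat_lit 84) (nat_lit 2) (.n (nat_lit 85) (nat_lit 2) (.n (nat_lit 86) (nat_lit 4) (.n (nat_lit 88) (nat_lit 4) .z)))))))))))) (.ct dzE_c67 (nat_lit 2) (nat_lit 7) (.s false (nat_lit 1) (nat_lit 16) (nat_lit 0) (nat_lit 1) (nat_lit 0) true (nat_lit 6) true (nat_lit 8) false (nat_lit 2) true (nat_lit 8) true (nat_lit 7) (.e false (nat_lit 2) (nat_lit 33) (nat_lit 2) (nat_lit 6) (.e false (nat_lit 4) (nat_lit 53) (nat_lit 0) (nat_lit 8) (.e true (nat_lit 2) (nat_lit 16) (nat_lit 7) (nat_lit 2) (.e true (nat_lit 2) (nat_lit 52) (nat_lit 0) (nat_lit 8) (.e false (nat_lit 4) (nat_lit 55) (nat_lit 0) (nat_lit 8) (.e false (nat_lit 2) (nat_lit 56) (nat_lit 0) (nat_lit 8) (.e true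 (nat_lit 2) (nat_lit 58) (nat_lit 0) (nat_lit 8) (.e true (nat_lit 2) (nat_lit 62) (nat_lit 0) (nat_lit 8) (.e false (nat_lit 10) (nat_lit 33) (nat_lit 2) (nat_lit 6) (.e true (nat_lit 10) (nat_lit 42) (nat_lit 1) (nat_lit 7) (.e true (nat_lit 10) (nat_lit 44) (nat_lit 1) (nat_lit 7) (.e true (nat_lit 10) (nat_lit 55) (nat_lit 0) (nat_lit 8) (.e true (nat_lit 10) (nat_lit 56) (nat_lit 0) (nat_lit 8) (.e true (nat_lit 10) (nat_lit 62) (nat_lit 0) (nat_lit 8) (.e false (nat_lit 10) (nat_lit 34) (nat_lit 2) (nat_lit 6) (.i true (nat_lit 4) (nat_lit 2) (.c (nat_lit 33) (nat_lit 35) (.c (nat_lit 2) (nat_lit 32) .nil)) (.i false (nat_lit 4) (nat_lit 2) (.c (nat_lit 42) (nat_lit 66) (.c (nat_lit 1) (nat_lit 1) .nil)) (.i false (nat_lit 4) (nat_lit 2) (.c (nat_lit 44) (nat_lit 66) (.c (nat_lit 1) (nat_lit 1) .nil)) (.i false (nat_lit 4) (nat_lit 2) (.c (nat_lit 55) (nat_lit 51) (.c (nat_lit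 0) (nat_lit 16) .nil)) (.i false (nat_lit 4) (nat_lit 2) (.c (nat_lit 56) (nat_lit 51) (.c (nat_lit 0) (nat_lit 16) .nil)) (.i false (nat_lit 4) (nat_lit 2) (.c (nat_lit 62) (nat_lit 51) (.c (nat_lit 0) (nat_lit 16) .nil)) (.i true (nat_lit 4) (nat_lit 2) (.c (nat_lit 34) (nat_lit 35) (.c (nat_lit 2) (nat_lit 32) .nil)) .nil)))))))))))))))))))))))) (.nd (.nd .leaf (nat_lit 48129) (nat_lit 160) (.n (nat_lit 73) (nat_lit 4) (.p (nat_lit 74) (nat_lit 4) (.n (nat_lit 75) (nat_lit 4) (.n (nat_lit 76) (nat_lit 4) (.p (nat_lit 77) (nat_lit 4) (.p (nat_lit 78) (nat_lit 4) (.p (nat_lit 79) (nat_lit 2) (.p (nat_lit 80) (nat_lit 4) (.n (nat_lit 81) (nat_lit 2) (.n (nat_lit 85) (nat_lit 4) (.p (nat_lit 86) (nat_lit 2) (.p (nat_lit 87) (nat_lit 2) (.n (nat_lit 88) (nat_lit 4) .z))))))))))))) (.ct dzE_c67 (nat_lit 2) (nat_lit 7) (.s false (nat_lit 1) (nat_lit 6) (nat_lit 0) (nat_lit 1) (nat_lit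 3) true (nat_lit 2) true (nat_lit 5) true (nat_lit 2) true (nat_lit 8) true (nat_lit 7) (.s true (nat_lit 1) (nat_lit 6) (nat_lit 3) (nat_lit 1) (nat_lit 0) true (nat_lit 2) true (nat_lit 8) true (nat_lit 2) true (nat_lit 5) true (nat_lit 7) (.e false (nat_lit 2) (nat_lit 27) (nat_lit 3) (nat_lit 5) (.e true (nat_lit 2) (nat_lit 52) (nat_lit 0) (nat_lit 8) (.e false (nat_lit 2) (nat_lit 56) (nat_lit 0) (nat_lit 8) (.e true (nat_lit 2) (nat_lit 62) (nat_lit 0) (nat_lit 8) (.e true (nat_lit 2) (nat_lit 17) (nat_lit 6) (nat_lit 2) (.e false (nat_lit 2) (nat_lit 31) (nat_lit 3) (nat_lit 5) (.e true (nat_lit 2) (nat_lit 49) (nat_lit 1) (nat_lit 7) (.e false (nat_lit 10) (nat_lit 44) (nat_lit 1) (nat_lit 7) (.e true (nat_lit 10) (nat_lit 48) (nat_lit 1) (nat_lit 7) (.e true (nat_lit 10) (nat_lit 56) (nat_lit 0) (nat_lit 8) (.e true (nat_lit 10) (nat_lit 31) (nat_lit 3) (nat_lit 5) (.e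 false (nat_lit 10) (nat_lit 34) (nat_lit 2) (nat_lit 6) (.e true (nat_lit 10) (nat_lit 35) (nat_lit 2) (nat_lit 6) (.i true (nat_lit 4) (nat_lit 2) (.c (nat_lit 44) (nat_lit 66) (.c (nat_lit 1) (nat_lit 1) .nil)) (.i false (nat_lit 4) (nat_lit 2) (.c (nat_lit 48) (nat_lit 66) (.c (nat_lit 1) (nat_lit 1) .nil)) (.i false (nat_lit 4) (nat_lit 2) (.c (nat_lit 56) (nat_lit 51) (.c (nat_lit 0) (nat_lit 16) .nil)) (.i false (nat_lit 4) (nat_lit 2) (.c (nat_lit 31) (nat_lit 50) (.c (nat_lit 3) (nat_lit 17) .nil)) (.i true (nat_lit 4) (nat_lit 2) (.c (nat_lit 34) (nat_lit 35) (.c (nat_lit 2) (nat_lit 32) .nil)) (.i false (nat_lit 4) (nat_lit 2) (.c (nat_lit 35) (nat_lit 35) (.c (nat_lit 2) (nat_lit 32) .nil)) .nil)))))))))))))))))))))) .leaf) (nat_lit 49153) (nat_lit 128) (.p (nat_lit 76) (nat_lit 2) .z) .df .leaf)) (nat_lit 50177) (nat_lit 146) (.p (nat_lit 73) (nat_lit 4) (.p (nat_lit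 74) (nat_lit 4) (.p (nat_lit 75) (nat_lit 2) (.n (nat_lit 76) (nat_lit 4) (.p (nat_lit 77) (nat_lit 2) (.n (nat_lit 86) (nat_lit 2) (.p (nat_lit 87) (nat_lit 2) .z))))))) (.ct dzE_c67 (nat_lit 2) (nat_lit 7) (.s false (nat_lit 2) (nat_lit 3) (nat_lit 1) (nat_lit 3) (nat_lit 2) true (nat_lit 2) true (nat_lit 6) true (nat_lit 5) true (nat_lit 7) true (nat_lit 5) (.s false (nat_lit 1) (nat_lit 4) (nat_lit 2) (nat_lit 1) (nat_lit 2) false (nat_lit 0) true (nat_lit 6) true (nat_lit 4) true (nat_lit 6) true (nat_lit 7) (.s true (nat_lit 2) (nat_lit 4) (nat_lit 2) (nat_lit 2) (nat_lit 1) true (nat_lit 2) true (nat_lit 7) true (nat_lit 4) true (nat_lit 6) true (nat_lit 6) (.s false (nat_lit 1) (nat_lit 5) (nat_lit 4) (nat_lit 0) (nat_lit 1) true (nat_lit 0) true (nat_lit 7) true (nat_lit 3) true (nat_lit 4) true (nat_lit 8) (.s true (nat_lit 2) (nat_lit 6) (nat_lit 0) (nat_lit 1) (nat_lit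 3) true (nat_lit 2) true (nat_lit 5) true (nat_lit 2) true (nat_lit 8) true (nat_lit 7) (.s false (nat_lit 1) (nat_lit 6) (nat_lit 1) (nat_lit 2) (nat_lit 1) true (nat_lit 4) true (nat_lit 7) true (nat_lit 2) true (nat_lit 7) true (nat_lit 6) (.s false (nat_lit 1) (nat_lit 6) (nat_lit 2) (nat_lit 1) (nat_lit 1) true (nat_lit 2) true (nat_lit 7) true (nat_lit 2) true (nat_lit 6) true (nat_lit 7) (.s true (nat_lit 2) (nat_lit 7) (nat_lit 2) (nat_lit 1) (nat_lit 1) true (nat_lit 2) true (nat_lit 7) true (nat_lit 2) true (nat_lit 6) true (nat_lit 7) (.s true (nat_lit 2) (nat_lit 8) (nat_lit 0) (nat_lit 2) (nat_lit 1) true (nat_lit 5) true (nat_lit 7) true (nat_lit 1) true (nat_lit 8) true (nat_lit 6) (.s false (nat_lit 1) (nat_lit 9) (nat_lit 2) (nat_lit 0) (nat_lit 1) true (nat_lit 2) true (nat_lit 7) true (nat_lit 1) true (nat_lit 6) true (nat_lit 8) (.s true (nat_lit 1) (nat_lit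 11) (nat_lit 1) (nat_lit 1) (nat_lit 1) true (nat_lit 4) true (nat_lit 7) false (nat_lit 0) true (nat_lit 7) true (nat_lit 7) dzE_i8)))))))))))) (.nd (.nd (.nd .leaf (nat_lit 52225) (nat_lit 129) (.p (nat_lit 77) (nat_lit 2) .z) .df .leaf) (nat_lit 53248) (nat_lit 144) (.p (nat_lit 74) (nat_lit 2) (.p (nat_lit 75) (nat_lit 4) (.n (nat_lit 76) (nat_lit 4) (.n (nat_lit 77) (nat_lit 4) (.n (nat_lit 78) (nat_lit 2) (.n (nat_lit 79) (nat_lit 4) (.p (nat_lit 83) (nat_lit 2) (.n (nat_lit 85) (nat_lit 4) (.p (nat_lit 86) (nat_lit 4) (.n (nat_lit 88) (nat_lit 4) .z)))))))))) (.ct dzE_c67 (nat_lit 2) (nat_lit 8) (.s true (nat_lit 1) (nat_lit 3) (nat_lit 1) (nat_lit 3) (nat_lit 2) true (nat_lit 2) true (nat_lit 6) true (nat_lit 5) true (nat_lit 7) true (nat_lit 5) (.s false (nat_lit 1) (nat_lit 4) (nat_lit 2) (nat_lit 1) (nat_lit 2) false (nat_lit 0) true (nat_lit 6) true (nat_lit 4) true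 (nat_lit 6) true (nat_lit 7) (.s true (nat_lit 2) (nat_lit 4) (nat_lit 2) (nat_lit 2) (nat_lit 1) true (nat_lit 2) true (nat_lit 7) true (nat_lit 4) true (nat_lit 6) true (nat_lit 6) (.s false (nat_lit 1) (nat_lit 5) (nat_lit 0) (nat_lit 4) (nat_lit 1) true (nat_lit 5) true (nat_lit 7) true (nat_lit 3) true (nat_lit 8) true (nat_lit 4) (.s false (nat_lit 2) (nat_lit 5) (nat_lit 1) (nat_lit 0) (nat_lit 4) true (nat_lit 0) true (nat_lit 4) true (nat_lit 3) true (nat_lit 7) true (nat_lit 8) (.s false (nat_lit 2) (nat_lit 6) (nat_lit 0) (nat_lit 1) (nat_lit 3) true (nat_lit 2) true (nat_lit 5) true (nat_lit 2) true (nat_lit 8) true (nat_lit 7) (.s false (nat_lit 1) (nat_lit 6) (nat_lit 0) (nat_lit 3) (nat_lit 1) true (nat_lit 5) true (nat_lit 7) true (nat_lit 2) true (nat_lit 8) true (nat_lit 5) (.s false (nat_lit 2) (nat_lit 7) (nat_lit 0) (nat_lit 3) (nat_lit 1) true (nat_lit 5)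 true (nat_lit 7) true (nat_lit 2) true (nat_lit 8) true (nat_lit 5) (.s false (nat_lit 2) (nat_lit 7) (nat_lit 1) (nat_lit 0) (nat_lit 3) true (nat_lit 1) true (nat_lit 5) true (nat_lit 2) true (nat_lit 7) true (nat_lit 8) (.s false (nat_lit 1) (nat_lit 6) (nat_lit 1) (nat_lit 2) (nat_lit 1) true (nat_lit 4) true (nat_lit 7) true (nat_lit 2) true (nat_lit 7) true (nat_lit 6) (.s true (nat_lit 2) (nat_lit 6) (nat_lit 2) (nat_lit 1) (nat_lit 1) true (nat_lit 2) true (nat_lit 7) true (nat_lit 2) true (nat_lit 6) true (nat_lit 7) (.s false (nat_lit 2) (nat_lit 7) (nat_lit 2) (nat_lit 1) (nat_lit 1) true (nat_lit 2) true (nat_lit 7) true (nat_lit 2) true (nat_lit 6) true (nat_lit 7) (.s false (nat_lit 2) (nat_lit 8) (nat_lit 0) (nat_lit 2) (nat_lit 1) true (nat_lit 5) true (nat_lit 7) true (nat_lit 1) true (nat_lit 8) true (nat_lit 6) (.s false (nat_lit 1) (nat_lit 9) (nat_lit 2) (nat_lit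 0) (nat_lit 1) true (nat_lit 2) true (nat_lit 7) true (nat_lit 1) true (nat_lit 6) true (nat_lit 8) (.s false (nat_lit 2) (nat_lit 8) (nat_lit 3) (nat_lit 0) (nat_lit 0) true (nat_lit 2) true (nat_lit 8) true (nat_lit 1) true (nat_lit 5) true (nat_lit 8) (.s false (nat_lit 2) (nat_lit 10) (nat_lit 2) (nat_lit 0) (nat_lit 0) true (nat_lit 3) true (nat_lit 8) true (nat_lit 0) true (nat_lit 6) true (nat_lit 8) (.s false (nat_lit 1) (nat_lit 12) (nat_lit 0) (nat_lit 1) (nat_lit 1) true (nat_lit 5) true (nat_lit 7) false (nat_lit 1) true (nat_lit 8) true (nat_lit 7) (.s false (nat_lit 2) (nat_lit 12) (nat_lit 1) (nat_lit 0) (nat_lit 1) true (nat_lit 4) true (nat_lit 7) false (nat_lit 1) true (nat_lit 7) true (nat_lit 8) (.s false (nat_lit 1) (nat_lit 12) (nat_lit 1) (nat_lit 1) (nat_lit 0) true (nat_lit 5) true (nat_lit 8) false (nat_lit 1) true (nat_lit 7) true (nat_lit 7) (.s true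 (nat_lit 2) (nat_lit 16) (nat_lit 1) (nat_lit 0) (nat_lit 0) true (nat_lit 5) true (nat_lit 8) false (nat_lit 2) true (nat_lit 7) true (nat_lit 8) (.s true (nat_lit 2) (nat_lit 17) (nat_lit 1) (nat_lit 0) (nat_lit 0) true (nat_lit 5) true (nat_lit 8) false (nat_lit 2) true (nat_lit 7) true (nat_lit 8) (.s false (nat_lit 2) (nat_lit 19) (nat_lit 0) (nat_lit 0) (nat_lit 0) true (nat_lit 6) true (nat_lit 8) false (nat_lit 3) true (nat_lit 8) true (nat_lit 8) dzE_i5))))))))))))))))))))))) .leaf) (nat_lit 53249) (nat_lit 170) (.p (nat_lit 89) (nat_lit 2) .z) .df (.nd (.nd .leaf (nat_lit 54272) (nat_lit 147) (.p (nat_lit 73) (nat_lit 2) (.p (nat_lit 74) (nat_lit 4) (.p (nat_lit 75) (nat_lit 2) (.n (nat_lit 76) (nat_lit 4) (.n (nat_lit 77) (nat_lit 2) (.p (nat_lit 78) (nat_lit 2) (.p (nat_lit 79) (nat_lit 2) (.p (nat_lit 80) (nat_lit 2) (.p (nat_lit 83) (nat_lit 2) (.n (nat_lit 85) (nat_lit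 2) (.n (nat_lit 86) (nat_lit 4) (.n (nat_lit 87) (nat_lit 4) (.n (nat_lit 88) (nat_lit 2) .z))))))))))))) (.ct dzE_c67 (nat_lit 2) (nat_lit 8) (.s false (nat_lit 1) (nat_lit 3) (nat_lit 1) (nat_lit 3) (nat_lit 2) true (nat_lit 2) true (nat_lit 6) true (nat_lit 5) true (nat_lit 7) true (nat_lit 5) (.s true (nat_lit 2) (nat_lit 4) (nat_lit 2) (nat_lit 2) (nat_lit 1) true (nat_lit 2) true (nat_lit 7) true (nat_lit 4) true (nat_lit 6) true (nat_lit 6) (.s false (nat_lit 1) (nat_lit 6) (nat_lit 2) (nat_lit 1) (nat_lit 1) true (nat_lit 2) true (nat_lit 7) true (nat_lit 2) true (nat_lit 6) true (nat_lit 7) (.s true (nat_lit 1) (nat_lit 7) (nat_lit 2) (nat_lit 1) (nat_lit 1) true (nat_lit 2) true (nat_lit 7) true (nat_lit 2) true (nat_lit 6) true (nat_lit 7) dzE_i10))))) .leaf) (nat_lit 54273) (nat_lit 171) (.p (nat_lit 90) (nat_lit 2) .z) .df .leaf)))) (nat_lit 55296) (nat_lit 149) (.p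 (nat_lit 73) (nat_lit 2) (.p (nat_lit 74) (nat_lit 4) (.p (nat_lit 75) (nat_lit 2) (.n (nat_lit 77) (nat_lit 2) (.p (nat_lit 78) (nat_lit 4) (.p (nat_lit 79) (nat_lit 2) (.p (nat_lit 80) (nat_lit 2) (.n (nat_lit 83) (nat_lit 4) (.n (nat_lit 85) (nat_lit 2) (.n (nat_lit 86) (nat_lit 4) (.n (nat_lit 87) (nat_lit 4) (.n (nat_lit 88) (nat_lit 2) .z)))))))))))) (.ct dzE_c67 (nat_lit 2) (nat_lit 8) (.s false (nat_lit 1) (nat_lit 5) (nat_lit 1) (nat_lit 0) (nat_lit 4) true (nat_lit 0) true (nat_lit 4) true (nat_lit 3) true (nat_lit 7) true (nat_lit 8) (.s false (nat_lit 1) (nat_lit 5) (nat_lit 4) (nat_lit 0) (nat_lit 1) true (nat_lit 0) true (nat_lit 7) true (nat_lit 3) true (nat_lit 4) true (nat_lit 8) dzE_i12))) (.nd (.nd (.nd (.nd (.nd .leaf (nat_lit 55297) (nat_lit 172) (.p (nat_lit 91) (nat_lit 2) .z) .df .leaf) (nat_lit 56320) (nat_lit 130) (.p (nat_lit 78) (nat_lit 2) .z) .df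 (.nd .leaf (nat_lit 56321) (nat_lit 173) (.p (nat_lit 92) (nat_lit 2) .z) .df .leaf)) (nat_lit 57344) (nat_lit 131) (.p (nat_lit 79) (nat_lit 2) .z) .df (.nd (.nd .leaf (nat_lit 57345) (nat_lit 174) (.p (nat_lit 93) (nat_lit 2) .z) .df .leaf) (nat_lit 58368) (nat_lit 132) (.p (nat_lit 80) (nat_lit 2) .z) .df .leaf)) (nat_lit 58369) (nat_lit 175) (.p (nat_lit 94) (nat_lit 2) .z) .df (.nd (.nd (.nd .leaf (nat_lit 59392) (nat_lit 142) (.p (nat_lit 74) (nat_lit 2) (.n (nat_lit 76) (nat_lit 4) (.p (nat_lit 78) (nat_lit 4) (.n (nat_lit 79) (nat_lit 2) (.p (nat_lit 80) (nat_lit 2) (.n (nat_lit 83) (nat_lit 4) (.n (nat_lit 87) (nat_lit 2) (.p (nat_lit 88) (nat_lit 2) .z)))))))) (.ct dzE_c67 (nat_lit 2) (nat_lit 8) (.s false (nat_lit 2) (nat_lit 3) (nat_lit 2) (nat_lit 1) (nat_lit 3) false (nat_lit 1) true (nat_lit 5) true (nat_lit 5) true (nat_lit 6) true (nat_lit 7) (.s false (nat_lit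 1) (nat_lit 4) (nat_lit 2) (nat_lit 1) (nat_lit 2) false (nat_lit 0) true (nat_lit 6) true (nat_lit 4) true (nat_lit 6) true (nat_lit 7) (.s false (nat_lit 1) (nat_lit 4) (nat_lit 2) (nat_lit 2) (nat_lit 1) true (nat_lit 2) true (nat_lit 7) true (nat_lit 4) true (nat_lit 6) true (nat_lit 6) (.s false (nat_lit 1) (nat_lit 5) (nat_lit 0) (nat_lit 4) (nat_lit 1) true (nat_lit 5) true (nat_lit 7) true (nat_lit 3) true (nat_lit 8) true (nat_lit 4) (.s true (nat_lit 2) (nat_lit 5) (nat_lit 4) (nat_lit 0) (nat_lit 1) true (nat_lit 0) true (nat_lit 7) true (nat_lit 3) true (nat_lit 4) true (nat_lit 8) (.s false (nat_lit 2) (nat_lit 6) (nat_lit 0) (nat_lit 1) (nat_lit 3) true (nat_lit 2) true (nat_lit 5) true (nat_lit 2) true (nat_lit 8) true (nat_lit 7) (.s false (nat_lit 1) (nat_lit 6) (nat_lit 0) (nat_lit 3) (nat_lit 1) true (nat_lit 5) true (nat_lit 7) true (nat_lit 2) true (nat_lit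 8) true (nat_lit 5) (.s false (nat_lit 1) (nat_lit 6) (nat_lit 1) (nat_lit 2) (nat_lit 1) true (nat_lit 4) true (nat_lit 7) true (nat_lit 2) true (nat_lit 7) true (nat_lit 6) (.s false (nat_lit 2) (nat_lit 6) (nat_lit 2) (nat_lit 1) (nat_lit 1) true (nat_lit 2) true (nat_lit 7) true (nat_lit 2) true (nat_lit 6) true (nat_lit 7) (.s false (nat_lit 2) (nat_lit 7) (nat_lit 2) (nat_lit 1) (nat_lit 1) true (nat_lit 2) true (nat_lit 7) true (nat_lit 2) true (nat_lit 6) true (nat_lit 7) (.s false (nat_lit 1) (nat_lit 6) (nat_lit 3) (nat_lit 0) (nat_lit 1) true (nat_lit 1) true (nat_lit 7) true (nat_lit 2) true (nat_lit 5) true (nat_lit 8) (.s false (nat_lit 1) (nat_lit 8) (nat_lit 0) (nat_lit 2) (nat_lit 1) true (nat_lit 5) true (nat_lit 7) true (nat_lit 1) true (nat_lit 8) true (nat_lit 6) (.s false (nat_lit 1) (nat_lit 8) (nat_lit 1) (nat_lit 0) (nat_lit 2) true (nat_lit 2) true (nat_lit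 6) true (nat_lit 1) true (nat_lit 7) true (nat_lit 8) dzE_i2)))))))))))))) .leaf) (nat_lit 59393) (nat_lit 187) (.n (nat_lit 89) (nat_lit 4) (.p (nat_lit 90) (nat_lit 4) (.n (nat_lit 91) (nat_lit 4) (.p (nat_lit 93) (nat_lit 2) (.n (nat_lit 94) (nat_lit 4) (.n (nat_lit 96) (nat_lit 2) (.n (nat_lit 97) (nat_lit 2) (.n (nat_lit 98) (nat_lit 4) (.n (nat_lit 99) (nat_lit 2) (.n (nat_lit 101) (nat_lit 2) (.n (nat_lit 102) (nat_lit 4) .z))))))))))) (.ct dzE_c52 (nat_lit 2) (nat_lit 7) (.s true (nat_lit 1) (nat_lit 4) (nat_lit 1) (nat_lit 3) (nat_lit 2) true (nat_lit 2) true (nat_lit 6) true (nat_lit 4) true (nat_lit 7) true (nat_lit 5) (.s false (nat_lit 1) (nat_lit 5) (nat_lit 1) (nat_lit 1) (nat_lit 4) true (nat_lit 0) true (nat_lit 4) true (nat_lit 3) true (nat_lit 7) true (nat_lit 7) (.s true (nat_lit 1) (nat_lit 5) (nat_lit 4) (nat_lit 1) (nat_lit 1) true (nat_lit 0) true (nat_lit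 7) true (nat_lit 3) true (nat_lit 4) true (nat_lit 7) (.s true (nat_lit 1) (nat_lit 6) (nat_lit 1) (nat_lit 0) (nat_lit 4) true (nat_lit 0) true (nat_lit 4) true (nat_lit 2) true (nat_lit 7) true (nat_lit 8) (.s false (nat_lit 2) (nat_lit 8) (nat_lit 1) (nat_lit 3) (nat_lit 0) true (nat_lit 5) true (nat_lit 8) true (nat_lit 1) true (nat_lit 7) true (nat_lit 5) (.s true (nat_lit 2) (nat_lit 8) (nat_lit 3) (nat_lit 0) (nat_lit 1) true (nat_lit 1) true (nat_lit 7) true (nat_lit 1) true (nat_lit 5) true (nat_lit 8) (.s true (nat_lit 1) (nat_lit 10) (nat_lit 2) (nat_lit 1) (nat_lit 0) true (nat_lit 3) true (nat_lit 8) true (nat_lit 0) true (nat_lit 6) true (nat_lit 7) (.s true (nat_lit 2) (nat_lit 16) (nat_lit 0) (nat_lit 1) (nat_lit 1) true (nat_lit 5) true (nat_lit 7) false (nat_lit 1) true (nat_lit 8) true (nat_lit 7) (.e true (nat_lit 4) (nat_lit 55) (nat_lit 1) (nat_lit 7) (.e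 false (nat_lit 4) (nat_lit 59) (nat_lit 1) (nat_lit 7) dzE_i23))))))))))) .leaf) (nat_lit 60416) (nat_lit 133) (.p (nat_lit 81) (nat_lit 2) .z) .df (.nd (.nd .leaf (nat_lit 60417) (nat_lit 176) (.p (nat_lit 95) (nat_lit 2) .z) .df .leaf) (nat_lit 61440) (nat_lit 134) (.p (nat_lit 82) (nat_lit 2) .z) .df .leaf))) (nat_lit 61441) (nat_lit 177) (.p (nat_lit 96) (nat_lit 2) .z) .df (.nd (.nd (.nd (.nd .leaf (nat_lit 62464) (nat_lit 148) (.n (nat_lit 74) (nat_lit 4) (.n (nat_lit 76) (nat_lit 2) (.p (nat_lit 78) (nat_lit 4) (.p (nat_lit 79) (nat_lit 4) (.p (nat_lit 81) (nat_lit 2) (.n (nat_lit 82) (nat_lit 2) (.n (nat_lit 83) (nat_lit 4) (.n (nat_lit 86) (nat_lit 2) (.n (nat_lit 87) (nat_lit 4) (.n (nat_lit 88) (nat_lit 4) .z)))))))))) (.ct dzE_c67 (nat_lit 2) (nat_lit 8) (.s false (nat_lit 2) (nat_lit 4) (nat_lit 2) (nat_lit 2) (nat_lit 1) true (nat_lit 2) true (nat_lit 7) true (nat_lit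 4) true (nat_lit 6) true (nat_lit 6) (.s true (nat_lit 1) (nat_lit 6) (nat_lit 0) (nat_lit 1) (nat_lit 3) true (nat_lit 2) true (nat_lit 5) true (nat_lit 2) true (nat_lit 8) true (nat_lit 7) (.s true (nat_lit 1) (nat_lit 6) (nat_lit 2) (nat_lit 1) (nat_lit 1) true (nat_lit 2) true (nat_lit 7) true (nat_lit 2) true (nat_lit 6) true (nat_lit 7) (.s true (nat_lit 1) (nat_lit 6) (nat_lit 3) (nat_lit 0) (nat_lit 1) true (nat_lit 1) true (nat_lit 7) true (nat_lit 2) true (nat_lit 5) true (nat_lit 8) (.s false (nat_lit 1) (nat_lit 6) (nat_lit 3) (nat_lit 1) (nat_lit 0) true (nat_lit 2) true (nat_lit 8) true (nat_lit 2) true (nat_lit 5) true (nat_lit 7) (.s false (nat_lit 1) (nat_lit 13) (nat_lit 0) (nat_lit 1) (nat_lit 1) true (nat_lit 5) true (nat_lit 7) false (nat_lit 1) true (nat_lit 8) true (nat_lit 7) (.e true (nat_lit 2) (nat_lit 33) (nat_lit 2) (nat_lit 6) (.e false (nat_lit 2)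 (nat_lit 34) (nat_lit 2) (nat_lit 6) (.e false (nat_lit 2) (nat_lit 55) (nat_lit 0) (nat_lit 8) (.e true (nat_lit 2) (nat_lit 62) (nat_lit 0) (nat_lit 8) dzE_i11))))))))))) .leaf) (nat_lit 62465) (nat_lit 178) (.p (nat_lit 97) (nat_lit 2) .z) .df (.nd .leaf (nat_lit 63488) (nat_lit 135) (.p (nat_lit 83) (nat_lit 2) .z) .df .leaf)) (nat_lit 63489) (nat_lit 193) (.n (nat_lit 89) (nat_lit 2) (.p (nat_lit 90) (nat_lit 2) (.n (nat_lit 91) (nat_lit 2) (.p (nat_lit 94) (nat_lit 4) (.p (nat_lit 95) (nat_lit 4) (.p (nat_lit 96) (nat_lit 4) (.p (nat_lit 97) (nat_lit 4) (.n (nat_lit 101) (nat_lit 4) (.n (nat_lit 102) (nat_lit 4) (.p (nat_lit 103) (nat_lit 4) .z)))))))))) (.ct dzE_c52 (nat_lit 1) (nat_lit 7) (.s false (nat_lit 1) (nat_lit 4) (nat_lit 0) (nat_lit 4) (nat_lit 2) true (nat_lit 3) true (nat_lit 6) true (nat_lit 4) true (nat_lit 8) true (nat_lit 4) (.s true (nat_lit 1) (nat_lit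 6) (nat_lit 1) (nat_lit 0) (nat_lit 4) true (nat_lit 0) true (nat_lit 4) true (nat_lit 2) true (nat_lit 7) true (nat_lit 8) (.s false (nat_lit 1) (nat_lit 6) (nat_lit 4) (nat_lit 1) (nat_lit 0) true (nat_lit 1) true (nat_lit 8) true (nat_lit 2) true (nat_lit 4) true (nat_lit 7) (.s false (nat_lit 1) (nat_lit 9) (nat_lit 2) (nat_lit 1) (nat_lit 1) true (nat_lit 2) true (nat_lit 7) true (nat_lit 1) true (nat_lit 6) true (nat_lit 7) (.s false (nat_lit 1) (nat_lit 13) (nat_lit 1) (nat_lit 1) (nat_lit 1) true (nat_lit 4) true (nat_lit 7) false (nat_lit 0) true (nat_lit 7) true (nat_lit 7) (.e false (nat_lit 1) (nat_lit 29) (nat_lit 4) (nat_lit 4) (.e true (nat_lit 1) (nat_lit 30) (nat_lit 4) (nat_lit 4) (.e false (nat_lit 2) (nat_lit 55) (nat_lit 1) (nat_lit 7) (.e true (nat_lit 5) (nat_lit 55) (nat_lit 1) (nat_lit 7) (.e true (nat_lit 5) (nat_lit 68) (nat_lit 0) (nat_lit 8) (.e true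 (nat_lit 5) (nat_lit 69) (nat_lit 0) (nat_lit 8) (.e false (nat_lit 5) (nat_lit 70) (nat_lit 0) (nat_lit 8) (.i false (nat_lit 2) (nat_lit 2) (.c (nat_lit 62) (nat_lit 51) (.c (nat_lit 1) (nat_lit 1) .nil)) (.i true (nat_lit 2) (nat_lit 2) (.c (nat_lit 29) (nat_lit 50) (.c (nat_lit 4) (nat_lit 2) .nil)) (.i false (nat_lit 2) (nat_lit 2) (.c (nat_lit 30) (nat_lit 50) (.c (nat_lit 4) (nat_lit 2) .nil)) (.i true (nat_lit 4) (nat_lit 2) (.c (nat_lit 55) (nat_lit 51) (.c (nat_lit 1) (nat_lit 1) .nil)) (.i false (nat_lit 2) (nat_lit 2) (.c (nat_lit 55) (nat_lit 51) (.c (nat_lit 1) (nat_lit 1) .nil)) (.i false (nat_lit 2) (nat_lit 2) (.c (nat_lit 68) (nat_lit 36) (.c (nat_lit 0) (nat_lit 16) .nil)) (.i false (nat_lit 2) (nat_lit 2) (.c (nat_lit 69) (nat_lit 36) (.c (nat_lit 0) (nat_lit 16) .nil)) (.i true (nat_lit 2) (nat_lit 2) (.c (nat_lit 70) (nat_lit 36) (.c (nat_lit 0) (nat_lit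 16) .nil)) .nil))))))))))))))))))))) (.nd (.nd .leaf (nat_lit 64512) (nat_lit 179) (.p (nat_lit 98) (nat_lit 2) .z) .df .leaf) (nat_lit 65536) (nat_lit 180) (.p (nat_lit 99) (nat_lit 2) .z) .df .leaf)) (nat_lit 66560) (nat_lit 188) (.n (nat_lit 89) (nat_lit 4) (.n (nat_lit 90) (nat_lit 2) (.p (nat_lit 92) (nat_lit 4) (.n (nat_lit 93) (nat_lit 4) (.n (nat_lit 94) (nat_lit 2) (.n (nat_lit 95) (nat_lit 4) (.n (nat_lit 96) (nat_lit 4) (.n (nat_lit 97) (nat_lit 4) (.p (nat_lit 98) (nat_lit 4) (.p (nat_lit 99) (nat_lit 4) (.n (nat_lit 101) (nat_lit 4) (.p (nat_lit 103) (nat_lit 4) .z)))))))))))) (.ct dzE_c52 (nat_lit 2) (nat_lit 8) (.s true (nat_lit 1) (nat_lit 4) (nat_lit 0) (nat_lit 4) (nat_lit 2) true (nat_lit 3) true (nat_lit 6) true (nat_lit 4) true (nat_lit 8) true (nat_lit 4) (.s true (nat_lit 1) (nat_lit 4) (nat_lit 1) (nat_lit 3) (nat_lit 2) true (nat_lit 2) true (nat_lit 6)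 true (nat_lit 4) true (nat_lit 7) true (nat_lit 5) (.s false (nat_lit 1) (nat_lit 5) (nat_lit 1) (nat_lit 1) (nat_lit 4) true (nat_lit 0) true (nat_lit 4) true (nat_lit 3) true (nat_lit 7) true (nat_lit 7) (.s true (nat_lit 1) (nat_lit 6) (nat_lit 4) (nat_lit 1) (nat_lit 0) true (nat_lit 1) true (nat_lit 8) true (nat_lit 2) true (nat_lit 4) true (nat_lit 7) (.s false (nat_lit 2) (nat_lit 8) (nat_lit 1) (nat_lit 3) (nat_lit 0) true (nat_lit 5) true (nat_lit 8) true (nat_lit 1) true (nat_lit 7) true (nat_lit 5) (.s true (nat_lit 1) (nat_lit 9) (nat_lit 2) (nat_lit 1) (nat_lit 1) true (nat_lit 2) true (nat_lit 7) true (nat_lit 1) true (nat_lit 6) true (nat_lit 7) (.s true (nat_lit 2) (nat_lit 8) (nat_lit 3) (nat_lit 0) (nat_lit 1) true (nat_lit 1) true (nat_lit 7) true (nat_lit 1) true (nat_lit 5) true (nat_lit 8) (.s false (nat_lit 1) (nat_lit 9) (nat_lit 4) (nat_lit 0) (nat_lit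 0) true (nat_lit 1) true (nat_lit 8) true (nat_lit 1) true (nat_lit 4) true (nat_lit 8) (.s false (nat_lit 1) (nat_lit 10) (nat_lit 0) (nat_lit 1) (nat_lit 2) true (nat_lit 3) true (nat_lit 6) true (nat_lit 0) true (nat_lit 8) true (nat_lit 7) (.s true (nat_lit 1) (nat_lit 13) (nat_lit 1) (nat_lit 1) (nat_lit 1) true (nat_lit 4) true (nat_lit 7) false (nat_lit 0) true (nat_lit 7) true (nat_lit 7) (.s true (nat_lit 2) (nat_lit 16) (nat_lit 0) (nat_lit 1) (nat_lit 1) true (nat_lit 5) true (nat_lit 7) false (nat_lit 1) true (nat_lit 8) true (nat_lit 7) (.s true (nat_lit 1) (nat_lit 21) (nat_lit 0) (nat_lit 0) (nat_lit 0) true (nat_lit 6) true (nat_lit 8) false (nat_lit 3) true (nat_lit 8) true (nat_lit 8) (.e false (nat_lit 2) (nat_lit 63) (nat_lit 0) (nat_lit 8) (.e true (nat_lit 2) (nat_lit 64) (nat_lit 0) (nat_lit 8) (.e false (nat_lit 2) (nat_lit 53) (nat_lit 1) (nat_lit 7) dzE_i24))))))))))))))))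 (.nd (.nd (.nd .leaf (nat_lit 68608) (nat_lit 186) (.n (nat_lit 90) (nat_lit 4) (.n (nat_lit 91) (nat_lit 4) (.p (nat_lit 92) (nat_lit 4) (.p (nat_lit 93) (nat_lit 4) (.n (nat_lit 95) (nat_lit 4) (.n (nat_lit 96) (nat_lit 2) (.n (nat_lit 97) (nat_lit 2) (.p (nat_lit 101) (nat_lit 4) (.p (nat_lit 102) (nat_lit 4) (.n (nat_lit 103) (nat_lit 2) .z)))))))))) (.ct dzE_c52 (nat_lit 2) (nat_lit 8) (.s false (nat_lit 2) (nat_lit 4) (nat_lit 0) (nat_lit 4) (nat_lit 2) true (nat_lit 3) true (nat_lit 6) true (nat_lit 4) true (nat_lit 8) true (nat_lit 4) (.s false (nat_lit 2) (nat_lit 4) (nat_lit 3) (nat_lit 0) (nat_lit 3) false (nat_lit 1) true (nat_lit 5) true (nat_lit 4) true (nat_lit 5) true (nat_lit 8) (.s true (nat_lit 1) (nat_lit 5) (nat_lit 1) (nat_lit 1) (nat_lit 4) true (nat_lit 0) true (nat_lit 4) true (nat_lit 3) true (nat_lit 7) true (nat_lit 7) (.s false (nat_lit 2) (nat_lit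 5) (nat_lit 4) (nat_lit 1) (nat_lit 1) true (nat_lit 0) true (nat_lit 7) true (nat_lit 3) true (nat_lit 4) true (nat_lit 7) (.s true (nat_lit 2) (nat_lit 6) (nat_lit 1) (nat_lit 0) (nat_lit 4) true (nat_lit 0) true (nat_lit 4) true (nat_lit 2) true (nat_lit 7) true (nat_lit 8) (.s true (nat_lit 2) (nat_lit 6) (nat_lit 1) (nat_lit 1) (nat_lit 3) true (nat_lit 1) true (nat_lit 5) true (nat_lit 2) true (nat_lit 7) true (nat_lit 7) (.s false (nat_lit 2) (nat_lit 6) (nat_lit 1) (nat_lit 3) (nat_lit 1) true (nat_lit 4) true (nat_lit 7) true (nat_lit 2) true (nat_lit 7) true (nat_lit 5) (.s true (nat_lit 2) (nat_lit 8) (nat_lit 0) (nat_lit 4) (nat_lit 0) true (nat_lit 6) true (nat_lit 8) true (nat_lit 1) true (nat_lit 8) true (nat_lit 4) (.s false (nat_lit 1) (nat_lit 8) (nat_lit 1) (nat_lit 3) (nat_lit 0) true (nat_lit 5) true (nat_lit 8) true (nat_lit 1) true (nat_lit 7) true (nat_lit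 5) (.s true (nat_lit 2) (nat_lit 8) (nat_lit 2) (nat_lit 1) (nat_lit 1) true (nat_lit 2) true (nat_lit 7) true (nat_lit 1) true (nat_lit 6) true (nat_lit 7) (.s true (nat_lit 1) (nat_lit 8) (nat_lit 3) (nat_lit 0) (nat_lit 1) true (nat_lit 1) true (nat_lit 7) true (nat_lit 1) true (nat_lit 5) true (nat_lit 8) (.s false (nat_lit 2) (nat_lit 9) (nat_lit 3) (nat_lit 0) (nat_lit 1) true (nat_lit 1) true (nat_lit 7) true (nat_lit 1) true (nat_lit 5) true (nat_lit 8) (.s false (nat_lit 2) (nat_lit 9) (nat_lit 4) (nat_lit 0) (nat_lit 0) true (nat_lit 1) true (nat_lit 8) true (nat_lit 1) true (nat_lit 4) true (nat_lit 8) (.s false (nat_lit 1) (nat_lit 10) (nat_lit 0) (nat_lit 1) (nat_lit 2) true (nat_lit 3) true (nat_lit 6) true (nat_lit 0) true (nat_lit 8) true (nat_lit 7) dzE_i22))))))))))))))) .leaf) (nat_lit 69632) (nat_lit 181) (.p (nat_lit 101) (nat_lit 2) .z) .df .leaf) (nat_lit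 70656) (nat_lit 182) (.p (nat_lit 102) (nat_lit 2) .z) .df (.nd (.nd .leaf (nat_lit 71680) (nat_lit 183) (.p (nat_lit 103) (nat_lit 2) .z) .df .leaf) (nat_lit 72704) (nat_lit 185) (.n (nat_lit 89) (nat_lit 4) (.p (nat_lit 91) (nat_lit 2) (.n (nat_lit 92) (nat_lit 2) (.p (nat_lit 93) (nat_lit 4) (.n (nat_lit 94) (nat_lit 2) (.p (nat_lit 95) (nat_lit 2) (.n (nat_lit 96) (nat_lit 2) (.n (nat_lit 97) (nat_lit 2) (.n (nat_lit 98) (nat_lit 4) (.n (nat_lit 99) (nat_lit 2) (.n (nat_lit 101) (nat_lit 2) (.p (nat_lit 102) (nat_lit 4) (.p (nat_lit 103) (nat_lit 2) .z))))))))))))) (.ct dzE_c52 (nat_lit 2) (nat_lit 8) (.s false (nat_lit 2) (nat_lit 4) (nat_lit 0) (nat_lit 4) (nat_lit 2) true (nat_lit 3) true (nat_lit 6) true (nat_lit 4) true (nat_lit 8) true (nat_lit 4) (.s true (nat_lit 1) (nat_lit 4) (nat_lit 3) (nat_lit 0) (nat_lit 3) false (nat_lit 1) true (nat_lit 5) true (nat_lit 4)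 true (nat_lit 5) true (nat_lit 8) (.s false (nat_lit 1) (nat_lit 5) (nat_lit 1) (nat_lit 1) (nat_lit 4) true (nat_lit 0) true (nat_lit 4) true (nat_lit 3) true (nat_lit 7) true (nat_lit 7) (.s false (nat_lit 1) (nat_lit 6) (nat_lit 1) (nat_lit 0) (nat_lit 4) true (nat_lit 0) true (nat_lit 4) true (nat_lit 2) true (nat_lit 7) true (nat_lit 8) (.s false (nat_lit 1) (nat_lit 7) (nat_lit 1) (nat_lit 3) (nat_lit 1) true (nat_lit 4) true (nat_lit 7) true (nat_lit 2) true (nat_lit 7) true (nat_lit 5) (.s false (nat_lit 1) (nat_lit 7) (nat_lit 3) (nat_lit 1) (nat_lit 1) true (nat_lit 1) true (nat_lit 7) true (nat_lit 2) true (nat_lit 5) true (nat_lit 7) (.s true (nat_lit 1) (nat_lit 6) (nat_lit 4) (nat_lit 1) (nat_lit 0) true (nat_lit 1) true (nat_lit 8) true (nat_lit 2) true (nat_lit 4) true (nat_lit 7) (.s true (nat_lit 1) (nat_lit 9) (nat_lit 2) (nat_lit 1) (nat_lit 1) true (nat_lit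 2) true (nat_lit 7) true (nat_lit 1) true (nat_lit 6) true (nat_lit 7) (.s false (nat_lit 2) (nat_lit 9) (nat_lit 4) (nat_lit 0) (nat_lit 0) true (nat_lit 1) true (nat_lit 8) true (nat_lit 1) true (nat_lit 4) true (nat_lit 8) (.s true (nat_lit 1) (nat_lit 10) (nat_lit 0) (nat_lit 0) (nat_lit 3) true (nat_lit 2) true (nat_lit 5) true (nat_lit 0) true (nat_lit 8) true (nat_lit 8) (.s true (nat_lit 2) (nat_lit 13) (nat_lit 1) (nat_lit 1) (nat_lit 1) true (nat_lit 4) true (nat_lit 7) false (nat_lit 0) true (nat_lit 7) true (nat_lit 7) (.s true (nat_lit 1) (nat_lit 16) (nat_lit 0) (nat_lit 1) (nat_lit 1) true (nat_lit 5) true (nat_lit 7) false (nat_lit 1) true (nat_lit 8) true (nat_lit 7) (.s true (nat_lit 1) (nat_lit 19) (nat_lit 0) (nat_lit 1) (nat_lit 0) true (nat_lit 6) true (nat_lit 8) false (nat_lit 2) true (nat_lit 8) true (nat_lit 7) (.s false (nat_lit 1) (nat_lit 20) (nat_lit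 0) (nat_lit 1) (nat_lit 0) true (nat_lit 6) true (nat_lit 8) false (nat_lit 2) true (nat_lit 8) true (nat_lit 7) (.s false (nat_lit 1) (nat_lit 19) (nat_lit 1) (nat_lit 0) (nat_lit 0) true (nat_lit 5) true (nat_lit 8) false (nat_lit 2) true (nat_lit 7) true (nat_lit 8) (.e true (nat_lit 4) (nat_lit 63) (nat_lit 0) (nat_lit 8) (.e true (nat_lit 2) (nat_lit 64) (nat_lit 0) (nat_lit 8) (.e true (nat_lit 2) (nat_lit 68) (nat_lit 0) (nat_lit 8) (.e false (nat_lit 4) (nat_lit 69) (nat_lit 0) (nat_lit 8) (.e false (nat_lit 2) (nat_lit 70) (nat_lit 0) (nat_lit 8) (.e false (nat_lit 2) (nat_lit 54) (nat_lit 1) (nat_lit 7) (.e true (nat_lit 2) (nat_lit 55) (nat_lit 1) (nat_lit 7) dzE_i20))))))))))))))))))))))) .leaf))))))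

noncomputable def dzE_t2 : Tr := (.nd dzE_t0 (nat_lit 20482) (nat_lit 98) (.n (nat_lit 53) (nat_lit 4) (.p (nat_lit 54) (nat_lit 4) (.n (nat_lit 55) (nat_lit 4) (.p (nat_lit 62) (nat_lit 2) .z)))) (.ct dzE_c51 (nat_lit 2) (nat_lit 4) (.s false (nat_lit 1) (nat_lit 3) (nat_lit 2) (nat_lit 1) (nat_lit 1) true (nat_lit 0) true (nat_lit 5) true (nat_lit 3) true (nat_lit 4) true (nat_lit 5) (.s true (nat_lit 1) (nat_lit 6) (nat_lit 1) (nat_lit 0) (nat_lit 1) true (nat_lit 2) true (nat_lit 5) true (nat_lit 0) true (nat_lit 5) true (nat_lit 6) (.e false (nat_lit 2) (nat_lit 15) (nat_lit 3) (nat_lit 3) (.e false (nat_lit 2) (nat_lit 19) (nat_lit 2) (nat_lit 4) (.e true (nat_lit 4) (nat_lit 29) (nat_lit 1) (nat_lit 5) (.e false (nat_lit 4) (nat_lit 30) (nat_lit 1) (nat_lit 5) (.e true (nat_lit 2) (nat_lit 13) (nat_lit 4) (nat_lit 2) (.e true (nat_lit 2) (nat_lit 28) (nat_lit 1) (nat_lit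 5) (.e false (nat_lit 2) (nat_lit 32) (nat_lit 0) (nat_lit 6) .nil)))))))))) dzE_t1)

noncomputable def dzE_cl : CL := (.c (nat_lit 16) (nat_lit 0) (nat_lit 1) (.c (nat_lit 1) (nat_lit 1) (nat_lit 1) (.c (nat_lit 32) (nat_lit 2) (nat_lit 1) (.c (nat_lit 17) (nat_lit 3) (nat_lit 1) (.c (nat_lit 2) (nat_lit 4) (nat_lit 1) (.c (nat_lit 48) (nat_lit 5) (nat_lit 1) (.c (nat_lit 33) (nat_lit 6) (nat_lit 2) (.c (nat_lit 18) (nat_lit 8) (nat_lit 2) (.c (nat_lit 3) (nat_lit 10) (nat_lit 1) (.c (nat_lit 64) (nat_lit 11) (nat_lit 1) (.c (nat_lit 49) (nat_lit 12) (nat_lit 3) (.c (nat_lit 34) (nat_lit 15) (nat_lit 3) (.c (nat_lit 19) (nat_lit 18) (nat_lit 3) (.c (nat_lit 4) (nat_lit 21) (nat_lit 1) (.c (nat_lit 65) (nat_lit 22) (nat_lit 4) (.c (nat_lit 50) (nat_lit 26) (nat_lit 6) (.c (nat_lit 35) (nat_lit 32) (nat_lit 6) (.c (nat_lit 20) (nat_lit 38) (nat_lit 4) (.c (nat_lit 66) (nat_lit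 42) (nat_lit 10) (.c (nat_lit 51) (nat_lit 52) (nat_lit 11) (.c (nat_lit 36) (nat_lit 63) (nat_lit 10) (.c (nat_lit 67) (nat_lit 73) (nat_lit 16) (.c (nat_lit 52) (nat_lit 89) (nat_lit 16) .nil)))))))))))))))))))))))

noncomputable def dzE_D : Dt := ⟨(nat_lit 4294967296), (nat_lit 2147483648), (nat_lit 2), (nat_lit 105), (nat_lit 1299049763785350831660293144618416994596702021851405033816687349866718464666669816453360610878376564521010010218700296680152614236214519375830146909485460444441959828912206024156542634314334950801709926163358202061588985605222562361746656300014786849206605523503514471024429391469149180663092407508382773437567773683394978331209311781274793711943684768657862941102557038869188440349805586355968122211459218149356428850596820331415344046302555415122088837073805093926438991466362420400872832546170473513890296932318561734956950197911323825835802213349868455095977804347517873718404377803295924605371564089105114453826448349544917615440042174699389766866933119621075159213153793507381533943625597211189957589371387205534945314805271477131397852393050801700867),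 (nat_lit 40564819197858607886553254463459), dzE_t2, dzE_cl⟩

noncomputable def dzE_gs : BL := (.c (nat_lit 15) (nat_lit 3) (nat_lit 15) (nat_lit 3) (nat_lit 0) (.c (nat_lit 18) (nat_lit 3) (nat_lit 12) (nat_lit 3) (nat_lit 9) (.c (nat_lit 21) (nat_lit 1) (nat_lit 11) (nat_lit 1) (nat_lit 18) (.c (nat_lit 22) (nat_lit 4) (nat_lit 10) (nat_lit 1) (nat_lit 19) (.c (nat_lit 26) (nat_lit 6) (nat_lit 8) (nat_lit 2) (nat_lit 23) (.c (nat_lit 32) (nat_lit 6) (nat_lit 6) (nat_lit 2) (nat_lit 35) (.c (nat_lit 38) (nat_lit 4) (nat_lit 5) (nat_lit 1) (nat_lit 47) (.c (nat_lit 42) (nat_lit 10) (nat_lit 4) (nat_lit 1) (nat_lit 51) (.c (nat_lit 52) (nat_lit 11) (nat_lit 3) (nat_lit 1) (nat_lit 61) (.c (nat_lit 63) (nat_lit 10) (nat_lit 2) (nat_lit 1) (nat_lit 72) (.c (nat_lit 73) (nat_lit 16) (nat_lit 1) (nat_lit 1) (nat_lit 82) (.c (nat_lit 89) (nat_lit 16) (nat_lit 0) (nat_lit 1) (nat_lit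 98) .nil))))))))))))

noncomputable def dzE_i41 : IL := (.i false (nat_lit 64) (nat_lit 2) (.c (nat_lit 36) (nat_lit 35) (.c (nat_lit 7) (nat_lit 33) .nil)) (.i true (nat_lit 64) (nat_lit 2) (.c (nat_lit 37) (nat_lit 35) (.c (nat_lit 7) (nat_lit 33) .nil)) (.i true (nat_lit 192) (nat_lit 2) (.c (nat_lit 79) (nat_lit 67) (.c (nat_lit 1) (nat_lit 1) .nil)) (.i false (nat_lit 256) (nat_lit 2) (.c (nat_lit 83) (nat_lit 67) (.c (nat_lit 1) (nat_lit 1) .nil)) (.i true (nat_lit 128) (nat_lit 2) (.c (nat_lit 86) (nat_lit 67) (.c (nat_lit 1) (nat_lit 1) .nil)) (.i false (nat_lit 192) (nat_lit 2) (.c (nat_lit 87) (nat_lit 67) (.c (nat_lit 1) (nat_lit 1) .nil)) (.i true (nat_lit 320) (nat_lit 2) (.c (nat_lit 80) (nat_lit 67) (.c (nat_lit 1) (nat_lit 1) .nil)) (.i false (nat_lit 128) (nat_lit 2) (.c (nat_lit 81) (nat_lit 67) (.c (nat_lit 1) (nat_lit 1) .nil)) (.i false (nat_lit 128) (nat_lit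 2) (.c (nat_lit 34) (nat_lit 35) (.c (nat_lit 6) (nat_lit 33) .nil)) (.i true (nat_lit 128) (nat_lit 2) (.c (nat_lit 52) (nat_lit 51) (.c (nat_lit 3) (nat_lit 17) .nil)) (.i true (nat_lit 64) (nat_lit 2) (.c (nat_lit 56) (nat_lit 51) (.c (nat_lit 3) (nat_lit 17) .nil)) (.i false (nat_lit 64) (nat_lit 2) (.c (nat_lit 104) (nat_lit 52) (.c (nat_lit 0) (nat_lit 16) .nil)) (.i true (nat_lit 64) (nat_lit 2) (.c (nat_lit 35) (nat_lit 35) (.c (nat_lit 6) (nat_lit 33) .nil)) (.i true (nat_lit 320) (nat_lit 2) (.c (nat_lit 98) (nat_lit 52) (.c (nat_lit 0) (nat_lit 16) .nil)) (.i false (nat_lit 128) (nat_lit 2) (.c (nat_lit 99) (nat_lit 52) (.c (nat_lit 0) (nat_lit 16) .nil)) (.i false (nat_lit 64) (nat_lit 2) (.c (nat_lit 17) (nat_lit 34) (.c (nat_lit 15) (nat_lit 34) .nil)) (.i false (nat_lit 64) (nat_lit 2) (.c (nat_lit 21) (nat_lit 4) (.c (nat_lit 11) (nat_lit 64) .nil)) (.i false (nat_lit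 64) (nat_lit 2) (.c (nat_lit 82) (nat_lit 67) (.c (nat_lit 1) (nat_lit 1) .nil)) (.i true (nat_lit 64) (nat_lit 2) (.c (nat_lit 16) (nat_lit 34) (.c (nat_lit 15) (nat_lit 34) .nil)) (.a true (nat_lit 256) (nat_lit 16) (nat_lit 16) (nat_lit 0) (nat_lit 0) (.a false (nat_lit 384) (nat_lit 16) (nat_lit 17) (nat_lit 0) (nat_lit 0) (.a true (nat_lit 128) (nat_lit 17) (nat_lit 17) (nat_lit 0) (nat_lit 0) (.a false (nat_lit 320) (nat_lit 15) (nat_lit 16) (nat_lit 0) (nat_lit 0) (.a true (nat_lit 256) (nat_lit 15) (nat_lit 17) (nat_lit 0) (nat_lit 0) (.a true (nat_lit 64) (nat_lit 15) (nat_lit 15) (nat_lit 0) (nat_lit 0) .nil)))))))))))))))))))))))))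

noncomputable def dzE_i42 : IL := (.i true (nat_lit 128) (nat_lit 2) (.c (nat_lit 60) (nat_lit 51) (.c (nat_lit 3) (nat_lit 17) .nil)) (.i true (nat_lit 64) (nat_lit 2) (.c (nat_lit 61) (nat_lit 51) (.c (nat_lit 3) (nat_lit 17) .nil)) (.i false (nat_lit 64) (nat_lit 2) (.c (nat_lit 27) (nat_lit 50) (.c (nat_lit 8) (nat_lit 18) .nil)) (.i true (nat_lit 64) (nat_lit 2) (.c (nat_lit 62) (nat_lit 51) (.c (nat_lit 3) (nat_lit 17) .nil)) (.i true (nat_lit 128) (nat_lit 2) (.c (nat_lit 40) (nat_lit 20) (.c (nat_lit 5) (nat_lit 48) .nil)) (.i false (nat_lit 64) (nat_lit 2) (.c (nat_lit 41) (nat_lit 20) (.c (nat_lit 5) (nat_lit 48) .nil)) (.i true (nat_lit 704) (nat_lit 2) (.c (nat_lit 78) (nat_lit 67) (.c (nat_lit 1) (nat_lit 1) .nil)) (.i true (nat_lit 128) (nat_lit 2) (.c (nat_lit 73) (nat_lit 67) (.c (nat_lit 1) (nat_lit 1) .nil)) (.i true (nat_lit 128) (nat_lit 2) (.c (nat_lit 74)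 (nat_lit 67) (.c (nat_lit 1) (nat_lit 1) .nil)) (.i false (nat_lit 64) (nat_lit 2) (.c (nat_lit 75) (nat_lit 67) (.c (nat_lit 1) (nat_lit 1) .nil)) (.i false (nat_lit 384) (nat_lit 2) (.c (nat_lit 76) (nat_lit 67) (.c (nat_lit 1) (nat_lit 1) .nil)) (.i true (nat_lit 256) (nat_lit 2) (.c (nat_lit 77) (nat_lit 67) (.c (nat_lit 1) (nat_lit 1) .nil)) (.i true (nat_lit 64) (nat_lit 2) (.c (nat_lit 85) (nat_lit 67) (.c (nat_lit 1) (nat_lit 1) .nil)) (.i false (nat_lit 64) (nat_lit 2) (.c (nat_lit 39) (nat_lit 20) (.c (nat_lit 5) (nat_lit 48) .nil)) (.i true (nat_lit 256) (nat_lit 2) (.c (nat_lit 89) (nat_lit 52) (.c (nat_lit 0) (nat_lit 16) .nil)) (.i false (nat_lit 64) (nat_lit 2) (.c (nat_lit 92) (nat_lit 52) (.c (nat_lit 0) (nat_lit 16) .nil)) (.i false (nat_lit 384) (nat_lit 2) (.c (nat_lit 95) (nat_lit 52) (.c (nat_lit 0) (nat_lit 16) .nil)) (.i false (nat_lit 64) (nat_lit 2) (.c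 (nat_lit 101) (nat_lit 52) (.c (nat_lit 0) (nat_lit 16) .nil)) (.i true (nat_lit 128) (nat_lit 2) (.c (nat_lit 103) (nat_lit 52) (.c (nat_lit 0) (nat_lit 16) .nil)) (.i false (nat_lit 64) (nat_lit 2) (.c (nat_lit 96) (nat_lit 52) (.c (nat_lit 0) (nat_lit 16) .nil)) (.i false (nat_lit 128) (nat_lit 2) (.c (nat_lit 97) (nat_lit 52) (.c (nat_lit 0) (nat_lit 16) .nil)) (.i false (nat_lit 640) (nat_lit 2) (.c (nat_lit 90) (nat_lit 52) (.c (nat_lit 0) (nat_lit 16) .nil)) (.i true (nat_lit 128) (nat_lit 2) (.c (nat_lit 33) (nat_lit 35) (.c (nat_lit 6) (nat_lit 33) .nil)) (.i false (nat_lit 64) (nat_lit 2) (.c (nat_lit 33) (nat_lit 35) (.c (nat_lit 7) (nat_lit 33) .nil)) (.i true (nat_lit 64) (nat_lit 2) (.c (nat_lit 34) (nat_lit 35) (.c (nat_lit 7) (nat_lit 33) .nil)) dzE_i41)))))))))))))))))))))))))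

noncomputable def dzE_i43 : IL := (.s true (nat_lit 32) (nat_lit 36) (nat_lit 1) (nat_lit 0) (nat_lit 0) true (nat_lit 8) true (nat_lit 11) false (nat_lit 5) true (nat_lit 10) true (nat_lit 11) (.s false (nat_lit 32) (nat_lit 37) (nat_lit 1) (nat_lit 0) (nat_lit 0) true (nat_lit 8) true (nat_lit 11) false (nat_lit 5) true (nat_lit 10) true (nat_lit 11) (.s true (nat_lit 32) (nat_lit 39) (nat_lit 0) (nat_lit 0) (nat_lit 0) true (nat_lit 9) true (nat_lit 11) false (nat_lit 6) true (nat_lit 11) true (nat_lit 11) (.i false (nat_lit 5696) (nat_lit 2) (.c (nat_lit 64) (nat_lit 36) (.c (nat_lit 2) (nat_lit 32) .nil)) (.i true (nat_lit 4992) (nat_lit 2) (.c (nat_lit 65) (nat_lit 36) (.c (nat_lit 2) (nat_lit 32) .nil)) (.i true (nat_lit 2496) (nat_lit 2) (.c (nat_lit 67) (nat_lit 36) (.c (nat_lit 2) (nat_lit 32) .nil)) (.i true (nat_lit 3072) (nat_lit 2) (.c (nat_lit 68) (nat_lit 36)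 (.c (nat_lit 2) (nat_lit 32) .nil)) (.i true (nat_lit 256) (nat_lit 2) (.c (nat_lit 70) (nat_lit 36) (.c (nat_lit 2) (nat_lit 32) .nil)) (.i true (nat_lit 1856) (nat_lit 2) (.c (nat_lit 63) (nat_lit 36) (.c (nat_lit 2) (nat_lit 32) .nil)) (.i true (nat_lit 4032) (nat_lit 2) (.c (nat_lit 71) (nat_lit 36) (.c (nat_lit 2) (nat_lit 32) .nil)) (.i true (nat_lit 320) (nat_lit 2) (.c (nat_lit 66) (nat_lit 36) (.c (nat_lit 2) (nat_lit 32) .nil)) (.i true (nat_lit 320) (nat_lit 2) (.c (nat_lit 69) (nat_lit 36) (.c (nat_lit 2) (nat_lit 32) .nil)) (.i true (nat_lit 640) (nat_lit 2) (.c (nat_lit 72) (nat_lit 36) (.c (nat_lit 2) (nat_lit 32) .nil)) (.i true (nat_lit 192) (nat_lit 2) (.c (nat_lit 51) (nat_lit 66) (.c (nat_lit 4) (nat_lit 2) .nil)) (.i false (nat_lit 192) (nat_lit 2) (.c (nat_lit 42) (nat_lit 66) (.c (nat_lit 4) (nat_lit 2) .nil)) (.i true (nat_lit 192) (nat_lit 2) (.c (nat_lit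 43) (nat_lit 66) (.c (nat_lit 4) (nat_lit 2) .nil)) (.i false (nat_lit 128) (nat_lit 2) (.c (nat_lit 44) (nat_lit 66) (.c (nat_lit 4) (nat_lit 2) .nil)) (.i true (nat_lit 128) (nat_lit 2) (.c (nat_lit 45) (nat_lit 66) (.c (nat_lit 4) (nat_lit 2) .nil)) (.i false (nat_lit 192) (nat_lit 2) (.c (nat_lit 49) (nat_lit 66) (.c (nat_lit 4) (nat_lit 2) .nil)) (.i true (nat_lit 128) (nat_lit 2) (.c (nat_lit 20) (nat_lit 19) (.c (nat_lit 12) (nat_lit 49) .nil)) (.i false (nat_lit 64) (nat_lit 2) (.c (nat_lit 20) (nat_lit 19) (.c (nat_lit 13) (nat_lit 49) .nil)) (.i true (nat_lit 64) (nat_lit 2) (.c (nat_lit 53) (nat_lit 51) (.c (nat_lit 3) (nat_lit 17) .nil)) (.i false (nat_lit 64) (nat_lit 2) (.c (nat_lit 58) (nat_lit 51) (.c (nat_lit 3) (nat_lit 17) .nil)) (.i false (nat_lit 64) (nat_lit 2) (.c (nat_lit 54) (nat_lit 51) (.c (nat_lit 3) (nat_lit 17) .nil)) (.i false (nat_lit 128) (nat_lit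 2) (.c (nat_lit 57) (nat_lit 51) (.c (nat_lit 3) (nat_lit 17) .nil)) dzE_i42)))))))))))))))))))))))))

noncomputable def dzE_i44 : IL := (.s true (nat_lit 32) (nat_lit 17) (nat_lit 2) (nat_lit 1) (nat_lit 1) true (nat_lit 5) true (nat_lit 10) true (nat_lit 0) true (nat_lit 9) true (nat_lit 10) (.s true (nat_lit 32) (nat_lit 20) (nat_lit 0) (nat_lit 0) (nat_lit 3) true (nat_lit 5) true (nat_lit 8) false (nat_lit 1) true (nat_lit 11) true (nat_lit 11) (.s false (nat_lit 32) (nat_lit 20) (nat_lit 0) (nat_lit 1) (nat_lit 2) true (nat_lit 6) true (nat_lit 9) false (nat_lit 1) true (nat_lit 11) true (nat_lit 10) (.s false (nat_lit 32) (nat_lit 19) (nat_lit 1) (nat_lit 0) (nat_lit 2) true (nat_lit 5) true (nat_lit 9) false (nat_lit 1) true (nat_lit 10) true (nat_lit 11) (.s false (nat_lit 32) (nat_lit 20) (nat_lit 2) (nat_lit 0) (nat_lit 1) true (nat_lit 5) true (nat_lit 10) false (nat_lit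 1) true (nat_lit 9) true (nat_lit 11) (.s false (nat_lit 32) (nat_lit 21) (nat_lit 0) (nat_lit 0) (nat_lit 2) true (nat_lit 6) true (nat_lit 9) false (nat_lit 2) true (nat_lit 11) true (nat_lit 11) (.s false (nat_lit 16) (nat_lit 21) (nat_lit 0) (nat_lit 2) (nat_lit 0) true (nat_lit 9) true (nat_lit 11) false (nat_lit 2) true (nat_lit 11) true (nat_lit 9) (.s true (nat_lit 32) (nat_lit 21) (nat_lit 2) (nat_lit 0) (nat_lit 0) true (nat_lit 6) true (nat_lit 11) false (nat_lit 2) true (nat_lit 9) true (nat_lit 11) (.s true (nat_lit 32) (nat_lit 23) (nat_lit 1) (nat_lit 1) (nat_lit 1) true (nat_lit 7) true (nat_lit 10) false (nat_lit 3) true (nat_lit 10) true (nat_lit 10) (.s true (nat_lit 32) (nat_lit 27) (nat_lit 0) (nat_lit 1) (nat_lit 1) true (nat_lit 8) true (nat_lit 10) false (nat_lit 4) true (nat_lit 11) true (nat_lit 10) (.s true (nat_lit 16) (nat_lit 28) (nat_lit 1) (nat_lit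 0) (nat_lit 1) true (nat_lit 7) true (nat_lit 10) false (nat_lit 4) true (nat_lit 10) true (nat_lit 11) (.s true (nat_lit 16) (nat_lit 27) (nat_lit 1) (nat_lit 1) (nat_lit 0) true (nat_lit 8) true (nat_lit 11) false (nat_lit 4) true (nat_lit 10) true (nat_lit 10) (.s false (nat_lit 32) (nat_lit 29) (nat_lit 1) (nat_lit 1) (nat_lit 0) true (nat_lit 8) true (nat_lit 11) false (nat_lit 4) true (nat_lit 10) true (nat_lit 10) (.s true (nat_lit 32) (nat_lit 30) (nat_lit 1) (nat_lit 1) (nat_lit 0) true (nat_lit 8) true (nat_lit 11) false (nat_lit 4) true (nat_lit 10) true (nat_lit 10) (.s false (nat_lit 16) (nat_lit 33) (nat_lit 0) (nat_lit 0) (nat_lit 1) true (nat_lit 8) true (nat_lit 10) false (nat_lit 5) true (nat_lit 11) true (nat_lit 11) (.s true (nat_lit 16) (nat_lit 34) (nat_lit 0) (nat_lit 0) (nat_lit 1) true (nat_lit 8) true (nat_lit 10) false (nat_lit 5) true (nat_lit 11) true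 (nat_lit 11) (.s false (nat_lit 16) (nat_lit 36) (nat_lit 0) (nat_lit 0) (nat_lit 1) true (nat_lit 8) true (nat_lit 10) false (nat_lit 5) true (nat_lit 11) true (nat_lit 11) (.s false (nat_lit 32) (nat_lit 32) (nat_lit 0) (nat_lit 1) (nat_lit 0) true (nat_lit 9) true (nat_lit 11) false (nat_lit 5) true (nat_lit 11) true (nat_lit 10) (.s true (nat_lit 16) (nat_lit 33) (nat_lit 0) (nat_lit 1) (nat_lit 0) true (nat_lit 9) true (nat_lit 11) false (nat_lit 5) true (nat_lit 11) true (nat_lit 10) (.s false (nat_lit 32) (nat_lit 34) (nat_lit 0) (nat_lit 1) (nat_lit 0) true (nat_lit 9) true (nat_lit 11) false (nat_lit 5) true (nat_lit 11) true (nat_lit 10) (.s true (nat_lit 32) (nat_lit 36) (nat_lit 0) (nat_lit 1) (nat_lit 0) true (nat_lit 9) true (nat_lit 11) false (nat_lit 5) true (nat_lit 11) true (nat_lit 10) (.s false (nat_lit 32) (nat_lit 37) (nat_lit 0) (nat_lit 1) (nat_lit 0) true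 (nat_lit 9) true (nat_lit 11) false (nat_lit 5) true (nat_lit 11) true (nat_lit 10) (.s true (nat_lit 32) (nat_lit 32) (nat_lit 1) (nat_lit 0) (nat_lit 0) true (nat_lit 8) true (nat_lit 11) false (nat_lit 5) true (nat_lit 10) true (nat_lit 11) (.s false (nat_lit 32) (nat_lit 33) (nat_lit 1) (nat_lit 0) (nat_lit 0) true (nat_lit 8) true (nat_lit 11) false (nat_lit 5) true (nat_lit 10) true (nat_lit 11) (.s true (nat_lit 16) (nat_lit 34) (nat_lit 1) (nat_lit 0) (nat_lit 0) true (nat_lit 8) true (nat_lit 11) false (nat_lit 5) true (nat_lit 10) true (nat_lit 11) dzE_i43)))))))))))))))))))))))))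

noncomputable def dzE_i45 : IL := (.s false (nat_lit 32) (nat_lit 6) (nat_lit 4) (nat_lit 2) (nat_lit 1) true (nat_lit 3) true (nat_lit 10) true (nat_lit 5) true (nat_lit 7) true (nat_lit 9) (.s false (nat_lit 32) (nat_lit 9) (nat_lit 0) (nat_lit 6) (nat_lit 1) true (nat_lit 8) true (nat_lit 10) true (nat_lit 4) true (nat_lit 11) true (nat_lit 5) (.s true (nat_lit 16) (nat_lit 8) (nat_lit 2) (nat_lit 0) (nat_lit 4) true (nat_lit 0) true (nat_lit 7) true (nat_lit 4) true (nat_lit 9) true (nat_lit 11) (.s true (nat_lit 16) (nat_lit 8) (nat_lit 2) (nat_lit 4) (nat_lit 0) true (nat_lit 6) true (nat_lit 11) true (nat_lit 4) true (nat_lit 9) true (nat_lit 7) (.s false (nat_lit 32) (nat_lit 8) (nat_lit 3) (nat_lit 2) (nat_lit 1) true (nat_lit 4) true (nat_lit 10) true (nat_lit 4) true (nat_lit 8) true (nat_lit 9) (.s false (nat_lit 16) (nat_lit 9) (nat_lit 6) (nat_lit 0) (nat_lit 1)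 true (nat_lit 0) true (nat_lit 10) true (nat_lit 4) true (nat_lit 5) true (nat_lit 11) (.s true (nat_lit 32) (nat_lit 10) (nat_lit 0) (nat_lit 6) (nat_lit 0) true (nat_lit 9) true (nat_lit 11) true (nat_lit 3) true (nat_lit 11) true (nat_lit 5) (.s true (nat_lit 16) (nat_lit 10) (nat_lit 2) (nat_lit 2) (nat_lit 1) true (nat_lit 5) true (nat_lit 10) true (nat_lit 3) true (nat_lit 9) true (nat_lit 9) (.s false (nat_lit 32) (nat_lit 10) (nat_lit 5) (nat_lit 1) (nat_lit 0) true (nat_lit 2) true (nat_lit 11) true (nat_lit 3) true (nat_lit 6) true (nat_lit 10) (.s true (nat_lit 32) (nat_lit 13) (nat_lit 0) (nat_lit 1) (nat_lit 4) true (nat_lit 4) true (nat_lit 7) true (nat_lit 1) true (nat_lit 11) true (nat_lit 10) (.s false (nat_lit 32) (nat_lit 13) (nat_lit 1) (nat_lit 0) (nat_lit 4) true (nat_lit 3) true (nat_lit 7) true (nat_lit 1) true (nat_lit 10) true (nat_lit 11) (.s true (nat_lit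 32) (nat_lit 13) (nat_lit 1) (nat_lit 3) (nat_lit 1) true (nat_lit 7) true (nat_lit 10) true (nat_lit 1) true (nat_lit 10) true (nat_lit 8) (.s false (nat_lit 32) (nat_lit 12) (nat_lit 1) (nat_lit 4) (nat_lit 0) true (nat_lit 8) true (nat_lit 11) true (nat_lit 1) true (nat_lit 10) true (nat_lit 7) (.s false (nat_lit 16) (nat_lit 13) (nat_lit 1) (nat_lit 4) (nat_lit 0) true (nat_lit 8) true (nat_lit 11) true (nat_lit 1) true (nat_lit 10) true (nat_lit 7) (.s true (nat_lit 32) (nat_lit 13) (nat_lit 3) (nat_lit 1) (nat_lit 1) true (nat_lit 4) true (nat_lit 10) true (nat_lit 1) true (nat_lit 8) true (nat_lit 10) (.s true (nat_lit 32) (nat_lit 16) (nat_lit 0) (nat_lit 0) (nat_lit 4) true (nat_lit 4) true (nat_lit 7) true (nat_lit 0) true (nat_lit 11) true (nat_lit 11) (.s false (nat_lit 32) (nat_lit 17) (nat_lit 0) (nat_lit 0) (nat_lit 4) true (nat_lit 4) true (nat_lit 7) true (nat_lit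 0) true (nat_lit 11) true (nat_lit 11) (.s true (nat_lit 16) (nat_lit 15) (nat_lit 0) (nat_lit 1) (nat_lit 3) true (nat_lit 5) true (nat_lit 8) true (nat_lit 0) true (nat_lit 11) true (nat_lit 10) (.s true (nat_lit 16) (nat_lit 16) (nat_lit 0) (nat_lit 1) (nat_lit 3) true (nat_lit 5) true (nat_lit 8) true (nat_lit 0) true (nat_lit 11) true (nat_lit 10) (.s false (nat_lit 16) (nat_lit 17) (nat_lit 0) (nat_lit 1) (nat_lit 3) true (nat_lit 5) true (nat_lit 8) true (nat_lit 0) true (nat_lit 11) true (nat_lit 10) (.s true (nat_lit 32) (nat_lit 16) (nat_lit 1) (nat_lit 1) (nat_lit 2) true (nat_lit 5) true (nat_lit 9) true (nat_lit 0) true (nat_lit 10) true (nat_lit 10) (.s false (nat_lit 16) (nat_lit 17) (nat_lit 1) (nat_lit 1) (nat_lit 2) true (nat_lit 5) true (nat_lit 9) true (nat_lit 0) true (nat_lit 10) true (nat_lit 10) (.s false (nat_lit 16) (nat_lit 15) (nat_lit 1) (nat_lit 2)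 (nat_lit 1) true (nat_lit 7) true (nat_lit 10) true (nat_lit 0) true (nat_lit 10) true (nat_lit 9) (.s true (nat_lit 16) (nat_lit 16) (nat_lit 1) (nat_lit 2) (nat_lit 1) true (nat_lit 7) true (nat_lit 10) true (nat_lit 0) true (nat_lit 10) true (nat_lit 9) (.s false (nat_lit 32) (nat_lit 16) (nat_lit 2) (nat_lit 1) (nat_lit 1) true (nat_lit 5) true (nat_lit 10) true (nat_lit 0) true (nat_lit 9) true (nat_lit 10) dzE_i44)))))))))))))))))))))))))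

noncomputable def dzE_il : IL := (.s true (nat_lit 32) (nat_lit 4) (nat_lit 2) (nat_lit 2) (nat_lit 4) true (nat_lit 0) true (nat_lit 7) true (nat_lit 7) true (nat_lit 9) true (nat_lit 9) (.s false (nat_lit 32) (nat_lit 4) (nat_lit 2) (nat_lit 3) (nat_lit 3) true (nat_lit 1) true (nat_lit 8) true (nat_lit 7) true (nat_lit 9) true (nat_lit 8) (.s false (nat_lit 16) (nat_lit 4) (nat_lit 3) (nat_lit 2) (nat_lit 3) true (nat_lit 0) true (nat_lit 8) true (nat_lit 7) true (nat_lit 8) true (nat_lit 9) (.s true (nat_lit 32) (nat_lit 5) (nat_lit 1) (nat_lit 4) (nat_lit 3) true (nat_lit 4) true (nat_lit 8) true (nat_lit 6) true (nat_lit 10) true (nat_lit 7) (.s true (nat_lit 32) (nat_lit 5) (nat_lit 4) (nat_lit 0) (nat_lit 4) false (nat_lit 2) true (nat_lit 7) true (nat_lit 6) true (nat_lit 7) true (nat_lit 11) (.s true (nat_lit 16) (nat_lit 7) (nat_lit 1) (nat_lit 1) (nat_lit 6) true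 (nat_lit 0) true (nat_lit 5) true (nat_lit 5) true (nat_lit 10) true (nat_lit 10) (.s false (nat_lit 32) (nat_lit 6) (nat_lit 1) (nat_lit 2) (nat_lit 4) true (nat_lit 3) true (nat_lit 7) true (nat_lit 5) true (nat_lit 10) true (nat_lit 9) (.s false (nat_lit 16) (nat_lit 6) (nat_lit 2) (nat_lit 1) (nat_lit 4) true (nat_lit 0) true (nat_lit 7) true (nat_lit 5) true (nat_lit 9) true (nat_lit 10) (.s false (nat_lit 16) (nat_lit 7) (nat_lit 2) (nat_lit 4) (nat_lit 1) true (nat_lit 5) true (nat_lit 10) true (nat_lit 5) true (nat_lit 9) true (nat_lit 7) (.s false (nat_lit 16) (nat_lit 6) (nat_lit 3) (nat_lit 3) (nat_lit 1) true (nat_lit 4) true (nat_lit 10) true (nat_lit 5) true (nat_lit 8) true (nat_lit 8) dzE_i45))))))))))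

theorem dzE_chk : chk 1 idsM5 dzE_D par2 (clsL [0,0,0,0,1,1,1,1]) zEEx (.c (nat_lit 1) (nat_lit 1) (.c (nat_lit 1) (nat_lit 1) (.c (nat_lit 1) (nat_lit 1) (.c (nat_lit 1) (nat_lit 1) (.c (nat_lit 0) (nat_lit 16) (.c (nat_lit 0) (nat_lit 16) (.c (nat_lit 0) (nat_lit 16) (.c (nat_lit 0) (nat_lit 16) .nil)))))))) (nat_lit 214) (nat_lit 68) (nat_lit 1) dzE_gs dzE_il = true := by
  decide +kernel

end Chk

/-- certificate of `zEEx` -/
theorem cert_zEEx : Cert.{u} 1 idsM5 par2 (clsL [0,0,0,0,1,1,1,1]) zEEx :=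
  Chk.chk_sound _ _ (by simp [idsM5]) (by simp [idsM5]) _ _ _ _ _ _ _ _ _ _ Chk.dzE_chk

end Pool.Agent.MalP
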