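import Pool.Agent.MalP.P5.Of5
import Pool.Agent.MalP.P5.CertzE

/-! # Characteristic 5: `c(X6) (ab) = 0` -/

set_option autoImplicit false

namespace Pool.Agent.MalP.P5

universe u v

open Finset Equiv

/-- the permutations -/
def tE : Fin 5 → Perm (Fin 8) :=
  ![swap 5 6, swap 5 6 * swap 5 7, swap 4 6 * swap 4 5, swap 4 5 * swap 5 7 * swap 7 6,
    swap 4 6 * swap 5 7]

theorem tE_s0 : Perm.sign (tE 0) = -1 := by decide
theorem tE_s1 : Perm.sign (tE 1) = 1 := by decide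
theorem tE_s2 : Perm.sign (tE 2) = 1 := by decide
theorem tE_s3 : Perm.sign (tE 3) = -1 := by decide
theorem tE_s4 : Perm.sign (tE 4) = 1 := by decide

section defs

variable {A : Type v} [NonUnitalNonAssocRing A]

/-- `c(x0..x5)(x6 x7)` -/
def TT (x0 x1 x2 x3 x4 x5 x6 x7 : A) : A := cc x0 x1 x2 x3 x4 x5 * (x6 * x7)

def gE (z : Fin 8 → A) : A := TT (z 0) (z 1) (z 2) (z 3) (z 4) (z 5) (z 6) (z 7)

def RE (x0 x1 x2 x3 x4 x5 x6 x7 : A) : A :=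
  TT x0 x1 x2 x3 x4 x5 x6 x7 - TT x0 x1 x2 x3 x4 x6 x5 x7 + TT x0 x1 x2 x3 x4 x7 x5 x6 +
    TT x0 x1 x2 x3 x5 x6 x4 x7 - TT x0 x1 x2 x3 x5 x7 x4 x6 + TT x0 x1 x2 x3 x6 x7 x4 x5

def fE (z : Fin 8 → A) : A := RE (z 0) (z 1) (z 2) (z 3) (z 4) (z 5) (z 6) (z 7)

theorem gE_0 (z : Fin 8 → A) : gE (z ∘ tE 0) =
    TT (z 0) (z 1) (z 2) (z 3) (z 4) (z 6) (z 5) (z 7) := rfl
theorem gE_1 (z : Fin 8 → A) : gE (z ∘ tE 1) =
    TT (z 0) (z 1) (z 2) (z 3) (z 4) (z 7) (z 5) (z 6) := rfl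
theorem gE_2 (z : Fin 8 → A) : gE (z ∘ tE 2) =
    TT (z 0) (z 1) (z 2) (z 3) (z 5) (z 6) (z 4) (z 7) := rfl
theorem gE_3 (z : Fin 8 → A) : gE (z ∘ tE 3) =
    TT (z 0) (z 1) (z 2) (z 3) (z 5) (z 7) (z 4) (z 6) := rfl
theorem gE_4 (z : Fin 8 → A) : gE (z ∘ tE 4) =
    TT (z 0) (z 1) (z 2) (z 3) (z 6) (z 7) (z 4) (z 5) := rfl

end defs

section

variable {A : Type v} [NonUnitalNonAssocRing A] (hs : FSk A)

include hs

theorem T01 (x0 x1 x2 x3 x4 x5 x6 x7 : A) : TT x1 x0 x2 x3 x4 x5 x6 x7 =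
    - TT x0 x1 x2 x3 x4 x5 x6 x7 := by unfold TT; rw [hs.c01 x0 x1, neg_mul]
theorem T12 (x0 x1 x2 x3 x4 x5 x6 x7 : A) : TT x0 x2 x1 x3 x4 x5 x6 x7 =
    - TT x0 x1 x2 x3 x4 x5 x6 x7 := by unfold TT; rw [hs.c12 x0 x1, neg_mul]
theorem T23 (x0 x1 x2 x3 x4 x5 x6 x7 : A) : TT x0 x1 x3 x2 x4 x5 x6 x7 =
    - TT x0 x1 x2 x3 x4 x5 x6 x7 := by unfold TT; rw [hs.c23 x0 x1, neg_mul]
theorem T34 (x0 x1 x2 x3 x4 x5 x6 x7 : A) : TT x0 x1 x2 x4 x3 x5 x6 x7 =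
    - TT x0 x1 x2 x3 x4 x5 x6 x7 := by unfold TT; rw [hs.c34 x0 x1, neg_mul]
theorem T45 (x0 x1 x2 x3 x4 x5 x6 x7 : A) : TT x0 x1 x2 x3 x5 x4 x6 x7 =
    - TT x0 x1 x2 x3 x4 x5 x6 x7 := by unfold TT; rw [hs.c45 x0 x1, neg_mul]
theorem T67 (x0 x1 x2 x3 x4 x5 x6 x7 : A) : TT x0 x1 x2 x3 x4 x5 x7 x6 =
    - TT x0 x1 x2 x3 x4 x5 x6 x7 := by unfold TT; rw [hs.toIsMalcev.ac x7 x6, mul_neg]

end

variable (F : Type u) [Field F] [C23 F] {A : Type v} [NonUnitalNonAssocRing A] [Module F A]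
  (h : IsM5 A)

include F h

theorem RE_zero (x0 x1 x2 x3 x4 x5 x6 x7 : A) : RE x0 x1 x2 x3 x4 x5 x6 x7 = 0 := by
  have hs := fsk F h.toIsMalcev
  exact super_mod (hsm := by decide +kernel) idsM5_ml 8 par2 (clsL [0, 0, 0, 0, 1, 1, 1, 1]) zEEx (by decide +kernel)
    (by decide +kernel) (by decide) (by decide +kernel) cert_zEEx (h.algM5 F)
    (wv 0 0 0 0) tE (by decide) (fun _ => gE) 6 fE
    (fun z => by
      have e1 : zEEx.ev (asg 8 (clsL [0, 0, 0, 0, 1, 1, 1, 1]) z (wv 0 0 0 0)) = gE z := rfl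
      rw [e1, Fin.sum_univ_five, tE_s0, tE_s1, tE_s2, tE_s3, tE_s4, gE_0, gE_1, gE_2, gE_3, gE_4]
      unfold fE RE gE
      simp only [Units.val_neg, Units.val_one]
      module)
    (by decide)
    (fun i j hij hc z => by
      fin_cases i <;> fin_cases j <;>
        first | (exfalso; revert hij; decide) | (exfalso; revert hc; decide) | skip
      · show RE (z 1) (z 0) (z 2) (z 3) (z 4) (z 5) (z 6) (z 7) = - fE z
        unfold fE RE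
        simp only [T01 hs (z 0) (z 1)]
        module
      · show RE (z 0) (z 2) (z 1) (z 3) (z 4) (z 5) (z 6) (z 7) = - fE z
        unfold fE RE
        simp only [T12 hs (z 0) (z 1)]
        module
      · show RE (z 0) (z 1) (z 3) (z 2) (z 4) (z 5) (z 6) (z 7) = - fE z
        unfold fE RE
        simp only [T23 hs (z 0) (z 1) (z 2)]
        module
      · show RE (z 0) (z 1) (z 2) (z 3) (z 5) (z 4) (z 6) (z 7) = - fE z
        unfold fE RE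
        rw [T45 hs (z 0) (z 1) (z 2) (z 3) (z 4) (z 5),
          T67 hs (z 0) (z 1) (z 2) (z 3) (z 6) (z 7) (z 4) (z 5)]
        module
      · show RE (z 0) (z 1) (z 2) (z 3) (z 4) (z 6) (z 5) (z 7) = - fE z
        unfold fE RE
        rw [T67 hs (z 0) (z 1) (z 2) (z 3) (z 4) (z 7) (z 5) (z 6),
          T45 hs (z 0) (z 1) (z 2) (z 3) (z 5) (z 6)]
        module
      · show RE (z 0) (z 1) (z 2) (z 3) (z 4) (z 5) (z 7) (z 6) = - fE z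
        unfold fE RE
        rw [T67 hs (z 0) (z 1) (z 2) (z 3) (z 4) (z 5) (z 6) (z 7),
          T45 hs (z 0) (z 1) (z 2) (z 3) (z 6) (z 7)]
        module) ![x0, x1, x2, x3, x4, x5, x6, x7]

omit h in
theorem self_neg {x : A} (hx : x = -x) : x = 0 := by
  refine tf_of_field (M := 1) F 2 x smooth_2 ?_
  rw [two_zsmul]
  nth_rewrite 2 [hx]
  exact add_neg_cancel x

/-- (R2) -/
theorem E_R2 (z0 z1 z6 z7 b a : A) : TT z0 z1 z6 z7 b a a b = 0 := by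
  have hs := fsk F h.toIsMalcev
  have key := RE_zero F h z0 z1 b a a b z6 z7
  unfold RE at key
  have e1 : ∀ p q r, TT z0 z1 b a a p q r = 0 := fun p q r => by
    apply self_neg F
    exact T34 hs z0 z1 b a a p q r
  have e2 : ∀ p q r, TT z0 z1 b a b p q r = 0 := fun p q r => by
    rw [T34 hs z0 z1 b b a p q r, neg_eq_zero]
    apply self_neg F
    exact T23 hs z0 z1 b b a p q r
  rw [e1, e1, e1, e2, e2] at key
  have k2 : TT z0 z1 b a z6 z7 a b = 0 := by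
    rw [← key]
    abel
  have k3 : TT z0 z1 z6 z7 b a a b = TT z0 z1 b a z6 z7 a b := by
    rw [T45 hs z0 z1 z6 z7 a b, T34 hs z0 z1 z6 a z7 b, T23 hs z0 z1 a z6 z7 b,
      T45 hs z0 z1 a z6 b z7, T34 hs z0 z1 a b z6 z7, T23 hs z0 z1 b a z6 z7]
    simp only [neg_neg]
  rw [k3, k2]

omit F h in
theorem TT_add5 (x0 x1 x2 x3 x4 a b p q : A) : TT x0 x1 x2 x3 x4 (a + b) p q =
    TT x0 x1 x2 x3 x4 a p q + TT x0 x1 x2 x3 x4 b p q := by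
  unfold TT
  rw [cc_add5, add_mul]

omit F h in
theorem TT_add6 (x0 x1 x2 x3 x4 a b p q : A) : TT x0 x1 x2 x3 x4 p (a + b) q =
    TT x0 x1 x2 x3 x4 p a q + TT x0 x1 x2 x3 x4 p b q := by
  unfold TT
  rw [add_mul, mul_add]

/-- (P1) -/
theorem E_P1 (z0 z1 z2 z3 b a a' : A) : TT z0 z1 z2 z3 b a' a b = - TT z0 z1 z2 z3 b a a' b := by
  have h1 := E_R2 F h z0 z1 z2 z3 b (a + a')
  rw [TT_add5, TT_add6, TT_add6, E_R2 F h, E_R2 F h, zero_add, add_zero] at h1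
  exact eq_neg_of_add_eq_zero_right h1

/-- (R3) -/
theorem E_R3 (z0 z1 z2 z3 z4 b a : A) : TT z0 z1 z2 z3 z4 b b a = 0 := by
  have hs := fsk F h.toIsMalcev
  have key := RE_zero F h z0 z1 z2 b b z3 z4 a
  unfold RE at key
  have e1 : ∀ p q r, TT z0 z1 z2 b b p q r = 0 := fun p q r => by
    apply self_neg F
    exact T34 hs z0 z1 z2 b b p q r
  rw [e1, e1, e1] at key
  -- `b` to the slot 4
  have f1 : ∀ p q r s, TT z0 z1 z2 b p q r s = - TT z0 z1 z2 p b q r s := fun p q r s => by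
    rw [T34 hs z0 z1 z2 p b q r s]
  rw [f1, f1, f1] at key
  -- all terms are `± W`, `W = c(z0,z1,z2,z3,b,z4)(b a)`
  have g2 : TT z0 z1 z2 z3 b a b z4 = - TT z0 z1 z2 z3 b z4 b a := by
    rw [T67 hs _ _ _ _ _ _ z4 b, E_P1 F h z0 z1 z2 z3 b z4 a, T67 hs _ _ _ _ _ _ b a]
    simp only [neg_neg]
  have g3 : TT z0 z1 z2 z4 b a b z3 = TT z0 z1 z2 z3 b z4 b a := by
    have i1 : TT z0 z1 z2 z4 b a b z3 = - TT z0 z1 z2 z4 b z3 b a := by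
      rw [T67 hs _ _ _ _ _ _ z3 b, E_P1 F h z0 z1 z2 z4 b z3 a, T67 hs _ _ _ _ _ _ b a]
      simp only [neg_neg]
    rw [i1, T34 hs z0 z1 z2 b z4 z3, T45 hs z0 z1 z2 b z3 z4, T34 hs z0 z1 z2 z3 b z4]
    simp only [neg_neg]
  rw [g2, g3] at key
  have k2 : (3 : ℤ) • TT z0 z1 z2 z3 b z4 b a = 0 := by
    have : (3 : ℤ) • TT z0 z1 z2 z3 b z4 b a = - (0 - 0 + 0 + -TT z0 z1 z2 z3 b z4 b a -
        - - TT z0 z1 z2 z3 b z4 b a + -TT z0 z1 z2 z3 b z4 b a) := by module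
    rw [this, key, neg_zero]
  have k3 := tf_of_field (M := 1) F 3 _ smooth_3 k2
  rw [T45 hs z0 z1 z2 z3 b z4, k3, neg_zero]

/-- (P2) -/
theorem E_P2 (z0 z1 z2 z3 z4 b b' a : A) :
    TT z0 z1 z2 z3 z4 b b' a = - TT z0 z1 z2 z3 z4 b' b a := by
  have h1 := E_R3 F h z0 z1 z2 z3 z4 (b + b') a
  rw [TT_add5, TT_add6, TT_add6, E_R3 F h, E_R3 F h, zero_add, add_zero] at h1
  exact eq_neg_of_add_eq_zero_left h1

/-- (E) `c(X6) (ab) = 0` -/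
theorem c_E (x0 x1 x2 x3 x4 x5 a b : A) : cc x0 x1 x2 x3 x4 x5 * (a * b) = 0 := by
  have hs := fsk F h.toIsMalcev
  have key := RE_zero F h x0 x1 x2 x3 x4 x5 a b
  unfold RE at key
  have e1 : TT x0 x1 x2 x3 x4 a x5 b = - TT x0 x1 x2 x3 x4 x5 a b := E_P2 F h ..
  have e2 : TT x0 x1 x2 x3 x4 b x5 a = TT x0 x1 x2 x3 x4 x5 a b := by
    rw [E_P2 F h x0 x1 x2 x3 x4 b x5 a, T67 hs x0 x1 x2 x3 x4 x5 a b, neg_neg]
  have e3 : TT x0 x1 x2 x3 x5 a x4 b = TT x0 x1 x2 x3 x4 x5 a b := by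
    rw [E_P2 F h x0 x1 x2 x3 x5 a x4 b, T45 hs x0 x1 x2 x3 x4 x5 a b, neg_neg]
  have e4 : TT x0 x1 x2 x3 x5 b x4 a = - TT x0 x1 x2 x3 x4 x5 a b := by
    rw [E_P2 F h x0 x1 x2 x3 x5 b x4 a, T45 hs x0 x1 x2 x3 x4 x5 b a,
      T67 hs x0 x1 x2 x3 x4 x5 a b, neg_neg]
  have e5 : TT x0 x1 x2 x3 a b x4 x5 = TT x0 x1 x2 x3 x4 x5 a b := by
    rw [E_P2 F h x0 x1 x2 x3 a b x4 x5, T45 hs x0 x1 x2 x3 x4 a b x5,
      T67 hs x0 x1 x2 x3 x4 a x5 b, e1]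
    simp only [neg_neg]
  rw [e1, e2, e3, e4, e5] at key
  have k2 : (6 : ℤ) • TT x0 x1 x2 x3 x4 x5 a b = 0 := by
    rw [← key]
    module
  exact tf_of_field (M := 1) F 6 _ smooth_6 k2

end Pool.Agent.MalP.P5
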