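import Pool.Agent.MalP.Check4
import Pool.Agent.MalP.P5.ExZ5

/-! # Certificate of zPEx -/

set_option autoImplicit false
set_option maxRecDepth 100000

namespace Pool.Agent.MalP

universe u

namespace Chk

noncomputable def dzP_c49 : Cm := .mk (nat_lit 9) (nat_lit 49) (nat_lit 11) (nat_lit 3) (.c (nat_lit 3) (nat_lit 1) (nat_lit 2) (nat_lit 1) (nat_lit 3) (.c (nat_lit 5) (nat_lit 1) (nat_lit 1) (nat_lit 1) (nat_lit 4) (.c (nat_lit 6) (nat_lit 2) (nat_lit 0) (nat_lit 1) (nat_lit 5) .nil)))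

noncomputable def dzP_c34 : Cm := .mk (nat_lit 13) (nat_lit 34) (nat_lit 14) (nat_lit 3) (.c (nat_lit 3) (nat_lit 1) (nat_lit 3) (nat_lit 1) (nat_lit 3) (.c (nat_lit 4) (nat_lit 1) (nat_lit 2) (nat_lit 1) (nat_lit 4) (.c (nat_lit 6) (nat_lit 2) (nat_lit 1) (nat_lit 1) (nat_lit 5) (.c (nat_lit 8) (nat_lit 2) (nat_lit 0) (nat_lit 1) (nat_lit 7) .nil))))

noncomputable def dzP_c19 : Cm := .mk (nat_lit 18) (nat_lit 19) (nat_lit 17) (nat_lit 3) (.c (nat_lit 4) (nat_lit 1) (nat_lit 3) (nat_lit 1) (nat_lit 3) (.c (nat_lit 8) (nat_lit 2) (nat_lit 1) (nat_lit 1) (nat_lit 4) (.c (nat_lit 10) (nat_lit 1) (nat_lit 0) (nat_lit 1) (nat_lit 6) .nil)))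

noncomputable def dzP_c50 : Cm := .mk (nat_lit 23) (nat_lit 50) (nat_lit 21) (nat_lit 6) (.c (nat_lit 5) (nat_lit 1) (nat_lit 4) (nat_lit 1) (nat_lit 6) (.c (nat_lit 6) (nat_lit 2) (nat_lit 3) (nat_lit 1) (nat_lit 7) (.c (nat_lit 8) (nat_lit 2) (nat_lit 2) (nat_lit 1) (nat_lit 9) (.c (nat_lit 11) (nat_lit 3) (nat_lit 1) (nat_lit 1) (nat_lit 11) (.c (nat_lit 14) (nat_lit 3) (nat_lit 0) (nat_lit 1) (nat_lit 14) .nil)))))

noncomputable def dzP_c35 : Cm := .mk (nat_lit 34) (nat_lit 35) (nat_lit 27) (nat_lit 6) (.c (nat_lit 6) (nat_lit 2) (nat_lit 4) (nat_lit 1) (nat_lit 6) (.c (nat_lit 8) (nat_lit 2) (nat_lit 3) (nat_lit 1) (nat_lit 8) (.c (nat_lit 10) (nat_lit 1) (nat_lit 2) (nat_lit 1) (nat_lit 10) (.c (nat_lit 14) (nat_lit 3) (nat_lit 1) (nat_lit 1) (nat_lit 11) (.c (nat_lit 17) (nat_lit 3) (nat_lit 0) (nat_lit 1) (nat_lit 14) .nil)))))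

noncomputable def dzP_c20 : Cm := .mk (nat_lit 45) (nat_lit 20) (nat_lit 33) (nat_lit 4) (.c (nat_lit 8) (nat_lit 2) (nat_lit 4) (nat_lit 1) (nat_lit 4) (.c (nat_lit 10) (nat_lit 1) (nat_lit 3) (nat_lit 1) (nat_lit 6) (.c (nat_lit 17) (nat_lit 3) (nat_lit 1) (nat_lit 1) (nat_lit 7) (.c (nat_lit 20) (nat_lit 1) (nat_lit 0) (nat_lit 1) (nat_lit 10) .nil))))

noncomputable def dzP_c51 : Cm := .mk (nat_lit 52) (nat_lit 51) (nat_lit 37) (nat_lit 11) (.c (nat_lit 8) (nat_lit 2) (nat_lit 6) (nat_lit 2) (nat_lit 11) (.c (nat_lit 10) (nat_lit 1) (nat_lit 5) (nat_lit 1) (nat_lit 15) (.c (nat_lit 11) (nat_lit 3) (nat_lit 4) (nat_lit 1) (nat_lit 16) (.c (nat_lit 14) (nat_lit 3) (nat_lit 3) (nat_lit 1) (nat_lit 19) (.c (nat_lit 17) (nat_lit 3) (nat_lit 2) (nat_lit 1) (nat_lit 22) (.c (nat_lit 21) (nat_lit 6) (nat_lit 1) (nat_lit 1) (nat_lit 25) (.c (nat_lit 27) (nat_lit 6) (nat_lit 0)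 (nat_lit 1) (nat_lit 31) .nil)))))))

noncomputable def dzP_c36 : Cm := .mk (nat_lit 78) (nat_lit 36) (nat_lit 48) (nat_lit 10) (.c (nat_lit 8) (nat_lit 2) (nat_lit 8) (nat_lit 2) (nat_lit 10) (.c (nat_lit 10) (nat_lit 1) (nat_lit 6) (nat_lit 2) (nat_lit 14) (.c (nat_lit 14) (nat_lit 3) (nat_lit 4) (nat_lit 1) (nat_lit 16) (.c (nat_lit 17) (nat_lit 3) (nat_lit 3) (nat_lit 1) (nat_lit 19) (.c (nat_lit 20) (nat_lit 1) (nat_lit 2) (nat_lit 1) (nat_lit 22) (.c (nat_lit 27) (nat_lit 6) (nat_lit 1) (nat_lit 1) (nat_lit 23) (.c (nat_lit 33) (nat_lit 4) (nat_lit 0) (nat_lit 1) (nat_lit 29) .nil)))))))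

noncomputable def dzP_t0 : Tr := (.nd (.nd (.nd (.nd (.nd (.nd (.nd .leaf (nat_lit 0) (nat_lit 0) (.p (nat_lit 2) (nat_lit 2) .z) .df .leaf) (nat_lit 1024) (nat_lit 1) (.p (nat_lit 3) (nat_lit 2) .z) .df (.nd .leaf (nat_lit 1025) (nat_lit 2) (.p (nat_lit 4) (nat_lit 2) .z) .df .leaf)) (nat_lit 2048) (nat_lit 3) (.p (nat_lit 5) (nat_lit 2) .z) .df (.nd (.nd .leaf (nat_lit 2049) (nat_lit 4) (.p (nat_lit 6) (nat_lit 2) .z) .df .leaf) (nat_lit 3072) (nat_lit 5) (.p (nat_lit 7) (nat_lit 2) .z) .df .leaf)) (nat_lit 3073) (nat_lit 6) (.p (nat_lit 8) (nat_lit 2) .z) .df (.nd (.nd (.nd .leaf (nat_lit 3074) (nat_lit 12) (.p (nat_lit 11) (nat_lit 2) (.n (nat_lit 12) (nat_lit 2) .z)) (.ct dzP_c49 (nat_lit 2) (nat_lit 0) (.s true (nat_lit 1) (nat_lit 1) (nat_lit 0) (nat_lit 0) (nat_lit 0) true (nat_lit 0) true (nat_lit 2) true (nat_lit 1) true (nat_lit 2) true (nat_lit 2) (.e false (nat_lit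 2) (nat_lit 5) (nat_lit 1) (nat_lit 1) (.e true (nat_lit 2) (nat_lit 6) (nat_lit 0) (nat_lit 2) .nil)))) .leaf) (nat_lit 4096) (nat_lit 7) (.p (nat_lit 9) (nat_lit 2) .z) .df .leaf) (nat_lit 4097) (nat_lit 8) (.p (nat_lit 10) (nat_lit 2) .z) .df (.nd (.nd .leaf (nat_lit 4098) (nat_lit 17) (.p (nat_lit 15) (nat_lit 4) (.n (nat_lit 16) (nat_lit 4) .z)) (.ct dzP_c34 (nat_lit 2) (nat_lit 1) (.s true (nat_lit 1) (nat_lit 1) (nat_lit 0) (nat_lit 1) (nat_lit 0) true (nat_lit 1) true (nat_lit 3) true (nat_lit 2) true (nat_lit 3) true (nat_lit 2) (.e true (nat_lit 4) (nat_lit 8) (nat_lit 0) (nat_lit 3) (.e false (nat_lit 4) (nat_lit 7) (nat_lit 1) (nat_lit 2) .nil)))) .leaf) (nat_lit 4099) (nat_lit 21) (.p (nat_lit 18) (nat_lit 2) (.n (nat_lit 19) (nat_lit 2) .z)) (.ct dzP_c19 (nat_lit 2) (nat_lit 0) (.s true (nat_lit 1) (nat_lit 1) (nat_lit 0) (nat_lit 1) (nat_lit 1) true (nat_lit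 0) true (nat_lit 1) true (nat_lit 1) true (nat_lit 2) true (nat_lit 1) (.e true (nat_lit 2) (nat_lit 10) (nat_lit 0) (nat_lit 2) (.e false (nat_lit 2) (nat_lit 9) (nat_lit 1) (nat_lit 1) .nil)))) .leaf))) (nat_lit 5121) (nat_lit 9) (.p (nat_lit 11) (nat_lit 2) .z) .df (.nd (.nd (.nd (.nd .leaf (nat_lit 5124) (nat_lit 32) (.n (nat_lit 22) (nat_lit 2) (.p (nat_lit 23) (nat_lit 2) (.p (nat_lit 24) (nat_lit 4) (.n (nat_lit 25) (nat_lit 4) (.p (nat_lit 26) (nat_lit 2) .z))))) (.ct dzP_c50 (nat_lit 2) (nat_lit 0) (.s true (nat_lit 1) (nat_lit 2) (nat_lit 1) (nat_lit 0) (nat_lit 1) true (nat_lit 0) true (nat_lit 3) true (nat_lit 2) true (nat_lit 3) true (nat_lit 4) (.e true (nat_lit 2) (nat_lit 8) (nat_lit 2) (nat_lit 2) (.e true (nat_lit 2) (nat_lit 11) (nat_lit 1) (nat_lit 3) (.e false (nat_lit 2) (nat_lit 14) (nat_lit 0) (nat_lit 4) .nil))))) .leaf) (nat_lit 6144) (nat_lit 10)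 (.p (nat_lit 12) (nat_lit 2) .z) .df (.nd .leaf (nat_lit 6145) (nat_lit 13) (.p (nat_lit 14) (nat_lit 2) .z) .df .leaf)) (nat_lit 6147) (nat_lit 28) (.p (nat_lit 26) (nat_lit 2) .z) .df (.nd (.nd .leaf (nat_lit 6148) (nat_lit 41) (.p (nat_lit 27) (nat_lit 2) (.n (nat_lit 28) (nat_lit 6) (.p (nat_lit 29) (nat_lit 2) (.p (nat_lit 31) (nat_lit 2) (.p (nat_lit 32) (nat_lit 2) .z))))) (.ct dzP_c35 (nat_lit 2) (nat_lit 0) (.s true (nat_lit 1) (nat_lit 4) (nat_lit 0) (nat_lit 0) (nat_lit 1) true (nat_lit 1) true (nat_lit 3) true (nat_lit 0) true (nat_lit 4) true (nat_lit 4) (.e true (nat_lit 2) (nat_lit 9) (nat_lit 3) (nat_lit 1) (.e false (nat_lit 2) (nat_lit 14) (nat_lit 1) (nat_lit 3) (.e true (nat_lit 2) (nat_lit 15) (nat_lit 1) (nat_lit 3) (.e true (nat_lit 2) (nat_lit 16) (nat_lit 1) (nat_lit 3) (.e false (nat_lit 2) (nat_lit 18) (nat_lit 0) (nat_lit 4) .nil))))))) .leaf)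 (nat_lit 7168) (nat_lit 11) (.p (nat_lit 13) (nat_lit 2) .z) .df .leaf)) (nat_lit 7169) (nat_lit 14) (.p (nat_lit 15) (nat_lit 2) .z) .df (.nd (.nd (.nd .leaf (nat_lit 7171) (nat_lit 30) (.p (nat_lit 21) (nat_lit 1) (.n (nat_lit 22) (nat_lit 1) (.p (nat_lit 24) (nat_lit 1) (.n (nat_lit 25) (nat_lit 1) .z)))) (.ct dzP_c50 (nat_lit 4) (nat_lit 1) (.s true (nat_lit 1) (nat_lit 3) (nat_lit 1) (nat_lit 0) (nat_lit 0) true (nat_lit 1) true (nat_lit 4) true (nat_lit 1) true (nat_lit 3) true (nat_lit 4) (.e true (nat_lit 2) (nat_lit 16) (nat_lit 0) (nat_lit 4) (.e false (nat_lit 2) (nat_lit 11) (nat_lit 1) (nat_lit 3) (.e true (nat_lit 2) (nat_lit 12) (nat_lit 1) (nat_lit 3) (.e false (nat_lit 2) (nat_lit 15) (nat_lit 0) (nat_lit 4) .nil)))))) .leaf) (nat_lit 7172) (nat_lit 39) (.p (nat_lit 32) (nat_lit 2) .z) .df .leaf) (nat_lit 8192) (nat_lit 15) (.p (nat_lit 16) (nat_lit 2) .z)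 .df (.nd (.nd .leaf (nat_lit 8193) (nat_lit 18) (.p (nat_lit 17) (nat_lit 2) .z) .df .leaf) (nat_lit 8194) (nat_lit 29) (.n (nat_lit 21) (nat_lit 2) (.p (nat_lit 22) (nat_lit 2) (.n (nat_lit 24) (nat_lit 4) (.p (nat_lit 25) (nat_lit 4) (.n (nat_lit 26) (nat_lit 2) .z))))) (.ct dzP_c50 (nat_lit 2) (nat_lit 2) (.s true (nat_lit 1) (nat_lit 2) (nat_lit 0) (nat_lit 1) (nat_lit 1) true (nat_lit 1) true (nat_lit 3) true (nat_lit 2) true (nat_lit 4) true (nat_lit 3) (.e true (nat_lit 2) (nat_lit 6) (nat_lit 3) (nat_lit 1) (.e true (nat_lit 2) (nat_lit 11) (nat_lit 1) (nat_lit 3) (.e true (nat_lit 4) (nat_lit 15) (nat_lit 0) (nat_lit 4) (.e false (nat_lit 4) (nat_lit 16) (nat_lit 0) (nat_lit 4) (.e false (nat_lit 2) (nat_lit 12) (nat_lit 1) (nat_lit 3) .nil))))))) .leaf)))) (nat_lit 8195) (nat_lit 42) (.n (nat_lit 28) (nat_lit 1) (.p (nat_lit 29) (nat_lit 1) (.n (nat_lit 30) (nat_lit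 1) (.p (nat_lit 31) (nat_lit 1) .z)))) (.ct dzP_c35 (nat_lit 4) (nat_lit 1) (.s true (nat_lit 1) (nat_lit 3) (nat_lit 0) (nat_lit 1) (nat_lit 1) true (nat_lit 1) true (nat_lit 3) true (nat_lit 1) true (nat_lit 4) true (nat_lit 3) (.e true (nat_lit 2) (nat_lit 15) (nat_lit 1) (nat_lit 3) (.e true (nat_lit 2) (nat_lit 18) (nat_lit 0) (nat_lit 4) (.e false (nat_lit 2) (nat_lit 19) (nat_lit 0) (nat_lit 4) (.e false (nat_lit 2) (nat_lit 16) (nat_lit 1) (nat_lit 3) .nil)))))) (.nd (.nd (.nd (.nd (.nd .leaf (nat_lit 8196) (nat_lit 49) (.n (nat_lit 34) (nat_lit 2) (.p (nat_lit 36) (nat_lit 2) .z)) (.ct dzP_c20 (nat_lit 4) (nat_lit 0) (.s true (nat_lit 1) (nat_lit 3) (nat_lit 1) (nat_lit 1) (nat_lit 1) true (nat_lit 0) true (nat_lit 2) true (nat_lit 1) true (nat_lit 2) true (nat_lit 2) (.s true (nat_lit 1) (nat_lit 4) (nat_lit 1) (nat_lit 0) (nat_lit 1) true (nat_lit 0) true (nat_lit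 2) true (nat_lit 0) true (nat_lit 2) true (nat_lit 3) (.s false (nat_lit 1) (nat_lit 4) (nat_lit 1) (nat_lit 1) (nat_lit 0) true (nat_lit 1) true (nat_lit 3) true (nat_lit 0) true (nat_lit 2) true (nat_lit 2) (.e true (nat_lit 4) (nat_lit 18) (nat_lit 1) (nat_lit 2) (.e false (nat_lit 4) (nat_lit 20) (nat_lit 0) (nat_lit 3) .nil)))))) .leaf) (nat_lit 8198) (nat_lit 72) (.p (nat_lit 37) (nat_lit 2) (.n (nat_lit 40) (nat_lit 2) (.n (nat_lit 41) (nat_lit 2) (.p (nat_lit 47) (nat_lit 2) .z)))) (.ct dzP_c51 (nat_lit 2) (nat_lit 0) (.s false (nat_lit 1) (nat_lit 6) (nat_lit 1) (nat_lit 0) (nat_lit 1) true (nat_lit 2) true (nat_lit 5) true (nat_lit 0) true (nat_lit 5) true (nat_lit 6) (.e false (nat_lit 2) (nat_lit 12) (nat_lit 4) (nat_lit 2) (.e false (nat_lit 2) (nat_lit 23) (nat_lit 1) (nat_lit 5) (.e true (nat_lit 2) (nat_lit 26) (nat_lit 1) (nat_lit 5) (.e true (nat_lit 2)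 (nat_lit 27) (nat_lit 0) (nat_lit 6) .nil)))))) (.nd .leaf (nat_lit 8199) (nat_lit 71) (.p (nat_lit 37) (nat_lit 2) (.n (nat_lit 38) (nat_lit 2) (.n (nat_lit 40) (nat_lit 4) (.n (nat_lit 41) (nat_lit 2) (.n (nat_lit 42) (nat_lit 1) (.p (nat_lit 43) (nat_lit 3) (.n (nat_lit 44) (nat_lit 1) (.p (nat_lit 45) (nat_lit 1) (.p (nat_lit 47) (nat_lit 2) .z))))))))) (.ct dzP_c51 (nat_lit 2) (nat_lit 0) (.s false (nat_lit 1) (nat_lit 3) (nat_lit 0) (nat_lit 1) (nat_lit 3) true (nat_lit 0) true (nat_lit 3) true (nat_lit 3) true (nat_lit 6) true (nat_lit 5) (.e false (nat_lit 2) (nat_lit 15) (nat_lit 3) (nat_lit 3) (.e true (nat_lit 1) (nat_lit 28) (nat_lit 0) (nat_lit 6) (.e false (nat_lit 1) (nat_lit 29) (nat_lit 0) (nat_lit 6) (.e true (nat_lit 1) (nat_lit 30) (nat_lit 0) (nat_lit 6) (.e false (nat_lit 1) (nat_lit 31) (nat_lit 0) (nat_lit 6) .nil))))))) .leaf)) (nat_lit 8200) (nat_lit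 94) (.p (nat_lit 49) (nat_lit 1) (.n (nat_lit 50) (nat_lit 1) (.p (nat_lit 51) (nat_lit 1) (.n (nat_lit 52) (nat_lit 1) (.n (nat_lit 53) (nat_lit 2) (.p (nat_lit 54) (nat_lit 2) (.n (nat_lit 55) (nat_lit 2) (.p (nat_lit 57) (nat_lit 2) .z)))))))) (.ct dzP_c36 (nat_lit 2) (nat_lit 0) (.s false (nat_lit 1) (nat_lit 3) (nat_lit 1) (nat_lit 1) (nat_lit 3) true (nat_lit 0) true (nat_lit 3) true (nat_lit 3) true (nat_lit 5) true (nat_lit 5) (.e false (nat_lit 2) (nat_lit 17) (nat_lit 3) (nat_lit 3) (.e false (nat_lit 2) (nat_lit 18) (nat_lit 3) (nat_lit 3) (.e true (nat_lit 2) (nat_lit 19) (nat_lit 3) (nat_lit 3) (.e true (nat_lit 1) (nat_lit 28) (nat_lit 1) (nat_lit 5) (.e false (nat_lit 1) (nat_lit 29) (nat_lit 1) (nat_lit 5) (.e true (nat_lit 1) (nat_lit 30) (nat_lit 1) (nat_lit 5) (.e false (nat_lit 1) (nat_lit 31) (nat_lit 1) (nat_lit 5) .nil))))))))) (.nd (.nd .leaf (nat_lit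 9216) (nat_lit 16) (.n (nat_lit 14) (nat_lit 2) (.p (nat_lit 15) (nat_lit 2) (.p (nat_lit 16) (nat_lit 2) .z))) (.ct dzP_c34 (nat_lit 2) (nat_lit 3) (.s false (nat_lit 1) (nat_lit 1) (nat_lit 0) (nat_lit 0) (nat_lit 1) true (nat_lit 0) true (nat_lit 2) true (nat_lit 2) true (nat_lit 3) true (nat_lit 3) (.a false (nat_lit 2) (nat_lit 3) (nat_lit 3) (nat_lit 0) (nat_lit 0) (.e false (nat_lit 2) (nat_lit 7) (nat_lit 1) (nat_lit 2) (.e true (nat_lit 2) (nat_lit 6) (nat_lit 1) (nat_lit 2) (.e false (nat_lit 2) (nat_lit 8) (nat_lit 0) (nat_lit 3) .nil)))))) .leaf) (nat_lit 9217) (nat_lit 19) (.p (nat_lit 18) (nat_lit 2) .z) .df .leaf)) (nat_lit 9218) (nat_lit 33) (.p (nat_lit 22) (nat_lit 2) (.n (nat_lit 23) (nat_lit 2) (.n (nat_lit 26) (nat_lit 2) .z))) (.ct dzP_c50 (nat_lit 2) (nat_lit 2) (.s true (nat_lit 1) (nat_lit 2) (nat_lit 1) (nat_lit 1) (nat_lit 0) true (nat_lit 1) true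 (nat_lit 4) true (nat_lit 2) true (nat_lit 3) true (nat_lit 3) (.e true (nat_lit 2) (nat_lit 6) (nat_lit 3) (nat_lit 1) (.e true (nat_lit 2) (nat_lit 14) (nat_lit 0) (nat_lit 4) (.e false (nat_lit 2) (nat_lit 12) (nat_lit 1) (nat_lit 3) .nil))))) (.nd (.nd (.nd .leaf (nat_lit 9219) (nat_lit 40) (.p (nat_lit 28) (nat_lit 4) (.n (nat_lit 29) (nat_lit 4) (.p (nat_lit 30) (nat_lit 2) (.n (nat_lit 31) (nat_lit 2) (.n (nat_lit 32) (nat_lit 2) .z))))) (.ct dzP_c35 (nat_lit 2) (nat_lit 1) (.s true (nat_lit 1) (nat_lit 4) (nat_lit 1) (nat_lit 0) (nat_lit 0) true (nat_lit 1) true (nat_lit 4) true (nat_lit 0) true (nat_lit 3) true (nat_lit 4) (.e true (nat_lit 2) (nat_lit 19) (nat_lit 0) (nat_lit 4) (.e true (nat_lit 2) (nat_lit 7) (nat_lit 4) (nat_lit 0) (.e false (nat_lit 4) (nat_lit 15) (nat_lit 1) (nat_lit 3) (.e true (nat_lit 4) (nat_lit 16) (nat_lit 1) (nat_lit 3) (.e false (nat_lit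 2) (nat_lit 18) (nat_lit 0) (nat_lit 4) .nil))))))) .leaf) (nat_lit 9220) (nat_lit 50) (.p (nat_lit 34) (nat_lit 4) (.n (nat_lit 35) (nat_lit 4) .z)) (.ct dzP_c20 (nat_lit 2) (nat_lit 0) (.s true (nat_lit 1) (nat_lit 4) (nat_lit 1) (nat_lit 0) (nat_lit 1) true (nat_lit 0) true (nat_lit 2) true (nat_lit 0) true (nat_lit 2) true (nat_lit 3) (.e true (nat_lit 4) (nat_lit 19) (nat_lit 1) (nat_lit 2) (.e true (nat_lit 2) (nat_lit 8) (nat_lit 4) (nat_lit 0) (.e false (nat_lit 2) (nat_lit 18) (nat_lit 1) (nat_lit 2) (.e false (nat_lit 2) (nat_lit 20) (nat_lit 0) (nat_lit 3) .nil)))))) .leaf) (nat_lit 9222) (nat_lit 75) (.n (nat_lit 40) (nat_lit 4) (.n (nat_lit 41) (nat_lit 2) (.n (nat_lit 42) (nat_lit 2) (.p (nat_lit 43) (nat_lit 6) (.n (nat_lit 44) (nat_lit 4) (.p (nat_lit 45) (nat_lit 2) (.p (nat_lit 46) (nat_lit 2) (.p (nat_lit 47) (nat_lit 2) .z)))))))) (.ct dzP_c51 (nat_lit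 2) (nat_lit 0) (.s false (nat_lit 1) (nat_lit 6) (nat_lit 1) (nat_lit 1) (nat_lit 0) true (nat_lit 3) true (nat_lit 6) true (nat_lit 0) true (nat_lit 5) true (nat_lit 5) (.e false (nat_lit 2) (nat_lit 14) (nat_lit 3) (nat_lit 3) (.e false (nat_lit 2) (nat_lit 27) (nat_lit 0) (nat_lit 6) (.e true (nat_lit 2) (nat_lit 26) (nat_lit 1) (nat_lit 5) (.e true (nat_lit 2) (nat_lit 22) (nat_lit 1) (nat_lit 5) .nil)))))) (.nd (.nd .leaf (nat_lit 9223) (nat_lit 74) (.p (nat_lit 37) (nat_lit 2) (.n (nat_lit 38) (nat_lit 2) (.n (nat_lit 39) (nat_lit 2) (.n (nat_lit 40) (nat_lit 2) (.n (nat_lit 41) (nat_lit 2) (.p (nat_lit 42) (nat_lit 2) (.p (nat_lit 43) (nat_lit 2) (.p (nat_lit 47) (nat_lit 2) .z)))))))) (.ct dzP_c51 (nat_lit 2) (nat_lit 0) (.s false (nat_lit 1) (nat_lit 7) (nat_lit 1) (nat_lit 1) (nat_lit 0) true (nat_lit 3) true (nat_lit 6) true (nat_lit 0) true (nat_lit 5) true (nat_lit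 5) (.e false (nat_lit 2) (nat_lit 15) (nat_lit 3) (nat_lit 3) (.e false (nat_lit 2) (nat_lit 28) (nat_lit 0) (nat_lit 6) (.e true (nat_lit 2) (nat_lit 25) (nat_lit 1) (nat_lit 5) (.e false (nat_lit 2) (nat_lit 26) (nat_lit 1) (nat_lit 5) .nil)))))) .leaf) (nat_lit 9224) (nat_lit 93) (.p (nat_lit 48) (nat_lit 2) (.n (nat_lit 49) (nat_lit 6) (.p (nat_lit 50) (nat_lit 2) (.p (nat_lit 52) (nat_lit 2) (.p (nat_lit 53) (nat_lit 6) (.n (nat_lit 54) (nat_lit 2) (.p (nat_lit 55) (nat_lit 2) (.p (nat_lit 56) (nat_lit 2) .z)))))))) (.ct dzP_c36 (nat_lit 2) (nat_lit 0) (.s false (nat_lit 1) (nat_lit 4) (nat_lit 1) (nat_lit 0) (nat_lit 3) true (nat_lit 0) true (nat_lit 3) true (nat_lit 2) true (nat_lit 5) true (nat_lit 6) (.e false (nat_lit 2) (nat_lit 19) (nat_lit 3) (nat_lit 3) (.e false (nat_lit 2) (nat_lit 32) (nat_lit 1) (nat_lit 5) (.e true (nat_lit 2) (nat_lit 34) (nat_lit 0) (nat_lit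 6) (.e false (nat_lit 2) (nat_lit 35) (nat_lit 0) (nat_lit 6) .nil)))))) .leaf))) (nat_lit 9225) (nat_lit 98) (.p (nat_lit 48) (nat_lit 2) (.n (nat_lit 49) (nat_lit 6) (.p (nat_lit 50) (nat_lit 2) (.p (nat_lit 54) (nat_lit 4) (.n (nat_lit 55) (nat_lit 2) (.p (nat_lit 56) (nat_lit 2) .z)))))) (.ct dzP_c36 (nat_lit 2) (nat_lit 0) (.s false (nat_lit 1) (nat_lit 4) (nat_lit 0) (nat_lit 0) (nat_lit 4) true (nat_lit 0) true (nat_lit 2) true (nat_lit 2) true (nat_lit 6) true (nat_lit 6) (.e true (nat_lit 2) (nat_lit 14) (nat_lit 4) (nat_lit 2) (.e true (nat_lit 2) (nat_lit 15) (nat_lit 4) (nat_lit 2) (.e false (nat_lit 6) (nat_lit 16) (nat_lit 4) (nat_lit 2) (.e false (nat_lit 4) (nat_lit 34) (nat_lit 0) (nat_lit 6) (.e true (nat_lit 4) (nat_lit 35) (nat_lit 0) (nat_lit 6) .nil))))))) (.nd (.nd (.nd (.nd .leaf (nat_lit 10240) (nat_lit 20) (.p (nat_lit 19) (nat_lit 2) .z) .df .leaf)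 (nat_lit 10241) (nat_lit 22) (.p (nat_lit 20) (nat_lit 2) .z) .df .leaf) (nat_lit 10242) (nat_lit 44) (.n (nat_lit 27) (nat_lit 2) (.p (nat_lit 28) (nat_lit 2) (.p (nat_lit 29) (nat_lit 2) (.n (nat_lit 31) (nat_lit 2) (.n (nat_lit 32) (nat_lit 2) .z))))) (.ct dzP_c35 (nat_lit 2) (nat_lit 2) (.s true (nat_lit 1) (nat_lit 2) (nat_lit 1) (nat_lit 1) (nat_lit 1) true (nat_lit 0) true (nat_lit 3) true (nat_lit 2) true (nat_lit 3) true (nat_lit 3) (.e true (nat_lit 2) (nat_lit 6) (nat_lit 4) (nat_lit 0) (.e true (nat_lit 4) (nat_lit 15) (nat_lit 1) (nat_lit 3) (.e false (nat_lit 4) (nat_lit 16) (nat_lit 1) (nat_lit 3) .nil))))) (.nd (.nd .leaf (nat_lit 10243) (nat_lit 51) (.p (nat_lit 35) (nat_lit 2) (.n (nat_lit 36) (nat_lit 2) .z)) (.ct dzP_c20 (nat_lit 2) (nat_lit 1) (.s true (nat_lit 1) (nat_lit 3) (nat_lit 1) (nat_lit 1) (nat_lit 1) true (nat_lit 0) true (nat_lit 2) true (nat_lit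 1) true (nat_lit 2) true (nat_lit 2) (.e true (nat_lit 2) (nat_lit 8) (nat_lit 4) (nat_lit 0) (.e true (nat_lit 2) (nat_lit 18) (nat_lit 1) (nat_lit 2) (.e false (nat_lit 2) (nat_lit 19) (nat_lit 1) (nat_lit 2) .nil))))) .leaf) (nat_lit 10245) (nat_lit 73) (.n (nat_lit 38) (nat_lit 4) (.p (nat_lit 39) (nat_lit 4) (.n (nat_lit 40) (nat_lit 4) (.p (nat_lit 41) (nat_lit 2) (.n (nat_lit 42) (nat_lit 2) (.n (nat_lit 43) (nat_lit 2) (.p (nat_lit 45) (nat_lit 2) (.p (nat_lit 46) (nat_lit 2) (.p (nat_lit 47) (nat_lit 2) .z))))))))) (.ct dzP_c51 (nat_lit 2) (nat_lit 1) (.s false (nat_lit 1) (nat_lit 5) (nat_lit 1) (nat_lit 1) (nat_lit 1) true (nat_lit 2) true (nat_lit 5) true (nat_lit 1) true (nat_lit 5) true (nat_lit 5) (.e false (nat_lit 2) (nat_lit 11) (nat_lit 4) (nat_lit 2) (.e false (nat_lit 2) (nat_lit 22) (nat_lit 1) (nat_lit 5) (.e true (nat_lit 2) (nat_lit 23) (nat_lit 1)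 (nat_lit 5) (.e true (nat_lit 4) (nat_lit 24) (nat_lit 1) (nat_lit 5) (.e false (nat_lit 4) (nat_lit 25) (nat_lit 1) (nat_lit 5) (.e true (nat_lit 2) (nat_lit 26) (nat_lit 1) (nat_lit 5) .nil)))))))) .leaf)) (nat_lit 10246) (nat_lit 97) (.n (nat_lit 48) (nat_lit 2) (.p (nat_lit 49) (nat_lit 2) (.p (nat_lit 50) (nat_lit 2) (.n (nat_lit 53) (nat_lit 4) (.n (nat_lit 55) (nat_lit 2) (.p (nat_lit 56) (nat_lit 2) .z)))))) (.ct dzP_c36 (nat_lit 2) (nat_lit 1) (.s false (nat_lit 1) (nat_lit 10) (nat_lit 0) (nat_lit 0) (nat_lit 1) true (nat_lit 3) true (nat_lit 5) false (nat_lit 1) true (nat_lit 6) true (nat_lit 6) (.e false (nat_lit 2) (nat_lit 19) (nat_lit 3) (nat_lit 3) (.e false (nat_lit 2) (nat_lit 31) (nat_lit 1) (nat_lit 5) (.e true (nat_lit 2) (nat_lit 35) (nat_lit 0) (nat_lit 6) .nil))))) (.nd (.nd (.nd .leaf (nat_lit 10247) (nat_lit 95) (.n (nat_lit 53) (nat_lit 2) (.p (nat_lit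 56) (nat_lit 2) .z)) (.ct dzP_c36 (nat_lit 2) (nat_lit 1) (.s false (nat_lit 1) (nat_lit 7) (nat_lit 1) (nat_lit 1) (nat_lit 1) true (nat_lit 2) true (nat_lit 5) true (nat_lit 1) true (nat_lit 5) true (nat_lit 5) (.e false (nat_lit 2) (nat_lit 15) (nat_lit 4) (nat_lit 2) (.e true (nat_lit 2) (nat_lit 32) (nat_lit 1) (nat_lit 5) .nil)))) .leaf) (nat_lit 11265) (nat_lit 23) (.p (nat_lit 21) (nat_lit 2) .z) .df .leaf) (nat_lit 11268) (nat_lit 65) (.n (nat_lit 40) (nat_lit 2) (.n (nat_lit 44) (nat_lit 2) (.p (nat_lit 45) (nat_lit 2) (.p (nat_lit 46) (nat_lit 2) (.p (nat_lit 47) (nat_lit 2) .z))))) (.ct dzP_c51 (nat_lit 4) (nat_lit 2) (.s true (nat_lit 1) (nat_lit 3) (nat_lit 1) (nat_lit 1) (nat_lit 2) true (nat_lit 0) true (nat_lit 4) true (nat_lit 3) true (nat_lit 5) true (nat_lit 5) (.s false (nat_lit 1) (nat_lit 3) (nat_lit 1) (nat_lit 2) (nat_lit 1) true (nat_lit 2) true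 (nat_lit 5) true (nat_lit 3) true (nat_lit 5) true (nat_lit 4) (.s false (nat_lit 1) (nat_lit 3) (nat_lit 2) (nat_lit 1) (nat_lit 1) true (nat_lit 0) true (nat_lit 5) true (nat_lit 3) true (nat_lit 4) true (nat_lit 5) (.s false (nat_lit 1) (nat_lit 4) (nat_lit 2) (nat_lit 1) (nat_lit 0) true (nat_lit 1) true (nat_lit 6) true (nat_lit 2) true (nat_lit 4) true (nat_lit 5) (.s true (nat_lit 1) (nat_lit 5) (nat_lit 1) (nat_lit 1) (nat_lit 1) true (nat_lit 2) true (nat_lit 5) true (nat_lit 1) true (nat_lit 5) true (nat_lit 5) (.e true (nat_lit 4) (nat_lit 15) (nat_lit 3) (nat_lit 3) (.e false (nat_lit 4) (nat_lit 16) (nat_lit 3) (nat_lit 3) (.e true (nat_lit 8) (nat_lit 26) (nat_lit 1) (nat_lit 5) (.e false (nat_lit 4) (nat_lit 12) (nat_lit 4) (nat_lit 2) (.e true (nat_lit 4) (nat_lit 24) (nat_lit 1) (nat_lit 5) (.e false (nat_lit 4) (nat_lit 25) (nat_lit 1) (nat_lit 5) (.e false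 (nat_lit 4) (nat_lit 28) (nat_lit 0) (nat_lit 6) (.e true (nat_lit 4) (nat_lit 29) (nat_lit 0) (nat_lit 6) .nil)))))))))))))) (.nd (.nd .leaf (nat_lit 12289) (nat_lit 24) (.p (nat_lit 22) (nat_lit 2) .z) .df .leaf) (nat_lit 12292) (nat_lit 62) (.p (nat_lit 47) (nat_lit 2) .z) .df .leaf))))) (nat_lit 13313) (nat_lit 31) (.n (nat_lit 21) (nat_lit 1) (.p (nat_lit 22) (nat_lit 1) (.n (nat_lit 24) (nat_lit 1) (.p (nat_lit 25) (nat_lit 3) (.n (nat_lit 26) (nat_lit 2) .z))))) (.ct dzP_c50 (nat_lit 2) (nat_lit 3) (.s true (nat_lit 1) (nat_lit 3) (nat_lit 0) (nat_lit 0) (nat_lit 1) true (nat_lit 1) true (nat_lit 3) true (nat_lit 1) true (nat_lit 4) true (nat_lit 4) (.e true (nat_lit 2) (nat_lit 7) (nat_lit 3) (nat_lit 1) (.e true (nat_lit 2) (nat_lit 6) (nat_lit 3) (nat_lit 1) (.e false (nat_lit 2) (nat_lit 16) (nat_lit 0) (nat_lit 4) .nil))))) (.nd (.nd (.nd (.nd (.nd (.nd .leaf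 (nat_lit 13316) (nat_lit 76) (.p (nat_lit 37) (nat_lit 2) (.n (nat_lit 38) (nat_lit 6) (.p (nat_lit 39) (nat_lit 2) (.n (nat_lit 40) (nat_lit 6) (.n (nat_lit 41) (nat_lit 2) (.p (nat_lit 42) (nat_lit 2) (.p (nat_lit 43) (nat_lit 2) (.n (nat_lit 46) (nat_lit 2) (.p (nat_lit 47) (nat_lit 2) .z))))))))) (.ct dzP_c51 (nat_lit 2) (nat_lit 2) (.s true (nat_lit 1) (nat_lit 7) (nat_lit 1) (nat_lit 0) (nat_lit 1) true (nat_lit 2) true (nat_lit 5) true (nat_lit 0) true (nat_lit 5) true (nat_lit 6) (.e true (nat_lit 1) (nat_lit 24) (nat_lit 1) (nat_lit 5) (.e false (nat_lit 2) (nat_lit 8) (nat_lit 7) (nat_lit 0) (.e false (nat_lit 1) (nat_lit 21) (nat_lit 1) (nat_lit 5) (.e true (nat_lit 1) (nat_lit 22) (nat_lit 1) (nat_lit 5) (.e true (nat_lit 1) (nat_lit 25) (nat_lit 1) (nat_lit 5) (.e false (nat_lit 2) (nat_lit 28) (nat_lit 0) (nat_lit 6) .nil)))))))) .leaf) (nat_lit 14336) (nat_lit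 25) (.p (nat_lit 23) (nat_lit 2) .z) .df (.nd .leaf (nat_lit 14337) (nat_lit 34) (.p (nat_lit 27) (nat_lit 2) .z) .df .leaf)) (nat_lit 14339) (nat_lit 68) (.p (nat_lit 37) (nat_lit 2) (.n (nat_lit 40) (nat_lit 2) (.n (nat_lit 41) (nat_lit 2) (.n (nat_lit 42) (nat_lit 4) (.p (nat_lit 43) (nat_lit 4) (.n (nat_lit 44) (nat_lit 2) (.p (nat_lit 45) (nat_lit 2) (.p (nat_lit 46) (nat_lit 2) (.p (nat_lit 47) (nat_lit 2) .z))))))))) (.ct dzP_c51 (nat_lit 2) (nat_lit 3) (.s true (nat_lit 1) (nat_lit 3) (nat_lit 2) (nat_lit 1) (nat_lit 1) true (nat_lit 0) true (nat_lit 5) true (nat_lit 3) true (nat_lit 4) true (nat_lit 5) (.s true (nat_lit 1) (nat_lit 4) (nat_lit 2) (nat_lit 1) (nat_lit 0) true (nat_lit 1) true (nat_lit 6) true (nat_lit 2) true (nat_lit 4) true (nat_lit 5) (.s false (nat_lit 1) (nat_lit 5) (nat_lit 1) (nat_lit 1) (nat_lit 1) true (nat_lit 2) true (nat_lit 5) true (nat_lit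 1) true (nat_lit 5) true (nat_lit 5) (.s false (nat_lit 1) (nat_lit 6) (nat_lit 1) (nat_lit 0) (nat_lit 1) true (nat_lit 2) true (nat_lit 5) true (nat_lit 0) true (nat_lit 5) true (nat_lit 6) (.e true (nat_lit 4) (nat_lit 28) (nat_lit 0) (nat_lit 6) (.e false (nat_lit 4) (nat_lit 29) (nat_lit 0) (nat_lit 6) (.e false (nat_lit 2) (nat_lit 23) (nat_lit 1) (nat_lit 5) (.e false (nat_lit 2) (nat_lit 11) (nat_lit 4) (nat_lit 2) (.e true (nat_lit 2) (nat_lit 27) (nat_lit 0) (nat_lit 6) .nil)))))))))) (.nd (.nd .leaf (nat_lit 14340) (nat_lit 92) (.n (nat_lit 49) (nat_lit 4) (.p (nat_lit 50) (nat_lit 4) (.p (nat_lit 52) (nat_lit 2) (.n (nat_lit 53) (nat_lit 2) (.n (nat_lit 55) (nat_lit 2) (.p (nat_lit 56) (nat_lit 2) .z)))))) (.ct dzP_c36 (nat_lit 2) (nat_lit 2) (.s true (nat_lit 1) (nat_lit 4) (nat_lit 2) (nat_lit 1) (nat_lit 1) true (nat_lit 1) true (nat_lit 5) true (nat_lit 2)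 true (nat_lit 4) true (nat_lit 5) (.s false (nat_lit 1) (nat_lit 10) (nat_lit 0) (nat_lit 0) (nat_lit 1) true (nat_lit 3) true (nat_lit 5) false (nat_lit 1) true (nat_lit 6) true (nat_lit 6) (.e true (nat_lit 6) (nat_lit 28) (nat_lit 1) (nat_lit 5) (.e false (nat_lit 2) (nat_lit 29) (nat_lit 1) (nat_lit 5) (.e false (nat_lit 2) (nat_lit 27) (nat_lit 1) (nat_lit 5) (.e false (nat_lit 4) (nat_lit 31) (nat_lit 1) (nat_lit 5) (.e false (nat_lit 2) (nat_lit 32) (nat_lit 1) (nat_lit 5) (.e false (nat_lit 2) (nat_lit 19) (nat_lit 3) (nat_lit 3) (.e true (nat_lit 2) (nat_lit 35) (nat_lit 0) (nat_lit 6) .nil)))))))))) .leaf) (nat_lit 15360) (nat_lit 26) (.p (nat_lit 24) (nat_lit 2) .z) .df .leaf)) (nat_lit 15361) (nat_lit 35) (.p (nat_lit 28) (nat_lit 2) .z) .df (.nd (.nd (.nd .leaf (nat_lit 15363) (nat_lit 64) (.p (nat_lit 37) (nat_lit 2) (.n (nat_lit 38) (nat_lit 2) (.n (nat_lit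 40) (nat_lit 4) (.n (nat_lit 41) (nat_lit 2) (.p (nat_lit 43) (nat_lit 2) (.p (nat_lit 47) (nat_lit 2) .z)))))) (.ct dzP_c51 (nat_lit 2) (nat_lit 3) (.s false (nat_lit 1) (nat_lit 3) (nat_lit 0) (nat_lit 1) (nat_lit 3) true (nat_lit 0) true (nat_lit 3) true (nat_lit 3) true (nat_lit 6) true (nat_lit 5) (.s false (nat_lit 2) (nat_lit 3) (nat_lit 0) (nat_lit 3) (nat_lit 1) true (nat_lit 3) true (nat_lit 5) true (nat_lit 3) true (nat_lit 6) true (nat_lit 3) (.s true (nat_lit 1) (nat_lit 8) (nat_lit 1) (nat_lit 0) (nat_lit 0) true (nat_lit 3) true (nat_lit 6) false (nat_lit 0) true (nat_lit 5) true (nat_lit 6) (.e false (nat_lit 2) (nat_lit 28) (nat_lit 0) (nat_lit 6) (.e true (nat_lit 2) (nat_lit 29) (nat_lit 0) (nat_lit 6) (.e false (nat_lit 2) (nat_lit 30) (nat_lit 0) (nat_lit 6) (.e true (nat_lit 2) (nat_lit 31) (nat_lit 0) (nat_lit 6) (.e true (nat_lit 2) (nat_lit 24) (nat_lit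 1) (nat_lit 5) (.e false (nat_lit 2) (nat_lit 25) (nat_lit 1) (nat_lit 5) (.e false (nat_lit 2) (nat_lit 16) (nat_lit 3) (nat_lit 3) (.e true (nat_lit 2) (nat_lit 32) (nat_lit 0) (nat_lit 6) (.e true (nat_lit 2) (nat_lit 26) (nat_lit 1) (nat_lit 5) .nil))))))))))))) .leaf) (nat_lit 15364) (nat_lit 86) (.p (nat_lit 56) (nat_lit 2) .z) .df .leaf) (nat_lit 16384) (nat_lit 27) (.p (nat_lit 25) (nat_lit 2) .z) .df (.nd (.nd .leaf (nat_lit 16385) (nat_lit 36) (.p (nat_lit 29) (nat_lit 2) .z) .df .leaf) (nat_lit 16387) (nat_lit 63) (.p (nat_lit 37) (nat_lit 2) (.n (nat_lit 39) (nat_lit 2) (.n (nat_lit 40) (nat_lit 2) (.n (nat_lit 41) (nat_lit 2) (.n (nat_lit 42) (nat_lit 2) (.p (nat_lit 43) (nat_lit 4) (.n (nat_lit 44) (nat_lit 2) (.p (nat_lit 45) (nat_lit 2) (.p (nat_lit 46) (nat_lit 2) (.p (nat_lit 47) (nat_lit 2) .z)))))))))) (.ct dzP_c51 (nat_lit 2) (nat_lit 3) (.s false (nat_lit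 1) (nat_lit 6) (nat_lit 1) (nat_lit 0) (nat_lit 1) true (nat_lit 2) true (nat_lit 5) true (nat_lit 0) true (nat_lit 5) true (nat_lit 6) (.s true (nat_lit 1) (nat_lit 8) (nat_lit 0) (nat_lit 0) (nat_lit 1) true (nat_lit 3) true (nat_lit 5) false (nat_lit 0) true (nat_lit 6) true (nat_lit 6) (.e false (nat_lit 2) (nat_lit 12) (nat_lit 4) (nat_lit 2) (.e false (nat_lit 2) (nat_lit 23) (nat_lit 1) (nat_lit 5) (.e true (nat_lit 2) (nat_lit 26) (nat_lit 1) (nat_lit 5) (.e true (nat_lit 2) (nat_lit 27) (nat_lit 0) (nat_lit 6) (.e true (nat_lit 2) (nat_lit 25) (nat_lit 1) (nat_lit 5) (.e true (nat_lit 2) (nat_lit 28) (nat_lit 0) (nat_lit 6) (.e false (nat_lit 4) (nat_lit 29) (nat_lit 0) (nat_lit 6) (.e true (nat_lit 2) (nat_lit 30) (nat_lit 0) (nat_lit 6) (.e false (nat_lit 2) (nat_lit 31) (nat_lit 0) (nat_lit 6) (.e false (nat_lit 2) (nat_lit 32) (nat_lit 0) (nat_lit 6) .nil)))))))))))))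 .leaf))) (nat_lit 16388) (nat_lit 91) (.p (nat_lit 48) (nat_lit 2) (.n (nat_lit 49) (nat_lit 6) (.p (nat_lit 50) (nat_lit 2) (.p (nat_lit 52) (nat_lit 2) (.p (nat_lit 53) (nat_lit 2) (.p (nat_lit 56) (nat_lit 2) .z)))))) (.ct dzP_c36 (nat_lit 2) (nat_lit 2) (.s false (nat_lit 1) (nat_lit 4) (nat_lit 1) (nat_lit 3) (nat_lit 0) true (nat_lit 3) true (nat_lit 6) true (nat_lit 2) true (nat_lit 5) true (nat_lit 3) (.e false (nat_lit 2) (nat_lit 19) (nat_lit 3) (nat_lit 3) (.e false (nat_lit 2) (nat_lit 35) (nat_lit 0) (nat_lit 6) (.e true (nat_lit 2) (nat_lit 36) (nat_lit 0) (nat_lit 6) (.e true (nat_lit 2) (nat_lit 32) (nat_lit 1) (nat_lit 5) .nil)))))) (.nd (.nd (.nd (.nd .leaf (nat_lit 17408) (nat_lit 43) (.n (nat_lit 28) (nat_lit 1) (.p (nat_lit 29) (nat_lit 3) (.n (nat_lit 30) (nat_lit 1) (.p (nat_lit 31) (nat_lit 1) (.p (nat_lit 32) (nat_lit 2) .z))))) (.ct dzP_c35 (nat_lit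 2) (nat_lit 4) (.s false (nat_lit 1) (nat_lit 3) (nat_lit 1) (nat_lit 0) (nat_lit 1) true (nat_lit 0) true (nat_lit 3) true (nat_lit 1) true (nat_lit 3) true (nat_lit 4) (.e false (nat_lit 2) (nat_lit 7) (nat_lit 4) (nat_lit 0) (.e false (nat_lit 2) (nat_lit 16) (nat_lit 1) (nat_lit 3) (.e false (nat_lit 2) (nat_lit 8) (nat_lit 3) (nat_lit 1) .nil))))) .leaf) (nat_lit 17409) (nat_lit 45) (.p (nat_lit 33) (nat_lit 2) .z) .df .leaf) (nat_lit 17410) (nat_lit 77) (.p (nat_lit 37) (nat_lit 2) (.n (nat_lit 38) (nat_lit 2) (.p (nat_lit 39) (nat_lit 2) (.n (nat_lit 40) (nat_lit 4) (.n (nat_lit 41) (nat_lit 2) (.n (nat_lit 42) (nat_lit 2) (.p (nat_lit 43) (nat_lit 2) (.n (nat_lit 44) (nat_lit 2) (.p (nat_lit 45) (nat_lit 2) (.p (nat_lit 47) (nat_lit 2) .z)))))))))) (.ct dzP_c51 (nat_lit 2) (nat_lit 4) (.s true (nat_lit 1) (nat_lit 3) (nat_lit 1) (nat_lit 1) (nat_lit 2) true (nat_lit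 0) true (nat_lit 4) true (nat_lit 3) true (nat_lit 5) true (nat_lit 5) (.e false (nat_lit 2) (nat_lit 8) (nat_lit 6) (nat_lit 0) (.e true (nat_lit 4) (nat_lit 15) (nat_lit 3) (nat_lit 3) (.e false (nat_lit 4) (nat_lit 16) (nat_lit 3) (nat_lit 3) (.e true (nat_lit 2) (nat_lit 26) (nat_lit 1) (nat_lit 5) (.e false (nat_lit 2) (nat_lit 21) (nat_lit 1) (nat_lit 5) (.e true (nat_lit 2) (nat_lit 22) (nat_lit 1) (nat_lit 5) .nil)))))))) (.nd (.nd .leaf (nat_lit 17411) (nat_lit 87) (.p (nat_lit 57) (nat_lit 2) .z) .df .leaf) (nat_lit 18432) (nat_lit 37) (.p (nat_lit 30) (nat_lit 2) .z) .df .leaf)) (nat_lit 18433) (nat_lit 46) (.p (nat_lit 34) (nat_lit 2) .z) .df (.nd (.nd (.nd .leaf (nat_lit 18434) (nat_lit 69) (.n (nat_lit 40) (nat_lit 2) (.p (nat_lit 42) (nat_lit 4) (.n (nat_lit 43) (nat_lit 4) (.p (nat_lit 44) (nat_lit 2) (.n (nat_lit 45) (nat_lit 2) (.n (nat_lit 46) (nat_lit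 2) (.p (nat_lit 47) (nat_lit 2) .z))))))) (.ct dzP_c51 (nat_lit 2) (nat_lit 4) (.s true (nat_lit 1) (nat_lit 3) (nat_lit 2) (nat_lit 1) (nat_lit 1) true (nat_lit 0) true (nat_lit 5) true (nat_lit 3) true (nat_lit 4) true (nat_lit 5) (.s true (nat_lit 1) (nat_lit 4) (nat_lit 1) (nat_lit 0) (nat_lit 2) true (nat_lit 0) true (nat_lit 4) true (nat_lit 2) true (nat_lit 5) true (nat_lit 6) (.s false (nat_lit 1) (nat_lit 6) (nat_lit 1) (nat_lit 0) (nat_lit 1) true (nat_lit 2) true (nat_lit 5) true (nat_lit 0) true (nat_lit 5) true (nat_lit 6) (.s false (nat_lit 1) (nat_lit 6) (nat_lit 1) (nat_lit 1) (nat_lit 0) true (nat_lit 3) true (nat_lit 6) true (nat_lit 0) true (nat_lit 5) true (nat_lit 5) (.e true (nat_lit 4) (nat_lit 26) (nat_lit 1) (nat_lit 5) (.e true (nat_lit 2) (nat_lit 11) (nat_lit 4) (nat_lit 2) (.e false (nat_lit 4) (nat_lit 12) (nat_lit 4) (nat_lit 2) (.e false (nat_lit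 4) (nat_lit 28) (nat_lit 0) (nat_lit 6) (.e true (nat_lit 4) (nat_lit 29) (nat_lit 0) (nat_lit 6) .nil)))))))))) .leaf) (nat_lit 18435) (nat_lit 88) (.p (nat_lit 51) (nat_lit 2) (.n (nat_lit 52) (nat_lit 2) (.n (nat_lit 53) (nat_lit 2) (.p (nat_lit 54) (nat_lit 2) (.n (nat_lit 55) (nat_lit 2) (.p (nat_lit 56) (nat_lit 2) .z)))))) (.ct dzP_c36 (nat_lit 2) (nat_lit 3) (.s true (nat_lit 1) (nat_lit 4) (nat_lit 0) (nat_lit 1) (nat_lit 3) true (nat_lit 1) true (nat_lit 3) true (nat_lit 2) true (nat_lit 6) true (nat_lit 5) (.s false (nat_lit 1) (nat_lit 7) (nat_lit 1) (nat_lit 1) (nat_lit 1) true (nat_lit 2) true (nat_lit 5) true (nat_lit 1) true (nat_lit 5) true (nat_lit 5) (.e false (nat_lit 2) (nat_lit 34) (nat_lit 0) (nat_lit 6) (.e true (nat_lit 2) (nat_lit 36) (nat_lit 0) (nat_lit 6) (.e false (nat_lit 2) (nat_lit 30) (nat_lit 1) (nat_lit 5) (.e true (nat_lit 2) (nat_lit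 31) (nat_lit 1) (nat_lit 5) (.e false (nat_lit 2) (nat_lit 15) (nat_lit 4) (nat_lit 2) (.e true (nat_lit 2) (nat_lit 32) (nat_lit 1) (nat_lit 5) .nil))))))))) .leaf) (nat_lit 19456) (nat_lit 38) (.p (nat_lit 31) (nat_lit 2) .z) .df (.nd (.nd .leaf (nat_lit 19457) (nat_lit 47) (.p (nat_lit 35) (nat_lit 2) .z) .df .leaf) (nat_lit 19458) (nat_lit 70) (.n (nat_lit 38) (nat_lit 4) (.p (nat_lit 39) (nat_lit 4) (.n (nat_lit 40) (nat_lit 4) (.p (nat_lit 47) (nat_lit 2) .z)))) (.ct dzP_c51 (nat_lit 2) (nat_lit 4) (.s false (nat_lit 1) (nat_lit 3) (nat_lit 2) (nat_lit 1) (nat_lit 1) true (nat_lit 0) true (nat_lit 5) true (nat_lit 3) true (nat_lit 4) true (nat_lit 5) (.s true (nat_lit 1) (nat_lit 6) (nat_lit 1) (nat_lit 0) (nat_lit 1) true (nat_lit 2) true (nat_lit 5) true (nat_lit 0) true (nat_lit 5) true (nat_lit 6) (.e false (nat_lit 2) (nat_lit 14) (nat_lit 3) (nat_lit 3) (.e false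 (nat_lit 2) (nat_lit 18) (nat_lit 2) (nat_lit 4) (.e true (nat_lit 4) (nat_lit 24) (nat_lit 1) (nat_lit 5) (.e false (nat_lit 4) (nat_lit 25) (nat_lit 1) (nat_lit 5) (.e true (nat_lit 2) (nat_lit 12) (nat_lit 4) (nat_lit 2) (.e true (nat_lit 2) (nat_lit 23) (nat_lit 1) (nat_lit 5) (.e false (nat_lit 2) (nat_lit 27) (nat_lit 0) (nat_lit 6) .nil)))))))))) .leaf)))) (nat_lit 19459) (nat_lit 89) (.n (nat_lit 49) (nat_lit 2) (.p (nat_lit 50) (nat_lit 2) (.p (nat_lit 56) (nat_lit 2) .z))) (.ct dzP_c36 (nat_lit 2) (nat_lit 3) (.s false (nat_lit 1) (nat_lit 3) (nat_lit 1) (nat_lit 1) (nat_lit 3) true (nat_lit 0) true (nat_lit 3) true (nat_lit 3) true (nat_lit 5) true (nat_lit 5) (.s true (nat_lit 1) (nat_lit 8) (nat_lit 0) (nat_lit 1) (nat_lit 1) true (nat_lit 3) true (nat_lit 5) true (nat_lit 0) true (nat_lit 6) true (nat_lit 5) (.e false (nat_lit 2) (nat_lit 18) (nat_lit 3) (nat_lit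 3) (.e true (nat_lit 2) (nat_lit 28) (nat_lit 1) (nat_lit 5) (.e false (nat_lit 2) (nat_lit 29) (nat_lit 1) (nat_lit 5) (.e true (nat_lit 2) (nat_lit 30) (nat_lit 1) (nat_lit 5) (.e false (nat_lit 2) (nat_lit 31) (nat_lit 1) (nat_lit 5) (.e true (nat_lit 2) (nat_lit 34) (nat_lit 0) (nat_lit 6) (.e false (nat_lit 2) (nat_lit 36) (nat_lit 0) (nat_lit 6) (.e false (nat_lit 2) (nat_lit 32) (nat_lit 1) (nat_lit 5) .nil))))))))))) (.nd (.nd (.nd (.nd (.nd .leaf (nat_lit 20480) (nat_lit 48) (.p (nat_lit 36) (nat_lit 2) .z) .df .leaf) (nat_lit 20482) (nat_lit 96) (.p (nat_lit 52) (nat_lit 2) (.n (nat_lit 53) (nat_lit 2) (.n (nat_lit 55) (nat_lit 2) (.p (nat_lit 56) (nat_lit 2) .z)))) (.ct dzP_c36 (nat_lit 2) (nat_lit 4) (.s true (nat_lit 1) (nat_lit 10) (nat_lit 0) (nat_lit 1) (nat_lit 0) true (nat_lit 4) true (nat_lit 6) false (nat_lit 1) true (nat_lit 6) true (nat_lit 5) (.e false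 (nat_lit 2) (nat_lit 10) (nat_lit 7) (nat_lit 1) (.e true (nat_lit 2) (nat_lit 36) (nat_lit 0) (nat_lit 6) (.e false (nat_lit 2) (nat_lit 31) (nat_lit 1) (nat_lit 5) .nil))))) (.nd .leaf (nat_lit 21505) (nat_lit 67) (.p (nat_lit 37) (nat_lit 2) (.n (nat_lit 38) (nat_lit 6) (.p (nat_lit 39) (nat_lit 6) (.n (nat_lit 40) (nat_lit 4) (.p (nat_lit 41) (nat_lit 2) (.n (nat_lit 43) (nat_lit 4) (.p (nat_lit 44) (nat_lit 4) (.n (nat_lit 45) (nat_lit 2) (.n (nat_lit 46) (nat_lit 4) .z))))))))) (.ct dzP_c51 (nat_lit 2) (nat_lit 5) (.s false (nat_lit 1) (nat_lit 3) (nat_lit 0) (nat_lit 1) (nat_lit 3) true (nat_lit 0) true (nat_lit 3) true (nat_lit 3) true (nat_lit 6) true (nat_lit 5) (.s true (nat_lit 1) (nat_lit 8) (nat_lit 1) (nat_lit 0) (nat_lit 0) true (nat_lit 3) true (nat_lit 6) false (nat_lit 0) true (nat_lit 5) true (nat_lit 6) (.e false (nat_lit 2) (nat_lit 15) (nat_lit 3) (nat_lit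 3) (.e true (nat_lit 2) (nat_lit 16) (nat_lit 3) (nat_lit 3) (.e true (nat_lit 2) (nat_lit 32) (nat_lit 0) (nat_lit 6) (.e false (nat_lit 2) (nat_lit 22) (nat_lit 1) (nat_lit 5) (.e true (nat_lit 4) (nat_lit 24) (nat_lit 1) (nat_lit 5) (.e false (nat_lit 4) (nat_lit 25) (nat_lit 1) (nat_lit 5) (.e true (nat_lit 2) (nat_lit 26) (nat_lit 1) (nat_lit 5) .nil)))))))))) .leaf)) (nat_lit 22529) (nat_lit 66) (.p (nat_lit 37) (nat_lit 2) (.p (nat_lit 41) (nat_lit 2) (.n (nat_lit 42) (nat_lit 2) (.n (nat_lit 43) (nat_lit 2) (.p (nat_lit 44) (nat_lit 2) .z))))) (.ct dzP_c51 (nat_lit 2) (nat_lit 5) (.s false (nat_lit 1) (nat_lit 3) (nat_lit 2) (nat_lit 1) (nat_lit 1) true (nat_lit 0) true (nat_lit 5) true (nat_lit 3) true (nat_lit 4) true (nat_lit 5) (.s false (nat_lit 1) (nat_lit 4) (nat_lit 2) (nat_lit 1) (nat_lit 0) true (nat_lit 1) true (nat_lit 6) true (nat_lit 2) true (nat_lit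 4) true (nat_lit 5) (.s true (nat_lit 1) (nat_lit 5) (nat_lit 1) (nat_lit 1) (nat_lit 1) true (nat_lit 2) true (nat_lit 5) true (nat_lit 1) true (nat_lit 5) true (nat_lit 5) (.s true (nat_lit 1) (nat_lit 6) (nat_lit 1) (nat_lit 0) (nat_lit 1) true (nat_lit 2) true (nat_lit 5) true (nat_lit 0) true (nat_lit 5) true (nat_lit 6) (.s true (nat_lit 1) (nat_lit 7) (nat_lit 1) (nat_lit 1) (nat_lit 0) true (nat_lit 3) true (nat_lit 6) true (nat_lit 0) true (nat_lit 5) true (nat_lit 5) (.s false (nat_lit 1) (nat_lit 9) (nat_lit 1) (nat_lit 0) (nat_lit 0) true (nat_lit 3) true (nat_lit 6) false (nat_lit 0) true (nat_lit 5) true (nat_lit 6) (.e false (nat_lit 2) (nat_lit 25) (nat_lit 1) (nat_lit 5) (.e true (nat_lit 6) (nat_lit 29) (nat_lit 0) (nat_lit 6) (.e true (nat_lit 2) (nat_lit 11) (nat_lit 4) (nat_lit 2) (.e false (nat_lit 4) (nat_lit 27) (nat_lit 0) (nat_lit 6) (.e false (nat_lit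 2) (nat_lit 16) (nat_lit 3) (nat_lit 3) (.e false (nat_lit 2) (nat_lit 30) (nat_lit 0) (nat_lit 6) .nil))))))))))))) (.nd (.nd .leaf (nat_lit 23553) (nat_lit 52) (.p (nat_lit 37) (nat_lit 2) .z) .df .leaf) (nat_lit 24577) (nat_lit 53) (.p (nat_lit 38) (nat_lit 2) .z) .df .leaf)) (nat_lit 25601) (nat_lit 54) (.p (nat_lit 39) (nat_lit 2) .z) .df (.nd (.nd (.nd .leaf (nat_lit 26625) (nat_lit 55) (.p (nat_lit 40) (nat_lit 2) .z) .df .leaf) (nat_lit 27648) (nat_lit 56) (.p (nat_lit 41) (nat_lit 2) .z) .df .leaf) (nat_lit 27649) (nat_lit 78) (.p (nat_lit 48) (nat_lit 2) .z) .df (.nd (.nd .leaf (nat_lit 28672) (nat_lit 57) (.p (nat_lit 42) (nat_lit 2) .z) .df .leaf) (nat_lit 28673) (nat_lit 79) (.p (nat_lit 49) (nat_lit 2) .z) .df .leaf))) (nat_lit 29696) (nat_lit 58) (.p (nat_lit 43) (nat_lit 2) .z) .df (.nd (.nd (.nd (.nd .leaf (nat_lit 29697) (nat_lit 80) (.p (nat_lit 50) (nat_lit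 2) .z) .df .leaf) (nat_lit 30720) (nat_lit 59) (.p (nat_lit 44) (nat_lit 2) .z) .df .leaf) (nat_lit 30721) (nat_lit 81) (.p (nat_lit 51) (nat_lit 2) .z) .df (.nd (.nd .leaf (nat_lit 31744) (nat_lit 60) (.p (nat_lit 45) (nat_lit 2) .z) .df .leaf) (nat_lit 31745) (nat_lit 82) (.p (nat_lit 52) (nat_lit 2) .z) .df .leaf)) (nat_lit 32768) (nat_lit 61) (.p (nat_lit 46) (nat_lit 2) .z) .df (.nd (.nd (.nd .leaf (nat_lit 32769) (nat_lit 83) (.p (nat_lit 53) (nat_lit 2) .z) .df .leaf) (nat_lit 33792) (nat_lit 99) (.p (nat_lit 48) (nat_lit 2) (.n (nat_lit 49) (nat_lit 7) (.p (nat_lit 50) (nat_lit 5) (.n (nat_lit 51) (nat_lit 1) (.p (nat_lit 52) (nat_lit 3) (.p (nat_lit 53) (nat_lit 6) (.n (nat_lit 54) (nat_lit 2) (.p (nat_lit 55) (nat_lit 2) (.p (nat_lit 56) (nat_lit 2) (.n (nat_lit 57) (nat_lit 2) .z)))))))))) (.ct dzP_c36 (nat_lit 2) (nat_lit 6) (.s false (nat_lit 1) (nat_lit 8) (nat_lit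 1) (nat_lit 0) (nat_lit 1) true (nat_lit 2) true (nat_lit 5) true (nat_lit 0) true (nat_lit 5) true (nat_lit 6) (.e false (nat_lit 2) (nat_lit 16) (nat_lit 4) (nat_lit 2) (.e false (nat_lit 2) (nat_lit 29) (nat_lit 1) (nat_lit 5) (.e false (nat_lit 2) (nat_lit 32) (nat_lit 1) (nat_lit 5) (.e true (nat_lit 2) (nat_lit 8) (nat_lit 8) (nat_lit 0) .nil)))))) .leaf) (nat_lit 34816) (nat_lit 84) (.p (nat_lit 54) (nat_lit 2) .z) .df (.nd (.nd .leaf (nat_lit 35840) (nat_lit 90) (.p (nat_lit 48) (nat_lit 2) (.n (nat_lit 49) (nat_lit 4) (.p (nat_lit 52) (nat_lit 2) (.p (nat_lit 53) (nat_lit 4) (.p (nat_lit 55) (nat_lit 2) .z))))) (.ct dzP_c36 (nat_lit 2) (nat_lit 6) (.s false (nat_lit 1) (nat_lit 4) (nat_lit 1) (nat_lit 0) (nat_lit 3) true (nat_lit 0) true (nat_lit 3) true (nat_lit 2) true (nat_lit 5) true (nat_lit 6) (.s true (nat_lit 1) (nat_lit 9) (nat_lit 0) (nat_lit 1) (nat_lit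 1) true (nat_lit 3) true (nat_lit 5) true (nat_lit 0) true (nat_lit 6) true (nat_lit 5) (.a false (nat_lit 4) (nat_lit 8) (nat_lit 9) (nat_lit 0) (nat_lit 0) (.e false (nat_lit 2) (nat_lit 19) (nat_lit 3) (nat_lit 3) (.e false (nat_lit 2) (nat_lit 32) (nat_lit 1) (nat_lit 5) (.e false (nat_lit 2) (nat_lit 34) (nat_lit 0) (nat_lit 6) (.e true (nat_lit 2) (nat_lit 18) (nat_lit 3) (nat_lit 3) (.e false (nat_lit 2) (nat_lit 27) (nat_lit 1) (nat_lit 5) (.e true (nat_lit 2) (nat_lit 28) (nat_lit 1) (nat_lit 5) (.e true (nat_lit 2) (nat_lit 29) (nat_lit 1) (nat_lit 5) (.e false (nat_lit 2) (nat_lit 30) (nat_lit 1) (nat_lit 5) .nil)))))))))))) .leaf) (nat_lit 36864) (nat_lit 85) (.p (nat_lit 55) (nat_lit 2) .z) .df .leaf))))))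

noncomputable def dzP_cl : CL := (.c (nat_lit 16) (nat_lit 0) (nat_lit 1) (.c (nat_lit 1) (nat_lit 1) (nat_lit 1) (.c (nat_lit 32) (nat_lit 2) (nat_lit 1) (.c (nat_lit 17) (nat_lit 3) (nat_lit 1) (.c (nat_lit 2) (nat_lit 4) (nat_lit 1) (.c (nat_lit 48) (nat_lit 5) (nat_lit 1) (.c (nat_lit 33) (nat_lit 6) (nat_lit 2) (.c (nat_lit 18) (nat_lit 8) (nat_lit 2) (.c (nat_lit 3) (nat_lit 10) (nat_lit 1) (.c (nat_lit 49) (nat_lit 11) (nat_lit 3) (.c (nat_lit 34) (nat_lit 14) (nat_lit 3) (.c (nat_lit 19) (nat_lit 17) (nat_lit 3) (.c (nat_lit 4) (nat_lit 20) (nat_lit 1) (.c (nat_lit 50) (nat_lit 21) (nat_lit 6) (.c (nat_lit 35) (nat_lit 27) (nat_lit 6) (.c (nat_lit 20) (nat_lit 33) (nat_lit 4) (.c (nat_lit 51) (nat_lit 37) (nat_lit 11) (.c (nat_lit 36) (nat_lit 48) (nat_lit 10) .nil))))))))))))))))))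

noncomputable def dzP_D : Dt := ⟨(nat_lit 4294967296), (nat_lit 2147483648), (nat_lit 2), (nat_lit 58), (nat_lit 224330230379977883892129955068032272054317684163628898912880294729302399789453571967761733266767504107552379139646334764239969046222492888740153693314647383344458019691802693099923147056151568028517340933413632283815346902832892005761974225270975571268271642539475733469553393448561962186141709791299711903274541377415599231398997792372345598566381338026910714817764097171135624809679209161562519586003275784000634883), (nat_lit 137436858339), dzP_t0, dzP_cl⟩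

noncomputable def dzP_gs : BL := (.c (nat_lit 11) (nat_lit 3) (nat_lit 10) (nat_lit 1) (nat_lit 0) (.c (nat_lit 14) (nat_lit 3) (nat_lit 8) (nat_lit 2) (nat_lit 3) (.c (nat_lit 17) (nat_lit 3) (nat_lit 6) (nat_lit 2) (nat_lit 9) (.c (nat_lit 20) (nat_lit 1) (nat_lit 5) (nat_lit 1) (nat_lit 15) (.c (nat_lit 21) (nat_lit 6) (nat_lit 4) (nat_lit 1) (nat_lit 16) (.c (nat_lit 27) (nat_lit 6) (nat_lit 3) (nat_lit 1) (nat_lit 22) (.c (nat_lit 33) (nat_lit 4) (nat_lit 2) (nat_lit 1) (nat_lit 28) (.c (nat_lit 37) (nat_lit 11) (nat_lit 1) (nat_lit 1) (nat_lit 32) (.c (nat_lit 48) (nat_lit 10) (nat_lit 0) (nat_lit 1) (nat_lit 43) .nil)))))))))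

noncomputable def dzP_i0 : IL := (.i true (nat_lit 64) (nat_lit 2) (.c (nat_lit 15) (nat_lit 34) (.c (nat_lit 9) (nat_lit 18) .nil)) (.i true (nat_lit 1920) (nat_lit 2) (.c (nat_lit 16) (nat_lit 34) (.c (nat_lit 9) (nat_lit 18) .nil)) (.i true (nat_lit 5312) (nat_lit 2) (.c (nat_lit 16) (nat_lit 34) (.c (nat_lit 8) (nat_lit 18) .nil)) (.i true (nat_lit 14752) (nat_lit 2) (.c (nat_lit 47) (nat_lit 51) (.c (nat_lit 1) (nat_lit 1) .nil)) (.i true (nat_lit 1888) (nat_lit 2) (.c (nat_lit 36) (nat_lit 20) (.c (nat_lit 2) (nat_lit 32) .nil)) (.i true (nat_lit 1248) (nat_lit 2) (.c (nat_lit 13) (nat_lit 49) (.c (nat_lit 10) (nat_lit 3) .nil)) (.i false (nat_lit 64) (nat_lit 2) (.c (nat_lit 11) (nat_lit 49) (.c (nat_lit 10) (nat_lit 3) .nil)) (.i true (nat_lit 992) (nat_lit 2) (.c (nat_lit 12) (nat_lit 49) (.c (nat_lit 10) (nat_lit 3) .nil)) (.i true (nat_lit 1600) (nat_lit 2) (.c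 (nat_lit 19) (nat_lit 19) (.c (nat_lit 7) (nat_lit 33) .nil)) (.i true (nat_lit 736) (nat_lit 2) (.c (nat_lit 19) (nat_lit 19) (.c (nat_lit 6) (nat_lit 33) .nil)) (.i false (nat_lit 6368) (nat_lit 2) (.c (nat_lit 28) (nat_lit 35) (.c (nat_lit 3) (nat_lit 17) .nil)) (.i true (nat_lit 4544) (nat_lit 2) (.c (nat_lit 32) (nat_lit 35) (.c (nat_lit 3) (nat_lit 17) .nil)) (.i false (nat_lit 4032) (nat_lit 2) (.c (nat_lit 25) (nat_lit 50) (.c (nat_lit 4) (nat_lit 2) .nil)) (.i true (nat_lit 1376) (nat_lit 2) (.c (nat_lit 20) (nat_lit 4) (.c (nat_lit 5) (nat_lit 48) .nil)) (.i true (nat_lit 3072) (nat_lit 2) (.c (nat_lit 31) (nat_lit 35) (.c (nat_lit 3) (nat_lit 17) .nil)) (.i true (nat_lit 960) (nat_lit 2) (.c (nat_lit 21) (nat_lit 50) (.c (nat_lit 4) (nat_lit 2) .nil)) (.i true (nat_lit 5760) (nat_lit 2) (.c (nat_lit 15) (nat_lit 34) (.c (nat_lit 8) (nat_lit 18) .nil)) (.i false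 (nat_lit 5312) (nat_lit 2) (.c (nat_lit 44) (nat_lit 51) (.c (nat_lit 1) (nat_lit 1) .nil)) (.i true (nat_lit 14144) (nat_lit 2) (.c (nat_lit 37) (nat_lit 51) (.c (nat_lit 1) (nat_lit 1) .nil)) (.i true (nat_lit 2304) (nat_lit 2) (.c (nat_lit 17) (nat_lit 19) (.c (nat_lit 7) (nat_lit 33) .nil)) (.i true (nat_lit 1184) (nat_lit 2) (.c (nat_lit 18) (nat_lit 19) (.c (nat_lit 7) (nat_lit 33) .nil)) (.i true (nat_lit 4960) (nat_lit 2) (.c (nat_lit 17) (nat_lit 19) (.c (nat_lit 6) (nat_lit 33) .nil)) (.i true (nat_lit 2464) (nat_lit 2) (.c (nat_lit 18) (nat_lit 19) (.c (nat_lit 6) (nat_lit 33) .nil)) (.i false (nat_lit 576) (nat_lit 2) (.c (nat_lit 33) (nat_lit 20) (.c (nat_lit 2) (nat_lit 32) .nil)) (.i false (nat_lit 256) (nat_lit 2) (.c (nat_lit 34) (nat_lit 20) (.c (nat_lit 2) (nat_lit 32) .nil)) .nil)))))))))))))))))))))))))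

noncomputable def dzP_i1 : IL := (.i true (nat_lit 4512) (nat_lit 2) (.c (nat_lit 52) (nat_lit 36) (.c (nat_lit 0) (nat_lit 16) .nil)) (.i true (nat_lit 4320) (nat_lit 2) (.c (nat_lit 53) (nat_lit 36) (.c (nat_lit 0) (nat_lit 16) .nil)) (.i false (nat_lit 3584) (nat_lit 2) (.c (nat_lit 55) (nat_lit 36) (.c (nat_lit 0) (nat_lit 16) .nil)) (.i true (nat_lit 2720) (nat_lit 2) (.c (nat_lit 48) (nat_lit 36) (.c (nat_lit 0) (nat_lit 16) .nil)) (.i true (nat_lit 8704) (nat_lit 2) (.c (nat_lit 56) (nat_lit 36) (.c (nat_lit 0) (nat_lit 16) .nil)) (.i true (nat_lit 2688) (nat_lit 2) (.c (nat_lit 51) (nat_lit 36) (.c (nat_lit 0) (nat_lit 16) .nil)) (.i true (nat_lit 2624) (nat_lit 2) (.c (nat_lit 54) (nat_lit 36) (.c (nat_lit 0) (nat_lit 16) .nil)) (.i true (nat_lit 5376) (nat_lit 2) (.c (nat_lit 57) (nat_lit 36) (.c (nat_lit 0) (nat_lit 16) .nil)) (.i false (nat_lit 1696) (nat_lit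 2) (.c (nat_lit 35) (nat_lit 20) (.c (nat_lit 2) (nat_lit 32) .nil)) (.i false (nat_lit 4640) (nat_lit 2) (.c (nat_lit 38) (nat_lit 51) (.c (nat_lit 1) (nat_lit 1) .nil)) (.i true (nat_lit 4640) (nat_lit 2) (.c (nat_lit 39) (nat_lit 51) (.c (nat_lit 1) (nat_lit 1) .nil)) (.i false (nat_lit 14304) (nat_lit 2) (.c (nat_lit 41) (nat_lit 51) (.c (nat_lit 1) (nat_lit 1) .nil)) (.i true (nat_lit 11200) (nat_lit 2) (.c (nat_lit 43) (nat_lit 51) (.c (nat_lit 1) (nat_lit 1) .nil)) (.i false (nat_lit 24128) (nat_lit 2) (.c (nat_lit 40) (nat_lit 51) (.c (nat_lit 1) (nat_lit 1) .nil)) (.i true (nat_lit 2944) (nat_lit 2) (.c (nat_lit 24) (nat_lit 50) (.c (nat_lit 4) (nat_lit 2) .nil)) (.i false (nat_lit 2688) (nat_lit 2) (.c (nat_lit 22) (nat_lit 50) (.c (nat_lit 4) (nat_lit 2) .nil)) (.i true (nat_lit 2688) (nat_lit 2) (.c (nat_lit 26) (nat_lit 50) (.c (nat_lit 4) (nat_lit 2) .nil))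 (.i true (nat_lit 864) (nat_lit 2) (.c (nat_lit 23) (nat_lit 50) (.c (nat_lit 4) (nat_lit 2) .nil)) (.i false (nat_lit 2240) (nat_lit 2) (.c (nat_lit 29) (nat_lit 35) (.c (nat_lit 3) (nat_lit 17) .nil)) (.i true (nat_lit 2432) (nat_lit 2) (.c (nat_lit 27) (nat_lit 35) (.c (nat_lit 3) (nat_lit 17) .nil)) (.i true (nat_lit 4704) (nat_lit 2) (.c (nat_lit 45) (nat_lit 51) (.c (nat_lit 1) (nat_lit 1) .nil)) (.i true (nat_lit 448) (nat_lit 2) (.c (nat_lit 46) (nat_lit 51) (.c (nat_lit 1) (nat_lit 1) .nil)) (.i false (nat_lit 7648) (nat_lit 2) (.c (nat_lit 42) (nat_lit 51) (.c (nat_lit 1) (nat_lit 1) .nil)) (.i false (nat_lit 672) (nat_lit 2) (.c (nat_lit 14) (nat_lit 34) (.c (nat_lit 9) (nat_lit 18) .nil)) (.i true (nat_lit 704) (nat_lit 2) (.c (nat_lit 14) (nat_lit 34) (.c (nat_lit 8) (nat_lit 18) .nil)) dzP_i0)))))))))))))))))))))))))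

noncomputable def dzP_i2 : IL := (.s false (nat_lit 16) (nat_lit 5) (nat_lit 1) (nat_lit 4) (nat_lit 1) true (nat_lit 4) true (nat_lit 7) true (nat_lit 3) true (nat_lit 7) true (nat_lit 4) (.s false (nat_lit 8) (nat_lit 6) (nat_lit 0) (nat_lit 1) (nat_lit 4) true (nat_lit 1) true (nat_lit 4) true (nat_lit 2) true (nat_lit 8) true (nat_lit 7) (.s false (nat_lit 16) (nat_lit 7) (nat_lit 0) (nat_lit 4) (nat_lit 1) true (nat_lit 5) true (nat_lit 7) true (nat_lit 2) true (nat_lit 8) true (nat_lit 4) (.s false (nat_lit 8) (nat_lit 7) (nat_lit 1) (nat_lit 0) (nat_lit 4) true (nat_lit 0) true (nat_lit 4) true (nat_lit 2) true (nat_lit 7) true (nat_lit 8) (.s false (nat_lit 8) (nat_lit 6) (nat_lit 1) (nat_lit 1) (nat_lit 3) true (nat_lit 1) true (nat_lit 5) true (nat_lit 2) true (nat_lit 7) true (nat_lit 7) (.s false (nat_lit 8) (nat_lit 6) (nat_lit 1) (nat_lit 3) (nat_lit 1) true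 (nat_lit 4) true (nat_lit 7) true (nat_lit 2) true (nat_lit 7) true (nat_lit 5) (.s false (nat_lit 16) (nat_lit 6) (nat_lit 4) (nat_lit 1) (nat_lit 0) true (nat_lit 1) true (nat_lit 8) true (nat_lit 2) true (nat_lit 4) true (nat_lit 7) (.s true (nat_lit 8) (nat_lit 9) (nat_lit 1) (nat_lit 2) (nat_lit 1) true (nat_lit 4) true (nat_lit 7) true (nat_lit 1) true (nat_lit 7) true (nat_lit 6) (.s false (nat_lit 16) (nat_lit 9) (nat_lit 4) (nat_lit 0) (nat_lit 0) true (nat_lit 1) true (nat_lit 8) true (nat_lit 1) true (nat_lit 4) true (nat_lit 8) (.s true (nat_lit 16) (nat_lit 10) (nat_lit 0) (nat_lit 0) (nat_lit 3) true (nat_lit 2) true (nat_lit 5) true (nat_lit 0) true (nat_lit 8) true (nat_lit 8) (.s false (nat_lit 16) (nat_lit 10) (nat_lit 0) (nat_lit 3) (nat_lit 0) true (nat_lit 6) true (nat_lit 8) true (nat_lit 0) true (nat_lit 8) true (nat_lit 5) (.s true (nat_lit 8) (nat_lit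 10) (nat_lit 2) (nat_lit 1) (nat_lit 0) true (nat_lit 3) true (nat_lit 8) true (nat_lit 0) true (nat_lit 6) true (nat_lit 7) (.s false (nat_lit 16) (nat_lit 12) (nat_lit 1) (nat_lit 1) (nat_lit 1) true (nat_lit 4) true (nat_lit 7) false (nat_lit 0) true (nat_lit 7) true (nat_lit 7) (.s false (nat_lit 8) (nat_lit 14) (nat_lit 0) (nat_lit 1) (nat_lit 1) true (nat_lit 5) true (nat_lit 7) false (nat_lit 1) true (nat_lit 8) true (nat_lit 7) (.s false (nat_lit 8) (nat_lit 15) (nat_lit 0) (nat_lit 1) (nat_lit 1) true (nat_lit 5) true (nat_lit 7) false (nat_lit 1) true (nat_lit 8) true (nat_lit 7) (.s false (nat_lit 16) (nat_lit 16) (nat_lit 0) (nat_lit 1) (nat_lit 1) true (nat_lit 5) true (nat_lit 7) false (nat_lit 1) true (nat_lit 8) true (nat_lit 7) (.s true (nat_lit 8) (nat_lit 15) (nat_lit 1) (nat_lit 0) (nat_lit 1) true (nat_lit 4) true (nat_lit 7) false (nat_lit 1) true (nat_lit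 7) true (nat_lit 8) (.s false (nat_lit 8) (nat_lit 14) (nat_lit 1) (nat_lit 1) (nat_lit 0) true (nat_lit 5) true (nat_lit 8) false (nat_lit 1) true (nat_lit 7) true (nat_lit 7) (.s true (nat_lit 16) (nat_lit 15) (nat_lit 1) (nat_lit 1) (nat_lit 0) true (nat_lit 5) true (nat_lit 8) false (nat_lit 1) true (nat_lit 7) true (nat_lit 7) (.s true (nat_lit 16) (nat_lit 18) (nat_lit 0) (nat_lit 0) (nat_lit 1) true (nat_lit 5) true (nat_lit 7) false (nat_lit 2) true (nat_lit 8) true (nat_lit 8) (.s false (nat_lit 8) (nat_lit 19) (nat_lit 0) (nat_lit 1) (nat_lit 0) true (nat_lit 6) true (nat_lit 8) false (nat_lit 2) true (nat_lit 8) true (nat_lit 7) (.s false (nat_lit 16) (nat_lit 18) (nat_lit 1) (nat_lit 0) (nat_lit 0) true (nat_lit 5) true (nat_lit 8) false (nat_lit 2) true (nat_lit 7) true (nat_lit 8) (.s true (nat_lit 16) (nat_lit 20) (nat_lit 0) (nat_lit 0) (nat_lit 0) true (nat_lit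 6) true (nat_lit 8) false (nat_lit 3) true (nat_lit 8) true (nat_lit 8) (.i false (nat_lit 6912) (nat_lit 2) (.c (nat_lit 49) (nat_lit 36) (.c (nat_lit 0) (nat_lit 16) .nil)) (.i true (nat_lit 13600) (nat_lit 2) (.c (nat_lit 50) (nat_lit 36) (.c (nat_lit 0) (nat_lit 16) .nil)) dzP_i1)))))))))))))))))))))))))

noncomputable def dzP_il : IL := (.s true (nat_lit 16) (nat_lit 4) (nat_lit 0) (nat_lit 4) (nat_lit 2) true (nat_lit 3) true (nat_lit 6) true (nat_lit 4) true (nat_lit 8) true (nat_lit 4) (.s true (nat_lit 16) (nat_lit 5) (nat_lit 1) (nat_lit 1) (nat_lit 4) true (nat_lit 0) true (nat_lit 4) true (nat_lit 3) true (nat_lit 7) true (nat_lit 7) dzP_i2))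

theorem dzP_chk : chk 1 idsM5 dzP_D par2 (clsL [0,0,0,0,1,1,1]) zPEx (.c (nat_lit 1) (nat_lit 1) (.c (nat_lit 1) (nat_lit 1) (.c (nat_lit 1) (nat_lit 1) (.c (nat_lit 1) (nat_lit 1) (.c (nat_lit 0) (nat_lit 16) (.c (nat_lit 0) (nat_lit 16) (.c (nat_lit 0) (nat_lit 16) .nil))))))) (nat_lit 100) (nat_lit 52) (nat_lit 1) dzP_gs dzP_il = true := by
  decide +kernel

end Chk

/-- certificate of `zPEx` -/
theorem cert_zPEx : Cert.{u} 1 idsM5 par2 (clsL [0,0,0,0,1,1,1]) zPEx :=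
  Chk.chk_sound _ _ (by simp [idsM5]) (by simp [idsM5]) _ _ _ _ _ _ _ _ _ _ Chk.dzP_chk

end Pool.Agent.MalP
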