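import Pool.Agent.MalP.P5.Of5
import Pool.Agent.MalP.P5.CertzP

/-! # Characteristic 5: the identity (zP) -/

set_option autoImplicit false

namespace Pool.Agent.MalP.P5

universe u v

open Finset Equiv

def tPA : Fin 6 → Perm (Fin 7) :=
  ![1, swap 1 2, swap 1 3 * swap 3 2, swap 0 1 * swap 1 2, swap 0 1 * swap 1 3 * swap 3 2, swap 0 2 * swap 1 3]

theorem tPA_s0 : Perm.sign (tPA 0) = 1 := by decide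
theorem tPA_s1 : Perm.sign (tPA 1) = -1 := by decide
theorem tPA_s2 : Perm.sign (tPA 2) = 1 := by decide
theorem tPA_s3 : Perm.sign (tPA 3) = 1 := by decide
theorem tPA_s4 : Perm.sign (tPA 4) = -1 := by decide
theorem tPA_s5 : Perm.sign (tPA 5) = 1 := by decide

def tPD : Fin 3 → Perm (Fin 7) :=
  ![1, swap 5 6, swap 4 5 * swap 5 6]

theorem tPD_s0 : Perm.sign (tPD 0) = 1 := by decide
theorem tPD_s1 : Perm.sign (tPD 1) = -1 := by decide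
theorem tPD_s2 : Perm.sign (tPD 2) = 1 := by decide

def tPB : Fin 6 → Perm (Fin 7) :=
  ![1, swap 4 5, swap 4 6 * swap 6 5, swap 2 3, swap 2 3 * swap 4 5, swap 2 3 * swap 4 6 * swap 6 5]

theorem tPB_s0 : Perm.sign (tPB 0) = 1 := by decide
theorem tPB_s1 : Perm.sign (tPB 1) = -1 := by decide
theorem tPB_s2 : Perm.sign (tPB 2) = 1 := by decide
theorem tPB_s3 : Perm.sign (tPB 3) = -1 := by decide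
theorem tPB_s4 : Perm.sign (tPB 4) = 1 := by decide
theorem tPB_s5 : Perm.sign (tPB 5) = -1 := by decide

def tPC : Fin 6 → Perm (Fin 7) :=
  ![swap 1 2 * swap 2 3, swap 1 2 * swap 2 3 * swap 4 5, swap 1 2 * swap 2 3 * swap 4 6 * swap 6 5, swap 0 1 * swap 1 2 * swap 2 3, swap 0 1 * swap 1 2 * swap 2 3 * swap 4 5, swap 0 1 * swap 1 2 * swap 2 3 * swap 4 6 * swap 6 5]

theorem tPC_s0 : Perm.sign (tPC 0) = 1 := by decide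
theorem tPC_s1 : Perm.sign (tPC 1) = -1 := by decide
theorem tPC_s2 : Perm.sign (tPC 2) = 1 := by decide
theorem tPC_s3 : Perm.sign (tPC 3) = -1 := by decide
theorem tPC_s4 : Perm.sign (tPC 4) = 1 := by decide
theorem tPC_s5 : Perm.sign (tPC 5) = -1 := by decide

section defs

variable {A : Type v} [NonUnitalNonAssocRing A]

def gPA (z : Fin 7 → A) : A := cc (z 0 * z 1) (z 2) (z 3) (z 4) (z 5) (z 6)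
def gPB (z : Fin 7 → A) : A := cc (z 3 * z 4) (z 0) (z 1) (z 2) (z 5) (z 6)
def gPD (z : Fin 7 → A) : A := cc (z 4 * z 5) (z 0) (z 1) (z 2) (z 3) (z 6)

theorem gPA_tPA0 (z : Fin 7 → A) : gPA (z ∘ tPA 0) = cc (z 0 * z 1) (z 2) (z 3) (z 4) (z 5) (z 6) := rfl
theorem gPA_tPA1 (z : Fin 7 → A) : gPA (z ∘ tPA 1) = cc (z 0 * z 2) (z 1) (z 3) (z 4) (z 5) (z 6) := rfl
theorem gPA_tPA2 (z : Fin 7 → A) : gPA (z ∘ tPA 2) = cc (z 0 * z 3) (z 1) (z 2) (z 4) (z 5) (z 6) := rfl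
theorem gPA_tPA3 (z : Fin 7 → A) : gPA (z ∘ tPA 3) = cc (z 1 * z 2) (z 0) (z 3) (z 4) (z 5) (z 6) := rfl
theorem gPA_tPA4 (z : Fin 7 → A) : gPA (z ∘ tPA 4) = cc (z 1 * z 3) (z 0) (z 2) (z 4) (z 5) (z 6) := rfl
theorem gPA_tPA5 (z : Fin 7 → A) : gPA (z ∘ tPA 5) = cc (z 2 * z 3) (z 0) (z 1) (z 4) (z 5) (z 6) := rfl
theorem gPB_tPB0 (z : Fin 7 → A) : gPB (z ∘ tPB 0) = cc (z 3 * z 4) (z 0) (z 1) (z 2) (z 5) (z 6) := rfl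
theorem gPB_tPB1 (z : Fin 7 → A) : gPB (z ∘ tPB 1) = cc (z 3 * z 5) (z 0) (z 1) (z 2) (z 4) (z 6) := rfl
theorem gPB_tPB2 (z : Fin 7 → A) : gPB (z ∘ tPB 2) = cc (z 3 * z 6) (z 0) (z 1) (z 2) (z 4) (z 5) := rfl
theorem gPB_tPB3 (z : Fin 7 → A) : gPB (z ∘ tPB 3) = cc (z 2 * z 4) (z 0) (z 1) (z 3) (z 5) (z 6) := rfl
theorem gPB_tPB4 (z : Fin 7 → A) : gPB (z ∘ tPB 4) = cc (z 2 * z 5) (z 0) (z 1) (z 3) (z 4) (z 6) := rfl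
theorem gPB_tPB5 (z : Fin 7 → A) : gPB (z ∘ tPB 5) = cc (z 2 * z 6) (z 0) (z 1) (z 3) (z 4) (z 5) := rfl
theorem gPB_tPC0 (z : Fin 7 → A) : gPB (z ∘ tPC 0) = cc (z 1 * z 4) (z 0) (z 2) (z 3) (z 5) (z 6) := rfl
theorem gPB_tPC1 (z : Fin 7 → A) : gPB (z ∘ tPC 1) = cc (z 1 * z 5) (z 0) (z 2) (z 3) (z 4) (z 6) := rfl
theorem gPB_tPC2 (z : Fin 7 → A) : gPB (z ∘ tPC 2) = cc (z 1 * z 6) (z 0) (z 2) (z 3) (z 4) (z 5) := rfl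
theorem gPB_tPC3 (z : Fin 7 → A) : gPB (z ∘ tPC 3) = cc (z 0 * z 4) (z 1) (z 2) (z 3) (z 5) (z 6) := rfl
theorem gPB_tPC4 (z : Fin 7 → A) : gPB (z ∘ tPC 4) = cc (z 0 * z 5) (z 1) (z 2) (z 3) (z 4) (z 6) := rfl
theorem gPB_tPC5 (z : Fin 7 → A) : gPB (z ∘ tPC 5) = cc (z 0 * z 6) (z 1) (z 2) (z 3) (z 4) (z 5) := rfl
theorem gPD_tPD0 (z : Fin 7 → A) : gPD (z ∘ tPD 0) = cc (z 4 * z 5) (z 0) (z 1) (z 2) (z 3) (z 6) := rfl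
theorem gPD_tPD1 (z : Fin 7 → A) : gPD (z ∘ tPD 1) = cc (z 4 * z 6) (z 0) (z 1) (z 2) (z 3) (z 5) := rfl
theorem gPD_tPD2 (z : Fin 7 → A) : gPD (z ∘ tPD 2) = cc (z 5 * z 6) (z 0) (z 1) (z 2) (z 3) (z 4) := rfl

/-- `c(X6) x7 + Σ ± c(xi xj, rest)` -/
def fP (z : Fin 7 → A) : A :=
    cc (z 0) (z 1) (z 2) (z 3) (z 4) (z 5) * z 6 +
      cc (z 0 * z 1) (z 2) (z 3) (z 4) (z 5) (z 6) -
      cc (z 0 * z 2) (z 1) (z 3) (z 4) (z 5) (z 6) +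
      cc (z 0 * z 3) (z 1) (z 2) (z 4) (z 5) (z 6) -
      cc (z 0 * z 4) (z 1) (z 2) (z 3) (z 5) (z 6) +
      cc (z 0 * z 5) (z 1) (z 2) (z 3) (z 4) (z 6) -
      cc (z 0 * z 6) (z 1) (z 2) (z 3) (z 4) (z 5) +
      cc (z 1 * z 2) (z 0) (z 3) (z 4) (z 5) (z 6) -
      cc (z 1 * z 3) (z 0) (z 2) (z 4) (z 5) (z 6) +
      cc (z 1 * z 4) (z 0) (z 2) (z 3) (z 5) (z 6) -
      cc (z 1 * z 5) (z 0) (z 2) (z 3) (z 4) (z 6) +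
      cc (z 1 * z 6) (z 0) (z 2) (z 3) (z 4) (z 5) +
      cc (z 2 * z 3) (z 0) (z 1) (z 4) (z 5) (z 6) -
      cc (z 2 * z 4) (z 0) (z 1) (z 3) (z 5) (z 6) +
      cc (z 2 * z 5) (z 0) (z 1) (z 3) (z 4) (z 6) -
      cc (z 2 * z 6) (z 0) (z 1) (z 3) (z 4) (z 5) +
      cc (z 3 * z 4) (z 0) (z 1) (z 2) (z 5) (z 6) -
      cc (z 3 * z 5) (z 0) (z 1) (z 2) (z 4) (z 6) +
      cc (z 3 * z 6) (z 0) (z 1) (z 2) (z 4) (z 5) +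
      cc (z 4 * z 5) (z 0) (z 1) (z 2) (z 3) (z 6) -
      cc (z 4 * z 6) (z 0) (z 1) (z 2) (z 3) (z 5) +
      cc (z 5 * z 6) (z 0) (z 1) (z 2) (z 3) (z 4)

end defs

variable (F : Type u) [Field F] [C23 F] {A : Type v} [NonUnitalNonAssocRing A] [Module F A]
  (h : IsM5 A)

/-- the permutations -/
def tP : (Fin 6 ⊕ Fin 6) ⊕ (Fin 6 ⊕ Fin 3) → Perm (Fin 7) :=
  Sum.elim (Sum.elim tPA tPB) (Sum.elim tPC tPD)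

def GP5 : (Fin 6 ⊕ Fin 6) ⊕ (Fin 6 ⊕ Fin 3) → (Fin 7 → A) → A :=
  Sum.elim (Sum.elim (fun _ => gPA) (fun _ => gPB)) (Sum.elim (fun _ => gPB) (fun _ => gPD))

theorem fP_eq (z : Fin 7 → A) : fP z = (1 : ℤ) • zPEx.ev (asg 7 (clsL [0, 0, 0, 0, 1, 1, 1]) z (wv 0 0 0 0)) +
    ∑ a, ((Perm.sign (tP a) : ℤ) • GP5 a (z ∘ tP a) - GP5 a z) := by
  have e1 : zPEx.ev (asg 7 (clsL [0, 0, 0, 0, 1, 1, 1]) z (wv 0 0 0 0)) =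
    cc (z 0) (z 1) (z 2) (z 3) (z 4) (z 5) * z 6 + 6 • gPA z + 12 • gPB z + 3 • gPD z := rfl
  rw [e1, Fintype.sum_sum_type, Fintype.sum_sum_type, Fintype.sum_sum_type]
  simp only [tP, GP5, Sum.elim_inl, Sum.elim_inr]
  rw [Fin.sum_univ_six, Fin.sum_univ_six, Fin.sum_univ_six, Fin.sum_univ_three]
  simp only [tPA_s0, tPA_s1, tPA_s2, tPA_s3, tPA_s4, tPA_s5, tPB_s0, tPB_s1, tPB_s2, tPB_s3, tPB_s4, tPB_s5, tPC_s0, tPC_s1, tPC_s2, tPC_s3, tPC_s4, tPC_s5, tPD_s0, tPD_s1, tPD_s2, gPA_tPA0, gPA_tPA1, gPA_tPA2, gPA_tPA3, gPA_tPA4, gPA_tPA5, gPB_tPB0, gPB_tPB1, gPB_tPB2, gPB_tPB3, gPB_tPB4, gPB_tPB5, gPB_tPC0, gPB_tPC1, gPB_tPC2, gPB_tPC3, gPB_tPC4, gPB_tPC5, gPD_tPD0, gPD_tPD1, gPD_tPD2]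
  simp only [Units.val_neg, Units.val_one]
  unfold fP gPA gPB gPD
  module

include F h

theorem fP_s01 (z : Fin 7 → A) : fP (z ∘ swap 0 1) = - fP z := by
  have hs := fsk F h.toIsMalcev
  have t0 : cc (z 1) (z 0) (z 2) (z 3) (z 4) (z 5) * z 6 =
    - (cc (z 0) (z 1) (z 2) (z 3) (z 4) (z 5) * z 6) := by rw [hs.c01 (z 0) (z 1) (z 2) (z 3) (z 4) (z 5), neg_mul]
  have t1 : cc (z 1 * z 0) (z 2) (z 3) (z 4) (z 5) (z 6) =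
    - (cc (z 0 * z 1) (z 2) (z 3) (z 4) (z 5) (z 6)) := by rw [h.toIsMalcev.ac (z 1) (z 0), cc_neg0]
  have t2 : cc (z 2 * z 3) (z 1) (z 0) (z 4) (z 5) (z 6) =
    - (cc (z 2 * z 3) (z 0) (z 1) (z 4) (z 5) (z 6)) := hs.c12 _ _ _ _ _ _
  have t3 : cc (z 2 * z 4) (z 1) (z 0) (z 3) (z 5) (z 6) =
    - (cc (z 2 * z 4) (z 0) (z 1) (z 3) (z 5) (z 6)) := hs.c12 _ _ _ _ _ _
  have t4 : cc (z 2 * z 5) (z 1) (z 0) (z 3) (z 4) (z 6) =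
    - (cc (z 2 * z 5) (z 0) (z 1) (z 3) (z 4) (z 6)) := hs.c12 _ _ _ _ _ _
  have t5 : cc (z 2 * z 6) (z 1) (z 0) (z 3) (z 4) (z 5) =
    - (cc (z 2 * z 6) (z 0) (z 1) (z 3) (z 4) (z 5)) := hs.c12 _ _ _ _ _ _
  have t6 : cc (z 3 * z 4) (z 1) (z 0) (z 2) (z 5) (z 6) =
    - (cc (z 3 * z 4) (z 0) (z 1) (z 2) (z 5) (z 6)) := hs.c12 _ _ _ _ _ _
  have t7 : cc (z 3 * z 5) (z 1) (z 0) (z 2) (z 4) (z 6) =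
    - (cc (z 3 * z 5) (z 0) (z 1) (z 2) (z 4) (z 6)) := hs.c12 _ _ _ _ _ _
  have t8 : cc (z 3 * z 6) (z 1) (z 0) (z 2) (z 4) (z 5) =
    - (cc (z 3 * z 6) (z 0) (z 1) (z 2) (z 4) (z 5)) := hs.c12 _ _ _ _ _ _
  have t9 : cc (z 4 * z 5) (z 1) (z 0) (z 2) (z 3) (z 6) =
    - (cc (z 4 * z 5) (z 0) (z 1) (z 2) (z 3) (z 6)) := hs.c12 _ _ _ _ _ _
  have t10 : cc (z 4 * z 6) (z 1) (z 0) (z 2) (z 3) (z 5) =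
    - (cc (z 4 * z 6) (z 0) (z 1) (z 2) (z 3) (z 5)) := hs.c12 _ _ _ _ _ _
  have t11 : cc (z 5 * z 6) (z 1) (z 0) (z 2) (z 3) (z 4) =
    - (cc (z 5 * z 6) (z 0) (z 1) (z 2) (z 3) (z 4)) := hs.c12 _ _ _ _ _ _
  show cc (z 1) (z 0) (z 2) (z 3) (z 4) (z 5) * z 6 +
    cc (z 1 * z 0) (z 2) (z 3) (z 4) (z 5) (z 6) -
    cc (z 1 * z 2) (z 0) (z 3) (z 4) (z 5) (z 6) +
    cc (z 1 * z 3) (z 0) (z 2) (z 4) (z 5) (z 6) -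
    cc (z 1 * z 4) (z 0) (z 2) (z 3) (z 5) (z 6) +
    cc (z 1 * z 5) (z 0) (z 2) (z 3) (z 4) (z 6) -
    cc (z 1 * z 6) (z 0) (z 2) (z 3) (z 4) (z 5) +
    cc (z 0 * z 2) (z 1) (z 3) (z 4) (z 5) (z 6) -
    cc (z 0 * z 3) (z 1) (z 2) (z 4) (z 5) (z 6) +
    cc (z 0 * z 4) (z 1) (z 2) (z 3) (z 5) (z 6) -
    cc (z 0 * z 5) (z 1) (z 2) (z 3) (z 4) (z 6) +
    cc (z 0 * z 6) (z 1) (z 2) (z 3) (z 4) (z 5) +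
    cc (z 2 * z 3) (z 1) (z 0) (z 4) (z 5) (z 6) -
    cc (z 2 * z 4) (z 1) (z 0) (z 3) (z 5) (z 6) +
    cc (z 2 * z 5) (z 1) (z 0) (z 3) (z 4) (z 6) -
    cc (z 2 * z 6) (z 1) (z 0) (z 3) (z 4) (z 5) +
    cc (z 3 * z 4) (z 1) (z 0) (z 2) (z 5) (z 6) -
    cc (z 3 * z 5) (z 1) (z 0) (z 2) (z 4) (z 6) +
    cc (z 3 * z 6) (z 1) (z 0) (z 2) (z 4) (z 5) +
    cc (z 4 * z 5) (z 1) (z 0) (z 2) (z 3) (z 6) -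
    cc (z 4 * z 6) (z 1) (z 0) (z 2) (z 3) (z 5) +
    cc (z 5 * z 6) (z 1) (z 0) (z 2) (z 3) (z 4) = _
  rw [t0, t1, t2, t3, t4, t5, t6, t7, t8, t9, t10, t11]
  unfold fP
  module

theorem fP_s12 (z : Fin 7 → A) : fP (z ∘ swap 1 2) = - fP z := by
  have hs := fsk F h.toIsMalcev
  have t0 : cc (z 0) (z 2) (z 1) (z 3) (z 4) (z 5) * z 6 =
    - (cc (z 0) (z 1) (z 2) (z 3) (z 4) (z 5) * z 6) := by rw [hs.c12 (z 0) (z 1) (z 2) (z 3) (z 4) (z 5), neg_mul]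
  have t1 : cc (z 0 * z 3) (z 2) (z 1) (z 4) (z 5) (z 6) =
    - (cc (z 0 * z 3) (z 1) (z 2) (z 4) (z 5) (z 6)) := hs.c12 _ _ _ _ _ _
  have t2 : cc (z 0 * z 4) (z 2) (z 1) (z 3) (z 5) (z 6) =
    - (cc (z 0 * z 4) (z 1) (z 2) (z 3) (z 5) (z 6)) := hs.c12 _ _ _ _ _ _
  have t3 : cc (z 0 * z 5) (z 2) (z 1) (z 3) (z 4) (z 6) =
    - (cc (z 0 * z 5) (z 1) (z 2) (z 3) (z 4) (z 6)) := hs.c12 _ _ _ _ _ _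
  have t4 : cc (z 0 * z 6) (z 2) (z 1) (z 3) (z 4) (z 5) =
    - (cc (z 0 * z 6) (z 1) (z 2) (z 3) (z 4) (z 5)) := hs.c12 _ _ _ _ _ _
  have t5 : cc (z 2 * z 1) (z 0) (z 3) (z 4) (z 5) (z 6) =
    - (cc (z 1 * z 2) (z 0) (z 3) (z 4) (z 5) (z 6)) := by rw [h.toIsMalcev.ac (z 2) (z 1), cc_neg0]
  have t6 : cc (z 3 * z 4) (z 0) (z 2) (z 1) (z 5) (z 6) =
    - (cc (z 3 * z 4) (z 0) (z 1) (z 2) (z 5) (z 6)) := hs.c23 _ _ _ _ _ _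
  have t7 : cc (z 3 * z 5) (z 0) (z 2) (z 1) (z 4) (z 6) =
    - (cc (z 3 * z 5) (z 0) (z 1) (z 2) (z 4) (z 6)) := hs.c23 _ _ _ _ _ _
  have t8 : cc (z 3 * z 6) (z 0) (z 2) (z 1) (z 4) (z 5) =
    - (cc (z 3 * z 6) (z 0) (z 1) (z 2) (z 4) (z 5)) := hs.c23 _ _ _ _ _ _
  have t9 : cc (z 4 * z 5) (z 0) (z 2) (z 1) (z 3) (z 6) =
    - (cc (z 4 * z 5) (z 0) (z 1) (z 2) (z 3) (z 6)) := hs.c23 _ _ _ _ _ _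
  have t10 : cc (z 4 * z 6) (z 0) (z 2) (z 1) (z 3) (z 5) =
    - (cc (z 4 * z 6) (z 0) (z 1) (z 2) (z 3) (z 5)) := hs.c23 _ _ _ _ _ _
  have t11 : cc (z 5 * z 6) (z 0) (z 2) (z 1) (z 3) (z 4) =
    - (cc (z 5 * z 6) (z 0) (z 1) (z 2) (z 3) (z 4)) := hs.c23 _ _ _ _ _ _
  show cc (z 0) (z 2) (z 1) (z 3) (z 4) (z 5) * z 6 +
    cc (z 0 * z 2) (z 1) (z 3) (z 4) (z 5) (z 6) -
    cc (z 0 * z 1) (z 2) (z 3) (z 4) (z 5) (z 6) +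
    cc (z 0 * z 3) (z 2) (z 1) (z 4) (z 5) (z 6) -
    cc (z 0 * z 4) (z 2) (z 1) (z 3) (z 5) (z 6) +
    cc (z 0 * z 5) (z 2) (z 1) (z 3) (z 4) (z 6) -
    cc (z 0 * z 6) (z 2) (z 1) (z 3) (z 4) (z 5) +
    cc (z 2 * z 1) (z 0) (z 3) (z 4) (z 5) (z 6) -
    cc (z 2 * z 3) (z 0) (z 1) (z 4) (z 5) (z 6) +
    cc (z 2 * z 4) (z 0) (z 1) (z 3) (z 5) (z 6) -
    cc (z 2 * z 5) (z 0) (z 1) (z 3) (z 4) (z 6) +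
    cc (z 2 * z 6) (z 0) (z 1) (z 3) (z 4) (z 5) +
    cc (z 1 * z 3) (z 0) (z 2) (z 4) (z 5) (z 6) -
    cc (z 1 * z 4) (z 0) (z 2) (z 3) (z 5) (z 6) +
    cc (z 1 * z 5) (z 0) (z 2) (z 3) (z 4) (z 6) -
    cc (z 1 * z 6) (z 0) (z 2) (z 3) (z 4) (z 5) +
    cc (z 3 * z 4) (z 0) (z 2) (z 1) (z 5) (z 6) -
    cc (z 3 * z 5) (z 0) (z 2) (z 1) (z 4) (z 6) +
    cc (z 3 * z 6) (z 0) (z 2) (z 1) (z 4) (z 5) +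
    cc (z 4 * z 5) (z 0) (z 2) (z 1) (z 3) (z 6) -
    cc (z 4 * z 6) (z 0) (z 2) (z 1) (z 3) (z 5) +
    cc (z 5 * z 6) (z 0) (z 2) (z 1) (z 3) (z 4) = _
  rw [t0, t1, t2, t3, t4, t5, t6, t7, t8, t9, t10, t11]
  unfold fP
  module

theorem fP_s23 (z : Fin 7 → A) : fP (z ∘ swap 2 3) = - fP z := by
  have hs := fsk F h.toIsMalcev
  have t0 : cc (z 0) (z 1) (z 3) (z 2) (z 4) (z 5) * z 6 =
    - (cc (z 0) (z 1) (z 2) (z 3) (z 4) (z 5) * z 6) := by rw [hs.c23 (z 0) (z 1) (z 2) (z 3) (z 4) (z 5), neg_mul]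
  have t1 : cc (z 0 * z 1) (z 3) (z 2) (z 4) (z 5) (z 6) =
    - (cc (z 0 * z 1) (z 2) (z 3) (z 4) (z 5) (z 6)) := hs.c12 _ _ _ _ _ _
  have t2 : cc (z 0 * z 4) (z 1) (z 3) (z 2) (z 5) (z 6) =
    - (cc (z 0 * z 4) (z 1) (z 2) (z 3) (z 5) (z 6)) := hs.c23 _ _ _ _ _ _
  have t3 : cc (z 0 * z 5) (z 1) (z 3) (z 2) (z 4) (z 6) =
    - (cc (z 0 * z 5) (z 1) (z 2) (z 3) (z 4) (z 6)) := hs.c23 _ _ _ _ _ _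
  have t4 : cc (z 0 * z 6) (z 1) (z 3) (z 2) (z 4) (z 5) =
    - (cc (z 0 * z 6) (z 1) (z 2) (z 3) (z 4) (z 5)) := hs.c23 _ _ _ _ _ _
  have t5 : cc (z 1 * z 4) (z 0) (z 3) (z 2) (z 5) (z 6) =
    - (cc (z 1 * z 4) (z 0) (z 2) (z 3) (z 5) (z 6)) := hs.c23 _ _ _ _ _ _
  have t6 : cc (z 1 * z 5) (z 0) (z 3) (z 2) (z 4) (z 6) =
    - (cc (z 1 * z 5) (z 0) (z 2) (z 3) (z 4) (z 6)) := hs.c23 _ _ _ _ _ _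
  have t7 : cc (z 1 * z 6) (z 0) (z 3) (z 2) (z 4) (z 5) =
    - (cc (z 1 * z 6) (z 0) (z 2) (z 3) (z 4) (z 5)) := hs.c23 _ _ _ _ _ _
  have t8 : cc (z 3 * z 2) (z 0) (z 1) (z 4) (z 5) (z 6) =
    - (cc (z 2 * z 3) (z 0) (z 1) (z 4) (z 5) (z 6)) := by rw [h.toIsMalcev.ac (z 3) (z 2), cc_neg0]
  have t9 : cc (z 4 * z 5) (z 0) (z 1) (z 3) (z 2) (z 6) =
    - (cc (z 4 * z 5) (z 0) (z 1) (z 2) (z 3) (z 6)) := hs.c34 _ _ _ _ _ _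
  have t10 : cc (z 4 * z 6) (z 0) (z 1) (z 3) (z 2) (z 5) =
    - (cc (z 4 * z 6) (z 0) (z 1) (z 2) (z 3) (z 5)) := hs.c34 _ _ _ _ _ _
  have t11 : cc (z 5 * z 6) (z 0) (z 1) (z 3) (z 2) (z 4) =
    - (cc (z 5 * z 6) (z 0) (z 1) (z 2) (z 3) (z 4)) := hs.c34 _ _ _ _ _ _
  show cc (z 0) (z 1) (z 3) (z 2) (z 4) (z 5) * z 6 +
    cc (z 0 * z 1) (z 3) (z 2) (z 4) (z 5) (z 6) -
    cc (z 0 * z 3) (z 1) (z 2) (z 4) (z 5) (z 6) +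
    cc (z 0 * z 2) (z 1) (z 3) (z 4) (z 5) (z 6) -
    cc (z 0 * z 4) (z 1) (z 3) (z 2) (z 5) (z 6) +
    cc (z 0 * z 5) (z 1) (z 3) (z 2) (z 4) (z 6) -
    cc (z 0 * z 6) (z 1) (z 3) (z 2) (z 4) (z 5) +
    cc (z 1 * z 3) (z 0) (z 2) (z 4) (z 5) (z 6) -
    cc (z 1 * z 2) (z 0) (z 3) (z 4) (z 5) (z 6) +
    cc (z 1 * z 4) (z 0) (z 3) (z 2) (z 5) (z 6) -
    cc (z 1 * z 5) (z 0) (z 3) (z 2) (z 4) (z 6) +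
    cc (z 1 * z 6) (z 0) (z 3) (z 2) (z 4) (z 5) +
    cc (z 3 * z 2) (z 0) (z 1) (z 4) (z 5) (z 6) -
    cc (z 3 * z 4) (z 0) (z 1) (z 2) (z 5) (z 6) +
    cc (z 3 * z 5) (z 0) (z 1) (z 2) (z 4) (z 6) -
    cc (z 3 * z 6) (z 0) (z 1) (z 2) (z 4) (z 5) +
    cc (z 2 * z 4) (z 0) (z 1) (z 3) (z 5) (z 6) -
    cc (z 2 * z 5) (z 0) (z 1) (z 3) (z 4) (z 6) +
    cc (z 2 * z 6) (z 0) (z 1) (z 3) (z 4) (z 5) +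
    cc (z 4 * z 5) (z 0) (z 1) (z 3) (z 2) (z 6) -
    cc (z 4 * z 6) (z 0) (z 1) (z 3) (z 2) (z 5) +
    cc (z 5 * z 6) (z 0) (z 1) (z 3) (z 2) (z 4) = _
  rw [t0, t1, t2, t3, t4, t5, t6, t7, t8, t9, t10, t11]
  unfold fP
  module

theorem fP_s45 (z : Fin 7 → A) : fP (z ∘ swap 4 5) = - fP z := by
  have hs := fsk F h.toIsMalcev
  have t0 : cc (z 0) (z 1) (z 2) (z 3) (z 5) (z 4) * z 6 =
    - (cc (z 0) (z 1) (z 2) (z 3) (z 4) (z 5) * z 6) := by rw [hs.c45 (z 0) (z 1) (z 2) (z 3) (z 4) (z 5), neg_mul]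
  have t1 : cc (z 0 * z 1) (z 2) (z 3) (z 5) (z 4) (z 6) =
    - (cc (z 0 * z 1) (z 2) (z 3) (z 4) (z 5) (z 6)) := hs.c34 _ _ _ _ _ _
  have t2 : cc (z 0 * z 2) (z 1) (z 3) (z 5) (z 4) (z 6) =
    - (cc (z 0 * z 2) (z 1) (z 3) (z 4) (z 5) (z 6)) := hs.c34 _ _ _ _ _ _
  have t3 : cc (z 0 * z 3) (z 1) (z 2) (z 5) (z 4) (z 6) =
    - (cc (z 0 * z 3) (z 1) (z 2) (z 4) (z 5) (z 6)) := hs.c34 _ _ _ _ _ _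
  have t4 : cc (z 0 * z 6) (z 1) (z 2) (z 3) (z 5) (z 4) =
    - (cc (z 0 * z 6) (z 1) (z 2) (z 3) (z 4) (z 5)) := hs.c45 _ _ _ _ _ _
  have t5 : cc (z 1 * z 2) (z 0) (z 3) (z 5) (z 4) (z 6) =
    - (cc (z 1 * z 2) (z 0) (z 3) (z 4) (z 5) (z 6)) := hs.c34 _ _ _ _ _ _
  have t6 : cc (z 1 * z 3) (z 0) (z 2) (z 5) (z 4) (z 6) =
    - (cc (z 1 * z 3) (z 0) (z 2) (z 4) (z 5) (z 6)) := hs.c34 _ _ _ _ _ _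
  have t7 : cc (z 1 * z 6) (z 0) (z 2) (z 3) (z 5) (z 4) =
    - (cc (z 1 * z 6) (z 0) (z 2) (z 3) (z 4) (z 5)) := hs.c45 _ _ _ _ _ _
  have t8 : cc (z 2 * z 3) (z 0) (z 1) (z 5) (z 4) (z 6) =
    - (cc (z 2 * z 3) (z 0) (z 1) (z 4) (z 5) (z 6)) := hs.c34 _ _ _ _ _ _
  have t9 : cc (z 2 * z 6) (z 0) (z 1) (z 3) (z 5) (z 4) =
    - (cc (z 2 * z 6) (z 0) (z 1) (z 3) (z 4) (z 5)) := hs.c45 _ _ _ _ _ _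
  have t10 : cc (z 3 * z 6) (z 0) (z 1) (z 2) (z 5) (z 4) =
    - (cc (z 3 * z 6) (z 0) (z 1) (z 2) (z 4) (z 5)) := hs.c45 _ _ _ _ _ _
  have t11 : cc (z 5 * z 4) (z 0) (z 1) (z 2) (z 3) (z 6) =
    - (cc (z 4 * z 5) (z 0) (z 1) (z 2) (z 3) (z 6)) := by rw [h.toIsMalcev.ac (z 5) (z 4), cc_neg0]
  show cc (z 0) (z 1) (z 2) (z 3) (z 5) (z 4) * z 6 +
    cc (z 0 * z 1) (z 2) (z 3) (z 5) (z 4) (z 6) -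
    cc (z 0 * z 2) (z 1) (z 3) (z 5) (z 4) (z 6) +
    cc (z 0 * z 3) (z 1) (z 2) (z 5) (z 4) (z 6) -
    cc (z 0 * z 5) (z 1) (z 2) (z 3) (z 4) (z 6) +
    cc (z 0 * z 4) (z 1) (z 2) (z 3) (z 5) (z 6) -
    cc (z 0 * z 6) (z 1) (z 2) (z 3) (z 5) (z 4) +
    cc (z 1 * z 2) (z 0) (z 3) (z 5) (z 4) (z 6) -
    cc (z 1 * z 3) (z 0) (z 2) (z 5) (z 4) (z 6) +
    cc (z 1 * z 5) (z 0) (z 2) (z 3) (z 4) (z 6) -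
    cc (z 1 * z 4) (z 0) (z 2) (z 3) (z 5) (z 6) +
    cc (z 1 * z 6) (z 0) (z 2) (z 3) (z 5) (z 4) +
    cc (z 2 * z 3) (z 0) (z 1) (z 5) (z 4) (z 6) -
    cc (z 2 * z 5) (z 0) (z 1) (z 3) (z 4) (z 6) +
    cc (z 2 * z 4) (z 0) (z 1) (z 3) (z 5) (z 6) -
    cc (z 2 * z 6) (z 0) (z 1) (z 3) (z 5) (z 4) +
    cc (z 3 * z 5) (z 0) (z 1) (z 2) (z 4) (z 6) -
    cc (z 3 * z 4) (z 0) (z 1) (z 2) (z 5) (z 6) +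
    cc (z 3 * z 6) (z 0) (z 1) (z 2) (z 5) (z 4) +
    cc (z 5 * z 4) (z 0) (z 1) (z 2) (z 3) (z 6) -
    cc (z 5 * z 6) (z 0) (z 1) (z 2) (z 3) (z 4) +
    cc (z 4 * z 6) (z 0) (z 1) (z 2) (z 3) (z 5) = _
  rw [t0, t1, t2, t3, t4, t5, t6, t7, t8, t9, t10, t11]
  unfold fP
  module

theorem fP_s56 (z : Fin 7 → A) : fP (z ∘ swap 5 6) = - fP z := by
  have hs := fsk F h.toIsMalcev
  have t0 : cc (z 0) (z 1) (z 2) (z 3) (z 4) (z 6) * z 5 =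
    - (cc (z 0) (z 1) (z 2) (z 3) (z 4) (z 5) * z 6) := c_z0' F h _ _ _ _ _ _ _
  have t1 : cc (z 0 * z 1) (z 2) (z 3) (z 4) (z 6) (z 5) =
    - (cc (z 0 * z 1) (z 2) (z 3) (z 4) (z 5) (z 6)) := hs.c45 _ _ _ _ _ _
  have t2 : cc (z 0 * z 2) (z 1) (z 3) (z 4) (z 6) (z 5) =
    - (cc (z 0 * z 2) (z 1) (z 3) (z 4) (z 5) (z 6)) := hs.c45 _ _ _ _ _ _
  have t3 : cc (z 0 * z 3) (z 1) (z 2) (z 4) (z 6) (z 5) =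
    - (cc (z 0 * z 3) (z 1) (z 2) (z 4) (z 5) (z 6)) := hs.c45 _ _ _ _ _ _
  have t4 : cc (z 0 * z 4) (z 1) (z 2) (z 3) (z 6) (z 5) =
    - (cc (z 0 * z 4) (z 1) (z 2) (z 3) (z 5) (z 6)) := hs.c45 _ _ _ _ _ _
  have t5 : cc (z 1 * z 2) (z 0) (z 3) (z 4) (z 6) (z 5) =
    - (cc (z 1 * z 2) (z 0) (z 3) (z 4) (z 5) (z 6)) := hs.c45 _ _ _ _ _ _
  have t6 : cc (z 1 * z 3) (z 0) (z 2) (z 4) (z 6) (z 5) =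
    - (cc (z 1 * z 3) (z 0) (z 2) (z 4) (z 5) (z 6)) := hs.c45 _ _ _ _ _ _
  have t7 : cc (z 1 * z 4) (z 0) (z 2) (z 3) (z 6) (z 5) =
    - (cc (z 1 * z 4) (z 0) (z 2) (z 3) (z 5) (z 6)) := hs.c45 _ _ _ _ _ _
  have t8 : cc (z 2 * z 3) (z 0) (z 1) (z 4) (z 6) (z 5) =
    - (cc (z 2 * z 3) (z 0) (z 1) (z 4) (z 5) (z 6)) := hs.c45 _ _ _ _ _ _
  have t9 : cc (z 2 * z 4) (z 0) (z 1) (z 3) (z 6) (z 5) =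
    - (cc (z 2 * z 4) (z 0) (z 1) (z 3) (z 5) (z 6)) := hs.c45 _ _ _ _ _ _
  have t10 : cc (z 3 * z 4) (z 0) (z 1) (z 2) (z 6) (z 5) =
    - (cc (z 3 * z 4) (z 0) (z 1) (z 2) (z 5) (z 6)) := hs.c45 _ _ _ _ _ _
  have t11 : cc (z 6 * z 5) (z 0) (z 1) (z 2) (z 3) (z 4) =
    - (cc (z 5 * z 6) (z 0) (z 1) (z 2) (z 3) (z 4)) := by rw [h.toIsMalcev.ac (z 6) (z 5), cc_neg0]
  show cc (z 0) (z 1) (z 2) (z 3) (z 4) (z 6) * z 5 +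
    cc (z 0 * z 1) (z 2) (z 3) (z 4) (z 6) (z 5) -
    cc (z 0 * z 2) (z 1) (z 3) (z 4) (z 6) (z 5) +
    cc (z 0 * z 3) (z 1) (z 2) (z 4) (z 6) (z 5) -
    cc (z 0 * z 4) (z 1) (z 2) (z 3) (z 6) (z 5) +
    cc (z 0 * z 6) (z 1) (z 2) (z 3) (z 4) (z 5) -
    cc (z 0 * z 5) (z 1) (z 2) (z 3) (z 4) (z 6) +
    cc (z 1 * z 2) (z 0) (z 3) (z 4) (z 6) (z 5) -
    cc (z 1 * z 3) (z 0) (z 2) (z 4) (z 6) (z 5) +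
    cc (z 1 * z 4) (z 0) (z 2) (z 3) (z 6) (z 5) -
    cc (z 1 * z 6) (z 0) (z 2) (z 3) (z 4) (z 5) +
    cc (z 1 * z 5) (z 0) (z 2) (z 3) (z 4) (z 6) +
    cc (z 2 * z 3) (z 0) (z 1) (z 4) (z 6) (z 5) -
    cc (z 2 * z 4) (z 0) (z 1) (z 3) (z 6) (z 5) +
    cc (z 2 * z 6) (z 0) (z 1) (z 3) (z 4) (z 5) -
    cc (z 2 * z 5) (z 0) (z 1) (z 3) (z 4) (z 6) +
    cc (z 3 * z 4) (z 0) (z 1) (z 2) (z 6) (z 5) -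
    cc (z 3 * z 6) (z 0) (z 1) (z 2) (z 4) (z 5) +
    cc (z 3 * z 5) (z 0) (z 1) (z 2) (z 4) (z 6) +
    cc (z 4 * z 6) (z 0) (z 1) (z 2) (z 3) (z 5) -
    cc (z 4 * z 5) (z 0) (z 1) (z 2) (z 3) (z 6) +
    cc (z 6 * z 5) (z 0) (z 1) (z 2) (z 3) (z 4) = _
  rw [t0, t1, t2, t3, t4, t5, t6, t7, t8, t9, t10, t11]
  unfold fP
  module

/-- (zP) -/
theorem fP_zero (z : Fin 7 → A) : fP z = 0 :=
  super_mod (hsm := by decide +kernel) idsM5_ml 7 par2 (clsL [0, 0, 0, 0, 1, 1, 1]) zPEx (by decide +kernel)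
    (by decide +kernel) (by decide) (by decide +kernel) cert_zPEx (h.algM5 F)
    (wv 0 0 0 0) tP (by decide) GP5 1 fP fP_eq (by decide)
    (fun i j hij hc z => by
      fin_cases i <;> fin_cases j <;>
        first | (exfalso; revert hij; decide) | (exfalso; revert hc; decide) | skip
      · exact fP_s01 F h z
      · exact fP_s12 F h z
      · exact fP_s23 F h z
      · exact fP_s45 F h z
      · exact fP_s56 F h z) z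

/-- (zP), explicitly -/
theorem zP (x0 x1 x2 x3 x4 x5 x6 : A) :
    cc x0 x1 x2 x3 x4 x5 * x6 +
      cc (x0 * x1) x2 x3 x4 x5 x6 -
      cc (x0 * x2) x1 x3 x4 x5 x6 +
      cc (x0 * x3) x1 x2 x4 x5 x6 -
      cc (x0 * x4) x1 x2 x3 x5 x6 +
      cc (x0 * x5) x1 x2 x3 x4 x6 -
      cc (x0 * x6) x1 x2 x3 x4 x5 +
      cc (x1 * x2) x0 x3 x4 x5 x6 -
      cc (x1 * x3) x0 x2 x4 x5 x6 +
      cc (x1 * x4) x0 x2 x3 x5 x6 -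
      cc (x1 * x5) x0 x2 x3 x4 x6 +
      cc (x1 * x6) x0 x2 x3 x4 x5 +
      cc (x2 * x3) x0 x1 x4 x5 x6 -
      cc (x2 * x4) x0 x1 x3 x5 x6 +
      cc (x2 * x5) x0 x1 x3 x4 x6 -
      cc (x2 * x6) x0 x1 x3 x4 x5 +
      cc (x3 * x4) x0 x1 x2 x5 x6 -
      cc (x3 * x5) x0 x1 x2 x4 x6 +
      cc (x3 * x6) x0 x1 x2 x4 x5 +
      cc (x4 * x5) x0 x1 x2 x3 x6 -
      cc (x4 * x6) x0 x1 x2 x3 x5 +
      cc (x5 * x6) x0 x1 x2 x3 x4 = 0 :=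
  fP_zero F h ![x0, x1, x2, x3, x4, x5, x6]

end Pool.Agent.MalP.P5
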