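import Pool.Agent.MalP.P5.Of5

/-! # Characteristic 5: the identity (W2) -/

set_option autoImplicit false

namespace Pool.Agent.MalP.P5

universe u v

open Finset Equiv

/-- the permutations for (W2) -/
def tW2 : Fin 3 → Perm (Fin 5) := ![swap 3 4, swap 0 1, swap 0 1 * swap 0 2]

theorem tW2_s0 : Perm.sign (tW2 0) = -1 := by decide
theorem tW2_s1 : Perm.sign (tW2 1) = -1 := by decide
theorem tW2_s2 : Perm.sign (tW2 2) = 1 := by decide

section defs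

variable {A : Type v} [NonUnitalNonAssocRing A]

def g0 (a : A) (z : Fin 5 → A) : A := cc (a * z 3) (z 4) (z 0) (z 1) (z 2) a
def g1 (a : A) (z : Fin 5 → A) : A := cc (a * z 0) (z 1) (z 2) (z 3) (z 4) a

def fW2 (a : A) (z : Fin 5 → A) : A :=
  (6 : ℤ) • fv (z 3 * z 4) (z 0) (z 1) (z 2) a a -
    (3 : ℤ) • (cc (a * z 3) (z 4) (z 0) (z 1) (z 2) a - cc (a * z 4) (z 3) (z 0) (z 1) (z 2) a) +
    (cc (a * z 0) (z 1) (z 2) (z 3) (z 4) a - cc (a * z 1) (z 0) (z 2) (z 3) (z 4) a +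
      cc (a * z 2) (z 0) (z 1) (z 3) (z 4) a)

theorem g0_t (a : A) (z : Fin 5 → A) :
    g0 a (z ∘ tW2 0) = cc (a * z 4) (z 3) (z 0) (z 1) (z 2) a := rfl
theorem g1_t (a : A) (z : Fin 5 → A) :
    g1 a (z ∘ tW2 1) = cc (a * z 1) (z 0) (z 2) (z 3) (z 4) a := rfl
theorem g1_t2 (a : A) (z : Fin 5 → A) :
    g1 a (z ∘ tW2 2) = cc (a * z 2) (z 0) (z 1) (z 3) (z 4) a := rfl

end defs

variable (F : Type u) [Field F] [C23 F] {A : Type v} [NonUnitalNonAssocRing A] [Module F A]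
  (h : IsM5 A)

include F h

theorem W2_aux (u v y0 y1 y2 a : A) : fW2 a ![y0, y1, y2, u, v] = 0 := by
  have hs := fsk F h.toIsMalcev
  exact super_mod (hsm := by decide +kernel) idsM5_ml 5 par2 (clsL [0, 0, 0, 1, 1, 2, 2]) W2xEx (by decide +kernel)
    (by decide +kernel) (by decide) (by decide +kernel) cert_W2xEx (h.algM5 F)
    (wv 0 a 0 0) tW2 (by decide)
    ![fun z => -((3 : ℤ) • g0 a z), g1 a, g1 a] 3 (fW2 a)
    (fun z => by
      have e1 : W2xEx.ev (asg 5 (clsL [0, 0, 0, 1, 1, 2, 2]) z (wv 0 a 0 0)) =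
        2 • fv (z 3 * z 4) (z 0) (z 1) (z 2) a a - 2 • g0 a z + g1 a z := rfl
      rw [e1, Fin.sum_univ_three, tW2_s0, tW2_s1, tW2_s2]
      have e2 : (![fun z => -((3 : ℤ) • g0 a z), g1 a, g1 a] : Fin 3 → (Fin 5 → A) → A) 0 =
        fun z => -((3 : ℤ) • g0 a z) := rfl
      have e3 : (![fun z => -((3 : ℤ) • g0 a z), g1 a, g1 a] : Fin 3 → (Fin 5 → A) → A) 1 =
        g1 a := rfl
      have e4 : (![fun z => -((3 : ℤ) • g0 a z), g1 a, g1 a] : Fin 3 → (Fin 5 → A) → A) 2 =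
        g1 a := rfl
      rw [e2, e3, e4, g1_t, g1_t2]
      simp only [g0_t]
      unfold fW2 g0 g1
      simp only [Units.val_neg, Units.val_one]
      module)
    (by decide)
    (fun i j hij _ z => by
      fin_cases i <;> fin_cases j <;> first | (exfalso; revert hij; decide) | skip
      · show (6 : ℤ) • fv (z 3 * z 4) (z 1) (z 0) (z 2) a a -
          (3 : ℤ) • (cc (a * z 3) (z 4) (z 1) (z 0) (z 2) a -
            cc (a * z 4) (z 3) (z 1) (z 0) (z 2) a) +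
          (cc (a * z 1) (z 0) (z 2) (z 3) (z 4) a - cc (a * z 0) (z 1) (z 2) (z 3) (z 4) a +
            cc (a * z 2) (z 1) (z 0) (z 3) (z 4) a) = - fW2 a z
        rw [hs.f12 (z 3 * z 4) (z 0) (z 1), hs.c23 (a * z 3) (z 4) (z 0) (z 1),
          hs.c23 (a * z 4) (z 3) (z 0) (z 1), hs.c12 (a * z 2) (z 0) (z 1)]
        unfold fW2
        module
      · show (6 : ℤ) • fv (z 3 * z 4) (z 0) (z 2) (z 1) a a -
          (3 : ℤ) • (cc (a * z 3) (z 4) (z 0) (z 2) (z 1) a -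
            cc (a * z 4) (z 3) (z 0) (z 2) (z 1) a) +
          (cc (a * z 0) (z 2) (z 1) (z 3) (z 4) a - cc (a * z 2) (z 0) (z 1) (z 3) (z 4) a +
            cc (a * z 1) (z 0) (z 2) (z 3) (z 4) a) = - fW2 a z
        rw [hs.f23 (z 3 * z 4) (z 0) (z 1) (z 2), hs.c34 (a * z 3) (z 4) (z 0) (z 1) (z 2),
          hs.c34 (a * z 4) (z 3) (z 0) (z 1) (z 2), hs.c12 (a * z 0) (z 1) (z 2)]
        unfold fW2
        module
      · revert ‹clsL [0, 0, 0, 1, 1, 2, 2] _ = clsL [0, 0, 0, 1, 1, 2, 2] _›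
        intro hc
        exact absurd hc (by decide)
      · show (6 : ℤ) • fv (z 4 * z 3) (z 0) (z 1) (z 2) a a -
          (3 : ℤ) • (cc (a * z 4) (z 3) (z 0) (z 1) (z 2) a -
            cc (a * z 3) (z 4) (z 0) (z 1) (z 2) a) +
          (cc (a * z 0) (z 1) (z 2) (z 4) (z 3) a - cc (a * z 1) (z 0) (z 2) (z 4) (z 3) a +
            cc (a * z 2) (z 0) (z 1) (z 4) (z 3) a) = - fW2 a z
        rw [h.toIsMalcev.ac (z 4) (z 3), fv_neg0, hs.c34 (a * z 0) (z 1) (z 2) (z 3) (z 4),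
          hs.c34 (a * z 1) (z 0) (z 2) (z 3) (z 4), hs.c34 (a * z 2) (z 0) (z 1) (z 3) (z 4)]
        unfold fW2
        module) ![y0, y1, y2, u, v]

/-- (W2): `f(uv,Y;a) ≡ 3 [c(au,v,Y,a) - c(av,u,Y,a)] - Σ ± c(a y, Y, u, v, a)` -/
theorem W2 (u v y0 y1 y2 a : A) : fv (u * v) y0 y1 y2 a a =
    (3 : ℤ) • (cc (a * u) v y0 y1 y2 a - cc (a * v) u y0 y1 y2 a) -
      (cc (a * y0) y1 y2 u v a - cc (a * y1) y0 y2 u v a + cc (a * y2) y0 y1 u v a) := by
  have key := W2_aux F h u v y0 y1 y2 a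
  have k2 : (6 : ℤ) • fv (u * v) y0 y1 y2 a a -
    (3 : ℤ) • (cc (a * u) v y0 y1 y2 a - cc (a * v) u y0 y1 y2 a) +
    (cc (a * y0) y1 y2 u v a - cc (a * y1) y0 y2 u v a + cc (a * y2) y0 y1 u v a) = 0 := key
  have h5 := h.five (fv (u * v) y0 y1 y2 a a)
  have h6 : (6 : ℤ) • fv (u * v) y0 y1 y2 a a = fv (u * v) y0 y1 y2 a a := by
    have e : (6 : ℤ) • fv (u * v) y0 y1 y2 a a = (5 : ℤ) • fv (u * v) y0 y1 y2 a a +
      fv (u * v) y0 y1 y2 a a := by module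
    rw [e, h5, zero_add]
  rw [h6] at k2
  rw [← sub_eq_zero, ← k2]
  abel

end Pool.Agent.MalP.P5
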