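import Pool.Agent.MalP.P5.Z5Of
import Pool.Agent.MalP.P5.OfW2
import Pool.Agent.MalP.P5.OfE
import Pool.Agent.MalP.P5.OfP

/-! # Every Malcev algebra in characteristic 5 satisfies the identities `IsC5` -/

set_option autoImplicit false

namespace Pool.Agent.MalP

universe u v

theorem C23.of5 (F : Type u) [Field F] (h5 : (5 : F) = 0) : C23 F where
  two := by
    intro h
    have h1 : (1 : F) = 5 - 2 * 2 := by norm_num
    rw [h5, h, mul_zero, sub_zero] at h1
    exact one_ne_zero h1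
  three := by
    intro h
    have h1 : (1 : F) = 2 * 3 - 5 := by norm_num
    rw [h5, h, mul_zero, sub_zero] at h1
    exact one_ne_zero h1

theorem zsmul_five (F : Type u) [Field F] (h5 : (5 : F) = 0) {A : Type v} [AddCommGroup A]
    [Module F A] (x : A) : (5 : ℤ) • x = 0 := by
  rw [← Int.cast_smul_eq_zsmul F]
  have h : ((5 : ℤ) : F) = 0 := by
    rw [Int.cast_ofNat]
    exact h5
  rw [h, zero_smul]

theorem isC5 (F : Type u) [Field F] (h5 : (5 : F) = 0) {A : Type v} [NonUnitalNonAssocRing A]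
    [Module F A] (h : IsMalcev A) : IsC5 A := by
  haveI := C23.of5 F h5
  have hm : P5.IsM5 A := ⟨h, fun x => zsmul_five F h5 x⟩
  have hs := P5.fsk F h
  refine
    { toIsMalcev := h
      five := hm.five
      s0 := hs.s0
      W1 := P5.W1 F hm
      W2 := ?_
      W3 := P5.W3 F hm
      W4 := ?_
      z0 := P5.c_z0 F hm
      zP := P5.zP F hm
      E := P5.c_E F hm }
  · intro u v y0 y1 y2 a
    rw [P5.W2 F hm u v y0 y1 y2 a]
    congr 1
    have e := hm.five (cc (a * u) v y0 y1 y2 a - cc (a * v) u y0 y1 y2 a)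
    have e2 : (3 : ℤ) • (cc (a * u) v y0 y1 y2 a - cc (a * v) u y0 y1 y2 a) =
      (-2 : ℤ) • (cc (a * u) v y0 y1 y2 a - cc (a * v) u y0 y1 y2 a) +
      (5 : ℤ) • (cc (a * u) v y0 y1 y2 a - cc (a * v) u y0 y1 y2 a) := by module
    rw [e2, e, add_zero]
  · intro u v y0 y1 y2 y
    have k := P5.W4 F hm u v y0 y1 y2 y
    have e1 := hm.five (fv u v y0 y1 y2 y * v)
    have e2 := hm.five (fv (u * v) v y0 y1 y2 y)
    have e3 : fv u v y0 y1 y2 y * v + (3 : ℤ) • cc (v * y) u v y0 y1 y2 - fv (u * v) v y0 y1 y2 y =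
      (3 : ℤ) • ((2 : ℤ) • (fv u v y0 y1 y2 y * v) - (2 : ℤ) • fv (u * v) v y0 y1 y2 y +
      cc (v * y) u v y0 y1 y2) - (5 : ℤ) • (fv u v y0 y1 y2 y * v) +
      (5 : ℤ) • fv (u * v) v y0 y1 y2 y := by module
    rw [k, e1, e2, smul_zero, sub_zero, add_zero] at e3
    exact (sub_eq_zero.1 e3).symm

end Pool.Agent.MalP
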