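import Pool.Agent.MalP.CertPar

/-! # Characteristic 5: the identities as expressions -/

set_option autoImplicit false

namespace Pool.Agent.MalP

universe u v

namespace PEx

def f6p (a b c d v z : PEx) : PEx := P108 a b c d (v * z) - P108 a b c d v * z

/-- `f(x0,x1,x2,x3,x4;v)`, skew in `x0..x4` -/
def fv (x0 x1 x2 x3 x4 v : PEx) : PEx := f6p x0 x1 x2 x3 v x4

def cc (x0 x1 x2 x3 x4 x5 : PEx) : PEx :=
  fv x1 x2 x3 x4 x5 x0 - fv x0 x2 x3 x4 x5 x1 + fv x0 x1 x3 x4 x5 x2 - fv x0 x1 x2 x4 x5 x3 +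
    fv x0 x1 x2 x3 x5 x4 - fv x0 x1 x2 x3 x4 x5

end PEx

def cEx : PEx := PEx.cc (.X 0) (.X 1) (.X 2) (.X 3) (.X 4) (.X 5)

def c7Ex : PEx := PEx.cc (.X 0) (.X 1) (.X 2) (.X 3) (.X 4) (.X 5) * .X 6

def fiveEx : PEx := 5 • (PEx.X 0 * PEx.X 1)

/-- `f` is skew in `x3, x4`: letters 0..2 odd; 3 = 4; 5 -/
def S0Ex : PEx := PEx.f6p (.X 0) (.X 1) (.X 2) (.X 4) (.X 3) (.X 5)

/-- (w1) `f(X5;uv) = 0`: letters 0..3 and 4,5 odd; 6 -/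
def w1Ex : PEx := PEx.fv (.X 0) (.X 1) (.X 2) (.X 3) (.X 6) (.X 4 * .X 5)

/-- (w2) `f(uv,y1,y2,y3,a;a) = 0`: letters 0..2 and 3,4 odd; 5 = 6 -/
def w2Ex : PEx := PEx.fv (.X 3 * .X 4) (.X 0) (.X 1) (.X 2) (.X 5) (.X 6)

/-- (w3) `f(y1,y2,y3,a,x;a) x = 0`: letters 0..2 odd; 3 = 4; 5 = 6 -/
def w3Ex : PEx := PEx.fv (.X 0) (.X 1) (.X 2) (.X 3) (.X 5) (.X 4) * .X 6

/-- (w4) `f(uv,v,y1,y2,y3;y4) = f(u,v,y1,y2,y3;y4) v`: letters 0..2 odd; 3; 4; 5 = 6 -/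
def w4Ex : PEx := PEx.fv (.X 4 * .X 5) (.X 6) (.X 0) (.X 1) (.X 2) (.X 3) -
  PEx.fv (.X 4) (.X 5) (.X 0) (.X 1) (.X 2) (.X 3) * .X 6

/-- the identities: Malcev, `c = 0`, `5 = 0` -/
def ids5 : List PEx := [antiEx, sagleEx, cEx, c7Ex, fiveEx]

theorem ids5_ml : ∀ e ∈ ids5, e.ml = true := by decide +kernel

theorem ex5_ml : [S0Ex, w1Ex, w2Ex, w3Ex, w4Ex].all PEx.ml = true := by decide +kernel

end Pool.Agent.MalP
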