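import Pool.Agent.MalP.Check4
import Pool.Agent.MalP.P5.Ex5

/-! # Certificate of S0Ex -/

set_option autoImplicit false
set_option maxRecDepth 100000

namespace Pool.Agent.MalP

universe u

namespace Chk

noncomputable def dS0_c529 : Cm := .mk (nat_lit 14) (nat_lit 529) (nat_lit 17) (nat_lit 4) (.c (nat_lit 4) (nat_lit 1) (nat_lit 3) (nat_lit 1) (nat_lit 4) (.c (nat_lit 7) (nat_lit 1) (nat_lit 2) (nat_lit 1) (nat_lit 5) (.c (nat_lit 8) (nat_lit 1) (nat_lit 1) (nat_lit 1) (nat_lit 6) (.c (nat_lit 9) (nat_lit 3) (nat_lit 0) (nat_lit 1) (nat_lit 7) (.c (nat_lit 2512) (nat_lit 0) (nat_lit 5) (nat_lit 1) (nat_lit 10) .nil)))))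

noncomputable def dS0_c514 : Cm := .mk (nat_lit 20) (nat_lit 514) (nat_lit 21) (nat_lit 3) (.c (nat_lit 4) (nat_lit 1) (nat_lit 4) (nat_lit 1) (nat_lit 3) (.c (nat_lit 8) (nat_lit 1) (nat_lit 2) (nat_lit 1) (nat_lit 4) (.c (nat_lit 12) (nat_lit 2) (nat_lit 0) (nat_lit 1) (nat_lit 5) (.c (nat_lit 2512) (nat_lit 0) (nat_lit 6) (nat_lit 1) (nat_lit 7) .nil))))

noncomputable def dS0_c274 : Cm := .mk (nat_lit 24) (nat_lit 274) (nat_lit 24) (nat_lit 6) (.c (nat_lit 5) (nat_lit 1) (nat_lit 4) (nat_lit 1) (nat_lit 6) (.c (nat_lit 6) (nat_lit 1) (nat_lit 3) (nat_lit 1) (nat_lit 7) (.c (nat_lit 9) (nat_lit 3) (nat_lit 2) (nat_lit 1) (nat_lit 8) (.c (nat_lit 12) (nat_lit 2) (nat_lit 1) (nat_lit 1) (nat_lit 11) (.c (nat_lit 14) (nat_lit 2) (nat_lit 0) (nat_lit 1) (nat_lit 13) .nil)))))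

noncomputable def dS0_c259 : Cm := .mk (nat_lit 33) (nat_lit 259) (nat_lit 30) (nat_lit 3) (.c (nat_lit 6) (nat_lit 1) (nat_lit 4) (nat_lit 1) (nat_lit 3) (.c (nat_lit 12) (nat_lit 2) (nat_lit 2) (nat_lit 1) (nat_lit 4) (.c (nat_lit 16) (nat_lit 1) (nat_lit 0) (nat_lit 1) (nat_lit 6) .nil)))

noncomputable def dS0_c19 : Cm := .mk (nat_lit 37) (nat_lit 19) (nat_lit 33) (nat_lit 3) (.c (nat_lit 6) (nat_lit 1) (nat_lit 5) (nat_lit 1) (nat_lit 3) (.c (nat_lit 14) (nat_lit 2) (nat_lit 2) (nat_lit 1) (nat_lit 4) (.c (nat_lit 16) (nat_lit 1) (nat_lit 1) (nat_lit 1) (nat_lit 6) .nil)))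

noncomputable def dS0_c530 : Cm := .mk (nat_lit 41) (nat_lit 530) (nat_lit 36) (nat_lit 11) (.c (nat_lit 7) (nat_lit 1) (nat_lit 6) (nat_lit 1) (nat_lit 11) (.c (nat_lit 8) (nat_lit 1) (nat_lit 5) (nat_lit 1) (nat_lit 12) (.c (nat_lit 9) (nat_lit 3) (nat_lit 4) (nat_lit 1) (nat_lit 13) (.c (nat_lit 12) (nat_lit 2) (nat_lit 3) (nat_lit 1) (nat_lit 16) (.c (nat_lit 17) (nat_lit 4) (nat_lit 2) (nat_lit 1) (nat_lit 18) (.c (nat_lit 21) (nat_lit 3) (nat_lit 1) (nat_lit 1) (nat_lit 22) (.c (nat_lit 24) (nat_lit 6) (nat_lit 0) (nat_lit 1) (nat_lit 25) (.c (nat_lit 2512) (nat_lit 0) (nat_lit 14) (nat_lit 2) (nat_lit 31) .nil))))))))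

noncomputable def dS0_c515 : Cm := .mk (nat_lit 61) (nat_lit 515) (nat_lit 47) (nat_lit 5) (.c (nat_lit 8) (nat_lit 1) (nat_lit 6) (nat_lit 1) (nat_lit 5) (.c (nat_lit 12) (nat_lit 2) (nat_lit 4) (nat_lit 1) (nat_lit 6) (.c (nat_lit 21) (nat_lit 3) (nat_lit 2) (nat_lit 1) (nat_lit 8) (.c (nat_lit 30) (nat_lit 3) (nat_lit 0) (nat_lit 1) (nat_lit 11) (.c (nat_lit 2512) (nat_lit 0) (nat_lit 16) (nat_lit 1) (nat_lit 14) .nil)))))

noncomputable def dS0_c275 : Cm := .mk (nat_lit 70) (nat_lit 275) (nat_lit 52) (nat_lit 11) (.c (nat_lit 9) (nat_lit 3) (nat_lit 6) (nat_lit 1) (nat_lit 11) (.c (nat_lit 12) (nat_lit 2) (nat_lit 5) (nat_lit 1) (nat_lit 14) (.c (nat_lit 14) (nat_lit 2) (nat_lit 4) (nat_lit 1) (nat_lit 16) (.c (nat_lit 16) (nat_lit 1) (nat_lit 3) (nat_lit 1) (nat_lit 18) (.c (nat_lit 24) (nat_lit 6) (nat_lit 2) (nat_lit 1) (nat_lit 19) (.c (nat_lit 30) (nat_lit 3) (nat_lit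 1) (nat_lit 1) (nat_lit 25) (.c (nat_lit 33) (nat_lit 3) (nat_lit 0) (nat_lit 1) (nat_lit 28) .nil)))))))

noncomputable def dS0_t0 : Tr := (.nd (.nd (.nd (.nd (.nd (.nd (.nd .leaf (nat_lit 1024) (nat_lit 0) (.p (nat_lit 3) (nat_lit 1) .z) .df .leaf) (nat_lit 2048) (nat_lit 1) (.p (nat_lit 4) (nat_lit 1) .z) .df .leaf) (nat_lit 2049) (nat_lit 2) (.p (nat_lit 5) (nat_lit 1) .z) .df (.nd (.nd .leaf (nat_lit 2050) (nat_lit 3) (.p (nat_lit 6) (nat_lit 1) .z) .df .leaf) (nat_lit 3072) (nat_lit 4) (.p (nat_lit 7) (nat_lit 1) .z) .df .leaf)) (nat_lit 3074) (nat_lit 6) (.p (nat_lit 9) (nat_lit 1) .z) .df (.nd (.nd (.nd .leaf (nat_lit 4096) (nat_lit 5) (.p (nat_lit 8) (nat_lit 1) .z) .df .leaf) (nat_lit 4097) (nat_lit 7) (.p (nat_lit 10) (nat_lit 1) .z) .df .leaf) (nat_lit 4098) (nat_lit 9) (.p (nat_lit 12) (nat_lit 1) .z) .df (.nd (.nd .leaf (nat_lit 4099) (nat_lit 19) (.n (nat_lit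 18) (nat_lit 1) (.p (nat_lit 19) (nat_lit 1) (.p (nat_lit 20) (nat_lit 1) .z))) (.ct dS0_c529 (nat_lit 1) (nat_lit 0) (.s true (nat_lit 1) (nat_lit 2) (nat_lit 0) (nat_lit 0) (nat_lit 1) true (nat_lit 0) true (nat_lit 2) true (nat_lit 1) true (nat_lit 3) true (nat_lit 3) (.e true (nat_lit 1) (nat_lit 8) (nat_lit 1) (nat_lit 2) (.e false (nat_lit 1) (nat_lit 9) (nat_lit 0) (nat_lit 3) (.e false (nat_lit 1) (nat_lit 11) (nat_lit 0) (nat_lit 3) .nil))))) .leaf) (nat_lit 4100) (nat_lit 23) (.n (nat_lit 21) (nat_lit 1) (.n (nat_lit 22) (nat_lit 1) (.p (nat_lit 23) (nat_lit 1) .z))) (.ct dS0_c514 (nat_lit 1) (nat_lit 0) (.s true (nat_lit 1) (nat_lit 2) (nat_lit 0) (nat_lit 0) (nat_lit 2) true (nat_lit 0) true (nat_lit 1) true (nat_lit 1) true (nat_lit 2) true (nat_lit 2) (.e true (nat_lit 1) (nat_lit 8) (nat_lit 2) (nat_lit 1) (.e true (nat_lit 1) (nat_lit 12) (nat_lit 0) (nat_lit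 2) (.e false (nat_lit 1) (nat_lit 13) (nat_lit 0) (nat_lit 2) .nil))))) .leaf))) (nat_lit 5120) (nat_lit 8) (.p (nat_lit 11) (nat_lit 1) .z) .df (.nd (.nd (.nd (.nd .leaf (nat_lit 5122) (nat_lit 11) (.p (nat_lit 14) (nat_lit 1) .z) .df .leaf) (nat_lit 5124) (nat_lit 30) (.n (nat_lit 24) (nat_lit 1) (.n (nat_lit 25) (nat_lit 1) (.p (nat_lit 28) (nat_lit 1) (.n (nat_lit 29) (nat_lit 1) .z)))) (.ct dS0_c274 (nat_lit 1) (nat_lit 0) (.s true (nat_lit 1) (nat_lit 2) (nat_lit 0) (nat_lit 1) (nat_lit 2) true (nat_lit 0) true (nat_lit 2) true (nat_lit 2) true (nat_lit 4) true (nat_lit 3) (.e true (nat_lit 1) (nat_lit 10) (nat_lit 2) (nat_lit 2) (.e true (nat_lit 1) (nat_lit 9) (nat_lit 2) (nat_lit 2) (.e true (nat_lit 1) (nat_lit 14) (nat_lit 0) (nat_lit 4) (.e false (nat_lit 1) (nat_lit 13) (nat_lit 1) (nat_lit 3) .nil)))))) .leaf) (nat_lit 6144) (nat_lit 10) (.p (nat_lit 13) (nat_lit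 1) .z) .df (.nd (.nd .leaf (nat_lit 6145) (nat_lit 12) (.p (nat_lit 15) (nat_lit 1) .z) .df .leaf) (nat_lit 6146) (nat_lit 13) (.p (nat_lit 16) (nat_lit 1) .z) .df .leaf)) (nat_lit 6147) (nat_lit 32) (.n (nat_lit 25) (nat_lit 1) (.p (nat_lit 26) (nat_lit 1) (.n (nat_lit 27) (nat_lit 1) (.p (nat_lit 29) (nat_lit 1) .z)))) (.ct dS0_c274 (nat_lit 1) (nat_lit 1) (.s true (nat_lit 1) (nat_lit 2) (nat_lit 0) (nat_lit 2) (nat_lit 1) true (nat_lit 1) true (nat_lit 3) true (nat_lit 2) true (nat_lit 4) true (nat_lit 2) (.e true (nat_lit 1) (nat_lit 12) (nat_lit 1) (nat_lit 3) (.e true (nat_lit 1) (nat_lit 10) (nat_lit 2) (nat_lit 2) (.e false (nat_lit 1) (nat_lit 14) (nat_lit 0) (nat_lit 4) (.e false (nat_lit 1) (nat_lit 11) (nat_lit 2) (nat_lit 2) .nil)))))) (.nd (.nd (.nd .leaf (nat_lit 6148) (nat_lit 36) (.n (nat_lit 31) (nat_lit 1) (.n (nat_lit 32) (nat_lit 1) .z)) (.ct dS0_c259 (nat_lit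 1) (nat_lit 0) (.s true (nat_lit 1) (nat_lit 2) (nat_lit 0) (nat_lit 2) (nat_lit 2) true (nat_lit 0) true (nat_lit 1) true (nat_lit 1) true (nat_lit 2) true (nat_lit 1) (.e true (nat_lit 1) (nat_lit 16) (nat_lit 0) (nat_lit 2) (.e true (nat_lit 1) (nat_lit 13) (nat_lit 2) (nat_lit 1) .nil)))) .leaf) (nat_lit 6149) (nat_lit 40) (.n (nat_lit 34) (nat_lit 1) (.n (nat_lit 35) (nat_lit 1) .z)) (.ct dS0_c19 (nat_lit 1) (nat_lit 0) (.s true (nat_lit 1) (nat_lit 2) (nat_lit 1) (nat_lit 2) (nat_lit 2) true (nat_lit 0) true (nat_lit 1) true (nat_lit 1) true (nat_lit 2) true (nat_lit 1) (.e true (nat_lit 1) (nat_lit 16) (nat_lit 1) (nat_lit 2) (.e true (nat_lit 1) (nat_lit 15) (nat_lit 2) (nat_lit 1) .nil)))) .leaf) (nat_lit 7170) (nat_lit 14) (.p (nat_lit 17) (nat_lit 1) .z) .df (.nd .leaf (nat_lit 7174) (nat_lit 58) (.n (nat_lit 40) (nat_lit 1) (.p (nat_lit 42) (nat_lit 1) (.n (nat_lit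 43) (nat_lit 1) (.p (nat_lit 44) (nat_lit 1) (.p (nat_lit 45) (nat_lit 1) (.n (nat_lit 46) (nat_lit 1) .z)))))) (.ct dS0_c530 (nat_lit 1) (nat_lit 0) (.s false (nat_lit 1) (nat_lit 3) (nat_lit 2) (nat_lit 0) (nat_lit 2) true (nat_lit 0) true (nat_lit 4) true (nat_lit 3) true (nat_lit 4) true (nat_lit 6) (.e false (nat_lit 2) (nat_lit 19) (nat_lit 2) (nat_lit 4) (.e false (nat_lit 1) (nat_lit 12) (nat_lit 3) (nat_lit 3) (.e true (nat_lit 1) (nat_lit 18) (nat_lit 2) (nat_lit 4) (.e false (nat_lit 1) (nat_lit 20) (nat_lit 2) (nat_lit 4) (.e false (nat_lit 1) (nat_lit 24) (nat_lit 0) (nat_lit 6) .nil))))))) .leaf)))) (nat_lit 8193) (nat_lit 15) (.p (nat_lit 18) (nat_lit 1) .z) .df (.nd (.nd (.nd (.nd (.nd .leaf (nat_lit 8194) (nat_lit 20) (.p (nat_lit 21) (nat_lit 1) .z) .df .leaf) (nat_lit 8197) (nat_lit 53) (.p (nat_lit 38) (nat_lit 1) (.n (nat_lit 41) (nat_lit 1) (.n (nat_lit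 42) (nat_lit 1) (.n (nat_lit 43) (nat_lit 1) (.p (nat_lit 45) (nat_lit 1) (.n (nat_lit 46) (nat_lit 1) .z)))))) (.ct dS0_c530 (nat_lit 1) (nat_lit 1) (.s true (nat_lit 1) (nat_lit 5) (nat_lit 0) (nat_lit 2) (nat_lit 0) false (nat_lit 7) true (nat_lit 6) true (nat_lit 1) true (nat_lit 6) true (nat_lit 4) (.e true (nat_lit 1) (nat_lit 26) (nat_lit 0) (nat_lit 6) (.e true (nat_lit 1) (nat_lit 24) (nat_lit 0) (nat_lit 6) (.e true (nat_lit 1) (nat_lit 25) (nat_lit 0) (nat_lit 6) (.e false (nat_lit 1) (nat_lit 28) (nat_lit 0) (nat_lit 6) (.e true (nat_lit 1) (nat_lit 29) (nat_lit 0) (nat_lit 6) (.e false (nat_lit 1) (nat_lit 20) (nat_lit 2) (nat_lit 4) .nil)))))))) .leaf) (nat_lit 8198) (nat_lit 66) (.n (nat_lit 48) (nat_lit 1) (.p (nat_lit 50) (nat_lit 2) (.p (nat_lit 51) (nat_lit 1) .z))) (.ct dS0_c515 (nat_lit 1) (nat_lit 0) (.s false (nat_lit 1) (nat_lit 6) (nat_lit 0) (nat_lit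 2) (nat_lit 0) false (nat_lit 4) true (nat_lit 3) true (nat_lit 0) true (nat_lit 3) true (nat_lit 2) (.e false (nat_lit 2) (nat_lit 31) (nat_lit 0) (nat_lit 3) (.e false (nat_lit 1) (nat_lit 32) (nat_lit 0) (nat_lit 3) (.e true (nat_lit 1) (nat_lit 23) (nat_lit 2) (nat_lit 2) .nil))))) (.nd (.nd .leaf (nat_lit 9216) (nat_lit 16) (.p (nat_lit 19) (nat_lit 1) .z) .df .leaf) (nat_lit 9218) (nat_lit 24) (.p (nat_lit 24) (nat_lit 1) .z) .df .leaf)) (nat_lit 9220) (nat_lit 56) (.n (nat_lit 37) (nat_lit 1) (.p (nat_lit 42) (nat_lit 1) (.n (nat_lit 43) (nat_lit 1) .z))) (.ct dS0_c530 (nat_lit 1) (nat_lit 2) (.s true (nat_lit 1) (nat_lit 3) (nat_lit 0) (nat_lit 2) (nat_lit 2) true (nat_lit 2) true (nat_lit 4) true (nat_lit 3) true (nat_lit 6) true (nat_lit 4) (.e true (nat_lit 1) (nat_lit 17) (nat_lit 2) (nat_lit 4) (.e false (nat_lit 1) (nat_lit 12) (nat_lit 3) (nat_lit 3) (.e false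 (nat_lit 1) (nat_lit 25) (nat_lit 0) (nat_lit 6) (.e true (nat_lit 1) (nat_lit 26) (nat_lit 0) (nat_lit 6) (.e false (nat_lit 1) (nat_lit 27) (nat_lit 0) (nat_lit 6) (.e true (nat_lit 1) (nat_lit 29) (nat_lit 0) (nat_lit 6) (.e true (nat_lit 1) (nat_lit 19) (nat_lit 2) (nat_lit 4) .nil))))))))) (.nd (.nd (.nd .leaf (nat_lit 9222) (nat_lit 79) (.p (nat_lit 61) (nat_lit 1) .z) .df .leaf) (nat_lit 10240) (nat_lit 18) (.p (nat_lit 17) (nat_lit 1) (.p (nat_lit 18) (nat_lit 1) (.n (nat_lit 19) (nat_lit 1) .z))) (.ct dS0_c529 (nat_lit 1) (nat_lit 3) (.s true (nat_lit 1) (nat_lit 2) (nat_lit 0) (nat_lit 1) (nat_lit 0) false (nat_lit 4) true (nat_lit 3) true (nat_lit 1) true (nat_lit 3) true (nat_lit 2) (.e false (nat_lit 1) (nat_lit 7) (nat_lit 2) (nat_lit 1) (.e true (nat_lit 1) (nat_lit 9) (nat_lit 0) (nat_lit 3) (.e false (nat_lit 1) (nat_lit 8) (nat_lit 1) (nat_lit 2) .nil)))))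 .leaf) (nat_lit 10242) (nat_lit 25) (.p (nat_lit 25) (nat_lit 1) .z) .df (.nd .leaf (nat_lit 10244) (nat_lit 57) (.p (nat_lit 36) (nat_lit 1) (.n (nat_lit 37) (nat_lit 1) (.n (nat_lit 39) (nat_lit 1) (.n (nat_lit 41) (nat_lit 1) (.n (nat_lit 42) (nat_lit 1) (.p (nat_lit 44) (nat_lit 1) (.p (nat_lit 45) (nat_lit 1) (.n (nat_lit 46) (nat_lit 2) .z)))))))) (.ct dS0_c530 (nat_lit 1) (nat_lit 2) (.s false (nat_lit 1) (nat_lit 4) (nat_lit 2) (nat_lit 0) (nat_lit 1) true (nat_lit 1) true (nat_lit 5) true (nat_lit 2) true (nat_lit 4) true (nat_lit 6) (.e true (nat_lit 1) (nat_lit 8) (nat_lit 5) (nat_lit 1) (.e false (nat_lit 1) (nat_lit 22) (nat_lit 1) (nat_lit 5) (.e true (nat_lit 1) (nat_lit 18) (nat_lit 2) (nat_lit 4) (.e false (nat_lit 1) (nat_lit 19) (nat_lit 2) (nat_lit 4) (.e false (nat_lit 1) (nat_lit 20) (nat_lit 2) (nat_lit 4) (.e true (nat_lit 1) (nat_lit 25) (nat_lit 0)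 (nat_lit 6) .nil)))))))) .leaf))) (nat_lit 10246) (nat_lit 81) (.p (nat_lit 52) (nat_lit 2) (.p (nat_lit 53) (nat_lit 3) (.n (nat_lit 54) (nat_lit 1) (.p (nat_lit 55) (nat_lit 1) (.n (nat_lit 56) (nat_lit 1) (.p (nat_lit 57) (nat_lit 1) (.n (nat_lit 59) (nat_lit 1) (.n (nat_lit 61) (nat_lit 1) .z)))))))) (.ct dS0_c275 (nat_lit 1) (nat_lit 0) (.s false (nat_lit 1) (nat_lit 4) (nat_lit 2) (nat_lit 1) (nat_lit 2) true (nat_lit 0) true (nat_lit 4) true (nat_lit 2) true (nat_lit 4) true (nat_lit 5) (.s true (nat_lit 1) (nat_lit 4) (nat_lit 2) (nat_lit 2) (nat_lit 1) true (nat_lit 1) true (nat_lit 5) true (nat_lit 2) true (nat_lit 4) true (nat_lit 4) (.s true (nat_lit 1) (nat_lit 5) (nat_lit 0) (nat_lit 2) (nat_lit 2) true (nat_lit 2) true (nat_lit 4) true (nat_lit 1) true (nat_lit 6) true (nat_lit 4) (.s false (nat_lit 1) (nat_lit 6) (nat_lit 0) (nat_lit 1) (nat_lit 2) true (nat_lit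 2) true (nat_lit 4) true (nat_lit 0) true (nat_lit 6) true (nat_lit 5) (.e false (nat_lit 1) (nat_lit 27) (nat_lit 2) (nat_lit 4) (.e false (nat_lit 2) (nat_lit 24) (nat_lit 2) (nat_lit 4) (.e false (nat_lit 3) (nat_lit 25) (nat_lit 2) (nat_lit 4) (.e true (nat_lit 1) (nat_lit 28) (nat_lit 2) (nat_lit 4) (.e false (nat_lit 1) (nat_lit 29) (nat_lit 2) (nat_lit 4) (.e true (nat_lit 1) (nat_lit 26) (nat_lit 2) (nat_lit 4) (.e true (nat_lit 1) (nat_lit 9) (nat_lit 6) (nat_lit 0) (.e true (nat_lit 1) (nat_lit 32) (nat_lit 1) (nat_lit 5) .nil))))))))))))) (.nd (.nd (.nd (.nd .leaf (nat_lit 11264) (nat_lit 17) (.p (nat_lit 20) (nat_lit 1) .z) .df .leaf) (nat_lit 11266) (nat_lit 26) (.p (nat_lit 26) (nat_lit 1) .z) .df .leaf) (nat_lit 11268) (nat_lit 60) (.n (nat_lit 38) (nat_lit 1) (.p (nat_lit 41) (nat_lit 1) (.p (nat_lit 42) (nat_lit 1) (.n (nat_lit 45) (nat_lit 1) (.p (nat_lit 46)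 (nat_lit 2) .z))))) (.ct dS0_c530 (nat_lit 1) (nat_lit 2) (.s false (nat_lit 1) (nat_lit 5) (nat_lit 2) (nat_lit 0) (nat_lit 0) true (nat_lit 2) true (nat_lit 6) true (nat_lit 1) true (nat_lit 4) true (nat_lit 6) (.e false (nat_lit 1) (nat_lit 29) (nat_lit 0) (nat_lit 6) (.e true (nat_lit 1) (nat_lit 8) (nat_lit 5) (nat_lit 1) (.e true (nat_lit 1) (nat_lit 26) (nat_lit 0) (nat_lit 6) .nil))))) (.nd (.nd .leaf (nat_lit 11270) (nat_lit 83) (.n (nat_lit 53) (nat_lit 1) (.p (nat_lit 54) (nat_lit 1) (.n (nat_lit 55) (nat_lit 1) (.n (nat_lit 56) (nat_lit 1) (.p (nat_lit 57) (nat_lit 1) (.p (nat_lit 58) (nat_lit 1) (.p (nat_lit 59) (nat_lit 1) (.p (nat_lit 60) (nat_lit 1) (.p (nat_lit 61) (nat_lit 1) .z))))))))) (.ct dS0_c275 (nat_lit 1) (nat_lit 0) (.s true (nat_lit 1) (nat_lit 4) (nat_lit 1) (nat_lit 2) (nat_lit 2) true (nat_lit 1) true (nat_lit 4) true (nat_lit 2) true (nat_lit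 5) true (nat_lit 4) (.s false (nat_lit 1) (nat_lit 5) (nat_lit 2) (nat_lit 0) (nat_lit 2) true (nat_lit 0) true (nat_lit 4) true (nat_lit 1) true (nat_lit 4) true (nat_lit 6) (.s true (nat_lit 1) (nat_lit 5) (nat_lit 2) (nat_lit 2) (nat_lit 0) true (nat_lit 2) true (nat_lit 6) true (nat_lit 1) true (nat_lit 4) true (nat_lit 4) (.s true (nat_lit 1) (nat_lit 6) (nat_lit 2) (nat_lit 0) (nat_lit 1) true (nat_lit 1) true (nat_lit 5) true (nat_lit 0) true (nat_lit 4) true (nat_lit 6) (.e false (nat_lit 2) (nat_lit 25) (nat_lit 2) (nat_lit 4) (.e false (nat_lit 1) (nat_lit 31) (nat_lit 1) (nat_lit 5) (.e false (nat_lit 2) (nat_lit 29) (nat_lit 2) (nat_lit 4) (.e false (nat_lit 2) (nat_lit 24) (nat_lit 2) (nat_lit 4) (.e true (nat_lit 2) (nat_lit 28) (nat_lit 2) (nat_lit 4) (.e true (nat_lit 1) (nat_lit 10) (nat_lit 6) (nat_lit 0) (.e false (nat_lit 1) (nat_lit 34) (nat_lit 0) (nat_lit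 6) .nil)))))))))))) .leaf) (nat_lit 12288) (nat_lit 21) (.p (nat_lit 22) (nat_lit 1) .z) .df .leaf)) (nat_lit 12289) (nat_lit 27) (.p (nat_lit 27) (nat_lit 1) .z) .df (.nd (.nd (.nd .leaf (nat_lit 12290) (nat_lit 33) (.p (nat_lit 30) (nat_lit 1) .z) .df .leaf) (nat_lit 12291) (nat_lit 52) (.p (nat_lit 36) (nat_lit 1) (.n (nat_lit 37) (nat_lit 2) (.n (nat_lit 38) (nat_lit 1) (.n (nat_lit 40) (nat_lit 1) (.n (nat_lit 41) (nat_lit 1) (.p (nat_lit 42) (nat_lit 1) (.n (nat_lit 43) (nat_lit 1) (.p (nat_lit 44) (nat_lit 1) (.p (nat_lit 45) (nat_lit 1) (.n (nat_lit 46) (nat_lit 1) .z)))))))))) (.ct dS0_c530 (nat_lit 1) (nat_lit 3) (.s true (nat_lit 1) (nat_lit 3) (nat_lit 2) (nat_lit 0) (nat_lit 2) true (nat_lit 0) true (nat_lit 4) true (nat_lit 3) true (nat_lit 4) true (nat_lit 6) (.s false (nat_lit 1) (nat_lit 6) (nat_lit 0) (nat_lit 1) (nat_lit 0) false (nat_lit 7) true (nat_lit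 6) true (nat_lit 0) true (nat_lit 6) true (nat_lit 5) (.e true (nat_lit 2) (nat_lit 19) (nat_lit 2) (nat_lit 4) (.e false (nat_lit 1) (nat_lit 18) (nat_lit 2) (nat_lit 4) (.e true (nat_lit 1) (nat_lit 20) (nat_lit 2) (nat_lit 4) (.e true (nat_lit 1) (nat_lit 24) (nat_lit 0) (nat_lit 6) (.e false (nat_lit 1) (nat_lit 28) (nat_lit 0) (nat_lit 6) (.e false (nat_lit 1) (nat_lit 25) (nat_lit 0) (nat_lit 6) (.e true (nat_lit 1) (nat_lit 26) (nat_lit 0) (nat_lit 6) (.e false (nat_lit 1) (nat_lit 27) (nat_lit 0) (nat_lit 6) (.e true (nat_lit 1) (nat_lit 29) (nat_lit 0) (nat_lit 6) (.e true (nat_lit 1) (nat_lit 23) (nat_lit 1) (nat_lit 5) .nil))))))))))))) .leaf) (nat_lit 12292) (nat_lit 69) (.p (nat_lit 47) (nat_lit 1) (.n (nat_lit 49) (nat_lit 1) (.n (nat_lit 51) (nat_lit 1) .z))) (.ct dS0_c515 (nat_lit 1) (nat_lit 1) (.s true (nat_lit 1) (nat_lit 4) (nat_lit 2) (nat_lit 0) (nat_lit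 2) true (nat_lit 0) true (nat_lit 2) true (nat_lit 1) true (nat_lit 2) true (nat_lit 3) (.e false (nat_lit 1) (nat_lit 8) (nat_lit 6) (nat_lit 0) (.e true (nat_lit 2) (nat_lit 22) (nat_lit 2) (nat_lit 2) (.e true (nat_lit 1) (nat_lit 21) (nat_lit 2) (nat_lit 2) (.e false (nat_lit 1) (nat_lit 23) (nat_lit 2) (nat_lit 2) (.e true (nat_lit 1) (nat_lit 30) (nat_lit 0) (nat_lit 3) .nil))))))) (.nd .leaf (nat_lit 12293) (nat_lit 80) (.p (nat_lit 62) (nat_lit 1) .z) .df .leaf))))) (nat_lit 13312) (nat_lit 22) (.p (nat_lit 23) (nat_lit 1) .z) .df (.nd (.nd (.nd (.nd (.nd (.nd .leaf (nat_lit 13313) (nat_lit 28) (.p (nat_lit 28) (nat_lit 1) .z) .df .leaf) (nat_lit 13314) (nat_lit 34) (.p (nat_lit 31) (nat_lit 1) .z) .df .leaf) (nat_lit 13315) (nat_lit 59) (.n (nat_lit 40) (nat_lit 1) (.n (nat_lit 41) (nat_lit 2) (.p (nat_lit 44) (nat_lit 2) (.p (nat_lit 45) (nat_lit 1) (.n (nat_lit 46)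 (nat_lit 2) .z))))) (.ct dS0_c530 (nat_lit 1) (nat_lit 3) (.s true (nat_lit 1) (nat_lit 6) (nat_lit 0) (nat_lit 0) (nat_lit 1) true (nat_lit 3) true (nat_lit 5) true (nat_lit 0) true (nat_lit 6) true (nat_lit 6) (.e true (nat_lit 1) (nat_lit 23) (nat_lit 1) (nat_lit 5) (.e false (nat_lit 2) (nat_lit 27) (nat_lit 0) (nat_lit 6) (.e true (nat_lit 2) (nat_lit 29) (nat_lit 0) (nat_lit 6) (.e true (nat_lit 2) (nat_lit 24) (nat_lit 0) (nat_lit 6) (.e false (nat_lit 1) (nat_lit 28) (nat_lit 0) (nat_lit 6) .nil))))))) (.nd (.nd .leaf (nat_lit 13316) (nat_lit 67) (.n (nat_lit 48) (nat_lit 1) (.p (nat_lit 50) (nat_lit 1) (.p (nat_lit 51) (nat_lit 2) .z))) (.ct dS0_c515 (nat_lit 1) (nat_lit 1) (.s true (nat_lit 1) (nat_lit 6) (nat_lit 0) (nat_lit 0) (nat_lit 2) true (nat_lit 1) true (nat_lit 2) true (nat_lit 0) true (nat_lit 3) true (nat_lit 3) (.e true (nat_lit 1) (nat_lit 23) (nat_lit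 2) (nat_lit 2) (.e false (nat_lit 1) (nat_lit 31) (nat_lit 0) (nat_lit 3) (.e false (nat_lit 2) (nat_lit 32) (nat_lit 0) (nat_lit 3) .nil))))) .leaf) (nat_lit 13317) (nat_lit 85) (.p (nat_lit 52) (nat_lit 2) (.p (nat_lit 53) (nat_lit 2) (.n (nat_lit 56) (nat_lit 1) (.p (nat_lit 57) (nat_lit 2) (.n (nat_lit 60) (nat_lit 1) (.n (nat_lit 61) (nat_lit 1) .z)))))) (.ct dS0_c275 (nat_lit 1) (nat_lit 1) (.s false (nat_lit 1) (nat_lit 6) (nat_lit 2) (nat_lit 0) (nat_lit 1) true (nat_lit 1) true (nat_lit 5) true (nat_lit 0) true (nat_lit 4) true (nat_lit 6) (.e false (nat_lit 1) (nat_lit 32) (nat_lit 1) (nat_lit 5) (.e false (nat_lit 1) (nat_lit 10) (nat_lit 6) (nat_lit 0) (.e true (nat_lit 1) (nat_lit 25) (nat_lit 2) (nat_lit 4) (.e false (nat_lit 1) (nat_lit 26) (nat_lit 2) (nat_lit 4) (.e true (nat_lit 1) (nat_lit 27) (nat_lit 2) (nat_lit 4) (.e false (nat_lit 1) (nat_lit 29) (nat_lit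 2) (nat_lit 4) (.e true (nat_lit 1) (nat_lit 34) (nat_lit 0) (nat_lit 6) .nil))))))))) .leaf)) (nat_lit 14336) (nat_lit 29) (.p (nat_lit 29) (nat_lit 1) .z) .df (.nd (.nd (.nd .leaf (nat_lit 14338) (nat_lit 37) (.p (nat_lit 33) (nat_lit 1) .z) .df .leaf) (nat_lit 14340) (nat_lit 84) (.p (nat_lit 53) (nat_lit 1) (.p (nat_lit 55) (nat_lit 1) (.n (nat_lit 58) (nat_lit 1) (.n (nat_lit 59) (nat_lit 1) (.p (nat_lit 62) (nat_lit 1) .z))))) (.ct dS0_c275 (nat_lit 1) (nat_lit 2) (.s false (nat_lit 1) (nat_lit 4) (nat_lit 1) (nat_lit 2) (nat_lit 2) true (nat_lit 1) true (nat_lit 4) true (nat_lit 2) true (nat_lit 5) true (nat_lit 4) (.e false (nat_lit 1) (nat_lit 12) (nat_lit 5) (nat_lit 1) (.e false (nat_lit 1) (nat_lit 25) (nat_lit 2) (nat_lit 4) (.e true (nat_lit 1) (nat_lit 31) (nat_lit 1) (nat_lit 5) (.e true (nat_lit 1) (nat_lit 32) (nat_lit 1) (nat_lit 5) (.e false (nat_lit 1) (nat_lit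 27) (nat_lit 2) (nat_lit 4) .nil))))))) .leaf) (nat_lit 15360) (nat_lit 31) (.n (nat_lit 24) (nat_lit 2) (.n (nat_lit 25) (nat_lit 1) (.p (nat_lit 26) (nat_lit 1) (.p (nat_lit 27) (nat_lit 1) (.p (nat_lit 28) (nat_lit 1) (.n (nat_lit 29) (nat_lit 1) .z)))))) (.ct dS0_c274 (nat_lit 1) (nat_lit 4) (.s false (nat_lit 1) (nat_lit 2) (nat_lit 1) (nat_lit 0) (nat_lit 2) false (nat_lit 0) true (nat_lit 2) true (nat_lit 2) true (nat_lit 3) true (nat_lit 4) (.e false (nat_lit 1) (nat_lit 5) (nat_lit 4) (nat_lit 0) (.e false (nat_lit 1) (nat_lit 11) (nat_lit 2) (nat_lit 2) (.e true (nat_lit 1) (nat_lit 9) (nat_lit 2) (nat_lit 2) (.e false (nat_lit 1) (nat_lit 12) (nat_lit 1) (nat_lit 3) .nil)))))) (.nd (.nd .leaf (nat_lit 15362) (nat_lit 38) (.p (nat_lit 34) (nat_lit 1) .z) .df .leaf) (nat_lit 15364) (nat_lit 86) (.p (nat_lit 53) (nat_lit 1) (.p (nat_lit 54) (nat_lit 1) (.p (nat_lit 55)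 (nat_lit 1) (.n (nat_lit 56) (nat_lit 1) (.p (nat_lit 57) (nat_lit 1) (.n (nat_lit 58) (nat_lit 1) (.p (nat_lit 61) (nat_lit 1) .z))))))) (.ct dS0_c275 (nat_lit 1) (nat_lit 2) (.s true (nat_lit 1) (nat_lit 6) (nat_lit 0) (nat_lit 1) (nat_lit 2) true (nat_lit 2) true (nat_lit 4) true (nat_lit 0) true (nat_lit 6) true (nat_lit 5) (.e true (nat_lit 1) (nat_lit 28) (nat_lit 2) (nat_lit 4) (.e false (nat_lit 1) (nat_lit 9) (nat_lit 6) (nat_lit 0) (.e false (nat_lit 1) (nat_lit 34) (nat_lit 0) (nat_lit 6) (.e false (nat_lit 1) (nat_lit 35) (nat_lit 0) (nat_lit 6) (.e false (nat_lit 1) (nat_lit 32) (nat_lit 1) (nat_lit 5) .nil))))))) .leaf))) (nat_lit 16384) (nat_lit 35) (.p (nat_lit 32) (nat_lit 1) .z) .df (.nd (.nd (.nd (.nd .leaf (nat_lit 16385) (nat_lit 39) (.p (nat_lit 35) (nat_lit 1) .z) .df .leaf) (nat_lit 16387) (nat_lit 87) (.p (nat_lit 53) (nat_lit 1) (.n (nat_lit 54) (nat_lit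 1) (.p (nat_lit 55) (nat_lit 1) (.n (nat_lit 57) (nat_lit 1) (.n (nat_lit 61) (nat_lit 1) .z))))) (.ct dS0_c275 (nat_lit 1) (nat_lit 3) (.s true (nat_lit 1) (nat_lit 3) (nat_lit 2) (nat_lit 2) (nat_lit 2) true (nat_lit 0) true (nat_lit 4) true (nat_lit 3) true (nat_lit 4) true (nat_lit 4) (.e true (nat_lit 1) (nat_lit 9) (nat_lit 6) (nat_lit 0) (.e false (nat_lit 1) (nat_lit 25) (nat_lit 2) (nat_lit 4) (.e true (nat_lit 1) (nat_lit 26) (nat_lit 2) (nat_lit 4) (.e false (nat_lit 1) (nat_lit 27) (nat_lit 2) (nat_lit 4) (.e true (nat_lit 1) (nat_lit 29) (nat_lit 2) (nat_lit 4) .nil))))))) .leaf) (nat_lit 17410) (nat_lit 54) (.p (nat_lit 36) (nat_lit 1) (.n (nat_lit 37) (nat_lit 2) (.n (nat_lit 38) (nat_lit 1) (.n (nat_lit 40) (nat_lit 1) (.n (nat_lit 41) (nat_lit 1) (.p (nat_lit 42) (nat_lit 1) (.n (nat_lit 43) (nat_lit 1) (.p (nat_lit 44) (nat_lit 2) (.p (nat_lit 45) (nat_lit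 1) (.n (nat_lit 46) (nat_lit 2) .z)))))))))) (.ct dS0_c530 (nat_lit 2) (nat_lit 4) (.s true (nat_lit 1) (nat_lit 3) (nat_lit 0) (nat_lit 2) (nat_lit 2) true (nat_lit 2) true (nat_lit 4) true (nat_lit 3) true (nat_lit 6) true (nat_lit 4) (.s true (nat_lit 1) (nat_lit 4) (nat_lit 1) (nat_lit 0) (nat_lit 2) true (nat_lit 1) true (nat_lit 4) true (nat_lit 2) true (nat_lit 5) true (nat_lit 6) (.s true (nat_lit 1) (nat_lit 4) (nat_lit 1) (nat_lit 2) (nat_lit 0) true (nat_lit 3) true (nat_lit 6) true (nat_lit 2) true (nat_lit 5) true (nat_lit 4) (.s true (nat_lit 1) (nat_lit 5) (nat_lit 2) (nat_lit 0) (nat_lit 0) true (nat_lit 2) true (nat_lit 6) true (nat_lit 1) true (nat_lit 4) true (nat_lit 6) (.e false (nat_lit 2) (nat_lit 12) (nat_lit 3) (nat_lit 3) (.e false (nat_lit 2) (nat_lit 27) (nat_lit 0) (nat_lit 6) (.e true (nat_lit 2) (nat_lit 29) (nat_lit 0) (nat_lit 6) .nil))))))))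 (.nd (.nd .leaf (nat_lit 18434) (nat_lit 41) (.p (nat_lit 36) (nat_lit 1) .z) .df .leaf) (nat_lit 19458) (nat_lit 42) (.p (nat_lit 37) (nat_lit 1) .z) .df .leaf)) (nat_lit 20482) (nat_lit 43) (.p (nat_lit 38) (nat_lit 1) .z) .df (.nd (.nd (.nd .leaf (nat_lit 21505) (nat_lit 44) (.p (nat_lit 39) (nat_lit 1) .z) .df .leaf) (nat_lit 21506) (nat_lit 61) (.p (nat_lit 47) (nat_lit 1) .z) .df .leaf) (nat_lit 22529) (nat_lit 55) (.p (nat_lit 36) (nat_lit 2) (.n (nat_lit 37) (nat_lit 2) (.n (nat_lit 39) (nat_lit 1) (.n (nat_lit 41) (nat_lit 2) (.n (nat_lit 42) (nat_lit 1) (.n (nat_lit 43) (nat_lit 1) (.p (nat_lit 44) (nat_lit 1) (.p (nat_lit 45) (nat_lit 2) (.n (nat_lit 46) (nat_lit 3) .z))))))))) (.ct dS0_c530 (nat_lit 1) (nat_lit 5) (.s true (nat_lit 1) (nat_lit 4) (nat_lit 1) (nat_lit 2) (nat_lit 0) true (nat_lit 3) true (nat_lit 6) true (nat_lit 2) true (nat_lit 5) true (nat_lit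 4) (.s true (nat_lit 1) (nat_lit 5) (nat_lit 2) (nat_lit 0) (nat_lit 0) true (nat_lit 2) true (nat_lit 6) true (nat_lit 1) true (nat_lit 4) true (nat_lit 6) (.e false (nat_lit 1) (nat_lit 12) (nat_lit 3) (nat_lit 3) (.e true (nat_lit 1) (nat_lit 25) (nat_lit 0) (nat_lit 6) (.e true (nat_lit 1) (nat_lit 21) (nat_lit 1) (nat_lit 5) (.e false (nat_lit 1) (nat_lit 23) (nat_lit 1) (nat_lit 5) (.e false (nat_lit 1) (nat_lit 18) (nat_lit 2) (nat_lit 4) (.e true (nat_lit 1) (nat_lit 29) (nat_lit 0) (nat_lit 6) (.e false (nat_lit 1) (nat_lit 8) (nat_lit 5) (nat_lit 1) (.e false (nat_lit 1) (nat_lit 26) (nat_lit 0) (nat_lit 6) .nil))))))))))) (.nd .leaf (nat_lit 22530) (nat_lit 68) (.n (nat_lit 47) (nat_lit 1) (.p (nat_lit 50) (nat_lit 1) (.p (nat_lit 51) (nat_lit 1) .z))) (.ct dS0_c515 (nat_lit 1) (nat_lit 2) (.s true (nat_lit 1) (nat_lit 4) (nat_lit 0) (nat_lit 2) (nat_lit 2) true (nat_lit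 1) true (nat_lit 2) true (nat_lit 1) true (nat_lit 3) true (nat_lit 2) (.e true (nat_lit 1) (nat_lit 21) (nat_lit 2) (nat_lit 2) (.e false (nat_lit 1) (nat_lit 31) (nat_lit 0) (nat_lit 3) (.e false (nat_lit 1) (nat_lit 32) (nat_lit 0) (nat_lit 3) .nil))))) .leaf)))) (nat_lit 23553) (nat_lit 45) (.p (nat_lit 40) (nat_lit 1) .z) .df (.nd (.nd (.nd (.nd (.nd .leaf (nat_lit 23554) (nat_lit 62) (.p (nat_lit 48) (nat_lit 1) .z) .df .leaf) (nat_lit 24576) (nat_lit 46) (.p (nat_lit 41) (nat_lit 1) .z) .df .leaf) (nat_lit 24578) (nat_lit 70) (.p (nat_lit 52) (nat_lit 1) .z) .df (.nd (.nd .leaf (nat_lit 25600) (nat_lit 47) (.p (nat_lit 42) (nat_lit 1) .z) .df .leaf) (nat_lit 25602) (nat_lit 71) (.p (nat_lit 53) (nat_lit 1) .z) .df .leaf)) (nat_lit 26624) (nat_lit 48) (.p (nat_lit 43) (nat_lit 1) .z) .df (.nd (.nd (.nd .leaf (nat_lit 26626) (nat_lit 72) (.p (nat_lit 54) (nat_lit 1) .z)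 .df .leaf) (nat_lit 27648) (nat_lit 49) (.p (nat_lit 44) (nat_lit 1) .z) .df .leaf) (nat_lit 27650) (nat_lit 73) (.p (nat_lit 55) (nat_lit 1) .z) .df (.nd .leaf (nat_lit 28672) (nat_lit 50) (.p (nat_lit 45) (nat_lit 1) .z) .df .leaf))) (nat_lit 28674) (nat_lit 74) (.p (nat_lit 56) (nat_lit 1) .z) .df (.nd (.nd (.nd (.nd .leaf (nat_lit 29696) (nat_lit 51) (.p (nat_lit 46) (nat_lit 1) .z) .df .leaf) (nat_lit 29698) (nat_lit 75) (.p (nat_lit 57) (nat_lit 1) .z) .df .leaf) (nat_lit 30720) (nat_lit 63) (.p (nat_lit 49) (nat_lit 1) .z) .df (.nd (.nd .leaf (nat_lit 31744) (nat_lit 64) (.p (nat_lit 50) (nat_lit 1) .z) .df .leaf) (nat_lit 31745) (nat_lit 76) (.p (nat_lit 58) (nat_lit 1) .z) .df .leaf)) (nat_lit 32768) (nat_lit 65) (.p (nat_lit 51) (nat_lit 1) .z) .df (.nd (.nd (.nd .leaf (nat_lit 32769) (nat_lit 77) (.p (nat_lit 59) (nat_lit 1) .z) .df .leaf) (nat_lit 33792) (nat_lit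 88) (.n (nat_lit 52) (nat_lit 1) (.n (nat_lit 53) (nat_lit 2) (.p (nat_lit 54) (nat_lit 1) (.n (nat_lit 55) (nat_lit 1) (.n (nat_lit 57) (nat_lit 1) (.p (nat_lit 58) (nat_lit 1) (.p (nat_lit 59) (nat_lit 1) (.p (nat_lit 60) (nat_lit 1) (.p (nat_lit 61) (nat_lit 1) (.n (nat_lit 62) (nat_lit 1) .z)))))))))) (.ct dS0_c275 (nat_lit 1) (nat_lit 6) (.s true (nat_lit 1) (nat_lit 5) (nat_lit 2) (nat_lit 0) (nat_lit 2) true (nat_lit 0) true (nat_lit 4) true (nat_lit 1) true (nat_lit 4) true (nat_lit 6) (.e false (nat_lit 1) (nat_lit 11) (nat_lit 6) (nat_lit 0) (.e true (nat_lit 2) (nat_lit 29) (nat_lit 2) (nat_lit 4) (.e true (nat_lit 1) (nat_lit 12) (nat_lit 5) (nat_lit 1) (.e true (nat_lit 1) (nat_lit 24) (nat_lit 2) (nat_lit 4) (.e true (nat_lit 1) (nat_lit 25) (nat_lit 2) (nat_lit 4) (.e false (nat_lit 1) (nat_lit 28) (nat_lit 2) (nat_lit 4) .nil)))))))) .leaf) (nat_lit 34816) (nat_lit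 78) (.p (nat_lit 60) (nat_lit 1) .z) .df (.nd .leaf (nat_lit 35840) (nat_lit 82) (.p (nat_lit 53) (nat_lit 1) (.p (nat_lit 54) (nat_lit 1) (.p (nat_lit 55) (nat_lit 1) (.p (nat_lit 57) (nat_lit 1) (.n (nat_lit 58) (nat_lit 1) (.n (nat_lit 59) (nat_lit 1) (.n (nat_lit 60) (nat_lit 1) .z))))))) (.ct dS0_c275 (nat_lit 1) (nat_lit 6) (.s false (nat_lit 1) (nat_lit 4) (nat_lit 1) (nat_lit 2) (nat_lit 2) true (nat_lit 1) true (nat_lit 4) true (nat_lit 2) true (nat_lit 5) true (nat_lit 4) (.s false (nat_lit 1) (nat_lit 5) (nat_lit 0) (nat_lit 2) (nat_lit 2) true (nat_lit 2) true (nat_lit 4) true (nat_lit 1) true (nat_lit 6) true (nat_lit 4) (.e false (nat_lit 1) (nat_lit 25) (nat_lit 2) (nat_lit 4) (.e true (nat_lit 1) (nat_lit 31) (nat_lit 1) (nat_lit 5) (.e true (nat_lit 1) (nat_lit 32) (nat_lit 1) (nat_lit 5) (.e false (nat_lit 1) (nat_lit 27) (nat_lit 2) (nat_lit 4) (.e false (nat_lit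 1) (nat_lit 26) (nat_lit 2) (nat_lit 4) (.e true (nat_lit 1) (nat_lit 34) (nat_lit 0) (nat_lit 6) (.e false (nat_lit 1) (nat_lit 29) (nat_lit 2) (nat_lit 4) .nil)))))))))) .leaf))))))

noncomputable def dS0_cl : CL := (.c (nat_lit 256) (nat_lit 0) (nat_lit 1) (.c (nat_lit 16) (nat_lit 1) (nat_lit 1) (.c (nat_lit 1) (nat_lit 2) (nat_lit 1) (.c (nat_lit 512) (nat_lit 2512) (nat_lit 0) (.c (nat_lit 272) (nat_lit 3) (nat_lit 1) (.c (nat_lit 257) (nat_lit 4) (nat_lit 1) (.c (nat_lit 17) (nat_lit 5) (nat_lit 1) (.c (nat_lit 2) (nat_lit 6) (nat_lit 1) (.c (nat_lit 528) (nat_lit 7) (nat_lit 1) (.c (nat_lit 513) (nat_lit 8) (nat_lit 1) (.c (nat_lit 273) (nat_lit 9) (nat_lit 3) (.c (nat_lit 258) (nat_lit 12) (nat_lit 2) (.c (nat_lit 18) (nat_lit 14) (nat_lit 2) (.c (nat_lit 3) (nat_lit 16) (nat_lit 1) (.c (nat_lit 529) (nat_lit 17) (nat_lit 4) (.c (nat_lit 514) (nat_lit 21) (nat_lit 3)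 (.c (nat_lit 274) (nat_lit 24) (nat_lit 6) (.c (nat_lit 259) (nat_lit 30) (nat_lit 3) (.c (nat_lit 19) (nat_lit 33) (nat_lit 3) (.c (nat_lit 530) (nat_lit 36) (nat_lit 11) (.c (nat_lit 515) (nat_lit 47) (nat_lit 5) (.c (nat_lit 275) (nat_lit 52) (nat_lit 11) .nil))))))))))))))))))))))

noncomputable def dS0_D : Dt := ⟨(nat_lit 4294967296), (nat_lit 2147483648), (nat_lit 1), (nat_lit 63), (nat_lit 210533613575781735520304768094749929569849511802126672387731040625658229383468468562720376237680015435238955768936857394472012720499082525492855324326294870337805048570207277967015718062738724707131639569214898746029613037347629446501349759648569435378055251420993412504724266841868033685901375731607673078251771932798278921121923626287700033271707756710099835567415336569774477337201091300020447250534957553127263074590118884843270418764402474298114053), (nat_lit 9223231367014190900),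 dS0_t0, dS0_cl⟩

noncomputable def dS0_gs : BL := (.c (nat_lit 12) (nat_lit 2) (nat_lit 9) (nat_lit 3) (nat_lit 0) (.c (nat_lit 14) (nat_lit 2) (nat_lit 8) (nat_lit 1) (nat_lit 6) (.c (nat_lit 16) (nat_lit 1) (nat_lit 7) (nat_lit 1) (nat_lit 8) (.c (nat_lit 17) (nat_lit 4) (nat_lit 6) (nat_lit 1) (nat_lit 9) (.c (nat_lit 21) (nat_lit 3) (nat_lit 5) (nat_lit 1) (nat_lit 13) (.c (nat_lit 24) (nat_lit 6) (nat_lit 4) (nat_lit 1) (nat_lit 16) (.c (nat_lit 30) (nat_lit 3) (nat_lit 3) (nat_lit 1) (nat_lit 22) (.c (nat_lit 36) (nat_lit 11) (nat_lit 2) (nat_lit 1) (nat_lit 25) (.c (nat_lit 47) (nat_lit 5) (nat_lit 1) (nat_lit 1) (nat_lit 36) (.c (nat_lit 52) (nat_lit 11) (nat_lit 0) (nat_lit 1) (nat_lit 41) (.c (nat_lit 2512) (nat_lit 0) (nat_lit 33) (nat_lit 3) (nat_lit 52) .nil)))))))))))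

noncomputable def dS0_i0 : IL := (.s true (nat_lit 21) (nat_lit 4) (nat_lit 2) (nat_lit 3) (nat_lit 2) true (nat_lit 3) true (nat_lit 7) true (nat_lit 5) true (nat_lit 7) true (nat_lit 6) (.s false (nat_lit 3) (nat_lit 4) (nat_lit 3) (nat_lit 2) (nat_lit 2) true (nat_lit 0) true (nat_lit 7) true (nat_lit 5) true (nat_lit 6) true (nat_lit 7) (.s false (nat_lit 48) (nat_lit 5) (nat_lit 0) (nat_lit 4) (nat_lit 2) true (nat_lit 5) true (nat_lit 7) true (nat_lit 4) true (nat_lit 9) true (nat_lit 5) (.s false (nat_lit 21) (nat_lit 5) (nat_lit 4) (nat_lit 2) (nat_lit 0) true (nat_lit 1) true (nat_lit 9) true (nat_lit 4) true (nat_lit 5) true (nat_lit 7) (.s true (nat_lit 9) (nat_lit 6) (nat_lit 0) (nat_lit 1) (nat_lit 4) true (nat_lit 1) true (nat_lit 5) true (nat_lit 3) true (nat_lit 9) true (nat_lit 8) (.s true (nat_lit 15) (nat_lit 6) (nat_lit 0) (nat_lit 5) (nat_lit 0) false (nat_lit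 10) true (nat_lit 9) true (nat_lit 3) true (nat_lit 9) true (nat_lit 4) (.s true (nat_lit 15) (nat_lit 6) (nat_lit 2) (nat_lit 0) (nat_lit 3) true (nat_lit 0) true (nat_lit 6) true (nat_lit 3) true (nat_lit 7) true (nat_lit 9) (.s true (nat_lit 15) (nat_lit 6) (nat_lit 5) (nat_lit 0) (nat_lit 0) true (nat_lit 0) true (nat_lit 9) true (nat_lit 3) true (nat_lit 4) true (nat_lit 9) (.s false (nat_lit 3) (nat_lit 7) (nat_lit 2) (nat_lit 2) (nat_lit 2) true (nat_lit 3) true (nat_lit 7) true (nat_lit 2) true (nat_lit 7) true (nat_lit 7) (.s false (nat_lit 21) (nat_lit 8) (nat_lit 1) (nat_lit 2) (nat_lit 2) true (nat_lit 4) true (nat_lit 7) true (nat_lit 1) true (nat_lit 8) true (nat_lit 7) (.s false (nat_lit 12) (nat_lit 8) (nat_lit 2) (nat_lit 2) (nat_lit 1) true (nat_lit 4) true (nat_lit 8) true (nat_lit 1) true (nat_lit 7) true (nat_lit 7) (.s true (nat_lit 9) (nat_lit 9) (nat_lit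 0) (nat_lit 2) (nat_lit 2) true (nat_lit 5) true (nat_lit 7) true (nat_lit 0) true (nat_lit 9) true (nat_lit 7) (.s false (nat_lit 3) (nat_lit 9) (nat_lit 2) (nat_lit 0) (nat_lit 2) true (nat_lit 3) true (nat_lit 7) true (nat_lit 0) true (nat_lit 7) true (nat_lit 9) (.s false (nat_lit 15) (nat_lit 9) (nat_lit 2) (nat_lit 2) (nat_lit 0) true (nat_lit 5) true (nat_lit 9) true (nat_lit 0) true (nat_lit 7) true (nat_lit 7) (.s true (nat_lit 3) (nat_lit 11) (nat_lit 2) (nat_lit 2) (nat_lit 0) true (nat_lit 5) true (nat_lit 9) true (nat_lit 0) true (nat_lit 7) true (nat_lit 7) (.s false (nat_lit 27) (nat_lit 12) (nat_lit 0) (nat_lit 1) (nat_lit 2) true (nat_lit 5) true (nat_lit 7) false (nat_lit 0) true (nat_lit 9) true (nat_lit 8) (.s true (nat_lit 18) (nat_lit 13) (nat_lit 0) (nat_lit 1) (nat_lit 2) true (nat_lit 5) true (nat_lit 7) false (nat_lit 0) true (nat_lit 9) true (nat_lit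 8) (.s false (nat_lit 21) (nat_lit 12) (nat_lit 0) (nat_lit 2) (nat_lit 1) true (nat_lit 6) true (nat_lit 8) false (nat_lit 0) true (nat_lit 9) true (nat_lit 7) (.s true (nat_lit 3) (nat_lit 13) (nat_lit 1) (nat_lit 2) (nat_lit 0) true (nat_lit 6) true (nat_lit 9) false (nat_lit 0) true (nat_lit 8) true (nat_lit 7) (.s false (nat_lit 36) (nat_lit 12) (nat_lit 2) (nat_lit 0) (nat_lit 1) true (nat_lit 4) true (nat_lit 8) false (nat_lit 0) true (nat_lit 7) true (nat_lit 9) (.s false (nat_lit 9) (nat_lit 13) (nat_lit 2) (nat_lit 1) (nat_lit 0) true (nat_lit 5) true (nat_lit 9) false (nat_lit 0) true (nat_lit 7) true (nat_lit 8) (.s true (nat_lit 15) (nat_lit 14) (nat_lit 0) (nat_lit 0) (nat_lit 2) true (nat_lit 5) true (nat_lit 7) false (nat_lit 1) true (nat_lit 9) true (nat_lit 9) (.s true (nat_lit 3) (nat_lit 15) (nat_lit 0) (nat_lit 2) (nat_lit 0) false (nat_lit 10) true (nat_lit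 9) false (nat_lit 1) true (nat_lit 9) true (nat_lit 7) (.s false (nat_lit 18) (nat_lit 16) (nat_lit 0) (nat_lit 0) (nat_lit 1) true (nat_lit 6) true (nat_lit 8) false (nat_lit 2) true (nat_lit 9) true (nat_lit 9) (.s false (nat_lit 15) (nat_lit 16) (nat_lit 0) (nat_lit 1) (nat_lit 0) false (nat_lit 10) true (nat_lit 9) false (nat_lit 2) true (nat_lit 9) true (nat_lit 8) .nil)))))))))))))))))))))))))

noncomputable def dS0_il : IL := (.s false (nat_lit 24) (nat_lit 4) (nat_lit 1) (nat_lit 2) (nat_lit 4) true (nat_lit 0) true (nat_lit 5) true (nat_lit 5) true (nat_lit 8) true (nat_lit 7) (.s true (nat_lit 15) (nat_lit 4) (nat_lit 1) (nat_lit 4) (nat_lit 2) true (nat_lit 4) true (nat_lit 7) true (nat_lit 5) true (nat_lit 8) true (nat_lit 5) (.s true (nat_lit 9) (nat_lit 4) (nat_lit 2) (nat_lit 1) (nat_lit 4) false (nat_lit 0) true (nat_lit 5) true (nat_lit 5) true (nat_lit 7) true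 (nat_lit 8) dS0_i0)))

theorem dS0_chk : chk 1 idsM dS0_D par1 (clsL [0,0,0,1,2,2]) S0Ex (.c (nat_lit 2) (nat_lit 1) (.c (nat_lit 2) (nat_lit 1) (.c (nat_lit 2) (nat_lit 1) (.c (nat_lit 1) (nat_lit 16) (.c (nat_lit 0) (nat_lit 256) (.c (nat_lit 0) (nat_lit 256) .nil)))))) (nat_lit 89) (nat_lit 531) (nat_lit 1) dS0_gs dS0_il = true := by
  decide +kernel

end Chk

/-- certificate of `S0Ex` -/
theorem cert_S0Ex : Cert.{u} 1 idsM par1 (clsL [0,0,0,1,2,2]) S0Ex :=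
  Chk.chk_sound _ _ (by simp [idsM]) (by simp [idsM]) _ _ _ _ _ _ _ _ _ _ Chk.dS0_chk

end Pool.Agent.MalP
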