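import Pool.Agent.MalP.Check4
import Pool.Agent.MalP.P5.ExZ5

/-! # Certificate of W2xEx -/

set_option autoImplicit false
set_option maxRecDepth 100000

namespace Pool.Agent.MalP

universe u

namespace Chk

noncomputable def dW2x_c544 : Cm := .mk (nat_lit 19) (nat_lit 544) (nat_lit 22) (nat_lit 3) (.c (nat_lit 3) (nat_lit 1) (nat_lit 3) (nat_lit 1) (nat_lit 3) (.c (nat_lit 8) (nat_lit 1) (nat_lit 1) (nat_lit 1) (nat_lit 4) (.c (nat_lit 9) (nat_lit 2) (nat_lit 0) (nat_lit 1) (nat_lit 5) (.c (nat_lit 2512) (nat_lit 0) (nat_lit 4) (nat_lit 1) (nat_lit 7) .nil))))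

noncomputable def dW2x_c529 : Cm := .mk (nat_lit 23) (nat_lit 529) (nat_lit 25) (nat_lit 4) (.c (nat_lit 5) (nat_lit 1) (nat_lit 3) (nat_lit 1) (nat_lit 4) (.c (nat_lit 8) (nat_lit 1) (nat_lit 2) (nat_lit 1) (nat_lit 5) (.c (nat_lit 11) (nat_lit 1) (nat_lit 1) (nat_lit 1) (nat_lit 6) (.c (nat_lit 12) (nat_lit 3) (nat_lit 0) (nat_lit 1) (nat_lit 7) (.c (nat_lit 2512) (nat_lit 0) (nat_lit 6) (nat_lit 1) (nat_lit 10) .nil)))))

noncomputable def dW2x_c289 : Cm := .mk (nat_lit 29) (nat_lit 289) (nat_lit 29) (nat_lit 6) (.c (nat_lit 5) (nat_lit 1) (nat_lit 4) (nat_lit 1) (nat_lit 6) (.c (nat_lit 6) (nat_lit 1) (nat_lit 3) (nat_lit 1) (nat_lit 7) (.c (nat_lit 9) (nat_lit 2) (nat_lit 2) (nat_lit 1) (nat_lit 8) (.c (nat_lit 12) (nat_lit 3) (nat_lit 1) (nat_lit 1) (nat_lit 10) (.c (nat_lit 15) (nat_lit 2) (nat_lit 0) (nat_lit 1) (nat_lit 13) .nil)))))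

noncomputable def dW2x_c514 : Cm := .mk (nat_lit 38) (nat_lit 514) (nat_lit 35) (nat_lit 3) (.c (nat_lit 5) (nat_lit 1) (nat_lit 5) (nat_lit 1) (nat_lit 3) (.c (nat_lit 11) (nat_lit 1) (nat_lit 2) (nat_lit 1) (nat_lit 4) (.c (nat_lit 17) (nat_lit 2) (nat_lit 0) (nat_lit 1) (nat_lit 5) (.c (nat_lit 2512) (nat_lit 0) (nat_lit 7) (nat_lit 1) (nat_lit 7) .nil))))

noncomputable def dW2x_c274 : Cm := .mk (nat_lit 42) (nat_lit 274) (nat_lit 38) (nat_lit 6) (.c (nat_lit 6) (nat_lit 1) (nat_lit 5) (nat_lit 1) (nat_lit 6) (.c (nat_lit 7) (nat_lit 1) (nat_lit 3) (nat_lit 1) (nat_lit 7) (.c (nat_lit 12) (nat_lit 3) (nat_lit 2) (nat_lit 1) (nat_lit 8) (.c (nat_lit 17) (nat_lit 2) (nat_lit 1) (nat_lit 1) (nat_lit 11) (.c (nat_lit 19) (nat_lit 2) (nat_lit 0) (nat_lit 1) (nat_lit 13) .nil)))))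

noncomputable def dW2x_c34 : Cm := .mk (nat_lit 51) (nat_lit 34) (nat_lit 44) (nat_lit 3) (.c (nat_lit 6) (nat_lit 1) (nat_lit 6) (nat_lit 1) (nat_lit 3) (.c (nat_lit 7) (nat_lit 1) (nat_lit 4) (nat_lit 1) (nat_lit 4) (.c (nat_lit 15) (nat_lit 2) (nat_lit 2) (nat_lit 1) (nat_lit 5) (.c (nat_lit 19) (nat_lit 2) (nat_lit 1) (nat_lit 1) (nat_lit 7) .nil))))

noncomputable def dW2x_c259 : Cm := .mk (nat_lit 56) (nat_lit 259) (nat_lit 47) (nat_lit 3) (.c (nat_lit 7) (nat_lit 1) (nat_lit 5) (nat_lit 1) (nat_lit 3) (.c (nat_lit 17) (nat_lit 2) (nat_lit 2) (nat_lit 1) (nat_lit 4) (.c (nat_lit 21) (nat_lit 1) (nat_lit 0) (nat_lit 1) (nat_lit 6) .nil)))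

noncomputable def dW2x_c19 : Cm := .mk (nat_lit 60) (nat_lit 19) (nat_lit 50) (nat_lit 3) (.c (nat_lit 7) (nat_lit 1) (nat_lit 6) (nat_lit 1) (nat_lit 3) (.c (nat_lit 19) (nat_lit 2) (nat_lit 2) (nat_lit 1) (nat_lit 4) (.c (nat_lit 21) (nat_lit 1) (nat_lit 1) (nat_lit 1) (nat_lit 6) .nil)))

noncomputable def dW2x_c545 : Cm := .mk (nat_lit 64) (nat_lit 545) (nat_lit 53) (nat_lit 11) (.c (nat_lit 8) (nat_lit 1) (nat_lit 6) (nat_lit 1) (nat_lit 11) (.c (nat_lit 9) (nat_lit 2) (nat_lit 5) (nat_lit 1) (nat_lit 12) (.c (nat_lit 11) (nat_lit 1) (nat_lit 4) (nat_lit 1) (nat_lit 14) (.c (nat_lit 12) (nat_lit 3) (nat_lit 3) (nat_lit 1) (nat_lit 15) (.c (nat_lit 22) (nat_lit 3) (nat_lit 2) (nat_lit 1) (nat_lit 18) (.c (nat_lit 25) (nat_lit 4) (nat_lit 1) (nat_lit 1) (nat_lit 21) (.c (nat_lit 29) (nat_lit 6) (nat_lit 0) (nat_lit 1) (nat_lit 25) (.c (nat_lit 2512) (nat_lit 0) (nat_lit 15) (nat_lit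 2) (nat_lit 31) .nil))))))))

noncomputable def dW2x_c530 : Cm := .mk (nat_lit 84) (nat_lit 530) (nat_lit 64) (nat_lit 11) (.c (nat_lit 8) (nat_lit 1) (nat_lit 7) (nat_lit 1) (nat_lit 11) (.c (nat_lit 11) (nat_lit 1) (nat_lit 6) (nat_lit 1) (nat_lit 12) (.c (nat_lit 12) (nat_lit 3) (nat_lit 5) (nat_lit 1) (nat_lit 13) (.c (nat_lit 17) (nat_lit 2) (nat_lit 3) (nat_lit 1) (nat_lit 16) (.c (nat_lit 25) (nat_lit 4) (nat_lit 2) (nat_lit 1) (nat_lit 18) (.c (nat_lit 35) (nat_lit 3) (nat_lit 1) (nat_lit 1) (nat_lit 22) (.c (nat_lit 38) (nat_lit 6) (nat_lit 0) (nat_lit 1) (nat_lit 25) (.c (nat_lit 2512) (nat_lit 0) (nat_lit 19) (nat_lit 2) (nat_lit 31) .nil))))))))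

noncomputable def dW2x_c290 : Cm := .mk (nat_lit 104) (nat_lit 290) (nat_lit 75) (nat_lit 14) (.c (nat_lit 9) (nat_lit 2) (nat_lit 7) (nat_lit 1) (nat_lit 14) (.c (nat_lit 12) (nat_lit 3) (nat_lit 6) (nat_lit 1) (nat_lit 16) (.c (nat_lit 15) (nat_lit 2) (nat_lit 5) (nat_lit 1) (nat_lit 19) (.c (nat_lit 17) (nat_lit 2) (nat_lit 4) (nat_lit 1) (nat_lit 21) (.c (nat_lit 19) (nat_lit 2) (nat_lit 3) (nat_lit 1) (nat_lit 23) (.c (nat_lit 29) (nat_lit 6) (nat_lit 2) (nat_lit 1) (nat_lit 25) (.c (nat_lit 38) (nat_lit 6) (nat_lit 1) (nat_lit 1) (nat_lit 31) (.c (nat_lit 44) (nat_lit 3) (nat_lit 0) (nat_lit 1) (nat_lit 37) .nil))))))))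

noncomputable def dW2x_c515 : Cm := .mk (nat_lit 130) (nat_lit 515) (nat_lit 89) (nat_lit 5) (.c (nat_lit 11) (nat_lit 1) (nat_lit 7) (nat_lit 1) (nat_lit 5) (.c (nat_lit 17) (nat_lit 2) (nat_lit 5) (nat_lit 1) (nat_lit 6) (.c (nat_lit 35) (nat_lit 3) (nat_lit 2) (nat_lit 1) (nat_lit 8) (.c (nat_lit 47) (nat_lit 3) (nat_lit 0) (nat_lit 1) (nat_lit 11) (.c (nat_lit 2512) (nat_lit 0) (nat_lit 21) (nat_lit 1) (nat_lit 14) .nil)))))

noncomputable def dW2x_c275 : Cm := .mk (nat_lit 139) (nat_lit 275) (nat_lit 94) (nat_lit 11) (.c (nat_lit 12) (nat_lit 3) (nat_lit 7) (nat_lit 1) (nat_lit 11) (.c (nat_lit 17) (nat_lit 2) (nat_lit 6) (nat_lit 1) (nat_lit 14) (.c (nat_lit 19) (nat_lit 2) (nat_lit 5) (nat_lit 1) (nat_lit 16) (.c (nat_lit 21) (nat_lit 1) (nat_lit 3) (nat_lit 1) (nat_lit 18) (.c (nat_lit 38) (nat_lit 6) (nat_lit 2) (nat_lit 1) (nat_lit 19) (.c (nat_lit 47) (nat_lit 3) (nat_lit 1)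 (nat_lit 1) (nat_lit 25) (.c (nat_lit 50) (nat_lit 3) (nat_lit 0) (nat_lit 1) (nat_lit 28) .nil)))))))

noncomputable def dW2x_c35 : Cm := .mk (nat_lit 159) (nat_lit 35) (nat_lit 105) (nat_lit 6) (.c (nat_lit 15) (nat_lit 2) (nat_lit 7) (nat_lit 1) (nat_lit 6) (.c (nat_lit 19) (nat_lit 2) (nat_lit 6) (nat_lit 1) (nat_lit 8) (.c (nat_lit 21) (nat_lit 1) (nat_lit 4) (nat_lit 1) (nat_lit 10) (.c (nat_lit 44) (nat_lit 3) (nat_lit 2) (nat_lit 1) (nat_lit 11) (.c (nat_lit 50) (nat_lit 3) (nat_lit 1) (nat_lit 1) (nat_lit 14) .nil)))))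

noncomputable def dW2x_c546 : Cm := .mk (nat_lit 170) (nat_lit 546) (nat_lit 111) (nat_lit 27) (.c (nat_lit 12) (nat_lit 3) (nat_lit 12) (nat_lit 3) (nat_lit 27) (.c (nat_lit 15) (nat_lit 2) (nat_lit 11) (nat_lit 1) (nat_lit 36) (.c (nat_lit 17) (nat_lit 2) (nat_lit 9) (nat_lit 2) (nat_lit 38) (.c (nat_lit 19) (nat_lit 2) (nat_lit 8) (nat_lit 1) (nat_lit 42) (.c (nat_lit 22) (nat_lit 3) (nat_lit 7) (nat_lit 1) (nat_lit 44) (.c (nat_lit 25) (nat_lit 4) (nat_lit 6) (nat_lit 1) (nat_lit 47) (.c (nat_lit 29) (nat_lit 6) (nat_lit 5) (nat_lit 1) (nat_lit 51) (.c (nat_lit 35) (nat_lit 3) (nat_lit 4) (nat_lit 1) (nat_lit 57) (.c (nat_lit 38) (nat_lit 6) (nat_lit 3) (nat_lit 1) (nat_lit 60) (.c (nat_lit 53) (nat_lit 11) (nat_lit 2) (nat_lit 1) (nat_lit 66) (.c (nat_lit 64) (nat_lit 11) (nat_lit 1) (nat_lit 1) (nat_lit 77) (.c (nat_lit 75) (nat_lit 14) (nat_lit 0) (nat_lit 1) (nat_lit 88) (.c (nat_lit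 2512) (nat_lit 0) (nat_lit 44) (nat_lit 3) (nat_lit 102) .nil)))))))))))))

noncomputable def dW2x_c531 : Cm := .mk (nat_lit 237) (nat_lit 531) (nat_lit 138) (nat_lit 21) (.c (nat_lit 17) (nat_lit 2) (nat_lit 12) (nat_lit 3) (nat_lit 21) (.c (nat_lit 19) (nat_lit 2) (nat_lit 11) (nat_lit 1) (nat_lit 27) (.c (nat_lit 21) (nat_lit 1) (nat_lit 8) (nat_lit 1) (nat_lit 29) (.c (nat_lit 25) (nat_lit 4) (nat_lit 7) (nat_lit 1) (nat_lit 30) (.c (nat_lit 35) (nat_lit 3) (nat_lit 6) (nat_lit 1) (nat_lit 34) (.c (nat_lit 38) (nat_lit 6) (nat_lit 5) (nat_lit 1) (nat_lit 37) (.c (nat_lit 47) (nat_lit 3) (nat_lit 3) (nat_lit 1) (nat_lit 43) (.c (nat_lit 64) (nat_lit 11) (nat_lit 2) (nat_lit 1) (nat_lit 46) (.c (nat_lit 89) (nat_lit 5) (nat_lit 1) (nat_lit 1) (nat_lit 57) (.c (nat_lit 94) (nat_lit 11) (nat_lit 0) (nat_lit 1) (nat_lit 62) (.c (nat_lit 2512) (nat_lit 0) (nat_lit 50) (nat_lit 3) (nat_lit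 73) .nil)))))))))))

noncomputable def dW2x_c291 : Cm := .mk (nat_lit 287) (nat_lit 291) (nat_lit 159) (nat_lit 26) (.c (nat_lit 17) (nat_lit 2) (nat_lit 15) (nat_lit 2) (nat_lit 26) (.c (nat_lit 19) (nat_lit 2) (nat_lit 12) (nat_lit 3) (nat_lit 30) (.c (nat_lit 21) (nat_lit 1) (nat_lit 9) (nat_lit 2) (nat_lit 36) (.c (nat_lit 29) (nat_lit 6) (nat_lit 7) (nat_lit 1) (nat_lit 38) (.c (nat_lit 38) (nat_lit 6) (nat_lit 6) (nat_lit 1) (nat_lit 44) (.c (nat_lit 44) (nat_lit 3) (nat_lit 5) (nat_lit 1) (nat_lit 50) (.c (nat_lit 47) (nat_lit 3) (nat_lit 4) (nat_lit 1) (nat_lit 53) (.c (nat_lit 50) (nat_lit 3) (nat_lit 3) (nat_lit 1) (nat_lit 56) (.c (nat_lit 75) (nat_lit 14) (nat_lit 2) (nat_lit 1) (nat_lit 59) (.c (nat_lit 94) (nat_lit 11) (nat_lit 1) (nat_lit 1) (nat_lit 73) (.c (nat_lit 105) (nat_lit 6) (nat_lit 0) (nat_lit 1) (nat_lit 84) .nil)))))))))))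

noncomputable def dW2x_i0 : IL := (.a false (nat_lit 72) (nat_lit 12) (nat_lit 13) (nat_lit 0) (nat_lit 0) (.a false (nat_lit 72) (nat_lit 13) (nat_lit 14) (nat_lit 0) (nat_lit 0) (.e false (nat_lit 24) (nat_lit 78) (nat_lit 0) (nat_lit 11) (.e false (nat_lit 12) (nat_lit 82) (nat_lit 0) (nat_lit 11) (.e true (nat_lit 12) (nat_lit 86) (nat_lit 0) (nat_lit 11) (.e true (nat_lit 12) (nat_lit 87) (nat_lit 0) (nat_lit 11) (.e false (nat_lit 24) (nat_lit 54) (nat_lit 2) (nat_lit 9) (.e true (nat_lit 24) (nat_lit 55) (nat_lit 2) (nat_lit 9) (.e true (nat_lit 24) (nat_lit 56) (nat_lit 2) (nat_lit 9) (.e true (nat_lit 18) (nat_lit 70) (nat_lit 1) (nat_lit 10) (.e false (nat_lit 18) (nat_lit 71) (nat_lit 1) (nat_lit 10) (.e true (nat_lit 48) (nat_lit 65) (nat_lit 1) (nat_lit 10) (.e true (nat_lit 18) (nat_lit 60) (nat_lit 2) (nat_lit 9) (.e true (nat_lit 6) (nat_lit 62) (nat_lit 2) (nat_lit 9) (.e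 true (nat_lit 18) (nat_lit 69) (nat_lit 1) (nat_lit 10) (.e false (nat_lit 18) (nat_lit 73) (nat_lit 1) (nat_lit 10) (.e false (nat_lit 36) (nat_lit 74) (nat_lit 1) (nat_lit 10) (.e false (nat_lit 12) (nat_lit 58) (nat_lit 2) (nat_lit 9) (.e false (nat_lit 6) (nat_lit 59) (nat_lit 2) (nat_lit 9) (.e true (nat_lit 18) (nat_lit 61) (nat_lit 2) (nat_lit 9) (.e true (nat_lit 12) (nat_lit 63) (nat_lit 2) (nat_lit 9) (.e false (nat_lit 12) (nat_lit 81) (nat_lit 0) (nat_lit 11) (.e true (nat_lit 24) (nat_lit 64) (nat_lit 1) (nat_lit 10) (.e true (nat_lit 12) (nat_lit 68) (nat_lit 1) (nat_lit 10) (.e false (nat_lit 24) (nat_lit 72) (nat_lit 1) (nat_lit 10) .nil)))))))))))))))))))))))))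

noncomputable def dW2x_i1 : IL := (.s false (nat_lit 2) (nat_lit 16) (nat_lit 0) (nat_lit 2) (nat_lit 0) false (nat_lit 12) true (nat_lit 11) false (nat_lit 1) true (nat_lit 11) true (nat_lit 9) (.a false (nat_lit 36) (nat_lit 14) (nat_lit 14) (nat_lit 0) (nat_lit 0) (.a false (nat_lit 36) (nat_lit 12) (nat_lit 12) (nat_lit 0) (nat_lit 0) (.a false (nat_lit 36) (nat_lit 13) (nat_lit 13) (nat_lit 0) (nat_lit 0) (.e true (nat_lit 12) (nat_lit 64) (nat_lit 1) (nat_lit 10) (.e true (nat_lit 12) (nat_lit 65) (nat_lit 1) (nat_lit 10) (.e true (nat_lit 18) (nat_lit 69) (nat_lit 1) (nat_lit 10) (.e false (nat_lit 6) (nat_lit 70) (nat_lit 1) (nat_lit 10) (.e false (nat_lit 6) (nat_lit 71) (nat_lit 1) (nat_lit 10) (.e false (nat_lit 12) (nat_lit 72) (nat_lit 1) (nat_lit 10) (.e false (nat_lit 6) (nat_lit 73) (nat_lit 1) (nat_lit 10) (.e false (nat_lit 12) (nat_lit 74) (nat_lit 1) (nat_lit 10) (.e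 true (nat_lit 12) (nat_lit 55) (nat_lit 2) (nat_lit 9) (.e true (nat_lit 6) (nat_lit 59) (nat_lit 2) (nat_lit 9) (.e true (nat_lit 6) (nat_lit 60) (nat_lit 2) (nat_lit 9) (.e false (nat_lit 6) (nat_lit 61) (nat_lit 2) (nat_lit 9) (.e false (nat_lit 18) (nat_lit 62) (nat_lit 2) (nat_lit 9) (.e false (nat_lit 12) (nat_lit 63) (nat_lit 2) (nat_lit 9) (.e false (nat_lit 12) (nat_lit 78) (nat_lit 0) (nat_lit 11) (.e false (nat_lit 12) (nat_lit 80) (nat_lit 0) (nat_lit 11) (.e false (nat_lit 12) (nat_lit 82) (nat_lit 0) (nat_lit 11) (.e true (nat_lit 12) (nat_lit 84) (nat_lit 0) (nat_lit 11) (.e true (nat_lit 12) (nat_lit 87) (nat_lit 0) (nat_lit 11) (.e true (nat_lit 12) (nat_lit 56) (nat_lit 2) (nat_lit 9) (.e true (nat_lit 12) (nat_lit 81) (nat_lit 0) (nat_lit 11) .nil)))))))))))))))))))))))))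

noncomputable def dW2x_i2 : IL := (.s true (nat_lit 1) (nat_lit 14) (nat_lit 2) (nat_lit 1) (nat_lit 0) true (nat_lit 6) true (nat_lit 11) true (nat_lit 0) true (nat_lit 9) true (nat_lit 10) (.s true (nat_lit 2) (nat_lit 16) (nat_lit 0) (nat_lit 2) (nat_lit 0) false (nat_lit 12) true (nat_lit 11) false (nat_lit 1) true (nat_lit 11) true (nat_lit 9) (.s true (nat_lit 2) (nat_lit 19) (nat_lit 0) (nat_lit 0) (nat_lit 1) true (nat_lit 8) true (nat_lit 10) false (nat_lit 3) true (nat_lit 11) true (nat_lit 11) (.a false (nat_lit 36) (nat_lit 12) (nat_lit 12) (nat_lit 0) (nat_lit 0) (.e false (nat_lit 12) (nat_lit 64) (nat_lit 1) (nat_lit 10) (.e false (nat_lit 12) (nat_lit 65) (nat_lit 1) (nat_lit 10) (.e false (nat_lit 6) (nat_lit 69) (nat_lit 1) (nat_lit 10) (.e false (nat_lit 6) (nat_lit 70) (nat_lit 1) (nat_lit 10) (.e true (nat_lit 12) (nat_lit 72) (nat_lit 1) (nat_lit 10) (.e true (nat_lit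 6) (nat_lit 73) (nat_lit 1) (nat_lit 10) (.e true (nat_lit 12) (nat_lit 74) (nat_lit 1) (nat_lit 10) (.e true (nat_lit 18) (nat_lit 71) (nat_lit 1) (nat_lit 10) (.e true (nat_lit 12) (nat_lit 54) (nat_lit 2) (nat_lit 9) (.e false (nat_lit 24) (nat_lit 55) (nat_lit 2) (nat_lit 9) (.e false (nat_lit 24) (nat_lit 56) (nat_lit 2) (nat_lit 9) (.e false (nat_lit 6) (nat_lit 60) (nat_lit 2) (nat_lit 9) (.e true (nat_lit 6) (nat_lit 62) (nat_lit 2) (nat_lit 9) (.e true (nat_lit 12) (nat_lit 41) (nat_lit 3) (nat_lit 8) (.e true (nat_lit 12) (nat_lit 78) (nat_lit 0) (nat_lit 11) (.e false (nat_lit 12) (nat_lit 84) (nat_lit 0) (nat_lit 11) (.e false (nat_lit 12) (nat_lit 88) (nat_lit 0) (nat_lit 11) (.e true (nat_lit 12) (nat_lit 57) (nat_lit 2) (nat_lit 9) (.e false (nat_lit 6) (nat_lit 61) (nat_lit 2) (nat_lit 9) (.e false (nat_lit 12) (nat_lit 87) (nat_lit 0) (nat_lit 11) (.e true (nat_lit 6) (nat_lit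 59) (nat_lit 2) (nat_lit 9) .nil)))))))))))))))))))))))))

noncomputable def dW2x_i3 : IL := (.a false (nat_lit 18) (nat_lit 12) (nat_lit 12) (nat_lit 0) (nat_lit 0) (.a true (nat_lit 18) (nat_lit 13) (nat_lit 13) (nat_lit 0) (nat_lit 0) (.a false (nat_lit 36) (nat_lit 13) (nat_lit 14) (nat_lit 0) (nat_lit 0) (.e false (nat_lit 6) (nat_lit 78) (nat_lit 0) (nat_lit 11) (.e false (nat_lit 12) (nat_lit 80) (nat_lit 0) (nat_lit 11) (.e true (nat_lit 6) (nat_lit 84) (nat_lit 0) (nat_lit 11) (.e false (nat_lit 6) (nat_lit 86) (nat_lit 0) (nat_lit 11) (.e false (nat_lit 6) (nat_lit 87) (nat_lit 0) (nat_lit 11) (.e true (nat_lit 12) (nat_lit 88) (nat_lit 0) (nat_lit 11) (.e false (nat_lit 12) (nat_lit 57) (nat_lit 2) (nat_lit 9) (.e false (nat_lit 24) (nat_lit 58) (nat_lit 2) (nat_lit 9) (.e false (nat_lit 12) (nat_lit 59) (nat_lit 2) (nat_lit 9) (.e false (nat_lit 12) (nat_lit 60) (nat_lit 2) (nat_lit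 9) (.e true (nat_lit 36) (nat_lit 61) (nat_lit 2) (nat_lit 9) (.e true (nat_lit 18) (nat_lit 62) (nat_lit 2) (nat_lit 9) (.e true (nat_lit 24) (nat_lit 63) (nat_lit 2) (nat_lit 9) (.e true (nat_lit 12) (nat_lit 43) (nat_lit 3) (nat_lit 8) (.e true (nat_lit 6) (nat_lit 69) (nat_lit 1) (nat_lit 10) (.e false (nat_lit 6) (nat_lit 70) (nat_lit 1) (nat_lit 10) (.e false (nat_lit 6) (nat_lit 73) (nat_lit 1) (nat_lit 10) (.e false (nat_lit 6) (nat_lit 65) (nat_lit 1) (nat_lit 10) (.e false (nat_lit 6) (nat_lit 54) (nat_lit 2) (nat_lit 9) (.e true (nat_lit 6) (nat_lit 55) (nat_lit 2) (nat_lit 9) (.e true (nat_lit 6) (nat_lit 56) (nat_lit 2) (nat_lit 9) (.e true (nat_lit 6) (nat_lit 81) (nat_lit 0) (nat_lit 11) .nil)))))))))))))))))))))))))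

noncomputable def dW2x_i4 : IL := (.s false (nat_lit 1) (nat_lit 14) (nat_lit 2) (nat_lit 0) (nat_lit 1) true (nat_lit 5) true (nat_lit 10) true (nat_lit 0) true (nat_lit 9) true (nat_lit 11) (.s false (nat_lit 1) (nat_lit 14) (nat_lit 2) (nat_lit 1) (nat_lit 0) true (nat_lit 6) true (nat_lit 11) true (nat_lit 0) true (nat_lit 9) true (nat_lit 10) (.a false (nat_lit 18) (nat_lit 13) (nat_lit 13) (nat_lit 0) (nat_lit 0) (.a true (nat_lit 18) (nat_lit 12) (nat_lit 12) (nat_lit 0) (nat_lit 0) (.a false (nat_lit 36) (nat_lit 13) (nat_lit 14) (nat_lit 0) (nat_lit 0) (.a false (nat_lit 18) (nat_lit 14) (nat_lit 14) (nat_lit 0) (nat_lit 0) (.e false (nat_lit 6) (nat_lit 78) (nat_lit 0) (nat_lit 11) (.e false (nat_lit 6) (nat_lit 82) (nat_lit 0) (nat_lit 11) (.e true (nat_lit 6) (nat_lit 69) (nat_lit 1) (nat_lit 10) (.e true (nat_lit 12) (nat_lit 70) (nat_lit 1) (nat_lit 10) (.e false (nat_lit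 6) (nat_lit 73) (nat_lit 1) (nat_lit 10) (.e false (nat_lit 6) (nat_lit 74) (nat_lit 1) (nat_lit 10) (.e false (nat_lit 12) (nat_lit 55) (nat_lit 2) (nat_lit 9) (.e false (nat_lit 6) (nat_lit 56) (nat_lit 2) (nat_lit 9) (.e true (nat_lit 6) (nat_lit 57) (nat_lit 2) (nat_lit 9) (.e false (nat_lit 6) (nat_lit 59) (nat_lit 2) (nat_lit 9) (.e true (nat_lit 12) (nat_lit 61) (nat_lit 2) (nat_lit 9) (.e true (nat_lit 6) (nat_lit 62) (nat_lit 2) (nat_lit 9) (.e true (nat_lit 6) (nat_lit 63) (nat_lit 2) (nat_lit 9) (.e true (nat_lit 18) (nat_lit 65) (nat_lit 1) (nat_lit 10) (.e true (nat_lit 6) (nat_lit 68) (nat_lit 1) (nat_lit 10) (.e false (nat_lit 18) (nat_lit 71) (nat_lit 1) (nat_lit 10) (.e false (nat_lit 6) (nat_lit 72) (nat_lit 1) (nat_lit 10) (.e true (nat_lit 6) (nat_lit 80) (nat_lit 0) (nat_lit 11) (.e false (nat_lit 6) (nat_lit 77) (nat_lit 0) (nat_lit 11) .nil)))))))))))))))))))))))))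

noncomputable def dW2x_i5 : IL := (.s false (nat_lit 1) (nat_lit 19) (nat_lit 0) (nat_lit 0) (nat_lit 1) true (nat_lit 8) true (nat_lit 10) false (nat_lit 3) true (nat_lit 11) true (nat_lit 11) (.a true (nat_lit 18) (nat_lit 12) (nat_lit 12) (nat_lit 0) (nat_lit 0) (.a false (nat_lit 36) (nat_lit 12) (nat_lit 14) (nat_lit 0) (nat_lit 0) (.e true (nat_lit 6) (nat_lit 58) (nat_lit 2) (nat_lit 9) (.e false (nat_lit 12) (nat_lit 61) (nat_lit 2) (nat_lit 9) (.e false (nat_lit 6) (nat_lit 62) (nat_lit 2) (nat_lit 9) (.e false (nat_lit 6) (nat_lit 63) (nat_lit 2) (nat_lit 9) (.e false (nat_lit 6) (nat_lit 38) (nat_lit 3) (nat_lit 8) (.e false (nat_lit 6) (nat_lit 77) (nat_lit 0) (nat_lit 11) (.e true (nat_lit 6) (nat_lit 78) (nat_lit 0) (nat_lit 11) (.e true (nat_lit 6) (nat_lit 80) (nat_lit 0) (nat_lit 11) (.e false (nat_lit 6) (nat_lit 86) (nat_lit 0) (nat_lit 11) (.e false (nat_lit 6) (nat_lit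 88) (nat_lit 0) (nat_lit 11) (.e false (nat_lit 12) (nat_lit 64) (nat_lit 1) (nat_lit 10) (.e false (nat_lit 12) (nat_lit 65) (nat_lit 1) (nat_lit 10) (.e false (nat_lit 6) (nat_lit 68) (nat_lit 1) (nat_lit 10) (.e false (nat_lit 12) (nat_lit 69) (nat_lit 1) (nat_lit 10) (.e true (nat_lit 12) (nat_lit 72) (nat_lit 1) (nat_lit 10) (.e true (nat_lit 12) (nat_lit 73) (nat_lit 1) (nat_lit 10) (.e true (nat_lit 18) (nat_lit 74) (nat_lit 1) (nat_lit 10) (.e true (nat_lit 6) (nat_lit 28) (nat_lit 6) (nat_lit 5) (.e true (nat_lit 6) (nat_lit 26) (nat_lit 6) (nat_lit 5) (.e true (nat_lit 6) (nat_lit 54) (nat_lit 2) (nat_lit 9) (.e false (nat_lit 6) (nat_lit 55) (nat_lit 2) (nat_lit 9) (.e false (nat_lit 6) (nat_lit 56) (nat_lit 2) (nat_lit 9) .nil)))))))))))))))))))))))))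

noncomputable def dW2x_i6 : IL := (.s true (nat_lit 1) (nat_lit 12) (nat_lit 1) (nat_lit 0) (nat_lit 2) true (nat_lit 5) true (nat_lit 9) true (nat_lit 0) true (nat_lit 10) true (nat_lit 11) (.s false (nat_lit 1) (nat_lit 14) (nat_lit 2) (nat_lit 0) (nat_lit 1) true (nat_lit 5) true (nat_lit 10) true (nat_lit 0) true (nat_lit 9) true (nat_lit 11) (.s false (nat_lit 1) (nat_lit 14) (nat_lit 2) (nat_lit 1) (nat_lit 0) true (nat_lit 6) true (nat_lit 11) true (nat_lit 0) true (nat_lit 9) true (nat_lit 10) (.s true (nat_lit 1) (nat_lit 19) (nat_lit 0) (nat_lit 0) (nat_lit 1) true (nat_lit 8) true (nat_lit 10) false (nat_lit 3) true (nat_lit 11) true (nat_lit 11) (.a false (nat_lit 36) (nat_lit 14) (nat_lit 14) (nat_lit 0) (nat_lit 0) (.a true (nat_lit 36) (nat_lit 12) (nat_lit 13) (nat_lit 0) (nat_lit 0) (.a true (nat_lit 18) (nat_lit 12) (nat_lit 12) (nat_lit 0) (nat_lit 0) (.a false (nat_lit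 36) (nat_lit 13) (nat_lit 14) (nat_lit 0) (nat_lit 0) (.e true (nat_lit 12) (nat_lit 26) (nat_lit 6) (nat_lit 5) (.e false (nat_lit 6) (nat_lit 28) (nat_lit 6) (nat_lit 5) (.e true (nat_lit 6) (nat_lit 60) (nat_lit 2) (nat_lit 9) (.e false (nat_lit 6) (nat_lit 62) (nat_lit 2) (nat_lit 9) (.e true (nat_lit 6) (nat_lit 65) (nat_lit 1) (nat_lit 10) (.e false (nat_lit 18) (nat_lit 71) (nat_lit 1) (nat_lit 10) (.e true (nat_lit 6) (nat_lit 41) (nat_lit 3) (nat_lit 8) (.e true (nat_lit 6) (nat_lit 84) (nat_lit 0) (nat_lit 11) (.e false (nat_lit 12) (nat_lit 86) (nat_lit 0) (nat_lit 11) (.e false (nat_lit 12) (nat_lit 87) (nat_lit 0) (nat_lit 11) (.e true (nat_lit 6) (nat_lit 88) (nat_lit 0) (nat_lit 11) (.e true (nat_lit 6) (nat_lit 69) (nat_lit 1) (nat_lit 10) (.e false (nat_lit 6) (nat_lit 73) (nat_lit 1) (nat_lit 10) (.e false (nat_lit 6) (nat_lit 38) (nat_lit 3) (nat_lit 8) (.e true (nat_lit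 6) (nat_lit 66) (nat_lit 1) (nat_lit 10) (.e true (nat_lit 6) (nat_lit 43) (nat_lit 3) (nat_lit 8) (.e true (nat_lit 6) (nat_lit 81) (nat_lit 0) (nat_lit 11) .nil)))))))))))))))))))))))))

noncomputable def dW2x_i7 : IL := (.s false (nat_lit 1) (nat_lit 12) (nat_lit 0) (nat_lit 2) (nat_lit 2) true (nat_lit 5) true (nat_lit 7) true (nat_lit 0) true (nat_lit 9) true (nat_lit 7) (.s false (nat_lit 1) (nat_lit 12) (nat_lit 2) (nat_lit 0) (nat_lit 2) true (nat_lit 3) true (nat_lit 7) true (nat_lit 0) true (nat_lit 7) true (nat_lit 9) (.s false (nat_lit 1) (nat_lit 12) (nat_lit 2) (nat_lit 2) (nat_lit 0) true (nat_lit 5) true (nat_lit 9) true (nat_lit 0) true (nat_lit 7) true (nat_lit 7) (.s false (nat_lit 1) (nat_lit 18) (nat_lit 1) (nat_lit 0) (nat_lit 2) true (nat_lit 4) true (nat_lit 7) false (nat_lit 0) true (nat_lit 8) true (nat_lit 9) (.s false (nat_lit 1) (nat_lit 18) (nat_lit 1) (nat_lit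 2) (nat_lit 0) true (nat_lit 6) true (nat_lit 9) false (nat_lit 0) true (nat_lit 8) true (nat_lit 7) (.s true (nat_lit 1) (nat_lit 18) (nat_lit 2) (nat_lit 0) (nat_lit 1) true (nat_lit 4) true (nat_lit 8) false (nat_lit 0) true (nat_lit 7) true (nat_lit 9) (.s true (nat_lit 1) (nat_lit 18) (nat_lit 2) (nat_lit 1) (nat_lit 0) true (nat_lit 5) true (nat_lit 9) false (nat_lit 0) true (nat_lit 7) true (nat_lit 8) (.s false (nat_lit 1) (nat_lit 20) (nat_lit 0) (nat_lit 2) (nat_lit 0) false (nat_lit 10) true (nat_lit 9) false (nat_lit 1) true (nat_lit 9) true (nat_lit 7) (.e false (nat_lit 24) (nat_lit 38) (nat_lit 5) (nat_lit 5) (.e true (nat_lit 18) (nat_lit 42) (nat_lit 5) (nat_lit 5) (.e true (nat_lit 12) (nat_lit 66) (nat_lit 2) (nat_lit 7) (.e false (nat_lit 12) (nat_lit 69) (nat_lit 2) (nat_lit 7) (.e false (nat_lit 12) (nat_lit 70) (nat_lit 2) (nat_lit 7) (.e false (nat_lit 6) (nat_lit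 73) (nat_lit 2) (nat_lit 7) (.e false (nat_lit 12) (nat_lit 74) (nat_lit 2) (nat_lit 7) (.e false (nat_lit 12) (nat_lit 104) (nat_lit 0) (nat_lit 9) (.e false (nat_lit 12) (nat_lit 95) (nat_lit 0) (nat_lit 9) (.e true (nat_lit 12) (nat_lit 96) (nat_lit 0) (nat_lit 9) (.e true (nat_lit 12) (nat_lit 72) (nat_lit 2) (nat_lit 7) (.e true (nat_lit 24) (nat_lit 92) (nat_lit 1) (nat_lit 8) (.e true (nat_lit 12) (nat_lit 93) (nat_lit 1) (nat_lit 8) (.e false (nat_lit 6) (nat_lit 98) (nat_lit 0) (nat_lit 9) (.e false (nat_lit 12) (nat_lit 90) (nat_lit 1) (nat_lit 8) (.e true (nat_lit 12) (nat_lit 67) (nat_lit 2) (nat_lit 7) (.e false (nat_lit 12) (nat_lit 89) (nat_lit 1) (nat_lit 8) .nil)))))))))))))))))))))))))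

noncomputable def dW2x_i8 : IL := (.s true (nat_lit 2) (nat_lit 12) (nat_lit 0) (nat_lit 2) (nat_lit 2) true (nat_lit 5) true (nat_lit 7) true (nat_lit 0) true (nat_lit 9) true (nat_lit 7) (.s true (nat_lit 2) (nat_lit 12) (nat_lit 2) (nat_lit 0) (nat_lit 2) true (nat_lit 3) true (nat_lit 7) true (nat_lit 0) true (nat_lit 7) true (nat_lit 9) (.s true (nat_lit 1) (nat_lit 14) (nat_lit 2) (nat_lit 0) (nat_lit 2) true (nat_lit 3) true (nat_lit 7) true (nat_lit 0) true (nat_lit 7) true (nat_lit 9) (.s true (nat_lit 2) (nat_lit 14) (nat_lit 2) (nat_lit 2) (nat_lit 0) true (nat_lit 5) true (nat_lit 9) true (nat_lit 0) true (nat_lit 7) true (nat_lit 7) (.s true (nat_lit 2) (nat_lit 18) (nat_lit 1) (nat_lit 2) (nat_lit 0) true (nat_lit 6) true (nat_lit 9) false (nat_lit 0) true (nat_lit 8) true (nat_lit 7) (.s true (nat_lit 1) (nat_lit 17) (nat_lit 2) (nat_lit 0) (nat_lit 1) true (nat_lit 4) true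 (nat_lit 8) false (nat_lit 0) true (nat_lit 7) true (nat_lit 9) (.e true (nat_lit 42) (nat_lit 39) (nat_lit 5) (nat_lit 5) (.e true (nat_lit 12) (nat_lit 42) (nat_lit 5) (nat_lit 5) (.e true (nat_lit 6) (nat_lit 89) (nat_lit 1) (nat_lit 8) (.e true (nat_lit 24) (nat_lit 93) (nat_lit 1) (nat_lit 8) (.e false (nat_lit 18) (nat_lit 64) (nat_lit 2) (nat_lit 7) (.e false (nat_lit 6) (nat_lit 69) (nat_lit 2) (nat_lit 7) (.e true (nat_lit 54) (nat_lit 70) (nat_lit 2) (nat_lit 7) (.e false (nat_lit 12) (nat_lit 71) (nat_lit 2) (nat_lit 7) (.e false (nat_lit 6) (nat_lit 72) (nat_lit 2) (nat_lit 7) (.e true (nat_lit 18) (nat_lit 73) (nat_lit 2) (nat_lit 7) (.e true (nat_lit 36) (nat_lit 74) (nat_lit 2) (nat_lit 7) (.e false (nat_lit 6) (nat_lit 68) (nat_lit 2) (nat_lit 7) (.e true (nat_lit 18) (nat_lit 92) (nat_lit 1) (nat_lit 8) (.e false (nat_lit 18) (nat_lit 90) (nat_lit 1) (nat_lit 8) (.e false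 (nat_lit 6) (nat_lit 97) (nat_lit 0) (nat_lit 9) (.e false (nat_lit 6) (nat_lit 104) (nat_lit 0) (nat_lit 9) (.e true (nat_lit 24) (nat_lit 94) (nat_lit 0) (nat_lit 9) (.e false (nat_lit 30) (nat_lit 99) (nat_lit 0) (nat_lit 9) (.e false (nat_lit 24) (nat_lit 66) (nat_lit 2) (nat_lit 7) .nil)))))))))))))))))))))))))

noncomputable def dW2x_i9 : IL := (.s true (nat_lit 1) (nat_lit 17) (nat_lit 2) (nat_lit 1) (nat_lit 1) true (nat_lit 4) true (nat_lit 9) false (nat_lit 0) true (nat_lit 8) true (nat_lit 9) (.s false (nat_lit 1) (nat_lit 19) (nat_lit 2) (nat_lit 0) (nat_lit 1) true (nat_lit 4) true (nat_lit 9) false (nat_lit 1) true (nat_lit 8) true (nat_lit 10) (.e false (nat_lit 6) (nat_lit 76) (nat_lit 2) (nat_lit 8) (.e true (nat_lit 6) (nat_lit 77) (nat_lit 2) (nat_lit 8) (.e true (nat_lit 6) (nat_lit 78) (nat_lit 2) (nat_lit 8) (.e true (nat_lit 12) (nat_lit 79) (nat_lit 2) (nat_lit 8)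 (.e false (nat_lit 6) (nat_lit 80) (nat_lit 2) (nat_lit 8) (.e true (nat_lit 12) (nat_lit 88) (nat_lit 2) (nat_lit 8) (.e false (nat_lit 12) (nat_lit 40) (nat_lit 6) (nat_lit 4) (.e true (nat_lit 6) (nat_lit 106) (nat_lit 0) (nat_lit 10) (.e true (nat_lit 6) (nat_lit 107) (nat_lit 0) (nat_lit 10) (.e false (nat_lit 6) (nat_lit 108) (nat_lit 0) (nat_lit 10) (.e false (nat_lit 6) (nat_lit 38) (nat_lit 6) (nat_lit 4) (.e true (nat_lit 12) (nat_lit 39) (nat_lit 6) (nat_lit 4) (.e true (nat_lit 6) (nat_lit 94) (nat_lit 1) (nat_lit 9) (.e false (nat_lit 6) (nat_lit 98) (nat_lit 1) (nat_lit 9) (.e false (nat_lit 12) (nat_lit 99) (nat_lit 1) (nat_lit 9) (.e true (nat_lit 6) (nat_lit 100) (nat_lit 1) (nat_lit 9) (.e false (nat_lit 6) (nat_lit 105) (nat_lit 0) (nat_lit 10) (.e false (nat_lit 6) (nat_lit 110) (nat_lit 0) (nat_lit 10) (.e false (nat_lit 6) (nat_lit 34) (nat_lit 7) (nat_lit 3) (.e true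 (nat_lit 6) (nat_lit 85) (nat_lit 2) (nat_lit 8) (.e false (nat_lit 6) (nat_lit 32) (nat_lit 7) (nat_lit 3) (.e true (nat_lit 6) (nat_lit 103) (nat_lit 1) (nat_lit 9) (.e false (nat_lit 12) (nat_lit 96) (nat_lit 1) (nat_lit 9) .nil)))))))))))))))))))))))))

noncomputable def dW2x_i10 : IL := (.s true (nat_lit 1) (nat_lit 7) (nat_lit 2) (nat_lit 4) (nat_lit 0) true (nat_lit 5) true (nat_lit 10) true (nat_lit 3) true (nat_lit 8) true (nat_lit 6) (.s true (nat_lit 1) (nat_lit 13) (nat_lit 2) (nat_lit 2) (nat_lit 1) true (nat_lit 4) true (nat_lit 9) true (nat_lit 1) true (nat_lit 8) true (nat_lit 8) (.s true (nat_lit 1) (nat_lit 16) (nat_lit 2) (nat_lit 2) (nat_lit 0) true (nat_lit 5) true (nat_lit 10) true (nat_lit 0) true (nat_lit 8) true (nat_lit 8) (.s true (nat_lit 1) (nat_lit 18) (nat_lit 1) (nat_lit 2) (nat_lit 1) true (nat_lit 6) true (nat_lit 9) false (nat_lit 0) true (nat_lit 9) true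 (nat_lit 8) (.s true (nat_lit 1) (nat_lit 19) (nat_lit 0) (nat_lit 2) (nat_lit 1) true (nat_lit 7) true (nat_lit 9) false (nat_lit 1) true (nat_lit 10) true (nat_lit 8) (.s false (nat_lit 1) (nat_lit 19) (nat_lit 1) (nat_lit 0) (nat_lit 2) true (nat_lit 4) true (nat_lit 8) false (nat_lit 1) true (nat_lit 9) true (nat_lit 10) (.s true (nat_lit 1) (nat_lit 20) (nat_lit 2) (nat_lit 0) (nat_lit 1) true (nat_lit 4) true (nat_lit 9) false (nat_lit 1) true (nat_lit 8) true (nat_lit 10) (.e false (nat_lit 6) (nat_lit 76) (nat_lit 2) (nat_lit 8) (.e true (nat_lit 12) (nat_lit 77) (nat_lit 2) (nat_lit 8) (.e true (nat_lit 18) (nat_lit 79) (nat_lit 2) (nat_lit 8) (.e false (nat_lit 12) (nat_lit 80) (nat_lit 2) (nat_lit 8) (.e true (nat_lit 12) (nat_lit 86) (nat_lit 2) (nat_lit 8) (.e true (nat_lit 6) (nat_lit 88) (nat_lit 2) (nat_lit 8) (.e true (nat_lit 18) (nat_lit 106) (nat_lit 0) (nat_lit 10) (.e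 true (nat_lit 6) (nat_lit 107) (nat_lit 0) (nat_lit 10) (.e false (nat_lit 6) (nat_lit 109) (nat_lit 0) (nat_lit 10) (.e false (nat_lit 12) (nat_lit 41) (nat_lit 6) (nat_lit 4) (.e true (nat_lit 6) (nat_lit 38) (nat_lit 6) (nat_lit 4) (.e true (nat_lit 6) (nat_lit 94) (nat_lit 1) (nat_lit 9) (.e true (nat_lit 6) (nat_lit 98) (nat_lit 1) (nat_lit 9) (.e false (nat_lit 12) (nat_lit 105) (nat_lit 0) (nat_lit 10) (.e false (nat_lit 12) (nat_lit 110) (nat_lit 0) (nat_lit 10) (.e false (nat_lit 6) (nat_lit 34) (nat_lit 7) (nat_lit 3) (.e true (nat_lit 6) (nat_lit 85) (nat_lit 2) (nat_lit 8) (.e false (nat_lit 6) (nat_lit 103) (nat_lit 1) (nat_lit 9) .nil)))))))))))))))))))))))))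

noncomputable def dW2x_i11 : IL := (.s false (nat_lit 9) (nat_lit 19) (nat_lit 1) (nat_lit 2) (nat_lit 0) true (nat_lit 7) true (nat_lit 10) false (nat_lit 1) true (nat_lit 9) true (nat_lit 8) (.s true (nat_lit 4) (nat_lit 20) (nat_lit 2) (nat_lit 0) (nat_lit 1) true (nat_lit 4) true (nat_lit 9) false (nat_lit 1) true (nat_lit 8) true (nat_lit 10) (.s true (nat_lit 1) (nat_lit 21) (nat_lit 1) (nat_lit 1) (nat_lit 0) true (nat_lit 7) true (nat_lit 10) false (nat_lit 2) true (nat_lit 9) true (nat_lit 9) (.e false (nat_lit 36) (nat_lit 40) (nat_lit 6) (nat_lit 4) (.e false (nat_lit 60) (nat_lit 38) (nat_lit 6) (nat_lit 4) (.e true (nat_lit 36) (nat_lit 39) (nat_lit 6) (nat_lit 4) (.e true (nat_lit 24) (nat_lit 42) (nat_lit 6) (nat_lit 4) (.e true (nat_lit 6) (nat_lit 106) (nat_lit 0) (nat_lit 10) (.e false (nat_lit 48) (nat_lit 107) (nat_lit 0) (nat_lit 10) (.e false (nat_lit 36) (nat_lit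 77) (nat_lit 2) (nat_lit 8) (.e false (nat_lit 36) (nat_lit 78) (nat_lit 2) (nat_lit 8) (.e false (nat_lit 24) (nat_lit 79) (nat_lit 2) (nat_lit 8) (.e true (nat_lit 42) (nat_lit 80) (nat_lit 2) (nat_lit 8) (.e false (nat_lit 30) (nat_lit 86) (nat_lit 2) (nat_lit 8) (.e true (nat_lit 36) (nat_lit 88) (nat_lit 2) (nat_lit 8) (.e false (nat_lit 18) (nat_lit 46) (nat_lit 5) (nat_lit 5) (.e true (nat_lit 18) (nat_lit 41) (nat_lit 6) (nat_lit 4) (.e true (nat_lit 18) (nat_lit 100) (nat_lit 1) (nat_lit 9) (.e false (nat_lit 6) (nat_lit 32) (nat_lit 7) (nat_lit 3) (.e false (nat_lit 6) (nat_lit 110) (nat_lit 0) (nat_lit 10) (.e false (nat_lit 24) (nat_lit 98) (nat_lit 1) (nat_lit 9) (.e true (nat_lit 42) (nat_lit 103) (nat_lit 1) (nat_lit 9) (.e false (nat_lit 6) (nat_lit 94) (nat_lit 1) (nat_lit 9) (.e true (nat_lit 12) (nat_lit 105) (nat_lit 0) (nat_lit 10) (.e true (nat_lit 18) (nat_lit 85)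 (nat_lit 2) (nat_lit 8) .nil)))))))))))))))))))))))))

noncomputable def dW2x_i12 : IL := (.s false (nat_lit 1) (nat_lit 6) (nat_lit 0) (nat_lit 2) (nat_lit 6) true (nat_lit 1) true (nat_lit 4) true (nat_lit 4) true (nat_lit 10) true (nat_lit 8) (.s false (nat_lit 1) (nat_lit 6) (nat_lit 5) (nat_lit 2) (nat_lit 1) true (nat_lit 1) true (nat_lit 9) true (nat_lit 4) true (nat_lit 5) true (nat_lit 8) (.s false (nat_lit 1) (nat_lit 12) (nat_lit 1) (nat_lit 2) (nat_lit 2) true (nat_lit 4) true (nat_lit 8) true (nat_lit 1) true (nat_lit 9) true (nat_lit 8) (.s true (nat_lit 1) (nat_lit 19) (nat_lit 0) (nat_lit 2) (nat_lit 1) true (nat_lit 7) true (nat_lit 9) false (nat_lit 1) true (nat_lit 10) true (nat_lit 8) (.s false (nat_lit 1) (nat_lit 19) (nat_lit 1) (nat_lit 0) (nat_lit 2) true (nat_lit 4) true (nat_lit 8) false (nat_lit 1) true (nat_lit 9) true (nat_lit 10) (.s false (nat_lit 1) (nat_lit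 19) (nat_lit 1) (nat_lit 2) (nat_lit 0) true (nat_lit 7) true (nat_lit 10) false (nat_lit 1) true (nat_lit 9) true (nat_lit 8) (.e false (nat_lit 6) (nat_lit 40) (nat_lit 6) (nat_lit 4) (.e false (nat_lit 12) (nat_lit 38) (nat_lit 6) (nat_lit 4) (.e true (nat_lit 6) (nat_lit 39) (nat_lit 6) (nat_lit 4) (.e true (nat_lit 6) (nat_lit 42) (nat_lit 6) (nat_lit 4) (.e true (nat_lit 12) (nat_lit 43) (nat_lit 6) (nat_lit 4) (.e true (nat_lit 3) (nat_lit 106) (nat_lit 0) (nat_lit 10) (.e false (nat_lit 15) (nat_lit 107) (nat_lit 0) (nat_lit 10) (.e true (nat_lit 3) (nat_lit 108) (nat_lit 0) (nat_lit 10) (.e false (nat_lit 3) (nat_lit 109) (nat_lit 0) (nat_lit 10) (.e false (nat_lit 6) (nat_lit 94) (nat_lit 1) (nat_lit 9) (.e true (nat_lit 6) (nat_lit 98) (nat_lit 1) (nat_lit 9) (.e true (nat_lit 12) (nat_lit 99) (nat_lit 1) (nat_lit 9) (.e false (nat_lit 6) (nat_lit 41) (nat_lit 6) (nat_lit 4) (.e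 false (nat_lit 6) (nat_lit 76) (nat_lit 2) (nat_lit 8) (.e false (nat_lit 6) (nat_lit 78) (nat_lit 2) (nat_lit 8) (.e true (nat_lit 6) (nat_lit 80) (nat_lit 2) (nat_lit 8) (.e true (nat_lit 6) (nat_lit 88) (nat_lit 2) (nat_lit 8) (.e true (nat_lit 6) (nat_lit 103) (nat_lit 1) (nat_lit 9) (.e false (nat_lit 6) (nat_lit 110) (nat_lit 0) (nat_lit 10) .nil)))))))))))))))))))))))))

noncomputable def dW2x_i13 : IL := (.s false (nat_lit 1) (nat_lit 13) (nat_lit 2) (nat_lit 2) (nat_lit 1) true (nat_lit 4) true (nat_lit 9) true (nat_lit 1) true (nat_lit 8) true (nat_lit 8) (.s false (nat_lit 1) (nat_lit 15) (nat_lit 2) (nat_lit 2) (nat_lit 0) true (nat_lit 5) true (nat_lit 10) true (nat_lit 0) true (nat_lit 8) true (nat_lit 8) (.s false (nat_lit 1) (nat_lit 19) (nat_lit 0) (nat_lit 2) (nat_lit 1) true (nat_lit 7) true (nat_lit 9) false (nat_lit 1) true (nat_lit 10) true (nat_lit 8) (.s true (nat_lit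 1) (nat_lit 20) (nat_lit 1) (nat_lit 0) (nat_lit 2) true (nat_lit 4) true (nat_lit 8) false (nat_lit 1) true (nat_lit 9) true (nat_lit 10) (.s true (nat_lit 2) (nat_lit 19) (nat_lit 1) (nat_lit 2) (nat_lit 0) true (nat_lit 7) true (nat_lit 10) false (nat_lit 1) true (nat_lit 9) true (nat_lit 8) (.s false (nat_lit 1) (nat_lit 20) (nat_lit 2) (nat_lit 0) (nat_lit 1) true (nat_lit 4) true (nat_lit 9) false (nat_lit 1) true (nat_lit 8) true (nat_lit 10) (.e true (nat_lit 6) (nat_lit 40) (nat_lit 6) (nat_lit 4) (.e true (nat_lit 18) (nat_lit 38) (nat_lit 6) (nat_lit 4) (.e false (nat_lit 6) (nat_lit 39) (nat_lit 6) (nat_lit 4) (.e false (nat_lit 6) (nat_lit 42) (nat_lit 6) (nat_lit 4) (.e false (nat_lit 6) (nat_lit 43) (nat_lit 6) (nat_lit 4) (.e true (nat_lit 12) (nat_lit 107) (nat_lit 0) (nat_lit 10) (.e true (nat_lit 6) (nat_lit 77) (nat_lit 2) (nat_lit 8) (.e true (nat_lit 6) (nat_lit 78)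 (nat_lit 2) (nat_lit 8) (.e true (nat_lit 6) (nat_lit 79) (nat_lit 2) (nat_lit 8) (.e false (nat_lit 12) (nat_lit 80) (nat_lit 2) (nat_lit 8) (.e true (nat_lit 6) (nat_lit 86) (nat_lit 2) (nat_lit 8) (.e false (nat_lit 6) (nat_lit 88) (nat_lit 2) (nat_lit 8) (.e false (nat_lit 6) (nat_lit 41) (nat_lit 6) (nat_lit 4) (.e true (nat_lit 6) (nat_lit 95) (nat_lit 1) (nat_lit 9) (.e false (nat_lit 6) (nat_lit 96) (nat_lit 1) (nat_lit 9) (.e true (nat_lit 6) (nat_lit 98) (nat_lit 1) (nat_lit 9) (.e false (nat_lit 6) (nat_lit 103) (nat_lit 1) (nat_lit 9) (.e false (nat_lit 6) (nat_lit 105) (nat_lit 0) (nat_lit 10) (.e false (nat_lit 6) (nat_lit 85) (nat_lit 2) (nat_lit 8) .nil)))))))))))))))))))))))))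

noncomputable def dW2x_t0 : Tr := (.nd (.nd (.nd (.nd (.nd (.nd (.nd .leaf (nat_lit 1024) (nat_lit 0) (.p (nat_lit 3) (nat_lit 6) .z) .df .leaf) (nat_lit 1025) (nat_lit 1) (.p (nat_lit 4) (nat_lit 6) .z) .df .leaf) (nat_lit 2048) (nat_lit 2) (.p (nat_lit 5) (nat_lit 6) .z) .df (.nd (.nd .leaf (nat_lit 2049) (nat_lit 3) (.p (nat_lit 6) (nat_lit 6) .z) .df .leaf) (nat_lit 2050) (nat_lit 4) (.p (nat_lit 7) (nat_lit 6) .z) .df .leaf)) (nat_lit 3072) (nat_lit 5) (.p (nat_lit 8) (nat_lit 6) .z) .df (.nd (.nd (.nd .leaf (nat_lit 3073) (nat_lit 6) (.p (nat_lit 9) (nat_lit 6) .z) .df .leaf) (nat_lit 3074) (nat_lit 9) (.p (nat_lit 12) (nat_lit 6) .z) .df .leaf) (nat_lit 3075) (nat_lit 22) (.n (nat_lit 22) (nat_lit 6) (.n (nat_lit 23) (nat_lit 6) (.p (nat_lit 24) (nat_lit 6) .z))) (.ct dW2x_c544 (nat_lit 6) (nat_lit 0) (.s true (nat_lit 1) (nat_lit 1) (nat_lit 0) (nat_lit 0) (nat_lit 1) true (nat_lit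 0) true (nat_lit 1) true (nat_lit 1) true (nat_lit 2) true (nat_lit 2) (.e true (nat_lit 6) (nat_lit 8) (nat_lit 1) (nat_lit 1) (.e true (nat_lit 6) (nat_lit 9) (nat_lit 0) (nat_lit 2) (.e false (nat_lit 6) (nat_lit 10) (nat_lit 0) (nat_lit 2) .nil))))) (.nd .leaf (nat_lit 4096) (nat_lit 7) (.p (nat_lit 10) (nat_lit 6) .z) .df .leaf))) (nat_lit 4098) (nat_lit 12) (.p (nat_lit 15) (nat_lit 6) .z) .df (.nd (.nd (.nd (.nd .leaf (nat_lit 5120) (nat_lit 8) (.p (nat_lit 11) (nat_lit 6) .z) .df .leaf) (nat_lit 5121) (nat_lit 10) (.p (nat_lit 13) (nat_lit 6) .z) .df .leaf) (nat_lit 5122) (nat_lit 14) (.p (nat_lit 17) (nat_lit 6) .z) .df (.nd (.nd .leaf (nat_lit 5123) (nat_lit 28) (.n (nat_lit 26) (nat_lit 6) (.n (nat_lit 27) (nat_lit 6) (.p (nat_lit 28) (nat_lit 6) .z))) (.ct dW2x_c529 (nat_lit 6) (nat_lit 0) (.s true (nat_lit 1) (nat_lit 2) (nat_lit 0) (nat_lit 0) (nat_lit 1) true (nat_lit 0) true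 (nat_lit 2) true (nat_lit 1) true (nat_lit 3) true (nat_lit 3) (.e true (nat_lit 6) (nat_lit 11) (nat_lit 1) (nat_lit 2) (.e true (nat_lit 6) (nat_lit 12) (nat_lit 0) (nat_lit 3) (.e false (nat_lit 6) (nat_lit 14) (nat_lit 0) (nat_lit 3) .nil))))) .leaf) (nat_lit 5124) (nat_lit 37) (.n (nat_lit 30) (nat_lit 6) (.n (nat_lit 31) (nat_lit 12) (.p (nat_lit 32) (nat_lit 12) (.p (nat_lit 33) (nat_lit 12) (.p (nat_lit 34) (nat_lit 6) .z))))) (.ct dW2x_c289 (nat_lit 6) (nat_lit 0) (.s false (nat_lit 1) (nat_lit 2) (nat_lit 1) (nat_lit 0) (nat_lit 1) true (nat_lit 0) true (nat_lit 3) true (nat_lit 2) true (nat_lit 3) true (nat_lit 4) (.e false (nat_lit 6) (nat_lit 14) (nat_lit 1) (nat_lit 3) (.e false (nat_lit 6) (nat_lit 9) (nat_lit 2) (nat_lit 2) (.e true (nat_lit 6) (nat_lit 12) (nat_lit 1) (nat_lit 3) (.e false (nat_lit 6) (nat_lit 16) (nat_lit 0) (nat_lit 4) .nil)))))) .leaf)) (nat_lit 5125)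 (nat_lit 41) (.n (nat_lit 35) (nat_lit 6) (.n (nat_lit 36) (nat_lit 6) (.p (nat_lit 37) (nat_lit 6) .z))) (.ct dW2x_c514 (nat_lit 6) (nat_lit 0) (.s true (nat_lit 1) (nat_lit 2) (nat_lit 0) (nat_lit 0) (nat_lit 2) true (nat_lit 0) true (nat_lit 1) true (nat_lit 1) true (nat_lit 2) true (nat_lit 2) (.e true (nat_lit 6) (nat_lit 11) (nat_lit 2) (nat_lit 1) (.e true (nat_lit 6) (nat_lit 17) (nat_lit 0) (nat_lit 2) (.e false (nat_lit 6) (nat_lit 18) (nat_lit 0) (nat_lit 2) .nil))))) (.nd (.nd (.nd .leaf (nat_lit 6144) (nat_lit 11) (.p (nat_lit 14) (nat_lit 6) .z) .df .leaf) (nat_lit 6145) (nat_lit 13) (.p (nat_lit 16) (nat_lit 6) .z) .df .leaf) (nat_lit 6146) (nat_lit 16) (.p (nat_lit 19) (nat_lit 6) .z) .df (.nd .leaf (nat_lit 6147) (nat_lit 35) (.p (nat_lit 29) (nat_lit 6) (.n (nat_lit 32) (nat_lit 6) (.n (nat_lit 33) (nat_lit 6) (.n (nat_lit 34) (nat_lit 6) .z)))) (.ct dW2x_c289 (nat_lit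 6) (nat_lit 1) (.s true (nat_lit 1) (nat_lit 2) (nat_lit 0) (nat_lit 1) (nat_lit 1) true (nat_lit 1) true (nat_lit 3) true (nat_lit 2) true (nat_lit 4) true (nat_lit 3) (.e true (nat_lit 6) (nat_lit 13) (nat_lit 1) (nat_lit 3) (.e false (nat_lit 6) (nat_lit 9) (nat_lit 2) (nat_lit 2) (.e true (nat_lit 6) (nat_lit 15) (nat_lit 0) (nat_lit 4) (.e true (nat_lit 6) (nat_lit 14) (nat_lit 1) (nat_lit 3) .nil)))))) .leaf)))) (nat_lit 6149) (nat_lit 48) (.p (nat_lit 38) (nat_lit 6) (.n (nat_lit 39) (nat_lit 6) (.n (nat_lit 42) (nat_lit 6) (.n (nat_lit 43) (nat_lit 6) .z)))) (.ct dW2x_c274 (nat_lit 6) (nat_lit 0) (.s true (nat_lit 1) (nat_lit 2) (nat_lit 0) (nat_lit 1) (nat_lit 2) true (nat_lit 0) true (nat_lit 2) true (nat_lit 2) true (nat_lit 4) true (nat_lit 3) (.e true (nat_lit 6) (nat_lit 13) (nat_lit 2) (nat_lit 2) (.e false (nat_lit 6) (nat_lit 12) (nat_lit 2) (nat_lit 2) (.e true (nat_lit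 6) (nat_lit 19) (nat_lit 0) (nat_lit 4) (.e true (nat_lit 6) (nat_lit 18) (nat_lit 1) (nat_lit 3) .nil)))))) (.nd (.nd (.nd (.nd (.nd .leaf (nat_lit 7168) (nat_lit 15) (.p (nat_lit 18) (nat_lit 6) .z) .df .leaf) (nat_lit 7169) (nat_lit 17) (.p (nat_lit 20) (nat_lit 6) .z) .df .leaf) (nat_lit 7170) (nat_lit 18) (.p (nat_lit 21) (nat_lit 6) .z) .df (.nd (.nd .leaf (nat_lit 7171) (nat_lit 50) (.p (nat_lit 39) (nat_lit 6) (.n (nat_lit 40) (nat_lit 6) (.n (nat_lit 41) (nat_lit 6) (.n (nat_lit 43) (nat_lit 6) .z)))) (.ct dW2x_c274 (nat_lit 6) (nat_lit 1) (.s true (nat_lit 1) (nat_lit 2) (nat_lit 0) (nat_lit 2) (nat_lit 1) true (nat_lit 1) true (nat_lit 3) true (nat_lit 2) true (nat_lit 4) true (nat_lit 2) (.e true (nat_lit 6) (nat_lit 17) (nat_lit 1) (nat_lit 3) (.e false (nat_lit 6) (nat_lit 13) (nat_lit 2) (nat_lit 2) (.e true (nat_lit 6) (nat_lit 19) (nat_lit 0) (nat_lit 4) (.e true (nat_lit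 6) (nat_lit 14) (nat_lit 2) (nat_lit 2) .nil)))))) .leaf) (nat_lit 7172) (nat_lit 55) (.p (nat_lit 45) (nat_lit 12) (.n (nat_lit 46) (nat_lit 12) .z)) (.ct dW2x_c34 (nat_lit 6) (nat_lit 1) (.s true (nat_lit 1) (nat_lit 2) (nat_lit 1) (nat_lit 2) (nat_lit 1) true (nat_lit 1) true (nat_lit 3) true (nat_lit 2) true (nat_lit 3) true (nat_lit 2) (.e true (nat_lit 12) (nat_lit 19) (nat_lit 1) (nat_lit 3) (.e false (nat_lit 12) (nat_lit 16) (nat_lit 2) (nat_lit 2) .nil)))) .leaf)) (nat_lit 7173) (nat_lit 59) (.n (nat_lit 48) (nat_lit 6) (.n (nat_lit 49) (nat_lit 6) .z)) (.ct dW2x_c259 (nat_lit 6) (nat_lit 0) (.s true (nat_lit 1) (nat_lit 2) (nat_lit 0) (nat_lit 2) (nat_lit 2) true (nat_lit 0) true (nat_lit 1) true (nat_lit 1) true (nat_lit 2) true (nat_lit 1) (.e true (nat_lit 6) (nat_lit 21) (nat_lit 0) (nat_lit 2) (.e true (nat_lit 6) (nat_lit 18) (nat_lit 2) (nat_lit 1) .nil)))) (.nd (.nd (.nd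 .leaf (nat_lit 7174) (nat_lit 63) (.p (nat_lit 51) (nat_lit 6) (.n (nat_lit 52) (nat_lit 6) .z)) (.ct dW2x_c19 (nat_lit 6) (nat_lit 0) (.s true (nat_lit 1) (nat_lit 2) (nat_lit 1) (nat_lit 2) (nat_lit 2) true (nat_lit 0) true (nat_lit 1) true (nat_lit 1) true (nat_lit 2) true (nat_lit 1) (.e true (nat_lit 6) (nat_lit 21) (nat_lit 1) (nat_lit 2) (.e false (nat_lit 6) (nat_lit 20) (nat_lit 2) (nat_lit 1) .nil)))) .leaf) (nat_lit 8193) (nat_lit 19) (.p (nat_lit 22) (nat_lit 6) .z) .df .leaf) (nat_lit 8194) (nat_lit 23) (.p (nat_lit 25) (nat_lit 6) .z) .df (.nd .leaf (nat_lit 8198) (nat_lit 81) (.n (nat_lit 57) (nat_lit 6) (.n (nat_lit 58) (nat_lit 6) (.p (nat_lit 61) (nat_lit 6) (.p (nat_lit 62) (nat_lit 12) (.p (nat_lit 63) (nat_lit 6) .z))))) (.ct dW2x_c545 (nat_lit 6) (nat_lit 0) (.s false (nat_lit 1) (nat_lit 6) (nat_lit 0) (nat_lit 1) (nat_lit 0) false (nat_lit 7) true (nat_lit 6) true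 (nat_lit 0) true (nat_lit 6) true (nat_lit 5) (.e false (nat_lit 12) (nat_lit 33) (nat_lit 0) (nat_lit 6) (.e true (nat_lit 6) (nat_lit 29) (nat_lit 0) (nat_lit 6) (.e false (nat_lit 6) (nat_lit 32) (nat_lit 0) (nat_lit 6) (.e false (nat_lit 6) (nat_lit 34) (nat_lit 0) (nat_lit 6) (.e true (nat_lit 6) (nat_lit 28) (nat_lit 1) (nat_lit 5) .nil))))))) .leaf))) (nat_lit 8199) (nat_lit 101) (.n (nat_lit 68) (nat_lit 6) (.n (nat_lit 70) (nat_lit 6) (.p (nat_lit 71) (nat_lit 6) (.p (nat_lit 72) (nat_lit 6) (.p (nat_lit 73) (nat_lit 6) (.p (nat_lit 74) (nat_lit 6) .z)))))) (.ct dW2x_c530 (nat_lit 6) (nat_lit 0) (.s false (nat_lit 1) (nat_lit 3) (nat_lit 2) (nat_lit 0) (nat_lit 2) true (nat_lit 0) true (nat_lit 4) true (nat_lit 3) true (nat_lit 4) true (nat_lit 6) (.e false (nat_lit 12) (nat_lit 27) (nat_lit 2) (nat_lit 4) (.e false (nat_lit 6) (nat_lit 17) (nat_lit 3) (nat_lit 3) (.e false (nat_lit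 6) (nat_lit 26) (nat_lit 2) (nat_lit 4) (.e true (nat_lit 6) (nat_lit 28) (nat_lit 2) (nat_lit 4) (.e false (nat_lit 6) (nat_lit 38) (nat_lit 0) (nat_lit 6) .nil))))))) (.nd (.nd (.nd (.nd .leaf (nat_lit 9216) (nat_lit 20) (.p (nat_lit 23) (nat_lit 6) .z) .df .leaf) (nat_lit 9218) (nat_lit 29) (.p (nat_lit 29) (nat_lit 6) .z) .df .leaf) (nat_lit 9221) (nat_lit 78) (.p (nat_lit 55) (nat_lit 6) (.p (nat_lit 59) (nat_lit 6) (.p (nat_lit 60) (nat_lit 6) (.n (nat_lit 61) (nat_lit 12) (.n (nat_lit 62) (nat_lit 6) (.n (nat_lit 63) (nat_lit 6) .z)))))) (.ct dW2x_c545 (nat_lit 6) (nat_lit 1) (.s true (nat_lit 1) (nat_lit 3) (nat_lit 0) (nat_lit 1) (nat_lit 2) true (nat_lit 1) true (nat_lit 4) true (nat_lit 3) true (nat_lit 6) true (nat_lit 5) (.e true (nat_lit 6) (nat_lit 22) (nat_lit 2) (nat_lit 4) (.e false (nat_lit 6) (nat_lit 12) (nat_lit 3) (nat_lit 3) (.e true (nat_lit 6) (nat_lit 29) (nat_lit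 0) (nat_lit 6) (.e false (nat_lit 6) (nat_lit 32) (nat_lit 0) (nat_lit 6) (.e false (nat_lit 6) (nat_lit 33) (nat_lit 0) (nat_lit 6) (.e false (nat_lit 6) (nat_lit 34) (nat_lit 0) (nat_lit 6) (.e true (nat_lit 6) (nat_lit 27) (nat_lit 1) (nat_lit 5) .nil))))))))) (.nd (.nd .leaf (nat_lit 9223) (nat_lit 124) (.n (nat_lit 76) (nat_lit 6) (.p (nat_lit 81) (nat_lit 6) (.n (nat_lit 82) (nat_lit 6) (.p (nat_lit 84) (nat_lit 6) (.n (nat_lit 86) (nat_lit 6) (.p (nat_lit 87) (nat_lit 6) (.p (nat_lit 88) (nat_lit 6) .z))))))) (.ct dW2x_c290 (nat_lit 6) (nat_lit 0) (.s true (nat_lit 1) (nat_lit 3) (nat_lit 2) (nat_lit 1) (nat_lit 2) true (nat_lit 0) true (nat_lit 5) true (nat_lit 4) true (nat_lit 5) true (nat_lit 6) (.e true (nat_lit 6) (nat_lit 31) (nat_lit 2) (nat_lit 5) (.e false (nat_lit 6) (nat_lit 19) (nat_lit 3) (nat_lit 4) (.e true (nat_lit 6) (nat_lit 29) (nat_lit 2) (nat_lit 5) (.e false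 (nat_lit 6) (nat_lit 32) (nat_lit 2) (nat_lit 5) (.e false (nat_lit 6) (nat_lit 33) (nat_lit 2) (nat_lit 5) (.e false (nat_lit 6) (nat_lit 34) (nat_lit 2) (nat_lit 5) (.e false (nat_lit 6) (nat_lit 38) (nat_lit 1) (nat_lit 6) .nil))))))))) .leaf) (nat_lit 10240) (nat_lit 21) (.p (nat_lit 24) (nat_lit 6) .z) .df .leaf)) (nat_lit 10242) (nat_lit 30) (.p (nat_lit 30) (nat_lit 6) .z) .df (.nd (.nd (.nd .leaf (nat_lit 10245) (nat_lit 76) (.n (nat_lit 54) (nat_lit 6) (.p (nat_lit 55) (nat_lit 18) (.p (nat_lit 56) (nat_lit 12) (.n (nat_lit 57) (nat_lit 6) (.p (nat_lit 60) (nat_lit 6) (.n (nat_lit 61) (nat_lit 6) (.n (nat_lit 62) (nat_lit 6) .z))))))) (.ct dW2x_c545 (nat_lit 6) (nat_lit 1) (.s true (nat_lit 1) (nat_lit 3) (nat_lit 0) (nat_lit 2) (nat_lit 1) true (nat_lit 3) true (nat_lit 5) true (nat_lit 3) true (nat_lit 6) true (nat_lit 4) (.s false (nat_lit 1) (nat_lit 3) (nat_lit 1) (nat_lit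 0) (nat_lit 2) true (nat_lit 0) true (nat_lit 4) true (nat_lit 3) true (nat_lit 5) true (nat_lit 6) (.s true (nat_lit 1) (nat_lit 5) (nat_lit 1) (nat_lit 1) (nat_lit 0) true (nat_lit 3) true (nat_lit 6) true (nat_lit 1) true (nat_lit 5) true (nat_lit 5) (.s true (nat_lit 1) (nat_lit 6) (nat_lit 0) (nat_lit 1) (nat_lit 0) false (nat_lit 7) true (nat_lit 6) true (nat_lit 0) true (nat_lit 6) true (nat_lit 5) (.e true (nat_lit 6) (nat_lit 25) (nat_lit 1) (nat_lit 5) (.e true (nat_lit 6) (nat_lit 32) (nat_lit 0) (nat_lit 6) (.e true (nat_lit 6) (nat_lit 33) (nat_lit 0) (nat_lit 6) (.e false (nat_lit 18) (nat_lit 26) (nat_lit 1) (nat_lit 5) (.e false (nat_lit 12) (nat_lit 27) (nat_lit 1) (nat_lit 5) (.e true (nat_lit 6) (nat_lit 28) (nat_lit 1) (nat_lit 5) (.e false (nat_lit 6) (nat_lit 31) (nat_lit 0) (nat_lit 6) .nil)))))))))))) .leaf) (nat_lit 10247) (nat_lit 128) (.n (nat_lit 76) (nat_lit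 6) (.p (nat_lit 77) (nat_lit 12) (.p (nat_lit 78) (nat_lit 12) (.p (nat_lit 79) (nat_lit 12) (.n (nat_lit 81) (nat_lit 6) (.p (nat_lit 82) (nat_lit 6) (.p (nat_lit 85) (nat_lit 6) (.n (nat_lit 87) (nat_lit 12) (.n (nat_lit 88) (nat_lit 6) .z))))))))) (.ct dW2x_c290 (nat_lit 6) (nat_lit 0) (.s false (nat_lit 1) (nat_lit 4) (nat_lit 2) (nat_lit 0) (nat_lit 2) true (nat_lit 0) true (nat_lit 5) true (nat_lit 3) true (nat_lit 5) true (nat_lit 7) (.e false (nat_lit 12) (nat_lit 34) (nat_lit 2) (nat_lit 5) (.e false (nat_lit 6) (nat_lit 17) (nat_lit 4) (nat_lit 3) (.e true (nat_lit 6) (nat_lit 30) (nat_lit 2) (nat_lit 5) (.e true (nat_lit 12) (nat_lit 31) (nat_lit 2) (nat_lit 5) (.e false (nat_lit 12) (nat_lit 32) (nat_lit 2) (nat_lit 5) (.e false (nat_lit 12) (nat_lit 33) (nat_lit 2) (nat_lit 5) (.e false (nat_lit 6) (nat_lit 44) (nat_lit 0) (nat_lit 7) .nil))))))))) .leaf) (nat_lit 11265) (nat_lit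 24) (.p (nat_lit 26) (nat_lit 6) .z) .df (.nd .leaf (nat_lit 11266) (nat_lit 38) (.p (nat_lit 35) (nat_lit 6) .z) .df .leaf))))) (nat_lit 11268) (nat_lit 83) (.n (nat_lit 54) (nat_lit 6) (.p (nat_lit 55) (nat_lit 18) (.p (nat_lit 56) (nat_lit 12) (.n (nat_lit 57) (nat_lit 6) (.p (nat_lit 59) (nat_lit 6) (.p (nat_lit 60) (nat_lit 6) (.n (nat_lit 61) (nat_lit 6) (.n (nat_lit 62) (nat_lit 6) (.n (nat_lit 63) (nat_lit 6) .z))))))))) (.ct dW2x_c545 (nat_lit 6) (nat_lit 2) (.s true (nat_lit 1) (nat_lit 4) (nat_lit 2) (nat_lit 0) (nat_lit 0) true (nat_lit 1) true (nat_lit 6) true (nat_lit 2) true (nat_lit 4) true (nat_lit 6) (.e false (nat_lit 6) (nat_lit 10) (nat_lit 5) (nat_lit 1) (.e true (nat_lit 6) (nat_lit 34) (nat_lit 0) (nat_lit 6) (.e false (nat_lit 6) (nat_lit 30) (nat_lit 0) (nat_lit 6) .nil))))) (.nd (.nd (.nd (.nd (.nd (.nd .leaf (nat_lit 11270) (nat_lit 96) (.n (nat_lit 66) (nat_lit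 6) (.n (nat_lit 69) (nat_lit 6) (.p (nat_lit 70) (nat_lit 6) (.p (nat_lit 71) (nat_lit 6) (.p (nat_lit 73) (nat_lit 6) (.p (nat_lit 74) (nat_lit 6) .z)))))) (.ct dW2x_c530 (nat_lit 6) (nat_lit 1) (.s false (nat_lit 1) (nat_lit 6) (nat_lit 0) (nat_lit 2) (nat_lit 0) false (nat_lit 7) true (nat_lit 6) true (nat_lit 1) true (nat_lit 6) true (nat_lit 4) (.e false (nat_lit 6) (nat_lit 40) (nat_lit 0) (nat_lit 6) (.e true (nat_lit 6) (nat_lit 38) (nat_lit 0) (nat_lit 6) (.e false (nat_lit 6) (nat_lit 39) (nat_lit 0) (nat_lit 6) (.e false (nat_lit 6) (nat_lit 42) (nat_lit 0) (nat_lit 6) (.e false (nat_lit 6) (nat_lit 43) (nat_lit 0) (nat_lit 6) (.e true (nat_lit 6) (nat_lit 28) (nat_lit 2) (nat_lit 4) .nil)))))))) .leaf) (nat_lit 11271) (nat_lit 135) (.n (nat_lit 90) (nat_lit 6) (.p (nat_lit 92) (nat_lit 12) (.p (nat_lit 93) (nat_lit 6) .z))) (.ct dW2x_c515 (nat_lit 6) (nat_lit 0) (.s false (nat_lit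 1) (nat_lit 7) (nat_lit 0) (nat_lit 2) (nat_lit 0) false (nat_lit 4) true (nat_lit 3) true (nat_lit 0) true (nat_lit 3) true (nat_lit 2) (.e false (nat_lit 12) (nat_lit 48) (nat_lit 0) (nat_lit 3) (.e false (nat_lit 6) (nat_lit 49) (nat_lit 0) (nat_lit 3) (.e true (nat_lit 6) (nat_lit 37) (nat_lit 2) (nat_lit 2) .nil))))) .leaf) (nat_lit 12288) (nat_lit 25) (.p (nat_lit 27) (nat_lit 6) .z) .df (.nd (.nd .leaf (nat_lit 12289) (nat_lit 31) (.p (nat_lit 31) (nat_lit 6) .z) .df .leaf) (nat_lit 12290) (nat_lit 42) (.p (nat_lit 38) (nat_lit 6) .z) .df .leaf)) (nat_lit 12291) (nat_lit 75) (.p (nat_lit 53) (nat_lit 6) (.p (nat_lit 55) (nat_lit 6) (.p (nat_lit 56) (nat_lit 6) (.p (nat_lit 58) (nat_lit 6) (.p (nat_lit 59) (nat_lit 6) (.p (nat_lit 60) (nat_lit 6) (.n (nat_lit 61) (nat_lit 18) (.n (nat_lit 62) (nat_lit 12) (.n (nat_lit 63) (nat_lit 12) .z))))))))) (.ct dW2x_c545 (nat_lit 6) (nat_lit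 3) (.s true (nat_lit 1) (nat_lit 3) (nat_lit 1) (nat_lit 2) (nat_lit 0) true (nat_lit 3) true (nat_lit 6) true (nat_lit 3) true (nat_lit 5) true (nat_lit 4) (.s false (nat_lit 1) (nat_lit 6) (nat_lit 0) (nat_lit 0) (nat_lit 1) true (nat_lit 3) true (nat_lit 5) true (nat_lit 0) true (nat_lit 6) true (nat_lit 6) (.e false (nat_lit 6) (nat_lit 29) (nat_lit 0) (nat_lit 6) (.e false (nat_lit 6) (nat_lit 26) (nat_lit 1) (nat_lit 5) (.e false (nat_lit 6) (nat_lit 27) (nat_lit 1) (nat_lit 5) (.e false (nat_lit 6) (nat_lit 22) (nat_lit 2) (nat_lit 4) (.e true (nat_lit 18) (nat_lit 32) (nat_lit 0) (nat_lit 6) (.e true (nat_lit 12) (nat_lit 33) (nat_lit 0) (nat_lit 6) (.e true (nat_lit 12) (nat_lit 34) (nat_lit 0) (nat_lit 6) (.e false (nat_lit 6) (nat_lit 30) (nat_lit 0) (nat_lit 6) (.e false (nat_lit 6) (nat_lit 31) (nat_lit 0) (nat_lit 6) .nil)))))))))))) (.nd (.nd (.nd .leaf (nat_lit 12293) (nat_lit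 99) (.n (nat_lit 65) (nat_lit 6) (.n (nat_lit 70) (nat_lit 6) (.p (nat_lit 71) (nat_lit 6) .z))) (.ct dW2x_c530 (nat_lit 6) (nat_lit 2) (.s true (nat_lit 1) (nat_lit 3) (nat_lit 0) (nat_lit 2) (nat_lit 2) true (nat_lit 2) true (nat_lit 4) true (nat_lit 3) true (nat_lit 6) true (nat_lit 4) (.e true (nat_lit 6) (nat_lit 25) (nat_lit 2) (nat_lit 4) (.e false (nat_lit 6) (nat_lit 17) (nat_lit 3) (nat_lit 3) (.e true (nat_lit 6) (nat_lit 39) (nat_lit 0) (nat_lit 6) (.e false (nat_lit 6) (nat_lit 40) (nat_lit 0) (nat_lit 6) (.e false (nat_lit 6) (nat_lit 41) (nat_lit 0) (nat_lit 6) (.e false (nat_lit 6) (nat_lit 43) (nat_lit 0) (nat_lit 6) (.e true (nat_lit 6) (nat_lit 27) (nat_lit 2) (nat_lit 4) .nil))))))))) .leaf) (nat_lit 12294) (nat_lit 117) (.p (nat_lit 88) (nat_lit 6) .z) .df .leaf) (nat_lit 12295) (nat_lit 148) (.p (nat_lit 103) (nat_lit 6) .z) .df (.nd .leaf (nat_lit 13312) (nat_lit 27)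 (.n (nat_lit 25) (nat_lit 6) (.p (nat_lit 26) (nat_lit 6) (.p (nat_lit 27) (nat_lit 6) .z))) (.ct dW2x_c529 (nat_lit 6) (nat_lit 3) (.s true (nat_lit 1) (nat_lit 2) (nat_lit 0) (nat_lit 1) (nat_lit 0) false (nat_lit 4) true (nat_lit 3) true (nat_lit 1) true (nat_lit 3) true (nat_lit 2) (.e true (nat_lit 6) (nat_lit 8) (nat_lit 2) (nat_lit 1) (.e false (nat_lit 6) (nat_lit 12) (nat_lit 0) (nat_lit 3) (.e false (nat_lit 6) (nat_lit 11) (nat_lit 1) (nat_lit 2) .nil))))) .leaf))) (nat_lit 13313) (nat_lit 32) (.p (nat_lit 32) (nat_lit 6) .z) .df (.nd (.nd (.nd (.nd .leaf (nat_lit 13314) (nat_lit 43) (.p (nat_lit 39) (nat_lit 6) .z) .df .leaf) (nat_lit 13315) (nat_lit 82) (.p (nat_lit 54) (nat_lit 6) (.n (nat_lit 55) (nat_lit 6) (.n (nat_lit 56) (nat_lit 6) (.n (nat_lit 60) (nat_lit 6) (.p (nat_lit 62) (nat_lit 6) .z))))) (.ct dW2x_c545 (nat_lit 6) (nat_lit 3) (.s true (nat_lit 1) (nat_lit 5)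 (nat_lit 1) (nat_lit 1) (nat_lit 0) true (nat_lit 3) true (nat_lit 6) true (nat_lit 1) true (nat_lit 5) true (nat_lit 5) (.e true (nat_lit 6) (nat_lit 32) (nat_lit 0) (nat_lit 6) (.e true (nat_lit 6) (nat_lit 10) (nat_lit 5) (nat_lit 1) (.e false (nat_lit 12) (nat_lit 26) (nat_lit 1) (nat_lit 5) (.e false (nat_lit 6) (nat_lit 27) (nat_lit 1) (nat_lit 5) (.e true (nat_lit 6) (nat_lit 28) (nat_lit 1) (nat_lit 5) .nil))))))) .leaf) (nat_lit 13317) (nat_lit 100) (.p (nat_lit 64) (nat_lit 6) (.p (nat_lit 65) (nat_lit 6) (.p (nat_lit 67) (nat_lit 6) (.p (nat_lit 69) (nat_lit 6) (.n (nat_lit 70) (nat_lit 6) (.n (nat_lit 72) (nat_lit 6) (.n (nat_lit 73) (nat_lit 6) (.n (nat_lit 74) (nat_lit 12) .z)))))))) (.ct dW2x_c530 (nat_lit 6) (nat_lit 2) (.s true (nat_lit 1) (nat_lit 5) (nat_lit 2) (nat_lit 0) (nat_lit 1) true (nat_lit 1) true (nat_lit 5) true (nat_lit 2) true (nat_lit 4) true (nat_lit 6)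 (.e false (nat_lit 6) (nat_lit 11) (nat_lit 6) (nat_lit 1) (.e true (nat_lit 6) (nat_lit 36) (nat_lit 1) (nat_lit 5) (.e true (nat_lit 6) (nat_lit 26) (nat_lit 2) (nat_lit 4) (.e true (nat_lit 6) (nat_lit 27) (nat_lit 2) (nat_lit 4) (.e false (nat_lit 6) (nat_lit 28) (nat_lit 2) (nat_lit 4) (.e true (nat_lit 6) (nat_lit 39) (nat_lit 0) (nat_lit 6) .nil)))))))) (.nd (.nd .leaf (nat_lit 13318) (nat_lit 120) (.p (nat_lit 78) (nat_lit 6) (.p (nat_lit 82) (nat_lit 6) (.n (nat_lit 86) (nat_lit 6) (.n (nat_lit 87) (nat_lit 6) (.n (nat_lit 88) (nat_lit 6) .z))))) (.ct dW2x_c290 (nat_lit 6) (nat_lit 1) (.s false (nat_lit 1) (nat_lit 6) (nat_lit 0) (nat_lit 2) (nat_lit 1) true (nat_lit 4) true (nat_lit 6) true (nat_lit 1) true (nat_lit 7) true (nat_lit 5) (.s true (nat_lit 1) (nat_lit 6) (nat_lit 1) (nat_lit 0) (nat_lit 2) true (nat_lit 1) true (nat_lit 5) true (nat_lit 1) true (nat_lit 6) true (nat_lit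 7) (.s true (nat_lit 1) (nat_lit 6) (nat_lit 1) (nat_lit 2) (nat_lit 0) true (nat_lit 4) true (nat_lit 7) true (nat_lit 1) true (nat_lit 6) true (nat_lit 5) (.e false (nat_lit 6) (nat_lit 40) (nat_lit 1) (nat_lit 6) (.e false (nat_lit 6) (nat_lit 33) (nat_lit 2) (nat_lit 5) (.e true (nat_lit 6) (nat_lit 12) (nat_lit 6) (nat_lit 1) (.e true (nat_lit 6) (nat_lit 46) (nat_lit 0) (nat_lit 7) (.e true (nat_lit 6) (nat_lit 45) (nat_lit 0) (nat_lit 7) .nil))))))))) .leaf) (nat_lit 13319) (nat_lit 150) (.n (nat_lit 94) (nat_lit 12) (.p (nat_lit 95) (nat_lit 18) (.n (nat_lit 96) (nat_lit 6) (.n (nat_lit 97) (nat_lit 6) (.p (nat_lit 98) (nat_lit 6) (.p (nat_lit 99) (nat_lit 6) (.n (nat_lit 101) (nat_lit 6) (.p (nat_lit 103) (nat_lit 6) .z)))))))) (.ct dW2x_c275 (nat_lit 6) (nat_lit 0) (.s true (nat_lit 1) (nat_lit 5) (nat_lit 2) (nat_lit 1) (nat_lit 2) true (nat_lit 0) true (nat_lit 4) true (nat_lit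 2) true (nat_lit 4) true (nat_lit 5) (.s true (nat_lit 1) (nat_lit 5) (nat_lit 2) (nat_lit 2) (nat_lit 1) true (nat_lit 1) true (nat_lit 5) true (nat_lit 2) true (nat_lit 4) true (nat_lit 4) (.s true (nat_lit 1) (nat_lit 6) (nat_lit 0) (nat_lit 2) (nat_lit 2) true (nat_lit 2) true (nat_lit 4) true (nat_lit 1) true (nat_lit 6) true (nat_lit 4) (.s true (nat_lit 1) (nat_lit 7) (nat_lit 0) (nat_lit 1) (nat_lit 2) true (nat_lit 2) true (nat_lit 4) true (nat_lit 0) true (nat_lit 6) true (nat_lit 5) (.e true (nat_lit 6) (nat_lit 41) (nat_lit 2) (nat_lit 4) (.e true (nat_lit 12) (nat_lit 38) (nat_lit 2) (nat_lit 4) (.e false (nat_lit 18) (nat_lit 39) (nat_lit 2) (nat_lit 4) (.e false (nat_lit 6) (nat_lit 42) (nat_lit 2) (nat_lit 4) (.e false (nat_lit 6) (nat_lit 43) (nat_lit 2) (nat_lit 4) (.e true (nat_lit 6) (nat_lit 40) (nat_lit 2) (nat_lit 4) (.e false (nat_lit 6) (nat_lit 12) (nat_lit 7) (nat_lit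 0) (.e true (nat_lit 6) (nat_lit 49) (nat_lit 1) (nat_lit 5) .nil))))))))))))) .leaf)) (nat_lit 13324) (nat_lit 235) (.p (nat_lit 111) (nat_lit 12) (.n (nat_lit 112) (nat_lit 6) (.n (nat_lit 113) (nat_lit 6) (.p (nat_lit 115) (nat_lit 6) (.p (nat_lit 116) (nat_lit 6) (.n (nat_lit 118) (nat_lit 12) (.n (nat_lit 119) (nat_lit 12) (.n (nat_lit 120) (nat_lit 12) (.n (nat_lit 121) (nat_lit 6) (.n (nat_lit 122) (nat_lit 12) (.n (nat_lit 123) (nat_lit 6) (.n (nat_lit 125) (nat_lit 12) (.p (nat_lit 126) (nat_lit 6) (.p (nat_lit 127) (nat_lit 6) (.p (nat_lit 128) (nat_lit 6) (.p (nat_lit 129) (nat_lit 12) (.p (nat_lit 130) (nat_lit 6) (.n (nat_lit 131) (nat_lit 6) (.p (nat_lit 132) (nat_lit 12) (.p (nat_lit 134) (nat_lit 6) (.n (nat_lit 135) (nat_lit 6) .z))))))))))))))))))))) (.ct dW2x_c546 (nat_lit 6) (nat_lit 0) (.s false (nat_lit 1) (nat_lit 12) (nat_lit 0) (nat_lit 2) (nat_lit 1) true (nat_lit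 8) true (nat_lit 10) true (nat_lit 0) true (nat_lit 11) true (nat_lit 9) (.e false (nat_lit 6) (nat_lit 38) (nat_lit 3) (nat_lit 8) (.e false (nat_lit 6) (nat_lit 65) (nat_lit 1) (nat_lit 10) (.e true (nat_lit 6) (nat_lit 88) (nat_lit 0) (nat_lit 11) (.e false (nat_lit 6) (nat_lit 60) (nat_lit 2) (nat_lit 9) .nil)))))) (.nd (.nd (.nd .leaf (nat_lit 14336) (nat_lit 26) (.p (nat_lit 28) (nat_lit 6) .z) .df .leaf) (nat_lit 14337) (nat_lit 33) (.p (nat_lit 33) (nat_lit 6) .z) .df .leaf) (nat_lit 14338) (nat_lit 44) (.p (nat_lit 40) (nat_lit 6) .z) .df (.nd .leaf (nat_lit 14339) (nat_lit 80) (.n (nat_lit 57) (nat_lit 6) (.n (nat_lit 58) (nat_lit 12) (.n (nat_lit 59) (nat_lit 6) (.n (nat_lit 60) (nat_lit 6) (.p (nat_lit 61) (nat_lit 18) (.p (nat_lit 62) (nat_lit 12) (.p (nat_lit 63) (nat_lit 12) .z))))))) (.ct dW2x_c545 (nat_lit 6) (nat_lit 3) (.s true (nat_lit 1) (nat_lit 3) (nat_lit 1) (nat_lit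 2) (nat_lit 0) true (nat_lit 3) true (nat_lit 6) true (nat_lit 3) true (nat_lit 5) true (nat_lit 4) (.e true (nat_lit 6) (nat_lit 12) (nat_lit 3) (nat_lit 3) (.e true (nat_lit 6) (nat_lit 29) (nat_lit 0) (nat_lit 6) (.e false (nat_lit 6) (nat_lit 26) (nat_lit 1) (nat_lit 5) (.e false (nat_lit 6) (nat_lit 27) (nat_lit 1) (nat_lit 5) (.e true (nat_lit 6) (nat_lit 28) (nat_lit 1) (nat_lit 5) (.e false (nat_lit 6) (nat_lit 22) (nat_lit 2) (nat_lit 4) .nil)))))))) .leaf)))) (nat_lit 14341) (nat_lit 103) (.n (nat_lit 66) (nat_lit 6) (.n (nat_lit 69) (nat_lit 6) (.p (nat_lit 70) (nat_lit 6) (.p (nat_lit 73) (nat_lit 6) (.p (nat_lit 74) (nat_lit 12) .z))))) (.ct dW2x_c530 (nat_lit 6) (nat_lit 2) (.s false (nat_lit 1) (nat_lit 6) (nat_lit 2) (nat_lit 0) (nat_lit 0) true (nat_lit 2) true (nat_lit 6) true (nat_lit 1) true (nat_lit 4) true (nat_lit 6) (.e false (nat_lit 6) (nat_lit 43) (nat_lit 0) (nat_lit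 6) (.e false (nat_lit 6) (nat_lit 11) (nat_lit 6) (nat_lit 1) (.e true (nat_lit 6) (nat_lit 40) (nat_lit 0) (nat_lit 6) .nil))))) (.nd (.nd (.nd (.nd (.nd .leaf (nat_lit 14342) (nat_lit 122) (.n (nat_lit 75) (nat_lit 6) (.n (nat_lit 76) (nat_lit 6) (.p (nat_lit 77) (nat_lit 12) (.p (nat_lit 78) (nat_lit 18) (.p (nat_lit 79) (nat_lit 12) (.p (nat_lit 80) (nat_lit 6) (.p (nat_lit 82) (nat_lit 6) (.n (nat_lit 83) (nat_lit 6) (.n (nat_lit 84) (nat_lit 6) (.p (nat_lit 86) (nat_lit 6) (.n (nat_lit 87) (nat_lit 12) (.n (nat_lit 88) (nat_lit 6) .z)))))))))))) (.ct dW2x_c290 (nat_lit 6) (nat_lit 1) (.s true (nat_lit 1) (nat_lit 6) (nat_lit 1) (nat_lit 2) (nat_lit 0) true (nat_lit 4) true (nat_lit 7) true (nat_lit 1) true (nat_lit 6) true (nat_lit 5) (.e true (nat_lit 6) (nat_lit 19) (nat_lit 3) (nat_lit 4) (.e true (nat_lit 6) (nat_lit 45) (nat_lit 0) (nat_lit 7) (.e true (nat_lit 6) (nat_lit 38)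 (nat_lit 1) (nat_lit 6) (.e false (nat_lit 6) (nat_lit 39) (nat_lit 1) (nat_lit 6) (.e false (nat_lit 6) (nat_lit 42) (nat_lit 1) (nat_lit 6) (.e false (nat_lit 6) (nat_lit 43) (nat_lit 1) (nat_lit 6) (.e false (nat_lit 6) (nat_lit 33) (nat_lit 2) (nat_lit 5) .nil))))))))) .leaf) (nat_lit 14343) (nat_lit 152) (.n (nat_lit 95) (nat_lit 6) (.p (nat_lit 96) (nat_lit 6) (.p (nat_lit 97) (nat_lit 6) (.p (nat_lit 98) (nat_lit 6) (.p (nat_lit 99) (nat_lit 6) (.p (nat_lit 100) (nat_lit 6) (.p (nat_lit 101) (nat_lit 6) (.n (nat_lit 102) (nat_lit 6) (.n (nat_lit 103) (nat_lit 6) .z))))))))) (.ct dW2x_c275 (nat_lit 6) (nat_lit 0) (.s true (nat_lit 1) (nat_lit 5) (nat_lit 1) (nat_lit 2) (nat_lit 2) true (nat_lit 1) true (nat_lit 4) true (nat_lit 2) true (nat_lit 5) true (nat_lit 4) (.s false (nat_lit 1) (nat_lit 6) (nat_lit 2) (nat_lit 0) (nat_lit 2) true (nat_lit 0) true (nat_lit 4) true (nat_lit 1)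 true (nat_lit 4) true (nat_lit 6) (.s true (nat_lit 1) (nat_lit 6) (nat_lit 2) (nat_lit 2) (nat_lit 0) true (nat_lit 2) true (nat_lit 6) true (nat_lit 1) true (nat_lit 4) true (nat_lit 4) (.s true (nat_lit 1) (nat_lit 7) (nat_lit 2) (nat_lit 0) (nat_lit 1) true (nat_lit 1) true (nat_lit 5) true (nat_lit 0) true (nat_lit 4) true (nat_lit 6) (.e false (nat_lit 12) (nat_lit 39) (nat_lit 2) (nat_lit 4) (.e false (nat_lit 6) (nat_lit 48) (nat_lit 1) (nat_lit 5) (.e false (nat_lit 12) (nat_lit 43) (nat_lit 2) (nat_lit 4) (.e true (nat_lit 12) (nat_lit 38) (nat_lit 2) (nat_lit 4) (.e false (nat_lit 12) (nat_lit 42) (nat_lit 2) (nat_lit 4) (.e true (nat_lit 6) (nat_lit 13) (nat_lit 7) (nat_lit 0) (.e true (nat_lit 6) (nat_lit 51) (nat_lit 0) (nat_lit 6) .nil)))))))))))) .leaf) (nat_lit 14348) (nat_lit 232) (.n (nat_lit 114) (nat_lit 6) (.n (nat_lit 115) (nat_lit 6) (.n (nat_lit 116) (nat_lit 3)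 (.n (nat_lit 117) (nat_lit 3) (.p (nat_lit 118) (nat_lit 9) (.p (nat_lit 119) (nat_lit 9) (.p (nat_lit 120) (nat_lit 6) (.p (nat_lit 124) (nat_lit 3) (.n (nat_lit 125) (nat_lit 3) (.n (nat_lit 126) (nat_lit 3) (.n (nat_lit 128) (nat_lit 3) (.n (nat_lit 129) (nat_lit 6) (.p (nat_lit 133) (nat_lit 6) .z))))))))))))) (.ct dW2x_c546 (nat_lit 6) (nat_lit 0) (.s true (nat_lit 1) (nat_lit 12) (nat_lit 1) (nat_lit 2) (nat_lit 0) true (nat_lit 8) true (nat_lit 11) true (nat_lit 0) true (nat_lit 10) true (nat_lit 9) (.e true (nat_lit 6) (nat_lit 38) (nat_lit 3) (nat_lit 8) (.e true (nat_lit 6) (nat_lit 76) (nat_lit 0) (nat_lit 11) (.e false (nat_lit 6) (nat_lit 65) (nat_lit 1) (nat_lit 10) (.e false (nat_lit 6) (nat_lit 70) (nat_lit 1) (nat_lit 10) (.e true (nat_lit 6) (nat_lit 71) (nat_lit 1) (nat_lit 10) (.e false (nat_lit 6) (nat_lit 56) (nat_lit 2) (nat_lit 9) .nil)))))))) (.nd (.nd .leaf (nat_lit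 14349) (nat_lit 225) (.n (nat_lit 111) (nat_lit 9) (.p (nat_lit 112) (nat_lit 3) (.p (nat_lit 113) (nat_lit 6) (.n (nat_lit 114) (nat_lit 3) (.n (nat_lit 116) (nat_lit 6) (.n (nat_lit 117) (nat_lit 3) (.p (nat_lit 118) (nat_lit 9) (.p (nat_lit 119) (nat_lit 9) (.p (nat_lit 120) (nat_lit 9) (.p (nat_lit 123) (nat_lit 3) (.n (nat_lit 124) (nat_lit 3) (.p (nat_lit 125) (nat_lit 6) (.n (nat_lit 127) (nat_lit 3) (.n (nat_lit 128) (nat_lit 3) (.n (nat_lit 129) (nat_lit 3) (.p (nat_lit 131) (nat_lit 3) (.n (nat_lit 132) (nat_lit 9) (.p (nat_lit 133) (nat_lit 3) (.n (nat_lit 134) (nat_lit 3) (.p (nat_lit 135) (nat_lit 3) (.n (nat_lit 136) (nat_lit 3) (.n (nat_lit 137) (nat_lit 6) .z)))))))))))))))))))))) (.ct dW2x_c546 (nat_lit 6) (nat_lit 0) (.s false (nat_lit 1) (nat_lit 14) (nat_lit 2) (nat_lit 0) (nat_lit 1) true (nat_lit 5) true (nat_lit 10) true (nat_lit 0) true (nat_lit 9) true (nat_lit 11)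 (.a false (nat_lit 36) (nat_lit 13) (nat_lit 14) (nat_lit 0) (nat_lit 0) (.e true (nat_lit 6) (nat_lit 28) (nat_lit 6) (nat_lit 5) (.e false (nat_lit 6) (nat_lit 71) (nat_lit 1) (nat_lit 10) (.e false (nat_lit 6) (nat_lit 57) (nat_lit 2) (nat_lit 9) (.e false (nat_lit 12) (nat_lit 58) (nat_lit 2) (nat_lit 9) (.e false (nat_lit 6) (nat_lit 59) (nat_lit 2) (nat_lit 9) (.e false (nat_lit 6) (nat_lit 60) (nat_lit 2) (nat_lit 9) (.e true (nat_lit 18) (nat_lit 61) (nat_lit 2) (nat_lit 9) (.e true (nat_lit 12) (nat_lit 62) (nat_lit 2) (nat_lit 9) (.e true (nat_lit 12) (nat_lit 63) (nat_lit 2) (nat_lit 9) (.e false (nat_lit 6) (nat_lit 78) (nat_lit 0) (nat_lit 11) .nil))))))))))))) .leaf) (nat_lit 15360) (nat_lit 34) (.p (nat_lit 34) (nat_lit 6) .z) .df .leaf)) (nat_lit 15362) (nat_lit 51) (.p (nat_lit 44) (nat_lit 6) .z) .df (.nd (.nd (.nd .leaf (nat_lit 15365) (nat_lit 123) (.p (nat_lit 76) (nat_lit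 6) (.n (nat_lit 79) (nat_lit 6) (.n (nat_lit 81) (nat_lit 6) (.p (nat_lit 82) (nat_lit 6) (.n (nat_lit 86) (nat_lit 12) (.n (nat_lit 88) (nat_lit 6) .z)))))) (.ct dW2x_c290 (nat_lit 6) (nat_lit 2) (.s false (nat_lit 1) (nat_lit 5) (nat_lit 1) (nat_lit 1) (nat_lit 2) true (nat_lit 1) true (nat_lit 5) true (nat_lit 2) true (nat_lit 6) true (nat_lit 6) (.e false (nat_lit 6) (nat_lit 13) (nat_lit 6) (nat_lit 1) (.e false (nat_lit 6) (nat_lit 32) (nat_lit 2) (nat_lit 5) (.e false (nat_lit 6) (nat_lit 38) (nat_lit 1) (nat_lit 6) (.e true (nat_lit 6) (nat_lit 39) (nat_lit 1) (nat_lit 6) (.e true (nat_lit 6) (nat_lit 42) (nat_lit 1) (nat_lit 6) (.e true (nat_lit 6) (nat_lit 43) (nat_lit 1) (nat_lit 6) (.e true (nat_lit 6) (nat_lit 41) (nat_lit 1) (nat_lit 6) .nil))))))))) .leaf) (nat_lit 15367) (nat_lit 166) (.p (nat_lit 105) (nat_lit 6) (.n (nat_lit 106) (nat_lit 18) (.p (nat_lit 107) (nat_lit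 6) (.p (nat_lit 109) (nat_lit 6) (.p (nat_lit 110) (nat_lit 6) .z))))) (.ct dW2x_c35 (nat_lit 6) (nat_lit 0) (.s true (nat_lit 1) (nat_lit 7) (nat_lit 1) (nat_lit 1) (nat_lit 2) true (nat_lit 1) true (nat_lit 3) true (nat_lit 0) true (nat_lit 4) true (nat_lit 4) (.e true (nat_lit 6) (nat_lit 20) (nat_lit 6) (nat_lit 1) (.e false (nat_lit 6) (nat_lit 44) (nat_lit 2) (nat_lit 3) (.e true (nat_lit 6) (nat_lit 45) (nat_lit 2) (nat_lit 3) (.e true (nat_lit 6) (nat_lit 46) (nat_lit 2) (nat_lit 3) (.e false (nat_lit 6) (nat_lit 51) (nat_lit 1) (nat_lit 4) .nil))))))) .leaf) (nat_lit 15371) (nat_lit 236) (.p (nat_lit 111) (nat_lit 42) (.n (nat_lit 113) (nat_lit 12) (.p (nat_lit 114) (nat_lit 36) (.p (nat_lit 115) (nat_lit 48) (.p (nat_lit 116) (nat_lit 63) (.p (nat_lit 117) (nat_lit 39) (.n (nat_lit 118) (nat_lit 123) (.n (nat_lit 119) (nat_lit 111) (.n (nat_lit 120) (nat_lit 102) (.p (nat_lit 121)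 (nat_lit 18) (.p (nat_lit 122) (nat_lit 12) (.n (nat_lit 123) (nat_lit 12) (.p (nat_lit 124) (nat_lit 45) (.n (nat_lit 125) (nat_lit 45) (.p (nat_lit 126) (nat_lit 21) (.n (nat_lit 127) (nat_lit 12) (.p (nat_lit 128) (nat_lit 3) (.n (nat_lit 129) (nat_lit 12) (.p (nat_lit 130) (nat_lit 6) (.n (nat_lit 131) (nat_lit 30) (.p (nat_lit 132) (nat_lit 42) (.n (nat_lit 133) (nat_lit 36) (.p (nat_lit 134) (nat_lit 18) (.p (nat_lit 136) (nat_lit 30) (.p (nat_lit 137) (nat_lit 24) .z))))))))))))))))))))))))) (.ct dW2x_c546 (nat_lit 6) (nat_lit 1) (.s false (nat_lit 1) (nat_lit 15) (nat_lit 2) (nat_lit 0) (nat_lit 0) true (nat_lit 6) true (nat_lit 11) false (nat_lit 1) true (nat_lit 9) true (nat_lit 11) (.e true (nat_lit 6) (nat_lit 34) (nat_lit 5) (nat_lit 6) (.e false (nat_lit 6) (nat_lit 85) (nat_lit 0) (nat_lit 11) (.e true (nat_lit 6) (nat_lit 79) (nat_lit 0) (nat_lit 11) .nil))))) (.nd .leaf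 (nat_lit 16384) (nat_lit 36) (.n (nat_lit 29) (nat_lit 6) (.n (nat_lit 30) (nat_lit 6) (.n (nat_lit 31) (nat_lit 6) (.p (nat_lit 32) (nat_lit 12) (.p (nat_lit 33) (nat_lit 6) (.p (nat_lit 34) (nat_lit 6) .z)))))) (.ct dW2x_c289 (nat_lit 6) (nat_lit 4) (.s true (nat_lit 1) (nat_lit 2) (nat_lit 1) (nat_lit 1) (nat_lit 0) true (nat_lit 1) true (nat_lit 4) true (nat_lit 2) true (nat_lit 3) true (nat_lit 3) (.e true (nat_lit 6) (nat_lit 6) (nat_lit 3) (nat_lit 1) (.e true (nat_lit 6) (nat_lit 10) (nat_lit 2) (nat_lit 2) (.e true (nat_lit 6) (nat_lit 12) (nat_lit 1) (nat_lit 3) (.e false (nat_lit 6) (nat_lit 13) (nat_lit 1) (nat_lit 3) .nil)))))) .leaf))) (nat_lit 16386) (nat_lit 52) (.p (nat_lit 45) (nat_lit 6) .z) .df (.nd (.nd (.nd (.nd .leaf (nat_lit 16389) (nat_lit 127) (.p (nat_lit 76) (nat_lit 6) (.n (nat_lit 77) (nat_lit 6) (.n (nat_lit 78) (nat_lit 12) (.n (nat_lit 79) (nat_lit 6) (.n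 (nat_lit 80) (nat_lit 6) (.p (nat_lit 83) (nat_lit 6) (.p (nat_lit 84) (nat_lit 6) (.n (nat_lit 86) (nat_lit 6) (.p (nat_lit 87) (nat_lit 6) (.p (nat_lit 88) (nat_lit 6) .z)))))))))) (.ct dW2x_c290 (nat_lit 6) (nat_lit 2) (.s true (nat_lit 1) (nat_lit 6) (nat_lit 0) (nat_lit 1) (nat_lit 2) true (nat_lit 2) true (nat_lit 5) true (nat_lit 1) true (nat_lit 7) true (nat_lit 6) (.e true (nat_lit 6) (nat_lit 33) (nat_lit 2) (nat_lit 5) (.e false (nat_lit 6) (nat_lit 12) (nat_lit 6) (nat_lit 1) (.e true (nat_lit 6) (nat_lit 43) (nat_lit 1) (nat_lit 6) .nil))))) .leaf) (nat_lit 16391) (nat_lit 164) (.p (nat_lit 110) (nat_lit 6) .z) .df .leaf) (nat_lit 16395) (nat_lit 226) (.n (nat_lit 111) (nat_lit 9) (.n (nat_lit 112) (nat_lit 9) (.n (nat_lit 113) (nat_lit 6) (.n (nat_lit 114) (nat_lit 9) (.n (nat_lit 115) (nat_lit 18) (.n (nat_lit 116) (nat_lit 24) (.n (nat_lit 117) (nat_lit 21) (.p (nat_lit 118)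 (nat_lit 45) (.p (nat_lit 119) (nat_lit 45) (.p (nat_lit 120) (nat_lit 39) (.n (nat_lit 121) (nat_lit 12) (.n (nat_lit 122) (nat_lit 12) (.p (nat_lit 123) (nat_lit 3) (.n (nat_lit 124) (nat_lit 21) (.p (nat_lit 125) (nat_lit 12) (.p (nat_lit 127) (nat_lit 9) (.p (nat_lit 128) (nat_lit 3) (.p (nat_lit 129) (nat_lit 9) (.p (nat_lit 131) (nat_lit 9) (.n (nat_lit 132) (nat_lit 15) (.p (nat_lit 133) (nat_lit 15) (.n (nat_lit 134) (nat_lit 9) (.p (nat_lit 135) (nat_lit 3) (.n (nat_lit 136) (nat_lit 9) (.n (nat_lit 137) (nat_lit 6) .z))))))))))))))))))))))))) (.ct dW2x_c546 (nat_lit 6) (nat_lit 1) (.s false (nat_lit 1) (nat_lit 11) (nat_lit 1) (nat_lit 2) (nat_lit 1) true (nat_lit 7) true (nat_lit 10) true (nat_lit 1) true (nat_lit 10) true (nat_lit 9) (.e false (nat_lit 6) (nat_lit 35) (nat_lit 4) (nat_lit 7) (.e false (nat_lit 6) (nat_lit 64) (nat_lit 1) (nat_lit 10) (.e false (nat_lit 6) (nat_lit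 66) (nat_lit 1) (nat_lit 10) (.e false (nat_lit 6) (nat_lit 69) (nat_lit 1) (nat_lit 10) (.e true (nat_lit 6) (nat_lit 70) (nat_lit 1) (nat_lit 10) (.e true (nat_lit 6) (nat_lit 71) (nat_lit 1) (nat_lit 10) (.e true (nat_lit 6) (nat_lit 73) (nat_lit 1) (nat_lit 10) (.e true (nat_lit 6) (nat_lit 74) (nat_lit 1) (nat_lit 10) (.e true (nat_lit 6) (nat_lit 55) (nat_lit 2) (nat_lit 9) .nil))))))))))) (.nd (.nd .leaf (nat_lit 17408) (nat_lit 39) (.p (nat_lit 36) (nat_lit 6) .z) .df .leaf) (nat_lit 17409) (nat_lit 45) (.p (nat_lit 41) (nat_lit 6) .z) .df .leaf)) (nat_lit 17410) (nat_lit 56) (.p (nat_lit 47) (nat_lit 6) .z) .df (.nd (.nd (.nd .leaf (nat_lit 17411) (nat_lit 95) (.n (nat_lit 64) (nat_lit 6) (.n (nat_lit 65) (nat_lit 12) (.p (nat_lit 66) (nat_lit 6) (.n (nat_lit 68) (nat_lit 6) (.n (nat_lit 69) (nat_lit 6) (.n (nat_lit 70) (nat_lit 6) (.p (nat_lit 71) (nat_lit 6) (.p (nat_lit 72) (nat_lit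 6) (.p (nat_lit 73) (nat_lit 6) (.p (nat_lit 74) (nat_lit 6) .z)))))))))) (.ct dW2x_c530 (nat_lit 6) (nat_lit 3) (.s true (nat_lit 1) (nat_lit 3) (nat_lit 2) (nat_lit 0) (nat_lit 2) true (nat_lit 0) true (nat_lit 4) true (nat_lit 3) true (nat_lit 4) true (nat_lit 6) (.s false (nat_lit 1) (nat_lit 7) (nat_lit 0) (nat_lit 1) (nat_lit 0) false (nat_lit 7) true (nat_lit 6) true (nat_lit 0) true (nat_lit 6) true (nat_lit 5) (.e true (nat_lit 12) (nat_lit 27) (nat_lit 2) (nat_lit 4) (.e true (nat_lit 6) (nat_lit 26) (nat_lit 2) (nat_lit 4) (.e false (nat_lit 6) (nat_lit 28) (nat_lit 2) (nat_lit 4) (.e true (nat_lit 6) (nat_lit 38) (nat_lit 0) (nat_lit 6) (.e false (nat_lit 6) (nat_lit 42) (nat_lit 0) (nat_lit 6) (.e true (nat_lit 6) (nat_lit 39) (nat_lit 0) (nat_lit 6) (.e false (nat_lit 6) (nat_lit 40) (nat_lit 0) (nat_lit 6) (.e false (nat_lit 6) (nat_lit 41) (nat_lit 0) (nat_lit 6) (.e false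 (nat_lit 6) (nat_lit 43) (nat_lit 0) (nat_lit 6) (.e true (nat_lit 6) (nat_lit 37) (nat_lit 1) (nat_lit 5) .nil))))))))))))) .leaf) (nat_lit 17412) (nat_lit 125) (.p (nat_lit 77) (nat_lit 6) (.n (nat_lit 78) (nat_lit 6) (.n (nat_lit 80) (nat_lit 6) (.p (nat_lit 84) (nat_lit 6) (.p (nat_lit 88) (nat_lit 6) .z))))) (.ct dW2x_c290 (nat_lit 6) (nat_lit 3) (.s false (nat_lit 1) (nat_lit 4) (nat_lit 0) (nat_lit 2) (nat_lit 2) true (nat_lit 2) true (nat_lit 5) true (nat_lit 3) true (nat_lit 7) true (nat_lit 5) (.e false (nat_lit 6) (nat_lit 15) (nat_lit 5) (nat_lit 2) (.e false (nat_lit 6) (nat_lit 30) (nat_lit 2) (nat_lit 5) (.e false (nat_lit 12) (nat_lit 45) (nat_lit 0) (nat_lit 7) (.e true (nat_lit 12) (nat_lit 46) (nat_lit 0) (nat_lit 7) (.e false (nat_lit 6) (nat_lit 34) (nat_lit 2) (nat_lit 5) .nil))))))) .leaf) (nat_lit 17413) (nat_lit 138) (.p (nat_lit 89) (nat_lit 6) (.n (nat_lit 91)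 (nat_lit 6) (.n (nat_lit 93) (nat_lit 6) .z))) (.ct dW2x_c515 (nat_lit 6) (nat_lit 1) (.s true (nat_lit 1) (nat_lit 5) (nat_lit 2) (nat_lit 0) (nat_lit 2) true (nat_lit 0) true (nat_lit 2) true (nat_lit 1) true (nat_lit 2) true (nat_lit 3) (.e false (nat_lit 6) (nat_lit 11) (nat_lit 7) (nat_lit 0) (.e true (nat_lit 12) (nat_lit 36) (nat_lit 2) (nat_lit 2) (.e true (nat_lit 6) (nat_lit 35) (nat_lit 2) (nat_lit 2) (.e false (nat_lit 6) (nat_lit 37) (nat_lit 2) (nat_lit 2) (.e true (nat_lit 6) (nat_lit 47) (nat_lit 0) (nat_lit 3) .nil))))))) (.nd .leaf (nat_lit 17414) (nat_lit 149) (.p (nat_lit 104) (nat_lit 6) .z) .df .leaf))))))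

noncomputable def dW2x_t1 : Tr := (.nd (.nd (.nd (.nd (.nd (.nd (.nd .leaf (nat_lit 17418) (nat_lit 229) (.n (nat_lit 111) (nat_lit 27) (.p (nat_lit 112) (nat_lit 3) (.p (nat_lit 113) (nat_lit 6) (.n (nat_lit 114) (nat_lit 33) (.n (nat_lit 115) (nat_lit 36) (.n (nat_lit 116) (nat_lit 45) (.n (nat_lit 117) (nat_lit 33) (.p (nat_lit 118) (nat_lit 93) (.p (nat_lit 119) (nat_lit 81) (.p (nat_lit 120) (nat_lit 75) (.n (nat_lit 121) (nat_lit 6) (.n (nat_lit 122) (nat_lit 12) (.p (nat_lit 123) (nat_lit 3) (.n (nat_lit 124) (nat_lit 30) (.p (nat_lit 125) (nat_lit 21) (.n (nat_lit 126) (nat_lit 21) (.p (nat_lit 127) (nat_lit 9) (.n (nat_lit 128) (nat_lit 3) (.p (nat_lit 129) (nat_lit 9) (.p (nat_lit 130) (nat_lit 6) (.p (nat_lit 131) (nat_lit 24) (.n (nat_lit 132) (nat_lit 24) (.p (nat_lit 133) (nat_lit 30) (.n (nat_lit 134) (nat_lit 12) (.n (nat_lit 135) (nat_lit 3) (.n (nat_lit 136) (nat_lit 27)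 (.n (nat_lit 137) (nat_lit 12) .z))))))))))))))))))))))))))) (.ct dW2x_c546 (nat_lit 6) (nat_lit 2) (.s false (nat_lit 1) (nat_lit 17) (nat_lit 1) (nat_lit 1) (nat_lit 0) true (nat_lit 8) true (nat_lit 11) false (nat_lit 2) true (nat_lit 10) true (nat_lit 10) (.e false (nat_lit 6) (nat_lit 41) (nat_lit 3) (nat_lit 8) (.e false (nat_lit 6) (nat_lit 83) (nat_lit 0) (nat_lit 11) (.e false (nat_lit 6) (nat_lit 64) (nat_lit 1) (nat_lit 10) (.e false (nat_lit 6) (nat_lit 66) (nat_lit 1) (nat_lit 10) (.e true (nat_lit 6) (nat_lit 68) (nat_lit 1) (nat_lit 10) (.e false (nat_lit 6) (nat_lit 69) (nat_lit 1) (nat_lit 10) (.e true (nat_lit 12) (nat_lit 70) (nat_lit 1) (nat_lit 10) (.e true (nat_lit 6) (nat_lit 73) (nat_lit 1) (nat_lit 10) (.e true (nat_lit 12) (nat_lit 74) (nat_lit 1) (nat_lit 10) (.e false (nat_lit 6) (nat_lit 67) (nat_lit 1) (nat_lit 10) .nil)))))))))))) .leaf) (nat_lit 17420) (nat_lit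 285) (.n (nat_lit 138) (nat_lit 18) (.n (nat_lit 140) (nat_lit 12) (.n (nat_lit 141) (nat_lit 33) (.p (nat_lit 142) (nat_lit 9) (.n (nat_lit 143) (nat_lit 9) (.p (nat_lit 144) (nat_lit 24) (.p (nat_lit 145) (nat_lit 12) (.p (nat_lit 146) (nat_lit 42) (.p (nat_lit 147) (nat_lit 6) (.n (nat_lit 148) (nat_lit 6) (.n (nat_lit 149) (nat_lit 9) (.n (nat_lit 150) (nat_lit 12) (.n (nat_lit 151) (nat_lit 15) (.p (nat_lit 152) (nat_lit 3) (.p (nat_lit 153) (nat_lit 15) (.p (nat_lit 154) (nat_lit 18) (.p (nat_lit 155) (nat_lit 3) (.p (nat_lit 156) (nat_lit 18) (.p (nat_lit 157) (nat_lit 6) (.p (nat_lit 158) (nat_lit 12) .z)))))))))))))))))))) (.ct dW2x_c531 (nat_lit 6) (nat_lit 0) (.s false (nat_lit 1) (nat_lit 12) (nat_lit 0) (nat_lit 2) (nat_lit 2) true (nat_lit 5) true (nat_lit 7) true (nat_lit 0) true (nat_lit 9) true (nat_lit 7) (.e false (nat_lit 6) (nat_lit 38) (nat_lit 5) (nat_lit 5) (.e false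 (nat_lit 6) (nat_lit 65) (nat_lit 2) (nat_lit 7) (.e true (nat_lit 6) (nat_lit 103) (nat_lit 0) (nat_lit 9) (.e false (nat_lit 6) (nat_lit 69) (nat_lit 2) (nat_lit 7) .nil)))))) .leaf) (nat_lit 17421) (nat_lit 271) (.n (nat_lit 138) (nat_lit 102) (.n (nat_lit 139) (nat_lit 12) (.n (nat_lit 140) (nat_lit 45) (.n (nat_lit 141) (nat_lit 162) (.p (nat_lit 142) (nat_lit 72) (.n (nat_lit 143) (nat_lit 48) (.p (nat_lit 144) (nat_lit 90) (.p (nat_lit 145) (nat_lit 69) (.p (nat_lit 146) (nat_lit 210) (.p (nat_lit 147) (nat_lit 42) (.n (nat_lit 148) (nat_lit 21) (.n (nat_lit 149) (nat_lit 51) (.n (nat_lit 150) (nat_lit 72) (.n (nat_lit 151) (nat_lit 48) (.p (nat_lit 152) (nat_lit 6) (.p (nat_lit 153) (nat_lit 72) (.p (nat_lit 154) (nat_lit 72) (.p (nat_lit 155) (nat_lit 15) (.p (nat_lit 156) (nat_lit 78) (.p (nat_lit 157) (nat_lit 21) (.p (nat_lit 158) (nat_lit 60) .z))))))))))))))))))))) (.ct dW2x_c531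 (nat_lit 6) (nat_lit 0) (.s false (nat_lit 1) (nat_lit 5) (nat_lit 2) (nat_lit 1) (nat_lit 5) false (nat_lit 0) true (nat_lit 5) true (nat_lit 5) true (nat_lit 7) true (nat_lit 8) (.e false (nat_lit 6) (nat_lit 41) (nat_lit 5) (nat_lit 5) (.e true (nat_lit 6) (nat_lit 38) (nat_lit 5) (nat_lit 5) (.e false (nat_lit 6) (nat_lit 39) (nat_lit 5) (nat_lit 5) (.e false (nat_lit 6) (nat_lit 42) (nat_lit 5) (nat_lit 5) (.e false (nat_lit 6) (nat_lit 43) (nat_lit 5) (nat_lit 5) (.e false (nat_lit 6) (nat_lit 64) (nat_lit 2) (nat_lit 7) (.e false (nat_lit 6) (nat_lit 65) (nat_lit 2) (nat_lit 7) (.e false (nat_lit 6) (nat_lit 67) (nat_lit 2) (nat_lit 7) (.e false (nat_lit 6) (nat_lit 69) (nat_lit 2) (nat_lit 7) (.e true (nat_lit 6) (nat_lit 70) (nat_lit 2) (nat_lit 7) (.e true (nat_lit 6) (nat_lit 72) (nat_lit 2) (nat_lit 7) (.e true (nat_lit 6) (nat_lit 73) (nat_lit 2) (nat_lit 7) (.e true (nat_lit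 12) (nat_lit 74) (nat_lit 2) (nat_lit 7) (.e false (nat_lit 6) (nat_lit 92) (nat_lit 1) (nat_lit 8) (.e false (nat_lit 6) (nat_lit 93) (nat_lit 1) (nat_lit 8) (.e true (nat_lit 6) (nat_lit 90) (nat_lit 1) (nat_lit 8) .nil)))))))))))))))))) (.nd (.nd .leaf (nat_lit 17422) (nat_lit 280) (.n (nat_lit 138) (nat_lit 96) (.n (nat_lit 139) (nat_lit 30) (.n (nat_lit 140) (nat_lit 36) (.n (nat_lit 141) (nat_lit 192) (.p (nat_lit 142) (nat_lit 102) (.n (nat_lit 143) (nat_lit 42) (.p (nat_lit 144) (nat_lit 102) (.p (nat_lit 145) (nat_lit 96) (.p (nat_lit 146) (nat_lit 234) (.p (nat_lit 147) (nat_lit 42) (.n (nat_lit 149) (nat_lit 72) (.n (nat_lit 150) (nat_lit 102) (.n (nat_lit 151) (nat_lit 24) (.n (nat_lit 152) (nat_lit 30) (.p (nat_lit 153) (nat_lit 66) (.p (nat_lit 154) (nat_lit 78) (.n (nat_lit 155) (nat_lit 18) (.p (nat_lit 156) (nat_lit 54) (.p (nat_lit 157) (nat_lit 24) (.p (nat_lit 158) (nat_lit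 54) .z)))))))))))))))))))) (.ct dW2x_c531 (nat_lit 6) (nat_lit 0) (.s true (nat_lit 1) (nat_lit 14) (nat_lit 2) (nat_lit 0) (nat_lit 2) true (nat_lit 3) true (nat_lit 7) true (nat_lit 0) true (nat_lit 7) true (nat_lit 9) (.e false (nat_lit 6) (nat_lit 28) (nat_lit 7) (nat_lit 3) (.e true (nat_lit 6) (nat_lit 71) (nat_lit 2) (nat_lit 7) (.e true (nat_lit 6) (nat_lit 66) (nat_lit 2) (nat_lit 7) (.e true (nat_lit 6) (nat_lit 69) (nat_lit 2) (nat_lit 7) (.e false (nat_lit 6) (nat_lit 70) (nat_lit 2) (nat_lit 7) (.e false (nat_lit 6) (nat_lit 73) (nat_lit 2) (nat_lit 7) (.e false (nat_lit 12) (nat_lit 74) (nat_lit 2) (nat_lit 7) (.e true (nat_lit 6) (nat_lit 96) (nat_lit 0) (nat_lit 9) .nil)))))))))) .leaf) (nat_lit 17423) (nat_lit 341) (.n (nat_lit 159) (nat_lit 2) (.p (nat_lit 160) (nat_lit 2) (.p (nat_lit 161) (nat_lit 2) (.p (nat_lit 163) (nat_lit 2) (.n (nat_lit 164) (nat_lit 4) (.n (nat_lit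 165) (nat_lit 8) (.p (nat_lit 166) (nat_lit 4) (.n (nat_lit 167) (nat_lit 2) (.n (nat_lit 168) (nat_lit 4) (.n (nat_lit 170) (nat_lit 4) (.p (nat_lit 171) (nat_lit 2) (.p (nat_lit 172) (nat_lit 6) (.n (nat_lit 173) (nat_lit 6) (.n (nat_lit 176) (nat_lit 2) (.p (nat_lit 180) (nat_lit 4) (.n (nat_lit 181) (nat_lit 6) (.p (nat_lit 182) (nat_lit 4) (.n (nat_lit 183) (nat_lit 4) .z)))))))))))))))))) (.ct dW2x_c291 (nat_lit 6) (nat_lit 0) (.s false (nat_lit 1) (nat_lit 15) (nat_lit 0) (nat_lit 2) (nat_lit 2) true (nat_lit 5) true (nat_lit 8) true (nat_lit 0) true (nat_lit 10) true (nat_lit 8) (.e false (nat_lit 6) (nat_lit 44) (nat_lit 5) (nat_lit 5) (.e false (nat_lit 6) (nat_lit 79) (nat_lit 2) (nat_lit 8) (.e true (nat_lit 6) (nat_lit 105) (nat_lit 0) (nat_lit 10) (.e false (nat_lit 18) (nat_lit 106) (nat_lit 0) (nat_lit 10) (.e true (nat_lit 6) (nat_lit 107) (nat_lit 0) (nat_lit 10) (.e true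 (nat_lit 6) (nat_lit 109) (nat_lit 0) (nat_lit 10) (.e true (nat_lit 6) (nat_lit 110) (nat_lit 0) (nat_lit 10) (.e false (nat_lit 6) (nat_lit 85) (nat_lit 2) (nat_lit 8) .nil)))))))))) .leaf)) (nat_lit 17424) (nat_lit 335) (.p (nat_lit 159) (nat_lit 5) (.n (nat_lit 160) (nat_lit 38) (.n (nat_lit 161) (nat_lit 44) (.n (nat_lit 162) (nat_lit 27) (.p (nat_lit 163) (nat_lit 40) (.p (nat_lit 164) (nat_lit 13) (.n (nat_lit 165) (nat_lit 22) (.p (nat_lit 166) (nat_lit 17) (.n (nat_lit 167) (nat_lit 7) (.p (nat_lit 168) (nat_lit 22) (.n (nat_lit 169) (nat_lit 9) (.p (nat_lit 170) (nat_lit 10) (.p (nat_lit 171) (nat_lit 10) (.p (nat_lit 172) (nat_lit 27) (.p (nat_lit 173) (nat_lit 6) (.p (nat_lit 174) (nat_lit 18) (.n (nat_lit 175) (nat_lit 42) (.p (nat_lit 176) (nat_lit 11) (.n (nat_lit 177) (nat_lit 6) (.n (nat_lit 178) (nat_lit 6) (.p (nat_lit 179) (nat_lit 6) (.p (nat_lit 180) (nat_lit 5) (.n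 (nat_lit 181) (nat_lit 27) (.p (nat_lit 182) (nat_lit 8) (.n (nat_lit 183) (nat_lit 8) (.p (nat_lit 184) (nat_lit 6) .z)))))))))))))))))))))))))) (.ct dW2x_c291 (nat_lit 6) (nat_lit 0) (.s false (nat_lit 1) (nat_lit 17) (nat_lit 2) (nat_lit 1) (nat_lit 1) true (nat_lit 4) true (nat_lit 9) false (nat_lit 0) true (nat_lit 8) true (nat_lit 9) (.e false (nat_lit 6) (nat_lit 41) (nat_lit 6) (nat_lit 4) (.e true (nat_lit 6) (nat_lit 94) (nat_lit 1) (nat_lit 9) (.e false (nat_lit 6) (nat_lit 95) (nat_lit 1) (nat_lit 9) (.e true (nat_lit 6) (nat_lit 96) (nat_lit 1) (nat_lit 9) (.e false (nat_lit 6) (nat_lit 100) (nat_lit 1) (nat_lit 9) (.e false (nat_lit 6) (nat_lit 103) (nat_lit 1) (nat_lit 9) (.e true (nat_lit 6) (nat_lit 104) (nat_lit 1) (nat_lit 9) (.e true (nat_lit 6) (nat_lit 77) (nat_lit 2) (nat_lit 8) (.e false (nat_lit 6) (nat_lit 78) (nat_lit 2) (nat_lit 8) (.e false (nat_lit 6) (nat_lit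 80) (nat_lit 2) (nat_lit 8) (.e true (nat_lit 6) (nat_lit 84) (nat_lit 2) (nat_lit 8) (.e true (nat_lit 6) (nat_lit 88) (nat_lit 2) (nat_lit 8) .nil)))))))))))))) (.nd (.nd (.nd .leaf (nat_lit 18432) (nat_lit 40) (.p (nat_lit 37) (nat_lit 6) .z) .df .leaf) (nat_lit 18433) (nat_lit 46) (.p (nat_lit 42) (nat_lit 6) .z) .df .leaf) (nat_lit 18434) (nat_lit 57) (.p (nat_lit 48) (nat_lit 6) .z) .df (.nd .leaf (nat_lit 18435) (nat_lit 102) (.n (nat_lit 68) (nat_lit 6) (.n (nat_lit 69) (nat_lit 12) (.p (nat_lit 72) (nat_lit 12) (.p (nat_lit 73) (nat_lit 6) (.p (nat_lit 74) (nat_lit 12) .z))))) (.ct dW2x_c530 (nat_lit 6) (nat_lit 3) (.s true (nat_lit 1) (nat_lit 7) (nat_lit 0) (nat_lit 0) (nat_lit 1) true (nat_lit 3) true (nat_lit 5) true (nat_lit 0) true (nat_lit 6) true (nat_lit 6) (.e true (nat_lit 6) (nat_lit 37) (nat_lit 1) (nat_lit 5) (.e false (nat_lit 12) (nat_lit 41) (nat_lit 0) (nat_lit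 6) (.e false (nat_lit 12) (nat_lit 43) (nat_lit 0) (nat_lit 6) (.e true (nat_lit 12) (nat_lit 38) (nat_lit 0) (nat_lit 6) (.e false (nat_lit 6) (nat_lit 42) (nat_lit 0) (nat_lit 6) .nil))))))) .leaf))) (nat_lit 18436) (nat_lit 129) (.n (nat_lit 76) (nat_lit 18) (.p (nat_lit 77) (nat_lit 12) (.p (nat_lit 78) (nat_lit 12) (.p (nat_lit 79) (nat_lit 12) (.p (nat_lit 81) (nat_lit 6) (.n (nat_lit 82) (nat_lit 6) (.n (nat_lit 85) (nat_lit 6) (.p (nat_lit 86) (nat_lit 12) (.p (nat_lit 88) (nat_lit 6) .z))))))))) (.ct dW2x_c290 (nat_lit 6) (nat_lit 3) (.s true (nat_lit 1) (nat_lit 4) (nat_lit 2) (nat_lit 2) (nat_lit 0) true (nat_lit 2) true (nat_lit 7) true (nat_lit 3) true (nat_lit 5) true (nat_lit 5) (.e true (nat_lit 6) (nat_lit 15) (nat_lit 5) (nat_lit 2) (.e true (nat_lit 6) (nat_lit 44) (nat_lit 0) (nat_lit 7) (.e true (nat_lit 12) (nat_lit 31) (nat_lit 2) (nat_lit 5) (.e false (nat_lit 12)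 (nat_lit 32) (nat_lit 2) (nat_lit 5) (.e false (nat_lit 12) (nat_lit 33) (nat_lit 2) (nat_lit 5) (.e false (nat_lit 6) (nat_lit 34) (nat_lit 2) (nat_lit 5) .nil)))))))) (.nd (.nd (.nd (.nd .leaf (nat_lit 18437) (nat_lit 136) (.n (nat_lit 90) (nat_lit 6) (.p (nat_lit 92) (nat_lit 6) (.p (nat_lit 93) (nat_lit 12) .z))) (.ct dW2x_c515 (nat_lit 6) (nat_lit 1) (.s true (nat_lit 1) (nat_lit 7) (nat_lit 0) (nat_lit 0) (nat_lit 2) true (nat_lit 1) true (nat_lit 2) true (nat_lit 0) true (nat_lit 3) true (nat_lit 3) (.e true (nat_lit 6) (nat_lit 37) (nat_lit 2) (nat_lit 2) (.e false (nat_lit 6) (nat_lit 48) (nat_lit 0) (nat_lit 3) (.e false (nat_lit 12) (nat_lit 49) (nat_lit 0) (nat_lit 3) .nil))))) .leaf) (nat_lit 18438) (nat_lit 154) (.n (nat_lit 94) (nat_lit 12) (.p (nat_lit 95) (nat_lit 12) (.p (nat_lit 98) (nat_lit 6) (.p (nat_lit 99) (nat_lit 12) (.p (nat_lit 102) (nat_lit 6) (.p (nat_lit 103)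 (nat_lit 6) .z)))))) (.ct dW2x_c275 (nat_lit 6) (nat_lit 1) (.s false (nat_lit 1) (nat_lit 7) (nat_lit 2) (nat_lit 0) (nat_lit 1) true (nat_lit 1) true (nat_lit 5) true (nat_lit 0) true (nat_lit 4) true (nat_lit 6) (.e false (nat_lit 6) (nat_lit 49) (nat_lit 1) (nat_lit 5) (.e false (nat_lit 6) (nat_lit 13) (nat_lit 7) (nat_lit 0) (.e true (nat_lit 6) (nat_lit 39) (nat_lit 2) (nat_lit 4) (.e false (nat_lit 6) (nat_lit 40) (nat_lit 2) (nat_lit 4) (.e false (nat_lit 6) (nat_lit 41) (nat_lit 2) (nat_lit 4) (.e false (nat_lit 6) (nat_lit 43) (nat_lit 2) (nat_lit 4) (.e false (nat_lit 6) (nat_lit 51) (nat_lit 0) (nat_lit 6) .nil))))))))) .leaf) (nat_lit 18441) (nat_lit 233) (.n (nat_lit 111) (nat_lit 3) (.n (nat_lit 112) (nat_lit 9) (.n (nat_lit 113) (nat_lit 18) (.n (nat_lit 114) (nat_lit 21) (.n (nat_lit 115) (nat_lit 12) (.n (nat_lit 116) (nat_lit 15) (.n (nat_lit 117) (nat_lit 15) (.p (nat_lit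 118) (nat_lit 27) (.p (nat_lit 119) (nat_lit 39) (.p (nat_lit 120) (nat_lit 27) (.n (nat_lit 121) (nat_lit 18) (.n (nat_lit 122) (nat_lit 36) (.n (nat_lit 123) (nat_lit 9) (.n (nat_lit 124) (nat_lit 30) (.n (nat_lit 125) (nat_lit 3) (.p (nat_lit 126) (nat_lit 3) (.p (nat_lit 127) (nat_lit 21) (.p (nat_lit 128) (nat_lit 9) (.p (nat_lit 129) (nat_lit 21) (.p (nat_lit 130) (nat_lit 18) (.p (nat_lit 131) (nat_lit 18) (.n (nat_lit 132) (nat_lit 6) (.p (nat_lit 133) (nat_lit 24) (.n (nat_lit 134) (nat_lit 6) (.n (nat_lit 135) (nat_lit 3) (.n (nat_lit 136) (nat_lit 15) .z)))))))))))))))))))))))))) (.ct dW2x_c546 (nat_lit 6) (nat_lit 2) (.s false (nat_lit 1) (nat_lit 18) (nat_lit 1) (nat_lit 0) (nat_lit 1) true (nat_lit 7) true (nat_lit 10) false (nat_lit 2) true (nat_lit 10) true (nat_lit 11) (.e true (nat_lit 6) (nat_lit 37) (nat_lit 4) (nat_lit 7) (.e false (nat_lit 6) (nat_lit 68) (nat_lit 1)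 (nat_lit 10) (.e false (nat_lit 12) (nat_lit 69) (nat_lit 1) (nat_lit 10) (.e true (nat_lit 12) (nat_lit 72) (nat_lit 1) (nat_lit 10) (.e true (nat_lit 12) (nat_lit 74) (nat_lit 1) (nat_lit 10) (.e false (nat_lit 6) (nat_lit 84) (nat_lit 0) (nat_lit 11) .nil)))))))) (.nd (.nd .leaf (nat_lit 18442) (nat_lit 234) (.p (nat_lit 111) (nat_lit 6) (.n (nat_lit 112) (nat_lit 18) (.n (nat_lit 113) (nat_lit 12) (.p (nat_lit 114) (nat_lit 6) (.n (nat_lit 117) (nat_lit 12) (.p (nat_lit 118) (nat_lit 12) (.p (nat_lit 119) (nat_lit 12) (.p (nat_lit 120) (nat_lit 6) (.n (nat_lit 123) (nat_lit 6) (.n (nat_lit 124) (nat_lit 6) (.p (nat_lit 127) (nat_lit 6) (.p (nat_lit 129) (nat_lit 6) (.p (nat_lit 135) (nat_lit 6) (.n (nat_lit 136) (nat_lit 6) .z)))))))))))))) (.ct dW2x_c546 (nat_lit 6) (nat_lit 2) (.s false (nat_lit 1) (nat_lit 18) (nat_lit 1) (nat_lit 1) (nat_lit 0) true (nat_lit 8) true (nat_lit 11)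 false (nat_lit 2) true (nat_lit 10) true (nat_lit 10) (.e false (nat_lit 6) (nat_lit 42) (nat_lit 3) (nat_lit 8) (.e false (nat_lit 6) (nat_lit 84) (nat_lit 0) (nat_lit 11) (.e true (nat_lit 12) (nat_lit 68) (nat_lit 1) (nat_lit 10) (.e true (nat_lit 12) (nat_lit 69) (nat_lit 1) (nat_lit 10) (.e false (nat_lit 12) (nat_lit 72) (nat_lit 1) (nat_lit 10) (.e false (nat_lit 6) (nat_lit 73) (nat_lit 1) (nat_lit 10) (.e false (nat_lit 12) (nat_lit 74) (nat_lit 1) (nat_lit 10) .nil))))))))) .leaf) (nat_lit 18445) (nat_lit 282) (.n (nat_lit 138) (nat_lit 102) (.n (nat_lit 139) (nat_lit 30) (.n (nat_lit 140) (nat_lit 36) (.n (nat_lit 141) (nat_lit 186) (.p (nat_lit 142) (nat_lit 102) (.n (nat_lit 143) (nat_lit 42) (.p (nat_lit 144) (nat_lit 96) (.p (nat_lit 145) (nat_lit 90) (.p (nat_lit 146) (nat_lit 228) (.p (nat_lit 147) (nat_lit 42) (.n (nat_lit 148) (nat_lit 6) (.n (nat_lit 149) (nat_lit 66)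 (.n (nat_lit 150) (nat_lit 96) (.n (nat_lit 151) (nat_lit 24) (.n (nat_lit 152) (nat_lit 30) (.p (nat_lit 153) (nat_lit 72) (.p (nat_lit 154) (nat_lit 78) (.n (nat_lit 155) (nat_lit 12) (.p (nat_lit 156) (nat_lit 54) (.p (nat_lit 157) (nat_lit 24) (.p (nat_lit 158) (nat_lit 54) .z))))))))))))))))))))) (.ct dW2x_c531 (nat_lit 6) (nat_lit 0) (.s false (nat_lit 1) (nat_lit 18) (nat_lit 2) (nat_lit 0) (nat_lit 1) true (nat_lit 4) true (nat_lit 8) false (nat_lit 0) true (nat_lit 7) true (nat_lit 9) (.e true (nat_lit 6) (nat_lit 37) (nat_lit 6) (nat_lit 4) (.e false (nat_lit 6) (nat_lit 92) (nat_lit 1) (nat_lit 8) (.e false (nat_lit 6) (nat_lit 68) (nat_lit 2) (nat_lit 7) (.e false (nat_lit 12) (nat_lit 69) (nat_lit 2) (nat_lit 7) (.e true (nat_lit 12) (nat_lit 72) (nat_lit 2) (nat_lit 7) (.e true (nat_lit 6) (nat_lit 73) (nat_lit 2) (nat_lit 7) (.e true (nat_lit 12) (nat_lit 74) (nat_lit 2) (nat_lit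 7) (.e false (nat_lit 6) (nat_lit 98) (nat_lit 0) (nat_lit 9) .nil)))))))))) .leaf)) (nat_lit 18447) (nat_lit 345) (.p (nat_lit 159) (nat_lit 4) (.n (nat_lit 160) (nat_lit 4) (.n (nat_lit 161) (nat_lit 4) (.p (nat_lit 162) (nat_lit 12) (.n (nat_lit 163) (nat_lit 4) (.p (nat_lit 164) (nat_lit 8) (.p (nat_lit 165) (nat_lit 16) (.n (nat_lit 166) (nat_lit 8) (.p (nat_lit 167) (nat_lit 4) (.p (nat_lit 168) (nat_lit 8) (.p (nat_lit 170) (nat_lit 8) (.n (nat_lit 171) (nat_lit 4) (.n (nat_lit 172) (nat_lit 12) (.n (nat_lit 173) (nat_lit 6) (.p (nat_lit 174) (nat_lit 18) (.n (nat_lit 175) (nat_lit 6) (.p (nat_lit 176) (nat_lit 4) (.n (nat_lit 177) (nat_lit 6) (.n (nat_lit 178) (nat_lit 6) (.n (nat_lit 180) (nat_lit 2) (.p (nat_lit 181) (nat_lit 12) (.n (nat_lit 182) (nat_lit 8) (.p (nat_lit 183) (nat_lit 8) .z))))))))))))))))))))))) (.ct dW2x_c291 (nat_lit 6) (nat_lit 0) (.s true (nat_lit 1) (nat_lit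 15) (nat_lit 2) (nat_lit 2) (nat_lit 0) true (nat_lit 5) true (nat_lit 10) true (nat_lit 0) true (nat_lit 8) true (nat_lit 8) (.e true (nat_lit 6) (nat_lit 44) (nat_lit 5) (nat_lit 5) (.e true (nat_lit 6) (nat_lit 105) (nat_lit 0) (nat_lit 10) (.e true (nat_lit 6) (nat_lit 76) (nat_lit 2) (nat_lit 8) (.e false (nat_lit 12) (nat_lit 79) (nat_lit 2) (nat_lit 8) (.e false (nat_lit 6) (nat_lit 81) (nat_lit 2) (nat_lit 8) (.e true (nat_lit 6) (nat_lit 82) (nat_lit 2) (nat_lit 8) (.e false (nat_lit 12) (nat_lit 86) (nat_lit 2) (nat_lit 8) (.e false (nat_lit 6) (nat_lit 88) (nat_lit 2) (nat_lit 8) .nil)))))))))) (.nd (.nd (.nd .leaf (nat_lit 18448) (nat_lit 344) (.p (nat_lit 159) (nat_lit 16) (.n (nat_lit 160) (nat_lit 16) (.n (nat_lit 161) (nat_lit 16) (.n (nat_lit 162) (nat_lit 18) (.p (nat_lit 163) (nat_lit 8) (.p (nat_lit 164) (nat_lit 2) (.n (nat_lit 165) (nat_lit 8) (.n (nat_lit 166) (nat_lit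 8) (.n (nat_lit 167) (nat_lit 8) (.p (nat_lit 168) (nat_lit 8) (.p (nat_lit 170) (nat_lit 8) (.p (nat_lit 171) (nat_lit 2) (.p (nat_lit 173) (nat_lit 6) (.n (nat_lit 174) (nat_lit 6) (.n (nat_lit 175) (nat_lit 6) (.p (nat_lit 176) (nat_lit 4) (.p (nat_lit 178) (nat_lit 6) (.p (nat_lit 179) (nat_lit 6) (.p (nat_lit 180) (nat_lit 4) (.n (nat_lit 182) (nat_lit 8) (.p (nat_lit 183) (nat_lit 8) .z))))))))))))))))))))) (.ct dW2x_c291 (nat_lit 6) (nat_lit 0) (.s false (nat_lit 1) (nat_lit 18) (nat_lit 1) (nat_lit 2) (nat_lit 1) true (nat_lit 6) true (nat_lit 9) false (nat_lit 0) true (nat_lit 9) true (nat_lit 8) (.e false (nat_lit 6) (nat_lit 48) (nat_lit 4) (nat_lit 6) (.e false (nat_lit 12) (nat_lit 94) (nat_lit 1) (nat_lit 9) (.e true (nat_lit 12) (nat_lit 95) (nat_lit 1) (nat_lit 9) (.e true (nat_lit 12) (nat_lit 99) (nat_lit 1) (nat_lit 9) (.e true (nat_lit 6) (nat_lit 102) (nat_lit 1) (nat_lit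 9) (.e true (nat_lit 6) (nat_lit 103) (nat_lit 1) (nat_lit 9) (.e true (nat_lit 6) (nat_lit 84) (nat_lit 2) (nat_lit 8) .nil))))))))) .leaf) (nat_lit 19456) (nat_lit 47) (.p (nat_lit 43) (nat_lit 6) .z) .df .leaf) (nat_lit 19457) (nat_lit 53) (.p (nat_lit 46) (nat_lit 6) .z) .df (.nd .leaf (nat_lit 19458) (nat_lit 60) (.p (nat_lit 50) (nat_lit 6) .z) .df .leaf)))) (nat_lit 19459) (nat_lit 118) (.p (nat_lit 75) (nat_lit 6) (.n (nat_lit 77) (nat_lit 6) (.n (nat_lit 78) (nat_lit 6) (.n (nat_lit 79) (nat_lit 6) (.n (nat_lit 80) (nat_lit 6) (.p (nat_lit 81) (nat_lit 6) (.n (nat_lit 82) (nat_lit 6) (.p (nat_lit 84) (nat_lit 6) (.n (nat_lit 86) (nat_lit 6) (.p (nat_lit 87) (nat_lit 6) (.p (nat_lit 88) (nat_lit 6) .z))))))))))) (.ct dW2x_c290 (nat_lit 6) (nat_lit 4) (.s true (nat_lit 1) (nat_lit 6) (nat_lit 0) (nat_lit 2) (nat_lit 1) true (nat_lit 4) true (nat_lit 6) true (nat_lit 1) true (nat_lit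 7) true (nat_lit 5) (.s false (nat_lit 1) (nat_lit 6) (nat_lit 1) (nat_lit 0) (nat_lit 2) true (nat_lit 1) true (nat_lit 5) true (nat_lit 1) true (nat_lit 6) true (nat_lit 7) (.s true (nat_lit 1) (nat_lit 6) (nat_lit 2) (nat_lit 0) (nat_lit 1) true (nat_lit 1) true (nat_lit 6) true (nat_lit 1) true (nat_lit 5) true (nat_lit 7) (.e true (nat_lit 6) (nat_lit 40) (nat_lit 1) (nat_lit 6) (.e false (nat_lit 6) (nat_lit 29) (nat_lit 2) (nat_lit 5) (.e true (nat_lit 6) (nat_lit 32) (nat_lit 2) (nat_lit 5) (.e true (nat_lit 6) (nat_lit 33) (nat_lit 2) (nat_lit 5) (.e true (nat_lit 6) (nat_lit 34) (nat_lit 2) (nat_lit 5) (.e false (nat_lit 6) (nat_lit 12) (nat_lit 6) (nat_lit 1) (.e true (nat_lit 6) (nat_lit 38) (nat_lit 1) (nat_lit 6) (.e false (nat_lit 6) (nat_lit 39) (nat_lit 1) (nat_lit 6) (.e false (nat_lit 6) (nat_lit 42) (nat_lit 1) (nat_lit 6) (.e false (nat_lit 6) (nat_lit 46) (nat_lit 0)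 (nat_lit 7) (.e true (nat_lit 6) (nat_lit 45) (nat_lit 0) (nat_lit 7) .nil))))))))))))))) (.nd (.nd (.nd (.nd (.nd .leaf (nat_lit 19461) (nat_lit 153) (.p (nat_lit 95) (nat_lit 6) (.n (nat_lit 97) (nat_lit 6) (.n (nat_lit 100) (nat_lit 6) (.n (nat_lit 101) (nat_lit 6) (.p (nat_lit 104) (nat_lit 6) .z))))) (.ct dW2x_c275 (nat_lit 6) (nat_lit 2) (.s false (nat_lit 1) (nat_lit 5) (nat_lit 1) (nat_lit 2) (nat_lit 2) true (nat_lit 1) true (nat_lit 4) true (nat_lit 2) true (nat_lit 5) true (nat_lit 4) (.e false (nat_lit 6) (nat_lit 17) (nat_lit 6) (nat_lit 1) (.e false (nat_lit 6) (nat_lit 39) (nat_lit 2) (nat_lit 4) (.e true (nat_lit 6) (nat_lit 48) (nat_lit 1) (nat_lit 5) (.e true (nat_lit 6) (nat_lit 49) (nat_lit 1) (nat_lit 5) (.e true (nat_lit 6) (nat_lit 41) (nat_lit 2) (nat_lit 4) .nil))))))) .leaf) (nat_lit 19462) (nat_lit 167) (.n (nat_lit 106) (nat_lit 3) (.p (nat_lit 107) (nat_lit 3)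 (.n (nat_lit 108) (nat_lit 3) (.p (nat_lit 109) (nat_lit 3) .z)))) (.ct dW2x_c35 (nat_lit 12) (nat_lit 1) (.s true (nat_lit 1) (nat_lit 6) (nat_lit 1) (nat_lit 2) (nat_lit 2) true (nat_lit 1) true (nat_lit 3) true (nat_lit 1) true (nat_lit 4) true (nat_lit 3) (.e true (nat_lit 6) (nat_lit 45) (nat_lit 2) (nat_lit 3) (.e true (nat_lit 6) (nat_lit 51) (nat_lit 1) (nat_lit 4) (.e false (nat_lit 6) (nat_lit 52) (nat_lit 1) (nat_lit 4) (.e false (nat_lit 6) (nat_lit 46) (nat_lit 2) (nat_lit 3) .nil)))))) .leaf) (nat_lit 19464) (nat_lit 228) (.n (nat_lit 111) (nat_lit 9) (.p (nat_lit 112) (nat_lit 3) (.p (nat_lit 113) (nat_lit 6) (.n (nat_lit 114) (nat_lit 9) (.n (nat_lit 115) (nat_lit 12) (.n (nat_lit 116) (nat_lit 12) (.n (nat_lit 117) (nat_lit 9) (.p (nat_lit 118) (nat_lit 27) (.p (nat_lit 119) (nat_lit 21) (.p (nat_lit 120) (nat_lit 21) (.p (nat_lit 123) (nat_lit 3) (.n (nat_lit 124) (nat_lit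 3) (.p (nat_lit 125) (nat_lit 6) (.n (nat_lit 126) (nat_lit 6) (.n (nat_lit 127) (nat_lit 3) (.n (nat_lit 128) (nat_lit 3) (.p (nat_lit 129) (nat_lit 3) (.n (nat_lit 131) (nat_lit 3) (.n (nat_lit 132) (nat_lit 3) (.p (nat_lit 133) (nat_lit 3) (.p (nat_lit 134) (nat_lit 3) (.n (nat_lit 135) (nat_lit 3) (.n (nat_lit 136) (nat_lit 3) (.n (nat_lit 137) (nat_lit 6) .z)))))))))))))))))))))))) (.ct dW2x_c546 (nat_lit 6) (nat_lit 3) (.s true (nat_lit 1) (nat_lit 6) (nat_lit 0) (nat_lit 2) (nat_lit 3) true (nat_lit 3) true (nat_lit 8) true (nat_lit 5) true (nat_lit 11) true (nat_lit 9) (.e true (nat_lit 6) (nat_lit 40) (nat_lit 3) (nat_lit 8) (.e true (nat_lit 6) (nat_lit 26) (nat_lit 6) (nat_lit 5) (.e true (nat_lit 6) (nat_lit 27) (nat_lit 6) (nat_lit 5) (.e false (nat_lit 6) (nat_lit 28) (nat_lit 6) (nat_lit 5) (.e true (nat_lit 6) (nat_lit 88) (nat_lit 0) (nat_lit 11) (.e true (nat_lit 6) (nat_lit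 58) (nat_lit 2) (nat_lit 9) (.e false (nat_lit 6) (nat_lit 61) (nat_lit 2) (nat_lit 9) (.e false (nat_lit 6) (nat_lit 62) (nat_lit 2) (nat_lit 9) (.e false (nat_lit 6) (nat_lit 63) (nat_lit 2) (nat_lit 9) .nil))))))))))) (.nd (.nd .leaf (nat_lit 19467) (nat_lit 283) (.n (nat_lit 138) (nat_lit 12) (.n (nat_lit 140) (nat_lit 6) (.n (nat_lit 141) (nat_lit 12) (.p (nat_lit 142) (nat_lit 6) (.n (nat_lit 143) (nat_lit 6) (.p (nat_lit 144) (nat_lit 6) (.p (nat_lit 145) (nat_lit 6) (.p (nat_lit 146) (nat_lit 24) (.n (nat_lit 148) (nat_lit 6) (.p (nat_lit 150) (nat_lit 6) (.n (nat_lit 151) (nat_lit 12) (.p (nat_lit 152) (nat_lit 12) (.p (nat_lit 153) (nat_lit 6) (.p (nat_lit 155) (nat_lit 12) (.p (nat_lit 156) (nat_lit 12) (.p (nat_lit 158) (nat_lit 6) .z)))))))))))))))) (.ct dW2x_c531 (nat_lit 6) (nat_lit 1) (.s false (nat_lit 1) (nat_lit 11) (nat_lit 1) (nat_lit 2) (nat_lit 2) true (nat_lit 4)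 true (nat_lit 7) true (nat_lit 1) true (nat_lit 8) true (nat_lit 7) (.e false (nat_lit 6) (nat_lit 35) (nat_lit 6) (nat_lit 4) (.e false (nat_lit 6) (nat_lit 64) (nat_lit 2) (nat_lit 7) (.e false (nat_lit 6) (nat_lit 90) (nat_lit 1) (nat_lit 8) (.e true (nat_lit 12) (nat_lit 92) (nat_lit 1) (nat_lit 8) (.e true (nat_lit 6) (nat_lit 93) (nat_lit 1) (nat_lit 8) (.e true (nat_lit 6) (nat_lit 67) (nat_lit 2) (nat_lit 7) .nil)))))))) .leaf) (nat_lit 19468) (nat_lit 348) (.n (nat_lit 159) (nat_lit 6) (.p (nat_lit 163) (nat_lit 6) (.p (nat_lit 172) (nat_lit 6) (.n (nat_lit 181) (nat_lit 6) .z)))) (.ct dW2x_c291 (nat_lit 6) (nat_lit 1) (.s true (nat_lit 1) (nat_lit 12) (nat_lit 1) (nat_lit 2) (nat_lit 2) true (nat_lit 4) true (nat_lit 8) true (nat_lit 1) true (nat_lit 9) true (nat_lit 8) (.e true (nat_lit 6) (nat_lit 38) (nat_lit 6) (nat_lit 4) (.e true (nat_lit 6) (nat_lit 76) (nat_lit 2) (nat_lit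 8) (.e false (nat_lit 6) (nat_lit 103) (nat_lit 1) (nat_lit 9) (.e false (nat_lit 6) (nat_lit 80) (nat_lit 2) (nat_lit 8) .nil)))))) .leaf)) (nat_lit 19469) (nat_lit 338) (.p (nat_lit 159) (nat_lit 11) (.n (nat_lit 160) (nat_lit 44) (.n (nat_lit 161) (nat_lit 56) (.n (nat_lit 162) (nat_lit 27) (.p (nat_lit 163) (nat_lit 40) (.p (nat_lit 164) (nat_lit 19) (.n (nat_lit 165) (nat_lit 16) (.p (nat_lit 166) (nat_lit 17) (.n (nat_lit 167) (nat_lit 7) (.p (nat_lit 168) (nat_lit 34) (.n (nat_lit 169) (nat_lit 9) (.p (nat_lit 170) (nat_lit 16) (.p (nat_lit 171) (nat_lit 10) (.p (nat_lit 172) (nat_lit 21) (.p (nat_lit 173) (nat_lit 6) (.p (nat_lit 174) (nat_lit 27) (.n (nat_lit 175) (nat_lit 45) (.p (nat_lit 176) (nat_lit 14) (.n (nat_lit 177) (nat_lit 9) (.n (nat_lit 178) (nat_lit 6) (.p (nat_lit 179) (nat_lit 6) (.p (nat_lit 180) (nat_lit 5) (.n (nat_lit 181) (nat_lit 27) (.p (nat_lit 182) (nat_lit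 2) (.n (nat_lit 183) (nat_lit 2) (.p (nat_lit 184) (nat_lit 6) .z)))))))))))))))))))))))))) (.ct dW2x_c291 (nat_lit 6) (nat_lit 1) (.s true (nat_lit 1) (nat_lit 13) (nat_lit 2) (nat_lit 1) (nat_lit 2) true (nat_lit 3) true (nat_lit 8) true (nat_lit 1) true (nat_lit 8) true (nat_lit 9) (.e true (nat_lit 6) (nat_lit 32) (nat_lit 7) (nat_lit 3) (.e true (nat_lit 6) (nat_lit 81) (nat_lit 2) (nat_lit 8) (.e false (nat_lit 6) (nat_lit 78) (nat_lit 2) (nat_lit 8) (.e false (nat_lit 6) (nat_lit 82) (nat_lit 2) (nat_lit 8) (.e true (nat_lit 6) (nat_lit 86) (nat_lit 2) (nat_lit 8) (.e true (nat_lit 6) (nat_lit 87) (nat_lit 2) (nat_lit 8) (.e true (nat_lit 6) (nat_lit 88) (nat_lit 2) (nat_lit 8) (.e false (nat_lit 6) (nat_lit 95) (nat_lit 1) (nat_lit 9) .nil)))))))))) (.nd (.nd (.nd .leaf (nat_lit 19470) (nat_lit 340) (.p (nat_lit 159) (nat_lit 1) (.p (nat_lit 160) (nat_lit 8) (.p (nat_lit 161) (nat_lit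 14) (.p (nat_lit 162) (nat_lit 3) (.n (nat_lit 163) (nat_lit 10) (.n (nat_lit 164) (nat_lit 7) (.p (nat_lit 165) (nat_lit 4) (.n (nat_lit 166) (nat_lit 11) (.p (nat_lit 167) (nat_lit 1) (.n (nat_lit 168) (nat_lit 4) (.p (nat_lit 169) (nat_lit 3) (.n (nat_lit 170) (nat_lit 4) (.n (nat_lit 171) (nat_lit 4) (.n (nat_lit 172) (nat_lit 9) (.n (nat_lit 174) (nat_lit 12) (.p (nat_lit 175) (nat_lit 18) (.n (nat_lit 176) (nat_lit 5) (.p (nat_lit 177) (nat_lit 6) (.p (nat_lit 178) (nat_lit 6) (.p (nat_lit 180) (nat_lit 1) (.p (nat_lit 181) (nat_lit 9) (.n (nat_lit 182) (nat_lit 2) (.p (nat_lit 183) (nat_lit 2) .z))))))))))))))))))))))) (.ct dW2x_c291 (nat_lit 6) (nat_lit 1) (.s true (nat_lit 1) (nat_lit 6) (nat_lit 0) (nat_lit 2) (nat_lit 6) true (nat_lit 1) true (nat_lit 4) true (nat_lit 4) true (nat_lit 10) true (nat_lit 8) (.e true (nat_lit 6) (nat_lit 40) (nat_lit 6) (nat_lit 4) (.e true (nat_lit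 6) (nat_lit 38) (nat_lit 6) (nat_lit 4) (.e false (nat_lit 6) (nat_lit 39) (nat_lit 6) (nat_lit 4) (.e false (nat_lit 6) (nat_lit 42) (nat_lit 6) (nat_lit 4) (.e false (nat_lit 6) (nat_lit 43) (nat_lit 6) (nat_lit 4) (.e true (nat_lit 3) (nat_lit 106) (nat_lit 0) (nat_lit 10) (.e false (nat_lit 3) (nat_lit 107) (nat_lit 0) (nat_lit 10) (.e true (nat_lit 3) (nat_lit 108) (nat_lit 0) (nat_lit 10) (.e false (nat_lit 3) (nat_lit 109) (nat_lit 0) (nat_lit 10) .nil))))))))))) .leaf) (nat_lit 20480) (nat_lit 49) (.n (nat_lit 38) (nat_lit 12) (.p (nat_lit 39) (nat_lit 6) (.n (nat_lit 40) (nat_lit 6) (.p (nat_lit 41) (nat_lit 6) (.p (nat_lit 42) (nat_lit 6) (.p (nat_lit 43) (nat_lit 6) .z)))))) (.ct dW2x_c274 (nat_lit 6) (nat_lit 4) (.s true (nat_lit 1) (nat_lit 2) (nat_lit 1) (nat_lit 0) (nat_lit 2) false (nat_lit 0) true (nat_lit 2) true (nat_lit 2) true (nat_lit 3) true (nat_lit 4) (.e true (nat_lit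 6) (nat_lit 6) (nat_lit 5) (nat_lit 0) (.e true (nat_lit 6) (nat_lit 14) (nat_lit 2) (nat_lit 2) (.e true (nat_lit 6) (nat_lit 12) (nat_lit 2) (nat_lit 2) (.e false (nat_lit 6) (nat_lit 17) (nat_lit 1) (nat_lit 3) .nil)))))) .leaf) (nat_lit 20481) (nat_lit 54) (.n (nat_lit 44) (nat_lit 6) (.p (nat_lit 45) (nat_lit 6) (.p (nat_lit 46) (nat_lit 6) .z))) (.ct dW2x_c34 (nat_lit 6) (nat_lit 3) (.s false (nat_lit 1) (nat_lit 2) (nat_lit 1) (nat_lit 1) (nat_lit 2) true (nat_lit 0) true (nat_lit 2) true (nat_lit 2) true (nat_lit 3) true (nat_lit 3) (.a false (nat_lit 18) (nat_lit 6) (nat_lit 6) (nat_lit 0) (nat_lit 0) (.e false (nat_lit 6) (nat_lit 16) (nat_lit 2) (nat_lit 2) (.e true (nat_lit 6) (nat_lit 15) (nat_lit 2) (nat_lit 2) (.e false (nat_lit 6) (nat_lit 19) (nat_lit 1) (nat_lit 3) .nil)))))) (.nd .leaf (nat_lit 20482) (nat_lit 61) (.p (nat_lit 51) (nat_lit 6) .z) .df .leaf))) (nat_lit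 20483) (nat_lit 126) (.n (nat_lit 77) (nat_lit 6) (.n (nat_lit 78) (nat_lit 6) (.n (nat_lit 79) (nat_lit 6) (.p (nat_lit 80) (nat_lit 6) (.p (nat_lit 88) (nat_lit 6) .z))))) (.ct dW2x_c290 (nat_lit 6) (nat_lit 4) (.s false (nat_lit 1) (nat_lit 3) (nat_lit 2) (nat_lit 2) (nat_lit 1) true (nat_lit 1) true (nat_lit 6) true (nat_lit 4) true (nat_lit 5) true (nat_lit 5) (.e false (nat_lit 6) (nat_lit 12) (nat_lit 6) (nat_lit 1) (.e false (nat_lit 6) (nat_lit 38) (nat_lit 1) (nat_lit 6) (.e true (nat_lit 6) (nat_lit 32) (nat_lit 2) (nat_lit 5) (.e true (nat_lit 6) (nat_lit 33) (nat_lit 2) (nat_lit 5) (.e true (nat_lit 6) (nat_lit 34) (nat_lit 2) (nat_lit 5) .nil))))))) (.nd (.nd (.nd (.nd .leaf (nat_lit 20485) (nat_lit 155) (.n (nat_lit 95) (nat_lit 6) (.n (nat_lit 96) (nat_lit 6) (.p (nat_lit 97) (nat_lit 6) (.n (nat_lit 98) (nat_lit 6) (.n (nat_lit 99) (nat_lit 6) (.p (nat_lit 100) (nat_lit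 6) (.p (nat_lit 103) (nat_lit 6) .z))))))) (.ct dW2x_c275 (nat_lit 6) (nat_lit 2) (.s true (nat_lit 1) (nat_lit 7) (nat_lit 0) (nat_lit 1) (nat_lit 2) true (nat_lit 2) true (nat_lit 4) true (nat_lit 0) true (nat_lit 6) true (nat_lit 5) (.e true (nat_lit 6) (nat_lit 42) (nat_lit 2) (nat_lit 4) (.e false (nat_lit 6) (nat_lit 12) (nat_lit 7) (nat_lit 0) (.e false (nat_lit 6) (nat_lit 51) (nat_lit 0) (nat_lit 6) (.e true (nat_lit 6) (nat_lit 52) (nat_lit 0) (nat_lit 6) (.e true (nat_lit 6) (nat_lit 49) (nat_lit 1) (nat_lit 5) .nil))))))) .leaf) (nat_lit 20486) (nat_lit 165) (.p (nat_lit 106) (nat_lit 12) (.n (nat_lit 107) (nat_lit 12) (.p (nat_lit 108) (nat_lit 6) (.n (nat_lit 109) (nat_lit 6) (.n (nat_lit 110) (nat_lit 6) .z))))) (.ct dW2x_c35 (nat_lit 6) (nat_lit 1) (.s true (nat_lit 1) (nat_lit 7) (nat_lit 2) (nat_lit 1) (nat_lit 1) true (nat_lit 1) true (nat_lit 4) true (nat_lit 0) true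 (nat_lit 3) true (nat_lit 4) (.e true (nat_lit 6) (nat_lit 52) (nat_lit 1) (nat_lit 4) (.e true (nat_lit 6) (nat_lit 16) (nat_lit 7) (nat_lit 0) (.e false (nat_lit 12) (nat_lit 45) (nat_lit 2) (nat_lit 3) (.e true (nat_lit 12) (nat_lit 46) (nat_lit 2) (nat_lit 3) (.e false (nat_lit 6) (nat_lit 51) (nat_lit 1) (nat_lit 4) .nil))))))) .leaf) (nat_lit 20488) (nat_lit 224) (.p (nat_lit 111) (nat_lit 6) (.n (nat_lit 113) (nat_lit 12) (.n (nat_lit 114) (nat_lit 12) (.n (nat_lit 116) (nat_lit 3) (.n (nat_lit 117) (nat_lit 3) (.n (nat_lit 118) (nat_lit 9) (.p (nat_lit 119) (nat_lit 3) (.n (nat_lit 121) (nat_lit 18) (.n (nat_lit 122) (nat_lit 36) (.n (nat_lit 123) (nat_lit 12) (.n (nat_lit 124) (nat_lit 33) (.n (nat_lit 125) (nat_lit 9) (.p (nat_lit 126) (nat_lit 9) (.p (nat_lit 127) (nat_lit 30) (.p (nat_lit 128) (nat_lit 15) (.p (nat_lit 129) (nat_lit 30) (.p (nat_lit 130) (nat_lit 18) (.p (nat_lit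 131) (nat_lit 18) (.n (nat_lit 132) (nat_lit 6) (.p (nat_lit 133) (nat_lit 24) (.n (nat_lit 134) (nat_lit 6) (.n (nat_lit 135) (nat_lit 6) (.n (nat_lit 136) (nat_lit 12) .z))))))))))))))))))))))) (.ct dW2x_c546 (nat_lit 6) (nat_lit 3) (.s false (nat_lit 1) (nat_lit 20) (nat_lit 1) (nat_lit 0) (nat_lit 0) true (nat_lit 8) true (nat_lit 11) false (nat_lit 3) true (nat_lit 10) true (nat_lit 11) (.e false (nat_lit 12) (nat_lit 38) (nat_lit 3) (nat_lit 8) (.e true (nat_lit 6) (nat_lit 39) (nat_lit 3) (nat_lit 8) (.e false (nat_lit 6) (nat_lit 40) (nat_lit 3) (nat_lit 8) (.e true (nat_lit 6) (nat_lit 41) (nat_lit 3) (nat_lit 8) (.e true (nat_lit 6) (nat_lit 42) (nat_lit 3) (nat_lit 8) (.e true (nat_lit 6) (nat_lit 43) (nat_lit 3) (nat_lit 8) (.e true (nat_lit 6) (nat_lit 85) (nat_lit 0) (nat_lit 11) (.e false (nat_lit 12) (nat_lit 87) (nat_lit 0) (nat_lit 11) (.e false (nat_lit 6) (nat_lit 80)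 (nat_lit 0) (nat_lit 11) (.e true (nat_lit 6) (nat_lit 81) (nat_lit 0) (nat_lit 11) (.e false (nat_lit 6) (nat_lit 82) (nat_lit 0) (nat_lit 11) (.e false (nat_lit 6) (nat_lit 76) (nat_lit 0) (nat_lit 11) (.e true (nat_lit 6) (nat_lit 77) (nat_lit 0) (nat_lit 11) (.e true (nat_lit 6) (nat_lit 78) (nat_lit 0) (nat_lit 11) (.e true (nat_lit 6) (nat_lit 79) (nat_lit 0) (nat_lit 11) .nil))))))))))))))))) (.nd (.nd .leaf (nat_lit 20491) (nat_lit 281) (.n (nat_lit 138) (nat_lit 6) (.n (nat_lit 139) (nat_lit 6) (.n (nat_lit 141) (nat_lit 36) (.p (nat_lit 142) (nat_lit 18) (.n (nat_lit 143) (nat_lit 6) (.p (nat_lit 144) (nat_lit 18) (.p (nat_lit 145) (nat_lit 18) (.p (nat_lit 146) (nat_lit 30) (.p (nat_lit 147) (nat_lit 6) (.p (nat_lit 148) (nat_lit 6) (.n (nat_lit 149) (nat_lit 12) (.n (nat_lit 150) (nat_lit 24) (.p (nat_lit 151) (nat_lit 18) (.n (nat_lit 152) (nat_lit 30) (.p (nat_lit 153) (nat_lit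 12) (.p (nat_lit 154) (nat_lit 12) (.n (nat_lit 155) (nat_lit 24) (.n (nat_lit 156) (nat_lit 12) (.p (nat_lit 157) (nat_lit 6) (.p (nat_lit 158) (nat_lit 6) .z)))))))))))))))))))) (.ct dW2x_c531 (nat_lit 6) (nat_lit 1) (.s false (nat_lit 1) (nat_lit 11) (nat_lit 2) (nat_lit 2) (nat_lit 1) true (nat_lit 4) true (nat_lit 8) true (nat_lit 1) true (nat_lit 7) true (nat_lit 7) (.e false (nat_lit 6) (nat_lit 35) (nat_lit 6) (nat_lit 4) (.e false (nat_lit 6) (nat_lit 89) (nat_lit 1) (nat_lit 8) (.e false (nat_lit 6) (nat_lit 66) (nat_lit 2) (nat_lit 7) (.e false (nat_lit 6) (nat_lit 69) (nat_lit 2) (nat_lit 7) (.e true (nat_lit 6) (nat_lit 70) (nat_lit 2) (nat_lit 7) (.e true (nat_lit 6) (nat_lit 71) (nat_lit 2) (nat_lit 7) (.e true (nat_lit 6) (nat_lit 73) (nat_lit 2) (nat_lit 7) (.e true (nat_lit 6) (nat_lit 74) (nat_lit 2) (nat_lit 7) (.e true (nat_lit 6) (nat_lit 64) (nat_lit 2) (nat_lit 7)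 .nil))))))))))) .leaf) (nat_lit 20492) (nat_lit 349) (.p (nat_lit 159) (nat_lit 6) (.p (nat_lit 166) (nat_lit 6) (.n (nat_lit 167) (nat_lit 6) (.n (nat_lit 181) (nat_lit 6) .z)))) (.ct dW2x_c291 (nat_lit 6) (nat_lit 1) (.s true (nat_lit 1) (nat_lit 12) (nat_lit 2) (nat_lit 2) (nat_lit 1) true (nat_lit 4) true (nat_lit 9) true (nat_lit 1) true (nat_lit 8) true (nat_lit 8) (.e true (nat_lit 6) (nat_lit 38) (nat_lit 6) (nat_lit 4) (.e true (nat_lit 6) (nat_lit 94) (nat_lit 1) (nat_lit 9) (.e false (nat_lit 6) (nat_lit 88) (nat_lit 2) (nat_lit 8) (.e false (nat_lit 6) (nat_lit 76) (nat_lit 2) (nat_lit 8) .nil)))))) .leaf)) (nat_lit 20493) (nat_lit 342) (.n (nat_lit 159) (nat_lit 17) (.p (nat_lit 160) (nat_lit 26) (.p (nat_lit 161) (nat_lit 26) (.p (nat_lit 162) (nat_lit 21) (.n (nat_lit 163) (nat_lit 16) (.n (nat_lit 164) (nat_lit 7) (.p (nat_lit 165) (nat_lit 4) (.p (nat_lit 166) (nat_lit 1)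 (.p (nat_lit 167) (nat_lit 7) (.n (nat_lit 168) (nat_lit 22) (.p (nat_lit 169) (nat_lit 3) (.n (nat_lit 170) (nat_lit 16) (.p (nat_lit 171) (nat_lit 2) (.p (nat_lit 172) (nat_lit 3) (.n (nat_lit 173) (nat_lit 12) (.p (nat_lit 175) (nat_lit 18) (.n (nat_lit 176) (nat_lit 5) (.n (nat_lit 178) (nat_lit 6) (.n (nat_lit 179) (nat_lit 6) (.n (nat_lit 180) (nat_lit 5) (.p (nat_lit 181) (nat_lit 9) (.p (nat_lit 182) (nat_lit 4) (.n (nat_lit 183) (nat_lit 4) (.n (nat_lit 184) (nat_lit 12) .z)))))))))))))))))))))))) (.ct dW2x_c291 (nat_lit 6) (nat_lit 1) (.s true (nat_lit 1) (nat_lit 13) (nat_lit 2) (nat_lit 2) (nat_lit 1) true (nat_lit 4) true (nat_lit 9) true (nat_lit 1) true (nat_lit 8) true (nat_lit 8) (.e true (nat_lit 6) (nat_lit 39) (nat_lit 6) (nat_lit 4) (.e true (nat_lit 6) (nat_lit 95) (nat_lit 1) (nat_lit 9) (.e false (nat_lit 6) (nat_lit 78) (nat_lit 2) (nat_lit 8) (.e false (nat_lit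 6) (nat_lit 82) (nat_lit 2) (nat_lit 8) (.e true (nat_lit 6) (nat_lit 86) (nat_lit 2) (nat_lit 8) (.e true (nat_lit 6) (nat_lit 87) (nat_lit 2) (nat_lit 8) (.e true (nat_lit 6) (nat_lit 88) (nat_lit 2) (nat_lit 8) (.e false (nat_lit 6) (nat_lit 77) (nat_lit 2) (nat_lit 8) .nil)))))))))) (.nd (.nd (.nd .leaf (nat_lit 20494) (nat_lit 339) (.n (nat_lit 159) (nat_lit 5) (.p (nat_lit 160) (nat_lit 14) (.p (nat_lit 161) (nat_lit 26) (.p (nat_lit 162) (nat_lit 15) (.n (nat_lit 163) (nat_lit 16) (.n (nat_lit 164) (nat_lit 1) (.p (nat_lit 165) (nat_lit 4) (.p (nat_lit 166) (nat_lit 1) (.p (nat_lit 167) (nat_lit 7) (.n (nat_lit 168) (nat_lit 22) (.n (nat_lit 169) (nat_lit 3) (.n (nat_lit 170) (nat_lit 16) (.p (nat_lit 171) (nat_lit 2) (.n (nat_lit 172) (nat_lit 3) (.n (nat_lit 173) (nat_lit 6) (.p (nat_lit 175) (nat_lit 18) (.n (nat_lit 176) (nat_lit 5) (.n (nat_lit 179) (nat_lit 6) (.n (nat_lit 180)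 (nat_lit 5) (.p (nat_lit 181) (nat_lit 9) (.p (nat_lit 182) (nat_lit 4) (.n (nat_lit 183) (nat_lit 4) .z)))))))))))))))))))))) (.ct dW2x_c291 (nat_lit 6) (nat_lit 1) (.s true (nat_lit 1) (nat_lit 7) (nat_lit 0) (nat_lit 1) (nat_lit 6) true (nat_lit 1) true (nat_lit 4) true (nat_lit 3) true (nat_lit 10) true (nat_lit 9) (.e true (nat_lit 6) (nat_lit 42) (nat_lit 6) (nat_lit 4) (.e true (nat_lit 6) (nat_lit 29) (nat_lit 7) (nat_lit 3) (.e false (nat_lit 6) (nat_lit 32) (nat_lit 7) (nat_lit 3) (.e false (nat_lit 6) (nat_lit 33) (nat_lit 7) (nat_lit 3) (.e false (nat_lit 6) (nat_lit 34) (nat_lit 7) (nat_lit 3) (.e false (nat_lit 6) (nat_lit 110) (nat_lit 0) (nat_lit 10) (.e true (nat_lit 6) (nat_lit 95) (nat_lit 1) (nat_lit 9) (.e true (nat_lit 6) (nat_lit 96) (nat_lit 1) (nat_lit 9) (.e false (nat_lit 6) (nat_lit 97) (nat_lit 1) (nat_lit 9) (.e true (nat_lit 6) (nat_lit 99) (nat_lit 1) (nat_lit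 9) (.e false (nat_lit 6) (nat_lit 100) (nat_lit 1) (nat_lit 9) (.e false (nat_lit 6) (nat_lit 101) (nat_lit 1) (nat_lit 9) .nil)))))))))))))) .leaf) (nat_lit 21504) (nat_lit 58) (.p (nat_lit 49) (nat_lit 6) .z) .df .leaf) (nat_lit 21505) (nat_lit 62) (.p (nat_lit 52) (nat_lit 6) .z) .df (.nd .leaf (nat_lit 21507) (nat_lit 156) (.p (nat_lit 95) (nat_lit 6) (.n (nat_lit 96) (nat_lit 6) (.n (nat_lit 97) (nat_lit 6) (.n (nat_lit 99) (nat_lit 6) (.p (nat_lit 103) (nat_lit 6) .z))))) (.ct dW2x_c275 (nat_lit 6) (nat_lit 3) (.s false (nat_lit 1) (nat_lit 3) (nat_lit 2) (nat_lit 2) (nat_lit 2) true (nat_lit 0) true (nat_lit 4) true (nat_lit 3) true (nat_lit 4) true (nat_lit 4) (.e false (nat_lit 6) (nat_lit 12) (nat_lit 7) (nat_lit 0) (.e false (nat_lit 6) (nat_lit 39) (nat_lit 2) (nat_lit 4) (.e true (nat_lit 6) (nat_lit 40) (nat_lit 2) (nat_lit 4) (.e true (nat_lit 6) (nat_lit 41) (nat_lit 2) (nat_lit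 4) (.e true (nat_lit 6) (nat_lit 43) (nat_lit 2) (nat_lit 4) .nil))))))) .leaf))))) (nat_lit 21508) (nat_lit 169) (.n (nat_lit 105) (nat_lit 6) (.p (nat_lit 106) (nat_lit 6) (.p (nat_lit 107) (nat_lit 6) (.n (nat_lit 109) (nat_lit 6) (.n (nat_lit 110) (nat_lit 6) .z))))) (.ct dW2x_c35 (nat_lit 6) (nat_lit 2) (.s true (nat_lit 1) (nat_lit 4) (nat_lit 2) (nat_lit 2) (nat_lit 2) true (nat_lit 0) true (nat_lit 3) true (nat_lit 2) true (nat_lit 3) true (nat_lit 3) (.e true (nat_lit 6) (nat_lit 15) (nat_lit 7) (nat_lit 0) (.e true (nat_lit 12) (nat_lit 45) (nat_lit 2) (nat_lit 3) (.e false (nat_lit 12) (nat_lit 46) (nat_lit 2) (nat_lit 3) .nil))))) (.nd (.nd (.nd (.nd (.nd (.nd .leaf (nat_lit 21512) (nat_lit 284) (.n (nat_lit 138) (nat_lit 18) (.n (nat_lit 139) (nat_lit 6) (.n (nat_lit 140) (nat_lit 6) (.n (nat_lit 141) (nat_lit 36) (.p (nat_lit 142) (nat_lit 18) (.n (nat_lit 143) (nat_lit 6)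 (.p (nat_lit 144) (nat_lit 18) (.p (nat_lit 145) (nat_lit 18) (.p (nat_lit 146) (nat_lit 42) (.p (nat_lit 147) (nat_lit 6) (.n (nat_lit 149) (nat_lit 12) (.n (nat_lit 150) (nat_lit 12) (.n (nat_lit 151) (nat_lit 6) (.n (nat_lit 152) (nat_lit 6) (.p (nat_lit 153) (nat_lit 12) (.p (nat_lit 154) (nat_lit 12) (.p (nat_lit 156) (nat_lit 12) (.p (nat_lit 157) (nat_lit 6) (.p (nat_lit 158) (nat_lit 6) .z))))))))))))))))))) (.ct dW2x_c531 (nat_lit 6) (nat_lit 2) (.s false (nat_lit 1) (nat_lit 8) (nat_lit 2) (nat_lit 2) (nat_lit 2) true (nat_lit 3) true (nat_lit 7) true (nat_lit 2) true (nat_lit 7) true (nat_lit 7) (.e false (nat_lit 6) (nat_lit 25) (nat_lit 7) (nat_lit 3) (.e false (nat_lit 6) (nat_lit 68) (nat_lit 2) (nat_lit 7) (.e false (nat_lit 6) (nat_lit 70) (nat_lit 2) (nat_lit 7) (.e true (nat_lit 6) (nat_lit 71) (nat_lit 2) (nat_lit 7) (.e true (nat_lit 6) (nat_lit 72) (nat_lit 2) (nat_lit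 7) (.e true (nat_lit 6) (nat_lit 73) (nat_lit 2) (nat_lit 7) (.e true (nat_lit 6) (nat_lit 74) (nat_lit 2) (nat_lit 7) .nil))))))))) .leaf) (nat_lit 21513) (nat_lit 343) (.n (nat_lit 159) (nat_lit 15) (.p (nat_lit 160) (nat_lit 18) (.p (nat_lit 161) (nat_lit 30) (.p (nat_lit 162) (nat_lit 21) (.n (nat_lit 163) (nat_lit 12) (.n (nat_lit 164) (nat_lit 3) (.p (nat_lit 165) (nat_lit 12) (.n (nat_lit 166) (nat_lit 9) (.p (nat_lit 167) (nat_lit 9) (.n (nat_lit 168) (nat_lit 6) (.p (nat_lit 169) (nat_lit 3) (.n (nat_lit 171) (nat_lit 6) (.n (nat_lit 172) (nat_lit 15) (.n (nat_lit 173) (nat_lit 6) (.p (nat_lit 175) (nat_lit 18) (.n (nat_lit 176) (nat_lit 3) (.n (nat_lit 178) (nat_lit 6) (.n (nat_lit 179) (nat_lit 12) (.n (nat_lit 180) (nat_lit 9) (.p (nat_lit 181) (nat_lit 15) .z)))))))))))))))))))) (.ct dW2x_c291 (nat_lit 6) (nat_lit 2) (.s true (nat_lit 1) (nat_lit 9) (nat_lit 2) (nat_lit 2) (nat_lit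 2) true (nat_lit 3) true (nat_lit 8) true (nat_lit 2) true (nat_lit 8) true (nat_lit 8) (.e true (nat_lit 6) (nat_lit 29) (nat_lit 7) (nat_lit 3) (.e true (nat_lit 6) (nat_lit 76) (nat_lit 2) (nat_lit 8) (.e false (nat_lit 6) (nat_lit 81) (nat_lit 2) (nat_lit 8) (.e true (nat_lit 6) (nat_lit 82) (nat_lit 2) (nat_lit 8) (.e false (nat_lit 6) (nat_lit 84) (nat_lit 2) (nat_lit 8) (.e true (nat_lit 6) (nat_lit 86) (nat_lit 2) (nat_lit 8) (.e false (nat_lit 6) (nat_lit 87) (nat_lit 2) (nat_lit 8) (.e false (nat_lit 6) (nat_lit 88) (nat_lit 2) (nat_lit 8) .nil)))))))))) .leaf) (nat_lit 21514) (nat_lit 346) (.p (nat_lit 159) (nat_lit 14) (.n (nat_lit 160) (nat_lit 44) (.n (nat_lit 161) (nat_lit 68) (.n (nat_lit 162) (nat_lit 30) (.p (nat_lit 163) (nat_lit 40) (.p (nat_lit 164) (nat_lit 22) (.n (nat_lit 165) (nat_lit 16) (.p (nat_lit 166) (nat_lit 26) (.n (nat_lit 167) (nat_lit 10) (.p (nat_lit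 168) (nat_lit 28) (.n (nat_lit 169) (nat_lit 6) (.p (nat_lit 170) (nat_lit 16) (.p (nat_lit 171) (nat_lit 16) (.p (nat_lit 172) (nat_lit 30) (.p (nat_lit 173) (nat_lit 6) (.p (nat_lit 174) (nat_lit 30) (.n (nat_lit 175) (nat_lit 54) (.p (nat_lit 176) (nat_lit 14) (.n (nat_lit 177) (nat_lit 6) (.n (nat_lit 178) (nat_lit 6) (.p (nat_lit 179) (nat_lit 12) (.p (nat_lit 180) (nat_lit 8) (.n (nat_lit 181) (nat_lit 30) (.p (nat_lit 182) (nat_lit 8) (.n (nat_lit 183) (nat_lit 8) .z))))))))))))))))))))))))) (.ct dW2x_c291 (nat_lit 6) (nat_lit 2) (.s false (nat_lit 1) (nat_lit 21) (nat_lit 1) (nat_lit 1) (nat_lit 0) true (nat_lit 7) true (nat_lit 10) false (nat_lit 2) true (nat_lit 9) true (nat_lit 9) (.e false (nat_lit 6) (nat_lit 52) (nat_lit 3) (nat_lit 7) (.e false (nat_lit 6) (nat_lit 109) (nat_lit 0) (nat_lit 10) (.e false (nat_lit 6) (nat_lit 95) (nat_lit 1) (nat_lit 9) (.e true (nat_lit 6)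 (nat_lit 96) (nat_lit 1) (nat_lit 9) (.e true (nat_lit 6) (nat_lit 97) (nat_lit 1) (nat_lit 9) (.e true (nat_lit 6) (nat_lit 99) (nat_lit 1) (nat_lit 9) (.e false (nat_lit 6) (nat_lit 103) (nat_lit 1) (nat_lit 9) (.e true (nat_lit 6) (nat_lit 101) (nat_lit 1) (nat_lit 9) .nil)))))))))) (.nd (.nd .leaf (nat_lit 22530) (nat_lit 64) (.p (nat_lit 53) (nat_lit 6) .z) .df .leaf) (nat_lit 23554) (nat_lit 77) (.n (nat_lit 53) (nat_lit 6) (.n (nat_lit 55) (nat_lit 12) (.n (nat_lit 56) (nat_lit 12) (.n (nat_lit 58) (nat_lit 12) (.n (nat_lit 59) (nat_lit 6) (.n (nat_lit 60) (nat_lit 12) (.p (nat_lit 61) (nat_lit 24) (.p (nat_lit 62) (nat_lit 24) (.p (nat_lit 63) (nat_lit 18) .z))))))))) (.ct dW2x_c545 (nat_lit 6) (nat_lit 4) (.s true (nat_lit 1) (nat_lit 3) (nat_lit 1) (nat_lit 0) (nat_lit 2) true (nat_lit 0) true (nat_lit 4) true (nat_lit 3) true (nat_lit 5) true (nat_lit 6) (.s false (nat_lit 1)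 (nat_lit 6) (nat_lit 0) (nat_lit 1) (nat_lit 0) false (nat_lit 7) true (nat_lit 6) true (nat_lit 0) true (nat_lit 6) true (nat_lit 5) (.e true (nat_lit 6) (nat_lit 12) (nat_lit 3) (nat_lit 3) (.e true (nat_lit 6) (nat_lit 26) (nat_lit 1) (nat_lit 5) (.e true (nat_lit 6) (nat_lit 27) (nat_lit 1) (nat_lit 5) (.e true (nat_lit 6) (nat_lit 31) (nat_lit 0) (nat_lit 6) (.e false (nat_lit 12) (nat_lit 33) (nat_lit 0) (nat_lit 6) (.e true (nat_lit 6) (nat_lit 29) (nat_lit 0) (nat_lit 6) (.e false (nat_lit 6) (nat_lit 32) (nat_lit 0) (nat_lit 6) (.e false (nat_lit 6) (nat_lit 34) (nat_lit 0) (nat_lit 6) .nil))))))))))) .leaf)) (nat_lit 23559) (nat_lit 217) (.n (nat_lit 111) (nat_lit 9) (.n (nat_lit 112) (nat_lit 9) (.p (nat_lit 113) (nat_lit 6) (.p (nat_lit 114) (nat_lit 15) (.n (nat_lit 116) (nat_lit 6) (.n (nat_lit 117) (nat_lit 6) (.p (nat_lit 118) (nat_lit 30) (.p (nat_lit 119) (nat_lit 18) (.p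 (nat_lit 120) (nat_lit 15) (.p (nat_lit 121) (nat_lit 24) (.p (nat_lit 122) (nat_lit 48) (.p (nat_lit 123) (nat_lit 15) (.p (nat_lit 124) (nat_lit 21) (.p (nat_lit 125) (nat_lit 18) (.n (nat_lit 126) (nat_lit 18) (.n (nat_lit 127) (nat_lit 27) (.n (nat_lit 128) (nat_lit 18) (.n (nat_lit 129) (nat_lit 39) (.n (nat_lit 130) (nat_lit 24) (.n (nat_lit 132) (nat_lit 12) (.n (nat_lit 133) (nat_lit 12) (.n (nat_lit 134) (nat_lit 6) (.p (nat_lit 135) (nat_lit 15) (.p (nat_lit 136) (nat_lit 9) .z)))))))))))))))))))))))) (.ct dW2x_c546 (nat_lit 6) (nat_lit 4) (.s true (nat_lit 1) (nat_lit 7) (nat_lit 1) (nat_lit 3) (nat_lit 0) true (nat_lit 8) true (nat_lit 11) true (nat_lit 4) true (nat_lit 10) true (nat_lit 8) (.s true (nat_lit 1) (nat_lit 14) (nat_lit 1) (nat_lit 2) (nat_lit 0) true (nat_lit 8) true (nat_lit 11) true (nat_lit 0) true (nat_lit 10) true (nat_lit 9) (.a true (nat_lit 18) (nat_lit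 14) (nat_lit 14) (nat_lit 0) (nat_lit 0) (.e true (nat_lit 6) (nat_lit 39) (nat_lit 3) (nat_lit 8) (.e false (nat_lit 6) (nat_lit 41) (nat_lit 3) (nat_lit 8) (.e false (nat_lit 6) (nat_lit 43) (nat_lit 3) (nat_lit 8) (.e false (nat_lit 6) (nat_lit 77) (nat_lit 0) (nat_lit 11) (.e false (nat_lit 6) (nat_lit 79) (nat_lit 0) (nat_lit 11) (.e true (nat_lit 6) (nat_lit 80) (nat_lit 0) (nat_lit 11) (.e true (nat_lit 6) (nat_lit 88) (nat_lit 0) (nat_lit 11) (.e true (nat_lit 6) (nat_lit 68) (nat_lit 1) (nat_lit 10) (.e true (nat_lit 12) (nat_lit 70) (nat_lit 1) (nat_lit 10) (.e false (nat_lit 6) (nat_lit 71) (nat_lit 1) (nat_lit 10) (.e false (nat_lit 6) (nat_lit 72) (nat_lit 1) (nat_lit 10) (.e true (nat_lit 6) (nat_lit 74) (nat_lit 1) (nat_lit 10) (.e false (nat_lit 6) (nat_lit 42) (nat_lit 3) (nat_lit 8) (.e false (nat_lit 6) (nat_lit 66) (nat_lit 1) (nat_lit 10) (.e false (nat_lit 6) (nat_lit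 69) (nat_lit 1) (nat_lit 10) (.e false (nat_lit 6) (nat_lit 57) (nat_lit 2) (nat_lit 9) .nil)))))))))))))))))))) (.nd (.nd (.nd .leaf (nat_lit 24578) (nat_lit 79) (.p (nat_lit 54) (nat_lit 6) (.n (nat_lit 55) (nat_lit 18) (.n (nat_lit 56) (nat_lit 12) (.p (nat_lit 57) (nat_lit 6) (.n (nat_lit 59) (nat_lit 6) (.n (nat_lit 60) (nat_lit 18) (.p (nat_lit 61) (nat_lit 18) (.p (nat_lit 62) (nat_lit 18) (.p (nat_lit 63) (nat_lit 12) .z))))))))) (.ct dW2x_c545 (nat_lit 6) (nat_lit 4) (.s true (nat_lit 1) (nat_lit 4) (nat_lit 0) (nat_lit 0) (nat_lit 2) true (nat_lit 1) true (nat_lit 4) true (nat_lit 2) true (nat_lit 6) true (nat_lit 6) (.e true (nat_lit 6) (nat_lit 10) (nat_lit 5) (nat_lit 1) (.e true (nat_lit 6) (nat_lit 30) (nat_lit 0) (nat_lit 6) (.e true (nat_lit 12) (nat_lit 31) (nat_lit 0) (nat_lit 6) (.e false (nat_lit 12) (nat_lit 32) (nat_lit 0) (nat_lit 6) (.e false (nat_lit 12) (nat_lit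 33) (nat_lit 0) (nat_lit 6) (.e false (nat_lit 12) (nat_lit 34) (nat_lit 0) (nat_lit 6) .nil)))))))) .leaf) (nat_lit 24583) (nat_lit 231) (.p (nat_lit 111) (nat_lit 9) (.n (nat_lit 112) (nat_lit 45) (.n (nat_lit 113) (nat_lit 42) (.n (nat_lit 114) (nat_lit 9) (.n (nat_lit 115) (nat_lit 12) (.n (nat_lit 116) (nat_lit 15) (.n (nat_lit 117) (nat_lit 39) (.p (nat_lit 118) (nat_lit 51) (.p (nat_lit 119) (nat_lit 63) (.p (nat_lit 120) (nat_lit 39) (.n (nat_lit 121) (nat_lit 18) (.n (nat_lit 122) (nat_lit 36) (.n (nat_lit 123) (nat_lit 3) (.n (nat_lit 124) (nat_lit 30) (.n (nat_lit 125) (nat_lit 3) (.p (nat_lit 126) (nat_lit 3) (.p (nat_lit 127) (nat_lit 21) (.p (nat_lit 128) (nat_lit 9) (.p (nat_lit 129) (nat_lit 21) (.p (nat_lit 130) (nat_lit 18) (.p (nat_lit 131) (nat_lit 18) (.n (nat_lit 132) (nat_lit 6) (.p (nat_lit 133) (nat_lit 24) (.n (nat_lit 134) (nat_lit 12) (.n (nat_lit 135) (nat_lit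 3) (.n (nat_lit 136) (nat_lit 15) .z)))))))))))))))))))))))))) (.ct dW2x_c546 (nat_lit 6) (nat_lit 4) (.s false (nat_lit 1) (nat_lit 7) (nat_lit 0) (nat_lit 4) (nat_lit 0) false (nat_lit 12) true (nat_lit 11) true (nat_lit 4) true (nat_lit 11) true (nat_lit 7) (.e true (nat_lit 24) (nat_lit 76) (nat_lit 0) (nat_lit 11) (.e false (nat_lit 24) (nat_lit 77) (nat_lit 0) (nat_lit 11) (.e false (nat_lit 24) (nat_lit 78) (nat_lit 0) (nat_lit 11) (.e false (nat_lit 24) (nat_lit 79) (nat_lit 0) (nat_lit 11) (.e false (nat_lit 12) (nat_lit 86) (nat_lit 0) (nat_lit 11) (.e true (nat_lit 12) (nat_lit 87) (nat_lit 0) (nat_lit 11) (.e true (nat_lit 6) (nat_lit 37) (nat_lit 4) (nat_lit 7) .nil))))))))) .leaf) (nat_lit 25601) (nat_lit 65) (.p (nat_lit 54) (nat_lit 6) .z) .df (.nd .leaf (nat_lit 25602) (nat_lit 97) (.n (nat_lit 64) (nat_lit 6) (.n (nat_lit 65) (nat_lit 12) (.p (nat_lit 66) (nat_lit 6) (.n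 (nat_lit 68) (nat_lit 6) (.n (nat_lit 69) (nat_lit 6) (.n (nat_lit 70) (nat_lit 6) (.p (nat_lit 71) (nat_lit 6) (.p (nat_lit 72) (nat_lit 12) (.p (nat_lit 73) (nat_lit 6) (.p (nat_lit 74) (nat_lit 12) .z)))))))))) (.ct dW2x_c530 (nat_lit 12) (nat_lit 4) (.s true (nat_lit 1) (nat_lit 3) (nat_lit 0) (nat_lit 2) (nat_lit 2) true (nat_lit 2) true (nat_lit 4) true (nat_lit 3) true (nat_lit 6) true (nat_lit 4) (.s false (nat_lit 1) (nat_lit 5) (nat_lit 1) (nat_lit 0) (nat_lit 2) true (nat_lit 1) true (nat_lit 4) true (nat_lit 2) true (nat_lit 5) true (nat_lit 6) (.s false (nat_lit 1) (nat_lit 5) (nat_lit 1) (nat_lit 2) (nat_lit 0) true (nat_lit 3) true (nat_lit 6) true (nat_lit 2) true (nat_lit 5) true (nat_lit 4) (.s false (nat_lit 1) (nat_lit 6) (nat_lit 2) (nat_lit 0) (nat_lit 0) true (nat_lit 2) true (nat_lit 6) true (nat_lit 1) true (nat_lit 4) true (nat_lit 6) (.e false (nat_lit 12) (nat_lit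 17) (nat_lit 3) (nat_lit 3) (.e false (nat_lit 12) (nat_lit 41) (nat_lit 0) (nat_lit 6) (.e false (nat_lit 12) (nat_lit 43) (nat_lit 0) (nat_lit 6) .nil)))))))) .leaf))) (nat_lit 25606) (nat_lit 223) (.n (nat_lit 111) (nat_lit 3) (.p (nat_lit 112) (nat_lit 3) (.n (nat_lit 114) (nat_lit 15) (.n (nat_lit 115) (nat_lit 12) (.n (nat_lit 116) (nat_lit 12) (.n (nat_lit 117) (nat_lit 9) (.p (nat_lit 118) (nat_lit 21) (.p (nat_lit 119) (nat_lit 27) (.p (nat_lit 120) (nat_lit 21) (.n (nat_lit 121) (nat_lit 6) (.n (nat_lit 122) (nat_lit 12) (.n (nat_lit 123) (nat_lit 3) (.n (nat_lit 124) (nat_lit 15) (.p (nat_lit 127) (nat_lit 9) (.p (nat_lit 128) (nat_lit 3) (.p (nat_lit 129) (nat_lit 9) (.p (nat_lit 130) (nat_lit 6) (.p (nat_lit 131) (nat_lit 9) (.n (nat_lit 132) (nat_lit 9) (.p (nat_lit 133) (nat_lit 15) (.n (nat_lit 134) (nat_lit 3) (.n (nat_lit 135) (nat_lit 3) (.n (nat_lit 136) (nat_lit 9) (.n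 (nat_lit 137) (nat_lit 6) .z)))))))))))))))))))))))) (.ct dW2x_c546 (nat_lit 6) (nat_lit 5) (.s true (nat_lit 1) (nat_lit 13) (nat_lit 2) (nat_lit 0) (nat_lit 1) true (nat_lit 5) true (nat_lit 10) true (nat_lit 0) true (nat_lit 9) true (nat_lit 11) (.a true (nat_lit 18) (nat_lit 13) (nat_lit 13) (nat_lit 0) (nat_lit 0) (.e false (nat_lit 6) (nat_lit 26) (nat_lit 6) (nat_lit 5) (.e false (nat_lit 6) (nat_lit 27) (nat_lit 6) (nat_lit 5) (.e true (nat_lit 6) (nat_lit 70) (nat_lit 1) (nat_lit 10) (.e false (nat_lit 6) (nat_lit 54) (nat_lit 2) (nat_lit 9) (.e true (nat_lit 6) (nat_lit 55) (nat_lit 2) (nat_lit 9) (.e true (nat_lit 6) (nat_lit 56) (nat_lit 2) (nat_lit 9) (.e true (nat_lit 6) (nat_lit 60) (nat_lit 2) (nat_lit 9) (.e false (nat_lit 6) (nat_lit 62) (nat_lit 2) (nat_lit 9) (.e true (nat_lit 6) (nat_lit 77) (nat_lit 0) (nat_lit 11) .nil)))))))))))) (.nd (.nd (.nd (.nd .leaf (nat_lit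 25607) (nat_lit 273) (.n (nat_lit 138) (nat_lit 18) (.n (nat_lit 139) (nat_lit 6) (.n (nat_lit 140) (nat_lit 12) (.n (nat_lit 141) (nat_lit 36) (.p (nat_lit 142) (nat_lit 12) (.p (nat_lit 144) (nat_lit 24) (.p (nat_lit 145) (nat_lit 24) (.p (nat_lit 146) (nat_lit 48) (.p (nat_lit 147) (nat_lit 6) (.n (nat_lit 149) (nat_lit 12) (.n (nat_lit 150) (nat_lit 12) (.n (nat_lit 151) (nat_lit 6) (.n (nat_lit 152) (nat_lit 6) (.p (nat_lit 153) (nat_lit 12) (.p (nat_lit 154) (nat_lit 12) (.p (nat_lit 156) (nat_lit 12) (.p (nat_lit 157) (nat_lit 6) (.p (nat_lit 158) (nat_lit 6) .z)))))))))))))))))) (.ct dW2x_c531 (nat_lit 6) (nat_lit 3) (.s true (nat_lit 1) (nat_lit 8) (nat_lit 2) (nat_lit 2) (nat_lit 2) true (nat_lit 3) true (nat_lit 7) true (nat_lit 2) true (nat_lit 7) true (nat_lit 7) (.s true (nat_lit 1) (nat_lit 21) (nat_lit 0) (nat_lit 1) (nat_lit 0) false (nat_lit 10) true (nat_lit 9) false (nat_lit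 2) true (nat_lit 9) true (nat_lit 8) (.e true (nat_lit 6) (nat_lit 68) (nat_lit 2) (nat_lit 7) (.e true (nat_lit 6) (nat_lit 70) (nat_lit 2) (nat_lit 7) (.e false (nat_lit 6) (nat_lit 71) (nat_lit 2) (nat_lit 7) (.e false (nat_lit 6) (nat_lit 72) (nat_lit 2) (nat_lit 7) (.e false (nat_lit 6) (nat_lit 73) (nat_lit 2) (nat_lit 7) (.e false (nat_lit 6) (nat_lit 74) (nat_lit 2) (nat_lit 7) (.e true (nat_lit 6) (nat_lit 101) (nat_lit 0) (nat_lit 9) (.e false (nat_lit 6) (nat_lit 95) (nat_lit 0) (nat_lit 9) (.e true (nat_lit 6) (nat_lit 96) (nat_lit 0) (nat_lit 9) (.e true (nat_lit 6) (nat_lit 97) (nat_lit 0) (nat_lit 9) (.e true (nat_lit 6) (nat_lit 99) (nat_lit 0) (nat_lit 9) (.e false (nat_lit 6) (nat_lit 103) (nat_lit 0) (nat_lit 9) (.e false (nat_lit 6) (nat_lit 93) (nat_lit 1) (nat_lit 8) .nil)))))))))))))))) .leaf) (nat_lit 26625) (nat_lit 66) (.p (nat_lit 55) (nat_lit 6) .z) .df .leaf)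 (nat_lit 26626) (nat_lit 84) (.p (nat_lit 64) (nat_lit 6) .z) .df (.nd (.nd .leaf (nat_lit 26630) (nat_lit 201) (.p (nat_lit 111) (nat_lit 9) (.p (nat_lit 112) (nat_lit 3) (.p (nat_lit 114) (nat_lit 9) (.p (nat_lit 115) (nat_lit 12) (.p (nat_lit 116) (nat_lit 18) (.p (nat_lit 117) (nat_lit 9) (.n (nat_lit 118) (nat_lit 33) (.n (nat_lit 119) (nat_lit 27) (.n (nat_lit 120) (nat_lit 27) (.p (nat_lit 121) (nat_lit 6) (.n (nat_lit 123) (nat_lit 3) (.p (nat_lit 124) (nat_lit 9) (.n (nat_lit 125) (nat_lit 12) (.p (nat_lit 126) (nat_lit 12) (.n (nat_lit 127) (nat_lit 3) (.p (nat_lit 128) (nat_lit 3) (.n (nat_lit 129) (nat_lit 3) (.n (nat_lit 131) (nat_lit 9) (.p (nat_lit 132) (nat_lit 9) (.n (nat_lit 133) (nat_lit 9) (.p (nat_lit 134) (nat_lit 3) (.p (nat_lit 135) (nat_lit 3) (.p (nat_lit 136) (nat_lit 9) (.p (nat_lit 137) (nat_lit 6) .z)))))))))))))))))))))))) (.ct dW2x_c546 (nat_lit 12) (nat_lit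 5) (.s true (nat_lit 1) (nat_lit 6) (nat_lit 0) (nat_lit 1) (nat_lit 5) true (nat_lit 1) true (nat_lit 6) true (nat_lit 5) true (nat_lit 11) true (nat_lit 10) (.s true (nat_lit 1) (nat_lit 11) (nat_lit 2) (nat_lit 1) (nat_lit 1) true (nat_lit 5) true (nat_lit 10) true (nat_lit 1) true (nat_lit 9) true (nat_lit 10) (.s true (nat_lit 1) (nat_lit 13) (nat_lit 0) (nat_lit 2) (nat_lit 1) true (nat_lit 8) true (nat_lit 10) true (nat_lit 0) true (nat_lit 11) true (nat_lit 9) (.s true (nat_lit 1) (nat_lit 12) (nat_lit 1) (nat_lit 0) (nat_lit 2) true (nat_lit 5) true (nat_lit 9) true (nat_lit 0) true (nat_lit 10) true (nat_lit 11) (.s false (nat_lit 1) (nat_lit 13) (nat_lit 1) (nat_lit 2) (nat_lit 0) true (nat_lit 8) true (nat_lit 11) true (nat_lit 0) true (nat_lit 10) true (nat_lit 9) dW2x_i4)))))) .leaf) (nat_lit 26631) (nat_lit 268) (.n (nat_lit 138) (nat_lit 18) (.n (nat_lit 139) (nat_lit 6)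 (.n (nat_lit 140) (nat_lit 6) (.n (nat_lit 141) (nat_lit 18) (.p (nat_lit 142) (nat_lit 12) (.p (nat_lit 144) (nat_lit 6) (.p (nat_lit 145) (nat_lit 12) (.p (nat_lit 146) (nat_lit 30) (.p (nat_lit 147) (nat_lit 6) (.n (nat_lit 148) (nat_lit 6) (.p (nat_lit 150) (nat_lit 6) (.n (nat_lit 151) (nat_lit 12) (.p (nat_lit 152) (nat_lit 12) (.p (nat_lit 153) (nat_lit 6) (.p (nat_lit 155) (nat_lit 12) (.p (nat_lit 156) (nat_lit 12) (.p (nat_lit 158) (nat_lit 6) .z))))))))))))))))) (.ct dW2x_c531 (nat_lit 6) (nat_lit 3) (.s false (nat_lit 1) (nat_lit 6) (nat_lit 0) (nat_lit 5) (nat_lit 2) true (nat_lit 5) true (nat_lit 7) true (nat_lit 4) true (nat_lit 9) true (nat_lit 5) (.s false (nat_lit 1) (nat_lit 11) (nat_lit 1) (nat_lit 2) (nat_lit 2) true (nat_lit 4) true (nat_lit 7) true (nat_lit 1) true (nat_lit 8) true (nat_lit 7) (.s true (nat_lit 1) (nat_lit 11) (nat_lit 2) (nat_lit 1) (nat_lit 2) true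 (nat_lit 3) true (nat_lit 7) true (nat_lit 1) true (nat_lit 7) true (nat_lit 8) (.e false (nat_lit 6) (nat_lit 38) (nat_lit 5) (nat_lit 5) (.e true (nat_lit 6) (nat_lit 39) (nat_lit 5) (nat_lit 5) (.e true (nat_lit 6) (nat_lit 42) (nat_lit 5) (nat_lit 5) (.e true (nat_lit 12) (nat_lit 66) (nat_lit 2) (nat_lit 7) (.e true (nat_lit 12) (nat_lit 69) (nat_lit 2) (nat_lit 7) (.e false (nat_lit 12) (nat_lit 70) (nat_lit 2) (nat_lit 7) (.e false (nat_lit 12) (nat_lit 73) (nat_lit 2) (nat_lit 7) (.e false (nat_lit 18) (nat_lit 74) (nat_lit 2) (nat_lit 7) (.e false (nat_lit 6) (nat_lit 104) (nat_lit 0) (nat_lit 9) (.e false (nat_lit 6) (nat_lit 64) (nat_lit 2) (nat_lit 7) (.e false (nat_lit 6) (nat_lit 90) (nat_lit 1) (nat_lit 8) (.e true (nat_lit 12) (nat_lit 92) (nat_lit 1) (nat_lit 8) (.e true (nat_lit 6) (nat_lit 93) (nat_lit 1) (nat_lit 8) (.e true (nat_lit 12) (nat_lit 67) (nat_lit 2) (nat_lit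 7) (.e false (nat_lit 6) (nat_lit 71) (nat_lit 2) (nat_lit 7) (.e false (nat_lit 6) (nat_lit 89) (nat_lit 1) (nat_lit 8) .nil)))))))))))))))))))) .leaf)) (nat_lit 27649) (nat_lit 67) (.p (nat_lit 56) (nat_lit 6) .z) .df (.nd (.nd (.nd .leaf (nat_lit 27650) (nat_lit 85) (.p (nat_lit 65) (nat_lit 6) .z) .df .leaf) (nat_lit 27654) (nat_lit 222) (.p (nat_lit 117) (nat_lit 6) (.p (nat_lit 122) (nat_lit 6) (.p (nat_lit 125) (nat_lit 6) (.n (nat_lit 126) (nat_lit 6) (.p (nat_lit 131) (nat_lit 6) .z))))) (.ct dW2x_c546 (nat_lit 6) (nat_lit 5) (.s false (nat_lit 1) (nat_lit 12) (nat_lit 1) (nat_lit 0) (nat_lit 2) true (nat_lit 5) true (nat_lit 9) true (nat_lit 0) true (nat_lit 10) true (nat_lit 11) (.a false (nat_lit 18) (nat_lit 12) (nat_lit 12) (nat_lit 0) (nat_lit 0) (.e false (nat_lit 6) (nat_lit 60) (nat_lit 2) (nat_lit 9) (.e false (nat_lit 6) (nat_lit 65) (nat_lit 1) (nat_lit 10) (.e false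 (nat_lit 6) (nat_lit 70) (nat_lit 1) (nat_lit 10) (.e true (nat_lit 6) (nat_lit 71) (nat_lit 1) (nat_lit 10) (.e false (nat_lit 6) (nat_lit 80) (nat_lit 0) (nat_lit 11) .nil)))))))) .leaf) (nat_lit 27655) (nat_lit 277) (.n (nat_lit 138) (nat_lit 60) (.n (nat_lit 139) (nat_lit 12) (.n (nat_lit 140) (nat_lit 30) (.n (nat_lit 141) (nat_lit 114) (.p (nat_lit 142) (nat_lit 54) (.n (nat_lit 143) (nat_lit 30) (.p (nat_lit 144) (nat_lit 72) (.p (nat_lit 145) (nat_lit 54) (.p (nat_lit 146) (nat_lit 144) (.p (nat_lit 147) (nat_lit 24) (.n (nat_lit 148) (nat_lit 6) (.n (nat_lit 149) (nat_lit 42) (.n (nat_lit 150) (nat_lit 60) (.n (nat_lit 151) (nat_lit 18) (.n (nat_lit 152) (nat_lit 12) (.p (nat_lit 153) (nat_lit 48) (.p (nat_lit 154) (nat_lit 54) (.n (nat_lit 155) (nat_lit 6) (.p (nat_lit 156) (nat_lit 42) (.p (nat_lit 157) (nat_lit 18) (.p (nat_lit 158) (nat_lit 36) .z))))))))))))))))))))) (.ct dW2x_c531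 (nat_lit 6) (nat_lit 3) (.s false (nat_lit 1) (nat_lit 12) (nat_lit 0) (nat_lit 2) (nat_lit 2) true (nat_lit 5) true (nat_lit 7) true (nat_lit 0) true (nat_lit 9) true (nat_lit 7) (.s false (nat_lit 1) (nat_lit 12) (nat_lit 2) (nat_lit 0) (nat_lit 2) true (nat_lit 3) true (nat_lit 7) true (nat_lit 0) true (nat_lit 7) true (nat_lit 9) (.e false (nat_lit 6) (nat_lit 38) (nat_lit 5) (nat_lit 5) (.e false (nat_lit 12) (nat_lit 65) (nat_lit 2) (nat_lit 7) (.e true (nat_lit 6) (nat_lit 103) (nat_lit 0) (nat_lit 9) (.e false (nat_lit 12) (nat_lit 69) (nat_lit 2) (nat_lit 7) (.e false (nat_lit 6) (nat_lit 70) (nat_lit 2) (nat_lit 7) (.e true (nat_lit 6) (nat_lit 71) (nat_lit 2) (nat_lit 7) (.e false (nat_lit 6) (nat_lit 94) (nat_lit 0) (nat_lit 9) .nil)))))))))) (.nd .leaf (nat_lit 28673) (nat_lit 68) (.p (nat_lit 57) (nat_lit 6) .z) .df .leaf)))) (nat_lit 28674) (nat_lit 86) (.p (nat_lit 66) (nat_lit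 6) .z) .df (.nd (.nd (.nd (.nd (.nd .leaf (nat_lit 28678) (nat_lit 202) (.p (nat_lit 111) (nat_lit 9) (.n (nat_lit 112) (nat_lit 3) (.n (nat_lit 113) (nat_lit 6) (.p (nat_lit 114) (nat_lit 9) (.p (nat_lit 115) (nat_lit 12) (.p (nat_lit 116) (nat_lit 12) (.p (nat_lit 117) (nat_lit 9) (.n (nat_lit 118) (nat_lit 27) (.n (nat_lit 119) (nat_lit 21) (.n (nat_lit 120) (nat_lit 21) (.n (nat_lit 123) (nat_lit 3) (.p (nat_lit 124) (nat_lit 3) (.n (nat_lit 125) (nat_lit 6) (.p (nat_lit 126) (nat_lit 6) (.p (nat_lit 127) (nat_lit 3) (.p (nat_lit 128) (nat_lit 3) (.p (nat_lit 129) (nat_lit 3) (.p (nat_lit 130) (nat_lit 6) (.n (nat_lit 131) (nat_lit 3) (.p (nat_lit 132) (nat_lit 9) (.n (nat_lit 133) (nat_lit 3) (.p (nat_lit 134) (nat_lit 3) (.n (nat_lit 135) (nat_lit 3) (.p (nat_lit 136) (nat_lit 3) (.p (nat_lit 137) (nat_lit 6) .z))))))))))))))))))))))))) (.ct dW2x_c546 (nat_lit 12) (nat_lit 5) (.s true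 (nat_lit 1) (nat_lit 6) (nat_lit 0) (nat_lit 0) (nat_lit 6) true (nat_lit 0) true (nat_lit 5) true (nat_lit 5) true (nat_lit 11) true (nat_lit 11) (.s false (nat_lit 2) (nat_lit 6) (nat_lit 0) (nat_lit 1) (nat_lit 5) true (nat_lit 1) true (nat_lit 6) true (nat_lit 5) true (nat_lit 11) true (nat_lit 10) (.s true (nat_lit 1) (nat_lit 14) (nat_lit 0) (nat_lit 1) (nat_lit 2) true (nat_lit 6) true (nat_lit 9) true (nat_lit 0) true (nat_lit 11) true (nat_lit 10) (.s false (nat_lit 2) (nat_lit 12) (nat_lit 1) (nat_lit 0) (nat_lit 2) true (nat_lit 5) true (nat_lit 9) true (nat_lit 0) true (nat_lit 10) true (nat_lit 11) (.s true (nat_lit 1) (nat_lit 14) (nat_lit 1) (nat_lit 0) (nat_lit 2) true (nat_lit 5) true (nat_lit 9) true (nat_lit 0) true (nat_lit 10) true (nat_lit 11) (.s true (nat_lit 1) (nat_lit 14) (nat_lit 2) (nat_lit 1) (nat_lit 0) true (nat_lit 6) true (nat_lit 11) true (nat_lit 0) true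 (nat_lit 9) true (nat_lit 10) (.s true (nat_lit 2) (nat_lit 16) (nat_lit 0) (nat_lit 2) (nat_lit 0) false (nat_lit 12) true (nat_lit 11) false (nat_lit 1) true (nat_lit 11) true (nat_lit 9) (.a true (nat_lit 36) (nat_lit 14) (nat_lit 14) (nat_lit 0) (nat_lit 0) (.a false (nat_lit 36) (nat_lit 12) (nat_lit 12) (nat_lit 0) (nat_lit 0) (.e false (nat_lit 12) (nat_lit 84) (nat_lit 0) (nat_lit 11) (.e true (nat_lit 12) (nat_lit 86) (nat_lit 0) (nat_lit 11) (.e false (nat_lit 12) (nat_lit 88) (nat_lit 0) (nat_lit 11) (.e false (nat_lit 12) (nat_lit 26) (nat_lit 6) (nat_lit 5) (.e false (nat_lit 6) (nat_lit 69) (nat_lit 1) (nat_lit 10) (.e false (nat_lit 6) (nat_lit 70) (nat_lit 1) (nat_lit 10) (.e true (nat_lit 6) (nat_lit 73) (nat_lit 1) (nat_lit 10) (.e true (nat_lit 18) (nat_lit 71) (nat_lit 1) (nat_lit 10) (.e false (nat_lit 6) (nat_lit 60) (nat_lit 2) (nat_lit 9) (.e false (nat_lit 12) (nat_lit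 65) (nat_lit 1) (nat_lit 10) (.e true (nat_lit 6) (nat_lit 62) (nat_lit 2) (nat_lit 9) (.e true (nat_lit 6) (nat_lit 59) (nat_lit 2) (nat_lit 9) (.e false (nat_lit 6) (nat_lit 61) (nat_lit 2) (nat_lit 9) (.e false (nat_lit 12) (nat_lit 81) (nat_lit 0) (nat_lit 11) .nil)))))))))))))))))))))))) .leaf) (nat_lit 28679) (nat_lit 267) (.n (nat_lit 138) (nat_lit 90) (.n (nat_lit 139) (nat_lit 30) (.n (nat_lit 140) (nat_lit 36) (.n (nat_lit 141) (nat_lit 186) (.p (nat_lit 142) (nat_lit 96) (.n (nat_lit 143) (nat_lit 36) (.p (nat_lit 144) (nat_lit 102) (.p (nat_lit 145) (nat_lit 90) (.p (nat_lit 146) (nat_lit 222) (.p (nat_lit 147) (nat_lit 42) (.n (nat_lit 149) (nat_lit 72) (.n (nat_lit 150) (nat_lit 102) (.n (nat_lit 151) (nat_lit 24) (.n (nat_lit 152) (nat_lit 30) (.p (nat_lit 153) (nat_lit 72) (.p (nat_lit 154) (nat_lit 78) (.n (nat_lit 155) (nat_lit 18) (.p (nat_lit 156) (nat_lit 54) (.p (nat_lit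 157) (nat_lit 24) (.p (nat_lit 158) (nat_lit 54) .z)))))))))))))))))))) (.ct dW2x_c531 (nat_lit 6) (nat_lit 3) (.s true (nat_lit 1) (nat_lit 6) (nat_lit 0) (nat_lit 5) (nat_lit 2) true (nat_lit 5) true (nat_lit 7) true (nat_lit 4) true (nat_lit 9) true (nat_lit 5) (.s true (nat_lit 1) (nat_lit 6) (nat_lit 5) (nat_lit 0) (nat_lit 2) false (nat_lit 0) true (nat_lit 7) true (nat_lit 4) true (nat_lit 5) true (nat_lit 9) (.s false (nat_lit 1) (nat_lit 14) (nat_lit 2) (nat_lit 0) (nat_lit 2) true (nat_lit 3) true (nat_lit 7) true (nat_lit 0) true (nat_lit 7) true (nat_lit 9) (.e true (nat_lit 6) (nat_lit 43) (nat_lit 5) (nat_lit 5) (.e false (nat_lit 12) (nat_lit 66) (nat_lit 2) (nat_lit 7) (.e false (nat_lit 6) (nat_lit 69) (nat_lit 2) (nat_lit 7) (.e true (nat_lit 6) (nat_lit 70) (nat_lit 2) (nat_lit 7) (.e true (nat_lit 6) (nat_lit 73) (nat_lit 2) (nat_lit 7) (.e true (nat_lit 18) (nat_lit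 74) (nat_lit 2) (nat_lit 7) (.e true (nat_lit 12) (nat_lit 104) (nat_lit 0) (nat_lit 9) (.e true (nat_lit 6) (nat_lit 95) (nat_lit 0) (nat_lit 9) (.e false (nat_lit 6) (nat_lit 97) (nat_lit 0) (nat_lit 9) (.e false (nat_lit 6) (nat_lit 100) (nat_lit 0) (nat_lit 9) (.e false (nat_lit 6) (nat_lit 101) (nat_lit 0) (nat_lit 9) (.e false (nat_lit 6) (nat_lit 71) (nat_lit 2) (nat_lit 7) (.e false (nat_lit 6) (nat_lit 96) (nat_lit 0) (nat_lit 9) .nil))))))))))))))))) .leaf) (nat_lit 29696) (nat_lit 69) (.p (nat_lit 58) (nat_lit 6) .z) .df (.nd (.nd .leaf (nat_lit 29698) (nat_lit 104) (.p (nat_lit 75) (nat_lit 6) .z) .df .leaf) (nat_lit 29701) (nat_lit 215) (.p (nat_lit 111) (nat_lit 6) (.n (nat_lit 112) (nat_lit 12) (.n (nat_lit 113) (nat_lit 12) (.n (nat_lit 116) (nat_lit 6) (.n (nat_lit 117) (nat_lit 12) (.p (nat_lit 118) (nat_lit 6) (.p (nat_lit 119) (nat_lit 12) (.p (nat_lit 120) (nat_lit 6)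 (.n (nat_lit 121) (nat_lit 6) (.n (nat_lit 122) (nat_lit 12) (.n (nat_lit 124) (nat_lit 6) (.n (nat_lit 125) (nat_lit 6) (.p (nat_lit 126) (nat_lit 6) (.p (nat_lit 127) (nat_lit 6) (.p (nat_lit 129) (nat_lit 6) (.p (nat_lit 130) (nat_lit 6) (.p (nat_lit 133) (nat_lit 6) (.n (nat_lit 135) (nat_lit 6) (.n (nat_lit 136) (nat_lit 6) (.n (nat_lit 137) (nat_lit 6) .z)))))))))))))))))))) (.ct dW2x_c546 (nat_lit 6) (nat_lit 6) (.s false (nat_lit 1) (nat_lit 5) (nat_lit 1) (nat_lit 3) (nat_lit 2) true (nat_lit 5) true (nat_lit 9) true (nat_lit 6) true (nat_lit 10) true (nat_lit 8) (.s true (nat_lit 1) (nat_lit 12) (nat_lit 1) (nat_lit 0) (nat_lit 2) true (nat_lit 5) true (nat_lit 9) true (nat_lit 0) true (nat_lit 10) true (nat_lit 11) (.a true (nat_lit 18) (nat_lit 12) (nat_lit 12) (nat_lit 0) (nat_lit 0) (.e true (nat_lit 6) (nat_lit 26) (nat_lit 6) (nat_lit 5) (.e false (nat_lit 6) (nat_lit 28)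 (nat_lit 6) (nat_lit 5) (.e false (nat_lit 6) (nat_lit 54) (nat_lit 2) (nat_lit 9) (.e true (nat_lit 6) (nat_lit 55) (nat_lit 2) (nat_lit 9) (.e true (nat_lit 6) (nat_lit 56) (nat_lit 2) (nat_lit 9) (.e true (nat_lit 12) (nat_lit 60) (nat_lit 2) (nat_lit 9) (.e false (nat_lit 6) (nat_lit 62) (nat_lit 2) (nat_lit 9) (.e true (nat_lit 12) (nat_lit 65) (nat_lit 1) (nat_lit 10) (.e true (nat_lit 12) (nat_lit 70) (nat_lit 1) (nat_lit 10) (.e false (nat_lit 12) (nat_lit 71) (nat_lit 1) (nat_lit 10) (.e true (nat_lit 6) (nat_lit 41) (nat_lit 3) (nat_lit 8) (.e true (nat_lit 6) (nat_lit 80) (nat_lit 0) (nat_lit 11) .nil)))))))))))))))) .leaf)) (nat_lit 29703) (nat_lit 324) (.p (nat_lit 159) (nat_lit 10) (.n (nat_lit 160) (nat_lit 10) (.n (nat_lit 161) (nat_lit 16) (.n (nat_lit 162) (nat_lit 6) (.p (nat_lit 163) (nat_lit 2) (.p (nat_lit 164) (nat_lit 8) (.n (nat_lit 165) (nat_lit 8) (.p (nat_lit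 166) (nat_lit 4) (.n (nat_lit 167) (nat_lit 2) (.p (nat_lit 168) (nat_lit 2) (.n (nat_lit 169) (nat_lit 6) (.n (nat_lit 170) (nat_lit 4) (.p (nat_lit 171) (nat_lit 8) (.p (nat_lit 172) (nat_lit 6) (.p (nat_lit 174) (nat_lit 9) (.n (nat_lit 175) (nat_lit 9) (.p (nat_lit 176) (nat_lit 1) (.n (nat_lit 177) (nat_lit 3) (.p (nat_lit 179) (nat_lit 6) (.p (nat_lit 180) (nat_lit 4) (.n (nat_lit 181) (nat_lit 6) (.n (nat_lit 182) (nat_lit 2) (.p (nat_lit 183) (nat_lit 2) (.p (nat_lit 184) (nat_lit 6) .z)))))))))))))))))))))))) (.ct dW2x_c291 (nat_lit 6) (nat_lit 3) (.s false (nat_lit 1) (nat_lit 6) (nat_lit 3) (nat_lit 2) (nat_lit 2) true (nat_lit 1) true (nat_lit 8) true (nat_lit 4) true (nat_lit 7) true (nat_lit 8) (.s true (nat_lit 1) (nat_lit 7) (nat_lit 1) (nat_lit 3) (nat_lit 2) true (nat_lit 4) true (nat_lit 8) true (nat_lit 3) true (nat_lit 9) true (nat_lit 7) (.s false (nat_lit 1) (nat_lit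 7) (nat_lit 2) (nat_lit 3) (nat_lit 1) true (nat_lit 4) true (nat_lit 9) true (nat_lit 3) true (nat_lit 8) true (nat_lit 7) (.s true (nat_lit 1) (nat_lit 12) (nat_lit 2) (nat_lit 1) (nat_lit 2) true (nat_lit 3) true (nat_lit 8) true (nat_lit 1) true (nat_lit 8) true (nat_lit 9) (.e false (nat_lit 6) (nat_lit 77) (nat_lit 2) (nat_lit 8) (.e false (nat_lit 6) (nat_lit 78) (nat_lit 2) (nat_lit 8) (.e false (nat_lit 6) (nat_lit 79) (nat_lit 2) (nat_lit 8) (.e false (nat_lit 6) (nat_lit 38) (nat_lit 6) (nat_lit 4) (.e true (nat_lit 6) (nat_lit 80) (nat_lit 2) (nat_lit 8) (.e false (nat_lit 6) (nat_lit 95) (nat_lit 1) (nat_lit 9) (.e true (nat_lit 6) (nat_lit 96) (nat_lit 1) (nat_lit 9) (.e true (nat_lit 6) (nat_lit 97) (nat_lit 1) (nat_lit 9) (.e true (nat_lit 6) (nat_lit 99) (nat_lit 1) (nat_lit 9) (.e true (nat_lit 6) (nat_lit 76) (nat_lit 2) (nat_lit 8) (.e false (nat_lit 6) (nat_lit 94) (nat_lit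 1) (nat_lit 9) .nil)))))))))))))))) (.nd (.nd (.nd .leaf (nat_lit 30720) (nat_lit 70) (.p (nat_lit 59) (nat_lit 6) .z) .df .leaf) (nat_lit 30722) (nat_lit 121) (.n (nat_lit 76) (nat_lit 6) (.p (nat_lit 77) (nat_lit 6) (.n (nat_lit 78) (nat_lit 6) (.n (nat_lit 80) (nat_lit 6) (.p (nat_lit 81) (nat_lit 6) (.n (nat_lit 82) (nat_lit 6) (.p (nat_lit 84) (nat_lit 6) (.p (nat_lit 87) (nat_lit 12) (.p (nat_lit 88) (nat_lit 12) .z))))))))) (.ct dW2x_c290 (nat_lit 6) (nat_lit 5) (.s false (nat_lit 1) (nat_lit 6) (nat_lit 0) (nat_lit 2) (nat_lit 1) true (nat_lit 4) true (nat_lit 6) true (nat_lit 1) true (nat_lit 7) true (nat_lit 5) (.e false (nat_lit 6) (nat_lit 19) (nat_lit 3) (nat_lit 4) (.e false (nat_lit 6) (nat_lit 40) (nat_lit 1) (nat_lit 6) (.e true (nat_lit 6) (nat_lit 13) (nat_lit 6) (nat_lit 1) (.e true (nat_lit 6) (nat_lit 29) (nat_lit 2) (nat_lit 5) (.e true (nat_lit 6) (nat_lit 31) (nat_lit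 2) (nat_lit 5) (.e false (nat_lit 12) (nat_lit 32) (nat_lit 2) (nat_lit 5) (.e false (nat_lit 6) (nat_lit 33) (nat_lit 2) (nat_lit 5) (.e false (nat_lit 6) (nat_lit 34) (nat_lit 2) (nat_lit 5) .nil)))))))))) .leaf) (nat_lit 30725) (nat_lit 218) (.n (nat_lit 111) (nat_lit 24) (.p (nat_lit 112) (nat_lit 12) (.p (nat_lit 113) (nat_lit 24) (.n (nat_lit 114) (nat_lit 12) (.n (nat_lit 115) (nat_lit 24) (.n (nat_lit 116) (nat_lit 30) (.n (nat_lit 117) (nat_lit 12) (.p (nat_lit 118) (nat_lit 60) (.p (nat_lit 119) (nat_lit 36) (.p (nat_lit 120) (nat_lit 42) (.p (nat_lit 121) (nat_lit 12) (.p (nat_lit 122) (nat_lit 24) (.p (nat_lit 123) (nat_lit 12) (.p (nat_lit 124) (nat_lit 6) (.p (nat_lit 125) (nat_lit 24) (.n (nat_lit 126) (nat_lit 24) (.n (nat_lit 127) (nat_lit 18) (.n (nat_lit 128) (nat_lit 12) (.n (nat_lit 129) (nat_lit 18) (.n (nat_lit 130) (nat_lit 12) (.p (nat_lit 131) (nat_lit 6) (.n (nat_lit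 132) (nat_lit 18) (.p (nat_lit 133) (nat_lit 6) (.n (nat_lit 135) (nat_lit 6) (.n (nat_lit 136) (nat_lit 6) (.n (nat_lit 137) (nat_lit 12) .z)))))))))))))))))))))))))) (.ct dW2x_c546 (nat_lit 6) (nat_lit 6) (.s false (nat_lit 1) (nat_lit 5) (nat_lit 1) (nat_lit 1) (nat_lit 5) true (nat_lit 0) true (nat_lit 6) true (nat_lit 6) true (nat_lit 10) true (nat_lit 10) (.s false (nat_lit 2) (nat_lit 12) (nat_lit 0) (nat_lit 1) (nat_lit 2) true (nat_lit 6) true (nat_lit 9) true (nat_lit 0) true (nat_lit 11) true (nat_lit 10) (.a false (nat_lit 18) (nat_lit 13) (nat_lit 13) (nat_lit 0) (nat_lit 0) (.a true (nat_lit 36) (nat_lit 12) (nat_lit 12) (nat_lit 0) (nat_lit 0) (.e false (nat_lit 18) (nat_lit 32) (nat_lit 5) (nat_lit 6) (.e false (nat_lit 12) (nat_lit 33) (nat_lit 5) (nat_lit 6) (.e false (nat_lit 6) (nat_lit 34) (nat_lit 5) (nat_lit 6) (.e true (nat_lit 6) (nat_lit 64) (nat_lit 1) (nat_lit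 10) (.e true (nat_lit 6) (nat_lit 65) (nat_lit 1) (nat_lit 10) (.e false (nat_lit 6) (nat_lit 67) (nat_lit 1) (nat_lit 10) (.e false (nat_lit 6) (nat_lit 69) (nat_lit 1) (nat_lit 10) (.e false (nat_lit 6) (nat_lit 73) (nat_lit 1) (nat_lit 10) (.e false (nat_lit 6) (nat_lit 74) (nat_lit 1) (nat_lit 10) (.e false (nat_lit 6) (nat_lit 71) (nat_lit 1) (nat_lit 10) (.e true (nat_lit 6) (nat_lit 68) (nat_lit 1) (nat_lit 10) (.e false (nat_lit 12) (nat_lit 56) (nat_lit 2) (nat_lit 9) (.e true (nat_lit 12) (nat_lit 88) (nat_lit 0) (nat_lit 11) .nil)))))))))))))))))) (.nd .leaf (nat_lit 30727) (nat_lit 326) (.n (nat_lit 159) (nat_lit 10) (.p (nat_lit 160) (nat_lit 10) (.p (nat_lit 161) (nat_lit 10) (.p (nat_lit 162) (nat_lit 18) (.n (nat_lit 163) (nat_lit 2) (.p (nat_lit 164) (nat_lit 4) (.p (nat_lit 165) (nat_lit 8) (.n (nat_lit 166) (nat_lit 4) (.p (nat_lit 167) (nat_lit 2) (.p (nat_lit 168) (nat_lit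 4) (.p (nat_lit 170) (nat_lit 4) (.n (nat_lit 171) (nat_lit 2) (.n (nat_lit 172) (nat_lit 6) (.n (nat_lit 173) (nat_lit 6) (.p (nat_lit 174) (nat_lit 6) (.p (nat_lit 175) (nat_lit 6) (.p (nat_lit 176) (nat_lit 2) (.n (nat_lit 177) (nat_lit 6) (.n (nat_lit 178) (nat_lit 6) (.n (nat_lit 180) (nat_lit 4) (.p (nat_lit 181) (nat_lit 6) (.n (nat_lit 182) (nat_lit 4) (.p (nat_lit 183) (nat_lit 4) .z))))))))))))))))))))))) (.ct dW2x_c291 (nat_lit 6) (nat_lit 3) (.s false (nat_lit 1) (nat_lit 7) (nat_lit 1) (nat_lit 5) (nat_lit 1) true (nat_lit 6) true (nat_lit 9) true (nat_lit 3) true (nat_lit 9) true (nat_lit 5) (.s true (nat_lit 1) (nat_lit 7) (nat_lit 4) (nat_lit 0) (nat_lit 2) true (nat_lit 0) true (nat_lit 8) true (nat_lit 3) true (nat_lit 6) true (nat_lit 10) (.s true (nat_lit 1) (nat_lit 15) (nat_lit 2) (nat_lit 2) (nat_lit 0) true (nat_lit 5) true (nat_lit 10) true (nat_lit 0) true (nat_lit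 8) true (nat_lit 8) (.e false (nat_lit 12) (nat_lit 95) (nat_lit 1) (nat_lit 9) (.e true (nat_lit 12) (nat_lit 96) (nat_lit 1) (nat_lit 9) (.e false (nat_lit 6) (nat_lit 100) (nat_lit 1) (nat_lit 9) (.e false (nat_lit 12) (nat_lit 103) (nat_lit 1) (nat_lit 9) (.e false (nat_lit 6) (nat_lit 32) (nat_lit 7) (nat_lit 3) (.e true (nat_lit 12) (nat_lit 94) (nat_lit 1) (nat_lit 9) (.e true (nat_lit 6) (nat_lit 101) (nat_lit 1) (nat_lit 9) (.e true (nat_lit 6) (nat_lit 45) (nat_lit 5) (nat_lit 5) (.e true (nat_lit 6) (nat_lit 46) (nat_lit 5) (nat_lit 5) (.e false (nat_lit 12) (nat_lit 87) (nat_lit 2) (nat_lit 8) (.e true (nat_lit 12) (nat_lit 105) (nat_lit 0) (nat_lit 10) (.e false (nat_lit 6) (nat_lit 106) (nat_lit 0) (nat_lit 10) (.e false (nat_lit 6) (nat_lit 107) (nat_lit 0) (nat_lit 10) (.e true (nat_lit 6) (nat_lit 109) (nat_lit 0) (nat_lit 10) (.e true (nat_lit 6) (nat_lit 110) (nat_lit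 0) (nat_lit 10) (.e true (nat_lit 6) (nat_lit 76) (nat_lit 2) (nat_lit 8) (.e false (nat_lit 12) (nat_lit 79) (nat_lit 2) (nat_lit 8) (.e false (nat_lit 6) (nat_lit 81) (nat_lit 2) (nat_lit 8) (.e true (nat_lit 6) (nat_lit 82) (nat_lit 2) (nat_lit 8) (.e false (nat_lit 6) (nat_lit 88) (nat_lit 2) (nat_lit 8) .nil)))))))))))))))))))))))) .leaf))) (nat_lit 31744) (nat_lit 71) (.p (nat_lit 60) (nat_lit 6) .z) .df (.nd (.nd (.nd (.nd .leaf (nat_lit 31746) (nat_lit 105) (.p (nat_lit 76) (nat_lit 6) .z) .df .leaf) (nat_lit 31749) (nat_lit 230) (.n (nat_lit 112) (nat_lit 6) (.n (nat_lit 113) (nat_lit 12) (.n (nat_lit 116) (nat_lit 3) (.n (nat_lit 117) (nat_lit 3) (.p (nat_lit 118) (nat_lit 3) (.p (nat_lit 119) (nat_lit 9) (.p (nat_lit 120) (nat_lit 6) (.n (nat_lit 121) (nat_lit 6) (.n (nat_lit 122) (nat_lit 6) (.n (nat_lit 124) (nat_lit 15) (.p (nat_lit 125) (nat_lit 3) (.p (nat_lit 126) (nat_lit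 3) (.p (nat_lit 127) (nat_lit 6) (.p (nat_lit 128) (nat_lit 3) (.p (nat_lit 129) (nat_lit 6) (.p (nat_lit 130) (nat_lit 6) (.p (nat_lit 131) (nat_lit 6) (.n (nat_lit 132) (nat_lit 6) (.p (nat_lit 133) (nat_lit 6) (.n (nat_lit 134) (nat_lit 6) (.n (nat_lit 136) (nat_lit 6) .z))))))))))))))))))))) (.ct dW2x_c546 (nat_lit 6) (nat_lit 6) (.s true (nat_lit 1) (nat_lit 12) (nat_lit 0) (nat_lit 1) (nat_lit 2) true (nat_lit 6) true (nat_lit 9) true (nat_lit 0) true (nat_lit 11) true (nat_lit 10) (.a false (nat_lit 18) (nat_lit 12) (nat_lit 12) (nat_lit 0) (nat_lit 0) (.e true (nat_lit 6) (nat_lit 56) (nat_lit 2) (nat_lit 9) (.e false (nat_lit 6) (nat_lit 88) (nat_lit 0) (nat_lit 11) (.e true (nat_lit 6) (nat_lit 69) (nat_lit 1) (nat_lit 10) .nil)))))) .leaf) (nat_lit 31751) (nat_lit 337) (.p (nat_lit 159) (nat_lit 6) (.n (nat_lit 163) (nat_lit 12) (.p (nat_lit 166) (nat_lit 6) (.p (nat_lit 167)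 (nat_lit 6) (.n (nat_lit 172) (nat_lit 6) (.p (nat_lit 181) (nat_lit 6) .z)))))) (.ct dW2x_c291 (nat_lit 6) (nat_lit 3) (.s false (nat_lit 1) (nat_lit 12) (nat_lit 1) (nat_lit 2) (nat_lit 2) true (nat_lit 4) true (nat_lit 8) true (nat_lit 1) true (nat_lit 9) true (nat_lit 8) (.s true (nat_lit 1) (nat_lit 12) (nat_lit 2) (nat_lit 1) (nat_lit 2) true (nat_lit 3) true (nat_lit 8) true (nat_lit 1) true (nat_lit 8) true (nat_lit 9) (.e false (nat_lit 6) (nat_lit 38) (nat_lit 6) (nat_lit 4) (.e false (nat_lit 6) (nat_lit 76) (nat_lit 2) (nat_lit 8) (.e true (nat_lit 6) (nat_lit 103) (nat_lit 1) (nat_lit 9) (.e true (nat_lit 12) (nat_lit 80) (nat_lit 2) (nat_lit 8) (.e false (nat_lit 6) (nat_lit 88) (nat_lit 2) (nat_lit 8) (.e false (nat_lit 6) (nat_lit 94) (nat_lit 1) (nat_lit 9) .nil))))))))) (.nd (.nd .leaf (nat_lit 32768) (nat_lit 72) (.p (nat_lit 61) (nat_lit 6) .z) .df .leaf) (nat_lit 32770)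 (nat_lit 106) (.p (nat_lit 77) (nat_lit 6) .z) .df .leaf)) (nat_lit 32773) (nat_lit 208) (.n (nat_lit 111) (nat_lit 6) (.p (nat_lit 112) (nat_lit 6) (.p (nat_lit 113) (nat_lit 6) (.n (nat_lit 115) (nat_lit 6) (.n (nat_lit 116) (nat_lit 3) (.p (nat_lit 117) (nat_lit 3) (.p (nat_lit 118) (nat_lit 9) (.p (nat_lit 119) (nat_lit 3) (.p (nat_lit 120) (nat_lit 6) (.p (nat_lit 121) (nat_lit 12) (.p (nat_lit 122) (nat_lit 18) (.p (nat_lit 123) (nat_lit 6) (.p (nat_lit 124) (nat_lit 9) (.p (nat_lit 125) (nat_lit 3) (.n (nat_lit 126) (nat_lit 9) (.n (nat_lit 127) (nat_lit 12) (.n (nat_lit 128) (nat_lit 9) (.n (nat_lit 129) (nat_lit 18) (.n (nat_lit 130) (nat_lit 6) (.n (nat_lit 132) (nat_lit 6) .z)))))))))))))))))))) (.ct dW2x_c546 (nat_lit 6) (nat_lit 6) (.s true (nat_lit 1) (nat_lit 13) (nat_lit 0) (nat_lit 1) (nat_lit 2) true (nat_lit 6) true (nat_lit 9) true (nat_lit 0) true (nat_lit 11) true (nat_lit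 10) (.s true (nat_lit 1) (nat_lit 12) (nat_lit 0) (nat_lit 2) (nat_lit 1) true (nat_lit 8) true (nat_lit 10) true (nat_lit 0) true (nat_lit 11) true (nat_lit 9) (.a false (nat_lit 36) (nat_lit 12) (nat_lit 13) (nat_lit 0) (nat_lit 0) (.e false (nat_lit 6) (nat_lit 54) (nat_lit 2) (nat_lit 9) (.e true (nat_lit 6) (nat_lit 55) (nat_lit 2) (nat_lit 9) (.e true (nat_lit 6) (nat_lit 56) (nat_lit 2) (nat_lit 9) (.e false (nat_lit 6) (nat_lit 78) (nat_lit 0) (nat_lit 11) (.e false (nat_lit 6) (nat_lit 82) (nat_lit 0) (nat_lit 11) (.e true (nat_lit 6) (nat_lit 86) (nat_lit 0) (nat_lit 11) (.e true (nat_lit 6) (nat_lit 87) (nat_lit 0) (nat_lit 11) (.e true (nat_lit 6) (nat_lit 70) (nat_lit 1) (nat_lit 10) (.e true (nat_lit 6) (nat_lit 38) (nat_lit 3) (nat_lit 8) (.e true (nat_lit 6) (nat_lit 65) (nat_lit 1) (nat_lit 10) (.e true (nat_lit 6) (nat_lit 60) (nat_lit 2) (nat_lit 9) .nil)))))))))))))))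 (.nd (.nd (.nd .leaf (nat_lit 32775) (nat_lit 307) (.p (nat_lit 179) (nat_lit 6) .z) .df .leaf) (nat_lit 33792) (nat_lit 73) (.p (nat_lit 62) (nat_lit 6) .z) .df .leaf) (nat_lit 33794) (nat_lit 107) (.p (nat_lit 78) (nat_lit 6) .z) .df (.nd .leaf (nat_lit 33797) (nat_lit 216) (.p (nat_lit 111) (nat_lit 9) (.n (nat_lit 112) (nat_lit 3) (.n (nat_lit 113) (nat_lit 6) (.p (nat_lit 114) (nat_lit 9) (.p (nat_lit 115) (nat_lit 18) (.p (nat_lit 116) (nat_lit 15) (.p (nat_lit 117) (nat_lit 12) (.n (nat_lit 118) (nat_lit 36) (.n (nat_lit 119) (nat_lit 30) (.n (nat_lit 120) (nat_lit 27) (.n (nat_lit 123) (nat_lit 3) (.n (nat_lit 125) (nat_lit 3) (.p (nat_lit 126) (nat_lit 3) (.p (nat_lit 127) (nat_lit 3) (.p (nat_lit 128) (nat_lit 6) (.p (nat_lit 129) (nat_lit 9) (.p (nat_lit 130) (nat_lit 6) (.n (nat_lit 131) (nat_lit 3) (.p (nat_lit 132) (nat_lit 9) (.n (nat_lit 133) (nat_lit 9) (.p (nat_lit 134)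 (nat_lit 3) (.n (nat_lit 135) (nat_lit 3) (.p (nat_lit 136) (nat_lit 3) (.p (nat_lit 137) (nat_lit 6) .z)))))))))))))))))))))))) (.ct dW2x_c546 (nat_lit 6) (nat_lit 6) (.s true (nat_lit 1) (nat_lit 14) (nat_lit 2) (nat_lit 1) (nat_lit 0) true (nat_lit 6) true (nat_lit 11) true (nat_lit 0) true (nat_lit 9) true (nat_lit 10) (.a true (nat_lit 18) (nat_lit 14) (nat_lit 14) (nat_lit 0) (nat_lit 0) (.e true (nat_lit 6) (nat_lit 82) (nat_lit 0) (nat_lit 11) (.e false (nat_lit 6) (nat_lit 57) (nat_lit 2) (nat_lit 9) (.e false (nat_lit 12) (nat_lit 58) (nat_lit 2) (nat_lit 9) (.e false (nat_lit 6) (nat_lit 59) (nat_lit 2) (nat_lit 9) (.e false (nat_lit 6) (nat_lit 60) (nat_lit 2) (nat_lit 9) (.e true (nat_lit 18) (nat_lit 61) (nat_lit 2) (nat_lit 9) (.e true (nat_lit 12) (nat_lit 62) (nat_lit 2) (nat_lit 9) (.e true (nat_lit 12) (nat_lit 63) (nat_lit 2) (nat_lit 9) (.e false (nat_lit 6) (nat_lit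 66) (nat_lit 1) (nat_lit 10) .nil)))))))))))) .leaf))))))

noncomputable def dW2x_t2 : Tr := (.nd dW2x_t0 (nat_lit 17417) (nat_lit 227) (.n (nat_lit 111) (nat_lit 6) (.n (nat_lit 112) (nat_lit 6) (.n (nat_lit 113) (nat_lit 6) (.n (nat_lit 115) (nat_lit 6) (.n (nat_lit 116) (nat_lit 9) (.n (nat_lit 117) (nat_lit 9) (.p (nat_lit 118) (nat_lit 21) (.p (nat_lit 119) (nat_lit 27) (.p (nat_lit 120) (nat_lit 18) (.p (nat_lit 121) (nat_lit 6) (.p (nat_lit 122) (nat_lit 12) (.p (nat_lit 123) (nat_lit 6) (.n (nat_lit 124) (nat_lit 3) (.p (nat_lit 125) (nat_lit 9) (.n (nat_lit 126) (nat_lit 9) (.n (nat_lit 127) (nat_lit 6) (.n (nat_lit 128) (nat_lit 9) (.n (nat_lit 129) (nat_lit 12) (.n (nat_lit 130) (nat_lit 6) (.p (nat_lit 131) (nat_lit 6) (.n (nat_lit 132) (nat_lit 12) (.p (nat_lit 133) (nat_lit 6) (.n (nat_lit 134) (nat_lit 6) (.p (nat_lit 135) (nat_lit 6) (.n (nat_lit 136) (nat_lit 6) (.n (nat_lit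 137) (nat_lit 6) .z)))))))))))))))))))))))))) (.ct dW2x_c546 (nat_lit 6) (nat_lit 2) (.s true (nat_lit 1) (nat_lit 9) (nat_lit 2) (nat_lit 0) (nat_lit 2) true (nat_lit 4) true (nat_lit 9) true (nat_lit 2) true (nat_lit 9) true (nat_lit 11) (.e false (nat_lit 6) (nat_lit 23) (nat_lit 7) (nat_lit 4) (.e true (nat_lit 6) (nat_lit 58) (nat_lit 2) (nat_lit 9) (.e false (nat_lit 6) (nat_lit 55) (nat_lit 2) (nat_lit 9) (.e false (nat_lit 6) (nat_lit 59) (nat_lit 2) (nat_lit 9) (.e false (nat_lit 6) (nat_lit 60) (nat_lit 2) (nat_lit 9) (.e true (nat_lit 12) (nat_lit 61) (nat_lit 2) (nat_lit 9) (.e true (nat_lit 6) (nat_lit 62) (nat_lit 2) (nat_lit 9) (.e true (nat_lit 6) (nat_lit 63) (nat_lit 2) (nat_lit 9) (.e true (nat_lit 6) (nat_lit 75) (nat_lit 0) (nat_lit 11) .nil))))))))))) dW2x_t1)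

noncomputable def dW2x_t3 : Tr := (.nd (.nd (.nd (.nd (.nd (.nd (.nd .leaf (nat_lit 34816) (nat_lit 74) (.p (nat_lit 63) (nat_lit 6) .z) .df .leaf) (nat_lit 34818) (nat_lit 108) (.p (nat_lit 79) (nat_lit 6) .z) .df .leaf) (nat_lit 34821) (nat_lit 205) (.n (nat_lit 112) (nat_lit 18) (.n (nat_lit 113) (nat_lit 12) (.n (nat_lit 114) (nat_lit 6) (.n (nat_lit 115) (nat_lit 12) (.n (nat_lit 116) (nat_lit 21) (.n (nat_lit 117) (nat_lit 27) (.p (nat_lit 118) (nat_lit 39) (.p (nat_lit 119) (nat_lit 39) (.p (nat_lit 120) (nat_lit 30) (.n (nat_lit 121) (nat_lit 18) (.n (nat_lit 122) (nat_lit 24) (.n (nat_lit 124) (nat_lit 15) (.p (nat_lit 125) (nat_lit 3) (.p (nat_lit 126) (nat_lit 9) (.p (nat_lit 127) (nat_lit 12) (.p (nat_lit 128) (nat_lit 3) (.p (nat_lit 129) (nat_lit 12) (.p (nat_lit 130) (nat_lit 6) (.p (nat_lit 131) (nat_lit 6) (.n (nat_lit 132) (nat_lit 6) (.p (nat_lit 133) (nat_lit 12) (.n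 (nat_lit 134) (nat_lit 6) (.n (nat_lit 136) (nat_lit 6) (.n (nat_lit 137) (nat_lit 12) .z)))))))))))))))))))))))) (.ct dW2x_c546 (nat_lit 6) (nat_lit 6) (.s false (nat_lit 1) (nat_lit 5) (nat_lit 1) (nat_lit 3) (nat_lit 2) true (nat_lit 5) true (nat_lit 9) true (nat_lit 6) true (nat_lit 10) true (nat_lit 8) (.s false (nat_lit 1) (nat_lit 6) (nat_lit 0) (nat_lit 0) (nat_lit 6) true (nat_lit 0) true (nat_lit 5) true (nat_lit 5) true (nat_lit 11) true (nat_lit 11) (.s true (nat_lit 1) (nat_lit 6) (nat_lit 5) (nat_lit 0) (nat_lit 1) true (nat_lit 0) true (nat_lit 10) true (nat_lit 5) true (nat_lit 6) true (nat_lit 11) (.s false (nat_lit 1) (nat_lit 13) (nat_lit 0) (nat_lit 1) (nat_lit 2) true (nat_lit 6) true (nat_lit 9) true (nat_lit 0) true (nat_lit 11) true (nat_lit 10) (.s false (nat_lit 1) (nat_lit 12) (nat_lit 0) (nat_lit 2) (nat_lit 1) true (nat_lit 8) true (nat_lit 10) true (nat_lit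 0) true (nat_lit 11) true (nat_lit 9) dW2x_i6)))))) (.nd (.nd .leaf (nat_lit 34823) (nat_lit 308) (.p (nat_lit 180) (nat_lit 6) .z) .df .leaf) (nat_lit 35841) (nat_lit 87) (.p (nat_lit 67) (nat_lit 6) .z) .df .leaf)) (nat_lit 35842) (nat_lit 130) (.p (nat_lit 89) (nat_lit 6) .z) .df (.nd (.nd (.nd .leaf (nat_lit 35844) (nat_lit 214) (.n (nat_lit 111) (nat_lit 18) (.n (nat_lit 114) (nat_lit 12) (.n (nat_lit 115) (nat_lit 24) (.n (nat_lit 116) (nat_lit 33) (.n (nat_lit 117) (nat_lit 27) (.p (nat_lit 118) (nat_lit 63) (.p (nat_lit 119) (nat_lit 63) (.p (nat_lit 120) (nat_lit 54) (.n (nat_lit 121) (nat_lit 18) (.n (nat_lit 122) (nat_lit 12) (.p (nat_lit 123) (nat_lit 6) (.n (nat_lit 124) (nat_lit 27) (.p (nat_lit 125) (nat_lit 21) (.p (nat_lit 126) (nat_lit 3) (.p (nat_lit 127) (nat_lit 6) (.p (nat_lit 128) (nat_lit 3) (.p (nat_lit 129) (nat_lit 6) (.n (nat_lit 130) (nat_lit 6) (.p (nat_lit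 131) (nat_lit 12) (.n (nat_lit 132) (nat_lit 24) (.p (nat_lit 133) (nat_lit 18) (.n (nat_lit 134) (nat_lit 12) (.p (nat_lit 135) (nat_lit 6) (.n (nat_lit 136) (nat_lit 12) (.n (nat_lit 137) (nat_lit 12) .z))))))))))))))))))))))))) (.ct dW2x_c546 (nat_lit 6) (nat_lit 7) (.s true (nat_lit 1) (nat_lit 11) (nat_lit 1) (nat_lit 2) (nat_lit 1) true (nat_lit 7) true (nat_lit 10) true (nat_lit 1) true (nat_lit 10) true (nat_lit 9) (.s false (nat_lit 1) (nat_lit 11) (nat_lit 2) (nat_lit 1) (nat_lit 1) true (nat_lit 5) true (nat_lit 10) true (nat_lit 1) true (nat_lit 9) true (nat_lit 10) (.e true (nat_lit 12) (nat_lit 64) (nat_lit 1) (nat_lit 10) (.e true (nat_lit 6) (nat_lit 66) (nat_lit 1) (nat_lit 10) (.e true (nat_lit 6) (nat_lit 69) (nat_lit 1) (nat_lit 10) (.e false (nat_lit 6) (nat_lit 70) (nat_lit 1) (nat_lit 10) (.e false (nat_lit 6) (nat_lit 71) (nat_lit 1) (nat_lit 10) (.e false (nat_lit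 6) (nat_lit 73) (nat_lit 1) (nat_lit 10) (.e false (nat_lit 6) (nat_lit 74) (nat_lit 1) (nat_lit 10) (.e true (nat_lit 12) (nat_lit 55) (nat_lit 2) (nat_lit 9) (.e false (nat_lit 6) (nat_lit 26) (nat_lit 6) (nat_lit 5) (.e false (nat_lit 6) (nat_lit 67) (nat_lit 1) (nat_lit 10) (.e false (nat_lit 6) (nat_lit 54) (nat_lit 2) (nat_lit 9) (.e true (nat_lit 12) (nat_lit 56) (nat_lit 2) (nat_lit 9) (.e false (nat_lit 6) (nat_lit 57) (nat_lit 2) (nat_lit 9) (.e true (nat_lit 6) (nat_lit 59) (nat_lit 2) (nat_lit 9) (.e true (nat_lit 6) (nat_lit 60) (nat_lit 2) (nat_lit 9) (.e false (nat_lit 6) (nat_lit 61) (nat_lit 2) (nat_lit 9) (.e false (nat_lit 6) (nat_lit 62) (nat_lit 2) (nat_lit 9) (.e false (nat_lit 6) (nat_lit 63) (nat_lit 2) (nat_lit 9) .nil))))))))))))))))))))) .leaf) (nat_lit 35846) (nat_lit 272) (.n (nat_lit 138) (nat_lit 12) (.n (nat_lit 140) (nat_lit 3) (.n (nat_lit 141) (nat_lit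 27) (.p (nat_lit 142) (nat_lit 15) (.n (nat_lit 143) (nat_lit 3) (.p (nat_lit 144) (nat_lit 12) (.p (nat_lit 145) (nat_lit 15) (.p (nat_lit 146) (nat_lit 30) (.n (nat_lit 148) (nat_lit 3) (.n (nat_lit 150) (nat_lit 6) (.p (nat_lit 151) (nat_lit 3) (.n (nat_lit 152) (nat_lit 9) (.p (nat_lit 153) (nat_lit 9) (.p (nat_lit 154) (nat_lit 6) (.n (nat_lit 155) (nat_lit 6) (.p (nat_lit 157) (nat_lit 3) (.p (nat_lit 158) (nat_lit 6) .z))))))))))))))))) (.ct dW2x_c531 (nat_lit 6) (nat_lit 4) (.s false (nat_lit 1) (nat_lit 6) (nat_lit 0) (nat_lit 5) (nat_lit 2) true (nat_lit 5) true (nat_lit 7) true (nat_lit 4) true (nat_lit 9) true (nat_lit 5) (.e false (nat_lit 6) (nat_lit 38) (nat_lit 5) (nat_lit 5) (.e true (nat_lit 6) (nat_lit 39) (nat_lit 5) (nat_lit 5) (.e true (nat_lit 6) (nat_lit 42) (nat_lit 5) (nat_lit 5) (.e true (nat_lit 6) (nat_lit 66) (nat_lit 2) (nat_lit 7) (.e true (nat_lit 6) (nat_lit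 69) (nat_lit 2) (nat_lit 7) (.e false (nat_lit 6) (nat_lit 70) (nat_lit 2) (nat_lit 7) (.e false (nat_lit 6) (nat_lit 73) (nat_lit 2) (nat_lit 7) (.e false (nat_lit 12) (nat_lit 74) (nat_lit 2) (nat_lit 7) (.e false (nat_lit 6) (nat_lit 104) (nat_lit 0) (nat_lit 9) .nil))))))))))) .leaf) (nat_lit 36865) (nat_lit 98) (.n (nat_lit 64) (nat_lit 12) (.n (nat_lit 65) (nat_lit 12) (.n (nat_lit 67) (nat_lit 6) (.n (nat_lit 69) (nat_lit 12) (.p (nat_lit 70) (nat_lit 6) (.p (nat_lit 71) (nat_lit 6) (.p (nat_lit 72) (nat_lit 6) (.p (nat_lit 73) (nat_lit 12) (.p (nat_lit 74) (nat_lit 18) .z))))))))) (.ct dW2x_c530 (nat_lit 6) (nat_lit 5) (.s false (nat_lit 1) (nat_lit 5) (nat_lit 1) (nat_lit 2) (nat_lit 0) true (nat_lit 3) true (nat_lit 6) true (nat_lit 2) true (nat_lit 5) true (nat_lit 4) (.s false (nat_lit 1) (nat_lit 6) (nat_lit 2) (nat_lit 0) (nat_lit 0) true (nat_lit 2) true (nat_lit 6) true (nat_lit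 1) true (nat_lit 4) true (nat_lit 6) (.e false (nat_lit 6) (nat_lit 17) (nat_lit 3) (nat_lit 3) (.e false (nat_lit 6) (nat_lit 39) (nat_lit 0) (nat_lit 6) (.e true (nat_lit 6) (nat_lit 35) (nat_lit 1) (nat_lit 5) (.e false (nat_lit 6) (nat_lit 37) (nat_lit 1) (nat_lit 5) (.e true (nat_lit 6) (nat_lit 26) (nat_lit 2) (nat_lit 4) (.e false (nat_lit 6) (nat_lit 43) (nat_lit 0) (nat_lit 6) (.e false (nat_lit 6) (nat_lit 11) (nat_lit 6) (nat_lit 1) (.e true (nat_lit 6) (nat_lit 40) (nat_lit 0) (nat_lit 6) .nil))))))))))) (.nd .leaf (nat_lit 36866) (nat_lit 137) (.n (nat_lit 89) (nat_lit 6) (.p (nat_lit 92) (nat_lit 6) (.p (nat_lit 93) (nat_lit 6) .z))) (.ct dW2x_c515 (nat_lit 6) (nat_lit 2) (.s true (nat_lit 1) (nat_lit 5) (nat_lit 0) (nat_lit 2) (nat_lit 2) true (nat_lit 1) true (nat_lit 2) true (nat_lit 1) true (nat_lit 3) true (nat_lit 2) (.e true (nat_lit 6) (nat_lit 35) (nat_lit 2) (nat_lit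 2) (.e false (nat_lit 6) (nat_lit 48) (nat_lit 0) (nat_lit 3) (.e false (nat_lit 6) (nat_lit 49) (nat_lit 0) (nat_lit 3) .nil))))) .leaf))) (nat_lit 36870) (nat_lit 275) (.p (nat_lit 138) (nat_lit 126) (.p (nat_lit 139) (nat_lit 30) (.p (nat_lit 140) (nat_lit 51) (.p (nat_lit 141) (nat_lit 231) (.n (nat_lit 142) (nat_lit 117) (.p (nat_lit 143) (nat_lit 57) (.n (nat_lit 144) (nat_lit 126) (.n (nat_lit 145) (nat_lit 111) (.n (nat_lit 146) (nat_lit 288) (.n (nat_lit 147) (nat_lit 42) (.p (nat_lit 148) (nat_lit 15) (.p (nat_lit 149) (nat_lit 72) (.p (nat_lit 150) (nat_lit 96) (.p (nat_lit 151) (nat_lit 39) (.p (nat_lit 152) (nat_lit 21) (.n (nat_lit 153) (nat_lit 87) (.n (nat_lit 154) (nat_lit 84) (.p (nat_lit 155) (nat_lit 6) (.n (nat_lit 156) (nat_lit 78) (.n (nat_lit 157) (nat_lit 27) (.n (nat_lit 158) (nat_lit 72) .z))))))))))))))))))))) (.ct dW2x_c531 (nat_lit 6) (nat_lit 4) (.s false (nat_lit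 1) (nat_lit 5) (nat_lit 1) (nat_lit 2) (nat_lit 5) true (nat_lit 0) true (nat_lit 5) true (nat_lit 5) true (nat_lit 8) true (nat_lit 7) (.s false (nat_lit 1) (nat_lit 17) (nat_lit 2) (nat_lit 0) (nat_lit 1) true (nat_lit 4) true (nat_lit 8) false (nat_lit 0) true (nat_lit 7) true (nat_lit 9) (.e false (nat_lit 12) (nat_lit 39) (nat_lit 5) (nat_lit 5) (.e true (nat_lit 6) (nat_lit 38) (nat_lit 5) (nat_lit 5) (.e false (nat_lit 6) (nat_lit 42) (nat_lit 5) (nat_lit 5) (.e false (nat_lit 6) (nat_lit 43) (nat_lit 5) (nat_lit 5) (.e false (nat_lit 6) (nat_lit 89) (nat_lit 1) (nat_lit 8) (.e true (nat_lit 6) (nat_lit 93) (nat_lit 1) (nat_lit 8) (.e true (nat_lit 6) (nat_lit 64) (nat_lit 2) (nat_lit 7) (.e true (nat_lit 6) (nat_lit 69) (nat_lit 2) (nat_lit 7) (.e false (nat_lit 12) (nat_lit 70) (nat_lit 2) (nat_lit 7) (.e false (nat_lit 6) (nat_lit 73) (nat_lit 2) (nat_lit 7) (.e false (nat_lit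 12) (nat_lit 74) (nat_lit 2) (nat_lit 7) (.e true (nat_lit 6) (nat_lit 66) (nat_lit 2) (nat_lit 7) (.e false (nat_lit 6) (nat_lit 97) (nat_lit 0) (nat_lit 9) .nil)))))))))))))))) (.nd (.nd (.nd (.nd .leaf (nat_lit 37889) (nat_lit 88) (.p (nat_lit 68) (nat_lit 6) .z) .df .leaf) (nat_lit 37890) (nat_lit 131) (.p (nat_lit 90) (nat_lit 6) .z) .df .leaf) (nat_lit 37892) (nat_lit 213) (.p (nat_lit 111) (nat_lit 3) (.p (nat_lit 112) (nat_lit 9) (.p (nat_lit 113) (nat_lit 18) (.p (nat_lit 114) (nat_lit 21) (.p (nat_lit 115) (nat_lit 12) (.p (nat_lit 116) (nat_lit 15) (.p (nat_lit 117) (nat_lit 15) (.n (nat_lit 118) (nat_lit 27) (.n (nat_lit 119) (nat_lit 39) (.n (nat_lit 120) (nat_lit 27) (.p (nat_lit 121) (nat_lit 18) (.p (nat_lit 122) (nat_lit 36) (.p (nat_lit 123) (nat_lit 15) (.p (nat_lit 124) (nat_lit 42) (.p (nat_lit 125) (nat_lit 3) (.n (nat_lit 126) (nat_lit 3) (.n (nat_lit 127) (nat_lit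 33) (.n (nat_lit 128) (nat_lit 9) (.n (nat_lit 129) (nat_lit 33) (.n (nat_lit 130) (nat_lit 18) (.n (nat_lit 131) (nat_lit 18) (.p (nat_lit 132) (nat_lit 6) (.n (nat_lit 133) (nat_lit 24) (.p (nat_lit 134) (nat_lit 12) (.p (nat_lit 135) (nat_lit 3) (.p (nat_lit 136) (nat_lit 15) .z)))))))))))))))))))))))))) (.ct dW2x_c546 (nat_lit 6) (nat_lit 7) (.s true (nat_lit 1) (nat_lit 7) (nat_lit 0) (nat_lit 0) (nat_lit 4) true (nat_lit 2) true (nat_lit 7) true (nat_lit 4) true (nat_lit 11) true (nat_lit 11) (.s false (nat_lit 1) (nat_lit 15) (nat_lit 0) (nat_lit 0) (nat_lit 2) true (nat_lit 6) true (nat_lit 9) false (nat_lit 1) true (nat_lit 11) true (nat_lit 11) (.s true (nat_lit 1) (nat_lit 18) (nat_lit 1) (nat_lit 1) (nat_lit 0) true (nat_lit 8) true (nat_lit 11) false (nat_lit 2) true (nat_lit 10) true (nat_lit 10) (.e false (nat_lit 12) (nat_lit 77) (nat_lit 0) (nat_lit 11) (.e false (nat_lit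 12) (nat_lit 78) (nat_lit 0) (nat_lit 11) (.e false (nat_lit 6) (nat_lit 79) (nat_lit 0) (nat_lit 11) (.e true (nat_lit 12) (nat_lit 81) (nat_lit 0) (nat_lit 11) (.e false (nat_lit 12) (nat_lit 82) (nat_lit 0) (nat_lit 11) (.e true (nat_lit 24) (nat_lit 87) (nat_lit 0) (nat_lit 11) (.e true (nat_lit 12) (nat_lit 88) (nat_lit 0) (nat_lit 11) (.e false (nat_lit 6) (nat_lit 34) (nat_lit 5) (nat_lit 6) (.e false (nat_lit 6) (nat_lit 63) (nat_lit 2) (nat_lit 9) (.e true (nat_lit 6) (nat_lit 42) (nat_lit 3) (nat_lit 8) (.e true (nat_lit 6) (nat_lit 84) (nat_lit 0) (nat_lit 11) (.e false (nat_lit 12) (nat_lit 68) (nat_lit 1) (nat_lit 10) (.e false (nat_lit 12) (nat_lit 69) (nat_lit 1) (nat_lit 10) (.e true (nat_lit 12) (nat_lit 72) (nat_lit 1) (nat_lit 10) (.e true (nat_lit 6) (nat_lit 73) (nat_lit 1) (nat_lit 10) (.e true (nat_lit 12) (nat_lit 74) (nat_lit 1) (nat_lit 10) .nil))))))))))))))))))))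 (.nd (.nd .leaf (nat_lit 37894) (nat_lit 276) (.p (nat_lit 138) (nat_lit 102) (.p (nat_lit 139) (nat_lit 30) (.p (nat_lit 140) (nat_lit 42) (.p (nat_lit 141) (nat_lit 198) (.n (nat_lit 142) (nat_lit 102) (.p (nat_lit 143) (nat_lit 42) (.n (nat_lit 144) (nat_lit 108) (.n (nat_lit 145) (nat_lit 96) (.n (nat_lit 146) (nat_lit 240) (.n (nat_lit 147) (nat_lit 42) (.p (nat_lit 148) (nat_lit 6) (.p (nat_lit 149) (nat_lit 72) (.p (nat_lit 150) (nat_lit 96) (.p (nat_lit 151) (nat_lit 24) (.p (nat_lit 152) (nat_lit 30) (.n (nat_lit 153) (nat_lit 72) (.n (nat_lit 154) (nat_lit 78) (.p (nat_lit 155) (nat_lit 18) (.n (nat_lit 156) (nat_lit 54) (.n (nat_lit 157) (nat_lit 24) (.n (nat_lit 158) (nat_lit 54) .z))))))))))))))))))))) (.ct dW2x_c531 (nat_lit 6) (nat_lit 4) (.s false (nat_lit 1) (nat_lit 7) (nat_lit 0) (nat_lit 6) (nat_lit 0) false (nat_lit 10) true (nat_lit 9) true (nat_lit 3) true (nat_lit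 9) true (nat_lit 4) (.e true (nat_lit 12) (nat_lit 94) (nat_lit 0) (nat_lit 9) (.e false (nat_lit 6) (nat_lit 95) (nat_lit 0) (nat_lit 9) (.e false (nat_lit 12) (nat_lit 98) (nat_lit 0) (nat_lit 9) (.e false (nat_lit 18) (nat_lit 99) (nat_lit 0) (nat_lit 9) (.e true (nat_lit 6) (nat_lit 28) (nat_lit 7) (nat_lit 3) (.e false (nat_lit 6) (nat_lit 96) (nat_lit 0) (nat_lit 9) (.e false (nat_lit 6) (nat_lit 97) (nat_lit 0) (nat_lit 9) (.e false (nat_lit 6) (nat_lit 100) (nat_lit 0) (nat_lit 9) (.e false (nat_lit 6) (nat_lit 101) (nat_lit 0) (nat_lit 9) .nil))))))))))) .leaf) (nat_lit 38912) (nat_lit 89) (.p (nat_lit 69) (nat_lit 6) .z) .df .leaf)) (nat_lit 38913) (nat_lit 109) (.p (nat_lit 80) (nat_lit 6) .z) .df (.nd (.nd (.nd .leaf (nat_lit 38914) (nat_lit 139) (.p (nat_lit 94) (nat_lit 6) .z) .df .leaf) (nat_lit 38915) (nat_lit 197) (.p (nat_lit 111) (nat_lit 12) (.n (nat_lit 112) (nat_lit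 12) (.n (nat_lit 113) (nat_lit 12) (.p (nat_lit 115) (nat_lit 6) (.p (nat_lit 116) (nat_lit 3) (.n (nat_lit 117) (nat_lit 9) (.n (nat_lit 118) (nat_lit 9) (.n (nat_lit 119) (nat_lit 3) (.n (nat_lit 120) (nat_lit 6) (.n (nat_lit 121) (nat_lit 12) (.n (nat_lit 122) (nat_lit 24) (.n (nat_lit 123) (nat_lit 6) (.n (nat_lit 124) (nat_lit 9) (.n (nat_lit 125) (nat_lit 9) (.p (nat_lit 126) (nat_lit 9) (.p (nat_lit 127) (nat_lit 12) (.p (nat_lit 128) (nat_lit 9) (.p (nat_lit 129) (nat_lit 18) (.p (nat_lit 130) (nat_lit 12) (.p (nat_lit 132) (nat_lit 6) (.p (nat_lit 133) (nat_lit 6) (.n (nat_lit 135) (nat_lit 6) (.n (nat_lit 136) (nat_lit 6) .z))))))))))))))))))))))) (.ct dW2x_c546 (nat_lit 12) (nat_lit 8) (.s false (nat_lit 1) (nat_lit 6) (nat_lit 0) (nat_lit 0) (nat_lit 6) true (nat_lit 0) true (nat_lit 5) true (nat_lit 5) true (nat_lit 11) true (nat_lit 11) (.s true (nat_lit 2) (nat_lit 13) (nat_lit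 0) (nat_lit 1) (nat_lit 2) true (nat_lit 6) true (nat_lit 9) true (nat_lit 0) true (nat_lit 11) true (nat_lit 10) (.s true (nat_lit 1) (nat_lit 14) (nat_lit 0) (nat_lit 1) (nat_lit 2) true (nat_lit 6) true (nat_lit 9) true (nat_lit 0) true (nat_lit 11) true (nat_lit 10) (.s true (nat_lit 2) (nat_lit 12) (nat_lit 0) (nat_lit 2) (nat_lit 1) true (nat_lit 8) true (nat_lit 10) true (nat_lit 0) true (nat_lit 11) true (nat_lit 9) (.s true (nat_lit 1) (nat_lit 14) (nat_lit 1) (nat_lit 0) (nat_lit 2) true (nat_lit 5) true (nat_lit 9) true (nat_lit 0) true (nat_lit 10) true (nat_lit 11) (.s false (nat_lit 2) (nat_lit 14) (nat_lit 2) (nat_lit 0) (nat_lit 1) true (nat_lit 5) true (nat_lit 10) true (nat_lit 0) true (nat_lit 9) true (nat_lit 11) (.s false (nat_lit 2) (nat_lit 13) (nat_lit 2) (nat_lit 1) (nat_lit 0) true (nat_lit 6) true (nat_lit 11) true (nat_lit 0) true (nat_lit 9) true (nat_lit 10)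 (.s false (nat_lit 1) (nat_lit 14) (nat_lit 2) (nat_lit 1) (nat_lit 0) true (nat_lit 6) true (nat_lit 11) true (nat_lit 0) true (nat_lit 9) true (nat_lit 10) (.a false (nat_lit 36) (nat_lit 14) (nat_lit 14) (nat_lit 0) (nat_lit 0) dW2x_i0)))))))))) .leaf) (nat_lit 38917) (nat_lit 259) (.p (nat_lit 138) (nat_lit 18) (.p (nat_lit 139) (nat_lit 6) (.p (nat_lit 140) (nat_lit 6) (.p (nat_lit 141) (nat_lit 24) (.n (nat_lit 142) (nat_lit 18) (.p (nat_lit 143) (nat_lit 6) (.n (nat_lit 144) (nat_lit 12) (.n (nat_lit 145) (nat_lit 18) (.n (nat_lit 146) (nat_lit 36) (.n (nat_lit 147) (nat_lit 6) (.p (nat_lit 149) (nat_lit 12) (.p (nat_lit 150) (nat_lit 12) (.n (nat_lit 153) (nat_lit 6) (.n (nat_lit 154) (nat_lit 6) (.n (nat_lit 156) (nat_lit 6) (.n (nat_lit 157) (nat_lit 6) (.n (nat_lit 158) (nat_lit 6) .z))))))))))))))))) (.ct dW2x_c531 (nat_lit 6) (nat_lit 5) (.s true (nat_lit 1) (nat_lit 5) (nat_lit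 1) (nat_lit 2) (nat_lit 5) true (nat_lit 0) true (nat_lit 5) true (nat_lit 5) true (nat_lit 8) true (nat_lit 7) (.s true (nat_lit 1) (nat_lit 6) (nat_lit 0) (nat_lit 5) (nat_lit 2) true (nat_lit 5) true (nat_lit 7) true (nat_lit 4) true (nat_lit 9) true (nat_lit 5) (.s true (nat_lit 1) (nat_lit 6) (nat_lit 5) (nat_lit 2) (nat_lit 0) true (nat_lit 1) true (nat_lit 9) true (nat_lit 4) true (nat_lit 5) true (nat_lit 7) (.s true (nat_lit 1) (nat_lit 11) (nat_lit 1) (nat_lit 2) (nat_lit 2) true (nat_lit 4) true (nat_lit 7) true (nat_lit 1) true (nat_lit 8) true (nat_lit 7) (.s true (nat_lit 1) (nat_lit 17) (nat_lit 2) (nat_lit 0) (nat_lit 1) true (nat_lit 4) true (nat_lit 8) false (nat_lit 0) true (nat_lit 7) true (nat_lit 9) (.e false (nat_lit 6) (nat_lit 42) (nat_lit 5) (nat_lit 5) (.e true (nat_lit 6) (nat_lit 89) (nat_lit 1) (nat_lit 8) (.e false (nat_lit 12) (nat_lit 93) (nat_lit 1) (nat_lit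 8) (.e false (nat_lit 6) (nat_lit 69) (nat_lit 2) (nat_lit 7) (.e true (nat_lit 12) (nat_lit 70) (nat_lit 2) (nat_lit 7) (.e true (nat_lit 6) (nat_lit 73) (nat_lit 2) (nat_lit 7) (.e true (nat_lit 12) (nat_lit 74) (nat_lit 2) (nat_lit 7) (.e false (nat_lit 6) (nat_lit 66) (nat_lit 2) (nat_lit 7) (.e true (nat_lit 6) (nat_lit 104) (nat_lit 0) (nat_lit 9) (.e true (nat_lit 6) (nat_lit 94) (nat_lit 0) (nat_lit 9) (.e false (nat_lit 6) (nat_lit 95) (nat_lit 0) (nat_lit 9) (.e false (nat_lit 6) (nat_lit 98) (nat_lit 0) (nat_lit 9) (.e false (nat_lit 6) (nat_lit 99) (nat_lit 0) (nat_lit 9) (.e true (nat_lit 6) (nat_lit 90) (nat_lit 1) (nat_lit 8) (.e false (nat_lit 12) (nat_lit 92) (nat_lit 1) (nat_lit 8) (.e false (nat_lit 6) (nat_lit 67) (nat_lit 2) (nat_lit 7) (.e true (nat_lit 6) (nat_lit 97) (nat_lit 0) (nat_lit 9) .nil))))))))))))))))))))))) (.nd .leaf (nat_lit 38918) (nat_lit 309) (.p (nat_lit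 181) (nat_lit 6) .z) .df .leaf)))) (nat_lit 39936) (nat_lit 90) (.p (nat_lit 70) (nat_lit 6) .z) .df (.nd (.nd (.nd (.nd (.nd .leaf (nat_lit 39937) (nat_lit 110) (.p (nat_lit 81) (nat_lit 6) .z) .df .leaf) (nat_lit 39938) (nat_lit 140) (.p (nat_lit 95) (nat_lit 6) .z) .df .leaf) (nat_lit 39939) (nat_lit 206) (.p (nat_lit 111) (nat_lit 9) (.p (nat_lit 112) (nat_lit 3) (.p (nat_lit 114) (nat_lit 3) (.p (nat_lit 115) (nat_lit 6) (.p (nat_lit 116) (nat_lit 12) (.p (nat_lit 117) (nat_lit 9) (.n (nat_lit 118) (nat_lit 27) (.n (nat_lit 119) (nat_lit 27) (.n (nat_lit 120) (nat_lit 21) (.n (nat_lit 121) (nat_lit 6) (.n (nat_lit 122) (nat_lit 12) (.n (nat_lit 123) (nat_lit 9) (.p (nat_lit 124) (nat_lit 3) (.n (nat_lit 125) (nat_lit 12) (.p (nat_lit 126) (nat_lit 6) (.p (nat_lit 127) (nat_lit 9) (.p (nat_lit 128) (nat_lit 9) (.p (nat_lit 129) (nat_lit 15) (.p (nat_lit 130) (nat_lit 6) (.n (nat_lit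 131) (nat_lit 9) (.p (nat_lit 132) (nat_lit 15) (.n (nat_lit 133) (nat_lit 3) (.p (nat_lit 134) (nat_lit 9) (.n (nat_lit 135) (nat_lit 9) (.p (nat_lit 136) (nat_lit 3) (.p (nat_lit 137) (nat_lit 6) .z)))))))))))))))))))))))))) (.ct dW2x_c546 (nat_lit 6) (nat_lit 8) (.s true (nat_lit 1) (nat_lit 13) (nat_lit 0) (nat_lit 2) (nat_lit 1) true (nat_lit 8) true (nat_lit 10) true (nat_lit 0) true (nat_lit 11) true (nat_lit 9) (.a false (nat_lit 18) (nat_lit 13) (nat_lit 13) (nat_lit 0) (nat_lit 0) (.e true (nat_lit 12) (nat_lit 64) (nat_lit 1) (nat_lit 10) (.e true (nat_lit 18) (nat_lit 65) (nat_lit 1) (nat_lit 10) (.e false (nat_lit 6) (nat_lit 66) (nat_lit 1) (nat_lit 10) (.e true (nat_lit 6) (nat_lit 68) (nat_lit 1) (nat_lit 10) (.e true (nat_lit 6) (nat_lit 69) (nat_lit 1) (nat_lit 10) (.e true (nat_lit 6) (nat_lit 70) (nat_lit 1) (nat_lit 10) (.e false (nat_lit 6) (nat_lit 71) (nat_lit 1)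 (nat_lit 10) (.e false (nat_lit 12) (nat_lit 72) (nat_lit 1) (nat_lit 10) (.e false (nat_lit 6) (nat_lit 73) (nat_lit 1) (nat_lit 10) (.e false (nat_lit 12) (nat_lit 74) (nat_lit 1) (nat_lit 10) (.e false (nat_lit 6) (nat_lit 78) (nat_lit 0) (nat_lit 11) (.e false (nat_lit 6) (nat_lit 82) (nat_lit 0) (nat_lit 11) (.e true (nat_lit 6) (nat_lit 86) (nat_lit 0) (nat_lit 11) (.e true (nat_lit 6) (nat_lit 87) (nat_lit 0) (nat_lit 11) (.e true (nat_lit 6) (nat_lit 88) (nat_lit 0) (nat_lit 11) (.e true (nat_lit 6) (nat_lit 61) (nat_lit 2) (nat_lit 9) .nil))))))))))))))))))) (.nd (.nd .leaf (nat_lit 39941) (nat_lit 260) (.p (nat_lit 138) (nat_lit 12) (.p (nat_lit 139) (nat_lit 6) (.p (nat_lit 140) (nat_lit 3) (.p (nat_lit 141) (nat_lit 27) (.n (nat_lit 142) (nat_lit 21) (.p (nat_lit 143) (nat_lit 3) (.n (nat_lit 144) (nat_lit 12) (.n (nat_lit 145) (nat_lit 15) (.n (nat_lit 146) (nat_lit 30) (.n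 (nat_lit 147) (nat_lit 6) (.n (nat_lit 148) (nat_lit 3) (.p (nat_lit 149) (nat_lit 12) (.p (nat_lit 150) (nat_lit 18) (.n (nat_lit 151) (nat_lit 9) (.p (nat_lit 152) (nat_lit 15) (.n (nat_lit 153) (nat_lit 9) (.n (nat_lit 154) (nat_lit 12) (.p (nat_lit 155) (nat_lit 12) (.p (nat_lit 156) (nat_lit 6) (.n (nat_lit 157) (nat_lit 3) (.n (nat_lit 158) (nat_lit 6) .z))))))))))))))))))))) (.ct dW2x_c531 (nat_lit 12) (nat_lit 5) (.s false (nat_lit 2) (nat_lit 6) (nat_lit 0) (nat_lit 5) (nat_lit 2) true (nat_lit 5) true (nat_lit 7) true (nat_lit 4) true (nat_lit 9) true (nat_lit 5) (.s false (nat_lit 1) (nat_lit 7) (nat_lit 2) (nat_lit 3) (nat_lit 0) true (nat_lit 5) true (nat_lit 9) true (nat_lit 3) true (nat_lit 7) true (nat_lit 6) (.s false (nat_lit 1) (nat_lit 7) (nat_lit 5) (nat_lit 0) (nat_lit 1) true (nat_lit 0) true (nat_lit 8) true (nat_lit 3) true (nat_lit 5) true (nat_lit 9) (.s false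 (nat_lit 1) (nat_lit 11) (nat_lit 1) (nat_lit 2) (nat_lit 2) true (nat_lit 4) true (nat_lit 7) true (nat_lit 1) true (nat_lit 8) true (nat_lit 7) (.s true (nat_lit 1) (nat_lit 11) (nat_lit 2) (nat_lit 1) (nat_lit 2) true (nat_lit 3) true (nat_lit 7) true (nat_lit 1) true (nat_lit 7) true (nat_lit 8) (.s false (nat_lit 1) (nat_lit 11) (nat_lit 2) (nat_lit 2) (nat_lit 1) true (nat_lit 4) true (nat_lit 8) true (nat_lit 1) true (nat_lit 7) true (nat_lit 7) dW2x_i7))))))) .leaf) (nat_lit 39942) (nat_lit 310) (.p (nat_lit 182) (nat_lit 6) .z) .df .leaf)) (nat_lit 40960) (nat_lit 91) (.p (nat_lit 71) (nat_lit 6) .z) .df (.nd (.nd (.nd .leaf (nat_lit 40961) (nat_lit 111) (.p (nat_lit 82) (nat_lit 6) .z) .df .leaf) (nat_lit 40962) (nat_lit 141) (.p (nat_lit 96) (nat_lit 6) .z) .df .leaf) (nat_lit 40963) (nat_lit 219) (.p (nat_lit 111) (nat_lit 9) (.n (nat_lit 112) (nat_lit 3) (.n (nat_lit 113) (nat_lit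 6) (.p (nat_lit 114) (nat_lit 9) (.p (nat_lit 115) (nat_lit 6) (.p (nat_lit 116) (nat_lit 9) (.p (nat_lit 117) (nat_lit 6) (.n (nat_lit 118) (nat_lit 18) (.n (nat_lit 119) (nat_lit 18) (.n (nat_lit 120) (nat_lit 15) (.n (nat_lit 123) (nat_lit 3) (.p (nat_lit 124) (nat_lit 6) (.n (nat_lit 125) (nat_lit 9) (.p (nat_lit 126) (nat_lit 3) (.p (nat_lit 127) (nat_lit 3) (.n (nat_lit 129) (nat_lit 3) (.n (nat_lit 131) (nat_lit 3) (.p (nat_lit 132) (nat_lit 9) (.n (nat_lit 133) (nat_lit 3) (.p (nat_lit 134) (nat_lit 3) (.n (nat_lit 135) (nat_lit 3) (.p (nat_lit 136) (nat_lit 3) (.p (nat_lit 137) (nat_lit 6) .z))))))))))))))))))))))) (.ct dW2x_c546 (nat_lit 6) (nat_lit 8) (.s true (nat_lit 1) (nat_lit 14) (nat_lit 1) (nat_lit 2) (nat_lit 0) true (nat_lit 8) true (nat_lit 11) true (nat_lit 0) true (nat_lit 10) true (nat_lit 9) (.a true (nat_lit 18) (nat_lit 14) (nat_lit 14) (nat_lit 0) (nat_lit 0)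 (.e true (nat_lit 6) (nat_lit 78) (nat_lit 0) (nat_lit 11) (.e false (nat_lit 6) (nat_lit 66) (nat_lit 1) (nat_lit 10) (.e false (nat_lit 6) (nat_lit 69) (nat_lit 1) (nat_lit 10) (.e true (nat_lit 6) (nat_lit 70) (nat_lit 1) (nat_lit 10) (.e true (nat_lit 6) (nat_lit 73) (nat_lit 1) (nat_lit 10) (.e true (nat_lit 12) (nat_lit 74) (nat_lit 1) (nat_lit 10) (.e false (nat_lit 6) (nat_lit 57) (nat_lit 2) (nat_lit 9) .nil)))))))))) (.nd .leaf (nat_lit 40965) (nat_lit 270) (.n (nat_lit 143) (nat_lit 6) (.n (nat_lit 151) (nat_lit 6) (.p (nat_lit 152) (nat_lit 6) (.p (nat_lit 155) (nat_lit 6) (.p (nat_lit 156) (nat_lit 12) .z))))) (.ct dW2x_c531 (nat_lit 6) (nat_lit 5) (.s true (nat_lit 1) (nat_lit 14) (nat_lit 2) (nat_lit 2) (nat_lit 0) true (nat_lit 5) true (nat_lit 9) true (nat_lit 0) true (nat_lit 7) true (nat_lit 7) (.s true (nat_lit 1) (nat_lit 18) (nat_lit 2) (nat_lit 1) (nat_lit 0) true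 (nat_lit 5) true (nat_lit 9) false (nat_lit 0) true (nat_lit 7) true (nat_lit 8) (.e true (nat_lit 6) (nat_lit 96) (nat_lit 0) (nat_lit 9) (.e false (nat_lit 12) (nat_lit 66) (nat_lit 2) (nat_lit 7) (.e false (nat_lit 18) (nat_lit 69) (nat_lit 2) (nat_lit 7) (.e true (nat_lit 6) (nat_lit 70) (nat_lit 2) (nat_lit 7) (.e true (nat_lit 12) (nat_lit 73) (nat_lit 2) (nat_lit 7) (.e true (nat_lit 24) (nat_lit 74) (nat_lit 2) (nat_lit 7) (.e true (nat_lit 6) (nat_lit 42) (nat_lit 5) (nat_lit 5) (.e true (nat_lit 6) (nat_lit 100) (nat_lit 0) (nat_lit 9) (.e false (nat_lit 6) (nat_lit 68) (nat_lit 2) (nat_lit 7) (.e true (nat_lit 12) (nat_lit 72) (nat_lit 2) (nat_lit 7) (.e false (nat_lit 6) (nat_lit 90) (nat_lit 1) (nat_lit 8) .nil)))))))))))))) .leaf))) (nat_lit 40966) (nat_lit 311) (.p (nat_lit 183) (nat_lit 6) .z) .df (.nd (.nd (.nd (.nd .leaf (nat_lit 41984) (nat_lit 92) (.p (nat_lit 72) (nat_lit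 6) .z) .df .leaf) (nat_lit 41985) (nat_lit 112) (.p (nat_lit 83) (nat_lit 6) .z) .df .leaf) (nat_lit 41986) (nat_lit 142) (.p (nat_lit 97) (nat_lit 6) .z) .df (.nd (.nd .leaf (nat_lit 41987) (nat_lit 196) (.p (nat_lit 137) (nat_lit 6) .z) .df .leaf) (nat_lit 41989) (nat_lit 265) (.n (nat_lit 138) (nat_lit 180) (.n (nat_lit 139) (nat_lit 42) (.n (nat_lit 140) (nat_lit 69) (.n (nat_lit 141) (nat_lit 321) (.p (nat_lit 142) (nat_lit 165) (.n (nat_lit 143) (nat_lit 81) (.p (nat_lit 144) (nat_lit 174) (.p (nat_lit 145) (nat_lit 153) (.p (nat_lit 146) (nat_lit 402) (.p (nat_lit 147) (nat_lit 66) (.n (nat_lit 148) (nat_lit 15) (.n (nat_lit 149) (nat_lit 108) (.n (nat_lit 150) (nat_lit 150) (.n (nat_lit 151) (nat_lit 57) (.n (nat_lit 152) (nat_lit 27) (.p (nat_lit 153) (nat_lit 123) (.p (nat_lit 154) (nat_lit 126) (.n (nat_lit 155) (nat_lit 6) (.p (nat_lit 156) (nat_lit 114) (.p (nat_lit 157) (nat_lit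 39) (.p (nat_lit 158) (nat_lit 102) .z))))))))))))))))))))) (.ct dW2x_c531 (nat_lit 12) (nat_lit 5) (.s true (nat_lit 1) (nat_lit 5) (nat_lit 1) (nat_lit 2) (nat_lit 5) true (nat_lit 0) true (nat_lit 5) true (nat_lit 5) true (nat_lit 8) true (nat_lit 7) (.s true (nat_lit 1) (nat_lit 5) (nat_lit 2) (nat_lit 1) (nat_lit 5) false (nat_lit 0) true (nat_lit 5) true (nat_lit 5) true (nat_lit 7) true (nat_lit 8) (.s true (nat_lit 1) (nat_lit 12) (nat_lit 0) (nat_lit 2) (nat_lit 2) true (nat_lit 5) true (nat_lit 7) true (nat_lit 0) true (nat_lit 9) true (nat_lit 7) (.s true (nat_lit 1) (nat_lit 17) (nat_lit 0) (nat_lit 1) (nat_lit 2) true (nat_lit 5) true (nat_lit 7) false (nat_lit 0) true (nat_lit 9) true (nat_lit 8) (.e true (nat_lit 18) (nat_lit 39) (nat_lit 5) (nat_lit 5) (.e false (nat_lit 6) (nat_lit 38) (nat_lit 5) (nat_lit 5) (.e true (nat_lit 12) (nat_lit 42) (nat_lit 5) (nat_lit 5) (.e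 true (nat_lit 12) (nat_lit 43) (nat_lit 5) (nat_lit 5) (.e true (nat_lit 6) (nat_lit 89) (nat_lit 1) (nat_lit 8) (.e false (nat_lit 18) (nat_lit 64) (nat_lit 2) (nat_lit 7) (.e false (nat_lit 12) (nat_lit 65) (nat_lit 2) (nat_lit 7) (.e false (nat_lit 12) (nat_lit 69) (nat_lit 2) (nat_lit 7) (.e true (nat_lit 6) (nat_lit 70) (nat_lit 2) (nat_lit 7) (.e true (nat_lit 12) (nat_lit 71) (nat_lit 2) (nat_lit 7) (.e true (nat_lit 6) (nat_lit 72) (nat_lit 2) (nat_lit 7) (.e true (nat_lit 18) (nat_lit 73) (nat_lit 2) (nat_lit 7) (.e true (nat_lit 24) (nat_lit 74) (nat_lit 2) (nat_lit 7) (.e false (nat_lit 6) (nat_lit 68) (nat_lit 2) (nat_lit 7) (.e true (nat_lit 6) (nat_lit 92) (nat_lit 1) (nat_lit 8) (.e false (nat_lit 6) (nat_lit 90) (nat_lit 1) (nat_lit 8) (.e false (nat_lit 6) (nat_lit 103) (nat_lit 0) (nat_lit 9) (.e false (nat_lit 6) (nat_lit 104) (nat_lit 0) (nat_lit 9) .nil)))))))))))))))))))))))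 .leaf)) (nat_lit 41990) (nat_lit 312) (.p (nat_lit 184) (nat_lit 6) .z) .df (.nd (.nd (.nd .leaf (nat_lit 43008) (nat_lit 93) (.p (nat_lit 73) (nat_lit 6) .z) .df .leaf) (nat_lit 43009) (nat_lit 113) (.p (nat_lit 84) (nat_lit 6) .z) .df .leaf) (nat_lit 43010) (nat_lit 143) (.p (nat_lit 98) (nat_lit 6) .z) .df (.nd .leaf (nat_lit 43011) (nat_lit 204) (.p (nat_lit 111) (nat_lit 6) (.n (nat_lit 112) (nat_lit 18) (.n (nat_lit 113) (nat_lit 12) (.p (nat_lit 114) (nat_lit 6) (.n (nat_lit 117) (nat_lit 12) (.p (nat_lit 118) (nat_lit 12) (.p (nat_lit 119) (nat_lit 12) (.p (nat_lit 120) (nat_lit 6) (.p (nat_lit 123) (nat_lit 6) (.p (nat_lit 124) (nat_lit 6) (.n (nat_lit 127) (nat_lit 6) (.n (nat_lit 128) (nat_lit 6) (.n (nat_lit 129) (nat_lit 6) (.n (nat_lit 134) (nat_lit 6) (.p (nat_lit 135) (nat_lit 6) (.n (nat_lit 136) (nat_lit 6) .z)))))))))))))))) (.ct dW2x_c546 (nat_lit 6) (nat_lit 8) (.s true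 (nat_lit 1) (nat_lit 6) (nat_lit 3) (nat_lit 0) (nat_lit 2) true (nat_lit 0) true (nat_lit 9) true (nat_lit 5) true (nat_lit 8) true (nat_lit 11) (.s false (nat_lit 1) (nat_lit 13) (nat_lit 0) (nat_lit 2) (nat_lit 1) true (nat_lit 8) true (nat_lit 10) true (nat_lit 0) true (nat_lit 11) true (nat_lit 9) (.s true (nat_lit 1) (nat_lit 12) (nat_lit 1) (nat_lit 0) (nat_lit 2) true (nat_lit 5) true (nat_lit 9) true (nat_lit 0) true (nat_lit 10) true (nat_lit 11) (.s false (nat_lit 1) (nat_lit 14) (nat_lit 1) (nat_lit 0) (nat_lit 2) true (nat_lit 5) true (nat_lit 9) true (nat_lit 0) true (nat_lit 10) true (nat_lit 11) (.s false (nat_lit 1) (nat_lit 13) (nat_lit 2) (nat_lit 0) (nat_lit 1) true (nat_lit 5) true (nat_lit 10) true (nat_lit 0) true (nat_lit 9) true (nat_lit 11) dW2x_i5)))))) .leaf))))) (nat_lit 43013) (nat_lit 258) (.p (nat_lit 138) (nat_lit 12) (.p (nat_lit 140) (nat_lit 6) (.p (nat_lit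 141) (nat_lit 18) (.n (nat_lit 142) (nat_lit 6) (.p (nat_lit 143) (nat_lit 6) (.n (nat_lit 144) (nat_lit 12) (.n (nat_lit 145) (nat_lit 12) (.n (nat_lit 146) (nat_lit 24) (.p (nat_lit 148) (nat_lit 6) (.p (nat_lit 151) (nat_lit 6) (.n (nat_lit 152) (nat_lit 6) (.n (nat_lit 153) (nat_lit 6) (.n (nat_lit 155) (nat_lit 6) (.n (nat_lit 156) (nat_lit 12) (.n (nat_lit 157) (nat_lit 6) .z))))))))))))))) (.ct dW2x_c531 (nat_lit 6) (nat_lit 5) (.s true (nat_lit 1) (nat_lit 6) (nat_lit 0) (nat_lit 5) (nat_lit 2) true (nat_lit 5) true (nat_lit 7) true (nat_lit 4) true (nat_lit 9) true (nat_lit 5) (.s true (nat_lit 1) (nat_lit 6) (nat_lit 5) (nat_lit 0) (nat_lit 2) false (nat_lit 0) true (nat_lit 7) true (nat_lit 4) true (nat_lit 5) true (nat_lit 9) (.s false (nat_lit 1) (nat_lit 7) (nat_lit 6) (nat_lit 0) (nat_lit 0) true (nat_lit 0) true (nat_lit 9) true (nat_lit 3) true (nat_lit 4) true (nat_lit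 9) (.s false (nat_lit 1) (nat_lit 14) (nat_lit 2) (nat_lit 0) (nat_lit 2) true (nat_lit 3) true (nat_lit 7) true (nat_lit 0) true (nat_lit 7) true (nat_lit 9) (.s true (nat_lit 1) (nat_lit 18) (nat_lit 2) (nat_lit 1) (nat_lit 0) true (nat_lit 5) true (nat_lit 9) false (nat_lit 0) true (nat_lit 7) true (nat_lit 8) (.s false (nat_lit 1) (nat_lit 19) (nat_lit 0) (nat_lit 0) (nat_lit 2) true (nat_lit 5) true (nat_lit 7) false (nat_lit 1) true (nat_lit 9) true (nat_lit 9) (.e false (nat_lit 12) (nat_lit 66) (nat_lit 2) (nat_lit 7) (.e false (nat_lit 18) (nat_lit 69) (nat_lit 2) (nat_lit 7) (.e true (nat_lit 6) (nat_lit 70) (nat_lit 2) (nat_lit 7) (.e true (nat_lit 12) (nat_lit 73) (nat_lit 2) (nat_lit 7) (.e true (nat_lit 24) (nat_lit 74) (nat_lit 2) (nat_lit 7) (.e true (nat_lit 6) (nat_lit 95) (nat_lit 0) (nat_lit 9) (.e true (nat_lit 6) (nat_lit 100) (nat_lit 0) (nat_lit 9) (.e true (nat_lit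 6) (nat_lit 96) (nat_lit 0) (nat_lit 9) (.e true (nat_lit 12) (nat_lit 99) (nat_lit 0) (nat_lit 9) (.e false (nat_lit 6) (nat_lit 94) (nat_lit 0) (nat_lit 9) (.e true (nat_lit 6) (nat_lit 98) (nat_lit 0) (nat_lit 9) (.e false (nat_lit 6) (nat_lit 71) (nat_lit 2) (nat_lit 7) (.e false (nat_lit 6) (nat_lit 68) (nat_lit 2) (nat_lit 7) (.e true (nat_lit 12) (nat_lit 72) (nat_lit 2) (nat_lit 7) (.e false (nat_lit 6) (nat_lit 90) (nat_lit 1) (nat_lit 8) .nil)))))))))))))))))))))) (.nd (.nd (.nd (.nd (.nd (.nd .leaf (nat_lit 43014) (nat_lit 313) (.p (nat_lit 159) (nat_lit 6) (.n (nat_lit 160) (nat_lit 6) (.n (nat_lit 161) (nat_lit 6) (.n (nat_lit 162) (nat_lit 12) (.p (nat_lit 163) (nat_lit 6) (.n (nat_lit 164) (nat_lit 6) (.n (nat_lit 166) (nat_lit 12) (.n (nat_lit 167) (nat_lit 6) (.p (nat_lit 168) (nat_lit 12) (.p (nat_lit 169) (nat_lit 6) (.p (nat_lit 170) (nat_lit 12) (.n (nat_lit 171) (nat_lit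 6) (.n (nat_lit 172) (nat_lit 6) (.p (nat_lit 173) (nat_lit 6) (.n (nat_lit 174) (nat_lit 6) (.n (nat_lit 175) (nat_lit 6) (.p (nat_lit 176) (nat_lit 6) (.p (nat_lit 178) (nat_lit 6) (.p (nat_lit 179) (nat_lit 6) (.p (nat_lit 180) (nat_lit 6) (.p (nat_lit 181) (nat_lit 6) (.n (nat_lit 182) (nat_lit 12) (.p (nat_lit 183) (nat_lit 12) .z))))))))))))))))))))))) (.ct dW2x_c291 (nat_lit 6) (nat_lit 4) (.s true (nat_lit 2) (nat_lit 6) (nat_lit 0) (nat_lit 6) (nat_lit 2) true (nat_lit 5) true (nat_lit 8) true (nat_lit 4) true (nat_lit 10) true (nat_lit 4) (.s true (nat_lit 1) (nat_lit 6) (nat_lit 1) (nat_lit 5) (nat_lit 2) true (nat_lit 4) true (nat_lit 8) true (nat_lit 4) true (nat_lit 9) true (nat_lit 5) (.s false (nat_lit 1) (nat_lit 6) (nat_lit 2) (nat_lit 1) (nat_lit 5) false (nat_lit 0) true (nat_lit 5) true (nat_lit 4) true (nat_lit 8) true (nat_lit 9) (.s false (nat_lit 1) (nat_lit 6) (nat_lit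 2) (nat_lit 5) (nat_lit 1) true (nat_lit 4) true (nat_lit 9) true (nat_lit 4) true (nat_lit 8) true (nat_lit 5) (.s true (nat_lit 1) (nat_lit 7) (nat_lit 2) (nat_lit 4) (nat_lit 0) true (nat_lit 5) true (nat_lit 10) true (nat_lit 3) true (nat_lit 8) true (nat_lit 6) (.s false (nat_lit 1) (nat_lit 13) (nat_lit 2) (nat_lit 1) (nat_lit 2) true (nat_lit 3) true (nat_lit 8) true (nat_lit 1) true (nat_lit 8) true (nat_lit 9) (.s true (nat_lit 1) (nat_lit 16) (nat_lit 2) (nat_lit 2) (nat_lit 0) true (nat_lit 5) true (nat_lit 10) true (nat_lit 0) true (nat_lit 8) true (nat_lit 8) (.s true (nat_lit 1) (nat_lit 18) (nat_lit 1) (nat_lit 2) (nat_lit 1) true (nat_lit 6) true (nat_lit 9) false (nat_lit 0) true (nat_lit 9) true (nat_lit 8) dW2x_i9))))))))) .leaf) (nat_lit 44032) (nat_lit 94) (.p (nat_lit 74) (nat_lit 6) .z) .df .leaf) (nat_lit 44033) (nat_lit 119) (.n (nat_lit 76) (nat_lit 6) (.p (nat_lit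 77) (nat_lit 6) (.p (nat_lit 78) (nat_lit 6) (.p (nat_lit 79) (nat_lit 6) (.p (nat_lit 80) (nat_lit 6) (.n (nat_lit 83) (nat_lit 6) (.n (nat_lit 84) (nat_lit 6) (.p (nat_lit 86) (nat_lit 6) (.n (nat_lit 87) (nat_lit 6) .z))))))))) (.ct dW2x_c290 (nat_lit 6) (nat_lit 6) (.s false (nat_lit 1) (nat_lit 3) (nat_lit 1) (nat_lit 2) (nat_lit 2) true (nat_lit 1) true (nat_lit 5) true (nat_lit 4) true (nat_lit 6) true (nat_lit 5) (.e false (nat_lit 6) (nat_lit 12) (nat_lit 6) (nat_lit 1) (.e false (nat_lit 6) (nat_lit 29) (nat_lit 2) (nat_lit 5) (.e true (nat_lit 6) (nat_lit 19) (nat_lit 3) (nat_lit 4) (.e false (nat_lit 6) (nat_lit 39) (nat_lit 1) (nat_lit 6) (.e true (nat_lit 6) (nat_lit 40) (nat_lit 1) (nat_lit 6) (.e true (nat_lit 6) (nat_lit 41) (nat_lit 1) (nat_lit 6) (.e true (nat_lit 6) (nat_lit 31) (nat_lit 2) (nat_lit 5) .nil))))))))) (.nd (.nd .leaf (nat_lit 44034) (nat_lit 144) (.p (nat_lit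 99) (nat_lit 6) .z) .df .leaf) (nat_lit 44035) (nat_lit 199) (.n (nat_lit 111) (nat_lit 6) (.p (nat_lit 112) (nat_lit 6) (.p (nat_lit 113) (nat_lit 6) (.n (nat_lit 114) (nat_lit 6) (.n (nat_lit 116) (nat_lit 6) (.p (nat_lit 118) (nat_lit 6) (.p (nat_lit 119) (nat_lit 6) (.p (nat_lit 120) (nat_lit 6) (.n (nat_lit 124) (nat_lit 6) (.p (nat_lit 125) (nat_lit 6) (.n (nat_lit 126) (nat_lit 6) (.p (nat_lit 131) (nat_lit 6) (.n (nat_lit 132) (nat_lit 6) (.p (nat_lit 133) (nat_lit 6) (.n (nat_lit 137) (nat_lit 6) .z))))))))))))))) (.ct dW2x_c546 (nat_lit 12) (nat_lit 8) (.s false (nat_lit 2) (nat_lit 5) (nat_lit 1) (nat_lit 1) (nat_lit 5) true (nat_lit 0) true (nat_lit 6) true (nat_lit 6) true (nat_lit 10) true (nat_lit 10) (.s false (nat_lit 2) (nat_lit 5) (nat_lit 1) (nat_lit 3) (nat_lit 2) true (nat_lit 5) true (nat_lit 9) true (nat_lit 6) true (nat_lit 10) true (nat_lit 8) (.s false (nat_lit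 2) (nat_lit 5) (nat_lit 2) (nat_lit 4) (nat_lit 0) true (nat_lit 6) true (nat_lit 11) true (nat_lit 6) true (nat_lit 9) true (nat_lit 7) (.s false (nat_lit 1) (nat_lit 6) (nat_lit 0) (nat_lit 0) (nat_lit 6) true (nat_lit 0) true (nat_lit 5) true (nat_lit 5) true (nat_lit 11) true (nat_lit 11) (.s false (nat_lit 4) (nat_lit 6) (nat_lit 0) (nat_lit 1) (nat_lit 5) true (nat_lit 1) true (nat_lit 6) true (nat_lit 5) true (nat_lit 11) true (nat_lit 10) (.s true (nat_lit 2) (nat_lit 6) (nat_lit 5) (nat_lit 0) (nat_lit 1) true (nat_lit 0) true (nat_lit 10) true (nat_lit 5) true (nat_lit 6) true (nat_lit 11) (.s false (nat_lit 2) (nat_lit 11) (nat_lit 1) (nat_lit 2) (nat_lit 1) true (nat_lit 7) true (nat_lit 10) true (nat_lit 1) true (nat_lit 10) true (nat_lit 9) (.s true (nat_lit 1) (nat_lit 14) (nat_lit 0) (nat_lit 1) (nat_lit 2) true (nat_lit 6) true (nat_lit 9) true (nat_lit 0) true (nat_lit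 11) true (nat_lit 10) (.s false (nat_lit 2) (nat_lit 13) (nat_lit 0) (nat_lit 2) (nat_lit 1) true (nat_lit 8) true (nat_lit 10) true (nat_lit 0) true (nat_lit 11) true (nat_lit 9) (.s false (nat_lit 2) (nat_lit 12) (nat_lit 1) (nat_lit 0) (nat_lit 2) true (nat_lit 5) true (nat_lit 9) true (nat_lit 0) true (nat_lit 10) true (nat_lit 11) (.s true (nat_lit 1) (nat_lit 14) (nat_lit 1) (nat_lit 0) (nat_lit 2) true (nat_lit 5) true (nat_lit 9) true (nat_lit 0) true (nat_lit 10) true (nat_lit 11) (.s true (nat_lit 2) (nat_lit 13) (nat_lit 1) (nat_lit 2) (nat_lit 0) true (nat_lit 8) true (nat_lit 11) true (nat_lit 0) true (nat_lit 10) true (nat_lit 9) dW2x_i2))))))))))))) .leaf)) (nat_lit 44037) (nat_lit 263) (.p (nat_lit 138) (nat_lit 114) (.p (nat_lit 139) (nat_lit 30) (.p (nat_lit 140) (nat_lit 42) (.p (nat_lit 141) (nat_lit 204) (.n (nat_lit 142) (nat_lit 108) (.p (nat_lit 143) (nat_lit 48)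 (.n (nat_lit 144) (nat_lit 108) (.n (nat_lit 145) (nat_lit 102) (.n (nat_lit 146) (nat_lit 258) (.n (nat_lit 147) (nat_lit 42) (.p (nat_lit 148) (nat_lit 6) (.p (nat_lit 149) (nat_lit 72) (.p (nat_lit 150) (nat_lit 96) (.p (nat_lit 151) (nat_lit 36) (.p (nat_lit 152) (nat_lit 18) (.n (nat_lit 153) (nat_lit 72) (.n (nat_lit 154) (nat_lit 78) (.p (nat_lit 155) (nat_lit 6) (.n (nat_lit 156) (nat_lit 72) (.n (nat_lit 157) (nat_lit 24) (.n (nat_lit 158) (nat_lit 66) .z))))))))))))))))))))) (.ct dW2x_c531 (nat_lit 6) (nat_lit 5) (.s true (nat_lit 1) (nat_lit 6) (nat_lit 0) (nat_lit 5) (nat_lit 2) true (nat_lit 5) true (nat_lit 7) true (nat_lit 4) true (nat_lit 9) true (nat_lit 5) (.s true (nat_lit 1) (nat_lit 6) (nat_lit 5) (nat_lit 0) (nat_lit 2) false (nat_lit 0) true (nat_lit 7) true (nat_lit 4) true (nat_lit 5) true (nat_lit 9) (.s true (nat_lit 1) (nat_lit 7) (nat_lit 0) (nat_lit 6) (nat_lit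 0) false (nat_lit 10) true (nat_lit 9) true (nat_lit 3) true (nat_lit 9) true (nat_lit 4) (.s false (nat_lit 1) (nat_lit 14) (nat_lit 2) (nat_lit 0) (nat_lit 2) true (nat_lit 3) true (nat_lit 7) true (nat_lit 0) true (nat_lit 7) true (nat_lit 9) (.s false (nat_lit 1) (nat_lit 12) (nat_lit 2) (nat_lit 2) (nat_lit 0) true (nat_lit 5) true (nat_lit 9) true (nat_lit 0) true (nat_lit 7) true (nat_lit 7) (.s false (nat_lit 1) (nat_lit 18) (nat_lit 1) (nat_lit 0) (nat_lit 2) true (nat_lit 4) true (nat_lit 7) false (nat_lit 0) true (nat_lit 8) true (nat_lit 9) (.e false (nat_lit 6) (nat_lit 38) (nat_lit 5) (nat_lit 5) (.e false (nat_lit 12) (nat_lit 66) (nat_lit 2) (nat_lit 7) (.e false (nat_lit 6) (nat_lit 69) (nat_lit 2) (nat_lit 7) (.e true (nat_lit 12) (nat_lit 70) (nat_lit 2) (nat_lit 7) (.e true (nat_lit 18) (nat_lit 74) (nat_lit 2) (nat_lit 7) (.e true (nat_lit 12) (nat_lit 104) (nat_lit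 0) (nat_lit 9) (.e true (nat_lit 12) (nat_lit 95) (nat_lit 0) (nat_lit 9) (.e false (nat_lit 6) (nat_lit 100) (nat_lit 0) (nat_lit 9) (.e false (nat_lit 18) (nat_lit 94) (nat_lit 0) (nat_lit 9) (.e true (nat_lit 12) (nat_lit 98) (nat_lit 0) (nat_lit 9) (.e true (nat_lit 18) (nat_lit 99) (nat_lit 0) (nat_lit 9) (.e false (nat_lit 12) (nat_lit 71) (nat_lit 2) (nat_lit 7) (.e true (nat_lit 12) (nat_lit 65) (nat_lit 2) (nat_lit 7) (.e false (nat_lit 6) (nat_lit 90) (nat_lit 1) (nat_lit 8) (.e true (nat_lit 6) (nat_lit 92) (nat_lit 1) (nat_lit 8) (.e true (nat_lit 12) (nat_lit 93) (nat_lit 1) (nat_lit 8) .nil))))))))))))))))))))))) (.nd (.nd (.nd .leaf (nat_lit 44038) (nat_lit 315) (.n (nat_lit 159) (nat_lit 5) (.p (nat_lit 160) (nat_lit 14) (.p (nat_lit 161) (nat_lit 20) (.p (nat_lit 162) (nat_lit 15) (.n (nat_lit 163) (nat_lit 16) (.n (nat_lit 164) (nat_lit 1) (.p (nat_lit 165) (nat_lit 4)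 (.p (nat_lit 166) (nat_lit 1) (.p (nat_lit 167) (nat_lit 7) (.n (nat_lit 168) (nat_lit 16) (.n (nat_lit 169) (nat_lit 3) (.n (nat_lit 170) (nat_lit 16) (.p (nat_lit 171) (nat_lit 2) (.n (nat_lit 172) (nat_lit 3) (.n (nat_lit 173) (nat_lit 6) (.n (nat_lit 174) (nat_lit 3) (.p (nat_lit 175) (nat_lit 21) (.n (nat_lit 176) (nat_lit 8) (.p (nat_lit 177) (nat_lit 3) (.n (nat_lit 179) (nat_lit 6) (.n (nat_lit 180) (nat_lit 5) (.p (nat_lit 181) (nat_lit 9) (.p (nat_lit 182) (nat_lit 4) (.n (nat_lit 183) (nat_lit 4) .z)))))))))))))))))))))))) (.ct dW2x_c291 (nat_lit 18) (nat_lit 4) (.s false (nat_lit 9) (nat_lit 6) (nat_lit 0) (nat_lit 2) (nat_lit 6) true (nat_lit 1) true (nat_lit 4) true (nat_lit 4) true (nat_lit 10) true (nat_lit 8) (.s false (nat_lit 3) (nat_lit 6) (nat_lit 0) (nat_lit 6) (nat_lit 2) true (nat_lit 5) true (nat_lit 8) true (nat_lit 4) true (nat_lit 10) true (nat_lit 4) (.s true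 (nat_lit 6) (nat_lit 6) (nat_lit 1) (nat_lit 5) (nat_lit 2) true (nat_lit 4) true (nat_lit 8) true (nat_lit 4) true (nat_lit 9) true (nat_lit 5) (.s true (nat_lit 3) (nat_lit 6) (nat_lit 2) (nat_lit 2) (nat_lit 3) true (nat_lit 1) true (nat_lit 7) true (nat_lit 4) true (nat_lit 8) true (nat_lit 8) (.s true (nat_lit 3) (nat_lit 6) (nat_lit 2) (nat_lit 5) (nat_lit 1) true (nat_lit 4) true (nat_lit 9) true (nat_lit 4) true (nat_lit 8) true (nat_lit 5) (.s true (nat_lit 1) (nat_lit 6) (nat_lit 3) (nat_lit 2) (nat_lit 2) true (nat_lit 1) true (nat_lit 8) true (nat_lit 4) true (nat_lit 7) true (nat_lit 8) (.s true (nat_lit 4) (nat_lit 7) (nat_lit 0) (nat_lit 1) (nat_lit 6) true (nat_lit 1) true (nat_lit 4) true (nat_lit 3) true (nat_lit 10) true (nat_lit 9) (.s false (nat_lit 3) (nat_lit 7) (nat_lit 1) (nat_lit 5) (nat_lit 1) true (nat_lit 6) true (nat_lit 9) true (nat_lit 3) true (nat_lit 9)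 true (nat_lit 5) (.s true (nat_lit 1) (nat_lit 7) (nat_lit 2) (nat_lit 3) (nat_lit 1) true (nat_lit 4) true (nat_lit 9) true (nat_lit 3) true (nat_lit 8) true (nat_lit 7) (.s true (nat_lit 3) (nat_lit 7) (nat_lit 4) (nat_lit 0) (nat_lit 2) true (nat_lit 0) true (nat_lit 8) true (nat_lit 3) true (nat_lit 6) true (nat_lit 10) (.s true (nat_lit 4) (nat_lit 7) (nat_lit 6) (nat_lit 1) (nat_lit 0) true (nat_lit 1) true (nat_lit 10) true (nat_lit 3) true (nat_lit 4) true (nat_lit 9) (.s true (nat_lit 1) (nat_lit 10) (nat_lit 2) (nat_lit 2) (nat_lit 2) true (nat_lit 3) true (nat_lit 8) true (nat_lit 2) true (nat_lit 8) true (nat_lit 8) (.s false (nat_lit 7) (nat_lit 12) (nat_lit 1) (nat_lit 2) (nat_lit 2) true (nat_lit 4) true (nat_lit 8) true (nat_lit 1) true (nat_lit 9) true (nat_lit 8) (.s false (nat_lit 4) (nat_lit 13) (nat_lit 1) (nat_lit 2) (nat_lit 2) true (nat_lit 4) true (nat_lit 8) true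 (nat_lit 1) true (nat_lit 9) true (nat_lit 8) (.s true (nat_lit 3) (nat_lit 12) (nat_lit 2) (nat_lit 1) (nat_lit 2) true (nat_lit 3) true (nat_lit 8) true (nat_lit 1) true (nat_lit 8) true (nat_lit 9) (.s false (nat_lit 2) (nat_lit 13) (nat_lit 2) (nat_lit 1) (nat_lit 2) true (nat_lit 3) true (nat_lit 8) true (nat_lit 1) true (nat_lit 8) true (nat_lit 9) (.s false (nat_lit 4) (nat_lit 12) (nat_lit 2) (nat_lit 2) (nat_lit 1) true (nat_lit 4) true (nat_lit 9) true (nat_lit 1) true (nat_lit 8) true (nat_lit 8) (.s true (nat_lit 4) (nat_lit 13) (nat_lit 2) (nat_lit 2) (nat_lit 1) true (nat_lit 4) true (nat_lit 9) true (nat_lit 1) true (nat_lit 8) true (nat_lit 8) (.s true (nat_lit 3) (nat_lit 15) (nat_lit 2) (nat_lit 2) (nat_lit 0) true (nat_lit 5) true (nat_lit 10) true (nat_lit 0) true (nat_lit 8) true (nat_lit 8) (.s true (nat_lit 6) (nat_lit 19) (nat_lit 0) (nat_lit 2) (nat_lit 1) true (nat_lit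 7) true (nat_lit 9) false (nat_lit 1) true (nat_lit 10) true (nat_lit 8) (.s false (nat_lit 4) (nat_lit 20) (nat_lit 1) (nat_lit 0) (nat_lit 2) true (nat_lit 4) true (nat_lit 8) false (nat_lit 1) true (nat_lit 9) true (nat_lit 10) dW2x_i11)))))))))))))))))))))) .leaf) (nat_lit 45056) (nat_lit 114) (.p (nat_lit 85) (nat_lit 6) .z) .df .leaf) (nat_lit 45058) (nat_lit 159) (.p (nat_lit 105) (nat_lit 6) .z) .df (.nd .leaf (nat_lit 45061) (nat_lit 330) (.n (nat_lit 159) (nat_lit 2) (.p (nat_lit 160) (nat_lit 2) (.p (nat_lit 161) (nat_lit 2) (.n (nat_lit 162) (nat_lit 6) (.p (nat_lit 163) (nat_lit 2) (.n (nat_lit 164) (nat_lit 10) (.n (nat_lit 165) (nat_lit 8) (.p (nat_lit 166) (nat_lit 4) (.n (nat_lit 167) (nat_lit 2) (.n (nat_lit 168) (nat_lit 4) (.n (nat_lit 170) (nat_lit 4) (.p (nat_lit 171) (nat_lit 2) (.p (nat_lit 172) (nat_lit 6) (.n (nat_lit 174) (nat_lit 18) (.p (nat_lit 175) (nat_lit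 6) (.n (nat_lit 176) (nat_lit 2) (.p (nat_lit 177) (nat_lit 6) (.p (nat_lit 178) (nat_lit 6) (.p (nat_lit 180) (nat_lit 4) (.n (nat_lit 181) (nat_lit 6) (.p (nat_lit 182) (nat_lit 4) (.n (nat_lit 183) (nat_lit 4) .z)))))))))))))))))))))) (.ct dW2x_c291 (nat_lit 6) (nat_lit 5) (.s true (nat_lit 1) (nat_lit 15) (nat_lit 0) (nat_lit 2) (nat_lit 2) true (nat_lit 5) true (nat_lit 8) true (nat_lit 0) true (nat_lit 10) true (nat_lit 8) (.s true (nat_lit 1) (nat_lit 15) (nat_lit 2) (nat_lit 0) (nat_lit 2) true (nat_lit 3) true (nat_lit 8) true (nat_lit 0) true (nat_lit 8) true (nat_lit 10) (.e true (nat_lit 12) (nat_lit 79) (nat_lit 2) (nat_lit 8) (.e true (nat_lit 18) (nat_lit 106) (nat_lit 0) (nat_lit 10) (.e false (nat_lit 6) (nat_lit 107) (nat_lit 0) (nat_lit 10) (.e false (nat_lit 6) (nat_lit 109) (nat_lit 0) (nat_lit 10) (.e false (nat_lit 6) (nat_lit 110) (nat_lit 0) (nat_lit 10) (.e true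 (nat_lit 12) (nat_lit 85) (nat_lit 2) (nat_lit 8) (.e false (nat_lit 6) (nat_lit 34) (nat_lit 7) (nat_lit 3) (.e false (nat_lit 6) (nat_lit 76) (nat_lit 2) (nat_lit 8) (.e true (nat_lit 6) (nat_lit 81) (nat_lit 2) (nat_lit 8) (.e false (nat_lit 6) (nat_lit 82) (nat_lit 2) (nat_lit 8) (.e true (nat_lit 12) (nat_lit 86) (nat_lit 2) (nat_lit 8) (.e true (nat_lit 6) (nat_lit 88) (nat_lit 2) (nat_lit 8) .nil))))))))))))))) .leaf))) (nat_lit 46080) (nat_lit 115) (.p (nat_lit 86) (nat_lit 6) .z) .df (.nd (.nd (.nd (.nd .leaf (nat_lit 46082) (nat_lit 160) (.p (nat_lit 106) (nat_lit 6) .z) .df .leaf) (nat_lit 46085) (nat_lit 321) (.n (nat_lit 159) (nat_lit 6) (.p (nat_lit 163) (nat_lit 6) (.n (nat_lit 165) (nat_lit 6) (.p (nat_lit 166) (nat_lit 6) (.p (nat_lit 172) (nat_lit 6) (.n (nat_lit 175) (nat_lit 6) (.n (nat_lit 181) (nat_lit 6) (.p (nat_lit 182) (nat_lit 6) (.n (nat_lit 183) (nat_lit 6) .z)))))))))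 (.ct dW2x_c291 (nat_lit 6) (nat_lit 5) (.s true (nat_lit 1) (nat_lit 6) (nat_lit 0) (nat_lit 2) (nat_lit 6) true (nat_lit 1) true (nat_lit 4) true (nat_lit 4) true (nat_lit 10) true (nat_lit 8) (.s true (nat_lit 1) (nat_lit 6) (nat_lit 0) (nat_lit 6) (nat_lit 2) true (nat_lit 5) true (nat_lit 8) true (nat_lit 4) true (nat_lit 10) true (nat_lit 4) (.s false (nat_lit 1) (nat_lit 6) (nat_lit 2) (nat_lit 2) (nat_lit 3) true (nat_lit 1) true (nat_lit 7) true (nat_lit 4) true (nat_lit 8) true (nat_lit 8) (.s false (nat_lit 1) (nat_lit 6) (nat_lit 2) (nat_lit 5) (nat_lit 1) true (nat_lit 4) true (nat_lit 9) true (nat_lit 4) true (nat_lit 8) true (nat_lit 5) (.s true (nat_lit 1) (nat_lit 12) (nat_lit 1) (nat_lit 2) (nat_lit 2) true (nat_lit 4) true (nat_lit 8) true (nat_lit 1) true (nat_lit 9) true (nat_lit 8) (.s true (nat_lit 1) (nat_lit 19) (nat_lit 1) (nat_lit 2) (nat_lit 0) true (nat_lit 7)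 true (nat_lit 10) false (nat_lit 1) true (nat_lit 9) true (nat_lit 8) (.e true (nat_lit 6) (nat_lit 40) (nat_lit 6) (nat_lit 4) (.e true (nat_lit 6) (nat_lit 38) (nat_lit 6) (nat_lit 4) (.e false (nat_lit 6) (nat_lit 39) (nat_lit 6) (nat_lit 4) (.e true (nat_lit 6) (nat_lit 107) (nat_lit 0) (nat_lit 10) (.e true (nat_lit 6) (nat_lit 76) (nat_lit 2) (nat_lit 8) (.e false (nat_lit 6) (nat_lit 80) (nat_lit 2) (nat_lit 8) (.e true (nat_lit 6) (nat_lit 86) (nat_lit 2) (nat_lit 8) (.e false (nat_lit 6) (nat_lit 88) (nat_lit 2) (nat_lit 8) (.e false (nat_lit 6) (nat_lit 103) (nat_lit 1) (nat_lit 9) .nil)))))))))))))))) .leaf) (nat_lit 47104) (nat_lit 116) (.p (nat_lit 87) (nat_lit 6) .z) .df (.nd (.nd .leaf (nat_lit 47106) (nat_lit 161) (.p (nat_lit 107) (nat_lit 6) .z) .df .leaf) (nat_lit 47109) (nat_lit 314) (.p (nat_lit 159) (nat_lit 3) (.n (nat_lit 160) (nat_lit 6) (.n (nat_lit 162) (nat_lit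 9) (.p (nat_lit 163) (nat_lit 6) (.n (nat_lit 164) (nat_lit 3) (.n (nat_lit 165) (nat_lit 6) (.n (nat_lit 166) (nat_lit 3) (.n (nat_lit 167) (nat_lit 3) (.n (nat_lit 169) (nat_lit 3) (.p (nat_lit 172) (nat_lit 3) (.p (nat_lit 173) (nat_lit 6) (.n (nat_lit 174) (nat_lit 9) (.n (nat_lit 175) (nat_lit 3) (.p (nat_lit 177) (nat_lit 3) (.p (nat_lit 178) (nat_lit 6) (.p (nat_lit 180) (nat_lit 3) (.n (nat_lit 181) (nat_lit 3) (.p (nat_lit 184) (nat_lit 6) .z)))))))))))))))))) (.ct dW2x_c291 (nat_lit 12) (nat_lit 5) (.s true (nat_lit 2) (nat_lit 6) (nat_lit 0) (nat_lit 6) (nat_lit 2) true (nat_lit 5) true (nat_lit 8) true (nat_lit 4) true (nat_lit 10) true (nat_lit 4) (.s false (nat_lit 1) (nat_lit 6) (nat_lit 2) (nat_lit 2) (nat_lit 3) true (nat_lit 1) true (nat_lit 7) true (nat_lit 4) true (nat_lit 8) true (nat_lit 8) (.s false (nat_lit 1) (nat_lit 6) (nat_lit 2) (nat_lit 5) (nat_lit 1) true (nat_lit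 4) true (nat_lit 9) true (nat_lit 4) true (nat_lit 8) true (nat_lit 5) (.s false (nat_lit 1) (nat_lit 6) (nat_lit 5) (nat_lit 2) (nat_lit 1) true (nat_lit 1) true (nat_lit 9) true (nat_lit 4) true (nat_lit 5) true (nat_lit 8) dW2x_i10))))) .leaf)) (nat_lit 48128) (nat_lit 132) (.p (nat_lit 91) (nat_lit 6) .z) .df (.nd (.nd (.nd .leaf (nat_lit 48129) (nat_lit 157) (.n (nat_lit 94) (nat_lit 6) (.p (nat_lit 95) (nat_lit 6) (.n (nat_lit 96) (nat_lit 6) (.p (nat_lit 97) (nat_lit 6) (.p (nat_lit 100) (nat_lit 6) (.p (nat_lit 103) (nat_lit 6) (.n (nat_lit 104) (nat_lit 6) .z))))))) (.ct dW2x_c275 (nat_lit 6) (nat_lit 5) (.s true (nat_lit 1) (nat_lit 5) (nat_lit 2) (nat_lit 2) (nat_lit 1) true (nat_lit 1) true (nat_lit 5) true (nat_lit 2) true (nat_lit 4) true (nat_lit 4) (.e true (nat_lit 6) (nat_lit 17) (nat_lit 6) (nat_lit 1) (.e false (nat_lit 6) (nat_lit 20) (nat_lit 5) (nat_lit 2) (.e true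 (nat_lit 6) (nat_lit 38) (nat_lit 2) (nat_lit 4) (.e false (nat_lit 12) (nat_lit 39) (nat_lit 2) (nat_lit 4) (.e false (nat_lit 6) (nat_lit 42) (nat_lit 2) (nat_lit 4) (.e false (nat_lit 6) (nat_lit 43) (nat_lit 2) (nat_lit 4) .nil)))))))) .leaf) (nat_lit 48131) (nat_lit 286) (.p (nat_lit 138) (nat_lit 102) (.p (nat_lit 139) (nat_lit 12) (.p (nat_lit 140) (nat_lit 45) (.p (nat_lit 141) (nat_lit 162) (.n (nat_lit 142) (nat_lit 72) (.p (nat_lit 143) (nat_lit 48) (.n (nat_lit 144) (nat_lit 96) (.n (nat_lit 145) (nat_lit 69) (.n (nat_lit 146) (nat_lit 210) (.n (nat_lit 147) (nat_lit 36) (.p (nat_lit 148) (nat_lit 21) (.p (nat_lit 149) (nat_lit 45) (.p (nat_lit 150) (nat_lit 66) (.p (nat_lit 151) (nat_lit 48) (.n (nat_lit 152) (nat_lit 6) (.n (nat_lit 153) (nat_lit 72) (.n (nat_lit 154) (nat_lit 72) (.n (nat_lit 155) (nat_lit 15) (.n (nat_lit 156) (nat_lit 78) (.n (nat_lit 157) (nat_lit 21) (.n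 (nat_lit 158) (nat_lit 54) .z))))))))))))))))))))) (.ct dW2x_c531 (nat_lit 6) (nat_lit 6) (.s true (nat_lit 1) (nat_lit 17) (nat_lit 0) (nat_lit 2) (nat_lit 1) true (nat_lit 6) true (nat_lit 8) false (nat_lit 0) true (nat_lit 9) true (nat_lit 7) (.e false (nat_lit 6) (nat_lit 89) (nat_lit 1) (nat_lit 8) (.e true (nat_lit 6) (nat_lit 92) (nat_lit 1) (nat_lit 8) (.e true (nat_lit 6) (nat_lit 93) (nat_lit 1) (nat_lit 8) (.e true (nat_lit 6) (nat_lit 17) (nat_lit 13) (nat_lit 0) (.e false (nat_lit 6) (nat_lit 104) (nat_lit 0) (nat_lit 9) (.e true (nat_lit 6) (nat_lit 72) (nat_lit 2) (nat_lit 7) .nil)))))))) .leaf) (nat_lit 48132) (nat_lit 350) (.p (nat_lit 159) (nat_lit 16) (.n (nat_lit 160) (nat_lit 34) (.n (nat_lit 161) (nat_lit 28) (.n (nat_lit 162) (nat_lit 42) (.p (nat_lit 163) (nat_lit 38) (.n (nat_lit 164) (nat_lit 4) (.n (nat_lit 165) (nat_lit 32) (.n (nat_lit 166) (nat_lit 2) (.n (nat_lit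 167) (nat_lit 20) (.p (nat_lit 168) (nat_lit 14) (.n (nat_lit 169) (nat_lit 6) (.p (nat_lit 170) (nat_lit 8) (.p (nat_lit 171) (nat_lit 8) (.p (nat_lit 172) (nat_lit 24) (.p (nat_lit 173) (nat_lit 12) (.n (nat_lit 174) (nat_lit 9) (.n (nat_lit 175) (nat_lit 27) (.p (nat_lit 176) (nat_lit 7) (.p (nat_lit 177) (nat_lit 3) (.p (nat_lit 178) (nat_lit 12) (.p (nat_lit 179) (nat_lit 12) (.p (nat_lit 180) (nat_lit 16) (.n (nat_lit 181) (nat_lit 24) (.n (nat_lit 182) (nat_lit 2) (.p (nat_lit 183) (nat_lit 2) (.p (nat_lit 184) (nat_lit 6) .z)))))))))))))))))))))))))) (.ct dW2x_c291 (nat_lit 6) (nat_lit 6) (.s true (nat_lit 1) (nat_lit 17) (nat_lit 1) (nat_lit 2) (nat_lit 1) true (nat_lit 6) true (nat_lit 9) false (nat_lit 0) true (nat_lit 9) true (nat_lit 8) (.e true (nat_lit 6) (nat_lit 97) (nat_lit 1) (nat_lit 9) (.e false (nat_lit 6) (nat_lit 17) (nat_lit 16) (nat_lit 0) (.e false (nat_lit 6)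 (nat_lit 104) (nat_lit 1) (nat_lit 9) (.e false (nat_lit 6) (nat_lit 83) (nat_lit 2) (nat_lit 8) .nil)))))) (.nd .leaf (nat_lit 49152) (nat_lit 133) (.p (nat_lit 92) (nat_lit 6) .z) .df .leaf)))) (nat_lit 49153) (nat_lit 145) (.p (nat_lit 100) (nat_lit 6) .z) .df (.nd (.nd (.nd (.nd (.nd .leaf (nat_lit 49155) (nat_lit 274) (.p (nat_lit 138) (nat_lit 12) (.p (nat_lit 140) (nat_lit 6) (.p (nat_lit 141) (nat_lit 6) (.n (nat_lit 142) (nat_lit 6) (.p (nat_lit 143) (nat_lit 6) (.n (nat_lit 145) (nat_lit 6) (.n (nat_lit 146) (nat_lit 12) (.p (nat_lit 148) (nat_lit 6) (.n (nat_lit 149) (nat_lit 6) (.n (nat_lit 150) (nat_lit 12) (.p (nat_lit 151) (nat_lit 6) (.n (nat_lit 152) (nat_lit 6) (.n (nat_lit 153) (nat_lit 6) (.n (nat_lit 155) (nat_lit 12) (.n (nat_lit 156) (nat_lit 12) .z))))))))))))))) (.ct dW2x_c531 (nat_lit 6) (nat_lit 6) (.s true (nat_lit 1) (nat_lit 18) (nat_lit 1) (nat_lit 2) (nat_lit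 0) true (nat_lit 6) true (nat_lit 9) false (nat_lit 0) true (nat_lit 8) true (nat_lit 7) (.s false (nat_lit 1) (nat_lit 18) (nat_lit 2) (nat_lit 1) (nat_lit 0) true (nat_lit 5) true (nat_lit 9) false (nat_lit 0) true (nat_lit 7) true (nat_lit 8) (.e true (nat_lit 6) (nat_lit 98) (nat_lit 0) (nat_lit 9) (.e true (nat_lit 6) (nat_lit 92) (nat_lit 1) (nat_lit 8) (.e true (nat_lit 12) (nat_lit 93) (nat_lit 1) (nat_lit 8) (.e false (nat_lit 6) (nat_lit 42) (nat_lit 5) (nat_lit 5) (.e false (nat_lit 6) (nat_lit 100) (nat_lit 0) (nat_lit 9) (.e true (nat_lit 12) (nat_lit 69) (nat_lit 2) (nat_lit 7) (.e false (nat_lit 12) (nat_lit 72) (nat_lit 2) (nat_lit 7) (.e false (nat_lit 6) (nat_lit 73) (nat_lit 2) (nat_lit 7) (.e false (nat_lit 12) (nat_lit 74) (nat_lit 2) (nat_lit 7) .nil)))))))))))) .leaf) (nat_lit 49156) (nat_lit 331) (.p (nat_lit 159) (nat_lit 22) (.n (nat_lit 160) (nat_lit 46) (.n (nat_lit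 161) (nat_lit 58) (.n (nat_lit 162) (nat_lit 30) (.p (nat_lit 163) (nat_lit 38) (.p (nat_lit 164) (nat_lit 20) (.n (nat_lit 165) (nat_lit 8) (.p (nat_lit 166) (nat_lit 4) (.n (nat_lit 167) (nat_lit 14) (.p (nat_lit 168) (nat_lit 32) (.n (nat_lit 169) (nat_lit 12) (.p (nat_lit 170) (nat_lit 20) (.p (nat_lit 171) (nat_lit 14) (.p (nat_lit 172) (nat_lit 18) (.p (nat_lit 173) (nat_lit 6) (.p (nat_lit 174) (nat_lit 24) (.n (nat_lit 175) (nat_lit 36) (.p (nat_lit 176) (nat_lit 16) (.n (nat_lit 177) (nat_lit 12) (.n (nat_lit 178) (nat_lit 6) (.p (nat_lit 179) (nat_lit 12) (.p (nat_lit 180) (nat_lit 4) (.n (nat_lit 181) (nat_lit 18) (.n (nat_lit 182) (nat_lit 8) (.p (nat_lit 183) (nat_lit 8) (.p (nat_lit 184) (nat_lit 12) .z)))))))))))))))))))))))))) (.ct dW2x_c291 (nat_lit 6) (nat_lit 6) (.s false (nat_lit 1) (nat_lit 7) (nat_lit 2) (nat_lit 4) (nat_lit 0) true (nat_lit 5) true (nat_lit 10) true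 (nat_lit 3) true (nat_lit 8) true (nat_lit 6) (.e true (nat_lit 12) (nat_lit 45) (nat_lit 5) (nat_lit 5) (.e false (nat_lit 12) (nat_lit 46) (nat_lit 5) (nat_lit 5) (.e true (nat_lit 6) (nat_lit 105) (nat_lit 0) (nat_lit 10) (.e false (nat_lit 6) (nat_lit 106) (nat_lit 0) (nat_lit 10) (.e false (nat_lit 6) (nat_lit 107) (nat_lit 0) (nat_lit 10) (.e true (nat_lit 6) (nat_lit 109) (nat_lit 0) (nat_lit 10) (.e true (nat_lit 6) (nat_lit 110) (nat_lit 0) (nat_lit 10) (.e true (nat_lit 6) (nat_lit 34) (nat_lit 7) (nat_lit 3) (.e true (nat_lit 6) (nat_lit 76) (nat_lit 2) (nat_lit 8) (.e false (nat_lit 12) (nat_lit 77) (nat_lit 2) (nat_lit 8) (.e false (nat_lit 12) (nat_lit 78) (nat_lit 2) (nat_lit 8) (.e false (nat_lit 12) (nat_lit 79) (nat_lit 2) (nat_lit 8) (.e true (nat_lit 6) (nat_lit 81) (nat_lit 2) (nat_lit 8) (.e false (nat_lit 6) (nat_lit 82) (nat_lit 2) (nat_lit 8) (.e false (nat_lit 6)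 (nat_lit 85) (nat_lit 2) (nat_lit 8) (.e true (nat_lit 12) (nat_lit 87) (nat_lit 2) (nat_lit 8) (.e true (nat_lit 6) (nat_lit 88) (nat_lit 2) (nat_lit 8) .nil))))))))))))))))))) .leaf) (nat_lit 50176) (nat_lit 134) (.p (nat_lit 93) (nat_lit 6) .z) .df (.nd (.nd .leaf (nat_lit 50177) (nat_lit 146) (.p (nat_lit 101) (nat_lit 6) .z) .df .leaf) (nat_lit 50179) (nat_lit 279) (.n (nat_lit 138) (nat_lit 90) (.n (nat_lit 139) (nat_lit 18) (.n (nat_lit 140) (nat_lit 36) (.n (nat_lit 141) (nat_lit 144) (.p (nat_lit 142) (nat_lit 78) (.n (nat_lit 143) (nat_lit 42) (.p (nat_lit 144) (nat_lit 78) (.p (nat_lit 145) (nat_lit 72) (.p (nat_lit 146) (nat_lit 186) (.p (nat_lit 147) (nat_lit 30) (.n (nat_lit 148) (nat_lit 12) (.n (nat_lit 149) (nat_lit 48) (.n (nat_lit 150) (nat_lit 60) (.n (nat_lit 151) (nat_lit 30) (.n (nat_lit 152) (nat_lit 6) (.p (nat_lit 153) (nat_lit 60) (.p (nat_lit 154) (nat_lit 60)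 (.p (nat_lit 155) (nat_lit 6) (.p (nat_lit 156) (nat_lit 60) (.p (nat_lit 157) (nat_lit 24) (.p (nat_lit 158) (nat_lit 42) .z))))))))))))))))))))) (.ct dW2x_c531 (nat_lit 6) (nat_lit 6) (.s true (nat_lit 1) (nat_lit 21) (nat_lit 0) (nat_lit 0) (nat_lit 1) true (nat_lit 6) true (nat_lit 8) false (nat_lit 2) true (nat_lit 9) true (nat_lit 9) (.e true (nat_lit 6) (nat_lit 93) (nat_lit 1) (nat_lit 8) (.e false (nat_lit 12) (nat_lit 96) (nat_lit 0) (nat_lit 9) (.e false (nat_lit 12) (nat_lit 99) (nat_lit 0) (nat_lit 9) (.e true (nat_lit 6) (nat_lit 103) (nat_lit 0) (nat_lit 9) (.e true (nat_lit 6) (nat_lit 100) (nat_lit 0) (nat_lit 9) (.e true (nat_lit 6) (nat_lit 101) (nat_lit 0) (nat_lit 9) (.e false (nat_lit 6) (nat_lit 102) (nat_lit 0) (nat_lit 9) .nil))))))))) .leaf)) (nat_lit 50180) (nat_lit 336) (.n (nat_lit 159) (nat_lit 18) (.p (nat_lit 160) (nat_lit 12) (.p (nat_lit 162) (nat_lit 6)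 (.n (nat_lit 164) (nat_lit 6) (.p (nat_lit 166) (nat_lit 18) (.p (nat_lit 167) (nat_lit 6) (.p (nat_lit 169) (nat_lit 6) (.p (nat_lit 172) (nat_lit 6) (.n (nat_lit 174) (nat_lit 6) (.n (nat_lit 175) (nat_lit 6) (.p (nat_lit 177) (nat_lit 6) (.n (nat_lit 181) (nat_lit 6) (.p (nat_lit 182) (nat_lit 12) (.n (nat_lit 183) (nat_lit 12) (.n (nat_lit 184) (nat_lit 12) .z))))))))))))))) (.ct dW2x_c291 (nat_lit 6) (nat_lit 6) (.s false (nat_lit 1) (nat_lit 7) (nat_lit 1) (nat_lit 5) (nat_lit 1) true (nat_lit 6) true (nat_lit 9) true (nat_lit 3) true (nat_lit 9) true (nat_lit 5) (.e true (nat_lit 6) (nat_lit 48) (nat_lit 4) (nat_lit 6) (.e false (nat_lit 12) (nat_lit 95) (nat_lit 1) (nat_lit 9) (.e true (nat_lit 12) (nat_lit 96) (nat_lit 1) (nat_lit 9) (.e false (nat_lit 6) (nat_lit 100) (nat_lit 1) (nat_lit 9) (.e false (nat_lit 12) (nat_lit 103) (nat_lit 1) (nat_lit 9) (.e false (nat_lit 6) (nat_lit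 32) (nat_lit 7) (nat_lit 3) (.e true (nat_lit 12) (nat_lit 94) (nat_lit 1) (nat_lit 9) (.e true (nat_lit 6) (nat_lit 101) (nat_lit 1) (nat_lit 9) (.e false (nat_lit 6) (nat_lit 44) (nat_lit 5) (nat_lit 5) (.e true (nat_lit 6) (nat_lit 45) (nat_lit 5) (nat_lit 5) (.e true (nat_lit 6) (nat_lit 46) (nat_lit 5) (nat_lit 5) .nil))))))))))))) (.nd (.nd (.nd .leaf (nat_lit 51200) (nat_lit 158) (.p (nat_lit 94) (nat_lit 6) (.n (nat_lit 95) (nat_lit 12) (.p (nat_lit 96) (nat_lit 6) (.p (nat_lit 97) (nat_lit 6) (.n (nat_lit 99) (nat_lit 6) (.p (nat_lit 100) (nat_lit 6) (.p (nat_lit 101) (nat_lit 6) (.n (nat_lit 102) (nat_lit 6) (.n (nat_lit 103) (nat_lit 6) (.n (nat_lit 104) (nat_lit 6) .z)))))))))) (.ct dW2x_c275 (nat_lit 6) (nat_lit 6) (.s true (nat_lit 1) (nat_lit 6) (nat_lit 2) (nat_lit 0) (nat_lit 2) true (nat_lit 0) true (nat_lit 4) true (nat_lit 1) true (nat_lit 4) true (nat_lit 6) (.e false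 (nat_lit 6) (nat_lit 14) (nat_lit 7) (nat_lit 0) (.e true (nat_lit 12) (nat_lit 43) (nat_lit 2) (nat_lit 4) (.e true (nat_lit 6) (nat_lit 17) (nat_lit 6) (nat_lit 1) (.e false (nat_lit 6) (nat_lit 38) (nat_lit 2) (nat_lit 4) (.e true (nat_lit 6) (nat_lit 39) (nat_lit 2) (nat_lit 4) (.e true (nat_lit 6) (nat_lit 42) (nat_lit 2) (nat_lit 4) .nil)))))))) .leaf) (nat_lit 51201) (nat_lit 168) (.n (nat_lit 106) (nat_lit 3) (.p (nat_lit 107) (nat_lit 9) (.n (nat_lit 108) (nat_lit 3) (.p (nat_lit 109) (nat_lit 3) (.p (nat_lit 110) (nat_lit 6) .z))))) (.ct dW2x_c35 (nat_lit 6) (nat_lit 4) (.s false (nat_lit 1) (nat_lit 6) (nat_lit 2) (nat_lit 1) (nat_lit 2) true (nat_lit 0) true (nat_lit 3) true (nat_lit 1) true (nat_lit 3) true (nat_lit 4) (.e false (nat_lit 6) (nat_lit 16) (nat_lit 7) (nat_lit 0) (.e false (nat_lit 6) (nat_lit 46) (nat_lit 2) (nat_lit 3) (.e false (nat_lit 6) (nat_lit 19) (nat_lit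 6) (nat_lit 1) .nil))))) .leaf) (nat_lit 51203) (nat_lit 347) (.n (nat_lit 159) (nat_lit 2) (.p (nat_lit 160) (nat_lit 20) (.p (nat_lit 161) (nat_lit 20) (.p (nat_lit 162) (nat_lit 12) (.n (nat_lit 163) (nat_lit 22) (.n (nat_lit 164) (nat_lit 10) (.p (nat_lit 165) (nat_lit 10) (.n (nat_lit 166) (nat_lit 8) (.p (nat_lit 167) (nat_lit 4) (.n (nat_lit 168) (nat_lit 16) (.p (nat_lit 169) (nat_lit 6) (.n (nat_lit 170) (nat_lit 10) (.n (nat_lit 171) (nat_lit 4) (.n (nat_lit 172) (nat_lit 12) (.n (nat_lit 173) (nat_lit 6) (.n (nat_lit 174) (nat_lit 12) (.p (nat_lit 175) (nat_lit 24) (.n (nat_lit 176) (nat_lit 8) (.p (nat_lit 177) (nat_lit 6) (.n (nat_lit 180) (nat_lit 2) (.p (nat_lit 181) (nat_lit 18) (.n (nat_lit 182) (nat_lit 2) (.p (nat_lit 183) (nat_lit 2) (.n (nat_lit 184) (nat_lit 6) .z)))))))))))))))))))))))) (.ct dW2x_c291 (nat_lit 6) (nat_lit 7) (.s true (nat_lit 1) (nat_lit 19) (nat_lit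 0) (nat_lit 2) (nat_lit 1) true (nat_lit 7) true (nat_lit 9) false (nat_lit 1) true (nat_lit 10) true (nat_lit 8) (.e true (nat_lit 6) (nat_lit 99) (nat_lit 1) (nat_lit 9) (.e true (nat_lit 6) (nat_lit 19) (nat_lit 13) (nat_lit 1) (.e true (nat_lit 3) (nat_lit 106) (nat_lit 0) (nat_lit 10) (.e false (nat_lit 3) (nat_lit 107) (nat_lit 0) (nat_lit 10) (.e true (nat_lit 3) (nat_lit 108) (nat_lit 0) (nat_lit 10) (.e false (nat_lit 3) (nat_lit 109) (nat_lit 0) (nat_lit 10) (.e true (nat_lit 6) (nat_lit 87) (nat_lit 2) (nat_lit 8) .nil))))))))) (.nd .leaf (nat_lit 52224) (nat_lit 147) (.p (nat_lit 102) (nat_lit 6) .z) .df .leaf))) (nat_lit 52225) (nat_lit 162) (.p (nat_lit 108) (nat_lit 6) .z) .df (.nd (.nd (.nd (.nd .leaf (nat_lit 52227) (nat_lit 334) (.p (nat_lit 159) (nat_lit 22) (.n (nat_lit 160) (nat_lit 22) (.n (nat_lit 161) (nat_lit 28) (.n (nat_lit 162) (nat_lit 12) (.p (nat_lit 163) (nat_lit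 2) (.p (nat_lit 164) (nat_lit 14) (.n (nat_lit 165) (nat_lit 8) (.p (nat_lit 166) (nat_lit 4) (.n (nat_lit 167) (nat_lit 2) (.p (nat_lit 168) (nat_lit 14) (.n (nat_lit 169) (nat_lit 6) (.p (nat_lit 170) (nat_lit 8) (.p (nat_lit 171) (nat_lit 8) (.p (nat_lit 174) (nat_lit 21) (.n (nat_lit 175) (nat_lit 21) (.p (nat_lit 176) (nat_lit 7) (.n (nat_lit 177) (nat_lit 9) (.n (nat_lit 178) (nat_lit 6) (.p (nat_lit 179) (nat_lit 6) (.p (nat_lit 180) (nat_lit 4) (.n (nat_lit 181) (nat_lit 6) (.n (nat_lit 182) (nat_lit 2) (.p (nat_lit 183) (nat_lit 2) (.p (nat_lit 184) (nat_lit 6) .z)))))))))))))))))))))))) (.ct dW2x_c291 (nat_lit 6) (nat_lit 7) (.s true (nat_lit 1) (nat_lit 6) (nat_lit 3) (nat_lit 2) (nat_lit 2) true (nat_lit 1) true (nat_lit 8) true (nat_lit 4) true (nat_lit 7) true (nat_lit 8) (.s false (nat_lit 1) (nat_lit 12) (nat_lit 1) (nat_lit 2) (nat_lit 2) true (nat_lit 4) true (nat_lit 8)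 true (nat_lit 1) true (nat_lit 9) true (nat_lit 8) (.e false (nat_lit 6) (nat_lit 52) (nat_lit 3) (nat_lit 7) (.e true (nat_lit 12) (nat_lit 80) (nat_lit 2) (nat_lit 8) (.e false (nat_lit 6) (nat_lit 81) (nat_lit 2) (nat_lit 8) (.e true (nat_lit 6) (nat_lit 82) (nat_lit 2) (nat_lit 8) (.e false (nat_lit 6) (nat_lit 84) (nat_lit 2) (nat_lit 8) (.e true (nat_lit 6) (nat_lit 86) (nat_lit 2) (nat_lit 8) (.e false (nat_lit 6) (nat_lit 87) (nat_lit 2) (nat_lit 8) (.e false (nat_lit 6) (nat_lit 88) (nat_lit 2) (nat_lit 8) (.e false (nat_lit 6) (nat_lit 76) (nat_lit 2) (nat_lit 8) (.e true (nat_lit 6) (nat_lit 103) (nat_lit 1) (nat_lit 9) .nil))))))))))))) .leaf) (nat_lit 53248) (nat_lit 151) (.p (nat_lit 95) (nat_lit 6) (.p (nat_lit 96) (nat_lit 6) (.n (nat_lit 97) (nat_lit 6) (.p (nat_lit 99) (nat_lit 6) (.n (nat_lit 100) (nat_lit 6) (.n (nat_lit 101) (nat_lit 6) (.p (nat_lit 102) (nat_lit 6)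 .z))))))) (.ct dW2x_c275 (nat_lit 6) (nat_lit 6) (.s false (nat_lit 1) (nat_lit 5) (nat_lit 1) (nat_lit 2) (nat_lit 2) true (nat_lit 1) true (nat_lit 4) true (nat_lit 2) true (nat_lit 5) true (nat_lit 4) (.s false (nat_lit 1) (nat_lit 6) (nat_lit 0) (nat_lit 2) (nat_lit 2) true (nat_lit 2) true (nat_lit 4) true (nat_lit 1) true (nat_lit 6) true (nat_lit 4) (.e false (nat_lit 6) (nat_lit 39) (nat_lit 2) (nat_lit 4) (.e true (nat_lit 6) (nat_lit 48) (nat_lit 1) (nat_lit 5) (.e true (nat_lit 6) (nat_lit 49) (nat_lit 1) (nat_lit 5) (.e true (nat_lit 6) (nat_lit 41) (nat_lit 2) (nat_lit 4) (.e false (nat_lit 6) (nat_lit 40) (nat_lit 2) (nat_lit 4) (.e false (nat_lit 6) (nat_lit 51) (nat_lit 0) (nat_lit 6) (.e false (nat_lit 6) (nat_lit 43) (nat_lit 2) (nat_lit 4) .nil)))))))))) .leaf) (nat_lit 53249) (nat_lit 163) (.p (nat_lit 109) (nat_lit 6) .z) .df (.nd (.nd .leaf (nat_lit 53251) (nat_lit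 333) (.p (nat_lit 159) (nat_lit 15) (.n (nat_lit 160) (nat_lit 30) (.n (nat_lit 161) (nat_lit 42) (.n (nat_lit 162) (nat_lit 27) (.p (nat_lit 163) (nat_lit 24) (.p (nat_lit 164) (nat_lit 9) (.n (nat_lit 165) (nat_lit 12) (.p (nat_lit 166) (nat_lit 9) (.n (nat_lit 167) (nat_lit 9) (.p (nat_lit 168) (nat_lit 18) (.n (nat_lit 169) (nat_lit 3) (.p (nat_lit 170) (nat_lit 12) (.p (nat_lit 171) (nat_lit 6) (.p (nat_lit 172) (nat_lit 15) (.p (nat_lit 173) (nat_lit 6) (.p (nat_lit 174) (nat_lit 12) (.n (nat_lit 175) (nat_lit 30) (.p (nat_lit 176) (nat_lit 9) (.n (nat_lit 177) (nat_lit 6) (.p (nat_lit 179) (nat_lit 12) (.p (nat_lit 180) (nat_lit 9) (.n (nat_lit 181) (nat_lit 15) .z)))))))))))))))))))))) (.ct dW2x_c291 (nat_lit 6) (nat_lit 7) (.s false (nat_lit 1) (nat_lit 7) (nat_lit 1) (nat_lit 3) (nat_lit 2) true (nat_lit 4) true (nat_lit 8) true (nat_lit 3) true (nat_lit 9) true (nat_lit 7) (.e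 false (nat_lit 6) (nat_lit 39) (nat_lit 6) (nat_lit 4) (.e true (nat_lit 6) (nat_lit 40) (nat_lit 6) (nat_lit 4) (.e true (nat_lit 6) (nat_lit 41) (nat_lit 6) (nat_lit 4) (.e true (nat_lit 6) (nat_lit 43) (nat_lit 6) (nat_lit 4) (.e true (nat_lit 6) (nat_lit 77) (nat_lit 2) (nat_lit 8) (.e true (nat_lit 6) (nat_lit 78) (nat_lit 2) (nat_lit 8) (.e true (nat_lit 6) (nat_lit 79) (nat_lit 2) (nat_lit 8) (.e false (nat_lit 6) (nat_lit 80) (nat_lit 2) (nat_lit 8) (.e false (nat_lit 6) (nat_lit 88) (nat_lit 2) (nat_lit 8) (.e false (nat_lit 6) (nat_lit 29) (nat_lit 7) (nat_lit 3) (.e false (nat_lit 6) (nat_lit 103) (nat_lit 1) (nat_lit 9) .nil))))))))))))) .leaf) (nat_lit 54274) (nat_lit 221) (.p (nat_lit 113) (nat_lit 6) (.p (nat_lit 114) (nat_lit 6) (.p (nat_lit 118) (nat_lit 6) (.n (nat_lit 119) (nat_lit 6) (.p (nat_lit 121) (nat_lit 6) (.p (nat_lit 122) (nat_lit 12) (.p (nat_lit 124) (nat_lit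 12) (.n (nat_lit 127) (nat_lit 6) (.n (nat_lit 130) (nat_lit 6) (.n (nat_lit 131) (nat_lit 12) (.p (nat_lit 132) (nat_lit 6) (.n (nat_lit 133) (nat_lit 12) (.p (nat_lit 134) (nat_lit 6) (.p (nat_lit 136) (nat_lit 6) .z)))))))))))))) (.ct dW2x_c546 (nat_lit 6) (nat_lit 9) (.s true (nat_lit 1) (nat_lit 3) (nat_lit 2) (nat_lit 2) (nat_lit 3) true (nat_lit 0) true (nat_lit 8) true (nat_lit 8) true (nat_lit 9) true (nat_lit 9) (.a true (nat_lit 18) (nat_lit 12) (nat_lit 12) (nat_lit 0) (nat_lit 0) (.e true (nat_lit 6) (nat_lit 38) (nat_lit 3) (nat_lit 8) (.e false (nat_lit 6) (nat_lit 39) (nat_lit 3) (nat_lit 8) (.e true (nat_lit 6) (nat_lit 40) (nat_lit 3) (nat_lit 8) (.e true (nat_lit 6) (nat_lit 41) (nat_lit 3) (nat_lit 8) (.e true (nat_lit 6) (nat_lit 43) (nat_lit 3) (nat_lit 8) (.e true (nat_lit 12) (nat_lit 55) (nat_lit 2) (nat_lit 9) (.e true (nat_lit 6) (nat_lit 56) (nat_lit 2) (nat_lit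 9) (.e false (nat_lit 6) (nat_lit 58) (nat_lit 2) (nat_lit 9) (.e true (nat_lit 6) (nat_lit 59) (nat_lit 2) (nat_lit 9) (.e true (nat_lit 12) (nat_lit 60) (nat_lit 2) (nat_lit 9) (.e false (nat_lit 12) (nat_lit 61) (nat_lit 2) (nat_lit 9) (.e false (nat_lit 6) (nat_lit 62) (nat_lit 2) (nat_lit 9) (.e false (nat_lit 6) (nat_lit 63) (nat_lit 2) (nat_lit 9) (.e false (nat_lit 6) (nat_lit 54) (nat_lit 2) (nat_lit 9) (.e false (nat_lit 6) (nat_lit 57) (nat_lit 2) (nat_lit 9) .nil)))))))))))))))))) .leaf)) (nat_lit 55298) (nat_lit 170) (.p (nat_lit 111) (nat_lit 6) .z) .df (.nd (.nd (.nd .leaf (nat_lit 56322) (nat_lit 171) (.p (nat_lit 112) (nat_lit 6) .z) .df .leaf) (nat_lit 57346) (nat_lit 172) (.p (nat_lit 113) (nat_lit 6) .z) .df .leaf) (nat_lit 58370) (nat_lit 173) (.p (nat_lit 114) (nat_lit 6) .z) .df (.nd .leaf (nat_lit 59394) (nat_lit 174) (.p (nat_lit 115) (nat_lit 6) .z) .df .leaf))))))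

noncomputable def dW2x_t4 : Tr := (.nd (.nd (.nd (.nd (.nd (.nd (.nd .leaf (nat_lit 61442) (nat_lit 176) (.p (nat_lit 117) (nat_lit 6) .z) .df .leaf) (nat_lit 62466) (nat_lit 177) (.p (nat_lit 118) (nat_lit 6) .z) .df .leaf) (nat_lit 63490) (nat_lit 178) (.p (nat_lit 119) (nat_lit 6) .z) .df (.nd (.nd .leaf (nat_lit 64514) (nat_lit 179) (.p (nat_lit 120) (nat_lit 6) .z) .df .leaf) (nat_lit 65537) (nat_lit 180) (.p (nat_lit 121) (nat_lit 6) .z) .df .leaf)) (nat_lit 65538) (nat_lit 261) (.p (nat_lit 139) (nat_lit 6) (.n (nat_lit 140) (nat_lit 3) (.p (nat_lit 141) (nat_lit 15) (.n (nat_lit 142) (nat_lit 9) (.n (nat_lit 143) (nat_lit 3) (.n (nat_lit 144) (nat_lit 6) (.n (nat_lit 145) (nat_lit 9) (.n (nat_lit 146) (nat_lit 6) (.n (nat_lit 148) (nat_lit 9) (.p (nat_lit 149) (nat_lit 12) (.p (nat_lit 150) (nat_lit 18) (.n (nat_lit 151) (nat_lit 15) (.p (nat_lit 152) (nat_lit 21) (.n (nat_lit 153)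 (nat_lit 3) (.n (nat_lit 154) (nat_lit 6) (.p (nat_lit 155) (nat_lit 18) (.p (nat_lit 156) (nat_lit 12) (.n (nat_lit 157) (nat_lit 3) .z)))))))))))))))))) (.ct dW2x_c531 (nat_lit 6) (nat_lit 7) (.s false (nat_lit 1) (nat_lit 5) (nat_lit 1) (nat_lit 2) (nat_lit 5) true (nat_lit 0) true (nat_lit 5) true (nat_lit 5) true (nat_lit 8) true (nat_lit 7) (.s true (nat_lit 1) (nat_lit 5) (nat_lit 1) (nat_lit 5) (nat_lit 2) true (nat_lit 4) true (nat_lit 7) true (nat_lit 5) true (nat_lit 8) true (nat_lit 5) (.s false (nat_lit 1) (nat_lit 6) (nat_lit 0) (nat_lit 5) (nat_lit 2) true (nat_lit 5) true (nat_lit 7) true (nat_lit 4) true (nat_lit 9) true (nat_lit 5) (.s true (nat_lit 1) (nat_lit 6) (nat_lit 5) (nat_lit 0) (nat_lit 2) false (nat_lit 0) true (nat_lit 7) true (nat_lit 4) true (nat_lit 5) true (nat_lit 9) (.s true (nat_lit 1) (nat_lit 7) (nat_lit 0) (nat_lit 6) (nat_lit 0) false (nat_lit 10)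 true (nat_lit 9) true (nat_lit 3) true (nat_lit 9) true (nat_lit 4) (.s false (nat_lit 1) (nat_lit 11) (nat_lit 2) (nat_lit 2) (nat_lit 1) true (nat_lit 4) true (nat_lit 8) true (nat_lit 1) true (nat_lit 7) true (nat_lit 7) (.s true (nat_lit 1) (nat_lit 12) (nat_lit 0) (nat_lit 2) (nat_lit 2) true (nat_lit 5) true (nat_lit 7) true (nat_lit 0) true (nat_lit 9) true (nat_lit 7) (.s false (nat_lit 1) (nat_lit 14) (nat_lit 2) (nat_lit 0) (nat_lit 2) true (nat_lit 3) true (nat_lit 7) true (nat_lit 0) true (nat_lit 7) true (nat_lit 9) (.s true (nat_lit 1) (nat_lit 17) (nat_lit 0) (nat_lit 1) (nat_lit 2) true (nat_lit 5) true (nat_lit 7) false (nat_lit 0) true (nat_lit 9) true (nat_lit 8) (.s false (nat_lit 1) (nat_lit 17) (nat_lit 2) (nat_lit 0) (nat_lit 1) true (nat_lit 4) true (nat_lit 8) false (nat_lit 0) true (nat_lit 7) true (nat_lit 9) (.s false (nat_lit 1) (nat_lit 20) (nat_lit 0) (nat_lit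 2) (nat_lit 0) false (nat_lit 10) true (nat_lit 9) false (nat_lit 1) true (nat_lit 9) true (nat_lit 7) (.e false (nat_lit 6) (nat_lit 39) (nat_lit 5) (nat_lit 5) (.e true (nat_lit 6) (nat_lit 42) (nat_lit 5) (nat_lit 5) (.e false (nat_lit 6) (nat_lit 89) (nat_lit 1) (nat_lit 8) (.e false (nat_lit 6) (nat_lit 69) (nat_lit 2) (nat_lit 7) (.e false (nat_lit 6) (nat_lit 70) (nat_lit 2) (nat_lit 7) (.e true (nat_lit 6) (nat_lit 72) (nat_lit 2) (nat_lit 7) (.e true (nat_lit 6) (nat_lit 73) (nat_lit 2) (nat_lit 7) (.e false (nat_lit 6) (nat_lit 104) (nat_lit 0) (nat_lit 9) (.e false (nat_lit 6) (nat_lit 97) (nat_lit 0) (nat_lit 9) (.e true (nat_lit 6) (nat_lit 100) (nat_lit 0) (nat_lit 9) (.e true (nat_lit 6) (nat_lit 99) (nat_lit 0) (nat_lit 9) .nil))))))))))))))))))))))) (.nd (.nd (.nd .leaf (nat_lit 66561) (nat_lit 181) (.p (nat_lit 122) (nat_lit 6) .z) .df .leaf) (nat_lit 66562) (nat_lit 262)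 (.n (nat_lit 138) (nat_lit 42) (.n (nat_lit 139) (nat_lit 12) (.n (nat_lit 140) (nat_lit 18) (.n (nat_lit 141) (nat_lit 87) (.p (nat_lit 142) (nat_lit 39) (.n (nat_lit 143) (nat_lit 15) (.p (nat_lit 144) (nat_lit 48) (.p (nat_lit 145) (nat_lit 42) (.p (nat_lit 146) (nat_lit 102) (.p (nat_lit 147) (nat_lit 18) (.n (nat_lit 149) (nat_lit 33) (.n (nat_lit 150) (nat_lit 48) (.n (nat_lit 151) (nat_lit 9) (.n (nat_lit 152) (nat_lit 15) (.p (nat_lit 153) (nat_lit 33) (.p (nat_lit 154) (nat_lit 36) (.n (nat_lit 155) (nat_lit 9) (.p (nat_lit 156) (nat_lit 24) (.p (nat_lit 157) (nat_lit 12) (.p (nat_lit 158) (nat_lit 24) .z)))))))))))))))))))) (.ct dW2x_c531 (nat_lit 12) (nat_lit 7) (.s true (nat_lit 2) (nat_lit 5) (nat_lit 1) (nat_lit 2) (nat_lit 5) true (nat_lit 0) true (nat_lit 5) true (nat_lit 5) true (nat_lit 8) true (nat_lit 7) (.s false (nat_lit 1) (nat_lit 5) (nat_lit 1) (nat_lit 5) (nat_lit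 2) true (nat_lit 4) true (nat_lit 7) true (nat_lit 5) true (nat_lit 8) true (nat_lit 5) (.s true (nat_lit 1) (nat_lit 5) (nat_lit 2) (nat_lit 1) (nat_lit 5) false (nat_lit 0) true (nat_lit 5) true (nat_lit 5) true (nat_lit 7) true (nat_lit 8) (.s false (nat_lit 1) (nat_lit 6) (nat_lit 5) (nat_lit 0) (nat_lit 2) false (nat_lit 0) true (nat_lit 7) true (nat_lit 4) true (nat_lit 5) true (nat_lit 9) (.s false (nat_lit 1) (nat_lit 7) (nat_lit 0) (nat_lit 6) (nat_lit 0) false (nat_lit 10) true (nat_lit 9) true (nat_lit 3) true (nat_lit 9) true (nat_lit 4) (.s true (nat_lit 2) (nat_lit 7) (nat_lit 2) (nat_lit 3) (nat_lit 0) true (nat_lit 5) true (nat_lit 9) true (nat_lit 3) true (nat_lit 7) true (nat_lit 6) dW2x_i8))))))) .leaf) (nat_lit 67585) (nat_lit 203) (.p (nat_lit 111) (nat_lit 9) (.n (nat_lit 112) (nat_lit 3) (.n (nat_lit 113) (nat_lit 6) (.p (nat_lit 114) (nat_lit 3) (.p (nat_lit 115)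 (nat_lit 6) (.p (nat_lit 116) (nat_lit 9) (.p (nat_lit 117) (nat_lit 6) (.n (nat_lit 118) (nat_lit 18) (.n (nat_lit 119) (nat_lit 18) (.n (nat_lit 120) (nat_lit 15) (.n (nat_lit 123) (nat_lit 3) (.n (nat_lit 125) (nat_lit 3) (.p (nat_lit 126) (nat_lit 3) (.p (nat_lit 127) (nat_lit 3) (.p (nat_lit 128) (nat_lit 6) (.p (nat_lit 129) (nat_lit 9) (.p (nat_lit 130) (nat_lit 6) (.n (nat_lit 131) (nat_lit 3) (.p (nat_lit 132) (nat_lit 9) (.n (nat_lit 133) (nat_lit 3) (.p (nat_lit 134) (nat_lit 3) (.n (nat_lit 135) (nat_lit 3) (.p (nat_lit 136) (nat_lit 3) (.p (nat_lit 137) (nat_lit 6) .z)))))))))))))))))))))))) (.ct dW2x_c546 (nat_lit 12) (nat_lit 10) (.s false (nat_lit 1) (nat_lit 6) (nat_lit 0) (nat_lit 0) (nat_lit 6) true (nat_lit 0) true (nat_lit 5) true (nat_lit 5) true (nat_lit 11) true (nat_lit 11) (.s true (nat_lit 1) (nat_lit 14) (nat_lit 0) (nat_lit 1) (nat_lit 2) true (nat_lit 6) true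 (nat_lit 9) true (nat_lit 0) true (nat_lit 11) true (nat_lit 10) (.s true (nat_lit 1) (nat_lit 14) (nat_lit 1) (nat_lit 0) (nat_lit 2) true (nat_lit 5) true (nat_lit 9) true (nat_lit 0) true (nat_lit 10) true (nat_lit 11) (.s false (nat_lit 1) (nat_lit 14) (nat_lit 2) (nat_lit 1) (nat_lit 0) true (nat_lit 6) true (nat_lit 11) true (nat_lit 0) true (nat_lit 9) true (nat_lit 10) (.a false (nat_lit 36) (nat_lit 14) (nat_lit 14) (nat_lit 0) (nat_lit 0) (.e false (nat_lit 12) (nat_lit 28) (nat_lit 6) (nat_lit 5) (.e true (nat_lit 12) (nat_lit 57) (nat_lit 2) (nat_lit 9) (.e true (nat_lit 6) (nat_lit 71) (nat_lit 1) (nat_lit 10) (.e false (nat_lit 6) (nat_lit 62) (nat_lit 2) (nat_lit 9) (.e true (nat_lit 6) (nat_lit 69) (nat_lit 1) (nat_lit 10) (.e false (nat_lit 6) (nat_lit 70) (nat_lit 1) (nat_lit 10) (.e false (nat_lit 6) (nat_lit 73) (nat_lit 1) (nat_lit 10) (.e false (nat_lit 12) (nat_lit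 74) (nat_lit 1) (nat_lit 10) (.e true (nat_lit 12) (nat_lit 58) (nat_lit 2) (nat_lit 9) (.e true (nat_lit 6) (nat_lit 59) (nat_lit 2) (nat_lit 9) (.e true (nat_lit 6) (nat_lit 60) (nat_lit 2) (nat_lit 9) (.e false (nat_lit 18) (nat_lit 61) (nat_lit 2) (nat_lit 9) (.e false (nat_lit 12) (nat_lit 63) (nat_lit 2) (nat_lit 9) .nil))))))))))))))))))) (.nd .leaf (nat_lit 67586) (nat_lit 237) (.p (nat_lit 138) (nat_lit 6) .z) .df .leaf))) (nat_lit 68609) (nat_lit 207) (.n (nat_lit 111) (nat_lit 24) (.p (nat_lit 112) (nat_lit 6) (.p (nat_lit 113) (nat_lit 6) (.n (nat_lit 114) (nat_lit 24) (.n (nat_lit 115) (nat_lit 30) (.n (nat_lit 116) (nat_lit 36) (.n (nat_lit 117) (nat_lit 24) (.p (nat_lit 118) (nat_lit 72) (.p (nat_lit 119) (nat_lit 66) (.p (nat_lit 120) (nat_lit 60) (.n (nat_lit 121) (nat_lit 12) (.n (nat_lit 122) (nat_lit 12) (.p (nat_lit 123) (nat_lit 6) (.n (nat_lit 124) (nat_lit 30) (.p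 (nat_lit 125) (nat_lit 24) (.n (nat_lit 126) (nat_lit 12) (.p (nat_lit 127) (nat_lit 12) (.p (nat_lit 129) (nat_lit 12) (.p (nat_lit 131) (nat_lit 18) (.n (nat_lit 132) (nat_lit 24) (.p (nat_lit 133) (nat_lit 24) (.n (nat_lit 134) (nat_lit 12) (.n (nat_lit 136) (nat_lit 18) (.n (nat_lit 137) (nat_lit 12) .z)))))))))))))))))))))))) (.ct dW2x_c546 (nat_lit 6) (nat_lit 10) (.s true (nat_lit 1) (nat_lit 6) (nat_lit 0) (nat_lit 0) (nat_lit 6) true (nat_lit 0) true (nat_lit 5) true (nat_lit 5) true (nat_lit 11) true (nat_lit 11) (.s true (nat_lit 1) (nat_lit 11) (nat_lit 2) (nat_lit 1) (nat_lit 1) true (nat_lit 5) true (nat_lit 10) true (nat_lit 1) true (nat_lit 9) true (nat_lit 10) (.s true (nat_lit 1) (nat_lit 16) (nat_lit 0) (nat_lit 2) (nat_lit 0) false (nat_lit 12) true (nat_lit 11) false (nat_lit 1) true (nat_lit 11) true (nat_lit 9) (.a true (nat_lit 18) (nat_lit 14) (nat_lit 14) (nat_lit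 0) (nat_lit 0) (.e true (nat_lit 6) (nat_lit 28) (nat_lit 6) (nat_lit 5) (.e true (nat_lit 6) (nat_lit 78) (nat_lit 0) (nat_lit 11) (.e true (nat_lit 6) (nat_lit 80) (nat_lit 0) (nat_lit 11) (.e false (nat_lit 6) (nat_lit 84) (nat_lit 0) (nat_lit 11) (.e false (nat_lit 6) (nat_lit 87) (nat_lit 0) (nat_lit 11) (.e false (nat_lit 12) (nat_lit 88) (nat_lit 0) (nat_lit 11) (.e true (nat_lit 6) (nat_lit 26) (nat_lit 6) (nat_lit 5) (.e true (nat_lit 6) (nat_lit 54) (nat_lit 2) (nat_lit 9) (.e false (nat_lit 18) (nat_lit 55) (nat_lit 2) (nat_lit 9) (.e false (nat_lit 12) (nat_lit 56) (nat_lit 2) (nat_lit 9) (.e true (nat_lit 6) (nat_lit 57) (nat_lit 2) (nat_lit 9) (.e false (nat_lit 6) (nat_lit 61) (nat_lit 2) (nat_lit 9) (.e false (nat_lit 6) (nat_lit 64) (nat_lit 1) (nat_lit 10) (.e false (nat_lit 6) (nat_lit 81) (nat_lit 0) (nat_lit 11) (.e true (nat_lit 6) (nat_lit 58) (nat_lit 2) (nat_lit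 9) .nil)))))))))))))))))))) (.nd (.nd (.nd (.nd .leaf (nat_lit 68610) (nat_lit 238) (.p (nat_lit 139) (nat_lit 6) .z) .df .leaf) (nat_lit 69633) (nat_lit 182) (.p (nat_lit 123) (nat_lit 6) .z) .df .leaf) (nat_lit 69634) (nat_lit 239) (.p (nat_lit 140) (nat_lit 6) .z) .df (.nd (.nd .leaf (nat_lit 70657) (nat_lit 183) (.p (nat_lit 124) (nat_lit 6) .z) .df .leaf) (nat_lit 70658) (nat_lit 240) (.p (nat_lit 141) (nat_lit 6) .z) .df .leaf)) (nat_lit 71681) (nat_lit 184) (.p (nat_lit 125) (nat_lit 6) .z) .df (.nd (.nd (.nd .leaf (nat_lit 71682) (nat_lit 241) (.p (nat_lit 142) (nat_lit 6) .z) .df .leaf) (nat_lit 72705) (nat_lit 185) (.p (nat_lit 126) (nat_lit 6) .z) .df .leaf) (nat_lit 72706) (nat_lit 242) (.p (nat_lit 143) (nat_lit 6) .z) .df (.nd .leaf (nat_lit 73729) (nat_lit 186) (.p (nat_lit 127) (nat_lit 6) .z) .df .leaf)))) (nat_lit 73730) (nat_lit 243) (.p (nat_lit 144) (nat_lit 6) .z) .df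 (.nd (.nd (.nd (.nd (.nd .leaf (nat_lit 74753) (nat_lit 187) (.p (nat_lit 128) (nat_lit 6) .z) .df .leaf) (nat_lit 74754) (nat_lit 244) (.p (nat_lit 145) (nat_lit 6) .z) .df .leaf) (nat_lit 75777) (nat_lit 188) (.p (nat_lit 129) (nat_lit 6) .z) .df (.nd (.nd .leaf (nat_lit 75778) (nat_lit 245) (.p (nat_lit 146) (nat_lit 6) .z) .df .leaf) (nat_lit 76800) (nat_lit 212) (.n (nat_lit 111) (nat_lit 3) (.p (nat_lit 112) (nat_lit 3) (.p (nat_lit 113) (nat_lit 12) (.p (nat_lit 114) (nat_lit 15) (.p (nat_lit 116) (nat_lit 9) (.p (nat_lit 117) (nat_lit 9) (.n (nat_lit 118) (nat_lit 3) (.n (nat_lit 119) (nat_lit 15) (.n (nat_lit 120) (nat_lit 9) (.p (nat_lit 121) (nat_lit 18) (.p (nat_lit 122) (nat_lit 36) (.p (nat_lit 123) (nat_lit 9) (.p (nat_lit 124) (nat_lit 24) (.p (nat_lit 125) (nat_lit 9) (.n (nat_lit 126) (nat_lit 9) (.n (nat_lit 127) (nat_lit 21) (.n (nat_lit 128) (nat_lit 9) (.n (nat_lit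 129) (nat_lit 27) (.n (nat_lit 130) (nat_lit 18) (.n (nat_lit 131) (nat_lit 6) (.n (nat_lit 133) (nat_lit 18) (.p (nat_lit 135) (nat_lit 9) (.p (nat_lit 136) (nat_lit 15) (.p (nat_lit 137) (nat_lit 6) .z)))))))))))))))))))))))) (.ct dW2x_c546 (nat_lit 6) (nat_lit 11) (.s true (nat_lit 1) (nat_lit 19) (nat_lit 0) (nat_lit 0) (nat_lit 1) true (nat_lit 8) true (nat_lit 10) false (nat_lit 3) true (nat_lit 11) true (nat_lit 11) (.e true (nat_lit 6) (nat_lit 43) (nat_lit 3) (nat_lit 8) (.e true (nat_lit 6) (nat_lit 74) (nat_lit 1) (nat_lit 10) (.e false (nat_lit 6) (nat_lit 77) (nat_lit 0) (nat_lit 11) (.e false (nat_lit 6) (nat_lit 78) (nat_lit 0) (nat_lit 11) (.e false (nat_lit 6) (nat_lit 79) (nat_lit 0) (nat_lit 11) (.e false (nat_lit 6) (nat_lit 80) (nat_lit 0) (nat_lit 11) (.e true (nat_lit 6) (nat_lit 81) (nat_lit 0) (nat_lit 11) (.e false (nat_lit 6) (nat_lit 82) (nat_lit 0) (nat_lit 11)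 (.e true (nat_lit 6) (nat_lit 84) (nat_lit 0) (nat_lit 11) (.e false (nat_lit 6) (nat_lit 86) (nat_lit 0) (nat_lit 11) (.e true (nat_lit 6) (nat_lit 88) (nat_lit 0) (nat_lit 11) .nil))))))))))))) .leaf)) (nat_lit 76802) (nat_lit 329) (.n (nat_lit 159) (nat_lit 3) (.p (nat_lit 160) (nat_lit 12) (.p (nat_lit 161) (nat_lit 6) (.p (nat_lit 162) (nat_lit 3) (.n (nat_lit 164) (nat_lit 9) (.p (nat_lit 165) (nat_lit 6) (.n (nat_lit 166) (nat_lit 3) (.n (nat_lit 167) (nat_lit 3) (.p (nat_lit 169) (nat_lit 9) (.p (nat_lit 170) (nat_lit 6) (.n (nat_lit 171) (nat_lit 6) (.n (nat_lit 172) (nat_lit 3) (.n (nat_lit 174) (nat_lit 9) (.p (nat_lit 175) (nat_lit 3) (.p (nat_lit 177) (nat_lit 3) (.p (nat_lit 179) (nat_lit 6) (.p (nat_lit 180) (nat_lit 3) (.p (nat_lit 181) (nat_lit 3) (.n (nat_lit 184) (nat_lit 12) .z))))))))))))))))))) (.ct dW2x_c291 (nat_lit 6) (nat_lit 8) (.s false (nat_lit 1) (nat_lit 6)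 (nat_lit 0) (nat_lit 6) (nat_lit 2) true (nat_lit 5) true (nat_lit 8) true (nat_lit 4) true (nat_lit 10) true (nat_lit 4) (.e true (nat_lit 6) (nat_lit 76) (nat_lit 2) (nat_lit 8) (.e false (nat_lit 12) (nat_lit 77) (nat_lit 2) (nat_lit 8) (.e false (nat_lit 18) (nat_lit 78) (nat_lit 2) (nat_lit 8) (.e false (nat_lit 12) (nat_lit 79) (nat_lit 2) (nat_lit 8) (.e false (nat_lit 6) (nat_lit 80) (nat_lit 2) (nat_lit 8) (.e false (nat_lit 6) (nat_lit 82) (nat_lit 2) (nat_lit 8) (.e true (nat_lit 6) (nat_lit 83) (nat_lit 2) (nat_lit 8) (.e true (nat_lit 6) (nat_lit 84) (nat_lit 2) (nat_lit 8) (.e false (nat_lit 6) (nat_lit 86) (nat_lit 2) (nat_lit 8) (.e true (nat_lit 12) (nat_lit 87) (nat_lit 2) (nat_lit 8) (.e true (nat_lit 6) (nat_lit 88) (nat_lit 2) (nat_lit 8) (.e true (nat_lit 6) (nat_lit 40) (nat_lit 6) (nat_lit 4) (.e true (nat_lit 3) (nat_lit 106) (nat_lit 0) (nat_lit 10) (.e false (nat_lit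 3) (nat_lit 107) (nat_lit 0) (nat_lit 10) (.e true (nat_lit 3) (nat_lit 108) (nat_lit 0) (nat_lit 10) (.e false (nat_lit 3) (nat_lit 109) (nat_lit 0) (nat_lit 10) (.e true (nat_lit 6) (nat_lit 43) (nat_lit 6) (nat_lit 4) .nil))))))))))))))))))) (.nd (.nd (.nd .leaf (nat_lit 77824) (nat_lit 209) (.n (nat_lit 111) (nat_lit 12) (.p (nat_lit 112) (nat_lit 12) (.p (nat_lit 113) (nat_lit 18) (.p (nat_lit 114) (nat_lit 6) (.p (nat_lit 117) (nat_lit 12) (.n (nat_lit 119) (nat_lit 6) (.p (nat_lit 121) (nat_lit 12) (.p (nat_lit 122) (nat_lit 30) (.p (nat_lit 123) (nat_lit 6) (.p (nat_lit 124) (nat_lit 6) (.p (nat_lit 125) (nat_lit 18) (.n (nat_lit 126) (nat_lit 12) (.n (nat_lit 127) (nat_lit 12) (.n (nat_lit 128) (nat_lit 6) (.n (nat_lit 129) (nat_lit 12) (.n (nat_lit 130) (nat_lit 12) (.n (nat_lit 132) (nat_lit 6) (.n (nat_lit 133) (nat_lit 12) (.p (nat_lit 135) (nat_lit 6) (.p (nat_lit 136) (nat_lit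 6) .z)))))))))))))))))))) (.ct dW2x_c546 (nat_lit 6) (nat_lit 11) (.s true (nat_lit 1) (nat_lit 14) (nat_lit 1) (nat_lit 0) (nat_lit 2) true (nat_lit 5) true (nat_lit 9) true (nat_lit 0) true (nat_lit 10) true (nat_lit 11) (.s true (nat_lit 1) (nat_lit 12) (nat_lit 1) (nat_lit 2) (nat_lit 0) true (nat_lit 8) true (nat_lit 11) true (nat_lit 0) true (nat_lit 10) true (nat_lit 9) (.a true (nat_lit 36) (nat_lit 12) (nat_lit 14) (nat_lit 0) (nat_lit 0) (.e false (nat_lit 6) (nat_lit 28) (nat_lit 6) (nat_lit 5) (.e true (nat_lit 6) (nat_lit 62) (nat_lit 2) (nat_lit 9) (.e true (nat_lit 6) (nat_lit 66) (nat_lit 1) (nat_lit 10) (.e true (nat_lit 6) (nat_lit 69) (nat_lit 1) (nat_lit 10) (.e false (nat_lit 12) (nat_lit 70) (nat_lit 1) (nat_lit 10) (.e false (nat_lit 6) (nat_lit 73) (nat_lit 1) (nat_lit 10) (.e false (nat_lit 12) (nat_lit 74) (nat_lit 1) (nat_lit 10) (.e true (nat_lit 6) (nat_lit 82)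 (nat_lit 0) (nat_lit 11) (.e true (nat_lit 6) (nat_lit 38) (nat_lit 3) (nat_lit 8) (.e false (nat_lit 6) (nat_lit 65) (nat_lit 1) (nat_lit 10) (.e true (nat_lit 6) (nat_lit 71) (nat_lit 1) (nat_lit 10) (.e false (nat_lit 6) (nat_lit 56) (nat_lit 2) (nat_lit 9) .nil)))))))))))))))) .leaf) (nat_lit 77826) (nat_lit 287) (.p (nat_lit 159) (nat_lit 6) .z) .df .leaf) (nat_lit 78848) (nat_lit 200) (.p (nat_lit 111) (nat_lit 18) (.n (nat_lit 112) (nat_lit 6) (.n (nat_lit 113) (nat_lit 6) (.p (nat_lit 114) (nat_lit 24) (.p (nat_lit 115) (nat_lit 24) (.p (nat_lit 116) (nat_lit 30) (.p (nat_lit 117) (nat_lit 18) (.n (nat_lit 118) (nat_lit 54) (.n (nat_lit 119) (nat_lit 48) (.n (nat_lit 120) (nat_lit 48) (.p (nat_lit 121) (nat_lit 12) (.p (nat_lit 122) (nat_lit 18) (.p (nat_lit 124) (nat_lit 24) (.n (nat_lit 125) (nat_lit 12) (.p (nat_lit 126) (nat_lit 6) (.n (nat_lit 127) (nat_lit 12) (.n (nat_lit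 129) (nat_lit 12) (.n (nat_lit 130) (nat_lit 6) (.n (nat_lit 131) (nat_lit 12) (.p (nat_lit 132) (nat_lit 18) (.n (nat_lit 133) (nat_lit 24) (.p (nat_lit 134) (nat_lit 6) (.p (nat_lit 135) (nat_lit 6) (.p (nat_lit 136) (nat_lit 18) (.p (nat_lit 137) (nat_lit 12) .z))))))))))))))))))))))))) (.ct dW2x_c546 (nat_lit 6) (nat_lit 11) (.s false (nat_lit 1) (nat_lit 6) (nat_lit 0) (nat_lit 0) (nat_lit 6) true (nat_lit 0) true (nat_lit 5) true (nat_lit 5) true (nat_lit 11) true (nat_lit 11) (.s true (nat_lit 1) (nat_lit 6) (nat_lit 0) (nat_lit 3) (nat_lit 2) true (nat_lit 6) true (nat_lit 9) true (nat_lit 5) true (nat_lit 11) true (nat_lit 8) (.s true (nat_lit 1) (nat_lit 6) (nat_lit 5) (nat_lit 0) (nat_lit 1) true (nat_lit 0) true (nat_lit 10) true (nat_lit 5) true (nat_lit 6) true (nat_lit 11) (.s false (nat_lit 1) (nat_lit 12) (nat_lit 1) (nat_lit 0) (nat_lit 2) true (nat_lit 5) true (nat_lit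 9) true (nat_lit 0) true (nat_lit 10) true (nat_lit 11) (.s true (nat_lit 1) (nat_lit 13) (nat_lit 2) (nat_lit 0) (nat_lit 1) true (nat_lit 5) true (nat_lit 10) true (nat_lit 0) true (nat_lit 9) true (nat_lit 11) (.s false (nat_lit 1) (nat_lit 14) (nat_lit 2) (nat_lit 0) (nat_lit 1) true (nat_lit 5) true (nat_lit 10) true (nat_lit 0) true (nat_lit 9) true (nat_lit 11) (.s true (nat_lit 1) (nat_lit 19) (nat_lit 0) (nat_lit 0) (nat_lit 1) true (nat_lit 8) true (nat_lit 10) false (nat_lit 3) true (nat_lit 11) true (nat_lit 11) (.a false (nat_lit 18) (nat_lit 14) (nat_lit 14) (nat_lit 0) (nat_lit 0) dW2x_i3))))))))) (.nd .leaf (nat_lit 78850) (nat_lit 288) (.p (nat_lit 160) (nat_lit 6) .z) .df .leaf))) (nat_lit 79872) (nat_lit 189) (.p (nat_lit 130) (nat_lit 6) .z) .df (.nd (.nd (.nd (.nd .leaf (nat_lit 79874) (nat_lit 289) (.p (nat_lit 161) (nat_lit 6) .z) .df .leaf) (nat_lit 80896) (nat_lit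 210) (.n (nat_lit 111) (nat_lit 27) (.p (nat_lit 112) (nat_lit 9) (.p (nat_lit 113) (nat_lit 18) (.n (nat_lit 114) (nat_lit 15) (.n (nat_lit 115) (nat_lit 24) (.n (nat_lit 116) (nat_lit 30) (.n (nat_lit 117) (nat_lit 12) (.p (nat_lit 118) (nat_lit 60) (.p (nat_lit 119) (nat_lit 48) (.p (nat_lit 120) (nat_lit 51) (.p (nat_lit 122) (nat_lit 12) (.p (nat_lit 123) (nat_lit 9) (.n (nat_lit 124) (nat_lit 15) (.p (nat_lit 125) (nat_lit 30) (.n (nat_lit 126) (nat_lit 18) (.n (nat_lit 127) (nat_lit 3) (.n (nat_lit 128) (nat_lit 6) (.n (nat_lit 129) (nat_lit 3) (.n (nat_lit 130) (nat_lit 12) (.p (nat_lit 131) (nat_lit 12) (.n (nat_lit 132) (nat_lit 24) (.p (nat_lit 133) (nat_lit 12) (.n (nat_lit 134) (nat_lit 6) (.n (nat_lit 135) (nat_lit 3) (.n (nat_lit 136) (nat_lit 9) (.n (nat_lit 137) (nat_lit 12) .z)))))))))))))))))))))))))) (.ct dW2x_c546 (nat_lit 24) (nat_lit 11) (.s false (nat_lit 1) (nat_lit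 7) (nat_lit 0) (nat_lit 0) (nat_lit 4) true (nat_lit 2) true (nat_lit 7) true (nat_lit 4) true (nat_lit 11) true (nat_lit 11) (.s false (nat_lit 1) (nat_lit 18) (nat_lit 0) (nat_lit 1) (nat_lit 1) true (nat_lit 8) true (nat_lit 10) false (nat_lit 2) true (nat_lit 11) true (nat_lit 10) (.s false (nat_lit 1) (nat_lit 18) (nat_lit 1) (nat_lit 0) (nat_lit 1) true (nat_lit 7) true (nat_lit 10) false (nat_lit 2) true (nat_lit 10) true (nat_lit 11) (.s false (nat_lit 1) (nat_lit 18) (nat_lit 1) (nat_lit 1) (nat_lit 0) true (nat_lit 8) true (nat_lit 11) false (nat_lit 2) true (nat_lit 10) true (nat_lit 10) (.e false (nat_lit 24) (nat_lit 76) (nat_lit 0) (nat_lit 11) (.e true (nat_lit 24) (nat_lit 77) (nat_lit 0) (nat_lit 11) (.e true (nat_lit 24) (nat_lit 78) (nat_lit 0) (nat_lit 11) (.e false (nat_lit 24) (nat_lit 87) (nat_lit 0) (nat_lit 11) (.e true (nat_lit 24) (nat_lit 86) (nat_lit 0) (nat_lit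 11) (.e false (nat_lit 12) (nat_lit 42) (nat_lit 3) (nat_lit 8) (.e false (nat_lit 12) (nat_lit 73) (nat_lit 1) (nat_lit 10) (.e false (nat_lit 12) (nat_lit 84) (nat_lit 0) (nat_lit 11) .nil))))))))))))) .leaf) (nat_lit 80898) (nat_lit 290) (.p (nat_lit 162) (nat_lit 6) .z) .df (.nd (.nd .leaf (nat_lit 81920) (nat_lit 190) (.p (nat_lit 131) (nat_lit 6) .z) .df .leaf) (nat_lit 81922) (nat_lit 291) (.p (nat_lit 163) (nat_lit 6) .z) .df .leaf)) (nat_lit 82944) (nat_lit 191) (.p (nat_lit 132) (nat_lit 6) .z) .df (.nd (.nd (.nd .leaf (nat_lit 82946) (nat_lit 318) (.n (nat_lit 159) (nat_lit 8) (.p (nat_lit 160) (nat_lit 20) (.p (nat_lit 161) (nat_lit 26) (.p (nat_lit 162) (nat_lit 12) (.n (nat_lit 163) (nat_lit 16) (.n (nat_lit 164) (nat_lit 10) (.p (nat_lit 165) (nat_lit 4) (.n (nat_lit 166) (nat_lit 8) (.p (nat_lit 167) (nat_lit 10) (.n (nat_lit 168) (nat_lit 16) (.n (nat_lit 170) (nat_lit 16)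 (.n (nat_lit 171) (nat_lit 4) (.n (nat_lit 172) (nat_lit 6) (.n (nat_lit 173) (nat_lit 6) (.n (nat_lit 174) (nat_lit 9) (.p (nat_lit 175) (nat_lit 21) (.n (nat_lit 176) (nat_lit 5) (.p (nat_lit 177) (nat_lit 3) (.n (nat_lit 179) (nat_lit 6) (.n (nat_lit 180) (nat_lit 2) (.p (nat_lit 181) (nat_lit 12) (.p (nat_lit 182) (nat_lit 4) (.p (nat_lit 183) (nat_lit 2) (.n (nat_lit 184) (nat_lit 6) .z)))))))))))))))))))))))) (.ct dW2x_c291 (nat_lit 6) (nat_lit 8) (.s false (nat_lit 1) (nat_lit 6) (nat_lit 0) (nat_lit 2) (nat_lit 6) true (nat_lit 1) true (nat_lit 4) true (nat_lit 4) true (nat_lit 10) true (nat_lit 8) (.s true (nat_lit 1) (nat_lit 6) (nat_lit 1) (nat_lit 5) (nat_lit 2) true (nat_lit 4) true (nat_lit 8) true (nat_lit 4) true (nat_lit 9) true (nat_lit 5) (.s false (nat_lit 1) (nat_lit 13) (nat_lit 1) (nat_lit 2) (nat_lit 2) true (nat_lit 4) true (nat_lit 8) true (nat_lit 1) true (nat_lit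 9) true (nat_lit 8) (.s true (nat_lit 1) (nat_lit 19) (nat_lit 0) (nat_lit 2) (nat_lit 1) true (nat_lit 7) true (nat_lit 9) false (nat_lit 1) true (nat_lit 10) true (nat_lit 8) (.s false (nat_lit 1) (nat_lit 19) (nat_lit 1) (nat_lit 2) (nat_lit 0) true (nat_lit 7) true (nat_lit 10) false (nat_lit 1) true (nat_lit 9) true (nat_lit 8) (.e false (nat_lit 6) (nat_lit 40) (nat_lit 6) (nat_lit 4) (.e false (nat_lit 6) (nat_lit 107) (nat_lit 0) (nat_lit 10) (.e false (nat_lit 6) (nat_lit 77) (nat_lit 2) (nat_lit 8) (.e false (nat_lit 6) (nat_lit 78) (nat_lit 2) (nat_lit 8) (.e true (nat_lit 6) (nat_lit 87) (nat_lit 2) (nat_lit 8) (.e true (nat_lit 6) (nat_lit 88) (nat_lit 2) (nat_lit 8) (.e false (nat_lit 6) (nat_lit 46) (nat_lit 5) (nat_lit 5) (.e false (nat_lit 12) (nat_lit 94) (nat_lit 1) (nat_lit 9) (.e true (nat_lit 12) (nat_lit 95) (nat_lit 1) (nat_lit 9) (.e false (nat_lit 6) (nat_lit 96)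 (nat_lit 1) (nat_lit 9) (.e true (nat_lit 6) (nat_lit 98) (nat_lit 1) (nat_lit 9) (.e true (nat_lit 12) (nat_lit 99) (nat_lit 1) (nat_lit 9) (.e true (nat_lit 6) (nat_lit 103) (nat_lit 1) (nat_lit 9) (.e true (nat_lit 6) (nat_lit 100) (nat_lit 1) (nat_lit 9) .nil)))))))))))))))))))) .leaf) (nat_lit 83968) (nat_lit 192) (.p (nat_lit 133) (nat_lit 6) .z) .df .leaf) (nat_lit 83970) (nat_lit 322) (.n (nat_lit 159) (nat_lit 16) (.p (nat_lit 160) (nat_lit 22) (.p (nat_lit 161) (nat_lit 28) (.p (nat_lit 162) (nat_lit 18) (.n (nat_lit 163) (nat_lit 14) (.n (nat_lit 164) (nat_lit 8) (.p (nat_lit 165) (nat_lit 8) (.p (nat_lit 166) (nat_lit 2) (.p (nat_lit 167) (nat_lit 8) (.n (nat_lit 168) (nat_lit 20) (.n (nat_lit 170) (nat_lit 20) (.n (nat_lit 171) (nat_lit 2) (.n (nat_lit 173) (nat_lit 6) (.n (nat_lit 174) (nat_lit 9) (.p (nat_lit 175) (nat_lit 21) (.n (nat_lit 176) (nat_lit 7) (.p (nat_lit 177)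 (nat_lit 3) (.n (nat_lit 179) (nat_lit 6) (.n (nat_lit 180) (nat_lit 4) (.p (nat_lit 181) (nat_lit 6) (.p (nat_lit 182) (nat_lit 8) (.n (nat_lit 183) (nat_lit 2) (.n (nat_lit 184) (nat_lit 6) .z))))))))))))))))))))))) (.ct dW2x_c291 (nat_lit 6) (nat_lit 8) (.s false (nat_lit 1) (nat_lit 6) (nat_lit 0) (nat_lit 2) (nat_lit 6) true (nat_lit 1) true (nat_lit 4) true (nat_lit 4) true (nat_lit 10) true (nat_lit 8) (.s true (nat_lit 1) (nat_lit 6) (nat_lit 2) (nat_lit 5) (nat_lit 1) true (nat_lit 4) true (nat_lit 9) true (nat_lit 4) true (nat_lit 8) true (nat_lit 5) (.s false (nat_lit 1) (nat_lit 6) (nat_lit 5) (nat_lit 2) (nat_lit 1) true (nat_lit 1) true (nat_lit 9) true (nat_lit 4) true (nat_lit 5) true (nat_lit 8) (.s true (nat_lit 1) (nat_lit 19) (nat_lit 0) (nat_lit 2) (nat_lit 1) true (nat_lit 7) true (nat_lit 9) false (nat_lit 1) true (nat_lit 10) true (nat_lit 8) (.s false (nat_lit 1)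 (nat_lit 19) (nat_lit 1) (nat_lit 2) (nat_lit 0) true (nat_lit 7) true (nat_lit 10) false (nat_lit 1) true (nat_lit 9) true (nat_lit 8) (.e false (nat_lit 6) (nat_lit 40) (nat_lit 6) (nat_lit 4) (.e false (nat_lit 6) (nat_lit 107) (nat_lit 0) (nat_lit 10) (.e true (nat_lit 6) (nat_lit 95) (nat_lit 1) (nat_lit 9) (.e false (nat_lit 6) (nat_lit 86) (nat_lit 2) (nat_lit 8) (.e false (nat_lit 6) (nat_lit 45) (nat_lit 5) (nat_lit 5) (.e false (nat_lit 6) (nat_lit 94) (nat_lit 1) (nat_lit 9) (.e true (nat_lit 6) (nat_lit 98) (nat_lit 1) (nat_lit 9) (.e true (nat_lit 12) (nat_lit 99) (nat_lit 1) (nat_lit 9) .nil)))))))))))))) (.nd .leaf (nat_lit 84992) (nat_lit 211) (.n (nat_lit 111) (nat_lit 12) (.p (nat_lit 113) (nat_lit 6) (.n (nat_lit 114) (nat_lit 12) (.n (nat_lit 115) (nat_lit 12) (.n (nat_lit 116) (nat_lit 18) (.n (nat_lit 117) (nat_lit 15) (.p (nat_lit 118) (nat_lit 39) (.p (nat_lit 119)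 (nat_lit 33) (.p (nat_lit 120) (nat_lit 30) (.p (nat_lit 123) (nat_lit 6) (.n (nat_lit 124) (nat_lit 6) (.p (nat_lit 125) (nat_lit 12) (.n (nat_lit 126) (nat_lit 12) (.n (nat_lit 127) (nat_lit 6) (.n (nat_lit 128) (nat_lit 3) (.p (nat_lit 131) (nat_lit 9) (.n (nat_lit 132) (nat_lit 9) (.p (nat_lit 133) (nat_lit 9) (.n (nat_lit 134) (nat_lit 3) (.n (nat_lit 136) (nat_lit 12) (.n (nat_lit 137) (nat_lit 12) .z))))))))))))))))))))) (.ct dW2x_c546 (nat_lit 6) (nat_lit 11) (.s true (nat_lit 1) (nat_lit 6) (nat_lit 0) (nat_lit 0) (nat_lit 6) true (nat_lit 0) true (nat_lit 5) true (nat_lit 5) true (nat_lit 11) true (nat_lit 11) (.s false (nat_lit 1) (nat_lit 19) (nat_lit 0) (nat_lit 0) (nat_lit 1) true (nat_lit 8) true (nat_lit 10) false (nat_lit 3) true (nat_lit 11) true (nat_lit 11) (.a true (nat_lit 18) (nat_lit 14) (nat_lit 14) (nat_lit 0) (nat_lit 0) (.e true (nat_lit 6) (nat_lit 28) (nat_lit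 6) (nat_lit 5) (.e true (nat_lit 6) (nat_lit 76) (nat_lit 0) (nat_lit 11) (.e false (nat_lit 6) (nat_lit 77) (nat_lit 0) (nat_lit 11) (.e false (nat_lit 12) (nat_lit 78) (nat_lit 0) (nat_lit 11) (.e false (nat_lit 6) (nat_lit 79) (nat_lit 0) (nat_lit 11) (.e true (nat_lit 12) (nat_lit 87) (nat_lit 0) (nat_lit 11) (.e false (nat_lit 6) (nat_lit 43) (nat_lit 3) (nat_lit 8) (.e false (nat_lit 6) (nat_lit 74) (nat_lit 1) (nat_lit 10) (.e false (nat_lit 6) (nat_lit 81) (nat_lit 0) (nat_lit 11) .nil))))))))))))) .leaf))))) (nat_lit 84994) (nat_lit 327) (.p (nat_lit 159) (nat_lit 2) (.n (nat_lit 160) (nat_lit 26) (.n (nat_lit 161) (nat_lit 32) (.n (nat_lit 162) (nat_lit 24) (.p (nat_lit 163) (nat_lit 34) (.p (nat_lit 164) (nat_lit 4) (.n (nat_lit 165) (nat_lit 16) (.p (nat_lit 166) (nat_lit 8) (.n (nat_lit 167) (nat_lit 4) (.p (nat_lit 168) (nat_lit 22) (.n (nat_lit 169) (nat_lit 6) (.p (nat_lit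 170) (nat_lit 10) (.p (nat_lit 171) (nat_lit 4) (.p (nat_lit 172) (nat_lit 18) (.p (nat_lit 173) (nat_lit 6) (.p (nat_lit 174) (nat_lit 9) (.n (nat_lit 175) (nat_lit 33) (.p (nat_lit 176) (nat_lit 11) (.n (nat_lit 177) (nat_lit 3) (.p (nat_lit 179) (nat_lit 6) (.p (nat_lit 180) (nat_lit 8) (.n (nat_lit 181) (nat_lit 18) (.p (nat_lit 182) (nat_lit 2) (.n (nat_lit 183) (nat_lit 2) .z)))))))))))))))))))))))) (.ct dW2x_c291 (nat_lit 6) (nat_lit 8) (.s false (nat_lit 1) (nat_lit 6) (nat_lit 5) (nat_lit 2) (nat_lit 1) true (nat_lit 1) true (nat_lit 9) true (nat_lit 4) true (nat_lit 5) true (nat_lit 8) (.s true (nat_lit 1) (nat_lit 13) (nat_lit 2) (nat_lit 1) (nat_lit 2) true (nat_lit 3) true (nat_lit 8) true (nat_lit 1) true (nat_lit 8) true (nat_lit 9) (.e false (nat_lit 6) (nat_lit 94) (nat_lit 1) (nat_lit 9) (.e true (nat_lit 6) (nat_lit 98) (nat_lit 1) (nat_lit 9) (.e true (nat_lit 6) (nat_lit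 99) (nat_lit 1) (nat_lit 9) (.e false (nat_lit 6) (nat_lit 41) (nat_lit 6) (nat_lit 4) (.e true (nat_lit 6) (nat_lit 76) (nat_lit 2) (nat_lit 8) (.e false (nat_lit 6) (nat_lit 77) (nat_lit 2) (nat_lit 8) (.e false (nat_lit 18) (nat_lit 78) (nat_lit 2) (nat_lit 8) (.e false (nat_lit 6) (nat_lit 79) (nat_lit 2) (nat_lit 8) (.e false (nat_lit 6) (nat_lit 80) (nat_lit 2) (nat_lit 8) (.e true (nat_lit 6) (nat_lit 84) (nat_lit 2) (nat_lit 8) (.e true (nat_lit 12) (nat_lit 87) (nat_lit 2) (nat_lit 8) (.e true (nat_lit 12) (nat_lit 88) (nat_lit 2) (nat_lit 8) (.e true (nat_lit 6) (nat_lit 32) (nat_lit 7) (nat_lit 3) (.e true (nat_lit 6) (nat_lit 81) (nat_lit 2) (nat_lit 8) (.e false (nat_lit 6) (nat_lit 82) (nat_lit 2) (nat_lit 8) .nil)))))))))))))))))) (.nd (.nd (.nd (.nd (.nd (.nd .leaf (nat_lit 86016) (nat_lit 193) (.p (nat_lit 134) (nat_lit 6) .z) .df .leaf) (nat_lit 86018) (nat_lit 319) (.p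 (nat_lit 159) (nat_lit 2) (.n (nat_lit 160) (nat_lit 14) (.n (nat_lit 161) (nat_lit 20) (.p (nat_lit 162) (nat_lit 6) (.p (nat_lit 163) (nat_lit 10) (.p (nat_lit 164) (nat_lit 16) (.p (nat_lit 165) (nat_lit 8) (.p (nat_lit 166) (nat_lit 8) (.p (nat_lit 167) (nat_lit 2) (.p (nat_lit 168) (nat_lit 10) (.n (nat_lit 169) (nat_lit 6) (.p (nat_lit 170) (nat_lit 4) (.p (nat_lit 171) (nat_lit 10) (.p (nat_lit 172) (nat_lit 6) (.n (nat_lit 173) (nat_lit 6) (.p (nat_lit 174) (nat_lit 27) (.n (nat_lit 175) (nat_lit 15) (.p (nat_lit 176) (nat_lit 5) (.n (nat_lit 177) (nat_lit 9) (.n (nat_lit 178) (nat_lit 12) (.n (nat_lit 180) (nat_lit 4) (.n (nat_lit 181) (nat_lit 6) (.p (nat_lit 182) (nat_lit 2) (.n (nat_lit 183) (nat_lit 2) (.p (nat_lit 184) (nat_lit 6) .z))))))))))))))))))))))))) (.ct dW2x_c291 (nat_lit 6) (nat_lit 8) (.s false (nat_lit 1) (nat_lit 6) (nat_lit 1) (nat_lit 5) (nat_lit 2) true (nat_lit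 4) true (nat_lit 8) true (nat_lit 4) true (nat_lit 9) true (nat_lit 5) (.s true (nat_lit 1) (nat_lit 6) (nat_lit 2) (nat_lit 1) (nat_lit 5) false (nat_lit 0) true (nat_lit 5) true (nat_lit 4) true (nat_lit 8) true (nat_lit 9) (.s false (nat_lit 1) (nat_lit 6) (nat_lit 5) (nat_lit 2) (nat_lit 1) true (nat_lit 1) true (nat_lit 9) true (nat_lit 4) true (nat_lit 5) true (nat_lit 8) (.s true (nat_lit 1) (nat_lit 13) (nat_lit 2) (nat_lit 1) (nat_lit 2) true (nat_lit 3) true (nat_lit 8) true (nat_lit 1) true (nat_lit 8) true (nat_lit 9) (.s false (nat_lit 1) (nat_lit 17) (nat_lit 2) (nat_lit 1) (nat_lit 1) true (nat_lit 4) true (nat_lit 9) false (nat_lit 0) true (nat_lit 8) true (nat_lit 9) (.e false (nat_lit 6) (nat_lit 39) (nat_lit 6) (nat_lit 4) (.e true (nat_lit 6) (nat_lit 77) (nat_lit 2) (nat_lit 8) (.e false (nat_lit 6) (nat_lit 78) (nat_lit 2) (nat_lit 8) (.e false (nat_lit 6) (nat_lit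 80) (nat_lit 2) (nat_lit 8) (.e true (nat_lit 6) (nat_lit 88) (nat_lit 2) (nat_lit 8) (.e true (nat_lit 12) (nat_lit 46) (nat_lit 5) (nat_lit 5) (.e false (nat_lit 6) (nat_lit 94) (nat_lit 1) (nat_lit 9) (.e true (nat_lit 12) (nat_lit 98) (nat_lit 1) (nat_lit 9) (.e true (nat_lit 12) (nat_lit 99) (nat_lit 1) (nat_lit 9) (.e false (nat_lit 12) (nat_lit 41) (nat_lit 6) (nat_lit 4) (.e true (nat_lit 6) (nat_lit 32) (nat_lit 7) (nat_lit 3) (.e true (nat_lit 6) (nat_lit 81) (nat_lit 2) (nat_lit 8) (.e true (nat_lit 6) (nat_lit 96) (nat_lit 1) (nat_lit 9) (.e false (nat_lit 6) (nat_lit 100) (nat_lit 1) (nat_lit 9) (.e false (nat_lit 6) (nat_lit 103) (nat_lit 1) (nat_lit 9) .nil))))))))))))))))))))) .leaf) (nat_lit 87040) (nat_lit 220) (.p (nat_lit 111) (nat_lit 15) (.n (nat_lit 112) (nat_lit 9) (.n (nat_lit 113) (nat_lit 6) (.p (nat_lit 114) (nat_lit 15) (.p (nat_lit 115) (nat_lit 12) (.p (nat_lit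 116) (nat_lit 12) (.n (nat_lit 118) (nat_lit 24) (.n (nat_lit 119) (nat_lit 24) (.n (nat_lit 120) (nat_lit 21) (.n (nat_lit 123) (nat_lit 3) (.p (nat_lit 124) (nat_lit 15) (.n (nat_lit 125) (nat_lit 12) (.p (nat_lit 126) (nat_lit 12) (.n (nat_lit 127) (nat_lit 3) (.n (nat_lit 129) (nat_lit 3) (.n (nat_lit 131) (nat_lit 12) (.p (nat_lit 132) (nat_lit 12) (.n (nat_lit 133) (nat_lit 12) (.p (nat_lit 134) (nat_lit 6) (.n (nat_lit 135) (nat_lit 3) (.p (nat_lit 136) (nat_lit 15) .z))))))))))))))))))))) (.ct dW2x_c546 (nat_lit 6) (nat_lit 11) (.s false (nat_lit 1) (nat_lit 15) (nat_lit 0) (nat_lit 0) (nat_lit 2) true (nat_lit 6) true (nat_lit 9) false (nat_lit 1) true (nat_lit 11) true (nat_lit 11) (.e false (nat_lit 6) (nat_lit 34) (nat_lit 5) (nat_lit 6) (.e false (nat_lit 6) (nat_lit 63) (nat_lit 2) (nat_lit 9) (.e false (nat_lit 6) (nat_lit 76) (nat_lit 0) (nat_lit 11) (.e true (nat_lit 6)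 (nat_lit 79) (nat_lit 0) (nat_lit 11) (.e true (nat_lit 6) (nat_lit 81) (nat_lit 0) (nat_lit 11) (.e false (nat_lit 6) (nat_lit 82) (nat_lit 0) (nat_lit 11) (.e true (nat_lit 12) (nat_lit 86) (nat_lit 0) (nat_lit 11) (.e true (nat_lit 6) (nat_lit 88) (nat_lit 0) (nat_lit 11) .nil)))))))))) (.nd (.nd .leaf (nat_lit 87042) (nat_lit 292) (.p (nat_lit 164) (nat_lit 6) .z) .df .leaf) (nat_lit 88064) (nat_lit 194) (.p (nat_lit 135) (nat_lit 6) .z) .df .leaf)) (nat_lit 88066) (nat_lit 293) (.p (nat_lit 165) (nat_lit 6) .z) .df (.nd (.nd (.nd .leaf (nat_lit 89088) (nat_lit 195) (.p (nat_lit 136) (nat_lit 6) .z) .df .leaf) (nat_lit 89090) (nat_lit 317) (.n (nat_lit 159) (nat_lit 9) (.p (nat_lit 160) (nat_lit 24) (.p (nat_lit 161) (nat_lit 36) (.p (nat_lit 162) (nat_lit 15) (.n (nat_lit 163) (nat_lit 18) (.n (nat_lit 164) (nat_lit 9) (.p (nat_lit 165) (nat_lit 6) (.n (nat_lit 166) (nat_lit 9) (.p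 (nat_lit 167) (nat_lit 3) (.n (nat_lit 168) (nat_lit 18) (.p (nat_lit 169) (nat_lit 3) (.n (nat_lit 170) (nat_lit 12) (.n (nat_lit 171) (nat_lit 6) (.n (nat_lit 172) (nat_lit 9) (.n (nat_lit 174) (nat_lit 18) (.p (nat_lit 175) (nat_lit 24) (.n (nat_lit 176) (nat_lit 9) (.p (nat_lit 177) (nat_lit 6) (.p (nat_lit 178) (nat_lit 6) (.n (nat_lit 179) (nat_lit 6) (.n (nat_lit 180) (nat_lit 3) (.p (nat_lit 181) (nat_lit 9) .z)))))))))))))))))))))) (.ct dW2x_c291 (nat_lit 6) (nat_lit 8) (.s true (nat_lit 2) (nat_lit 6) (nat_lit 0) (nat_lit 2) (nat_lit 6) true (nat_lit 1) true (nat_lit 4) true (nat_lit 4) true (nat_lit 10) true (nat_lit 8) (.s true (nat_lit 1) (nat_lit 6) (nat_lit 0) (nat_lit 6) (nat_lit 2) true (nat_lit 5) true (nat_lit 8) true (nat_lit 4) true (nat_lit 10) true (nat_lit 4) (.s false (nat_lit 1) (nat_lit 6) (nat_lit 1) (nat_lit 5) (nat_lit 2) true (nat_lit 4) true (nat_lit 8) true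 (nat_lit 4) true (nat_lit 9) true (nat_lit 5) (.s false (nat_lit 1) (nat_lit 6) (nat_lit 2) (nat_lit 2) (nat_lit 3) true (nat_lit 1) true (nat_lit 7) true (nat_lit 4) true (nat_lit 8) true (nat_lit 8) (.s false (nat_lit 1) (nat_lit 6) (nat_lit 2) (nat_lit 5) (nat_lit 1) true (nat_lit 4) true (nat_lit 9) true (nat_lit 4) true (nat_lit 8) true (nat_lit 5) (.s false (nat_lit 1) (nat_lit 7) (nat_lit 0) (nat_lit 1) (nat_lit 6) true (nat_lit 1) true (nat_lit 4) true (nat_lit 3) true (nat_lit 10) true (nat_lit 9) (.s true (nat_lit 1) (nat_lit 7) (nat_lit 1) (nat_lit 5) (nat_lit 1) true (nat_lit 6) true (nat_lit 9) true (nat_lit 3) true (nat_lit 9) true (nat_lit 5) (.s false (nat_lit 1) (nat_lit 7) (nat_lit 4) (nat_lit 0) (nat_lit 2) true (nat_lit 0) true (nat_lit 8) true (nat_lit 3) true (nat_lit 6) true (nat_lit 10) (.s false (nat_lit 1) (nat_lit 7) (nat_lit 6) (nat_lit 1) (nat_lit 0) true (nat_lit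 1) true (nat_lit 10) true (nat_lit 3) true (nat_lit 4) true (nat_lit 9) (.s true (nat_lit 2) (nat_lit 12) (nat_lit 1) (nat_lit 2) (nat_lit 2) true (nat_lit 4) true (nat_lit 8) true (nat_lit 1) true (nat_lit 9) true (nat_lit 8) (.s true (nat_lit 1) (nat_lit 13) (nat_lit 1) (nat_lit 2) (nat_lit 2) true (nat_lit 4) true (nat_lit 8) true (nat_lit 1) true (nat_lit 9) true (nat_lit 8) (.s false (nat_lit 1) (nat_lit 12) (nat_lit 2) (nat_lit 1) (nat_lit 2) true (nat_lit 3) true (nat_lit 8) true (nat_lit 1) true (nat_lit 8) true (nat_lit 9) (.s true (nat_lit 1) (nat_lit 12) (nat_lit 2) (nat_lit 2) (nat_lit 1) true (nat_lit 4) true (nat_lit 9) true (nat_lit 1) true (nat_lit 8) true (nat_lit 8) dW2x_i13)))))))))))))) .leaf) (nat_lit 90112) (nat_lit 198) (.n (nat_lit 112) (nat_lit 6) (.n (nat_lit 113) (nat_lit 6) (.n (nat_lit 116) (nat_lit 3) (.n (nat_lit 117) (nat_lit 3) (.p (nat_lit 118) (nat_lit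 3) (.p (nat_lit 119) (nat_lit 9) (.p (nat_lit 120) (nat_lit 6) (.n (nat_lit 121) (nat_lit 6) (.n (nat_lit 122) (nat_lit 6) (.n (nat_lit 124) (nat_lit 9) (.p (nat_lit 125) (nat_lit 3) (.p (nat_lit 126) (nat_lit 3) (.p (nat_lit 127) (nat_lit 6) (.p (nat_lit 128) (nat_lit 3) (.p (nat_lit 129) (nat_lit 6) (.p (nat_lit 130) (nat_lit 6) (.p (nat_lit 131) (nat_lit 6) (.n (nat_lit 132) (nat_lit 6) (.p (nat_lit 133) (nat_lit 6) (.n (nat_lit 134) (nat_lit 6) (.n (nat_lit 136) (nat_lit 6) .z))))))))))))))))))))) (.ct dW2x_c546 (nat_lit 12) (nat_lit 11) (.s true (nat_lit 2) (nat_lit 5) (nat_lit 2) (nat_lit 3) (nat_lit 1) true (nat_lit 5) true (nat_lit 10) true (nat_lit 6) true (nat_lit 9) true (nat_lit 8) (.s false (nat_lit 1) (nat_lit 6) (nat_lit 0) (nat_lit 0) (nat_lit 6) true (nat_lit 0) true (nat_lit 5) true (nat_lit 5) true (nat_lit 11) true (nat_lit 11) (.s true (nat_lit 2) (nat_lit 6) (nat_lit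 0) (nat_lit 1) (nat_lit 5) true (nat_lit 1) true (nat_lit 6) true (nat_lit 5) true (nat_lit 11) true (nat_lit 10) (.s true (nat_lit 2) (nat_lit 12) (nat_lit 0) (nat_lit 1) (nat_lit 2) true (nat_lit 6) true (nat_lit 9) true (nat_lit 0) true (nat_lit 11) true (nat_lit 10) (.s false (nat_lit 1) (nat_lit 14) (nat_lit 0) (nat_lit 1) (nat_lit 2) true (nat_lit 6) true (nat_lit 9) true (nat_lit 0) true (nat_lit 11) true (nat_lit 10) (.s true (nat_lit 2) (nat_lit 13) (nat_lit 0) (nat_lit 2) (nat_lit 1) true (nat_lit 8) true (nat_lit 10) true (nat_lit 0) true (nat_lit 11) true (nat_lit 9) (.s false (nat_lit 1) (nat_lit 14) (nat_lit 1) (nat_lit 0) (nat_lit 2) true (nat_lit 5) true (nat_lit 9) true (nat_lit 0) true (nat_lit 10) true (nat_lit 11) (.s false (nat_lit 1) (nat_lit 14) (nat_lit 2) (nat_lit 1) (nat_lit 0) true (nat_lit 6) true (nat_lit 11) true (nat_lit 0) true (nat_lit 9) true (nat_lit 10)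 dW2x_i1))))))))) (.nd .leaf (nat_lit 90114) (nat_lit 294) (.p (nat_lit 166) (nat_lit 6) .z) .df .leaf))) (nat_lit 91137) (nat_lit 246) (.p (nat_lit 147) (nat_lit 6) .z) .df (.nd (.nd (.nd (.nd .leaf (nat_lit 92161) (nat_lit 247) (.p (nat_lit 148) (nat_lit 6) .z) .df .leaf) (nat_lit 93185) (nat_lit 278) (.p (nat_lit 138) (nat_lit 114) (.p (nat_lit 139) (nat_lit 36) (.p (nat_lit 140) (nat_lit 39) (.p (nat_lit 141) (nat_lit 222) (.n (nat_lit 142) (nat_lit 120) (.p (nat_lit 143) (nat_lit 48) (.n (nat_lit 144) (nat_lit 120) (.n (nat_lit 145) (nat_lit 111) (.n (nat_lit 146) (nat_lit 270) (.n (nat_lit 147) (nat_lit 36) (.p (nat_lit 148) (nat_lit 3) (.p (nat_lit 149) (nat_lit 75) (.p (nat_lit 150) (nat_lit 102) (.p (nat_lit 151) (nat_lit 24) (.p (nat_lit 152) (nat_lit 36) (.n (nat_lit 153) (nat_lit 78) (.n (nat_lit 154) (nat_lit 84) (.p (nat_lit 155) (nat_lit 21) (.n (nat_lit 156) (nat_lit 60) (.n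 (nat_lit 157) (nat_lit 27) (.n (nat_lit 158) (nat_lit 60) .z))))))))))))))))))))) (.ct dW2x_c531 (nat_lit 6) (nat_lit 8) (.s true (nat_lit 1) (nat_lit 17) (nat_lit 2) (nat_lit 0) (nat_lit 1) true (nat_lit 4) true (nat_lit 8) false (nat_lit 0) true (nat_lit 7) true (nat_lit 9) (.e false (nat_lit 6) (nat_lit 36) (nat_lit 6) (nat_lit 4) (.e false (nat_lit 6) (nat_lit 17) (nat_lit 13) (nat_lit 0) (.e true (nat_lit 6) (nat_lit 64) (nat_lit 2) (nat_lit 7) (.e true (nat_lit 12) (nat_lit 65) (nat_lit 2) (nat_lit 7) (.e false (nat_lit 6) (nat_lit 66) (nat_lit 2) (nat_lit 7) (.e true (nat_lit 6) (nat_lit 68) (nat_lit 2) (nat_lit 7) (.e true (nat_lit 6) (nat_lit 69) (nat_lit 2) (nat_lit 7) (.e true (nat_lit 6) (nat_lit 70) (nat_lit 2) (nat_lit 7) (.e false (nat_lit 6) (nat_lit 71) (nat_lit 2) (nat_lit 7) (.e false (nat_lit 6) (nat_lit 72) (nat_lit 2) (nat_lit 7) (.e false (nat_lit 6) (nat_lit 73) (nat_lit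 2) (nat_lit 7) (.e false (nat_lit 6) (nat_lit 74) (nat_lit 2) (nat_lit 7) (.e true (nat_lit 6) (nat_lit 97) (nat_lit 0) (nat_lit 9) .nil))))))))))))))) .leaf) (nat_lit 94209) (nat_lit 248) (.p (nat_lit 149) (nat_lit 6) .z) .df (.nd (.nd .leaf (nat_lit 95233) (nat_lit 249) (.p (nat_lit 150) (nat_lit 6) .z) .df .leaf) (nat_lit 96256) (nat_lit 250) (.p (nat_lit 151) (nat_lit 6) .z) .df .leaf)) (nat_lit 96257) (nat_lit 295) (.p (nat_lit 167) (nat_lit 6) .z) .df (.nd (.nd (.nd .leaf (nat_lit 97280) (nat_lit 251) (.p (nat_lit 152) (nat_lit 6) .z) .df .leaf) (nat_lit 97281) (nat_lit 316) (.p (nat_lit 159) (nat_lit 10) (.n (nat_lit 160) (nat_lit 22) (.n (nat_lit 161) (nat_lit 28) (.n (nat_lit 162) (nat_lit 18) (.p (nat_lit 163) (nat_lit 20) (.p (nat_lit 164) (nat_lit 8) (.n (nat_lit 165) (nat_lit 8) (.p (nat_lit 166) (nat_lit 4) (.n (nat_lit 167) (nat_lit 2) (.p (nat_lit 168) (nat_lit 20) (.n (nat_lit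 169) (nat_lit 6) (.p (nat_lit 170) (nat_lit 8) (.p (nat_lit 171) (nat_lit 2) (.p (nat_lit 172) (nat_lit 6) (.p (nat_lit 173) (nat_lit 6) (.p (nat_lit 174) (nat_lit 9) (.n (nat_lit 175) (nat_lit 21) (.p (nat_lit 176) (nat_lit 7) (.n (nat_lit 177) (nat_lit 3) (.p (nat_lit 179) (nat_lit 6) (.p (nat_lit 180) (nat_lit 4) (.n (nat_lit 181) (nat_lit 12) (.n (nat_lit 182) (nat_lit 2) (.p (nat_lit 183) (nat_lit 2) (.p (nat_lit 184) (nat_lit 6) .z))))))))))))))))))))))))) (.ct dW2x_c291 (nat_lit 6) (nat_lit 9) dW2x_i12) .leaf) (nat_lit 98304) (nat_lit 252) (.p (nat_lit 153) (nat_lit 6) .z) .df (.nd .leaf (nat_lit 98305) (nat_lit 296) (.p (nat_lit 168) (nat_lit 6) .z) .df .leaf)))) (nat_lit 99328) (nat_lit 253) (.p (nat_lit 154) (nat_lit 6) .z) .df (.nd (.nd (.nd (.nd (.nd .leaf (nat_lit 99329) (nat_lit 320) (.n (nat_lit 159) (nat_lit 6) (.n (nat_lit 160) (nat_lit 6) (.n (nat_lit 161) (nat_lit 6) (.n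 (nat_lit 162) (nat_lit 6) (.p (nat_lit 163) (nat_lit 12) (.p (nat_lit 167) (nat_lit 6) (.p (nat_lit 168) (nat_lit 12) (.p (nat_lit 170) (nat_lit 6) (.n (nat_lit 171) (nat_lit 6) (.p (nat_lit 173) (nat_lit 6) (.n (nat_lit 175) (nat_lit 12) (.p (nat_lit 176) (nat_lit 6) .z)))))))))))) (.ct dW2x_c291 (nat_lit 6) (nat_lit 9) (.s false (nat_lit 1) (nat_lit 12) (nat_lit 2) (nat_lit 2) (nat_lit 1) true (nat_lit 4) true (nat_lit 9) true (nat_lit 1) true (nat_lit 8) true (nat_lit 8) (.s false (nat_lit 1) (nat_lit 20) (nat_lit 1) (nat_lit 0) (nat_lit 2) true (nat_lit 4) true (nat_lit 8) false (nat_lit 1) true (nat_lit 9) true (nat_lit 10) (.e false (nat_lit 18) (nat_lit 38) (nat_lit 6) (nat_lit 4) (.e false (nat_lit 6) (nat_lit 94) (nat_lit 1) (nat_lit 9) (.e true (nat_lit 6) (nat_lit 88) (nat_lit 2) (nat_lit 8) (.e true (nat_lit 6) (nat_lit 76) (nat_lit 2) (nat_lit 8) (.e true (nat_lit 6) (nat_lit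 39) (nat_lit 6) (nat_lit 4) (.e false (nat_lit 6) (nat_lit 40) (nat_lit 6) (nat_lit 4) (.e true (nat_lit 6) (nat_lit 41) (nat_lit 6) (nat_lit 4) (.e true (nat_lit 6) (nat_lit 42) (nat_lit 6) (nat_lit 4) (.e true (nat_lit 6) (nat_lit 43) (nat_lit 6) (nat_lit 4) (.e true (nat_lit 6) (nat_lit 85) (nat_lit 2) (nat_lit 8) (.e false (nat_lit 6) (nat_lit 86) (nat_lit 2) (nat_lit 8) (.e false (nat_lit 6) (nat_lit 87) (nat_lit 2) (nat_lit 8) (.e false (nat_lit 6) (nat_lit 95) (nat_lit 1) (nat_lit 9) (.e false (nat_lit 6) (nat_lit 96) (nat_lit 1) (nat_lit 9) (.e false (nat_lit 6) (nat_lit 98) (nat_lit 1) (nat_lit 9) (.e false (nat_lit 6) (nat_lit 99) (nat_lit 1) (nat_lit 9) (.e true (nat_lit 6) (nat_lit 100) (nat_lit 1) (nat_lit 9) (.e true (nat_lit 6) (nat_lit 103) (nat_lit 1) (nat_lit 9) (.e false (nat_lit 6) (nat_lit 108) (nat_lit 0) (nat_lit 10) .nil)))))))))))))))))))))) .leaf) (nat_lit 100352)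 (nat_lit 254) (.p (nat_lit 155) (nat_lit 6) .z) .df .leaf) (nat_lit 100353) (nat_lit 297) (.p (nat_lit 169) (nat_lit 6) .z) .df (.nd (.nd .leaf (nat_lit 101376) (nat_lit 255) (.p (nat_lit 156) (nat_lit 6) .z) .df .leaf) (nat_lit 101377) (nat_lit 298) (.p (nat_lit 170) (nat_lit 6) .z) .df .leaf)) (nat_lit 102400) (nat_lit 256) (.p (nat_lit 157) (nat_lit 6) .z) .df (.nd (.nd (.nd .leaf (nat_lit 102401) (nat_lit 299) (.p (nat_lit 171) (nat_lit 6) .z) .df .leaf) (nat_lit 103424) (nat_lit 266) (.p (nat_lit 138) (nat_lit 12) (.p (nat_lit 140) (nat_lit 6) (.p (nat_lit 141) (nat_lit 12) (.n (nat_lit 142) (nat_lit 6) (.p (nat_lit 143) (nat_lit 6) (.n (nat_lit 144) (nat_lit 6) (.n (nat_lit 145) (nat_lit 6) (.n (nat_lit 146) (nat_lit 18) (.p (nat_lit 148) (nat_lit 6) (.n (nat_lit 150) (nat_lit 6) (.p (nat_lit 151) (nat_lit 12) (.n (nat_lit 152) (nat_lit 6) (.n (nat_lit 153) (nat_lit 6) (.n (nat_lit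 154) (nat_lit 6) (.n (nat_lit 155) (nat_lit 12) (.n (nat_lit 156) (nat_lit 18) (.n (nat_lit 157) (nat_lit 6) .z))))))))))))))))) (.ct dW2x_c531 (nat_lit 6) (nat_lit 9) (.s false (nat_lit 1) (nat_lit 5) (nat_lit 1) (nat_lit 2) (nat_lit 5) true (nat_lit 0) true (nat_lit 5) true (nat_lit 5) true (nat_lit 8) true (nat_lit 7) (.s false (nat_lit 1) (nat_lit 6) (nat_lit 0) (nat_lit 5) (nat_lit 2) true (nat_lit 5) true (nat_lit 7) true (nat_lit 4) true (nat_lit 9) true (nat_lit 5) (.s true (nat_lit 1) (nat_lit 6) (nat_lit 2) (nat_lit 0) (nat_lit 5) false (nat_lit 0) true (nat_lit 5) true (nat_lit 4) true (nat_lit 7) true (nat_lit 9) (.s true (nat_lit 1) (nat_lit 7) (nat_lit 0) (nat_lit 6) (nat_lit 0) false (nat_lit 10) true (nat_lit 9) true (nat_lit 3) true (nat_lit 9) true (nat_lit 4) (.s false (nat_lit 1) (nat_lit 14) (nat_lit 2) (nat_lit 0) (nat_lit 2) true (nat_lit 3) true (nat_lit 7) true (nat_lit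 0) true (nat_lit 7) true (nat_lit 9) (.s false (nat_lit 1) (nat_lit 17) (nat_lit 2) (nat_lit 0) (nat_lit 1) true (nat_lit 4) true (nat_lit 8) false (nat_lit 0) true (nat_lit 7) true (nat_lit 9) (.e false (nat_lit 6) (nat_lit 39) (nat_lit 5) (nat_lit 5) (.e false (nat_lit 6) (nat_lit 89) (nat_lit 1) (nat_lit 8) (.e true (nat_lit 6) (nat_lit 93) (nat_lit 1) (nat_lit 8) (.e true (nat_lit 6) (nat_lit 64) (nat_lit 2) (nat_lit 7) (.e false (nat_lit 6) (nat_lit 70) (nat_lit 2) (nat_lit 7) (.e false (nat_lit 6) (nat_lit 74) (nat_lit 2) (nat_lit 7) (.e false (nat_lit 6) (nat_lit 104) (nat_lit 0) (nat_lit 9) (.e false (nat_lit 6) (nat_lit 94) (nat_lit 0) (nat_lit 9) (.e true (nat_lit 6) (nat_lit 98) (nat_lit 0) (nat_lit 9) (.e true (nat_lit 12) (nat_lit 99) (nat_lit 0) (nat_lit 9) (.e true (nat_lit 6) (nat_lit 100) (nat_lit 0) (nat_lit 9) .nil)))))))))))))))))) .leaf) (nat_lit 103425) (nat_lit 323)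 (.p (nat_lit 159) (nat_lit 17) (.n (nat_lit 160) (nat_lit 2) (.p (nat_lit 161) (nat_lit 4) (.n (nat_lit 162) (nat_lit 9) (.n (nat_lit 163) (nat_lit 8) (.n (nat_lit 164) (nat_lit 5) (.n (nat_lit 165) (nat_lit 4) (.n (nat_lit 166) (nat_lit 13) (.n (nat_lit 167) (nat_lit 7) (.n (nat_lit 168) (nat_lit 8) (.n (nat_lit 169) (nat_lit 3) (.n (nat_lit 170) (nat_lit 8) (.n (nat_lit 171) (nat_lit 2) (.n (nat_lit 172) (nat_lit 3) (.n (nat_lit 174) (nat_lit 9) (.p (nat_lit 175) (nat_lit 15) (.n (nat_lit 176) (nat_lit 4) (.p (nat_lit 177) (nat_lit 3) (.p (nat_lit 178) (nat_lit 6) (.p (nat_lit 179) (nat_lit 6) (.p (nat_lit 180) (nat_lit 5) (.p (nat_lit 181) (nat_lit 3) (.n (nat_lit 182) (nat_lit 10) (.p (nat_lit 183) (nat_lit 10) (.p (nat_lit 184) (nat_lit 6) .z))))))))))))))))))))))))) (.ct dW2x_c291 (nat_lit 6) (nat_lit 9) (.s true (nat_lit 1) (nat_lit 6) (nat_lit 1) (nat_lit 5) (nat_lit 2) true (nat_lit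 4) true (nat_lit 8) true (nat_lit 4) true (nat_lit 9) true (nat_lit 5) (.s false (nat_lit 1) (nat_lit 6) (nat_lit 2) (nat_lit 5) (nat_lit 1) true (nat_lit 4) true (nat_lit 9) true (nat_lit 4) true (nat_lit 8) true (nat_lit 5) (.s true (nat_lit 1) (nat_lit 6) (nat_lit 5) (nat_lit 2) (nat_lit 1) true (nat_lit 1) true (nat_lit 9) true (nat_lit 4) true (nat_lit 5) true (nat_lit 8) (.s false (nat_lit 1) (nat_lit 13) (nat_lit 2) (nat_lit 1) (nat_lit 2) true (nat_lit 3) true (nat_lit 8) true (nat_lit 1) true (nat_lit 8) true (nat_lit 9) (.e true (nat_lit 6) (nat_lit 39) (nat_lit 6) (nat_lit 4) (.e false (nat_lit 6) (nat_lit 46) (nat_lit 5) (nat_lit 5) (.e false (nat_lit 6) (nat_lit 95) (nat_lit 1) (nat_lit 9) (.e true (nat_lit 6) (nat_lit 97) (nat_lit 1) (nat_lit 9) (.e true (nat_lit 6) (nat_lit 100) (nat_lit 1) (nat_lit 9) (.e true (nat_lit 6) (nat_lit 45) (nat_lit 5) (nat_lit 5) (.e true (nat_lit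 6) (nat_lit 94) (nat_lit 1) (nat_lit 9) (.e false (nat_lit 6) (nat_lit 98) (nat_lit 1) (nat_lit 9) (.e false (nat_lit 6) (nat_lit 99) (nat_lit 1) (nat_lit 9) (.e false (nat_lit 6) (nat_lit 32) (nat_lit 7) (nat_lit 3) (.e false (nat_lit 6) (nat_lit 81) (nat_lit 2) (nat_lit 8) .nil)))))))))))))))) (.nd .leaf (nat_lit 104448) (nat_lit 269) (.n (nat_lit 138) (nat_lit 84) (.n (nat_lit 139) (nat_lit 24) (.n (nat_lit 140) (nat_lit 30) (.n (nat_lit 141) (nat_lit 156) (.p (nat_lit 142) (nat_lit 84) (.n (nat_lit 143) (nat_lit 36) (.p (nat_lit 144) (nat_lit 84) (.p (nat_lit 145) (nat_lit 78) (.p (nat_lit 146) (nat_lit 192) (.p (nat_lit 147) (nat_lit 36) (.n (nat_lit 149) (nat_lit 60) (.n (nat_lit 150) (nat_lit 84) (.n (nat_lit 151) (nat_lit 12) (.n (nat_lit 152) (nat_lit 30) (.p (nat_lit 153) (nat_lit 54) (.p (nat_lit 154) (nat_lit 66) (.n (nat_lit 155) (nat_lit 18) (.p (nat_lit 156) (nat_lit 30) (.p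 (nat_lit 157) (nat_lit 24) (.p (nat_lit 158) (nat_lit 48) .z)))))))))))))))))))) (.ct dW2x_c531 (nat_lit 6) (nat_lit 9) (.s true (nat_lit 1) (nat_lit 19) (nat_lit 0) (nat_lit 0) (nat_lit 2) true (nat_lit 5) true (nat_lit 7) false (nat_lit 1) true (nat_lit 9) true (nat_lit 9) (.e true (nat_lit 6) (nat_lit 43) (nat_lit 5) (nat_lit 5) (.e true (nat_lit 6) (nat_lit 74) (nat_lit 2) (nat_lit 7) (.e true (nat_lit 18) (nat_lit 95) (nat_lit 0) (nat_lit 9) (.e false (nat_lit 12) (nat_lit 97) (nat_lit 0) (nat_lit 9) (.e false (nat_lit 12) (nat_lit 100) (nat_lit 0) (nat_lit 9) (.e false (nat_lit 12) (nat_lit 101) (nat_lit 0) (nat_lit 9) (.e true (nat_lit 12) (nat_lit 104) (nat_lit 0) (nat_lit 9) (.e false (nat_lit 6) (nat_lit 94) (nat_lit 0) (nat_lit 9) (.e false (nat_lit 6) (nat_lit 96) (nat_lit 0) (nat_lit 9) (.e true (nat_lit 6) (nat_lit 99) (nat_lit 0) (nat_lit 9) (.e true (nat_lit 6) (nat_lit 103)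 (nat_lit 0) (nat_lit 9) .nil))))))))))))) .leaf))) (nat_lit 104449) (nat_lit 325) (.n (nat_lit 159) (nat_lit 16) (.p (nat_lit 160) (nat_lit 28) (.p (nat_lit 161) (nat_lit 34) (.p (nat_lit 162) (nat_lit 18) (.n (nat_lit 163) (nat_lit 20) (.n (nat_lit 164) (nat_lit 14) (.p (nat_lit 165) (nat_lit 8) (.n (nat_lit 166) (nat_lit 4) (.p (nat_lit 167) (nat_lit 8) (.n (nat_lit 168) (nat_lit 26) (.p (nat_lit 169) (nat_lit 6) (.n (nat_lit 170) (nat_lit 20) (.n (nat_lit 171) (nat_lit 2) (.n (nat_lit 172) (nat_lit 6) (.n (nat_lit 173) (nat_lit 6) (.n (nat_lit 174) (nat_lit 15) (.p (nat_lit 175) (nat_lit 27) (.n (nat_lit 176) (nat_lit 7) (.p (nat_lit 177) (nat_lit 3) (.n (nat_lit 179) (nat_lit 6) (.n (nat_lit 180) (nat_lit 4) (.p (nat_lit 181) (nat_lit 12) (.p (nat_lit 182) (nat_lit 2) (.n (nat_lit 183) (nat_lit 2) (.n (nat_lit 184) (nat_lit 6) .z))))))))))))))))))))))))) (.ct dW2x_c291 (nat_lit 6) (nat_lit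 9) (.s true (nat_lit 1) (nat_lit 13) (nat_lit 2) (nat_lit 2) (nat_lit 1) true (nat_lit 4) true (nat_lit 9) true (nat_lit 1) true (nat_lit 8) true (nat_lit 8) (.s true (nat_lit 1) (nat_lit 20) (nat_lit 2) (nat_lit 0) (nat_lit 1) true (nat_lit 4) true (nat_lit 9) false (nat_lit 1) true (nat_lit 8) true (nat_lit 10) (.e true (nat_lit 6) (nat_lit 95) (nat_lit 1) (nat_lit 9) (.e false (nat_lit 6) (nat_lit 82) (nat_lit 2) (nat_lit 8) (.e true (nat_lit 6) (nat_lit 86) (nat_lit 2) (nat_lit 8) (.e true (nat_lit 6) (nat_lit 87) (nat_lit 2) (nat_lit 8) (.e true (nat_lit 12) (nat_lit 38) (nat_lit 6) (nat_lit 4) (.e true (nat_lit 6) (nat_lit 40) (nat_lit 6) (nat_lit 4) (.e false (nat_lit 6) (nat_lit 41) (nat_lit 6) (nat_lit 4) (.e false (nat_lit 6) (nat_lit 42) (nat_lit 6) (nat_lit 4) (.e false (nat_lit 6) (nat_lit 43) (nat_lit 6) (nat_lit 4) (.e true (nat_lit 6) (nat_lit 79) (nat_lit 2) (nat_lit 8)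 (.e false (nat_lit 6) (nat_lit 80) (nat_lit 2) (nat_lit 8) (.e false (nat_lit 6) (nat_lit 105) (nat_lit 0) (nat_lit 10) (.e true (nat_lit 6) (nat_lit 106) (nat_lit 0) (nat_lit 10) (.e true (nat_lit 6) (nat_lit 107) (nat_lit 0) (nat_lit 10) .nil))))))))))))))))) (.nd (.nd (.nd (.nd .leaf (nat_lit 105472) (nat_lit 264) (.n (nat_lit 138) (nat_lit 6) (.n (nat_lit 139) (nat_lit 6) (.n (nat_lit 141) (nat_lit 24) (.p (nat_lit 142) (nat_lit 12) (.p (nat_lit 144) (nat_lit 12) (.p (nat_lit 145) (nat_lit 12) (.p (nat_lit 146) (nat_lit 24) (.p (nat_lit 147) (nat_lit 6) (.p (nat_lit 148) (nat_lit 6) (.n (nat_lit 149) (nat_lit 12) (.n (nat_lit 150) (nat_lit 24) (.p (nat_lit 151) (nat_lit 6) (.n (nat_lit 152) (nat_lit 18) (.p (nat_lit 153) (nat_lit 12) (.p (nat_lit 154) (nat_lit 12) (.n (nat_lit 155) (nat_lit 12) (.p (nat_lit 158) (nat_lit 6) .z))))))))))))))))) (.ct dW2x_c531 (nat_lit 6) (nat_lit 9) (.s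 true (nat_lit 1) (nat_lit 5) (nat_lit 1) (nat_lit 2) (nat_lit 5) true (nat_lit 0) true (nat_lit 5) true (nat_lit 5) true (nat_lit 8) true (nat_lit 7) (.s false (nat_lit 1) (nat_lit 5) (nat_lit 1) (nat_lit 5) (nat_lit 2) true (nat_lit 4) true (nat_lit 7) true (nat_lit 5) true (nat_lit 8) true (nat_lit 5) (.s false (nat_lit 1) (nat_lit 6) (nat_lit 5) (nat_lit 0) (nat_lit 2) false (nat_lit 0) true (nat_lit 7) true (nat_lit 4) true (nat_lit 5) true (nat_lit 9) (.s false (nat_lit 1) (nat_lit 7) (nat_lit 0) (nat_lit 6) (nat_lit 0) false (nat_lit 10) true (nat_lit 9) true (nat_lit 3) true (nat_lit 9) true (nat_lit 4) (.s false (nat_lit 1) (nat_lit 12) (nat_lit 0) (nat_lit 2) (nat_lit 2) true (nat_lit 5) true (nat_lit 7) true (nat_lit 0) true (nat_lit 9) true (nat_lit 7) (.s true (nat_lit 1) (nat_lit 14) (nat_lit 2) (nat_lit 0) (nat_lit 2) true (nat_lit 3) true (nat_lit 7) true (nat_lit 0) true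 (nat_lit 7) true (nat_lit 9) (.s false (nat_lit 1) (nat_lit 17) (nat_lit 0) (nat_lit 1) (nat_lit 2) true (nat_lit 5) true (nat_lit 7) false (nat_lit 0) true (nat_lit 9) true (nat_lit 8) (.s true (nat_lit 1) (nat_lit 17) (nat_lit 2) (nat_lit 0) (nat_lit 1) true (nat_lit 4) true (nat_lit 8) false (nat_lit 0) true (nat_lit 7) true (nat_lit 9) (.e true (nat_lit 12) (nat_lit 39) (nat_lit 5) (nat_lit 5) (.e false (nat_lit 6) (nat_lit 38) (nat_lit 5) (nat_lit 5) (.e false (nat_lit 6) (nat_lit 69) (nat_lit 2) (nat_lit 7) (.e true (nat_lit 12) (nat_lit 70) (nat_lit 2) (nat_lit 7) (.e false (nat_lit 12) (nat_lit 95) (nat_lit 0) (nat_lit 9) (.e true (nat_lit 6) (nat_lit 97) (nat_lit 0) (nat_lit 9) (.e true (nat_lit 12) (nat_lit 94) (nat_lit 0) (nat_lit 9) (.e false (nat_lit 12) (nat_lit 98) (nat_lit 0) (nat_lit 9) (.e false (nat_lit 18) (nat_lit 99) (nat_lit 0) (nat_lit 9) .nil)))))))))))))))))) .leaf)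 (nat_lit 105473) (nat_lit 300) (.p (nat_lit 172) (nat_lit 6) .z) .df .leaf) (nat_lit 106496) (nat_lit 257) (.p (nat_lit 158) (nat_lit 6) .z) .df (.nd (.nd .leaf (nat_lit 106497) (nat_lit 332) (.p (nat_lit 159) (nat_lit 3) (.p (nat_lit 160) (nat_lit 24) (.p (nat_lit 161) (nat_lit 42) (.p (nat_lit 162) (nat_lit 3) (.n (nat_lit 163) (nat_lit 24) (.n (nat_lit 164) (nat_lit 21) (.p (nat_lit 165) (nat_lit 6) (.n (nat_lit 166) (nat_lit 27) (.n (nat_lit 167) (nat_lit 3) (.n (nat_lit 168) (nat_lit 18) (.p (nat_lit 169) (nat_lit 9) (.n (nat_lit 170) (nat_lit 6) (.n (nat_lit 171) (nat_lit 12) (.n (nat_lit 172) (nat_lit 21) (.p (nat_lit 173) (nat_lit 6) (.n (nat_lit 174) (nat_lit 36) (.p (nat_lit 175) (nat_lit 36) (.n (nat_lit 176) (nat_lit 9) (.p (nat_lit 177) (nat_lit 12) (.p (nat_lit 178) (nat_lit 18) (.p (nat_lit 180) (nat_lit 3) (.p (nat_lit 181) (nat_lit 21) (.n (nat_lit 182) (nat_lit 12) (.p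 (nat_lit 183) (nat_lit 12) .z)))))))))))))))))))))))) (.ct dW2x_c291 (nat_lit 6) (nat_lit 9) (.s true (nat_lit 1) (nat_lit 6) (nat_lit 1) (nat_lit 5) (nat_lit 2) true (nat_lit 4) true (nat_lit 8) true (nat_lit 4) true (nat_lit 9) true (nat_lit 5) (.e true (nat_lit 6) (nat_lit 38) (nat_lit 6) (nat_lit 4) (.e false (nat_lit 6) (nat_lit 42) (nat_lit 6) (nat_lit 4) (.e false (nat_lit 6) (nat_lit 43) (nat_lit 6) (nat_lit 4) (.e true (nat_lit 6) (nat_lit 76) (nat_lit 2) (nat_lit 8) (.e false (nat_lit 6) (nat_lit 77) (nat_lit 2) (nat_lit 8) (.e false (nat_lit 12) (nat_lit 78) (nat_lit 2) (nat_lit 8) (.e false (nat_lit 6) (nat_lit 79) (nat_lit 2) (nat_lit 8) (.e false (nat_lit 6) (nat_lit 80) (nat_lit 2) (nat_lit 8) (.e true (nat_lit 6) (nat_lit 83) (nat_lit 2) (nat_lit 8) (.e true (nat_lit 6) (nat_lit 84) (nat_lit 2) (nat_lit 8) (.e false (nat_lit 6) (nat_lit 86) (nat_lit 2) (nat_lit 8) (.e true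 (nat_lit 6) (nat_lit 87) (nat_lit 2) (nat_lit 8) (.e true (nat_lit 6) (nat_lit 88) (nat_lit 2) (nat_lit 8) (.e false (nat_lit 6) (nat_lit 46) (nat_lit 5) (nat_lit 5) .nil)))))))))))))))) .leaf) (nat_lit 107520) (nat_lit 301) (.p (nat_lit 173) (nat_lit 6) .z) .df .leaf)) (nat_lit 108544) (nat_lit 302) (.p (nat_lit 174) (nat_lit 6) .z) .df (.nd (.nd (.nd .leaf (nat_lit 109568) (nat_lit 303) (.p (nat_lit 175) (nat_lit 6) .z) .df .leaf) (nat_lit 110592) (nat_lit 304) (.p (nat_lit 176) (nat_lit 6) .z) .df .leaf) (nat_lit 111616) (nat_lit 305) (.p (nat_lit 177) (nat_lit 6) .z) .df (.nd .leaf (nat_lit 112640) (nat_lit 306) (.p (nat_lit 178) (nat_lit 6) .z) .df .leaf))))))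

noncomputable def dW2x_t5 : Tr := (.nd dW2x_t3 (nat_lit 60418) (nat_lit 175) (.p (nat_lit 116) (nat_lit 6) .z) .df dW2x_t4)

noncomputable def dW2x_t6 : Tr := (.nd dW2x_t2 (nat_lit 33799) (nat_lit 328) (.p (nat_lit 159) (nat_lit 10) (.n (nat_lit 160) (nat_lit 16) (.n (nat_lit 161) (nat_lit 22) (.n (nat_lit 162) (nat_lit 6) (.p (nat_lit 163) (nat_lit 8) (.p (nat_lit 164) (nat_lit 14) (.n (nat_lit 165) (nat_lit 8) (.p (nat_lit 166) (nat_lit 10) (.n (nat_lit 167) (nat_lit 2) (.p (nat_lit 168) (nat_lit 14) (.n (nat_lit 169) (nat_lit 6) (.p (nat_lit 170) (nat_lit 8) (.p (nat_lit 171) (nat_lit 8) (.p (nat_lit 172) (nat_lit 6) (.p (nat_lit 174) (nat_lit 21) (.n (nat_lit 175) (nat_lit 21) (.p (nat_lit 176) (nat_lit 7) (.n (nat_lit 177) (nat_lit 9) (.n (nat_lit 178) (nat_lit 6) (.n (nat_lit 180) (nat_lit 2) (.n (nat_lit 181) (nat_lit 6) (.n (nat_lit 182) (nat_lit 2) (.p (nat_lit 183) (nat_lit 2)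 (.p (nat_lit 184) (nat_lit 6) .z)))))))))))))))))))))))) (.ct dW2x_c291 (nat_lit 6) (nat_lit 3) (.s false (nat_lit 1) (nat_lit 6) (nat_lit 0) (nat_lit 2) (nat_lit 6) true (nat_lit 1) true (nat_lit 4) true (nat_lit 4) true (nat_lit 10) true (nat_lit 8) (.s true (nat_lit 1) (nat_lit 6) (nat_lit 0) (nat_lit 6) (nat_lit 2) true (nat_lit 5) true (nat_lit 8) true (nat_lit 4) true (nat_lit 10) true (nat_lit 4) (.s true (nat_lit 1) (nat_lit 14) (nat_lit 2) (nat_lit 1) (nat_lit 2) true (nat_lit 3) true (nat_lit 8) true (nat_lit 1) true (nat_lit 8) true (nat_lit 9) (.e false (nat_lit 12) (nat_lit 40) (nat_lit 6) (nat_lit 4) (.e false (nat_lit 6) (nat_lit 38) (nat_lit 6) (nat_lit 4) (.e true (nat_lit 6) (nat_lit 39) (nat_lit 6) (nat_lit 4) (.e true (nat_lit 6) (nat_lit 42) (nat_lit 6) (nat_lit 4) (.e false (nat_lit 6) (nat_lit 106) (nat_lit 0) (nat_lit 10) (.e true (nat_lit 6) (nat_lit 107) (nat_lit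 0) (nat_lit 10) (.e false (nat_lit 6) (nat_lit 108) (nat_lit 0) (nat_lit 10) (.e true (nat_lit 6) (nat_lit 109) (nat_lit 0) (nat_lit 10) (.e true (nat_lit 6) (nat_lit 82) (nat_lit 2) (nat_lit 8) (.e false (nat_lit 6) (nat_lit 96) (nat_lit 1) (nat_lit 9) .nil)))))))))))))) dW2x_t5)

noncomputable def dW2x_cl : CL := (.c (nat_lit 256) (nat_lit 0) (nat_lit 1) (.c (nat_lit 16) (nat_lit 1) (nat_lit 1) (.c (nat_lit 1) (nat_lit 2) (nat_lit 1) (.c (nat_lit 512) (nat_lit 2512) (nat_lit 0) (.c (nat_lit 272) (nat_lit 3) (nat_lit 1) (.c (nat_lit 32) (nat_lit 4) (nat_lit 1) (.c (nat_lit 257) (nat_lit 5) (nat_lit 1) (.c (nat_lit 17) (nat_lit 6) (nat_lit 1) (.c (nat_lit 2) (nat_lit 7) (nat_lit 1) (.c (nat_lit 528) (nat_lit 8) (nat_lit 1) (.c (nat_lit 288) (nat_lit 9) (nat_lit 2) (.c (nat_lit 513) (nat_lit 11) (nat_lit 1) (.c (nat_lit 273) (nat_lit 12) (nat_lit 3) (.c (nat_lit 33) (nat_lit 15) (nat_lit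 2) (.c (nat_lit 258) (nat_lit 17) (nat_lit 2) (.c (nat_lit 18) (nat_lit 19) (nat_lit 2) (.c (nat_lit 3) (nat_lit 21) (nat_lit 1) (.c (nat_lit 544) (nat_lit 22) (nat_lit 3) (.c (nat_lit 529) (nat_lit 25) (nat_lit 4) (.c (nat_lit 289) (nat_lit 29) (nat_lit 6) (.c (nat_lit 514) (nat_lit 35) (nat_lit 3) (.c (nat_lit 274) (nat_lit 38) (nat_lit 6) (.c (nat_lit 34) (nat_lit 44) (nat_lit 3) (.c (nat_lit 259) (nat_lit 47) (nat_lit 3) (.c (nat_lit 19) (nat_lit 50) (nat_lit 3) (.c (nat_lit 545) (nat_lit 53) (nat_lit 11) (.c (nat_lit 530) (nat_lit 64) (nat_lit 11) (.c (nat_lit 290) (nat_lit 75) (nat_lit 14) (.c (nat_lit 515) (nat_lit 89) (nat_lit 5) (.c (nat_lit 275) (nat_lit 94) (nat_lit 11) (.c (nat_lit 35) (nat_lit 105) (nat_lit 6) (.c (nat_lit 546) (nat_lit 111) (nat_lit 27) (.c (nat_lit 531) (nat_lit 138) (nat_lit 21) (.c (nat_lit 291) (nat_lit 159) (nat_lit 26) .nil))))))))))))))))))))))))))))))))))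

noncomputable def dW2x_D : Dt := ⟨(nat_lit 18446744073709551616), (nat_lit 9223372036854775808), (nat_lit 6), (nat_lit 185), (nat_lit 18734268820926510491756451860101482612483761139422424243673373110292834544524926883817877920871911428933607083649396277970529100104100869049516307590218948512730455236178779394636880736034161469081814876724609741117732957532496016509229263221489786467473629416361799847511600800360108752603157250257911582556586632004575448028911432809244322324772816615115693582438327422045326005685522416548821102113215082048373290107429559850333254039940217827852998254845419704945180454749624597298894522681340565721437068612088353805306899912391745715435863901292332582784330489476718223274272942737398503825081826906730654015557392599340264705463997191701318597557632499350132756491775553152213642151997022229003617142363242381155063432853226890378561573649437424834862731612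0803403093746590659096344241272733525324304306659988535615548797078770622596790107325771414596215294239276343154132703907884135528093442555971529396250565226228630168912273678734213654841308197079209573481044011354484543604010922473319071076367675289260264990323709490989673350874625719557884893368574954449233527214633144461261135530866094919222966391768477189012722255877319630769392234838258097345767923177090757256363916403283404878584463761392606673243528740196731000097720916354550036421485479310719725785801855497043237267549999958115492652831746806546006764683269), (nat_lit 49039856576957624802018201369765646015978811967967693102), dW2x_t6, dW2x_cl⟩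

noncomputable def dW2x_gs : BL := (.c (nat_lit 22) (nat_lit 3) (nat_lit 21) (nat_lit 1) (nat_lit 0) (.c (nat_lit 25) (nat_lit 4) (nat_lit 19) (nat_lit 2) (nat_lit 3) (.c (nat_lit 29) (nat_lit 6) (nat_lit 17) (nat_lit 2) (nat_lit 11) (.c (nat_lit 35) (nat_lit 3) (nat_lit 15) (nat_lit 2) (nat_lit 23) (.c (nat_lit 38) (nat_lit 6) (nat_lit 12) (nat_lit 3) (nat_lit 29) (.c (nat_lit 44) (nat_lit 3) (nat_lit 11) (nat_lit 1) (nat_lit 47) (.c (nat_lit 47) (nat_lit 3) (nat_lit 9) (nat_lit 2) (nat_lit 50) (.c (nat_lit 50) (nat_lit 3) (nat_lit 8) (nat_lit 1) (nat_lit 56) (.c (nat_lit 53) (nat_lit 11) (nat_lit 7) (nat_lit 1) (nat_lit 59) (.c (nat_lit 64) (nat_lit 11) (nat_lit 6) (nat_lit 1) (nat_lit 70) (.c (nat_lit 75) (nat_lit 14) (nat_lit 5) (nat_lit 1) (nat_lit 81) (.c (nat_lit 89) (nat_lit 5) (nat_lit 4) (nat_lit 1) (nat_lit 95) (.c (nat_lit 94) (nat_lit 11) (nat_lit 3) (nat_lit 1) (nat_lit 100)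 (.c (nat_lit 111) (nat_lit 27) (nat_lit 2) (nat_lit 1) (nat_lit 111) (.c (nat_lit 138) (nat_lit 21) (nat_lit 1) (nat_lit 1) (nat_lit 138) (.c (nat_lit 159) (nat_lit 26) (nat_lit 0) (nat_lit 1) (nat_lit 159) (.c (nat_lit 2512) (nat_lit 0) (nat_lit 105) (nat_lit 6) (nat_lit 185) .nil)))))))))))))))))

noncomputable def dW2x_i14 : IL := (.i true (nat_lit 15552) (nat_lit 2) (.c (nat_lit 67) (nat_lit 530) (.c (nat_lit 6) (nat_lit 17) .nil)) (.i false (nat_lit 7776) (nat_lit 2) (.c (nat_lit 91) (nat_lit 515) (.c (nat_lit 4) (nat_lit 32) .nil)) (.i true (nat_lit 15552) (nat_lit 2) (.c (nat_lit 30) (nat_lit 289) (.c (nat_lit 17) (nat_lit 258) .nil)) (.i true (nat_lit 31104) (nat_lit 2) (.c (nat_lit 76) (nat_lit 290) (.c (nat_lit 5) (nat_lit 257) .nil)) (.i false (nat_lit 124416) (nat_lit 2) (.c (nat_lit 78) (nat_lit 290) (.c (nat_lit 5) (nat_lit 257) .nil)) (.i false (nat_lit 62208) (nat_lit 2)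 (.c (nat_lit 80) (nat_lit 290) (.c (nat_lit 5) (nat_lit 257) .nil)) (.i true (nat_lit 23328) (nat_lit 2) (.c (nat_lit 81) (nat_lit 290) (.c (nat_lit 5) (nat_lit 257) .nil)) (.i false (nat_lit 31104) (nat_lit 2) (.c (nat_lit 82) (nat_lit 290) (.c (nat_lit 5) (nat_lit 257) .nil)) (.i true (nat_lit 69984) (nat_lit 2) (.c (nat_lit 84) (nat_lit 290) (.c (nat_lit 5) (nat_lit 257) .nil)) (.i true (nat_lit 69984) (nat_lit 2) (.c (nat_lit 87) (nat_lit 290) (.c (nat_lit 5) (nat_lit 257) .nil)) (.i true (nat_lit 93312) (nat_lit 2) (.c (nat_lit 88) (nat_lit 290) (.c (nat_lit 5) (nat_lit 257) .nil)) (.i false (nat_lit 116640) (nat_lit 2) (.c (nat_lit 79) (nat_lit 290) (.c (nat_lit 5) (nat_lit 257) .nil)) (.i false (nat_lit 38880) (nat_lit 2) (.c (nat_lit 42) (nat_lit 274) (.c (nat_lit 13) (nat_lit 273) .nil)) (.i true (nat_lit 23328) (nat_lit 2) (.c (nat_lit 83) (nat_lit 290) (.c (nat_lit 5) (nat_lit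 257) .nil)) (.i false (nat_lit 116640) (nat_lit 2) (.c (nat_lit 86) (nat_lit 290) (.c (nat_lit 5) (nat_lit 257) .nil)) (.i false (nat_lit 108864) (nat_lit 2) (.c (nat_lit 77) (nat_lit 290) (.c (nat_lit 5) (nat_lit 257) .nil)) (.i true (nat_lit 38880) (nat_lit 2) (.c (nat_lit 36) (nat_lit 514) (.c (nat_lit 16) (nat_lit 33) .nil)) (.i true (nat_lit 15552) (nat_lit 2) (.c (nat_lit 36) (nat_lit 514) (.c (nat_lit 15) (nat_lit 33) .nil)) (.i false (nat_lit 38880) (nat_lit 2) (.c (nat_lit 37) (nat_lit 514) (.c (nat_lit 16) (nat_lit 33) .nil)) (.i false (nat_lit 15552) (nat_lit 2) (.c (nat_lit 37) (nat_lit 514) (.c (nat_lit 15) (nat_lit 33) .nil)) (.i true (nat_lit 38880) (nat_lit 2) (.c (nat_lit 75) (nat_lit 290) (.c (nat_lit 5) (nat_lit 257) .nil)) (.i true (nat_lit 7776) (nat_lit 2) (.c (nat_lit 45) (nat_lit 34) (.c (nat_lit 11) (nat_lit 513) .nil)) (.i true (nat_lit 7776) (nat_lit 2) (.c (nat_lit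 85) (nat_lit 290) (.c (nat_lit 5) (nat_lit 257) .nil)) (.i false (nat_lit 7776) (nat_lit 2) (.c (nat_lit 30) (nat_lit 289) (.c (nat_lit 18) (nat_lit 258) .nil)) (.i true (nat_lit 7776) (nat_lit 2) (.c (nat_lit 32) (nat_lit 289) (.c (nat_lit 18) (nat_lit 258) .nil)) .nil)))))))))))))))))))))))))

noncomputable def dW2x_i15 : IL := (.i true (nat_lit 31104) (nat_lit 2) (.c (nat_lit 47) (nat_lit 259) (.c (nat_lit 9) (nat_lit 288) .nil)) (.i false (nat_lit 15552) (nat_lit 2) (.c (nat_lit 48) (nat_lit 259) (.c (nat_lit 9) (nat_lit 288) .nil)) (.i false (nat_lit 15552) (nat_lit 2) (.c (nat_lit 49) (nat_lit 259) (.c (nat_lit 9) (nat_lit 288) .nil)) (.i true (nat_lit 93312) (nat_lit 2) (.c (nat_lit 100) (nat_lit 275) (.c (nat_lit 3) (nat_lit 272) .nil)) (.i false (nat_lit 178848) (nat_lit 2) (.c (nat_lit 104) (nat_lit 275) (.c (nat_lit 3) (nat_lit 272) .nil)) (.i true (nat_lit 139968) (nat_lit 2)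 (.c (nat_lit 101) (nat_lit 275) (.c (nat_lit 3) (nat_lit 272) .nil)) (.i false (nat_lit 31104) (nat_lit 2) (.c (nat_lit 42) (nat_lit 274) (.c (nat_lit 12) (nat_lit 273) .nil)) (.i true (nat_lit 46656) (nat_lit 2) (.c (nat_lit 98) (nat_lit 275) (.c (nat_lit 3) (nat_lit 272) .nil)) (.i false (nat_lit 279936) (nat_lit 2) (.c (nat_lit 29) (nat_lit 289) (.c (nat_lit 17) (nat_lit 258) .nil)) (.i true (nat_lit 139968) (nat_lit 2) (.c (nat_lit 32) (nat_lit 289) (.c (nat_lit 17) (nat_lit 258) .nil)) (.i true (nat_lit 93312) (nat_lit 2) (.c (nat_lit 33) (nat_lit 289) (.c (nat_lit 17) (nat_lit 258) .nil)) (.i true (nat_lit 108864) (nat_lit 2) (.c (nat_lit 34) (nat_lit 289) (.c (nat_lit 17) (nat_lit 258) .nil)) (.i false (nat_lit 101088) (nat_lit 2) (.c (nat_lit 31) (nat_lit 289) (.c (nat_lit 17) (nat_lit 258) .nil)) (.i false (nat_lit 101088) (nat_lit 2) (.c (nat_lit 38) (nat_lit 274) (.c (nat_lit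 13) (nat_lit 273) .nil)) (.i false (nat_lit 69984) (nat_lit 2) (.c (nat_lit 39) (nat_lit 274) (.c (nat_lit 13) (nat_lit 273) .nil)) (.i true (nat_lit 69984) (nat_lit 2) (.c (nat_lit 40) (nat_lit 274) (.c (nat_lit 13) (nat_lit 273) .nil)) (.i true (nat_lit 116640) (nat_lit 2) (.c (nat_lit 41) (nat_lit 274) (.c (nat_lit 13) (nat_lit 273) .nil)) (.i true (nat_lit 31104) (nat_lit 2) (.c (nat_lit 43) (nat_lit 274) (.c (nat_lit 13) (nat_lit 273) .nil)) (.i false (nat_lit 139968) (nat_lit 2) (.c (nat_lit 26) (nat_lit 529) (.c (nat_lit 19) (nat_lit 18) .nil)) (.i false (nat_lit 62208) (nat_lit 2) (.c (nat_lit 26) (nat_lit 529) (.c (nat_lit 20) (nat_lit 18) .nil)) (.i false (nat_lit 101088) (nat_lit 2) (.c (nat_lit 27) (nat_lit 529) (.c (nat_lit 19) (nat_lit 18) .nil)) (.i false (nat_lit 46656) (nat_lit 2) (.c (nat_lit 27) (nat_lit 529) (.c (nat_lit 20) (nat_lit 18) .nil)) (.i true (nat_lit 93312)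 (nat_lit 2) (.c (nat_lit 28) (nat_lit 529) (.c (nat_lit 19) (nat_lit 18) .nil)) (.i true (nat_lit 46656) (nat_lit 2) (.c (nat_lit 28) (nat_lit 529) (.c (nat_lit 20) (nat_lit 18) .nil)) (.i true (nat_lit 7776) (nat_lit 2) (.c (nat_lit 89) (nat_lit 515) (.c (nat_lit 4) (nat_lit 32) .nil)) dW2x_i14)))))))))))))))))))))))))

noncomputable def dW2x_i16 : IL := (.i true (nat_lit 264384) (nat_lit 2) (.c (nat_lit 147) (nat_lit 531) (.c (nat_lit 1) (nat_lit 16) .nil)) (.i true (nat_lit 528768) (nat_lit 2) (.c (nat_lit 158) (nat_lit 531) (.c (nat_lit 1) (nat_lit 16) .nil)) (.i false (nat_lit 1034208) (nat_lit 2) (.c (nat_lit 127) (nat_lit 546) (.c (nat_lit 2) (nat_lit 1) .nil)) (.i true (nat_lit 894240) (nat_lit 2) (.c (nat_lit 121) (nat_lit 546) (.c (nat_lit 2) (nat_lit 1) .nil)) (.i true (nat_lit 1780704) (nat_lit 2) (.c (nat_lit 122) (nat_lit 546) (.c (nat_lit 2) (nat_lit 1) .nil)) (.i false (nat_lit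 886464) (nat_lit 2) (.c (nat_lit 130) (nat_lit 546) (.c (nat_lit 2) (nat_lit 1) .nil)) (.i true (nat_lit 116640) (nat_lit 2) (.c (nat_lit 25) (nat_lit 529) (.c (nat_lit 19) (nat_lit 18) .nil)) (.i true (nat_lit 54432) (nat_lit 2) (.c (nat_lit 25) (nat_lit 529) (.c (nat_lit 20) (nat_lit 18) .nil)) (.i true (nat_lit 1096416) (nat_lit 2) (.c (nat_lit 113) (nat_lit 546) (.c (nat_lit 2) (nat_lit 1) .nil)) (.i false (nat_lit 31104) (nat_lit 2) (.c (nat_lit 59) (nat_lit 545) (.c (nat_lit 7) (nat_lit 2) .nil)) (.i false (nat_lit 15552) (nat_lit 2) (.c (nat_lit 60) (nat_lit 545) (.c (nat_lit 7) (nat_lit 2) .nil)) (.i false (nat_lit 108864) (nat_lit 2) (.c (nat_lit 38) (nat_lit 274) (.c (nat_lit 12) (nat_lit 273) .nil)) (.i false (nat_lit 62208) (nat_lit 2) (.c (nat_lit 39) (nat_lit 274) (.c (nat_lit 12) (nat_lit 273) .nil)) (.i true (nat_lit 54432) (nat_lit 2) (.c (nat_lit 40) (nat_lit 274) (.c (nat_lit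 12) (nat_lit 273) .nil)) (.i true (nat_lit 93312) (nat_lit 2) (.c (nat_lit 41) (nat_lit 274) (.c (nat_lit 12) (nat_lit 273) .nil)) (.i true (nat_lit 38880) (nat_lit 2) (.c (nat_lit 43) (nat_lit 274) (.c (nat_lit 12) (nat_lit 273) .nil)) (.i true (nat_lit 23328) (nat_lit 2) (.c (nat_lit 94) (nat_lit 275) (.c (nat_lit 3) (nat_lit 272) .nil)) (.i false (nat_lit 108864) (nat_lit 2) (.c (nat_lit 95) (nat_lit 275) (.c (nat_lit 3) (nat_lit 272) .nil)) (.i true (nat_lit 85536) (nat_lit 2) (.c (nat_lit 96) (nat_lit 275) (.c (nat_lit 3) (nat_lit 272) .nil)) (.i true (nat_lit 178848) (nat_lit 2) (.c (nat_lit 97) (nat_lit 275) (.c (nat_lit 3) (nat_lit 272) .nil)) (.i true (nat_lit 85536) (nat_lit 2) (.c (nat_lit 99) (nat_lit 275) (.c (nat_lit 3) (nat_lit 272) .nil)) (.i false (nat_lit 101088) (nat_lit 2) (.c (nat_lit 103) (nat_lit 275) (.c (nat_lit 3) (nat_lit 272) .nil)) (.i false (nat_lit 54432) (nat_lit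 2) (.c (nat_lit 23) (nat_lit 544) (.c (nat_lit 21) (nat_lit 3) .nil)) (.i true (nat_lit 54432) (nat_lit 2) (.c (nat_lit 24) (nat_lit 544) (.c (nat_lit 21) (nat_lit 3) .nil)) (.i false (nat_lit 435456) (nat_lit 2) (.c (nat_lit 155) (nat_lit 531) (.c (nat_lit 1) (nat_lit 16) .nil)) dW2x_i15)))))))))))))))))))))))))

noncomputable def dW2x_i17 : IL := (.i true (nat_lit 46656) (nat_lit 2) (.c (nat_lit 69) (nat_lit 530) (.c (nat_lit 6) (nat_lit 17) .nil)) (.i false (nat_lit 54432) (nat_lit 2) (.c (nat_lit 72) (nat_lit 530) (.c (nat_lit 6) (nat_lit 17) .nil)) (.i false (nat_lit 69984) (nat_lit 2) (.c (nat_lit 74) (nat_lit 530) (.c (nat_lit 6) (nat_lit 17) .nil)) (.i true (nat_lit 31104) (nat_lit 2) (.c (nat_lit 68) (nat_lit 530) (.c (nat_lit 6) (nat_lit 17) .nil)) (.i true (nat_lit 23328) (nat_lit 2) (.c (nat_lit 70) (nat_lit 530) (.c (nat_lit 6) (nat_lit 17) .nil)) (.i false (nat_lit 54432) (nat_lit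 2) (.c (nat_lit 71) (nat_lit 530) (.c (nat_lit 6) (nat_lit 17) .nil)) (.i false (nat_lit 46656) (nat_lit 2) (.c (nat_lit 73) (nat_lit 530) (.c (nat_lit 6) (nat_lit 17) .nil)) (.i false (nat_lit 505440) (nat_lit 2) (.c (nat_lit 139) (nat_lit 531) (.c (nat_lit 1) (nat_lit 16) .nil)) (.i false (nat_lit 221616) (nat_lit 2) (.c (nat_lit 140) (nat_lit 531) (.c (nat_lit 1) (nat_lit 16) .nil)) (.i false (nat_lit 2072304) (nat_lit 2) (.c (nat_lit 141) (nat_lit 531) (.c (nat_lit 1) (nat_lit 16) .nil)) (.i true (nat_lit 1473552) (nat_lit 2) (.c (nat_lit 142) (nat_lit 531) (.c (nat_lit 1) (nat_lit 16) .nil)) (.i false (nat_lit 462672) (nat_lit 2) (.c (nat_lit 143) (nat_lit 531) (.c (nat_lit 1) (nat_lit 16) .nil)) (.i true (nat_lit 902016) (nat_lit 2) (.c (nat_lit 144) (nat_lit 531) (.c (nat_lit 1) (nat_lit 16) .nil)) (.i true (nat_lit 1325808) (nat_lit 2) (.c (nat_lit 145) (nat_lit 531) (.c (nat_lit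 1) (nat_lit 16) .nil)) (.i true (nat_lit 2527200) (nat_lit 2) (.c (nat_lit 146) (nat_lit 531) (.c (nat_lit 1) (nat_lit 16) .nil)) (.i true (nat_lit 159408) (nat_lit 2) (.c (nat_lit 148) (nat_lit 531) (.c (nat_lit 1) (nat_lit 16) .nil)) (.i false (nat_lit 762048) (nat_lit 2) (.c (nat_lit 149) (nat_lit 531) (.c (nat_lit 1) (nat_lit 16) .nil)) (.i false (nat_lit 979776) (nat_lit 2) (.c (nat_lit 150) (nat_lit 531) (.c (nat_lit 1) (nat_lit 16) .nil)) (.i true (nat_lit 252720) (nat_lit 2) (.c (nat_lit 151) (nat_lit 531) (.c (nat_lit 1) (nat_lit 16) .nil)) (.i false (nat_lit 594864) (nat_lit 2) (.c (nat_lit 152) (nat_lit 531) (.c (nat_lit 1) (nat_lit 16) .nil)) (.i true (nat_lit 501552) (nat_lit 2) (.c (nat_lit 153) (nat_lit 531) (.c (nat_lit 1) (nat_lit 16) .nil)) (.i true (nat_lit 443232) (nat_lit 2) (.c (nat_lit 154) (nat_lit 531) (.c (nat_lit 1) (nat_lit 16) .nil)) (.i true (nat_lit 186624)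 (nat_lit 2) (.c (nat_lit 156) (nat_lit 531) (.c (nat_lit 1) (nat_lit 16) .nil)) (.i true (nat_lit 213840) (nat_lit 2) (.c (nat_lit 157) (nat_lit 531) (.c (nat_lit 1) (nat_lit 16) .nil)) (.i false (nat_lit 948672) (nat_lit 2) (.c (nat_lit 138) (nat_lit 531) (.c (nat_lit 1) (nat_lit 16) .nil)) dW2x_i16)))))))))))))))))))))))))

noncomputable def dW2x_i18 : IL := (.i true (nat_lit 909792) (nat_lit 2) (.c (nat_lit 136) (nat_lit 546) (.c (nat_lit 2) (nat_lit 1) .nil)) (.i true (nat_lit 318816) (nat_lit 2) (.c (nat_lit 115) (nat_lit 546) (.c (nat_lit 2) (nat_lit 1) .nil)) (.i false (nat_lit 847584) (nat_lit 2) (.c (nat_lit 120) (nat_lit 546) (.c (nat_lit 2) (nat_lit 1) .nil)) (.i false (nat_lit 357696) (nat_lit 2) (.c (nat_lit 111) (nat_lit 546) (.c (nat_lit 2) (nat_lit 1) .nil)) (.i false (nat_lit 23328) (nat_lit 2) (.c (nat_lit 53) (nat_lit 545) (.c (nat_lit 7) (nat_lit 2) .nil)) (.i false (nat_lit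 23328) (nat_lit 2) (.c (nat_lit 57) (nat_lit 545) (.c (nat_lit 7) (nat_lit 2) .nil)) (.i false (nat_lit 46656) (nat_lit 2) (.c (nat_lit 58) (nat_lit 545) (.c (nat_lit 7) (nat_lit 2) .nil)) (.i true (nat_lit 93312) (nat_lit 2) (.c (nat_lit 61) (nat_lit 545) (.c (nat_lit 7) (nat_lit 2) .nil)) (.i true (nat_lit 69984) (nat_lit 2) (.c (nat_lit 62) (nat_lit 545) (.c (nat_lit 7) (nat_lit 2) .nil)) (.i true (nat_lit 62208) (nat_lit 2) (.c (nat_lit 63) (nat_lit 545) (.c (nat_lit 7) (nat_lit 2) .nil)) (.i false (nat_lit 23328) (nat_lit 2) (.c (nat_lit 54) (nat_lit 545) (.c (nat_lit 7) (nat_lit 2) .nil)) (.i true (nat_lit 762048) (nat_lit 2) (.c (nat_lit 112) (nat_lit 546) (.c (nat_lit 2) (nat_lit 1) .nil)) (.i true (nat_lit 466560) (nat_lit 2) (.c (nat_lit 116) (nat_lit 546) (.c (nat_lit 2) (nat_lit 1) .nil)) (.i true (nat_lit 1045872) (nat_lit 2) (.c (nat_lit 117) (nat_lit 546) (.c (nat_lit 2) (nat_lit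 1) .nil)) (.i false (nat_lit 680400) (nat_lit 2) (.c (nat_lit 118) (nat_lit 546) (.c (nat_lit 2) (nat_lit 1) .nil)) (.i true (nat_lit 241056) (nat_lit 2) (.c (nat_lit 123) (nat_lit 546) (.c (nat_lit 2) (nat_lit 1) .nil)) (.i true (nat_lit 544320) (nat_lit 2) (.c (nat_lit 125) (nat_lit 546) (.c (nat_lit 2) (nat_lit 1) .nil)) (.i false (nat_lit 552096) (nat_lit 2) (.c (nat_lit 126) (nat_lit 546) (.c (nat_lit 2) (nat_lit 1) .nil)) (.i false (nat_lit 338256) (nat_lit 2) (.c (nat_lit 128) (nat_lit 546) (.c (nat_lit 2) (nat_lit 1) .nil)) (.i false (nat_lit 1298592) (nat_lit 2) (.c (nat_lit 129) (nat_lit 546) (.c (nat_lit 2) (nat_lit 1) .nil)) (.i true (nat_lit 497664) (nat_lit 2) (.c (nat_lit 135) (nat_lit 546) (.c (nat_lit 2) (nat_lit 1) .nil)) (.i true (nat_lit 489888) (nat_lit 2) (.c (nat_lit 137) (nat_lit 546) (.c (nat_lit 2) (nat_lit 1) .nil)) (.i true (nat_lit 69984) (nat_lit 2) (.c (nat_lit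 64) (nat_lit 530) (.c (nat_lit 6) (nat_lit 17) .nil)) (.i true (nat_lit 116640) (nat_lit 2) (.c (nat_lit 65) (nat_lit 530) (.c (nat_lit 6) (nat_lit 17) .nil)) (.i false (nat_lit 46656) (nat_lit 2) (.c (nat_lit 66) (nat_lit 530) (.c (nat_lit 6) (nat_lit 17) .nil)) dW2x_i17)))))))))))))))))))))))))

noncomputable def dW2x_i19 : IL := (.i false (nat_lit 479520) (nat_lit 2) (.c (nat_lit 176) (nat_lit 291) (.c (nat_lit 0) (nat_lit 256) .nil)) (.i false (nat_lit 699840) (nat_lit 2) (.c (nat_lit 174) (nat_lit 291) (.c (nat_lit 0) (nat_lit 256) .nil)) (.i true (nat_lit 1508544) (nat_lit 2) (.c (nat_lit 175) (nat_lit 291) (.c (nat_lit 0) (nat_lit 256) .nil)) (.i false (nat_lit 419904) (nat_lit 2) (.c (nat_lit 184) (nat_lit 291) (.c (nat_lit 0) (nat_lit 256) .nil)) (.i false (nat_lit 62208) (nat_lit 2) (.c (nat_lit 179) (nat_lit 291) (.c (nat_lit 0) (nat_lit 256) .nil)) (.i true (nat_lit 458784) (nat_lit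 2) (.c (nat_lit 169) (nat_lit 291) (.c (nat_lit 0) (nat_lit 256) .nil)) (.i true (nat_lit 523584) (nat_lit 2) (.c (nat_lit 165) (nat_lit 291) (.c (nat_lit 0) (nat_lit 256) .nil)) (.i true (nat_lit 251424) (nat_lit 2) (.c (nat_lit 167) (nat_lit 291) (.c (nat_lit 0) (nat_lit 256) .nil)) (.i false (nat_lit 152928) (nat_lit 2) (.c (nat_lit 180) (nat_lit 291) (.c (nat_lit 0) (nat_lit 256) .nil)) (.i true (nat_lit 33696) (nat_lit 2) (.c (nat_lit 182) (nat_lit 291) (.c (nat_lit 0) (nat_lit 256) .nil)) (.i false (nat_lit 25920) (nat_lit 2) (.c (nat_lit 183) (nat_lit 291) (.c (nat_lit 0) (nat_lit 256) .nil)) (.i false (nat_lit 451008) (nat_lit 2) (.c (nat_lit 173) (nat_lit 291) (.c (nat_lit 0) (nat_lit 256) .nil)) (.i true (nat_lit 233280) (nat_lit 2) (.c (nat_lit 177) (nat_lit 291) (.c (nat_lit 0) (nat_lit 256) .nil)) (.i true (nat_lit 1018656) (nat_lit 2) (.c (nat_lit 162) (nat_lit 291) (.c (nat_lit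 0) (nat_lit 256) .nil)) (.i false (nat_lit 699840) (nat_lit 2) (.c (nat_lit 172) (nat_lit 291) (.c (nat_lit 0) (nat_lit 256) .nil)) (.i true (nat_lit 692064) (nat_lit 2) (.c (nat_lit 181) (nat_lit 291) (.c (nat_lit 0) (nat_lit 256) .nil)) (.i false (nat_lit 62208) (nat_lit 2) (.c (nat_lit 178) (nat_lit 291) (.c (nat_lit 0) (nat_lit 256) .nil)) (.i false (nat_lit 238464) (nat_lit 2) (.c (nat_lit 166) (nat_lit 291) (.c (nat_lit 0) (nat_lit 256) .nil)) (.i true (nat_lit 528768) (nat_lit 2) (.c (nat_lit 114) (nat_lit 546) (.c (nat_lit 2) (nat_lit 1) .nil)) (.i false (nat_lit 1442448) (nat_lit 2) (.c (nat_lit 119) (nat_lit 546) (.c (nat_lit 2) (nat_lit 1) .nil)) (.i true (nat_lit 1329696) (nat_lit 2) (.c (nat_lit 124) (nat_lit 546) (.c (nat_lit 2) (nat_lit 1) .nil)) (.i false (nat_lit 268272) (nat_lit 2) (.c (nat_lit 131) (nat_lit 546) (.c (nat_lit 2) (nat_lit 1) .nil)) (.i true (nat_lit 104976)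 (nat_lit 2) (.c (nat_lit 132) (nat_lit 546) (.c (nat_lit 2) (nat_lit 1) .nil)) (.i false (nat_lit 991440) (nat_lit 2) (.c (nat_lit 133) (nat_lit 546) (.c (nat_lit 2) (nat_lit 1) .nil)) (.i true (nat_lit 167184) (nat_lit 2) (.c (nat_lit 134) (nat_lit 546) (.c (nat_lit 2) (nat_lit 1) .nil)) dW2x_i18)))))))))))))))))))))))))

noncomputable def dW2x_i20 : IL := (.s true (nat_lit 216) (nat_lit 41) (nat_lit 1) (nat_lit 2) (nat_lit 0) true (nat_lit 12) true (nat_lit 15) false (nat_lit 4) true (nat_lit 14) true (nat_lit 13) (.s false (nat_lit 216) (nat_lit 43) (nat_lit 1) (nat_lit 2) (nat_lit 0) true (nat_lit 12) true (nat_lit 15) false (nat_lit 4) true (nat_lit 14) true (nat_lit 13) (.s true (nat_lit 432) (nat_lit 38) (nat_lit 2) (nat_lit 0) (nat_lit 1) true (nat_lit 9) true (nat_lit 14) false (nat_lit 4) true (nat_lit 13) true (nat_lit 15) (.s false (nat_lit 216) (nat_lit 41) (nat_lit 2) (nat_lit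 1) (nat_lit 0) true (nat_lit 10) true (nat_lit 15) false (nat_lit 4) true (nat_lit 13) true (nat_lit 14) (.s false (nat_lit 432) (nat_lit 46) (nat_lit 0) (nat_lit 0) (nat_lit 2) true (nat_lit 10) true (nat_lit 13) false (nat_lit 5) true (nat_lit 15) true (nat_lit 15) (.s false (nat_lit 432) (nat_lit 44) (nat_lit 2) (nat_lit 0) (nat_lit 0) true (nat_lit 10) true (nat_lit 15) false (nat_lit 5) true (nat_lit 13) true (nat_lit 15) (.s false (nat_lit 432) (nat_lit 45) (nat_lit 2) (nat_lit 0) (nat_lit 0) true (nat_lit 10) true (nat_lit 15) false (nat_lit 5) true (nat_lit 13) true (nat_lit 15) (.s false (nat_lit 432) (nat_lit 46) (nat_lit 2) (nat_lit 0) (nat_lit 0) true (nat_lit 10) true (nat_lit 15) false (nat_lit 5) true (nat_lit 13) true (nat_lit 15) (.s false (nat_lit 216) (nat_lit 49) (nat_lit 0) (nat_lit 1) (nat_lit 1) true (nat_lit 12) true (nat_lit 14) false (nat_lit 6) true (nat_lit 15)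 true (nat_lit 14) (.s true (nat_lit 432) (nat_lit 47) (nat_lit 1) (nat_lit 0) (nat_lit 1) true (nat_lit 11) true (nat_lit 14) false (nat_lit 6) true (nat_lit 14) true (nat_lit 15) (.s true (nat_lit 432) (nat_lit 48) (nat_lit 1) (nat_lit 0) (nat_lit 1) true (nat_lit 11) true (nat_lit 14) false (nat_lit 6) true (nat_lit 14) true (nat_lit 15) (.s false (nat_lit 216) (nat_lit 49) (nat_lit 1) (nat_lit 0) (nat_lit 1) true (nat_lit 11) true (nat_lit 14) false (nat_lit 6) true (nat_lit 14) true (nat_lit 15) (.s false (nat_lit 216) (nat_lit 48) (nat_lit 1) (nat_lit 1) (nat_lit 0) true (nat_lit 12) true (nat_lit 15) false (nat_lit 6) true (nat_lit 14) true (nat_lit 14) (.s true (nat_lit 432) (nat_lit 51) (nat_lit 0) (nat_lit 0) (nat_lit 1) true (nat_lit 12) true (nat_lit 14) false (nat_lit 7) true (nat_lit 15) true (nat_lit 15) (.s false (nat_lit 432) (nat_lit 52) (nat_lit 0) (nat_lit 0) (nat_lit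 1) true (nat_lit 12) true (nat_lit 14) false (nat_lit 7) true (nat_lit 15) true (nat_lit 15) (.s false (nat_lit 216) (nat_lit 51) (nat_lit 1) (nat_lit 0) (nat_lit 0) true (nat_lit 12) true (nat_lit 15) false (nat_lit 7) true (nat_lit 14) true (nat_lit 15) (.s true (nat_lit 216) (nat_lit 52) (nat_lit 1) (nat_lit 0) (nat_lit 0) true (nat_lit 12) true (nat_lit 15) false (nat_lit 7) true (nat_lit 14) true (nat_lit 15) (.i true (nat_lit 1467072) (nat_lit 2) (.c (nat_lit 161) (nat_lit 291) (.c (nat_lit 0) (nat_lit 256) .nil)) (.i false (nat_lit 1378944) (nat_lit 2) (.c (nat_lit 163) (nat_lit 291) (.c (nat_lit 0) (nat_lit 256) .nil)) (.i false (nat_lit 269568) (nat_lit 2) (.c (nat_lit 159) (nat_lit 291) (.c (nat_lit 0) (nat_lit 256) .nil)) (.i true (nat_lit 1513728) (nat_lit 2) (.c (nat_lit 160) (nat_lit 291) (.c (nat_lit 0) (nat_lit 256) .nil)) (.i false (nat_lit 663552) (nat_lit 2) (.c (nat_lit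 164) (nat_lit 291) (.c (nat_lit 0) (nat_lit 256) .nil)) (.i false (nat_lit 943488) (nat_lit 2) (.c (nat_lit 168) (nat_lit 291) (.c (nat_lit 0) (nat_lit 256) .nil)) (.i false (nat_lit 469152) (nat_lit 2) (.c (nat_lit 170) (nat_lit 291) (.c (nat_lit 0) (nat_lit 256) .nil)) (.i false (nat_lit 235872) (nat_lit 2) (.c (nat_lit 171) (nat_lit 291) (.c (nat_lit 0) (nat_lit 256) .nil)) dW2x_i19)))))))))))))))))))))))))

noncomputable def dW2x_i21 : IL := (.s true (nat_lit 216) (nat_lit 31) (nat_lit 2) (nat_lit 0) (nat_lit 2) true (nat_lit 8) true (nat_lit 13) false (nat_lit 2) true (nat_lit 13) true (nat_lit 15) (.s false (nat_lit 216) (nat_lit 32) (nat_lit 2) (nat_lit 0) (nat_lit 2) true (nat_lit 8) true (nat_lit 13) false (nat_lit 2) true (nat_lit 13) true (nat_lit 15) (.s false (nat_lit 216) (nat_lit 33) (nat_lit 2) (nat_lit 0) (nat_lit 2) true (nat_lit 8) true (nat_lit 13) false (nat_lit 2) true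 (nat_lit 13) true (nat_lit 15) (.s true (nat_lit 432) (nat_lit 34) (nat_lit 2) (nat_lit 0) (nat_lit 2) true (nat_lit 8) true (nat_lit 13) false (nat_lit 2) true (nat_lit 13) true (nat_lit 15) (.s true (nat_lit 432) (nat_lit 30) (nat_lit 2) (nat_lit 2) (nat_lit 0) true (nat_lit 10) true (nat_lit 15) false (nat_lit 2) true (nat_lit 13) true (nat_lit 13) (.s false (nat_lit 216) (nat_lit 31) (nat_lit 2) (nat_lit 2) (nat_lit 0) true (nat_lit 10) true (nat_lit 15) false (nat_lit 2) true (nat_lit 13) true (nat_lit 13) (.s true (nat_lit 216) (nat_lit 33) (nat_lit 2) (nat_lit 2) (nat_lit 0) true (nat_lit 10) true (nat_lit 15) false (nat_lit 2) true (nat_lit 13) true (nat_lit 13) (.s true (nat_lit 216) (nat_lit 34) (nat_lit 2) (nat_lit 2) (nat_lit 0) true (nat_lit 10) true (nat_lit 15) false (nat_lit 2) true (nat_lit 13) true (nat_lit 13) (.s true (nat_lit 432) (nat_lit 37) (nat_lit 1) (nat_lit 1)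 (nat_lit 2) true (nat_lit 9) true (nat_lit 13) false (nat_lit 3) true (nat_lit 14) true (nat_lit 14) (.s true (nat_lit 432) (nat_lit 37) (nat_lit 1) (nat_lit 2) (nat_lit 1) true (nat_lit 11) true (nat_lit 14) false (nat_lit 3) true (nat_lit 14) true (nat_lit 13) (.s true (nat_lit 432) (nat_lit 35) (nat_lit 2) (nat_lit 1) (nat_lit 1) true (nat_lit 9) true (nat_lit 14) false (nat_lit 3) true (nat_lit 13) true (nat_lit 14) (.s false (nat_lit 216) (nat_lit 37) (nat_lit 2) (nat_lit 1) (nat_lit 1) true (nat_lit 9) true (nat_lit 14) false (nat_lit 3) true (nat_lit 13) true (nat_lit 14) (.s false (nat_lit 432) (nat_lit 38) (nat_lit 0) (nat_lit 1) (nat_lit 2) true (nat_lit 10) true (nat_lit 13) false (nat_lit 4) true (nat_lit 15) true (nat_lit 14) (.s true (nat_lit 432) (nat_lit 39) (nat_lit 0) (nat_lit 1) (nat_lit 2) true (nat_lit 10) true (nat_lit 13) false (nat_lit 4) true (nat_lit 15) true (nat_lit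 14) (.s false (nat_lit 432) (nat_lit 40) (nat_lit 0) (nat_lit 1) (nat_lit 2) true (nat_lit 10) true (nat_lit 13) false (nat_lit 4) true (nat_lit 15) true (nat_lit 14) (.s false (nat_lit 216) (nat_lit 41) (nat_lit 0) (nat_lit 1) (nat_lit 2) true (nat_lit 10) true (nat_lit 13) false (nat_lit 4) true (nat_lit 15) true (nat_lit 14) (.s false (nat_lit 432) (nat_lit 42) (nat_lit 0) (nat_lit 1) (nat_lit 2) true (nat_lit 10) true (nat_lit 13) false (nat_lit 4) true (nat_lit 15) true (nat_lit 14) (.s true (nat_lit 216) (nat_lit 43) (nat_lit 0) (nat_lit 1) (nat_lit 2) true (nat_lit 10) true (nat_lit 13) false (nat_lit 4) true (nat_lit 15) true (nat_lit 14) (.s true (nat_lit 432) (nat_lit 38) (nat_lit 0) (nat_lit 2) (nat_lit 1) true (nat_lit 12) true (nat_lit 14) false (nat_lit 4) true (nat_lit 15) true (nat_lit 13) (.s false (nat_lit 216) (nat_lit 39) (nat_lit 0) (nat_lit 2) (nat_lit 1) true (nat_lit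 12) true (nat_lit 14) false (nat_lit 4) true (nat_lit 15) true (nat_lit 13) (.s false (nat_lit 216) (nat_lit 40) (nat_lit 0) (nat_lit 2) (nat_lit 1) true (nat_lit 12) true (nat_lit 14) false (nat_lit 4) true (nat_lit 15) true (nat_lit 13) (.s true (nat_lit 216) (nat_lit 38) (nat_lit 1) (nat_lit 0) (nat_lit 2) true (nat_lit 9) true (nat_lit 13) false (nat_lit 4) true (nat_lit 14) true (nat_lit 15) (.s true (nat_lit 216) (nat_lit 39) (nat_lit 1) (nat_lit 0) (nat_lit 2) true (nat_lit 9) true (nat_lit 13) false (nat_lit 4) true (nat_lit 14) true (nat_lit 15) (.s true (nat_lit 432) (nat_lit 40) (nat_lit 1) (nat_lit 0) (nat_lit 2) true (nat_lit 9) true (nat_lit 13) false (nat_lit 4) true (nat_lit 14) true (nat_lit 15) (.s false (nat_lit 432) (nat_lit 39) (nat_lit 1) (nat_lit 2) (nat_lit 0) true (nat_lit 12) true (nat_lit 15) false (nat_lit 4) true (nat_lit 14) true (nat_lit 13) dW2x_i20)))))))))))))))))))))))))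

noncomputable def dW2x_i22 : IL := (.s false (nat_lit 216) (nat_lit 17) (nat_lit 1) (nat_lit 5) (nat_lit 1) true (nat_lit 11) true (nat_lit 14) true (nat_lit 2) true (nat_lit 14) true (nat_lit 10) (.s true (nat_lit 432) (nat_lit 18) (nat_lit 1) (nat_lit 5) (nat_lit 1) true (nat_lit 11) true (nat_lit 14) true (nat_lit 2) true (nat_lit 14) true (nat_lit 10) (.s false (nat_lit 216) (nat_lit 17) (nat_lit 1) (nat_lit 6) (nat_lit 0) true (nat_lit 12) true (nat_lit 15) true (nat_lit 2) true (nat_lit 14) true (nat_lit 9) (.s true (nat_lit 216) (nat_lit 17) (nat_lit 2) (nat_lit 1) (nat_lit 3) true (nat_lit 4) true (nat_lit 12) true (nat_lit 2) true (nat_lit 13) true (nat_lit 14) (.s true (nat_lit 216) (nat_lit 18) (nat_lit 2) (nat_lit 1) (nat_lit 3) true (nat_lit 4) true (nat_lit 12) true (nat_lit 2) true (nat_lit 13) true (nat_lit 14) (.s true (nat_lit 432) (nat_lit 17) (nat_lit 3) (nat_lit 2)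 (nat_lit 1) true (nat_lit 6) true (nat_lit 14) true (nat_lit 2) true (nat_lit 12) true (nat_lit 13) (.s true (nat_lit 432) (nat_lit 18) (nat_lit 3) (nat_lit 2) (nat_lit 1) true (nat_lit 6) true (nat_lit 14) true (nat_lit 2) true (nat_lit 12) true (nat_lit 13) (.s false (nat_lit 216) (nat_lit 18) (nat_lit 4) (nat_lit 0) (nat_lit 2) true (nat_lit 3) true (nat_lit 13) true (nat_lit 2) true (nat_lit 11) true (nat_lit 15) (.s false (nat_lit 216) (nat_lit 17) (nat_lit 6) (nat_lit 0) (nat_lit 1) true (nat_lit 3) true (nat_lit 14) true (nat_lit 2) true (nat_lit 9) true (nat_lit 15) (.s true (nat_lit 432) (nat_lit 19) (nat_lit 0) (nat_lit 0) (nat_lit 6) true (nat_lit 4) true (nat_lit 9) true (nat_lit 1) true (nat_lit 15) true (nat_lit 15) (.s true (nat_lit 216) (nat_lit 19) (nat_lit 0) (nat_lit 5) (nat_lit 1) true (nat_lit 12) true (nat_lit 14) true (nat_lit 1) true (nat_lit 15) true (nat_lit 10)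 (.s false (nat_lit 432) (nat_lit 19) (nat_lit 0) (nat_lit 6) (nat_lit 0) false (nat_lit 16) true (nat_lit 15) true (nat_lit 1) true (nat_lit 15) true (nat_lit 9) (.s false (nat_lit 432) (nat_lit 19) (nat_lit 1) (nat_lit 5) (nat_lit 0) true (nat_lit 12) true (nat_lit 15) true (nat_lit 1) true (nat_lit 14) true (nat_lit 10) (.s true (nat_lit 216) (nat_lit 21) (nat_lit 0) (nat_lit 0) (nat_lit 4) true (nat_lit 6) true (nat_lit 11) true (nat_lit 0) true (nat_lit 15) true (nat_lit 15) (.s true (nat_lit 216) (nat_lit 21) (nat_lit 4) (nat_lit 0) (nat_lit 0) true (nat_lit 6) true (nat_lit 15) true (nat_lit 0) true (nat_lit 11) true (nat_lit 15) (.s false (nat_lit 216) (nat_lit 23) (nat_lit 2) (nat_lit 2) (nat_lit 2) true (nat_lit 8) true (nat_lit 13) false (nat_lit 0) true (nat_lit 13) true (nat_lit 13) (.s true (nat_lit 216) (nat_lit 26) (nat_lit 1) (nat_lit 2) (nat_lit 2) true (nat_lit 9) true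 (nat_lit 13) false (nat_lit 1) true (nat_lit 14) true (nat_lit 13) (.s true (nat_lit 432) (nat_lit 26) (nat_lit 2) (nat_lit 1) (nat_lit 2) true (nat_lit 8) true (nat_lit 13) false (nat_lit 1) true (nat_lit 13) true (nat_lit 14) (.s true (nat_lit 432) (nat_lit 27) (nat_lit 2) (nat_lit 1) (nat_lit 2) true (nat_lit 8) true (nat_lit 13) false (nat_lit 1) true (nat_lit 13) true (nat_lit 14) (.s true (nat_lit 432) (nat_lit 28) (nat_lit 2) (nat_lit 1) (nat_lit 2) true (nat_lit 8) true (nat_lit 13) false (nat_lit 1) true (nat_lit 13) true (nat_lit 14) (.s false (nat_lit 432) (nat_lit 30) (nat_lit 0) (nat_lit 2) (nat_lit 2) true (nat_lit 10) true (nat_lit 13) false (nat_lit 2) true (nat_lit 15) true (nat_lit 13) (.s false (nat_lit 216) (nat_lit 31) (nat_lit 0) (nat_lit 2) (nat_lit 2) true (nat_lit 10) true (nat_lit 13) false (nat_lit 2) true (nat_lit 15) true (nat_lit 13) (.s false (nat_lit 432)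 (nat_lit 33) (nat_lit 0) (nat_lit 2) (nat_lit 2) true (nat_lit 10) true (nat_lit 13) false (nat_lit 2) true (nat_lit 15) true (nat_lit 13) (.s false (nat_lit 432) (nat_lit 34) (nat_lit 0) (nat_lit 2) (nat_lit 2) true (nat_lit 10) true (nat_lit 13) false (nat_lit 2) true (nat_lit 15) true (nat_lit 13) (.s false (nat_lit 216) (nat_lit 30) (nat_lit 2) (nat_lit 0) (nat_lit 2) true (nat_lit 8) true (nat_lit 13) false (nat_lit 2) true (nat_lit 13) true (nat_lit 15) dW2x_i21)))))))))))))))))))))))))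

noncomputable def dW2x_i23 : IL := (.s false (nat_lit 216) (nat_lit 14) (nat_lit 0) (nat_lit 7) (nat_lit 1) true (nat_lit 12) true (nat_lit 14) true (nat_lit 4) true (nat_lit 15) true (nat_lit 8) (.s false (nat_lit 432) (nat_lit 13) (nat_lit 1) (nat_lit 2) (nat_lit 5) true (nat_lit 4) true (nat_lit 10) true (nat_lit 4) true (nat_lit 14) true (nat_lit 13) (.s false (nat_lit 216) (nat_lit 12) (nat_lit 2) (nat_lit 1) (nat_lit 5) true (nat_lit 2) true (nat_lit 10) true (nat_lit 4) true (nat_lit 13) true (nat_lit 14) (.s false (nat_lit 216) (nat_lit 13) (nat_lit 2) (nat_lit 1) (nat_lit 5) true (nat_lit 2) true (nat_lit 10) true (nat_lit 4) true (nat_lit 13) true (nat_lit 14) (.s false (nat_lit 216) (nat_lit 14) (nat_lit 2) (nat_lit 1) (nat_lit 5) true (nat_lit 2) true (nat_lit 10) true (nat_lit 4) true (nat_lit 13) true (nat_lit 14) (.s true (nat_lit 216) (nat_lit 12) (nat_lit 2) (nat_lit 2)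 (nat_lit 3) true (nat_lit 4) true (nat_lit 12) true (nat_lit 4) true (nat_lit 13) true (nat_lit 13) (.s true (nat_lit 216) (nat_lit 12) (nat_lit 2) (nat_lit 3) (nat_lit 2) true (nat_lit 8) true (nat_lit 13) true (nat_lit 4) true (nat_lit 13) true (nat_lit 12) (.s true (nat_lit 216) (nat_lit 13) (nat_lit 2) (nat_lit 3) (nat_lit 2) true (nat_lit 8) true (nat_lit 13) true (nat_lit 4) true (nat_lit 13) true (nat_lit 12) (.s true (nat_lit 216) (nat_lit 14) (nat_lit 2) (nat_lit 3) (nat_lit 2) true (nat_lit 8) true (nat_lit 13) true (nat_lit 4) true (nat_lit 13) true (nat_lit 12) (.s true (nat_lit 432) (nat_lit 13) (nat_lit 2) (nat_lit 6) (nat_lit 0) true (nat_lit 10) true (nat_lit 15) true (nat_lit 4) true (nat_lit 13) true (nat_lit 9) (.s true (nat_lit 432) (nat_lit 14) (nat_lit 2) (nat_lit 6) (nat_lit 0) true (nat_lit 10) true (nat_lit 15) true (nat_lit 4) true (nat_lit 13) true (nat_lit 9)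 (.s false (nat_lit 432) (nat_lit 12) (nat_lit 3) (nat_lit 2) (nat_lit 2) true (nat_lit 4) true (nat_lit 13) true (nat_lit 4) true (nat_lit 12) true (nat_lit 13) (.s false (nat_lit 216) (nat_lit 12) (nat_lit 5) (nat_lit 1) (nat_lit 2) true (nat_lit 2) true (nat_lit 13) true (nat_lit 4) true (nat_lit 10) true (nat_lit 14) (.s true (nat_lit 216) (nat_lit 14) (nat_lit 5) (nat_lit 1) (nat_lit 2) true (nat_lit 2) true (nat_lit 13) true (nat_lit 4) true (nat_lit 10) true (nat_lit 14) (.s false (nat_lit 216) (nat_lit 12) (nat_lit 5) (nat_lit 2) (nat_lit 1) true (nat_lit 4) true (nat_lit 14) true (nat_lit 4) true (nat_lit 10) true (nat_lit 13) (.s true (nat_lit 216) (nat_lit 13) (nat_lit 6) (nat_lit 0) (nat_lit 2) true (nat_lit 1) true (nat_lit 13) true (nat_lit 4) true (nat_lit 9) true (nat_lit 15) (.s true (nat_lit 432) (nat_lit 12) (nat_lit 6) (nat_lit 2) (nat_lit 0) true (nat_lit 4) true (nat_lit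 15) true (nat_lit 4) true (nat_lit 9) true (nat_lit 13) (.s true (nat_lit 432) (nat_lit 13) (nat_lit 6) (nat_lit 2) (nat_lit 0) true (nat_lit 4) true (nat_lit 15) true (nat_lit 4) true (nat_lit 9) true (nat_lit 13) (.s true (nat_lit 216) (nat_lit 15) (nat_lit 0) (nat_lit 0) (nat_lit 7) true (nat_lit 2) true (nat_lit 8) true (nat_lit 3) true (nat_lit 15) true (nat_lit 15) (.s true (nat_lit 216) (nat_lit 16) (nat_lit 0) (nat_lit 0) (nat_lit 7) true (nat_lit 2) true (nat_lit 8) true (nat_lit 3) true (nat_lit 15) true (nat_lit 15) (.s true (nat_lit 432) (nat_lit 15) (nat_lit 2) (nat_lit 0) (nat_lit 5) true (nat_lit 2) true (nat_lit 10) true (nat_lit 3) true (nat_lit 13) true (nat_lit 15) (.s true (nat_lit 216) (nat_lit 15) (nat_lit 7) (nat_lit 0) (nat_lit 0) true (nat_lit 2) true (nat_lit 15) true (nat_lit 3) true (nat_lit 8) true (nat_lit 15) (.s false (nat_lit 216) (nat_lit 18) (nat_lit 0)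 (nat_lit 2) (nat_lit 4) true (nat_lit 6) true (nat_lit 11) true (nat_lit 2) true (nat_lit 15) true (nat_lit 13) (.s true (nat_lit 216) (nat_lit 18) (nat_lit 0) (nat_lit 6) (nat_lit 1) true (nat_lit 12) true (nat_lit 14) true (nat_lit 2) true (nat_lit 15) true (nat_lit 9) (.s true (nat_lit 432) (nat_lit 17) (nat_lit 1) (nat_lit 1) (nat_lit 5) true (nat_lit 4) true (nat_lit 10) true (nat_lit 2) true (nat_lit 14) true (nat_lit 14) dW2x_i22)))))))))))))))))))))))))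

noncomputable def dW2x_il : IL := (.s false (nat_lit 432) (nat_lit 5) (nat_lit 2) (nat_lit 4) (nat_lit 5) true (nat_lit 2) true (nat_lit 10) true (nat_lit 10) true (nat_lit 13) true (nat_lit 11) (.s false (nat_lit 432) (nat_lit 6) (nat_lit 5) (nat_lit 0) (nat_lit 6) false (nat_lit 4) true (nat_lit 9) true (nat_lit 9) true (nat_lit 10) true (nat_lit 15) (.s true (nat_lit 216) (nat_lit 7) (nat_lit 5) (nat_lit 4) (nat_lit 0) true (nat_lit 5) true (nat_lit 15) true (nat_lit 8) true (nat_lit 10) true (nat_lit 11) (.s true (nat_lit 216) (nat_lit 8) (nat_lit 1) (nat_lit 2) (nat_lit 7) true (nat_lit 1) true (nat_lit 8) true (nat_lit 7) true (nat_lit 14) true (nat_lit 13) (.s false (nat_lit 432) (nat_lit 10) (nat_lit 2) (nat_lit 0) (nat_lit 7) true (nat_lit 0) true (nat_lit 8) true (nat_lit 6) true (nat_lit 13) true (nat_lit 15) (.s false (nat_lit 432) (nat_lit 10) (nat_lit 2) (nat_lit 2) (nat_lit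 5) true (nat_lit 2) true (nat_lit 10) true (nat_lit 6) true (nat_lit 13) true (nat_lit 13) (.s false (nat_lit 432) (nat_lit 11) (nat_lit 1) (nat_lit 1) (nat_lit 7) true (nat_lit 1) true (nat_lit 8) true (nat_lit 5) true (nat_lit 14) true (nat_lit 14) (.s false (nat_lit 432) (nat_lit 11) (nat_lit 1) (nat_lit 2) (nat_lit 6) true (nat_lit 3) true (nat_lit 9) true (nat_lit 5) true (nat_lit 14) true (nat_lit 13) (.s false (nat_lit 432) (nat_lit 11) (nat_lit 1) (nat_lit 6) (nat_lit 2) true (nat_lit 9) true (nat_lit 13) true (nat_lit 5) true (nat_lit 14) true (nat_lit 9) (.s false (nat_lit 432) (nat_lit 11) (nat_lit 4) (nat_lit 2) (nat_lit 2) true (nat_lit 3) true (nat_lit 13) true (nat_lit 5) true (nat_lit 11) true (nat_lit 13) (.s false (nat_lit 216) (nat_lit 11) (nat_lit 6) (nat_lit 1) (nat_lit 2) true (nat_lit 1) true (nat_lit 13) true (nat_lit 5) true (nat_lit 9) true (nat_lit 14) (.s true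 (nat_lit 432) (nat_lit 12) (nat_lit 0) (nat_lit 6) (nat_lit 2) true (nat_lit 10) true (nat_lit 13) true (nat_lit 4) true (nat_lit 15) true (nat_lit 9) dW2x_i23))))))))))))

theorem dW2x_chk : chk 1 idsM5 dW2x_D par2 (clsL [0,0,0,1,1,2,2]) W2xEx (.c (nat_lit 2) (nat_lit 1) (.c (nat_lit 2) (nat_lit 1) (.c (nat_lit 2) (nat_lit 1) (.c (nat_lit 1) (nat_lit 16) (.c (nat_lit 1) (nat_lit 16) (.c (nat_lit 0) (nat_lit 256) (.c (nat_lit 0) (nat_lit 256) .nil))))))) (nat_lit 351) (nat_lit 547) (nat_lit 1) dW2x_gs dW2x_il = true := by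
  decide +kernel

end Chk

/-- certificate of `W2xEx` -/
theorem cert_W2xEx : Cert.{u} 1 idsM5 par2 (clsL [0,0,0,1,1,2,2]) W2xEx :=
  Chk.chk_sound _ _ (by simp [idsM5]) (by simp [idsM5]) _ _ _ _ _ _ _ _ _ _ Chk.dW2x_chk

end Pool.Agent.MalP
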