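import Pool.Agent.MalP.Check4
import Pool.Agent.MalP.P5.ExZ5

/-! # Certificate of W4xEx -/

set_option autoImplicit false
set_option maxRecDepth 100000

namespace Pool.Agent.MalP

universe u

namespace Chk

noncomputable def dW4x_c8464 : Cm := .mk (nat_lit 29) (nat_lit 8464) (nat_lit 33) (nat_lit 4) (.c (nat_lit 5) (nat_lit 1) (nat_lit 4) (nat_lit 1) (nat_lit 4) (.c (nat_lit 11) (nat_lit 1) (nat_lit 2) (nat_lit 1) (nat_lit 5) (.c (nat_lit 12) (nat_lit 1) (nat_lit 1) (nat_lit 1) (nat_lit 6) (.c (nat_lit 13) (nat_lit 3) (nat_lit 0) (nat_lit 1) (nat_lit 7) (.c (nat_lit 10192) (nat_lit 0) (nat_lit 6) (nat_lit 1) (nat_lit 10) .nil)))))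

noncomputable def dW4x_c8449 : Cm := .mk (nat_lit 35) (nat_lit 8449) (nat_lit 37) (nat_lit 4) (.c (nat_lit 7) (nat_lit 1) (nat_lit 4) (nat_lit 1) (nat_lit 4) (.c (nat_lit 11) (nat_lit 1) (nat_lit 3) (nat_lit 1) (nat_lit 5) (.c (nat_lit 16) (nat_lit 1) (nat_lit 1) (nat_lit 1) (nat_lit 6) (.c (nat_lit 17) (nat_lit 3) (nat_lit 0) (nat_lit 1) (nat_lit 7) (.c (nat_lit 10192) (nat_lit 0) (nat_lit 8) (nat_lit 1) (nat_lit 10) .nil)))))

noncomputable def dW4x_c8209 : Cm := .mk (nat_lit 41) (nat_lit 8209) (nat_lit 41) (nat_lit 4) (.c (nat_lit 7) (nat_lit 1) (nat_lit 5) (nat_lit 1) (nat_lit 4) (.c (nat_lit 12) (nat_lit 1) (nat_lit 3) (nat_lit 1) (nat_lit 5) (.c (nat_lit 16) (nat_lit 1) (nat_lit 2) (nat_lit 1) (nat_lit 6) (.c (nat_lit 20) (nat_lit 3) (nat_lit 0) (nat_lit 1) (nat_lit 7) (.c (nat_lit 10192) (nat_lit 0) (nat_lit 9) (nat_lit 1) (nat_lit 10) .nil)))))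

noncomputable def dW4x_c4369 : Cm := .mk (nat_lit 47) (nat_lit 4369) (nat_lit 45) (nat_lit 10) (.c (nat_lit 7) (nat_lit 1) (nat_lit 6) (nat_lit 1) (nat_lit 10) (.c (nat_lit 8) (nat_lit 1) (nat_lit 5) (nat_lit 1) (nat_lit 11) (.c (nat_lit 9) (nat_lit 1) (nat_lit 4) (nat_lit 1) (nat_lit 12) (.c (nat_lit 13) (nat_lit 3) (nat_lit 3) (nat_lit 1) (nat_lit 13) (.c (nat_lit 17) (nat_lit 3) (nat_lit 2) (nat_lit 1) (nat_lit 16) (.c (nat_lit 20) (nat_lit 3) (nat_lit 1) (nat_lit 1) (nat_lit 19) (.c (nat_lit 23) (nat_lit 3) (nat_lit 0) (nat_lit 1) (nat_lit 22) .nil)))))))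

noncomputable def dW4x_c8194 : Cm := .mk (nat_lit 62) (nat_lit 8194) (nat_lit 55) (nat_lit 3) (.c (nat_lit 7) (nat_lit 1) (nat_lit 7) (nat_lit 1) (nat_lit 3) (.c (nat_lit 16) (nat_lit 1) (nat_lit 3) (nat_lit 1) (nat_lit 4) (.c (nat_lit 26) (nat_lit 2) (nat_lit 0) (nat_lit 1) (nat_lit 5) (.c (nat_lit 10192) (nat_lit 0) (nat_lit 10) (nat_lit 1) (nat_lit 7) .nil))))

noncomputable def dW4x_c4354 : Cm := .mk (nat_lit 66) (nat_lit 4354) (nat_lit 58) (nat_lit 6) (.c (nat_lit 8) (nat_lit 1) (nat_lit 7) (nat_lit 1) (nat_lit 6) (.c (nat_lit 10) (nat_lit 1) (nat_lit 4) (nat_lit 1) (nat_lit 7) (.c (nat_lit 17) (nat_lit 3) (nat_lit 3) (nat_lit 1) (nat_lit 8) (.c (nat_lit 26) (nat_lit 2) (nat_lit 1) (nat_lit 1) (nat_lit 11) (.c (nat_lit 28) (nat_lit 2) (nat_lit 0) (nat_lit 1) (nat_lit 13) .nil)))))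

noncomputable def dW4x_c4114 : Cm := .mk (nat_lit 75) (nat_lit 4114) (nat_lit 64) (nat_lit 6) (.c (nat_lit 9) (nat_lit 1) (nat_lit 7) (nat_lit 1) (nat_lit 6) (.c (nat_lit 10) (nat_lit 1) (nat_lit 5) (nat_lit 1) (nat_lit 7) (.c (nat_lit 20) (nat_lit 3) (nat_lit 3) (nat_lit 1) (nat_lit 8) (.c (nat_lit 26) (nat_lit 2) (nat_lit 2) (nat_lit 1) (nat_lit 11) (.c (nat_lit 30) (nat_lit 2) (nat_lit 0) (nat_lit 1) (nat_lit 13) .nil)))))

noncomputable def dW4x_c274 : Cm := .mk (nat_lit 84) (nat_lit 274) (nat_lit 70) (nat_lit 6) (.c (nat_lit 9) (nat_lit 1) (nat_lit 8) (nat_lit 1) (nat_lit 6) (.c (nat_lit 10) (nat_lit 1) (nat_lit 6) (nat_lit 1) (nat_lit 7) (.c (nat_lit 23) (nat_lit 3) (nat_lit 3) (nat_lit 1) (nat_lit 8) (.c (nat_lit 28) (nat_lit 2) (nat_lit 2) (nat_lit 1) (nat_lit 11) (.c (nat_lit 30) (nat_lit 2) (nat_lit 1) (nat_lit 1) (nat_lit 13) .nil)))))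

noncomputable def dW4x_c4099 : Cm := .mk (nat_lit 93) (nat_lit 4099) (nat_lit 76) (nat_lit 3) (.c (nat_lit 10) (nat_lit 1) (nat_lit 7) (nat_lit 1) (nat_lit 3) (.c (nat_lit 26) (nat_lit 2) (nat_lit 3) (nat_lit 1) (nat_lit 4) (.c (nat_lit 32) (nat_lit 1) (nat_lit 0) (nat_lit 1) (nat_lit 6) .nil)))

noncomputable def dW4x_c259 : Cm := .mk (nat_lit 97) (nat_lit 259) (nat_lit 79) (nat_lit 3) (.c (nat_lit 10) (nat_lit 1) (nat_lit 8) (nat_lit 1) (nat_lit 3) (.c (nat_lit 28) (nat_lit 2) (nat_lit 3) (nat_lit 1) (nat_lit 4) (.c (nat_lit 32) (nat_lit 1) (nat_lit 1) (nat_lit 1) (nat_lit 6) .nil)))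

noncomputable def dW4x_c19 : Cm := .mk (nat_lit 101) (nat_lit 19) (nat_lit 82) (nat_lit 3) (.c (nat_lit 10) (nat_lit 1) (nat_lit 9) (nat_lit 1) (nat_lit 3) (.c (nat_lit 30) (nat_lit 2) (nat_lit 3) (nat_lit 1) (nat_lit 4) (.c (nat_lit 32) (nat_lit 1) (nat_lit 2) (nat_lit 1) (nat_lit 6) .nil)))

noncomputable def dW4x_c8465 : Cm := .mk (nat_lit 105) (nat_lit 8465) (nat_lit 85) (nat_lit 19) (.c (nat_lit 11) (nat_lit 1) (nat_lit 9) (nat_lit 1) (nat_lit 19) (.c (nat_lit 12) (nat_lit 1) (nat_lit 8) (nat_lit 1) (nat_lit 20) (.c (nat_lit 13) (nat_lit 3) (nat_lit 7) (nat_lit 1) (nat_lit 21) (.c (nat_lit 16) (nat_lit 1) (nat_lit 6) (nat_lit 1) (nat_lit 24) (.c (nat_lit 17) (nat_lit 3) (nat_lit 5) (nat_lit 1) (nat_lit 25) (.c (nat_lit 20) (nat_lit 3) (nat_lit 4) (nat_lit 1) (nat_lit 28) (.c (nat_lit 33) (nat_lit 4) (nat_lit 3) (nat_lit 1) (nat_lit 31) (.c (nat_lit 37) (nat_lit 4) (nat_lit 2) (nat_lit 1) (nat_lit 35)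 (.c (nat_lit 41) (nat_lit 4) (nat_lit 1) (nat_lit 1) (nat_lit 39) (.c (nat_lit 45) (nat_lit 10) (nat_lit 0) (nat_lit 1) (nat_lit 43) (.c (nat_lit 10192) (nat_lit 0) (nat_lit 23) (nat_lit 3) (nat_lit 53) .nil)))))))))))

noncomputable def dW4x_c8450 : Cm := .mk (nat_lit 139) (nat_lit 8450) (nat_lit 104) (nat_lit 11) (.c (nat_lit 11) (nat_lit 1) (nat_lit 10) (nat_lit 1) (nat_lit 11) (.c (nat_lit 16) (nat_lit 1) (nat_lit 8) (nat_lit 1) (nat_lit 12) (.c (nat_lit 17) (nat_lit 3) (nat_lit 7) (nat_lit 1) (nat_lit 13) (.c (nat_lit 26) (nat_lit 2) (nat_lit 4) (nat_lit 1) (nat_lit 16) (.c (nat_lit 37) (nat_lit 4) (nat_lit 3) (nat_lit 1) (nat_lit 18) (.c (nat_lit 55) (nat_lit 3) (nat_lit 1) (nat_lit 1) (nat_lit 22) (.c (nat_lit 58) (nat_lit 6) (nat_lit 0) (nat_lit 1) (nat_lit 25) (.c (nat_lit 10192) (nat_lit 0) (nat_lit 28) (nat_lit 2) (nat_lit 31) .nil))))))))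

noncomputable def dW4x_c8210 : Cm := .mk (nat_lit 159) (nat_lit 8210) (nat_lit 115) (nat_lit 11) (.c (nat_lit 12) (nat_lit 1) (nat_lit 10) (nat_lit 1) (nat_lit 11) (.c (nat_lit 16) (nat_lit 1) (nat_lit 9) (nat_lit 1) (nat_lit 12) (.c (nat_lit 20) (nat_lit 3) (nat_lit 7) (nat_lit 1) (nat_lit 13) (.c (nat_lit 26) (nat_lit 2) (nat_lit 5) (nat_lit 1) (nat_lit 16) (.c (nat_lit 41) (nat_lit 4) (nat_lit 3) (nat_lit 1) (nat_lit 18) (.c (nat_lit 55) (nat_lit 3) (nat_lit 2) (nat_lit 1) (nat_lit 22) (.c (nat_lit 64) (nat_lit 6) (nat_lit 0) (nat_lit 1) (nat_lit 25) (.c (nat_lit 10192) (nat_lit 0) (nat_lit 30) (nat_lit 2) (nat_lit 31) .nil))))))))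

noncomputable def dW4x_c4370 : Cm := .mk (nat_lit 179) (nat_lit 4370) (nat_lit 126) (nat_lit 25) (.c (nat_lit 13) (nat_lit 3) (nat_lit 10) (nat_lit 1) (nat_lit 25) (.c (nat_lit 17) (nat_lit 3) (nat_lit 9) (nat_lit 1) (nat_lit 28) (.c (nat_lit 20) (nat_lit 3) (nat_lit 8) (nat_lit 1) (nat_lit 31) (.c (nat_lit 23) (nat_lit 3) (nat_lit 7) (nat_lit 1) (nat_lit 34) (.c (nat_lit 26) (nat_lit 2) (nat_lit 6) (nat_lit 1) (nat_lit 37) (.c (nat_lit 28) (nat_lit 2) (nat_lit 5) (nat_lit 1) (nat_lit 39) (.c (nat_lit 30) (nat_lit 2) (nat_lit 4) (nat_lit 1) (nat_lit 41) (.c (nat_lit 45) (nat_lit 10) (nat_lit 3) (nat_lit 1) (nat_lit 43) (.c (nat_lit 58) (nat_lit 6) (nat_lit 2) (nat_lit 1) (nat_lit 53) (.c (nat_lit 64) (nat_lit 6) (nat_lit 1) (nat_lit 1) (nat_lit 59) (.c (nat_lit 70) (nat_lit 6) (nat_lit 0) (nat_lit 1) (nat_lit 65) .nil)))))))))))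

noncomputable def dW4x_c8195 : Cm := .mk (nat_lit 225) (nat_lit 8195) (nat_lit 151) (nat_lit 5) (.c (nat_lit 16) (nat_lit 1) (nat_lit 10) (nat_lit 1) (nat_lit 5) (.c (nat_lit 26) (nat_lit 2) (nat_lit 7) (nat_lit 1) (nat_lit 6) (.c (nat_lit 55) (nat_lit 3) (nat_lit 3) (nat_lit 1) (nat_lit 8) (.c (nat_lit 76) (nat_lit 3) (nat_lit 0) (nat_lit 1) (nat_lit 11) (.c (nat_lit 10192) (nat_lit 0) (nat_lit 32) (nat_lit 1) (nat_lit 14) .nil)))))

noncomputable def dW4x_c4355 : Cm := .mk (nat_lit 234) (nat_lit 4355) (nat_lit 156) (nat_lit 11) (.c (nat_lit 17) (nat_lit 3) (nat_lit 10) (nat_lit 1) (nat_lit 11) (.c (nat_lit 26) (nat_lit 2) (nat_lit 8) (nat_lit 1) (nat_lit 14) (.c (nat_lit 28) (nat_lit 2) (nat_lit 7) (nat_lit 1) (nat_lit 16) (.c (nat_lit 32) (nat_lit 1) (nat_lit 4) (nat_lit 1) (nat_lit 18) (.c (nat_lit 58) (nat_lit 6) (nat_lit 3) (nat_lit 1) (nat_lit 19) (.c (nat_lit 76) (nat_lit 3) (nat_lit 1) (nat_lit 1)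 (nat_lit 25) (.c (nat_lit 79) (nat_lit 3) (nat_lit 0) (nat_lit 1) (nat_lit 28) .nil)))))))

noncomputable def dW4x_c4115 : Cm := .mk (nat_lit 254) (nat_lit 4115) (nat_lit 167) (nat_lit 11) (.c (nat_lit 20) (nat_lit 3) (nat_lit 10) (nat_lit 1) (nat_lit 11) (.c (nat_lit 26) (nat_lit 2) (nat_lit 9) (nat_lit 1) (nat_lit 14) (.c (nat_lit 30) (nat_lit 2) (nat_lit 7) (nat_lit 1) (nat_lit 16) (.c (nat_lit 32) (nat_lit 1) (nat_lit 5) (nat_lit 1) (nat_lit 18) (.c (nat_lit 64) (nat_lit 6) (nat_lit 3) (nat_lit 1) (nat_lit 19) (.c (nat_lit 76) (nat_lit 3) (nat_lit 2) (nat_lit 1) (nat_lit 25) (.c (nat_lit 82) (nat_lit 3) (nat_lit 0) (nat_lit 1) (nat_lit 28) .nil)))))))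

noncomputable def dW4x_c275 : Cm := .mk (nat_lit 274) (nat_lit 275) (nat_lit 178) (nat_lit 11) (.c (nat_lit 23) (nat_lit 3) (nat_lit 10) (nat_lit 1) (nat_lit 11) (.c (nat_lit 28) (nat_lit 2) (nat_lit 9) (nat_lit 1) (nat_lit 14) (.c (nat_lit 30) (nat_lit 2) (nat_lit 8) (nat_lit 1) (nat_lit 16) (.c (nat_lit 32) (nat_lit 1) (nat_lit 6) (nat_lit 1) (nat_lit 18) (.c (nat_lit 70) (nat_lit 6) (nat_lit 3) (nat_lit 1) (nat_lit 19) (.c (nat_lit 79) (nat_lit 3) (nat_lit 2) (nat_lit 1) (nat_lit 25) (.c (nat_lit 82) (nat_lit 3) (nat_lit 1) (nat_lit 1) (nat_lit 28) .nil)))))))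

noncomputable def dW4x_c8466 : Cm := .mk (nat_lit 294) (nat_lit 8466) (nat_lit 189) (nat_lit 52) (.c (nat_lit 20) (nat_lit 3) (nat_lit 17) (nat_lit 3) (nat_lit 52) (.c (nat_lit 23) (nat_lit 3) (nat_lit 16) (nat_lit 1) (nat_lit 61) (.c (nat_lit 26) (nat_lit 2) (nat_lit 13) (nat_lit 3) (nat_lit 64) (.c (nat_lit 28) (nat_lit 2) (nat_lit 12) (nat_lit 1) (nat_lit 70) (.c (nat_lit 30) (nat_lit 2) (nat_lit 11) (nat_lit 1) (nat_lit 72) (.c (nat_lit 33) (nat_lit 4) (nat_lit 10) (nat_lit 1) (nat_lit 74) (.c (nat_lit 37) (nat_lit 4) (nat_lit 9) (nat_lit 1) (nat_lit 78) (.c (nat_lit 41) (nat_lit 4) (nat_lit 8) (nat_lit 1) (nat_lit 82) (.c (nat_lit 45) (nat_lit 10) (nat_lit 7) (nat_lit 1) (nat_lit 86) (.c (nat_lit 55) (nat_lit 3) (nat_lit 6) (nat_lit 1) (nat_lit 96) (.c (nat_lit 58) (nat_lit 6) (nat_lit 5) (nat_lit 1) (nat_lit 99) (.c (nat_lit 64) (nat_lit 6) (nat_lit 4) (nat_lit 1) (nat_lit 105) (.c (nat_lit 85) (nat_lit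 19) (nat_lit 3) (nat_lit 1) (nat_lit 111) (.c (nat_lit 104) (nat_lit 11) (nat_lit 2) (nat_lit 1) (nat_lit 130) (.c (nat_lit 115) (nat_lit 11) (nat_lit 1) (nat_lit 1) (nat_lit 141) (.c (nat_lit 126) (nat_lit 25) (nat_lit 0) (nat_lit 1) (nat_lit 152) (.c (nat_lit 10192) (nat_lit 0) (nat_lit 70) (nat_lit 6) (nat_lit 177) .nil)))))))))))))))))

noncomputable def dW4x_c8451 : Cm := .mk (nat_lit 414) (nat_lit 8451) (nat_lit 241) (nat_lit 21) (.c (nat_lit 26) (nat_lit 2) (nat_lit 17) (nat_lit 3) (nat_lit 21) (.c (nat_lit 28) (nat_lit 2) (nat_lit 16) (nat_lit 1) (nat_lit 27) (.c (nat_lit 32) (nat_lit 1) (nat_lit 11) (nat_lit 1) (nat_lit 29) (.c (nat_lit 37) (nat_lit 4) (nat_lit 10) (nat_lit 1) (nat_lit 30) (.c (nat_lit 55) (nat_lit 3) (nat_lit 8) (nat_lit 1) (nat_lit 34) (.c (nat_lit 58) (nat_lit 6) (nat_lit 7) (nat_lit 1) (nat_lit 37) (.c (nat_lit 76) (nat_lit 3) (nat_lit 4) (nat_lit 1) (nat_lit 43) (.c (nat_lit 104)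 (nat_lit 11) (nat_lit 3) (nat_lit 1) (nat_lit 46) (.c (nat_lit 151) (nat_lit 5) (nat_lit 1) (nat_lit 1) (nat_lit 57) (.c (nat_lit 156) (nat_lit 11) (nat_lit 0) (nat_lit 1) (nat_lit 62) (.c (nat_lit 10192) (nat_lit 0) (nat_lit 79) (nat_lit 3) (nat_lit 73) .nil)))))))))))

noncomputable def dW4x_c8211 : Cm := .mk (nat_lit 463) (nat_lit 8211) (nat_lit 262) (nat_lit 21) (.c (nat_lit 26) (nat_lit 2) (nat_lit 20) (nat_lit 3) (nat_lit 21) (.c (nat_lit 30) (nat_lit 2) (nat_lit 16) (nat_lit 1) (nat_lit 27) (.c (nat_lit 32) (nat_lit 1) (nat_lit 12) (nat_lit 1) (nat_lit 29) (.c (nat_lit 41) (nat_lit 4) (nat_lit 10) (nat_lit 1) (nat_lit 30) (.c (nat_lit 55) (nat_lit 3) (nat_lit 9) (nat_lit 1) (nat_lit 34) (.c (nat_lit 64) (nat_lit 6) (nat_lit 7) (nat_lit 1) (nat_lit 37) (.c (nat_lit 76) (nat_lit 3) (nat_lit 5) (nat_lit 1) (nat_lit 43) (.c (nat_lit 115) (nat_lit 11) (nat_lit 3) (nat_lit 1) (nat_lit 46) (.c (nat_lit 151)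 (nat_lit 5) (nat_lit 2) (nat_lit 1) (nat_lit 57) (.c (nat_lit 167) (nat_lit 11) (nat_lit 0) (nat_lit 1) (nat_lit 62) (.c (nat_lit 10192) (nat_lit 0) (nat_lit 82) (nat_lit 3) (nat_lit 73) .nil)))))))))))

noncomputable def dW4x_c4371 : Cm := .mk (nat_lit 512) (nat_lit 4371) (nat_lit 283) (nat_lit 47) (.c (nat_lit 26) (nat_lit 2) (nat_lit 23) (nat_lit 3) (nat_lit 47) (.c (nat_lit 28) (nat_lit 2) (nat_lit 20) (nat_lit 3) (nat_lit 53) (.c (nat_lit 30) (nat_lit 2) (nat_lit 17) (nat_lit 3) (nat_lit 59) (.c (nat_lit 32) (nat_lit 1) (nat_lit 13) (nat_lit 3) (nat_lit 65) (.c (nat_lit 45) (nat_lit 10) (nat_lit 10) (nat_lit 1) (nat_lit 68) (.c (nat_lit 58) (nat_lit 6) (nat_lit 9) (nat_lit 1) (nat_lit 78) (.c (nat_lit 64) (nat_lit 6) (nat_lit 8) (nat_lit 1) (nat_lit 84) (.c (nat_lit 70) (nat_lit 6) (nat_lit 7) (nat_lit 1) (nat_lit 90) (.c (nat_lit 76) (nat_lit 3) (nat_lit 6) (nat_lit 1) (nat_lit 96) (.c (nat_lit 79) (nat_lit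 3) (nat_lit 5) (nat_lit 1) (nat_lit 99) (.c (nat_lit 82) (nat_lit 3) (nat_lit 4) (nat_lit 1) (nat_lit 102) (.c (nat_lit 126) (nat_lit 25) (nat_lit 3) (nat_lit 1) (nat_lit 105) (.c (nat_lit 156) (nat_lit 11) (nat_lit 2) (nat_lit 1) (nat_lit 130) (.c (nat_lit 167) (nat_lit 11) (nat_lit 1) (nat_lit 1) (nat_lit 141) (.c (nat_lit 178) (nat_lit 11) (nat_lit 0) (nat_lit 1) (nat_lit 152) .nil)))))))))))))))

noncomputable def dW4x_i0 : IL := (.s false (nat_lit 1) (nat_lit 7) (nat_lit 2) (nat_lit 1) (nat_lit 3) true (nat_lit 1) true (nat_lit 7) true (nat_lit 3) true (nat_lit 8) true (nat_lit 9) (.s false (nat_lit 1) (nat_lit 7) (nat_lit 2) (nat_lit 3) (nat_lit 1) true (nat_lit 4) true (nat_lit 9) true (nat_lit 3) true (nat_lit 8) true (nat_lit 7) (.s false (nat_lit 1) (nat_lit 8) (nat_lit 3) (nat_lit 0) (nat_lit 2) true (nat_lit 1) true (nat_lit 8) true (nat_lit 2) true (nat_lit 7) true (nat_lit 10) (.s true (nat_lit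 2) (nat_lit 9) (nat_lit 0) (nat_lit 1) (nat_lit 3) true (nat_lit 3) true (nat_lit 7) true (nat_lit 1) true (nat_lit 10) true (nat_lit 9) (.s true (nat_lit 1) (nat_lit 9) (nat_lit 0) (nat_lit 3) (nat_lit 1) true (nat_lit 6) true (nat_lit 9) true (nat_lit 1) true (nat_lit 10) true (nat_lit 7) (.s true (nat_lit 1) (nat_lit 9) (nat_lit 3) (nat_lit 1) (nat_lit 0) true (nat_lit 3) true (nat_lit 10) true (nat_lit 1) true (nat_lit 7) true (nat_lit 9) (.e false (nat_lit 144) (nat_lit 45) (nat_lit 3) (nat_lit 7) (.e true (nat_lit 72) (nat_lit 59) (nat_lit 2) (nat_lit 8) (.e false (nat_lit 72) (nat_lit 60) (nat_lit 2) (nat_lit 8) (.e true (nat_lit 108) (nat_lit 61) (nat_lit 2) (nat_lit 8) (.e false (nat_lit 108) (nat_lit 63) (nat_lit 2) (nat_lit 8) (.e false (nat_lit 36) (nat_lit 48) (nat_lit 3) (nat_lit 7) (.e true (nat_lit 72) (nat_lit 49) (nat_lit 3) (nat_lit 7) (.e true (nat_lit 36) (nat_lit 64) (nat_lit 1) (nat_lit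 9) (.e false (nat_lit 36) (nat_lit 68) (nat_lit 1) (nat_lit 9) (.e false (nat_lit 36) (nat_lit 69) (nat_lit 1) (nat_lit 9) (.e false (nat_lit 36) (nat_lit 52) (nat_lit 3) (nat_lit 7) (.e true (nat_lit 36) (nat_lit 67) (nat_lit 1) (nat_lit 9) (.e true (nat_lit 36) (nat_lit 26) (nat_lit 6) (nat_lit 4) (.e false (nat_lit 36) (nat_lit 54) (nat_lit 3) (nat_lit 7) (.e false (nat_lit 36) (nat_lit 70) (nat_lit 0) (nat_lit 10) (.e true (nat_lit 36) (nat_lit 74) (nat_lit 0) (nat_lit 10) (.e true (nat_lit 36) (nat_lit 47) (nat_lit 3) (nat_lit 7) (.e false (nat_lit 36) (nat_lit 46) (nat_lit 3) (nat_lit 7) (.e false (nat_lit 36) (nat_lit 50) (nat_lit 3) (nat_lit 7) .nil)))))))))))))))))))))))))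

noncomputable def dW4x_i1 : IL := (.e true (nat_lit 72) (nat_lit 111) (nat_lit 2) (nat_lit 13) (.e false (nat_lit 216) (nat_lit 126) (nat_lit 0) (nat_lit 15) (.e true (nat_lit 216) (nat_lit 130) (nat_lit 0) (nat_lit 15) (.e false (nat_lit 144) (nat_lit 134) (nat_lit 0) (nat_lit 15) (.e false (nat_lit 144) (nat_lit 135) (nat_lit 0) (nat_lit 15) (.e true (nat_lit 144) (nat_lit 128) (nat_lit 0) (nat_lit 15) (.e false (nat_lit 72) (nat_lit 129) (nat_lit 0) (nat_lit 15) (.e true (nat_lit 72) (nat_lit 131) (nat_lit 0) (nat_lit 15) (.e false (nat_lit 72) (nat_lit 137) (nat_lit 0) (nat_lit 15) (.e true (nat_lit 72) (nat_lit 138) (nat_lit 0) (nat_lit 15) (.e true (nat_lit 144) (nat_lit 139) (nat_lit 0) (nat_lit 15) (.e false (nat_lit 288) (nat_lit 141) (nat_lit 0) (nat_lit 15) (.e true (nat_lit 72) (nat_lit 142) (nat_lit 0) (nat_lit 15) (.e false (nat_lit 72) (nat_lit 144) (nat_lit 0) (nat_lit 15) (.e false (nat_lit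 36) (nat_lit 145) (nat_lit 0) (nat_lit 15) (.e true (nat_lit 72) (nat_lit 146) (nat_lit 0) (nat_lit 15) (.e false (nat_lit 72) (nat_lit 147) (nat_lit 0) (nat_lit 15) (.e false (nat_lit 72) (nat_lit 150) (nat_lit 0) (nat_lit 15) (.e false (nat_lit 216) (nat_lit 136) (nat_lit 0) (nat_lit 15) (.e true (nat_lit 72) (nat_lit 140) (nat_lit 0) (nat_lit 15) (.e false (nat_lit 144) (nat_lit 132) (nat_lit 0) (nat_lit 15) (.e true (nat_lit 36) (nat_lit 124) (nat_lit 1) (nat_lit 14) (.e false (nat_lit 72) (nat_lit 109) (nat_lit 2) (nat_lit 13) (.e false (nat_lit 144) (nat_lit 114) (nat_lit 2) (nat_lit 13) (.e true (nat_lit 72) (nat_lit 108) (nat_lit 2) (nat_lit 13) .nil)))))))))))))))))))))))))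

noncomputable def dW4x_i2 : IL := (.s false (nat_lit 2) (nat_lit 27) (nat_lit 1) (nat_lit 0) (nat_lit 2) true (nat_lit 9) true (nat_lit 13) false (nat_lit 2) true (nat_lit 14) true (nat_lit 15) (.s false (nat_lit 2) (nat_lit 27) (nat_lit 1) (nat_lit 2) (nat_lit 0) true (nat_lit 11) true (nat_lit 15) false (nat_lit 2) true (nat_lit 14) true (nat_lit 13) (.s false (nat_lit 1) (nat_lit 29) (nat_lit 2) (nat_lit 0) (nat_lit 0) true (nat_lit 10) true (nat_lit 15) false (nat_lit 3) true (nat_lit 13) true (nat_lit 15) (.s true (nat_lit 1) (nat_lit 31) (nat_lit 0) (nat_lit 0) (nat_lit 1) true (nat_lit 11) true (nat_lit 14) false (nat_lit 4) true (nat_lit 15) true (nat_lit 15) (.e false (nat_lit 24) (nat_lit 86) (nat_lit 3) (nat_lit 12) (.e true (nat_lit 96) (nat_lit 87) (nat_lit 3) (nat_lit 12) (.e true (nat_lit 72) (nat_lit 88) (nat_lit 3) (nat_lit 12) (.e false (nat_lit 120) (nat_lit 89) (nat_lit 3) (nat_lit 12)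 (.e true (nat_lit 48) (nat_lit 90) (nat_lit 3) (nat_lit 12) (.e true (nat_lit 72) (nat_lit 91) (nat_lit 3) (nat_lit 12) (.e true (nat_lit 72) (nat_lit 92) (nat_lit 3) (nat_lit 12) (.e true (nat_lit 120) (nat_lit 93) (nat_lit 3) (nat_lit 12) (.e false (nat_lit 48) (nat_lit 94) (nat_lit 3) (nat_lit 12) (.e true (nat_lit 168) (nat_lit 95) (nat_lit 3) (nat_lit 12) (.e false (nat_lit 24) (nat_lit 96) (nat_lit 3) (nat_lit 12) (.e true (nat_lit 48) (nat_lit 97) (nat_lit 3) (nat_lit 12) (.e true (nat_lit 120) (nat_lit 98) (nat_lit 3) (nat_lit 12) (.e false (nat_lit 48) (nat_lit 99) (nat_lit 3) (nat_lit 12) (.e false (nat_lit 48) (nat_lit 100) (nat_lit 3) (nat_lit 12) (.e false (nat_lit 48) (nat_lit 101) (nat_lit 3) (nat_lit 12) (.e false (nat_lit 96) (nat_lit 102) (nat_lit 3) (nat_lit 12) (.e false (nat_lit 24) (nat_lit 103) (nat_lit 3) (nat_lit 12) (.e true (nat_lit 72) (nat_lit 46) (nat_lit 7) (nat_lit 8) (.e false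 (nat_lit 144) (nat_lit 50) (nat_lit 7) (nat_lit 8) (.e false (nat_lit 72) (nat_lit 110) (nat_lit 2) (nat_lit 13) dW4x_i1)))))))))))))))))))))))))

noncomputable def dW4x_i3 : IL := (.e false (nat_lit 192) (nat_lit 94) (nat_lit 3) (nat_lit 12) (.e true (nat_lit 120) (nat_lit 96) (nat_lit 3) (nat_lit 12) (.e false (nat_lit 168) (nat_lit 97) (nat_lit 3) (nat_lit 12) (.e false (nat_lit 96) (nat_lit 103) (nat_lit 3) (nat_lit 12) (.e false (nat_lit 144) (nat_lit 128) (nat_lit 0) (nat_lit 15) (.e true (nat_lit 72) (nat_lit 129) (nat_lit 0) (nat_lit 15) (.e false (nat_lit 360) (nat_lit 130) (nat_lit 0) (nat_lit 15) (.e true (nat_lit 72) (nat_lit 131) (nat_lit 0) (nat_lit 15) (.e true (nat_lit 288) (nat_lit 133) (nat_lit 0) (nat_lit 15) (.e true (nat_lit 288) (nat_lit 135) (nat_lit 0) (nat_lit 15) (.e true (nat_lit 360) (nat_lit 136) (nat_lit 0) (nat_lit 15) (.e false (nat_lit 216) (nat_lit 139) (nat_lit 0) (nat_lit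 15) (.e false (nat_lit 216) (nat_lit 140) (nat_lit 0) (nat_lit 15) (.e true (nat_lit 360) (nat_lit 141) (nat_lit 0) (nat_lit 15) (.e false (nat_lit 432) (nat_lit 142) (nat_lit 0) (nat_lit 15) (.e true (nat_lit 144) (nat_lit 144) (nat_lit 0) (nat_lit 15) (.e true (nat_lit 288) (nat_lit 145) (nat_lit 0) (nat_lit 15) (.e false (nat_lit 288) (nat_lit 146) (nat_lit 0) (nat_lit 15) (.e false (nat_lit 288) (nat_lit 150) (nat_lit 0) (nat_lit 15) (.e true (nat_lit 288) (nat_lit 126) (nat_lit 0) (nat_lit 15) (.e false (nat_lit 144) (nat_lit 127) (nat_lit 0) (nat_lit 15) (.e false (nat_lit 144) (nat_lit 137) (nat_lit 0) (nat_lit 15) (.e true (nat_lit 144) (nat_lit 138) (nat_lit 0) (nat_lit 15) (.e true (nat_lit 144) (nat_lit 147) (nat_lit 0) (nat_lit 15) (.e false (nat_lit 72) (nat_lit 149) (nat_lit 0) (nat_lit 15) .nil)))))))))))))))))))))))))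

noncomputable def dW4x_i4 : IL := (.s false (nat_lit 2) (nat_lit 20) (nat_lit 1) (nat_lit 3) (nat_lit 0) true (nat_lit 11) true (nat_lit 15) false (nat_lit 0) true (nat_lit 14) true (nat_lit 12) (.s false (nat_lit 2) (nat_lit 21) (nat_lit 1) (nat_lit 3) (nat_lit 0) true (nat_lit 11) true (nat_lit 15) false (nat_lit 0) true (nat_lit 14) true (nat_lit 12) (.s false (nat_lit 2) (nat_lit 22) (nat_lit 3) (nat_lit 0) (nat_lit 1) true (nat_lit 7) true (nat_lit 14) false (nat_lit 0) true (nat_lit 12) true (nat_lit 15) (.s true (nat_lit 2) (nat_lit 20) (nat_lit 3) (nat_lit 1) (nat_lit 0) true (nat_lit 8) true (nat_lit 15) false (nat_lit 0) true (nat_lit 12) true (nat_lit 14) (.s true (nat_lit 2) (nat_lit 21) (nat_lit 3) (nat_lit 1) (nat_lit 0) true (nat_lit 8) true (nat_lit 15) false (nat_lit 0) true (nat_lit 12) true (nat_lit 14) (.s false (nat_lit 2) (nat_lit 23) (nat_lit 0) (nat_lit 0) (nat_lit 3) true (nat_lit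 8) true (nat_lit 12) false (nat_lit 1) true (nat_lit 15) true (nat_lit 15) (.s false (nat_lit 1) (nat_lit 27) (nat_lit 0) (nat_lit 2) (nat_lit 1) true (nat_lit 11) true (nat_lit 14) false (nat_lit 2) true (nat_lit 15) true (nat_lit 13) (.s true (nat_lit 2) (nat_lit 27) (nat_lit 1) (nat_lit 0) (nat_lit 2) true (nat_lit 9) true (nat_lit 13) false (nat_lit 2) true (nat_lit 14) true (nat_lit 15) (.s true (nat_lit 1) (nat_lit 27) (nat_lit 1) (nat_lit 2) (nat_lit 0) true (nat_lit 11) true (nat_lit 15) false (nat_lit 2) true (nat_lit 14) true (nat_lit 13) (.s false (nat_lit 1) (nat_lit 27) (nat_lit 2) (nat_lit 0) (nat_lit 1) true (nat_lit 9) true (nat_lit 14) false (nat_lit 2) true (nat_lit 13) true (nat_lit 15) (.s false (nat_lit 2) (nat_lit 28) (nat_lit 0) (nat_lit 0) (nat_lit 2) true (nat_lit 10) true (nat_lit 13) false (nat_lit 3) true (nat_lit 15) true (nat_lit 15) (.s false (nat_lit 2) (nat_lit 29) (nat_lit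 2) (nat_lit 0) (nat_lit 0) true (nat_lit 10) true (nat_lit 15) false (nat_lit 3) true (nat_lit 13) true (nat_lit 15) (.s true (nat_lit 2) (nat_lit 31) (nat_lit 0) (nat_lit 0) (nat_lit 1) true (nat_lit 11) true (nat_lit 14) false (nat_lit 4) true (nat_lit 15) true (nat_lit 15) (.e true (nat_lit 264) (nat_lit 86) (nat_lit 3) (nat_lit 12) (.e false (nat_lit 216) (nat_lit 88) (nat_lit 3) (nat_lit 12) (.e false (nat_lit 48) (nat_lit 89) (nat_lit 3) (nat_lit 12) (.e true (nat_lit 192) (nat_lit 90) (nat_lit 3) (nat_lit 12) (.e true (nat_lit 48) (nat_lit 93) (nat_lit 3) (nat_lit 12) (.e false (nat_lit 120) (nat_lit 95) (nat_lit 3) (nat_lit 12) (.e false (nat_lit 96) (nat_lit 98) (nat_lit 3) (nat_lit 12) (.e false (nat_lit 48) (nat_lit 99) (nat_lit 3) (nat_lit 12) (.e true (nat_lit 96) (nat_lit 100) (nat_lit 3) (nat_lit 12) (.e true (nat_lit 96) (nat_lit 101) (nat_lit 3) (nat_lit 12) (.e true (nat_lit 48) (nat_lit 102)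 (nat_lit 3) (nat_lit 12) (.e false (nat_lit 336) (nat_lit 87) (nat_lit 3) (nat_lit 12) dW4x_i3)))))))))))))))))))))))))

noncomputable def dW4x_i5 : IL := (.s false (nat_lit 2) (nat_lit 9) (nat_lit 1) (nat_lit 0) (nat_lit 7) true (nat_lit 0) true (nat_lit 8) true (nat_lit 6) true (nat_lit 14) true (nat_lit 15) (.s true (nat_lit 4) (nat_lit 9) (nat_lit 3) (nat_lit 4) (nat_lit 0) true (nat_lit 8) true (nat_lit 15) true (nat_lit 6) true (nat_lit 12) true (nat_lit 11) (.s false (nat_lit 2) (nat_lit 9) (nat_lit 4) (nat_lit 3) (nat_lit 0) true (nat_lit 4) true (nat_lit 15) true (nat_lit 6) true (nat_lit 11) true (nat_lit 12) (.s true (nat_lit 4) (nat_lit 9) (nat_lit 8) (nat_lit 0) (nat_lit 0) true (nat_lit 0) true (nat_lit 15) true (nat_lit 6) true (nat_lit 7) true (nat_lit 15) (.s false (nat_lit 1) (nat_lit 10) (nat_lit 0) (nat_lit 0) (nat_lit 6) true (nat_lit 2) true (nat_lit 9) true (nat_lit 5) true (nat_lit 15)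 true (nat_lit 15) (.s true (nat_lit 2) (nat_lit 10) (nat_lit 0) (nat_lit 6) (nat_lit 0) false (nat_lit 16) true (nat_lit 15) true (nat_lit 5) true (nat_lit 15) true (nat_lit 9) (.s true (nat_lit 2) (nat_lit 10) (nat_lit 1) (nat_lit 5) (nat_lit 0) true (nat_lit 11) true (nat_lit 15) true (nat_lit 5) true (nat_lit 14) true (nat_lit 10) (.s true (nat_lit 2) (nat_lit 10) (nat_lit 5) (nat_lit 1) (nat_lit 0) true (nat_lit 3) true (nat_lit 15) true (nat_lit 5) true (nat_lit 10) true (nat_lit 14) (.s true (nat_lit 2) (nat_lit 11) (nat_lit 2) (nat_lit 3) (nat_lit 3) true (nat_lit 6) true (nat_lit 12) true (nat_lit 4) true (nat_lit 13) true (nat_lit 12) (.s false (nat_lit 2) (nat_lit 15) (nat_lit 3) (nat_lit 0) (nat_lit 3) true (nat_lit 5) true (nat_lit 12) true (nat_lit 2) true (nat_lit 12) true (nat_lit 15) (.s true (nat_lit 2) (nat_lit 13) (nat_lit 3) (nat_lit 3) (nat_lit 0) true (nat_lit 8) true (nat_lit 15) true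 (nat_lit 2) true (nat_lit 12) true (nat_lit 12) (.s false (nat_lit 2) (nat_lit 16) (nat_lit 1) (nat_lit 2) (nat_lit 3) true (nat_lit 7) true (nat_lit 12) true (nat_lit 1) true (nat_lit 14) true (nat_lit 13) (.s false (nat_lit 2) (nat_lit 16) (nat_lit 1) (nat_lit 3) (nat_lit 2) true (nat_lit 9) true (nat_lit 13) true (nat_lit 1) true (nat_lit 14) true (nat_lit 12) (.s false (nat_lit 2) (nat_lit 16) (nat_lit 2) (nat_lit 1) (nat_lit 3) true (nat_lit 6) true (nat_lit 12) true (nat_lit 1) true (nat_lit 13) true (nat_lit 14) (.s false (nat_lit 2) (nat_lit 16) (nat_lit 3) (nat_lit 1) (nat_lit 2) true (nat_lit 6) true (nat_lit 13) true (nat_lit 1) true (nat_lit 12) true (nat_lit 14) (.s true (nat_lit 2) (nat_lit 17) (nat_lit 0) (nat_lit 2) (nat_lit 3) true (nat_lit 8) true (nat_lit 12) true (nat_lit 0) true (nat_lit 15) true (nat_lit 13) (.s true (nat_lit 6) (nat_lit 19) (nat_lit 0) (nat_lit 2) (nat_lit 3) true (nat_lit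 8) true (nat_lit 12) true (nat_lit 0) true (nat_lit 15) true (nat_lit 13) (.s true (nat_lit 2) (nat_lit 18) (nat_lit 0) (nat_lit 3) (nat_lit 2) true (nat_lit 10) true (nat_lit 13) true (nat_lit 0) true (nat_lit 15) true (nat_lit 12) (.s true (nat_lit 4) (nat_lit 19) (nat_lit 0) (nat_lit 3) (nat_lit 2) true (nat_lit 10) true (nat_lit 13) true (nat_lit 0) true (nat_lit 15) true (nat_lit 12) (.s false (nat_lit 6) (nat_lit 17) (nat_lit 2) (nat_lit 0) (nat_lit 3) true (nat_lit 6) true (nat_lit 12) true (nat_lit 0) true (nat_lit 13) true (nat_lit 15) (.s true (nat_lit 6) (nat_lit 19) (nat_lit 2) (nat_lit 0) (nat_lit 3) true (nat_lit 6) true (nat_lit 12) true (nat_lit 0) true (nat_lit 13) true (nat_lit 15) (.s true (nat_lit 6) (nat_lit 19) (nat_lit 2) (nat_lit 3) (nat_lit 0) true (nat_lit 10) true (nat_lit 15) true (nat_lit 0) true (nat_lit 13) true (nat_lit 12) (.s true (nat_lit 2) (nat_lit 18) (nat_lit 3) (nat_lit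 0) (nat_lit 2) true (nat_lit 6) true (nat_lit 13) true (nat_lit 0) true (nat_lit 12) true (nat_lit 15) (.s true (nat_lit 2) (nat_lit 19) (nat_lit 3) (nat_lit 2) (nat_lit 0) true (nat_lit 8) true (nat_lit 15) true (nat_lit 0) true (nat_lit 12) true (nat_lit 13) (.s true (nat_lit 2) (nat_lit 20) (nat_lit 1) (nat_lit 0) (nat_lit 3) true (nat_lit 7) true (nat_lit 12) false (nat_lit 0) true (nat_lit 14) true (nat_lit 15) dW4x_i4)))))))))))))))))))))))))

noncomputable def dW4x_i6 : IL := (.e true (nat_lit 192) (nat_lit 128) (nat_lit 0) (nat_lit 15) (.e false (nat_lit 264) (nat_lit 129) (nat_lit 0) (nat_lit 15) (.e false (nat_lit 120) (nat_lit 131) (nat_lit 0) (nat_lit 15) (.e false (nat_lit 480) (nat_lit 133) (nat_lit 0) (nat_lit 15) (.e true (nat_lit 168) (nat_lit 137) (nat_lit 0) (nat_lit 15) (.e false (nat_lit 168) (nat_lit 138) (nat_lit 0) (nat_lit 15) (.e true (nat_lit 696) (nat_lit 142) (nat_lit 0) (nat_lit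 15) (.e false (nat_lit 312) (nat_lit 144) (nat_lit 0) (nat_lit 15) (.e false (nat_lit 408) (nat_lit 145) (nat_lit 0) (nat_lit 15) (.e true (nat_lit 312) (nat_lit 146) (nat_lit 0) (nat_lit 15) (.e false (nat_lit 120) (nat_lit 147) (nat_lit 0) (nat_lit 15) (.e true (nat_lit 192) (nat_lit 149) (nat_lit 0) (nat_lit 15) (.e true (nat_lit 552) (nat_lit 150) (nat_lit 0) (nat_lit 15) (.e false (nat_lit 576) (nat_lit 136) (nat_lit 0) (nat_lit 15) (.e true (nat_lit 360) (nat_lit 140) (nat_lit 0) (nat_lit 15) (.e false (nat_lit 504) (nat_lit 141) (nat_lit 0) (nat_lit 15) (.e false (nat_lit 144) (nat_lit 132) (nat_lit 0) (nat_lit 15) (.e true (nat_lit 72) (nat_lit 139) (nat_lit 0) (nat_lit 15) (.e true (nat_lit 72) (nat_lit 124) (nat_lit 1) (nat_lit 14) (.e true (nat_lit 216) (nat_lit 109) (nat_lit 2) (nat_lit 13) (.e false (nat_lit 144) (nat_lit 50) (nat_lit 7) (nat_lit 8) (.e false (nat_lit 216) (nat_lit 111) (nat_lit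 2) (nat_lit 13) (.e true (nat_lit 216) (nat_lit 110) (nat_lit 2) (nat_lit 13) (.e true (nat_lit 144) (nat_lit 114) (nat_lit 2) (nat_lit 13) (.e false (nat_lit 72) (nat_lit 108) (nat_lit 2) (nat_lit 13) .nil)))))))))))))))))))))))))

noncomputable def dW4x_i7 : IL := (.s true (nat_lit 2) (nat_lit 29) (nat_lit 2) (nat_lit 0) (nat_lit 0) true (nat_lit 10) true (nat_lit 15) false (nat_lit 3) true (nat_lit 13) true (nat_lit 15) (.e false (nat_lit 144) (nat_lit 86) (nat_lit 3) (nat_lit 12) (.e true (nat_lit 72) (nat_lit 88) (nat_lit 3) (nat_lit 12) (.e true (nat_lit 288) (nat_lit 89) (nat_lit 3) (nat_lit 12) (.e false (nat_lit 288) (nat_lit 90) (nat_lit 3) (nat_lit 12) (.e false (nat_lit 216) (nat_lit 91) (nat_lit 3) (nat_lit 12) (.e false (nat_lit 216) (nat_lit 92) (nat_lit 3) (nat_lit 12) (.e false (nat_lit 288) (nat_lit 93) (nat_lit 3) (nat_lit 12) (.e false (nat_lit 144) (nat_lit 95) (nat_lit 3) (nat_lit 12)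 (.e false (nat_lit 216) (nat_lit 98) (nat_lit 3) (nat_lit 12) (.e true (nat_lit 216) (nat_lit 99) (nat_lit 3) (nat_lit 12) (.e false (nat_lit 432) (nat_lit 100) (nat_lit 3) (nat_lit 12) (.e true (nat_lit 216) (nat_lit 102) (nat_lit 3) (nat_lit 12) (.e true (nat_lit 288) (nat_lit 87) (nat_lit 3) (nat_lit 12) (.e false (nat_lit 72) (nat_lit 85) (nat_lit 3) (nat_lit 12) (.e true (nat_lit 288) (nat_lit 94) (nat_lit 3) (nat_lit 12) (.e false (nat_lit 144) (nat_lit 96) (nat_lit 3) (nat_lit 12) (.e true (nat_lit 144) (nat_lit 97) (nat_lit 3) (nat_lit 12) (.e true (nat_lit 72) (nat_lit 103) (nat_lit 3) (nat_lit 12) (.e false (nat_lit 72) (nat_lit 46) (nat_lit 7) (nat_lit 8) (.e false (nat_lit 408) (nat_lit 126) (nat_lit 0) (nat_lit 15) (.e true (nat_lit 888) (nat_lit 130) (nat_lit 0) (nat_lit 15) (.e false (nat_lit 144) (nat_lit 134) (nat_lit 0) (nat_lit 15) (.e false (nat_lit 624) (nat_lit 135) (nat_lit 0) (nat_lit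 15) (.e true (nat_lit 240) (nat_lit 127) (nat_lit 0) (nat_lit 15) dW4x_i6)))))))))))))))))))))))))

noncomputable def dW4x_i8 : IL := (.s false (nat_lit 4) (nat_lit 8) (nat_lit 5) (nat_lit 3) (nat_lit 0) true (nat_lit 3) true (nat_lit 15) true (nat_lit 7) true (nat_lit 10) true (nat_lit 12) (.s false (nat_lit 4) (nat_lit 9) (nat_lit 8) (nat_lit 0) (nat_lit 0) true (nat_lit 0) true (nat_lit 15) true (nat_lit 6) true (nat_lit 7) true (nat_lit 15) (.s true (nat_lit 1) (nat_lit 10) (nat_lit 0) (nat_lit 0) (nat_lit 6) true (nat_lit 2) true (nat_lit 9) true (nat_lit 5) true (nat_lit 15) true (nat_lit 15) (.s false (nat_lit 1) (nat_lit 10) (nat_lit 0) (nat_lit 6) (nat_lit 0) false (nat_lit 16) true (nat_lit 15) true (nat_lit 5) true (nat_lit 15) true (nat_lit 9) (.s false (nat_lit 2) (nat_lit 10) (nat_lit 1) (nat_lit 5) (nat_lit 0) true (nat_lit 11) true (nat_lit 15) true (nat_lit 5) true (nat_lit 14) true (nat_lit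 10) (.s false (nat_lit 2) (nat_lit 10) (nat_lit 5) (nat_lit 1) (nat_lit 0) true (nat_lit 3) true (nat_lit 15) true (nat_lit 5) true (nat_lit 10) true (nat_lit 14) (.s false (nat_lit 2) (nat_lit 12) (nat_lit 1) (nat_lit 3) (nat_lit 3) true (nat_lit 7) true (nat_lit 12) true (nat_lit 3) true (nat_lit 14) true (nat_lit 12) (.s true (nat_lit 1) (nat_lit 15) (nat_lit 0) (nat_lit 3) (nat_lit 3) true (nat_lit 8) true (nat_lit 12) true (nat_lit 2) true (nat_lit 15) true (nat_lit 12) (.s true (nat_lit 1) (nat_lit 15) (nat_lit 3) (nat_lit 0) (nat_lit 3) true (nat_lit 5) true (nat_lit 12) true (nat_lit 2) true (nat_lit 12) true (nat_lit 15) (.s false (nat_lit 1) (nat_lit 15) (nat_lit 3) (nat_lit 3) (nat_lit 0) true (nat_lit 8) true (nat_lit 15) true (nat_lit 2) true (nat_lit 12) true (nat_lit 12) (.s false (nat_lit 8) (nat_lit 17) (nat_lit 0) (nat_lit 2) (nat_lit 3) true (nat_lit 8) true (nat_lit 12) true (nat_lit 0)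 true (nat_lit 15) true (nat_lit 13) (.s false (nat_lit 2) (nat_lit 19) (nat_lit 0) (nat_lit 2) (nat_lit 3) true (nat_lit 8) true (nat_lit 12) true (nat_lit 0) true (nat_lit 15) true (nat_lit 13) (.s false (nat_lit 4) (nat_lit 19) (nat_lit 2) (nat_lit 0) (nat_lit 3) true (nat_lit 6) true (nat_lit 12) true (nat_lit 0) true (nat_lit 13) true (nat_lit 15) (.s false (nat_lit 8) (nat_lit 17) (nat_lit 2) (nat_lit 3) (nat_lit 0) true (nat_lit 10) true (nat_lit 15) true (nat_lit 0) true (nat_lit 13) true (nat_lit 12) (.s false (nat_lit 2) (nat_lit 19) (nat_lit 2) (nat_lit 3) (nat_lit 0) true (nat_lit 10) true (nat_lit 15) true (nat_lit 0) true (nat_lit 13) true (nat_lit 12) (.s false (nat_lit 8) (nat_lit 17) (nat_lit 3) (nat_lit 2) (nat_lit 0) true (nat_lit 8) true (nat_lit 15) true (nat_lit 0) true (nat_lit 12) true (nat_lit 13) (.s true (nat_lit 2) (nat_lit 19) (nat_lit 3) (nat_lit 2) (nat_lit 0) true (nat_lit 8)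 true (nat_lit 15) true (nat_lit 0) true (nat_lit 12) true (nat_lit 13) (.s false (nat_lit 4) (nat_lit 20) (nat_lit 1) (nat_lit 0) (nat_lit 3) true (nat_lit 7) true (nat_lit 12) false (nat_lit 0) true (nat_lit 14) true (nat_lit 15) (.s false (nat_lit 2) (nat_lit 20) (nat_lit 1) (nat_lit 3) (nat_lit 0) true (nat_lit 11) true (nat_lit 15) false (nat_lit 0) true (nat_lit 14) true (nat_lit 12) (.s true (nat_lit 2) (nat_lit 27) (nat_lit 0) (nat_lit 2) (nat_lit 1) true (nat_lit 11) true (nat_lit 14) false (nat_lit 2) true (nat_lit 15) true (nat_lit 13) (.s true (nat_lit 2) (nat_lit 27) (nat_lit 1) (nat_lit 2) (nat_lit 0) true (nat_lit 11) true (nat_lit 15) false (nat_lit 2) true (nat_lit 14) true (nat_lit 13) (.s true (nat_lit 2) (nat_lit 27) (nat_lit 2) (nat_lit 0) (nat_lit 1) true (nat_lit 9) true (nat_lit 14) false (nat_lit 2) true (nat_lit 13) true (nat_lit 15) (.s true (nat_lit 2) (nat_lit 27) (nat_lit 2) (nat_lit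 1) (nat_lit 0) true (nat_lit 10) true (nat_lit 15) false (nat_lit 2) true (nat_lit 13) true (nat_lit 14) (.s true (nat_lit 2) (nat_lit 28) (nat_lit 0) (nat_lit 0) (nat_lit 2) true (nat_lit 10) true (nat_lit 13) false (nat_lit 3) true (nat_lit 15) true (nat_lit 15) (.s false (nat_lit 6) (nat_lit 28) (nat_lit 0) (nat_lit 2) (nat_lit 0) false (nat_lit 16) true (nat_lit 15) false (nat_lit 3) true (nat_lit 15) true (nat_lit 13) dW4x_i7)))))))))))))))))))))))))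

noncomputable def dW4x_i9 : IL := (.e true (nat_lit 168) (nat_lit 97) (nat_lit 3) (nat_lit 12) (.e true (nat_lit 168) (nat_lit 103) (nat_lit 3) (nat_lit 12) (.e false (nat_lit 144) (nat_lit 46) (nat_lit 7) (nat_lit 8) (.e false (nat_lit 72) (nat_lit 108) (nat_lit 2) (nat_lit 13) (.e true (nat_lit 144) (nat_lit 109) (nat_lit 2) (nat_lit 13) (.e true (nat_lit 144) (nat_lit 110) (nat_lit 2) (nat_lit 13) (.e true (nat_lit 144) (nat_lit 114) (nat_lit 2) (nat_lit 13) (.e true (nat_lit 144) (nat_lit 128) (nat_lit 0) (nat_lit 15) (.e true (nat_lit 72) (nat_lit 132) (nat_lit 0) (nat_lit 15) (.e false (nat_lit 216) (nat_lit 133) (nat_lit 0) (nat_lit 15) (.e false (nat_lit 72) (nat_lit 134) (nat_lit 0) (nat_lit 15) (.e false (nat_lit 288) (nat_lit 135) (nat_lit 0) (nat_lit 15) (.e false (nat_lit 72) (nat_lit 141) (nat_lit 0) (nat_lit 15) (.e false (nat_lit 144) (nat_lit 126) (nat_lit 0) (nat_lit 15) (.e true (nat_lit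 288) (nat_lit 130) (nat_lit 0) (nat_lit 15) (.e false (nat_lit 36) (nat_lit 124) (nat_lit 1) (nat_lit 14) (.e true (nat_lit 144) (nat_lit 142) (nat_lit 0) (nat_lit 15) (.e false (nat_lit 36) (nat_lit 145) (nat_lit 0) (nat_lit 15) (.e true (nat_lit 144) (nat_lit 127) (nat_lit 0) (nat_lit 15) (.e true (nat_lit 72) (nat_lit 137) (nat_lit 0) (nat_lit 15) (.e false (nat_lit 216) (nat_lit 138) (nat_lit 0) (nat_lit 15) (.e false (nat_lit 72) (nat_lit 139) (nat_lit 0) (nat_lit 15) (.e false (nat_lit 144) (nat_lit 147) (nat_lit 0) (nat_lit 15) (.e true (nat_lit 144) (nat_lit 149) (nat_lit 0) (nat_lit 15) (.e false (nat_lit 108) (nat_lit 68) (nat_lit 4) (nat_lit 11) .nil)))))))))))))))))))))))))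

noncomputable def dW4x_i10 : IL := (.s true (nat_lit 1) (nat_lit 27) (nat_lit 1) (nat_lit 2) (nat_lit 0) true (nat_lit 11) true (nat_lit 15) false (nat_lit 2) true (nat_lit 14) true (nat_lit 13) (.s true (nat_lit 1) (nat_lit 27) (nat_lit 2) (nat_lit 0) (nat_lit 1) true (nat_lit 9) true (nat_lit 14) false (nat_lit 2) true (nat_lit 13) true (nat_lit 15) (.s true (nat_lit 2) (nat_lit 27) (nat_lit 2) (nat_lit 1) (nat_lit 0) true (nat_lit 10) true (nat_lit 15) false (nat_lit 2) true (nat_lit 13) true (nat_lit 14) (.s false (nat_lit 2) (nat_lit 28) (nat_lit 0) (nat_lit 2) (nat_lit 0) false (nat_lit 16) true (nat_lit 15) false (nat_lit 3) true (nat_lit 15) true (nat_lit 13) (.s true (nat_lit 5) (nat_lit 29) (nat_lit 2) (nat_lit 0) (nat_lit 0) true (nat_lit 10) true (nat_lit 15) false (nat_lit 3) true (nat_lit 13) true (nat_lit 15) (.s false (nat_lit 2) (nat_lit 30) (nat_lit 0) (nat_lit 0) (nat_lit 1) true (nat_lit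 11) true (nat_lit 14) false (nat_lit 4) true (nat_lit 15) true (nat_lit 15) (.s false (nat_lit 1) (nat_lit 31) (nat_lit 0) (nat_lit 0) (nat_lit 1) true (nat_lit 11) true (nat_lit 14) false (nat_lit 4) true (nat_lit 15) true (nat_lit 15) (.s false (nat_lit 2) (nat_lit 30) (nat_lit 0) (nat_lit 1) (nat_lit 0) false (nat_lit 16) true (nat_lit 15) false (nat_lit 4) true (nat_lit 15) true (nat_lit 14) (.e false (nat_lit 192) (nat_lit 86) (nat_lit 3) (nat_lit 12) (.e true (nat_lit 72) (nat_lit 88) (nat_lit 3) (nat_lit 12) (.e true (nat_lit 408) (nat_lit 89) (nat_lit 3) (nat_lit 12) (.e false (nat_lit 480) (nat_lit 90) (nat_lit 3) (nat_lit 12) (.e false (nat_lit 432) (nat_lit 91) (nat_lit 3) (nat_lit 12) (.e false (nat_lit 288) (nat_lit 92) (nat_lit 3) (nat_lit 12) (.e false (nat_lit 408) (nat_lit 93) (nat_lit 3) (nat_lit 12) (.e false (nat_lit 240) (nat_lit 95) (nat_lit 3) (nat_lit 12) (.e false (nat_lit 264) (nat_lit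 98) (nat_lit 3) (nat_lit 12) (.e true (nat_lit 336) (nat_lit 99) (nat_lit 3) (nat_lit 12) (.e false (nat_lit 312) (nat_lit 100) (nat_lit 3) (nat_lit 12) (.e false (nat_lit 24) (nat_lit 101) (nat_lit 3) (nat_lit 12) (.e true (nat_lit 240) (nat_lit 102) (nat_lit 3) (nat_lit 12) (.e true (nat_lit 336) (nat_lit 87) (nat_lit 3) (nat_lit 12) (.e true (nat_lit 144) (nat_lit 58) (nat_lit 5) (nat_lit 10) (.e true (nat_lit 336) (nat_lit 94) (nat_lit 3) (nat_lit 12) (.e false (nat_lit 192) (nat_lit 96) (nat_lit 3) (nat_lit 12) dW4x_i9)))))))))))))))))))))))))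

noncomputable def dW4x_i11 : IL := (.s false (nat_lit 5) (nat_lit 10) (nat_lit 5) (nat_lit 1) (nat_lit 0) true (nat_lit 3) true (nat_lit 15) true (nat_lit 5) true (nat_lit 10) true (nat_lit 14) (.s false (nat_lit 4) (nat_lit 11) (nat_lit 2) (nat_lit 3) (nat_lit 3) true (nat_lit 6) true (nat_lit 12) true (nat_lit 4) true (nat_lit 13) true (nat_lit 12) (.s true (nat_lit 2) (nat_lit 16) (nat_lit 1) (nat_lit 3) (nat_lit 2) true (nat_lit 9) true (nat_lit 13) true (nat_lit 1) true (nat_lit 14) true (nat_lit 12) (.s true (nat_lit 2) (nat_lit 16) (nat_lit 2) (nat_lit 1) (nat_lit 3) true (nat_lit 6) true (nat_lit 12) true (nat_lit 1) true (nat_lit 13) true (nat_lit 14) (.s true (nat_lit 2) (nat_lit 16) (nat_lit 2) (nat_lit 3) (nat_lit 1) true (nat_lit 9) true (nat_lit 14) true (nat_lit 1) true (nat_lit 13) true (nat_lit 12) (.s false (nat_lit 8) (nat_lit 19) (nat_lit 0) (nat_lit 2) (nat_lit 3) true (nat_lit 8) true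 (nat_lit 12) true (nat_lit 0) true (nat_lit 15) true (nat_lit 13) (.s false (nat_lit 6) (nat_lit 19) (nat_lit 0) (nat_lit 3) (nat_lit 2) true (nat_lit 10) true (nat_lit 13) true (nat_lit 0) true (nat_lit 15) true (nat_lit 12) (.s true (nat_lit 4) (nat_lit 17) (nat_lit 2) (nat_lit 0) (nat_lit 3) true (nat_lit 6) true (nat_lit 12) true (nat_lit 0) true (nat_lit 13) true (nat_lit 15) (.s false (nat_lit 6) (nat_lit 19) (nat_lit 2) (nat_lit 0) (nat_lit 3) true (nat_lit 6) true (nat_lit 12) true (nat_lit 0) true (nat_lit 13) true (nat_lit 15) (.s false (nat_lit 2) (nat_lit 17) (nat_lit 2) (nat_lit 3) (nat_lit 0) true (nat_lit 10) true (nat_lit 15) true (nat_lit 0) true (nat_lit 13) true (nat_lit 12) (.s false (nat_lit 8) (nat_lit 19) (nat_lit 2) (nat_lit 3) (nat_lit 0) true (nat_lit 10) true (nat_lit 15) true (nat_lit 0) true (nat_lit 13) true (nat_lit 12) (.s false (nat_lit 4) (nat_lit 18) (nat_lit 3) (nat_lit 0)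 (nat_lit 2) true (nat_lit 6) true (nat_lit 13) true (nat_lit 0) true (nat_lit 12) true (nat_lit 15) (.s false (nat_lit 2) (nat_lit 17) (nat_lit 3) (nat_lit 2) (nat_lit 0) true (nat_lit 8) true (nat_lit 15) true (nat_lit 0) true (nat_lit 12) true (nat_lit 13) (.s false (nat_lit 6) (nat_lit 19) (nat_lit 3) (nat_lit 2) (nat_lit 0) true (nat_lit 8) true (nat_lit 15) true (nat_lit 0) true (nat_lit 12) true (nat_lit 13) (.s false (nat_lit 6) (nat_lit 20) (nat_lit 0) (nat_lit 1) (nat_lit 3) true (nat_lit 8) true (nat_lit 12) false (nat_lit 0) true (nat_lit 15) true (nat_lit 14) (.s false (nat_lit 4) (nat_lit 21) (nat_lit 0) (nat_lit 3) (nat_lit 1) true (nat_lit 11) true (nat_lit 14) false (nat_lit 0) true (nat_lit 15) true (nat_lit 12) (.s false (nat_lit 2) (nat_lit 20) (nat_lit 1) (nat_lit 0) (nat_lit 3) true (nat_lit 7) true (nat_lit 12) false (nat_lit 0) true (nat_lit 14) true (nat_lit 15) (.s true (nat_lit 2)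 (nat_lit 20) (nat_lit 1) (nat_lit 3) (nat_lit 0) true (nat_lit 11) true (nat_lit 15) false (nat_lit 0) true (nat_lit 14) true (nat_lit 12) (.s true (nat_lit 2) (nat_lit 21) (nat_lit 1) (nat_lit 3) (nat_lit 0) true (nat_lit 11) true (nat_lit 15) false (nat_lit 0) true (nat_lit 14) true (nat_lit 12) (.s false (nat_lit 6) (nat_lit 20) (nat_lit 3) (nat_lit 1) (nat_lit 0) true (nat_lit 8) true (nat_lit 15) false (nat_lit 0) true (nat_lit 12) true (nat_lit 14) (.s false (nat_lit 4) (nat_lit 21) (nat_lit 3) (nat_lit 1) (nat_lit 0) true (nat_lit 8) true (nat_lit 15) false (nat_lit 0) true (nat_lit 12) true (nat_lit 14) (.s true (nat_lit 2) (nat_lit 23) (nat_lit 0) (nat_lit 0) (nat_lit 3) true (nat_lit 8) true (nat_lit 12) false (nat_lit 1) true (nat_lit 15) true (nat_lit 15) (.s false (nat_lit 2) (nat_lit 23) (nat_lit 3) (nat_lit 0) (nat_lit 0) true (nat_lit 8) true (nat_lit 15) false (nat_lit 1) true (nat_lit 12)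 true (nat_lit 15) (.s true (nat_lit 2) (nat_lit 25) (nat_lit 3) (nat_lit 0) (nat_lit 0) true (nat_lit 8) true (nat_lit 15) false (nat_lit 1) true (nat_lit 12) true (nat_lit 15) (.s true (nat_lit 1) (nat_lit 27) (nat_lit 0) (nat_lit 2) (nat_lit 1) true (nat_lit 11) true (nat_lit 14) false (nat_lit 2) true (nat_lit 15) true (nat_lit 13) dW4x_i10)))))))))))))))))))))))))

noncomputable def dW4x_i12 : IL := (.e true (nat_lit 72) (nat_lit 111) (nat_lit 2) (nat_lit 13) (.e true (nat_lit 72) (nat_lit 106) (nat_lit 2) (nat_lit 13) (.e true (nat_lit 72) (nat_lit 108) (nat_lit 2) (nat_lit 13) (.e false (nat_lit 72) (nat_lit 109) (nat_lit 2) (nat_lit 13) (.e false (nat_lit 72) (nat_lit 114) (nat_lit 2) (nat_lit 13) (.e false (nat_lit 36) (nat_lit 68) (nat_lit 4) (nat_lit 11) (.e false (nat_lit 144) (nat_lit 126) (nat_lit 0) (nat_lit 15) (.e true (nat_lit 144) (nat_lit 134) (nat_lit 0) (nat_lit 15) (.e true (nat_lit 72)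 (nat_lit 127) (nat_lit 0) (nat_lit 15) (.e true (nat_lit 144) (nat_lit 128) (nat_lit 0) (nat_lit 15) (.e false (nat_lit 216) (nat_lit 133) (nat_lit 0) (nat_lit 15) (.e true (nat_lit 216) (nat_lit 137) (nat_lit 0) (nat_lit 15) (.e false (nat_lit 216) (nat_lit 138) (nat_lit 0) (nat_lit 15) (.e true (nat_lit 144) (nat_lit 139) (nat_lit 0) (nat_lit 15) (.e false (nat_lit 72) (nat_lit 141) (nat_lit 0) (nat_lit 15) (.e true (nat_lit 144) (nat_lit 142) (nat_lit 0) (nat_lit 15) (.e true (nat_lit 72) (nat_lit 144) (nat_lit 0) (nat_lit 15) (.e false (nat_lit 36) (nat_lit 145) (nat_lit 0) (nat_lit 15) (.e true (nat_lit 72) (nat_lit 146) (nat_lit 0) (nat_lit 15) (.e false (nat_lit 144) (nat_lit 147) (nat_lit 0) (nat_lit 15) (.e true (nat_lit 72) (nat_lit 149) (nat_lit 0) (nat_lit 15) (.e true (nat_lit 144) (nat_lit 132) (nat_lit 0) (nat_lit 15) (.e false (nat_lit 72) (nat_lit 140) (nat_lit 0) (nat_lit 15) (.e false (nat_lit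 108) (nat_lit 124) (nat_lit 1) (nat_lit 14) (.e false (nat_lit 72) (nat_lit 115) (nat_lit 1) (nat_lit 14) .nil)))))))))))))))))))))))))

noncomputable def dW4x_i13 : IL := (.s false (nat_lit 3) (nat_lit 31) (nat_lit 0) (nat_lit 0) (nat_lit 1) true (nat_lit 11) true (nat_lit 14) false (nat_lit 4) true (nat_lit 15) true (nat_lit 15) (.s true (nat_lit 2) (nat_lit 30) (nat_lit 0) (nat_lit 1) (nat_lit 0) false (nat_lit 16) true (nat_lit 15) false (nat_lit 4) true (nat_lit 15) true (nat_lit 14) (.e false (nat_lit 504) (nat_lit 86) (nat_lit 3) (nat_lit 12) (.e true (nat_lit 648) (nat_lit 87) (nat_lit 3) (nat_lit 12) (.e true (nat_lit 360) (nat_lit 88) (nat_lit 3) (nat_lit 12) (.e false (nat_lit 72) (nat_lit 58) (nat_lit 5) (nat_lit 10) (.e false (nat_lit 72) (nat_lit 85) (nat_lit 3) (nat_lit 12) (.e true (nat_lit 72) (nat_lit 89) (nat_lit 3) (nat_lit 12) (.e false (nat_lit 360) (nat_lit 90) (nat_lit 3) (nat_lit 12)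 (.e true (nat_lit 72) (nat_lit 92) (nat_lit 3) (nat_lit 12) (.e true (nat_lit 288) (nat_lit 94) (nat_lit 3) (nat_lit 12) (.e true (nat_lit 216) (nat_lit 95) (nat_lit 3) (nat_lit 12) (.e false (nat_lit 360) (nat_lit 96) (nat_lit 3) (nat_lit 12) (.e true (nat_lit 288) (nat_lit 97) (nat_lit 3) (nat_lit 12) (.e true (nat_lit 216) (nat_lit 98) (nat_lit 3) (nat_lit 12) (.e true (nat_lit 72) (nat_lit 99) (nat_lit 3) (nat_lit 12) (.e false (nat_lit 144) (nat_lit 100) (nat_lit 3) (nat_lit 12) (.e false (nat_lit 144) (nat_lit 101) (nat_lit 3) (nat_lit 12) (.e false (nat_lit 144) (nat_lit 102) (nat_lit 3) (nat_lit 12) (.e true (nat_lit 216) (nat_lit 103) (nat_lit 3) (nat_lit 12) (.e false (nat_lit 144) (nat_lit 46) (nat_lit 7) (nat_lit 8) (.e true (nat_lit 72) (nat_lit 116) (nat_lit 1) (nat_lit 14) (.e true (nat_lit 72) (nat_lit 121) (nat_lit 1) (nat_lit 14) (.e true (nat_lit 72) (nat_lit 50) (nat_lit 7) (nat_lit 8) (.e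 false (nat_lit 144) (nat_lit 110) (nat_lit 2) (nat_lit 13) dW4x_i12)))))))))))))))))))))))))

noncomputable def dW4x_i14 : IL := (.s true (nat_lit 4) (nat_lit 9) (nat_lit 4) (nat_lit 3) (nat_lit 0) true (nat_lit 4) true (nat_lit 15) true (nat_lit 6) true (nat_lit 11) true (nat_lit 12) (.s true (nat_lit 1) (nat_lit 10) (nat_lit 0) (nat_lit 0) (nat_lit 6) true (nat_lit 2) true (nat_lit 9) true (nat_lit 5) true (nat_lit 15) true (nat_lit 15) (.s false (nat_lit 3) (nat_lit 10) (nat_lit 1) (nat_lit 5) (nat_lit 0) true (nat_lit 11) true (nat_lit 15) true (nat_lit 5) true (nat_lit 14) true (nat_lit 10) (.s false (nat_lit 3) (nat_lit 10) (nat_lit 5) (nat_lit 1) (nat_lit 0) true (nat_lit 3) true (nat_lit 15) true (nat_lit 5) true (nat_lit 10) true (nat_lit 14) (.s false (nat_lit 2) (nat_lit 11) (nat_lit 2) (nat_lit 3) (nat_lit 3) true (nat_lit 6) true (nat_lit 12) true (nat_lit 4) true (nat_lit 13) true (nat_lit 12)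 (.s true (nat_lit 2) (nat_lit 16) (nat_lit 2) (nat_lit 1) (nat_lit 3) true (nat_lit 6) true (nat_lit 12) true (nat_lit 1) true (nat_lit 13) true (nat_lit 14) (.s true (nat_lit 2) (nat_lit 17) (nat_lit 0) (nat_lit 2) (nat_lit 3) true (nat_lit 8) true (nat_lit 12) true (nat_lit 0) true (nat_lit 15) true (nat_lit 13) (.s false (nat_lit 4) (nat_lit 19) (nat_lit 0) (nat_lit 2) (nat_lit 3) true (nat_lit 8) true (nat_lit 12) true (nat_lit 0) true (nat_lit 15) true (nat_lit 13) (.s false (nat_lit 4) (nat_lit 19) (nat_lit 0) (nat_lit 3) (nat_lit 2) true (nat_lit 10) true (nat_lit 13) true (nat_lit 0) true (nat_lit 15) true (nat_lit 12) (.s true (nat_lit 8) (nat_lit 17) (nat_lit 2) (nat_lit 0) (nat_lit 3) true (nat_lit 6) true (nat_lit 12) true (nat_lit 0) true (nat_lit 13) true (nat_lit 15) (.s false (nat_lit 4) (nat_lit 19) (nat_lit 2) (nat_lit 0) (nat_lit 3) true (nat_lit 6) true (nat_lit 12) true (nat_lit 0) true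 (nat_lit 13) true (nat_lit 15) (.s true (nat_lit 2) (nat_lit 17) (nat_lit 2) (nat_lit 3) (nat_lit 0) true (nat_lit 10) true (nat_lit 15) true (nat_lit 0) true (nat_lit 13) true (nat_lit 12) (.s false (nat_lit 4) (nat_lit 19) (nat_lit 2) (nat_lit 3) (nat_lit 0) true (nat_lit 10) true (nat_lit 15) true (nat_lit 0) true (nat_lit 13) true (nat_lit 12) (.s false (nat_lit 2) (nat_lit 18) (nat_lit 3) (nat_lit 0) (nat_lit 2) true (nat_lit 6) true (nat_lit 13) true (nat_lit 0) true (nat_lit 12) true (nat_lit 15) (.s true (nat_lit 2) (nat_lit 17) (nat_lit 3) (nat_lit 2) (nat_lit 0) true (nat_lit 8) true (nat_lit 15) true (nat_lit 0) true (nat_lit 12) true (nat_lit 13) (.s false (nat_lit 4) (nat_lit 19) (nat_lit 3) (nat_lit 2) (nat_lit 0) true (nat_lit 8) true (nat_lit 15) true (nat_lit 0) true (nat_lit 12) true (nat_lit 13) (.s false (nat_lit 2) (nat_lit 21) (nat_lit 0) (nat_lit 3) (nat_lit 1) true (nat_lit 11) true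 (nat_lit 14) false (nat_lit 0) true (nat_lit 15) true (nat_lit 12) (.s true (nat_lit 6) (nat_lit 20) (nat_lit 1) (nat_lit 3) (nat_lit 0) true (nat_lit 11) true (nat_lit 15) false (nat_lit 0) true (nat_lit 14) true (nat_lit 12) (.s true (nat_lit 2) (nat_lit 21) (nat_lit 1) (nat_lit 3) (nat_lit 0) true (nat_lit 11) true (nat_lit 15) false (nat_lit 0) true (nat_lit 14) true (nat_lit 12) (.s false (nat_lit 2) (nat_lit 21) (nat_lit 3) (nat_lit 1) (nat_lit 0) true (nat_lit 8) true (nat_lit 15) false (nat_lit 0) true (nat_lit 12) true (nat_lit 14) (.s false (nat_lit 2) (nat_lit 23) (nat_lit 3) (nat_lit 0) (nat_lit 0) true (nat_lit 8) true (nat_lit 15) false (nat_lit 1) true (nat_lit 12) true (nat_lit 15) (.s true (nat_lit 1) (nat_lit 27) (nat_lit 0) (nat_lit 2) (nat_lit 1) true (nat_lit 11) true (nat_lit 14) false (nat_lit 2) true (nat_lit 15) true (nat_lit 13) (.s false (nat_lit 1) (nat_lit 27) (nat_lit 1) (nat_lit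 2) (nat_lit 0) true (nat_lit 11) true (nat_lit 15) false (nat_lit 2) true (nat_lit 14) true (nat_lit 13) (.s true (nat_lit 1) (nat_lit 27) (nat_lit 2) (nat_lit 0) (nat_lit 1) true (nat_lit 9) true (nat_lit 14) false (nat_lit 2) true (nat_lit 13) true (nat_lit 15) (.s true (nat_lit 3) (nat_lit 29) (nat_lit 2) (nat_lit 0) (nat_lit 0) true (nat_lit 10) true (nat_lit 15) false (nat_lit 3) true (nat_lit 13) true (nat_lit 15) dW4x_i13)))))))))))))))))))))))))

noncomputable def dW4x_i15 : IL := (.e true (nat_lit 144) (nat_lit 129) (nat_lit 0) (nat_lit 15) (.e true (nat_lit 144) (nat_lit 131) (nat_lit 0) (nat_lit 15) (.e false (nat_lit 72) (nat_lit 133) (nat_lit 0) (nat_lit 15) (.e false (nat_lit 72) (nat_lit 137) (nat_lit 0) (nat_lit 15) (.e true (nat_lit 72) (nat_lit 138) (nat_lit 0) (nat_lit 15) (.e false (nat_lit 144) (nat_lit 139) (nat_lit 0) (nat_lit 15) (.e true (nat_lit 216) (nat_lit 141) (nat_lit 0) (nat_lit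 15) (.e false (nat_lit 144) (nat_lit 142) (nat_lit 0) (nat_lit 15) (.e true (nat_lit 72) (nat_lit 144) (nat_lit 0) (nat_lit 15) (.e true (nat_lit 108) (nat_lit 145) (nat_lit 0) (nat_lit 15) (.e false (nat_lit 72) (nat_lit 146) (nat_lit 0) (nat_lit 15) (.e true (nat_lit 144) (nat_lit 147) (nat_lit 0) (nat_lit 15) (.e false (nat_lit 72) (nat_lit 149) (nat_lit 0) (nat_lit 15) (.e false (nat_lit 144) (nat_lit 150) (nat_lit 0) (nat_lit 15) (.e false (nat_lit 144) (nat_lit 132) (nat_lit 0) (nat_lit 15) (.e true (nat_lit 144) (nat_lit 136) (nat_lit 0) (nat_lit 15) (.e false (nat_lit 72) (nat_lit 140) (nat_lit 0) (nat_lit 15) (.e true (nat_lit 36) (nat_lit 124) (nat_lit 1) (nat_lit 14) (.e false (nat_lit 72) (nat_lit 108) (nat_lit 2) (nat_lit 13) (.e true (nat_lit 72) (nat_lit 111) (nat_lit 2) (nat_lit 13) (.e true (nat_lit 72) (nat_lit 114) (nat_lit 2) (nat_lit 13) (.e false (nat_lit 72) (nat_lit 106) (nat_lit 2)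 (nat_lit 13) (.e true (nat_lit 72) (nat_lit 109) (nat_lit 2) (nat_lit 13) (.e true (nat_lit 72) (nat_lit 115) (nat_lit 1) (nat_lit 14) (.e false (nat_lit 36) (nat_lit 68) (nat_lit 4) (nat_lit 11) .nil)))))))))))))))))))))))))

noncomputable def dW4x_i16 : IL := (.s false (nat_lit 1) (nat_lit 29) (nat_lit 2) (nat_lit 0) (nat_lit 0) true (nat_lit 10) true (nat_lit 15) false (nat_lit 3) true (nat_lit 13) true (nat_lit 15) (.s true (nat_lit 1) (nat_lit 31) (nat_lit 0) (nat_lit 0) (nat_lit 1) true (nat_lit 11) true (nat_lit 14) false (nat_lit 4) true (nat_lit 15) true (nat_lit 15) (.s false (nat_lit 2) (nat_lit 30) (nat_lit 0) (nat_lit 1) (nat_lit 0) false (nat_lit 16) true (nat_lit 15) false (nat_lit 4) true (nat_lit 15) true (nat_lit 14) (.e false (nat_lit 72) (nat_lit 86) (nat_lit 3) (nat_lit 12) (.e false (nat_lit 72) (nat_lit 87) (nat_lit 3) (nat_lit 12) (.e true (nat_lit 72) (nat_lit 88) (nat_lit 3) (nat_lit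 12) (.e false (nat_lit 72) (nat_lit 58) (nat_lit 5) (nat_lit 10) (.e false (nat_lit 72) (nat_lit 65) (nat_lit 4) (nat_lit 11) (.e false (nat_lit 72) (nat_lit 85) (nat_lit 3) (nat_lit 12) (.e false (nat_lit 72) (nat_lit 89) (nat_lit 3) (nat_lit 12) (.e true (nat_lit 72) (nat_lit 90) (nat_lit 3) (nat_lit 12) (.e true (nat_lit 144) (nat_lit 91) (nat_lit 3) (nat_lit 12) (.e true (nat_lit 72) (nat_lit 92) (nat_lit 3) (nat_lit 12) (.e true (nat_lit 72) (nat_lit 95) (nat_lit 3) (nat_lit 12) (.e true (nat_lit 72) (nat_lit 96) (nat_lit 3) (nat_lit 12) (.e true (nat_lit 72) (nat_lit 98) (nat_lit 3) (nat_lit 12) (.e false (nat_lit 72) (nat_lit 99) (nat_lit 3) (nat_lit 12) (.e true (nat_lit 72) (nat_lit 103) (nat_lit 3) (nat_lit 12) (.e false (nat_lit 72) (nat_lit 116) (nat_lit 1) (nat_lit 14) (.e false (nat_lit 72) (nat_lit 121) (nat_lit 1) (nat_lit 14) (.e true (nat_lit 144) (nat_lit 126) (nat_lit 0) (nat_lit 15) (.e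 false (nat_lit 144) (nat_lit 134) (nat_lit 0) (nat_lit 15) (.e false (nat_lit 144) (nat_lit 135) (nat_lit 0) (nat_lit 15) (.e false (nat_lit 72) (nat_lit 50) (nat_lit 7) (nat_lit 8) (.e true (nat_lit 72) (nat_lit 127) (nat_lit 0) (nat_lit 15) dW4x_i15)))))))))))))))))))))))))

noncomputable def dW4x_i17 : IL := (.e false (nat_lit 12) (nat_lit 100) (nat_lit 3) (nat_lit 12) (.e false (nat_lit 12) (nat_lit 101) (nat_lit 3) (nat_lit 12) (.e true (nat_lit 48) (nat_lit 102) (nat_lit 3) (nat_lit 12) (.e false (nat_lit 24) (nat_lit 103) (nat_lit 3) (nat_lit 12) (.e false (nat_lit 60) (nat_lit 86) (nat_lit 3) (nat_lit 12) (.e true (nat_lit 24) (nat_lit 87) (nat_lit 3) (nat_lit 12) (.e false (nat_lit 48) (nat_lit 89) (nat_lit 3) (nat_lit 12) (.e true (nat_lit 48) (nat_lit 90) (nat_lit 3) (nat_lit 12) (.e true (nat_lit 48) (nat_lit 93) (nat_lit 3) (nat_lit 12) (.e false (nat_lit 48) (nat_lit 94) (nat_lit 3) (nat_lit 12)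 (.e true (nat_lit 60) (nat_lit 95) (nat_lit 3) (nat_lit 12) (.e false (nat_lit 60) (nat_lit 96) (nat_lit 3) (nat_lit 12) (.e false (nat_lit 36) (nat_lit 109) (nat_lit 2) (nat_lit 13) (.e false (nat_lit 36) (nat_lit 110) (nat_lit 2) (nat_lit 13) (.e true (nat_lit 36) (nat_lit 91) (nat_lit 3) (nat_lit 12) (.e false (nat_lit 60) (nat_lit 126) (nat_lit 0) (nat_lit 15) (.e false (nat_lit 36) (nat_lit 46) (nat_lit 7) (nat_lit 8) (.e true (nat_lit 48) (nat_lit 137) (nat_lit 0) (nat_lit 15) (.e true (nat_lit 12) (nat_lit 147) (nat_lit 0) (nat_lit 15) (.e true (nat_lit 24) (nat_lit 149) (nat_lit 0) (nat_lit 15) (.e true (nat_lit 48) (nat_lit 127) (nat_lit 0) (nat_lit 15) (.e false (nat_lit 48) (nat_lit 138) (nat_lit 0) (nat_lit 15) (.e true (nat_lit 72) (nat_lit 88) (nat_lit 3) (nat_lit 12) (.e true (nat_lit 36) (nat_lit 92) (nat_lit 3) (nat_lit 12) (.e true (nat_lit 36) (nat_lit 111) (nat_lit 2) (nat_lit 13) .nil)))))))))))))))))))))))))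

noncomputable def dW4x_i18 : IL := (.s false (nat_lit 1) (nat_lit 25) (nat_lit 3) (nat_lit 0) (nat_lit 0) true (nat_lit 8) true (nat_lit 15) false (nat_lit 1) true (nat_lit 12) true (nat_lit 15) (.s false (nat_lit 1) (nat_lit 27) (nat_lit 1) (nat_lit 0) (nat_lit 2) true (nat_lit 9) true (nat_lit 13) false (nat_lit 2) true (nat_lit 14) true (nat_lit 15) (.s true (nat_lit 2) (nat_lit 28) (nat_lit 0) (nat_lit 0) (nat_lit 2) true (nat_lit 10) true (nat_lit 13) false (nat_lit 3) true (nat_lit 15) true (nat_lit 15) (.e false (nat_lit 72) (nat_lit 50) (nat_lit 7) (nat_lit 8) (.e true (nat_lit 72) (nat_lit 52) (nat_lit 7) (nat_lit 8) (.e true (nat_lit 96) (nat_lit 128) (nat_lit 0) (nat_lit 15) (.e true (nat_lit 12) (nat_lit 129) (nat_lit 0) (nat_lit 15) (.e true (nat_lit 156) (nat_lit 130) (nat_lit 0) (nat_lit 15) (.e true (nat_lit 84) (nat_lit 131) (nat_lit 0) (nat_lit 15) (.e false (nat_lit 108) (nat_lit 132) (nat_lit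 0) (nat_lit 15) (.e false (nat_lit 132) (nat_lit 133) (nat_lit 0) (nat_lit 15) (.e false (nat_lit 108) (nat_lit 134) (nat_lit 0) (nat_lit 15) (.e false (nat_lit 168) (nat_lit 135) (nat_lit 0) (nat_lit 15) (.e false (nat_lit 36) (nat_lit 136) (nat_lit 0) (nat_lit 15) (.e true (nat_lit 36) (nat_lit 139) (nat_lit 0) (nat_lit 15) (.e true (nat_lit 36) (nat_lit 140) (nat_lit 0) (nat_lit 15) (.e false (nat_lit 108) (nat_lit 141) (nat_lit 0) (nat_lit 15) (.e true (nat_lit 60) (nat_lit 142) (nat_lit 0) (nat_lit 15) (.e false (nat_lit 12) (nat_lit 144) (nat_lit 0) (nat_lit 15) (.e false (nat_lit 60) (nat_lit 145) (nat_lit 0) (nat_lit 15) (.e true (nat_lit 84) (nat_lit 146) (nat_lit 0) (nat_lit 15) (.e true (nat_lit 60) (nat_lit 150) (nat_lit 0) (nat_lit 15) (.e true (nat_lit 12) (nat_lit 97) (nat_lit 3) (nat_lit 12) (.e true (nat_lit 48) (nat_lit 98) (nat_lit 3) (nat_lit 12) (.e false (nat_lit 48) (nat_lit 99) (nat_lit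 3) (nat_lit 12) dW4x_i17)))))))))))))))))))))))))

noncomputable def dW4x_i19 : IL := (.e false (nat_lit 108) (nat_lit 134) (nat_lit 0) (nat_lit 15) (.e false (nat_lit 216) (nat_lit 135) (nat_lit 0) (nat_lit 15) (.e true (nat_lit 36) (nat_lit 58) (nat_lit 5) (nat_lit 10) (.e false (nat_lit 36) (nat_lit 147) (nat_lit 0) (nat_lit 15) (.e true (nat_lit 36) (nat_lit 149) (nat_lit 0) (nat_lit 15) (.e true (nat_lit 72) (nat_lit 127) (nat_lit 0) (nat_lit 15) (.e true (nat_lit 72) (nat_lit 128) (nat_lit 0) (nat_lit 15) (.e false (nat_lit 72) (nat_lit 129) (nat_lit 0) (nat_lit 15) (.e false (nat_lit 108) (nat_lit 133) (nat_lit 0) (nat_lit 15) (.e false (nat_lit 216) (nat_lit 136) (nat_lit 0) (nat_lit 15) (.e true (nat_lit 108) (nat_lit 140) (nat_lit 0) (nat_lit 15) (.e false (nat_lit 216) (nat_lit 141) (nat_lit 0) (nat_lit 15) (.e true (nat_lit 180) (nat_lit 142) (nat_lit 0) (nat_lit 15) (.e false (nat_lit 108) (nat_lit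 144) (nat_lit 0) (nat_lit 15) (.e false (nat_lit 108) (nat_lit 145) (nat_lit 0) (nat_lit 15) (.e true (nat_lit 108) (nat_lit 146) (nat_lit 0) (nat_lit 15) (.e true (nat_lit 108) (nat_lit 150) (nat_lit 0) (nat_lit 15) (.e false (nat_lit 108) (nat_lit 132) (nat_lit 0) (nat_lit 15) (.e true (nat_lit 72) (nat_lit 139) (nat_lit 0) (nat_lit 15) (.e true (nat_lit 36) (nat_lit 109) (nat_lit 2) (nat_lit 13) (.e false (nat_lit 72) (nat_lit 50) (nat_lit 7) (nat_lit 8) (.e false (nat_lit 36) (nat_lit 111) (nat_lit 2) (nat_lit 13) (.e true (nat_lit 36) (nat_lit 110) (nat_lit 2) (nat_lit 13) (.e true (nat_lit 36) (nat_lit 68) (nat_lit 4) (nat_lit 11) (.e true (nat_lit 36) (nat_lit 124) (nat_lit 1) (nat_lit 14) .nil)))))))))))))))))))))))))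

noncomputable def dW4x_i20 : IL := (.s true (nat_lit 1) (nat_lit 19) (nat_lit 3) (nat_lit 2) (nat_lit 0) true (nat_lit 8) true (nat_lit 15) true (nat_lit 0) true (nat_lit 12) true (nat_lit 13) (.s false (nat_lit 1) (nat_lit 20) (nat_lit 1) (nat_lit 0) (nat_lit 3) true (nat_lit 7) true (nat_lit 12) false (nat_lit 0) true (nat_lit 14) true (nat_lit 15) (.s false (nat_lit 2) (nat_lit 20) (nat_lit 1) (nat_lit 3) (nat_lit 0) true (nat_lit 11) true (nat_lit 15) false (nat_lit 0) true (nat_lit 14) true (nat_lit 12) (.s true (nat_lit 1) (nat_lit 27) (nat_lit 0) (nat_lit 2) (nat_lit 1) true (nat_lit 11) true (nat_lit 14) false (nat_lit 2) true (nat_lit 15) true (nat_lit 13) (.s true (nat_lit 1) (nat_lit 27) (nat_lit 2) (nat_lit 0) (nat_lit 1) true (nat_lit 9) true (nat_lit 14) false (nat_lit 2) true (nat_lit 13) true (nat_lit 15) (.s true (nat_lit 1) (nat_lit 27) (nat_lit 2) (nat_lit 1) (nat_lit 0) true (nat_lit 10)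 true (nat_lit 15) false (nat_lit 2) true (nat_lit 13) true (nat_lit 14) (.s true (nat_lit 1) (nat_lit 28) (nat_lit 0) (nat_lit 0) (nat_lit 2) true (nat_lit 10) true (nat_lit 13) false (nat_lit 3) true (nat_lit 15) true (nat_lit 15) (.s false (nat_lit 1) (nat_lit 28) (nat_lit 0) (nat_lit 2) (nat_lit 0) false (nat_lit 16) true (nat_lit 15) false (nat_lit 3) true (nat_lit 15) true (nat_lit 13) (.e true (nat_lit 36) (nat_lit 86) (nat_lit 3) (nat_lit 12) (.e false (nat_lit 36) (nat_lit 88) (nat_lit 3) (nat_lit 12) (.e true (nat_lit 36) (nat_lit 89) (nat_lit 3) (nat_lit 12) (.e false (nat_lit 36) (nat_lit 90) (nat_lit 3) (nat_lit 12) (.e false (nat_lit 36) (nat_lit 91) (nat_lit 3) (nat_lit 12) (.e false (nat_lit 36) (nat_lit 92) (nat_lit 3) (nat_lit 12) (.e false (nat_lit 36) (nat_lit 93) (nat_lit 3) (nat_lit 12) (.e false (nat_lit 36) (nat_lit 95) (nat_lit 3) (nat_lit 12) (.e false (nat_lit 36) (nat_lit 98) (nat_lit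 3) (nat_lit 12) (.e true (nat_lit 36) (nat_lit 99) (nat_lit 3) (nat_lit 12) (.e false (nat_lit 108) (nat_lit 100) (nat_lit 3) (nat_lit 12) (.e true (nat_lit 36) (nat_lit 102) (nat_lit 3) (nat_lit 12) (.e true (nat_lit 36) (nat_lit 94) (nat_lit 3) (nat_lit 12) (.e true (nat_lit 36) (nat_lit 96) (nat_lit 3) (nat_lit 12) (.e true (nat_lit 36) (nat_lit 46) (nat_lit 7) (nat_lit 8) (.e false (nat_lit 180) (nat_lit 126) (nat_lit 0) (nat_lit 15) (.e true (nat_lit 288) (nat_lit 130) (nat_lit 0) (nat_lit 15) dW4x_i19)))))))))))))))))))))))))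

noncomputable def dW4x_i21 : IL := (.e false (nat_lit 120) (nat_lit 128) (nat_lit 0) (nat_lit 15) (.e false (nat_lit 168) (nat_lit 129) (nat_lit 0) (nat_lit 15) (.e false (nat_lit 312) (nat_lit 131) (nat_lit 0) (nat_lit 15) (.e true (nat_lit 120) (nat_lit 133) (nat_lit 0) (nat_lit 15) (.e false (nat_lit 24) (nat_lit 137) (nat_lit 0) (nat_lit 15) (.e true (nat_lit 96) (nat_lit 138) (nat_lit 0) (nat_lit 15) (.e false (nat_lit 72) (nat_lit 139) (nat_lit 0) (nat_lit 15) (.e true (nat_lit 144) (nat_lit 141) (nat_lit 0) (nat_lit 15) (.e true (nat_lit 240) (nat_lit 142) (nat_lit 0) (nat_lit 15) (.e false (nat_lit 120) (nat_lit 144) (nat_lit 0) (nat_lit 15) (.e false (nat_lit 132) (nat_lit 145) (nat_lit 0) (nat_lit 15) (.e true (nat_lit 48) (nat_lit 146) (nat_lit 0) (nat_lit 15) (.e false (nat_lit 24) (nat_lit 147) (nat_lit 0) (nat_lit 15) (.e false (nat_lit 48) (nat_lit 149) (nat_lit 0) (nat_lit 15) (.e true (nat_lit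 240) (nat_lit 150) (nat_lit 0) (nat_lit 15) (.e false (nat_lit 72) (nat_lit 64) (nat_lit 4) (nat_lit 11) (.e true (nat_lit 36) (nat_lit 68) (nat_lit 4) (nat_lit 11) (.e false (nat_lit 216) (nat_lit 136) (nat_lit 0) (nat_lit 15) (.e true (nat_lit 144) (nat_lit 140) (nat_lit 0) (nat_lit 15) (.e false (nat_lit 36) (nat_lit 124) (nat_lit 1) (nat_lit 14) (.e true (nat_lit 216) (nat_lit 132) (nat_lit 0) (nat_lit 15) (.e false (nat_lit 72) (nat_lit 120) (nat_lit 1) (nat_lit 14) (.e true (nat_lit 144) (nat_lit 109) (nat_lit 2) (nat_lit 13) (.e false (nat_lit 216) (nat_lit 111) (nat_lit 2) (nat_lit 13) (.e true (nat_lit 144) (nat_lit 110) (nat_lit 2) (nat_lit 13) .nil)))))))))))))))))))))))))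

noncomputable def dW4x_i22 : IL := (.s true (nat_lit 2) (nat_lit 20) (nat_lit 3) (nat_lit 1) (nat_lit 0) true (nat_lit 8) true (nat_lit 15) false (nat_lit 0) true (nat_lit 12) true (nat_lit 14) (.s true (nat_lit 2) (nat_lit 23) (nat_lit 0) (nat_lit 0) (nat_lit 3) true (nat_lit 8) true (nat_lit 12) false (nat_lit 1) true (nat_lit 15) true (nat_lit 15) (.s true (nat_lit 1) (nat_lit 29) (nat_lit 2) (nat_lit 0) (nat_lit 0) true (nat_lit 10) true (nat_lit 15) false (nat_lit 3) true (nat_lit 13) true (nat_lit 15) (.s true (nat_lit 2) (nat_lit 30) (nat_lit 0) (nat_lit 0) (nat_lit 1) true (nat_lit 11) true (nat_lit 14) false (nat_lit 4) true (nat_lit 15) true (nat_lit 15) (.s false (nat_lit 1) (nat_lit 31) (nat_lit 0) (nat_lit 0) (nat_lit 1) true (nat_lit 11) true (nat_lit 14) false (nat_lit 4) true (nat_lit 15) true (nat_lit 15) (.s false (nat_lit 2) (nat_lit 30) (nat_lit 0) (nat_lit 1) (nat_lit 0) false (nat_lit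 16) true (nat_lit 15) false (nat_lit 4) true (nat_lit 15) true (nat_lit 14) (.e true (nat_lit 144) (nat_lit 87) (nat_lit 3) (nat_lit 12) (.e true (nat_lit 144) (nat_lit 58) (nat_lit 5) (nat_lit 10) (.e false (nat_lit 144) (nat_lit 85) (nat_lit 3) (nat_lit 12) (.e true (nat_lit 72) (nat_lit 91) (nat_lit 3) (nat_lit 12) (.e true (nat_lit 72) (nat_lit 94) (nat_lit 3) (nat_lit 12) (.e true (nat_lit 72) (nat_lit 95) (nat_lit 3) (nat_lit 12) (.e false (nat_lit 72) (nat_lit 96) (nat_lit 3) (nat_lit 12) (.e true (nat_lit 72) (nat_lit 97) (nat_lit 3) (nat_lit 12) (.e false (nat_lit 72) (nat_lit 98) (nat_lit 3) (nat_lit 12) (.e true (nat_lit 72) (nat_lit 99) (nat_lit 3) (nat_lit 12) (.e false (nat_lit 72) (nat_lit 102) (nat_lit 3) (nat_lit 12) (.e false (nat_lit 72) (nat_lit 116) (nat_lit 1) (nat_lit 14) (.e true (nat_lit 192) (nat_lit 126) (nat_lit 0) (nat_lit 15) (.e false (nat_lit 168) (nat_lit 130) (nat_lit 0) (nat_lit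 15) (.e true (nat_lit 288) (nat_lit 134) (nat_lit 0) (nat_lit 15) (.e true (nat_lit 336) (nat_lit 135) (nat_lit 0) (nat_lit 15) (.e true (nat_lit 144) (nat_lit 50) (nat_lit 7) (nat_lit 8) (.e false (nat_lit 72) (nat_lit 52) (nat_lit 7) (nat_lit 8) (.e false (nat_lit 96) (nat_lit 127) (nat_lit 0) (nat_lit 15) dW4x_i21)))))))))))))))))))))))))

noncomputable def dW4x_i23 : IL := (.e true (nat_lit 60) (nat_lit 126) (nat_lit 0) (nat_lit 15) (.e false (nat_lit 48) (nat_lit 130) (nat_lit 0) (nat_lit 15) (.e true (nat_lit 72) (nat_lit 134) (nat_lit 0) (nat_lit 15) (.e true (nat_lit 60) (nat_lit 135) (nat_lit 0) (nat_lit 15) (.e false (nat_lit 12) (nat_lit 127) (nat_lit 0) (nat_lit 15) (.e false (nat_lit 24) (nat_lit 128) (nat_lit 0) (nat_lit 15) (.e false (nat_lit 12) (nat_lit 129) (nat_lit 0) (nat_lit 15) (.e false (nat_lit 12) (nat_lit 131) (nat_lit 0) (nat_lit 15) (.e false (nat_lit 12) (nat_lit 133) (nat_lit 0)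 (nat_lit 15) (.e true (nat_lit 36) (nat_lit 136) (nat_lit 0) (nat_lit 15) (.e true (nat_lit 24) (nat_lit 137) (nat_lit 0) (nat_lit 15) (.e false (nat_lit 24) (nat_lit 138) (nat_lit 0) (nat_lit 15) (.e true (nat_lit 12) (nat_lit 142) (nat_lit 0) (nat_lit 15) (.e true (nat_lit 12) (nat_lit 144) (nat_lit 0) (nat_lit 15) (.e false (nat_lit 12) (nat_lit 145) (nat_lit 0) (nat_lit 15) (.e false (nat_lit 12) (nat_lit 146) (nat_lit 0) (nat_lit 15) (.e true (nat_lit 24) (nat_lit 147) (nat_lit 0) (nat_lit 15) (.e true (nat_lit 12) (nat_lit 149) (nat_lit 0) (nat_lit 15) (.e true (nat_lit 48) (nat_lit 150) (nat_lit 0) (nat_lit 15) (.e false (nat_lit 36) (nat_lit 125) (nat_lit 1) (nat_lit 14) (.e true (nat_lit 72) (nat_lit 132) (nat_lit 0) (nat_lit 15) (.e false (nat_lit 36) (nat_lit 120) (nat_lit 1) (nat_lit 14) (.e false (nat_lit 36) (nat_lit 64) (nat_lit 4) (nat_lit 11) (.e false (nat_lit 36) (nat_lit 139) (nat_lit 0)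 (nat_lit 15) (.e true (nat_lit 36) (nat_lit 141) (nat_lit 0) (nat_lit 15) .nil)))))))))))))))))))))))))

noncomputable def dW4x_i24 : IL := (.e false (nat_lit 48) (nat_lit 97) (nat_lit 3) (nat_lit 12) (.e false (nat_lit 12) (nat_lit 98) (nat_lit 3) (nat_lit 12) (.e false (nat_lit 24) (nat_lit 99) (nat_lit 3) (nat_lit 12) (.e true (nat_lit 12) (nat_lit 100) (nat_lit 3) (nat_lit 12) (.e true (nat_lit 12) (nat_lit 101) (nat_lit 3) (nat_lit 12) (.e true (nat_lit 60) (nat_lit 102) (nat_lit 3) (nat_lit 12) (.e false (nat_lit 48) (nat_lit 103) (nat_lit 3) (nat_lit 12) (.e true (nat_lit 24) (nat_lit 126) (nat_lit 0) (nat_lit 15) (.e true (nat_lit 24) (nat_lit 130) (nat_lit 0) (nat_lit 15) (.e true (nat_lit 36) (nat_lit 120) (nat_lit 1) (nat_lit 14) (.e false (nat_lit 36) (nat_lit 46) (nat_lit 7) (nat_lit 8) (.e true (nat_lit 36) (nat_lit 52) (nat_lit 7) (nat_lit 8) (.e true (nat_lit 60) (nat_lit 137) (nat_lit 0) (nat_lit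 15) (.e true (nat_lit 24) (nat_lit 147) (nat_lit 0) (nat_lit 15) (.e true (nat_lit 12) (nat_lit 149) (nat_lit 0) (nat_lit 15) (.e true (nat_lit 24) (nat_lit 127) (nat_lit 0) (nat_lit 15) (.e false (nat_lit 24) (nat_lit 138) (nat_lit 0) (nat_lit 15) (.e true (nat_lit 48) (nat_lit 142) (nat_lit 0) (nat_lit 15) (.e false (nat_lit 48) (nat_lit 145) (nat_lit 0) (nat_lit 15) (.e true (nat_lit 60) (nat_lit 146) (nat_lit 0) (nat_lit 15) (.e false (nat_lit 36) (nat_lit 88) (nat_lit 3) (nat_lit 12) (.e false (nat_lit 36) (nat_lit 115) (nat_lit 1) (nat_lit 14) (.e false (nat_lit 36) (nat_lit 111) (nat_lit 2) (nat_lit 13) (.e true (nat_lit 36) (nat_lit 116) (nat_lit 1) (nat_lit 14) (.e true (nat_lit 36) (nat_lit 64) (nat_lit 4) (nat_lit 11) .nil)))))))))))))))))))))))))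

noncomputable def dW4x_i25 : IL := (.s false (nat_lit 1) (nat_lit 20) (nat_lit 0) (nat_lit 1) (nat_lit 3) true (nat_lit 8) true (nat_lit 12) false (nat_lit 0) true (nat_lit 15) true (nat_lit 14) (.s false (nat_lit 1) (nat_lit 20) (nat_lit 1) (nat_lit 0) (nat_lit 3) true (nat_lit 7) true (nat_lit 12) false (nat_lit 0) true (nat_lit 14) true (nat_lit 15) (.s false (nat_lit 1) (nat_lit 20) (nat_lit 1) (nat_lit 3) (nat_lit 0) true (nat_lit 11) true (nat_lit 15) false (nat_lit 0) true (nat_lit 14) true (nat_lit 12) (.s true (nat_lit 1) (nat_lit 22) (nat_lit 3) (nat_lit 0) (nat_lit 1) true (nat_lit 7) true (nat_lit 14) false (nat_lit 0) true (nat_lit 12) true (nat_lit 15) (.s false (nat_lit 1) (nat_lit 20) (nat_lit 3) (nat_lit 1) (nat_lit 0) true (nat_lit 8) true (nat_lit 15) false (nat_lit 0) true (nat_lit 12) true (nat_lit 14) (.s true (nat_lit 1) (nat_lit 23) (nat_lit 3) (nat_lit 0) (nat_lit 0) true (nat_lit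 8) true (nat_lit 15) false (nat_lit 1) true (nat_lit 12) true (nat_lit 15) (.s true (nat_lit 2) (nat_lit 28) (nat_lit 0) (nat_lit 0) (nat_lit 2) true (nat_lit 10) true (nat_lit 13) false (nat_lit 3) true (nat_lit 15) true (nat_lit 15) (.e true (nat_lit 12) (nat_lit 128) (nat_lit 0) (nat_lit 15) (.e false (nat_lit 12) (nat_lit 129) (nat_lit 0) (nat_lit 15) (.e false (nat_lit 12) (nat_lit 131) (nat_lit 0) (nat_lit 15) (.e false (nat_lit 36) (nat_lit 132) (nat_lit 0) (nat_lit 15) (.e false (nat_lit 48) (nat_lit 133) (nat_lit 0) (nat_lit 15) (.e false (nat_lit 12) (nat_lit 135) (nat_lit 0) (nat_lit 15) (.e false (nat_lit 24) (nat_lit 144) (nat_lit 0) (nat_lit 15) (.e true (nat_lit 84) (nat_lit 150) (nat_lit 0) (nat_lit 15) (.e true (nat_lit 36) (nat_lit 114) (nat_lit 2) (nat_lit 13) (.e true (nat_lit 24) (nat_lit 86) (nat_lit 3) (nat_lit 12) (.e false (nat_lit 60) (nat_lit 87) (nat_lit 3) (nat_lit 12) (.e false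 (nat_lit 24) (nat_lit 89) (nat_lit 3) (nat_lit 12) (.e true (nat_lit 60) (nat_lit 90) (nat_lit 3) (nat_lit 12) (.e true (nat_lit 36) (nat_lit 91) (nat_lit 3) (nat_lit 12) (.e true (nat_lit 24) (nat_lit 93) (nat_lit 3) (nat_lit 12) (.e false (nat_lit 24) (nat_lit 94) (nat_lit 3) (nat_lit 12) (.e false (nat_lit 24) (nat_lit 95) (nat_lit 3) (nat_lit 12) (.e false (nat_lit 12) (nat_lit 96) (nat_lit 3) (nat_lit 12) dW4x_i24)))))))))))))))))))))))))

noncomputable def dW4x_i26 : IL := (.e false (nat_lit 144) (nat_lit 97) (nat_lit 3) (nat_lit 12) (.e true (nat_lit 216) (nat_lit 86) (nat_lit 3) (nat_lit 12) (.e false (nat_lit 144) (nat_lit 87) (nat_lit 3) (nat_lit 12) (.e true (nat_lit 72) (nat_lit 89) (nat_lit 3) (nat_lit 12) (.e false (nat_lit 216) (nat_lit 95) (nat_lit 3) (nat_lit 12) (.e true (nat_lit 72) (nat_lit 96) (nat_lit 3) (nat_lit 12) (.e false (nat_lit 144) (nat_lit 98) (nat_lit 3) (nat_lit 12) (.e true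 (nat_lit 72) (nat_lit 99) (nat_lit 3) (nat_lit 12) (.e true (nat_lit 72) (nat_lit 101) (nat_lit 3) (nat_lit 12) (.e true (nat_lit 72) (nat_lit 102) (nat_lit 3) (nat_lit 12) (.e false (nat_lit 72) (nat_lit 103) (nat_lit 3) (nat_lit 12) (.e true (nat_lit 144) (nat_lit 50) (nat_lit 7) (nat_lit 8) (.e false (nat_lit 72) (nat_lit 91) (nat_lit 3) (nat_lit 12) (.e false (nat_lit 144) (nat_lit 111) (nat_lit 2) (nat_lit 13) (.e true (nat_lit 72) (nat_lit 106) (nat_lit 2) (nat_lit 13) (.e true (nat_lit 72) (nat_lit 64) (nat_lit 4) (nat_lit 11) (.e true (nat_lit 144) (nat_lit 116) (nat_lit 1) (nat_lit 14) (.e false (nat_lit 72) (nat_lit 52) (nat_lit 7) (nat_lit 8) (.e true (nat_lit 72) (nat_lit 85) (nat_lit 3) (nat_lit 12) (.e false (nat_lit 72) (nat_lit 92) (nat_lit 3) (nat_lit 12) (.e false (nat_lit 144) (nat_lit 115) (nat_lit 1) (nat_lit 14) (.e true (nat_lit 72) (nat_lit 117) (nat_lit 1) (nat_lit 14) (.e false (nat_lit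 72) (nat_lit 120) (nat_lit 1) (nat_lit 14) (.e true (nat_lit 72) (nat_lit 68) (nat_lit 4) (nat_lit 11) (.e true (nat_lit 72) (nat_lit 108) (nat_lit 2) (nat_lit 13) .nil)))))))))))))))))))))))))

noncomputable def dW4x_i27 : IL := (.s false (nat_lit 1) (nat_lit 15) (nat_lit 0) (nat_lit 3) (nat_lit 3) true (nat_lit 8) true (nat_lit 12) true (nat_lit 2) true (nat_lit 15) true (nat_lit 12) (.s false (nat_lit 1) (nat_lit 15) (nat_lit 3) (nat_lit 0) (nat_lit 3) true (nat_lit 5) true (nat_lit 12) true (nat_lit 2) true (nat_lit 12) true (nat_lit 15) (.s true (nat_lit 1) (nat_lit 15) (nat_lit 3) (nat_lit 3) (nat_lit 0) true (nat_lit 8) true (nat_lit 15) true (nat_lit 2) true (nat_lit 12) true (nat_lit 12) (.s true (nat_lit 4) (nat_lit 19) (nat_lit 0) (nat_lit 2) (nat_lit 3) true (nat_lit 8) true (nat_lit 12) true (nat_lit 0) true (nat_lit 15) true (nat_lit 13) (.s true (nat_lit 2) (nat_lit 19) (nat_lit 0) (nat_lit 3)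 (nat_lit 2) true (nat_lit 10) true (nat_lit 13) true (nat_lit 0) true (nat_lit 15) true (nat_lit 12) (.s true (nat_lit 2) (nat_lit 19) (nat_lit 2) (nat_lit 0) (nat_lit 3) true (nat_lit 6) true (nat_lit 12) true (nat_lit 0) true (nat_lit 13) true (nat_lit 15) (.s true (nat_lit 2) (nat_lit 19) (nat_lit 2) (nat_lit 3) (nat_lit 0) true (nat_lit 10) true (nat_lit 15) true (nat_lit 0) true (nat_lit 13) true (nat_lit 12) (.s false (nat_lit 2) (nat_lit 20) (nat_lit 1) (nat_lit 3) (nat_lit 0) true (nat_lit 11) true (nat_lit 15) false (nat_lit 0) true (nat_lit 14) true (nat_lit 12) (.s true (nat_lit 2) (nat_lit 21) (nat_lit 3) (nat_lit 1) (nat_lit 0) true (nat_lit 8) true (nat_lit 15) false (nat_lit 0) true (nat_lit 12) true (nat_lit 14) (.s false (nat_lit 2) (nat_lit 27) (nat_lit 1) (nat_lit 2) (nat_lit 0) true (nat_lit 11) true (nat_lit 15) false (nat_lit 2) true (nat_lit 14) true (nat_lit 13) (.e true (nat_lit 72)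 (nat_lit 126) (nat_lit 0) (nat_lit 15) (.e false (nat_lit 72) (nat_lit 127) (nat_lit 0) (nat_lit 15) (.e false (nat_lit 72) (nat_lit 128) (nat_lit 0) (nat_lit 15) (.e false (nat_lit 72) (nat_lit 129) (nat_lit 0) (nat_lit 15) (.e false (nat_lit 216) (nat_lit 130) (nat_lit 0) (nat_lit 15) (.e false (nat_lit 144) (nat_lit 131) (nat_lit 0) (nat_lit 15) (.e true (nat_lit 144) (nat_lit 133) (nat_lit 0) (nat_lit 15) (.e true (nat_lit 144) (nat_lit 134) (nat_lit 0) (nat_lit 15) (.e true (nat_lit 288) (nat_lit 135) (nat_lit 0) (nat_lit 15) (.e true (nat_lit 72) (nat_lit 136) (nat_lit 0) (nat_lit 15) (.e true (nat_lit 72) (nat_lit 137) (nat_lit 0) (nat_lit 15) (.e false (nat_lit 144) (nat_lit 140) (nat_lit 0) (nat_lit 15) (.e true (nat_lit 144) (nat_lit 141) (nat_lit 0) (nat_lit 15) (.e true (nat_lit 72) (nat_lit 132) (nat_lit 0) (nat_lit 15) (.e false (nat_lit 288) (nat_lit 88) (nat_lit 3) (nat_lit 12) dW4x_i26)))))))))))))))))))))))))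

noncomputable def dW4x_i28 : IL := (.e true (nat_lit 36) (nat_lit 58) (nat_lit 5) (nat_lit 10) (.e true (nat_lit 36) (nat_lit 110) (nat_lit 2) (nat_lit 13) (.e false (nat_lit 36) (nat_lit 111) (nat_lit 2) (nat_lit 13) (.e false (nat_lit 72) (nat_lit 136) (nat_lit 0) (nat_lit 15) (.e false (nat_lit 12) (nat_lit 86) (nat_lit 3) (nat_lit 12) (.e true (nat_lit 12) (nat_lit 89) (nat_lit 3) (nat_lit 12) (.e false (nat_lit 12) (nat_lit 93) (nat_lit 3) (nat_lit 12) (.e true (nat_lit 12) (nat_lit 95) (nat_lit 3) (nat_lit 12) (.e false (nat_lit 12) (nat_lit 98) (nat_lit 3) (nat_lit 12) (.e true (nat_lit 12) (nat_lit 99) (nat_lit 3) (nat_lit 12) (.e false (nat_lit 24) (nat_lit 100) (nat_lit 3) (nat_lit 12) (.e true (nat_lit 12) (nat_lit 101) (nat_lit 3) (nat_lit 12) (.e false (nat_lit 12) (nat_lit 102) (nat_lit 3) (nat_lit 12) (.e true (nat_lit 12) (nat_lit 94) (nat_lit 3) (nat_lit 12) (.e true (nat_lit 36) (nat_lit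 134) (nat_lit 0) (nat_lit 15) (.e true (nat_lit 36) (nat_lit 140) (nat_lit 0) (nat_lit 15) (.e false (nat_lit 36) (nat_lit 120) (nat_lit 1) (nat_lit 14) (.e false (nat_lit 36) (nat_lit 64) (nat_lit 4) (nat_lit 11) (.e true (nat_lit 36) (nat_lit 132) (nat_lit 0) (nat_lit 15) (.e false (nat_lit 36) (nat_lit 121) (nat_lit 1) (nat_lit 14) (.e false (nat_lit 36) (nat_lit 85) (nat_lit 3) (nat_lit 12) (.e true (nat_lit 48) (nat_lit 87) (nat_lit 3) (nat_lit 12) (.e false (nat_lit 12) (nat_lit 96) (nat_lit 3) (nat_lit 12) (.e true (nat_lit 24) (nat_lit 97) (nat_lit 3) (nat_lit 12) (.e true (nat_lit 24) (nat_lit 103) (nat_lit 3) (nat_lit 12) .nil)))))))))))))))))))))))))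

noncomputable def dW4x_i29 : IL := (.e false (nat_lit 36) (nat_lit 89) (nat_lit 3) (nat_lit 12) (.e true (nat_lit 36) (nat_lit 90) (nat_lit 3) (nat_lit 12) (.e true (nat_lit 72) (nat_lit 91) (nat_lit 3) (nat_lit 12) (.e true (nat_lit 36) (nat_lit 95) (nat_lit 3) (nat_lit 12) (.e false (nat_lit 36) (nat_lit 98) (nat_lit 3) (nat_lit 12) (.e true (nat_lit 108) (nat_lit 126) (nat_lit 0) (nat_lit 15) (.e false (nat_lit 36) (nat_lit 128) (nat_lit 0) (nat_lit 15) (.e false (nat_lit 72) (nat_lit 130) (nat_lit 0) (nat_lit 15) (.e false (nat_lit 36) (nat_lit 137) (nat_lit 0) (nat_lit 15) (.e true (nat_lit 72) (nat_lit 138) (nat_lit 0) (nat_lit 15) (.e false (nat_lit 36) (nat_lit 144) (nat_lit 0) (nat_lit 15) (.e true (nat_lit 36) (nat_lit 147) (nat_lit 0) (nat_lit 15) (.e false (nat_lit 36) (nat_lit 149) (nat_lit 0) (nat_lit 15) (.e true (nat_lit 36) (nat_lit 109) (nat_lit 2) (nat_lit 13) (.e true (nat_lit 36) (nat_lit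 50) (nat_lit 7) (nat_lit 8) (.e true (nat_lit 36) (nat_lit 134) (nat_lit 0) (nat_lit 15) (.e false (nat_lit 36) (nat_lit 111) (nat_lit 2) (nat_lit 13) (.e true (nat_lit 36) (nat_lit 58) (nat_lit 5) (nat_lit 10) (.e false (nat_lit 36) (nat_lit 116) (nat_lit 1) (nat_lit 14) (.e true (nat_lit 36) (nat_lit 121) (nat_lit 1) (nat_lit 14) (.e false (nat_lit 36) (nat_lit 122) (nat_lit 1) (nat_lit 14) (.e true (nat_lit 36) (nat_lit 94) (nat_lit 3) (nat_lit 12) (.e true (nat_lit 72) (nat_lit 125) (nat_lit 1) (nat_lit 14) (.e false (nat_lit 72) (nat_lit 139) (nat_lit 0) (nat_lit 15) (.e true (nat_lit 108) (nat_lit 141) (nat_lit 0) (nat_lit 15) .nil)))))))))))))))))))))))))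

noncomputable def dW4x_i30 : IL := (.e true (nat_lit 12) (nat_lit 135) (nat_lit 0) (nat_lit 15) (.e true (nat_lit 12) (nat_lit 137) (nat_lit 0) (nat_lit 15) (.e false (nat_lit 12) (nat_lit 138) (nat_lit 0) (nat_lit 15) (.e false (nat_lit 12) (nat_lit 142) (nat_lit 0) (nat_lit 15) (.e false (nat_lit 12) (nat_lit 144) (nat_lit 0) (nat_lit 15) (.e true (nat_lit 12) (nat_lit 145) (nat_lit 0) (nat_lit 15) (.e true (nat_lit 12) (nat_lit 146) (nat_lit 0) (nat_lit 15) (.e true (nat_lit 12) (nat_lit 147) (nat_lit 0) (nat_lit 15) (.e false (nat_lit 12) (nat_lit 149) (nat_lit 0) (nat_lit 15) (.e false (nat_lit 12) (nat_lit 150) (nat_lit 0) (nat_lit 15) (.e false (nat_lit 36) (nat_lit 109) (nat_lit 2) (nat_lit 13) (.e true (nat_lit 72) (nat_lit 98) (nat_lit 3) (nat_lit 12) (.e false (nat_lit 36) (nat_lit 105) (nat_lit 2) (nat_lit 13) (.e false (nat_lit 36) (nat_lit 58) (nat_lit 5) (nat_lit 10) (.e false (nat_lit 36) (nat_lit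 86) (nat_lit 3) (nat_lit 12) (.e true (nat_lit 36) (nat_lit 88) (nat_lit 3) (nat_lit 12) (.e false (nat_lit 36) (nat_lit 89) (nat_lit 3) (nat_lit 12) (.e true (nat_lit 36) (nat_lit 91) (nat_lit 3) (nat_lit 12) (.e true (nat_lit 36) (nat_lit 92) (nat_lit 3) (nat_lit 12) (.e true (nat_lit 36) (nat_lit 93) (nat_lit 3) (nat_lit 12) (.e true (nat_lit 36) (nat_lit 95) (nat_lit 3) (nat_lit 12) (.e false (nat_lit 36) (nat_lit 99) (nat_lit 3) (nat_lit 12) (.e true (nat_lit 36) (nat_lit 100) (nat_lit 3) (nat_lit 12) (.e false (nat_lit 36) (nat_lit 101) (nat_lit 3) (nat_lit 12) (.e false (nat_lit 36) (nat_lit 102) (nat_lit 3) (nat_lit 12) .nil)))))))))))))))))))))))))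

noncomputable def dW4x_i31 : IL := (.e true (nat_lit 12) (nat_lit 97) (nat_lit 3) (nat_lit 12) (.e true (nat_lit 12) (nat_lit 98) (nat_lit 3) (nat_lit 12) (.e true (nat_lit 24) (nat_lit 99) (nat_lit 3) (nat_lit 12) (.e true (nat_lit 24) (nat_lit 100) (nat_lit 3) (nat_lit 12) (.e false (nat_lit 12) (nat_lit 101) (nat_lit 3) (nat_lit 12) (.e false (nat_lit 24) (nat_lit 102) (nat_lit 3) (nat_lit 12) (.e false (nat_lit 24) (nat_lit 103) (nat_lit 3) (nat_lit 12) (.e false (nat_lit 36) (nat_lit 128) (nat_lit 0) (nat_lit 15) (.e false (nat_lit 36) (nat_lit 129) (nat_lit 0) (nat_lit 15) (.e false (nat_lit 36) (nat_lit 130) (nat_lit 0) (nat_lit 15) (.e false (nat_lit 36) (nat_lit 131) (nat_lit 0) (nat_lit 15) (.e true (nat_lit 36) (nat_lit 132) (nat_lit 0) (nat_lit 15) (.e true (nat_lit 36) (nat_lit 133) (nat_lit 0) (nat_lit 15) (.e true (nat_lit 36) (nat_lit 134) (nat_lit 0) (nat_lit 15) (.e true (nat_lit 36) (nat_lit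 135) (nat_lit 0) (nat_lit 15) (.e false (nat_lit 36) (nat_lit 136) (nat_lit 0) (nat_lit 15) (.e true (nat_lit 36) (nat_lit 139) (nat_lit 0) (nat_lit 15) (.e true (nat_lit 36) (nat_lit 140) (nat_lit 0) (nat_lit 15) (.e false (nat_lit 36) (nat_lit 141) (nat_lit 0) (nat_lit 15) (.e true (nat_lit 36) (nat_lit 142) (nat_lit 0) (nat_lit 15) (.e false (nat_lit 36) (nat_lit 144) (nat_lit 0) (nat_lit 15) (.e false (nat_lit 36) (nat_lit 145) (nat_lit 0) (nat_lit 15) (.e true (nat_lit 36) (nat_lit 146) (nat_lit 0) (nat_lit 15) (.e true (nat_lit 36) (nat_lit 150) (nat_lit 0) (nat_lit 15) (.e false (nat_lit 36) (nat_lit 147) (nat_lit 0) (nat_lit 15) .nil)))))))))))))))))))))))))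

noncomputable def dW4x_i32 : IL := (.e false (nat_lit 36) (nat_lit 137) (nat_lit 0) (nat_lit 15) (.e true (nat_lit 36) (nat_lit 138) (nat_lit 0) (nat_lit 15) (.e true (nat_lit 36) (nat_lit 140) (nat_lit 0) (nat_lit 15) (.e false (nat_lit 72) (nat_lit 141) (nat_lit 0) (nat_lit 15) (.e false (nat_lit 72) (nat_lit 50) (nat_lit 7) (nat_lit 8) (.e false (nat_lit 36) (nat_lit 132) (nat_lit 0) (nat_lit 15) (.e true (nat_lit 36) (nat_lit 111) (nat_lit 2) (nat_lit 13) (.e false (nat_lit 24) (nat_lit 100) (nat_lit 3) (nat_lit 12) (.e false (nat_lit 36) (nat_lit 109) (nat_lit 2) (nat_lit 13) (.e false (nat_lit 36) (nat_lit 110) (nat_lit 2) (nat_lit 13) (.e false (nat_lit 72) (nat_lit 114) (nat_lit 2) (nat_lit 13) (.e true (nat_lit 24) (nat_lit 86) (nat_lit 3) (nat_lit 12) (.e false (nat_lit 24) (nat_lit 87) (nat_lit 3) (nat_lit 12) (.e false (nat_lit 24) (nat_lit 89) (nat_lit 3) (nat_lit 12) (.e true (nat_lit 24) (nat_lit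 90) (nat_lit 3) (nat_lit 12) (.e true (nat_lit 24) (nat_lit 93) (nat_lit 3) (nat_lit 12) (.e false (nat_lit 24) (nat_lit 94) (nat_lit 3) (nat_lit 12) (.e true (nat_lit 12) (nat_lit 95) (nat_lit 3) (nat_lit 12) (.e false (nat_lit 12) (nat_lit 96) (nat_lit 3) (nat_lit 12) (.e false (nat_lit 12) (nat_lit 97) (nat_lit 3) (nat_lit 12) (.e true (nat_lit 24) (nat_lit 98) (nat_lit 3) (nat_lit 12) (.e false (nat_lit 24) (nat_lit 99) (nat_lit 3) (nat_lit 12) (.e true (nat_lit 12) (nat_lit 101) (nat_lit 3) (nat_lit 12) (.e false (nat_lit 12) (nat_lit 102) (nat_lit 3) (nat_lit 12) (.e false (nat_lit 12) (nat_lit 103) (nat_lit 3) (nat_lit 12) .nil)))))))))))))))))))))))))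

noncomputable def dW4x_i33 : IL := (.e true (nat_lit 36) (nat_lit 150) (nat_lit 0) (nat_lit 15) (.e true (nat_lit 36) (nat_lit 114) (nat_lit 2) (nat_lit 13) (.e true (nat_lit 36) (nat_lit 89) (nat_lit 3) (nat_lit 12) (.e false (nat_lit 36) (nat_lit 91) (nat_lit 3) (nat_lit 12) (.e false (nat_lit 36) (nat_lit 95) (nat_lit 3) (nat_lit 12) (.e false (nat_lit 36) (nat_lit 98) (nat_lit 3) (nat_lit 12) (.e true (nat_lit 36) (nat_lit 101) (nat_lit 3) (nat_lit 12) (.e true (nat_lit 36) (nat_lit 102) (nat_lit 3) (nat_lit 12) (.e true (nat_lit 36) (nat_lit 130) (nat_lit 0) (nat_lit 15) (.e true (nat_lit 36) (nat_lit 127) (nat_lit 0) (nat_lit 15) (.e true (nat_lit 36) (nat_lit 137) (nat_lit 0) (nat_lit 15) (.e false (nat_lit 36) (nat_lit 138) (nat_lit 0) (nat_lit 15) (.e true (nat_lit 36) (nat_lit 142) (nat_lit 0) (nat_lit 15) (.e false (nat_lit 36) (nat_lit 145) (nat_lit 0) (nat_lit 15) (.e true (nat_lit 36) (nat_lit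 146) (nat_lit 0) (nat_lit 15) (.e true (nat_lit 36) (nat_lit 117) (nat_lit 1) (nat_lit 14) (.e false (nat_lit 36) (nat_lit 121) (nat_lit 1) (nat_lit 14) (.e true (nat_lit 36) (nat_lit 125) (nat_lit 1) (nat_lit 14) (.e false (nat_lit 36) (nat_lit 88) (nat_lit 3) (nat_lit 12) (.e false (nat_lit 72) (nat_lit 115) (nat_lit 1) (nat_lit 14) (.e false (nat_lit 36) (nat_lit 64) (nat_lit 4) (nat_lit 11) (.e true (nat_lit 72) (nat_lit 116) (nat_lit 1) (nat_lit 14) (.e false (nat_lit 36) (nat_lit 65) (nat_lit 4) (nat_lit 11) (.e false (nat_lit 36) (nat_lit 123) (nat_lit 1) (nat_lit 14) (.e false (nat_lit 36) (nat_lit 92) (nat_lit 3) (nat_lit 12) .nil)))))))))))))))))))))))))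

noncomputable def dW4x_i34 : IL := (.e true (nat_lit 36) (nat_lit 131) (nat_lit 0) (nat_lit 15) (.e false (nat_lit 36) (nat_lit 134) (nat_lit 0) (nat_lit 15) (.e false (nat_lit 36) (nat_lit 135) (nat_lit 0) (nat_lit 15) (.e false (nat_lit 36) (nat_lit 136) (nat_lit 0) (nat_lit 15) (.e false (nat_lit 36) (nat_lit 137) (nat_lit 0) (nat_lit 15) (.e true (nat_lit 36) (nat_lit 140) (nat_lit 0) (nat_lit 15) (.e false (nat_lit 72) (nat_lit 141) (nat_lit 0) (nat_lit 15) (.e false (nat_lit 36) (nat_lit 109) (nat_lit 2) (nat_lit 13) (.e false (nat_lit 36) (nat_lit 110) (nat_lit 2) (nat_lit 13) (.e true (nat_lit 36) (nat_lit 111) (nat_lit 2) (nat_lit 13) (.e true (nat_lit 36) (nat_lit 113) (nat_lit 2) (nat_lit 13) (.e false (nat_lit 36) (nat_lit 114) (nat_lit 2) (nat_lit 13) (.e false (nat_lit 72) (nat_lit 50) (nat_lit 7) (nat_lit 8) (.e false (nat_lit 36) (nat_lit 91) (nat_lit 3) (nat_lit 12) (.e false (nat_lit 36)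 (nat_lit 64) (nat_lit 4) (nat_lit 11) (.e true (nat_lit 72) (nat_lit 116) (nat_lit 1) (nat_lit 14) (.e true (nat_lit 36) (nat_lit 122) (nat_lit 1) (nat_lit 14) (.e false (nat_lit 36) (nat_lit 65) (nat_lit 4) (nat_lit 11) (.e false (nat_lit 36) (nat_lit 115) (nat_lit 1) (nat_lit 14) (.e true (nat_lit 36) (nat_lit 120) (nat_lit 1) (nat_lit 14) (.e false (nat_lit 36) (nat_lit 123) (nat_lit 1) (nat_lit 14) (.e false (nat_lit 36) (nat_lit 124) (nat_lit 1) (nat_lit 14) (.e true (nat_lit 72) (nat_lit 125) (nat_lit 1) (nat_lit 14) (.e false (nat_lit 36) (nat_lit 92) (nat_lit 3) (nat_lit 12) (.e true (nat_lit 36) (nat_lit 54) (nat_lit 7) (nat_lit 8) .nil)))))))))))))))))))))))))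

noncomputable def dW4x_i35 : IL := (.e false (nat_lit 72) (nat_lit 122) (nat_lit 1) (nat_lit 14) (.e true (nat_lit 72) (nat_lit 124) (nat_lit 1) (nat_lit 14) (.e false (nat_lit 72) (nat_lit 131) (nat_lit 0) (nat_lit 15) (.e true (nat_lit 72) (nat_lit 133) (nat_lit 0) (nat_lit 15) (.e true (nat_lit 72) (nat_lit 134) (nat_lit 0) (nat_lit 15) (.e true (nat_lit 216) (nat_lit 135) (nat_lit 0) (nat_lit 15) (.e true (nat_lit 72) (nat_lit 147) (nat_lit 0) (nat_lit 15) (.e false (nat_lit 72) (nat_lit 139) (nat_lit 0) (nat_lit 15) (.e true (nat_lit 72) (nat_lit 146) (nat_lit 0) (nat_lit 15) (.e false (nat_lit 72) (nat_lit 88) (nat_lit 3) (nat_lit 12) (.e false (nat_lit 72) (nat_lit 97) (nat_lit 3) (nat_lit 12) (.e false (nat_lit 72) (nat_lit 89) (nat_lit 3) (nat_lit 12) (.e true (nat_lit 72) (nat_lit 90) (nat_lit 3) (nat_lit 12) (.e true (nat_lit 72) (nat_lit 93) (nat_lit 3) (nat_lit 12) (.e true (nat_lit 72) (nat_lit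 94) (nat_lit 3) (nat_lit 12) (.e true (nat_lit 72) (nat_lit 50) (nat_lit 7) (nat_lit 8) (.e true (nat_lit 144) (nat_lit 91) (nat_lit 3) (nat_lit 12) (.e true (nat_lit 144) (nat_lit 126) (nat_lit 0) (nat_lit 15) (.e false (nat_lit 72) (nat_lit 111) (nat_lit 2) (nat_lit 13) (.e false (nat_lit 72) (nat_lit 110) (nat_lit 2) (nat_lit 13) (.e false (nat_lit 144) (nat_lit 115) (nat_lit 1) (nat_lit 14) (.e true (nat_lit 144) (nat_lit 116) (nat_lit 1) (nat_lit 14) (.e true (nat_lit 72) (nat_lit 108) (nat_lit 2) (nat_lit 13) (.e true (nat_lit 72) (nat_lit 138) (nat_lit 0) (nat_lit 15) (.e false (nat_lit 72) (nat_lit 149) (nat_lit 0) (nat_lit 15) .nil)))))))))))))))))))))))))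

noncomputable def dW4x_i36 : IL := (.e false (nat_lit 72) (nat_lit 134) (nat_lit 0) (nat_lit 15) (.e false (nat_lit 144) (nat_lit 135) (nat_lit 0) (nat_lit 15) (.e true (nat_lit 72) (nat_lit 140) (nat_lit 0) (nat_lit 15) (.e true (nat_lit 144) (nat_lit 88) (nat_lit 3) (nat_lit 12) (.e true (nat_lit 96) (nat_lit 97) (nat_lit 3) (nat_lit 12) (.e false (nat_lit 48) (nat_lit 86) (nat_lit 3) (nat_lit 12) (.e true (nat_lit 48) (nat_lit 87) (nat_lit 3) (nat_lit 12) (.e true (nat_lit 48) (nat_lit 89) (nat_lit 3) (nat_lit 12) (.e false (nat_lit 48) (nat_lit 90) (nat_lit 3) (nat_lit 12) (.e false (nat_lit 48) (nat_lit 93) (nat_lit 3) (nat_lit 12) (.e true (nat_lit 48) (nat_lit 94) (nat_lit 3) (nat_lit 12) (.e true (nat_lit 48) (nat_lit 95) (nat_lit 3) (nat_lit 12) (.e false (nat_lit 48) (nat_lit 96) (nat_lit 3) (nat_lit 12) (.e true (nat_lit 24) (nat_lit 98) (nat_lit 3) (nat_lit 12) (.e false (nat_lit 24) (nat_lit 99)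 (nat_lit 3) (nat_lit 12) (.e false (nat_lit 24) (nat_lit 100) (nat_lit 3) (nat_lit 12) (.e false (nat_lit 24) (nat_lit 101) (nat_lit 3) (nat_lit 12) (.e true (nat_lit 24) (nat_lit 102) (nat_lit 3) (nat_lit 12) (.e true (nat_lit 24) (nat_lit 103) (nat_lit 3) (nat_lit 12) (.e false (nat_lit 72) (nat_lit 68) (nat_lit 4) (nat_lit 11) (.e true (nat_lit 144) (nat_lit 120) (nat_lit 1) (nat_lit 14) (.e false (nat_lit 144) (nat_lit 123) (nat_lit 1) (nat_lit 14) (.e false (nat_lit 72) (nat_lit 124) (nat_lit 1) (nat_lit 14) (.e true (nat_lit 144) (nat_lit 125) (nat_lit 1) (nat_lit 14) (.e false (nat_lit 72) (nat_lit 108) (nat_lit 2) (nat_lit 13) .nil)))))))))))))))))))))))))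

noncomputable def dW4x_i37 : IL := (.s false (nat_lit 1) (nat_lit 20) (nat_lit 1) (nat_lit 3) (nat_lit 0) true (nat_lit 11) true (nat_lit 15) false (nat_lit 0) true (nat_lit 14) true (nat_lit 12) (.s true (nat_lit 1) (nat_lit 30) (nat_lit 0) (nat_lit 0) (nat_lit 1) true (nat_lit 11) true (nat_lit 14) false (nat_lit 4) true (nat_lit 15) true (nat_lit 15) (.e true (nat_lit 36) (nat_lit 50) (nat_lit 7) (nat_lit 8) (.e true (nat_lit 36) (nat_lit 91) (nat_lit 3) (nat_lit 12) (.e true (nat_lit 72) (nat_lit 126) (nat_lit 0) (nat_lit 15) (.e false (nat_lit 36) (nat_lit 128) (nat_lit 0) (nat_lit 15) (.e false (nat_lit 72) (nat_lit 130) (nat_lit 0) (nat_lit 15) (.e false (nat_lit 36) (nat_lit 131) (nat_lit 0) (nat_lit 15) (.e true (nat_lit 36) (nat_lit 133) (nat_lit 0) (nat_lit 15) (.e true (nat_lit 36) (nat_lit 134) (nat_lit 0) (nat_lit 15) (.e true (nat_lit 72) (nat_lit 135) (nat_lit 0) (nat_lit 15) (.e false (nat_lit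 36) (nat_lit 144) (nat_lit 0) (nat_lit 15) (.e false (nat_lit 36) (nat_lit 111) (nat_lit 2) (nat_lit 13) (.e true (nat_lit 36) (nat_lit 64) (nat_lit 4) (nat_lit 11) (.e false (nat_lit 36) (nat_lit 116) (nat_lit 1) (nat_lit 14) (.e true (nat_lit 36) (nat_lit 121) (nat_lit 1) (nat_lit 14) (.e false (nat_lit 36) (nat_lit 122) (nat_lit 1) (nat_lit 14) (.e true (nat_lit 36) (nat_lit 94) (nat_lit 3) (nat_lit 12) (.e true (nat_lit 36) (nat_lit 125) (nat_lit 1) (nat_lit 14) (.e true (nat_lit 36) (nat_lit 138) (nat_lit 0) (nat_lit 15) (.e false (nat_lit 36) (nat_lit 139) (nat_lit 0) (nat_lit 15) (.e true (nat_lit 72) (nat_lit 141) (nat_lit 0) (nat_lit 15) (.e true (nat_lit 36) (nat_lit 146) (nat_lit 0) (nat_lit 15) (.e true (nat_lit 36) (nat_lit 147) (nat_lit 0) (nat_lit 15) (.e false (nat_lit 36) (nat_lit 149) (nat_lit 0) (nat_lit 15) .nil)))))))))))))))))))))))))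

noncomputable def dW4x_i38 : IL := (.e true (nat_lit 60) (nat_lit 90) (nat_lit 3) (nat_lit 12) (.e true (nat_lit 144) (nat_lit 91) (nat_lit 3) (nat_lit 12) (.e false (nat_lit 36) (nat_lit 106) (nat_lit 2) (nat_lit 13) (.e false (nat_lit 36) (nat_lit 64) (nat_lit 4) (nat_lit 11) (.e true (nat_lit 36) (nat_lit 68) (nat_lit 4) (nat_lit 11) (.e false (nat_lit 36) (nat_lit 69) (nat_lit 4) (nat_lit 11) (.e false (nat_lit 36) (nat_lit 85) (nat_lit 3) (nat_lit 12) (.e false (nat_lit 120) (nat_lit 86) (nat_lit 3) (nat_lit 12) (.e true (nat_lit 48) (nat_lit 87) (nat_lit 3) (nat_lit 12) (.e true (nat_lit 108) (nat_lit 88) (nat_lit 3) (nat_lit 12) (.e true (nat_lit 72) (nat_lit 92) (nat_lit 3) (nat_lit 12) (.e true (nat_lit 60) (nat_lit 93) (nat_lit 3) (nat_lit 12) (.e true (nat_lit 12) (nat_lit 94) (nat_lit 3) (nat_lit 12) (.e true (nat_lit 120) (nat_lit 95) (nat_lit 3) (nat_lit 12) (.e false (nat_lit 12) (nat_lit 96)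 (nat_lit 3) (nat_lit 12) (.e true (nat_lit 24) (nat_lit 97) (nat_lit 3) (nat_lit 12) (.e true (nat_lit 96) (nat_lit 98) (nat_lit 3) (nat_lit 12) (.e false (nat_lit 60) (nat_lit 99) (nat_lit 3) (nat_lit 12) (.e true (nat_lit 48) (nat_lit 100) (nat_lit 3) (nat_lit 12) (.e false (nat_lit 60) (nat_lit 101) (nat_lit 3) (nat_lit 12) (.e false (nat_lit 84) (nat_lit 102) (nat_lit 3) (nat_lit 12) (.e true (nat_lit 24) (nat_lit 103) (nat_lit 3) (nat_lit 12) (.e false (nat_lit 36) (nat_lit 58) (nat_lit 5) (nat_lit 10) (.e true (nat_lit 36) (nat_lit 129) (nat_lit 0) (nat_lit 15) (.e true (nat_lit 36) (nat_lit 136) (nat_lit 0) (nat_lit 15) .nil)))))))))))))))))))))))))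

noncomputable def dW4x_i39 : IL := (.e true (nat_lit 36) (nat_lit 144) (nat_lit 0) (nat_lit 15) (.e true (nat_lit 36) (nat_lit 145) (nat_lit 0) (nat_lit 15) (.e false (nat_lit 36) (nat_lit 146) (nat_lit 0) (nat_lit 15) (.e false (nat_lit 72) (nat_lit 97) (nat_lit 3) (nat_lit 12) (.e false (nat_lit 36) (nat_lit 98) (nat_lit 3) (nat_lit 12) (.e false (nat_lit 36) (nat_lit 99) (nat_lit 3) (nat_lit 12) (.e true (nat_lit 36) (nat_lit 101) (nat_lit 3) (nat_lit 12) (.e true (nat_lit 36) (nat_lit 102) (nat_lit 3) (nat_lit 12) (.e true (nat_lit 36) (nat_lit 86) (nat_lit 3) (nat_lit 12) (.e false (nat_lit 72) (nat_lit 87) (nat_lit 3) (nat_lit 12) (.e false (nat_lit 36) (nat_lit 95) (nat_lit 3) (nat_lit 12) (.e true (nat_lit 36) (nat_lit 96) (nat_lit 3) (nat_lit 12) (.e false (nat_lit 72) (nat_lit 88) (nat_lit 3) (nat_lit 12) (.e true (nat_lit 72) (nat_lit 147) (nat_lit 0) (nat_lit 15) (.e true (nat_lit 36) (nat_lit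 42) (nat_lit 8) (nat_lit 7) (.e true (nat_lit 36) (nat_lit 121) (nat_lit 1) (nat_lit 14) (.e false (nat_lit 36) (nat_lit 122) (nat_lit 1) (nat_lit 14) (.e true (nat_lit 36) (nat_lit 104) (nat_lit 2) (nat_lit 13) (.e false (nat_lit 36) (nat_lit 38) (nat_lit 9) (nat_lit 6) (.e false (nat_lit 36) (nat_lit 115) (nat_lit 1) (nat_lit 14) (.e false (nat_lit 36) (nat_lit 58) (nat_lit 5) (nat_lit 10) (.e false (nat_lit 36) (nat_lit 110) (nat_lit 2) (nat_lit 13) (.e true (nat_lit 36) (nat_lit 111) (nat_lit 2) (nat_lit 13) (.e true (nat_lit 36) (nat_lit 64) (nat_lit 4) (nat_lit 11) (.e true (nat_lit 36) (nat_lit 85) (nat_lit 3) (nat_lit 12) .nil)))))))))))))))))))))))))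

noncomputable def dW4x_i40 : IL := (.e true (nat_lit 36) (nat_lit 96) (nat_lit 3) (nat_lit 12) (.e true (nat_lit 36) (nat_lit 46) (nat_lit 7) (nat_lit 8) (.e false (nat_lit 36) (nat_lit 116) (nat_lit 1) (nat_lit 14) (.e true (nat_lit 36) (nat_lit 121) (nat_lit 1) (nat_lit 14) (.e false (nat_lit 36) (nat_lit 122) (nat_lit 1) (nat_lit 14) (.e true (nat_lit 36) (nat_lit 130) (nat_lit 0) (nat_lit 15) (.e false (nat_lit 36) (nat_lit 134) (nat_lit 0) (nat_lit 15) (.e false (nat_lit 36) (nat_lit 135) (nat_lit 0) (nat_lit 15) (.e true (nat_lit 36) (nat_lit 147) (nat_lit 0) (nat_lit 15) (.e false (nat_lit 36) (nat_lit 149) (nat_lit 0) (nat_lit 15) (.e true (nat_lit 36) (nat_lit 127) (nat_lit 0) (nat_lit 15) (.e false (nat_lit 72) (nat_lit 136) (nat_lit 0) (nat_lit 15) (.e false (nat_lit 36) (nat_lit 137) (nat_lit 0) (nat_lit 15) (.e true (nat_lit 36) (nat_lit 138) (nat_lit 0) (nat_lit 15) (.e true (nat_lit 36) (nat_lit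 140) (nat_lit 0) (nat_lit 15) (.e false (nat_lit 36) (nat_lit 144) (nat_lit 0) (nat_lit 15) (.e true (nat_lit 36) (nat_lit 146) (nat_lit 0) (nat_lit 15) (.e true (nat_lit 36) (nat_lit 39) (nat_lit 9) (nat_lit 6) (.e false (nat_lit 36) (nat_lit 105) (nat_lit 2) (nat_lit 13) (.e true (nat_lit 36) (nat_lit 110) (nat_lit 2) (nat_lit 13) (.e false (nat_lit 36) (nat_lit 111) (nat_lit 2) (nat_lit 13) (.e false (nat_lit 72) (nat_lit 132) (nat_lit 0) (nat_lit 15) (.e true (nat_lit 36) (nat_lit 69) (nat_lit 4) (nat_lit 11) (.e true (nat_lit 36) (nat_lit 125) (nat_lit 1) (nat_lit 14) (.e false (nat_lit 36) (nat_lit 139) (nat_lit 0) (nat_lit 15) .nil)))))))))))))))))))))))))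

noncomputable def dW4x_i41 : IL := (.e false (nat_lit 36) (nat_lit 52) (nat_lit 7) (nat_lit 8) (.e false (nat_lit 36) (nat_lit 54) (nat_lit 7) (nat_lit 8) (.e false (nat_lit 48) (nat_lit 126) (nat_lit 0) (nat_lit 15) (.e false (nat_lit 12) (nat_lit 127) (nat_lit 0) (nat_lit 15) (.e true (nat_lit 12) (nat_lit 128) (nat_lit 0) (nat_lit 15) (.e false (nat_lit 12) (nat_lit 129) (nat_lit 0) (nat_lit 15) (.e true (nat_lit 24) (nat_lit 130) (nat_lit 0) (nat_lit 15) (.e false (nat_lit 12) (nat_lit 131) (nat_lit 0) (nat_lit 15) (.e false (nat_lit 12) (nat_lit 133) (nat_lit 0) (nat_lit 15) (.e false (nat_lit 12) (nat_lit 135) (nat_lit 0) (nat_lit 15) (.e true (nat_lit 24) (nat_lit 137) (nat_lit 0) (nat_lit 15) (.e false (nat_lit 24) (nat_lit 138) (nat_lit 0) (nat_lit 15) (.e true (nat_lit 36) (nat_lit 139) (nat_lit 0) (nat_lit 15) (.e false (nat_lit 36) (nat_lit 141) (nat_lit 0) (nat_lit 15) (.e true (nat_lit 12) (nat_lit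 142) (nat_lit 0) (nat_lit 15) (.e true (nat_lit 12) (nat_lit 144) (nat_lit 0) (nat_lit 15) (.e false (nat_lit 12) (nat_lit 145) (nat_lit 0) (nat_lit 15) (.e false (nat_lit 12) (nat_lit 146) (nat_lit 0) (nat_lit 15) (.e false (nat_lit 12) (nat_lit 147) (nat_lit 0) (nat_lit 15) (.e true (nat_lit 12) (nat_lit 149) (nat_lit 0) (nat_lit 15) (.e true (nat_lit 12) (nat_lit 150) (nat_lit 0) (nat_lit 15) (.e false (nat_lit 36) (nat_lit 105) (nat_lit 2) (nat_lit 13) (.e true (nat_lit 36) (nat_lit 110) (nat_lit 2) (nat_lit 13) (.e false (nat_lit 36) (nat_lit 111) (nat_lit 2) (nat_lit 13) (.e false (nat_lit 36) (nat_lit 136) (nat_lit 0) (nat_lit 15) .nil)))))))))))))))))))))))))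

noncomputable def dW4x_i42 : IL := (.e false (nat_lit 36) (nat_lit 86) (nat_lit 3) (nat_lit 12) (.e true (nat_lit 36) (nat_lit 87) (nat_lit 3) (nat_lit 12) (.e true (nat_lit 36) (nat_lit 88) (nat_lit 3) (nat_lit 12) (.e false (nat_lit 36) (nat_lit 96) (nat_lit 3) (nat_lit 12) (.e false (nat_lit 36) (nat_lit 46) (nat_lit 7) (nat_lit 8) (.e false (nat_lit 36) (nat_lit 126) (nat_lit 0) (nat_lit 15) (.e true (nat_lit 36) (nat_lit 130) (nat_lit 0) (nat_lit 15) (.e true (nat_lit 36) (nat_lit 134) (nat_lit 0) (nat_lit 15) (.e false (nat_lit 36) (nat_lit 64) (nat_lit 4) (nat_lit 11) (.e true (nat_lit 36) (nat_lit 132) (nat_lit 0) (nat_lit 15) (.e true (nat_lit 36) (nat_lit 114) (nat_lit 2) (nat_lit 13) (.e false (nat_lit 36) (nat_lit 129) (nat_lit 0) (nat_lit 15) (.e false (nat_lit 36) (nat_lit 131) (nat_lit 0) (nat_lit 15) (.e false (nat_lit 36) (nat_lit 133) (nat_lit 0) (nat_lit 15) (.e true (nat_lit 72) (nat_lit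 137) (nat_lit 0) (nat_lit 15) (.e false (nat_lit 72) (nat_lit 138) (nat_lit 0) (nat_lit 15) (.e true (nat_lit 36) (nat_lit 142) (nat_lit 0) (nat_lit 15) (.e false (nat_lit 36) (nat_lit 145) (nat_lit 0) (nat_lit 15) (.e false (nat_lit 36) (nat_lit 147) (nat_lit 0) (nat_lit 15) (.e true (nat_lit 36) (nat_lit 149) (nat_lit 0) (nat_lit 15) (.e true (nat_lit 72) (nat_lit 150) (nat_lit 0) (nat_lit 15) (.e false (nat_lit 36) (nat_lit 141) (nat_lit 0) (nat_lit 15) (.e false (nat_lit 36) (nat_lit 69) (nat_lit 4) (nat_lit 11) (.e false (nat_lit 36) (nat_lit 125) (nat_lit 1) (nat_lit 14) (.e true (nat_lit 36) (nat_lit 139) (nat_lit 0) (nat_lit 15) .nil)))))))))))))))))))))))))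

noncomputable def dW4x_i43 : IL := (.e true (nat_lit 36) (nat_lit 128) (nat_lit 0) (nat_lit 15) (.e true (nat_lit 24) (nat_lit 86) (nat_lit 3) (nat_lit 12) (.e false (nat_lit 24) (nat_lit 87) (nat_lit 3) (nat_lit 12) (.e false (nat_lit 72) (nat_lit 88) (nat_lit 3) (nat_lit 12) (.e false (nat_lit 24) (nat_lit 89) (nat_lit 3) (nat_lit 12) (.e true (nat_lit 24) (nat_lit 90) (nat_lit 3) (nat_lit 12) (.e true (nat_lit 24) (nat_lit 93) (nat_lit 3) (nat_lit 12) (.e false (nat_lit 24) (nat_lit 94) (nat_lit 3) (nat_lit 12) (.e false (nat_lit 24) (nat_lit 95) (nat_lit 3) (nat_lit 12) (.e true (nat_lit 24) (nat_lit 96) (nat_lit 3) (nat_lit 12) (.e false (nat_lit 12) (nat_lit 97) (nat_lit 3) (nat_lit 12) (.e false (nat_lit 12) (nat_lit 98) (nat_lit 3) (nat_lit 12) (.e true (nat_lit 12) (nat_lit 99) (nat_lit 3) (nat_lit 12) (.e true (nat_lit 12) (nat_lit 100) (nat_lit 3) (nat_lit 12) (.e true (nat_lit 12) (nat_lit 101)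 (nat_lit 3) (nat_lit 12) (.e false (nat_lit 12) (nat_lit 102) (nat_lit 3) (nat_lit 12) (.e false (nat_lit 12) (nat_lit 103) (nat_lit 3) (nat_lit 12) (.e true (nat_lit 36) (nat_lit 68) (nat_lit 4) (nat_lit 11) (.e false (nat_lit 36) (nat_lit 140) (nat_lit 0) (nat_lit 15) (.e false (nat_lit 36) (nat_lit 119) (nat_lit 1) (nat_lit 14) (.e false (nat_lit 72) (nat_lit 120) (nat_lit 1) (nat_lit 14) (.e true (nat_lit 72) (nat_lit 123) (nat_lit 1) (nat_lit 14) (.e true (nat_lit 36) (nat_lit 124) (nat_lit 1) (nat_lit 14) (.e false (nat_lit 72) (nat_lit 125) (nat_lit 1) (nat_lit 14) (.e true (nat_lit 36) (nat_lit 108) (nat_lit 2) (nat_lit 13) .nil)))))))))))))))))))))))))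

noncomputable def dW4x_i44 : IL := (.e false (nat_lit 36) (nat_lit 121) (nat_lit 1) (nat_lit 14) (.e true (nat_lit 36) (nat_lit 122) (nat_lit 1) (nat_lit 14) (.e false (nat_lit 36) (nat_lit 123) (nat_lit 1) (nat_lit 14) (.e false (nat_lit 36) (nat_lit 124) (nat_lit 1) (nat_lit 14) (.e true (nat_lit 36) (nat_lit 125) (nat_lit 1) (nat_lit 14) (.e true (nat_lit 36) (nat_lit 92) (nat_lit 3) (nat_lit 12) (.e true (nat_lit 36) (nat_lit 141) (nat_lit 0) (nat_lit 15) (.e true (nat_lit 12) (nat_lit 126) (nat_lit 0) (nat_lit 15) (.e false (nat_lit 24) (nat_lit 127) (nat_lit 0) (nat_lit 15) (.e false (nat_lit 12) (nat_lit 128) (nat_lit 0) (nat_lit 15) (.e true (nat_lit 12) (nat_lit 129) (nat_lit 0) (nat_lit 15) (.e false (nat_lit 24) (nat_lit 130) (nat_lit 0) (nat_lit 15) (.e true (nat_lit 12) (nat_lit 131) (nat_lit 0) (nat_lit 15) (.e true (nat_lit 12) (nat_lit 133) (nat_lit 0) (nat_lit 15) (.e true (nat_lit 12) (nat_lit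 135) (nat_lit 0) (nat_lit 15) (.e false (nat_lit 24) (nat_lit 137) (nat_lit 0) (nat_lit 15) (.e true (nat_lit 24) (nat_lit 138) (nat_lit 0) (nat_lit 15) (.e false (nat_lit 12) (nat_lit 142) (nat_lit 0) (nat_lit 15) (.e true (nat_lit 24) (nat_lit 144) (nat_lit 0) (nat_lit 15) (.e true (nat_lit 12) (nat_lit 145) (nat_lit 0) (nat_lit 15) (.e false (nat_lit 24) (nat_lit 146) (nat_lit 0) (nat_lit 15) (.e true (nat_lit 12) (nat_lit 147) (nat_lit 0) (nat_lit 15) (.e false (nat_lit 12) (nat_lit 149) (nat_lit 0) (nat_lit 15) (.e false (nat_lit 12) (nat_lit 150) (nat_lit 0) (nat_lit 15) (.e false (nat_lit 36) (nat_lit 114) (nat_lit 2) (nat_lit 13) .nil)))))))))))))))))))))))))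

noncomputable def dW4x_i45 : IL := (.s false (nat_lit 1) (nat_lit 19) (nat_lit 2) (nat_lit 0) (nat_lit 3) true (nat_lit 6) true (nat_lit 12) true (nat_lit 0) true (nat_lit 13) true (nat_lit 15) (.s false (nat_lit 1) (nat_lit 19) (nat_lit 2) (nat_lit 3) (nat_lit 0) true (nat_lit 10) true (nat_lit 15) true (nat_lit 0) true (nat_lit 13) true (nat_lit 12) (.s false (nat_lit 1) (nat_lit 20) (nat_lit 1) (nat_lit 3) (nat_lit 0) true (nat_lit 11) true (nat_lit 15) false (nat_lit 0) true (nat_lit 14) true (nat_lit 12) (.s true (nat_lit 1) (nat_lit 30) (nat_lit 0) (nat_lit 0) (nat_lit 1) true (nat_lit 11) true (nat_lit 14) false (nat_lit 4) true (nat_lit 15) true (nat_lit 15) (.e true (nat_lit 36) (nat_lit 147) (nat_lit 0) (nat_lit 15) (.e false (nat_lit 36) (nat_lit 149) (nat_lit 0) (nat_lit 15) (.e true (nat_lit 36) (nat_lit 126) (nat_lit 0) (nat_lit 15) (.e true (nat_lit 36) (nat_lit 127) (nat_lit 0) (nat_lit 15)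 (.e false (nat_lit 36) (nat_lit 136) (nat_lit 0) (nat_lit 15) (.e false (nat_lit 36) (nat_lit 137) (nat_lit 0) (nat_lit 15) (.e true (nat_lit 36) (nat_lit 138) (nat_lit 0) (nat_lit 15) (.e true (nat_lit 36) (nat_lit 140) (nat_lit 0) (nat_lit 15) (.e false (nat_lit 36) (nat_lit 144) (nat_lit 0) (nat_lit 15) (.e true (nat_lit 36) (nat_lit 146) (nat_lit 0) (nat_lit 15) (.e false (nat_lit 36) (nat_lit 100) (nat_lit 3) (nat_lit 12) (.e true (nat_lit 36) (nat_lit 91) (nat_lit 3) (nat_lit 12) (.e true (nat_lit 36) (nat_lit 64) (nat_lit 4) (nat_lit 11) (.e false (nat_lit 36) (nat_lit 132) (nat_lit 0) (nat_lit 15) (.e false (nat_lit 36) (nat_lit 116) (nat_lit 1) (nat_lit 14) (.e true (nat_lit 36) (nat_lit 121) (nat_lit 1) (nat_lit 14) (.e false (nat_lit 36) (nat_lit 122) (nat_lit 1) (nat_lit 14) (.e true (nat_lit 36) (nat_lit 94) (nat_lit 3) (nat_lit 12) (.e true (nat_lit 36) (nat_lit 69) (nat_lit 4) (nat_lit 11) (.e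 true (nat_lit 36) (nat_lit 125) (nat_lit 1) (nat_lit 14) (.e false (nat_lit 36) (nat_lit 139) (nat_lit 0) (nat_lit 15) .nil)))))))))))))))))))))))))

noncomputable def dW4x_i46 : IL := (.s true (nat_lit 1) (nat_lit 16) (nat_lit 3) (nat_lit 1) (nat_lit 2) true (nat_lit 6) true (nat_lit 13) true (nat_lit 1) true (nat_lit 12) true (nat_lit 14) (.s true (nat_lit 1) (nat_lit 23) (nat_lit 3) (nat_lit 0) (nat_lit 0) true (nat_lit 8) true (nat_lit 15) false (nat_lit 1) true (nat_lit 12) true (nat_lit 15) (.e true (nat_lit 36) (nat_lit 42) (nat_lit 8) (nat_lit 7) (.e true (nat_lit 24) (nat_lit 89) (nat_lit 3) (nat_lit 12) (.e true (nat_lit 36) (nat_lit 104) (nat_lit 2) (nat_lit 13) (.e false (nat_lit 24) (nat_lit 93) (nat_lit 3) (nat_lit 12) (.e false (nat_lit 36) (nat_lit 38) (nat_lit 9) (nat_lit 6) (.e true (nat_lit 12) (nat_lit 86) (nat_lit 3) (nat_lit 12) (.e false (nat_lit 12) (nat_lit 87) (nat_lit 3) (nat_lit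 12) (.e false (nat_lit 36) (nat_lit 88) (nat_lit 3) (nat_lit 12) (.e true (nat_lit 12) (nat_lit 90) (nat_lit 3) (nat_lit 12) (.e false (nat_lit 12) (nat_lit 94) (nat_lit 3) (nat_lit 12) (.e false (nat_lit 12) (nat_lit 95) (nat_lit 3) (nat_lit 12) (.e true (nat_lit 12) (nat_lit 96) (nat_lit 3) (nat_lit 12) (.e true (nat_lit 12) (nat_lit 97) (nat_lit 3) (nat_lit 12) (.e false (nat_lit 24) (nat_lit 98) (nat_lit 3) (nat_lit 12) (.e false (nat_lit 12) (nat_lit 99) (nat_lit 3) (nat_lit 12) (.e false (nat_lit 12) (nat_lit 100) (nat_lit 3) (nat_lit 12) (.e true (nat_lit 24) (nat_lit 101) (nat_lit 3) (nat_lit 12) (.e true (nat_lit 12) (nat_lit 102) (nat_lit 3) (nat_lit 12) (.e true (nat_lit 12) (nat_lit 103) (nat_lit 3) (nat_lit 12) (.e false (nat_lit 36) (nat_lit 115) (nat_lit 1) (nat_lit 14) (.e false (nat_lit 36) (nat_lit 54) (nat_lit 7) (nat_lit 8) (.e true (nat_lit 36) (nat_lit 147) (nat_lit 0) (nat_lit 15) (.e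 false (nat_lit 36) (nat_lit 135) (nat_lit 0) (nat_lit 15) .nil)))))))))))))))))))))))))

noncomputable def dW4x_i47 : IL := (.e true (nat_lit 36) (nat_lit 58) (nat_lit 5) (nat_lit 10) (.e false (nat_lit 36) (nat_lit 65) (nat_lit 4) (nat_lit 11) (.e false (nat_lit 36) (nat_lit 67) (nat_lit 4) (nat_lit 11) (.e true (nat_lit 36) (nat_lit 69) (nat_lit 4) (nat_lit 11) (.e true (nat_lit 36) (nat_lit 85) (nat_lit 3) (nat_lit 12) (.e true (nat_lit 24) (nat_lit 89) (nat_lit 3) (nat_lit 12) (.e false (nat_lit 24) (nat_lit 90) (nat_lit 3) (nat_lit 12) (.e false (nat_lit 36) (nat_lit 91) (nat_lit 3) (nat_lit 12) (.e false (nat_lit 36) (nat_lit 92) (nat_lit 3) (nat_lit 12) (.e false (nat_lit 24) (nat_lit 93) (nat_lit 3) (nat_lit 12) (.e false (nat_lit 12) (nat_lit 94) (nat_lit 3) (nat_lit 12) (.e false (nat_lit 48) (nat_lit 95) (nat_lit 3) (nat_lit 12) (.e true (nat_lit 12) (nat_lit 96) (nat_lit 3) (nat_lit 12) (.e false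 (nat_lit 24) (nat_lit 97) (nat_lit 3) (nat_lit 12) (.e false (nat_lit 60) (nat_lit 98) (nat_lit 3) (nat_lit 12) (.e true (nat_lit 24) (nat_lit 99) (nat_lit 3) (nat_lit 12) (.e false (nat_lit 12) (nat_lit 100) (nat_lit 3) (nat_lit 12) (.e true (nat_lit 24) (nat_lit 101) (nat_lit 3) (nat_lit 12) (.e true (nat_lit 48) (nat_lit 102) (nat_lit 3) (nat_lit 12) (.e false (nat_lit 24) (nat_lit 103) (nat_lit 3) (nat_lit 12) (.e false (nat_lit 36) (nat_lit 39) (nat_lit 9) (nat_lit 6) (.e true (nat_lit 36) (nat_lit 105) (nat_lit 2) (nat_lit 13) (.e false (nat_lit 36) (nat_lit 110) (nat_lit 2) (nat_lit 13) (.e true (nat_lit 36) (nat_lit 111) (nat_lit 2) (nat_lit 13) (.e true (nat_lit 36) (nat_lit 136) (nat_lit 0) (nat_lit 15) .nil)))))))))))))))))))))))))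

noncomputable def dW4x_i48 : IL := (.e true (nat_lit 36) (nat_lit 147) (nat_lit 0) (nat_lit 15) (.e true (nat_lit 36) (nat_lit 150) (nat_lit 0) (nat_lit 15) (.e true (nat_lit 36) (nat_lit 136) (nat_lit 0) (nat_lit 15) (.e false (nat_lit 36) (nat_lit 139) (nat_lit 0) (nat_lit 15) (.e true (nat_lit 36) (nat_lit 141) (nat_lit 0) (nat_lit 15) (.e false (nat_lit 36) (nat_lit 142) (nat_lit 0) (nat_lit 15) (.e true (nat_lit 36) (nat_lit 144) (nat_lit 0) (nat_lit 15) (.e false (nat_lit 36) (nat_lit 146) (nat_lit 0) (nat_lit 15) (.e true (nat_lit 36) (nat_lit 126) (nat_lit 0) (nat_lit 15) (.e true (nat_lit 36) (nat_lit 86) (nat_lit 3) (nat_lit 12) (.e false (nat_lit 72) (nat_lit 87) (nat_lit 3) (nat_lit 12) (.e false (nat_lit 36) (nat_lit 88) (nat_lit 3) (nat_lit 12) (.e true (nat_lit 36) (nat_lit 89) (nat_lit 3) (nat_lit 12) (.e false (nat_lit 36) (nat_lit 91) (nat_lit 3) (nat_lit 12) (.e false (nat_lit 36) (nat_lit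 92) (nat_lit 3) (nat_lit 12) (.e false (nat_lit 36) (nat_lit 93) (nat_lit 3) (nat_lit 12) (.e false (nat_lit 36) (nat_lit 95) (nat_lit 3) (nat_lit 12) (.e true (nat_lit 36) (nat_lit 96) (nat_lit 3) (nat_lit 12) (.e false (nat_lit 36) (nat_lit 97) (nat_lit 3) (nat_lit 12) (.e false (nat_lit 36) (nat_lit 98) (nat_lit 3) (nat_lit 12) (.e true (nat_lit 36) (nat_lit 101) (nat_lit 3) (nat_lit 12) (.e true (nat_lit 36) (nat_lit 102) (nat_lit 3) (nat_lit 12) (.e true (nat_lit 36) (nat_lit 113) (nat_lit 2) (nat_lit 13) (.e false (nat_lit 36) (nat_lit 68) (nat_lit 4) (nat_lit 11) (.e false (nat_lit 36) (nat_lit 108) (nat_lit 2) (nat_lit 13) .nil)))))))))))))))))))))))))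

noncomputable def dW4x_i49 : IL := (.s false (nat_lit 1) (nat_lit 20) (nat_lit 3) (nat_lit 1) (nat_lit 0) true (nat_lit 8) true (nat_lit 15) false (nat_lit 0) true (nat_lit 12) true (nat_lit 14) (.e true (nat_lit 36) (nat_lit 64) (nat_lit 4) (nat_lit 11) (.e false (nat_lit 36) (nat_lit 132) (nat_lit 0) (nat_lit 15) (.e true (nat_lit 36) (nat_lit 121) (nat_lit 1) (nat_lit 14) (.e false (nat_lit 36) (nat_lit 122) (nat_lit 1) (nat_lit 14) (.e true (nat_lit 24) (nat_lit 94) (nat_lit 3) (nat_lit 12) (.e false (nat_lit 36) (nat_lit 142) (nat_lit 0) (nat_lit 15) (.e true (nat_lit 36) (nat_lit 85) (nat_lit 3) (nat_lit 12) (.e true (nat_lit 48) (nat_lit 86) (nat_lit 3) (nat_lit 12) (.e false (nat_lit 48) (nat_lit 87) (nat_lit 3) (nat_lit 12) (.e false (nat_lit 36) (nat_lit 88) (nat_lit 3) (nat_lit 12) (.e true (nat_lit 24) (nat_lit 89) (nat_lit 3) (nat_lit 12) (.e false (nat_lit 24) (nat_lit 90) (nat_lit 3) (nat_lit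 12) (.e false (nat_lit 36) (nat_lit 91) (nat_lit 3) (nat_lit 12) (.e false (nat_lit 36) (nat_lit 92) (nat_lit 3) (nat_lit 12) (.e false (nat_lit 24) (nat_lit 93) (nat_lit 3) (nat_lit 12) (.e false (nat_lit 48) (nat_lit 95) (nat_lit 3) (nat_lit 12) (.e true (nat_lit 12) (nat_lit 96) (nat_lit 3) (nat_lit 12) (.e false (nat_lit 24) (nat_lit 97) (nat_lit 3) (nat_lit 12) (.e false (nat_lit 24) (nat_lit 98) (nat_lit 3) (nat_lit 12) (.e true (nat_lit 24) (nat_lit 99) (nat_lit 3) (nat_lit 12) (.e false (nat_lit 12) (nat_lit 100) (nat_lit 3) (nat_lit 12) (.e true (nat_lit 24) (nat_lit 101) (nat_lit 3) (nat_lit 12) (.e true (nat_lit 48) (nat_lit 102) (nat_lit 3) (nat_lit 12) (.e false (nat_lit 24) (nat_lit 103) (nat_lit 3) (nat_lit 12) .nil)))))))))))))))))))))))))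

noncomputable def dW4x_i50 : IL := (.e true (nat_lit 12) (nat_lit 89) (nat_lit 3) (nat_lit 12) (.e false (nat_lit 12) (nat_lit 90) (nat_lit 3) (nat_lit 12) (.e false (nat_lit 36) (nat_lit 91) (nat_lit 3) (nat_lit 12) (.e false (nat_lit 12) (nat_lit 93) (nat_lit 3) (nat_lit 12) (.e false (nat_lit 24) (nat_lit 94) (nat_lit 3) (nat_lit 12) (.e false (nat_lit 24) (nat_lit 95) (nat_lit 3) (nat_lit 12) (.e true (nat_lit 24) (nat_lit 96) (nat_lit 3) (nat_lit 12) (.e false (nat_lit 12) (nat_lit 97) (nat_lit 3) (nat_lit 12) (.e true (nat_lit 24) (nat_lit 98) (nat_lit 3) (nat_lit 12) (.e true (nat_lit 12) (nat_lit 99) (nat_lit 3) (nat_lit 12) (.e true (nat_lit 12) (nat_lit 100) (nat_lit 3) (nat_lit 12) (.e false (nat_lit 24) (nat_lit 101) (nat_lit 3) (nat_lit 12) (.e true (nat_lit 24) (nat_lit 102) (nat_lit 3) (nat_lit 12) (.e false (nat_lit 12) (nat_lit 103) (nat_lit 3) (nat_lit 12) (.e true (nat_lit 36) (nat_lit 46)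 (nat_lit 7) (nat_lit 8) (.e true (nat_lit 72) (nat_lit 116) (nat_lit 1) (nat_lit 14) (.e false (nat_lit 72) (nat_lit 121) (nat_lit 1) (nat_lit 14) (.e true (nat_lit 72) (nat_lit 122) (nat_lit 1) (nat_lit 14) (.e false (nat_lit 36) (nat_lit 61) (nat_lit 5) (nat_lit 10) (.e true (nat_lit 36) (nat_lit 39) (nat_lit 9) (nat_lit 6) (.e false (nat_lit 36) (nat_lit 105) (nat_lit 2) (nat_lit 13) (.e true (nat_lit 36) (nat_lit 110) (nat_lit 2) (nat_lit 13) (.e false (nat_lit 36) (nat_lit 111) (nat_lit 2) (nat_lit 13) (.e false (nat_lit 36) (nat_lit 136) (nat_lit 0) (nat_lit 15) (.e true (nat_lit 36) (nat_lit 142) (nat_lit 0) (nat_lit 15) .nil)))))))))))))))))))))))))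

noncomputable def dW4x_i51 : IL := (.s true (nat_lit 1) (nat_lit 7) (nat_lit 2) (nat_lit 3) (nat_lit 4) true (nat_lit 2) true (nat_lit 11) true (nat_lit 8) true (nat_lit 13) true (nat_lit 12) (.s false (nat_lit 1) (nat_lit 13) (nat_lit 3) (nat_lit 0) (nat_lit 3) true (nat_lit 5) true (nat_lit 12) true (nat_lit 2) true (nat_lit 12) true (nat_lit 15) (.e true (nat_lit 36) (nat_lit 65) (nat_lit 4) (nat_lit 11) (.e true (nat_lit 36) (nat_lit 46) (nat_lit 7) (nat_lit 8) (.e true (nat_lit 36) (nat_lit 50) (nat_lit 7) (nat_lit 8) (.e false (nat_lit 36) (nat_lit 52) (nat_lit 7) (nat_lit 8) (.e false (nat_lit 36) (nat_lit 54) (nat_lit 7) (nat_lit 8) (.e false (nat_lit 36) (nat_lit 105) (nat_lit 2) (nat_lit 13) (.e true (nat_lit 36) (nat_lit 110) (nat_lit 2) (nat_lit 13) (.e false (nat_lit 36) (nat_lit 111) (nat_lit 2) (nat_lit 13) (.e true (nat_lit 72) (nat_lit 89) (nat_lit 3) (nat_lit 12) (.e false (nat_lit 36) (nat_lit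 90) (nat_lit 3) (nat_lit 12) (.e false (nat_lit 72) (nat_lit 91) (nat_lit 3) (nat_lit 12) (.e false (nat_lit 72) (nat_lit 95) (nat_lit 3) (nat_lit 12) (.e true (nat_lit 36) (nat_lit 86) (nat_lit 3) (nat_lit 12) (.e false (nat_lit 36) (nat_lit 87) (nat_lit 3) (nat_lit 12) (.e false (nat_lit 36) (nat_lit 88) (nat_lit 3) (nat_lit 12) (.e false (nat_lit 36) (nat_lit 92) (nat_lit 3) (nat_lit 12) (.e false (nat_lit 36) (nat_lit 93) (nat_lit 3) (nat_lit 12) (.e true (nat_lit 36) (nat_lit 96) (nat_lit 3) (nat_lit 12) (.e false (nat_lit 36) (nat_lit 97) (nat_lit 3) (nat_lit 12) (.e false (nat_lit 36) (nat_lit 98) (nat_lit 3) (nat_lit 12) (.e true (nat_lit 36) (nat_lit 101) (nat_lit 3) (nat_lit 12) (.e true (nat_lit 36) (nat_lit 102) (nat_lit 3) (nat_lit 12) (.e false (nat_lit 36) (nat_lit 126) (nat_lit 0) (nat_lit 15) .nil)))))))))))))))))))))))))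

noncomputable def dW4x_i52 : IL := (.s false (nat_lit 1) (nat_lit 10) (nat_lit 4) (nat_lit 0) (nat_lit 2) true (nat_lit 2) true (nat_lit 13) true (nat_lit 5) true (nat_lit 11) true (nat_lit 15) (.s true (nat_lit 1) (nat_lit 27) (nat_lit 1) (nat_lit 0) (nat_lit 2) true (nat_lit 9) true (nat_lit 13) false (nat_lit 2) true (nat_lit 14) true (nat_lit 15) (.s true (nat_lit 1) (nat_lit 27) (nat_lit 1) (nat_lit 2) (nat_lit 0) true (nat_lit 11) true (nat_lit 15) false (nat_lit 2) true (nat_lit 14) true (nat_lit 13) (.s true (nat_lit 1) (nat_lit 27) (nat_lit 2) (nat_lit 1) (nat_lit 0) true (nat_lit 10) true (nat_lit 15) false (nat_lit 2) true (nat_lit 13) true (nat_lit 14) (.e true (nat_lit 72) (nat_lit 130) (nat_lit 0) (nat_lit 15) (.e false (nat_lit 72) (nat_lit 133) (nat_lit 0) (nat_lit 15) (.e false (nat_lit 72) (nat_lit 135) (nat_lit 0) (nat_lit 15) (.e false (nat_lit 72) (nat_lit 136) (nat_lit 0) (nat_lit 15)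 (.e true (nat_lit 72) (nat_lit 140) (nat_lit 0) (nat_lit 15) (.e true (nat_lit 72) (nat_lit 142) (nat_lit 0) (nat_lit 15) (.e false (nat_lit 36) (nat_lit 145) (nat_lit 0) (nat_lit 15) (.e true (nat_lit 72) (nat_lit 150) (nat_lit 0) (nat_lit 15) (.e false (nat_lit 36) (nat_lit 35) (nat_lit 10) (nat_lit 5) (.e false (nat_lit 36) (nat_lit 121) (nat_lit 1) (nat_lit 14) (.e true (nat_lit 36) (nat_lit 122) (nat_lit 1) (nat_lit 14) (.e false (nat_lit 36) (nat_lit 123) (nat_lit 1) (nat_lit 14) (.e false (nat_lit 36) (nat_lit 124) (nat_lit 1) (nat_lit 14) (.e true (nat_lit 36) (nat_lit 125) (nat_lit 1) (nat_lit 14) (.e true (nat_lit 36) (nat_lit 110) (nat_lit 2) (nat_lit 13) (.e false (nat_lit 36) (nat_lit 111) (nat_lit 2) (nat_lit 13) (.e false (nat_lit 36) (nat_lit 112) (nat_lit 2) (nat_lit 13) (.e true (nat_lit 36) (nat_lit 114) (nat_lit 2) (nat_lit 13) (.e true (nat_lit 36) (nat_lit 57) (nat_lit 6) (nat_lit 9) (.e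 false (nat_lit 36) (nat_lit 68) (nat_lit 4) (nat_lit 11) (.e true (nat_lit 72) (nat_lit 109) (nat_lit 2) (nat_lit 13) .nil)))))))))))))))))))))))))

noncomputable def dW4x_i53 : IL := (.e false (nat_lit 24) (nat_lit 126) (nat_lit 0) (nat_lit 15) (.e false (nat_lit 24) (nat_lit 127) (nat_lit 0) (nat_lit 15) (.e false (nat_lit 12) (nat_lit 128) (nat_lit 0) (nat_lit 15) (.e false (nat_lit 24) (nat_lit 129) (nat_lit 0) (nat_lit 15) (.e false (nat_lit 24) (nat_lit 130) (nat_lit 0) (nat_lit 15) (.e false (nat_lit 24) (nat_lit 131) (nat_lit 0) (nat_lit 15) (.e true (nat_lit 48) (nat_lit 133) (nat_lit 0) (nat_lit 15) (.e true (nat_lit 48) (nat_lit 135) (nat_lit 0) (nat_lit 15) (.e true (nat_lit 36) (nat_lit 136) (nat_lit 0) (nat_lit 15) (.e true (nat_lit 12) (nat_lit 137) (nat_lit 0) (nat_lit 15) (.e false (nat_lit 12) (nat_lit 138) (nat_lit 0) (nat_lit 15) (.e false (nat_lit 12) (nat_lit 142) (nat_lit 0) (nat_lit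 15) (.e false (nat_lit 12) (nat_lit 144) (nat_lit 0) (nat_lit 15) (.e true (nat_lit 48) (nat_lit 145) (nat_lit 0) (nat_lit 15) (.e true (nat_lit 12) (nat_lit 146) (nat_lit 0) (nat_lit 15) (.e true (nat_lit 12) (nat_lit 147) (nat_lit 0) (nat_lit 15) (.e false (nat_lit 12) (nat_lit 149) (nat_lit 0) (nat_lit 15) (.e false (nat_lit 12) (nat_lit 150) (nat_lit 0) (nat_lit 15) (.e false (nat_lit 36) (nat_lit 57) (nat_lit 6) (nat_lit 9) (.e false (nat_lit 36) (nat_lit 113) (nat_lit 2) (nat_lit 13) (.e true (nat_lit 36) (nat_lit 119) (nat_lit 1) (nat_lit 14) (.e true (nat_lit 72) (nat_lit 120) (nat_lit 1) (nat_lit 14) (.e false (nat_lit 72) (nat_lit 123) (nat_lit 1) (nat_lit 14) (.e false (nat_lit 36) (nat_lit 124) (nat_lit 1) (nat_lit 14) (.e true (nat_lit 72) (nat_lit 125) (nat_lit 1) (nat_lit 14) .nil)))))))))))))))))))))))))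

noncomputable def dW4x_i54 : IL := (.s true (nat_lit 1) (nat_lit 17) (nat_lit 0) (nat_lit 3) (nat_lit 3) true (nat_lit 5) true (nat_lit 7) true (nat_lit 0) true (nat_lit 9) true (nat_lit 7) (.s true (nat_lit 1) (nat_lit 17) (nat_lit 3) (nat_lit 0) (nat_lit 3) true (nat_lit 3) true (nat_lit 7) true (nat_lit 0) true (nat_lit 7) true (nat_lit 9) (.s true (nat_lit 1) (nat_lit 17) (nat_lit 3) (nat_lit 3) (nat_lit 0) true (nat_lit 5) true (nat_lit 9) true (nat_lit 0) true (nat_lit 7) true (nat_lit 7) (.s true (nat_lit 1) (nat_lit 27) (nat_lit 1) (nat_lit 0) (nat_lit 3) true (nat_lit 4) true (nat_lit 7) false (nat_lit 0) true (nat_lit 8) true (nat_lit 9) (.s true (nat_lit 1) (nat_lit 27) (nat_lit 1) (nat_lit 3) (nat_lit 0) true (nat_lit 6) true (nat_lit 9) false (nat_lit 0) true (nat_lit 8) true (nat_lit 7) (.s true (nat_lit 1) (nat_lit 27) (nat_lit 3) (nat_lit 0) (nat_lit 1) true (nat_lit 4) true (nat_lit 8) false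 (nat_lit 0) true (nat_lit 7) true (nat_lit 9) (.s true (nat_lit 1) (nat_lit 27) (nat_lit 3) (nat_lit 1) (nat_lit 0) true (nat_lit 5) true (nat_lit 9) false (nat_lit 0) true (nat_lit 7) true (nat_lit 8) (.s true (nat_lit 1) (nat_lit 29) (nat_lit 0) (nat_lit 3) (nat_lit 0) false (nat_lit 10) true (nat_lit 9) false (nat_lit 1) true (nat_lit 9) true (nat_lit 7) (.e true (nat_lit 144) (nat_lit 58) (nat_lit 7) (nat_lit 5) (.e false (nat_lit 108) (nat_lit 62) (nat_lit 7) (nat_lit 5) (.e true (nat_lit 72) (nat_lit 106) (nat_lit 3) (nat_lit 7) (.e true (nat_lit 72) (nat_lit 109) (nat_lit 3) (nat_lit 7) (.e false (nat_lit 72) (nat_lit 110) (nat_lit 3) (nat_lit 7) (.e true (nat_lit 36) (nat_lit 113) (nat_lit 3) (nat_lit 7) (.e false (nat_lit 72) (nat_lit 114) (nat_lit 3) (nat_lit 7) (.e false (nat_lit 72) (nat_lit 166) (nat_lit 0) (nat_lit 9) (.e false (nat_lit 72) (nat_lit 157) (nat_lit 0) (nat_lit 9) (.e true (nat_lit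 72) (nat_lit 158) (nat_lit 0) (nat_lit 9) (.e false (nat_lit 72) (nat_lit 112) (nat_lit 3) (nat_lit 7) (.e true (nat_lit 144) (nat_lit 154) (nat_lit 1) (nat_lit 8) (.e true (nat_lit 72) (nat_lit 155) (nat_lit 1) (nat_lit 8) (.e true (nat_lit 36) (nat_lit 160) (nat_lit 0) (nat_lit 9) (.e false (nat_lit 72) (nat_lit 152) (nat_lit 1) (nat_lit 8) (.e false (nat_lit 72) (nat_lit 107) (nat_lit 3) (nat_lit 7) (.e false (nat_lit 72) (nat_lit 151) (nat_lit 1) (nat_lit 8) .nil)))))))))))))))))))))))))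

noncomputable def dW4x_i55 : IL := (.s true (nat_lit 2) (nat_lit 17) (nat_lit 0) (nat_lit 3) (nat_lit 3) true (nat_lit 5) true (nat_lit 7) true (nat_lit 0) true (nat_lit 9) true (nat_lit 7) (.s true (nat_lit 2) (nat_lit 17) (nat_lit 3) (nat_lit 0) (nat_lit 3) true (nat_lit 3) true (nat_lit 7) true (nat_lit 0) true (nat_lit 7) true (nat_lit 9) (.s false (nat_lit 1) (nat_lit 19) (nat_lit 3) (nat_lit 0) (nat_lit 3) true (nat_lit 3) true (nat_lit 7) true (nat_lit 0) true (nat_lit 7) true (nat_lit 9) (.s false (nat_lit 2) (nat_lit 19) (nat_lit 3) (nat_lit 3) (nat_lit 0) true (nat_lit 5) true (nat_lit 9) true (nat_lit 0) true (nat_lit 7) true (nat_lit 7) (.s true (nat_lit 2) (nat_lit 27) (nat_lit 1) (nat_lit 3) (nat_lit 0) true (nat_lit 6) true (nat_lit 9) false (nat_lit 0) true (nat_lit 8) true (nat_lit 7) (.s false (nat_lit 1) (nat_lit 26) (nat_lit 3) (nat_lit 0) (nat_lit 1) true (nat_lit 4) true (nat_lit 8) false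 (nat_lit 0) true (nat_lit 7) true (nat_lit 9) (.e false (nat_lit 252) (nat_lit 59) (nat_lit 7) (nat_lit 5) (.e true (nat_lit 72) (nat_lit 62) (nat_lit 7) (nat_lit 5) (.e false (nat_lit 36) (nat_lit 151) (nat_lit 1) (nat_lit 8) (.e false (nat_lit 144) (nat_lit 155) (nat_lit 1) (nat_lit 8) (.e true (nat_lit 108) (nat_lit 104) (nat_lit 3) (nat_lit 7) (.e false (nat_lit 36) (nat_lit 109) (nat_lit 3) (nat_lit 7) (.e false (nat_lit 324) (nat_lit 110) (nat_lit 3) (nat_lit 7) (.e true (nat_lit 72) (nat_lit 111) (nat_lit 3) (nat_lit 7) (.e false (nat_lit 36) (nat_lit 112) (nat_lit 3) (nat_lit 7) (.e true (nat_lit 108) (nat_lit 113) (nat_lit 3) (nat_lit 7) (.e false (nat_lit 216) (nat_lit 114) (nat_lit 3) (nat_lit 7) (.e false (nat_lit 36) (nat_lit 108) (nat_lit 3) (nat_lit 7) (.e false (nat_lit 108) (nat_lit 154) (nat_lit 1) (nat_lit 8) (.e true (nat_lit 108) (nat_lit 152) (nat_lit 1) (nat_lit 8) (.e false (nat_lit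 36) (nat_lit 159) (nat_lit 0) (nat_lit 9) (.e true (nat_lit 36) (nat_lit 166) (nat_lit 0) (nat_lit 9) (.e true (nat_lit 144) (nat_lit 156) (nat_lit 0) (nat_lit 9) (.e true (nat_lit 180) (nat_lit 161) (nat_lit 0) (nat_lit 9) (.e true (nat_lit 144) (nat_lit 106) (nat_lit 3) (nat_lit 7) .nil)))))))))))))))))))))))))

noncomputable def dW4x_i56 : IL := (.s true (nat_lit 1) (nat_lit 20) (nat_lit 0) (nat_lit 3) (nat_lit 3) true (nat_lit 5) true (nat_lit 7) true (nat_lit 0) true (nat_lit 9) true (nat_lit 7) (.s true (nat_lit 1) (nat_lit 20) (nat_lit 3) (nat_lit 0) (nat_lit 3) true (nat_lit 3) true (nat_lit 7) true (nat_lit 0) true (nat_lit 7) true (nat_lit 9) (.s true (nat_lit 1) (nat_lit 20) (nat_lit 3) (nat_lit 3) (nat_lit 0) true (nat_lit 5) true (nat_lit 9) true (nat_lit 0) true (nat_lit 7) true (nat_lit 7) (.s true (nat_lit 1) (nat_lit 27) (nat_lit 2) (nat_lit 0) (nat_lit 3) true (nat_lit 4) true (nat_lit 7)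 false (nat_lit 0) true (nat_lit 8) true (nat_lit 9) (.s true (nat_lit 1) (nat_lit 27) (nat_lit 2) (nat_lit 3) (nat_lit 0) true (nat_lit 6) true (nat_lit 9) false (nat_lit 0) true (nat_lit 8) true (nat_lit 7) (.s true (nat_lit 1) (nat_lit 27) (nat_lit 3) (nat_lit 0) (nat_lit 2) true (nat_lit 4) true (nat_lit 8) false (nat_lit 0) true (nat_lit 7) true (nat_lit 9) (.s true (nat_lit 1) (nat_lit 27) (nat_lit 3) (nat_lit 2) (nat_lit 0) true (nat_lit 5) true (nat_lit 9) false (nat_lit 0) true (nat_lit 7) true (nat_lit 8) (.s true (nat_lit 1) (nat_lit 31) (nat_lit 0) (nat_lit 3) (nat_lit 0) false (nat_lit 10) true (nat_lit 9) false (nat_lit 1) true (nat_lit 9) true (nat_lit 7) (.e true (nat_lit 144) (nat_lit 64) (nat_lit 7) (nat_lit 5) (.e false (nat_lit 108) (nat_lit 68) (nat_lit 7) (nat_lit 5) (.e true (nat_lit 72) (nat_lit 117) (nat_lit 3) (nat_lit 7) (.e true (nat_lit 72) (nat_lit 120) (nat_lit 3) (nat_lit 7) (.e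 false (nat_lit 72) (nat_lit 121) (nat_lit 3) (nat_lit 7) (.e true (nat_lit 36) (nat_lit 124) (nat_lit 3) (nat_lit 7) (.e false (nat_lit 72) (nat_lit 125) (nat_lit 3) (nat_lit 7) (.e false (nat_lit 72) (nat_lit 177) (nat_lit 0) (nat_lit 9) (.e false (nat_lit 72) (nat_lit 168) (nat_lit 0) (nat_lit 9) (.e true (nat_lit 72) (nat_lit 169) (nat_lit 0) (nat_lit 9) (.e false (nat_lit 72) (nat_lit 123) (nat_lit 3) (nat_lit 7) (.e true (nat_lit 144) (nat_lit 154) (nat_lit 2) (nat_lit 8) (.e true (nat_lit 72) (nat_lit 155) (nat_lit 2) (nat_lit 8) (.e true (nat_lit 36) (nat_lit 171) (nat_lit 0) (nat_lit 9) (.e false (nat_lit 72) (nat_lit 152) (nat_lit 2) (nat_lit 8) (.e false (nat_lit 72) (nat_lit 118) (nat_lit 3) (nat_lit 7) (.e false (nat_lit 72) (nat_lit 151) (nat_lit 2) (nat_lit 8) .nil)))))))))))))))))))))))))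

noncomputable def dW4x_i57 : IL := (.s true (nat_lit 2) (nat_lit 20) (nat_lit 0) (nat_lit 3) (nat_lit 3) true (nat_lit 5) true (nat_lit 7) true (nat_lit 0) true (nat_lit 9) true (nat_lit 7) (.s true (nat_lit 2) (nat_lit 20) (nat_lit 3) (nat_lit 0) (nat_lit 3) true (nat_lit 3) true (nat_lit 7) true (nat_lit 0) true (nat_lit 7) true (nat_lit 9) (.s false (nat_lit 1) (nat_lit 22) (nat_lit 3) (nat_lit 0) (nat_lit 3) true (nat_lit 3) true (nat_lit 7) true (nat_lit 0) true (nat_lit 7) true (nat_lit 9) (.s false (nat_lit 2) (nat_lit 22) (nat_lit 3) (nat_lit 3) (nat_lit 0) true (nat_lit 5) true (nat_lit 9) true (nat_lit 0) true (nat_lit 7) true (nat_lit 7) (.s true (nat_lit 2) (nat_lit 27) (nat_lit 2) (nat_lit 3) (nat_lit 0) true (nat_lit 6) true (nat_lit 9) false (nat_lit 0) true (nat_lit 8) true (nat_lit 7) (.s false (nat_lit 1) (nat_lit 26) (nat_lit 3) (nat_lit 0) (nat_lit 2) true (nat_lit 4) true (nat_lit 8) false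 (nat_lit 0) true (nat_lit 7) true (nat_lit 9) (.e false (nat_lit 252) (nat_lit 65) (nat_lit 7) (nat_lit 5) (.e true (nat_lit 72) (nat_lit 68) (nat_lit 7) (nat_lit 5) (.e false (nat_lit 36) (nat_lit 151) (nat_lit 2) (nat_lit 8) (.e false (nat_lit 144) (nat_lit 155) (nat_lit 2) (nat_lit 8) (.e true (nat_lit 108) (nat_lit 115) (nat_lit 3) (nat_lit 7) (.e false (nat_lit 36) (nat_lit 120) (nat_lit 3) (nat_lit 7) (.e false (nat_lit 324) (nat_lit 121) (nat_lit 3) (nat_lit 7) (.e true (nat_lit 72) (nat_lit 122) (nat_lit 3) (nat_lit 7) (.e false (nat_lit 36) (nat_lit 123) (nat_lit 3) (nat_lit 7) (.e true (nat_lit 108) (nat_lit 124) (nat_lit 3) (nat_lit 7) (.e false (nat_lit 216) (nat_lit 125) (nat_lit 3) (nat_lit 7) (.e false (nat_lit 36) (nat_lit 119) (nat_lit 3) (nat_lit 7) (.e false (nat_lit 108) (nat_lit 154) (nat_lit 2) (nat_lit 8) (.e true (nat_lit 108) (nat_lit 152) (nat_lit 2) (nat_lit 8) (.e false (nat_lit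 36) (nat_lit 170) (nat_lit 0) (nat_lit 9) (.e true (nat_lit 36) (nat_lit 177) (nat_lit 0) (nat_lit 9) (.e true (nat_lit 144) (nat_lit 167) (nat_lit 0) (nat_lit 9) (.e true (nat_lit 180) (nat_lit 172) (nat_lit 0) (nat_lit 9) (.e true (nat_lit 144) (nat_lit 117) (nat_lit 3) (nat_lit 7) .nil)))))))))))))))))))))))))

noncomputable def dW4x_i58 : IL := (.e true (nat_lit 276) (nat_lit 146) (nat_lit 3) (nat_lit 11) (.e true (nat_lit 108) (nat_lit 157) (nat_lit 2) (nat_lit 12) (.e false (nat_lit 36) (nat_lit 162) (nat_lit 2) (nat_lit 12) (.e true (nat_lit 36) (nat_lit 163) (nat_lit 2) (nat_lit 12) (.e true (nat_lit 36) (nat_lit 177) (nat_lit 1) (nat_lit 13) (.e true (nat_lit 144) (nat_lit 139) (nat_lit 3) (nat_lit 11) (.e false (nat_lit 168) (nat_lit 144) (nat_lit 3) (nat_lit 11) (.e true (nat_lit 24) (nat_lit 147) (nat_lit 3) (nat_lit 11) (.e true (nat_lit 36) (nat_lit 168) (nat_lit 1) (nat_lit 13) (.e true (nat_lit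 36) (nat_lit 170) (nat_lit 1) (nat_lit 13) (.e true (nat_lit 36) (nat_lit 172) (nat_lit 1) (nat_lit 13) (.e false (nat_lit 36) (nat_lit 173) (nat_lit 1) (nat_lit 13) (.e true (nat_lit 144) (nat_lit 156) (nat_lit 2) (nat_lit 12) (.e true (nat_lit 36) (nat_lit 158) (nat_lit 2) (nat_lit 12) (.e false (nat_lit 108) (nat_lit 160) (nat_lit 2) (nat_lit 12) (.e true (nat_lit 144) (nat_lit 161) (nat_lit 2) (nat_lit 12) (.e false (nat_lit 36) (nat_lit 165) (nat_lit 2) (nat_lit 12) (.e false (nat_lit 36) (nat_lit 179) (nat_lit 0) (nat_lit 14) (.e false (nat_lit 36) (nat_lit 183) (nat_lit 0) (nat_lit 14) (.e true (nat_lit 96) (nat_lit 127) (nat_lit 3) (nat_lit 11) (.e false (nat_lit 48) (nat_lit 126) (nat_lit 3) (nat_lit 11) (.e true (nat_lit 36) (nat_lit 167) (nat_lit 1) (nat_lit 13) (.e false (nat_lit 36) (nat_lit 164) (nat_lit 2) (nat_lit 12) (.e false (nat_lit 24) (nat_lit 138) (nat_lit 3) (nat_lit 11) (.e true (nat_lit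 12) (nat_lit 149) (nat_lit 3) (nat_lit 11) .nil)))))))))))))))))))))))))

noncomputable def dW4x_i59 : IL := (.s true (nat_lit 1) (nat_lit 25) (nat_lit 3) (nat_lit 3) (nat_lit 0) true (nat_lit 7) true (nat_lit 14) true (nat_lit 0) true (nat_lit 11) true (nat_lit 11) (.s false (nat_lit 1) (nat_lit 26) (nat_lit 2) (nat_lit 1) (nat_lit 3) true (nat_lit 5) true (nat_lit 11) false (nat_lit 0) true (nat_lit 12) true (nat_lit 13) (.s true (nat_lit 1) (nat_lit 27) (nat_lit 2) (nat_lit 1) (nat_lit 3) true (nat_lit 5) true (nat_lit 11) false (nat_lit 0) true (nat_lit 12) true (nat_lit 13) (.s false (nat_lit 1) (nat_lit 27) (nat_lit 2) (nat_lit 3) (nat_lit 1) true (nat_lit 8) true (nat_lit 13) false (nat_lit 0) true (nat_lit 12) true (nat_lit 11) (.s false (nat_lit 1) (nat_lit 26) (nat_lit 3) (nat_lit 1) (nat_lit 2) true (nat_lit 5) true (nat_lit 12) false (nat_lit 0) true (nat_lit 11) true (nat_lit 13) (.s false (nat_lit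 2) (nat_lit 27) (nat_lit 3) (nat_lit 1) (nat_lit 2) true (nat_lit 5) true (nat_lit 12) false (nat_lit 0) true (nat_lit 11) true (nat_lit 13) (.s true (nat_lit 1) (nat_lit 28) (nat_lit 3) (nat_lit 0) (nat_lit 2) true (nat_lit 5) true (nat_lit 12) false (nat_lit 1) true (nat_lit 11) true (nat_lit 14) (.e false (nat_lit 60) (nat_lit 128) (nat_lit 3) (nat_lit 11) (.e false (nat_lit 84) (nat_lit 129) (nat_lit 3) (nat_lit 11) (.e true (nat_lit 96) (nat_lit 130) (nat_lit 3) (nat_lit 11) (.e false (nat_lit 48) (nat_lit 131) (nat_lit 3) (nat_lit 11) (.e true (nat_lit 36) (nat_lit 132) (nat_lit 3) (nat_lit 11) (.e false (nat_lit 120) (nat_lit 133) (nat_lit 3) (nat_lit 11) (.e true (nat_lit 72) (nat_lit 134) (nat_lit 3) (nat_lit 11) (.e false (nat_lit 48) (nat_lit 135) (nat_lit 3) (nat_lit 11) (.e true (nat_lit 372) (nat_lit 150) (nat_lit 3) (nat_lit 11) (.e false (nat_lit 36) (nat_lit 166) (nat_lit 2) (nat_lit 12) (.e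 false (nat_lit 252) (nat_lit 136) (nat_lit 3) (nat_lit 11) (.e false (nat_lit 12) (nat_lit 137) (nat_lit 3) (nat_lit 11) (.e true (nat_lit 288) (nat_lit 140) (nat_lit 3) (nat_lit 11) (.e false (nat_lit 252) (nat_lit 141) (nat_lit 3) (nat_lit 11) (.e true (nat_lit 36) (nat_lit 58) (nat_lit 9) (nat_lit 5) (.e false (nat_lit 36) (nat_lit 59) (nat_lit 9) (nat_lit 5) (.e true (nat_lit 264) (nat_lit 142) (nat_lit 3) (nat_lit 11) (.e false (nat_lit 228) (nat_lit 145) (nat_lit 3) (nat_lit 11) dW4x_i58)))))))))))))))))))))))))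

noncomputable def dW4x_i60 : IL := (.e false (nat_lit 360) (nat_lit 146) (nat_lit 3) (nat_lit 11) (.e true (nat_lit 108) (nat_lit 166) (nat_lit 2) (nat_lit 12) (.e true (nat_lit 396) (nat_lit 136) (nat_lit 3) (nat_lit 11) (.e false (nat_lit 396) (nat_lit 140) (nat_lit 3) (nat_lit 11) (.e true (nat_lit 396) (nat_lit 141) (nat_lit 3) (nat_lit 11) (.e true (nat_lit 180) (nat_lit 144) (nat_lit 3) (nat_lit 11) (.e false (nat_lit 216) (nat_lit 156) (nat_lit 2) (nat_lit 12) (.e false (nat_lit 252) (nat_lit 157) (nat_lit 2) (nat_lit 12) (.e true (nat_lit 144) (nat_lit 160) (nat_lit 2) (nat_lit 12) (.e false (nat_lit 180) (nat_lit 161) (nat_lit 2) (nat_lit 12) (.e false (nat_lit 72) (nat_lit 177) (nat_lit 1) (nat_lit 13) (.e true (nat_lit 144) (nat_lit 126) (nat_lit 3) (nat_lit 11) (.e false (nat_lit 72) (nat_lit 178) (nat_lit 0) (nat_lit 14) (.e false (nat_lit 36) (nat_lit 179) (nat_lit 0) (nat_lit 14) (.e false (nat_lit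 36) (nat_lit 170) (nat_lit 1) (nat_lit 13) (.e true (nat_lit 72) (nat_lit 173) (nat_lit 1) (nat_lit 13) (.e true (nat_lit 36) (nat_lit 174) (nat_lit 1) (nat_lit 13) (.e false (nat_lit 36) (nat_lit 127) (nat_lit 3) (nat_lit 11) (.e true (nat_lit 72) (nat_lit 138) (nat_lit 3) (nat_lit 11) (.e false (nat_lit 36) (nat_lit 149) (nat_lit 3) (nat_lit 11) (.e false (nat_lit 216) (nat_lit 139) (nat_lit 3) (nat_lit 11) (.e true (nat_lit 36) (nat_lit 158) (nat_lit 2) (nat_lit 12) (.e true (nat_lit 108) (nat_lit 165) (nat_lit 2) (nat_lit 12) (.e false (nat_lit 36) (nat_lit 162) (nat_lit 2) (nat_lit 12) (.e true (nat_lit 72) (nat_lit 164) (nat_lit 2) (nat_lit 12) .nil)))))))))))))))))))))))))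

noncomputable def dW4x_i61 : IL := (.s false (nat_lit 1) (nat_lit 26) (nat_lit 1) (nat_lit 3) (nat_lit 2) true (nat_lit 8) true (nat_lit 12) false (nat_lit 0) true (nat_lit 13) true (nat_lit 11) (.s true (nat_lit 1) (nat_lit 27) (nat_lit 1) (nat_lit 3) (nat_lit 2) true (nat_lit 8) true (nat_lit 12) false (nat_lit 0) true (nat_lit 13) true (nat_lit 11) (.s false (nat_lit 2) (nat_lit 26) (nat_lit 2) (nat_lit 1) (nat_lit 3) true (nat_lit 5) true (nat_lit 11) false (nat_lit 0) true (nat_lit 12) true (nat_lit 13) (.s false (nat_lit 1) (nat_lit 26) (nat_lit 2) (nat_lit 3) (nat_lit 1) true (nat_lit 8) true (nat_lit 13) false (nat_lit 0) true (nat_lit 12) true (nat_lit 11) (.s true (nat_lit 2) (nat_lit 27) (nat_lit 2) (nat_lit 3) (nat_lit 1) true (nat_lit 8) true (nat_lit 13) false (nat_lit 0) true (nat_lit 12) true (nat_lit 11) (.s false (nat_lit 3) (nat_lit 26) (nat_lit 3) (nat_lit 1) (nat_lit 2) true (nat_lit 5)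 true (nat_lit 12) false (nat_lit 0) true (nat_lit 11) true (nat_lit 13) (.s true (nat_lit 2) (nat_lit 27) (nat_lit 3) (nat_lit 1) (nat_lit 2) true (nat_lit 5) true (nat_lit 12) false (nat_lit 0) true (nat_lit 11) true (nat_lit 13) (.s false (nat_lit 1) (nat_lit 29) (nat_lit 0) (nat_lit 2) (nat_lit 3) true (nat_lit 7) true (nat_lit 11) false (nat_lit 1) true (nat_lit 14) true (nat_lit 12) (.s false (nat_lit 1) (nat_lit 29) (nat_lit 2) (nat_lit 0) (nat_lit 3) true (nat_lit 5) true (nat_lit 11) false (nat_lit 1) true (nat_lit 12) true (nat_lit 14) (.s true (nat_lit 1) (nat_lit 31) (nat_lit 0) (nat_lit 1) (nat_lit 3) true (nat_lit 7) true (nat_lit 11) false (nat_lit 2) true (nat_lit 14) true (nat_lit 13) (.s true (nat_lit 1) (nat_lit 31) (nat_lit 1) (nat_lit 0) (nat_lit 3) true (nat_lit 6) true (nat_lit 11) false (nat_lit 2) true (nat_lit 13) true (nat_lit 14) (.e true (nat_lit 144) (nat_lit 128) (nat_lit 3) (nat_lit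 11) (.e true (nat_lit 144) (nat_lit 129) (nat_lit 3) (nat_lit 11) (.e false (nat_lit 144) (nat_lit 130) (nat_lit 3) (nat_lit 11) (.e true (nat_lit 180) (nat_lit 131) (nat_lit 3) (nat_lit 11) (.e false (nat_lit 144) (nat_lit 132) (nat_lit 3) (nat_lit 11) (.e true (nat_lit 108) (nat_lit 133) (nat_lit 3) (nat_lit 11) (.e false (nat_lit 108) (nat_lit 134) (nat_lit 3) (nat_lit 11) (.e true (nat_lit 72) (nat_lit 135) (nat_lit 3) (nat_lit 11) (.e false (nat_lit 648) (nat_lit 150) (nat_lit 3) (nat_lit 11) (.e true (nat_lit 36) (nat_lit 58) (nat_lit 9) (nat_lit 5) (.e true (nat_lit 72) (nat_lit 59) (nat_lit 9) (nat_lit 5) (.e false (nat_lit 72) (nat_lit 62) (nat_lit 9) (nat_lit 5) (.e false (nat_lit 432) (nat_lit 142) (nat_lit 3) (nat_lit 11) (.e true (nat_lit 360) (nat_lit 145) (nat_lit 3) (nat_lit 11) dW4x_i60)))))))))))))))))))))))))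

noncomputable def dW4x_i62 : IL := (.e true (nat_lit 72) (nat_lit 59) (nat_lit 9) (nat_lit 5) (.e true (nat_lit 72) (nat_lit 62) (nat_lit 9) (nat_lit 5) (.e false (nat_lit 36) (nat_lit 63) (nat_lit 9) (nat_lit 5) (.e false (nat_lit 240) (nat_lit 142) (nat_lit 3) (nat_lit 11) (.e true (nat_lit 240) (nat_lit 145) (nat_lit 3) (nat_lit 11) (.e false (nat_lit 192) (nat_lit 146) (nat_lit 3) (nat_lit 11) (.e true (nat_lit 120) (nat_lit 144) (nat_lit 3) (nat_lit 11) (.e false (nat_lit 108) (nat_lit 156) (nat_lit 2) (nat_lit 12) (.e false (nat_lit 72) (nat_lit 157) (nat_lit 2) (nat_lit 12) (.e true (nat_lit 72) (nat_lit 160) (nat_lit 2) (nat_lit 12) (.e false (nat_lit 72) (nat_lit 161) (nat_lit 2) (nat_lit 12) (.e false (nat_lit 144) (nat_lit 162) (nat_lit 2) (nat_lit 12) (.e false (nat_lit 36) (nat_lit 163) (nat_lit 2) (nat_lit 12) (.e false (nat_lit 12) (nat_lit 147) (nat_lit 3) (nat_lit 11) (.e false (nat_lit 24)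 (nat_lit 149) (nat_lit 3) (nat_lit 11) (.e true (nat_lit 60) (nat_lit 126) (nat_lit 3) (nat_lit 11) (.e false (nat_lit 48) (nat_lit 127) (nat_lit 3) (nat_lit 11) (.e true (nat_lit 120) (nat_lit 138) (nat_lit 3) (nat_lit 11) (.e true (nat_lit 36) (nat_lit 179) (nat_lit 0) (nat_lit 14) (.e false (nat_lit 36) (nat_lit 170) (nat_lit 1) (nat_lit 13) (.e true (nat_lit 72) (nat_lit 158) (nat_lit 2) (nat_lit 12) (.e true (nat_lit 36) (nat_lit 165) (nat_lit 2) (nat_lit 12) (.e true (nat_lit 72) (nat_lit 60) (nat_lit 9) (nat_lit 5) (.e false (nat_lit 72) (nat_lit 164) (nat_lit 2) (nat_lit 12) (.e false (nat_lit 36) (nat_lit 139) (nat_lit 3) (nat_lit 11) .nil)))))))))))))))))))))))))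

noncomputable def dW4x_i63 : IL := (.s false (nat_lit 1) (nat_lit 21) (nat_lit 1) (nat_lit 3) (nat_lit 3) true (nat_lit 6) true (nat_lit 11) true (nat_lit 1) true (nat_lit 13) true (nat_lit 11) (.s false (nat_lit 1) (nat_lit 22) (nat_lit 1) (nat_lit 3) (nat_lit 3) true (nat_lit 6) true (nat_lit 11) true (nat_lit 1) true (nat_lit 13) true (nat_lit 11) (.s true (nat_lit 4) (nat_lit 21) (nat_lit 3) (nat_lit 1) (nat_lit 3) true (nat_lit 4) true (nat_lit 11) true (nat_lit 1) true (nat_lit 11) true (nat_lit 13) (.s true (nat_lit 1) (nat_lit 24) (nat_lit 3) (nat_lit 3) (nat_lit 0) true (nat_lit 7) true (nat_lit 14) true (nat_lit 0) true (nat_lit 11) true (nat_lit 11) (.s true (nat_lit 1) (nat_lit 27) (nat_lit 1) (nat_lit 2) (nat_lit 3) true (nat_lit 6) true (nat_lit 11) false (nat_lit 0) true (nat_lit 13) true (nat_lit 12) (.s true (nat_lit 4) (nat_lit 26) (nat_lit 2) (nat_lit 1) (nat_lit 3) true (nat_lit 5) true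 (nat_lit 11) false (nat_lit 0) true (nat_lit 12) true (nat_lit 13) (.s true (nat_lit 1) (nat_lit 27) (nat_lit 2) (nat_lit 1) (nat_lit 3) true (nat_lit 5) true (nat_lit 11) false (nat_lit 0) true (nat_lit 12) true (nat_lit 13) (.s true (nat_lit 1) (nat_lit 26) (nat_lit 3) (nat_lit 1) (nat_lit 2) true (nat_lit 5) true (nat_lit 12) false (nat_lit 0) true (nat_lit 11) true (nat_lit 13) (.s true (nat_lit 1) (nat_lit 27) (nat_lit 3) (nat_lit 1) (nat_lit 2) true (nat_lit 5) true (nat_lit 12) false (nat_lit 0) true (nat_lit 11) true (nat_lit 13) (.s false (nat_lit 1) (nat_lit 28) (nat_lit 0) (nat_lit 2) (nat_lit 3) true (nat_lit 7) true (nat_lit 11) false (nat_lit 1) true (nat_lit 14) true (nat_lit 12) (.e true (nat_lit 48) (nat_lit 128) (nat_lit 3) (nat_lit 11) (.e true (nat_lit 96) (nat_lit 129) (nat_lit 3) (nat_lit 11) (.e false (nat_lit 120) (nat_lit 130) (nat_lit 3) (nat_lit 11) (.e true (nat_lit 60) (nat_lit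 131) (nat_lit 3) (nat_lit 11) (.e false (nat_lit 36) (nat_lit 132) (nat_lit 3) (nat_lit 11) (.e true (nat_lit 96) (nat_lit 133) (nat_lit 3) (nat_lit 11) (.e false (nat_lit 72) (nat_lit 134) (nat_lit 3) (nat_lit 11) (.e true (nat_lit 24) (nat_lit 135) (nat_lit 3) (nat_lit 11) (.e false (nat_lit 384) (nat_lit 150) (nat_lit 3) (nat_lit 11) (.e true (nat_lit 180) (nat_lit 166) (nat_lit 2) (nat_lit 12) (.e true (nat_lit 180) (nat_lit 136) (nat_lit 3) (nat_lit 11) (.e true (nat_lit 24) (nat_lit 137) (nat_lit 3) (nat_lit 11) (.e false (nat_lit 144) (nat_lit 140) (nat_lit 3) (nat_lit 11) (.e true (nat_lit 216) (nat_lit 141) (nat_lit 3) (nat_lit 11) (.e false (nat_lit 72) (nat_lit 58) (nat_lit 9) (nat_lit 5) dW4x_i62)))))))))))))))))))))))))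

noncomputable def dW4x_i64 : IL := (.e true (nat_lit 72) (nat_lit 145) (nat_lit 3) (nat_lit 11) (.e false (nat_lit 36) (nat_lit 146) (nat_lit 3) (nat_lit 11) (.e false (nat_lit 72) (nat_lit 144) (nat_lit 3) (nat_lit 11) (.e false (nat_lit 36) (nat_lit 157) (nat_lit 2) (nat_lit 12) (.e true (nat_lit 36) (nat_lit 160) (nat_lit 2) (nat_lit 12) (.e false (nat_lit 36) (nat_lit 161) (nat_lit 2) (nat_lit 12) (.e true (nat_lit 36) (nat_lit 147) (nat_lit 3) (nat_lit 11) (.e false (nat_lit 36) (nat_lit 149) (nat_lit 3) (nat_lit 11) (.e true (nat_lit 72) (nat_lit 126) (nat_lit 3) (nat_lit 11) (.e true (nat_lit 36) (nat_lit 127) (nat_lit 3) (nat_lit 11) (.e true (nat_lit 36) (nat_lit 138) (nat_lit 3) (nat_lit 11) (.e false (nat_lit 108) (nat_lit 177) (nat_lit 1) (nat_lit 13) (.e false (nat_lit 36) (nat_lit 168) (nat_lit 1) (nat_lit 13) (.e false (nat_lit 72) (nat_lit 170) (nat_lit 1) (nat_lit 13) (.e true (nat_lit 72)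 (nat_lit 173) (nat_lit 1) (nat_lit 13) (.e true (nat_lit 72) (nat_lit 174) (nat_lit 1) (nat_lit 13) (.e false (nat_lit 72) (nat_lit 178) (nat_lit 0) (nat_lit 14) (.e false (nat_lit 72) (nat_lit 179) (nat_lit 0) (nat_lit 14) (.e false (nat_lit 36) (nat_lit 183) (nat_lit 0) (nat_lit 14) (.e false (nat_lit 108) (nat_lit 139) (nat_lit 3) (nat_lit 11) (.e true (nat_lit 36) (nat_lit 60) (nat_lit 9) (nat_lit 5) (.e true (nat_lit 36) (nat_lit 167) (nat_lit 1) (nat_lit 13) (.e true (nat_lit 36) (nat_lit 172) (nat_lit 1) (nat_lit 13) (.e false (nat_lit 36) (nat_lit 162) (nat_lit 2) (nat_lit 12) (.e false (nat_lit 36) (nat_lit 61) (nat_lit 9) (nat_lit 5) .nil)))))))))))))))))))))))))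

noncomputable def dW4x_i65 : IL := (.s true (nat_lit 1) (nat_lit 21) (nat_lit 1) (nat_lit 3) (nat_lit 3) true (nat_lit 6) true (nat_lit 11) true (nat_lit 1) true (nat_lit 13) true (nat_lit 11) (.s true (nat_lit 1) (nat_lit 23) (nat_lit 0) (nat_lit 3) (nat_lit 3) true (nat_lit 7) true (nat_lit 11) true (nat_lit 0) true (nat_lit 14) true (nat_lit 11) (.s false (nat_lit 1) (nat_lit 23) (nat_lit 3) (nat_lit 0) (nat_lit 3) true (nat_lit 4) true (nat_lit 11) true (nat_lit 0) true (nat_lit 11) true (nat_lit 14) (.s false (nat_lit 1) (nat_lit 24) (nat_lit 3) (nat_lit 3) (nat_lit 0) true (nat_lit 7) true (nat_lit 14) true (nat_lit 0) true (nat_lit 11) true (nat_lit 11) (.s false (nat_lit 1) (nat_lit 26) (nat_lit 1) (nat_lit 2) (nat_lit 3) true (nat_lit 6) true (nat_lit 11) false (nat_lit 0) true (nat_lit 13) true (nat_lit 12) (.s true (nat_lit 1) (nat_lit 26) (nat_lit 1) (nat_lit 3) (nat_lit 2) true (nat_lit 8) true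 (nat_lit 12) false (nat_lit 0) true (nat_lit 13) true (nat_lit 11) (.s false (nat_lit 1) (nat_lit 26) (nat_lit 2) (nat_lit 1) (nat_lit 3) true (nat_lit 5) true (nat_lit 11) false (nat_lit 0) true (nat_lit 12) true (nat_lit 13) (.s false (nat_lit 1) (nat_lit 27) (nat_lit 2) (nat_lit 1) (nat_lit 3) true (nat_lit 5) true (nat_lit 11) false (nat_lit 0) true (nat_lit 12) true (nat_lit 13) (.s true (nat_lit 1) (nat_lit 26) (nat_lit 2) (nat_lit 3) (nat_lit 1) true (nat_lit 8) true (nat_lit 13) false (nat_lit 0) true (nat_lit 12) true (nat_lit 11) (.s false (nat_lit 1) (nat_lit 27) (nat_lit 3) (nat_lit 1) (nat_lit 2) true (nat_lit 5) true (nat_lit 12) false (nat_lit 0) true (nat_lit 11) true (nat_lit 13) (.s true (nat_lit 1) (nat_lit 28) (nat_lit 0) (nat_lit 2) (nat_lit 3) true (nat_lit 7) true (nat_lit 11) false (nat_lit 1) true (nat_lit 14) true (nat_lit 12) (.s true (nat_lit 1) (nat_lit 31) (nat_lit 1) (nat_lit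 0) (nat_lit 3) true (nat_lit 6) true (nat_lit 11) false (nat_lit 2) true (nat_lit 13) true (nat_lit 14) (.s true (nat_lit 1) (nat_lit 31) (nat_lit 3) (nat_lit 1) (nat_lit 0) true (nat_lit 7) true (nat_lit 14) false (nat_lit 2) true (nat_lit 11) true (nat_lit 13) (.e true (nat_lit 36) (nat_lit 128) (nat_lit 3) (nat_lit 11) (.e true (nat_lit 72) (nat_lit 131) (nat_lit 3) (nat_lit 11) (.e false (nat_lit 72) (nat_lit 132) (nat_lit 3) (nat_lit 11) (.e true (nat_lit 36) (nat_lit 133) (nat_lit 3) (nat_lit 11) (.e true (nat_lit 36) (nat_lit 135) (nat_lit 3) (nat_lit 11) (.e false (nat_lit 108) (nat_lit 150) (nat_lit 3) (nat_lit 11) (.e true (nat_lit 36) (nat_lit 136) (nat_lit 3) (nat_lit 11) (.e false (nat_lit 36) (nat_lit 137) (nat_lit 3) (nat_lit 11) (.e true (nat_lit 72) (nat_lit 141) (nat_lit 3) (nat_lit 11) (.e false (nat_lit 36) (nat_lit 59) (nat_lit 9) (nat_lit 5) (.e true (nat_lit 36) (nat_lit 62) (nat_lit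 9) (nat_lit 5) (.e false (nat_lit 72) (nat_lit 142) (nat_lit 3) (nat_lit 11) dW4x_i64)))))))))))))))))))))))))

noncomputable def dW4x_i66 : IL := (.e true (nat_lit 24) (nat_lit 135) (nat_lit 3) (nat_lit 11) (.e false (nat_lit 12) (nat_lit 137) (nat_lit 3) (nat_lit 11) (.e true (nat_lit 48) (nat_lit 138) (nat_lit 3) (nat_lit 11) (.e true (nat_lit 12) (nat_lit 142) (nat_lit 3) (nat_lit 11) (.e true (nat_lit 12) (nat_lit 144) (nat_lit 3) (nat_lit 11) (.e false (nat_lit 12) (nat_lit 145) (nat_lit 3) (nat_lit 11) (.e false (nat_lit 48) (nat_lit 146) (nat_lit 3) (nat_lit 11) (.e false (nat_lit 12) (nat_lit 147) (nat_lit 3) (nat_lit 11) (.e true (nat_lit 12) (nat_lit 149) (nat_lit 3) (nat_lit 11) (.e true (nat_lit 12) (nat_lit 150) (nat_lit 3) (nat_lit 11) (.e false (nat_lit 36) (nat_lit 58) (nat_lit 9) (nat_lit 5) (.e false (nat_lit 36) (nat_lit 136) (nat_lit 3) (nat_lit 11) (.e true (nat_lit 36) (nat_lit 157) (nat_lit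 2) (nat_lit 12) (.e false (nat_lit 36) (nat_lit 158) (nat_lit 2) (nat_lit 12) (.e true (nat_lit 36) (nat_lit 160) (nat_lit 2) (nat_lit 12) (.e false (nat_lit 36) (nat_lit 161) (nat_lit 2) (nat_lit 12) (.e false (nat_lit 36) (nat_lit 162) (nat_lit 2) (nat_lit 12) (.e false (nat_lit 36) (nat_lit 163) (nat_lit 2) (nat_lit 12) (.e false (nat_lit 36) (nat_lit 164) (nat_lit 2) (nat_lit 12) (.e true (nat_lit 36) (nat_lit 183) (nat_lit 0) (nat_lit 14) (.e false (nat_lit 36) (nat_lit 168) (nat_lit 1) (nat_lit 13) (.e false (nat_lit 36) (nat_lit 170) (nat_lit 1) (nat_lit 13) (.e true (nat_lit 36) (nat_lit 173) (nat_lit 1) (nat_lit 13) (.e true (nat_lit 36) (nat_lit 174) (nat_lit 1) (nat_lit 13) (.e false (nat_lit 36) (nat_lit 177) (nat_lit 1) (nat_lit 13) .nil)))))))))))))))))))))))))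

noncomputable def dW4x_i67 : IL := (.e false (nat_lit 24) (nat_lit 147) (nat_lit 3) (nat_lit 11) (.e true (nat_lit 24) (nat_lit 149) (nat_lit 3) (nat_lit 11) (.e false (nat_lit 60) (nat_lit 126) (nat_lit 3) (nat_lit 11) (.e false (nat_lit 60) (nat_lit 127) (nat_lit 3) (nat_lit 11) (.e true (nat_lit 24) (nat_lit 138) (nat_lit 3) (nat_lit 11) (.e true (nat_lit 60) (nat_lit 142) (nat_lit 3) (nat_lit 11) (.e true (nat_lit 36) (nat_lit 143) (nat_lit 3) (nat_lit 11) (.e true (nat_lit 96) (nat_lit 144) (nat_lit 3) (nat_lit 11) (.e false (nat_lit 60) (nat_lit 145) (nat_lit 3) (nat_lit 11) (.e true (nat_lit 12) (nat_lit 146) (nat_lit 3) (nat_lit 11) (.e true (nat_lit 36) (nat_lit 177) (nat_lit 1) (nat_lit 13) (.e true (nat_lit 72) (nat_lit 139) (nat_lit 3) (nat_lit 11) (.e true (nat_lit 36) (nat_lit 179) (nat_lit 0) (nat_lit 14) (.e true (nat_lit 72) (nat_lit 156) (nat_lit 2) (nat_lit 12) (.e false (nat_lit 72) (nat_lit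 158) (nat_lit 2) (nat_lit 12) (.e false (nat_lit 36) (nat_lit 160) (nat_lit 2) (nat_lit 12) (.e true (nat_lit 36) (nat_lit 161) (nat_lit 2) (nat_lit 12) (.e false (nat_lit 72) (nat_lit 165) (nat_lit 2) (nat_lit 12) (.e false (nat_lit 36) (nat_lit 164) (nat_lit 2) (nat_lit 12) (.e false (nat_lit 36) (nat_lit 167) (nat_lit 1) (nat_lit 13) (.e true (nat_lit 36) (nat_lit 170) (nat_lit 1) (nat_lit 13) (.e false (nat_lit 36) (nat_lit 172) (nat_lit 1) (nat_lit 13) (.e false (nat_lit 36) (nat_lit 174) (nat_lit 1) (nat_lit 13) (.e true (nat_lit 36) (nat_lit 178) (nat_lit 0) (nat_lit 14) (.e false (nat_lit 36) (nat_lit 173) (nat_lit 1) (nat_lit 13) .nil)))))))))))))))))))))))))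

noncomputable def dW4x_i68 : IL := (.s true (nat_lit 1) (nat_lit 26) (nat_lit 1) (nat_lit 2) (nat_lit 3) true (nat_lit 6) true (nat_lit 11) false (nat_lit 0) true (nat_lit 13) true (nat_lit 12) (.s true (nat_lit 1) (nat_lit 26) (nat_lit 2) (nat_lit 1) (nat_lit 3) true (nat_lit 5) true (nat_lit 11) false (nat_lit 0) true (nat_lit 12) true (nat_lit 13) (.s true (nat_lit 1) (nat_lit 27) (nat_lit 2) (nat_lit 1) (nat_lit 3) true (nat_lit 5) true (nat_lit 11) false (nat_lit 0) true (nat_lit 12) true (nat_lit 13) (.s true (nat_lit 1) (nat_lit 26) (nat_lit 3) (nat_lit 1) (nat_lit 2) true (nat_lit 5) true (nat_lit 12) false (nat_lit 0) true (nat_lit 11) true (nat_lit 13) (.s true (nat_lit 1) (nat_lit 27) (nat_lit 3) (nat_lit 1) (nat_lit 2) true (nat_lit 5) true (nat_lit 12) false (nat_lit 0) true (nat_lit 11) true (nat_lit 13) (.s false (nat_lit 1) (nat_lit 28) (nat_lit 0) (nat_lit 2) (nat_lit 3) true (nat_lit 7) true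 (nat_lit 11) false (nat_lit 1) true (nat_lit 14) true (nat_lit 12) (.s false (nat_lit 1) (nat_lit 31) (nat_lit 1) (nat_lit 0) (nat_lit 3) true (nat_lit 6) true (nat_lit 11) false (nat_lit 2) true (nat_lit 13) true (nat_lit 14) (.s false (nat_lit 1) (nat_lit 31) (nat_lit 3) (nat_lit 1) (nat_lit 0) true (nat_lit 7) true (nat_lit 14) false (nat_lit 2) true (nat_lit 11) true (nat_lit 13) (.e false (nat_lit 12) (nat_lit 128) (nat_lit 3) (nat_lit 11) (.e true (nat_lit 48) (nat_lit 129) (nat_lit 3) (nat_lit 11) (.e false (nat_lit 24) (nat_lit 130) (nat_lit 3) (nat_lit 11) (.e false (nat_lit 24) (nat_lit 131) (nat_lit 3) (nat_lit 11) (.e true (nat_lit 36) (nat_lit 132) (nat_lit 3) (nat_lit 11) (.e false (nat_lit 24) (nat_lit 133) (nat_lit 3) (nat_lit 11) (.e false (nat_lit 36) (nat_lit 134) (nat_lit 3) (nat_lit 11) (.e false (nat_lit 60) (nat_lit 135) (nat_lit 3) (nat_lit 11) (.e true (nat_lit 60) (nat_lit 150) (nat_lit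 3) (nat_lit 11) (.e false (nat_lit 24) (nat_lit 137) (nat_lit 3) (nat_lit 11) (.e false (nat_lit 36) (nat_lit 140) (nat_lit 3) (nat_lit 11) (.e false (nat_lit 36) (nat_lit 141) (nat_lit 3) (nat_lit 11) (.e true (nat_lit 180) (nat_lit 157) (nat_lit 2) (nat_lit 12) (.e true (nat_lit 72) (nat_lit 159) (nat_lit 2) (nat_lit 12) (.e false (nat_lit 72) (nat_lit 163) (nat_lit 2) (nat_lit 12) (.e false (nat_lit 36) (nat_lit 58) (nat_lit 9) (nat_lit 5) (.e false (nat_lit 36) (nat_lit 59) (nat_lit 9) (nat_lit 5) dW4x_i67)))))))))))))))))))))))))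

noncomputable def dW4x_i69 : IL := (.e false (nat_lit 144) (nat_lit 160) (nat_lit 2) (nat_lit 12) (.e true (nat_lit 144) (nat_lit 161) (nat_lit 2) (nat_lit 12) (.e true (nat_lit 144) (nat_lit 159) (nat_lit 2) (nat_lit 12) (.e false (nat_lit 36) (nat_lit 162) (nat_lit 2) (nat_lit 12) (.e true (nat_lit 24) (nat_lit 147) (nat_lit 3) (nat_lit 11) (.e true (nat_lit 12) (nat_lit 149) (nat_lit 3) (nat_lit 11) (.e true (nat_lit 132) (nat_lit 126) (nat_lit 3) (nat_lit 11) (.e true (nat_lit 96) (nat_lit 127) (nat_lit 3) (nat_lit 11) (.e true (nat_lit 24) (nat_lit 130) (nat_lit 3) (nat_lit 11) (.e false (nat_lit 60) (nat_lit 138) (nat_lit 3) (nat_lit 11) (.e false (nat_lit 36) (nat_lit 148) (nat_lit 3) (nat_lit 11) (.e false (nat_lit 72) (nat_lit 60) (nat_lit 9) (nat_lit 5) (.e false (nat_lit 108) (nat_lit 177) (nat_lit 1) (nat_lit 13) (.e false (nat_lit 108) (nat_lit 178) (nat_lit 0) (nat_lit 14) (.e false (nat_lit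 144) (nat_lit 179) (nat_lit 0) (nat_lit 14) (.e false (nat_lit 72) (nat_lit 183) (nat_lit 0) (nat_lit 14) (.e false (nat_lit 144) (nat_lit 139) (nat_lit 3) (nat_lit 11) (.e true (nat_lit 36) (nat_lit 168) (nat_lit 1) (nat_lit 13) (.e true (nat_lit 72) (nat_lit 170) (nat_lit 1) (nat_lit 13) (.e false (nat_lit 36) (nat_lit 172) (nat_lit 1) (nat_lit 13) (.e true (nat_lit 72) (nat_lit 173) (nat_lit 1) (nat_lit 13) (.e true (nat_lit 72) (nat_lit 174) (nat_lit 1) (nat_lit 13) (.e true (nat_lit 108) (nat_lit 165) (nat_lit 2) (nat_lit 12) (.e false (nat_lit 72) (nat_lit 61) (nat_lit 9) (nat_lit 5) (.e true (nat_lit 108) (nat_lit 164) (nat_lit 2) (nat_lit 12) .nil)))))))))))))))))))))))))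

noncomputable def dW4x_i70 : IL := (.s true (nat_lit 1) (nat_lit 27) (nat_lit 2) (nat_lit 3) (nat_lit 1) true (nat_lit 8) true (nat_lit 13) false (nat_lit 0) true (nat_lit 12) true (nat_lit 11) (.s false (nat_lit 5) (nat_lit 26) (nat_lit 3) (nat_lit 1) (nat_lit 2) true (nat_lit 5) true (nat_lit 12) false (nat_lit 0) true (nat_lit 11) true (nat_lit 13) (.s true (nat_lit 1) (nat_lit 28) (nat_lit 0) (nat_lit 2) (nat_lit 3) true (nat_lit 7) true (nat_lit 11) false (nat_lit 1) true (nat_lit 14) true (nat_lit 12) (.s true (nat_lit 2) (nat_lit 31) (nat_lit 1) (nat_lit 0) (nat_lit 3) true (nat_lit 6) true (nat_lit 11) false (nat_lit 2) true (nat_lit 13) true (nat_lit 14) (.e true (nat_lit 36) (nat_lit 166) (nat_lit 2) (nat_lit 12) (.e false (nat_lit 228) (nat_lit 137) (nat_lit 3) (nat_lit 11) (.e false (nat_lit 72) (nat_lit 140) (nat_lit 3) (nat_lit 11) (.e true (nat_lit 72) (nat_lit 141) (nat_lit 3) (nat_lit 11)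 (.e false (nat_lit 180) (nat_lit 59) (nat_lit 9) (nat_lit 5) (.e true (nat_lit 36) (nat_lit 63) (nat_lit 9) (nat_lit 5) (.e false (nat_lit 48) (nat_lit 133) (nat_lit 3) (nat_lit 11) (.e false (nat_lit 204) (nat_lit 142) (nat_lit 3) (nat_lit 11) (.e false (nat_lit 36) (nat_lit 143) (nat_lit 3) (nat_lit 11) (.e true (nat_lit 132) (nat_lit 145) (nat_lit 3) (nat_lit 11) (.e false (nat_lit 156) (nat_lit 146) (nat_lit 3) (nat_lit 11) (.e false (nat_lit 276) (nat_lit 150) (nat_lit 3) (nat_lit 11) (.e true (nat_lit 156) (nat_lit 128) (nat_lit 3) (nat_lit 11) (.e true (nat_lit 24) (nat_lit 129) (nat_lit 3) (nat_lit 11) (.e true (nat_lit 204) (nat_lit 131) (nat_lit 3) (nat_lit 11) (.e false (nat_lit 216) (nat_lit 132) (nat_lit 3) (nat_lit 11) (.e false (nat_lit 36) (nat_lit 134) (nat_lit 3) (nat_lit 11) (.e false (nat_lit 12) (nat_lit 135) (nat_lit 3) (nat_lit 11) (.e true (nat_lit 12) (nat_lit 144) (nat_lit 3) (nat_lit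 11) (.e true (nat_lit 108) (nat_lit 156) (nat_lit 2) (nat_lit 12) (.e true (nat_lit 108) (nat_lit 157) (nat_lit 2) (nat_lit 12) dW4x_i69)))))))))))))))))))))))))

noncomputable def dW4x_i71 : IL := (.s false (nat_lit 1) (nat_lit 10) (nat_lit 0) (nat_lit 6) (nat_lit 3) true (nat_lit 7) true (nat_lit 11) true (nat_lit 4) true (nat_lit 14) true (nat_lit 8) (.s false (nat_lit 1) (nat_lit 10) (nat_lit 1) (nat_lit 9) (nat_lit 0) true (nat_lit 10) true (nat_lit 14) true (nat_lit 4) true (nat_lit 13) true (nat_lit 5) (.s true (nat_lit 3) (nat_lit 10) (nat_lit 2) (nat_lit 7) (nat_lit 1) true (nat_lit 8) true (nat_lit 13) true (nat_lit 4) true (nat_lit 12) true (nat_lit 7) (.s false (nat_lit 1) (nat_lit 10) (nat_lit 4) (nat_lit 2) (nat_lit 3) true (nat_lit 2) true (nat_lit 11) true (nat_lit 4) true (nat_lit 10) true (nat_lit 12) (.s true (nat_lit 2) (nat_lit 10) (nat_lit 6) (nat_lit 0) (nat_lit 3) true (nat_lit 0) true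 (nat_lit 11) true (nat_lit 4) true (nat_lit 8) true (nat_lit 14) (.s false (nat_lit 2) (nat_lit 10) (nat_lit 6) (nat_lit 3) (nat_lit 0) true (nat_lit 3) true (nat_lit 14) true (nat_lit 4) true (nat_lit 8) true (nat_lit 11) (.s true (nat_lit 1) (nat_lit 10) (nat_lit 9) (nat_lit 0) (nat_lit 1) true (nat_lit 0) true (nat_lit 13) true (nat_lit 4) true (nat_lit 5) true (nat_lit 14) (.s false (nat_lit 2) (nat_lit 15) (nat_lit 3) (nat_lit 3) (nat_lit 3) true (nat_lit 4) true (nat_lit 11) true (nat_lit 3) true (nat_lit 11) true (nat_lit 11) (.s false (nat_lit 1) (nat_lit 17) (nat_lit 2) (nat_lit 3) (nat_lit 3) true (nat_lit 5) true (nat_lit 11) true (nat_lit 2) true (nat_lit 12) true (nat_lit 11) (.s false (nat_lit 2) (nat_lit 19) (nat_lit 2) (nat_lit 3) (nat_lit 3) true (nat_lit 5) true (nat_lit 11) true (nat_lit 2) true (nat_lit 12) true (nat_lit 11) (.s false (nat_lit 1) (nat_lit 17) (nat_lit 3) (nat_lit 2) (nat_lit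 3) true (nat_lit 4) true (nat_lit 11) true (nat_lit 2) true (nat_lit 11) true (nat_lit 12) (.s false (nat_lit 1) (nat_lit 18) (nat_lit 3) (nat_lit 2) (nat_lit 3) true (nat_lit 4) true (nat_lit 11) true (nat_lit 2) true (nat_lit 11) true (nat_lit 12) (.s true (nat_lit 1) (nat_lit 17) (nat_lit 3) (nat_lit 3) (nat_lit 2) true (nat_lit 5) true (nat_lit 12) true (nat_lit 2) true (nat_lit 11) true (nat_lit 11) (.s true (nat_lit 1) (nat_lit 20) (nat_lit 1) (nat_lit 3) (nat_lit 3) true (nat_lit 6) true (nat_lit 11) true (nat_lit 1) true (nat_lit 13) true (nat_lit 11) (.s true (nat_lit 2) (nat_lit 21) (nat_lit 1) (nat_lit 3) (nat_lit 3) true (nat_lit 6) true (nat_lit 11) true (nat_lit 1) true (nat_lit 13) true (nat_lit 11) (.s false (nat_lit 2) (nat_lit 21) (nat_lit 3) (nat_lit 1) (nat_lit 3) true (nat_lit 4) true (nat_lit 11) true (nat_lit 1) true (nat_lit 11) true (nat_lit 13) (.s true (nat_lit 2) (nat_lit 22) (nat_lit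 3) (nat_lit 1) (nat_lit 3) true (nat_lit 4) true (nat_lit 11) true (nat_lit 1) true (nat_lit 11) true (nat_lit 13) (.s true (nat_lit 3) (nat_lit 23) (nat_lit 0) (nat_lit 3) (nat_lit 3) true (nat_lit 7) true (nat_lit 11) true (nat_lit 0) true (nat_lit 14) true (nat_lit 11) (.s false (nat_lit 1) (nat_lit 23) (nat_lit 3) (nat_lit 0) (nat_lit 3) true (nat_lit 4) true (nat_lit 11) true (nat_lit 0) true (nat_lit 11) true (nat_lit 14) (.s false (nat_lit 2) (nat_lit 24) (nat_lit 3) (nat_lit 3) (nat_lit 0) true (nat_lit 7) true (nat_lit 14) true (nat_lit 0) true (nat_lit 11) true (nat_lit 11) (.s false (nat_lit 2) (nat_lit 26) (nat_lit 1) (nat_lit 2) (nat_lit 3) true (nat_lit 6) true (nat_lit 11) false (nat_lit 0) true (nat_lit 13) true (nat_lit 12) (.s true (nat_lit 1) (nat_lit 27) (nat_lit 1) (nat_lit 2) (nat_lit 3) true (nat_lit 6) true (nat_lit 11) false (nat_lit 0) true (nat_lit 13) true (nat_lit 12) (.s true (nat_lit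 2) (nat_lit 27) (nat_lit 1) (nat_lit 3) (nat_lit 2) true (nat_lit 8) true (nat_lit 12) false (nat_lit 0) true (nat_lit 13) true (nat_lit 11) (.s false (nat_lit 6) (nat_lit 26) (nat_lit 2) (nat_lit 1) (nat_lit 3) true (nat_lit 5) true (nat_lit 11) false (nat_lit 0) true (nat_lit 12) true (nat_lit 13) (.s false (nat_lit 1) (nat_lit 27) (nat_lit 2) (nat_lit 1) (nat_lit 3) true (nat_lit 5) true (nat_lit 11) false (nat_lit 0) true (nat_lit 12) true (nat_lit 13) dW4x_i70)))))))))))))))))))))))))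

noncomputable def dW4x_i72 : IL := (.e true (nat_lit 108) (nat_lit 140) (nat_lit 3) (nat_lit 11) (.e false (nat_lit 108) (nat_lit 141) (nat_lit 3) (nat_lit 11) (.e true (nat_lit 36) (nat_lit 58) (nat_lit 9) (nat_lit 5) (.e false (nat_lit 36) (nat_lit 59) (nat_lit 9) (nat_lit 5) (.e true (nat_lit 36) (nat_lit 63) (nat_lit 9) (nat_lit 5) (.e true (nat_lit 108) (nat_lit 142) (nat_lit 3) (nat_lit 11) (.e false (nat_lit 108) (nat_lit 145) (nat_lit 3) (nat_lit 11) (.e true (nat_lit 108) (nat_lit 146) (nat_lit 3) (nat_lit 11) (.e false (nat_lit 72) (nat_lit 144) (nat_lit 3) (nat_lit 11) (.e true (nat_lit 72) (nat_lit 156) (nat_lit 2) (nat_lit 12) (.e true (nat_lit 72) (nat_lit 157) (nat_lit 2) (nat_lit 12) (.e false (nat_lit 36) (nat_lit 160) (nat_lit 2) (nat_lit 12) (.e true (nat_lit 36) (nat_lit 161) (nat_lit 2) (nat_lit 12) (.e true (nat_lit 36) (nat_lit 159) (nat_lit 2) (nat_lit 12) (.e false (nat_lit 36) (nat_lit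 168) (nat_lit 1) (nat_lit 13) (.e true (nat_lit 36) (nat_lit 169) (nat_lit 1) (nat_lit 13) (.e true (nat_lit 36) (nat_lit 172) (nat_lit 1) (nat_lit 13) (.e false (nat_lit 36) (nat_lit 158) (nat_lit 2) (nat_lit 12) (.e false (nat_lit 36) (nat_lit 165) (nat_lit 2) (nat_lit 12) (.e true (nat_lit 36) (nat_lit 174) (nat_lit 1) (nat_lit 13) (.e false (nat_lit 36) (nat_lit 179) (nat_lit 0) (nat_lit 14) (.e true (nat_lit 36) (nat_lit 127) (nat_lit 3) (nat_lit 11) (.e false (nat_lit 36) (nat_lit 61) (nat_lit 9) (nat_lit 5) (.e true (nat_lit 36) (nat_lit 139) (nat_lit 3) (nat_lit 11) (.e true (nat_lit 36) (nat_lit 147) (nat_lit 3) (nat_lit 11) .nil)))))))))))))))))))))))))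

noncomputable def dW4x_i73 : IL := (.e false (nat_lit 36) (nat_lit 146) (nat_lit 3) (nat_lit 11) (.e true (nat_lit 36) (nat_lit 166) (nat_lit 2) (nat_lit 12) (.e true (nat_lit 108) (nat_lit 136) (nat_lit 3) (nat_lit 11) (.e false (nat_lit 36) (nat_lit 140) (nat_lit 3) (nat_lit 11) (.e true (nat_lit 72) (nat_lit 141) (nat_lit 3) (nat_lit 11) (.e false (nat_lit 108) (nat_lit 156) (nat_lit 2) (nat_lit 12) (.e false (nat_lit 252) (nat_lit 157) (nat_lit 2) (nat_lit 12) (.e true (nat_lit 108) (nat_lit 160) (nat_lit 2) (nat_lit 12) (.e false (nat_lit 72) (nat_lit 161) (nat_lit 2) (nat_lit 12) (.e false (nat_lit 144) (nat_lit 159) (nat_lit 2) (nat_lit 12) (.e false (nat_lit 36) (nat_lit 162) (nat_lit 2) (nat_lit 12) (.e true (nat_lit 72) (nat_lit 163) (nat_lit 2) (nat_lit 12) (.e true (nat_lit 36) (nat_lit 177) (nat_lit 1) (nat_lit 13) (.e true (nat_lit 36) (nat_lit 168) (nat_lit 1) (nat_lit 13) (.e false (nat_lit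 72) (nat_lit 170) (nat_lit 1) (nat_lit 13) (.e false (nat_lit 36) (nat_lit 147) (nat_lit 3) (nat_lit 11) (.e false (nat_lit 36) (nat_lit 178) (nat_lit 0) (nat_lit 14) (.e false (nat_lit 36) (nat_lit 169) (nat_lit 1) (nat_lit 13) (.e true (nat_lit 36) (nat_lit 172) (nat_lit 1) (nat_lit 13) (.e false (nat_lit 36) (nat_lit 176) (nat_lit 1) (nat_lit 13) (.e true (nat_lit 108) (nat_lit 158) (nat_lit 2) (nat_lit 12) (.e true (nat_lit 72) (nat_lit 165) (nat_lit 2) (nat_lit 12) (.e true (nat_lit 36) (nat_lit 138) (nat_lit 3) (nat_lit 11) (.e true (nat_lit 36) (nat_lit 60) (nat_lit 9) (nat_lit 5) (.e true (nat_lit 72) (nat_lit 167) (nat_lit 1) (nat_lit 13) .nil)))))))))))))))))))))))))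

noncomputable def dW4x_i74 : IL := (.s true (nat_lit 1) (nat_lit 10) (nat_lit 1) (nat_lit 9) (nat_lit 0) true (nat_lit 10) true (nat_lit 14) true (nat_lit 4) true (nat_lit 13) true (nat_lit 5) (.s false (nat_lit 1) (nat_lit 10) (nat_lit 2) (nat_lit 7) (nat_lit 1) true (nat_lit 8) true (nat_lit 13) true (nat_lit 4) true (nat_lit 12) true (nat_lit 7) (.s true (nat_lit 1) (nat_lit 10) (nat_lit 4) (nat_lit 2) (nat_lit 3) true (nat_lit 2) true (nat_lit 11) true (nat_lit 4) true (nat_lit 10) true (nat_lit 12) (.s true (nat_lit 1) (nat_lit 10) (nat_lit 9) (nat_lit 0) (nat_lit 1) true (nat_lit 0) true (nat_lit 13) true (nat_lit 4) true (nat_lit 5) true (nat_lit 14) (.s true (nat_lit 1) (nat_lit 17) (nat_lit 2) (nat_lit 3) (nat_lit 3) true (nat_lit 5) true (nat_lit 11) true (nat_lit 2) true (nat_lit 12) true (nat_lit 11) (.s true (nat_lit 1) (nat_lit 17) (nat_lit 3) (nat_lit 2) (nat_lit 3) true (nat_lit 4) true (nat_lit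 11) true (nat_lit 2) true (nat_lit 11) true (nat_lit 12) (.s true (nat_lit 1) (nat_lit 18) (nat_lit 3) (nat_lit 2) (nat_lit 3) true (nat_lit 4) true (nat_lit 11) true (nat_lit 2) true (nat_lit 11) true (nat_lit 12) (.s true (nat_lit 1) (nat_lit 17) (nat_lit 3) (nat_lit 3) (nat_lit 2) true (nat_lit 5) true (nat_lit 12) true (nat_lit 2) true (nat_lit 11) true (nat_lit 11) (.s true (nat_lit 1) (nat_lit 23) (nat_lit 0) (nat_lit 3) (nat_lit 3) true (nat_lit 7) true (nat_lit 11) true (nat_lit 0) true (nat_lit 14) true (nat_lit 11) (.s false (nat_lit 1) (nat_lit 23) (nat_lit 3) (nat_lit 0) (nat_lit 3) true (nat_lit 4) true (nat_lit 11) true (nat_lit 0) true (nat_lit 11) true (nat_lit 14) (.s true (nat_lit 1) (nat_lit 27) (nat_lit 1) (nat_lit 2) (nat_lit 3) true (nat_lit 6) true (nat_lit 11) false (nat_lit 0) true (nat_lit 13) true (nat_lit 12) (.s false (nat_lit 2) (nat_lit 26) (nat_lit 1) (nat_lit 3) (nat_lit 2)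 true (nat_lit 8) true (nat_lit 12) false (nat_lit 0) true (nat_lit 13) true (nat_lit 11) (.s true (nat_lit 1) (nat_lit 27) (nat_lit 2) (nat_lit 1) (nat_lit 3) true (nat_lit 5) true (nat_lit 11) false (nat_lit 0) true (nat_lit 12) true (nat_lit 13) (.s false (nat_lit 2) (nat_lit 26) (nat_lit 2) (nat_lit 3) (nat_lit 1) true (nat_lit 8) true (nat_lit 13) false (nat_lit 0) true (nat_lit 12) true (nat_lit 11) (.s true (nat_lit 1) (nat_lit 27) (nat_lit 2) (nat_lit 3) (nat_lit 1) true (nat_lit 8) true (nat_lit 13) false (nat_lit 0) true (nat_lit 12) true (nat_lit 11) (.s false (nat_lit 1) (nat_lit 26) (nat_lit 3) (nat_lit 1) (nat_lit 2) true (nat_lit 5) true (nat_lit 12) false (nat_lit 0) true (nat_lit 11) true (nat_lit 13) (.e true (nat_lit 36) (nat_lit 128) (nat_lit 3) (nat_lit 11) (.e true (nat_lit 36) (nat_lit 135) (nat_lit 3) (nat_lit 11) (.e false (nat_lit 108) (nat_lit 150) (nat_lit 3) (nat_lit 11) (.e true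 (nat_lit 72) (nat_lit 58) (nat_lit 9) (nat_lit 5) (.e true (nat_lit 108) (nat_lit 59) (nat_lit 9) (nat_lit 5) (.e true (nat_lit 36) (nat_lit 63) (nat_lit 9) (nat_lit 5) (.e true (nat_lit 108) (nat_lit 137) (nat_lit 3) (nat_lit 11) (.e false (nat_lit 36) (nat_lit 142) (nat_lit 3) (nat_lit 11) (.e true (nat_lit 72) (nat_lit 145) (nat_lit 3) (nat_lit 11) dW4x_i73)))))))))))))))))))))))))

noncomputable def dW4x_i75 : IL := (.e false (nat_lit 36) (nat_lit 136) (nat_lit 3) (nat_lit 11) (.e false (nat_lit 36) (nat_lit 137) (nat_lit 3) (nat_lit 11) (.e true (nat_lit 36) (nat_lit 140) (nat_lit 3) (nat_lit 11) (.e false (nat_lit 36) (nat_lit 141) (nat_lit 3) (nat_lit 11) (.e true (nat_lit 108) (nat_lit 157) (nat_lit 2) (nat_lit 12) (.e true (nat_lit 36) (nat_lit 162) (nat_lit 2) (nat_lit 12) (.e false (nat_lit 36) (nat_lit 163) (nat_lit 2) (nat_lit 12) (.e false (nat_lit 72) (nat_lit 166) (nat_lit 2) (nat_lit 12) (.e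 true (nat_lit 36) (nat_lit 142) (nat_lit 3) (nat_lit 11) (.e true (nat_lit 36) (nat_lit 143) (nat_lit 3) (nat_lit 11) (.e false (nat_lit 36) (nat_lit 145) (nat_lit 3) (nat_lit 11) (.e true (nat_lit 36) (nat_lit 146) (nat_lit 3) (nat_lit 11) (.e false (nat_lit 36) (nat_lit 59) (nat_lit 9) (nat_lit 5) (.e false (nat_lit 36) (nat_lit 168) (nat_lit 1) (nat_lit 13) (.e false (nat_lit 72) (nat_lit 170) (nat_lit 1) (nat_lit 13) (.e true (nat_lit 36) (nat_lit 173) (nat_lit 1) (nat_lit 13) (.e true (nat_lit 36) (nat_lit 174) (nat_lit 1) (nat_lit 13) (.e false (nat_lit 72) (nat_lit 177) (nat_lit 1) (nat_lit 13) (.e false (nat_lit 36) (nat_lit 144) (nat_lit 3) (nat_lit 11) (.e false (nat_lit 36) (nat_lit 139) (nat_lit 3) (nat_lit 11) (.e false (nat_lit 72) (nat_lit 61) (nat_lit 9) (nat_lit 5) (.e true (nat_lit 72) (nat_lit 156) (nat_lit 2) (nat_lit 12) (.e false (nat_lit 72) (nat_lit 158) (nat_lit 2) (nat_lit 12) (.e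 false (nat_lit 72) (nat_lit 165) (nat_lit 2) (nat_lit 12) (.e true (nat_lit 72) (nat_lit 150) (nat_lit 3) (nat_lit 11) .nil)))))))))))))))))))))))))

noncomputable def dW4x_i76 : IL := (.e true (nat_lit 36) (nat_lit 146) (nat_lit 3) (nat_lit 11) (.e false (nat_lit 36) (nat_lit 131) (nat_lit 3) (nat_lit 11) (.e true (nat_lit 36) (nat_lit 132) (nat_lit 3) (nat_lit 11) (.e false (nat_lit 36) (nat_lit 135) (nat_lit 3) (nat_lit 11) (.e true (nat_lit 72) (nat_lit 156) (nat_lit 2) (nat_lit 12) (.e true (nat_lit 72) (nat_lit 157) (nat_lit 2) (nat_lit 12) (.e false (nat_lit 72) (nat_lit 160) (nat_lit 2) (nat_lit 12) (.e true (nat_lit 144) (nat_lit 161) (nat_lit 2) (nat_lit 12) (.e false (nat_lit 72) (nat_lit 162) (nat_lit 2) (nat_lit 12) (.e true (nat_lit 36) (nat_lit 177) (nat_lit 1) (nat_lit 13) (.e true (nat_lit 72) (nat_lit 139) (nat_lit 3) (nat_lit 11) (.e false (nat_lit 36) (nat_lit 147) (nat_lit 3) (nat_lit 11)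 (.e true (nat_lit 36) (nat_lit 168) (nat_lit 1) (nat_lit 13) (.e false (nat_lit 36) (nat_lit 169) (nat_lit 1) (nat_lit 13) (.e true (nat_lit 36) (nat_lit 170) (nat_lit 1) (nat_lit 13) (.e false (nat_lit 36) (nat_lit 172) (nat_lit 1) (nat_lit 13) (.e false (nat_lit 36) (nat_lit 173) (nat_lit 1) (nat_lit 13) (.e false (nat_lit 36) (nat_lit 176) (nat_lit 1) (nat_lit 13) (.e true (nat_lit 72) (nat_lit 158) (nat_lit 2) (nat_lit 12) (.e true (nat_lit 36) (nat_lit 179) (nat_lit 0) (nat_lit 14) (.e false (nat_lit 36) (nat_lit 183) (nat_lit 0) (nat_lit 14) (.e false (nat_lit 36) (nat_lit 174) (nat_lit 1) (nat_lit 13) (.e false (nat_lit 36) (nat_lit 126) (nat_lit 3) (nat_lit 11) (.e true (nat_lit 72) (nat_lit 61) (nat_lit 9) (nat_lit 5) (.e false (nat_lit 72) (nat_lit 164) (nat_lit 2) (nat_lit 12) .nil)))))))))))))))))))))))))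

noncomputable def dW4x_i77 : IL := (.e true (nat_lit 24) (nat_lit 137) (nat_lit 3) (nat_lit 11) (.e true (nat_lit 36) (nat_lit 140) (nat_lit 3) (nat_lit 11) (.e false (nat_lit 72) (nat_lit 141) (nat_lit 3) (nat_lit 11) (.e false (nat_lit 36) (nat_lit 143) (nat_lit 3) (nat_lit 11) (.e true (nat_lit 12) (nat_lit 144) (nat_lit 3) (nat_lit 11) (.e false (nat_lit 72) (nat_lit 156) (nat_lit 2) (nat_lit 12) (.e false (nat_lit 36) (nat_lit 157) (nat_lit 2) (nat_lit 12) (.e true (nat_lit 36) (nat_lit 160) (nat_lit 2) (nat_lit 12) (.e false (nat_lit 72) (nat_lit 161) (nat_lit 2) (nat_lit 12) (.e true (nat_lit 36) (nat_lit 159) (nat_lit 2) (nat_lit 12) (.e false (nat_lit 36) (nat_lit 62) (nat_lit 9) (nat_lit 5) (.e true (nat_lit 36) (nat_lit 63) (nat_lit 9) (nat_lit 5) (.e true (nat_lit 24) (nat_lit 147) (nat_lit 3) (nat_lit 11) (.e true (nat_lit 12) (nat_lit 149) (nat_lit 3) (nat_lit 11) (.e false (nat_lit 48) (nat_lit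 126) (nat_lit 3) (nat_lit 11) (.e false (nat_lit 48) (nat_lit 127) (nat_lit 3) (nat_lit 11) (.e true (nat_lit 12) (nat_lit 138) (nat_lit 3) (nat_lit 11) (.e true (nat_lit 48) (nat_lit 142) (nat_lit 3) (nat_lit 11) (.e false (nat_lit 84) (nat_lit 145) (nat_lit 3) (nat_lit 11) (.e true (nat_lit 24) (nat_lit 146) (nat_lit 3) (nat_lit 11) (.e true (nat_lit 72) (nat_lit 177) (nat_lit 1) (nat_lit 13) (.e false (nat_lit 36) (nat_lit 168) (nat_lit 1) (nat_lit 13) (.e true (nat_lit 36) (nat_lit 176) (nat_lit 1) (nat_lit 13) (.e true (nat_lit 36) (nat_lit 60) (nat_lit 9) (nat_lit 5) (.e true (nat_lit 72) (nat_lit 139) (nat_lit 3) (nat_lit 11) .nil)))))))))))))))))))))))))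

noncomputable def dW4x_i78 : IL := (.s true (nat_lit 1) (nat_lit 7) (nat_lit 6) (nat_lit 3) (nat_lit 3) true (nat_lit 0) true (nat_lit 11) true (nat_lit 7) true (nat_lit 8) true (nat_lit 11) (.s true (nat_lit 1) (nat_lit 8) (nat_lit 2) (nat_lit 3) (nat_lit 7) true (nat_lit 1) true (nat_lit 7) true (nat_lit 6) true (nat_lit 12) true (nat_lit 11) (.s true (nat_lit 1) (nat_lit 8) (nat_lit 3) (nat_lit 2) (nat_lit 7) false (nat_lit 0) true (nat_lit 7) true (nat_lit 6) true (nat_lit 11) true (nat_lit 12) (.s false (nat_lit 1) (nat_lit 8) (nat_lit 7) (nat_lit 2) (nat_lit 3) false (nat_lit 0) true (nat_lit 11) true (nat_lit 6) true (nat_lit 7) true (nat_lit 12) (.s true (nat_lit 1) (nat_lit 9) (nat_lit 0) (nat_lit 3) (nat_lit 8) true (nat_lit 2) true (nat_lit 6) true (nat_lit 5) true (nat_lit 14) true (nat_lit 11) (.s true (nat_lit 1) (nat_lit 9) (nat_lit 1) (nat_lit 7) (nat_lit 3) true (nat_lit 6) true (nat_lit 11)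 true (nat_lit 5) true (nat_lit 13) true (nat_lit 7) (.s true (nat_lit 1) (nat_lit 10) (nat_lit 2) (nat_lit 7) (nat_lit 1) true (nat_lit 8) true (nat_lit 13) true (nat_lit 4) true (nat_lit 12) true (nat_lit 7) (.s true (nat_lit 1) (nat_lit 19) (nat_lit 2) (nat_lit 3) (nat_lit 3) true (nat_lit 5) true (nat_lit 11) true (nat_lit 2) true (nat_lit 12) true (nat_lit 11) (.s false (nat_lit 1) (nat_lit 17) (nat_lit 3) (nat_lit 3) (nat_lit 2) true (nat_lit 5) true (nat_lit 12) true (nat_lit 2) true (nat_lit 11) true (nat_lit 11) (.s false (nat_lit 1) (nat_lit 20) (nat_lit 1) (nat_lit 3) (nat_lit 3) true (nat_lit 6) true (nat_lit 11) true (nat_lit 1) true (nat_lit 13) true (nat_lit 11) (.s false (nat_lit 1) (nat_lit 21) (nat_lit 3) (nat_lit 1) (nat_lit 3) true (nat_lit 4) true (nat_lit 11) true (nat_lit 1) true (nat_lit 11) true (nat_lit 13) (.s true (nat_lit 1) (nat_lit 26) (nat_lit 1) (nat_lit 2) (nat_lit 3) true (nat_lit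 6) true (nat_lit 11) false (nat_lit 0) true (nat_lit 13) true (nat_lit 12) (.s false (nat_lit 1) (nat_lit 28) (nat_lit 0) (nat_lit 2) (nat_lit 3) true (nat_lit 7) true (nat_lit 11) false (nat_lit 1) true (nat_lit 14) true (nat_lit 12) (.s false (nat_lit 1) (nat_lit 31) (nat_lit 1) (nat_lit 0) (nat_lit 3) true (nat_lit 6) true (nat_lit 11) false (nat_lit 2) true (nat_lit 13) true (nat_lit 14) (.e false (nat_lit 60) (nat_lit 128) (nat_lit 3) (nat_lit 11) (.e false (nat_lit 12) (nat_lit 129) (nat_lit 3) (nat_lit 11) (.e true (nat_lit 24) (nat_lit 130) (nat_lit 3) (nat_lit 11) (.e false (nat_lit 84) (nat_lit 131) (nat_lit 3) (nat_lit 11) (.e true (nat_lit 36) (nat_lit 132) (nat_lit 3) (nat_lit 11) (.e true (nat_lit 24) (nat_lit 133) (nat_lit 3) (nat_lit 11) (.e true (nat_lit 36) (nat_lit 134) (nat_lit 3) (nat_lit 11) (.e true (nat_lit 60) (nat_lit 135) (nat_lit 3) (nat_lit 11) (.e true (nat_lit 156) (nat_lit 150)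 (nat_lit 3) (nat_lit 11) (.e false (nat_lit 36) (nat_lit 65) (nat_lit 8) (nat_lit 6) (.e false (nat_lit 36) (nat_lit 136) (nat_lit 3) (nat_lit 11) dW4x_i77)))))))))))))))))))))))))

noncomputable def dW4x_i79 : IL := (.s true (nat_lit 1) (nat_lit 30) (nat_lit 1) (nat_lit 3) (nat_lit 0) true (nat_lit 10) true (nat_lit 14) false (nat_lit 2) true (nat_lit 13) true (nat_lit 11) (.e false (nat_lit 36) (nat_lit 127) (nat_lit 3) (nat_lit 11) (.e true (nat_lit 36) (nat_lit 133) (nat_lit 3) (nat_lit 11) (.e true (nat_lit 36) (nat_lit 135) (nat_lit 3) (nat_lit 11) (.e true (nat_lit 36) (nat_lit 138) (nat_lit 3) (nat_lit 11) (.e false (nat_lit 36) (nat_lit 146) (nat_lit 3) (nat_lit 11) (.e false (nat_lit 72) (nat_lit 58) (nat_lit 9) (nat_lit 5) (.e false (nat_lit 36) (nat_lit 136) (nat_lit 3) (nat_lit 11) (.e true (nat_lit 72) (nat_lit 157) (nat_lit 2) (nat_lit 12) (.e false (nat_lit 72) (nat_lit 158) (nat_lit 2) (nat_lit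 12) (.e true (nat_lit 72) (nat_lit 159) (nat_lit 2) (nat_lit 12) (.e false (nat_lit 72) (nat_lit 161) (nat_lit 2) (nat_lit 12) (.e true (nat_lit 36) (nat_lit 60) (nat_lit 9) (nat_lit 5) (.e true (nat_lit 36) (nat_lit 160) (nat_lit 2) (nat_lit 12) (.e false (nat_lit 36) (nat_lit 162) (nat_lit 2) (nat_lit 12) (.e false (nat_lit 36) (nat_lit 163) (nat_lit 2) (nat_lit 12) (.e false (nat_lit 36) (nat_lit 164) (nat_lit 2) (nat_lit 12) (.e false (nat_lit 36) (nat_lit 165) (nat_lit 2) (nat_lit 12) (.e false (nat_lit 36) (nat_lit 156) (nat_lit 2) (nat_lit 12) (.e true (nat_lit 36) (nat_lit 183) (nat_lit 0) (nat_lit 14) (.e false (nat_lit 36) (nat_lit 168) (nat_lit 1) (nat_lit 13) (.e false (nat_lit 36) (nat_lit 170) (nat_lit 1) (nat_lit 13) (.e true (nat_lit 36) (nat_lit 173) (nat_lit 1) (nat_lit 13) (.e true (nat_lit 36) (nat_lit 174) (nat_lit 1) (nat_lit 13) (.e false (nat_lit 36) (nat_lit 177) (nat_lit 1) (nat_lit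 13) .nil)))))))))))))))))))))))))

noncomputable def dW4x_i80 : IL := (.e true (nat_lit 36) (nat_lit 68) (nat_lit 8) (nat_lit 6) (.e true (nat_lit 72) (nat_lit 166) (nat_lit 2) (nat_lit 12) (.e true (nat_lit 72) (nat_lit 136) (nat_lit 3) (nat_lit 11) (.e true (nat_lit 72) (nat_lit 137) (nat_lit 3) (nat_lit 11) (.e false (nat_lit 36) (nat_lit 140) (nat_lit 3) (nat_lit 11) (.e true (nat_lit 72) (nat_lit 141) (nat_lit 3) (nat_lit 11) (.e true (nat_lit 72) (nat_lit 59) (nat_lit 9) (nat_lit 5) (.e false (nat_lit 72) (nat_lit 142) (nat_lit 3) (nat_lit 11) (.e true (nat_lit 72) (nat_lit 145) (nat_lit 3) (nat_lit 11) (.e false (nat_lit 72) (nat_lit 146) (nat_lit 3) (nat_lit 11) (.e true (nat_lit 72) (nat_lit 144) (nat_lit 3) (nat_lit 11) (.e false (nat_lit 72) (nat_lit 156) (nat_lit 2) (nat_lit 12) (.e false (nat_lit 108) (nat_lit 157) (nat_lit 2) (nat_lit 12) (.e true (nat_lit 36) (nat_lit 160) (nat_lit 2) (nat_lit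 12) (.e true (nat_lit 36) (nat_lit 161) (nat_lit 2) (nat_lit 12) (.e false (nat_lit 36) (nat_lit 159) (nat_lit 2) (nat_lit 12) (.e false (nat_lit 72) (nat_lit 162) (nat_lit 2) (nat_lit 12) (.e true (nat_lit 72) (nat_lit 177) (nat_lit 1) (nat_lit 13) (.e false (nat_lit 36) (nat_lit 173) (nat_lit 1) (nat_lit 13) (.e true (nat_lit 108) (nat_lit 158) (nat_lit 2) (nat_lit 12) (.e true (nat_lit 72) (nat_lit 165) (nat_lit 2) (nat_lit 12) (.e false (nat_lit 36) (nat_lit 174) (nat_lit 1) (nat_lit 13) (.e true (nat_lit 72) (nat_lit 61) (nat_lit 9) (nat_lit 5) (.e false (nat_lit 36) (nat_lit 164) (nat_lit 2) (nat_lit 12) (.e false (nat_lit 36) (nat_lit 84) (nat_lit 4) (nat_lit 10) .nil)))))))))))))))))))))))))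

noncomputable def dW4x_i81 : IL := (.e true (nat_lit 60) (nat_lit 144) (nat_lit 3) (nat_lit 11) (.e false (nat_lit 120) (nat_lit 150) (nat_lit 3) (nat_lit 11) (.e false (nat_lit 36) (nat_lit 160) (nat_lit 2) (nat_lit 12) (.e true (nat_lit 72) (nat_lit 161) (nat_lit 2) (nat_lit 12) (.e true (nat_lit 48) (nat_lit 137) (nat_lit 3) (nat_lit 11) (.e true (nat_lit 72) (nat_lit 159) (nat_lit 2) (nat_lit 12) (.e false (nat_lit 72) (nat_lit 162) (nat_lit 2) (nat_lit 12) (.e true (nat_lit 72) (nat_lit 166) (nat_lit 2) (nat_lit 12) (.e true (nat_lit 12) (nat_lit 126) (nat_lit 3) (nat_lit 11) (.e false (nat_lit 24) (nat_lit 127) (nat_lit 3) (nat_lit 11) (.e false (nat_lit 24) (nat_lit 130) (nat_lit 3) (nat_lit 11) (.e true (nat_lit 24) (nat_lit 138) (nat_lit 3) (nat_lit 11) (.e true (nat_lit 24) (nat_lit 142) (nat_lit 3) (nat_lit 11) (.e true (nat_lit 12) (nat_lit 145) (nat_lit 3) (nat_lit 11) (.e false (nat_lit 24) (nat_lit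 146) (nat_lit 3) (nat_lit 11) (.e true (nat_lit 12) (nat_lit 147) (nat_lit 3) (nat_lit 11) (.e true (nat_lit 36) (nat_lit 148) (nat_lit 3) (nat_lit 11) (.e false (nat_lit 12) (nat_lit 149) (nat_lit 3) (nat_lit 11) (.e true (nat_lit 36) (nat_lit 60) (nat_lit 9) (nat_lit 5) (.e false (nat_lit 36) (nat_lit 176) (nat_lit 1) (nat_lit 13) (.e true (nat_lit 72) (nat_lit 61) (nat_lit 9) (nat_lit 5) (.e true (nat_lit 36) (nat_lit 158) (nat_lit 2) (nat_lit 12) (.e true (nat_lit 36) (nat_lit 165) (nat_lit 2) (nat_lit 12) (.e true (nat_lit 72) (nat_lit 170) (nat_lit 1) (nat_lit 13) (.e false (nat_lit 36) (nat_lit 164) (nat_lit 2) (nat_lit 12) .nil)))))))))))))))))))))))))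

noncomputable def dW4x_i82 : IL := (.e false (nat_lit 36) (nat_lit 142) (nat_lit 3) (nat_lit 11) (.e true (nat_lit 36) (nat_lit 145) (nat_lit 3) (nat_lit 11) (.e false (nat_lit 36) (nat_lit 146) (nat_lit 3) (nat_lit 11) (.e false (nat_lit 108) (nat_lit 150) (nat_lit 3) (nat_lit 11) (.e true (nat_lit 72) (nat_lit 166) (nat_lit 2) (nat_lit 12) (.e true (nat_lit 36) (nat_lit 64) (nat_lit 8) (nat_lit 6) (.e false (nat_lit 36) (nat_lit 68) (nat_lit 8) (nat_lit 6) (.e true (nat_lit 36) (nat_lit 128) (nat_lit 3) (nat_lit 11) (.e true (nat_lit 36) (nat_lit 129) (nat_lit 3) (nat_lit 11) (.e true (nat_lit 36) (nat_lit 131) (nat_lit 3) (nat_lit 11) (.e false (nat_lit 36) (nat_lit 132) (nat_lit 3) (nat_lit 11) (.e false (nat_lit 36) (nat_lit 134) (nat_lit 3) (nat_lit 11) (.e false (nat_lit 36) (nat_lit 135) (nat_lit 3) (nat_lit 11) (.e true (nat_lit 36) (nat_lit 136) (nat_lit 3) (nat_lit 11) (.e false (nat_lit 36) (nat_lit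 140) (nat_lit 3) (nat_lit 11) (.e true (nat_lit 36) (nat_lit 141) (nat_lit 3) (nat_lit 11) (.e true (nat_lit 36) (nat_lit 144) (nat_lit 3) (nat_lit 11) (.e false (nat_lit 36) (nat_lit 160) (nat_lit 2) (nat_lit 12) (.e true (nat_lit 36) (nat_lit 161) (nat_lit 2) (nat_lit 12) (.e true (nat_lit 36) (nat_lit 61) (nat_lit 9) (nat_lit 5) (.e true (nat_lit 36) (nat_lit 158) (nat_lit 2) (nat_lit 12) (.e true (nat_lit 36) (nat_lit 159) (nat_lit 2) (nat_lit 12) (.e false (nat_lit 36) (nat_lit 162) (nat_lit 2) (nat_lit 12) (.e true (nat_lit 36) (nat_lit 165) (nat_lit 2) (nat_lit 12) (.e true (nat_lit 36) (nat_lit 170) (nat_lit 1) (nat_lit 13) .nil)))))))))))))))))))))))))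

noncomputable def dW4x_i83 : IL := (.e true (nat_lit 72) (nat_lit 146) (nat_lit 3) (nat_lit 11) (.e true (nat_lit 36) (nat_lit 130) (nat_lit 3) (nat_lit 11) (.e true (nat_lit 72) (nat_lit 156) (nat_lit 2) (nat_lit 12) (.e true (nat_lit 108) (nat_lit 157) (nat_lit 2) (nat_lit 12) (.e false (nat_lit 36) (nat_lit 158) (nat_lit 2) (nat_lit 12) (.e true (nat_lit 36) (nat_lit 159) (nat_lit 2) (nat_lit 12) (.e false (nat_lit 72) (nat_lit 160) (nat_lit 2) (nat_lit 12) (.e true (nat_lit 36) (nat_lit 161) (nat_lit 2) (nat_lit 12) (.e false (nat_lit 36) (nat_lit 163) (nat_lit 2) (nat_lit 12) (.e false (nat_lit 36) (nat_lit 165) (nat_lit 2) (nat_lit 12) (.e false (nat_lit 72) (nat_lit 137) (nat_lit 3) (nat_lit 11) (.e false (nat_lit 72) (nat_lit 136) (nat_lit 3) (nat_lit 11) (.e true (nat_lit 72) (nat_lit 140) (nat_lit 3) (nat_lit 11) (.e false (nat_lit 72) (nat_lit 141) (nat_lit 3) (nat_lit 11) (.e true (nat_lit 72)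 (nat_lit 150) (nat_lit 3) (nat_lit 11) (.e false (nat_lit 36) (nat_lit 126) (nat_lit 3) (nat_lit 11) (.e true (nat_lit 36) (nat_lit 129) (nat_lit 3) (nat_lit 11) (.e false (nat_lit 36) (nat_lit 133) (nat_lit 3) (nat_lit 11) (.e false (nat_lit 36) (nat_lit 134) (nat_lit 3) (nat_lit 11) (.e false (nat_lit 36) (nat_lit 135) (nat_lit 3) (nat_lit 11) (.e false (nat_lit 36) (nat_lit 68) (nat_lit 8) (nat_lit 6) (.e true (nat_lit 36) (nat_lit 173) (nat_lit 1) (nat_lit 13) (.e true (nat_lit 36) (nat_lit 139) (nat_lit 3) (nat_lit 11) (.e false (nat_lit 36) (nat_lit 144) (nat_lit 3) (nat_lit 11) (.e true (nat_lit 36) (nat_lit 147) (nat_lit 3) (nat_lit 11) .nil)))))))))))))))))))))))))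

noncomputable def dW4x_i84 : IL := (.e false (nat_lit 36) (nat_lit 137) (nat_lit 3) (nat_lit 11) (.e false (nat_lit 72) (nat_lit 157) (nat_lit 2) (nat_lit 12) (.e true (nat_lit 36) (nat_lit 162) (nat_lit 2) (nat_lit 12) (.e true (nat_lit 36) (nat_lit 163) (nat_lit 2) (nat_lit 12) (.e false (nat_lit 36) (nat_lit 143) (nat_lit 3) (nat_lit 11) (.e false (nat_lit 36) (nat_lit 59) (nat_lit 9) (nat_lit 5) (.e false (nat_lit 36) (nat_lit 168) (nat_lit 1) (nat_lit 13) (.e true (nat_lit 36) (nat_lit 173) (nat_lit 1) (nat_lit 13) (.e true (nat_lit 36) (nat_lit 174) (nat_lit 1) (nat_lit 13) (.e false (nat_lit 36) (nat_lit 144) (nat_lit 3) (nat_lit 11) (.e true (nat_lit 36) (nat_lit 147) (nat_lit 3) (nat_lit 11) (.e false (nat_lit 36) (nat_lit 61) (nat_lit 9) (nat_lit 5) (.e false (nat_lit 36) (nat_lit 138) (nat_lit 3) (nat_lit 11) (.e false (nat_lit 36) (nat_lit 139) (nat_lit 3) (nat_lit 11) (.e false (nat_lit 72) (nat_lit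 178) (nat_lit 0) (nat_lit 14) (.e false (nat_lit 72) (nat_lit 179) (nat_lit 0) (nat_lit 14) (.e true (nat_lit 36) (nat_lit 182) (nat_lit 0) (nat_lit 14) (.e false (nat_lit 72) (nat_lit 183) (nat_lit 0) (nat_lit 14) (.e true (nat_lit 36) (nat_lit 186) (nat_lit 0) (nat_lit 14) (.e true (nat_lit 36) (nat_lit 164) (nat_lit 2) (nat_lit 12) (.e true (nat_lit 72) (nat_lit 58) (nat_lit 9) (nat_lit 5) (.e false (nat_lit 36) (nat_lit 60) (nat_lit 9) (nat_lit 5) (.e false (nat_lit 36) (nat_lit 62) (nat_lit 9) (nat_lit 5) (.e true (nat_lit 36) (nat_lit 63) (nat_lit 9) (nat_lit 5) (.e false (nat_lit 36) (nat_lit 149) (nat_lit 3) (nat_lit 11) .nil)))))))))))))))))))))))))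

noncomputable def dW4x_i85 : IL := (.s true (nat_lit 1) (nat_lit 23) (nat_lit 3) (nat_lit 0) (nat_lit 3) true (nat_lit 4) true (nat_lit 11) true (nat_lit 0) true (nat_lit 11) true (nat_lit 14) (.s true (nat_lit 1) (nat_lit 26) (nat_lit 2) (nat_lit 1) (nat_lit 3) true (nat_lit 5) true (nat_lit 11) false (nat_lit 0) true (nat_lit 12) true (nat_lit 13) (.s true (nat_lit 1) (nat_lit 32) (nat_lit 1) (nat_lit 2) (nat_lit 0) true (nat_lit 10) true (nat_lit 14) false (nat_lit 3) true (nat_lit 13) true (nat_lit 12) (.e false (nat_lit 36) (nat_lit 128) (nat_lit 3) (nat_lit 11) (.e false (nat_lit 36) (nat_lit 135) (nat_lit 3) (nat_lit 11) (.e true (nat_lit 36) (nat_lit 150) (nat_lit 3) (nat_lit 11) (.e false (nat_lit 36) (nat_lit 179) (nat_lit 0) (nat_lit 14) (.e true (nat_lit 36) (nat_lit 180) (nat_lit 0) (nat_lit 14) (.e false (nat_lit 36) (nat_lit 181) (nat_lit 0) (nat_lit 14) (.e true (nat_lit 36) (nat_lit 183) (nat_lit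 0) (nat_lit 14) (.e true (nat_lit 36) (nat_lit 144) (nat_lit 3) (nat_lit 11) (.e true (nat_lit 36) (nat_lit 147) (nat_lit 3) (nat_lit 11) (.e true (nat_lit 36) (nat_lit 178) (nat_lit 0) (nat_lit 14) (.e true (nat_lit 36) (nat_lit 61) (nat_lit 9) (nat_lit 5) (.e true (nat_lit 36) (nat_lit 166) (nat_lit 2) (nat_lit 12) (.e false (nat_lit 36) (nat_lit 167) (nat_lit 1) (nat_lit 13) (.e false (nat_lit 72) (nat_lit 168) (nat_lit 1) (nat_lit 13) (.e true (nat_lit 72) (nat_lit 169) (nat_lit 1) (nat_lit 13) (.e false (nat_lit 36) (nat_lit 173) (nat_lit 1) (nat_lit 13) (.e true (nat_lit 72) (nat_lit 176) (nat_lit 1) (nat_lit 13) (.e true (nat_lit 36) (nat_lit 177) (nat_lit 1) (nat_lit 13) (.e false (nat_lit 36) (nat_lit 84) (nat_lit 4) (nat_lit 10) (.e true (nat_lit 36) (nat_lit 185) (nat_lit 0) (nat_lit 14) (.e true (nat_lit 36) (nat_lit 172) (nat_lit 1) (nat_lit 13) (.e false (nat_lit 36) (nat_lit 163) (nat_lit 2)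 (nat_lit 12) .nil)))))))))))))))))))))))))

noncomputable def dW4x_i86 : IL := (.s true (nat_lit 1) (nat_lit 21) (nat_lit 1) (nat_lit 3) (nat_lit 3) true (nat_lit 6) true (nat_lit 11) true (nat_lit 1) true (nat_lit 13) true (nat_lit 11) (.s false (nat_lit 1) (nat_lit 21) (nat_lit 3) (nat_lit 1) (nat_lit 3) true (nat_lit 4) true (nat_lit 11) true (nat_lit 1) true (nat_lit 11) true (nat_lit 13) (.s false (nat_lit 1) (nat_lit 26) (nat_lit 2) (nat_lit 1) (nat_lit 3) true (nat_lit 5) true (nat_lit 11) false (nat_lit 0) true (nat_lit 12) true (nat_lit 13) (.s false (nat_lit 1) (nat_lit 26) (nat_lit 3) (nat_lit 1) (nat_lit 2) true (nat_lit 5) true (nat_lit 12) false (nat_lit 0) true (nat_lit 11) true (nat_lit 13) (.e true (nat_lit 36) (nat_lit 133) (nat_lit 3) (nat_lit 11) (.e true (nat_lit 36) (nat_lit 64) (nat_lit 8) (nat_lit 6) (.e true (nat_lit 36) (nat_lit 65) (nat_lit 8) (nat_lit 6) (.e false (nat_lit 36) (nat_lit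 68) (nat_lit 8) (nat_lit 6) (.e true (nat_lit 36) (nat_lit 69) (nat_lit 8) (nat_lit 6) (.e true (nat_lit 36) (nat_lit 166) (nat_lit 2) (nat_lit 12) (.e false (nat_lit 36) (nat_lit 136) (nat_lit 3) (nat_lit 11) (.e false (nat_lit 72) (nat_lit 137) (nat_lit 3) (nat_lit 11) (.e true (nat_lit 36) (nat_lit 140) (nat_lit 3) (nat_lit 11) (.e false (nat_lit 36) (nat_lit 141) (nat_lit 3) (nat_lit 11) (.e true (nat_lit 36) (nat_lit 157) (nat_lit 2) (nat_lit 12) (.e true (nat_lit 36) (nat_lit 159) (nat_lit 2) (nat_lit 12) (.e false (nat_lit 36) (nat_lit 59) (nat_lit 9) (nat_lit 5) (.e false (nat_lit 72) (nat_lit 168) (nat_lit 1) (nat_lit 13) (.e true (nat_lit 36) (nat_lit 169) (nat_lit 1) (nat_lit 13) (.e true (nat_lit 36) (nat_lit 176) (nat_lit 1) (nat_lit 13) (.e true (nat_lit 36) (nat_lit 156) (nat_lit 2) (nat_lit 12) (.e false (nat_lit 36) (nat_lit 160) (nat_lit 2) (nat_lit 12) (.e true (nat_lit 36) (nat_lit 161)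 (nat_lit 2) (nat_lit 12) (.e false (nat_lit 36) (nat_lit 167) (nat_lit 1) (nat_lit 13) (.e true (nat_lit 36) (nat_lit 174) (nat_lit 1) (nat_lit 13) .nil)))))))))))))))))))))))))

noncomputable def dW4x_i87 : IL := (.e false (nat_lit 36) (nat_lit 130) (nat_lit 3) (nat_lit 11) (.e false (nat_lit 36) (nat_lit 131) (nat_lit 3) (nat_lit 11) (.e true (nat_lit 36) (nat_lit 132) (nat_lit 3) (nat_lit 11) (.e true (nat_lit 36) (nat_lit 133) (nat_lit 3) (nat_lit 11) (.e true (nat_lit 36) (nat_lit 134) (nat_lit 3) (nat_lit 11) (.e true (nat_lit 36) (nat_lit 135) (nat_lit 3) (nat_lit 11) (.e false (nat_lit 36) (nat_lit 136) (nat_lit 3) (nat_lit 11) (.e true (nat_lit 36) (nat_lit 139) (nat_lit 3) (nat_lit 11) (.e true (nat_lit 36) (nat_lit 140) (nat_lit 3) (nat_lit 11) (.e false (nat_lit 36) (nat_lit 141) (nat_lit 3) (nat_lit 11) (.e true (nat_lit 36) (nat_lit 142) (nat_lit 3) (nat_lit 11) (.e false (nat_lit 72) (nat_lit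 144) (nat_lit 3) (nat_lit 11) (.e false (nat_lit 36) (nat_lit 145) (nat_lit 3) (nat_lit 11) (.e true (nat_lit 36) (nat_lit 146) (nat_lit 3) (nat_lit 11) (.e true (nat_lit 36) (nat_lit 150) (nat_lit 3) (nat_lit 11) (.e false (nat_lit 36) (nat_lit 178) (nat_lit 0) (nat_lit 14) (.e false (nat_lit 36) (nat_lit 61) (nat_lit 9) (nat_lit 5) (.e false (nat_lit 36) (nat_lit 166) (nat_lit 2) (nat_lit 12) (.e true (nat_lit 36) (nat_lit 167) (nat_lit 1) (nat_lit 13) (.e true (nat_lit 36) (nat_lit 168) (nat_lit 1) (nat_lit 13) (.e false (nat_lit 36) (nat_lit 169) (nat_lit 1) (nat_lit 13) (.e false (nat_lit 36) (nat_lit 170) (nat_lit 1) (nat_lit 13) (.e true (nat_lit 36) (nat_lit 173) (nat_lit 1) (nat_lit 13) (.e false (nat_lit 36) (nat_lit 176) (nat_lit 1) (nat_lit 13) (.e false (nat_lit 36) (nat_lit 177) (nat_lit 1) (nat_lit 13) .nil)))))))))))))))))))))))))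

noncomputable def dW4x_i88 : IL := (.e false (nat_lit 36) (nat_lit 172) (nat_lit 1) (nat_lit 13) (.e true (nat_lit 36) (nat_lit 174) (nat_lit 1) (nat_lit 13) (.e false (nat_lit 36) (nat_lit 59) (nat_lit 9) (nat_lit 5) (.e true (nat_lit 36) (nat_lit 60) (nat_lit 9) (nat_lit 5) (.e false (nat_lit 36) (nat_lit 61) (nat_lit 9) (nat_lit 5) (.e true (nat_lit 36) (nat_lit 63) (nat_lit 9) (nat_lit 5) (.e false (nat_lit 72) (nat_lit 178) (nat_lit 0) (nat_lit 14) (.e false (nat_lit 72) (nat_lit 179) (nat_lit 0) (nat_lit 14) (.e true (nat_lit 36) (nat_lit 182) (nat_lit 0) (nat_lit 14) (.e false (nat_lit 72) (nat_lit 183) (nat_lit 0) (nat_lit 14) (.e true (nat_lit 36) (nat_lit 186) (nat_lit 0) (nat_lit 14) (.e true (nat_lit 36) (nat_lit 187) (nat_lit 0) (nat_lit 14) (.e true (nat_lit 36) (nat_lit 68) (nat_lit 8) (nat_lit 6) (.e false (nat_lit 36) (nat_lit 140) (nat_lit 3) (nat_lit 11) (.e true (nat_lit 36) (nat_lit 160)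 (nat_lit 2) (nat_lit 12) (.e true (nat_lit 36) (nat_lit 145) (nat_lit 3) (nat_lit 11) (.e true (nat_lit 36) (nat_lit 128) (nat_lit 3) (nat_lit 11) (.e true (nat_lit 36) (nat_lit 136) (nat_lit 3) (nat_lit 11) (.e false (nat_lit 36) (nat_lit 139) (nat_lit 3) (nat_lit 11) (.e true (nat_lit 36) (nat_lit 141) (nat_lit 3) (nat_lit 11) (.e false (nat_lit 36) (nat_lit 142) (nat_lit 3) (nat_lit 11) (.e true (nat_lit 36) (nat_lit 144) (nat_lit 3) (nat_lit 11) (.e false (nat_lit 36) (nat_lit 146) (nat_lit 3) (nat_lit 11) (.e false (nat_lit 36) (nat_lit 147) (nat_lit 3) (nat_lit 11) (.e false (nat_lit 36) (nat_lit 150) (nat_lit 3) (nat_lit 11) .nil)))))))))))))))))))))))))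

noncomputable def dW4x_i89 : IL := (.e false (nat_lit 36) (nat_lit 60) (nat_lit 9) (nat_lit 5) (.e false (nat_lit 72) (nat_lit 131) (nat_lit 3) (nat_lit 11) (.e false (nat_lit 36) (nat_lit 157) (nat_lit 2) (nat_lit 12) (.e false (nat_lit 36) (nat_lit 159) (nat_lit 2) (nat_lit 12) (.e false (nat_lit 36) (nat_lit 160) (nat_lit 2) (nat_lit 12) (.e true (nat_lit 36) (nat_lit 161) (nat_lit 2) (nat_lit 12) (.e true (nat_lit 36) (nat_lit 162) (nat_lit 2) (nat_lit 12) (.e true (nat_lit 36) (nat_lit 163) (nat_lit 2) (nat_lit 12) (.e true (nat_lit 36) (nat_lit 164) (nat_lit 2) (nat_lit 12) (.e true (nat_lit 36) (nat_lit 165) (nat_lit 2) (nat_lit 12) (.e false (nat_lit 72) (nat_lit 138) (nat_lit 3) (nat_lit 11) (.e true (nat_lit 36) (nat_lit 126) (nat_lit 3) (nat_lit 11) (.e false (nat_lit 36) (nat_lit 128) (nat_lit 3) (nat_lit 11) (.e false (nat_lit 36) (nat_lit 129) (nat_lit 3) (nat_lit 11) (.e false (nat_lit 36) (nat_lit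 130) (nat_lit 3) (nat_lit 11) (.e true (nat_lit 36) (nat_lit 132) (nat_lit 3) (nat_lit 11) (.e true (nat_lit 36) (nat_lit 133) (nat_lit 3) (nat_lit 11) (.e true (nat_lit 72) (nat_lit 134) (nat_lit 3) (nat_lit 11) (.e true (nat_lit 72) (nat_lit 135) (nat_lit 3) (nat_lit 11) (.e false (nat_lit 36) (nat_lit 136) (nat_lit 3) (nat_lit 11) (.e true (nat_lit 36) (nat_lit 140) (nat_lit 3) (nat_lit 11) (.e false (nat_lit 36) (nat_lit 143) (nat_lit 3) (nat_lit 11) (.e false (nat_lit 36) (nat_lit 144) (nat_lit 3) (nat_lit 11) (.e false (nat_lit 36) (nat_lit 148) (nat_lit 3) (nat_lit 11) (.e true (nat_lit 36) (nat_lit 150) (nat_lit 3) (nat_lit 11) .nil)))))))))))))))))))))))))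

noncomputable def dW4x_i90 : IL := (.e false (nat_lit 60) (nat_lit 127) (nat_lit 3) (nat_lit 11) (.e true (nat_lit 24) (nat_lit 128) (nat_lit 3) (nat_lit 11) (.e true (nat_lit 12) (nat_lit 129) (nat_lit 3) (nat_lit 11) (.e true (nat_lit 48) (nat_lit 130) (nat_lit 3) (nat_lit 11) (.e false (nat_lit 60) (nat_lit 131) (nat_lit 3) (nat_lit 11) (.e true (nat_lit 12) (nat_lit 133) (nat_lit 3) (nat_lit 11) (.e true (nat_lit 12) (nat_lit 135) (nat_lit 3) (nat_lit 11) (.e false (nat_lit 36) (nat_lit 136) (nat_lit 3) (nat_lit 11) (.e true (nat_lit 12) (nat_lit 137) (nat_lit 3) (nat_lit 11) (.e false (nat_lit 12) (nat_lit 138) (nat_lit 3) (nat_lit 11) (.e true (nat_lit 36) (nat_lit 139) (nat_lit 3) (nat_lit 11) (.e false (nat_lit 36) (nat_lit 141) (nat_lit 3) (nat_lit 11) (.e true (nat_lit 24) (nat_lit 142) (nat_lit 3) (nat_lit 11) (.e true (nat_lit 24) (nat_lit 144) (nat_lit 3) (nat_lit 11) (.e false (nat_lit 24) (nat_lit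 145) (nat_lit 3) (nat_lit 11) (.e false (nat_lit 24) (nat_lit 146) (nat_lit 3) (nat_lit 11) (.e false (nat_lit 24) (nat_lit 147) (nat_lit 3) (nat_lit 11) (.e true (nat_lit 24) (nat_lit 149) (nat_lit 3) (nat_lit 11) (.e true (nat_lit 24) (nat_lit 150) (nat_lit 3) (nat_lit 11) (.e true (nat_lit 36) (nat_lit 157) (nat_lit 2) (nat_lit 12) (.e false (nat_lit 36) (nat_lit 158) (nat_lit 2) (nat_lit 12) (.e true (nat_lit 36) (nat_lit 159) (nat_lit 2) (nat_lit 12) (.e false (nat_lit 36) (nat_lit 161) (nat_lit 2) (nat_lit 12) (.e false (nat_lit 36) (nat_lit 58) (nat_lit 9) (nat_lit 5) (.e false (nat_lit 36) (nat_lit 156) (nat_lit 2) (nat_lit 12) .nil)))))))))))))))))))))))))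

noncomputable def dW4x_i91 : IL := (.e false (nat_lit 12) (nat_lit 146) (nat_lit 3) (nat_lit 11) (.e false (nat_lit 60) (nat_lit 150) (nat_lit 3) (nat_lit 11) (.e false (nat_lit 36) (nat_lit 65) (nat_lit 8) (nat_lit 6) (.e false (nat_lit 12) (nat_lit 147) (nat_lit 3) (nat_lit 11) (.e true (nat_lit 12) (nat_lit 149) (nat_lit 3) (nat_lit 11) (.e false (nat_lit 12) (nat_lit 126) (nat_lit 3) (nat_lit 11) (.e false (nat_lit 12) (nat_lit 127) (nat_lit 3) (nat_lit 11) (.e true (nat_lit 12) (nat_lit 128) (nat_lit 3) (nat_lit 11) (.e true (nat_lit 24) (nat_lit 129) (nat_lit 3) (nat_lit 11) (.e false (nat_lit 12) (nat_lit 130) (nat_lit 3) (nat_lit 11) (.e true (nat_lit 24) (nat_lit 131) (nat_lit 3) (nat_lit 11) (.e false (nat_lit 36) (nat_lit 134) (nat_lit 3) (nat_lit 11) (.e false (nat_lit 12) (nat_lit 135) (nat_lit 3) (nat_lit 11) (.e true (nat_lit 36) (nat_lit 136) (nat_lit 3) (nat_lit 11) (.e true (nat_lit 48) (nat_lit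 138) (nat_lit 3) (nat_lit 11) (.e false (nat_lit 36) (nat_lit 140) (nat_lit 3) (nat_lit 11) (.e true (nat_lit 12) (nat_lit 144) (nat_lit 3) (nat_lit 11) (.e true (nat_lit 36) (nat_lit 60) (nat_lit 9) (nat_lit 5) (.e false (nat_lit 36) (nat_lit 157) (nat_lit 2) (nat_lit 12) (.e true (nat_lit 36) (nat_lit 160) (nat_lit 2) (nat_lit 12) (.e false (nat_lit 72) (nat_lit 161) (nat_lit 2) (nat_lit 12) (.e false (nat_lit 36) (nat_lit 64) (nat_lit 8) (nat_lit 6) (.e false (nat_lit 36) (nat_lit 132) (nat_lit 3) (nat_lit 11) (.e true (nat_lit 36) (nat_lit 176) (nat_lit 1) (nat_lit 13) (.e false (nat_lit 36) (nat_lit 156) (nat_lit 2) (nat_lit 12) .nil)))))))))))))))))))))))))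

noncomputable def dW4x_i92 : IL := (.s true (nat_lit 1) (nat_lit 32) (nat_lit 1) (nat_lit 2) (nat_lit 0) true (nat_lit 10) true (nat_lit 14) false (nat_lit 3) true (nat_lit 13) true (nat_lit 12) (.s true (nat_lit 1) (nat_lit 32) (nat_lit 2) (nat_lit 1) (nat_lit 0) true (nat_lit 9) true (nat_lit 14) false (nat_lit 3) true (nat_lit 12) true (nat_lit 13) (.e false (nat_lit 72) (nat_lit 168) (nat_lit 1) (nat_lit 13) (.e true (nat_lit 72) (nat_lit 169) (nat_lit 1) (nat_lit 13) (.e false (nat_lit 72) (nat_lit 170) (nat_lit 1) (nat_lit 13) (.e true (nat_lit 72) (nat_lit 172) (nat_lit 1) (nat_lit 13) (.e false (nat_lit 36) (nat_lit 126) (nat_lit 3) (nat_lit 11) (.e false (nat_lit 36) (nat_lit 127) (nat_lit 3) (nat_lit 11) (.e true (nat_lit 36) (nat_lit 130) (nat_lit 3) (nat_lit 11) (.e false (nat_lit 36) (nat_lit 135) (nat_lit 3) (nat_lit 11) (.e true (nat_lit 108) (nat_lit 142) (nat_lit 3) (nat_lit 11) (.e true (nat_lit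 36) (nat_lit 64) (nat_lit 8) (nat_lit 6) (.e true (nat_lit 36) (nat_lit 132) (nat_lit 3) (nat_lit 11) (.e false (nat_lit 36) (nat_lit 134) (nat_lit 3) (nat_lit 11) (.e true (nat_lit 36) (nat_lit 167) (nat_lit 1) (nat_lit 13) (.e true (nat_lit 72) (nat_lit 180) (nat_lit 0) (nat_lit 14) (.e true (nat_lit 72) (nat_lit 183) (nat_lit 0) (nat_lit 14) (.e true (nat_lit 36) (nat_lit 187) (nat_lit 0) (nat_lit 14) (.e false (nat_lit 72) (nat_lit 157) (nat_lit 2) (nat_lit 12) (.e false (nat_lit 72) (nat_lit 159) (nat_lit 2) (nat_lit 12) (.e true (nat_lit 36) (nat_lit 162) (nat_lit 2) (nat_lit 12) (.e true (nat_lit 36) (nat_lit 164) (nat_lit 2) (nat_lit 12) (.e false (nat_lit 36) (nat_lit 184) (nat_lit 0) (nat_lit 14) (.e false (nat_lit 36) (nat_lit 186) (nat_lit 0) (nat_lit 14) (.e true (nat_lit 36) (nat_lit 165) (nat_lit 2) (nat_lit 12) .nil)))))))))))))))))))))))))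

noncomputable def dW4x_i93 : IL := (.s false (nat_lit 1) (nat_lit 20) (nat_lit 3) (nat_lit 1) (nat_lit 3) true (nat_lit 4) true (nat_lit 11) true (nat_lit 1) true (nat_lit 11) true (nat_lit 13) (.e false (nat_lit 36) (nat_lit 64) (nat_lit 8) (nat_lit 6) (.e false (nat_lit 36) (nat_lit 132) (nat_lit 3) (nat_lit 11) (.e true (nat_lit 36) (nat_lit 176) (nat_lit 1) (nat_lit 13) (.e false (nat_lit 48) (nat_lit 142) (nat_lit 3) (nat_lit 11) (.e true (nat_lit 12) (nat_lit 126) (nat_lit 3) (nat_lit 11) (.e true (nat_lit 12) (nat_lit 127) (nat_lit 3) (nat_lit 11) (.e false (nat_lit 12) (nat_lit 128) (nat_lit 3) (nat_lit 11) (.e false (nat_lit 24) (nat_lit 129) (nat_lit 3) (nat_lit 11) (.e true (nat_lit 12) (nat_lit 130) (nat_lit 3) (nat_lit 11) (.e false (nat_lit 24) (nat_lit 131) (nat_lit 3) (nat_lit 11) (.e false (nat_lit 24) (nat_lit 133) (nat_lit 3) (nat_lit 11) (.e true (nat_lit 36) (nat_lit 134) (nat_lit 3) (nat_lit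 11) (.e true (nat_lit 12) (nat_lit 135) (nat_lit 3) (nat_lit 11) (.e false (nat_lit 36) (nat_lit 136) (nat_lit 3) (nat_lit 11) (.e true (nat_lit 12) (nat_lit 137) (nat_lit 3) (nat_lit 11) (.e false (nat_lit 12) (nat_lit 138) (nat_lit 3) (nat_lit 11) (.e true (nat_lit 36) (nat_lit 140) (nat_lit 3) (nat_lit 11) (.e false (nat_lit 12) (nat_lit 144) (nat_lit 3) (nat_lit 11) (.e false (nat_lit 24) (nat_lit 145) (nat_lit 3) (nat_lit 11) (.e true (nat_lit 12) (nat_lit 146) (nat_lit 3) (nat_lit 11) (.e true (nat_lit 12) (nat_lit 147) (nat_lit 3) (nat_lit 11) (.e false (nat_lit 12) (nat_lit 149) (nat_lit 3) (nat_lit 11) (.e true (nat_lit 60) (nat_lit 150) (nat_lit 3) (nat_lit 11) (.e false (nat_lit 36) (nat_lit 167) (nat_lit 1) (nat_lit 13) .nil)))))))))))))))))))))))))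

noncomputable def dW4x_i94 : IL := (.s true (nat_lit 1) (nat_lit 9) (nat_lit 3) (nat_lit 0) (nat_lit 8) false (nat_lit 1) true (nat_lit 6) true (nat_lit 5) true (nat_lit 11) true (nat_lit 14) (.e true (nat_lit 36) (nat_lit 69) (nat_lit 8) (nat_lit 6) (.e false (nat_lit 36) (nat_lit 58) (nat_lit 9) (nat_lit 5) (.e false (nat_lit 36) (nat_lit 59) (nat_lit 9) (nat_lit 5) (.e true (nat_lit 36) (nat_lit 62) (nat_lit 9) (nat_lit 5) (.e false (nat_lit 36) (nat_lit 63) (nat_lit 9) (nat_lit 5) (.e false (nat_lit 36) (nat_lit 126) (nat_lit 3) (nat_lit 11) (.e true (nat_lit 36) (nat_lit 128) (nat_lit 3) (nat_lit 11) (.e true (nat_lit 36) (nat_lit 129) (nat_lit 3) (nat_lit 11) (.e true (nat_lit 36) (nat_lit 130) (nat_lit 3) (nat_lit 11) (.e true (nat_lit 36) (nat_lit 131) (nat_lit 3) (nat_lit 11) (.e false (nat_lit 36) (nat_lit 132) (nat_lit 3) (nat_lit 11) (.e false (nat_lit 36) (nat_lit 133) (nat_lit 3) (nat_lit 11)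 (.e false (nat_lit 72) (nat_lit 134) (nat_lit 3) (nat_lit 11) (.e false (nat_lit 72) (nat_lit 135) (nat_lit 3) (nat_lit 11) (.e true (nat_lit 36) (nat_lit 136) (nat_lit 3) (nat_lit 11) (.e false (nat_lit 36) (nat_lit 140) (nat_lit 3) (nat_lit 11) (.e true (nat_lit 36) (nat_lit 143) (nat_lit 3) (nat_lit 11) (.e true (nat_lit 36) (nat_lit 144) (nat_lit 3) (nat_lit 11) (.e true (nat_lit 36) (nat_lit 148) (nat_lit 3) (nat_lit 11) (.e false (nat_lit 36) (nat_lit 150) (nat_lit 3) (nat_lit 11) (.e false (nat_lit 36) (nat_lit 178) (nat_lit 0) (nat_lit 14) (.e false (nat_lit 36) (nat_lit 179) (nat_lit 0) (nat_lit 14) (.e true (nat_lit 36) (nat_lit 182) (nat_lit 0) (nat_lit 14) (.e false (nat_lit 36) (nat_lit 183) (nat_lit 0) (nat_lit 14) .nil)))))))))))))))))))))))))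

noncomputable def dW4x_t0 : Tr := (.nd (.nd (.nd (.nd (.nd (.nd (.nd .leaf (nat_lit 1024) (nat_lit 0) (.p (nat_lit 4) (nat_lit 36) .z) .df .leaf) (nat_lit 2048) (nat_lit 1) (.p (nat_lit 5) (nat_lit 36) .z) .df .leaf) (nat_lit 2049) (nat_lit 2) (.p (nat_lit 6) (nat_lit 36) .z) .df (.nd .leaf (nat_lit 3072) (nat_lit 3) (.p (nat_lit 7) (nat_lit 36) .z) .df .leaf)) (nat_lit 3073) (nat_lit 4) (.p (nat_lit 8) (nat_lit 36) .z) .df (.nd (.nd (.nd .leaf (nat_lit 3074) (nat_lit 5) (.p (nat_lit 9) (nat_lit 36) .z) .df .leaf) (nat_lit 3075) (nat_lit 6) (.p (nat_lit 10) (nat_lit 36) .z) .df .leaf) (nat_lit 4096) (nat_lit 7) (.p (nat_lit 11) (nat_lit 36) .z) .df (.nd .leaf (nat_lit 4098) (nat_lit 9) (.p (nat_lit 13) (nat_lit 36) .z) .df .leaf))) (nat_lit 4099) (nat_lit 13) (.p (nat_lit 17) (nat_lit 36) .z) .df (.nd (.nd (.nd (.nd .leaf (nat_lit 5120) (nat_lit 8) (.p (nat_lit 12) (nat_lit 36) .z) .df .leaf) (nat_lit 5121)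 (nat_lit 10) (.p (nat_lit 14) (nat_lit 36) .z) .df .leaf) (nat_lit 5123) (nat_lit 16) (.p (nat_lit 20) (nat_lit 36) .z) .df (.nd .leaf (nat_lit 5124) (nat_lit 34) (.n (nat_lit 34) (nat_lit 36) (.p (nat_lit 35) (nat_lit 36) (.p (nat_lit 36) (nat_lit 36) .z))) (.ct dW4x_c8464 (nat_lit 36) (nat_lit 0) (.s true (nat_lit 1) (nat_lit 2) (nat_lit 0) (nat_lit 0) (nat_lit 1) true (nat_lit 0) true (nat_lit 2) true (nat_lit 1) true (nat_lit 3) true (nat_lit 3) (.e true (nat_lit 36) (nat_lit 12) (nat_lit 1) (nat_lit 2) (.e false (nat_lit 36) (nat_lit 13) (nat_lit 0) (nat_lit 3) (.e false (nat_lit 36) (nat_lit 15) (nat_lit 0) (nat_lit 3) .nil))))) .leaf)) (nat_lit 6144) (nat_lit 11) (.p (nat_lit 15) (nat_lit 36) .z) .df (.nd (.nd (.nd .leaf (nat_lit 6147) (nat_lit 19) (.p (nat_lit 23) (nat_lit 36) .z) .df .leaf) (nat_lit 7168) (nat_lit 12) (.p (nat_lit 16) (nat_lit 36) .z) .df .leaf) (nat_lit 7169) (nat_lit 14) (.p (nat_lit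 18) (nat_lit 36) .z) .df (.nd .leaf (nat_lit 7170) (nat_lit 17) (.p (nat_lit 21) (nat_lit 36) .z) .df .leaf)))) (nat_lit 7171) (nat_lit 22) (.p (nat_lit 26) (nat_lit 36) .z) .df (.nd (.nd (.nd (.nd (.nd .leaf (nat_lit 7172) (nat_lit 40) (.n (nat_lit 38) (nat_lit 36) (.p (nat_lit 39) (nat_lit 36) (.p (nat_lit 40) (nat_lit 36) .z))) (.ct dW4x_c8449 (nat_lit 36) (nat_lit 0) (.s true (nat_lit 1) (nat_lit 3) (nat_lit 0) (nat_lit 0) (nat_lit 1) true (nat_lit 0) true (nat_lit 2) true (nat_lit 1) true (nat_lit 3) true (nat_lit 3) (.e true (nat_lit 36) (nat_lit 16) (nat_lit 1) (nat_lit 2) (.e false (nat_lit 36) (nat_lit 17) (nat_lit 0) (nat_lit 3) (.e false (nat_lit 36) (nat_lit 19) (nat_lit 0) (nat_lit 3) .nil))))) .leaf) (nat_lit 7173) (nat_lit 46) (.n (nat_lit 42) (nat_lit 36) (.p (nat_lit 43) (nat_lit 36) (.p (nat_lit 44) (nat_lit 36) .z))) (.ct dW4x_c8209 (nat_lit 36) (nat_lit 0) (.s true (nat_lit 1) (nat_lit 3)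 (nat_lit 0) (nat_lit 0) (nat_lit 2) true (nat_lit 0) true (nat_lit 2) true (nat_lit 1) true (nat_lit 3) true (nat_lit 3) (.e true (nat_lit 36) (nat_lit 16) (nat_lit 2) (nat_lit 2) (.e false (nat_lit 36) (nat_lit 20) (nat_lit 0) (nat_lit 3) (.e false (nat_lit 36) (nat_lit 22) (nat_lit 0) (nat_lit 3) .nil))))) .leaf) (nat_lit 7174) (nat_lit 59) (.n (nat_lit 47) (nat_lit 36) (.n (nat_lit 48) (nat_lit 36) (.n (nat_lit 49) (nat_lit 36) (.n (nat_lit 50) (nat_lit 36) (.p (nat_lit 51) (nat_lit 36) (.p (nat_lit 52) (nat_lit 36) (.p (nat_lit 53) (nat_lit 36) (.p (nat_lit 54) (nat_lit 36) .z)))))))) (.ct dW4x_c4369 (nat_lit 36) (nat_lit 0) (.s true (nat_lit 1) (nat_lit 3) (nat_lit 1) (nat_lit 0) (nat_lit 2) true (nat_lit 0) true (nat_lit 4) true (nat_lit 3) true (nat_lit 5) true (nat_lit 6) (.e true (nat_lit 36) (nat_lit 19) (nat_lit 2) (nat_lit 4) (.e true (nat_lit 36) (nat_lit 13) (nat_lit 3) (nat_lit 3) (.e false (nat_lit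 36) (nat_lit 20) (nat_lit 1) (nat_lit 5) (.e false (nat_lit 36) (nat_lit 25) (nat_lit 0) (nat_lit 6) .nil)))))) (.nd .leaf (nat_lit 7175) (nat_lit 65) (.n (nat_lit 55) (nat_lit 36) (.n (nat_lit 56) (nat_lit 36) (.p (nat_lit 57) (nat_lit 36) .z))) (.ct dW4x_c8194 (nat_lit 36) (nat_lit 0) (.s true (nat_lit 1) (nat_lit 3) (nat_lit 0) (nat_lit 0) (nat_lit 3) true (nat_lit 0) true (nat_lit 1) true (nat_lit 1) true (nat_lit 2) true (nat_lit 2) (.e true (nat_lit 36) (nat_lit 16) (nat_lit 3) (nat_lit 1) (.e true (nat_lit 36) (nat_lit 26) (nat_lit 0) (nat_lit 2) (.e false (nat_lit 36) (nat_lit 27) (nat_lit 0) (nat_lit 2) .nil))))) .leaf)) (nat_lit 8192) (nat_lit 15) (.p (nat_lit 19) (nat_lit 36) .z) .df (.nd (.nd (.nd .leaf (nat_lit 8194) (nat_lit 20) (.p (nat_lit 24) (nat_lit 36) .z) .df .leaf) (nat_lit 8195) (nat_lit 24) (.p (nat_lit 28) (nat_lit 36) .z) .df .leaf) (nat_lit 8197) (nat_lit 60) (.p (nat_lit 45) (nat_lit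 36) (.n (nat_lit 49) (nat_lit 36) (.p (nat_lit 53) (nat_lit 36) (.p (nat_lit 54) (nat_lit 36) .z)))) (.ct dW4x_c4369 (nat_lit 36) (nat_lit 1) (.s true (nat_lit 1) (nat_lit 3) (nat_lit 0) (nat_lit 1) (nat_lit 2) true (nat_lit 1) true (nat_lit 4) true (nat_lit 3) true (nat_lit 6) true (nat_lit 5) (.e true (nat_lit 36) (nat_lit 18) (nat_lit 2) (nat_lit 4) (.e false (nat_lit 36) (nat_lit 13) (nat_lit 3) (nat_lit 3) (.e false (nat_lit 36) (nat_lit 23) (nat_lit 0) (nat_lit 6) (.e false (nat_lit 36) (nat_lit 22) (nat_lit 1) (nat_lit 5) .nil)))))) (.nd .leaf (nat_lit 8199) (nat_lit 72) (.n (nat_lit 58) (nat_lit 36) (.n (nat_lit 59) (nat_lit 36) (.p (nat_lit 62) (nat_lit 36) (.n (nat_lit 63) (nat_lit 36) .z)))) (.ct dW4x_c4354 (nat_lit 36) (nat_lit 0) (.s true (nat_lit 1) (nat_lit 3) (nat_lit 0) (nat_lit 1) (nat_lit 3) true (nat_lit 0) true (nat_lit 2) true (nat_lit 2) true (nat_lit 4) true (nat_lit 3) (.e true (nat_lit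 36) (nat_lit 18) (nat_lit 3) (nat_lit 2) (.e true (nat_lit 36) (nat_lit 17) (nat_lit 3) (nat_lit 2) (.e true (nat_lit 36) (nat_lit 28) (nat_lit 0) (nat_lit 4) (.e false (nat_lit 36) (nat_lit 27) (nat_lit 1) (nat_lit 3) .nil)))))) .leaf))) (nat_lit 9216) (nat_lit 18) (.p (nat_lit 22) (nat_lit 36) .z) .df (.nd (.nd (.nd (.nd .leaf (nat_lit 9217) (nat_lit 21) (.p (nat_lit 25) (nat_lit 36) .z) .df .leaf) (nat_lit 9219) (nat_lit 26) (.p (nat_lit 30) (nat_lit 36) .z) .df .leaf) (nat_lit 9220) (nat_lit 61) (.p (nat_lit 46) (nat_lit 36) (.p (nat_lit 50) (nat_lit 36) (.n (nat_lit 52) (nat_lit 36) (.n (nat_lit 54) (nat_lit 36) .z)))) (.ct dW4x_c4369 (nat_lit 36) (nat_lit 2) (.s true (nat_lit 1) (nat_lit 3) (nat_lit 0) (nat_lit 2) (nat_lit 1) true (nat_lit 2) true (nat_lit 5) true (nat_lit 3) true (nat_lit 6) true (nat_lit 4) (.e true (nat_lit 36) (nat_lit 21) (nat_lit 1) (nat_lit 5) (.e false (nat_lit 36) (nat_lit 14)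 (nat_lit 3) (nat_lit 3) (.e true (nat_lit 36) (nat_lit 23) (nat_lit 0) (nat_lit 6) (.e false (nat_lit 36) (nat_lit 19) (nat_lit 2) (nat_lit 4) .nil)))))) (.nd .leaf (nat_lit 9223) (nat_lit 81) (.n (nat_lit 64) (nat_lit 36) (.n (nat_lit 65) (nat_lit 36) (.p (nat_lit 68) (nat_lit 36) (.n (nat_lit 69) (nat_lit 36) .z)))) (.ct dW4x_c4114 (nat_lit 36) (nat_lit 0) (.s true (nat_lit 1) (nat_lit 3) (nat_lit 0) (nat_lit 2) (nat_lit 3) true (nat_lit 0) true (nat_lit 2) true (nat_lit 2) true (nat_lit 4) true (nat_lit 3) (.e true (nat_lit 36) (nat_lit 21) (nat_lit 3) (nat_lit 2) (.e true (nat_lit 36) (nat_lit 20) (nat_lit 3) (nat_lit 2) (.e true (nat_lit 36) (nat_lit 30) (nat_lit 0) (nat_lit 4) (.e false (nat_lit 36) (nat_lit 27) (nat_lit 2) (nat_lit 3) .nil)))))) .leaf)) (nat_lit 9224) (nat_lit 90) (.n (nat_lit 70) (nat_lit 36) (.n (nat_lit 71) (nat_lit 36) (.p (nat_lit 74) (nat_lit 36) (.n (nat_lit 75) (nat_lit 36) .z))))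 (.ct dW4x_c274 (nat_lit 36) (nat_lit 0) (.s true (nat_lit 1) (nat_lit 3) (nat_lit 1) (nat_lit 2) (nat_lit 3) true (nat_lit 0) true (nat_lit 2) true (nat_lit 2) true (nat_lit 4) true (nat_lit 3) (.e true (nat_lit 36) (nat_lit 24) (nat_lit 3) (nat_lit 2) (.e true (nat_lit 36) (nat_lit 23) (nat_lit 3) (nat_lit 2) (.e true (nat_lit 36) (nat_lit 30) (nat_lit 1) (nat_lit 4) (.e false (nat_lit 36) (nat_lit 29) (nat_lit 2) (nat_lit 3) .nil)))))) (.nd (.nd (.nd .leaf (nat_lit 10240) (nat_lit 23) (.p (nat_lit 27) (nat_lit 36) .z) .df .leaf) (nat_lit 10241) (nat_lit 25) (.p (nat_lit 29) (nat_lit 36) .z) .df .leaf) (nat_lit 10242) (nat_lit 27) (.p (nat_lit 31) (nat_lit 36) .z) .df (.nd .leaf (nat_lit 10243) (nat_lit 28) (.p (nat_lit 32) (nat_lit 36) .z) .df .leaf))))) (nat_lit 10244) (nat_lit 74) (.n (nat_lit 59) (nat_lit 36) (.p (nat_lit 60) (nat_lit 36) (.n (nat_lit 61) (nat_lit 36) (.p (nat_lit 63) (nat_lit 36) .z))))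 (.ct dW4x_c4354 (nat_lit 36) (nat_lit 1) (.s true (nat_lit 1) (nat_lit 3) (nat_lit 0) (nat_lit 3) (nat_lit 1) true (nat_lit 1) true (nat_lit 3) true (nat_lit 2) true (nat_lit 4) true (nat_lit 2) (.e true (nat_lit 36) (nat_lit 26) (nat_lit 1) (nat_lit 3) (.e true (nat_lit 36) (nat_lit 18) (nat_lit 3) (nat_lit 2) (.e false (nat_lit 36) (nat_lit 28) (nat_lit 0) (nat_lit 4) (.e false (nat_lit 36) (nat_lit 19) (nat_lit 3) (nat_lit 2) .nil)))))) (.nd (.nd (.nd (.nd (.nd (.nd .leaf (nat_lit 10245) (nat_lit 83) (.n (nat_lit 65) (nat_lit 36) (.p (nat_lit 66) (nat_lit 36) (.n (nat_lit 67) (nat_lit 36) (.p (nat_lit 69) (nat_lit 36) .z)))) (.ct dW4x_c4114 (nat_lit 36) (nat_lit 1) (.s true (nat_lit 1) (nat_lit 3) (nat_lit 0) (nat_lit 3) (nat_lit 2) true (nat_lit 1) true (nat_lit 3) true (nat_lit 2) true (nat_lit 4) true (nat_lit 2) (.e true (nat_lit 36) (nat_lit 26) (nat_lit 2) (nat_lit 3) (.e true (nat_lit 36) (nat_lit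 21) (nat_lit 3) (nat_lit 2) (.e false (nat_lit 36) (nat_lit 30) (nat_lit 0) (nat_lit 4) (.e false (nat_lit 36) (nat_lit 22) (nat_lit 3) (nat_lit 2) .nil)))))) .leaf) (nat_lit 10246) (nat_lit 92) (.n (nat_lit 71) (nat_lit 36) (.p (nat_lit 72) (nat_lit 36) (.n (nat_lit 73) (nat_lit 36) (.p (nat_lit 75) (nat_lit 36) .z)))) (.ct dW4x_c274 (nat_lit 36) (nat_lit 1) (.s true (nat_lit 1) (nat_lit 3) (nat_lit 1) (nat_lit 3) (nat_lit 2) true (nat_lit 1) true (nat_lit 3) true (nat_lit 2) true (nat_lit 4) true (nat_lit 2) (.e true (nat_lit 36) (nat_lit 28) (nat_lit 2) (nat_lit 3) (.e true (nat_lit 36) (nat_lit 24) (nat_lit 3) (nat_lit 2) (.e false (nat_lit 36) (nat_lit 30) (nat_lit 1) (nat_lit 4) (.e false (nat_lit 36) (nat_lit 25) (nat_lit 3) (nat_lit 2) .nil)))))) .leaf) (nat_lit 10247) (nat_lit 96) (.n (nat_lit 77) (nat_lit 36) (.n (nat_lit 78) (nat_lit 36) .z)) (.ct dW4x_c4099 (nat_lit 36) (nat_lit 0) (.s true (nat_lit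 1) (nat_lit 3) (nat_lit 0) (nat_lit 3) (nat_lit 3) true (nat_lit 0) true (nat_lit 1) true (nat_lit 1) true (nat_lit 2) true (nat_lit 1) (.e true (nat_lit 36) (nat_lit 32) (nat_lit 0) (nat_lit 2) (.e true (nat_lit 36) (nat_lit 27) (nat_lit 3) (nat_lit 1) .nil)))) (.nd .leaf (nat_lit 10248) (nat_lit 100) (.n (nat_lit 80) (nat_lit 36) (.n (nat_lit 81) (nat_lit 36) .z)) (.ct dW4x_c259 (nat_lit 36) (nat_lit 0) (.s true (nat_lit 1) (nat_lit 3) (nat_lit 1) (nat_lit 3) (nat_lit 3) true (nat_lit 0) true (nat_lit 1) true (nat_lit 1) true (nat_lit 2) true (nat_lit 1) (.e true (nat_lit 36) (nat_lit 32) (nat_lit 1) (nat_lit 2) (.e true (nat_lit 36) (nat_lit 29) (nat_lit 3) (nat_lit 1) .nil)))) .leaf)) (nat_lit 10249) (nat_lit 104) (.n (nat_lit 83) (nat_lit 36) (.n (nat_lit 84) (nat_lit 36) .z)) (.ct dW4x_c19 (nat_lit 36) (nat_lit 0) (.s true (nat_lit 1) (nat_lit 3) (nat_lit 2) (nat_lit 3) (nat_lit 3) true (nat_lit 0) true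 (nat_lit 1) true (nat_lit 1) true (nat_lit 2) true (nat_lit 1) (.e true (nat_lit 36) (nat_lit 32) (nat_lit 2) (nat_lit 2) (.e true (nat_lit 36) (nat_lit 31) (nat_lit 3) (nat_lit 1) .nil)))) (.nd (.nd (.nd .leaf (nat_lit 11266) (nat_lit 29) (.p (nat_lit 33) (nat_lit 36) .z) .df .leaf) (nat_lit 11267) (nat_lit 35) (.p (nat_lit 37) (nat_lit 36) .z) .df .leaf) (nat_lit 11273) (nat_lit 126) (.n (nat_lit 85) (nat_lit 36) (.n (nat_lit 86) (nat_lit 48) (.p (nat_lit 87) (nat_lit 12) (.p (nat_lit 88) (nat_lit 36) (.n (nat_lit 89) (nat_lit 60) (.p (nat_lit 90) (nat_lit 60) (.p (nat_lit 91) (nat_lit 72) (.p (nat_lit 92) (nat_lit 36) (.p (nat_lit 93) (nat_lit 24) (.p (nat_lit 94) (nat_lit 12) (.p (nat_lit 95) (nat_lit 48) (.n (nat_lit 96) (nat_lit 12) (.p (nat_lit 97) (nat_lit 24) (.p (nat_lit 98) (nat_lit 60) (.n (nat_lit 99) (nat_lit 24) (.p (nat_lit 100) (nat_lit 12) (.n (nat_lit 101) (nat_lit 24) (.n (nat_lit 102) (nat_lit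 48) (.p (nat_lit 103) (nat_lit 24) .z))))))))))))))))))) (.ct dW4x_c8465 (nat_lit 36) (nat_lit 0) (.s false (nat_lit 1) (nat_lit 4) (nat_lit 2) (nat_lit 3) (nat_lit 0) true (nat_lit 4) true (nat_lit 9) true (nat_lit 5) true (nat_lit 7) true (nat_lit 6) (.s true (nat_lit 1) (nat_lit 5) (nat_lit 0) (nat_lit 1) (nat_lit 3) true (nat_lit 2) true (nat_lit 6) true (nat_lit 4) true (nat_lit 9) true (nat_lit 8) (.s true (nat_lit 1) (nat_lit 9) (nat_lit 1) (nat_lit 0) (nat_lit 0) true (nat_lit 5) true (nat_lit 9) true (nat_lit 0) true (nat_lit 8) true (nat_lit 9) (.e false (nat_lit 36) (nat_lit 45) (nat_lit 0) (nat_lit 9) (.e true (nat_lit 36) (nat_lit 38) (nat_lit 2) (nat_lit 7) (.e false (nat_lit 36) (nat_lit 39) (nat_lit 2) (nat_lit 7) (.e false (nat_lit 36) (nat_lit 40) (nat_lit 2) (nat_lit 7) (.e true (nat_lit 36) (nat_lit 33) (nat_lit 3) (nat_lit 6) (.e true (nat_lit 36) (nat_lit 14) (nat_lit 7) (nat_lit 2) (.e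 true (nat_lit 36) (nat_lit 34) (nat_lit 3) (nat_lit 6) (.e false (nat_lit 36) (nat_lit 53) (nat_lit 0) (nat_lit 9) (.e false (nat_lit 36) (nat_lit 43) (nat_lit 1) (nat_lit 8) (.e false (nat_lit 36) (nat_lit 47) (nat_lit 0) (nat_lit 9) (.e false (nat_lit 36) (nat_lit 48) (nat_lit 0) (nat_lit 9) (.e true (nat_lit 36) (nat_lit 52) (nat_lit 0) (nat_lit 9) .nil)))))))))))))))) (.nd .leaf (nat_lit 11274) (nat_lit 156) (.n (nat_lit 108) (nat_lit 36) (.p (nat_lit 110) (nat_lit 36) (.n (nat_lit 111) (nat_lit 36) (.p (nat_lit 112) (nat_lit 36) (.p (nat_lit 113) (nat_lit 36) (.n (nat_lit 114) (nat_lit 36) .z)))))) (.ct dW4x_c8450 (nat_lit 36) (nat_lit 0) (.s false (nat_lit 1) (nat_lit 4) (nat_lit 3) (nat_lit 0) (nat_lit 3) true (nat_lit 0) true (nat_lit 4) true (nat_lit 3) true (nat_lit 4) true (nat_lit 6) (.e false (nat_lit 72) (nat_lit 39) (nat_lit 3) (nat_lit 4) (.e false (nat_lit 36) (nat_lit 26) (nat_lit 4) (nat_lit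 3) (.e true (nat_lit 36) (nat_lit 38) (nat_lit 3) (nat_lit 4) (.e false (nat_lit 36) (nat_lit 40) (nat_lit 3) (nat_lit 4) (.e false (nat_lit 36) (nat_lit 58) (nat_lit 0) (nat_lit 6) .nil))))))) .leaf))) (nat_lit 12289) (nat_lit 30) (.p (nat_lit 34) (nat_lit 36) .z) .df (.nd (.nd (.nd (.nd .leaf (nat_lit 12291) (nat_lit 41) (.p (nat_lit 41) (nat_lit 36) .z) .df .leaf) (nat_lit 12296) (nat_lit 132) (.n (nat_lit 86) (nat_lit 12) (.p (nat_lit 87) (nat_lit 12) (.p (nat_lit 89) (nat_lit 12) (.n (nat_lit 90) (nat_lit 12) (.n (nat_lit 91) (nat_lit 36) (.n (nat_lit 93) (nat_lit 12) (.p (nat_lit 94) (nat_lit 12) (.n (nat_lit 95) (nat_lit 24) (.n (nat_lit 96) (nat_lit 12) (.n (nat_lit 97) (nat_lit 12) (.n (nat_lit 98) (nat_lit 12) (.p (nat_lit 99) (nat_lit 12) (.p (nat_lit 100) (nat_lit 12) (.p (nat_lit 101) (nat_lit 12) (.p (nat_lit 102) (nat_lit 24) (.n (nat_lit 103) (nat_lit 12) .z)))))))))))))))) (.ct dW4x_c8465 (nat_lit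 36) (nat_lit 1) (.s false (nat_lit 1) (nat_lit 8) (nat_lit 0) (nat_lit 2) (nat_lit 0) false (nat_lit 10) true (nat_lit 9) true (nat_lit 1) true (nat_lit 9) true (nat_lit 7) (.e false (nat_lit 36) (nat_lit 50) (nat_lit 0) (nat_lit 9) (.e true (nat_lit 36) (nat_lit 45) (nat_lit 0) (nat_lit 9) (.e false (nat_lit 36) (nat_lit 49) (nat_lit 0) (nat_lit 9) (.e true (nat_lit 36) (nat_lit 53) (nat_lit 0) (nat_lit 9) (.e true (nat_lit 36) (nat_lit 54) (nat_lit 0) (nat_lit 9) (.e true (nat_lit 36) (nat_lit 40) (nat_lit 2) (nat_lit 7) .nil)))))))) .leaf) (nat_lit 12298) (nat_lit 176) (.n (nat_lit 119) (nat_lit 36) (.p (nat_lit 121) (nat_lit 36) (.n (nat_lit 122) (nat_lit 36) (.p (nat_lit 123) (nat_lit 36) (.p (nat_lit 124) (nat_lit 36) (.n (nat_lit 125) (nat_lit 36) .z)))))) (.ct dW4x_c8210 (nat_lit 36) (nat_lit 0) (.s false (nat_lit 1) (nat_lit 5) (nat_lit 3) (nat_lit 0) (nat_lit 3) true (nat_lit 0) true (nat_lit 4) true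 (nat_lit 3) true (nat_lit 4) true (nat_lit 6) (.e false (nat_lit 72) (nat_lit 43) (nat_lit 3) (nat_lit 4) (.e false (nat_lit 36) (nat_lit 26) (nat_lit 5) (nat_lit 3) (.e true (nat_lit 36) (nat_lit 42) (nat_lit 3) (nat_lit 4) (.e false (nat_lit 36) (nat_lit 44) (nat_lit 3) (nat_lit 4) (.e false (nat_lit 36) (nat_lit 64) (nat_lit 0) (nat_lit 6) .nil))))))) (.nd .leaf (nat_lit 13312) (nat_lit 31) (.p (nat_lit 35) (nat_lit 36) .z) .df .leaf)) (nat_lit 13315) (nat_lit 47) (.p (nat_lit 45) (nat_lit 36) .z) .df (.nd (.nd (.nd .leaf (nat_lit 13319) (nat_lit 130) (.p (nat_lit 86) (nat_lit 36) (.n (nat_lit 87) (nat_lit 36) (.n (nat_lit 88) (nat_lit 36) (.p (nat_lit 89) (nat_lit 36) (.n (nat_lit 91) (nat_lit 36) (.n (nat_lit 92) (nat_lit 36) (.n (nat_lit 93) (nat_lit 36) (.n (nat_lit 95) (nat_lit 36) (.p (nat_lit 96) (nat_lit 36) (.n (nat_lit 97) (nat_lit 36) (.n (nat_lit 98) (nat_lit 36) (.p (nat_lit 101) (nat_lit 36)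 (.p (nat_lit 102) (nat_lit 36) .z))))))))))))) (.ct dW4x_c8465 (nat_lit 36) (nat_lit 2) (.s true (nat_lit 1) (nat_lit 4) (nat_lit 0) (nat_lit 2) (nat_lit 3) true (nat_lit 2) true (nat_lit 6) true (nat_lit 5) true (nat_lit 9) true (nat_lit 7) (.s true (nat_lit 1) (nat_lit 4) (nat_lit 2) (nat_lit 0) (nat_lit 3) true (nat_lit 0) true (nat_lit 6) true (nat_lit 5) true (nat_lit 7) true (nat_lit 9) (.e true (nat_lit 36) (nat_lit 33) (nat_lit 3) (nat_lit 6) (.e false (nat_lit 36) (nat_lit 46) (nat_lit 0) (nat_lit 9) (.e false (nat_lit 36) (nat_lit 50) (nat_lit 0) (nat_lit 9) (.e true (nat_lit 36) (nat_lit 52) (nat_lit 0) (nat_lit 9) (.e true (nat_lit 36) (nat_lit 54) (nat_lit 0) (nat_lit 9) (.e false (nat_lit 72) (nat_lit 39) (nat_lit 2) (nat_lit 7) (.e true (nat_lit 36) (nat_lit 11) (nat_lit 9) (nat_lit 0) (.e true (nat_lit 36) (nat_lit 35) (nat_lit 3) (nat_lit 6) (.e true (nat_lit 36) (nat_lit 38) (nat_lit 2) (nat_lit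 7) (.e false (nat_lit 36) (nat_lit 40) (nat_lit 2) (nat_lit 7) (.e false (nat_lit 36) (nat_lit 48) (nat_lit 0) (nat_lit 9) .nil)))))))))))))) .leaf) (nat_lit 13322) (nat_lit 221) (.p (nat_lit 126) (nat_lit 48) (.p (nat_lit 127) (nat_lit 48) (.n (nat_lit 128) (nat_lit 12) (.p (nat_lit 129) (nat_lit 48) (.n (nat_lit 130) (nat_lit 24) (.p (nat_lit 131) (nat_lit 48) (.n (nat_lit 133) (nat_lit 24) (.n (nat_lit 135) (nat_lit 24) (.p (nat_lit 136) (nat_lit 36) (.n (nat_lit 137) (nat_lit 24) (.p (nat_lit 138) (nat_lit 24) (.n (nat_lit 139) (nat_lit 36) (.p (nat_lit 141) (nat_lit 36) (.n (nat_lit 142) (nat_lit 12) (.n (nat_lit 144) (nat_lit 12) (.p (nat_lit 145) (nat_lit 12) (.p (nat_lit 146) (nat_lit 12) (.p (nat_lit 147) (nat_lit 12) (.n (nat_lit 149) (nat_lit 12) (.n (nat_lit 150) (nat_lit 12) .z)))))))))))))))))))) (.ct dW4x_c4370 (nat_lit 36) (nat_lit 0) (.s false (nat_lit 1) (nat_lit 4) (nat_lit 3) (nat_lit 2)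 (nat_lit 3) true (nat_lit 0) true (nat_lit 7) true (nat_lit 6) true (nat_lit 7) true (nat_lit 8) (.e false (nat_lit 36) (nat_lit 48) (nat_lit 3) (nat_lit 7) (.e false (nat_lit 36) (nat_lit 30) (nat_lit 4) (nat_lit 6) (.e false (nat_lit 36) (nat_lit 46) (nat_lit 3) (nat_lit 7) (.e false (nat_lit 36) (nat_lit 50) (nat_lit 3) (nat_lit 7) (.e true (nat_lit 36) (nat_lit 52) (nat_lit 3) (nat_lit 7) (.e true (nat_lit 36) (nat_lit 54) (nat_lit 3) (nat_lit 7) (.e false (nat_lit 36) (nat_lit 58) (nat_lit 2) (nat_lit 8) .nil))))))))) .leaf) (nat_lit 14336) (nat_lit 33) (.p (nat_lit 33) (nat_lit 36) (.p (nat_lit 34) (nat_lit 36) (.n (nat_lit 35) (nat_lit 36) .z))) (.ct dW4x_c8464 (nat_lit 36) (nat_lit 3) (.s true (nat_lit 1) (nat_lit 2) (nat_lit 0) (nat_lit 1) (nat_lit 0) false (nat_lit 4) true (nat_lit 3) true (nat_lit 1) true (nat_lit 3) true (nat_lit 2) (.e false (nat_lit 36) (nat_lit 11) (nat_lit 2) (nat_lit 1) (.e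 true (nat_lit 36) (nat_lit 13) (nat_lit 0) (nat_lit 3) (.e false (nat_lit 36) (nat_lit 12) (nat_lit 1) (nat_lit 2) .nil))))) (.nd .leaf (nat_lit 14339) (nat_lit 48) (.p (nat_lit 46) (nat_lit 36) .z) .df .leaf)))) (nat_lit 14343) (nat_lit 125) (.p (nat_lit 86) (nat_lit 12) (.n (nat_lit 87) (nat_lit 12) (.n (nat_lit 88) (nat_lit 36) (.p (nat_lit 89) (nat_lit 24) (.n (nat_lit 90) (nat_lit 24) (.n (nat_lit 91) (nat_lit 36) (.n (nat_lit 92) (nat_lit 36) (.n (nat_lit 93) (nat_lit 24) (.p (nat_lit 94) (nat_lit 24) (.n (nat_lit 95) (nat_lit 12) (.p (nat_lit 96) (nat_lit 12) (.p (nat_lit 97) (nat_lit 12) (.n (nat_lit 98) (nat_lit 24) (.p (nat_lit 99) (nat_lit 24) (.n (nat_lit 100) (nat_lit 12) (.p (nat_lit 101) (nat_lit 24) (.p (nat_lit 102) (nat_lit 12) (.p (nat_lit 103) (nat_lit 12) .z)))))))))))))))))) (.ct dW4x_c8465 (nat_lit 36) (nat_lit 2) (.s false (nat_lit 1) (nat_lit 5) (nat_lit 3) (nat_lit 1) (nat_lit 0) true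 (nat_lit 2) true (nat_lit 9) true (nat_lit 4) true (nat_lit 6) true (nat_lit 8) (.s true (nat_lit 1) (nat_lit 8) (nat_lit 0) (nat_lit 0) (nat_lit 2) true (nat_lit 4) true (nat_lit 7) true (nat_lit 1) true (nat_lit 9) true (nat_lit 9) (.e false (nat_lit 36) (nat_lit 34) (nat_lit 3) (nat_lit 6) (.e true (nat_lit 36) (nat_lit 35) (nat_lit 3) (nat_lit 6) (.e true (nat_lit 36) (nat_lit 36) (nat_lit 3) (nat_lit 6) (.e true (nat_lit 36) (nat_lit 41) (nat_lit 1) (nat_lit 8) (.e true (nat_lit 36) (nat_lit 40) (nat_lit 2) (nat_lit 7) (.e true (nat_lit 36) (nat_lit 45) (nat_lit 0) (nat_lit 9) (.e false (nat_lit 72) (nat_lit 49) (nat_lit 0) (nat_lit 9) (.e true (nat_lit 36) (nat_lit 53) (nat_lit 0) (nat_lit 9) (.e true (nat_lit 72) (nat_lit 54) (nat_lit 0) (nat_lit 9) (.e false (nat_lit 36) (nat_lit 46) (nat_lit 0) (nat_lit 9) (.e false (nat_lit 36) (nat_lit 47) (nat_lit 0) (nat_lit 9) (.e false (nat_lit 36) (nat_lit 50)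 (nat_lit 0) (nat_lit 9) (.e true (nat_lit 36) (nat_lit 52) (nat_lit 0) (nat_lit 9) .nil)))))))))))))))) (.nd (.nd (.nd (.nd (.nd .leaf (nat_lit 14346) (nat_lit 222) (.p (nat_lit 126) (nat_lit 24) (.p (nat_lit 127) (nat_lit 24) (.p (nat_lit 128) (nat_lit 12) (.n (nat_lit 129) (nat_lit 12) (.n (nat_lit 130) (nat_lit 12) (.n (nat_lit 131) (nat_lit 12) (.p (nat_lit 132) (nat_lit 36) (.n (nat_lit 133) (nat_lit 12) (.p (nat_lit 134) (nat_lit 36) (.p (nat_lit 135) (nat_lit 24) (.p (nat_lit 137) (nat_lit 24) (.n (nat_lit 138) (nat_lit 24) (.p (nat_lit 142) (nat_lit 48) (.n (nat_lit 144) (nat_lit 24) (.n (nat_lit 145) (nat_lit 12) (.p (nat_lit 146) (nat_lit 24) (.n (nat_lit 147) (nat_lit 12) (.p (nat_lit 149) (nat_lit 12) (.p (nat_lit 150) (nat_lit 12) .z))))))))))))))))))) (.ct dW4x_c4370 (nat_lit 36) (nat_lit 0) (.s false (nat_lit 1) (nat_lit 5) (nat_lit 3) (nat_lit 1) (nat_lit 3) true (nat_lit 0) true (nat_lit 7)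 true (nat_lit 5) true (nat_lit 7) true (nat_lit 9) (.e false (nat_lit 36) (nat_lit 51) (nat_lit 3) (nat_lit 7) (.e false (nat_lit 36) (nat_lit 28) (nat_lit 5) (nat_lit 5) (.e false (nat_lit 36) (nat_lit 45) (nat_lit 3) (nat_lit 7) (.e true (nat_lit 36) (nat_lit 49) (nat_lit 3) (nat_lit 7) (.e false (nat_lit 36) (nat_lit 53) (nat_lit 3) (nat_lit 7) (.e false (nat_lit 36) (nat_lit 54) (nat_lit 3) (nat_lit 7) (.e false (nat_lit 36) (nat_lit 64) (nat_lit 1) (nat_lit 9) .nil))))))))) .leaf) (nat_lit 15360) (nat_lit 32) (.p (nat_lit 36) (nat_lit 36) .z) .df .leaf) (nat_lit 15363) (nat_lit 49) (.p (nat_lit 47) (nat_lit 36) .z) .df (.nd .leaf (nat_lit 15367) (nat_lit 127) (.p (nat_lit 86) (nat_lit 24) (.n (nat_lit 87) (nat_lit 24) (.n (nat_lit 88) (nat_lit 36) (.n (nat_lit 89) (nat_lit 24) (.p (nat_lit 90) (nat_lit 24) (.p (nat_lit 93) (nat_lit 24) (.n (nat_lit 94) (nat_lit 24) (.n (nat_lit 95) (nat_lit 24) (.p (nat_lit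 96) (nat_lit 24) (.n (nat_lit 97) (nat_lit 12) (.n (nat_lit 98) (nat_lit 12) (.p (nat_lit 99) (nat_lit 12) (.p (nat_lit 100) (nat_lit 12) (.p (nat_lit 101) (nat_lit 12) (.n (nat_lit 102) (nat_lit 12) (.n (nat_lit 103) (nat_lit 12) .z)))))))))))))))) (.ct dW4x_c8465 (nat_lit 36) (nat_lit 2) (.s true (nat_lit 1) (nat_lit 6) (nat_lit 0) (nat_lit 0) (nat_lit 3) true (nat_lit 2) true (nat_lit 6) true (nat_lit 3) true (nat_lit 9) true (nat_lit 9) (.e true (nat_lit 36) (nat_lit 36) (nat_lit 3) (nat_lit 6) (.e true (nat_lit 36) (nat_lit 47) (nat_lit 0) (nat_lit 9) (.e true (nat_lit 36) (nat_lit 48) (nat_lit 0) (nat_lit 9) (.e true (nat_lit 36) (nat_lit 49) (nat_lit 0) (nat_lit 9) (.e true (nat_lit 36) (nat_lit 50) (nat_lit 0) (nat_lit 9) (.e false (nat_lit 36) (nat_lit 51) (nat_lit 0) (nat_lit 9) (.e false (nat_lit 36) (nat_lit 52) (nat_lit 0) (nat_lit 9) (.e false (nat_lit 36) (nat_lit 53) (nat_lit 0) (nat_lit 9)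 (.e false (nat_lit 72) (nat_lit 54) (nat_lit 0) (nat_lit 9) .nil))))))))))) .leaf)) (nat_lit 15370) (nat_lit 219) (.n (nat_lit 128) (nat_lit 36) (.n (nat_lit 129) (nat_lit 36) (.n (nat_lit 130) (nat_lit 36) (.n (nat_lit 131) (nat_lit 36) (.p (nat_lit 132) (nat_lit 36) (.p (nat_lit 133) (nat_lit 36) (.p (nat_lit 134) (nat_lit 36) (.p (nat_lit 135) (nat_lit 72) (.p (nat_lit 147) (nat_lit 36) (.p (nat_lit 150) (nat_lit 36) .z)))))))))) (.ct dW4x_c4370 (nat_lit 36) (nat_lit 0) (.s false (nat_lit 1) (nat_lit 6) (nat_lit 3) (nat_lit 0) (nat_lit 3) true (nat_lit 0) true (nat_lit 7) true (nat_lit 4) true (nat_lit 7) true (nat_lit 10) (.e false (nat_lit 72) (nat_lit 54) (nat_lit 3) (nat_lit 7) (.e false (nat_lit 36) (nat_lit 26) (nat_lit 6) (nat_lit 4) (.e true (nat_lit 36) (nat_lit 47) (nat_lit 3) (nat_lit 7) (.e true (nat_lit 36) (nat_lit 48) (nat_lit 3) (nat_lit 7) (.e true (nat_lit 36) (nat_lit 49) (nat_lit 3) (nat_lit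 7) (.e true (nat_lit 36) (nat_lit 50) (nat_lit 3) (nat_lit 7) (.e false (nat_lit 36) (nat_lit 51) (nat_lit 3) (nat_lit 7) (.e false (nat_lit 36) (nat_lit 52) (nat_lit 3) (nat_lit 7) (.e false (nat_lit 36) (nat_lit 53) (nat_lit 3) (nat_lit 7) (.e false (nat_lit 36) (nat_lit 70) (nat_lit 0) (nat_lit 10) .nil)))))))))))) (.nd (.nd (.nd .leaf (nat_lit 16385) (nat_lit 36) (.p (nat_lit 38) (nat_lit 36) .z) .df .leaf) (nat_lit 16386) (nat_lit 42) (.p (nat_lit 42) (nat_lit 36) .z) .df .leaf) (nat_lit 16387) (nat_lit 62) (.p (nat_lit 55) (nat_lit 36) .z) .df (.nd .leaf (nat_lit 16390) (nat_lit 138) (.p (nat_lit 86) (nat_lit 12) (.n (nat_lit 87) (nat_lit 12) (.n (nat_lit 88) (nat_lit 36) (.n (nat_lit 89) (nat_lit 12) (.p (nat_lit 90) (nat_lit 12) (.p (nat_lit 93) (nat_lit 12) (.n (nat_lit 94) (nat_lit 12) (.n (nat_lit 95) (nat_lit 12) (.p (nat_lit 96) (nat_lit 12) (.p (nat_lit 97) (nat_lit 12) (.n (nat_lit 98) (nat_lit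 24) (.n (nat_lit 99) (nat_lit 12) (.n (nat_lit 100) (nat_lit 12) (.p (nat_lit 101) (nat_lit 24) (.p (nat_lit 102) (nat_lit 12) (.p (nat_lit 103) (nat_lit 12) .z)))))))))))))))) (.ct dW4x_c8465 (nat_lit 36) (nat_lit 3) (.s true (nat_lit 1) (nat_lit 6) (nat_lit 3) (nat_lit 0) (nat_lit 0) true (nat_lit 2) true (nat_lit 9) true (nat_lit 3) true (nat_lit 6) true (nat_lit 9) (.e false (nat_lit 36) (nat_lit 15) (nat_lit 7) (nat_lit 2) (.e true (nat_lit 36) (nat_lit 54) (nat_lit 0) (nat_lit 9) (.e false (nat_lit 36) (nat_lit 47) (nat_lit 0) (nat_lit 9) .nil))))) .leaf))) (nat_lit 16392) (nat_lit 151) (.p (nat_lit 106) (nat_lit 36) (.n (nat_lit 109) (nat_lit 36) (.n (nat_lit 110) (nat_lit 36) (.n (nat_lit 111) (nat_lit 36) (.p (nat_lit 113) (nat_lit 36) (.n (nat_lit 114) (nat_lit 36) .z)))))) (.ct dW4x_c8450 (nat_lit 36) (nat_lit 1) (.s true (nat_lit 1) (nat_lit 8) (nat_lit 0) (nat_lit 3) (nat_lit 0) false (nat_lit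 7) true (nat_lit 6) true (nat_lit 1) true (nat_lit 6) true (nat_lit 4) (.e true (nat_lit 36) (nat_lit 60) (nat_lit 0) (nat_lit 6) (.e true (nat_lit 36) (nat_lit 58) (nat_lit 0) (nat_lit 6) (.e true (nat_lit 36) (nat_lit 59) (nat_lit 0) (nat_lit 6) (.e false (nat_lit 36) (nat_lit 62) (nat_lit 0) (nat_lit 6) (.e true (nat_lit 36) (nat_lit 63) (nat_lit 0) (nat_lit 6) (.e false (nat_lit 36) (nat_lit 40) (nat_lit 3) (nat_lit 4) .nil)))))))) (.nd (.nd (.nd (.nd .leaf (nat_lit 16393) (nat_lit 171) (.p (nat_lit 117) (nat_lit 36) (.n (nat_lit 120) (nat_lit 36) (.n (nat_lit 121) (nat_lit 36) (.n (nat_lit 122) (nat_lit 36) (.p (nat_lit 124) (nat_lit 36) (.n (nat_lit 125) (nat_lit 36) .z)))))) (.ct dW4x_c8210 (nat_lit 36) (nat_lit 1) (.s true (nat_lit 1) (nat_lit 9) (nat_lit 0) (nat_lit 3) (nat_lit 0) false (nat_lit 7) true (nat_lit 6) true (nat_lit 1) true (nat_lit 6) true (nat_lit 4) (.e true (nat_lit 36) (nat_lit 66)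 (nat_lit 0) (nat_lit 6) (.e true (nat_lit 36) (nat_lit 64) (nat_lit 0) (nat_lit 6) (.e true (nat_lit 36) (nat_lit 65) (nat_lit 0) (nat_lit 6) (.e false (nat_lit 36) (nat_lit 68) (nat_lit 0) (nat_lit 6) (.e true (nat_lit 36) (nat_lit 69) (nat_lit 0) (nat_lit 6) (.e false (nat_lit 36) (nat_lit 44) (nat_lit 3) (nat_lit 4) .nil)))))))) .leaf) (nat_lit 16394) (nat_lit 230) (.n (nat_lit 152) (nat_lit 36) (.p (nat_lit 154) (nat_lit 72) (.p (nat_lit 155) (nat_lit 36) .z))) (.ct dW4x_c8195 (nat_lit 36) (nat_lit 0) (.s false (nat_lit 1) (nat_lit 10) (nat_lit 0) (nat_lit 3) (nat_lit 0) false (nat_lit 4) true (nat_lit 3) true (nat_lit 0) true (nat_lit 3) true (nat_lit 2) (.e false (nat_lit 72) (nat_lit 77) (nat_lit 0) (nat_lit 3) (.e false (nat_lit 36) (nat_lit 78) (nat_lit 0) (nat_lit 3) (.e true (nat_lit 36) (nat_lit 57) (nat_lit 3) (nat_lit 2) .nil))))) .leaf) (nat_lit 17408) (nat_lit 37) (.p (nat_lit 39) (nat_lit 36)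 .z) .df (.nd .leaf (nat_lit 17410) (nat_lit 50) (.p (nat_lit 48) (nat_lit 36) .z) .df .leaf)) (nat_lit 17411) (nat_lit 66) (.p (nat_lit 58) (nat_lit 36) .z) .df (.nd (.nd .leaf (nat_lit 17413) (nat_lit 128) (.p (nat_lit 86) (nat_lit 36) (.n (nat_lit 88) (nat_lit 36) (.p (nat_lit 89) (nat_lit 36) (.n (nat_lit 90) (nat_lit 36) (.n (nat_lit 91) (nat_lit 36) (.n (nat_lit 92) (nat_lit 36) (.n (nat_lit 93) (nat_lit 36) (.n (nat_lit 95) (nat_lit 36) (.n (nat_lit 98) (nat_lit 36) (.p (nat_lit 99) (nat_lit 36) (.n (nat_lit 100) (nat_lit 36) (.p (nat_lit 101) (nat_lit 36) (.p (nat_lit 102) (nat_lit 36) .z))))))))))))) (.ct dW4x_c8465 (nat_lit 36) (nat_lit 4) (.s false (nat_lit 1) (nat_lit 5) (nat_lit 0) (nat_lit 1) (nat_lit 3) true (nat_lit 2) true (nat_lit 6) true (nat_lit 4) true (nat_lit 9) true (nat_lit 8) (.e false (nat_lit 36) (nat_lit 14) (nat_lit 7) (nat_lit 2) (.e false (nat_lit 36) (nat_lit 34) (nat_lit 3)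 (nat_lit 6) (.e true (nat_lit 36) (nat_lit 45) (nat_lit 0) (nat_lit 9) (.e false (nat_lit 36) (nat_lit 49) (nat_lit 0) (nat_lit 9) (.e true (nat_lit 36) (nat_lit 53) (nat_lit 0) (nat_lit 9) (.e true (nat_lit 36) (nat_lit 54) (nat_lit 0) (nat_lit 9) (.e true (nat_lit 36) (nat_lit 43) (nat_lit 1) (nat_lit 8) .nil))))))))) .leaf) (nat_lit 17415) (nat_lit 154) (.n (nat_lit 105) (nat_lit 36) (.p (nat_lit 110) (nat_lit 36) (.n (nat_lit 111) (nat_lit 36) .z))) (.ct dW4x_c8450 (nat_lit 36) (nat_lit 2) (.s true (nat_lit 1) (nat_lit 4) (nat_lit 0) (nat_lit 3) (nat_lit 3) true (nat_lit 2) true (nat_lit 4) true (nat_lit 3) true (nat_lit 6) true (nat_lit 4) (.e true (nat_lit 36) (nat_lit 37) (nat_lit 3) (nat_lit 4) (.e false (nat_lit 36) (nat_lit 26) (nat_lit 4) (nat_lit 3) (.e false (nat_lit 36) (nat_lit 59) (nat_lit 0) (nat_lit 6) (.e true (nat_lit 36) (nat_lit 60) (nat_lit 0) (nat_lit 6) (.e false (nat_lit 36) (nat_lit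 61) (nat_lit 0) (nat_lit 6) (.e true (nat_lit 36) (nat_lit 63) (nat_lit 0) (nat_lit 6) (.e true (nat_lit 36) (nat_lit 39) (nat_lit 3) (nat_lit 4) .nil))))))))) (.nd .leaf (nat_lit 17417) (nat_lit 211) (.p (nat_lit 126) (nat_lit 12) (.p (nat_lit 127) (nat_lit 12) (.n (nat_lit 128) (nat_lit 12) (.n (nat_lit 129) (nat_lit 24) (.n (nat_lit 130) (nat_lit 24) (.p (nat_lit 131) (nat_lit 12) (.p (nat_lit 133) (nat_lit 12) (.p (nat_lit 135) (nat_lit 12) (.p (nat_lit 137) (nat_lit 12) (.n (nat_lit 138) (nat_lit 12) (.n (nat_lit 142) (nat_lit 12) (.n (nat_lit 144) (nat_lit 12) (.p (nat_lit 145) (nat_lit 12) (.p (nat_lit 146) (nat_lit 12) (.p (nat_lit 147) (nat_lit 12) (.n (nat_lit 149) (nat_lit 12) (.n (nat_lit 150) (nat_lit 12) .z))))))))))))))))) (.ct dW4x_c4370 (nat_lit 36) (nat_lit 1) (.s true (nat_lit 1) (nat_lit 4) (nat_lit 2) (nat_lit 3) (nat_lit 3) true (nat_lit 1) true (nat_lit 7) true (nat_lit 6) true (nat_lit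 8) true (nat_lit 7) (.e true (nat_lit 36) (nat_lit 45) (nat_lit 3) (nat_lit 7) (.e false (nat_lit 36) (nat_lit 30) (nat_lit 4) (nat_lit 6) (.e false (nat_lit 36) (nat_lit 59) (nat_lit 2) (nat_lit 8) (.e true (nat_lit 36) (nat_lit 60) (nat_lit 2) (nat_lit 8) (.e false (nat_lit 36) (nat_lit 61) (nat_lit 2) (nat_lit 8) (.e true (nat_lit 36) (nat_lit 63) (nat_lit 2) (nat_lit 8) (.e true (nat_lit 36) (nat_lit 48) (nat_lit 3) (nat_lit 7) .nil))))))))) .leaf))))))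

noncomputable def dW4x_t1 : Tr := (.nd (.nd (.nd (.nd (.nd (.nd (.nd .leaf (nat_lit 18432) (nat_lit 39) (.p (nat_lit 37) (nat_lit 36) (.p (nat_lit 38) (nat_lit 36) (.n (nat_lit 39) (nat_lit 36) .z))) (.ct dW4x_c8449 (nat_lit 36) (nat_lit 3) (.s true (nat_lit 1) (nat_lit 3) (nat_lit 0) (nat_lit 1) (nat_lit 0) false (nat_lit 4) true (nat_lit 3) true (nat_lit 1) true (nat_lit 3) true (nat_lit 2) (.e false (nat_lit 36) (nat_lit 11) (nat_lit 3) (nat_lit 1) (.e true (nat_lit 36) (nat_lit 17) (nat_lit 0) (nat_lit 3) (.e false (nat_lit 36) (nat_lit 16) (nat_lit 1) (nat_lit 2) .nil))))) .leaf) (nat_lit 18434) (nat_lit 51) (.p (nat_lit 49) (nat_lit 36) .z) .df .leaf) (nat_lit 18435) (nat_lit 67) (.p (nat_lit 59) (nat_lit 36) .z) .df (.nd .leaf (nat_lit 18437) (nat_lit 133) (.p (nat_lit 86) (nat_lit 24) (.n (nat_lit 87) (nat_lit 24) (.n (nat_lit 88) (nat_lit 36) (.p (nat_lit 89) (nat_lit 12) (.n (nat_lit 90) (nat_lit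 12) (.n (nat_lit 91) (nat_lit 36) (.n (nat_lit 93) (nat_lit 12) (.n (nat_lit 94) (nat_lit 24) (.n (nat_lit 95) (nat_lit 24) (.p (nat_lit 96) (nat_lit 24) (.n (nat_lit 97) (nat_lit 12) (.n (nat_lit 98) (nat_lit 12) (.p (nat_lit 99) (nat_lit 12) (.p (nat_lit 100) (nat_lit 12) (.p (nat_lit 101) (nat_lit 12) (.p (nat_lit 102) (nat_lit 24) (.n (nat_lit 103) (nat_lit 12) .z))))))))))))))))) (.ct dW4x_c8465 (nat_lit 36) (nat_lit 4) (.s true (nat_lit 1) (nat_lit 5) (nat_lit 3) (nat_lit 0) (nat_lit 1) true (nat_lit 1) true (nat_lit 8) true (nat_lit 4) true (nat_lit 6) true (nat_lit 9) (.e false (nat_lit 36) (nat_lit 12) (nat_lit 8) (nat_lit 1) (.e true (nat_lit 36) (nat_lit 43) (nat_lit 1) (nat_lit 8) (.e false (nat_lit 36) (nat_lit 34) (nat_lit 3) (nat_lit 6) (.e true (nat_lit 36) (nat_lit 35) (nat_lit 3) (nat_lit 6) (.e true (nat_lit 36) (nat_lit 36) (nat_lit 3) (nat_lit 6) (.e false (nat_lit 36) (nat_lit 46) (nat_lit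 0) (nat_lit 9) .nil)))))))) .leaf)) (nat_lit 18439) (nat_lit 155) (.p (nat_lit 104) (nat_lit 36) (.n (nat_lit 105) (nat_lit 36) (.n (nat_lit 107) (nat_lit 36) (.n (nat_lit 109) (nat_lit 36) (.n (nat_lit 110) (nat_lit 36) (.p (nat_lit 112) (nat_lit 36) (.p (nat_lit 113) (nat_lit 36) (.n (nat_lit 114) (nat_lit 72) .z)))))))) (.ct dW4x_c8450 (nat_lit 36) (nat_lit 2) (.s false (nat_lit 1) (nat_lit 7) (nat_lit 3) (nat_lit 0) (nat_lit 1) true (nat_lit 1) true (nat_lit 5) true (nat_lit 2) true (nat_lit 4) true (nat_lit 6) (.e true (nat_lit 36) (nat_lit 16) (nat_lit 8) (nat_lit 1) (.e false (nat_lit 36) (nat_lit 56) (nat_lit 1) (nat_lit 5) (.e true (nat_lit 36) (nat_lit 38) (nat_lit 3) (nat_lit 4) (.e false (nat_lit 36) (nat_lit 39) (nat_lit 3) (nat_lit 4) (.e false (nat_lit 36) (nat_lit 40) (nat_lit 3) (nat_lit 4) (.e true (nat_lit 36) (nat_lit 59) (nat_lit 0) (nat_lit 6) .nil)))))))) (.nd (.nd (.nd .leaf (nat_lit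 18441) (nat_lit 213) (.n (nat_lit 128) (nat_lit 36) (.n (nat_lit 129) (nat_lit 36) (.n (nat_lit 130) (nat_lit 36) (.n (nat_lit 131) (nat_lit 36) (.p (nat_lit 132) (nat_lit 36) (.p (nat_lit 134) (nat_lit 36) (.p (nat_lit 135) (nat_lit 36) (.p (nat_lit 137) (nat_lit 36) (.p (nat_lit 139) (nat_lit 36) (.p (nat_lit 142) (nat_lit 36) (.n (nat_lit 145) (nat_lit 36) (.p (nat_lit 146) (nat_lit 36) (.p (nat_lit 150) (nat_lit 36) .z))))))))))))) (.ct dW4x_c4370 (nat_lit 36) (nat_lit 1) (.s true (nat_lit 1) (nat_lit 7) (nat_lit 2) (nat_lit 1) (nat_lit 3) true (nat_lit 1) true (nat_lit 7) true (nat_lit 3) true (nat_lit 8) true (nat_lit 9) (.e true (nat_lit 36) (nat_lit 52) (nat_lit 3) (nat_lit 7) (.e false (nat_lit 36) (nat_lit 23) (nat_lit 7) (nat_lit 3) (.e false (nat_lit 36) (nat_lit 58) (nat_lit 2) (nat_lit 8) (.e false (nat_lit 36) (nat_lit 59) (nat_lit 2) (nat_lit 8) (.e true (nat_lit 36) (nat_lit 62) (nat_lit 2)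 (nat_lit 8) (.e false (nat_lit 36) (nat_lit 63) (nat_lit 2) (nat_lit 8) (.e false (nat_lit 36) (nat_lit 67) (nat_lit 1) (nat_lit 9) .nil))))))))) .leaf) (nat_lit 18442) (nat_lit 245) (.p (nat_lit 156) (nat_lit 72) (.p (nat_lit 157) (nat_lit 108) (.n (nat_lit 158) (nat_lit 36) (.p (nat_lit 159) (nat_lit 36) (.n (nat_lit 160) (nat_lit 36) (.p (nat_lit 161) (nat_lit 36) (.n (nat_lit 163) (nat_lit 36) (.n (nat_lit 165) (nat_lit 36) .z)))))))) (.ct dW4x_c4355 (nat_lit 36) (nat_lit 0) (.s false (nat_lit 1) (nat_lit 7) (nat_lit 3) (nat_lit 1) (nat_lit 3) true (nat_lit 0) true (nat_lit 4) true (nat_lit 2) true (nat_lit 4) true (nat_lit 5) (.s true (nat_lit 1) (nat_lit 7) (nat_lit 3) (nat_lit 3) (nat_lit 1) true (nat_lit 1) true (nat_lit 5) true (nat_lit 2) true (nat_lit 4) true (nat_lit 4) (.s true (nat_lit 1) (nat_lit 8) (nat_lit 0) (nat_lit 3) (nat_lit 3) true (nat_lit 2) true (nat_lit 4) true (nat_lit 1) true (nat_lit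 6) true (nat_lit 4) (.s false (nat_lit 1) (nat_lit 10) (nat_lit 0) (nat_lit 1) (nat_lit 3) true (nat_lit 2) true (nat_lit 4) true (nat_lit 0) true (nat_lit 6) true (nat_lit 5) (.e false (nat_lit 36) (nat_lit 61) (nat_lit 3) (nat_lit 4) (.e false (nat_lit 72) (nat_lit 58) (nat_lit 3) (nat_lit 4) (.e false (nat_lit 108) (nat_lit 59) (nat_lit 3) (nat_lit 4) (.e true (nat_lit 36) (nat_lit 62) (nat_lit 3) (nat_lit 4) (.e false (nat_lit 36) (nat_lit 63) (nat_lit 3) (nat_lit 4) (.e true (nat_lit 36) (nat_lit 60) (nat_lit 3) (nat_lit 4) (.e true (nat_lit 36) (nat_lit 17) (nat_lit 10) (nat_lit 0) (.e true (nat_lit 36) (nat_lit 78) (nat_lit 1) (nat_lit 5) .nil))))))))))))) .leaf) (nat_lit 19456) (nat_lit 38) (.p (nat_lit 40) (nat_lit 36) .z) .df (.nd .leaf (nat_lit 19458) (nat_lit 52) (.p (nat_lit 50) (nat_lit 36) .z) .df .leaf))) (nat_lit 19459) (nat_lit 68) (.p (nat_lit 60) (nat_lit 36) .z) .df (.nd (.nd (.nd (.nd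 .leaf (nat_lit 19461) (nat_lit 134) (.n (nat_lit 86) (nat_lit 24) (.p (nat_lit 87) (nat_lit 24) (.p (nat_lit 89) (nat_lit 24) (.n (nat_lit 90) (nat_lit 24) (.n (nat_lit 91) (nat_lit 36) (.n (nat_lit 93) (nat_lit 24) (.p (nat_lit 94) (nat_lit 24) (.n (nat_lit 95) (nat_lit 12) (.p (nat_lit 96) (nat_lit 12) (.p (nat_lit 97) (nat_lit 12) (.n (nat_lit 98) (nat_lit 24) (.p (nat_lit 99) (nat_lit 24) (.n (nat_lit 100) (nat_lit 12) (.n (nat_lit 101) (nat_lit 12) (.p (nat_lit 102) (nat_lit 12) (.p (nat_lit 103) (nat_lit 12) .z)))))))))))))))) (.ct dW4x_c8465 (nat_lit 36) (nat_lit 4) (.s true (nat_lit 1) (nat_lit 5) (nat_lit 3) (nat_lit 1) (nat_lit 0) true (nat_lit 2) true (nat_lit 9) true (nat_lit 4) true (nat_lit 6) true (nat_lit 8) (.e false (nat_lit 36) (nat_lit 14) (nat_lit 7) (nat_lit 2) (.e true (nat_lit 36) (nat_lit 51) (nat_lit 0) (nat_lit 9) (.e true (nat_lit 36) (nat_lit 34) (nat_lit 3) (nat_lit 6) (.e false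 (nat_lit 36) (nat_lit 35) (nat_lit 3) (nat_lit 6) (.e false (nat_lit 36) (nat_lit 36) (nat_lit 3) (nat_lit 6) (.e false (nat_lit 36) (nat_lit 41) (nat_lit 1) (nat_lit 8) .nil)))))))) .leaf) (nat_lit 19463) (nat_lit 158) (.n (nat_lit 106) (nat_lit 36) (.p (nat_lit 109) (nat_lit 36) (.p (nat_lit 110) (nat_lit 36) (.n (nat_lit 113) (nat_lit 36) (.p (nat_lit 114) (nat_lit 72) .z))))) (.ct dW4x_c8450 (nat_lit 36) (nat_lit 2) (.s false (nat_lit 1) (nat_lit 8) (nat_lit 3) (nat_lit 0) (nat_lit 0) true (nat_lit 2) true (nat_lit 6) true (nat_lit 1) true (nat_lit 4) true (nat_lit 6) (.e false (nat_lit 36) (nat_lit 63) (nat_lit 0) (nat_lit 6) (.e true (nat_lit 36) (nat_lit 16) (nat_lit 8) (nat_lit 1) (.e true (nat_lit 36) (nat_lit 60) (nat_lit 0) (nat_lit 6) .nil))))) .leaf) (nat_lit 19465) (nat_lit 214) (.p (nat_lit 126) (nat_lit 36) (.n (nat_lit 128) (nat_lit 36) (.n (nat_lit 129) (nat_lit 36) (.n (nat_lit 130) (nat_lit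 36) (.n (nat_lit 131) (nat_lit 36) (.p (nat_lit 132) (nat_lit 36) (.p (nat_lit 133) (nat_lit 36) (.p (nat_lit 134) (nat_lit 72) (.p (nat_lit 135) (nat_lit 72) (.n (nat_lit 136) (nat_lit 36) (.p (nat_lit 140) (nat_lit 36) (.n (nat_lit 143) (nat_lit 36) (.n (nat_lit 144) (nat_lit 36) (.n (nat_lit 148) (nat_lit 36) (.p (nat_lit 150) (nat_lit 36) .z))))))))))))))) (.ct dW4x_c4370 (nat_lit 36) (nat_lit 1) (.s true (nat_lit 1) (nat_lit 9) (nat_lit 1) (nat_lit 3) (nat_lit 0) true (nat_lit 6) true (nat_lit 10) true (nat_lit 1) true (nat_lit 9) true (nat_lit 7) (.e false (nat_lit 36) (nat_lit 30) (nat_lit 4) (nat_lit 6) (.e true (nat_lit 36) (nat_lit 72) (nat_lit 0) (nat_lit 10) (.e true (nat_lit 36) (nat_lit 64) (nat_lit 1) (nat_lit 9) (.e true (nat_lit 36) (nat_lit 65) (nat_lit 1) (nat_lit 9) (.e false (nat_lit 36) (nat_lit 68) (nat_lit 1) (nat_lit 9) (.e true (nat_lit 36) (nat_lit 69) (nat_lit 1) (nat_lit 9) (.e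 false (nat_lit 36) (nat_lit 53) (nat_lit 3) (nat_lit 7) .nil))))))))) (.nd .leaf (nat_lit 19466) (nat_lit 247) (.n (nat_lit 157) (nat_lit 36) (.p (nat_lit 158) (nat_lit 36) (.n (nat_lit 159) (nat_lit 36) (.n (nat_lit 160) (nat_lit 36) (.p (nat_lit 161) (nat_lit 36) (.p (nat_lit 162) (nat_lit 36) (.p (nat_lit 163) (nat_lit 36) (.p (nat_lit 164) (nat_lit 36) (.p (nat_lit 165) (nat_lit 36) .z))))))))) (.ct dW4x_c4355 (nat_lit 36) (nat_lit 0) (.s true (nat_lit 1) (nat_lit 7) (nat_lit 1) (nat_lit 3) (nat_lit 3) true (nat_lit 1) true (nat_lit 4) true (nat_lit 2) true (nat_lit 5) true (nat_lit 4) (.s false (nat_lit 1) (nat_lit 8) (nat_lit 3) (nat_lit 0) (nat_lit 3) true (nat_lit 0) true (nat_lit 4) true (nat_lit 1) true (nat_lit 4) true (nat_lit 6) (.s true (nat_lit 1) (nat_lit 8) (nat_lit 3) (nat_lit 3) (nat_lit 0) true (nat_lit 2) true (nat_lit 6) true (nat_lit 1) true (nat_lit 4) true (nat_lit 4) (.s true (nat_lit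 1) (nat_lit 10) (nat_lit 3) (nat_lit 0) (nat_lit 1) true (nat_lit 1) true (nat_lit 5) true (nat_lit 0) true (nat_lit 4) true (nat_lit 6) (.e false (nat_lit 72) (nat_lit 59) (nat_lit 3) (nat_lit 4) (.e false (nat_lit 36) (nat_lit 77) (nat_lit 1) (nat_lit 5) (.e false (nat_lit 72) (nat_lit 63) (nat_lit 3) (nat_lit 4) (.e false (nat_lit 72) (nat_lit 58) (nat_lit 3) (nat_lit 4) (.e true (nat_lit 72) (nat_lit 62) (nat_lit 3) (nat_lit 4) (.e true (nat_lit 36) (nat_lit 18) (nat_lit 10) (nat_lit 0) (.e false (nat_lit 36) (nat_lit 80) (nat_lit 0) (nat_lit 6) .nil)))))))))))) .leaf)) (nat_lit 20480) (nat_lit 43) (.p (nat_lit 43) (nat_lit 36) .z) .df (.nd (.nd (.nd .leaf (nat_lit 20481) (nat_lit 53) (.p (nat_lit 51) (nat_lit 36) .z) .df .leaf) (nat_lit 20483) (nat_lit 75) (.p (nat_lit 64) (nat_lit 36) .z) .df .leaf) (nat_lit 20484) (nat_lit 135) (.p (nat_lit 85) (nat_lit 36) (.p (nat_lit 86) (nat_lit 48) (.n (nat_lit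 87) (nat_lit 48) (.n (nat_lit 88) (nat_lit 36) (.p (nat_lit 89) (nat_lit 24) (.n (nat_lit 90) (nat_lit 24) (.n (nat_lit 91) (nat_lit 36) (.n (nat_lit 92) (nat_lit 36) (.n (nat_lit 93) (nat_lit 24) (.n (nat_lit 94) (nat_lit 12) (.n (nat_lit 95) (nat_lit 48) (.p (nat_lit 96) (nat_lit 12) (.n (nat_lit 97) (nat_lit 24) (.n (nat_lit 98) (nat_lit 24) (.p (nat_lit 99) (nat_lit 24) (.n (nat_lit 100) (nat_lit 12) (.p (nat_lit 101) (nat_lit 24) (.p (nat_lit 102) (nat_lit 48) (.n (nat_lit 103) (nat_lit 24) .z))))))))))))))))))) (.ct dW4x_c8465 (nat_lit 36) (nat_lit 5) (.s true (nat_lit 1) (nat_lit 4) (nat_lit 2) (nat_lit 0) (nat_lit 3) true (nat_lit 0) true (nat_lit 6) true (nat_lit 5) true (nat_lit 7) true (nat_lit 9) (.e true (nat_lit 36) (nat_lit 11) (nat_lit 9) (nat_lit 0) (.e true (nat_lit 36) (nat_lit 35) (nat_lit 3) (nat_lit 6) (.e true (nat_lit 36) (nat_lit 38) (nat_lit 2) (nat_lit 7) (.e false (nat_lit 36) (nat_lit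 39) (nat_lit 2) (nat_lit 7) (.e false (nat_lit 36) (nat_lit 40) (nat_lit 2) (nat_lit 7) (.e false (nat_lit 36) (nat_lit 48) (nat_lit 0) (nat_lit 9) .nil)))))))) (.nd .leaf (nat_lit 20487) (nat_lit 174) (.n (nat_lit 116) (nat_lit 36) (.p (nat_lit 121) (nat_lit 36) (.n (nat_lit 122) (nat_lit 36) .z))) (.ct dW4x_c8210 (nat_lit 36) (nat_lit 2) (.s true (nat_lit 1) (nat_lit 5) (nat_lit 0) (nat_lit 3) (nat_lit 3) true (nat_lit 2) true (nat_lit 4) true (nat_lit 3) true (nat_lit 6) true (nat_lit 4) (.e true (nat_lit 36) (nat_lit 41) (nat_lit 3) (nat_lit 4) (.e false (nat_lit 36) (nat_lit 26) (nat_lit 5) (nat_lit 3) (.e false (nat_lit 36) (nat_lit 65) (nat_lit 0) (nat_lit 6) (.e true (nat_lit 36) (nat_lit 66) (nat_lit 0) (nat_lit 6) (.e false (nat_lit 36) (nat_lit 67) (nat_lit 0) (nat_lit 6) (.e true (nat_lit 36) (nat_lit 69) (nat_lit 0) (nat_lit 6) (.e true (nat_lit 36) (nat_lit 43) (nat_lit 3) (nat_lit 4) .nil)))))))))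 .leaf)))) (nat_lit 20488) (nat_lit 212) (.p (nat_lit 126) (nat_lit 12) (.p (nat_lit 127) (nat_lit 12) (.n (nat_lit 128) (nat_lit 12) (.n (nat_lit 129) (nat_lit 24) (.p (nat_lit 130) (nat_lit 12) (.n (nat_lit 131) (nat_lit 24) (.n (nat_lit 133) (nat_lit 24) (.p (nat_lit 134) (nat_lit 36) (.p (nat_lit 135) (nat_lit 12) (.n (nat_lit 136) (nat_lit 36) (.p (nat_lit 137) (nat_lit 12) (.n (nat_lit 138) (nat_lit 12) (.p (nat_lit 140) (nat_lit 36) (.p (nat_lit 142) (nat_lit 24) (.n (nat_lit 144) (nat_lit 12) (.n (nat_lit 145) (nat_lit 24) (.p (nat_lit 146) (nat_lit 12) (.p (nat_lit 147) (nat_lit 12) (.n (nat_lit 149) (nat_lit 12) (.p (nat_lit 150) (nat_lit 60) .z)))))))))))))))))))) (.ct dW4x_c4370 (nat_lit 36) (nat_lit 2) (.s true (nat_lit 1) (nat_lit 5) (nat_lit 1) (nat_lit 3) (nat_lit 3) true (nat_lit 2) true (nat_lit 7) true (nat_lit 5) true (nat_lit 9) true (nat_lit 7) (.e true (nat_lit 36) (nat_lit 46) (nat_lit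 3) (nat_lit 7) (.e false (nat_lit 36) (nat_lit 28) (nat_lit 5) (nat_lit 5) (.e false (nat_lit 36) (nat_lit 65) (nat_lit 1) (nat_lit 9) (.e true (nat_lit 36) (nat_lit 66) (nat_lit 1) (nat_lit 9) (.e false (nat_lit 36) (nat_lit 67) (nat_lit 1) (nat_lit 9) (.e true (nat_lit 36) (nat_lit 69) (nat_lit 1) (nat_lit 9) (.e true (nat_lit 36) (nat_lit 51) (nat_lit 3) (nat_lit 7) .nil))))))))) (.nd (.nd (.nd (.nd (.nd .leaf (nat_lit 20490) (nat_lit 263) (.p (nat_lit 176) (nat_lit 36) .z) .df .leaf) (nat_lit 20497) (nat_lit 410) (.p (nat_lit 189) (nat_lit 3) (.n (nat_lit 190) (nat_lit 24) (.p (nat_lit 191) (nat_lit 6) (.p (nat_lit 192) (nat_lit 12) (.n (nat_lit 193) (nat_lit 42) (.n (nat_lit 194) (nat_lit 6) (.p (nat_lit 195) (nat_lit 18) (.p (nat_lit 196) (nat_lit 12) (.p (nat_lit 197) (nat_lit 18) (.p (nat_lit 198) (nat_lit 30) (.n (nat_lit 199) (nat_lit 9) (.n (nat_lit 200) (nat_lit 15) (.p (nat_lit 201) (nat_lit 15)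 (.p (nat_lit 202) (nat_lit 18) (.n (nat_lit 203) (nat_lit 18) (.p (nat_lit 204) (nat_lit 18) (.n (nat_lit 205) (nat_lit 21) (.p (nat_lit 206) (nat_lit 33) (.p (nat_lit 207) (nat_lit 3) (.n (nat_lit 208) (nat_lit 15) (.n (nat_lit 209) (nat_lit 15) (.n (nat_lit 210) (nat_lit 3) (.n (nat_lit 211) (nat_lit 21) (.n (nat_lit 214) (nat_lit 9) (.p (nat_lit 216) (nat_lit 9) (.p (nat_lit 217) (nat_lit 9) (.p (nat_lit 218) (nat_lit 9) (.n (nat_lit 219) (nat_lit 9) (.n (nat_lit 220) (nat_lit 18) (.p (nat_lit 221) (nat_lit 21) (.p (nat_lit 222) (nat_lit 6) (.n (nat_lit 223) (nat_lit 18) (.p (nat_lit 224) (nat_lit 6) (.n (nat_lit 225) (nat_lit 24) (.n (nat_lit 226) (nat_lit 9) (.n (nat_lit 227) (nat_lit 9) (.n (nat_lit 228) (nat_lit 6) (.n (nat_lit 229) (nat_lit 12) (.n (nat_lit 230) (nat_lit 3) (.p (nat_lit 231) (nat_lit 3) (.p (nat_lit 232) (nat_lit 3) (.p (nat_lit 233) (nat_lit 3) (.p (nat_lit 234) (nat_lit 15) (.p (nat_lit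 235) (nat_lit 6) (.p (nat_lit 236) (nat_lit 24) (.p (nat_lit 237) (nat_lit 3) (.p (nat_lit 238) (nat_lit 3) (.p (nat_lit 239) (nat_lit 9) (.p (nat_lit 240) (nat_lit 18) .z))))))))))))))))))))))))))))))))))))))))))))))))) (.ct dW4x_c8466 (nat_lit 36) (nat_lit 0) (.s false (nat_lit 1) (nat_lit 17) (nat_lit 2) (nat_lit 0) (nat_lit 3) true (nat_lit 6) true (nat_lit 12) true (nat_lit 0) true (nat_lit 13) true (nat_lit 15) (.e false (nat_lit 36) (nat_lit 39) (nat_lit 9) (nat_lit 6) (.e false (nat_lit 36) (nat_lit 98) (nat_lit 3) (nat_lit 12) (.e true (nat_lit 36) (nat_lit 105) (nat_lit 2) (nat_lit 13) (.e false (nat_lit 36) (nat_lit 110) (nat_lit 2) (nat_lit 13) (.e true (nat_lit 36) (nat_lit 111) (nat_lit 2) (nat_lit 13) (.e true (nat_lit 36) (nat_lit 136) (nat_lit 0) (nat_lit 15) .nil)))))))) .leaf) (nat_lit 20498) (nat_lit 399) (.n (nat_lit 189) (nat_lit 156) (.p (nat_lit 190) (nat_lit 96) (.p (nat_lit 191) (nat_lit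 72) (.n (nat_lit 192) (nat_lit 42) (.p (nat_lit 193) (nat_lit 222) (.n (nat_lit 194) (nat_lit 18) (.n (nat_lit 195) (nat_lit 42) (.n (nat_lit 196) (nat_lit 138) (.n (nat_lit 197) (nat_lit 42) (.n (nat_lit 198) (nat_lit 180) (.n (nat_lit 199) (nat_lit 180) (.p (nat_lit 200) (nat_lit 30) (.n (nat_lit 201) (nat_lit 66) (.p (nat_lit 202) (nat_lit 78) (.p (nat_lit 203) (nat_lit 102) (.n (nat_lit 204) (nat_lit 174) (.p (nat_lit 205) (nat_lit 168) (.n (nat_lit 206) (nat_lit 72) (.n (nat_lit 207) (nat_lit 108) (.p (nat_lit 208) (nat_lit 108) (.n (nat_lit 209) (nat_lit 60) (.p (nat_lit 210) (nat_lit 30) (.p (nat_lit 211) (nat_lit 108) (.p (nat_lit 214) (nat_lit 6) (.n (nat_lit 216) (nat_lit 6) (.p (nat_lit 217) (nat_lit 24) (.p (nat_lit 218) (nat_lit 24) (.p (nat_lit 219) (nat_lit 12) (.p (nat_lit 220) (nat_lit 12) (.n (nat_lit 221) (nat_lit 40) (.p (nat_lit 222) (nat_lit 88) (.p (nat_lit 223) (nat_lit 12) (.p (nat_lit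 224) (nat_lit 88) (.n (nat_lit 225) (nat_lit 136) (.n (nat_lit 226) (nat_lit 96) (.n (nat_lit 227) (nat_lit 60) (.n (nat_lit 228) (nat_lit 88) (.p (nat_lit 229) (nat_lit 100) (.n (nat_lit 230) (nat_lit 44) (.n (nat_lit 231) (nat_lit 4) (.p (nat_lit 232) (nat_lit 44) (.n (nat_lit 233) (nat_lit 34) (.p (nat_lit 234) (nat_lit 82) (.n (nat_lit 235) (nat_lit 98) (.p (nat_lit 236) (nat_lit 10) (.p (nat_lit 237) (nat_lit 38) (.p (nat_lit 238) (nat_lit 50) (.p (nat_lit 239) (nat_lit 12) (.n (nat_lit 240) (nat_lit 24) .z))))))))))))))))))))))))))))))))))))))))))))))))) (.ct dW4x_c8466 (nat_lit 36) (nat_lit 0) (.s false (nat_lit 1) (nat_lit 18) (nat_lit 2) (nat_lit 0) (nat_lit 3) true (nat_lit 6) true (nat_lit 12) true (nat_lit 0) true (nat_lit 13) true (nat_lit 15) (.e false (nat_lit 36) (nat_lit 37) (nat_lit 9) (nat_lit 6) (.e false (nat_lit 36) (nat_lit 38) (nat_lit 9) (nat_lit 6) (.e true (nat_lit 36) (nat_lit 39)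 (nat_lit 9) (nat_lit 6) (.e false (nat_lit 36) (nat_lit 99) (nat_lit 3) (nat_lit 12) (.e false (nat_lit 36) (nat_lit 104) (nat_lit 2) (nat_lit 13) (.e true (nat_lit 36) (nat_lit 105) (nat_lit 2) (nat_lit 13) (.e true (nat_lit 36) (nat_lit 107) (nat_lit 2) (nat_lit 13) (.e true (nat_lit 36) (nat_lit 109) (nat_lit 2) (nat_lit 13) (.e true (nat_lit 36) (nat_lit 110) (nat_lit 2) (nat_lit 13) (.e false (nat_lit 36) (nat_lit 112) (nat_lit 2) (nat_lit 13) (.e false (nat_lit 36) (nat_lit 113) (nat_lit 2) (nat_lit 13) (.e true (nat_lit 72) (nat_lit 114) (nat_lit 2) (nat_lit 13) (.e true (nat_lit 36) (nat_lit 137) (nat_lit 0) (nat_lit 15) .nil))))))))))))))) (.nd .leaf (nat_lit 20499) (nat_lit 411) (.n (nat_lit 189) (nat_lit 39) (.n (nat_lit 190) (nat_lit 12) (.p (nat_lit 191) (nat_lit 42) (.p (nat_lit 193) (nat_lit 6) (.n (nat_lit 194) (nat_lit 6) (.p (nat_lit 195) (nat_lit 6) (.n (nat_lit 196) (nat_lit 12) (.p (nat_lit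 197) (nat_lit 6) (.n (nat_lit 198) (nat_lit 6) (.n (nat_lit 199) (nat_lit 63) (.n (nat_lit 200) (nat_lit 9) (.n (nat_lit 201) (nat_lit 27) (.p (nat_lit 202) (nat_lit 66) (.p (nat_lit 203) (nat_lit 42) (.n (nat_lit 204) (nat_lit 78) (.p (nat_lit 205) (nat_lit 45) (.p (nat_lit 206) (nat_lit 15) (.n (nat_lit 207) (nat_lit 51) (.p (nat_lit 208) (nat_lit 39) (.n (nat_lit 209) (nat_lit 45) (.p (nat_lit 210) (nat_lit 3) (.p (nat_lit 211) (nat_lit 33) (.n (nat_lit 214) (nat_lit 15) (.p (nat_lit 216) (nat_lit 15) (.n (nat_lit 217) (nat_lit 33) (.p (nat_lit 218) (nat_lit 3) (.p (nat_lit 219) (nat_lit 33) (.n (nat_lit 220) (nat_lit 30) (.p (nat_lit 221) (nat_lit 7) (.p (nat_lit 222) (nat_lit 26) (.p (nat_lit 223) (nat_lit 6) (.n (nat_lit 224) (nat_lit 10) (.p (nat_lit 225) (nat_lit 4) (.n (nat_lit 226) (nat_lit 39) (.n (nat_lit 227) (nat_lit 3) (.p (nat_lit 228) (nat_lit 10) (.n (nat_lit 229) (nat_lit 4) (.p (nat_lit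 230) (nat_lit 23) (.n (nat_lit 231) (nat_lit 11) (.p (nat_lit 232) (nat_lit 13) (.p (nat_lit 233) (nat_lit 1) (.p (nat_lit 234) (nat_lit 5) (.p (nat_lit 235) (nat_lit 50) (.n (nat_lit 236) (nat_lit 4) (.p (nat_lit 237) (nat_lit 1) (.n (nat_lit 238) (nat_lit 11) (.p (nat_lit 239) (nat_lit 15) (.p (nat_lit 240) (nat_lit 6) .z)))))))))))))))))))))))))))))))))))))))))))))))) (.ct dW4x_c8466 (nat_lit 36) (nat_lit 0) (.s true (nat_lit 1) (nat_lit 20) (nat_lit 1) (nat_lit 3) (nat_lit 0) true (nat_lit 11) true (nat_lit 15) false (nat_lit 0) true (nat_lit 14) true (nat_lit 12) (.e false (nat_lit 36) (nat_lit 64) (nat_lit 4) (nat_lit 11) (.e true (nat_lit 36) (nat_lit 132) (nat_lit 0) (nat_lit 15) (.e true (nat_lit 36) (nat_lit 116) (nat_lit 1) (nat_lit 14) (.e false (nat_lit 36) (nat_lit 121) (nat_lit 1) (nat_lit 14) (.e true (nat_lit 36) (nat_lit 122) (nat_lit 1) (nat_lit 14) (.e false (nat_lit 36) (nat_lit 94) (nat_lit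 3) (nat_lit 12) .nil)))))))) .leaf)) (nat_lit 21504) (nat_lit 45) (.p (nat_lit 41) (nat_lit 36) (.p (nat_lit 42) (nat_lit 36) (.n (nat_lit 43) (nat_lit 36) .z))) (.ct dW4x_c8209 (nat_lit 36) (nat_lit 3) (.s true (nat_lit 1) (nat_lit 3) (nat_lit 0) (nat_lit 2) (nat_lit 0) false (nat_lit 4) true (nat_lit 3) true (nat_lit 1) true (nat_lit 3) true (nat_lit 2) (.e false (nat_lit 36) (nat_lit 12) (nat_lit 3) (nat_lit 1) (.e true (nat_lit 36) (nat_lit 20) (nat_lit 0) (nat_lit 3) (.e false (nat_lit 36) (nat_lit 16) (nat_lit 2) (nat_lit 2) .nil))))) (.nd (.nd (.nd .leaf (nat_lit 21505) (nat_lit 54) (.p (nat_lit 52) (nat_lit 36) .z) .df .leaf) (nat_lit 21507) (nat_lit 76) (.p (nat_lit 65) (nat_lit 36) .z) .df .leaf) (nat_lit 21508) (nat_lit 136) (.n (nat_lit 85) (nat_lit 36) (.n (nat_lit 86) (nat_lit 84) (.p (nat_lit 87) (nat_lit 48) (.p (nat_lit 88) (nat_lit 72) (.n (nat_lit 89) (nat_lit 60) (.p (nat_lit 90) (nat_lit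 24) (.p (nat_lit 91) (nat_lit 72) (.p (nat_lit 92) (nat_lit 36) (.p (nat_lit 93) (nat_lit 24) (.p (nat_lit 94) (nat_lit 12) (.p (nat_lit 95) (nat_lit 84) (.n (nat_lit 96) (nat_lit 12) (.p (nat_lit 97) (nat_lit 24) (.p (nat_lit 98) (nat_lit 60) (.n (nat_lit 99) (nat_lit 24) (.p (nat_lit 100) (nat_lit 12) (.n (nat_lit 101) (nat_lit 24) (.n (nat_lit 102) (nat_lit 48) (.p (nat_lit 103) (nat_lit 24) .z))))))))))))))))))) (.ct dW4x_c8465 (nat_lit 36) (nat_lit 5) (.s true (nat_lit 1) (nat_lit 4) (nat_lit 3) (nat_lit 0) (nat_lit 2) true (nat_lit 0) true (nat_lit 7) true (nat_lit 5) true (nat_lit 6) true (nat_lit 9) (.e false (nat_lit 36) (nat_lit 11) (nat_lit 9) (nat_lit 0) (.e true (nat_lit 36) (nat_lit 39) (nat_lit 2) (nat_lit 7) (.e true (nat_lit 36) (nat_lit 34) (nat_lit 3) (nat_lit 6) (.e false (nat_lit 36) (nat_lit 35) (nat_lit 3) (nat_lit 6) (.e false (nat_lit 36) (nat_lit 36) (nat_lit 3) (nat_lit 6) (.e false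 (nat_lit 36) (nat_lit 45) (nat_lit 0) (nat_lit 9) .nil)))))))) (.nd .leaf (nat_lit 21511) (nat_lit 175) (.p (nat_lit 115) (nat_lit 36) (.n (nat_lit 116) (nat_lit 36) (.n (nat_lit 118) (nat_lit 36) (.n (nat_lit 120) (nat_lit 36) (.n (nat_lit 121) (nat_lit 36) (.p (nat_lit 123) (nat_lit 36) (.p (nat_lit 124) (nat_lit 36) (.n (nat_lit 125) (nat_lit 72) .z)))))))) (.ct dW4x_c8210 (nat_lit 36) (nat_lit 2) (.s false (nat_lit 1) (nat_lit 7) (nat_lit 3) (nat_lit 0) (nat_lit 2) true (nat_lit 1) true (nat_lit 5) true (nat_lit 2) true (nat_lit 4) true (nat_lit 6) (.e true (nat_lit 36) (nat_lit 16) (nat_lit 9) (nat_lit 1) (.e false (nat_lit 36) (nat_lit 56) (nat_lit 2) (nat_lit 5) (.e true (nat_lit 36) (nat_lit 42) (nat_lit 3) (nat_lit 4) (.e false (nat_lit 36) (nat_lit 43) (nat_lit 3) (nat_lit 4) (.e false (nat_lit 36) (nat_lit 44) (nat_lit 3) (nat_lit 4) (.e true (nat_lit 36) (nat_lit 65) (nat_lit 0) (nat_lit 6) .nil))))))))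 .leaf))) (nat_lit 21512) (nat_lit 215) (.p (nat_lit 128) (nat_lit 36) (.p (nat_lit 129) (nat_lit 36) (.p (nat_lit 131) (nat_lit 36) (.n (nat_lit 132) (nat_lit 36) (.n (nat_lit 133) (nat_lit 36) (.n (nat_lit 134) (nat_lit 36) (.n (nat_lit 135) (nat_lit 36) (.p (nat_lit 136) (nat_lit 36) (.n (nat_lit 140) (nat_lit 36) (.p (nat_lit 141) (nat_lit 36) (.p (nat_lit 143) (nat_lit 36) (.p (nat_lit 144) (nat_lit 36) (.n (nat_lit 150) (nat_lit 36) .z))))))))))))) (.ct dW4x_c4370 (nat_lit 36) (nat_lit 2) (.s true (nat_lit 1) (nat_lit 7) (nat_lit 1) (nat_lit 2) (nat_lit 3) true (nat_lit 2) true (nat_lit 7) true (nat_lit 3) true (nat_lit 9) true (nat_lit 8) (.e true (nat_lit 36) (nat_lit 49) (nat_lit 3) (nat_lit 7) (.e true (nat_lit 36) (nat_lit 23) (nat_lit 7) (nat_lit 3) (.e false (nat_lit 36) (nat_lit 64) (nat_lit 1) (nat_lit 9) (.e false (nat_lit 36) (nat_lit 65) (nat_lit 1) (nat_lit 9) (.e true (nat_lit 36) (nat_lit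 68) (nat_lit 1) (nat_lit 9) (.e false (nat_lit 36) (nat_lit 69) (nat_lit 1) (nat_lit 9) (.e false (nat_lit 36) (nat_lit 61) (nat_lit 2) (nat_lit 8) .nil))))))))) (.nd (.nd (.nd (.nd .leaf (nat_lit 21514) (nat_lit 265) (.p (nat_lit 167) (nat_lit 72) (.p (nat_lit 168) (nat_lit 108) (.n (nat_lit 169) (nat_lit 36) (.p (nat_lit 170) (nat_lit 36) (.n (nat_lit 171) (nat_lit 36) (.p (nat_lit 172) (nat_lit 36) (.n (nat_lit 174) (nat_lit 36) (.n (nat_lit 176) (nat_lit 36) .z)))))))) (.ct dW4x_c4115 (nat_lit 36) (nat_lit 0) (.s false (nat_lit 1) (nat_lit 7) (nat_lit 3) (nat_lit 2) (nat_lit 3) true (nat_lit 0) true (nat_lit 4) true (nat_lit 2) true (nat_lit 4) true (nat_lit 5) (.s true (nat_lit 1) (nat_lit 7) (nat_lit 3) (nat_lit 3) (nat_lit 2) true (nat_lit 1) true (nat_lit 5) true (nat_lit 2) true (nat_lit 4) true (nat_lit 4) (.s true (nat_lit 1) (nat_lit 9) (nat_lit 0) (nat_lit 3) (nat_lit 3) true (nat_lit 2) true (nat_lit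 4) true (nat_lit 1) true (nat_lit 6) true (nat_lit 4) (.s false (nat_lit 1) (nat_lit 10) (nat_lit 0) (nat_lit 2) (nat_lit 3) true (nat_lit 2) true (nat_lit 4) true (nat_lit 0) true (nat_lit 6) true (nat_lit 5) (.e false (nat_lit 36) (nat_lit 67) (nat_lit 3) (nat_lit 4) (.e false (nat_lit 72) (nat_lit 64) (nat_lit 3) (nat_lit 4) (.e false (nat_lit 108) (nat_lit 65) (nat_lit 3) (nat_lit 4) (.e true (nat_lit 36) (nat_lit 68) (nat_lit 3) (nat_lit 4) (.e false (nat_lit 36) (nat_lit 69) (nat_lit 3) (nat_lit 4) (.e true (nat_lit 36) (nat_lit 66) (nat_lit 3) (nat_lit 4) (.e true (nat_lit 36) (nat_lit 20) (nat_lit 10) (nat_lit 0) (.e true (nat_lit 36) (nat_lit 78) (nat_lit 2) (nat_lit 5) .nil))))))))))))) .leaf) (nat_lit 21521) (nat_lit 400) (.p (nat_lit 189) (nat_lit 48) (.p (nat_lit 190) (nat_lit 12) (.n (nat_lit 191) (nat_lit 36) (.n (nat_lit 192) (nat_lit 30) (.n (nat_lit 193) (nat_lit 6) (.n (nat_lit 194) (nat_lit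 18) (.p (nat_lit 195) (nat_lit 6) (.n (nat_lit 196) (nat_lit 42) (.p (nat_lit 197) (nat_lit 42) (.p (nat_lit 198) (nat_lit 36) (.p (nat_lit 199) (nat_lit 36) (.p (nat_lit 200) (nat_lit 78) (.n (nat_lit 201) (nat_lit 42) (.n (nat_lit 202) (nat_lit 42) (.n (nat_lit 203) (nat_lit 30) (.p (nat_lit 204) (nat_lit 66) (.p (nat_lit 205) (nat_lit 12) (.p (nat_lit 209) (nat_lit 60) (.p (nat_lit 210) (nat_lit 6) (.p (nat_lit 211) (nat_lit 72) (.n (nat_lit 212) (nat_lit 36) (.p (nat_lit 213) (nat_lit 36) (.n (nat_lit 214) (nat_lit 6) (.p (nat_lit 215) (nat_lit 36) (.p (nat_lit 216) (nat_lit 6) (.p (nat_lit 217) (nat_lit 12) (.n (nat_lit 218) (nat_lit 24) (.n (nat_lit 219) (nat_lit 48) (.p (nat_lit 220) (nat_lit 24) (.n (nat_lit 221) (nat_lit 32) (.p (nat_lit 222) (nat_lit 20) (.n (nat_lit 223) (nat_lit 12) (.p (nat_lit 224) (nat_lit 20) (.n (nat_lit 225) (nat_lit 8) (.p (nat_lit 226) (nat_lit 24) (.n (nat_lit 227) (nat_lit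 12) (.n (nat_lit 228) (nat_lit 20) (.p (nat_lit 229) (nat_lit 44) (.n (nat_lit 230) (nat_lit 28) (.n (nat_lit 231) (nat_lit 32) (.n (nat_lit 232) (nat_lit 8) (.n (nat_lit 233) (nat_lit 2) (.n (nat_lit 234) (nat_lit 10) (.n (nat_lit 235) (nat_lit 46) (.p (nat_lit 236) (nat_lit 26) (.p (nat_lit 237) (nat_lit 34) (.p (nat_lit 238) (nat_lit 22) (.n (nat_lit 239) (nat_lit 48) (.p (nat_lit 240) (nat_lit 24) .z))))))))))))))))))))))))))))))))))))))))))))))))) (.ct dW4x_c8466 (nat_lit 36) (nat_lit 0) (.s false (nat_lit 1) (nat_lit 21) (nat_lit 1) (nat_lit 0) (nat_lit 3) true (nat_lit 7) true (nat_lit 12) false (nat_lit 0) true (nat_lit 14) true (nat_lit 15) (.e false (nat_lit 36) (nat_lit 41) (nat_lit 8) (nat_lit 7) (.e false (nat_lit 36) (nat_lit 42) (nat_lit 8) (nat_lit 7) (.e true (nat_lit 36) (nat_lit 43) (nat_lit 8) (nat_lit 7) (.e false (nat_lit 36) (nat_lit 102) (nat_lit 3) (nat_lit 12) (.e false (nat_lit 36)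 (nat_lit 115) (nat_lit 1) (nat_lit 14) (.e true (nat_lit 36) (nat_lit 116) (nat_lit 1) (nat_lit 14) (.e true (nat_lit 36) (nat_lit 118) (nat_lit 1) (nat_lit 14) (.e true (nat_lit 36) (nat_lit 120) (nat_lit 1) (nat_lit 14) (.e true (nat_lit 36) (nat_lit 121) (nat_lit 1) (nat_lit 14) (.e false (nat_lit 36) (nat_lit 123) (nat_lit 1) (nat_lit 14) (.e false (nat_lit 36) (nat_lit 124) (nat_lit 1) (nat_lit 14) (.e true (nat_lit 72) (nat_lit 125) (nat_lit 1) (nat_lit 14) (.e true (nat_lit 36) (nat_lit 143) (nat_lit 0) (nat_lit 15) .nil))))))))))))))) .leaf) (nat_lit 21522) (nat_lit 396) (.p (nat_lit 189) (nat_lit 150) (.n (nat_lit 190) (nat_lit 48) (.n (nat_lit 191) (nat_lit 72) (.p (nat_lit 192) (nat_lit 30) (.n (nat_lit 193) (nat_lit 174) (.p (nat_lit 194) (nat_lit 54) (.n (nat_lit 195) (nat_lit 6) (.p (nat_lit 196) (nat_lit 78) (.p (nat_lit 197) (nat_lit 30) (.p (nat_lit 198) (nat_lit 144) (.p (nat_lit 199) (nat_lit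 234) (.n (nat_lit 200) (nat_lit 24) (.p (nat_lit 201) (nat_lit 60) (.n (nat_lit 202) (nat_lit 138) (.n (nat_lit 203) (nat_lit 150) (.p (nat_lit 204) (nat_lit 222) (.n (nat_lit 205) (nat_lit 210) (.p (nat_lit 206) (nat_lit 90) (.p (nat_lit 207) (nat_lit 162) (.n (nat_lit 208) (nat_lit 162) (.p (nat_lit 209) (nat_lit 102) (.n (nat_lit 210) (nat_lit 24) (.n (nat_lit 211) (nat_lit 126) (.n (nat_lit 212) (nat_lit 36) (.p (nat_lit 213) (nat_lit 36) (.n (nat_lit 214) (nat_lit 12) (.p (nat_lit 216) (nat_lit 12) (.p (nat_lit 217) (nat_lit 6) (.n (nat_lit 218) (nat_lit 30) (.n (nat_lit 219) (nat_lit 6) (.p (nat_lit 220) (nat_lit 12) (.p (nat_lit 221) (nat_lit 2) (.n (nat_lit 222) (nat_lit 80) (.n (nat_lit 223) (nat_lit 24) (.n (nat_lit 224) (nat_lit 80) (.p (nat_lit 225) (nat_lit 104) (.p (nat_lit 226) (nat_lit 102) (.p (nat_lit 227) (nat_lit 66) (.p (nat_lit 228) (nat_lit 80) (.n (nat_lit 229) (nat_lit 68) (.p (nat_lit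 230) (nat_lit 22) (.p (nat_lit 231) (nat_lit 2) (.n (nat_lit 232) (nat_lit 58) (.p (nat_lit 233) (nat_lit 44) (.n (nat_lit 234) (nat_lit 68) (.p (nat_lit 235) (nat_lit 22) (.p (nat_lit 236) (nat_lit 22) (.n (nat_lit 237) (nat_lit 28) (.n (nat_lit 238) (nat_lit 16) (.n (nat_lit 239) (nat_lit 42) (.n (nat_lit 240) (nat_lit 24) .z))))))))))))))))))))))))))))))))))))))))))))))))))) (.ct dW4x_c8466 (nat_lit 36) (nat_lit 0) (.s false (nat_lit 1) (nat_lit 18) (nat_lit 3) (nat_lit 0) (nat_lit 2) true (nat_lit 6) true (nat_lit 13) true (nat_lit 0) true (nat_lit 12) true (nat_lit 15) (.e true (nat_lit 36) (nat_lit 37) (nat_lit 9) (nat_lit 6) (.e true (nat_lit 36) (nat_lit 38) (nat_lit 9) (nat_lit 6) (.e false (nat_lit 36) (nat_lit 39) (nat_lit 9) (nat_lit 6) (.e false (nat_lit 36) (nat_lit 110) (nat_lit 2) (nat_lit 13) (.e false (nat_lit 24) (nat_lit 86) (nat_lit 3) (nat_lit 12) (.e true (nat_lit 24) (nat_lit 87) (nat_lit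 3) (nat_lit 12) (.e true (nat_lit 36) (nat_lit 88) (nat_lit 3) (nat_lit 12) (.e false (nat_lit 12) (nat_lit 89) (nat_lit 3) (nat_lit 12) (.e true (nat_lit 12) (nat_lit 90) (nat_lit 3) (nat_lit 12) (.e true (nat_lit 36) (nat_lit 91) (nat_lit 3) (nat_lit 12) (.e true (nat_lit 12) (nat_lit 93) (nat_lit 3) (nat_lit 12) (.e true (nat_lit 24) (nat_lit 94) (nat_lit 3) (nat_lit 12) (.e true (nat_lit 24) (nat_lit 95) (nat_lit 3) (nat_lit 12) (.e false (nat_lit 24) (nat_lit 96) (nat_lit 3) (nat_lit 12) (.e true (nat_lit 12) (nat_lit 97) (nat_lit 3) (nat_lit 12) (.e true (nat_lit 12) (nat_lit 98) (nat_lit 3) (nat_lit 12) (.e false (nat_lit 12) (nat_lit 99) (nat_lit 3) (nat_lit 12) (.e false (nat_lit 12) (nat_lit 100) (nat_lit 3) (nat_lit 12) (.e false (nat_lit 12) (nat_lit 101) (nat_lit 3) (nat_lit 12) (.e false (nat_lit 24) (nat_lit 102) (nat_lit 3) (nat_lit 12) (.e true (nat_lit 12) (nat_lit 103) (nat_lit 3) (nat_lit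 12) (.e true (nat_lit 36) (nat_lit 130) (nat_lit 0) (nat_lit 15) .nil)))))))))))))))))))))))) (.nd .leaf (nat_lit 22528) (nat_lit 44) (.p (nat_lit 44) (nat_lit 36) .z) .df .leaf)) (nat_lit 22529) (nat_lit 55) (.p (nat_lit 53) (nat_lit 36) .z) .df (.nd (.nd .leaf (nat_lit 22531) (nat_lit 77) (.p (nat_lit 66) (nat_lit 36) .z) .df .leaf) (nat_lit 22532) (nat_lit 137) (.n (nat_lit 85) (nat_lit 36) (.n (nat_lit 86) (nat_lit 36) (.p (nat_lit 88) (nat_lit 36) (.n (nat_lit 89) (nat_lit 72) (.p (nat_lit 90) (nat_lit 72) (.p (nat_lit 91) (nat_lit 72) (.p (nat_lit 92) (nat_lit 36) (.p (nat_lit 93) (nat_lit 36) (.p (nat_lit 95) (nat_lit 72) (.p (nat_lit 98) (nat_lit 36) (.n (nat_lit 99) (nat_lit 36) (.p (nat_lit 100) (nat_lit 36) (.n (nat_lit 101) (nat_lit 36) (.n (nat_lit 102) (nat_lit 36) .z)))))))))))))) (.ct dW4x_c8465 (nat_lit 36) (nat_lit 5) (.s false (nat_lit 1) (nat_lit 4) (nat_lit 2) (nat_lit 3) (nat_lit 0) true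 (nat_lit 4) true (nat_lit 9) true (nat_lit 5) true (nat_lit 7) true (nat_lit 6) (.e true (nat_lit 36) (nat_lit 17) (nat_lit 5) (nat_lit 4) (.e false (nat_lit 36) (nat_lit 45) (nat_lit 0) (nat_lit 9) (.e true (nat_lit 36) (nat_lit 38) (nat_lit 2) (nat_lit 7) (.e false (nat_lit 36) (nat_lit 39) (nat_lit 2) (nat_lit 7) (.e false (nat_lit 36) (nat_lit 40) (nat_lit 2) (nat_lit 7) (.e true (nat_lit 36) (nat_lit 33) (nat_lit 3) (nat_lit 6) .nil)))))))) (.nd .leaf (nat_lit 22535) (nat_lit 178) (.n (nat_lit 117) (nat_lit 36) (.p (nat_lit 120) (nat_lit 36) (.p (nat_lit 121) (nat_lit 36) (.n (nat_lit 124) (nat_lit 36) (.p (nat_lit 125) (nat_lit 72) .z))))) (.ct dW4x_c8210 (nat_lit 36) (nat_lit 2) (.s false (nat_lit 1) (nat_lit 9) (nat_lit 3) (nat_lit 0) (nat_lit 0) true (nat_lit 2) true (nat_lit 6) true (nat_lit 1) true (nat_lit 4) true (nat_lit 6) (.e false (nat_lit 36) (nat_lit 69) (nat_lit 0) (nat_lit 6) (.e true (nat_lit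 36) (nat_lit 16) (nat_lit 9) (nat_lit 1) (.e true (nat_lit 36) (nat_lit 66) (nat_lit 0) (nat_lit 6) .nil))))) .leaf))))) (nat_lit 22536) (nat_lit 216) (.n (nat_lit 126) (nat_lit 12) (.p (nat_lit 127) (nat_lit 24) (.p (nat_lit 128) (nat_lit 12) (.n (nat_lit 129) (nat_lit 12) (.p (nat_lit 130) (nat_lit 24) (.p (nat_lit 131) (nat_lit 24) (.n (nat_lit 133) (nat_lit 12) (.n (nat_lit 135) (nat_lit 12) (.n (nat_lit 136) (nat_lit 36) (.n (nat_lit 137) (nat_lit 12) (.n (nat_lit 138) (nat_lit 24) (.p (nat_lit 140) (nat_lit 36) (.n (nat_lit 141) (nat_lit 36) (.p (nat_lit 142) (nat_lit 12) (.n (nat_lit 144) (nat_lit 24) (.n (nat_lit 145) (nat_lit 12) (.p (nat_lit 146) (nat_lit 24) (.n (nat_lit 147) (nat_lit 12) (.n (nat_lit 148) (nat_lit 36) (.p (nat_lit 149) (nat_lit 12) (.p (nat_lit 150) (nat_lit 12) .z))))))))))))))))))))) (.ct dW4x_c4370 (nat_lit 36) (nat_lit 2) (.s true (nat_lit 1) (nat_lit 8) (nat_lit 2) (nat_lit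 3) (nat_lit 0) true (nat_lit 5) true (nat_lit 10) true (nat_lit 2) true (nat_lit 8) true (nat_lit 7) (.e false (nat_lit 36) (nat_lit 28) (nat_lit 5) (nat_lit 5) (.e true (nat_lit 36) (nat_lit 71) (nat_lit 0) (nat_lit 10) (.e true (nat_lit 36) (nat_lit 58) (nat_lit 2) (nat_lit 8) (.e true (nat_lit 36) (nat_lit 59) (nat_lit 2) (nat_lit 8) (.e false (nat_lit 36) (nat_lit 62) (nat_lit 2) (nat_lit 8) (.e true (nat_lit 36) (nat_lit 63) (nat_lit 2) (nat_lit 8) (.e false (nat_lit 36) (nat_lit 50) (nat_lit 3) (nat_lit 7) .nil))))))))) (.nd (.nd (.nd (.nd (.nd (.nd .leaf (nat_lit 22538) (nat_lit 267) (.n (nat_lit 168) (nat_lit 36) (.p (nat_lit 169) (nat_lit 36) (.n (nat_lit 170) (nat_lit 36) (.n (nat_lit 171) (nat_lit 36) (.p (nat_lit 172) (nat_lit 36) (.p (nat_lit 173) (nat_lit 36) (.p (nat_lit 174) (nat_lit 36) (.p (nat_lit 175) (nat_lit 36) (.p (nat_lit 176) (nat_lit 36) .z))))))))) (.ct dW4x_c4115 (nat_lit 36) (nat_lit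 0) (.s true (nat_lit 1) (nat_lit 7) (nat_lit 2) (nat_lit 3) (nat_lit 3) true (nat_lit 1) true (nat_lit 4) true (nat_lit 2) true (nat_lit 5) true (nat_lit 4) (.s false (nat_lit 1) (nat_lit 9) (nat_lit 3) (nat_lit 0) (nat_lit 3) true (nat_lit 0) true (nat_lit 4) true (nat_lit 1) true (nat_lit 4) true (nat_lit 6) (.s true (nat_lit 1) (nat_lit 9) (nat_lit 3) (nat_lit 3) (nat_lit 0) true (nat_lit 2) true (nat_lit 6) true (nat_lit 1) true (nat_lit 4) true (nat_lit 4) (.s true (nat_lit 1) (nat_lit 10) (nat_lit 3) (nat_lit 0) (nat_lit 2) true (nat_lit 1) true (nat_lit 5) true (nat_lit 0) true (nat_lit 4) true (nat_lit 6) (.e false (nat_lit 72) (nat_lit 65) (nat_lit 3) (nat_lit 4) (.e false (nat_lit 36) (nat_lit 77) (nat_lit 2) (nat_lit 5) (.e false (nat_lit 72) (nat_lit 69) (nat_lit 3) (nat_lit 4) (.e false (nat_lit 72) (nat_lit 64) (nat_lit 3) (nat_lit 4) (.e true (nat_lit 72) (nat_lit 68) (nat_lit 3) (nat_lit 4)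 (.e true (nat_lit 36) (nat_lit 21) (nat_lit 10) (nat_lit 0) (.e false (nat_lit 36) (nat_lit 83) (nat_lit 0) (nat_lit 6) .nil)))))))))))) .leaf) (nat_lit 22545) (nat_lit 412) (.p (nat_lit 189) (nat_lit 66) (.n (nat_lit 190) (nat_lit 24) (.n (nat_lit 191) (nat_lit 36) (.p (nat_lit 192) (nat_lit 6) (.n (nat_lit 193) (nat_lit 114) (.n (nat_lit 194) (nat_lit 18) (.p (nat_lit 195) (nat_lit 42) (.n (nat_lit 196) (nat_lit 6) (.p (nat_lit 197) (nat_lit 78) (.p (nat_lit 198) (nat_lit 108) (.p (nat_lit 199) (nat_lit 90) (.p (nat_lit 200) (nat_lit 60) (.n (nat_lit 201) (nat_lit 24) (.n (nat_lit 202) (nat_lit 6) (.n (nat_lit 203) (nat_lit 66) (.p (nat_lit 204) (nat_lit 102) (.n (nat_lit 205) (nat_lit 42) (.p (nat_lit 206) (nat_lit 54) (.p (nat_lit 207) (nat_lit 18) (.n (nat_lit 208) (nat_lit 18) (.p (nat_lit 209) (nat_lit 42) (.n (nat_lit 210) (nat_lit 12) (.p (nat_lit 211) (nat_lit 18) (.n (nat_lit 212) (nat_lit 36) (.p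 (nat_lit 213) (nat_lit 36) (.n (nat_lit 214) (nat_lit 24) (.p (nat_lit 215) (nat_lit 36) (.p (nat_lit 216) (nat_lit 24) (.n (nat_lit 217) (nat_lit 42) (.n (nat_lit 218) (nat_lit 42) (.n (nat_lit 219) (nat_lit 30) (.n (nat_lit 220) (nat_lit 12) (.n (nat_lit 221) (nat_lit 62) (.p (nat_lit 222) (nat_lit 32) (.p (nat_lit 223) (nat_lit 24) (.n (nat_lit 224) (nat_lit 40) (.p (nat_lit 225) (nat_lit 52) (.p (nat_lit 226) (nat_lit 78) (.p (nat_lit 227) (nat_lit 42) (.p (nat_lit 228) (nat_lit 40) (.p (nat_lit 229) (nat_lit 20) (.p (nat_lit 230) (nat_lit 38) (.n (nat_lit 231) (nat_lit 26) (.n (nat_lit 232) (nat_lit 2) (.p (nat_lit 233) (nat_lit 40) (.n (nat_lit 234) (nat_lit 52) (.p (nat_lit 235) (nat_lit 38) (.p (nat_lit 236) (nat_lit 2) (.n (nat_lit 237) (nat_lit 32) (.p (nat_lit 238) (nat_lit 28) (.n (nat_lit 239) (nat_lit 30) (.p (nat_lit 240) (nat_lit 60) .z)))))))))))))))))))))))))))))))))))))))))))))))))))) (.ct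 dW4x_c8466 (nat_lit 36) (nat_lit 0) (.s true (nat_lit 1) (nat_lit 17) (nat_lit 2) (nat_lit 3) (nat_lit 0) true (nat_lit 10) true (nat_lit 15) true (nat_lit 0) true (nat_lit 13) true (nat_lit 12) (.e false (nat_lit 36) (nat_lit 58) (nat_lit 5) (nat_lit 10) (.e true (nat_lit 36) (nat_lit 129) (nat_lit 0) (nat_lit 15) (.e true (nat_lit 36) (nat_lit 105) (nat_lit 2) (nat_lit 13) (.e false (nat_lit 36) (nat_lit 110) (nat_lit 2) (nat_lit 13) (.e true (nat_lit 36) (nat_lit 111) (nat_lit 2) (nat_lit 13) (.e false (nat_lit 36) (nat_lit 90) (nat_lit 3) (nat_lit 12) .nil)))))))) .leaf) (nat_lit 22546) (nat_lit 398) (.p (nat_lit 189) (nat_lit 207) (.n (nat_lit 190) (nat_lit 36) (.n (nat_lit 191) (nat_lit 114) (.p (nat_lit 192) (nat_lit 12) (.n (nat_lit 193) (nat_lit 198) (.p (nat_lit 194) (nat_lit 42) (.p (nat_lit 195) (nat_lit 6) (.p (nat_lit 196) (nat_lit 108) (.p (nat_lit 197) (nat_lit 42) (.p (nat_lit 198) (nat_lit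 186) (.p (nat_lit 199) (nat_lit 279) (.p (nat_lit 200) (nat_lit 21) (.p (nat_lit 201) (nat_lit 51) (.n (nat_lit 202) (nat_lit 186) (.n (nat_lit 203) (nat_lit 174) (.p (nat_lit 204) (nat_lit 282) (.n (nat_lit 205) (nat_lit 237) (.p (nat_lit 206) (nat_lit 57) (.p (nat_lit 207) (nat_lit 195) (.n (nat_lit 208) (nat_lit 183) (.p (nat_lit 209) (nat_lit 129) (.n (nat_lit 210) (nat_lit 27) (.n (nat_lit 211) (nat_lit 141) (.n (nat_lit 212) (nat_lit 36) (.p (nat_lit 213) (nat_lit 36) (.p (nat_lit 214) (nat_lit 3) (.n (nat_lit 216) (nat_lit 3) (.p (nat_lit 217) (nat_lit 21) (.n (nat_lit 218) (nat_lit 51) (.n (nat_lit 219) (nat_lit 21) (.p (nat_lit 220) (nat_lit 42) (.n (nat_lit 221) (nat_lit 23) (.n (nat_lit 222) (nat_lit 70) (.p (nat_lit 223) (nat_lit 6) (.n (nat_lit 224) (nat_lit 70) (.p (nat_lit 225) (nat_lit 100) (.p (nat_lit 226) (nat_lit 123) (.p (nat_lit 227) (nat_lit 51) (.p (nat_lit 228) (nat_lit 70) (.n (nat_lit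 229) (nat_lit 28) (.p (nat_lit 230) (nat_lit 17) (.n (nat_lit 231) (nat_lit 41) (.n (nat_lit 232) (nat_lit 53) (.p (nat_lit 233) (nat_lit 43) (.n (nat_lit 234) (nat_lit 73) (.n (nat_lit 235) (nat_lit 10) (.p (nat_lit 236) (nat_lit 8) (.n (nat_lit 237) (nat_lit 29) (.n (nat_lit 238) (nat_lit 5) (.n (nat_lit 239) (nat_lit 75) (.n (nat_lit 240) (nat_lit 30) .z))))))))))))))))))))))))))))))))))))))))))))))))))) (.ct dW4x_c8466 (nat_lit 36) (nat_lit 0) (.s false (nat_lit 1) (nat_lit 9) (nat_lit 7) (nat_lit 0) (nat_lit 1) true (nat_lit 0) true (nat_lit 14) true (nat_lit 6) true (nat_lit 8) true (nat_lit 15) (.e true (nat_lit 36) (nat_lit 120) (nat_lit 1) (nat_lit 14) (.e true (nat_lit 36) (nat_lit 121) (nat_lit 1) (nat_lit 14) (.e false (nat_lit 36) (nat_lit 124) (nat_lit 1) (nat_lit 14) (.e true (nat_lit 36) (nat_lit 125) (nat_lit 1) (nat_lit 14) (.e true (nat_lit 36) (nat_lit 38) (nat_lit 9) (nat_lit 6) (.e false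 (nat_lit 36) (nat_lit 46) (nat_lit 7) (nat_lit 8) (.e false (nat_lit 36) (nat_lit 50) (nat_lit 7) (nat_lit 8) (.e true (nat_lit 36) (nat_lit 52) (nat_lit 7) (nat_lit 8) (.e true (nat_lit 36) (nat_lit 54) (nat_lit 7) (nat_lit 8) (.e true (nat_lit 36) (nat_lit 130) (nat_lit 0) (nat_lit 15) (.e false (nat_lit 36) (nat_lit 136) (nat_lit 0) (nat_lit 15) (.e false (nat_lit 36) (nat_lit 137) (nat_lit 0) (nat_lit 15) (.e true (nat_lit 36) (nat_lit 140) (nat_lit 0) (nat_lit 15) (.e false (nat_lit 36) (nat_lit 141) (nat_lit 0) (nat_lit 15) (.e false (nat_lit 36) (nat_lit 143) (nat_lit 0) (nat_lit 15) (.e true (nat_lit 36) (nat_lit 150) (nat_lit 0) (nat_lit 15) .nil)))))))))))))))))) (.nd .leaf (nat_lit 23552) (nat_lit 56) (.p (nat_lit 54) (nat_lit 36) .z) .df .leaf)) (nat_lit 23555) (nat_lit 84) (.p (nat_lit 70) (nat_lit 36) .z) .df (.nd (.nd (.nd .leaf (nat_lit 23559) (nat_lit 205) (.n (nat_lit 128) (nat_lit 36) (.n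 (nat_lit 129) (nat_lit 36) (.n (nat_lit 130) (nat_lit 36) (.n (nat_lit 131) (nat_lit 36) (.p (nat_lit 132) (nat_lit 36) (.p (nat_lit 133) (nat_lit 36) (.p (nat_lit 134) (nat_lit 36) (.p (nat_lit 135) (nat_lit 36) (.n (nat_lit 136) (nat_lit 36) (.p (nat_lit 139) (nat_lit 36) (.p (nat_lit 140) (nat_lit 36) (.n (nat_lit 141) (nat_lit 36) (.p (nat_lit 142) (nat_lit 36) (.n (nat_lit 144) (nat_lit 36) (.n (nat_lit 145) (nat_lit 36) (.p (nat_lit 146) (nat_lit 36) (.p (nat_lit 150) (nat_lit 36) .z))))))))))))))))) (.ct dW4x_c4370 (nat_lit 36) (nat_lit 3) (.s false (nat_lit 1) (nat_lit 7) (nat_lit 1) (nat_lit 3) (nat_lit 2) true (nat_lit 4) true (nat_lit 8) true (nat_lit 3) true (nat_lit 9) true (nat_lit 7) (.s false (nat_lit 1) (nat_lit 7) (nat_lit 2) (nat_lit 1) (nat_lit 3) true (nat_lit 1) true (nat_lit 7) true (nat_lit 3) true (nat_lit 8) true (nat_lit 9) (.s false (nat_lit 1) (nat_lit 7) (nat_lit 3) (nat_lit 1)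 (nat_lit 2) true (nat_lit 1) true (nat_lit 8) true (nat_lit 3) true (nat_lit 7) true (nat_lit 9) (.e false (nat_lit 36) (nat_lit 26) (nat_lit 6) (nat_lit 4) (.e false (nat_lit 36) (nat_lit 64) (nat_lit 1) (nat_lit 9) (.e true (nat_lit 36) (nat_lit 68) (nat_lit 1) (nat_lit 9) (.e false (nat_lit 36) (nat_lit 69) (nat_lit 1) (nat_lit 9) (.e false (nat_lit 36) (nat_lit 52) (nat_lit 3) (nat_lit 7) (.e true (nat_lit 36) (nat_lit 58) (nat_lit 2) (nat_lit 8) (.e false (nat_lit 36) (nat_lit 62) (nat_lit 2) (nat_lit 8) (.e true (nat_lit 36) (nat_lit 63) (nat_lit 2) (nat_lit 8) (.e true (nat_lit 36) (nat_lit 67) (nat_lit 1) (nat_lit 9) (.e false (nat_lit 36) (nat_lit 61) (nat_lit 2) (nat_lit 8) (.e true (nat_lit 36) (nat_lit 47) (nat_lit 3) (nat_lit 7) (.e true (nat_lit 36) (nat_lit 48) (nat_lit 3) (nat_lit 7) (.e true (nat_lit 36) (nat_lit 49) (nat_lit 3) (nat_lit 7) (.e true (nat_lit 36) (nat_lit 50) (nat_lit 3) (nat_lit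 7) (.e false (nat_lit 36) (nat_lit 51) (nat_lit 3) (nat_lit 7) (.e false (nat_lit 36) (nat_lit 53) (nat_lit 3) (nat_lit 7) (.e false (nat_lit 36) (nat_lit 54) (nat_lit 3) (nat_lit 7) .nil))))))))))))))))))))) .leaf) (nat_lit 23562) (nat_lit 283) (.p (nat_lit 187) (nat_lit 36) .z) .df .leaf) (nat_lit 23568) (nat_lit 413) (.n (nat_lit 191) (nat_lit 36) (.n (nat_lit 192) (nat_lit 36) (.n (nat_lit 193) (nat_lit 36) (.n (nat_lit 194) (nat_lit 36) (.p (nat_lit 195) (nat_lit 36) (.p (nat_lit 196) (nat_lit 36) (.p (nat_lit 197) (nat_lit 36) (.n (nat_lit 199) (nat_lit 36) (.p (nat_lit 202) (nat_lit 36) (.p (nat_lit 203) (nat_lit 36) (.n (nat_lit 204) (nat_lit 36) (.p (nat_lit 205) (nat_lit 36) (.n (nat_lit 206) (nat_lit 36) (.n (nat_lit 207) (nat_lit 36) (.p (nat_lit 208) (nat_lit 36) (.p (nat_lit 211) (nat_lit 36) (.p (nat_lit 221) (nat_lit 12) (.n (nat_lit 222) (nat_lit 12) (.n (nat_lit 224) (nat_lit 12) (.p (nat_lit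 225) (nat_lit 12) (.p (nat_lit 228) (nat_lit 12) (.n (nat_lit 229) (nat_lit 12) (.n (nat_lit 230) (nat_lit 12) (.p (nat_lit 231) (nat_lit 12) (.p (nat_lit 232) (nat_lit 12) (.p (nat_lit 233) (nat_lit 12) (.p (nat_lit 234) (nat_lit 24) (.p (nat_lit 235) (nat_lit 24) (.n (nat_lit 236) (nat_lit 12) (.n (nat_lit 237) (nat_lit 24) (.n (nat_lit 238) (nat_lit 24) .z))))))))))))))))))))))))))))))) (.ct dW4x_c8466 (nat_lit 36) (nat_lit 1) (.s false (nat_lit 1) (nat_lit 23) (nat_lit 3) (nat_lit 0) (nat_lit 0) true (nat_lit 8) true (nat_lit 15) false (nat_lit 1) true (nat_lit 12) true (nat_lit 15) (.e true (nat_lit 36) (nat_lit 54) (nat_lit 7) (nat_lit 8) (.e false (nat_lit 36) (nat_lit 147) (nat_lit 0) (nat_lit 15) (.e true (nat_lit 36) (nat_lit 135) (nat_lit 0) (nat_lit 15) .nil))))) (.nd .leaf (nat_lit 24576) (nat_lit 57) (.p (nat_lit 46) (nat_lit 36) (.p (nat_lit 47) (nat_lit 36) (.p (nat_lit 49) (nat_lit 36) (.p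 (nat_lit 50) (nat_lit 36) (.n (nat_lit 51) (nat_lit 36) (.n (nat_lit 52) (nat_lit 36) (.n (nat_lit 54) (nat_lit 36) .z))))))) (.ct dW4x_c4369 (nat_lit 36) (nat_lit 6) (.s true (nat_lit 1) (nat_lit 3) (nat_lit 0) (nat_lit 2) (nat_lit 1) true (nat_lit 2) true (nat_lit 5) true (nat_lit 3) true (nat_lit 6) true (nat_lit 4) (.s true (nat_lit 1) (nat_lit 3) (nat_lit 1) (nat_lit 2) (nat_lit 0) true (nat_lit 2) true (nat_lit 6) true (nat_lit 3) true (nat_lit 5) true (nat_lit 4) (.e true (nat_lit 36) (nat_lit 21) (nat_lit 1) (nat_lit 5) (.e false (nat_lit 36) (nat_lit 14) (nat_lit 3) (nat_lit 3) (.e true (nat_lit 36) (nat_lit 23) (nat_lit 0) (nat_lit 6) (.e false (nat_lit 36) (nat_lit 19) (nat_lit 2) (nat_lit 4) (.e false (nat_lit 36) (nat_lit 15) (nat_lit 3) (nat_lit 3) (.e true (nat_lit 36) (nat_lit 20) (nat_lit 1) (nat_lit 5) (.e false (nat_lit 36) (nat_lit 18) (nat_lit 2) (nat_lit 4) .nil)))))))))) .leaf))) (nat_lit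 24579) (nat_lit 85) (.p (nat_lit 71) (nat_lit 36) .z) .df (.nd (.nd (.nd (.nd .leaf (nat_lit 24583) (nat_lit 217) (.p (nat_lit 133) (nat_lit 36) (.n (nat_lit 137) (nat_lit 36) (.n (nat_lit 142) (nat_lit 36) (.n (nat_lit 143) (nat_lit 36) (.p (nat_lit 145) (nat_lit 36) (.n (nat_lit 146) (nat_lit 36) (.n (nat_lit 150) (nat_lit 36) .z))))))) (.ct dW4x_c4370 (nat_lit 36) (nat_lit 3) (.s true (nat_lit 1) (nat_lit 7) (nat_lit 1) (nat_lit 3) (nat_lit 2) true (nat_lit 4) true (nat_lit 8) true (nat_lit 3) true (nat_lit 9) true (nat_lit 7) (.e true (nat_lit 36) (nat_lit 26) (nat_lit 6) (nat_lit 4) (.e true (nat_lit 36) (nat_lit 59) (nat_lit 2) (nat_lit 8) (.e true (nat_lit 36) (nat_lit 64) (nat_lit 1) (nat_lit 9) (.e true (nat_lit 36) (nat_lit 65) (nat_lit 1) (nat_lit 9) (.e false (nat_lit 36) (nat_lit 68) (nat_lit 1) (nat_lit 9) (.e true (nat_lit 36) (nat_lit 69) (nat_lit 1) (nat_lit 9) (.e false (nat_lit 36) (nat_lit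 52) (nat_lit 3) (nat_lit 7) .nil))))))))) .leaf) (nat_lit 24586) (nat_lit 285) (.p (nat_lit 178) (nat_lit 72) (.p (nat_lit 179) (nat_lit 108) (.n (nat_lit 180) (nat_lit 36) (.p (nat_lit 181) (nat_lit 36) (.n (nat_lit 182) (nat_lit 36) (.p (nat_lit 183) (nat_lit 36) (.n (nat_lit 185) (nat_lit 36) (.n (nat_lit 187) (nat_lit 36) .z)))))))) (.ct dW4x_c275 (nat_lit 36) (nat_lit 0) (.s false (nat_lit 1) (nat_lit 8) (nat_lit 3) (nat_lit 2) (nat_lit 3) true (nat_lit 0) true (nat_lit 4) true (nat_lit 2) true (nat_lit 4) true (nat_lit 5) (.s true (nat_lit 1) (nat_lit 8) (nat_lit 3) (nat_lit 3) (nat_lit 2) true (nat_lit 1) true (nat_lit 5) true (nat_lit 2) true (nat_lit 4) true (nat_lit 4) (.s true (nat_lit 1) (nat_lit 9) (nat_lit 1) (nat_lit 3) (nat_lit 3) true (nat_lit 2) true (nat_lit 4) true (nat_lit 1) true (nat_lit 6) true (nat_lit 4) (.s false (nat_lit 1) (nat_lit 10) (nat_lit 1) (nat_lit 2) (nat_lit 3) true (nat_lit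 2) true (nat_lit 4) true (nat_lit 0) true (nat_lit 6) true (nat_lit 5) (.e false (nat_lit 36) (nat_lit 73) (nat_lit 3) (nat_lit 4) (.e false (nat_lit 72) (nat_lit 70) (nat_lit 3) (nat_lit 4) (.e false (nat_lit 108) (nat_lit 71) (nat_lit 3) (nat_lit 4) (.e true (nat_lit 36) (nat_lit 74) (nat_lit 3) (nat_lit 4) (.e false (nat_lit 36) (nat_lit 75) (nat_lit 3) (nat_lit 4) (.e true (nat_lit 36) (nat_lit 72) (nat_lit 3) (nat_lit 4) (.e true (nat_lit 36) (nat_lit 23) (nat_lit 10) (nat_lit 0) (.e true (nat_lit 36) (nat_lit 81) (nat_lit 2) (nat_lit 5) .nil))))))))))))) .leaf) (nat_lit 25600) (nat_lit 58) (.p (nat_lit 45) (nat_lit 36) (.n (nat_lit 47) (nat_lit 36) (.n (nat_lit 48) (nat_lit 36) (.n (nat_lit 49) (nat_lit 36) (.p (nat_lit 52) (nat_lit 36) (.p (nat_lit 53) (nat_lit 36) (.p (nat_lit 54) (nat_lit 36) .z))))))) (.ct dW4x_c4369 (nat_lit 36) (nat_lit 6) (.s false (nat_lit 1) (nat_lit 3) (nat_lit 1) (nat_lit 0)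 (nat_lit 2) true (nat_lit 0) true (nat_lit 4) true (nat_lit 3) true (nat_lit 5) true (nat_lit 6) (.s false (nat_lit 1) (nat_lit 3) (nat_lit 2) (nat_lit 0) (nat_lit 1) true (nat_lit 0) true (nat_lit 5) true (nat_lit 3) true (nat_lit 4) true (nat_lit 6) (.e false (nat_lit 36) (nat_lit 19) (nat_lit 2) (nat_lit 4) (.e false (nat_lit 36) (nat_lit 13) (nat_lit 3) (nat_lit 3) (.e true (nat_lit 36) (nat_lit 20) (nat_lit 1) (nat_lit 5) (.e false (nat_lit 36) (nat_lit 22) (nat_lit 1) (nat_lit 5) (.e false (nat_lit 36) (nat_lit 14) (nat_lit 3) (nat_lit 3) (.e true (nat_lit 36) (nat_lit 17) (nat_lit 2) (nat_lit 4) (.e true (nat_lit 36) (nat_lit 24) (nat_lit 0) (nat_lit 6) .nil)))))))))) (.nd .leaf (nat_lit 25603) (nat_lit 86) (.p (nat_lit 72) (nat_lit 36) .z) .df .leaf)) (nat_lit 25607) (nat_lit 218) (.p (nat_lit 130) (nat_lit 36) (.n (nat_lit 136) (nat_lit 36) (.n (nat_lit 137) (nat_lit 36) (.p (nat_lit 140) (nat_lit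 36) (.n (nat_lit 141) (nat_lit 36) (.n (nat_lit 143) (nat_lit 36) (.p (nat_lit 150) (nat_lit 36) .z))))))) (.ct dW4x_c4370 (nat_lit 36) (nat_lit 3) (.s true (nat_lit 1) (nat_lit 7) (nat_lit 2) (nat_lit 3) (nat_lit 1) true (nat_lit 4) true (nat_lit 9) true (nat_lit 3) true (nat_lit 8) true (nat_lit 7) (.e false (nat_lit 36) (nat_lit 26) (nat_lit 6) (nat_lit 4) (.e true (nat_lit 36) (nat_lit 65) (nat_lit 1) (nat_lit 9) (.e true (nat_lit 36) (nat_lit 58) (nat_lit 2) (nat_lit 8) (.e true (nat_lit 36) (nat_lit 59) (nat_lit 2) (nat_lit 8) (.e false (nat_lit 36) (nat_lit 62) (nat_lit 2) (nat_lit 8) (.e true (nat_lit 36) (nat_lit 63) (nat_lit 2) (nat_lit 8) (.e false (nat_lit 36) (nat_lit 49) (nat_lit 3) (nat_lit 7) .nil))))))))) (.nd (.nd (.nd .leaf (nat_lit 25610) (nat_lit 287) (.n (nat_lit 179) (nat_lit 36) (.p (nat_lit 180) (nat_lit 36) (.n (nat_lit 181) (nat_lit 36) (.n (nat_lit 182) (nat_lit 36) (.p (nat_lit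 183) (nat_lit 36) (.p (nat_lit 184) (nat_lit 36) (.p (nat_lit 185) (nat_lit 36) (.p (nat_lit 186) (nat_lit 36) (.p (nat_lit 187) (nat_lit 36) .z))))))))) (.ct dW4x_c275 (nat_lit 36) (nat_lit 0) (.s true (nat_lit 1) (nat_lit 8) (nat_lit 2) (nat_lit 3) (nat_lit 3) true (nat_lit 1) true (nat_lit 4) true (nat_lit 2) true (nat_lit 5) true (nat_lit 4) (.s false (nat_lit 1) (nat_lit 9) (nat_lit 3) (nat_lit 1) (nat_lit 3) true (nat_lit 0) true (nat_lit 4) true (nat_lit 1) true (nat_lit 4) true (nat_lit 6) (.s true (nat_lit 1) (nat_lit 9) (nat_lit 3) (nat_lit 3) (nat_lit 1) true (nat_lit 2) true (nat_lit 6) true (nat_lit 1) true (nat_lit 4) true (nat_lit 4) (.s true (nat_lit 1) (nat_lit 10) (nat_lit 3) (nat_lit 1) (nat_lit 2) true (nat_lit 1) true (nat_lit 5) true (nat_lit 0) true (nat_lit 4) true (nat_lit 6) (.e false (nat_lit 72) (nat_lit 71) (nat_lit 3) (nat_lit 4) (.e false (nat_lit 36) (nat_lit 80) (nat_lit 2)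 (nat_lit 5) (.e false (nat_lit 72) (nat_lit 75) (nat_lit 3) (nat_lit 4) (.e false (nat_lit 72) (nat_lit 70) (nat_lit 3) (nat_lit 4) (.e true (nat_lit 72) (nat_lit 74) (nat_lit 3) (nat_lit 4) (.e true (nat_lit 36) (nat_lit 24) (nat_lit 10) (nat_lit 0) (.e false (nat_lit 36) (nat_lit 83) (nat_lit 1) (nat_lit 6) .nil)))))))))))) .leaf) (nat_lit 26624) (nat_lit 63) (.p (nat_lit 56) (nat_lit 36) .z) .df .leaf) (nat_lit 26625) (nat_lit 69) (.p (nat_lit 61) (nat_lit 36) .z) .df (.nd .leaf (nat_lit 26626) (nat_lit 78) (.p (nat_lit 67) (nat_lit 36) .z) .df .leaf)))) (nat_lit 26627) (nat_lit 93) (.p (nat_lit 76) (nat_lit 36) .z) .df (.nd (.nd (.nd (.nd (.nd .leaf (nat_lit 26628) (nat_lit 150) (.p (nat_lit 104) (nat_lit 36) (.n (nat_lit 105) (nat_lit 72) (.n (nat_lit 106) (nat_lit 36) (.n (nat_lit 108) (nat_lit 36) (.n (nat_lit 109) (nat_lit 36) (.p (nat_lit 110) (nat_lit 36) (.n (nat_lit 111) (nat_lit 36) (.p (nat_lit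 112) (nat_lit 36) (.p (nat_lit 113) (nat_lit 36) (.n (nat_lit 114) (nat_lit 36) .z)))))))))) (.ct dW4x_c8450 (nat_lit 36) (nat_lit 3) (.s true (nat_lit 1) (nat_lit 4) (nat_lit 3) (nat_lit 0) (nat_lit 3) true (nat_lit 0) true (nat_lit 4) true (nat_lit 3) true (nat_lit 4) true (nat_lit 6) (.s false (nat_lit 1) (nat_lit 10) (nat_lit 0) (nat_lit 1) (nat_lit 0) false (nat_lit 7) true (nat_lit 6) true (nat_lit 0) true (nat_lit 6) true (nat_lit 5) (.e true (nat_lit 72) (nat_lit 39) (nat_lit 3) (nat_lit 4) (.e false (nat_lit 36) (nat_lit 38) (nat_lit 3) (nat_lit 4) (.e true (nat_lit 36) (nat_lit 40) (nat_lit 3) (nat_lit 4) (.e true (nat_lit 36) (nat_lit 58) (nat_lit 0) (nat_lit 6) (.e false (nat_lit 36) (nat_lit 62) (nat_lit 0) (nat_lit 6) (.e false (nat_lit 36) (nat_lit 59) (nat_lit 0) (nat_lit 6) (.e true (nat_lit 36) (nat_lit 60) (nat_lit 0) (nat_lit 6) (.e false (nat_lit 36) (nat_lit 61) (nat_lit 0) (nat_lit 6)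 (.e true (nat_lit 36) (nat_lit 63) (nat_lit 0) (nat_lit 6) (.e true (nat_lit 36) (nat_lit 57) (nat_lit 1) (nat_lit 5) .nil))))))))))))) .leaf) (nat_lit 26629) (nat_lit 170) (.p (nat_lit 115) (nat_lit 36) (.n (nat_lit 116) (nat_lit 72) (.n (nat_lit 117) (nat_lit 36) (.n (nat_lit 119) (nat_lit 36) (.n (nat_lit 120) (nat_lit 36) (.p (nat_lit 121) (nat_lit 36) (.n (nat_lit 122) (nat_lit 36) (.p (nat_lit 123) (nat_lit 36) (.p (nat_lit 124) (nat_lit 36) (.n (nat_lit 125) (nat_lit 36) .z)))))))))) (.ct dW4x_c8210 (nat_lit 36) (nat_lit 3) (.s true (nat_lit 1) (nat_lit 5) (nat_lit 3) (nat_lit 0) (nat_lit 3) true (nat_lit 0) true (nat_lit 4) true (nat_lit 3) true (nat_lit 4) true (nat_lit 6) (.s false (nat_lit 1) (nat_lit 10) (nat_lit 0) (nat_lit 2) (nat_lit 0) false (nat_lit 7) true (nat_lit 6) true (nat_lit 0) true (nat_lit 6) true (nat_lit 5) (.e true (nat_lit 72) (nat_lit 43) (nat_lit 3) (nat_lit 4) (.e false (nat_lit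 36) (nat_lit 42) (nat_lit 3) (nat_lit 4) (.e true (nat_lit 36) (nat_lit 44) (nat_lit 3) (nat_lit 4) (.e true (nat_lit 36) (nat_lit 64) (nat_lit 0) (nat_lit 6) (.e false (nat_lit 36) (nat_lit 68) (nat_lit 0) (nat_lit 6) (.e false (nat_lit 36) (nat_lit 65) (nat_lit 0) (nat_lit 6) (.e true (nat_lit 36) (nat_lit 66) (nat_lit 0) (nat_lit 6) (.e false (nat_lit 36) (nat_lit 67) (nat_lit 0) (nat_lit 6) (.e true (nat_lit 36) (nat_lit 69) (nat_lit 0) (nat_lit 6) (.e true (nat_lit 36) (nat_lit 57) (nat_lit 2) (nat_lit 5) .nil))))))))))))) .leaf) (nat_lit 26630) (nat_lit 203) (.p (nat_lit 150) (nat_lit 36) .z) .df (.nd .leaf (nat_lit 26631) (nat_lit 233) (.p (nat_lit 151) (nat_lit 36) (.n (nat_lit 153) (nat_lit 36) (.n (nat_lit 155) (nat_lit 36) .z))) (.ct dW4x_c8195 (nat_lit 36) (nat_lit 1) (.s true (nat_lit 1) (nat_lit 7) (nat_lit 3) (nat_lit 0) (nat_lit 3) true (nat_lit 0) true (nat_lit 2) true (nat_lit 1) true (nat_lit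 2) true (nat_lit 3) (.e false (nat_lit 36) (nat_lit 16) (nat_lit 10) (nat_lit 0) (.e true (nat_lit 72) (nat_lit 56) (nat_lit 3) (nat_lit 2) (.e true (nat_lit 36) (nat_lit 55) (nat_lit 3) (nat_lit 2) (.e false (nat_lit 36) (nat_lit 57) (nat_lit 3) (nat_lit 2) (.e true (nat_lit 36) (nat_lit 76) (nat_lit 0) (nat_lit 3) .nil))))))) .leaf)) (nat_lit 26632) (nat_lit 244) (.p (nat_lit 166) (nat_lit 36) .z) .df (.nd (.nd (.nd .leaf (nat_lit 26633) (nat_lit 264) (.p (nat_lit 177) (nat_lit 36) .z) .df .leaf) (nat_lit 26637) (nat_lit 404) (.n (nat_lit 189) (nat_lit 48) (.n (nat_lit 190) (nat_lit 12) (.p (nat_lit 191) (nat_lit 36) (.n (nat_lit 192) (nat_lit 24) (.p (nat_lit 193) (nat_lit 24) (.p (nat_lit 195) (nat_lit 12) (.n (nat_lit 196) (nat_lit 12) (.p (nat_lit 197) (nat_lit 12) (.n (nat_lit 199) (nat_lit 36) (.p (nat_lit 200) (nat_lit 12) (.n (nat_lit 201) (nat_lit 12) (.p (nat_lit 202) (nat_lit 24) (.p (nat_lit 203)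 (nat_lit 12) (.n (nat_lit 204) (nat_lit 48) (.p (nat_lit 205) (nat_lit 24) (.n (nat_lit 209) (nat_lit 24) (.p (nat_lit 210) (nat_lit 12) (.n (nat_lit 214) (nat_lit 12) (.p (nat_lit 216) (nat_lit 12) (.n (nat_lit 217) (nat_lit 12) (.n (nat_lit 218) (nat_lit 12) (.p (nat_lit 219) (nat_lit 12) (.n (nat_lit 220) (nat_lit 24) (.n (nat_lit 221) (nat_lit 4) (.p (nat_lit 222) (nat_lit 52) (.p (nat_lit 223) (nat_lit 12) (.n (nat_lit 224) (nat_lit 20) (.p (nat_lit 225) (nat_lit 8) (.p (nat_lit 226) (nat_lit 12) (.p (nat_lit 227) (nat_lit 12) (.p (nat_lit 228) (nat_lit 20) (.n (nat_lit 229) (nat_lit 8) (.p (nat_lit 230) (nat_lit 28) (.n (nat_lit 231) (nat_lit 40) (.p (nat_lit 232) (nat_lit 8) (.p (nat_lit 233) (nat_lit 20) (.n (nat_lit 234) (nat_lit 8) (.n (nat_lit 235) (nat_lit 8) (.n (nat_lit 236) (nat_lit 8) (.n (nat_lit 237) (nat_lit 16) (.n (nat_lit 238) (nat_lit 4) (.n (nat_lit 239) (nat_lit 24) (.n (nat_lit 240)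 (nat_lit 24) .z))))))))))))))))))))))))))))))))))))))))))) (.ct dW4x_c8466 (nat_lit 36) (nat_lit 2) (.s true (nat_lit 1) (nat_lit 7) (nat_lit 2) (nat_lit 3) (nat_lit 4) true (nat_lit 2) true (nat_lit 11) true (nat_lit 8) true (nat_lit 13) true (nat_lit 12) (.e true (nat_lit 36) (nat_lit 65) (nat_lit 4) (nat_lit 11) (.e true (nat_lit 36) (nat_lit 46) (nat_lit 7) (nat_lit 8) (.e true (nat_lit 36) (nat_lit 50) (nat_lit 7) (nat_lit 8) (.e false (nat_lit 36) (nat_lit 52) (nat_lit 7) (nat_lit 8) (.e false (nat_lit 36) (nat_lit 54) (nat_lit 7) (nat_lit 8) (.e false (nat_lit 36) (nat_lit 105) (nat_lit 2) (nat_lit 13) (.e true (nat_lit 36) (nat_lit 110) (nat_lit 2) (nat_lit 13) (.e false (nat_lit 36) (nat_lit 111) (nat_lit 2) (nat_lit 13) (.e true (nat_lit 36) (nat_lit 89) (nat_lit 3) (nat_lit 12) (.e false (nat_lit 36) (nat_lit 90) (nat_lit 3) (nat_lit 12) (.e false (nat_lit 36) (nat_lit 91) (nat_lit 3) (nat_lit 12)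 .nil))))))))))))) .leaf) (nat_lit 26638) (nat_lit 402) (.n (nat_lit 189) (nat_lit 168) (.p (nat_lit 190) (nat_lit 48) (.p (nat_lit 191) (nat_lit 60) (.n (nat_lit 192) (nat_lit 24) (.p (nat_lit 193) (nat_lit 192) (.n (nat_lit 194) (nat_lit 24) (.n (nat_lit 195) (nat_lit 36) (.n (nat_lit 196) (nat_lit 132) (.n (nat_lit 197) (nat_lit 36) (.n (nat_lit 198) (nat_lit 168) (.n (nat_lit 199) (nat_lit 180) (.p (nat_lit 200) (nat_lit 48) (.n (nat_lit 201) (nat_lit 48) (.p (nat_lit 202) (nat_lit 108) (.p (nat_lit 203) (nat_lit 108) (.n (nat_lit 204) (nat_lit 180) (.p (nat_lit 205) (nat_lit 168) (.n (nat_lit 206) (nat_lit 48) (.n (nat_lit 207) (nat_lit 132) (.p (nat_lit 208) (nat_lit 120) (.n (nat_lit 209) (nat_lit 60) (.p (nat_lit 210) (nat_lit 24) (.p (nat_lit 211) (nat_lit 132) (.n (nat_lit 221) (nat_lit 96) (.p (nat_lit 222) (nat_lit 132) (.p (nat_lit 223) (nat_lit 108) (.p (nat_lit 224) (nat_lit 24) (.n (nat_lit 225)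 (nat_lit 96) (.n (nat_lit 228) (nat_lit 24) (.p (nat_lit 229) (nat_lit 96) (.p (nat_lit 230) (nat_lit 60) (.n (nat_lit 231) (nat_lit 24) (.p (nat_lit 232) (nat_lit 84) (.p (nat_lit 233) (nat_lit 48) (.p (nat_lit 234) (nat_lit 24) (.n (nat_lit 235) (nat_lit 48) (.n (nat_lit 236) (nat_lit 48) (.n (nat_lit 237) (nat_lit 24) (.p (nat_lit 238) (nat_lit 48) (.p (nat_lit 239) (nat_lit 36) .z)))))))))))))))))))))))))))))))))))))))) (.ct dW4x_c8466 (nat_lit 36) (nat_lit 2) (.s true (nat_lit 1) (nat_lit 26) (nat_lit 0) (nat_lit 2) (nat_lit 1) true (nat_lit 11) true (nat_lit 14) false (nat_lit 2) true (nat_lit 15) true (nat_lit 13) (.e true (nat_lit 36) (nat_lit 67) (nat_lit 4) (nat_lit 11) (.e true (nat_lit 72) (nat_lit 115) (nat_lit 1) (nat_lit 14) (.e false (nat_lit 72) (nat_lit 116) (nat_lit 1) (nat_lit 14) (.e false (nat_lit 36) (nat_lit 118) (nat_lit 1) (nat_lit 14) (.e false (nat_lit 72) (nat_lit 120) (nat_lit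 1) (nat_lit 14) (.e false (nat_lit 36) (nat_lit 121) (nat_lit 1) (nat_lit 14) (.e false (nat_lit 36) (nat_lit 122) (nat_lit 1) (nat_lit 14) (.e true (nat_lit 36) (nat_lit 123) (nat_lit 1) (nat_lit 14) (.e true (nat_lit 72) (nat_lit 124) (nat_lit 1) (nat_lit 14) (.e false (nat_lit 108) (nat_lit 125) (nat_lit 1) (nat_lit 14) (.e false (nat_lit 36) (nat_lit 150) (nat_lit 0) (nat_lit 15) (.e false (nat_lit 36) (nat_lit 112) (nat_lit 2) (nat_lit 13) .nil)))))))))))))) (.nd .leaf (nat_lit 26639) (nat_lit 401) (.n (nat_lit 209) (nat_lit 36) (.n (nat_lit 211) (nat_lit 36) (.p (nat_lit 223) (nat_lit 36) .z))) (.ct dW4x_c8466 (nat_lit 36) (nat_lit 2) (.s false (nat_lit 1) (nat_lit 15) (nat_lit 0) (nat_lit 3) (nat_lit 3) true (nat_lit 8) true (nat_lit 12) true (nat_lit 2) true (nat_lit 15) true (nat_lit 12) (.e false (nat_lit 36) (nat_lit 47) (nat_lit 7) (nat_lit 8) (.e false (nat_lit 36) (nat_lit 88) (nat_lit 3) (nat_lit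 12) (.e false (nat_lit 36) (nat_lit 128) (nat_lit 0) (nat_lit 15) (.e false (nat_lit 36) (nat_lit 129) (nat_lit 0) (nat_lit 15) (.e false (nat_lit 36) (nat_lit 130) (nat_lit 0) (nat_lit 15) (.e false (nat_lit 36) (nat_lit 131) (nat_lit 0) (nat_lit 15) (.e true (nat_lit 36) (nat_lit 132) (nat_lit 0) (nat_lit 15) (.e true (nat_lit 36) (nat_lit 133) (nat_lit 0) (nat_lit 15) (.e true (nat_lit 36) (nat_lit 134) (nat_lit 0) (nat_lit 15) (.e true (nat_lit 72) (nat_lit 135) (nat_lit 0) (nat_lit 15) (.e true (nat_lit 36) (nat_lit 147) (nat_lit 0) (nat_lit 15) (.e true (nat_lit 36) (nat_lit 150) (nat_lit 0) (nat_lit 15) (.e false (nat_lit 36) (nat_lit 97) (nat_lit 3) (nat_lit 12) .nil))))))))))))))) .leaf))) (nat_lit 26641) (nat_lit 460) (.p (nat_lit 241) (nat_lit 108) (.n (nat_lit 243) (nat_lit 72) (.n (nat_lit 244) (nat_lit 198) (.n (nat_lit 245) (nat_lit 54) (.p (nat_lit 246) (nat_lit 54) (.p (nat_lit 247) (nat_lit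 144) (.p (nat_lit 248) (nat_lit 72) (.n (nat_lit 249) (nat_lit 252) (.n (nat_lit 250) (nat_lit 36) (.p (nat_lit 251) (nat_lit 36) (.p (nat_lit 252) (nat_lit 54) (.p (nat_lit 253) (nat_lit 72) (.n (nat_lit 254) (nat_lit 90) (.n (nat_lit 255) (nat_lit 18) (.n (nat_lit 256) (nat_lit 90) (.p (nat_lit 257) (nat_lit 108) (.p (nat_lit 258) (nat_lit 18) (.n (nat_lit 259) (nat_lit 108) (.n (nat_lit 260) (nat_lit 36) (.n (nat_lit 261) (nat_lit 72) .z)))))))))))))))))))) (.ct dW4x_c8451 (nat_lit 36) (nat_lit 0) (.s false (nat_lit 1) (nat_lit 17) (nat_lit 0) (nat_lit 3) (nat_lit 3) true (nat_lit 5) true (nat_lit 7) true (nat_lit 0) true (nat_lit 9) true (nat_lit 7) (.e false (nat_lit 36) (nat_lit 58) (nat_lit 7) (nat_lit 5) (.e false (nat_lit 36) (nat_lit 105) (nat_lit 3) (nat_lit 7) (.e true (nat_lit 36) (nat_lit 165) (nat_lit 0) (nat_lit 9) (.e false (nat_lit 36) (nat_lit 109) (nat_lit 3) (nat_lit 7) .nil)))))) (.nd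 (.nd (.nd (.nd .leaf (nat_lit 26642) (nat_lit 448) (.n (nat_lit 241) (nat_lit 612) (.p (nat_lit 242) (nat_lit 72) (.p (nat_lit 243) (nat_lit 270) (.p (nat_lit 244) (nat_lit 972) (.p (nat_lit 245) (nat_lit 432) (.n (nat_lit 246) (nat_lit 288) (.n (nat_lit 247) (nat_lit 540) (.n (nat_lit 248) (nat_lit 414) (.p (nat_lit 249) (nat_lit 1260) (.p (nat_lit 250) (nat_lit 252) (.n (nat_lit 251) (nat_lit 126) (.n (nat_lit 252) (nat_lit 306) (.n (nat_lit 253) (nat_lit 432) (.p (nat_lit 254) (nat_lit 288) (.p (nat_lit 255) (nat_lit 36) (.p (nat_lit 256) (nat_lit 432) (.n (nat_lit 257) (nat_lit 432) (.n (nat_lit 258) (nat_lit 90) (.p (nat_lit 259) (nat_lit 468) (.p (nat_lit 260) (nat_lit 126) (.p (nat_lit 261) (nat_lit 360) .z))))))))))))))))))))) (.ct dW4x_c8451 (nat_lit 36) (nat_lit 0) (.s true (nat_lit 1) (nat_lit 7) (nat_lit 3) (nat_lit 1) (nat_lit 7) false (nat_lit 0) true (nat_lit 5) true (nat_lit 5) true (nat_lit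 7) true (nat_lit 8) (.e true (nat_lit 36) (nat_lit 61) (nat_lit 7) (nat_lit 5) (.e false (nat_lit 36) (nat_lit 58) (nat_lit 7) (nat_lit 5) (.e false (nat_lit 36) (nat_lit 59) (nat_lit 7) (nat_lit 5) (.e true (nat_lit 36) (nat_lit 62) (nat_lit 7) (nat_lit 5) (.e false (nat_lit 36) (nat_lit 63) (nat_lit 7) (nat_lit 5) (.e false (nat_lit 36) (nat_lit 104) (nat_lit 3) (nat_lit 7) (.e true (nat_lit 36) (nat_lit 105) (nat_lit 3) (nat_lit 7) (.e true (nat_lit 36) (nat_lit 107) (nat_lit 3) (nat_lit 7) (.e true (nat_lit 36) (nat_lit 109) (nat_lit 3) (nat_lit 7) (.e true (nat_lit 36) (nat_lit 110) (nat_lit 3) (nat_lit 7) (.e false (nat_lit 36) (nat_lit 112) (nat_lit 3) (nat_lit 7) (.e false (nat_lit 36) (nat_lit 113) (nat_lit 3) (nat_lit 7) (.e true (nat_lit 72) (nat_lit 114) (nat_lit 3) (nat_lit 7) (.e false (nat_lit 36) (nat_lit 154) (nat_lit 1) (nat_lit 8) (.e false (nat_lit 36) (nat_lit 155) (nat_lit 1) (nat_lit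 8) (.e true (nat_lit 36) (nat_lit 152) (nat_lit 1) (nat_lit 8) .nil)))))))))))))))))) .leaf) (nat_lit 26643) (nat_lit 456) (.n (nat_lit 241) (nat_lit 576) (.p (nat_lit 242) (nat_lit 180) (.p (nat_lit 243) (nat_lit 216) (.p (nat_lit 244) (nat_lit 1152) (.p (nat_lit 245) (nat_lit 612) (.n (nat_lit 246) (nat_lit 252) (.n (nat_lit 247) (nat_lit 612) (.n (nat_lit 248) (nat_lit 576) (.p (nat_lit 249) (nat_lit 1404) (.p (nat_lit 250) (nat_lit 252) (.n (nat_lit 252) (nat_lit 432) (.n (nat_lit 253) (nat_lit 612) (.p (nat_lit 254) (nat_lit 144) (.n (nat_lit 255) (nat_lit 180) (.p (nat_lit 256) (nat_lit 396) (.n (nat_lit 257) (nat_lit 468) (.p (nat_lit 258) (nat_lit 108) (.p (nat_lit 259) (nat_lit 324) (.p (nat_lit 260) (nat_lit 144) (.p (nat_lit 261) (nat_lit 324) .z)))))))))))))))))))) (.ct dW4x_c8451 (nat_lit 36) (nat_lit 0) (.s true (nat_lit 1) (nat_lit 19) (nat_lit 3) (nat_lit 0) (nat_lit 3) true (nat_lit 3) true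 (nat_lit 7) true (nat_lit 0) true (nat_lit 7) true (nat_lit 9) (.e false (nat_lit 36) (nat_lit 40) (nat_lit 10) (nat_lit 3) (.e true (nat_lit 36) (nat_lit 111) (nat_lit 3) (nat_lit 7) (.e true (nat_lit 36) (nat_lit 106) (nat_lit 3) (nat_lit 7) (.e false (nat_lit 36) (nat_lit 109) (nat_lit 3) (nat_lit 7) (.e false (nat_lit 36) (nat_lit 110) (nat_lit 3) (nat_lit 7) (.e true (nat_lit 36) (nat_lit 113) (nat_lit 3) (nat_lit 7) (.e false (nat_lit 72) (nat_lit 114) (nat_lit 3) (nat_lit 7) (.e true (nat_lit 36) (nat_lit 158) (nat_lit 0) (nat_lit 9) .nil)))))))))) .leaf) (nat_lit 26644) (nat_lit 509) (.p (nat_lit 262) (nat_lit 108) (.n (nat_lit 264) (nat_lit 72) (.n (nat_lit 265) (nat_lit 198) (.n (nat_lit 266) (nat_lit 54) (.p (nat_lit 267) (nat_lit 54) (.p (nat_lit 268) (nat_lit 144) (.p (nat_lit 269) (nat_lit 72) (.n (nat_lit 270) (nat_lit 252) (.n (nat_lit 271) (nat_lit 36) (.p (nat_lit 272) (nat_lit 36) (.p (nat_lit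 273) (nat_lit 54) (.p (nat_lit 274) (nat_lit 72) (.n (nat_lit 275) (nat_lit 90) (.n (nat_lit 276) (nat_lit 18) (.n (nat_lit 277) (nat_lit 90) (.p (nat_lit 278) (nat_lit 108) (.p (nat_lit 279) (nat_lit 18) (.n (nat_lit 280) (nat_lit 108) (.n (nat_lit 281) (nat_lit 36) (.n (nat_lit 282) (nat_lit 72) .z)))))))))))))))))))) (.ct dW4x_c8211 (nat_lit 36) (nat_lit 0) (.s false (nat_lit 1) (nat_lit 20) (nat_lit 0) (nat_lit 3) (nat_lit 3) true (nat_lit 5) true (nat_lit 7) true (nat_lit 0) true (nat_lit 9) true (nat_lit 7) (.e false (nat_lit 36) (nat_lit 64) (nat_lit 7) (nat_lit 5) (.e false (nat_lit 36) (nat_lit 116) (nat_lit 3) (nat_lit 7) (.e true (nat_lit 36) (nat_lit 176) (nat_lit 0) (nat_lit 9) (.e false (nat_lit 36) (nat_lit 120) (nat_lit 3) (nat_lit 7) .nil)))))) (.nd .leaf (nat_lit 26645) (nat_lit 497) (.n (nat_lit 262) (nat_lit 612) (.p (nat_lit 263) (nat_lit 72) (.p (nat_lit 264) (nat_lit 270) (.p (nat_lit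 265) (nat_lit 972) (.p (nat_lit 266) (nat_lit 432) (.n (nat_lit 267) (nat_lit 288) (.n (nat_lit 268) (nat_lit 540) (.n (nat_lit 269) (nat_lit 414) (.p (nat_lit 270) (nat_lit 1260) (.p (nat_lit 271) (nat_lit 252) (.n (nat_lit 272) (nat_lit 126) (.n (nat_lit 273) (nat_lit 306) (.n (nat_lit 274) (nat_lit 432) (.p (nat_lit 275) (nat_lit 288) (.p (nat_lit 276) (nat_lit 36) (.p (nat_lit 277) (nat_lit 432) (.n (nat_lit 278) (nat_lit 432) (.n (nat_lit 279) (nat_lit 90) (.p (nat_lit 280) (nat_lit 468) (.p (nat_lit 281) (nat_lit 126) (.p (nat_lit 282) (nat_lit 360) .z))))))))))))))))))))) (.ct dW4x_c8211 (nat_lit 36) (nat_lit 0) (.s true (nat_lit 1) (nat_lit 7) (nat_lit 3) (nat_lit 2) (nat_lit 7) false (nat_lit 0) true (nat_lit 5) true (nat_lit 5) true (nat_lit 7) true (nat_lit 8) (.e true (nat_lit 36) (nat_lit 67) (nat_lit 7) (nat_lit 5) (.e false (nat_lit 36) (nat_lit 64) (nat_lit 7) (nat_lit 5) (.e false (nat_lit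 36) (nat_lit 65) (nat_lit 7) (nat_lit 5) (.e true (nat_lit 36) (nat_lit 68) (nat_lit 7) (nat_lit 5) (.e false (nat_lit 36) (nat_lit 69) (nat_lit 7) (nat_lit 5) (.e false (nat_lit 36) (nat_lit 115) (nat_lit 3) (nat_lit 7) (.e true (nat_lit 36) (nat_lit 116) (nat_lit 3) (nat_lit 7) (.e true (nat_lit 36) (nat_lit 118) (nat_lit 3) (nat_lit 7) (.e true (nat_lit 36) (nat_lit 120) (nat_lit 3) (nat_lit 7) (.e true (nat_lit 36) (nat_lit 121) (nat_lit 3) (nat_lit 7) (.e false (nat_lit 36) (nat_lit 123) (nat_lit 3) (nat_lit 7) (.e false (nat_lit 36) (nat_lit 124) (nat_lit 3) (nat_lit 7) (.e true (nat_lit 72) (nat_lit 125) (nat_lit 3) (nat_lit 7) (.e false (nat_lit 36) (nat_lit 154) (nat_lit 2) (nat_lit 8) (.e false (nat_lit 36) (nat_lit 155) (nat_lit 2) (nat_lit 8) (.e true (nat_lit 36) (nat_lit 152) (nat_lit 2) (nat_lit 8) .nil)))))))))))))))))) .leaf)) (nat_lit 26647) (nat_lit 620) (.n (nat_lit 283) (nat_lit 80) (.n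 (nat_lit 284) (nat_lit 56) (.n (nat_lit 285) (nat_lit 16) (.n (nat_lit 286) (nat_lit 56) (.p (nat_lit 287) (nat_lit 76) (.n (nat_lit 288) (nat_lit 92) (.p (nat_lit 289) (nat_lit 60) (.n (nat_lit 290) (nat_lit 8) (.p (nat_lit 291) (nat_lit 24) (.n (nat_lit 292) (nat_lit 8) (.n (nat_lit 293) (nat_lit 120) (.p (nat_lit 294) (nat_lit 16) (.n (nat_lit 295) (nat_lit 16) (.p (nat_lit 296) (nat_lit 48) (.p (nat_lit 297) (nat_lit 72) (.n (nat_lit 298) (nat_lit 96) (.p (nat_lit 299) (nat_lit 128) (.p (nat_lit 301) (nat_lit 20) (.n (nat_lit 302) (nat_lit 104) (.p (nat_lit 303) (nat_lit 28) (.n (nat_lit 304) (nat_lit 44) (.p (nat_lit 305) (nat_lit 32) (.p (nat_lit 306) (nat_lit 176) (.p (nat_lit 307) (nat_lit 36) (.p (nat_lit 308) (nat_lit 72) (.n (nat_lit 309) (nat_lit 36) (.p (nat_lit 311) (nat_lit 12) (.p (nat_lit 312) (nat_lit 24) (.n (nat_lit 313) (nat_lit 24) (.n (nat_lit 314) (nat_lit 36) (.n (nat_lit 315) (nat_lit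 12) (.n (nat_lit 316) (nat_lit 24) (.n (nat_lit 317) (nat_lit 36) (.n (nat_lit 318) (nat_lit 36) (.p (nat_lit 319) (nat_lit 24) (.n (nat_lit 320) (nat_lit 36) (.n (nat_lit 321) (nat_lit 24) (.n (nat_lit 322) (nat_lit 12) (.p (nat_lit 323) (nat_lit 24) (.p (nat_lit 324) (nat_lit 24) (.p (nat_lit 325) (nat_lit 36) (.p (nat_lit 326) (nat_lit 36) (.n (nat_lit 327) (nat_lit 60) (.n (nat_lit 328) (nat_lit 48) (.p (nat_lit 329) (nat_lit 48) .z))))))))))))))))))))))))))))))))))))))))))))) (.ct dW4x_c4371 (nat_lit 36) (nat_lit 0) (.s false (nat_lit 1) (nat_lit 23) (nat_lit 0) (nat_lit 3) (nat_lit 3) true (nat_lit 7) true (nat_lit 11) true (nat_lit 0) true (nat_lit 14) true (nat_lit 11) (.e false (nat_lit 36) (nat_lit 70) (nat_lit 7) (nat_lit 7) (.e false (nat_lit 36) (nat_lit 135) (nat_lit 3) (nat_lit 11) (.e true (nat_lit 36) (nat_lit 187) (nat_lit 0) (nat_lit 14) (.e false (nat_lit 36) (nat_lit 147) (nat_lit 3) (nat_lit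 11) .nil)))))) (.nd (.nd .leaf (nat_lit 26648) (nat_lit 604) (.p (nat_lit 283) (nat_lit 28) (.n (nat_lit 284) (nat_lit 164) (.p (nat_lit 285) (nat_lit 56) (.p (nat_lit 286) (nat_lit 88) (.n (nat_lit 287) (nat_lit 104) (.p (nat_lit 288) (nat_lit 16) (.n (nat_lit 289) (nat_lit 12) (.p (nat_lit 290) (nat_lit 172) (.n (nat_lit 291) (nat_lit 84) (.p (nat_lit 292) (nat_lit 64) (.p (nat_lit 293) (nat_lit 204) (.p (nat_lit 294) (nat_lit 16) (.p (nat_lit 295) (nat_lit 128) (.n (nat_lit 296) (nat_lit 96) (.n (nat_lit 297) (nat_lit 252) (.p (nat_lit 298) (nat_lit 264) (.n (nat_lit 299) (nat_lit 268) (.p (nat_lit 301) (nat_lit 200) (.p (nat_lit 302) (nat_lit 256) (.n (nat_lit 303) (nat_lit 332) (.n (nat_lit 304) (nat_lit 44) (.n (nat_lit 305) (nat_lit 4) (.n (nat_lit 306) (nat_lit 364) (.n (nat_lit 307) (nat_lit 108) (.n (nat_lit 309) (nat_lit 72) (.p (nat_lit 310) (nat_lit 144) (.n (nat_lit 311) (nat_lit 168) (.n (nat_lit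 312) (nat_lit 48) (.n (nat_lit 313) (nat_lit 96) (.n (nat_lit 314) (nat_lit 72) (.n (nat_lit 315) (nat_lit 12) (.p (nat_lit 316) (nat_lit 84) (.n (nat_lit 317) (nat_lit 36) (.n (nat_lit 318) (nat_lit 72) (.n (nat_lit 319) (nat_lit 120) (.n (nat_lit 320) (nat_lit 36) (.p (nat_lit 321) (nat_lit 48) (.p (nat_lit 322) (nat_lit 24) (.n (nat_lit 323) (nat_lit 48) (.p (nat_lit 324) (nat_lit 24) (.p (nat_lit 325) (nat_lit 72) (.p (nat_lit 326) (nat_lit 72) (.n (nat_lit 327) (nat_lit 132) (.p (nat_lit 328) (nat_lit 24) (.p (nat_lit 329) (nat_lit 120) .z))))))))))))))))))))))))))))))))))))))))))))) (.ct dW4x_c4371 (nat_lit 36) (nat_lit 0) (.s false (nat_lit 1) (nat_lit 26) (nat_lit 3) (nat_lit 1) (nat_lit 2) true (nat_lit 5) true (nat_lit 12) false (nat_lit 0) true (nat_lit 11) true (nat_lit 13) (.e true (nat_lit 36) (nat_lit 61) (nat_lit 9) (nat_lit 5) (.e false (nat_lit 36) (nat_lit 156) (nat_lit 2) (nat_lit 12) (.e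 false (nat_lit 36) (nat_lit 157) (nat_lit 2) (nat_lit 12) (.e true (nat_lit 36) (nat_lit 158) (nat_lit 2) (nat_lit 12) (.e true (nat_lit 36) (nat_lit 159) (nat_lit 2) (nat_lit 12) (.e false (nat_lit 36) (nat_lit 162) (nat_lit 2) (nat_lit 12) (.e true (nat_lit 36) (nat_lit 165) (nat_lit 2) (nat_lit 12) (.e true (nat_lit 36) (nat_lit 166) (nat_lit 2) (nat_lit 12) (.e false (nat_lit 36) (nat_lit 150) (nat_lit 3) (nat_lit 11) (.e true (nat_lit 36) (nat_lit 170) (nat_lit 1) (nat_lit 13) .nil)))))))))))) .leaf) (nat_lit 26649) (nat_lit 613) (.n (nat_lit 283) (nat_lit 68) (.p (nat_lit 284) (nat_lit 28) (.n (nat_lit 285) (nat_lit 64) (.n (nat_lit 286) (nat_lit 80) (.p (nat_lit 287) (nat_lit 88) (.n (nat_lit 288) (nat_lit 80) (.p (nat_lit 289) (nat_lit 60) (.n (nat_lit 290) (nat_lit 68) (.p (nat_lit 291) (nat_lit 60) (.n (nat_lit 292) (nat_lit 32) (.n (nat_lit 293) (nat_lit 192) (.n (nat_lit 294) (nat_lit 8) (.n (nat_lit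 295) (nat_lit 64) (.p (nat_lit 296) (nat_lit 120) (.p (nat_lit 297) (nat_lit 180) (.n (nat_lit 298) (nat_lit 204) (.p (nat_lit 299) (nat_lit 224) (.n (nat_lit 301) (nat_lit 64) (.n (nat_lit 302) (nat_lit 200) (.p (nat_lit 303) (nat_lit 184) (.p (nat_lit 304) (nat_lit 4) (.p (nat_lit 305) (nat_lit 20) (.p (nat_lit 306) (nat_lit 308) (.p (nat_lit 307) (nat_lit 72) (.p (nat_lit 308) (nat_lit 72) (.n (nat_lit 310) (nat_lit 72) (.p (nat_lit 311) (nat_lit 84) (.p (nat_lit 312) (nat_lit 24) (.p (nat_lit 313) (nat_lit 12) (.n (nat_lit 315) (nat_lit 12) (.n (nat_lit 316) (nat_lit 24) (.p (nat_lit 319) (nat_lit 24) (.n (nat_lit 321) (nat_lit 24) (.n (nat_lit 322) (nat_lit 12) (.p (nat_lit 323) (nat_lit 60) (.p (nat_lit 324) (nat_lit 24) (.p (nat_lit 327) (nat_lit 12) (.n (nat_lit 328) (nat_lit 48) (.n (nat_lit 329) (nat_lit 24) .z))))))))))))))))))))))))))))))))))))))) (.ct dW4x_c4371 (nat_lit 36) (nat_lit 0) (.s true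 (nat_lit 1) (nat_lit 26) (nat_lit 1) (nat_lit 3) (nat_lit 2) true (nat_lit 8) true (nat_lit 12) false (nat_lit 0) true (nat_lit 13) true (nat_lit 11) (.s true (nat_lit 1) (nat_lit 26) (nat_lit 2) (nat_lit 3) (nat_lit 1) true (nat_lit 8) true (nat_lit 13) false (nat_lit 0) true (nat_lit 12) true (nat_lit 11) (.e true (nat_lit 36) (nat_lit 159) (nat_lit 2) (nat_lit 12) (.e true (nat_lit 36) (nat_lit 26) (nat_lit 24) (nat_lit 0) (.e false (nat_lit 36) (nat_lit 177) (nat_lit 1) (nat_lit 13) (.e false (nat_lit 36) (nat_lit 144) (nat_lit 3) (nat_lit 11) (.e true (nat_lit 36) (nat_lit 170) (nat_lit 1) (nat_lit 13) (.e false (nat_lit 36) (nat_lit 166) (nat_lit 2) (nat_lit 12) (.e false (nat_lit 36) (nat_lit 139) (nat_lit 3) (nat_lit 11) .nil)))))))))) (.nd .leaf (nat_lit 27648) (nat_lit 64) (.p (nat_lit 57) (nat_lit 36) .z) .df .leaf))))))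

noncomputable def dW4x_t2 : Tr := (.nd dW4x_t0 (nat_lit 17418) (nat_lit 243) (.p (nat_lit 165) (nat_lit 36) .z) .df dW4x_t1)

noncomputable def dW4x_t3 : Tr := (.nd (.nd (.nd (.nd (.nd (.nd (.nd .leaf (nat_lit 27650) (nat_lit 79) (.p (nat_lit 68) (nat_lit 36) .z) .df .leaf) (nat_lit 27651) (nat_lit 94) (.p (nat_lit 77) (nat_lit 36) .z) .df .leaf) (nat_lit 27652) (nat_lit 157) (.n (nat_lit 108) (nat_lit 36) (.n (nat_lit 109) (nat_lit 72) (.p (nat_lit 112) (nat_lit 72) (.p (nat_lit 113) (nat_lit 36) (.n (nat_lit 114) (nat_lit 72) .z))))) (.ct dW4x_c8450 (nat_lit 36) (nat_lit 3) (.s true (nat_lit 1) (nat_lit 10) (nat_lit 0) (nat_lit 0) (nat_lit 1) true (nat_lit 3) true (nat_lit 5) true (nat_lit 0) true (nat_lit 6) true (nat_lit 6) (.e true (nat_lit 36) (nat_lit 57) (nat_lit 1) (nat_lit 5) (.e false (nat_lit 72) (nat_lit 61) (nat_lit 0) (nat_lit 6) (.e true (nat_lit 72) (nat_lit 63) (nat_lit 0) (nat_lit 6) (.e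 true (nat_lit 72) (nat_lit 58) (nat_lit 0) (nat_lit 6) (.e false (nat_lit 36) (nat_lit 62) (nat_lit 0) (nat_lit 6) .nil))))))) (.nd .leaf (nat_lit 27653) (nat_lit 177) (.n (nat_lit 119) (nat_lit 36) (.n (nat_lit 120) (nat_lit 72) (.p (nat_lit 123) (nat_lit 72) (.p (nat_lit 124) (nat_lit 36) (.n (nat_lit 125) (nat_lit 72) .z))))) (.ct dW4x_c8210 (nat_lit 36) (nat_lit 3) (.s true (nat_lit 1) (nat_lit 10) (nat_lit 0) (nat_lit 0) (nat_lit 2) true (nat_lit 3) true (nat_lit 5) true (nat_lit 0) true (nat_lit 6) true (nat_lit 6) (.e true (nat_lit 36) (nat_lit 57) (nat_lit 2) (nat_lit 5) (.e false (nat_lit 72) (nat_lit 67) (nat_lit 0) (nat_lit 6) (.e true (nat_lit 72) (nat_lit 69) (nat_lit 0) (nat_lit 6) (.e true (nat_lit 72) (nat_lit 64) (nat_lit 0) (nat_lit 6) (.e false (nat_lit 36) (nat_lit 68) (nat_lit 0) (nat_lit 6) .nil))))))) .leaf)) (nat_lit 27654) (nat_lit 220) (.p (nat_lit 128) (nat_lit 36) (.p (nat_lit 136)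 (nat_lit 36) (.n (nat_lit 139) (nat_lit 36) (.n (nat_lit 140) (nat_lit 36) (.p (nat_lit 141) (nat_lit 36) (.n (nat_lit 142) (nat_lit 36) (.p (nat_lit 144) (nat_lit 36) (.p (nat_lit 145) (nat_lit 36) (.n (nat_lit 146) (nat_lit 36) (.n (nat_lit 147) (nat_lit 36) (.n (nat_lit 150) (nat_lit 36) .z))))))))))) (.ct dW4x_c4370 (nat_lit 36) (nat_lit 4) (.s true (nat_lit 1) (nat_lit 6) (nat_lit 3) (nat_lit 3) (nat_lit 0) true (nat_lit 3) true (nat_lit 10) true (nat_lit 4) true (nat_lit 7) true (nat_lit 7) (.e true (nat_lit 36) (nat_lit 23) (nat_lit 7) (nat_lit 3) (.e true (nat_lit 36) (nat_lit 70) (nat_lit 0) (nat_lit 10) (.e true (nat_lit 36) (nat_lit 48) (nat_lit 3) (nat_lit 7) (.e true (nat_lit 36) (nat_lit 49) (nat_lit 3) (nat_lit 7) (.e true (nat_lit 36) (nat_lit 50) (nat_lit 3) (nat_lit 7) (.e false (nat_lit 36) (nat_lit 51) (nat_lit 3) (nat_lit 7) (.e false (nat_lit 36) (nat_lit 52) (nat_lit 3) (nat_lit 7) (.e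 false (nat_lit 36) (nat_lit 53) (nat_lit 3) (nat_lit 7) (.e false (nat_lit 36) (nat_lit 54) (nat_lit 3) (nat_lit 7) .nil))))))))))) (.nd (.nd (.nd .leaf (nat_lit 27655) (nat_lit 231) (.n (nat_lit 152) (nat_lit 36) (.p (nat_lit 154) (nat_lit 36) (.p (nat_lit 155) (nat_lit 72) .z))) (.ct dW4x_c8195 (nat_lit 36) (nat_lit 1) (.s true (nat_lit 1) (nat_lit 10) (nat_lit 0) (nat_lit 0) (nat_lit 3) true (nat_lit 1) true (nat_lit 2) true (nat_lit 0) true (nat_lit 3) true (nat_lit 3) (.e true (nat_lit 36) (nat_lit 57) (nat_lit 3) (nat_lit 2) (.e false (nat_lit 36) (nat_lit 77) (nat_lit 0) (nat_lit 3) (.e false (nat_lit 72) (nat_lit 78) (nat_lit 0) (nat_lit 3) .nil))))) .leaf) (nat_lit 27656) (nat_lit 249) (.p (nat_lit 156) (nat_lit 72) (.p (nat_lit 157) (nat_lit 72) (.n (nat_lit 160) (nat_lit 36) (.p (nat_lit 161) (nat_lit 72) (.n (nat_lit 164) (nat_lit 36) (.n (nat_lit 165) (nat_lit 36) .z)))))) (.ct dW4x_c4355 (nat_lit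 36) (nat_lit 1) (.s false (nat_lit 1) (nat_lit 10) (nat_lit 3) (nat_lit 0) (nat_lit 1) true (nat_lit 1) true (nat_lit 5) true (nat_lit 0) true (nat_lit 4) true (nat_lit 6) (.e false (nat_lit 36) (nat_lit 78) (nat_lit 1) (nat_lit 5) (.e false (nat_lit 36) (nat_lit 18) (nat_lit 10) (nat_lit 0) (.e true (nat_lit 36) (nat_lit 59) (nat_lit 3) (nat_lit 4) (.e false (nat_lit 36) (nat_lit 60) (nat_lit 3) (nat_lit 4) (.e true (nat_lit 36) (nat_lit 61) (nat_lit 3) (nat_lit 4) (.e false (nat_lit 36) (nat_lit 63) (nat_lit 3) (nat_lit 4) (.e true (nat_lit 36) (nat_lit 80) (nat_lit 0) (nat_lit 6) .nil))))))))) .leaf) (nat_lit 27657) (nat_lit 269) (.p (nat_lit 167) (nat_lit 72) (.p (nat_lit 168) (nat_lit 72) (.n (nat_lit 171) (nat_lit 36) (.p (nat_lit 172) (nat_lit 72) (.n (nat_lit 175) (nat_lit 36) (.n (nat_lit 176) (nat_lit 36) .z)))))) (.ct dW4x_c4115 (nat_lit 36) (nat_lit 1) (.s false (nat_lit 1) (nat_lit 10) (nat_lit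 3) (nat_lit 0) (nat_lit 2) true (nat_lit 1) true (nat_lit 5) true (nat_lit 0) true (nat_lit 4) true (nat_lit 6) (.e false (nat_lit 36) (nat_lit 78) (nat_lit 2) (nat_lit 5) (.e false (nat_lit 36) (nat_lit 21) (nat_lit 10) (nat_lit 0) (.e true (nat_lit 36) (nat_lit 65) (nat_lit 3) (nat_lit 4) (.e false (nat_lit 36) (nat_lit 66) (nat_lit 3) (nat_lit 4) (.e true (nat_lit 36) (nat_lit 67) (nat_lit 3) (nat_lit 4) (.e false (nat_lit 36) (nat_lit 69) (nat_lit 3) (nat_lit 4) (.e true (nat_lit 36) (nat_lit 83) (nat_lit 0) (nat_lit 6) .nil))))))))) (.nd .leaf (nat_lit 27661) (nat_lit 407) (.n (nat_lit 189) (nat_lit 36) (.n (nat_lit 190) (nat_lit 36) (.n (nat_lit 191) (nat_lit 24) (.n (nat_lit 192) (nat_lit 24) (.n (nat_lit 194) (nat_lit 48) (.n (nat_lit 195) (nat_lit 12) (.p (nat_lit 196) (nat_lit 36) (.n (nat_lit 197) (nat_lit 12) (.p (nat_lit 198) (nat_lit 24) (.p (nat_lit 200) (nat_lit 12) (.n (nat_lit 201) (nat_lit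 12) (.p (nat_lit 202) (nat_lit 12) (.n (nat_lit 203) (nat_lit 12) (.p (nat_lit 204) (nat_lit 12) (.n (nat_lit 205) (nat_lit 12) (.p (nat_lit 206) (nat_lit 12) (.n (nat_lit 207) (nat_lit 12) (.n (nat_lit 208) (nat_lit 12) (.p (nat_lit 209) (nat_lit 12) (.p (nat_lit 211) (nat_lit 12) (.p (nat_lit 214) (nat_lit 12) (.n (nat_lit 216) (nat_lit 12) (.p (nat_lit 217) (nat_lit 12) (.p (nat_lit 218) (nat_lit 12) (.n (nat_lit 219) (nat_lit 12) (.p (nat_lit 220) (nat_lit 24) (.n (nat_lit 221) (nat_lit 32) (.p (nat_lit 222) (nat_lit 56) (.p (nat_lit 223) (nat_lit 24) (.n (nat_lit 224) (nat_lit 16) (.n (nat_lit 225) (nat_lit 8) (.p (nat_lit 226) (nat_lit 24) (.p (nat_lit 227) (nat_lit 24) (.p (nat_lit 228) (nat_lit 16) (.p (nat_lit 229) (nat_lit 8) (.p (nat_lit 230) (nat_lit 44) (.p (nat_lit 231) (nat_lit 4) (.p (nat_lit 232) (nat_lit 28) (.p (nat_lit 233) (nat_lit 16) (.p (nat_lit 234) (nat_lit 8) (.p (nat_lit 235) (nat_lit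 8) (.n (nat_lit 236) (nat_lit 28) (.n (nat_lit 237) (nat_lit 20) (.p (nat_lit 238) (nat_lit 4) (.p (nat_lit 239) (nat_lit 24) (.p (nat_lit 240) (nat_lit 24) .z)))))))))))))))))))))))))))))))))))))))))))))) (.ct dW4x_c8466 (nat_lit 36) (nat_lit 2) (.s false (nat_lit 1) (nat_lit 27) (nat_lit 1) (nat_lit 0) (nat_lit 2) true (nat_lit 9) true (nat_lit 13) false (nat_lit 2) true (nat_lit 14) true (nat_lit 15) (.e false (nat_lit 36) (nat_lit 57) (nat_lit 6) (nat_lit 9) (.e false (nat_lit 36) (nat_lit 113) (nat_lit 2) (nat_lit 13) (.e true (nat_lit 36) (nat_lit 119) (nat_lit 1) (nat_lit 14) (.e true (nat_lit 72) (nat_lit 120) (nat_lit 1) (nat_lit 14) (.e false (nat_lit 72) (nat_lit 123) (nat_lit 1) (nat_lit 14) (.e false (nat_lit 36) (nat_lit 124) (nat_lit 1) (nat_lit 14) (.e true (nat_lit 72) (nat_lit 125) (nat_lit 1) (nat_lit 14) (.e true (nat_lit 36) (nat_lit 145) (nat_lit 0) (nat_lit 15) .nil)))))))))) .leaf)))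 (nat_lit 27662) (nat_lit 408) (.n (nat_lit 189) (nat_lit 144) (.p (nat_lit 190) (nat_lit 36) (.p (nat_lit 191) (nat_lit 72) (.n (nat_lit 192) (nat_lit 36) (.p (nat_lit 193) (nat_lit 180) (.n (nat_lit 194) (nat_lit 36) (.n (nat_lit 196) (nat_lit 144) (.n (nat_lit 198) (nat_lit 144) (.n (nat_lit 199) (nat_lit 180) (.p (nat_lit 200) (nat_lit 72) (.n (nat_lit 201) (nat_lit 72) (.p (nat_lit 202) (nat_lit 108) (.p (nat_lit 203) (nat_lit 108) (.n (nat_lit 204) (nat_lit 180) (.p (nat_lit 205) (nat_lit 216) (.n (nat_lit 206) (nat_lit 72) (.n (nat_lit 207) (nat_lit 144) (.p (nat_lit 208) (nat_lit 144) (.n (nat_lit 209) (nat_lit 72) (.p (nat_lit 210) (nat_lit 36) (.p (nat_lit 211) (nat_lit 144) (.n (nat_lit 221) (nat_lit 108) (.p (nat_lit 222) (nat_lit 144) (.p (nat_lit 223) (nat_lit 144) (.n (nat_lit 225) (nat_lit 72) (.p (nat_lit 226) (nat_lit 36) (.p (nat_lit 227) (nat_lit 36) (.p (nat_lit 229) (nat_lit 72) (.p (nat_lit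 230) (nat_lit 72) (.n (nat_lit 231) (nat_lit 72) (.p (nat_lit 232) (nat_lit 72) (.p (nat_lit 233) (nat_lit 72) (.n (nat_lit 235) (nat_lit 36) (.n (nat_lit 236) (nat_lit 72) (.n (nat_lit 237) (nat_lit 36) (.p (nat_lit 238) (nat_lit 36) (.n (nat_lit 239) (nat_lit 36) .z))))))))))))))))))))))))))))))))))))) (.ct dW4x_c8466 (nat_lit 36) (nat_lit 2) (.s false (nat_lit 1) (nat_lit 27) (nat_lit 2) (nat_lit 0) (nat_lit 1) true (nat_lit 9) true (nat_lit 14) false (nat_lit 2) true (nat_lit 13) true (nat_lit 15) (.e true (nat_lit 36) (nat_lit 57) (nat_lit 6) (nat_lit 9) (.e false (nat_lit 36) (nat_lit 124) (nat_lit 1) (nat_lit 14) (.e true (nat_lit 36) (nat_lit 108) (nat_lit 2) (nat_lit 13) (.e true (nat_lit 72) (nat_lit 109) (nat_lit 2) (nat_lit 13) (.e false (nat_lit 72) (nat_lit 112) (nat_lit 2) (nat_lit 13) (.e false (nat_lit 36) (nat_lit 113) (nat_lit 2) (nat_lit 13) (.e true (nat_lit 72) (nat_lit 114) (nat_lit 2)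 (nat_lit 13) (.e true (nat_lit 36) (nat_lit 140) (nat_lit 0) (nat_lit 15) .nil)))))))))) (.nd (.nd (.nd (.nd .leaf (nat_lit 27663) (nat_lit 409) (.p (nat_lit 192) (nat_lit 36) (.p (nat_lit 193) (nat_lit 36) (.p (nat_lit 194) (nat_lit 36) (.n (nat_lit 195) (nat_lit 36) (.n (nat_lit 196) (nat_lit 36) (.n (nat_lit 197) (nat_lit 36) (.n (nat_lit 198) (nat_lit 72) (.n (nat_lit 221) (nat_lit 24) (.p (nat_lit 222) (nat_lit 24) (.p (nat_lit 223) (nat_lit 72) (.p (nat_lit 224) (nat_lit 24) (.n (nat_lit 225) (nat_lit 24) (.n (nat_lit 228) (nat_lit 24) (.p (nat_lit 229) (nat_lit 24) (.p (nat_lit 230) (nat_lit 24) (.n (nat_lit 231) (nat_lit 24) (.p (nat_lit 232) (nat_lit 48) (.p (nat_lit 233) (nat_lit 12) (.n (nat_lit 234) (nat_lit 12) (.n (nat_lit 235) (nat_lit 12) (.n (nat_lit 236) (nat_lit 12) (.p (nat_lit 237) (nat_lit 12) (.p (nat_lit 238) (nat_lit 12) .z))))))))))))))))))))))) (.ct dW4x_c8466 (nat_lit 36) (nat_lit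 2) (.s true (nat_lit 1) (nat_lit 27) (nat_lit 1) (nat_lit 2) (nat_lit 0) true (nat_lit 11) true (nat_lit 15) false (nat_lit 2) true (nat_lit 14) true (nat_lit 13) (.e false (nat_lit 36) (nat_lit 68) (nat_lit 4) (nat_lit 11) (.e true (nat_lit 36) (nat_lit 140) (nat_lit 0) (nat_lit 15) (.e true (nat_lit 36) (nat_lit 119) (nat_lit 1) (nat_lit 14) (.e true (nat_lit 72) (nat_lit 120) (nat_lit 1) (nat_lit 14) (.e false (nat_lit 72) (nat_lit 123) (nat_lit 1) (nat_lit 14) (.e false (nat_lit 36) (nat_lit 124) (nat_lit 1) (nat_lit 14) (.e true (nat_lit 72) (nat_lit 125) (nat_lit 1) (nat_lit 14) (.e false (nat_lit 36) (nat_lit 108) (nat_lit 2) (nat_lit 13) .nil)))))))))) .leaf) (nat_lit 27665) (nat_lit 461) (.p (nat_lit 241) (nat_lit 612) (.n (nat_lit 242) (nat_lit 180) (.n (nat_lit 243) (nat_lit 252) (.n (nat_lit 244) (nat_lit 1188) (.n (nat_lit 245) (nat_lit 612) (.p (nat_lit 246) (nat_lit 252) (.p (nat_lit 247) (nat_lit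 648) (.p (nat_lit 248) (nat_lit 612) (.n (nat_lit 249) (nat_lit 1440) (.n (nat_lit 250) (nat_lit 252) (.p (nat_lit 252) (nat_lit 468) (.p (nat_lit 253) (nat_lit 648) (.n (nat_lit 254) (nat_lit 144) (.p (nat_lit 255) (nat_lit 180) (.n (nat_lit 256) (nat_lit 432) (.p (nat_lit 257) (nat_lit 468) (.n (nat_lit 258) (nat_lit 108) (.n (nat_lit 259) (nat_lit 324) (.n (nat_lit 260) (nat_lit 180) (.n (nat_lit 261) (nat_lit 324) .z)))))))))))))))))))) (.ct dW4x_c8451 (nat_lit 36) (nat_lit 0) (.s true (nat_lit 1) (nat_lit 17) (nat_lit 3) (nat_lit 3) (nat_lit 0) true (nat_lit 5) true (nat_lit 9) true (nat_lit 0) true (nat_lit 7) true (nat_lit 7) (.e true (nat_lit 36) (nat_lit 58) (nat_lit 7) (nat_lit 5) (.e true (nat_lit 36) (nat_lit 156) (nat_lit 0) (nat_lit 9) (.e false (nat_lit 72) (nat_lit 105) (nat_lit 3) (nat_lit 7) (.e true (nat_lit 36) (nat_lit 110) (nat_lit 3) (nat_lit 7) (.e false (nat_lit 36) (nat_lit 111) (nat_lit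 3) (nat_lit 7) .nil))))))) .leaf) (nat_lit 27666) (nat_lit 458) (.n (nat_lit 241) (nat_lit 612) (.p (nat_lit 242) (nat_lit 180) (.p (nat_lit 243) (nat_lit 216) (.p (nat_lit 244) (nat_lit 1116) (.p (nat_lit 245) (nat_lit 612) (.n (nat_lit 246) (nat_lit 252) (.n (nat_lit 247) (nat_lit 576) (.n (nat_lit 248) (nat_lit 540) (.p (nat_lit 249) (nat_lit 1368) (.p (nat_lit 250) (nat_lit 252) (.n (nat_lit 251) (nat_lit 36) (.n (nat_lit 252) (nat_lit 396) (.n (nat_lit 253) (nat_lit 576) (.p (nat_lit 254) (nat_lit 144) (.n (nat_lit 255) (nat_lit 180) (.p (nat_lit 256) (nat_lit 432) (.n (nat_lit 257) (nat_lit 468) (.p (nat_lit 258) (nat_lit 72) (.p (nat_lit 259) (nat_lit 324) (.p (nat_lit 260) (nat_lit 144) (.p (nat_lit 261) (nat_lit 324) .z))))))))))))))))))))) (.ct dW4x_c8451 (nat_lit 36) (nat_lit 0) (.s false (nat_lit 1) (nat_lit 27) (nat_lit 3) (nat_lit 0) (nat_lit 1) true (nat_lit 4) true (nat_lit 8) false (nat_lit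 0) true (nat_lit 7) true (nat_lit 9) (.e true (nat_lit 36) (nat_lit 57) (nat_lit 8) (nat_lit 4) (.e false (nat_lit 36) (nat_lit 154) (nat_lit 1) (nat_lit 8) (.e true (nat_lit 36) (nat_lit 108) (nat_lit 3) (nat_lit 7) (.e true (nat_lit 72) (nat_lit 109) (nat_lit 3) (nat_lit 7) (.e false (nat_lit 72) (nat_lit 112) (nat_lit 3) (nat_lit 7) (.e false (nat_lit 36) (nat_lit 113) (nat_lit 3) (nat_lit 7) (.e true (nat_lit 72) (nat_lit 114) (nat_lit 3) (nat_lit 7) (.e true (nat_lit 36) (nat_lit 160) (nat_lit 0) (nat_lit 9) .nil)))))))))) (.nd .leaf (nat_lit 27667) (nat_lit 459) (.p (nat_lit 241) (nat_lit 72) (.n (nat_lit 244) (nat_lit 36) (.n (nat_lit 245) (nat_lit 36) (.p (nat_lit 246) (nat_lit 36) (.p (nat_lit 248) (nat_lit 36) (.n (nat_lit 249) (nat_lit 72) (.n (nat_lit 254) (nat_lit 36) (.n (nat_lit 255) (nat_lit 36) (.n (nat_lit 256) (nat_lit 36) (.p (nat_lit 258) (nat_lit 36) (.n (nat_lit 259) (nat_lit 72) .z)))))))))))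 (.ct dW4x_c8451 (nat_lit 36) (nat_lit 0) (.s true (nat_lit 1) (nat_lit 27) (nat_lit 1) (nat_lit 3) (nat_lit 0) true (nat_lit 6) true (nat_lit 9) false (nat_lit 0) true (nat_lit 8) true (nat_lit 7) (.e false (nat_lit 36) (nat_lit 77) (nat_lit 4) (nat_lit 6) (.e true (nat_lit 36) (nat_lit 160) (nat_lit 0) (nat_lit 9) (.e true (nat_lit 36) (nat_lit 152) (nat_lit 1) (nat_lit 8) (.e false (nat_lit 36) (nat_lit 154) (nat_lit 1) (nat_lit 8) (.e false (nat_lit 72) (nat_lit 155) (nat_lit 1) (nat_lit 8) (.e false (nat_lit 36) (nat_lit 108) (nat_lit 3) (nat_lit 7) .nil)))))))) .leaf)) (nat_lit 27668) (nat_lit 510) (.p (nat_lit 262) (nat_lit 612) (.n (nat_lit 263) (nat_lit 180) (.n (nat_lit 264) (nat_lit 252) (.n (nat_lit 265) (nat_lit 1188) (.n (nat_lit 266) (nat_lit 612) (.p (nat_lit 267) (nat_lit 252) (.p (nat_lit 268) (nat_lit 648) (.p (nat_lit 269) (nat_lit 612) (.n (nat_lit 270) (nat_lit 1440) (.n (nat_lit 271) (nat_lit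 252) (.p (nat_lit 273) (nat_lit 468) (.p (nat_lit 274) (nat_lit 648) (.n (nat_lit 275) (nat_lit 144) (.p (nat_lit 276) (nat_lit 180) (.n (nat_lit 277) (nat_lit 432) (.p (nat_lit 278) (nat_lit 468) (.n (nat_lit 279) (nat_lit 108) (.n (nat_lit 280) (nat_lit 324) (.n (nat_lit 281) (nat_lit 180) (.n (nat_lit 282) (nat_lit 324) .z)))))))))))))))))))) (.ct dW4x_c8211 (nat_lit 36) (nat_lit 0) (.s true (nat_lit 1) (nat_lit 20) (nat_lit 3) (nat_lit 3) (nat_lit 0) true (nat_lit 5) true (nat_lit 9) true (nat_lit 0) true (nat_lit 7) true (nat_lit 7) (.e true (nat_lit 36) (nat_lit 64) (nat_lit 7) (nat_lit 5) (.e true (nat_lit 36) (nat_lit 167) (nat_lit 0) (nat_lit 9) (.e false (nat_lit 72) (nat_lit 116) (nat_lit 3) (nat_lit 7) (.e true (nat_lit 36) (nat_lit 121) (nat_lit 3) (nat_lit 7) (.e false (nat_lit 36) (nat_lit 122) (nat_lit 3) (nat_lit 7) .nil))))))) (.nd (.nd (.nd .leaf (nat_lit 27669) (nat_lit 507) (.n (nat_lit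 262) (nat_lit 612) (.p (nat_lit 263) (nat_lit 180) (.p (nat_lit 264) (nat_lit 216) (.p (nat_lit 265) (nat_lit 1116) (.p (nat_lit 266) (nat_lit 612) (.n (nat_lit 267) (nat_lit 252) (.n (nat_lit 268) (nat_lit 576) (.n (nat_lit 269) (nat_lit 540) (.p (nat_lit 270) (nat_lit 1368) (.p (nat_lit 271) (nat_lit 252) (.n (nat_lit 272) (nat_lit 36) (.n (nat_lit 273) (nat_lit 396) (.n (nat_lit 274) (nat_lit 576) (.p (nat_lit 275) (nat_lit 144) (.n (nat_lit 276) (nat_lit 180) (.p (nat_lit 277) (nat_lit 432) (.n (nat_lit 278) (nat_lit 468) (.p (nat_lit 279) (nat_lit 72) (.p (nat_lit 280) (nat_lit 324) (.p (nat_lit 281) (nat_lit 144) (.p (nat_lit 282) (nat_lit 324) .z))))))))))))))))))))) (.ct dW4x_c8211 (nat_lit 36) (nat_lit 0) (.s false (nat_lit 1) (nat_lit 27) (nat_lit 3) (nat_lit 0) (nat_lit 2) true (nat_lit 4) true (nat_lit 8) false (nat_lit 0) true (nat_lit 7) true (nat_lit 9) (.e true (nat_lit 36) (nat_lit 57) (nat_lit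 9) (nat_lit 4) (.e false (nat_lit 36) (nat_lit 154) (nat_lit 2) (nat_lit 8) (.e true (nat_lit 36) (nat_lit 119) (nat_lit 3) (nat_lit 7) (.e true (nat_lit 72) (nat_lit 120) (nat_lit 3) (nat_lit 7) (.e false (nat_lit 72) (nat_lit 123) (nat_lit 3) (nat_lit 7) (.e false (nat_lit 36) (nat_lit 124) (nat_lit 3) (nat_lit 7) (.e true (nat_lit 72) (nat_lit 125) (nat_lit 3) (nat_lit 7) (.e true (nat_lit 36) (nat_lit 171) (nat_lit 0) (nat_lit 9) .nil)))))))))) .leaf) (nat_lit 27670) (nat_lit 508) (.p (nat_lit 262) (nat_lit 72) (.n (nat_lit 265) (nat_lit 36) (.n (nat_lit 266) (nat_lit 36) (.p (nat_lit 267) (nat_lit 36) (.p (nat_lit 269) (nat_lit 36) (.n (nat_lit 270) (nat_lit 72) (.n (nat_lit 275) (nat_lit 36) (.n (nat_lit 276) (nat_lit 36) (.n (nat_lit 277) (nat_lit 36) (.p (nat_lit 279) (nat_lit 36) (.n (nat_lit 280) (nat_lit 72) .z))))))))))) (.ct dW4x_c8211 (nat_lit 36) (nat_lit 0) (.s true (nat_lit 1) (nat_lit 27)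 (nat_lit 2) (nat_lit 3) (nat_lit 0) true (nat_lit 6) true (nat_lit 9) false (nat_lit 0) true (nat_lit 8) true (nat_lit 7) (.e false (nat_lit 36) (nat_lit 77) (nat_lit 5) (nat_lit 6) (.e true (nat_lit 36) (nat_lit 171) (nat_lit 0) (nat_lit 9) (.e true (nat_lit 36) (nat_lit 152) (nat_lit 2) (nat_lit 8) (.e false (nat_lit 36) (nat_lit 154) (nat_lit 2) (nat_lit 8) (.e false (nat_lit 72) (nat_lit 155) (nat_lit 2) (nat_lit 8) (.e false (nat_lit 36) (nat_lit 119) (nat_lit 3) (nat_lit 7) .nil)))))))) .leaf) (nat_lit 27671) (nat_lit 614) (.p (nat_lit 283) (nat_lit 24) (.n (nat_lit 284) (nat_lit 48) (.p (nat_lit 285) (nat_lit 30) (.p (nat_lit 286) (nat_lit 42) (.n (nat_lit 287) (nat_lit 48) (.p (nat_lit 288) (nat_lit 24) (.n (nat_lit 289) (nat_lit 18) (.p (nat_lit 290) (nat_lit 60) (.n (nat_lit 291) (nat_lit 36) (.p (nat_lit 292) (nat_lit 24) (.p (nat_lit 293) (nat_lit 126) (.p (nat_lit 294) (nat_lit 6) (.p (nat_lit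 295) (nat_lit 12) (.n (nat_lit 296) (nat_lit 72) (.n (nat_lit 297) (nat_lit 144) (.p (nat_lit 298) (nat_lit 126) (.n (nat_lit 299) (nat_lit 132) (.p (nat_lit 301) (nat_lit 84) (.p (nat_lit 302) (nat_lit 150) (.n (nat_lit 303) (nat_lit 138) (.n (nat_lit 304) (nat_lit 12) (.n (nat_lit 305) (nat_lit 6) (.n (nat_lit 306) (nat_lit 186) (.p (nat_lit 308) (nat_lit 18) (.n (nat_lit 309) (nat_lit 18) (.p (nat_lit 310) (nat_lit 18) (.p (nat_lit 312) (nat_lit 18) (.n (nat_lit 313) (nat_lit 18) (.n (nat_lit 314) (nat_lit 18) (.n (nat_lit 315) (nat_lit 18) (.p (nat_lit 316) (nat_lit 18) (.n (nat_lit 317) (nat_lit 18) (.n (nat_lit 318) (nat_lit 18) (.n (nat_lit 319) (nat_lit 18) (.n (nat_lit 320) (nat_lit 18) (.n (nat_lit 321) (nat_lit 18) (.n (nat_lit 323) (nat_lit 18) (.p (nat_lit 325) (nat_lit 18) (.p (nat_lit 326) (nat_lit 18) (.n (nat_lit 327) (nat_lit 18) (.p (nat_lit 328) (nat_lit 18) .z)))))))))))))))))))))))))))))))))))))))))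 (.ct dW4x_c4371 (nat_lit 36) (nat_lit 0) (.s true (nat_lit 1) (nat_lit 27) (nat_lit 1) (nat_lit 2) (nat_lit 3) true (nat_lit 6) true (nat_lit 11) false (nat_lit 0) true (nat_lit 13) true (nat_lit 12) (.e true (nat_lit 36) (nat_lit 68) (nat_lit 8) (nat_lit 6) (.e true (nat_lit 36) (nat_lit 140) (nat_lit 3) (nat_lit 11) (.e true (nat_lit 72) (nat_lit 167) (nat_lit 1) (nat_lit 13) (.e true (nat_lit 72) (nat_lit 168) (nat_lit 1) (nat_lit 13) (.e false (nat_lit 36) (nat_lit 171) (nat_lit 1) (nat_lit 13) (.e true (nat_lit 72) (nat_lit 172) (nat_lit 1) (nat_lit 13) (.e false (nat_lit 36) (nat_lit 175) (nat_lit 1) (nat_lit 13) (.e false (nat_lit 36) (nat_lit 176) (nat_lit 1) (nat_lit 13) (.e false (nat_lit 36) (nat_lit 162) (nat_lit 2) (nat_lit 12) .nil))))))))))) (.nd .leaf (nat_lit 27672) (nat_lit 615) (.n (nat_lit 283) (nat_lit 200) (.n (nat_lit 284) (nat_lit 32) (.n (nat_lit 285) (nat_lit 130) (.n (nat_lit 286)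 (nat_lit 194) (.p (nat_lit 287) (nat_lit 208) (.n (nat_lit 288) (nat_lit 248) (.p (nat_lit 289) (nat_lit 186) (.n (nat_lit 290) (nat_lit 92) (.p (nat_lit 291) (nat_lit 132) (.n (nat_lit 292) (nat_lit 56) (.n (nat_lit 293) (nat_lit 426) (.p (nat_lit 294) (nat_lit 58) (.n (nat_lit 295) (nat_lit 76) (.p (nat_lit 296) (nat_lit 228) (.p (nat_lit 297) (nat_lit 360) (.n (nat_lit 298) (nat_lit 402) (.p (nat_lit 299) (nat_lit 464) (.n (nat_lit 301) (nat_lit 112) (.n (nat_lit 302) (nat_lit 386) (.p (nat_lit 303) (nat_lit 286) (.n (nat_lit 304) (nat_lit 56) (.p (nat_lit 305) (nat_lit 62) (.p (nat_lit 306) (nat_lit 710) (.p (nat_lit 307) (nat_lit 144) (.p (nat_lit 308) (nat_lit 198) (.n (nat_lit 309) (nat_lit 54) (.n (nat_lit 310) (nat_lit 90) (.p (nat_lit 311) (nat_lit 120) (.p (nat_lit 312) (nat_lit 78) (.n (nat_lit 313) (nat_lit 6) (.n (nat_lit 314) (nat_lit 90) (.n (nat_lit 315) (nat_lit 66) (.n (nat_lit 316) (nat_lit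 114) (.n (nat_lit 317) (nat_lit 54) (.n (nat_lit 318) (nat_lit 54) (.p (nat_lit 319) (nat_lit 42) (.n (nat_lit 320) (nat_lit 54) (.n (nat_lit 321) (nat_lit 78) (.n (nat_lit 322) (nat_lit 48) (.p (nat_lit 323) (nat_lit 114) (.p (nat_lit 324) (nat_lit 96) (.p (nat_lit 325) (nat_lit 54) (.p (nat_lit 326) (nat_lit 54) (.n (nat_lit 327) (nat_lit 78) (.n (nat_lit 328) (nat_lit 66) (.p (nat_lit 329) (nat_lit 48) .z)))))))))))))))))))))))))))))))))))))))))))))) (.ct dW4x_c4371 (nat_lit 36) (nat_lit 0) (.s true (nat_lit 1) (nat_lit 27) (nat_lit 1) (nat_lit 3) (nat_lit 2) true (nat_lit 8) true (nat_lit 12) false (nat_lit 0) true (nat_lit 13) true (nat_lit 11) (.e true (nat_lit 36) (nat_lit 77) (nat_lit 6) (nat_lit 8) (.e true (nat_lit 36) (nat_lit 160) (nat_lit 2) (nat_lit 12) (.e false (nat_lit 72) (nat_lit 167) (nat_lit 1) (nat_lit 13) (.e false (nat_lit 72) (nat_lit 168) (nat_lit 1) (nat_lit 13) (.e true (nat_lit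 36) (nat_lit 171) (nat_lit 1) (nat_lit 13) (.e false (nat_lit 72) (nat_lit 172) (nat_lit 1) (nat_lit 13) (.e true (nat_lit 36) (nat_lit 175) (nat_lit 1) (nat_lit 13) (.e true (nat_lit 36) (nat_lit 176) (nat_lit 1) (nat_lit 13) (.e false (nat_lit 36) (nat_lit 145) (nat_lit 3) (nat_lit 11) .nil))))))))))) .leaf)))) (nat_lit 27673) (nat_lit 616) (.n (nat_lit 283) (nat_lit 244) (.n (nat_lit 284) (nat_lit 520) (.n (nat_lit 285) (nat_lit 164) (.n (nat_lit 286) (nat_lit 52) (.n (nat_lit 287) (nat_lit 4) (.n (nat_lit 288) (nat_lit 376) (.p (nat_lit 289) (nat_lit 300) (.p (nat_lit 290) (nat_lit 368) (.n (nat_lit 291) (nat_lit 24) (.p (nat_lit 292) (nat_lit 116) (.n (nat_lit 293) (nat_lit 96) (.p (nat_lit 294) (nat_lit 128) (.p (nat_lit 295) (nat_lit 196) (.p (nat_lit 296) (nat_lit 96) (.n (nat_lit 297) (nat_lit 72) (.p (nat_lit 298) (nat_lit 24) (.p (nat_lit 299) (nat_lit 88) (.p (nat_lit 301) (nat_lit 268) (.p (nat_lit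 302) (nat_lit 32) (.n (nat_lit 303) (nat_lit 352) (.n (nat_lit 304) (nat_lit 136) (.p (nat_lit 305) (nat_lit 76) (.p (nat_lit 306) (nat_lit 148) (.n (nat_lit 307) (nat_lit 108) (.p (nat_lit 308) (nat_lit 216) (.n (nat_lit 309) (nat_lit 252) (.p (nat_lit 310) (nat_lit 252) (.n (nat_lit 311) (nat_lit 300) (.n (nat_lit 312) (nat_lit 24) (.n (nat_lit 313) (nat_lit 264) (.n (nat_lit 314) (nat_lit 288) (.n (nat_lit 315) (nat_lit 132) (.p (nat_lit 316) (nat_lit 24) (.n (nat_lit 317) (nat_lit 108) (.n (nat_lit 318) (nat_lit 288) (.n (nat_lit 319) (nat_lit 276) (.n (nat_lit 320) (nat_lit 108) (.p (nat_lit 321) (nat_lit 60) (.p (nat_lit 322) (nat_lit 12) (.p (nat_lit 323) (nat_lit 12) (.p (nat_lit 324) (nat_lit 228) (.p (nat_lit 325) (nat_lit 324) (.p (nat_lit 326) (nat_lit 288) (.n (nat_lit 327) (nat_lit 408) (.n (nat_lit 328) (nat_lit 24) (.p (nat_lit 329) (nat_lit 348) .z))))))))))))))))))))))))))))))))))))))))))))))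 (.ct dW4x_c4371 (nat_lit 36) (nat_lit 0) (.s true (nat_lit 1) (nat_lit 27) (nat_lit 2) (nat_lit 3) (nat_lit 1) true (nat_lit 8) true (nat_lit 13) false (nat_lit 0) true (nat_lit 12) true (nat_lit 11) (.e false (nat_lit 36) (nat_lit 77) (nat_lit 6) (nat_lit 8) (.e true (nat_lit 36) (nat_lit 171) (nat_lit 1) (nat_lit 13) (.e false (nat_lit 72) (nat_lit 156) (nat_lit 2) (nat_lit 12) (.e false (nat_lit 72) (nat_lit 157) (nat_lit 2) (nat_lit 12) (.e true (nat_lit 36) (nat_lit 160) (nat_lit 2) (nat_lit 12) (.e false (nat_lit 72) (nat_lit 161) (nat_lit 2) (nat_lit 12) (.e true (nat_lit 36) (nat_lit 164) (nat_lit 2) (nat_lit 12) (.e true (nat_lit 36) (nat_lit 165) (nat_lit 2) (nat_lit 12) (.e false (nat_lit 36) (nat_lit 140) (nat_lit 3) (nat_lit 11) .nil))))))))))) (.nd (.nd (.nd (.nd (.nd .leaf (nat_lit 28672) (nat_lit 71) (.p (nat_lit 63) (nat_lit 36) .z) .df .leaf) (nat_lit 28674) (nat_lit 87) (.p (nat_lit 73) (nat_lit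 36) .z) .df .leaf) (nat_lit 28675) (nat_lit 97) (.p (nat_lit 79) (nat_lit 36) .z) .df (.nd .leaf (nat_lit 28677) (nat_lit 208) (.n (nat_lit 126) (nat_lit 12) (.p (nat_lit 127) (nat_lit 24) (.p (nat_lit 128) (nat_lit 12) (.n (nat_lit 129) (nat_lit 12) (.p (nat_lit 130) (nat_lit 24) (.n (nat_lit 131) (nat_lit 12) (.n (nat_lit 133) (nat_lit 12) (.n (nat_lit 135) (nat_lit 12) (.p (nat_lit 137) (nat_lit 24) (.n (nat_lit 138) (nat_lit 24) (.p (nat_lit 142) (nat_lit 12) (.n (nat_lit 144) (nat_lit 24) (.n (nat_lit 145) (nat_lit 12) (.p (nat_lit 146) (nat_lit 24) (.n (nat_lit 147) (nat_lit 12) (.p (nat_lit 149) (nat_lit 12) (.p (nat_lit 150) (nat_lit 12) .z))))))))))))))))) (.ct dW4x_c4370 (nat_lit 36) (nat_lit 5) (.s false (nat_lit 1) (nat_lit 7) (nat_lit 1) (nat_lit 2) (nat_lit 3) true (nat_lit 2) true (nat_lit 7) true (nat_lit 3) true (nat_lit 9) true (nat_lit 8) (.s false (nat_lit 1) (nat_lit 7) (nat_lit 2) (nat_lit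 1) (nat_lit 3) true (nat_lit 1) true (nat_lit 7) true (nat_lit 3) true (nat_lit 8) true (nat_lit 9) (.s false (nat_lit 1) (nat_lit 8) (nat_lit 2) (nat_lit 3) (nat_lit 0) true (nat_lit 5) true (nat_lit 10) true (nat_lit 2) true (nat_lit 8) true (nat_lit 7) (.s false (nat_lit 1) (nat_lit 8) (nat_lit 3) (nat_lit 0) (nat_lit 2) true (nat_lit 1) true (nat_lit 8) true (nat_lit 2) true (nat_lit 7) true (nat_lit 10) (.s false (nat_lit 1) (nat_lit 9) (nat_lit 1) (nat_lit 3) (nat_lit 0) true (nat_lit 6) true (nat_lit 10) true (nat_lit 1) true (nat_lit 9) true (nat_lit 7) (.s false (nat_lit 1) (nat_lit 9) (nat_lit 3) (nat_lit 0) (nat_lit 1) true (nat_lit 2) true (nat_lit 9) true (nat_lit 1) true (nat_lit 7) true (nat_lit 10) (.e false (nat_lit 36) (nat_lit 69) (nat_lit 1) (nat_lit 9) (.e true (nat_lit 36) (nat_lit 61) (nat_lit 2) (nat_lit 8) (.e false (nat_lit 36) (nat_lit 63) (nat_lit 2) (nat_lit 8) (.e true (nat_lit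 36) (nat_lit 67) (nat_lit 1) (nat_lit 9) (.e false (nat_lit 36) (nat_lit 45) (nat_lit 3) (nat_lit 7) (.e true (nat_lit 36) (nat_lit 30) (nat_lit 4) (nat_lit 6) (.e false (nat_lit 36) (nat_lit 46) (nat_lit 3) (nat_lit 7) .nil)))))))))))))) .leaf)) (nat_lit 28679) (nat_lit 248) (.p (nat_lit 157) (nat_lit 36) (.p (nat_lit 159) (nat_lit 36) (.n (nat_lit 162) (nat_lit 36) (.n (nat_lit 163) (nat_lit 36) (.p (nat_lit 166) (nat_lit 36) .z))))) (.ct dW4x_c4355 (nat_lit 36) (nat_lit 2) (.s false (nat_lit 1) (nat_lit 7) (nat_lit 1) (nat_lit 3) (nat_lit 3) true (nat_lit 1) true (nat_lit 4) true (nat_lit 2) true (nat_lit 5) true (nat_lit 4) (.e false (nat_lit 36) (nat_lit 26) (nat_lit 8) (nat_lit 1) (.e false (nat_lit 36) (nat_lit 59) (nat_lit 3) (nat_lit 4) (.e true (nat_lit 36) (nat_lit 77) (nat_lit 1) (nat_lit 5) (.e true (nat_lit 36) (nat_lit 78) (nat_lit 1) (nat_lit 5) (.e false (nat_lit 36) (nat_lit 61) (nat_lit 3)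 (nat_lit 4) .nil))))))) (.nd (.nd (.nd .leaf (nat_lit 28681) (nat_lit 284) (.p (nat_lit 188) (nat_lit 36) .z) .df .leaf) (nat_lit 28684) (nat_lit 406) (.n (nat_lit 189) (nat_lit 12) (.p (nat_lit 190) (nat_lit 24) (.p (nat_lit 191) (nat_lit 12) (.n (nat_lit 192) (nat_lit 12) (.p (nat_lit 193) (nat_lit 24) (.n (nat_lit 194) (nat_lit 12) (.n (nat_lit 196) (nat_lit 12) (.n (nat_lit 198) (nat_lit 12) (.p (nat_lit 200) (nat_lit 24) (.n (nat_lit 201) (nat_lit 24) (.n (nat_lit 204) (nat_lit 36) (.p (nat_lit 205) (nat_lit 12) (.n (nat_lit 206) (nat_lit 24) (.n (nat_lit 207) (nat_lit 12) (.p (nat_lit 208) (nat_lit 24) (.n (nat_lit 209) (nat_lit 12) (.p (nat_lit 210) (nat_lit 12) (.p (nat_lit 211) (nat_lit 12) (.p (nat_lit 220) (nat_lit 36) .z))))))))))))))))))) (.ct dW4x_c8466 (nat_lit 36) (nat_lit 3) (.s false (nat_lit 1) (nat_lit 12) (nat_lit 1) (nat_lit 3) (nat_lit 3) true (nat_lit 7) true (nat_lit 12) true (nat_lit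 3) true (nat_lit 14) true (nat_lit 12) (.e false (nat_lit 36) (nat_lit 41) (nat_lit 8) (nat_lit 7) (.e false (nat_lit 36) (nat_lit 86) (nat_lit 3) (nat_lit 12) (.e false (nat_lit 36) (nat_lit 119) (nat_lit 1) (nat_lit 14) (.e true (nat_lit 36) (nat_lit 121) (nat_lit 1) (nat_lit 14) (.e false (nat_lit 36) (nat_lit 122) (nat_lit 1) (nat_lit 14) (.e true (nat_lit 36) (nat_lit 123) (nat_lit 1) (nat_lit 14) (.e true (nat_lit 36) (nat_lit 124) (nat_lit 1) (nat_lit 14) (.e false (nat_lit 36) (nat_lit 125) (nat_lit 1) (nat_lit 14) (.e false (nat_lit 36) (nat_lit 92) (nat_lit 3) (nat_lit 12) .nil))))))))))) .leaf) (nat_lit 28692) (nat_lit 621) (.n (nat_lit 283) (nat_lit 16) (.n (nat_lit 284) (nat_lit 112) (.n (nat_lit 285) (nat_lit 32) (.p (nat_lit 286) (nat_lit 32) (.n (nat_lit 287) (nat_lit 64) (.n (nat_lit 288) (nat_lit 40) (.p (nat_lit 289) (nat_lit 84) (.p (nat_lit 290) (nat_lit 128) (.n (nat_lit 291) (nat_lit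 24) (.p (nat_lit 292) (nat_lit 56) (.p (nat_lit 293) (nat_lit 48) (.p (nat_lit 294) (nat_lit 32) (.p (nat_lit 295) (nat_lit 112) (.n (nat_lit 296) (nat_lit 12) (.n (nat_lit 297) (nat_lit 72) (.p (nat_lit 298) (nat_lit 60) (.n (nat_lit 299) (nat_lit 68) (.p (nat_lit 301) (nat_lit 76) (.p (nat_lit 302) (nat_lit 80) (.n (nat_lit 303) (nat_lit 124) (.n (nat_lit 304) (nat_lit 16) (.n (nat_lit 305) (nat_lit 8) (.n (nat_lit 306) (nat_lit 80) (.n (nat_lit 307) (nat_lit 108) (.n (nat_lit 309) (nat_lit 72) (.p (nat_lit 310) (nat_lit 144) (.n (nat_lit 311) (nat_lit 192) (.n (nat_lit 312) (nat_lit 24) (.n (nat_lit 313) (nat_lit 84) (.n (nat_lit 314) (nat_lit 72) (.n (nat_lit 315) (nat_lit 60) (.p (nat_lit 316) (nat_lit 24) (.n (nat_lit 317) (nat_lit 36) (.n (nat_lit 318) (nat_lit 72) (.n (nat_lit 319) (nat_lit 96) (.p (nat_lit 321) (nat_lit 24) (.p (nat_lit 322) (nat_lit 12) (.n (nat_lit 323) (nat_lit 24) (.p (nat_lit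 324) (nat_lit 48) (.p (nat_lit 325) (nat_lit 72) (.p (nat_lit 326) (nat_lit 72) (.n (nat_lit 327) (nat_lit 84) (.p (nat_lit 328) (nat_lit 48) (.p (nat_lit 329) (nat_lit 96) .z)))))))))))))))))))))))))))))))))))))))))))) (.ct dW4x_c4371 (nat_lit 36) (nat_lit 1) (.s false (nat_lit 1) (nat_lit 20) (nat_lit 1) (nat_lit 3) (nat_lit 3) true (nat_lit 6) true (nat_lit 11) true (nat_lit 1) true (nat_lit 13) true (nat_lit 11) (.e false (nat_lit 36) (nat_lit 64) (nat_lit 8) (nat_lit 6) (.e false (nat_lit 36) (nat_lit 132) (nat_lit 3) (nat_lit 11) (.e true (nat_lit 36) (nat_lit 176) (nat_lit 1) (nat_lit 13) (.e false (nat_lit 36) (nat_lit 142) (nat_lit 3) (nat_lit 11) .nil)))))) (.nd .leaf (nat_lit 28694) (nat_lit 601) (.p (nat_lit 283) (nat_lit 272) (.p (nat_lit 284) (nat_lit 356) (.p (nat_lit 285) (nat_lit 202) (.p (nat_lit 286) (nat_lit 194) (.n (nat_lit 287) (nat_lit 172) (.p (nat_lit 288) (nat_lit 428) (.n (nat_lit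 289) (nat_lit 330) (.n (nat_lit 290) (nat_lit 196) (.n (nat_lit 291) (nat_lit 60) (.n (nat_lit 292) (nat_lit 88) (.p (nat_lit 293) (nat_lit 354) (.n (nat_lit 294) (nat_lit 202) (.n (nat_lit 295) (nat_lit 104) (.n (nat_lit 296) (nat_lit 156) (.n (nat_lit 297) (nat_lit 180) (.p (nat_lit 298) (nat_lit 186) (.n (nat_lit 299) (nat_lit 356) (.n (nat_lit 301) (nat_lit 32) (.p (nat_lit 302) (nat_lit 242) (.p (nat_lit 303) (nat_lit 38) (.p (nat_lit 304) (nat_lit 92) (.n (nat_lit 305) (nat_lit 62) (.n (nat_lit 306) (nat_lit 566) (.p (nat_lit 307) (nat_lit 72) (.n (nat_lit 308) (nat_lit 162) (.p (nat_lit 309) (nat_lit 198) (.n (nat_lit 310) (nat_lit 198) (.p (nat_lit 311) (nat_lit 204) (.n (nat_lit 312) (nat_lit 6) (.p (nat_lit 313) (nat_lit 150) (.p (nat_lit 314) (nat_lit 270) (.p (nat_lit 315) (nat_lit 102) (.p (nat_lit 316) (nat_lit 114) (.p (nat_lit 317) (nat_lit 90) (.p (nat_lit 318) (nat_lit 234) (.p (nat_lit 319)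 (nat_lit 174) (.p (nat_lit 320) (nat_lit 54) (.n (nat_lit 321) (nat_lit 30) (.n (nat_lit 322) (nat_lit 24) (.n (nat_lit 323) (nat_lit 6) (.n (nat_lit 324) (nat_lit 204) (.n (nat_lit 325) (nat_lit 234) (.n (nat_lit 326) (nat_lit 270) (.p (nat_lit 327) (nat_lit 330) (.p (nat_lit 328) (nat_lit 30) (.n (nat_lit 329) (nat_lit 336) .z)))))))))))))))))))))))))))))))))))))))))))))) (.ct dW4x_c4371 (nat_lit 36) (nat_lit 1) dW4x_i94) .leaf))) (nat_lit 29696) (nat_lit 73) (.n (nat_lit 58) (nat_lit 72) (.n (nat_lit 59) (nat_lit 36) (.p (nat_lit 60) (nat_lit 36) (.p (nat_lit 61) (nat_lit 36) (.p (nat_lit 62) (nat_lit 36) (.n (nat_lit 63) (nat_lit 36) .z)))))) (.ct dW4x_c4354 (nat_lit 36) (nat_lit 4) (.s false (nat_lit 1) (nat_lit 3) (nat_lit 1) (nat_lit 0) (nat_lit 3) false (nat_lit 0) true (nat_lit 2) true (nat_lit 2) true (nat_lit 3) true (nat_lit 4) (.e false (nat_lit 36) (nat_lit 8) (nat_lit 7) (nat_lit 0) (.e false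 (nat_lit 36) (nat_lit 19) (nat_lit 3) (nat_lit 2) (.e true (nat_lit 36) (nat_lit 17) (nat_lit 3) (nat_lit 2) (.e false (nat_lit 36) (nat_lit 26) (nat_lit 1) (nat_lit 3) .nil)))))) (.nd (.nd (.nd (.nd .leaf (nat_lit 29698) (nat_lit 88) (.p (nat_lit 74) (nat_lit 36) .z) .df .leaf) (nat_lit 29699) (nat_lit 98) (.p (nat_lit 80) (nat_lit 36) .z) .df .leaf) (nat_lit 29701) (nat_lit 223) (.p (nat_lit 126) (nat_lit 24) (.p (nat_lit 127) (nat_lit 24) (.p (nat_lit 128) (nat_lit 12) (.p (nat_lit 129) (nat_lit 24) (.n (nat_lit 130) (nat_lit 48) (.p (nat_lit 131) (nat_lit 24) (.p (nat_lit 133) (nat_lit 24) (.p (nat_lit 135) (nat_lit 24) (.p (nat_lit 136) (nat_lit 36) (.n (nat_lit 137) (nat_lit 12) (.p (nat_lit 138) (nat_lit 12) (.n (nat_lit 140) (nat_lit 36) (.n (nat_lit 142) (nat_lit 60) (.p (nat_lit 144) (nat_lit 12) (.p (nat_lit 145) (nat_lit 24) (.n (nat_lit 146) (nat_lit 12) (.n (nat_lit 147) (nat_lit 12) (.p (nat_lit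 149) (nat_lit 12) (.n (nat_lit 150) (nat_lit 60) .z))))))))))))))))))) (.ct dW4x_c4370 (nat_lit 36) (nat_lit 5) (.s true (nat_lit 1) (nat_lit 5) (nat_lit 3) (nat_lit 3) (nat_lit 1) true (nat_lit 2) true (nat_lit 9) true (nat_lit 5) true (nat_lit 7) true (nat_lit 7) (.e true (nat_lit 36) (nat_lit 20) (nat_lit 8) (nat_lit 2) (.e true (nat_lit 36) (nat_lit 64) (nat_lit 1) (nat_lit 9) (.e false (nat_lit 36) (nat_lit 45) (nat_lit 3) (nat_lit 7) (.e true (nat_lit 36) (nat_lit 49) (nat_lit 3) (nat_lit 7) (.e false (nat_lit 36) (nat_lit 53) (nat_lit 3) (nat_lit 7) (.e false (nat_lit 36) (nat_lit 54) (nat_lit 3) (nat_lit 7) (.e false (nat_lit 36) (nat_lit 46) (nat_lit 3) (nat_lit 7) .nil))))))))) (.nd .leaf (nat_lit 29703) (nat_lit 250) (.p (nat_lit 157) (nat_lit 36) (.p (nat_lit 158) (nat_lit 36) (.p (nat_lit 159) (nat_lit 36) (.n (nat_lit 160) (nat_lit 36) (.p (nat_lit 161) (nat_lit 36) (.n (nat_lit 162) (nat_lit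 36) (.p (nat_lit 165) (nat_lit 36) .z))))))) (.ct dW4x_c4355 (nat_lit 36) (nat_lit 2) (.s true (nat_lit 1) (nat_lit 10) (nat_lit 0) (nat_lit 1) (nat_lit 3) true (nat_lit 2) true (nat_lit 4) true (nat_lit 0) true (nat_lit 6) true (nat_lit 5) (.e true (nat_lit 36) (nat_lit 62) (nat_lit 3) (nat_lit 4) (.e false (nat_lit 36) (nat_lit 17) (nat_lit 10) (nat_lit 0) (.e false (nat_lit 36) (nat_lit 80) (nat_lit 0) (nat_lit 6) (.e false (nat_lit 36) (nat_lit 81) (nat_lit 0) (nat_lit 6) (.e false (nat_lit 36) (nat_lit 78) (nat_lit 1) (nat_lit 5) .nil))))))) .leaf)) (nat_lit 29705) (nat_lit 289) (.p (nat_lit 178) (nat_lit 72) (.p (nat_lit 179) (nat_lit 72) (.n (nat_lit 182) (nat_lit 36) (.p (nat_lit 183) (nat_lit 72) (.n (nat_lit 186) (nat_lit 36) (.n (nat_lit 187) (nat_lit 36) .z)))))) (.ct dW4x_c275 (nat_lit 36) (nat_lit 1) (.s false (nat_lit 1) (nat_lit 10) (nat_lit 3) (nat_lit 1) (nat_lit 2) true (nat_lit 1) true (nat_lit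 5) true (nat_lit 0) true (nat_lit 4) true (nat_lit 6) (.e false (nat_lit 36) (nat_lit 81) (nat_lit 2) (nat_lit 5) (.e false (nat_lit 36) (nat_lit 24) (nat_lit 10) (nat_lit 0) (.e true (nat_lit 36) (nat_lit 71) (nat_lit 3) (nat_lit 4) (.e false (nat_lit 36) (nat_lit 72) (nat_lit 3) (nat_lit 4) (.e true (nat_lit 36) (nat_lit 73) (nat_lit 3) (nat_lit 4) (.e false (nat_lit 36) (nat_lit 75) (nat_lit 3) (nat_lit 4) (.e true (nat_lit 36) (nat_lit 83) (nat_lit 1) (nat_lit 6) .nil))))))))) (.nd (.nd .leaf (nat_lit 29708) (nat_lit 405) (.n (nat_lit 189) (nat_lit 30) (.p (nat_lit 190) (nat_lit 24) (.p (nat_lit 191) (nat_lit 12) (.n (nat_lit 192) (nat_lit 12) (.n (nat_lit 193) (nat_lit 12) (.n (nat_lit 194) (nat_lit 48) (.p (nat_lit 195) (nat_lit 36) (.n (nat_lit 196) (nat_lit 12) (.p (nat_lit 197) (nat_lit 36) (.p (nat_lit 198) (nat_lit 24) (.p (nat_lit 199) (nat_lit 54) (.p (nat_lit 200) (nat_lit 78) (.n (nat_lit 201)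 (nat_lit 78) (.n (nat_lit 203) (nat_lit 36) (.p (nat_lit 205) (nat_lit 30) (.n (nat_lit 206) (nat_lit 6) (.n (nat_lit 207) (nat_lit 30) (.p (nat_lit 208) (nat_lit 42) (.n (nat_lit 209) (nat_lit 30) (.p (nat_lit 210) (nat_lit 30) (.p (nat_lit 211) (nat_lit 30) (.n (nat_lit 214) (nat_lit 18) (.p (nat_lit 216) (nat_lit 18) (.n (nat_lit 217) (nat_lit 18) (.n (nat_lit 218) (nat_lit 18) (.p (nat_lit 219) (nat_lit 18) (.p (nat_lit 220) (nat_lit 36) (.n (nat_lit 221) (nat_lit 54) (.p (nat_lit 222) (nat_lit 72) (.p (nat_lit 223) (nat_lit 36) (.n (nat_lit 225) (nat_lit 36) (.p (nat_lit 226) (nat_lit 18) (.p (nat_lit 227) (nat_lit 18) (.p (nat_lit 229) (nat_lit 36) (.p (nat_lit 230) (nat_lit 18) (.n (nat_lit 231) (nat_lit 18) (.p (nat_lit 232) (nat_lit 18) (.p (nat_lit 233) (nat_lit 18) (.p (nat_lit 234) (nat_lit 18) (.n (nat_lit 236) (nat_lit 36) (.n (nat_lit 237) (nat_lit 18) (.p (nat_lit 238) (nat_lit 18) (.n (nat_lit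 239) (nat_lit 18) (.p (nat_lit 240) (nat_lit 36) .z)))))))))))))))))))))))))))))))))))))))))))) (.ct dW4x_c8466 (nat_lit 36) (nat_lit 3) (.s false (nat_lit 1) (nat_lit 29) (nat_lit 2) (nat_lit 0) (nat_lit 0) true (nat_lit 10) true (nat_lit 15) false (nat_lit 3) true (nat_lit 13) true (nat_lit 15) (.e false (nat_lit 72) (nat_lit 58) (nat_lit 5) (nat_lit 10) (.e false (nat_lit 36) (nat_lit 59) (nat_lit 5) (nat_lit 10) (.e true (nat_lit 36) (nat_lit 60) (nat_lit 5) (nat_lit 10) (.e true (nat_lit 36) (nat_lit 61) (nat_lit 5) (nat_lit 10) (.e true (nat_lit 36) (nat_lit 62) (nat_lit 5) (nat_lit 10) (.e false (nat_lit 36) (nat_lit 63) (nat_lit 5) (nat_lit 10) (.e false (nat_lit 36) (nat_lit 149) (nat_lit 0) (nat_lit 15) (.e false (nat_lit 72) (nat_lit 136) (nat_lit 0) (nat_lit 15) (.e false (nat_lit 36) (nat_lit 137) (nat_lit 0) (nat_lit 15) (.e true (nat_lit 36) (nat_lit 138) (nat_lit 0) (nat_lit 15) (.e true (nat_lit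 36) (nat_lit 139) (nat_lit 0) (nat_lit 15) (.e true (nat_lit 36) (nat_lit 140) (nat_lit 0) (nat_lit 15) (.e false (nat_lit 36) (nat_lit 141) (nat_lit 0) (nat_lit 15) .nil))))))))))))))) .leaf) (nat_lit 29712) (nat_lit 457) (.p (nat_lit 241) (nat_lit 36) (.n (nat_lit 242) (nat_lit 36) (.n (nat_lit 244) (nat_lit 216) (.n (nat_lit 245) (nat_lit 108) (.p (nat_lit 246) (nat_lit 36) (.p (nat_lit 247) (nat_lit 108) (.p (nat_lit 248) (nat_lit 108) (.n (nat_lit 249) (nat_lit 180) (.n (nat_lit 250) (nat_lit 36) (.n (nat_lit 251) (nat_lit 36) (.p (nat_lit 252) (nat_lit 72) (.p (nat_lit 253) (nat_lit 144) (.p (nat_lit 254) (nat_lit 108) (.p (nat_lit 255) (nat_lit 180) (.n (nat_lit 256) (nat_lit 72) (.p (nat_lit 257) (nat_lit 72) (.n (nat_lit 258) (nat_lit 144) (.p (nat_lit 259) (nat_lit 72) (.n (nat_lit 260) (nat_lit 36) (.n (nat_lit 261) (nat_lit 36) .z)))))))))))))))))))) (.ct dW4x_c8451 (nat_lit 36) (nat_lit 1) (.s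 true (nat_lit 1) (nat_lit 16) (nat_lit 3) (nat_lit 3) (nat_lit 1) true (nat_lit 4) true (nat_lit 8) true (nat_lit 1) true (nat_lit 7) true (nat_lit 7) (.e true (nat_lit 36) (nat_lit 55) (nat_lit 8) (nat_lit 4) (.e true (nat_lit 36) (nat_lit 151) (nat_lit 1) (nat_lit 8) (.e true (nat_lit 36) (nat_lit 106) (nat_lit 3) (nat_lit 7) (.e false (nat_lit 36) (nat_lit 109) (nat_lit 3) (nat_lit 7) (.e false (nat_lit 36) (nat_lit 110) (nat_lit 3) (nat_lit 7) (.e false (nat_lit 36) (nat_lit 111) (nat_lit 3) (nat_lit 7) (.e true (nat_lit 36) (nat_lit 113) (nat_lit 3) (nat_lit 7) (.e false (nat_lit 36) (nat_lit 114) (nat_lit 3) (nat_lit 7) (.e false (nat_lit 36) (nat_lit 104) (nat_lit 3) (nat_lit 7) .nil))))))))))) (.nd .leaf (nat_lit 29716) (nat_lit 609) (.n (nat_lit 283) (nat_lit 336) (.n (nat_lit 284) (nat_lit 552) (.n (nat_lit 285) (nat_lit 240) (.n (nat_lit 286) (nat_lit 156) (.p (nat_lit 287) (nat_lit 96) (.n (nat_lit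 288) (nat_lit 516) (.p (nat_lit 289) (nat_lit 468) (.p (nat_lit 290) (nat_lit 384) (.p (nat_lit 291) (nat_lit 36) (.p (nat_lit 292) (nat_lit 132) (.n (nat_lit 293) (nat_lit 252) (.p (nat_lit 294) (nat_lit 204) (.p (nat_lit 295) (nat_lit 192) (.p (nat_lit 296) (nat_lit 144) (.p (nat_lit 297) (nat_lit 72) (.n (nat_lit 298) (nat_lit 108) (.p (nat_lit 299) (nat_lit 336) (.p (nat_lit 301) (nat_lit 156) (.n (nat_lit 302) (nat_lit 156) (.n (nat_lit 303) (nat_lit 192) (.n (nat_lit 304) (nat_lit 156) (.p (nat_lit 305) (nat_lit 84) (.p (nat_lit 306) (nat_lit 480) (.n (nat_lit 307) (nat_lit 72) (.p (nat_lit 308) (nat_lit 252) (.n (nat_lit 309) (nat_lit 288) (.p (nat_lit 310) (nat_lit 288) (.n (nat_lit 311) (nat_lit 288) (.n (nat_lit 313) (nat_lit 252) (.n (nat_lit 314) (nat_lit 360) (.n (nat_lit 315) (nat_lit 180) (.n (nat_lit 316) (nat_lit 72) (.n (nat_lit 317) (nat_lit 144) (.n (nat_lit 318) (nat_lit 360) (.n (nat_lit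 319) (nat_lit 288) (.n (nat_lit 320) (nat_lit 72) (.p (nat_lit 321) (nat_lit 36) (.p (nat_lit 322) (nat_lit 36) (.p (nat_lit 324) (nat_lit 288) (.p (nat_lit 325) (nat_lit 360) (.p (nat_lit 326) (nat_lit 360) (.n (nat_lit 327) (nat_lit 432) (.n (nat_lit 328) (nat_lit 36) (.p (nat_lit 329) (nat_lit 432) .z)))))))))))))))))))))))))))))))))))))))))))) (.ct dW4x_c4371 (nat_lit 36) (nat_lit 1) (.s true (nat_lit 1) (nat_lit 29) (nat_lit 0) (nat_lit 2) (nat_lit 3) true (nat_lit 7) true (nat_lit 11) false (nat_lit 1) true (nat_lit 14) true (nat_lit 12) (.e true (nat_lit 36) (nat_lit 74) (nat_lit 7) (nat_lit 7) (.e false (nat_lit 72) (nat_lit 136) (nat_lit 3) (nat_lit 11) (.e false (nat_lit 36) (nat_lit 137) (nat_lit 3) (nat_lit 11) (.e true (nat_lit 36) (nat_lit 138) (nat_lit 3) (nat_lit 11) (.e true (nat_lit 36) (nat_lit 139) (nat_lit 3) (nat_lit 11) (.e true (nat_lit 36) (nat_lit 140) (nat_lit 3) (nat_lit 11) (.e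 false (nat_lit 36) (nat_lit 141) (nat_lit 3) (nat_lit 11) (.e true (nat_lit 72) (nat_lit 178) (nat_lit 0) (nat_lit 14) (.e true (nat_lit 72) (nat_lit 179) (nat_lit 0) (nat_lit 14) (.e false (nat_lit 36) (nat_lit 182) (nat_lit 0) (nat_lit 14) (.e true (nat_lit 72) (nat_lit 183) (nat_lit 0) (nat_lit 14) (.e false (nat_lit 36) (nat_lit 186) (nat_lit 0) (nat_lit 14) (.e false (nat_lit 36) (nat_lit 187) (nat_lit 0) (nat_lit 14) (.e false (nat_lit 36) (nat_lit 164) (nat_lit 2) (nat_lit 12) .nil)))))))))))))))) .leaf))))) (nat_lit 29718) (nat_lit 608) (.p (nat_lit 283) (nat_lit 484) (.p (nat_lit 284) (nat_lit 544) (.p (nat_lit 285) (nat_lit 392) (.p (nat_lit 286) (nat_lit 256) (.n (nat_lit 287) (nat_lit 188) (.p (nat_lit 288) (nat_lit 688) (.n (nat_lit 289) (nat_lit 624) (.n (nat_lit 290) (nat_lit 272) (.n (nat_lit 291) (nat_lit 120) (.n (nat_lit 292) (nat_lit 92) (.p (nat_lit 293) (nat_lit 564) (.n (nat_lit 294)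 (nat_lit 284) (.n (nat_lit 295) (nat_lit 148) (.n (nat_lit 296) (nat_lit 384) (.n (nat_lit 297) (nat_lit 360) (.p (nat_lit 298) (nat_lit 444) (.n (nat_lit 299) (nat_lit 688) (.n (nat_lit 301) (nat_lit 76) (.p (nat_lit 302) (nat_lit 496) (.n (nat_lit 303) (nat_lit 92) (.p (nat_lit 304) (nat_lit 160) (.n (nat_lit 305) (nat_lit 100) (.n (nat_lit 306) (nat_lit 1072) (.p (nat_lit 307) (nat_lit 36) (.n (nat_lit 308) (nat_lit 396) (.p (nat_lit 309) (nat_lit 360) (.n (nat_lit 310) (nat_lit 288) (.p (nat_lit 311) (nat_lit 300) (.n (nat_lit 312) (nat_lit 48) (.p (nat_lit 313) (nat_lit 300) (.p (nat_lit 314) (nat_lit 432) (.p (nat_lit 315) (nat_lit 312) (.p (nat_lit 316) (nat_lit 156) (.p (nat_lit 317) (nat_lit 144) (.p (nat_lit 318) (nat_lit 324) (.p (nat_lit 319) (nat_lit 240) (.p (nat_lit 320) (nat_lit 72) (.p (nat_lit 321) (nat_lit 48) (.p (nat_lit 322) (nat_lit 60) (.n (nat_lit 323) (nat_lit 120) (.n (nat_lit 324)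 (nat_lit 372) (.n (nat_lit 325) (nat_lit 432) (.n (nat_lit 326) (nat_lit 396) (.p (nat_lit 327) (nat_lit 444) (.n (nat_lit 328) (nat_lit 12) (.n (nat_lit 329) (nat_lit 420) .z)))))))))))))))))))))))))))))))))))))))))))))) (.ct dW4x_c4371 (nat_lit 36) (nat_lit 1) (.s true (nat_lit 1) (nat_lit 29) (nat_lit 2) (nat_lit 3) (nat_lit 0) true (nat_lit 9) true (nat_lit 14) false (nat_lit 1) true (nat_lit 12) true (nat_lit 11) (.e false (nat_lit 36) (nat_lit 80) (nat_lit 5) (nat_lit 9) (.e true (nat_lit 36) (nat_lit 182) (nat_lit 0) (nat_lit 14) (.e false (nat_lit 36) (nat_lit 157) (nat_lit 2) (nat_lit 12) (.e false (nat_lit 36) (nat_lit 158) (nat_lit 2) (nat_lit 12) (.e false (nat_lit 36) (nat_lit 159) (nat_lit 2) (nat_lit 12) (.e true (nat_lit 36) (nat_lit 160) (nat_lit 2) (nat_lit 12) (.e false (nat_lit 36) (nat_lit 161) (nat_lit 2) (nat_lit 12) (.e true (nat_lit 36) (nat_lit 162) (nat_lit 2) (nat_lit 12) (.e false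 (nat_lit 36) (nat_lit 165) (nat_lit 2) (nat_lit 12) (.e true (nat_lit 72) (nat_lit 136) (nat_lit 3) (nat_lit 11) (.e true (nat_lit 36) (nat_lit 137) (nat_lit 3) (nat_lit 11) (.e false (nat_lit 36) (nat_lit 138) (nat_lit 3) (nat_lit 11) (.e false (nat_lit 36) (nat_lit 139) (nat_lit 3) (nat_lit 11) (.e false (nat_lit 36) (nat_lit 140) (nat_lit 3) (nat_lit 11) (.e true (nat_lit 36) (nat_lit 141) (nat_lit 3) (nat_lit 11) .nil))))))))))))))))) (.nd (.nd (.nd (.nd (.nd (.nd .leaf (nat_lit 30720) (nat_lit 80) (.p (nat_lit 69) (nat_lit 36) .z) .df .leaf) (nat_lit 30721) (nat_lit 89) (.p (nat_lit 75) (nat_lit 36) .z) .df .leaf) (nat_lit 30723) (nat_lit 101) (.p (nat_lit 82) (nat_lit 36) .z) .df (.nd .leaf (nat_lit 30724) (nat_lit 204) (.p (nat_lit 126) (nat_lit 48) (.p (nat_lit 127) (nat_lit 12) (.n (nat_lit 128) (nat_lit 12) (.p (nat_lit 129) (nat_lit 12) (.n (nat_lit 130) (nat_lit 24) (.p (nat_lit 131) (nat_lit 12)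 (.p (nat_lit 133) (nat_lit 12) (.p (nat_lit 135) (nat_lit 12) (.n (nat_lit 137) (nat_lit 24) (.p (nat_lit 138) (nat_lit 24) (.n (nat_lit 139) (nat_lit 36) (.p (nat_lit 141) (nat_lit 36) (.n (nat_lit 142) (nat_lit 12) (.n (nat_lit 144) (nat_lit 12) (.p (nat_lit 145) (nat_lit 12) (.p (nat_lit 146) (nat_lit 12) (.p (nat_lit 147) (nat_lit 12) (.n (nat_lit 149) (nat_lit 12) (.n (nat_lit 150) (nat_lit 12) .z))))))))))))))))))) (.ct dW4x_c4370 (nat_lit 108) (nat_lit 6) (.s false (nat_lit 2) (nat_lit 4) (nat_lit 2) (nat_lit 3) (nat_lit 3) true (nat_lit 1) true (nat_lit 7) true (nat_lit 6) true (nat_lit 8) true (nat_lit 7) (.s false (nat_lit 1) (nat_lit 7) (nat_lit 1) (nat_lit 2) (nat_lit 3) true (nat_lit 2) true (nat_lit 7) true (nat_lit 3) true (nat_lit 9) true (nat_lit 8) dW4x_i0))) .leaf)) (nat_lit 30727) (nat_lit 268) (.p (nat_lit 168) (nat_lit 36) (.p (nat_lit 170) (nat_lit 36) (.n (nat_lit 173) (nat_lit 36) (.n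 (nat_lit 174) (nat_lit 36) (.p (nat_lit 177) (nat_lit 36) .z))))) (.ct dW4x_c4115 (nat_lit 36) (nat_lit 2) (.s false (nat_lit 1) (nat_lit 7) (nat_lit 2) (nat_lit 3) (nat_lit 3) true (nat_lit 1) true (nat_lit 4) true (nat_lit 2) true (nat_lit 5) true (nat_lit 4) (.e false (nat_lit 36) (nat_lit 26) (nat_lit 9) (nat_lit 1) (.e false (nat_lit 36) (nat_lit 65) (nat_lit 3) (nat_lit 4) (.e true (nat_lit 36) (nat_lit 77) (nat_lit 2) (nat_lit 5) (.e true (nat_lit 36) (nat_lit 78) (nat_lit 2) (nat_lit 5) (.e false (nat_lit 36) (nat_lit 67) (nat_lit 3) (nat_lit 4) .nil))))))) (.nd (.nd (.nd .leaf (nat_lit 30728) (nat_lit 288) (.p (nat_lit 179) (nat_lit 36) (.p (nat_lit 181) (nat_lit 36) (.n (nat_lit 184) (nat_lit 36) (.n (nat_lit 185) (nat_lit 36) (.p (nat_lit 188) (nat_lit 36) .z))))) (.ct dW4x_c275 (nat_lit 36) (nat_lit 2) (.s false (nat_lit 1) (nat_lit 8) (nat_lit 2) (nat_lit 3) (nat_lit 3) true (nat_lit 1) true (nat_lit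 4) true (nat_lit 2) true (nat_lit 5) true (nat_lit 4) (.e false (nat_lit 36) (nat_lit 28) (nat_lit 9) (nat_lit 1) (.e false (nat_lit 36) (nat_lit 71) (nat_lit 3) (nat_lit 4) (.e true (nat_lit 36) (nat_lit 80) (nat_lit 2) (nat_lit 5) (.e true (nat_lit 36) (nat_lit 81) (nat_lit 2) (nat_lit 5) (.e false (nat_lit 36) (nat_lit 73) (nat_lit 3) (nat_lit 4) .nil))))))) .leaf) (nat_lit 30731) (nat_lit 397) (.n (nat_lit 189) (nat_lit 78) (.p (nat_lit 190) (nat_lit 66) (.p (nat_lit 191) (nat_lit 42) (.n (nat_lit 192) (nat_lit 6) (.p (nat_lit 193) (nat_lit 138) (.p (nat_lit 194) (nat_lit 30) (.n (nat_lit 195) (nat_lit 36) (.n (nat_lit 196) (nat_lit 96) (.n (nat_lit 197) (nat_lit 36) (.n (nat_lit 198) (nat_lit 132) (.n (nat_lit 199) (nat_lit 90) (.p (nat_lit 200) (nat_lit 30) (.n (nat_lit 201) (nat_lit 30) (.p (nat_lit 202) (nat_lit 36) (.p (nat_lit 203) (nat_lit 54) (.n (nat_lit 204) (nat_lit 108) (.p (nat_lit 205) (nat_lit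 96) (.n (nat_lit 206) (nat_lit 48) (.n (nat_lit 207) (nat_lit 60) (.p (nat_lit 208) (nat_lit 48) (.n (nat_lit 209) (nat_lit 24) (.p (nat_lit 210) (nat_lit 24) (.p (nat_lit 211) (nat_lit 60) (.p (nat_lit 214) (nat_lit 18) (.n (nat_lit 217) (nat_lit 18) (.n (nat_lit 218) (nat_lit 18) (.p (nat_lit 219) (nat_lit 18) (.n (nat_lit 221) (nat_lit 84) (.p (nat_lit 222) (nat_lit 84) (.p (nat_lit 223) (nat_lit 72) (.p (nat_lit 224) (nat_lit 12) (.n (nat_lit 225) (nat_lit 48) (.n (nat_lit 228) (nat_lit 12) (.p (nat_lit 229) (nat_lit 48) (.p (nat_lit 230) (nat_lit 30) (.n (nat_lit 231) (nat_lit 30) (.p (nat_lit 232) (nat_lit 42) (.p (nat_lit 233) (nat_lit 42) (.n (nat_lit 234) (nat_lit 6) (.n (nat_lit 235) (nat_lit 42) (.n (nat_lit 236) (nat_lit 24) (.n (nat_lit 237) (nat_lit 12) (.p (nat_lit 238) (nat_lit 24) (.n (nat_lit 240) (nat_lit 36) .z)))))))))))))))))))))))))))))))))))))))))))) (.ct dW4x_c8466 (nat_lit 36) (nat_lit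 4) (.s true (nat_lit 1) (nat_lit 30) (nat_lit 0) (nat_lit 1) (nat_lit 0) false (nat_lit 16) true (nat_lit 15) false (nat_lit 4) true (nat_lit 15) true (nat_lit 14) (.e true (nat_lit 24) (nat_lit 146) (nat_lit 0) (nat_lit 15) (.e false (nat_lit 48) (nat_lit 126) (nat_lit 0) (nat_lit 15) (.e false (nat_lit 12) (nat_lit 127) (nat_lit 0) (nat_lit 15) (.e true (nat_lit 12) (nat_lit 128) (nat_lit 0) (nat_lit 15) (.e false (nat_lit 12) (nat_lit 129) (nat_lit 0) (nat_lit 15) (.e true (nat_lit 24) (nat_lit 130) (nat_lit 0) (nat_lit 15) (.e false (nat_lit 12) (nat_lit 131) (nat_lit 0) (nat_lit 15) (.e false (nat_lit 12) (nat_lit 133) (nat_lit 0) (nat_lit 15) (.e false (nat_lit 12) (nat_lit 135) (nat_lit 0) (nat_lit 15) (.e true (nat_lit 24) (nat_lit 137) (nat_lit 0) (nat_lit 15) (.e false (nat_lit 24) (nat_lit 138) (nat_lit 0) (nat_lit 15) (.e true (nat_lit 36) (nat_lit 139) (nat_lit 0) (nat_lit 15) (.e false (nat_lit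 36) (nat_lit 141) (nat_lit 0) (nat_lit 15) (.e true (nat_lit 12) (nat_lit 142) (nat_lit 0) (nat_lit 15) (.e true (nat_lit 12) (nat_lit 144) (nat_lit 0) (nat_lit 15) (.e false (nat_lit 12) (nat_lit 145) (nat_lit 0) (nat_lit 15) (.e false (nat_lit 12) (nat_lit 147) (nat_lit 0) (nat_lit 15) (.e true (nat_lit 12) (nat_lit 149) (nat_lit 0) (nat_lit 15) (.e true (nat_lit 12) (nat_lit 150) (nat_lit 0) (nat_lit 15) (.e false (nat_lit 36) (nat_lit 125) (nat_lit 1) (nat_lit 14) .nil)))))))))))))))))))))) .leaf) (nat_lit 30737) (nat_lit 622) (.p (nat_lit 286) (nat_lit 36) (.p (nat_lit 293) (nat_lit 36) (.n (nat_lit 315) (nat_lit 36) (.p (nat_lit 327) (nat_lit 36) .z)))) (.ct dW4x_c4371 (nat_lit 36) (nat_lit 2) (.s false (nat_lit 1) (nat_lit 17) (nat_lit 2) (nat_lit 3) (nat_lit 3) true (nat_lit 5) true (nat_lit 11) true (nat_lit 2) true (nat_lit 12) true (nat_lit 11) (.e false (nat_lit 36) (nat_lit 58) (nat_lit 9) (nat_lit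 5) (.e false (nat_lit 36) (nat_lit 129) (nat_lit 3) (nat_lit 11) (.e true (nat_lit 36) (nat_lit 165) (nat_lit 2) (nat_lit 12) (.e false (nat_lit 36) (nat_lit 136) (nat_lit 3) (nat_lit 11) .nil)))))) (.nd .leaf (nat_lit 30738) (nat_lit 611) (.n (nat_lit 283) (nat_lit 40) (.n (nat_lit 284) (nat_lit 136) (.n (nat_lit 285) (nat_lit 8) (.p (nat_lit 286) (nat_lit 8) (.p (nat_lit 287) (nat_lit 20) (.n (nat_lit 288) (nat_lit 64) (.p (nat_lit 289) (nat_lit 48) (.p (nat_lit 290) (nat_lit 104) (.n (nat_lit 291) (nat_lit 24) (.p (nat_lit 292) (nat_lit 32) (.p (nat_lit 293) (nat_lit 12) (.p (nat_lit 294) (nat_lit 44) (.p (nat_lit 295) (nat_lit 64) (.n (nat_lit 296) (nat_lit 12) (.n (nat_lit 297) (nat_lit 72) (.p (nat_lit 298) (nat_lit 60) (.n (nat_lit 299) (nat_lit 44) (.p (nat_lit 301) (nat_lit 100) (.p (nat_lit 302) (nat_lit 56) (.n (nat_lit 303) (nat_lit 148) (.n (nat_lit 304) (nat_lit 40) (.p (nat_lit 305) (nat_lit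 16) (.n (nat_lit 306) (nat_lit 56) (.n (nat_lit 307) (nat_lit 108) (.n (nat_lit 308) (nat_lit 36) (.n (nat_lit 309) (nat_lit 36) (.p (nat_lit 310) (nat_lit 108) (.n (nat_lit 311) (nat_lit 120) (.n (nat_lit 312) (nat_lit 24) (.n (nat_lit 313) (nat_lit 48) (.n (nat_lit 314) (nat_lit 72) (.p (nat_lit 315) (nat_lit 12) (.p (nat_lit 316) (nat_lit 24) (.n (nat_lit 317) (nat_lit 36) (.n (nat_lit 318) (nat_lit 72) (.n (nat_lit 319) (nat_lit 60) (.n (nat_lit 320) (nat_lit 36) (.p (nat_lit 321) (nat_lit 24) (.p (nat_lit 322) (nat_lit 12) (.n (nat_lit 323) (nat_lit 24) (.p (nat_lit 324) (nat_lit 48) (.p (nat_lit 325) (nat_lit 72) (.p (nat_lit 326) (nat_lit 72) (.n (nat_lit 327) (nat_lit 120) (.p (nat_lit 328) (nat_lit 12) (.p (nat_lit 329) (nat_lit 96) .z)))))))))))))))))))))))))))))))))))))))))))))) (.ct dW4x_c4371 (nat_lit 36) (nat_lit 2) (.s true (nat_lit 1) (nat_lit 9) (nat_lit 1) (nat_lit 3) (nat_lit 7) true (nat_lit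 2) true (nat_lit 7) true (nat_lit 5) true (nat_lit 13) true (nat_lit 11) (.e true (nat_lit 36) (nat_lit 72) (nat_lit 7) (nat_lit 7) (.e true (nat_lit 36) (nat_lit 58) (nat_lit 9) (nat_lit 5) (.e true (nat_lit 36) (nat_lit 59) (nat_lit 9) (nat_lit 5) (.e false (nat_lit 36) (nat_lit 62) (nat_lit 9) (nat_lit 5) (.e true (nat_lit 36) (nat_lit 63) (nat_lit 9) (nat_lit 5) (.e true (nat_lit 36) (nat_lit 177) (nat_lit 1) (nat_lit 13) (.e false (nat_lit 36) (nat_lit 142) (nat_lit 3) (nat_lit 11) (.e false (nat_lit 36) (nat_lit 143) (nat_lit 3) (nat_lit 11) (.e true (nat_lit 36) (nat_lit 145) (nat_lit 3) (nat_lit 11) (.e false (nat_lit 36) (nat_lit 146) (nat_lit 3) (nat_lit 11) .nil)))))))))))) .leaf))) (nat_lit 30739) (nat_lit 606) (.p (nat_lit 283) (nat_lit 40) (.p (nat_lit 284) (nat_lit 136) (.p (nat_lit 285) (nat_lit 8) (.n (nat_lit 286) (nat_lit 8) (.p (nat_lit 287) (nat_lit 16) (.p (nat_lit 288) (nat_lit 100) (.n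 (nat_lit 289) (nat_lit 48) (.n (nat_lit 290) (nat_lit 104) (.p (nat_lit 291) (nat_lit 24) (.n (nat_lit 292) (nat_lit 32) (.n (nat_lit 293) (nat_lit 12) (.n (nat_lit 294) (nat_lit 8) (.n (nat_lit 295) (nat_lit 28) (.p (nat_lit 296) (nat_lit 12) (.p (nat_lit 297) (nat_lit 72) (.n (nat_lit 298) (nat_lit 60) (.p (nat_lit 299) (nat_lit 44) (.n (nat_lit 301) (nat_lit 100) (.n (nat_lit 302) (nat_lit 56) (.p (nat_lit 303) (nat_lit 148) (.p (nat_lit 304) (nat_lit 40) (.n (nat_lit 305) (nat_lit 16) (.p (nat_lit 306) (nat_lit 56) (.p (nat_lit 307) (nat_lit 36) (.n (nat_lit 308) (nat_lit 36) (.p (nat_lit 309) (nat_lit 36) (.n (nat_lit 310) (nat_lit 36) (.p (nat_lit 311) (nat_lit 48) (.n (nat_lit 312) (nat_lit 12) (.p (nat_lit 313) (nat_lit 48) (.p (nat_lit 314) (nat_lit 36) (.n (nat_lit 315) (nat_lit 12) (.n (nat_lit 316) (nat_lit 24) (.p (nat_lit 317) (nat_lit 36) (.p (nat_lit 318) (nat_lit 72) (.p (nat_lit 319) (nat_lit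 60) (.p (nat_lit 320) (nat_lit 36) (.n (nat_lit 321) (nat_lit 24) (.n (nat_lit 322) (nat_lit 12) (.p (nat_lit 323) (nat_lit 24) (.n (nat_lit 324) (nat_lit 48) (.n (nat_lit 325) (nat_lit 72) (.n (nat_lit 326) (nat_lit 72) (.p (nat_lit 327) (nat_lit 120) (.p (nat_lit 328) (nat_lit 24) (.n (nat_lit 329) (nat_lit 60) .z)))))))))))))))))))))))))))))))))))))))))))))) (.ct dW4x_c4371 (nat_lit 36) (nat_lit 2) (.s false (nat_lit 1) (nat_lit 19) (nat_lit 2) (nat_lit 3) (nat_lit 3) true (nat_lit 5) true (nat_lit 11) true (nat_lit 2) true (nat_lit 12) true (nat_lit 11) (.e false (nat_lit 36) (nat_lit 60) (nat_lit 9) (nat_lit 5) (.e false (nat_lit 36) (nat_lit 131) (nat_lit 3) (nat_lit 11) (.e false (nat_lit 36) (nat_lit 157) (nat_lit 2) (nat_lit 12) (.e true (nat_lit 36) (nat_lit 158) (nat_lit 2) (nat_lit 12) (.e false (nat_lit 36) (nat_lit 159) (nat_lit 2) (nat_lit 12) (.e false (nat_lit 36) (nat_lit 160) (nat_lit 2)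 (nat_lit 12) (.e true (nat_lit 36) (nat_lit 161) (nat_lit 2) (nat_lit 12) (.e true (nat_lit 36) (nat_lit 162) (nat_lit 2) (nat_lit 12) (.e true (nat_lit 36) (nat_lit 163) (nat_lit 2) (nat_lit 12) (.e true (nat_lit 36) (nat_lit 164) (nat_lit 2) (nat_lit 12) (.e true (nat_lit 36) (nat_lit 165) (nat_lit 2) (nat_lit 12) (.e false (nat_lit 36) (nat_lit 138) (nat_lit 3) (nat_lit 11) .nil)))))))))))))) (.nd (.nd (.nd (.nd .leaf (nat_lit 31744) (nat_lit 82) (.n (nat_lit 64) (nat_lit 72) (.n (nat_lit 65) (nat_lit 36) (.p (nat_lit 66) (nat_lit 36) (.p (nat_lit 67) (nat_lit 36) (.p (nat_lit 68) (nat_lit 36) (.n (nat_lit 69) (nat_lit 36) .z)))))) (.ct dW4x_c4114 (nat_lit 36) (nat_lit 4) (.s false (nat_lit 1) (nat_lit 3) (nat_lit 2) (nat_lit 0) (nat_lit 3) false (nat_lit 0) true (nat_lit 2) true (nat_lit 2) true (nat_lit 3) true (nat_lit 4) (.e false (nat_lit 36) (nat_lit 9) (nat_lit 7) (nat_lit 0) (.e false (nat_lit 36)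 (nat_lit 22) (nat_lit 3) (nat_lit 2) (.e true (nat_lit 36) (nat_lit 20) (nat_lit 3) (nat_lit 2) (.e false (nat_lit 36) (nat_lit 26) (nat_lit 2) (nat_lit 3) .nil)))))) .leaf) (nat_lit 31745) (nat_lit 91) (.n (nat_lit 70) (nat_lit 72) (.n (nat_lit 71) (nat_lit 36) (.p (nat_lit 72) (nat_lit 36) (.p (nat_lit 73) (nat_lit 36) (.p (nat_lit 74) (nat_lit 36) (.n (nat_lit 75) (nat_lit 36) .z)))))) (.ct dW4x_c274 (nat_lit 36) (nat_lit 4) (.s false (nat_lit 1) (nat_lit 3) (nat_lit 2) (nat_lit 1) (nat_lit 3) false (nat_lit 0) true (nat_lit 2) true (nat_lit 2) true (nat_lit 3) true (nat_lit 4) (.e false (nat_lit 36) (nat_lit 9) (nat_lit 8) (nat_lit 0) (.e false (nat_lit 36) (nat_lit 25) (nat_lit 3) (nat_lit 2) (.e true (nat_lit 36) (nat_lit 23) (nat_lit 3) (nat_lit 2) (.e false (nat_lit 36) (nat_lit 28) (nat_lit 2) (nat_lit 3) .nil)))))) .leaf) (nat_lit 31747) (nat_lit 102) (.p (nat_lit 83) (nat_lit 36) .z) .df (.nd .leaf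 (nat_lit 31748) (nat_lit 224) (.p (nat_lit 126) (nat_lit 24) (.p (nat_lit 127) (nat_lit 24) (.p (nat_lit 128) (nat_lit 12) (.p (nat_lit 129) (nat_lit 24) (.p (nat_lit 130) (nat_lit 24) (.p (nat_lit 131) (nat_lit 24) (.n (nat_lit 133) (nat_lit 48) (.n (nat_lit 135) (nat_lit 48) (.n (nat_lit 136) (nat_lit 36) (.n (nat_lit 137) (nat_lit 12) (.p (nat_lit 138) (nat_lit 12) (.p (nat_lit 142) (nat_lit 12) (.p (nat_lit 144) (nat_lit 12) (.n (nat_lit 145) (nat_lit 12) (.n (nat_lit 146) (nat_lit 12) (.n (nat_lit 147) (nat_lit 12) (.p (nat_lit 149) (nat_lit 12) (.p (nat_lit 150) (nat_lit 12) .z)))))))))))))))))) (.ct dW4x_c4370 (nat_lit 36) (nat_lit 6) (.s true (nat_lit 1) (nat_lit 4) (nat_lit 3) (nat_lit 3) (nat_lit 2) true (nat_lit 1) true (nat_lit 8) true (nat_lit 6) true (nat_lit 7) true (nat_lit 7) (.e true (nat_lit 36) (nat_lit 17) (nat_lit 9) (nat_lit 1) (.e true (nat_lit 36) (nat_lit 58) (nat_lit 2) (nat_lit 8)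 (.e false (nat_lit 36) (nat_lit 46) (nat_lit 3) (nat_lit 7) (.e false (nat_lit 36) (nat_lit 50) (nat_lit 3) (nat_lit 7) (.e true (nat_lit 36) (nat_lit 52) (nat_lit 3) (nat_lit 7) (.e true (nat_lit 36) (nat_lit 54) (nat_lit 3) (nat_lit 7) (.e false (nat_lit 36) (nat_lit 45) (nat_lit 3) (nat_lit 7) .nil))))))))) .leaf)) (nat_lit 31751) (nat_lit 270) (.p (nat_lit 168) (nat_lit 36) (.p (nat_lit 169) (nat_lit 36) (.p (nat_lit 170) (nat_lit 36) (.n (nat_lit 171) (nat_lit 36) (.p (nat_lit 172) (nat_lit 36) (.n (nat_lit 173) (nat_lit 36) (.p (nat_lit 176) (nat_lit 36) .z))))))) (.ct dW4x_c4115 (nat_lit 36) (nat_lit 2) (.s true (nat_lit 1) (nat_lit 10) (nat_lit 0) (nat_lit 2) (nat_lit 3) true (nat_lit 2) true (nat_lit 4) true (nat_lit 0) true (nat_lit 6) true (nat_lit 5) (.e true (nat_lit 36) (nat_lit 68) (nat_lit 3) (nat_lit 4) (.e false (nat_lit 36) (nat_lit 20) (nat_lit 10) (nat_lit 0) (.e false (nat_lit 36) (nat_lit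 83) (nat_lit 0) (nat_lit 6) (.e false (nat_lit 36) (nat_lit 84) (nat_lit 0) (nat_lit 6) (.e false (nat_lit 36) (nat_lit 78) (nat_lit 2) (nat_lit 5) .nil))))))) (.nd (.nd (.nd .leaf (nat_lit 31752) (nat_lit 290) (.p (nat_lit 179) (nat_lit 36) (.p (nat_lit 180) (nat_lit 36) (.p (nat_lit 181) (nat_lit 36) (.n (nat_lit 182) (nat_lit 36) (.p (nat_lit 183) (nat_lit 36) (.n (nat_lit 184) (nat_lit 36) (.p (nat_lit 187) (nat_lit 36) .z))))))) (.ct dW4x_c275 (nat_lit 36) (nat_lit 2) (.s true (nat_lit 1) (nat_lit 10) (nat_lit 1) (nat_lit 2) (nat_lit 3) true (nat_lit 2) true (nat_lit 4) true (nat_lit 0) true (nat_lit 6) true (nat_lit 5) (.e true (nat_lit 36) (nat_lit 74) (nat_lit 3) (nat_lit 4) (.e false (nat_lit 36) (nat_lit 23) (nat_lit 10) (nat_lit 0) (.e false (nat_lit 36) (nat_lit 83) (nat_lit 1) (nat_lit 6) (.e false (nat_lit 36) (nat_lit 84) (nat_lit 1) (nat_lit 6) (.e false (nat_lit 36) (nat_lit 81) (nat_lit 2)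 (nat_lit 5) .nil))))))) .leaf) (nat_lit 31755) (nat_lit 403) (.p (nat_lit 190) (nat_lit 36) (.p (nat_lit 191) (nat_lit 60) (.p (nat_lit 192) (nat_lit 24) (.p (nat_lit 193) (nat_lit 36) (.p (nat_lit 194) (nat_lit 48) (.n (nat_lit 195) (nat_lit 24) (.n (nat_lit 196) (nat_lit 36) (.n (nat_lit 197) (nat_lit 24) (.n (nat_lit 198) (nat_lit 60) (.n (nat_lit 199) (nat_lit 36) (.n (nat_lit 200) (nat_lit 12) (.p (nat_lit 201) (nat_lit 12) (.p (nat_lit 202) (nat_lit 24) (.p (nat_lit 203) (nat_lit 12) (.n (nat_lit 204) (nat_lit 48) (.p (nat_lit 205) (nat_lit 48) (.n (nat_lit 206) (nat_lit 48) (.n (nat_lit 207) (nat_lit 24) (.p (nat_lit 208) (nat_lit 48) (.n (nat_lit 209) (nat_lit 48) (.n (nat_lit 211) (nat_lit 48) (.p (nat_lit 214) (nat_lit 24) (.p (nat_lit 216) (nat_lit 12) (.n (nat_lit 217) (nat_lit 48) (.n (nat_lit 218) (nat_lit 48) (.p (nat_lit 219) (nat_lit 48) (.n (nat_lit 220) (nat_lit 24) (.n (nat_lit 221) (nat_lit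 112) (.p (nat_lit 222) (nat_lit 124) (.p (nat_lit 223) (nat_lit 120) (.n (nat_lit 224) (nat_lit 20) (.n (nat_lit 225) (nat_lit 28) (.p (nat_lit 226) (nat_lit 12) (.p (nat_lit 227) (nat_lit 12) (.p (nat_lit 228) (nat_lit 20) (.p (nat_lit 229) (nat_lit 28) (.p (nat_lit 230) (nat_lit 100) (.n (nat_lit 231) (nat_lit 76) (.p (nat_lit 232) (nat_lit 80) (.p (nat_lit 233) (nat_lit 56) (.n (nat_lit 234) (nat_lit 8) (.n (nat_lit 235) (nat_lit 8) (.n (nat_lit 236) (nat_lit 44) (.n (nat_lit 237) (nat_lit 16) (.n (nat_lit 238) (nat_lit 4) (.p (nat_lit 239) (nat_lit 12) (.n (nat_lit 240) (nat_lit 24) .z))))))))))))))))))))))))))))))))))))))))))))))) (.ct dW4x_c8466 (nat_lit 36) (nat_lit 4) (.s false (nat_lit 1) (nat_lit 10) (nat_lit 4) (nat_lit 2) (nat_lit 0) true (nat_lit 4) true (nat_lit 15) true (nat_lit 5) true (nat_lit 11) true (nat_lit 13) (.e true (nat_lit 36) (nat_lit 137) (nat_lit 0) (nat_lit 15) (.e false (nat_lit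 36) (nat_lit 138) (nat_lit 0) (nat_lit 15) (.e true (nat_lit 36) (nat_lit 139) (nat_lit 0) (nat_lit 15) (.e false (nat_lit 36) (nat_lit 141) (nat_lit 0) (nat_lit 15) (.e false (nat_lit 36) (nat_lit 35) (nat_lit 10) (nat_lit 5) (.e false (nat_lit 36) (nat_lit 65) (nat_lit 4) (nat_lit 11) (.e true (nat_lit 36) (nat_lit 66) (nat_lit 4) (nat_lit 11) (.e false (nat_lit 36) (nat_lit 67) (nat_lit 4) (nat_lit 11) (.e true (nat_lit 36) (nat_lit 69) (nat_lit 4) (nat_lit 11) (.e false (nat_lit 36) (nat_lit 108) (nat_lit 2) (nat_lit 13) (.e false (nat_lit 72) (nat_lit 109) (nat_lit 2) (nat_lit 13) (.e true (nat_lit 72) (nat_lit 112) (nat_lit 2) (nat_lit 13) (.e true (nat_lit 36) (nat_lit 113) (nat_lit 2) (nat_lit 13) (.e false (nat_lit 72) (nat_lit 114) (nat_lit 2) (nat_lit 13) .nil)))))))))))))))) .leaf) (nat_lit 31760) (nat_lit 506) (.p (nat_lit 262) (nat_lit 36) (.n (nat_lit 263) (nat_lit 36) (.n (nat_lit 265) (nat_lit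 216) (.n (nat_lit 266) (nat_lit 108) (.p (nat_lit 267) (nat_lit 36) (.p (nat_lit 268) (nat_lit 108) (.p (nat_lit 269) (nat_lit 108) (.n (nat_lit 270) (nat_lit 180) (.n (nat_lit 271) (nat_lit 36) (.n (nat_lit 272) (nat_lit 36) (.p (nat_lit 273) (nat_lit 72) (.p (nat_lit 274) (nat_lit 144) (.p (nat_lit 275) (nat_lit 108) (.p (nat_lit 276) (nat_lit 180) (.n (nat_lit 277) (nat_lit 72) (.p (nat_lit 278) (nat_lit 72) (.n (nat_lit 279) (nat_lit 144) (.p (nat_lit 280) (nat_lit 72) (.n (nat_lit 281) (nat_lit 36) (.n (nat_lit 282) (nat_lit 36) .z)))))))))))))))))))) (.ct dW4x_c8211 (nat_lit 36) (nat_lit 1) (.s true (nat_lit 1) (nat_lit 16) (nat_lit 3) (nat_lit 3) (nat_lit 2) true (nat_lit 4) true (nat_lit 8) true (nat_lit 1) true (nat_lit 7) true (nat_lit 7) (.e true (nat_lit 36) (nat_lit 55) (nat_lit 9) (nat_lit 4) (.e true (nat_lit 36) (nat_lit 151) (nat_lit 2) (nat_lit 8) (.e true (nat_lit 36) (nat_lit 117) (nat_lit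 3) (nat_lit 7) (.e false (nat_lit 36) (nat_lit 120) (nat_lit 3) (nat_lit 7) (.e false (nat_lit 36) (nat_lit 121) (nat_lit 3) (nat_lit 7) (.e false (nat_lit 36) (nat_lit 122) (nat_lit 3) (nat_lit 7) (.e true (nat_lit 36) (nat_lit 124) (nat_lit 3) (nat_lit 7) (.e false (nat_lit 36) (nat_lit 125) (nat_lit 3) (nat_lit 7) (.e false (nat_lit 36) (nat_lit 115) (nat_lit 3) (nat_lit 7) .nil))))))))))) (.nd .leaf (nat_lit 31761) (nat_lit 612) (.n (nat_lit 283) (nat_lit 12) (.n (nat_lit 284) (nat_lit 12) (.p (nat_lit 285) (nat_lit 12) (.p (nat_lit 286) (nat_lit 60) (.p (nat_lit 287) (nat_lit 24) (.n (nat_lit 288) (nat_lit 12) (.n (nat_lit 290) (nat_lit 12) (.n (nat_lit 292) (nat_lit 12) (.n (nat_lit 294) (nat_lit 12) (.p (nat_lit 295) (nat_lit 12) (.p (nat_lit 299) (nat_lit 12) (.p (nat_lit 301) (nat_lit 12) (.n (nat_lit 302) (nat_lit 12) (.n (nat_lit 303) (nat_lit 12) (.n (nat_lit 304) (nat_lit 12) (.p (nat_lit 305)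 (nat_lit 12) (.p (nat_lit 306) (nat_lit 12) (.n (nat_lit 307) (nat_lit 36) (.n (nat_lit 327) (nat_lit 36) .z))))))))))))))))))) (.ct dW4x_c4371 (nat_lit 36) (nat_lit 2) (.s false (nat_lit 1) (nat_lit 10) (nat_lit 4) (nat_lit 2) (nat_lit 3) true (nat_lit 2) true (nat_lit 11) true (nat_lit 4) true (nat_lit 10) true (nat_lit 12) (.e true (nat_lit 36) (nat_lit 137) (nat_lit 3) (nat_lit 11) (.e false (nat_lit 36) (nat_lit 138) (nat_lit 3) (nat_lit 11) (.e true (nat_lit 36) (nat_lit 139) (nat_lit 3) (nat_lit 11) (.e false (nat_lit 36) (nat_lit 141) (nat_lit 3) (nat_lit 11) (.e false (nat_lit 36) (nat_lit 45) (nat_lit 10) (nat_lit 4) (.e true (nat_lit 36) (nat_lit 83) (nat_lit 4) (nat_lit 10) (.e true (nat_lit 36) (nat_lit 84) (nat_lit 4) (nat_lit 10) (.e true (nat_lit 36) (nat_lit 157) (nat_lit 2) (nat_lit 12) (.e false (nat_lit 36) (nat_lit 158) (nat_lit 2) (nat_lit 12) (.e true (nat_lit 36) (nat_lit 159) (nat_lit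 2) (nat_lit 12) (.e false (nat_lit 36) (nat_lit 161) (nat_lit 2) (nat_lit 12) (.e false (nat_lit 36) (nat_lit 165) (nat_lit 2) (nat_lit 12) .nil)))))))))))))) .leaf)))) (nat_lit 31763) (nat_lit 607) (.n (nat_lit 283) (nat_lit 56) (.n (nat_lit 284) (nat_lit 212) (.p (nat_lit 285) (nat_lit 32) (.p (nat_lit 286) (nat_lit 4) (.p (nat_lit 287) (nat_lit 28) (.n (nat_lit 288) (nat_lit 32) (.p (nat_lit 289) (nat_lit 24) (.p (nat_lit 290) (nat_lit 196) (.n (nat_lit 291) (nat_lit 84) (.p (nat_lit 292) (nat_lit 52) (.p (nat_lit 293) (nat_lit 60) (.p (nat_lit 294) (nat_lit 40) (.p (nat_lit 295) (nat_lit 104) (.n (nat_lit 296) (nat_lit 96) (.n (nat_lit 297) (nat_lit 144) (.p (nat_lit 298) (nat_lit 156) (.n (nat_lit 299) (nat_lit 148) (.p (nat_lit 301) (nat_lit 140) (.p (nat_lit 302) (nat_lit 172) (.n (nat_lit 303) (nat_lit 308) (.n (nat_lit 304) (nat_lit 56) (.p (nat_lit 305) (nat_lit 8) (.n (nat_lit 306) (nat_lit 208)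 (.n (nat_lit 307) (nat_lit 144) (.n (nat_lit 308) (nat_lit 36) (.n (nat_lit 309) (nat_lit 108) (.p (nat_lit 310) (nat_lit 180) (.n (nat_lit 311) (nat_lit 204) (.n (nat_lit 312) (nat_lit 48) (.n (nat_lit 313) (nat_lit 96) (.n (nat_lit 314) (nat_lit 108) (.p (nat_lit 315) (nat_lit 24) (.p (nat_lit 316) (nat_lit 48) (.n (nat_lit 317) (nat_lit 36) (.n (nat_lit 318) (nat_lit 144) (.n (nat_lit 319) (nat_lit 156) (.n (nat_lit 320) (nat_lit 36) (.p (nat_lit 321) (nat_lit 84) (.p (nat_lit 322) (nat_lit 60) (.n (nat_lit 323) (nat_lit 84) (.p (nat_lit 324) (nat_lit 60) (.p (nat_lit 325) (nat_lit 108) (.p (nat_lit 326) (nat_lit 144) (.n (nat_lit 327) (nat_lit 204) (.n (nat_lit 328) (nat_lit 12) (.p (nat_lit 329) (nat_lit 156) .z)))))))))))))))))))))))))))))))))))))))))))))) (.ct dW4x_c4371 (nat_lit 36) (nat_lit 2) (.s true (nat_lit 1) (nat_lit 19) (nat_lit 3) (nat_lit 3) (nat_lit 2) true (nat_lit 5) true (nat_lit 12) true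 (nat_lit 2) true (nat_lit 11) true (nat_lit 11) (.e true (nat_lit 36) (nat_lit 60) (nat_lit 9) (nat_lit 5) (.e true (nat_lit 36) (nat_lit 158) (nat_lit 2) (nat_lit 12) (.e true (nat_lit 36) (nat_lit 126) (nat_lit 3) (nat_lit 11) (.e false (nat_lit 36) (nat_lit 128) (nat_lit 3) (nat_lit 11) (.e false (nat_lit 36) (nat_lit 129) (nat_lit 3) (nat_lit 11) (.e false (nat_lit 36) (nat_lit 130) (nat_lit 3) (nat_lit 11) (.e false (nat_lit 72) (nat_lit 131) (nat_lit 3) (nat_lit 11) (.e true (nat_lit 36) (nat_lit 132) (nat_lit 3) (nat_lit 11) (.e true (nat_lit 36) (nat_lit 133) (nat_lit 3) (nat_lit 11) (.e true (nat_lit 72) (nat_lit 134) (nat_lit 3) (nat_lit 11) (.e true (nat_lit 72) (nat_lit 135) (nat_lit 3) (nat_lit 11) (.e false (nat_lit 36) (nat_lit 136) (nat_lit 3) (nat_lit 11) (.e true (nat_lit 36) (nat_lit 140) (nat_lit 3) (nat_lit 11) (.e false (nat_lit 36) (nat_lit 143) (nat_lit 3) (nat_lit 11) (.e false (nat_lit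 36) (nat_lit 144) (nat_lit 3) (nat_lit 11) (.e false (nat_lit 36) (nat_lit 148) (nat_lit 3) (nat_lit 11) (.e true (nat_lit 36) (nat_lit 150) (nat_lit 3) (nat_lit 11) .nil))))))))))))))))))) (.nd (.nd (.nd (.nd (.nd .leaf (nat_lit 32768) (nat_lit 95) (.p (nat_lit 78) (nat_lit 36) .z) .df .leaf) (nat_lit 32769) (nat_lit 99) (.p (nat_lit 81) (nat_lit 36) .z) .df .leaf) (nat_lit 32770) (nat_lit 103) (.p (nat_lit 84) (nat_lit 36) .z) .df (.nd .leaf (nat_lit 32772) (nat_lit 251) (.p (nat_lit 157) (nat_lit 36) (.n (nat_lit 158) (nat_lit 36) (.p (nat_lit 159) (nat_lit 36) (.n (nat_lit 161) (nat_lit 36) (.n (nat_lit 165) (nat_lit 36) .z))))) (.ct dW4x_c4355 (nat_lit 36) (nat_lit 3) (.s true (nat_lit 1) (nat_lit 4) (nat_lit 3) (nat_lit 3) (nat_lit 3) true (nat_lit 0) true (nat_lit 4) true (nat_lit 3) true (nat_lit 4) true (nat_lit 4) (.e true (nat_lit 36) (nat_lit 17) (nat_lit 10) (nat_lit 0) (.e false (nat_lit 36) (nat_lit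 59) (nat_lit 3) (nat_lit 4) (.e true (nat_lit 36) (nat_lit 60) (nat_lit 3) (nat_lit 4) (.e false (nat_lit 36) (nat_lit 61) (nat_lit 3) (nat_lit 4) (.e true (nat_lit 36) (nat_lit 63) (nat_lit 3) (nat_lit 4) .nil))))))) .leaf)) (nat_lit 32773) (nat_lit 271) (.p (nat_lit 168) (nat_lit 36) (.n (nat_lit 169) (nat_lit 36) (.p (nat_lit 170) (nat_lit 36) (.n (nat_lit 172) (nat_lit 36) (.n (nat_lit 176) (nat_lit 36) .z))))) (.ct dW4x_c4115 (nat_lit 36) (nat_lit 3) (.s true (nat_lit 1) (nat_lit 5) (nat_lit 3) (nat_lit 3) (nat_lit 3) true (nat_lit 0) true (nat_lit 4) true (nat_lit 3) true (nat_lit 4) true (nat_lit 4) (.e true (nat_lit 36) (nat_lit 20) (nat_lit 10) (nat_lit 0) (.e false (nat_lit 36) (nat_lit 65) (nat_lit 3) (nat_lit 4) (.e true (nat_lit 36) (nat_lit 66) (nat_lit 3) (nat_lit 4) (.e false (nat_lit 36) (nat_lit 67) (nat_lit 3) (nat_lit 4) (.e true (nat_lit 36) (nat_lit 69) (nat_lit 3) (nat_lit 4) .nil)))))))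 (.nd (.nd (.nd .leaf (nat_lit 32774) (nat_lit 291) (.p (nat_lit 179) (nat_lit 36) (.n (nat_lit 180) (nat_lit 36) (.p (nat_lit 181) (nat_lit 36) (.n (nat_lit 183) (nat_lit 36) (.n (nat_lit 187) (nat_lit 36) .z))))) (.ct dW4x_c275 (nat_lit 36) (nat_lit 3) (.s true (nat_lit 1) (nat_lit 6) (nat_lit 3) (nat_lit 3) (nat_lit 3) true (nat_lit 0) true (nat_lit 4) true (nat_lit 3) true (nat_lit 4) true (nat_lit 4) (.e true (nat_lit 36) (nat_lit 23) (nat_lit 10) (nat_lit 0) (.e false (nat_lit 36) (nat_lit 71) (nat_lit 3) (nat_lit 4) (.e true (nat_lit 36) (nat_lit 72) (nat_lit 3) (nat_lit 4) (.e false (nat_lit 36) (nat_lit 73) (nat_lit 3) (nat_lit 4) (.e true (nat_lit 36) (nat_lit 75) (nat_lit 3) (nat_lit 4) .nil))))))) .leaf) (nat_lit 32782) (nat_lit 610) (.n (nat_lit 283) (nat_lit 40) (.n (nat_lit 284) (nat_lit 208) (.p (nat_lit 285) (nat_lit 28) (.p (nat_lit 286) (nat_lit 44) (.n (nat_lit 287) (nat_lit 52) (.n (nat_lit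 288) (nat_lit 64) (.p (nat_lit 289) (nat_lit 48) (.p (nat_lit 290) (nat_lit 176) (.n (nat_lit 291) (nat_lit 60) (.p (nat_lit 292) (nat_lit 68) (.p (nat_lit 293) (nat_lit 120) (.p (nat_lit 294) (nat_lit 80) (.p (nat_lit 295) (nat_lit 136) (.n (nat_lit 296) (nat_lit 48) (.n (nat_lit 297) (nat_lit 180) (.p (nat_lit 298) (nat_lit 168) (.n (nat_lit 299) (nat_lit 116) (.p (nat_lit 301) (nat_lit 136) (.p (nat_lit 302) (nat_lit 164) (.n (nat_lit 303) (nat_lit 256) (.n (nat_lit 304) (nat_lit 76) (.p (nat_lit 305) (nat_lit 16) (.n (nat_lit 306) (nat_lit 236) (.n (nat_lit 307) (nat_lit 180) (.n (nat_lit 308) (nat_lit 36) (.n (nat_lit 309) (nat_lit 72) (.p (nat_lit 310) (nat_lit 216) (.n (nat_lit 311) (nat_lit 264) (.n (nat_lit 312) (nat_lit 60) (.n (nat_lit 313) (nat_lit 120) (.n (nat_lit 314) (nat_lit 108) (.n (nat_lit 315) (nat_lit 24) (.p (nat_lit 316) (nat_lit 60) (.n (nat_lit 318) (nat_lit 108) (.n (nat_lit 319)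 (nat_lit 168) (.p (nat_lit 321) (nat_lit 60) (.p (nat_lit 322) (nat_lit 12) (.n (nat_lit 323) (nat_lit 60) (.p (nat_lit 324) (nat_lit 48) (.p (nat_lit 325) (nat_lit 108) (.p (nat_lit 326) (nat_lit 108) (.n (nat_lit 327) (nat_lit 156) (.p (nat_lit 328) (nat_lit 48) (.p (nat_lit 329) (nat_lit 168) .z)))))))))))))))))))))))))))))))))))))))))))) (.ct dW4x_c4371 (nat_lit 36) (nat_lit 3) (.s true (nat_lit 1) (nat_lit 32) (nat_lit 0) (nat_lit 2) (nat_lit 1) true (nat_lit 10) true (nat_lit 13) false (nat_lit 3) true (nat_lit 14) true (nat_lit 12) (.e true (nat_lit 36) (nat_lit 84) (nat_lit 4) (nat_lit 10) (.e true (nat_lit 36) (nat_lit 174) (nat_lit 1) (nat_lit 13) (.e false (nat_lit 36) (nat_lit 179) (nat_lit 0) (nat_lit 14) (.e true (nat_lit 36) (nat_lit 180) (nat_lit 0) (nat_lit 14) (.e false (nat_lit 36) (nat_lit 181) (nat_lit 0) (nat_lit 14) (.e true (nat_lit 36) (nat_lit 183) (nat_lit 0) (nat_lit 14) (.e true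 (nat_lit 36) (nat_lit 187) (nat_lit 0) (nat_lit 14) (.e false (nat_lit 36) (nat_lit 157) (nat_lit 2) (nat_lit 12) (.e false (nat_lit 36) (nat_lit 158) (nat_lit 2) (nat_lit 12) (.e false (nat_lit 36) (nat_lit 159) (nat_lit 2) (nat_lit 12) (.e false (nat_lit 36) (nat_lit 161) (nat_lit 2) (nat_lit 12) (.e true (nat_lit 36) (nat_lit 162) (nat_lit 2) (nat_lit 12) (.e true (nat_lit 36) (nat_lit 163) (nat_lit 2) (nat_lit 12) (.e true (nat_lit 36) (nat_lit 164) (nat_lit 2) (nat_lit 12) .nil)))))))))))))))) .leaf) (nat_lit 32783) (nat_lit 617) (.p (nat_lit 283) (nat_lit 80) (.p (nat_lit 284) (nat_lit 524) (.n (nat_lit 285) (nat_lit 56) (.n (nat_lit 286) (nat_lit 124) (.p (nat_lit 287) (nat_lit 176) (.p (nat_lit 288) (nat_lit 164) (.n (nat_lit 289) (nat_lit 132) (.n (nat_lit 290) (nat_lit 460) (.p (nat_lit 291) (nat_lit 156) (.n (nat_lit 292) (nat_lit 172) (.n (nat_lit 293) (nat_lit 312) (.n (nat_lit 294) (nat_lit 88)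 (.n (nat_lit 295) (nat_lit 308) (.p (nat_lit 296) (nat_lit 132) (.p (nat_lit 297) (nat_lit 468) (.n (nat_lit 298) (nat_lit 444) (.p (nat_lit 299) (nat_lit 376) (.n (nat_lit 301) (nat_lit 416) (.n (nat_lit 302) (nat_lit 436) (.p (nat_lit 303) (nat_lit 692) (.p (nat_lit 304) (nat_lit 188) (.n (nat_lit 305) (nat_lit 32) (.p (nat_lit 306) (nat_lit 616) (.p (nat_lit 307) (nat_lit 288) (.p (nat_lit 309) (nat_lit 216) (.n (nat_lit 310) (nat_lit 396) (.p (nat_lit 311) (nat_lit 492) (.p (nat_lit 312) (nat_lit 84) (.p (nat_lit 313) (nat_lit 276) (.p (nat_lit 314) (nat_lit 216) (.p (nat_lit 315) (nat_lit 48) (.n (nat_lit 316) (nat_lit 156) (.p (nat_lit 317) (nat_lit 72) (.p (nat_lit 318) (nat_lit 252) (.p (nat_lit 319) (nat_lit 336) (.p (nat_lit 320) (nat_lit 72) (.n (nat_lit 321) (nat_lit 120) (.n (nat_lit 322) (nat_lit 60) (.p (nat_lit 323) (nat_lit 120) (.n (nat_lit 324) (nat_lit 132) (.n (nat_lit 325) (nat_lit 288)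 (.n (nat_lit 326) (nat_lit 252) (.p (nat_lit 327) (nat_lit 384) (.n (nat_lit 328) (nat_lit 24) (.n (nat_lit 329) (nat_lit 372) .z))))))))))))))))))))))))))))))))))))))))))))) (.ct dW4x_c4371 (nat_lit 36) (nat_lit 3) (.s true (nat_lit 1) (nat_lit 32) (nat_lit 1) (nat_lit 2) (nat_lit 0) true (nat_lit 10) true (nat_lit 14) false (nat_lit 3) true (nat_lit 13) true (nat_lit 12) (.e false (nat_lit 36) (nat_lit 84) (nat_lit 4) (nat_lit 10) (.e true (nat_lit 36) (nat_lit 185) (nat_lit 0) (nat_lit 14) (.e false (nat_lit 36) (nat_lit 168) (nat_lit 1) (nat_lit 13) (.e true (nat_lit 36) (nat_lit 169) (nat_lit 1) (nat_lit 13) (.e false (nat_lit 36) (nat_lit 170) (nat_lit 1) (nat_lit 13) (.e true (nat_lit 36) (nat_lit 172) (nat_lit 1) (nat_lit 13) (.e true (nat_lit 36) (nat_lit 176) (nat_lit 1) (nat_lit 13) (.e false (nat_lit 36) (nat_lit 163) (nat_lit 2) (nat_lit 12) .nil)))))))))) (.nd .leaf (nat_lit 33795) (nat_lit 105)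 (.p (nat_lit 85) (nat_lit 36) .z) .df .leaf))) (nat_lit 33802) (nat_lit 392) (.n (nat_lit 189) (nat_lit 234) (.p (nat_lit 190) (nat_lit 108) (.p (nat_lit 191) (nat_lit 84) (.n (nat_lit 192) (nat_lit 60) (.p (nat_lit 193) (nat_lit 288) (.n (nat_lit 194) (nat_lit 48) (.n (nat_lit 195) (nat_lit 12) (.n (nat_lit 196) (nat_lit 216) (.n (nat_lit 197) (nat_lit 12) (.n (nat_lit 198) (nat_lit 228) (.n (nat_lit 199) (nat_lit 270) (.p (nat_lit 200) (nat_lit 102) (.n (nat_lit 201) (nat_lit 102) (.p (nat_lit 202) (nat_lit 156) (.p (nat_lit 203) (nat_lit 168) (.n (nat_lit 204) (nat_lit 276) (.p (nat_lit 205) (nat_lit 294) (.n (nat_lit 206) (nat_lit 78) (.n (nat_lit 207) (nat_lit 210) (.p (nat_lit 208) (nat_lit 186) (.n (nat_lit 209) (nat_lit 78) (.p (nat_lit 210) (nat_lit 54) (.p (nat_lit 211) (nat_lit 246) (.n (nat_lit 214) (nat_lit 6) (.p (nat_lit 216) (nat_lit 6) (.n (nat_lit 217) (nat_lit 6) (.n (nat_lit 218) (nat_lit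 6) (.p (nat_lit 219) (nat_lit 6) (.n (nat_lit 220) (nat_lit 12) (.n (nat_lit 221) (nat_lit 218) (.p (nat_lit 222) (nat_lit 260) (.p (nat_lit 223) (nat_lit 204) (.n (nat_lit 224) (nat_lit 28) (.n (nat_lit 225) (nat_lit 104) (.p (nat_lit 226) (nat_lit 42) (.p (nat_lit 227) (nat_lit 42) (.p (nat_lit 228) (nat_lit 28) (.p (nat_lit 229) (nat_lit 104) (.p (nat_lit 230) (nat_lit 122) (.n (nat_lit 231) (nat_lit 74) (.p (nat_lit 232) (nat_lit 94) (.p (nat_lit 233) (nat_lit 118) (.p (nat_lit 234) (nat_lit 14) (.n (nat_lit 235) (nat_lit 40) (.n (nat_lit 236) (nat_lit 112) (.n (nat_lit 237) (nat_lit 62) (.p (nat_lit 238) (nat_lit 34) (.p (nat_lit 239) (nat_lit 6) (.n (nat_lit 240) (nat_lit 12) .z))))))))))))))))))))))))))))))))))))))))))))))))) (.ct dW4x_c8466 (nat_lit 36) (nat_lit 5) (.s true (nat_lit 1) (nat_lit 10) (nat_lit 4) (nat_lit 0) (nat_lit 2) true (nat_lit 2) true (nat_lit 13) true (nat_lit 5) true (nat_lit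 11) true (nat_lit 15) (.s false (nat_lit 1) (nat_lit 27) (nat_lit 1) (nat_lit 0) (nat_lit 2) true (nat_lit 9) true (nat_lit 13) false (nat_lit 2) true (nat_lit 14) true (nat_lit 15) (.e false (nat_lit 36) (nat_lit 110) (nat_lit 2) (nat_lit 13) (.e true (nat_lit 36) (nat_lit 111) (nat_lit 2) (nat_lit 13) (.e false (nat_lit 36) (nat_lit 112) (nat_lit 2) (nat_lit 13) (.e true (nat_lit 36) (nat_lit 114) (nat_lit 2) (nat_lit 13) (.e false (nat_lit 36) (nat_lit 65) (nat_lit 4) (nat_lit 11) (.e true (nat_lit 36) (nat_lit 66) (nat_lit 4) (nat_lit 11) (.e false (nat_lit 36) (nat_lit 67) (nat_lit 4) (nat_lit 11) (.e true (nat_lit 36) (nat_lit 69) (nat_lit 4) (nat_lit 11) dW4x_i53))))))))))) (.nd (.nd (.nd (.nd .leaf (nat_lit 34819) (nat_lit 106) (.p (nat_lit 86) (nat_lit 36) .z) .df .leaf) (nat_lit 34826) (nat_lit 388) (.p (nat_lit 189) (nat_lit 54) (.n (nat_lit 190) (nat_lit 36) (.p (nat_lit 191) (nat_lit 12) (.p (nat_lit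 192) (nat_lit 12) (.n (nat_lit 193) (nat_lit 72) (.p (nat_lit 194) (nat_lit 24) (.n (nat_lit 195) (nat_lit 12) (.p (nat_lit 196) (nat_lit 72) (.n (nat_lit 197) (nat_lit 12) (.p (nat_lit 198) (nat_lit 60) (.p (nat_lit 199) (nat_lit 54) (.n (nat_lit 200) (nat_lit 42) (.p (nat_lit 201) (nat_lit 42) (.n (nat_lit 202) (nat_lit 24) (.n (nat_lit 203) (nat_lit 48) (.p (nat_lit 204) (nat_lit 48) (.n (nat_lit 205) (nat_lit 102) (.p (nat_lit 206) (nat_lit 30) (.p (nat_lit 207) (nat_lit 78) (.n (nat_lit 208) (nat_lit 66) (.n (nat_lit 209) (nat_lit 6) (.n (nat_lit 210) (nat_lit 18) (.n (nat_lit 211) (nat_lit 114) (.n (nat_lit 214) (nat_lit 6) (.p (nat_lit 216) (nat_lit 6) (.n (nat_lit 217) (nat_lit 6) (.n (nat_lit 218) (nat_lit 6) (.p (nat_lit 219) (nat_lit 6) (.n (nat_lit 220) (nat_lit 12) (.p (nat_lit 221) (nat_lit 70) (.n (nat_lit 222) (nat_lit 28) (.n (nat_lit 223) (nat_lit 12) (.n (nat_lit 224) (nat_lit 28) (.p (nat_lit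 225) (nat_lit 40) (.p (nat_lit 226) (nat_lit 42) (.p (nat_lit 227) (nat_lit 42) (.p (nat_lit 228) (nat_lit 28) (.n (nat_lit 229) (nat_lit 40) (.p (nat_lit 230) (nat_lit 50) (.n (nat_lit 231) (nat_lit 2) (.p (nat_lit 232) (nat_lit 22) (.p (nat_lit 233) (nat_lit 10) (.n (nat_lit 234) (nat_lit 22) (.n (nat_lit 235) (nat_lit 4) (.n (nat_lit 236) (nat_lit 4) (.n (nat_lit 237) (nat_lit 26) (.n (nat_lit 238) (nat_lit 2) (.p (nat_lit 239) (nat_lit 6) (.n (nat_lit 240) (nat_lit 12) .z))))))))))))))))))))))))))))))))))))))))))))))))) (.ct dW4x_c8466 (nat_lit 36) (nat_lit 5) (.s false (nat_lit 1) (nat_lit 10) (nat_lit 1) (nat_lit 5) (nat_lit 0) true (nat_lit 11) true (nat_lit 15) true (nat_lit 5) true (nat_lit 14) true (nat_lit 10) dW4x_i52)) .leaf) (nat_lit 35843) (nat_lit 107) (.p (nat_lit 87) (nat_lit 36) .z) .df (.nd .leaf (nat_lit 35850) (nat_lit 387) (.n (nat_lit 189) (nat_lit 12) (.n (nat_lit 190) (nat_lit 12)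 (.p (nat_lit 191) (nat_lit 36) (.n (nat_lit 192) (nat_lit 24) (.p (nat_lit 193) (nat_lit 24) (.p (nat_lit 195) (nat_lit 12) (.n (nat_lit 196) (nat_lit 12) (.p (nat_lit 197) (nat_lit 12) (.n (nat_lit 199) (nat_lit 36) (.p (nat_lit 200) (nat_lit 12) (.n (nat_lit 201) (nat_lit 12) (.p (nat_lit 202) (nat_lit 24) (.p (nat_lit 203) (nat_lit 12) (.n (nat_lit 204) (nat_lit 48) (.p (nat_lit 205) (nat_lit 24) (.n (nat_lit 209) (nat_lit 24) (.p (nat_lit 210) (nat_lit 12) (.n (nat_lit 214) (nat_lit 12) (.p (nat_lit 216) (nat_lit 12) (.n (nat_lit 217) (nat_lit 12) (.n (nat_lit 218) (nat_lit 12) (.p (nat_lit 219) (nat_lit 12) (.n (nat_lit 220) (nat_lit 24) (.n (nat_lit 221) (nat_lit 40) (.p (nat_lit 222) (nat_lit 88) (.p (nat_lit 223) (nat_lit 48) (.n (nat_lit 224) (nat_lit 56) (.p (nat_lit 225) (nat_lit 8) (.p (nat_lit 226) (nat_lit 48) (.p (nat_lit 227) (nat_lit 48) (.p (nat_lit 228) (nat_lit 56) (.n (nat_lit 229) (nat_lit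 8) (.p (nat_lit 230) (nat_lit 100) (.n (nat_lit 231) (nat_lit 76) (.p (nat_lit 232) (nat_lit 44) (.p (nat_lit 233) (nat_lit 56) (.n (nat_lit 234) (nat_lit 8) (.n (nat_lit 235) (nat_lit 8) (.n (nat_lit 236) (nat_lit 44) (.n (nat_lit 237) (nat_lit 52) (.n (nat_lit 238) (nat_lit 4) (.n (nat_lit 239) (nat_lit 24) (.n (nat_lit 240) (nat_lit 24) .z))))))))))))))))))))))))))))))))))))))))))) (.ct dW4x_c8466 (nat_lit 36) (nat_lit 5) dW4x_i51) .leaf)) (nat_lit 36867) (nat_lit 108) (.p (nat_lit 88) (nat_lit 36) .z) .df (.nd (.nd .leaf (nat_lit 36874) (nat_lit 395) (.p (nat_lit 191) (nat_lit 36) (.n (nat_lit 209) (nat_lit 36) (.n (nat_lit 211) (nat_lit 36) (.n (nat_lit 221) (nat_lit 24) (.p (nat_lit 222) (nat_lit 24) (.p (nat_lit 223) (nat_lit 72) (.p (nat_lit 224) (nat_lit 24) (.n (nat_lit 225) (nat_lit 24) (.n (nat_lit 228) (nat_lit 24) (.p (nat_lit 229) (nat_lit 24) (.p (nat_lit 230) (nat_lit 24) (.n (nat_lit 231)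 (nat_lit 24) (.p (nat_lit 232) (nat_lit 48) (.p (nat_lit 233) (nat_lit 12) (.n (nat_lit 234) (nat_lit 12) (.n (nat_lit 235) (nat_lit 12) (.n (nat_lit 236) (nat_lit 12) (.p (nat_lit 237) (nat_lit 12) (.p (nat_lit 238) (nat_lit 12) .z))))))))))))))))))) (.ct dW4x_c8466 (nat_lit 36) (nat_lit 5) (.s false (nat_lit 1) (nat_lit 10) (nat_lit 0) (nat_lit 6) (nat_lit 0) false (nat_lit 16) true (nat_lit 15) true (nat_lit 5) true (nat_lit 15) true (nat_lit 9) (.e false (nat_lit 36) (nat_lit 136) (nat_lit 0) (nat_lit 15) (.e true (nat_lit 36) (nat_lit 139) (nat_lit 0) (nat_lit 15) (.e true (nat_lit 36) (nat_lit 140) (nat_lit 0) (nat_lit 15) (.e false (nat_lit 36) (nat_lit 141) (nat_lit 0) (nat_lit 15) (.e true (nat_lit 36) (nat_lit 142) (nat_lit 0) (nat_lit 15) (.e false (nat_lit 36) (nat_lit 144) (nat_lit 0) (nat_lit 15) (.e false (nat_lit 36) (nat_lit 145) (nat_lit 0) (nat_lit 15) (.e true (nat_lit 36) (nat_lit 146)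 (nat_lit 0) (nat_lit 15) (.e true (nat_lit 36) (nat_lit 129) (nat_lit 0) (nat_lit 15) (.e true (nat_lit 36) (nat_lit 130) (nat_lit 0) (nat_lit 15) (.e true (nat_lit 36) (nat_lit 131) (nat_lit 0) (nat_lit 15) (.e false (nat_lit 36) (nat_lit 132) (nat_lit 0) (nat_lit 15) (.e false (nat_lit 36) (nat_lit 133) (nat_lit 0) (nat_lit 15) (.e false (nat_lit 36) (nat_lit 134) (nat_lit 0) (nat_lit 15) (.e false (nat_lit 72) (nat_lit 135) (nat_lit 0) (nat_lit 15) (.e true (nat_lit 36) (nat_lit 57) (nat_lit 6) (nat_lit 9) .nil)))))))))))))))))) .leaf) (nat_lit 37890) (nat_lit 129) (.n (nat_lit 85) (nat_lit 36) (.n (nat_lit 86) (nat_lit 108) (.p (nat_lit 87) (nat_lit 72) (.p (nat_lit 88) (nat_lit 108) (.n (nat_lit 89) (nat_lit 108) (.p (nat_lit 90) (nat_lit 72) (.p (nat_lit 91) (nat_lit 108) (.p (nat_lit 92) (nat_lit 72) (.p (nat_lit 93) (nat_lit 72) (.p (nat_lit 95) (nat_lit 108) (.n (nat_lit 96) (nat_lit 36) (.p (nat_lit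 97) (nat_lit 36) (.p (nat_lit 98) (nat_lit 108) (.n (nat_lit 99) (nat_lit 36) (.p (nat_lit 100) (nat_lit 36) (.n (nat_lit 101) (nat_lit 72) (.n (nat_lit 102) (nat_lit 72) .z))))))))))))))))) (.ct dW4x_c8465 (nat_lit 36) (nat_lit 7) (.s true (nat_lit 1) (nat_lit 4) (nat_lit 0) (nat_lit 3) (nat_lit 2) true (nat_lit 4) true (nat_lit 7) true (nat_lit 5) true (nat_lit 9) true (nat_lit 6) (.s true (nat_lit 1) (nat_lit 4) (nat_lit 3) (nat_lit 0) (nat_lit 2) true (nat_lit 0) true (nat_lit 7) true (nat_lit 5) true (nat_lit 6) true (nat_lit 9) (.e true (nat_lit 36) (nat_lit 17) (nat_lit 5) (nat_lit 4) (.e true (nat_lit 36) (nat_lit 46) (nat_lit 0) (nat_lit 9) (.e true (nat_lit 36) (nat_lit 50) (nat_lit 0) (nat_lit 9) (.e false (nat_lit 36) (nat_lit 52) (nat_lit 0) (nat_lit 9) (.e false (nat_lit 36) (nat_lit 54) (nat_lit 0) (nat_lit 9) (.e false (nat_lit 72) (nat_lit 35) (nat_lit 3) (nat_lit 6) (.e false (nat_lit 36)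 (nat_lit 11) (nat_lit 9) (nat_lit 0) (.e true (nat_lit 36) (nat_lit 39) (nat_lit 2) (nat_lit 7) (.e true (nat_lit 36) (nat_lit 34) (nat_lit 3) (nat_lit 6) (.e false (nat_lit 36) (nat_lit 36) (nat_lit 3) (nat_lit 6) (.e false (nat_lit 36) (nat_lit 45) (nat_lit 0) (nat_lit 9) .nil)))))))))))))) (.nd .leaf (nat_lit 37891) (nat_lit 152) (.p (nat_lit 104) (nat_lit 36) (.n (nat_lit 105) (nat_lit 72) (.n (nat_lit 106) (nat_lit 36) (.n (nat_lit 108) (nat_lit 36) (.n (nat_lit 109) (nat_lit 36) (.p (nat_lit 110) (nat_lit 36) (.n (nat_lit 111) (nat_lit 36) (.p (nat_lit 112) (nat_lit 72) (.p (nat_lit 113) (nat_lit 36) (.n (nat_lit 114) (nat_lit 72) .z)))))))))) (.ct dW4x_c8450 (nat_lit 72) (nat_lit 4) (.s true (nat_lit 1) (nat_lit 4) (nat_lit 0) (nat_lit 3) (nat_lit 3) true (nat_lit 2) true (nat_lit 4) true (nat_lit 3) true (nat_lit 6) true (nat_lit 4) (.s true (nat_lit 1) (nat_lit 7) (nat_lit 1) (nat_lit 0) (nat_lit 3)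 true (nat_lit 1) true (nat_lit 4) true (nat_lit 2) true (nat_lit 5) true (nat_lit 6) (.s true (nat_lit 1) (nat_lit 7) (nat_lit 1) (nat_lit 3) (nat_lit 0) true (nat_lit 3) true (nat_lit 6) true (nat_lit 2) true (nat_lit 5) true (nat_lit 4) (.s true (nat_lit 1) (nat_lit 8) (nat_lit 3) (nat_lit 0) (nat_lit 0) true (nat_lit 2) true (nat_lit 6) true (nat_lit 1) true (nat_lit 4) true (nat_lit 6) (.e false (nat_lit 72) (nat_lit 26) (nat_lit 4) (nat_lit 3) (.e false (nat_lit 72) (nat_lit 61) (nat_lit 0) (nat_lit 6) (.e true (nat_lit 72) (nat_lit 63) (nat_lit 0) (nat_lit 6) .nil)))))))) .leaf))))))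

noncomputable def dW4x_t4 : Tr := (.nd (.nd (.nd (.nd (.nd (.nd (.nd .leaf (nat_lit 38914) (nat_lit 109) (.p (nat_lit 89) (nat_lit 36) .z) .df .leaf) (nat_lit 38915) (nat_lit 139) (.p (nat_lit 104) (nat_lit 36) .z) .df .leaf) (nat_lit 38921) (nat_lit 364) (.n (nat_lit 189) (nat_lit 66) (.n (nat_lit 190) (nat_lit 30) (.p (nat_lit 191) (nat_lit 66) (.p (nat_lit 192) (nat_lit 6) (.n (nat_lit 193) (nat_lit 30) (.p (nat_lit 194) (nat_lit 6) (.p (nat_lit 196) (nat_lit 96) (.n (nat_lit 197) (nat_lit 72) (.n (nat_lit 198) (nat_lit 48) (.n (nat_lit 199) (nat_lit 126) (.n (nat_lit 200) (nat_lit 138) (.p (nat_lit 201) (nat_lit 66) (.p (nat_lit 202) (nat_lit 108) (.p (nat_lit 203) (nat_lit 90) (.n (nat_lit 204) (nat_lit 144) (.p (nat_lit 205) (nat_lit 12) (.n (nat_lit 206) (nat_lit 24) (.n (nat_lit 207) (nat_lit 48) (.p (nat_lit 208) (nat_lit 60) (.n (nat_lit 209) (nat_lit 120) (.n (nat_lit 210) (nat_lit 24) (.n (nat_lit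 211) (nat_lit 96) (.p (nat_lit 212) (nat_lit 72) (.n (nat_lit 213) (nat_lit 72) (.p (nat_lit 214) (nat_lit 18) (.n (nat_lit 215) (nat_lit 36) (.n (nat_lit 217) (nat_lit 18) (.p (nat_lit 218) (nat_lit 54) (.p (nat_lit 219) (nat_lit 90) (.n (nat_lit 220) (nat_lit 72) (.p (nat_lit 221) (nat_lit 120) (.n (nat_lit 222) (nat_lit 48) (.n (nat_lit 223) (nat_lit 36) (.n (nat_lit 224) (nat_lit 12) (.p (nat_lit 225) (nat_lit 12) (.n (nat_lit 226) (nat_lit 108) (.n (nat_lit 227) (nat_lit 36) (.n (nat_lit 228) (nat_lit 24) (.n (nat_lit 229) (nat_lit 84) (.p (nat_lit 230) (nat_lit 6) (.p (nat_lit 231) (nat_lit 66) (.p (nat_lit 232) (nat_lit 30) (.n (nat_lit 233) (nat_lit 42) (.p (nat_lit 234) (nat_lit 78) (.p (nat_lit 235) (nat_lit 78) (.n (nat_lit 236) (nat_lit 12) (.p (nat_lit 237) (nat_lit 12) (.n (nat_lit 238) (nat_lit 60) (.p (nat_lit 239) (nat_lit 108) .z))))))))))))))))))))))))))))))))))))))))))))))))) (.ct dW4x_c8466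 (nat_lit 36) (nat_lit 6) (.s false (nat_lit 1) (nat_lit 9) (nat_lit 8) (nat_lit 0) (nat_lit 0) true (nat_lit 0) true (nat_lit 15) true (nat_lit 6) true (nat_lit 7) true (nat_lit 15) (.s true (nat_lit 1) (nat_lit 16) (nat_lit 2) (nat_lit 1) (nat_lit 3) true (nat_lit 6) true (nat_lit 12) true (nat_lit 1) true (nat_lit 13) true (nat_lit 14) (.s false (nat_lit 2) (nat_lit 19) (nat_lit 0) (nat_lit 2) (nat_lit 3) true (nat_lit 8) true (nat_lit 12) true (nat_lit 0) true (nat_lit 15) true (nat_lit 13) (.s false (nat_lit 1) (nat_lit 19) (nat_lit 0) (nat_lit 3) (nat_lit 2) true (nat_lit 10) true (nat_lit 13) true (nat_lit 0) true (nat_lit 15) true (nat_lit 12) (.s false (nat_lit 1) (nat_lit 19) (nat_lit 2) (nat_lit 0) (nat_lit 3) true (nat_lit 6) true (nat_lit 12) true (nat_lit 0) true (nat_lit 13) true (nat_lit 15) (.s false (nat_lit 1) (nat_lit 19) (nat_lit 2) (nat_lit 3) (nat_lit 0) true (nat_lit 10) true (nat_lit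 15) true (nat_lit 0) true (nat_lit 13) true (nat_lit 12) (.s true (nat_lit 1) (nat_lit 20) (nat_lit 1) (nat_lit 3) (nat_lit 0) true (nat_lit 11) true (nat_lit 15) false (nat_lit 0) true (nat_lit 14) true (nat_lit 12) (.s true (nat_lit 1) (nat_lit 21) (nat_lit 1) (nat_lit 3) (nat_lit 0) true (nat_lit 11) true (nat_lit 15) false (nat_lit 0) true (nat_lit 14) true (nat_lit 12) (.s false (nat_lit 1) (nat_lit 23) (nat_lit 3) (nat_lit 0) (nat_lit 0) true (nat_lit 8) true (nat_lit 15) false (nat_lit 1) true (nat_lit 12) true (nat_lit 15) (.e false (nat_lit 36) (nat_lit 147) (nat_lit 0) (nat_lit 15) (.e false (nat_lit 36) (nat_lit 126) (nat_lit 0) (nat_lit 15) (.e true (nat_lit 36) (nat_lit 127) (nat_lit 0) (nat_lit 15) (.e true (nat_lit 36) (nat_lit 128) (nat_lit 0) (nat_lit 15) (.e true (nat_lit 72) (nat_lit 130) (nat_lit 0) (nat_lit 15) dW4x_i34))))))))))))))) (.nd .leaf (nat_lit 38922) (nat_lit 445) (.n (nat_lit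 241) (nat_lit 108) (.p (nat_lit 242) (nat_lit 36) (.p (nat_lit 243) (nat_lit 36) (.p (nat_lit 244) (nat_lit 108) (.p (nat_lit 245) (nat_lit 72) (.n (nat_lit 247) (nat_lit 36) (.n (nat_lit 248) (nat_lit 72) (.p (nat_lit 249) (nat_lit 180) (.p (nat_lit 250) (nat_lit 36) (.n (nat_lit 251) (nat_lit 36) (.p (nat_lit 253) (nat_lit 36) (.p (nat_lit 254) (nat_lit 72) (.p (nat_lit 255) (nat_lit 72) (.p (nat_lit 256) (nat_lit 36) (.n (nat_lit 258) (nat_lit 72) (.p (nat_lit 259) (nat_lit 72) (.p (nat_lit 261) (nat_lit 36) .z))))))))))))))))) (.ct dW4x_c8451 (nat_lit 36) (nat_lit 3) (.s false (nat_lit 1) (nat_lit 8) (nat_lit 0) (nat_lit 7) (nat_lit 3) true (nat_lit 5) true (nat_lit 7) true (nat_lit 4) true (nat_lit 9) true (nat_lit 5) (.s false (nat_lit 1) (nat_lit 16) (nat_lit 1) (nat_lit 3) (nat_lit 3) true (nat_lit 4) true (nat_lit 7) true (nat_lit 1) true (nat_lit 8) true (nat_lit 7) (.s false (nat_lit 1) (nat_lit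 16) (nat_lit 3) (nat_lit 1) (nat_lit 3) true (nat_lit 3) true (nat_lit 7) true (nat_lit 1) true (nat_lit 7) true (nat_lit 8) (.e true (nat_lit 36) (nat_lit 58) (nat_lit 7) (nat_lit 5) (.e true (nat_lit 36) (nat_lit 59) (nat_lit 7) (nat_lit 5) (.e false (nat_lit 36) (nat_lit 62) (nat_lit 7) (nat_lit 5) (.e true (nat_lit 72) (nat_lit 106) (nat_lit 3) (nat_lit 7) (.e false (nat_lit 72) (nat_lit 109) (nat_lit 3) (nat_lit 7) (.e false (nat_lit 72) (nat_lit 110) (nat_lit 3) (nat_lit 7) (.e true (nat_lit 72) (nat_lit 113) (nat_lit 3) (nat_lit 7) (.e false (nat_lit 108) (nat_lit 114) (nat_lit 3) (nat_lit 7) (.e false (nat_lit 36) (nat_lit 166) (nat_lit 0) (nat_lit 9) (.e false (nat_lit 36) (nat_lit 104) (nat_lit 3) (nat_lit 7) (.e false (nat_lit 36) (nat_lit 152) (nat_lit 1) (nat_lit 8) (.e true (nat_lit 72) (nat_lit 154) (nat_lit 1) (nat_lit 8) (.e true (nat_lit 36) (nat_lit 155) (nat_lit 1) (nat_lit 8) (.e false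 (nat_lit 72) (nat_lit 107) (nat_lit 3) (nat_lit 7) (.e false (nat_lit 36) (nat_lit 111) (nat_lit 3) (nat_lit 7) (.e false (nat_lit 36) (nat_lit 151) (nat_lit 1) (nat_lit 8) .nil)))))))))))))))))))) .leaf)) (nat_lit 39938) (nat_lit 110) (.p (nat_lit 90) (nat_lit 36) .z) .df (.nd (.nd (.nd .leaf (nat_lit 39939) (nat_lit 140) (.p (nat_lit 105) (nat_lit 36) .z) .df .leaf) (nat_lit 39945) (nat_lit 360) (.n (nat_lit 189) (nat_lit 48) (.n (nat_lit 190) (nat_lit 12) (.p (nat_lit 191) (nat_lit 36) (.n (nat_lit 192) (nat_lit 6) (.p (nat_lit 193) (nat_lit 6) (.p (nat_lit 194) (nat_lit 18) (.n (nat_lit 195) (nat_lit 6) (.p (nat_lit 196) (nat_lit 42) (.n (nat_lit 197) (nat_lit 42) (.n (nat_lit 198) (nat_lit 36) (.n (nat_lit 199) (nat_lit 36) (.n (nat_lit 200) (nat_lit 78) (.p (nat_lit 201) (nat_lit 42) (.p (nat_lit 202) (nat_lit 42) (.p (nat_lit 203) (nat_lit 30) (.n (nat_lit 204) (nat_lit 66) (.n (nat_lit 205) (nat_lit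 12) (.n (nat_lit 209) (nat_lit 60) (.n (nat_lit 210) (nat_lit 6) (.n (nat_lit 211) (nat_lit 72) (.p (nat_lit 212) (nat_lit 36) (.n (nat_lit 213) (nat_lit 36) (.p (nat_lit 214) (nat_lit 6) (.n (nat_lit 215) (nat_lit 36) (.n (nat_lit 216) (nat_lit 6) (.p (nat_lit 217) (nat_lit 24) (.p (nat_lit 218) (nat_lit 24) (.p (nat_lit 219) (nat_lit 48) (.n (nat_lit 220) (nat_lit 24) (.p (nat_lit 221) (nat_lit 68) (.n (nat_lit 222) (nat_lit 20) (.n (nat_lit 223) (nat_lit 24) (.p (nat_lit 224) (nat_lit 16) (.n (nat_lit 225) (nat_lit 28) (.n (nat_lit 226) (nat_lit 60) (.n (nat_lit 227) (nat_lit 24) (.n (nat_lit 228) (nat_lit 16) (.n (nat_lit 229) (nat_lit 44) (.n (nat_lit 230) (nat_lit 8) (.p (nat_lit 231) (nat_lit 32) (.p (nat_lit 232) (nat_lit 8) (.n (nat_lit 233) (nat_lit 34) (.p (nat_lit 234) (nat_lit 46) (.p (nat_lit 235) (nat_lit 10) (.p (nat_lit 236) (nat_lit 10) (.p (nat_lit 237) (nat_lit 2) (.n (nat_lit 238) (nat_lit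 22) (.p (nat_lit 239) (nat_lit 48) (.n (nat_lit 240) (nat_lit 24) .z))))))))))))))))))))))))))))))))))))))))))))))))) (.ct dW4x_c8466 (nat_lit 36) (nat_lit 6) (.s true (nat_lit 1) (nat_lit 17) (nat_lit 0) (nat_lit 2) (nat_lit 3) true (nat_lit 8) true (nat_lit 12) true (nat_lit 0) true (nat_lit 15) true (nat_lit 13) (.s true (nat_lit 1) (nat_lit 17) (nat_lit 2) (nat_lit 0) (nat_lit 3) true (nat_lit 6) true (nat_lit 12) true (nat_lit 0) true (nat_lit 13) true (nat_lit 15) (.s true (nat_lit 1) (nat_lit 17) (nat_lit 2) (nat_lit 3) (nat_lit 0) true (nat_lit 10) true (nat_lit 15) true (nat_lit 0) true (nat_lit 13) true (nat_lit 12) (.s true (nat_lit 1) (nat_lit 17) (nat_lit 3) (nat_lit 2) (nat_lit 0) true (nat_lit 8) true (nat_lit 15) true (nat_lit 0) true (nat_lit 12) true (nat_lit 13) (.e true (nat_lit 36) (nat_lit 90) (nat_lit 3) (nat_lit 12) (.e true (nat_lit 12) (nat_lit 126) (nat_lit 0) (nat_lit 15) (.e true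 (nat_lit 12) (nat_lit 127) (nat_lit 0) (nat_lit 15) (.e false (nat_lit 12) (nat_lit 128) (nat_lit 0) (nat_lit 15) (.e true (nat_lit 12) (nat_lit 129) (nat_lit 0) (nat_lit 15) (.e false (nat_lit 24) (nat_lit 130) (nat_lit 0) (nat_lit 15) (.e true (nat_lit 12) (nat_lit 131) (nat_lit 0) (nat_lit 15) (.e true (nat_lit 12) (nat_lit 133) (nat_lit 0) (nat_lit 15) dW4x_i30))))))))))))) .leaf) (nat_lit 39946) (nat_lit 453) (.p (nat_lit 241) (nat_lit 360) (.n (nat_lit 242) (nat_lit 72) (.n (nat_lit 243) (nat_lit 180) (.n (nat_lit 244) (nat_lit 684) (.n (nat_lit 245) (nat_lit 324) (.p (nat_lit 246) (nat_lit 180) (.p (nat_lit 247) (nat_lit 432) (.p (nat_lit 248) (nat_lit 324) (.n (nat_lit 249) (nat_lit 864) (.n (nat_lit 250) (nat_lit 144) (.p (nat_lit 251) (nat_lit 36) (.p (nat_lit 252) (nat_lit 252) (.p (nat_lit 253) (nat_lit 360) (.n (nat_lit 254) (nat_lit 108) (.p (nat_lit 255) (nat_lit 72) (.n (nat_lit 256) (nat_lit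 288) (.p (nat_lit 257) (nat_lit 324) (.n (nat_lit 258) (nat_lit 36) (.n (nat_lit 259) (nat_lit 252) (.n (nat_lit 260) (nat_lit 108) (.n (nat_lit 261) (nat_lit 216) .z))))))))))))))))))))) (.ct dW4x_c8451 (nat_lit 36) (nat_lit 3) (.s false (nat_lit 1) (nat_lit 17) (nat_lit 0) (nat_lit 3) (nat_lit 3) true (nat_lit 5) true (nat_lit 7) true (nat_lit 0) true (nat_lit 9) true (nat_lit 7) (.s false (nat_lit 1) (nat_lit 17) (nat_lit 3) (nat_lit 0) (nat_lit 3) true (nat_lit 3) true (nat_lit 7) true (nat_lit 0) true (nat_lit 7) true (nat_lit 9) (.e false (nat_lit 36) (nat_lit 58) (nat_lit 7) (nat_lit 5) (.e false (nat_lit 72) (nat_lit 105) (nat_lit 3) (nat_lit 7) (.e true (nat_lit 36) (nat_lit 165) (nat_lit 0) (nat_lit 9) (.e false (nat_lit 72) (nat_lit 109) (nat_lit 3) (nat_lit 7) (.e true (nat_lit 36) (nat_lit 110) (nat_lit 3) (nat_lit 7) (.e false (nat_lit 36) (nat_lit 111) (nat_lit 3) (nat_lit 7) (.e false (nat_lit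 36) (nat_lit 156) (nat_lit 0) (nat_lit 9) .nil)))))))))) (.nd .leaf (nat_lit 40962) (nat_lit 111) (.p (nat_lit 91) (nat_lit 36) .z) .df .leaf))) (nat_lit 40963) (nat_lit 141) (.p (nat_lit 106) (nat_lit 36) .z) .df (.nd (.nd (.nd (.nd .leaf (nat_lit 40969) (nat_lit 394) (.n (nat_lit 189) (nat_lit 3) (.n (nat_lit 190) (nat_lit 48) (.p (nat_lit 191) (nat_lit 6) (.n (nat_lit 193) (nat_lit 66) (.n (nat_lit 194) (nat_lit 78) (.p (nat_lit 195) (nat_lit 42) (.p (nat_lit 196) (nat_lit 24) (.p (nat_lit 197) (nat_lit 42) (.p (nat_lit 198) (nat_lit 66) (.n (nat_lit 199) (nat_lit 27) (.p (nat_lit 200) (nat_lit 27) (.n (nat_lit 201) (nat_lit 27) (.p (nat_lit 202) (nat_lit 66) (.p (nat_lit 203) (nat_lit 6) (.n (nat_lit 204) (nat_lit 6) (.p (nat_lit 205) (nat_lit 45) (.p (nat_lit 206) (nat_lit 15) (.n (nat_lit 207) (nat_lit 51) (.p (nat_lit 208) (nat_lit 39) (.n (nat_lit 209) (nat_lit 45) (.p (nat_lit 210) (nat_lit 3) (.p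 (nat_lit 211) (nat_lit 33) (.n (nat_lit 214) (nat_lit 15) (.p (nat_lit 215) (nat_lit 36) (.p (nat_lit 216) (nat_lit 15) (.n (nat_lit 217) (nat_lit 33) (.p (nat_lit 218) (nat_lit 3) (.n (nat_lit 219) (nat_lit 3) (.n (nat_lit 220) (nat_lit 30) (.n (nat_lit 221) (nat_lit 17) (.p (nat_lit 222) (nat_lit 50) (.p (nat_lit 223) (nat_lit 6) (.p (nat_lit 224) (nat_lit 14) (.n (nat_lit 225) (nat_lit 20) (.n (nat_lit 226) (nat_lit 39) (.n (nat_lit 227) (nat_lit 3) (.n (nat_lit 228) (nat_lit 14) (.p (nat_lit 229) (nat_lit 20) (.p (nat_lit 230) (nat_lit 11) (.p (nat_lit 231) (nat_lit 1) (.p (nat_lit 232) (nat_lit 25) (.n (nat_lit 233) (nat_lit 23) (.p (nat_lit 234) (nat_lit 29) (.p (nat_lit 235) (nat_lit 38) (.n (nat_lit 236) (nat_lit 16) (.p (nat_lit 237) (nat_lit 13) (.p (nat_lit 238) (nat_lit 1) (.p (nat_lit 239) (nat_lit 15) (.p (nat_lit 240) (nat_lit 78) .z))))))))))))))))))))))))))))))))))))))))))))))))) (.ct dW4x_c8466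 (nat_lit 36) (nat_lit 6) (.s true (nat_lit 1) (nat_lit 19) (nat_lit 2) (nat_lit 0) (nat_lit 3) true (nat_lit 6) true (nat_lit 12) true (nat_lit 0) true (nat_lit 13) true (nat_lit 15) (.s true (nat_lit 1) (nat_lit 20) (nat_lit 1) (nat_lit 3) (nat_lit 0) true (nat_lit 11) true (nat_lit 15) false (nat_lit 0) true (nat_lit 14) true (nat_lit 12) (.e true (nat_lit 36) (nat_lit 100) (nat_lit 3) (nat_lit 12) (.e false (nat_lit 36) (nat_lit 106) (nat_lit 2) (nat_lit 13) (.e true (nat_lit 36) (nat_lit 109) (nat_lit 2) (nat_lit 13) (.e true (nat_lit 36) (nat_lit 110) (nat_lit 2) (nat_lit 13) (.e false (nat_lit 36) (nat_lit 113) (nat_lit 2) (nat_lit 13) (.e true (nat_lit 72) (nat_lit 114) (nat_lit 2) (nat_lit 13) (.e false (nat_lit 36) (nat_lit 138) (nat_lit 0) (nat_lit 15) (.e false (nat_lit 36) (nat_lit 64) (nat_lit 4) (nat_lit 11) (.e true (nat_lit 36) (nat_lit 132) (nat_lit 0) (nat_lit 15) (.e true (nat_lit 36) (nat_lit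 116) (nat_lit 1) (nat_lit 14) (.e false (nat_lit 36) (nat_lit 121) (nat_lit 1) (nat_lit 14) (.e true (nat_lit 36) (nat_lit 122) (nat_lit 1) (nat_lit 14) (.e false (nat_lit 36) (nat_lit 94) (nat_lit 3) (nat_lit 12) .nil)))))))))))))))) .leaf) (nat_lit 40970) (nat_lit 444) (.n (nat_lit 241) (nat_lit 540) (.p (nat_lit 242) (nat_lit 180) (.p (nat_lit 243) (nat_lit 216) (.p (nat_lit 244) (nat_lit 1116) (.p (nat_lit 245) (nat_lit 576) (.n (nat_lit 246) (nat_lit 216) (.n (nat_lit 247) (nat_lit 612) (.n (nat_lit 248) (nat_lit 540) (.p (nat_lit 249) (nat_lit 1332) (.p (nat_lit 250) (nat_lit 252) (.n (nat_lit 252) (nat_lit 432) (.n (nat_lit 253) (nat_lit 612) (.p (nat_lit 254) (nat_lit 144) (.n (nat_lit 255) (nat_lit 180) (.p (nat_lit 256) (nat_lit 432) (.n (nat_lit 257) (nat_lit 468) (.p (nat_lit 258) (nat_lit 108) (.p (nat_lit 259) (nat_lit 324) (.p (nat_lit 260) (nat_lit 144) (.p (nat_lit 261) (nat_lit 324) .z))))))))))))))))))))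 (.ct dW4x_c8451 (nat_lit 36) (nat_lit 3) (.s true (nat_lit 1) (nat_lit 8) (nat_lit 0) (nat_lit 7) (nat_lit 3) true (nat_lit 5) true (nat_lit 7) true (nat_lit 4) true (nat_lit 9) true (nat_lit 5) (.s true (nat_lit 1) (nat_lit 8) (nat_lit 7) (nat_lit 0) (nat_lit 3) false (nat_lit 0) true (nat_lit 7) true (nat_lit 4) true (nat_lit 5) true (nat_lit 9) (.s false (nat_lit 1) (nat_lit 19) (nat_lit 3) (nat_lit 0) (nat_lit 3) true (nat_lit 3) true (nat_lit 7) true (nat_lit 0) true (nat_lit 7) true (nat_lit 9) (.e true (nat_lit 36) (nat_lit 63) (nat_lit 7) (nat_lit 5) (.e false (nat_lit 72) (nat_lit 106) (nat_lit 3) (nat_lit 7) (.e true (nat_lit 36) (nat_lit 109) (nat_lit 3) (nat_lit 7) (.e true (nat_lit 36) (nat_lit 110) (nat_lit 3) (nat_lit 7) (.e false (nat_lit 36) (nat_lit 113) (nat_lit 3) (nat_lit 7) (.e true (nat_lit 108) (nat_lit 114) (nat_lit 3) (nat_lit 7) (.e true (nat_lit 72) (nat_lit 166) (nat_lit 0) (nat_lit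 9) (.e true (nat_lit 36) (nat_lit 157) (nat_lit 0) (nat_lit 9) (.e true (nat_lit 36) (nat_lit 159) (nat_lit 0) (nat_lit 9) (.e false (nat_lit 36) (nat_lit 162) (nat_lit 0) (nat_lit 9) (.e false (nat_lit 36) (nat_lit 163) (nat_lit 0) (nat_lit 9) (.e false (nat_lit 36) (nat_lit 111) (nat_lit 3) (nat_lit 7) (.e false (nat_lit 36) (nat_lit 158) (nat_lit 0) (nat_lit 9) .nil))))))))))))))))) .leaf) (nat_lit 41985) (nat_lit 112) (.p (nat_lit 92) (nat_lit 36) .z) .df (.nd .leaf (nat_lit 41987) (nat_lit 172) (.p (nat_lit 115) (nat_lit 36) (.n (nat_lit 116) (nat_lit 72) (.n (nat_lit 117) (nat_lit 36) (.n (nat_lit 119) (nat_lit 36) (.n (nat_lit 120) (nat_lit 36) (.p (nat_lit 121) (nat_lit 36) (.n (nat_lit 122) (nat_lit 36) (.p (nat_lit 123) (nat_lit 72) (.p (nat_lit 124) (nat_lit 36) (.n (nat_lit 125) (nat_lit 72) .z)))))))))) (.ct dW4x_c8210 (nat_lit 72) (nat_lit 4) (.s true (nat_lit 1) (nat_lit 5) (nat_lit 0) (nat_lit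 3) (nat_lit 3) true (nat_lit 2) true (nat_lit 4) true (nat_lit 3) true (nat_lit 6) true (nat_lit 4) (.s true (nat_lit 1) (nat_lit 7) (nat_lit 2) (nat_lit 0) (nat_lit 3) true (nat_lit 1) true (nat_lit 4) true (nat_lit 2) true (nat_lit 5) true (nat_lit 6) (.s true (nat_lit 1) (nat_lit 7) (nat_lit 2) (nat_lit 3) (nat_lit 0) true (nat_lit 3) true (nat_lit 6) true (nat_lit 2) true (nat_lit 5) true (nat_lit 4) (.s true (nat_lit 1) (nat_lit 9) (nat_lit 3) (nat_lit 0) (nat_lit 0) true (nat_lit 2) true (nat_lit 6) true (nat_lit 1) true (nat_lit 4) true (nat_lit 6) (.e false (nat_lit 72) (nat_lit 26) (nat_lit 5) (nat_lit 3) (.e false (nat_lit 72) (nat_lit 67) (nat_lit 0) (nat_lit 6) (.e true (nat_lit 72) (nat_lit 69) (nat_lit 0) (nat_lit 6) .nil)))))))) .leaf)) (nat_lit 41992) (nat_lit 375) (.n (nat_lit 189) (nat_lit 36) (.p (nat_lit 190) (nat_lit 36) (.n (nat_lit 191) (nat_lit 12) (.n (nat_lit 192) (nat_lit 12) (.p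 (nat_lit 193) (nat_lit 108) (.p (nat_lit 194) (nat_lit 12) (.n (nat_lit 195) (nat_lit 24) (.n (nat_lit 196) (nat_lit 72) (.n (nat_lit 197) (nat_lit 24) (.n (nat_lit 198) (nat_lit 96) (.n (nat_lit 199) (nat_lit 108) (.n (nat_lit 200) (nat_lit 12) (.p (nat_lit 201) (nat_lit 12) (.p (nat_lit 202) (nat_lit 24) (.p (nat_lit 203) (nat_lit 84) (.n (nat_lit 204) (nat_lit 84) (.p (nat_lit 205) (nat_lit 84) (.n (nat_lit 206) (nat_lit 48) (.n (nat_lit 207) (nat_lit 60) (.p (nat_lit 208) (nat_lit 48) (.p (nat_lit 209) (nat_lit 24) (.p (nat_lit 211) (nat_lit 96) (.p (nat_lit 214) (nat_lit 24) (.n (nat_lit 216) (nat_lit 24) (.p (nat_lit 217) (nat_lit 24) (.p (nat_lit 218) (nat_lit 24) (.n (nat_lit 219) (nat_lit 24) (.p (nat_lit 220) (nat_lit 12) (.p (nat_lit 221) (nat_lit 44) (.n (nat_lit 222) (nat_lit 68) (.n (nat_lit 223) (nat_lit 24) (.p (nat_lit 224) (nat_lit 4) (.p (nat_lit 225) (nat_lit 20) (.p (nat_lit 226) (nat_lit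 12) (.n (nat_lit 227) (nat_lit 24) (.n (nat_lit 228) (nat_lit 4) (.n (nat_lit 229) (nat_lit 20) (.n (nat_lit 230) (nat_lit 20) (.p (nat_lit 231) (nat_lit 44) (.n (nat_lit 232) (nat_lit 16) (.n (nat_lit 233) (nat_lit 4) (.n (nat_lit 234) (nat_lit 20) (.n (nat_lit 235) (nat_lit 20) (.p (nat_lit 236) (nat_lit 16) (.n (nat_lit 237) (nat_lit 4) (.p (nat_lit 238) (nat_lit 8) (.p (nat_lit 239) (nat_lit 12) (.n (nat_lit 240) (nat_lit 24) .z)))))))))))))))))))))))))))))))))))))))))))))))) (.ct dW4x_c8466 (nat_lit 36) (nat_lit 7) (.s true (nat_lit 1) (nat_lit 12) (nat_lit 1) (nat_lit 3) (nat_lit 3) true (nat_lit 7) true (nat_lit 12) true (nat_lit 3) true (nat_lit 14) true (nat_lit 12) (.s true (nat_lit 1) (nat_lit 28) (nat_lit 0) (nat_lit 2) (nat_lit 0) false (nat_lit 16) true (nat_lit 15) false (nat_lit 3) true (nat_lit 15) true (nat_lit 13) (.e true (nat_lit 36) (nat_lit 86) (nat_lit 3) (nat_lit 12) (.e true (nat_lit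 36) (nat_lit 119) (nat_lit 1) (nat_lit 14) dW4x_i44))))) (.nd (.nd (.nd .leaf (nat_lit 41994) (nat_lit 499) (.p (nat_lit 262) (nat_lit 108) (.n (nat_lit 263) (nat_lit 36) (.n (nat_lit 264) (nat_lit 72) (.n (nat_lit 265) (nat_lit 216) (.n (nat_lit 266) (nat_lit 72) (.p (nat_lit 268) (nat_lit 144) (.p (nat_lit 269) (nat_lit 144) (.n (nat_lit 270) (nat_lit 288) (.n (nat_lit 271) (nat_lit 36) (.p (nat_lit 273) (nat_lit 72) (.p (nat_lit 274) (nat_lit 72) (.n (nat_lit 275) (nat_lit 36) (.p (nat_lit 276) (nat_lit 36) (.n (nat_lit 277) (nat_lit 72) (.p (nat_lit 278) (nat_lit 72) (.n (nat_lit 280) (nat_lit 72) (.n (nat_lit 281) (nat_lit 36) (.n (nat_lit 282) (nat_lit 36) .z)))))))))))))))))) (.ct dW4x_c8211 (nat_lit 36) (nat_lit 3) (.s true (nat_lit 1) (nat_lit 12) (nat_lit 3) (nat_lit 3) (nat_lit 3) true (nat_lit 3) true (nat_lit 7) true (nat_lit 2) true (nat_lit 7) true (nat_lit 7) (.s false (nat_lit 1) (nat_lit 32)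 (nat_lit 0) (nat_lit 2) (nat_lit 0) false (nat_lit 10) true (nat_lit 9) false (nat_lit 2) true (nat_lit 9) true (nat_lit 8) (.e true (nat_lit 36) (nat_lit 119) (nat_lit 3) (nat_lit 7) (.e false (nat_lit 36) (nat_lit 121) (nat_lit 3) (nat_lit 7) (.e true (nat_lit 36) (nat_lit 122) (nat_lit 3) (nat_lit 7) (.e false (nat_lit 36) (nat_lit 123) (nat_lit 3) (nat_lit 7) (.e false (nat_lit 36) (nat_lit 124) (nat_lit 3) (nat_lit 7) (.e true (nat_lit 36) (nat_lit 125) (nat_lit 3) (nat_lit 7) (.e false (nat_lit 36) (nat_lit 174) (nat_lit 0) (nat_lit 9) (.e true (nat_lit 36) (nat_lit 168) (nat_lit 0) (nat_lit 9) (.e false (nat_lit 36) (nat_lit 169) (nat_lit 0) (nat_lit 9) (.e true (nat_lit 36) (nat_lit 170) (nat_lit 0) (nat_lit 9) (.e false (nat_lit 36) (nat_lit 172) (nat_lit 0) (nat_lit 9) (.e false (nat_lit 36) (nat_lit 176) (nat_lit 0) (nat_lit 9) (.e true (nat_lit 36) (nat_lit 155) (nat_lit 2) (nat_lit 8) .nil))))))))))))))))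 .leaf) (nat_lit 43009) (nat_lit 113) (.p (nat_lit 93) (nat_lit 36) .z) .df .leaf) (nat_lit 43011) (nat_lit 159) (.p (nat_lit 115) (nat_lit 36) .z) .df (.nd .leaf (nat_lit 43016) (nat_lit 363) (.p (nat_lit 189) (nat_lit 165) (.n (nat_lit 190) (nat_lit 132) (.n (nat_lit 191) (nat_lit 42) (.p (nat_lit 192) (nat_lit 54) (.n (nat_lit 193) (nat_lit 312) (.n (nat_lit 194) (nat_lit 12) (.p (nat_lit 195) (nat_lit 48) (.p (nat_lit 196) (nat_lit 210) (.p (nat_lit 197) (nat_lit 48) (.p (nat_lit 198) (nat_lit 258) (.p (nat_lit 199) (nat_lit 225) (.n (nat_lit 200) (nat_lit 63) (.p (nat_lit 201) (nat_lit 63) (.n (nat_lit 202) (nat_lit 84) (.n (nat_lit 203) (nat_lit 168) (.p (nat_lit 204) (nat_lit 240) (.n (nat_lit 205) (nat_lit 243) (.p (nat_lit 206) (nat_lit 111) (.p (nat_lit 207) (nat_lit 177) (.n (nat_lit 208) (nat_lit 165) (.n (nat_lit 209) (nat_lit 9) (.n (nat_lit 210) (nat_lit 39) (.n (nat_lit 211) (nat_lit 267) (.p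 (nat_lit 212) (nat_lit 36) (.n (nat_lit 214) (nat_lit 21) (.p (nat_lit 216) (nat_lit 21) (.n (nat_lit 217) (nat_lit 21) (.n (nat_lit 218) (nat_lit 21) (.p (nat_lit 219) (nat_lit 21) (.n (nat_lit 220) (nat_lit 42) (.n (nat_lit 221) (nat_lit 13) (.p (nat_lit 222) (nat_lit 34) (.p (nat_lit 223) (nat_lit 30) (.n (nat_lit 224) (nat_lit 38) (.p (nat_lit 225) (nat_lit 8) (.p (nat_lit 226) (nat_lit 21) (.p (nat_lit 227) (nat_lit 21) (.p (nat_lit 228) (nat_lit 2) (.n (nat_lit 229) (nat_lit 8) (.p (nat_lit 230) (nat_lit 55) (.n (nat_lit 231) (nat_lit 31) (.p (nat_lit 232) (nat_lit 17) (.p (nat_lit 233) (nat_lit 11) (.p (nat_lit 234) (nat_lit 19) (.p (nat_lit 235) (nat_lit 64) (.n (nat_lit 236) (nat_lit 26) (.n (nat_lit 237) (nat_lit 25) (.n (nat_lit 238) (nat_lit 13) (.p (nat_lit 239) (nat_lit 3) (.p (nat_lit 240) (nat_lit 66) .z)))))))))))))))))))))))))))))))))))))))))))))))))) (.ct dW4x_c8466 (nat_lit 36) (nat_lit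 7) (.s true (nat_lit 1) (nat_lit 8) (nat_lit 0) (nat_lit 2) (nat_lit 7) true (nat_lit 1) true (nat_lit 8) true (nat_lit 7) true (nat_lit 15) true (nat_lit 13) (.s false (nat_lit 1) (nat_lit 8) (nat_lit 3) (nat_lit 0) (nat_lit 5) false (nat_lit 0) true (nat_lit 10) true (nat_lit 7) true (nat_lit 12) true (nat_lit 15) (.s false (nat_lit 1) (nat_lit 9) (nat_lit 8) (nat_lit 0) (nat_lit 0) true (nat_lit 0) true (nat_lit 15) true (nat_lit 6) true (nat_lit 7) true (nat_lit 15) (.s true (nat_lit 1) (nat_lit 16) (nat_lit 1) (nat_lit 2) (nat_lit 3) true (nat_lit 7) true (nat_lit 12) true (nat_lit 1) true (nat_lit 14) true (nat_lit 13) (.s true (nat_lit 1) (nat_lit 16) (nat_lit 2) (nat_lit 1) (nat_lit 3) true (nat_lit 6) true (nat_lit 12) true (nat_lit 1) true (nat_lit 13) true (nat_lit 14) (.s true (nat_lit 1) (nat_lit 16) (nat_lit 3) (nat_lit 1) (nat_lit 2) true (nat_lit 6) true (nat_lit 13) true (nat_lit 1) true (nat_lit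 12) true (nat_lit 14) (.s false (nat_lit 1) (nat_lit 19) (nat_lit 0) (nat_lit 2) (nat_lit 3) true (nat_lit 8) true (nat_lit 12) true (nat_lit 0) true (nat_lit 15) true (nat_lit 13) (.s false (nat_lit 1) (nat_lit 19) (nat_lit 0) (nat_lit 3) (nat_lit 2) true (nat_lit 10) true (nat_lit 13) true (nat_lit 0) true (nat_lit 15) true (nat_lit 12) (.s false (nat_lit 1) (nat_lit 19) (nat_lit 2) (nat_lit 0) (nat_lit 3) true (nat_lit 6) true (nat_lit 12) true (nat_lit 0) true (nat_lit 13) true (nat_lit 15) (.s false (nat_lit 1) (nat_lit 19) (nat_lit 2) (nat_lit 3) (nat_lit 0) true (nat_lit 10) true (nat_lit 15) true (nat_lit 0) true (nat_lit 13) true (nat_lit 12) (.s true (nat_lit 1) (nat_lit 20) (nat_lit 1) (nat_lit 3) (nat_lit 0) true (nat_lit 11) true (nat_lit 15) false (nat_lit 0) true (nat_lit 14) true (nat_lit 12) (.s true (nat_lit 1) (nat_lit 21) (nat_lit 1) (nat_lit 3) (nat_lit 0) true (nat_lit 11) true (nat_lit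 15) false (nat_lit 0) true (nat_lit 14) true (nat_lit 12) (.s true (nat_lit 1) (nat_lit 28) (nat_lit 0) (nat_lit 0) (nat_lit 2) true (nat_lit 10) true (nat_lit 13) false (nat_lit 3) true (nat_lit 15) true (nat_lit 15) (.e true (nat_lit 36) (nat_lit 128) (nat_lit 0) (nat_lit 15) (.e false (nat_lit 36) (nat_lit 133) (nat_lit 0) (nat_lit 15) (.e false (nat_lit 36) (nat_lit 135) (nat_lit 0) (nat_lit 15) (.e true (nat_lit 36) (nat_lit 143) (nat_lit 0) (nat_lit 15) dW4x_i33)))))))))))))))))) .leaf)))) (nat_lit 43018) (nat_lit 494) (.n (nat_lit 262) (nat_lit 108) (.p (nat_lit 263) (nat_lit 36) (.p (nat_lit 264) (nat_lit 36) (.p (nat_lit 265) (nat_lit 108) (.p (nat_lit 266) (nat_lit 72) (.n (nat_lit 268) (nat_lit 36) (.n (nat_lit 269) (nat_lit 72) (.p (nat_lit 270) (nat_lit 180) (.p (nat_lit 271) (nat_lit 36) (.n (nat_lit 272) (nat_lit 36) (.p (nat_lit 274) (nat_lit 36) (.p (nat_lit 275) (nat_lit 72) (.p (nat_lit 276)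 (nat_lit 72) (.p (nat_lit 277) (nat_lit 36) (.n (nat_lit 279) (nat_lit 72) (.p (nat_lit 280) (nat_lit 72) (.p (nat_lit 282) (nat_lit 36) .z))))))))))))))))) (.ct dW4x_c8211 (nat_lit 36) (nat_lit 3) (.s false (nat_lit 1) (nat_lit 9) (nat_lit 0) (nat_lit 7) (nat_lit 3) true (nat_lit 5) true (nat_lit 7) true (nat_lit 4) true (nat_lit 9) true (nat_lit 5) (.s false (nat_lit 1) (nat_lit 16) (nat_lit 2) (nat_lit 3) (nat_lit 3) true (nat_lit 4) true (nat_lit 7) true (nat_lit 1) true (nat_lit 8) true (nat_lit 7) (.s false (nat_lit 1) (nat_lit 16) (nat_lit 3) (nat_lit 2) (nat_lit 3) true (nat_lit 3) true (nat_lit 7) true (nat_lit 1) true (nat_lit 7) true (nat_lit 8) (.e true (nat_lit 36) (nat_lit 64) (nat_lit 7) (nat_lit 5) (.e true (nat_lit 36) (nat_lit 65) (nat_lit 7) (nat_lit 5) (.e false (nat_lit 36) (nat_lit 68) (nat_lit 7) (nat_lit 5) (.e true (nat_lit 72) (nat_lit 117) (nat_lit 3) (nat_lit 7) (.e false (nat_lit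 72) (nat_lit 120) (nat_lit 3) (nat_lit 7) (.e false (nat_lit 72) (nat_lit 121) (nat_lit 3) (nat_lit 7) (.e true (nat_lit 72) (nat_lit 124) (nat_lit 3) (nat_lit 7) (.e false (nat_lit 108) (nat_lit 125) (nat_lit 3) (nat_lit 7) (.e false (nat_lit 36) (nat_lit 177) (nat_lit 0) (nat_lit 9) (.e false (nat_lit 36) (nat_lit 115) (nat_lit 3) (nat_lit 7) (.e false (nat_lit 36) (nat_lit 152) (nat_lit 2) (nat_lit 8) (.e true (nat_lit 72) (nat_lit 154) (nat_lit 2) (nat_lit 8) (.e true (nat_lit 36) (nat_lit 155) (nat_lit 2) (nat_lit 8) (.e false (nat_lit 72) (nat_lit 118) (nat_lit 3) (nat_lit 7) (.e false (nat_lit 36) (nat_lit 122) (nat_lit 3) (nat_lit 7) (.e false (nat_lit 36) (nat_lit 151) (nat_lit 2) (nat_lit 8) .nil)))))))))))))))))))) (.nd (.nd (.nd (.nd (.nd .leaf (nat_lit 44033) (nat_lit 114) (.p (nat_lit 94) (nat_lit 36) .z) .df .leaf) (nat_lit 44035) (nat_lit 160) (.p (nat_lit 116) (nat_lit 36) .z) .df .leaf) (nat_lit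 44040) (nat_lit 390) (.p (nat_lit 189) (nat_lit 135) (.n (nat_lit 190) (nat_lit 72) (.n (nat_lit 191) (nat_lit 54) (.p (nat_lit 192) (nat_lit 36) (.n (nat_lit 193) (nat_lit 198) (.p (nat_lit 194) (nat_lit 18) (.p (nat_lit 195) (nat_lit 18) (.p (nat_lit 196) (nat_lit 108) (.p (nat_lit 197) (nat_lit 54) (.p (nat_lit 198) (nat_lit 162) (.p (nat_lit 199) (nat_lit 171) (.n (nat_lit 200) (nat_lit 27) (.p (nat_lit 201) (nat_lit 63) (.n (nat_lit 202) (nat_lit 90) (.n (nat_lit 203) (nat_lit 126) (.p (nat_lit 204) (nat_lit 198) (.n (nat_lit 205) (nat_lit 153) (.p (nat_lit 206) (nat_lit 81) (.p (nat_lit 207) (nat_lit 135) (.n (nat_lit 208) (nat_lit 135) (.p (nat_lit 209) (nat_lit 45) (.n (nat_lit 210) (nat_lit 27) (.n (nat_lit 211) (nat_lit 153) (.n (nat_lit 214) (nat_lit 9) (.p (nat_lit 216) (nat_lit 9) (.p (nat_lit 217) (nat_lit 9) (.n (nat_lit 218) (nat_lit 27) (.n (nat_lit 219) (nat_lit 9) (.n (nat_lit 220) (nat_lit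 18) (.n (nat_lit 221) (nat_lit 15) (.p (nat_lit 222) (nat_lit 6) (.p (nat_lit 223) (nat_lit 18) (.n (nat_lit 224) (nat_lit 30) (.p (nat_lit 225) (nat_lit 12) (.p (nat_lit 226) (nat_lit 63) (.p (nat_lit 227) (nat_lit 27) (.p (nat_lit 228) (nat_lit 30) (.n (nat_lit 229) (nat_lit 12) (.p (nat_lit 230) (nat_lit 33) (.n (nat_lit 231) (nat_lit 33) (.p (nat_lit 232) (nat_lit 3) (.p (nat_lit 233) (nat_lit 39) (.n (nat_lit 234) (nat_lit 21) (.p (nat_lit 235) (nat_lit 6) (.n (nat_lit 236) (nat_lit 12) (.n (nat_lit 237) (nat_lit 33) (.p (nat_lit 238) (nat_lit 3) (.n (nat_lit 239) (nat_lit 27) (.p (nat_lit 240) (nat_lit 18) .z))))))))))))))))))))))))))))))))))))))))))))))))) (.ct dW4x_c8466 (nat_lit 36) (nat_lit 7) (.s false (nat_lit 1) (nat_lit 17) (nat_lit 2) (nat_lit 0) (nat_lit 3) true (nat_lit 6) true (nat_lit 12) true (nat_lit 0) true (nat_lit 13) true (nat_lit 15) (.s true (nat_lit 1) (nat_lit 20) (nat_lit 1) (nat_lit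 0) (nat_lit 3) true (nat_lit 7) true (nat_lit 12) false (nat_lit 0) true (nat_lit 14) true (nat_lit 15) (.e false (nat_lit 36) (nat_lit 39) (nat_lit 9) (nat_lit 6) (.e false (nat_lit 36) (nat_lit 98) (nat_lit 3) (nat_lit 12) (.e true (nat_lit 36) (nat_lit 105) (nat_lit 2) (nat_lit 13) (.e false (nat_lit 36) (nat_lit 110) (nat_lit 2) (nat_lit 13) (.e true (nat_lit 36) (nat_lit 111) (nat_lit 2) (nat_lit 13) (.e true (nat_lit 36) (nat_lit 136) (nat_lit 0) (nat_lit 15) (.e true (nat_lit 36) (nat_lit 101) (nat_lit 3) (nat_lit 12) (.e false (nat_lit 36) (nat_lit 116) (nat_lit 1) (nat_lit 14) (.e true (nat_lit 36) (nat_lit 121) (nat_lit 1) (nat_lit 14) (.e false (nat_lit 36) (nat_lit 122) (nat_lit 1) (nat_lit 14) (.e false (nat_lit 36) (nat_lit 142) (nat_lit 0) (nat_lit 15) .nil)))))))))))))) (.nd .leaf (nat_lit 44042) (nat_lit 503) (.p (nat_lit 262) (nat_lit 360) (.n (nat_lit 263) (nat_lit 72) (.n (nat_lit 264) (nat_lit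 180) (.n (nat_lit 265) (nat_lit 684) (.n (nat_lit 266) (nat_lit 324) (.p (nat_lit 267) (nat_lit 180) (.p (nat_lit 268) (nat_lit 432) (.p (nat_lit 269) (nat_lit 324) (.n (nat_lit 270) (nat_lit 864) (.n (nat_lit 271) (nat_lit 144) (.p (nat_lit 272) (nat_lit 36) (.p (nat_lit 273) (nat_lit 252) (.p (nat_lit 274) (nat_lit 360) (.n (nat_lit 275) (nat_lit 108) (.p (nat_lit 276) (nat_lit 72) (.n (nat_lit 277) (nat_lit 288) (.p (nat_lit 278) (nat_lit 324) (.n (nat_lit 279) (nat_lit 36) (.n (nat_lit 280) (nat_lit 252) (.n (nat_lit 281) (nat_lit 108) (.n (nat_lit 282) (nat_lit 216) .z))))))))))))))))))))) (.ct dW4x_c8211 (nat_lit 36) (nat_lit 3) (.s false (nat_lit 1) (nat_lit 20) (nat_lit 0) (nat_lit 3) (nat_lit 3) true (nat_lit 5) true (nat_lit 7) true (nat_lit 0) true (nat_lit 9) true (nat_lit 7) (.s false (nat_lit 1) (nat_lit 20) (nat_lit 3) (nat_lit 0) (nat_lit 3) true (nat_lit 3) true (nat_lit 7) true (nat_lit 0)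 true (nat_lit 7) true (nat_lit 9) (.e false (nat_lit 36) (nat_lit 64) (nat_lit 7) (nat_lit 5) (.e false (nat_lit 72) (nat_lit 116) (nat_lit 3) (nat_lit 7) (.e true (nat_lit 36) (nat_lit 176) (nat_lit 0) (nat_lit 9) (.e false (nat_lit 72) (nat_lit 120) (nat_lit 3) (nat_lit 7) (.e true (nat_lit 36) (nat_lit 121) (nat_lit 3) (nat_lit 7) (.e false (nat_lit 36) (nat_lit 122) (nat_lit 3) (nat_lit 7) (.e false (nat_lit 36) (nat_lit 167) (nat_lit 0) (nat_lit 9) .nil)))))))))) .leaf)) (nat_lit 45057) (nat_lit 131) (.p (nat_lit 85) (nat_lit 36) (.p (nat_lit 86) (nat_lit 60) (.n (nat_lit 87) (nat_lit 24) (.n (nat_lit 88) (nat_lit 36) (.p (nat_lit 89) (nat_lit 48) (.n (nat_lit 90) (nat_lit 48) (.n (nat_lit 91) (nat_lit 72) (.n (nat_lit 92) (nat_lit 36) (.n (nat_lit 93) (nat_lit 12) (.n (nat_lit 94) (nat_lit 24) (.n (nat_lit 95) (nat_lit 60) (.n (nat_lit 96) (nat_lit 12) (.n (nat_lit 97) (nat_lit 12) (.n (nat_lit 98) (nat_lit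 48) (.p (nat_lit 99) (nat_lit 48) (.n (nat_lit 100) (nat_lit 24) (.p (nat_lit 101) (nat_lit 12) (.p (nat_lit 102) (nat_lit 60) (.n (nat_lit 103) (nat_lit 12) .z))))))))))))))))))) (.ct dW4x_c8465 (nat_lit 36) (nat_lit 8) (.s false (nat_lit 1) (nat_lit 9) (nat_lit 0) (nat_lit 1) (nat_lit 0) false (nat_lit 10) true (nat_lit 9) true (nat_lit 0) true (nat_lit 9) true (nat_lit 8) (.e false (nat_lit 36) (nat_lit 53) (nat_lit 0) (nat_lit 9) (.e true (nat_lit 36) (nat_lit 11) (nat_lit 9) (nat_lit 0) (.e true (nat_lit 36) (nat_lit 46) (nat_lit 0) (nat_lit 9) (.e true (nat_lit 36) (nat_lit 50) (nat_lit 0) (nat_lit 9) (.e false (nat_lit 36) (nat_lit 52) (nat_lit 0) (nat_lit 9) (.e false (nat_lit 36) (nat_lit 54) (nat_lit 0) (nat_lit 9) .nil)))))))) (.nd (.nd (.nd .leaf (nat_lit 45059) (nat_lit 161) (.p (nat_lit 117) (nat_lit 36) .z) .df .leaf) (nat_lit 45064) (nat_lit 384) (.n (nat_lit 189) (nat_lit 6) (.n (nat_lit 190)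 (nat_lit 60) (.p (nat_lit 191) (nat_lit 48) (.p (nat_lit 192) (nat_lit 54) (.n (nat_lit 193) (nat_lit 78) (.p (nat_lit 194) (nat_lit 42) (.n (nat_lit 195) (nat_lit 6) (.p (nat_lit 196) (nat_lit 102) (.n (nat_lit 197) (nat_lit 78) (.p (nat_lit 198) (nat_lit 24) (.p (nat_lit 199) (nat_lit 54) (.n (nat_lit 200) (nat_lit 108) (.p (nat_lit 201) (nat_lit 36) (.p (nat_lit 202) (nat_lit 6) (.n (nat_lit 203) (nat_lit 42) (.p (nat_lit 204) (nat_lit 6) (.n (nat_lit 205) (nat_lit 126) (.p (nat_lit 206) (nat_lit 66) (.p (nat_lit 207) (nat_lit 78) (.n (nat_lit 208) (nat_lit 66) (.n (nat_lit 209) (nat_lit 54) (.n (nat_lit 210) (nat_lit 12) (.n (nat_lit 211) (nat_lit 186) (.p (nat_lit 212) (nat_lit 36) (.n (nat_lit 214) (nat_lit 12) (.p (nat_lit 216) (nat_lit 12) (.n (nat_lit 217) (nat_lit 30) (.p (nat_lit 218) (nat_lit 6) (.p (nat_lit 219) (nat_lit 66) (.n (nat_lit 220) (nat_lit 60) (.p (nat_lit 221) (nat_lit 14) (.p (nat_lit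 222) (nat_lit 16) (.p (nat_lit 223) (nat_lit 12) (.n (nat_lit 224) (nat_lit 20) (.p (nat_lit 225) (nat_lit 8) (.n (nat_lit 226) (nat_lit 42) (.n (nat_lit 227) (nat_lit 6) (.n (nat_lit 228) (nat_lit 16) (.n (nat_lit 229) (nat_lit 8) (.p (nat_lit 230) (nat_lit 46) (.p (nat_lit 231) (nat_lit 14) (.p (nat_lit 232) (nat_lit 26) (.n (nat_lit 233) (nat_lit 16) (.p (nat_lit 234) (nat_lit 28) (.p (nat_lit 235) (nat_lit 46) (.n (nat_lit 236) (nat_lit 26) (.n (nat_lit 237) (nat_lit 16) (.n (nat_lit 238) (nat_lit 4) (.p (nat_lit 239) (nat_lit 30) (.p (nat_lit 240) (nat_lit 12) .z)))))))))))))))))))))))))))))))))))))))))))))))))) (.ct dW4x_c8466 (nat_lit 36) (nat_lit 7) (.s true (nat_lit 1) (nat_lit 7) (nat_lit 1) (nat_lit 5) (nat_lit 3) true (nat_lit 7) true (nat_lit 12) true (nat_lit 8) true (nat_lit 14) true (nat_lit 10) (.s true (nat_lit 1) (nat_lit 17) (nat_lit 2) (nat_lit 0) (nat_lit 3) true (nat_lit 6) true (nat_lit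 12) true (nat_lit 0) true (nat_lit 13) true (nat_lit 15) (.s false (nat_lit 1) (nat_lit 20) (nat_lit 1) (nat_lit 0) (nat_lit 3) true (nat_lit 7) true (nat_lit 12) false (nat_lit 0) true (nat_lit 14) true (nat_lit 15) (.e false (nat_lit 36) (nat_lit 42) (nat_lit 8) (nat_lit 7) (.e true (nat_lit 24) (nat_lit 86) (nat_lit 3) (nat_lit 12) (.e false (nat_lit 24) (nat_lit 87) (nat_lit 3) (nat_lit 12) (.e false (nat_lit 36) (nat_lit 88) (nat_lit 3) (nat_lit 12) dW4x_i50)))))))) .leaf) (nat_lit 45066) (nat_lit 493) (.n (nat_lit 262) (nat_lit 540) (.p (nat_lit 263) (nat_lit 180) (.p (nat_lit 264) (nat_lit 216) (.p (nat_lit 265) (nat_lit 1116) (.p (nat_lit 266) (nat_lit 576) (.n (nat_lit 267) (nat_lit 216) (.n (nat_lit 268) (nat_lit 612) (.n (nat_lit 269) (nat_lit 540) (.p (nat_lit 270) (nat_lit 1332) (.p (nat_lit 271) (nat_lit 252) (.n (nat_lit 273) (nat_lit 432) (.n (nat_lit 274) (nat_lit 612) (.p (nat_lit 275) (nat_lit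 144) (.n (nat_lit 276) (nat_lit 180) (.p (nat_lit 277) (nat_lit 432) (.n (nat_lit 278) (nat_lit 468) (.p (nat_lit 279) (nat_lit 108) (.p (nat_lit 280) (nat_lit 324) (.p (nat_lit 281) (nat_lit 144) (.p (nat_lit 282) (nat_lit 324) .z)))))))))))))))))))) (.ct dW4x_c8211 (nat_lit 36) (nat_lit 3) (.s true (nat_lit 1) (nat_lit 9) (nat_lit 0) (nat_lit 7) (nat_lit 3) true (nat_lit 5) true (nat_lit 7) true (nat_lit 4) true (nat_lit 9) true (nat_lit 5) (.s true (nat_lit 1) (nat_lit 9) (nat_lit 7) (nat_lit 0) (nat_lit 3) false (nat_lit 0) true (nat_lit 7) true (nat_lit 4) true (nat_lit 5) true (nat_lit 9) (.s false (nat_lit 1) (nat_lit 22) (nat_lit 3) (nat_lit 0) (nat_lit 3) true (nat_lit 3) true (nat_lit 7) true (nat_lit 0) true (nat_lit 7) true (nat_lit 9) (.e true (nat_lit 36) (nat_lit 69) (nat_lit 7) (nat_lit 5) (.e false (nat_lit 72) (nat_lit 117) (nat_lit 3) (nat_lit 7) (.e true (nat_lit 36) (nat_lit 120) (nat_lit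 3) (nat_lit 7) (.e true (nat_lit 36) (nat_lit 121) (nat_lit 3) (nat_lit 7) (.e false (nat_lit 36) (nat_lit 124) (nat_lit 3) (nat_lit 7) (.e true (nat_lit 108) (nat_lit 125) (nat_lit 3) (nat_lit 7) (.e true (nat_lit 72) (nat_lit 177) (nat_lit 0) (nat_lit 9) (.e true (nat_lit 36) (nat_lit 168) (nat_lit 0) (nat_lit 9) (.e true (nat_lit 36) (nat_lit 170) (nat_lit 0) (nat_lit 9) (.e false (nat_lit 36) (nat_lit 173) (nat_lit 0) (nat_lit 9) (.e false (nat_lit 36) (nat_lit 174) (nat_lit 0) (nat_lit 9) (.e false (nat_lit 36) (nat_lit 122) (nat_lit 3) (nat_lit 7) (.e false (nat_lit 36) (nat_lit 169) (nat_lit 0) (nat_lit 9) .nil))))))))))))))))) (.nd .leaf (nat_lit 46080) (nat_lit 115) (.p (nat_lit 95) (nat_lit 36) .z) .df .leaf))) (nat_lit 46083) (nat_lit 179) (.p (nat_lit 126) (nat_lit 36) .z) .df (.nd (.nd (.nd (.nd .leaf (nat_lit 46087) (nat_lit 379) (.p (nat_lit 190) (nat_lit 36) (.p (nat_lit 191) (nat_lit 24) (.p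 (nat_lit 192) (nat_lit 24) (.p (nat_lit 194) (nat_lit 48) (.p (nat_lit 195) (nat_lit 12) (.n (nat_lit 196) (nat_lit 36) (.p (nat_lit 197) (nat_lit 12) (.n (nat_lit 198) (nat_lit 24) (.n (nat_lit 200) (nat_lit 12) (.p (nat_lit 201) (nat_lit 12) (.n (nat_lit 202) (nat_lit 12) (.p (nat_lit 203) (nat_lit 12) (.n (nat_lit 204) (nat_lit 12) (.p (nat_lit 205) (nat_lit 12) (.n (nat_lit 206) (nat_lit 12) (.p (nat_lit 207) (nat_lit 12) (.p (nat_lit 208) (nat_lit 12) (.n (nat_lit 209) (nat_lit 12) (.n (nat_lit 211) (nat_lit 12) (.n (nat_lit 214) (nat_lit 12) (.p (nat_lit 216) (nat_lit 12) (.n (nat_lit 217) (nat_lit 12) (.n (nat_lit 218) (nat_lit 12) (.p (nat_lit 219) (nat_lit 12) (.n (nat_lit 220) (nat_lit 24) (.n (nat_lit 221) (nat_lit 4) (.p (nat_lit 222) (nat_lit 16) (.p (nat_lit 223) (nat_lit 12) (.n (nat_lit 224) (nat_lit 20) (.p (nat_lit 225) (nat_lit 8) (.p (nat_lit 226) (nat_lit 12) (.p (nat_lit 227) (nat_lit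 12) (.p (nat_lit 228) (nat_lit 20) (.n (nat_lit 229) (nat_lit 8) (.n (nat_lit 230) (nat_lit 8) (.n (nat_lit 231) (nat_lit 40) (.p (nat_lit 232) (nat_lit 8) (.p (nat_lit 233) (nat_lit 20) (.n (nat_lit 234) (nat_lit 8) (.n (nat_lit 235) (nat_lit 8) (.n (nat_lit 236) (nat_lit 8) (.n (nat_lit 237) (nat_lit 16) (.n (nat_lit 238) (nat_lit 4) (.n (nat_lit 239) (nat_lit 24) (.n (nat_lit 240) (nat_lit 24) .z))))))))))))))))))))))))))))))))))))))))))))) (.ct dW4x_c8466 (nat_lit 36) (nat_lit 8) (.s false (nat_lit 1) (nat_lit 10) (nat_lit 0) (nat_lit 0) (nat_lit 6) true (nat_lit 2) true (nat_lit 9) true (nat_lit 5) true (nat_lit 15) true (nat_lit 15) (.s true (nat_lit 1) (nat_lit 13) (nat_lit 3) (nat_lit 3) (nat_lit 0) true (nat_lit 8) true (nat_lit 15) true (nat_lit 2) true (nat_lit 12) true (nat_lit 12) (.s true (nat_lit 1) (nat_lit 27) (nat_lit 1) (nat_lit 0) (nat_lit 2) true (nat_lit 9) true (nat_lit 13) false (nat_lit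 2) true (nat_lit 14) true (nat_lit 15) (.s true (nat_lit 1) (nat_lit 27) (nat_lit 1) (nat_lit 2) (nat_lit 0) true (nat_lit 11) true (nat_lit 15) false (nat_lit 2) true (nat_lit 14) true (nat_lit 13) (.e false (nat_lit 36) (nat_lit 128) (nat_lit 0) (nat_lit 15) dW4x_i48)))))) .leaf) (nat_lit 46090) (nat_lit 591) (.p (nat_lit 283) (nat_lit 76) (.p (nat_lit 284) (nat_lit 172) (.p (nat_lit 285) (nat_lit 8) (.p (nat_lit 286) (nat_lit 28) (.p (nat_lit 287) (nat_lit 16) (.p (nat_lit 288) (nat_lit 100) (.n (nat_lit 289) (nat_lit 48) (.n (nat_lit 290) (nat_lit 140) (.p (nat_lit 291) (nat_lit 24) (.n (nat_lit 292) (nat_lit 68) (.n (nat_lit 293) (nat_lit 48) (.n (nat_lit 294) (nat_lit 8) (.n (nat_lit 295) (nat_lit 64) (.p (nat_lit 296) (nat_lit 12) (.p (nat_lit 297) (nat_lit 72) (.n (nat_lit 298) (nat_lit 60) (.p (nat_lit 299) (nat_lit 44) (.n (nat_lit 301) (nat_lit 100) (.n (nat_lit 302) (nat_lit 56) (.p (nat_lit 303)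 (nat_lit 148) (.p (nat_lit 304) (nat_lit 40) (.n (nat_lit 305) (nat_lit 16) (.p (nat_lit 306) (nat_lit 56) (.n (nat_lit 308) (nat_lit 36) (.p (nat_lit 309) (nat_lit 36) (.n (nat_lit 310) (nat_lit 72) (.p (nat_lit 311) (nat_lit 48) (.p (nat_lit 312) (nat_lit 24) (.p (nat_lit 313) (nat_lit 84) (.p (nat_lit 314) (nat_lit 72) (.p (nat_lit 315) (nat_lit 24) (.n (nat_lit 316) (nat_lit 24) (.p (nat_lit 317) (nat_lit 36) (.p (nat_lit 318) (nat_lit 72) (.p (nat_lit 319) (nat_lit 60) (.p (nat_lit 320) (nat_lit 36) (.n (nat_lit 321) (nat_lit 24) (.n (nat_lit 322) (nat_lit 12) (.p (nat_lit 323) (nat_lit 24) (.n (nat_lit 324) (nat_lit 48) (.n (nat_lit 325) (nat_lit 72) (.n (nat_lit 326) (nat_lit 72) (.p (nat_lit 327) (nat_lit 84) (.p (nat_lit 328) (nat_lit 24) (.n (nat_lit 329) (nat_lit 96) .z))))))))))))))))))))))))))))))))))))))))))))) (.ct dW4x_c4371 (nat_lit 36) (nat_lit 4) (.s false (nat_lit 1) (nat_lit 9) (nat_lit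 4) (nat_lit 3) (nat_lit 3) true (nat_lit 2) true (nat_lit 11) true (nat_lit 5) true (nat_lit 10) true (nat_lit 11) (.s true (nat_lit 1) (nat_lit 10) (nat_lit 4) (nat_lit 2) (nat_lit 3) true (nat_lit 2) true (nat_lit 11) true (nat_lit 4) true (nat_lit 10) true (nat_lit 12) (.s true (nat_lit 1) (nat_lit 17) (nat_lit 2) (nat_lit 3) (nat_lit 3) true (nat_lit 5) true (nat_lit 11) true (nat_lit 2) true (nat_lit 12) true (nat_lit 11) (.s true (nat_lit 1) (nat_lit 17) (nat_lit 3) (nat_lit 3) (nat_lit 2) true (nat_lit 5) true (nat_lit 12) true (nat_lit 2) true (nat_lit 11) true (nat_lit 11) (.e false (nat_lit 36) (nat_lit 127) (nat_lit 3) (nat_lit 11) (.e false (nat_lit 36) (nat_lit 131) (nat_lit 3) (nat_lit 11) (.e true (nat_lit 36) (nat_lit 133) (nat_lit 3) (nat_lit 11) (.e true (nat_lit 36) (nat_lit 135) (nat_lit 3) (nat_lit 11) (.e true (nat_lit 36) (nat_lit 58) (nat_lit 9) (nat_lit 5) (.e false (nat_lit 36) (nat_lit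 126) (nat_lit 3) (nat_lit 11) (.e false (nat_lit 36) (nat_lit 129) (nat_lit 3) (nat_lit 11) (.e false (nat_lit 36) (nat_lit 157) (nat_lit 2) (nat_lit 12) (.e true (nat_lit 36) (nat_lit 158) (nat_lit 2) (nat_lit 12) (.e false (nat_lit 36) (nat_lit 159) (nat_lit 2) (nat_lit 12) (.e true (nat_lit 36) (nat_lit 161) (nat_lit 2) (nat_lit 12) (.e true (nat_lit 36) (nat_lit 136) (nat_lit 3) (nat_lit 11) (.e true (nat_lit 36) (nat_lit 156) (nat_lit 2) (nat_lit 12) .nil)))))))))))))))))) .leaf) (nat_lit 47104) (nat_lit 116) (.p (nat_lit 96) (nat_lit 36) .z) .df (.nd .leaf (nat_lit 47107) (nat_lit 180) (.p (nat_lit 127) (nat_lit 36) .z) .df .leaf)) (nat_lit 47111) (nat_lit 344) (.p (nat_lit 239) (nat_lit 36) .z) .df (.nd (.nd .leaf (nat_lit 47114) (nat_lit 585) (.p (nat_lit 283) (nat_lit 64) (.p (nat_lit 284) (nat_lit 232) (.n (nat_lit 285) (nat_lit 16) (.n (nat_lit 286) (nat_lit 56) (.p (nat_lit 287) (nat_lit 40) (.p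 (nat_lit 288) (nat_lit 52) (.n (nat_lit 289) (nat_lit 12) (.n (nat_lit 290) (nat_lit 188) (.p (nat_lit 291) (nat_lit 96) (.n (nat_lit 292) (nat_lit 44) (.n (nat_lit 293) (nat_lit 120) (.n (nat_lit 294) (nat_lit 56) (.n (nat_lit 295) (nat_lit 160) (.p (nat_lit 296) (nat_lit 48) (.p (nat_lit 297) (nat_lit 180) (.n (nat_lit 298) (nat_lit 168) (.p (nat_lit 299) (nat_lit 164) (.n (nat_lit 301) (nat_lit 160) (.n (nat_lit 302) (nat_lit 176) (.p (nat_lit 303) (nat_lit 280) (.p (nat_lit 304) (nat_lit 64) (.n (nat_lit 305) (nat_lit 4) (.p (nat_lit 306) (nat_lit 248) (.p (nat_lit 307) (nat_lit 180) (.p (nat_lit 308) (nat_lit 36) (.p (nat_lit 309) (nat_lit 72) (.n (nat_lit 310) (nat_lit 216) (.p (nat_lit 311) (nat_lit 264) (.p (nat_lit 312) (nat_lit 60) (.p (nat_lit 313) (nat_lit 120) (.p (nat_lit 314) (nat_lit 108) (.p (nat_lit 315) (nat_lit 24) (.n (nat_lit 316) (nat_lit 60) (.p (nat_lit 318) (nat_lit 108) (.p (nat_lit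 319) (nat_lit 168) (.n (nat_lit 321) (nat_lit 60) (.n (nat_lit 322) (nat_lit 12) (.p (nat_lit 323) (nat_lit 60) (.n (nat_lit 324) (nat_lit 48) (.n (nat_lit 325) (nat_lit 108) (.n (nat_lit 326) (nat_lit 108) (.p (nat_lit 327) (nat_lit 156) (.n (nat_lit 328) (nat_lit 48) (.n (nat_lit 329) (nat_lit 168) .z)))))))))))))))))))))))))))))))))))))))))))) (.ct dW4x_c4371 (nat_lit 36) (nat_lit 4) (.s true (nat_lit 1) (nat_lit 10) (nat_lit 3) (nat_lit 2) (nat_lit 4) true (nat_lit 2) true (nat_lit 10) true (nat_lit 4) true (nat_lit 11) true (nat_lit 12) (.s false (nat_lit 1) (nat_lit 17) (nat_lit 3) (nat_lit 3) (nat_lit 2) true (nat_lit 5) true (nat_lit 12) true (nat_lit 2) true (nat_lit 11) true (nat_lit 11) (.e true (nat_lit 36) (nat_lit 84) (nat_lit 4) (nat_lit 10) (.e true (nat_lit 36) (nat_lit 50) (nat_lit 10) (nat_lit 4) (.e false (nat_lit 36) (nat_lit 52) (nat_lit 10) (nat_lit 4) (.e false (nat_lit 36) (nat_lit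 54) (nat_lit 10) (nat_lit 4) (.e false (nat_lit 60) (nat_lit 126) (nat_lit 3) (nat_lit 11) dW4x_i90)))))))) .leaf) (nat_lit 48128) (nat_lit 117) (.p (nat_lit 97) (nat_lit 36) .z) .df (.nd .leaf (nat_lit 48131) (nat_lit 181) (.p (nat_lit 128) (nat_lit 36) .z) .df .leaf))))) (nat_lit 48135) (nat_lit 374) (.n (nat_lit 191) (nat_lit 36) (.n (nat_lit 192) (nat_lit 36) (.n (nat_lit 193) (nat_lit 36) (.n (nat_lit 194) (nat_lit 36) (.p (nat_lit 195) (nat_lit 36) (.p (nat_lit 196) (nat_lit 36) (.p (nat_lit 197) (nat_lit 36) (.p (nat_lit 198) (nat_lit 72) (.n (nat_lit 232) (nat_lit 36) .z))))))))) (.ct dW4x_c8466 (nat_lit 36) (nat_lit 8) (.s true (nat_lit 1) (nat_lit 15) (nat_lit 3) (nat_lit 3) (nat_lit 0) true (nat_lit 8) true (nat_lit 15) true (nat_lit 2) true (nat_lit 12) true (nat_lit 12) (.s false (nat_lit 1) (nat_lit 27) (nat_lit 1) (nat_lit 2) (nat_lit 0) true (nat_lit 11) true (nat_lit 15) false (nat_lit 2) true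 (nat_lit 14) true (nat_lit 13) dW4x_i43))) (.nd (.nd (.nd (.nd (.nd (.nd .leaf (nat_lit 48138) (nat_lit 597) (.n (nat_lit 283) (nat_lit 80) (.n (nat_lit 284) (nat_lit 524) (.p (nat_lit 285) (nat_lit 20) (.p (nat_lit 286) (nat_lit 88) (.n (nat_lit 287) (nat_lit 212) (.n (nat_lit 288) (nat_lit 200) (.p (nat_lit 289) (nat_lit 168) (.p (nat_lit 290) (nat_lit 496) (.n (nat_lit 291) (nat_lit 120) (.p (nat_lit 292) (nat_lit 244) (.p (nat_lit 293) (nat_lit 312) (.p (nat_lit 294) (nat_lit 88) (.p (nat_lit 295) (nat_lit 308) (.n (nat_lit 296) (nat_lit 132) (.n (nat_lit 297) (nat_lit 468) (.p (nat_lit 298) (nat_lit 444) (.n (nat_lit 299) (nat_lit 376) (.p (nat_lit 301) (nat_lit 416) (.p (nat_lit 302) (nat_lit 436) (.n (nat_lit 303) (nat_lit 692) (.n (nat_lit 304) (nat_lit 152) (.p (nat_lit 305) (nat_lit 32) (.n (nat_lit 306) (nat_lit 580) (.n (nat_lit 307) (nat_lit 288) (.n (nat_lit 309) (nat_lit 216) (.p (nat_lit 310)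 (nat_lit 396) (.n (nat_lit 311) (nat_lit 492) (.n (nat_lit 312) (nat_lit 84) (.n (nat_lit 313) (nat_lit 276) (.n (nat_lit 314) (nat_lit 216) (.n (nat_lit 315) (nat_lit 48) (.p (nat_lit 316) (nat_lit 156) (.n (nat_lit 317) (nat_lit 72) (.n (nat_lit 318) (nat_lit 252) (.n (nat_lit 319) (nat_lit 336) (.n (nat_lit 320) (nat_lit 72) (.p (nat_lit 321) (nat_lit 120) (.p (nat_lit 322) (nat_lit 60) (.n (nat_lit 323) (nat_lit 120) (.p (nat_lit 324) (nat_lit 132) (.p (nat_lit 325) (nat_lit 288) (.p (nat_lit 326) (nat_lit 252) (.n (nat_lit 327) (nat_lit 384) (.p (nat_lit 328) (nat_lit 24) (.p (nat_lit 329) (nat_lit 372) .z))))))))))))))))))))))))))))))))))))))))))))) (.ct dW4x_c4371 (nat_lit 36) (nat_lit 4) (.s true (nat_lit 1) (nat_lit 15) (nat_lit 3) (nat_lit 3) (nat_lit 3) true (nat_lit 4) true (nat_lit 11) true (nat_lit 3) true (nat_lit 11) true (nat_lit 11) (.s false (nat_lit 1) (nat_lit 32) (nat_lit 1) (nat_lit 2)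 (nat_lit 0) true (nat_lit 10) true (nat_lit 14) false (nat_lit 3) true (nat_lit 13) true (nat_lit 12) (.e true (nat_lit 36) (nat_lit 128) (nat_lit 3) (nat_lit 11) (.e true (nat_lit 36) (nat_lit 129) (nat_lit 3) (nat_lit 11) (.e true (nat_lit 36) (nat_lit 130) (nat_lit 3) (nat_lit 11) (.e true (nat_lit 36) (nat_lit 131) (nat_lit 3) (nat_lit 11) (.e false (nat_lit 36) (nat_lit 132) (nat_lit 3) (nat_lit 11) (.e false (nat_lit 36) (nat_lit 133) (nat_lit 3) (nat_lit 11) (.e false (nat_lit 36) (nat_lit 134) (nat_lit 3) (nat_lit 11) (.e false (nat_lit 72) (nat_lit 135) (nat_lit 3) (nat_lit 11) (.e false (nat_lit 36) (nat_lit 147) (nat_lit 3) (nat_lit 11) (.e false (nat_lit 36) (nat_lit 150) (nat_lit 3) (nat_lit 11) (.e true (nat_lit 36) (nat_lit 84) (nat_lit 4) (nat_lit 10) (.e false (nat_lit 36) (nat_lit 185) (nat_lit 0) (nat_lit 14) (.e true (nat_lit 36) (nat_lit 168) (nat_lit 1) (nat_lit 13) (.e false (nat_lit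 36) (nat_lit 169) (nat_lit 1) (nat_lit 13) (.e true (nat_lit 36) (nat_lit 170) (nat_lit 1) (nat_lit 13) (.e false (nat_lit 36) (nat_lit 172) (nat_lit 1) (nat_lit 13) (.e false (nat_lit 36) (nat_lit 176) (nat_lit 1) (nat_lit 13) (.e true (nat_lit 36) (nat_lit 163) (nat_lit 2) (nat_lit 12) .nil))))))))))))))))))))) .leaf) (nat_lit 49152) (nat_lit 118) (.p (nat_lit 98) (nat_lit 36) .z) .df .leaf) (nat_lit 49155) (nat_lit 182) (.p (nat_lit 129) (nat_lit 36) .z) .df (.nd .leaf (nat_lit 49159) (nat_lit 386) (.n (nat_lit 189) (nat_lit 15) (.p (nat_lit 190) (nat_lit 12) (.p (nat_lit 191) (nat_lit 6) (.p (nat_lit 192) (nat_lit 12) (.p (nat_lit 193) (nat_lit 66) (.n (nat_lit 194) (nat_lit 6) (.n (nat_lit 195) (nat_lit 18) (.n (nat_lit 196) (nat_lit 24) (.n (nat_lit 197) (nat_lit 18) (.n (nat_lit 198) (nat_lit 42) (.p (nat_lit 199) (nat_lit 9) (.p (nat_lit 200) (nat_lit 3) (.n (nat_lit 201) (nat_lit 3) (.n (nat_lit 202)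 (nat_lit 18) (.p (nat_lit 203) (nat_lit 18) (.n (nat_lit 204) (nat_lit 18) (.p (nat_lit 205) (nat_lit 33) (.n (nat_lit 206) (nat_lit 21) (.n (nat_lit 207) (nat_lit 15) (.p (nat_lit 208) (nat_lit 3) (.p (nat_lit 209) (nat_lit 3) (.p (nat_lit 210) (nat_lit 15) (.p (nat_lit 211) (nat_lit 33) (.p (nat_lit 214) (nat_lit 9) (.n (nat_lit 216) (nat_lit 9) (.p (nat_lit 217) (nat_lit 27) (.n (nat_lit 218) (nat_lit 9) (.p (nat_lit 219) (nat_lit 9) (.p (nat_lit 220) (nat_lit 18) (.n (nat_lit 221) (nat_lit 21) (.n (nat_lit 222) (nat_lit 6) (.p (nat_lit 223) (nat_lit 18) (.n (nat_lit 224) (nat_lit 6) (.n (nat_lit 225) (nat_lit 12) (.p (nat_lit 226) (nat_lit 9) (.p (nat_lit 227) (nat_lit 9) (.p (nat_lit 228) (nat_lit 6) (.p (nat_lit 229) (nat_lit 12) (.p (nat_lit 230) (nat_lit 3) (.n (nat_lit 231) (nat_lit 3) (.n (nat_lit 232) (nat_lit 3) (.n (nat_lit 233) (nat_lit 3) (.n (nat_lit 234) (nat_lit 15) (.n (nat_lit 235) (nat_lit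 6) (.n (nat_lit 236) (nat_lit 24) (.n (nat_lit 237) (nat_lit 3) (.n (nat_lit 238) (nat_lit 3) (.n (nat_lit 239) (nat_lit 9) (.n (nat_lit 240) (nat_lit 18) .z))))))))))))))))))))))))))))))))))))))))))))))))) (.ct dW4x_c8466 (nat_lit 36) (nat_lit 8) (.s false (nat_lit 1) (nat_lit 17) (nat_lit 2) (nat_lit 3) (nat_lit 0) true (nat_lit 10) true (nat_lit 15) true (nat_lit 0) true (nat_lit 13) true (nat_lit 12) (.s false (nat_lit 1) (nat_lit 17) (nat_lit 3) (nat_lit 2) (nat_lit 0) true (nat_lit 8) true (nat_lit 15) true (nat_lit 0) true (nat_lit 12) true (nat_lit 13) (.e true (nat_lit 36) (nat_lit 58) (nat_lit 5) (nat_lit 10) (.e false (nat_lit 36) (nat_lit 129) (nat_lit 0) (nat_lit 15) (.e true (nat_lit 36) (nat_lit 110) (nat_lit 2) (nat_lit 13) (.e false (nat_lit 36) (nat_lit 111) (nat_lit 2) (nat_lit 13) (.e false (nat_lit 36) (nat_lit 136) (nat_lit 0) (nat_lit 15) (.e true (nat_lit 36) (nat_lit 86) (nat_lit 3)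 (nat_lit 12) (.e false (nat_lit 36) (nat_lit 88) (nat_lit 3) (nat_lit 12) (.e true (nat_lit 36) (nat_lit 89) (nat_lit 3) (nat_lit 12) (.e false (nat_lit 36) (nat_lit 91) (nat_lit 3) (nat_lit 12) (.e false (nat_lit 36) (nat_lit 92) (nat_lit 3) (nat_lit 12) (.e false (nat_lit 36) (nat_lit 93) (nat_lit 3) (nat_lit 12) (.e false (nat_lit 36) (nat_lit 95) (nat_lit 3) (nat_lit 12) (.e false (nat_lit 36) (nat_lit 98) (nat_lit 3) (nat_lit 12) (.e true (nat_lit 36) (nat_lit 99) (nat_lit 3) (nat_lit 12) (.e false (nat_lit 36) (nat_lit 100) (nat_lit 3) (nat_lit 12) (.e true (nat_lit 36) (nat_lit 101) (nat_lit 3) (nat_lit 12) (.e true (nat_lit 36) (nat_lit 102) (nat_lit 3) (nat_lit 12) .nil)))))))))))))))))))) .leaf)) (nat_lit 49162) (nat_lit 599) (.n (nat_lit 283) (nat_lit 12) (.n (nat_lit 284) (nat_lit 12) (.p (nat_lit 285) (nat_lit 12) (.p (nat_lit 286) (nat_lit 60) (.p (nat_lit 287) (nat_lit 24) (.n (nat_lit 288) (nat_lit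 12) (.n (nat_lit 290) (nat_lit 12) (.n (nat_lit 292) (nat_lit 12) (.p (nat_lit 293) (nat_lit 72) (.n (nat_lit 294) (nat_lit 12) (.p (nat_lit 295) (nat_lit 12) (.p (nat_lit 299) (nat_lit 12) (.p (nat_lit 301) (nat_lit 12) (.n (nat_lit 302) (nat_lit 12) (.n (nat_lit 303) (nat_lit 12) (.n (nat_lit 304) (nat_lit 12) (.p (nat_lit 305) (nat_lit 12) (.p (nat_lit 306) (nat_lit 12) (.p (nat_lit 307) (nat_lit 36) (.n (nat_lit 315) (nat_lit 36) (.p (nat_lit 327) (nat_lit 36) .z))))))))))))))))))))) (.ct dW4x_c4371 (nat_lit 36) (nat_lit 4) (.s false (nat_lit 1) (nat_lit 17) (nat_lit 2) (nat_lit 3) (nat_lit 3) true (nat_lit 5) true (nat_lit 11) true (nat_lit 2) true (nat_lit 12) true (nat_lit 11) (.s false (nat_lit 1) (nat_lit 17) (nat_lit 3) (nat_lit 2) (nat_lit 3) true (nat_lit 4) true (nat_lit 11) true (nat_lit 2) true (nat_lit 11) true (nat_lit 12) (.e false (nat_lit 36) (nat_lit 58) (nat_lit 9) (nat_lit 5) (.e false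 (nat_lit 60) (nat_lit 129) (nat_lit 3) (nat_lit 11) (.e true (nat_lit 36) (nat_lit 165) (nat_lit 2) (nat_lit 12) (.e false (nat_lit 72) (nat_lit 136) (nat_lit 3) (nat_lit 11) (.e true (nat_lit 12) (nat_lit 126) (nat_lit 3) (nat_lit 11) (.e true (nat_lit 12) (nat_lit 127) (nat_lit 3) (nat_lit 11) (.e false (nat_lit 12) (nat_lit 128) (nat_lit 3) (nat_lit 11) (.e false (nat_lit 24) (nat_lit 130) (nat_lit 3) (nat_lit 11) (.e true (nat_lit 12) (nat_lit 131) (nat_lit 3) (nat_lit 11) (.e true (nat_lit 12) (nat_lit 133) (nat_lit 3) (nat_lit 11) (.e true (nat_lit 12) (nat_lit 135) (nat_lit 3) (nat_lit 11) (.e true (nat_lit 12) (nat_lit 137) (nat_lit 3) (nat_lit 11) (.e false (nat_lit 12) (nat_lit 138) (nat_lit 3) (nat_lit 11) (.e false (nat_lit 12) (nat_lit 142) (nat_lit 3) (nat_lit 11) (.e false (nat_lit 12) (nat_lit 144) (nat_lit 3) (nat_lit 11) (.e true (nat_lit 12) (nat_lit 145) (nat_lit 3) (nat_lit 11) (.e true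 (nat_lit 12) (nat_lit 146) (nat_lit 3) (nat_lit 11) (.e true (nat_lit 12) (nat_lit 147) (nat_lit 3) (nat_lit 11) (.e false (nat_lit 12) (nat_lit 149) (nat_lit 3) (nat_lit 11) (.e false (nat_lit 12) (nat_lit 150) (nat_lit 3) (nat_lit 11) (.e false (nat_lit 36) (nat_lit 156) (nat_lit 2) (nat_lit 12) .nil)))))))))))))))))))))))) (.nd (.nd (.nd .leaf (nat_lit 50176) (nat_lit 119) (.p (nat_lit 99) (nat_lit 36) .z) .df .leaf) (nat_lit 50179) (nat_lit 183) (.p (nat_lit 130) (nat_lit 36) .z) .df .leaf) (nat_lit 50183) (nat_lit 369) (.p (nat_lit 189) (nat_lit 12) (.n (nat_lit 190) (nat_lit 24) (.p (nat_lit 191) (nat_lit 36) (.p (nat_lit 192) (nat_lit 42) (.n (nat_lit 193) (nat_lit 6) (.p (nat_lit 194) (nat_lit 18) (.p (nat_lit 195) (nat_lit 6) (.n (nat_lit 196) (nat_lit 6) (.p (nat_lit 197) (nat_lit 6) (.p (nat_lit 200) (nat_lit 6) (.n (nat_lit 201) (nat_lit 6) (.n (nat_lit 202) (nat_lit 6) (.p (nat_lit 203) (nat_lit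 6) (.n (nat_lit 204) (nat_lit 6) (.p (nat_lit 205) (nat_lit 12) (.n (nat_lit 209) (nat_lit 12) (.p (nat_lit 210) (nat_lit 6) (.n (nat_lit 214) (nat_lit 6) (.p (nat_lit 216) (nat_lit 6) (.n (nat_lit 217) (nat_lit 24) (.p (nat_lit 218) (nat_lit 12) (.n (nat_lit 219) (nat_lit 12) (.n (nat_lit 220) (nat_lit 12) (.p (nat_lit 221) (nat_lit 16) (.p (nat_lit 222) (nat_lit 8) (.n (nat_lit 223) (nat_lit 12) (.p (nat_lit 224) (nat_lit 8) (.p (nat_lit 225) (nat_lit 4) (.n (nat_lit 226) (nat_lit 12) (.n (nat_lit 227) (nat_lit 12) (.n (nat_lit 228) (nat_lit 8) (.n (nat_lit 229) (nat_lit 4) (.n (nat_lit 230) (nat_lit 4) (.n (nat_lit 231) (nat_lit 20) (.p (nat_lit 232) (nat_lit 4) (.n (nat_lit 233) (nat_lit 26) (.n (nat_lit 234) (nat_lit 22) (.p (nat_lit 235) (nat_lit 14) (.p (nat_lit 236) (nat_lit 14) (.p (nat_lit 237) (nat_lit 10) (.n (nat_lit 238) (nat_lit 2) (.n (nat_lit 239) (nat_lit 12) (.p (nat_lit 240) (nat_lit 24)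 .z))))))))))))))))))))))))))))))))))))))))))) (.ct dW4x_c8466 (nat_lit 36) (nat_lit 8) (.s false (nat_lit 1) (nat_lit 7) (nat_lit 0) (nat_lit 3) (nat_lit 6) true (nat_lit 2) true (nat_lit 9) true (nat_lit 8) true (nat_lit 15) true (nat_lit 12) (.s false (nat_lit 1) (nat_lit 15) (nat_lit 0) (nat_lit 3) (nat_lit 3) true (nat_lit 8) true (nat_lit 12) true (nat_lit 2) true (nat_lit 15) true (nat_lit 12) (.s true (nat_lit 1) (nat_lit 16) (nat_lit 1) (nat_lit 2) (nat_lit 3) true (nat_lit 7) true (nat_lit 12) true (nat_lit 1) true (nat_lit 14) true (nat_lit 13) (.s true (nat_lit 1) (nat_lit 16) (nat_lit 1) (nat_lit 3) (nat_lit 2) true (nat_lit 9) true (nat_lit 13) true (nat_lit 1) true (nat_lit 14) true (nat_lit 12) (.s true (nat_lit 1) (nat_lit 16) (nat_lit 3) (nat_lit 1) (nat_lit 2) true (nat_lit 6) true (nat_lit 13) true (nat_lit 1) true (nat_lit 12) true (nat_lit 14) (.s true (nat_lit 1) (nat_lit 17) (nat_lit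 2) (nat_lit 3) (nat_lit 0) true (nat_lit 10) true (nat_lit 15) true (nat_lit 0) true (nat_lit 13) true (nat_lit 12) (.s true (nat_lit 1) (nat_lit 17) (nat_lit 3) (nat_lit 2) (nat_lit 0) true (nat_lit 8) true (nat_lit 15) true (nat_lit 0) true (nat_lit 12) true (nat_lit 13) (.s false (nat_lit 1) (nat_lit 20) (nat_lit 1) (nat_lit 3) (nat_lit 0) true (nat_lit 11) true (nat_lit 15) false (nat_lit 0) true (nat_lit 14) true (nat_lit 12) (.s false (nat_lit 1) (nat_lit 20) (nat_lit 3) (nat_lit 1) (nat_lit 0) true (nat_lit 8) true (nat_lit 15) false (nat_lit 0) true (nat_lit 12) true (nat_lit 14) (.s true (nat_lit 1) (nat_lit 23) (nat_lit 3) (nat_lit 0) (nat_lit 0) true (nat_lit 8) true (nat_lit 15) false (nat_lit 1) true (nat_lit 12) true (nat_lit 15) (.e true (nat_lit 36) (nat_lit 50) (nat_lit 7) (nat_lit 8) (.e false (nat_lit 36) (nat_lit 52) (nat_lit 7) (nat_lit 8) (.e false (nat_lit 36) (nat_lit 53) (nat_lit 7)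 (nat_lit 8) (.e false (nat_lit 72) (nat_lit 54) (nat_lit 7) (nat_lit 8) (.e true (nat_lit 36) (nat_lit 129) (nat_lit 0) (nat_lit 15) (.e false (nat_lit 36) (nat_lit 132) (nat_lit 0) (nat_lit 15) (.e true (nat_lit 72) (nat_lit 136) (nat_lit 0) (nat_lit 15) (.e false (nat_lit 36) (nat_lit 139) (nat_lit 0) (nat_lit 15) (.e false (nat_lit 36) (nat_lit 140) (nat_lit 0) (nat_lit 15) (.e true (nat_lit 36) (nat_lit 141) (nat_lit 0) (nat_lit 15) (.e false (nat_lit 72) (nat_lit 142) (nat_lit 0) (nat_lit 15) dW4x_i39)))))))))))))))))))))) (.nd .leaf (nat_lit 50186) (nat_lit 589) (.n (nat_lit 283) (nat_lit 40) (.n (nat_lit 284) (nat_lit 136) (.p (nat_lit 285) (nat_lit 28) (.p (nat_lit 286) (nat_lit 44) (.p (nat_lit 287) (nat_lit 56) (.n (nat_lit 288) (nat_lit 28) (.p (nat_lit 289) (nat_lit 12) (.p (nat_lit 290) (nat_lit 104) (.n (nat_lit 291) (nat_lit 60) (.n (nat_lit 292) (nat_lit 4) (.p (nat_lit 293) (nat_lit 12) (.p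 (nat_lit 294) (nat_lit 44) (.p (nat_lit 295) (nat_lit 64) (.n (nat_lit 296) (nat_lit 48) (.n (nat_lit 297) (nat_lit 72) (.p (nat_lit 298) (nat_lit 60) (.n (nat_lit 299) (nat_lit 80) (.p (nat_lit 301) (nat_lit 100) (.p (nat_lit 302) (nat_lit 92) (.n (nat_lit 303) (nat_lit 184) (.n (nat_lit 304) (nat_lit 40) (.p (nat_lit 305) (nat_lit 16) (.n (nat_lit 306) (nat_lit 92) (.n (nat_lit 307) (nat_lit 108) (.n (nat_lit 309) (nat_lit 36) (.p (nat_lit 310) (nat_lit 108) (.n (nat_lit 311) (nat_lit 120) (.n (nat_lit 312) (nat_lit 24) (.n (nat_lit 313) (nat_lit 48) (.n (nat_lit 314) (nat_lit 72) (.p (nat_lit 315) (nat_lit 12) (.p (nat_lit 316) (nat_lit 24) (.n (nat_lit 317) (nat_lit 36) (.n (nat_lit 318) (nat_lit 72) (.n (nat_lit 319) (nat_lit 60) (.n (nat_lit 320) (nat_lit 36) (.p (nat_lit 321) (nat_lit 24) (.p (nat_lit 322) (nat_lit 12) (.n (nat_lit 323) (nat_lit 24) (.p (nat_lit 324) (nat_lit 48) (.p (nat_lit 325) (nat_lit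 72) (.p (nat_lit 326) (nat_lit 72) (.n (nat_lit 327) (nat_lit 120) (.p (nat_lit 328) (nat_lit 12) (.p (nat_lit 329) (nat_lit 96) .z))))))))))))))))))))))))))))))))))))))))))))) (.ct dW4x_c4371 (nat_lit 36) (nat_lit 4) (.s true (nat_lit 1) (nat_lit 9) (nat_lit 1) (nat_lit 3) (nat_lit 7) true (nat_lit 2) true (nat_lit 7) true (nat_lit 5) true (nat_lit 13) true (nat_lit 11) (.s false (nat_lit 1) (nat_lit 18) (nat_lit 3) (nat_lit 2) (nat_lit 3) true (nat_lit 4) true (nat_lit 11) true (nat_lit 2) true (nat_lit 11) true (nat_lit 12) (.e true (nat_lit 36) (nat_lit 72) (nat_lit 7) (nat_lit 7) (.e true (nat_lit 36) (nat_lit 58) (nat_lit 9) (nat_lit 5) (.e true (nat_lit 36) (nat_lit 59) (nat_lit 9) (nat_lit 5) (.e false (nat_lit 36) (nat_lit 62) (nat_lit 9) (nat_lit 5) (.e true (nat_lit 36) (nat_lit 63) (nat_lit 9) (nat_lit 5) (.e true (nat_lit 36) (nat_lit 177) (nat_lit 1) (nat_lit 13) (.e false (nat_lit 36) (nat_lit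 143) (nat_lit 3) (nat_lit 11) (.e false (nat_lit 36) (nat_lit 128) (nat_lit 3) (nat_lit 11) (.e false (nat_lit 36) (nat_lit 129) (nat_lit 3) (nat_lit 11) (.e false (nat_lit 36) (nat_lit 130) (nat_lit 3) (nat_lit 11) (.e false (nat_lit 36) (nat_lit 131) (nat_lit 3) (nat_lit 11) (.e true (nat_lit 36) (nat_lit 132) (nat_lit 3) (nat_lit 11) (.e true (nat_lit 36) (nat_lit 134) (nat_lit 3) (nat_lit 11) (.e true (nat_lit 36) (nat_lit 135) (nat_lit 3) (nat_lit 11) (.e true (nat_lit 36) (nat_lit 139) (nat_lit 3) (nat_lit 11) (.e true (nat_lit 36) (nat_lit 150) (nat_lit 3) (nat_lit 11) (.e false (nat_lit 36) (nat_lit 157) (nat_lit 2) (nat_lit 12) .nil)))))))))))))))))))) .leaf))) (nat_lit 51200) (nat_lit 120) (.p (nat_lit 100) (nat_lit 36) .z) .df (.nd (.nd (.nd (.nd .leaf (nat_lit 51203) (nat_lit 184) (.p (nat_lit 131) (nat_lit 36) .z) .df .leaf) (nat_lit 51207) (nat_lit 345) (.p (nat_lit 240) (nat_lit 36) .z) .df .leaf)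 (nat_lit 51210) (nat_lit 584) (.n (nat_lit 283) (nat_lit 16) (.n (nat_lit 284) (nat_lit 76) (.p (nat_lit 285) (nat_lit 40) (.n (nat_lit 286) (nat_lit 4) (.p (nat_lit 287) (nat_lit 44) (.p (nat_lit 288) (nat_lit 32) (.n (nat_lit 289) (nat_lit 24) (.p (nat_lit 290) (nat_lit 92) (.n (nat_lit 291) (nat_lit 60) (.p (nat_lit 292) (nat_lit 20) (.p (nat_lit 293) (nat_lit 48) (.p (nat_lit 294) (nat_lit 32) (.p (nat_lit 295) (nat_lit 112) (.n (nat_lit 296) (nat_lit 84) (.n (nat_lit 297) (nat_lit 72) (.p (nat_lit 298) (nat_lit 96) (.n (nat_lit 299) (nat_lit 104) (.p (nat_lit 301) (nat_lit 40) (.p (nat_lit 302) (nat_lit 116) (.n (nat_lit 303) (nat_lit 160) (.n (nat_lit 304) (nat_lit 16) (.n (nat_lit 305) (nat_lit 8) (.n (nat_lit 306) (nat_lit 152) (.n (nat_lit 307) (nat_lit 108) (.n (nat_lit 308) (nat_lit 72) (.p (nat_lit 310) (nat_lit 144) (.n (nat_lit 311) (nat_lit 156) (.n (nat_lit 312) (nat_lit 60) (.n (nat_lit 313)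 (nat_lit 48) (.n (nat_lit 314) (nat_lit 72) (.p (nat_lit 315) (nat_lit 12) (.p (nat_lit 316) (nat_lit 24) (.n (nat_lit 318) (nat_lit 72) (.n (nat_lit 319) (nat_lit 96) (.p (nat_lit 321) (nat_lit 60) (.p (nat_lit 322) (nat_lit 48) (.n (nat_lit 323) (nat_lit 60) (.p (nat_lit 324) (nat_lit 12) (.p (nat_lit 325) (nat_lit 36) (.p (nat_lit 326) (nat_lit 72) (.n (nat_lit 327) (nat_lit 84) (.p (nat_lit 328) (nat_lit 12) (.p (nat_lit 329) (nat_lit 132) .z))))))))))))))))))))))))))))))))))))))))))) (.ct dW4x_c4371 (nat_lit 36) (nat_lit 4) (.s false (nat_lit 1) (nat_lit 19) (nat_lit 2) (nat_lit 3) (nat_lit 3) true (nat_lit 5) true (nat_lit 11) true (nat_lit 2) true (nat_lit 12) true (nat_lit 11) (.s false (nat_lit 1) (nat_lit 19) (nat_lit 3) (nat_lit 2) (nat_lit 3) true (nat_lit 4) true (nat_lit 11) true (nat_lit 2) true (nat_lit 11) true (nat_lit 12) dW4x_i89))) (.nd .leaf (nat_lit 52224) (nat_lit 121) (.p (nat_lit 101)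 (nat_lit 36) .z) .df .leaf)) (nat_lit 52227) (nat_lit 185) (.p (nat_lit 132) (nat_lit 36) .z) .df (.nd (.nd (.nd .leaf (nat_lit 52231) (nat_lit 380) (.p (nat_lit 189) (nat_lit 108) (.n (nat_lit 190) (nat_lit 36) (.n (nat_lit 191) (nat_lit 48) (.p (nat_lit 192) (nat_lit 42) (.n (nat_lit 193) (nat_lit 126) (.p (nat_lit 194) (nat_lit 66) (.n (nat_lit 195) (nat_lit 6) (.p (nat_lit 196) (nat_lit 126) (.n (nat_lit 197) (nat_lit 42) (.p (nat_lit 198) (nat_lit 84) (.p (nat_lit 199) (nat_lit 216) (.n (nat_lit 200) (nat_lit 66) (.p (nat_lit 201) (nat_lit 66) (.n (nat_lit 202) (nat_lit 138) (.n (nat_lit 203) (nat_lit 150) (.p (nat_lit 204) (nat_lit 186) (.n (nat_lit 205) (nat_lit 204) (.p (nat_lit 206) (nat_lit 60) (.p (nat_lit 207) (nat_lit 192) (.n (nat_lit 208) (nat_lit 168) (.p (nat_lit 209) (nat_lit 60) (.n (nat_lit 210) (nat_lit 18) (.n (nat_lit 211) (nat_lit 228) (.p (nat_lit 214) (nat_lit 6) (.n (nat_lit 216)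 (nat_lit 6) (.p (nat_lit 217) (nat_lit 24) (.n (nat_lit 218) (nat_lit 12) (.p (nat_lit 219) (nat_lit 12) (.p (nat_lit 220) (nat_lit 12) (.p (nat_lit 221) (nat_lit 8) (.n (nat_lit 222) (nat_lit 32) (.n (nat_lit 223) (nat_lit 24) (.p (nat_lit 224) (nat_lit 4) (.p (nat_lit 225) (nat_lit 20) (.p (nat_lit 226) (nat_lit 12) (.p (nat_lit 227) (nat_lit 12) (.n (nat_lit 228) (nat_lit 4) (.n (nat_lit 229) (nat_lit 20) (.n (nat_lit 230) (nat_lit 20) (.p (nat_lit 231) (nat_lit 8) (.n (nat_lit 232) (nat_lit 16) (.n (nat_lit 233) (nat_lit 22) (.n (nat_lit 234) (nat_lit 2) (.n (nat_lit 235) (nat_lit 38) (.n (nat_lit 236) (nat_lit 2) (.n (nat_lit 237) (nat_lit 22) (.p (nat_lit 238) (nat_lit 26) (.n (nat_lit 239) (nat_lit 24) (.n (nat_lit 240) (nat_lit 24) .z))))))))))))))))))))))))))))))))))))))))))))))))) (.ct dW4x_c8466 (nat_lit 36) (nat_lit 8) (.s false (nat_lit 1) (nat_lit 20) (nat_lit 1) (nat_lit 3) (nat_lit 0) true (nat_lit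 11) true (nat_lit 15) false (nat_lit 0) true (nat_lit 14) true (nat_lit 12) dW4x_i49)) .leaf) (nat_lit 52234) (nat_lit 596) (.n (nat_lit 283) (nat_lit 28) (.n (nat_lit 284) (nat_lit 124) (.n (nat_lit 285) (nat_lit 20) (.p (nat_lit 286) (nat_lit 56) (.n (nat_lit 287) (nat_lit 76) (.n (nat_lit 288) (nat_lit 16) (.p (nat_lit 289) (nat_lit 84) (.p (nat_lit 290) (nat_lit 152) (.n (nat_lit 291) (nat_lit 60) (.p (nat_lit 292) (nat_lit 44) (.p (nat_lit 293) (nat_lit 84) (.p (nat_lit 294) (nat_lit 20) (.p (nat_lit 295) (nat_lit 124) (.n (nat_lit 296) (nat_lit 12) (.n (nat_lit 297) (nat_lit 108) (.p (nat_lit 298) (nat_lit 60) (.n (nat_lit 299) (nat_lit 56) (.p (nat_lit 301) (nat_lit 88) (.p (nat_lit 302) (nat_lit 104) (.n (nat_lit 303) (nat_lit 136) (.n (nat_lit 304) (nat_lit 28) (.p (nat_lit 305) (nat_lit 4) (.n (nat_lit 306) (nat_lit 140) (.n (nat_lit 307) (nat_lit 108) (.n (nat_lit 309) (nat_lit 72) (.p (nat_lit 310)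 (nat_lit 144) (.n (nat_lit 311) (nat_lit 192) (.n (nat_lit 312) (nat_lit 24) (.n (nat_lit 313) (nat_lit 84) (.n (nat_lit 314) (nat_lit 72) (.n (nat_lit 315) (nat_lit 60) (.p (nat_lit 316) (nat_lit 24) (.n (nat_lit 318) (nat_lit 72) (.n (nat_lit 319) (nat_lit 96) (.p (nat_lit 321) (nat_lit 24) (.p (nat_lit 322) (nat_lit 12) (.n (nat_lit 323) (nat_lit 24) (.p (nat_lit 324) (nat_lit 48) (.p (nat_lit 325) (nat_lit 72) (.p (nat_lit 326) (nat_lit 72) (.n (nat_lit 327) (nat_lit 84) (.p (nat_lit 328) (nat_lit 48) (.p (nat_lit 329) (nat_lit 96) .z))))))))))))))))))))))))))))))))))))))))))) (.ct dW4x_c4371 (nat_lit 36) (nat_lit 4) (.s false (nat_lit 1) (nat_lit 20) (nat_lit 1) (nat_lit 3) (nat_lit 3) true (nat_lit 6) true (nat_lit 11) true (nat_lit 1) true (nat_lit 13) true (nat_lit 11) dW4x_i93)) .leaf) (nat_lit 53248) (nat_lit 122) (.p (nat_lit 102) (nat_lit 36) .z) .df (.nd .leaf (nat_lit 53251) (nat_lit 186) (.p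 (nat_lit 133) (nat_lit 36) .z) .df .leaf)))) (nat_lit 53255) (nat_lit 351) (.n (nat_lit 189) (nat_lit 93) (.p (nat_lit 190) (nat_lit 24) (.p (nat_lit 191) (nat_lit 6) (.n (nat_lit 192) (nat_lit 36) (.p (nat_lit 193) (nat_lit 78) (.n (nat_lit 194) (nat_lit 78) (.p (nat_lit 195) (nat_lit 42) (.n (nat_lit 196) (nat_lit 48) (.p (nat_lit 197) (nat_lit 42) (.n (nat_lit 198) (nat_lit 42) (.n (nat_lit 199) (nat_lit 153) (.p (nat_lit 200) (nat_lit 45) (.n (nat_lit 201) (nat_lit 45) (.p (nat_lit 202) (nat_lit 102) (.p (nat_lit 203) (nat_lit 114) (.n (nat_lit 204) (nat_lit 150) (.p (nat_lit 205) (nat_lit 171) (.n (nat_lit 206) (nat_lit 75) (.n (nat_lit 207) (nat_lit 141) (.p (nat_lit 208) (nat_lit 129) (.n (nat_lit 209) (nat_lit 63) (.p (nat_lit 210) (nat_lit 21) (.p (nat_lit 211) (nat_lit 159) (.p (nat_lit 214) (nat_lit 3) (.n (nat_lit 216) (nat_lit 3) (.n (nat_lit 217) (nat_lit 15) (.p (nat_lit 218) (nat_lit 21) (.n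 (nat_lit 219) (nat_lit 21) (.p (nat_lit 220) (nat_lit 6) (.p (nat_lit 221) (nat_lit 1) (.p (nat_lit 222) (nat_lit 14) (.p (nat_lit 223) (nat_lit 6) (.p (nat_lit 224) (nat_lit 14) (.n (nat_lit 225) (nat_lit 20) (.n (nat_lit 226) (nat_lit 21) (.n (nat_lit 227) (nat_lit 21) (.n (nat_lit 228) (nat_lit 14) (.p (nat_lit 229) (nat_lit 20) (.n (nat_lit 230) (nat_lit 7) (.p (nat_lit 231) (nat_lit 19) (.p (nat_lit 232) (nat_lit 7) (.n (nat_lit 233) (nat_lit 5) (.p (nat_lit 234) (nat_lit 11) (.p (nat_lit 235) (nat_lit 38) (.n (nat_lit 236) (nat_lit 16) (.n (nat_lit 237) (nat_lit 5) (.n (nat_lit 238) (nat_lit 17) (.p (nat_lit 239) (nat_lit 33) (.p (nat_lit 240) (nat_lit 42) .z))))))))))))))))))))))))))))))))))))))))))))))))) (.ct dW4x_c8466 (nat_lit 144) (nat_lit 8) (.s true (nat_lit 2) (nat_lit 5) (nat_lit 4) (nat_lit 3) (nat_lit 3) true (nat_lit 0) true (nat_lit 12) true (nat_lit 10) true (nat_lit 11) true (nat_lit 12)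 (.s true (nat_lit 2) (nat_lit 7) (nat_lit 1) (nat_lit 5) (nat_lit 3) true (nat_lit 7) true (nat_lit 12) true (nat_lit 8) true (nat_lit 14) true (nat_lit 10) (.s true (nat_lit 2) (nat_lit 8) (nat_lit 3) (nat_lit 0) (nat_lit 5) false (nat_lit 0) true (nat_lit 10) true (nat_lit 7) true (nat_lit 12) true (nat_lit 15) (.s true (nat_lit 2) (nat_lit 9) (nat_lit 3) (nat_lit 4) (nat_lit 0) true (nat_lit 8) true (nat_lit 15) true (nat_lit 6) true (nat_lit 12) true (nat_lit 11) (.s false (nat_lit 1) (nat_lit 10) (nat_lit 0) (nat_lit 0) (nat_lit 6) true (nat_lit 2) true (nat_lit 9) true (nat_lit 5) true (nat_lit 15) true (nat_lit 15) (.s true (nat_lit 1) (nat_lit 10) (nat_lit 1) (nat_lit 5) (nat_lit 0) true (nat_lit 11) true (nat_lit 15) true (nat_lit 5) true (nat_lit 14) true (nat_lit 10) (.s true (nat_lit 1) (nat_lit 10) (nat_lit 5) (nat_lit 1) (nat_lit 0) true (nat_lit 3) true (nat_lit 15) true (nat_lit 5) true (nat_lit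 10) true (nat_lit 14) (.s false (nat_lit 2) (nat_lit 11) (nat_lit 2) (nat_lit 3) (nat_lit 3) true (nat_lit 6) true (nat_lit 12) true (nat_lit 4) true (nat_lit 13) true (nat_lit 12) (.s false (nat_lit 2) (nat_lit 16) (nat_lit 2) (nat_lit 1) (nat_lit 3) true (nat_lit 6) true (nat_lit 12) true (nat_lit 1) true (nat_lit 13) true (nat_lit 14) (.s true (nat_lit 2) (nat_lit 17) (nat_lit 0) (nat_lit 2) (nat_lit 3) true (nat_lit 8) true (nat_lit 12) true (nat_lit 0) true (nat_lit 15) true (nat_lit 13) (.s true (nat_lit 2) (nat_lit 17) (nat_lit 2) (nat_lit 3) (nat_lit 0) true (nat_lit 10) true (nat_lit 15) true (nat_lit 0) true (nat_lit 13) true (nat_lit 12) (.s false (nat_lit 2) (nat_lit 18) (nat_lit 3) (nat_lit 0) (nat_lit 2) true (nat_lit 6) true (nat_lit 13) true (nat_lit 0) true (nat_lit 12) true (nat_lit 15) (.s true (nat_lit 2) (nat_lit 17) (nat_lit 3) (nat_lit 2) (nat_lit 0) true (nat_lit 8) true (nat_lit 15)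 true (nat_lit 0) true (nat_lit 12) true (nat_lit 13) (.s false (nat_lit 2) (nat_lit 21) (nat_lit 0) (nat_lit 3) (nat_lit 1) true (nat_lit 11) true (nat_lit 14) false (nat_lit 0) true (nat_lit 15) true (nat_lit 12) (.s false (nat_lit 2) (nat_lit 20) (nat_lit 1) (nat_lit 3) (nat_lit 0) true (nat_lit 11) true (nat_lit 15) false (nat_lit 0) true (nat_lit 14) true (nat_lit 12) (.s false (nat_lit 2) (nat_lit 21) (nat_lit 1) (nat_lit 3) (nat_lit 0) true (nat_lit 11) true (nat_lit 15) false (nat_lit 0) true (nat_lit 14) true (nat_lit 12) (.s false (nat_lit 2) (nat_lit 21) (nat_lit 3) (nat_lit 1) (nat_lit 0) true (nat_lit 8) true (nat_lit 15) false (nat_lit 0) true (nat_lit 12) true (nat_lit 14) (.s true (nat_lit 2) (nat_lit 23) (nat_lit 3) (nat_lit 0) (nat_lit 0) true (nat_lit 8) true (nat_lit 15) false (nat_lit 1) true (nat_lit 12) true (nat_lit 15) (.s false (nat_lit 1) (nat_lit 27) (nat_lit 0) (nat_lit 2) (nat_lit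 1) true (nat_lit 11) true (nat_lit 14) false (nat_lit 2) true (nat_lit 15) true (nat_lit 13) (.s true (nat_lit 1) (nat_lit 27) (nat_lit 1) (nat_lit 2) (nat_lit 0) true (nat_lit 11) true (nat_lit 15) false (nat_lit 2) true (nat_lit 14) true (nat_lit 13) (.s false (nat_lit 1) (nat_lit 27) (nat_lit 2) (nat_lit 0) (nat_lit 1) true (nat_lit 9) true (nat_lit 14) false (nat_lit 2) true (nat_lit 13) true (nat_lit 15) dW4x_i16)))))))))))))))))))))) (.nd (.nd (.nd (.nd (.nd .leaf (nat_lit 53258) (nat_lit 583) (.p (nat_lit 283) (nat_lit 28) (.p (nat_lit 284) (nat_lit 52) (.p (nat_lit 285) (nat_lit 20) (.n (nat_lit 286) (nat_lit 20) (.p (nat_lit 287) (nat_lit 4) (.p (nat_lit 288) (nat_lit 16) (.n (nat_lit 289) (nat_lit 12) (.p (nat_lit 290) (nat_lit 28) (.p (nat_lit 291) (nat_lit 24) (.p (nat_lit 292) (nat_lit 28) (.p (nat_lit 293) (nat_lit 24) (.n (nat_lit 294) (nat_lit 20) (.n (nat_lit 295) (nat_lit 16) (.n (nat_lit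 296) (nat_lit 24) (.p (nat_lit 298) (nat_lit 12) (.n (nat_lit 299) (nat_lit 52) (.n (nat_lit 301) (nat_lit 52) (.p (nat_lit 302) (nat_lit 40) (.n (nat_lit 303) (nat_lit 8) (.n (nat_lit 304) (nat_lit 8) (.n (nat_lit 305) (nat_lit 4) (.n (nat_lit 306) (nat_lit 76) (.n (nat_lit 308) (nat_lit 72) (.p (nat_lit 309) (nat_lit 72) (.n (nat_lit 310) (nat_lit 36) (.p (nat_lit 311) (nat_lit 48) (.n (nat_lit 312) (nat_lit 12) (.p (nat_lit 313) (nat_lit 48) (.p (nat_lit 314) (nat_lit 36) (.p (nat_lit 315) (nat_lit 60) (.p (nat_lit 316) (nat_lit 12) (.p (nat_lit 318) (nat_lit 36) (.p (nat_lit 319) (nat_lit 24) (.p (nat_lit 321) (nat_lit 12) (.p (nat_lit 322) (nat_lit 24) (.n (nat_lit 323) (nat_lit 12) (.n (nat_lit 324) (nat_lit 48) (.n (nat_lit 325) (nat_lit 36) (.n (nat_lit 326) (nat_lit 36) (.p (nat_lit 327) (nat_lit 48) (.n (nat_lit 328) (nat_lit 12) (.n (nat_lit 329) (nat_lit 24) .z))))))))))))))))))))))))))))))))))))))))))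 (.ct dW4x_c4371 (nat_lit 36) (nat_lit 4) (.s true (nat_lit 1) (nat_lit 8) (nat_lit 2) (nat_lit 3) (nat_lit 7) true (nat_lit 1) true (nat_lit 7) true (nat_lit 6) true (nat_lit 12) true (nat_lit 11) (.s false (nat_lit 1) (nat_lit 21) (nat_lit 3) (nat_lit 1) (nat_lit 3) true (nat_lit 4) true (nat_lit 11) true (nat_lit 1) true (nat_lit 11) true (nat_lit 13) (.e true (nat_lit 36) (nat_lit 71) (nat_lit 7) (nat_lit 7) (.e true (nat_lit 36) (nat_lit 64) (nat_lit 8) (nat_lit 6) (.e true (nat_lit 36) (nat_lit 65) (nat_lit 8) (nat_lit 6) (.e false (nat_lit 36) (nat_lit 68) (nat_lit 8) (nat_lit 6) (.e true (nat_lit 36) (nat_lit 69) (nat_lit 8) (nat_lit 6) (.e true (nat_lit 36) (nat_lit 166) (nat_lit 2) (nat_lit 12) (.e false (nat_lit 36) (nat_lit 137) (nat_lit 3) (nat_lit 11) (.e true (nat_lit 36) (nat_lit 128) (nat_lit 3) (nat_lit 11) (.e true (nat_lit 36) (nat_lit 129) (nat_lit 3) (nat_lit 11) (.e true (nat_lit 36) (nat_lit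 131) (nat_lit 3) (nat_lit 11) (.e false (nat_lit 36) (nat_lit 132) (nat_lit 3) (nat_lit 11) (.e false (nat_lit 36) (nat_lit 133) (nat_lit 3) (nat_lit 11) (.e false (nat_lit 36) (nat_lit 134) (nat_lit 3) (nat_lit 11) (.e false (nat_lit 36) (nat_lit 135) (nat_lit 3) (nat_lit 11) (.e true (nat_lit 36) (nat_lit 144) (nat_lit 3) (nat_lit 11) (.e false (nat_lit 36) (nat_lit 150) (nat_lit 3) (nat_lit 11) (.e false (nat_lit 36) (nat_lit 168) (nat_lit 1) (nat_lit 13) .nil)))))))))))))))))))) .leaf) (nat_lit 54272) (nat_lit 123) (.p (nat_lit 103) (nat_lit 36) .z) .df .leaf) (nat_lit 54275) (nat_lit 187) (.p (nat_lit 134) (nat_lit 36) .z) .df (.nd .leaf (nat_lit 54279) (nat_lit 365) (.p (nat_lit 189) (nat_lit 99) (.n (nat_lit 190) (nat_lit 72) (.n (nat_lit 191) (nat_lit 30) (.p (nat_lit 192) (nat_lit 6) (.n (nat_lit 193) (nat_lit 144) (.n (nat_lit 194) (nat_lit 24) (.p (nat_lit 195) (nat_lit 12) (.p (nat_lit 196) (nat_lit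 126) (.p (nat_lit 197) (nat_lit 48) (.p (nat_lit 198) (nat_lit 138) (.p (nat_lit 199) (nat_lit 99) (.n (nat_lit 200) (nat_lit 21) (.p (nat_lit 201) (nat_lit 21) (.n (nat_lit 202) (nat_lit 48) (.n (nat_lit 203) (nat_lit 60) (.p (nat_lit 204) (nat_lit 96) (.n (nat_lit 205) (nat_lit 105) (.p (nat_lit 206) (nat_lit 33) (.p (nat_lit 207) (nat_lit 75) (.n (nat_lit 208) (nat_lit 87) (.n (nat_lit 209) (nat_lit 3) (.n (nat_lit 210) (nat_lit 9) (.n (nat_lit 211) (nat_lit 93) (.n (nat_lit 214) (nat_lit 3) (.p (nat_lit 216) (nat_lit 3) (.n (nat_lit 217) (nat_lit 3) (.n (nat_lit 218) (nat_lit 3) (.p (nat_lit 219) (nat_lit 3) (.n (nat_lit 220) (nat_lit 6) (.p (nat_lit 221) (nat_lit 5) (.n (nat_lit 222) (nat_lit 2) (.n (nat_lit 223) (nat_lit 6) (.n (nat_lit 224) (nat_lit 2) (.p (nat_lit 225) (nat_lit 8) (.p (nat_lit 226) (nat_lit 3) (.p (nat_lit 227) (nat_lit 3) (.p (nat_lit 228) (nat_lit 2) (.n (nat_lit 229) (nat_lit 8)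 (.p (nat_lit 230) (nat_lit 1) (.n (nat_lit 231) (nat_lit 13) (.n (nat_lit 232) (nat_lit 1) (.n (nat_lit 233) (nat_lit 7) (.p (nat_lit 234) (nat_lit 1) (.p (nat_lit 235) (nat_lit 28) (.p (nat_lit 236) (nat_lit 10) (.n (nat_lit 237) (nat_lit 7) (.n (nat_lit 238) (nat_lit 31) (.n (nat_lit 239) (nat_lit 15) (.p (nat_lit 240) (nat_lit 30) .z))))))))))))))))))))))))))))))))))))))))))))))))) (.ct dW4x_c8466 (nat_lit 72) (nat_lit 8) (.s false (nat_lit 2) (nat_lit 9) (nat_lit 1) (nat_lit 7) (nat_lit 0) true (nat_lit 11) true (nat_lit 15) true (nat_lit 6) true (nat_lit 14) true (nat_lit 8) (.s true (nat_lit 1) (nat_lit 10) (nat_lit 0) (nat_lit 0) (nat_lit 6) true (nat_lit 2) true (nat_lit 9) true (nat_lit 5) true (nat_lit 15) true (nat_lit 15) (.s true (nat_lit 1) (nat_lit 10) (nat_lit 0) (nat_lit 6) (nat_lit 0) false (nat_lit 16) true (nat_lit 15) true (nat_lit 5) true (nat_lit 15) true (nat_lit 9) (.s false (nat_lit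 1) (nat_lit 15) (nat_lit 0) (nat_lit 3) (nat_lit 3) true (nat_lit 8) true (nat_lit 12) true (nat_lit 2) true (nat_lit 15) true (nat_lit 12) (.s false (nat_lit 1) (nat_lit 15) (nat_lit 3) (nat_lit 0) (nat_lit 3) true (nat_lit 5) true (nat_lit 12) true (nat_lit 2) true (nat_lit 12) true (nat_lit 15) (.s true (nat_lit 1) (nat_lit 15) (nat_lit 3) (nat_lit 3) (nat_lit 0) true (nat_lit 8) true (nat_lit 15) true (nat_lit 2) true (nat_lit 12) true (nat_lit 12) (.s true (nat_lit 2) (nat_lit 19) (nat_lit 0) (nat_lit 2) (nat_lit 3) true (nat_lit 8) true (nat_lit 12) true (nat_lit 0) true (nat_lit 15) true (nat_lit 13) (.s false (nat_lit 2) (nat_lit 18) (nat_lit 3) (nat_lit 0) (nat_lit 2) true (nat_lit 6) true (nat_lit 13) true (nat_lit 0) true (nat_lit 12) true (nat_lit 15) (.s false (nat_lit 2) (nat_lit 21) (nat_lit 0) (nat_lit 3) (nat_lit 1) true (nat_lit 11) true (nat_lit 14) false (nat_lit 0) true (nat_lit 15) true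 (nat_lit 12) (.s false (nat_lit 2) (nat_lit 20) (nat_lit 1) (nat_lit 3) (nat_lit 0) true (nat_lit 11) true (nat_lit 15) false (nat_lit 0) true (nat_lit 14) true (nat_lit 12) (.s false (nat_lit 2) (nat_lit 27) (nat_lit 1) (nat_lit 2) (nat_lit 0) true (nat_lit 11) true (nat_lit 15) false (nat_lit 2) true (nat_lit 14) true (nat_lit 13) (.s true (nat_lit 2) (nat_lit 30) (nat_lit 0) (nat_lit 0) (nat_lit 1) true (nat_lit 11) true (nat_lit 14) false (nat_lit 4) true (nat_lit 15) true (nat_lit 15) (.e false (nat_lit 144) (nat_lit 65) (nat_lit 4) (nat_lit 11) (.e true (nat_lit 144) (nat_lit 68) (nat_lit 4) (nat_lit 11) (.e false (nat_lit 216) (nat_lit 130) (nat_lit 0) (nat_lit 15) (.e true (nat_lit 144) (nat_lit 136) (nat_lit 0) (nat_lit 15) (.e true (nat_lit 72) (nat_lit 137) (nat_lit 0) (nat_lit 15) (.e false (nat_lit 216) (nat_lit 140) (nat_lit 0) (nat_lit 15) (.e true (nat_lit 288) (nat_lit 141) (nat_lit 0) (nat_lit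 15) (.e true (nat_lit 144) (nat_lit 143) (nat_lit 0) (nat_lit 15) (.e false (nat_lit 144) (nat_lit 150) (nat_lit 0) (nat_lit 15) (.e true (nat_lit 144) (nat_lit 117) (nat_lit 1) (nat_lit 14) (.e false (nat_lit 144) (nat_lit 120) (nat_lit 1) (nat_lit 14) (.e false (nat_lit 72) (nat_lit 121) (nat_lit 1) (nat_lit 14) dW4x_i35))))))))))))))))))))))))) .leaf)) (nat_lit 54282) (nat_lit 582) (.n (nat_lit 283) (nat_lit 112) (.n (nat_lit 284) (nat_lit 640) (.n (nat_lit 285) (nat_lit 26) (.p (nat_lit 286) (nat_lit 62) (.n (nat_lit 287) (nat_lit 160) (.n (nat_lit 288) (nat_lit 280) (.p (nat_lit 289) (nat_lit 174) (.p (nat_lit 290) (nat_lit 608) (.n (nat_lit 291) (nat_lit 96) (.p (nat_lit 292) (nat_lit 248) (.p (nat_lit 293) (nat_lit 282) (.p (nat_lit 294) (nat_lit 134) (.p (nat_lit 295) (nat_lit 352) (.n (nat_lit 296) (nat_lit 156) (.n (nat_lit 297) (nat_lit 432) (.p (nat_lit 298) (nat_lit 438) (.n (nat_lit 299) (nat_lit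 368) (.p (nat_lit 301) (nat_lit 424) (.p (nat_lit 302) (nat_lit 434) (.n (nat_lit 303) (nat_lit 778) (.n (nat_lit 304) (nat_lit 184) (.p (nat_lit 305) (nat_lit 34) (.n (nat_lit 306) (nat_lit 506) (.n (nat_lit 307) (nat_lit 324) (.p (nat_lit 308) (nat_lit 18) (.n (nat_lit 309) (nat_lit 234) (.p (nat_lit 310) (nat_lit 486) (.n (nat_lit 311) (nat_lit 552) (.n (nat_lit 312) (nat_lit 114) (.n (nat_lit 313) (nat_lit 318) (.n (nat_lit 314) (nat_lit 306) (.n (nat_lit 315) (nat_lit 78) (.p (nat_lit 316) (nat_lit 150) (.n (nat_lit 317) (nat_lit 90) (.n (nat_lit 318) (nat_lit 342) (.n (nat_lit 319) (nat_lit 402) (.n (nat_lit 320) (nat_lit 90) (.p (nat_lit 321) (nat_lit 150) (.p (nat_lit 322) (nat_lit 84) (.n (nat_lit 323) (nat_lit 150) (.p (nat_lit 324) (nat_lit 192) (.p (nat_lit 325) (nat_lit 342) (.p (nat_lit 326) (nat_lit 342) (.n (nat_lit 327) (nat_lit 462) (.p (nat_lit 328) (nat_lit 30) (.p (nat_lit 329) (nat_lit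 456) .z)))))))))))))))))))))))))))))))))))))))))))))) (.ct dW4x_c4371 (nat_lit 36) (nat_lit 4) (.s true (nat_lit 1) (nat_lit 10) (nat_lit 9) (nat_lit 0) (nat_lit 1) true (nat_lit 0) true (nat_lit 13) true (nat_lit 4) true (nat_lit 5) true (nat_lit 14) (.s true (nat_lit 1) (nat_lit 27) (nat_lit 1) (nat_lit 2) (nat_lit 3) true (nat_lit 6) true (nat_lit 11) false (nat_lit 0) true (nat_lit 13) true (nat_lit 12) (.s true (nat_lit 1) (nat_lit 27) (nat_lit 1) (nat_lit 3) (nat_lit 2) true (nat_lit 8) true (nat_lit 12) false (nat_lit 0) true (nat_lit 13) true (nat_lit 11) (.s true (nat_lit 1) (nat_lit 27) (nat_lit 2) (nat_lit 1) (nat_lit 3) true (nat_lit 5) true (nat_lit 11) false (nat_lit 0) true (nat_lit 12) true (nat_lit 13) (.s true (nat_lit 1) (nat_lit 27) (nat_lit 2) (nat_lit 3) (nat_lit 1) true (nat_lit 8) true (nat_lit 13) false (nat_lit 0) true (nat_lit 12) true (nat_lit 11) (.s true (nat_lit 1) (nat_lit 27)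 (nat_lit 3) (nat_lit 1) (nat_lit 2) true (nat_lit 5) true (nat_lit 12) false (nat_lit 0) true (nat_lit 11) true (nat_lit 13) (.e false (nat_lit 36) (nat_lit 168) (nat_lit 1) (nat_lit 13) (.e false (nat_lit 36) (nat_lit 169) (nat_lit 1) (nat_lit 13) (.e false (nat_lit 36) (nat_lit 170) (nat_lit 1) (nat_lit 13) dW4x_i88)))))))))) (.nd (.nd (.nd .leaf (nat_lit 55296) (nat_lit 124) (.p (nat_lit 86) (nat_lit 12) (.n (nat_lit 87) (nat_lit 12) (.n (nat_lit 89) (nat_lit 12) (.p (nat_lit 90) (nat_lit 12) (.p (nat_lit 93) (nat_lit 12) (.n (nat_lit 94) (nat_lit 12) (.n (nat_lit 95) (nat_lit 12) (.p (nat_lit 96) (nat_lit 12) (.p (nat_lit 97) (nat_lit 12) (.p (nat_lit 98) (nat_lit 12) (.p (nat_lit 99) (nat_lit 24) (.p (nat_lit 100) (nat_lit 24) (.n (nat_lit 101) (nat_lit 12) (.n (nat_lit 102) (nat_lit 24) (.n (nat_lit 103) (nat_lit 24) .z))))))))))))))) (.ct dW4x_c8465 (nat_lit 108) (nat_lit 9) (.s false (nat_lit 1) (nat_lit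 4) (nat_lit 0) (nat_lit 3) (nat_lit 2) true (nat_lit 4) true (nat_lit 7) true (nat_lit 5) true (nat_lit 9) true (nat_lit 6) (.s false (nat_lit 1) (nat_lit 5) (nat_lit 0) (nat_lit 1) (nat_lit 3) true (nat_lit 2) true (nat_lit 6) true (nat_lit 4) true (nat_lit 9) true (nat_lit 8) (.s false (nat_lit 1) (nat_lit 7) (nat_lit 0) (nat_lit 2) (nat_lit 1) true (nat_lit 5) true (nat_lit 8) true (nat_lit 2) true (nat_lit 9) true (nat_lit 7) (.e false (nat_lit 36) (nat_lit 46) (nat_lit 0) (nat_lit 9) (.e false (nat_lit 72) (nat_lit 50) (nat_lit 0) (nat_lit 9) (.e true (nat_lit 72) (nat_lit 52) (nat_lit 0) (nat_lit 9) (.e true (nat_lit 36) (nat_lit 35) (nat_lit 3) (nat_lit 6) (.e false (nat_lit 36) (nat_lit 34) (nat_lit 3) (nat_lit 6) (.e true (nat_lit 36) (nat_lit 45) (nat_lit 0) (nat_lit 9) (.e false (nat_lit 72) (nat_lit 49) (nat_lit 0) (nat_lit 9) (.e true (nat_lit 72) (nat_lit 53) (nat_lit 0) (nat_lit 9) (.e true (nat_lit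 36) (nat_lit 43) (nat_lit 1) (nat_lit 8) (.e false (nat_lit 36) (nat_lit 42) (nat_lit 1) (nat_lit 8) (.e false (nat_lit 36) (nat_lit 47) (nat_lit 0) (nat_lit 9) (.e false (nat_lit 36) (nat_lit 48) (nat_lit 0) (nat_lit 9) (.e true (nat_lit 36) (nat_lit 51) (nat_lit 0) (nat_lit 9) (.e true (nat_lit 36) (nat_lit 38) (nat_lit 2) (nat_lit 7) (.e false (nat_lit 36) (nat_lit 39) (nat_lit 2) (nat_lit 7) .nil))))))))))))))))))) .leaf) (nat_lit 55299) (nat_lit 188) (.p (nat_lit 135) (nat_lit 36) .z) .df .leaf) (nat_lit 55303) (nat_lit 361) (.p (nat_lit 191) (nat_lit 36) (.p (nat_lit 192) (nat_lit 36) (.p (nat_lit 193) (nat_lit 36) (.p (nat_lit 194) (nat_lit 36) (.n (nat_lit 195) (nat_lit 36) (.n (nat_lit 196) (nat_lit 36) (.n (nat_lit 197) (nat_lit 36) (.n (nat_lit 198) (nat_lit 36) (.p (nat_lit 199) (nat_lit 36) (.n (nat_lit 202) (nat_lit 36) (.n (nat_lit 203) (nat_lit 36) (.p (nat_lit 204) (nat_lit 36) (.n (nat_lit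 205) (nat_lit 36) (.p (nat_lit 206) (nat_lit 36) (.p (nat_lit 207) (nat_lit 36) (.n (nat_lit 208) (nat_lit 36) (.p (nat_lit 209) (nat_lit 36) (.n (nat_lit 211) (nat_lit 36) (.n (nat_lit 221) (nat_lit 12) (.p (nat_lit 222) (nat_lit 12) (.p (nat_lit 224) (nat_lit 12) (.n (nat_lit 225) (nat_lit 12) (.n (nat_lit 228) (nat_lit 12) (.p (nat_lit 229) (nat_lit 12) (.p (nat_lit 230) (nat_lit 12) (.n (nat_lit 231) (nat_lit 12) (.n (nat_lit 232) (nat_lit 12) (.n (nat_lit 233) (nat_lit 12) (.n (nat_lit 234) (nat_lit 24) (.n (nat_lit 235) (nat_lit 24) (.p (nat_lit 236) (nat_lit 12) (.p (nat_lit 237) (nat_lit 24) (.p (nat_lit 238) (nat_lit 24) .z))))))))))))))))))))))))))))))))) (.ct dW4x_c8466 (nat_lit 36) (nat_lit 8) (.s true (nat_lit 1) (nat_lit 23) (nat_lit 0) (nat_lit 0) (nat_lit 3) true (nat_lit 8) true (nat_lit 12) false (nat_lit 1) true (nat_lit 15) true (nat_lit 15) (.e true (nat_lit 12) (nat_lit 86) (nat_lit 3)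 (nat_lit 12) (.e false (nat_lit 12) (nat_lit 87) (nat_lit 3) (nat_lit 12) (.e false (nat_lit 12) (nat_lit 89) (nat_lit 3) (nat_lit 12) (.e true (nat_lit 12) (nat_lit 90) (nat_lit 3) (nat_lit 12) (.e true (nat_lit 12) (nat_lit 93) (nat_lit 3) (nat_lit 12) (.e false (nat_lit 12) (nat_lit 94) (nat_lit 3) (nat_lit 12) (.e false (nat_lit 12) (nat_lit 95) (nat_lit 3) (nat_lit 12) (.e true (nat_lit 12) (nat_lit 96) (nat_lit 3) (nat_lit 12) dW4x_i31)))))))))) (.nd .leaf (nat_lit 55306) (nat_lit 580) (.n (nat_lit 283) (nat_lit 80) (.n (nat_lit 284) (nat_lit 56) (.p (nat_lit 285) (nat_lit 20) (.n (nat_lit 286) (nat_lit 20) (.p (nat_lit 287) (nat_lit 112) (.n (nat_lit 288) (nat_lit 56) (.p (nat_lit 289) (nat_lit 24) (.n (nat_lit 290) (nat_lit 44) (.n (nat_lit 291) (nat_lit 12) (.n (nat_lit 292) (nat_lit 44) (.n (nat_lit 293) (nat_lit 84) (.p (nat_lit 294) (nat_lit 16) (.n (nat_lit 295) (nat_lit 16) (.p (nat_lit 296) (nat_lit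 12) (.p (nat_lit 297) (nat_lit 36) (.n (nat_lit 298) (nat_lit 60) (.p (nat_lit 299) (nat_lit 92) (.p (nat_lit 301) (nat_lit 56) (.n (nat_lit 302) (nat_lit 68) (.n (nat_lit 303) (nat_lit 8) (.n (nat_lit 304) (nat_lit 8) (.p (nat_lit 305) (nat_lit 32) (.p (nat_lit 306) (nat_lit 140) (.p (nat_lit 307) (nat_lit 36) (.p (nat_lit 308) (nat_lit 72) (.n (nat_lit 309) (nat_lit 36) (.p (nat_lit 311) (nat_lit 12) (.p (nat_lit 312) (nat_lit 24) (.n (nat_lit 313) (nat_lit 24) (.n (nat_lit 314) (nat_lit 36) (.n (nat_lit 315) (nat_lit 12) (.n (nat_lit 316) (nat_lit 24) (.n (nat_lit 317) (nat_lit 36) (.n (nat_lit 318) (nat_lit 36) (.p (nat_lit 319) (nat_lit 24) (.n (nat_lit 320) (nat_lit 36) (.n (nat_lit 321) (nat_lit 24) (.n (nat_lit 322) (nat_lit 12) (.p (nat_lit 323) (nat_lit 24) (.p (nat_lit 324) (nat_lit 60) (.p (nat_lit 325) (nat_lit 36) (.p (nat_lit 326) (nat_lit 36) (.n (nat_lit 327) (nat_lit 60) (.n (nat_lit 328)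 (nat_lit 48) (.p (nat_lit 329) (nat_lit 48) .z))))))))))))))))))))))))))))))))))))))))))))) (.ct dW4x_c4371 (nat_lit 36) (nat_lit 4) (.s false (nat_lit 1) (nat_lit 23) (nat_lit 3) (nat_lit 0) (nat_lit 3) true (nat_lit 4) true (nat_lit 11) true (nat_lit 0) true (nat_lit 11) true (nat_lit 14) (.s false (nat_lit 1) (nat_lit 26) (nat_lit 2) (nat_lit 1) (nat_lit 3) true (nat_lit 5) true (nat_lit 11) false (nat_lit 0) true (nat_lit 12) true (nat_lit 13) (.e false (nat_lit 36) (nat_lit 147) (nat_lit 3) (nat_lit 11) (.e false (nat_lit 36) (nat_lit 128) (nat_lit 3) (nat_lit 11) (.e false (nat_lit 36) (nat_lit 129) (nat_lit 3) (nat_lit 11) dW4x_i87)))))) .leaf))) (nat_lit 56321) (nat_lit 142) (.p (nat_lit 107) (nat_lit 36) .z) .df (.nd (.nd (.nd (.nd .leaf (nat_lit 56322) (nat_lit 162) (.p (nat_lit 118) (nat_lit 36) .z) .df .leaf) (nat_lit 56323) (nat_lit 225) (.p (nat_lit 151) (nat_lit 36) .z) .df .leaf) (nat_lit 56326)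 (nat_lit 377) (.n (nat_lit 189) (nat_lit 117) (.p (nat_lit 190) (nat_lit 72) (.p (nat_lit 191) (nat_lit 78) (.p (nat_lit 192) (nat_lit 6) (.p (nat_lit 193) (nat_lit 216) (.p (nat_lit 194) (nat_lit 12) (.n (nat_lit 195) (nat_lit 24) (.n (nat_lit 196) (nat_lit 198) (.n (nat_lit 197) (nat_lit 24) (.n (nat_lit 198) (nat_lit 150) (.n (nat_lit 199) (nat_lit 153) (.p (nat_lit 200) (nat_lit 51) (.n (nat_lit 201) (nat_lit 51) (.p (nat_lit 202) (nat_lit 60) (.p (nat_lit 203) (nat_lit 120) (.n (nat_lit 204) (nat_lit 156) (.p (nat_lit 205) (nat_lit 183) (.n (nat_lit 206) (nat_lit 39) (.n (nat_lit 207) (nat_lit 141) (.p (nat_lit 208) (nat_lit 129) (.n (nat_lit 209) (nat_lit 3) (.p (nat_lit 210) (nat_lit 27) (.p (nat_lit 211) (nat_lit 231) (.n (nat_lit 214) (nat_lit 3) (.p (nat_lit 216) (nat_lit 3) (.n (nat_lit 217) (nat_lit 3) (.n (nat_lit 218) (nat_lit 3) (.p (nat_lit 219) (nat_lit 3) (.n (nat_lit 220) (nat_lit 6) (.p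 (nat_lit 221) (nat_lit 5) (.n (nat_lit 222) (nat_lit 2) (.n (nat_lit 223) (nat_lit 6) (.n (nat_lit 224) (nat_lit 38) (.p (nat_lit 225) (nat_lit 8) (.p (nat_lit 226) (nat_lit 3) (.p (nat_lit 227) (nat_lit 3) (.p (nat_lit 228) (nat_lit 38) (.n (nat_lit 229) (nat_lit 8) (.p (nat_lit 230) (nat_lit 1) (.n (nat_lit 231) (nat_lit 13) (.n (nat_lit 232) (nat_lit 37) (.n (nat_lit 233) (nat_lit 7) (.n (nat_lit 234) (nat_lit 35) (.n (nat_lit 235) (nat_lit 8) (.p (nat_lit 236) (nat_lit 10) (.p (nat_lit 237) (nat_lit 29) (.p (nat_lit 238) (nat_lit 5) (.n (nat_lit 239) (nat_lit 15) (.n (nat_lit 240) (nat_lit 6) .z))))))))))))))))))))))))))))))))))))))))))))))))) (.ct dW4x_c8466 (nat_lit 36) (nat_lit 9) (.s true (nat_lit 1) (nat_lit 16) (nat_lit 1) (nat_lit 2) (nat_lit 3) true (nat_lit 7) true (nat_lit 12) true (nat_lit 1) true (nat_lit 14) true (nat_lit 13) (.s true (nat_lit 1) (nat_lit 16) (nat_lit 1) (nat_lit 3) (nat_lit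 2) true (nat_lit 9) true (nat_lit 13) true (nat_lit 1) true (nat_lit 14) true (nat_lit 12) dW4x_i46))) (.nd .leaf (nat_lit 56328) (nat_lit 449) (.n (nat_lit 241) (nat_lit 72) (.p (nat_lit 243) (nat_lit 18) (.p (nat_lit 244) (nat_lit 162) (.p (nat_lit 245) (nat_lit 90) (.n (nat_lit 246) (nat_lit 18) (.n (nat_lit 247) (nat_lit 72) (.n (nat_lit 248) (nat_lit 90) (.p (nat_lit 249) (nat_lit 180) (.n (nat_lit 251) (nat_lit 18) (.n (nat_lit 253) (nat_lit 36) (.n (nat_lit 254) (nat_lit 18) (.n (nat_lit 255) (nat_lit 54) (.p (nat_lit 256) (nat_lit 54) (.n (nat_lit 257) (nat_lit 36) (.p (nat_lit 258) (nat_lit 36) (.p (nat_lit 260) (nat_lit 18) (.p (nat_lit 261) (nat_lit 36) .z))))))))))))))))) (.ct dW4x_c8451 (nat_lit 36) (nat_lit 4) (.s false (nat_lit 1) (nat_lit 8) (nat_lit 0) (nat_lit 7) (nat_lit 3) true (nat_lit 5) true (nat_lit 7) true (nat_lit 4) true (nat_lit 9) true (nat_lit 5) (.e true (nat_lit 36) (nat_lit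 58) (nat_lit 7) (nat_lit 5) (.e true (nat_lit 36) (nat_lit 59) (nat_lit 7) (nat_lit 5) (.e false (nat_lit 36) (nat_lit 62) (nat_lit 7) (nat_lit 5) (.e true (nat_lit 36) (nat_lit 106) (nat_lit 3) (nat_lit 7) (.e false (nat_lit 36) (nat_lit 109) (nat_lit 3) (nat_lit 7) (.e false (nat_lit 36) (nat_lit 110) (nat_lit 3) (nat_lit 7) (.e true (nat_lit 36) (nat_lit 113) (nat_lit 3) (nat_lit 7) (.e false (nat_lit 72) (nat_lit 114) (nat_lit 3) (nat_lit 7) (.e false (nat_lit 36) (nat_lit 166) (nat_lit 0) (nat_lit 9) .nil))))))))))) .leaf)) (nat_lit 56329) (nat_lit 498) (.n (nat_lit 262) (nat_lit 72) (.p (nat_lit 264) (nat_lit 18) (.p (nat_lit 265) (nat_lit 162) (.p (nat_lit 266) (nat_lit 90) (.n (nat_lit 267) (nat_lit 18) (.n (nat_lit 268) (nat_lit 72) (.n (nat_lit 269) (nat_lit 90) (.p (nat_lit 270) (nat_lit 180) (.n (nat_lit 272) (nat_lit 18) (.n (nat_lit 274) (nat_lit 36) (.n (nat_lit 275) (nat_lit 18) (.n (nat_lit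 276) (nat_lit 54) (.p (nat_lit 277) (nat_lit 54) (.n (nat_lit 278) (nat_lit 36) (.p (nat_lit 279) (nat_lit 36) (.p (nat_lit 281) (nat_lit 18) (.p (nat_lit 282) (nat_lit 36) .z))))))))))))))))) (.ct dW4x_c8211 (nat_lit 36) (nat_lit 4) (.s false (nat_lit 1) (nat_lit 9) (nat_lit 0) (nat_lit 7) (nat_lit 3) true (nat_lit 5) true (nat_lit 7) true (nat_lit 4) true (nat_lit 9) true (nat_lit 5) (.e true (nat_lit 36) (nat_lit 64) (nat_lit 7) (nat_lit 5) (.e true (nat_lit 36) (nat_lit 65) (nat_lit 7) (nat_lit 5) (.e false (nat_lit 36) (nat_lit 68) (nat_lit 7) (nat_lit 5) (.e true (nat_lit 36) (nat_lit 117) (nat_lit 3) (nat_lit 7) (.e false (nat_lit 36) (nat_lit 120) (nat_lit 3) (nat_lit 7) (.e false (nat_lit 36) (nat_lit 121) (nat_lit 3) (nat_lit 7) (.e true (nat_lit 36) (nat_lit 124) (nat_lit 3) (nat_lit 7) (.e false (nat_lit 72) (nat_lit 125) (nat_lit 3) (nat_lit 7) (.e false (nat_lit 36) (nat_lit 177) (nat_lit 0) (nat_lit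 9) .nil))))))))))) (.nd (.nd .leaf (nat_lit 57345) (nat_lit 153) (.p (nat_lit 104) (nat_lit 72) (.n (nat_lit 105) (nat_lit 72) (.n (nat_lit 107) (nat_lit 36) (.n (nat_lit 109) (nat_lit 72) (.n (nat_lit 110) (nat_lit 36) (.n (nat_lit 111) (nat_lit 36) (.p (nat_lit 112) (nat_lit 36) (.p (nat_lit 113) (nat_lit 72) (.n (nat_lit 114) (nat_lit 108) .z))))))))) (.ct dW4x_c8450 (nat_lit 36) (nat_lit 5) (.s true (nat_lit 1) (nat_lit 7) (nat_lit 1) (nat_lit 3) (nat_lit 0) true (nat_lit 3) true (nat_lit 6) true (nat_lit 2) true (nat_lit 5) true (nat_lit 4) (.s true (nat_lit 1) (nat_lit 8) (nat_lit 3) (nat_lit 0) (nat_lit 0) true (nat_lit 2) true (nat_lit 6) true (nat_lit 1) true (nat_lit 4) true (nat_lit 6) (.e false (nat_lit 36) (nat_lit 26) (nat_lit 4) (nat_lit 3) (.e true (nat_lit 36) (nat_lit 59) (nat_lit 0) (nat_lit 6) (.e true (nat_lit 36) (nat_lit 55) (nat_lit 1) (nat_lit 5) (.e false (nat_lit 36) (nat_lit 57)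 (nat_lit 1) (nat_lit 5) (.e false (nat_lit 36) (nat_lit 38) (nat_lit 3) (nat_lit 4) (.e true (nat_lit 36) (nat_lit 63) (nat_lit 0) (nat_lit 6) (.e false (nat_lit 36) (nat_lit 16) (nat_lit 8) (nat_lit 1) (.e false (nat_lit 36) (nat_lit 60) (nat_lit 0) (nat_lit 6) .nil))))))))))) .leaf) (nat_lit 57346) (nat_lit 173) (.p (nat_lit 115) (nat_lit 72) (.n (nat_lit 116) (nat_lit 72) (.n (nat_lit 118) (nat_lit 36) (.n (nat_lit 120) (nat_lit 72) (.n (nat_lit 121) (nat_lit 36) (.n (nat_lit 122) (nat_lit 36) (.p (nat_lit 123) (nat_lit 36) (.p (nat_lit 124) (nat_lit 72) (.n (nat_lit 125) (nat_lit 108) .z))))))))) (.ct dW4x_c8210 (nat_lit 36) (nat_lit 5) (.s true (nat_lit 1) (nat_lit 7) (nat_lit 2) (nat_lit 3) (nat_lit 0) true (nat_lit 3) true (nat_lit 6) true (nat_lit 2) true (nat_lit 5) true (nat_lit 4) (.s true (nat_lit 1) (nat_lit 9) (nat_lit 3) (nat_lit 0) (nat_lit 0) true (nat_lit 2) true (nat_lit 6) true (nat_lit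 1) true (nat_lit 4) true (nat_lit 6) (.e false (nat_lit 36) (nat_lit 26) (nat_lit 5) (nat_lit 3) (.e true (nat_lit 36) (nat_lit 65) (nat_lit 0) (nat_lit 6) (.e true (nat_lit 36) (nat_lit 55) (nat_lit 2) (nat_lit 5) (.e false (nat_lit 36) (nat_lit 57) (nat_lit 2) (nat_lit 5) (.e false (nat_lit 36) (nat_lit 42) (nat_lit 3) (nat_lit 4) (.e true (nat_lit 36) (nat_lit 69) (nat_lit 0) (nat_lit 6) (.e false (nat_lit 36) (nat_lit 16) (nat_lit 9) (nat_lit 1) (.e false (nat_lit 36) (nat_lit 66) (nat_lit 0) (nat_lit 6) .nil))))))))))) (.nd .leaf (nat_lit 57347) (nat_lit 232) (.n (nat_lit 151) (nat_lit 36) (.p (nat_lit 154) (nat_lit 36) (.p (nat_lit 155) (nat_lit 36) .z))) (.ct dW4x_c8195 (nat_lit 36) (nat_lit 2) (.s true (nat_lit 1) (nat_lit 7) (nat_lit 0) (nat_lit 3) (nat_lit 3) true (nat_lit 1) true (nat_lit 2) true (nat_lit 1) true (nat_lit 3) true (nat_lit 2) (.e true (nat_lit 36) (nat_lit 55) (nat_lit 3) (nat_lit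 2) (.e false (nat_lit 36) (nat_lit 77) (nat_lit 0) (nat_lit 3) (.e false (nat_lit 36) (nat_lit 78) (nat_lit 0) (nat_lit 3) .nil))))) .leaf))))))

noncomputable def dW4x_t5 : Tr := (.nd dW4x_t3 (nat_lit 37897) (nat_lit 381) (.n (nat_lit 189) (nat_lit 132) (.p (nat_lit 190) (nat_lit 66) (.p (nat_lit 191) (nat_lit 42) (.n (nat_lit 192) (nat_lit 42) (.p (nat_lit 193) (nat_lit 174) (.n (nat_lit 194) (nat_lit 42) (.n (nat_lit 196) (nat_lit 132) (.n (nat_lit 198) (nat_lit 132) (.n (nat_lit 199) (nat_lit 144) (.p (nat_lit 200) (nat_lit 84) (.n (nat_lit 201) (nat_lit 84) (.p (nat_lit 202) (nat_lit 72) (.p (nat_lit 203) (nat_lit 90) (.n (nat_lit 204) (nat_lit 144) (.p (nat_lit 205) (nat_lit 186) (.n (nat_lit 206) (nat_lit 66) (.n (nat_lit 207) (nat_lit 114) (.p (nat_lit 208) (nat_lit 102) (.n (nat_lit 209) (nat_lit 42) (.p (nat_lit 210) (nat_lit 42) (.p (nat_lit 211) (nat_lit 150) (.n (nat_lit 216) (nat_lit 18) (.p (nat_lit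 217) (nat_lit 36) (.p (nat_lit 218) (nat_lit 36) (.n (nat_lit 219) (nat_lit 36) (.p (nat_lit 220) (nat_lit 36) (.n (nat_lit 221) (nat_lit 30) (.p (nat_lit 222) (nat_lit 84) (.p (nat_lit 224) (nat_lit 120) (.n (nat_lit 225) (nat_lit 156) (.n (nat_lit 226) (nat_lit 90) (.n (nat_lit 227) (nat_lit 54) (.n (nat_lit 228) (nat_lit 84) (.p (nat_lit 229) (nat_lit 84) (.n (nat_lit 230) (nat_lit 60) (.n (nat_lit 231) (nat_lit 12) (.p (nat_lit 232) (nat_lit 24) (.n (nat_lit 233) (nat_lit 48) (.p (nat_lit 234) (nat_lit 48) (.n (nat_lit 235) (nat_lit 78) (.p (nat_lit 236) (nat_lit 12) (.p (nat_lit 237) (nat_lit 42) (.p (nat_lit 238) (nat_lit 42) (.n (nat_lit 239) (nat_lit 18) .z)))))))))))))))))))))))))))))))))))))))))))) (.ct dW4x_c8466 (nat_lit 36) (nat_lit 6) (.s true (nat_lit 1) (nat_lit 9) (nat_lit 1) (nat_lit 7) (nat_lit 0) true (nat_lit 11) true (nat_lit 15) true (nat_lit 6) true (nat_lit 14) true (nat_lit 8) (.e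 true (nat_lit 36) (nat_lit 64) (nat_lit 4) (nat_lit 11) (.e true (nat_lit 36) (nat_lit 65) (nat_lit 4) (nat_lit 11) (.e false (nat_lit 36) (nat_lit 68) (nat_lit 4) (nat_lit 11) (.e true (nat_lit 36) (nat_lit 69) (nat_lit 4) (nat_lit 11) (.e true (nat_lit 36) (nat_lit 130) (nat_lit 0) (nat_lit 15) (.e false (nat_lit 36) (nat_lit 136) (nat_lit 0) (nat_lit 15) (.e false (nat_lit 36) (nat_lit 137) (nat_lit 0) (nat_lit 15) (.e true (nat_lit 36) (nat_lit 140) (nat_lit 0) (nat_lit 15) (.e false (nat_lit 36) (nat_lit 141) (nat_lit 0) (nat_lit 15) (.e false (nat_lit 36) (nat_lit 143) (nat_lit 0) (nat_lit 15) (.e true (nat_lit 36) (nat_lit 150) (nat_lit 0) (nat_lit 15) (.e true (nat_lit 36) (nat_lit 38) (nat_lit 9) (nat_lit 6) (.e false (nat_lit 36) (nat_lit 39) (nat_lit 9) (nat_lit 6) (.e false (nat_lit 36) (nat_lit 117) (nat_lit 1) (nat_lit 14) (.e true (nat_lit 36) (nat_lit 120) (nat_lit 1) (nat_lit 14) (.e true (nat_lit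 36) (nat_lit 121) (nat_lit 1) (nat_lit 14) (.e true (nat_lit 36) (nat_lit 122) (nat_lit 1) (nat_lit 14) (.e false (nat_lit 36) (nat_lit 124) (nat_lit 1) (nat_lit 14) (.e true (nat_lit 36) (nat_lit 125) (nat_lit 1) (nat_lit 14) (.e false (nat_lit 36) (nat_lit 53) (nat_lit 7) (nat_lit 8) .nil)))))))))))))))))))))) dW4x_t4)

noncomputable def dW4x_t6 : Tr := (.nd dW4x_t2 (nat_lit 27649) (nat_lit 70) (.p (nat_lit 62) (nat_lit 36) .z) .df dW4x_t5)

noncomputable def dW4x_t7 : Tr := (.nd (.nd (.nd (.nd (.nd (.nd (.nd .leaf (nat_lit 57353) (nat_lit 501) (.p (nat_lit 262) (nat_lit 756) (.n (nat_lit 263) (nat_lit 180) (.n (nat_lit 264) (nat_lit 306) (.n (nat_lit 265) (nat_lit 1386) (.n (nat_lit 266) (nat_lit 702) (.p (nat_lit 267) (nat_lit 342) (.p (nat_lit 268) (nat_lit 756) (.p (nat_lit 269) (nat_lit 666) (.n (nat_lit 270) (nat_lit 1728) (.n (nat_lit 271) (nat_lit 252) (.p (nat_lit 272) (nat_lit 90) (.p (nat_lit 273)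 (nat_lit 432) (.p (nat_lit 274) (nat_lit 576) (.n (nat_lit 275) (nat_lit 234) (.p (nat_lit 276) (nat_lit 126) (.n (nat_lit 277) (nat_lit 522) (.p (nat_lit 278) (nat_lit 504) (.n (nat_lit 279) (nat_lit 36) (.n (nat_lit 280) (nat_lit 468) (.n (nat_lit 281) (nat_lit 162) (.n (nat_lit 282) (nat_lit 432) .z))))))))))))))))))))) (.ct dW4x_c8211 (nat_lit 36) (nat_lit 4) (.s false (nat_lit 1) (nat_lit 7) (nat_lit 2) (nat_lit 3) (nat_lit 7) true (nat_lit 0) true (nat_lit 5) true (nat_lit 5) true (nat_lit 8) true (nat_lit 7) (.s false (nat_lit 1) (nat_lit 26) (nat_lit 3) (nat_lit 0) (nat_lit 2) true (nat_lit 4) true (nat_lit 8) false (nat_lit 0) true (nat_lit 7) true (nat_lit 9) (.e false (nat_lit 72) (nat_lit 65) (nat_lit 7) (nat_lit 5) (.e false (nat_lit 36) (nat_lit 64) (nat_lit 7) (nat_lit 5) (.e true (nat_lit 36) (nat_lit 68) (nat_lit 7) (nat_lit 5) (.e false (nat_lit 36) (nat_lit 69) (nat_lit 7) (nat_lit 5) (.e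 false (nat_lit 36) (nat_lit 151) (nat_lit 2) (nat_lit 8) (.e true (nat_lit 36) (nat_lit 155) (nat_lit 2) (nat_lit 8) (.e true (nat_lit 36) (nat_lit 115) (nat_lit 3) (nat_lit 7) (.e false (nat_lit 36) (nat_lit 120) (nat_lit 3) (nat_lit 7) (.e false (nat_lit 72) (nat_lit 121) (nat_lit 3) (nat_lit 7) (.e true (nat_lit 36) (nat_lit 124) (nat_lit 3) (nat_lit 7) (.e false (nat_lit 72) (nat_lit 125) (nat_lit 3) (nat_lit 7) (.e true (nat_lit 36) (nat_lit 117) (nat_lit 3) (nat_lit 7) (.e true (nat_lit 36) (nat_lit 170) (nat_lit 0) (nat_lit 9) .nil)))))))))))))))) .leaf) (nat_lit 58369) (nat_lit 143) (.p (nat_lit 108) (nat_lit 36) .z) .df .leaf) (nat_lit 58370) (nat_lit 163) (.p (nat_lit 119) (nat_lit 36) .z) .df (.nd .leaf (nat_lit 58371) (nat_lit 226) (.p (nat_lit 152) (nat_lit 36) .z) .df .leaf)) (nat_lit 58374) (nat_lit 382) (.n (nat_lit 191) (nat_lit 36) (.n (nat_lit 192) (nat_lit 36) (.n (nat_lit 193) (nat_lit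 36) (.n (nat_lit 194) (nat_lit 36) (.p (nat_lit 195) (nat_lit 36) (.p (nat_lit 196) (nat_lit 36) (.p (nat_lit 197) (nat_lit 36) (.p (nat_lit 198) (nat_lit 72) (.p (nat_lit 199) (nat_lit 36) (.n (nat_lit 202) (nat_lit 36) (.n (nat_lit 203) (nat_lit 36) (.p (nat_lit 204) (nat_lit 36) (.n (nat_lit 205) (nat_lit 36) (.p (nat_lit 206) (nat_lit 36) (.p (nat_lit 207) (nat_lit 36) (.n (nat_lit 208) (nat_lit 36) (.p (nat_lit 209) (nat_lit 36) (.p (nat_lit 211) (nat_lit 36) (.p (nat_lit 221) (nat_lit 24) (.n (nat_lit 222) (nat_lit 24) (.n (nat_lit 223) (nat_lit 72) (.n (nat_lit 224) (nat_lit 24) (.p (nat_lit 225) (nat_lit 24) (.p (nat_lit 228) (nat_lit 24) (.n (nat_lit 229) (nat_lit 24) (.n (nat_lit 230) (nat_lit 24) (.p (nat_lit 231) (nat_lit 24) (.n (nat_lit 232) (nat_lit 48) (.n (nat_lit 233) (nat_lit 12) (.p (nat_lit 234) (nat_lit 12) (.p (nat_lit 235) (nat_lit 12) (.p (nat_lit 236) (nat_lit 12) (.n (nat_lit 237)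 (nat_lit 12) (.n (nat_lit 238) (nat_lit 12) .z)))))))))))))))))))))))))))))))))) (.ct dW4x_c8466 (nat_lit 36) (nat_lit 9) (.s true (nat_lit 1) (nat_lit 10) (nat_lit 0) (nat_lit 0) (nat_lit 6) true (nat_lit 2) true (nat_lit 9) true (nat_lit 5) true (nat_lit 15) true (nat_lit 15) (.s false (nat_lit 1) (nat_lit 27) (nat_lit 1) (nat_lit 2) (nat_lit 0) true (nat_lit 11) true (nat_lit 15) false (nat_lit 2) true (nat_lit 14) true (nat_lit 13) (.e true (nat_lit 36) (nat_lit 128) (nat_lit 0) (nat_lit 15) (.e false (nat_lit 36) (nat_lit 147) (nat_lit 0) (nat_lit 15) (.e false (nat_lit 36) (nat_lit 150) (nat_lit 0) (nat_lit 15) (.e false (nat_lit 36) (nat_lit 136) (nat_lit 0) (nat_lit 15) (.e true (nat_lit 36) (nat_lit 139) (nat_lit 0) (nat_lit 15) (.e false (nat_lit 36) (nat_lit 141) (nat_lit 0) (nat_lit 15) (.e true (nat_lit 36) (nat_lit 142) (nat_lit 0) (nat_lit 15) (.e false (nat_lit 36) (nat_lit 144) (nat_lit 0)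 (nat_lit 15) (.e false (nat_lit 36) (nat_lit 145) (nat_lit 0) (nat_lit 15) (.e true (nat_lit 36) (nat_lit 146) (nat_lit 0) (nat_lit 15) (.e true (nat_lit 36) (nat_lit 68) (nat_lit 4) (nat_lit 11) (.e false (nat_lit 36) (nat_lit 119) (nat_lit 1) (nat_lit 14) (.e false (nat_lit 72) (nat_lit 120) (nat_lit 1) (nat_lit 14) (.e true (nat_lit 72) (nat_lit 123) (nat_lit 1) (nat_lit 14) (.e true (nat_lit 36) (nat_lit 124) (nat_lit 1) (nat_lit 14) (.e false (nat_lit 72) (nat_lit 125) (nat_lit 1) (nat_lit 14) (.e true (nat_lit 36) (nat_lit 108) (nat_lit 2) (nat_lit 13) .nil)))))))))))))))))))) (.nd (.nd (.nd .leaf (nat_lit 58376) (nat_lit 452) (.p (nat_lit 241) (nat_lit 612) (.n (nat_lit 242) (nat_lit 180) (.n (nat_lit 243) (nat_lit 252) (.n (nat_lit 244) (nat_lit 1188) (.n (nat_lit 245) (nat_lit 612) (.p (nat_lit 246) (nat_lit 252) (.p (nat_lit 247) (nat_lit 648) (.p (nat_lit 248) (nat_lit 576) (.n (nat_lit 249) (nat_lit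 1440) (.n (nat_lit 250) (nat_lit 252) (.p (nat_lit 251) (nat_lit 36) (.p (nat_lit 252) (nat_lit 432) (.p (nat_lit 253) (nat_lit 576) (.n (nat_lit 254) (nat_lit 144) (.p (nat_lit 255) (nat_lit 180) (.n (nat_lit 256) (nat_lit 432) (.p (nat_lit 257) (nat_lit 468) (.n (nat_lit 258) (nat_lit 108) (.n (nat_lit 259) (nat_lit 324) (.n (nat_lit 260) (nat_lit 144) (.n (nat_lit 261) (nat_lit 324) .z))))))))))))))))))))) (.ct dW4x_c8451 (nat_lit 36) (nat_lit 4) (.s false (nat_lit 1) (nat_lit 10) (nat_lit 0) (nat_lit 8) (nat_lit 0) false (nat_lit 10) true (nat_lit 9) true (nat_lit 3) true (nat_lit 9) true (nat_lit 4) (.e false (nat_lit 72) (nat_lit 156) (nat_lit 0) (nat_lit 9) (.e false (nat_lit 36) (nat_lit 157) (nat_lit 0) (nat_lit 9) (.e true (nat_lit 72) (nat_lit 160) (nat_lit 0) (nat_lit 9) (.e false (nat_lit 108) (nat_lit 161) (nat_lit 0) (nat_lit 9) (.e true (nat_lit 36) (nat_lit 40) (nat_lit 10) (nat_lit 3) (.e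 false (nat_lit 36) (nat_lit 158) (nat_lit 0) (nat_lit 9) (.e true (nat_lit 36) (nat_lit 159) (nat_lit 0) (nat_lit 9) (.e false (nat_lit 36) (nat_lit 162) (nat_lit 0) (nat_lit 9) (.e false (nat_lit 36) (nat_lit 163) (nat_lit 0) (nat_lit 9) .nil))))))))))) .leaf) (nat_lit 58377) (nat_lit 502) (.p (nat_lit 262) (nat_lit 612) (.n (nat_lit 263) (nat_lit 180) (.n (nat_lit 264) (nat_lit 252) (.n (nat_lit 265) (nat_lit 1188) (.n (nat_lit 266) (nat_lit 612) (.p (nat_lit 267) (nat_lit 252) (.p (nat_lit 268) (nat_lit 648) (.p (nat_lit 269) (nat_lit 576) (.n (nat_lit 270) (nat_lit 1440) (.n (nat_lit 271) (nat_lit 252) (.p (nat_lit 272) (nat_lit 36) (.p (nat_lit 273) (nat_lit 432) (.p (nat_lit 274) (nat_lit 576) (.n (nat_lit 275) (nat_lit 144) (.p (nat_lit 276) (nat_lit 180) (.n (nat_lit 277) (nat_lit 432) (.p (nat_lit 278) (nat_lit 468) (.n (nat_lit 279) (nat_lit 108) (.n (nat_lit 280) (nat_lit 324) (.n (nat_lit 281) (nat_lit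 144) (.n (nat_lit 282) (nat_lit 324) .z))))))))))))))))))))) (.ct dW4x_c8211 (nat_lit 36) (nat_lit 4) (.s false (nat_lit 1) (nat_lit 10) (nat_lit 0) (nat_lit 9) (nat_lit 0) false (nat_lit 10) true (nat_lit 9) true (nat_lit 3) true (nat_lit 9) true (nat_lit 4) (.e false (nat_lit 72) (nat_lit 167) (nat_lit 0) (nat_lit 9) (.e false (nat_lit 36) (nat_lit 168) (nat_lit 0) (nat_lit 9) (.e true (nat_lit 72) (nat_lit 171) (nat_lit 0) (nat_lit 9) (.e false (nat_lit 108) (nat_lit 172) (nat_lit 0) (nat_lit 9) (.e true (nat_lit 36) (nat_lit 44) (nat_lit 10) (nat_lit 3) (.e false (nat_lit 36) (nat_lit 169) (nat_lit 0) (nat_lit 9) (.e true (nat_lit 36) (nat_lit 170) (nat_lit 0) (nat_lit 9) (.e false (nat_lit 36) (nat_lit 173) (nat_lit 0) (nat_lit 9) (.e false (nat_lit 36) (nat_lit 174) (nat_lit 0) (nat_lit 9) .nil))))))))))) .leaf) (nat_lit 59392) (nat_lit 144) (.p (nat_lit 109) (nat_lit 36) .z) .df (.nd .leaf (nat_lit 59394)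 (nat_lit 189) (.p (nat_lit 136) (nat_lit 36) .z) .df .leaf))) (nat_lit 59395) (nat_lit 234) (.p (nat_lit 156) (nat_lit 36) .z) .df (.nd (.nd (.nd (.nd .leaf (nat_lit 59397) (nat_lit 348) (.p (nat_lit 189) (nat_lit 15) (.n (nat_lit 190) (nat_lit 12) (.n (nat_lit 191) (nat_lit 6) (.p (nat_lit 192) (nat_lit 24) (.n (nat_lit 193) (nat_lit 66) (.p (nat_lit 194) (nat_lit 6) (.p (nat_lit 195) (nat_lit 18) (.p (nat_lit 196) (nat_lit 24) (.p (nat_lit 197) (nat_lit 18) (.p (nat_lit 198) (nat_lit 42) (.p (nat_lit 199) (nat_lit 27) (.n (nat_lit 200) (nat_lit 3) (.p (nat_lit 201) (nat_lit 3) (.p (nat_lit 202) (nat_lit 18) (.n (nat_lit 203) (nat_lit 18) (.p (nat_lit 204) (nat_lit 18) (.n (nat_lit 205) (nat_lit 33) (.p (nat_lit 206) (nat_lit 21) (.p (nat_lit 207) (nat_lit 15) (.n (nat_lit 208) (nat_lit 3) (.n (nat_lit 209) (nat_lit 3) (.n (nat_lit 210) (nat_lit 15) (.n (nat_lit 211) (nat_lit 33) (.n (nat_lit 214) (nat_lit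 9) (.p (nat_lit 216) (nat_lit 9) (.n (nat_lit 217) (nat_lit 27) (.n (nat_lit 218) (nat_lit 27) (.p (nat_lit 219) (nat_lit 27) (.n (nat_lit 220) (nat_lit 18) (.n (nat_lit 221) (nat_lit 15) (.p (nat_lit 222) (nat_lit 6) (.p (nat_lit 223) (nat_lit 18) (.n (nat_lit 224) (nat_lit 30) (.p (nat_lit 225) (nat_lit 12) (.p (nat_lit 226) (nat_lit 27) (.p (nat_lit 227) (nat_lit 27) (.p (nat_lit 228) (nat_lit 30) (.n (nat_lit 229) (nat_lit 12) (.p (nat_lit 230) (nat_lit 33) (.p (nat_lit 231) (nat_lit 3) (.p (nat_lit 232) (nat_lit 3) (.p (nat_lit 233) (nat_lit 39) (.n (nat_lit 234) (nat_lit 21) (.p (nat_lit 235) (nat_lit 42) (.n (nat_lit 236) (nat_lit 12) (.n (nat_lit 237) (nat_lit 33) (.p (nat_lit 238) (nat_lit 3) (.p (nat_lit 239) (nat_lit 9) (.p (nat_lit 240) (nat_lit 18) .z))))))))))))))))))))))))))))))))))))))))))))))))) (.ct dW4x_c8466 (nat_lit 288) (nat_lit 10) (.s false (nat_lit 2) (nat_lit 5) (nat_lit 3) (nat_lit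 3) (nat_lit 4) true (nat_lit 0) true (nat_lit 11) true (nat_lit 10) true (nat_lit 12) true (nat_lit 12) (.s false (nat_lit 2) (nat_lit 5) (nat_lit 4) (nat_lit 3) (nat_lit 3) true (nat_lit 0) true (nat_lit 12) true (nat_lit 10) true (nat_lit 11) true (nat_lit 12) (.s false (nat_lit 2) (nat_lit 7) (nat_lit 1) (nat_lit 5) (nat_lit 3) true (nat_lit 7) true (nat_lit 12) true (nat_lit 8) true (nat_lit 14) true (nat_lit 10) (.s false (nat_lit 2) (nat_lit 8) (nat_lit 3) (nat_lit 0) (nat_lit 5) false (nat_lit 0) true (nat_lit 10) true (nat_lit 7) true (nat_lit 12) true (nat_lit 15) (.s false (nat_lit 2) (nat_lit 8) (nat_lit 5) (nat_lit 0) (nat_lit 3) false (nat_lit 0) true (nat_lit 12) true (nat_lit 7) true (nat_lit 10) true (nat_lit 15) dW4x_i8)))))) .leaf) (nat_lit 59399) (nat_lit 436) (.n (nat_lit 241) (nat_lit 108) (.p (nat_lit 242) (nat_lit 36) (.p (nat_lit 243) (nat_lit 36) (.p (nat_lit 244) (nat_lit 144) (.p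 (nat_lit 245) (nat_lit 108) (.n (nat_lit 246) (nat_lit 36) (.n (nat_lit 247) (nat_lit 72) (.n (nat_lit 248) (nat_lit 108) (.p (nat_lit 249) (nat_lit 216) (.p (nat_lit 250) (nat_lit 36) (.n (nat_lit 252) (nat_lit 72) (.n (nat_lit 253) (nat_lit 72) (.p (nat_lit 256) (nat_lit 36) (.n (nat_lit 257) (nat_lit 36) (.p (nat_lit 259) (nat_lit 36) (.p (nat_lit 260) (nat_lit 36) (.p (nat_lit 261) (nat_lit 36) .z))))))))))))))))) (.ct dW4x_c8451 (nat_lit 36) (nat_lit 5) (.s false (nat_lit 1) (nat_lit 7) (nat_lit 1) (nat_lit 3) (nat_lit 7) true (nat_lit 0) true (nat_lit 5) true (nat_lit 5) true (nat_lit 8) true (nat_lit 7) (.s false (nat_lit 1) (nat_lit 8) (nat_lit 0) (nat_lit 7) (nat_lit 3) true (nat_lit 5) true (nat_lit 7) true (nat_lit 4) true (nat_lit 9) true (nat_lit 5) (.s false (nat_lit 1) (nat_lit 8) (nat_lit 7) (nat_lit 3) (nat_lit 0) true (nat_lit 1) true (nat_lit 9) true (nat_lit 4) true (nat_lit 5) true (nat_lit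 7) (.s false (nat_lit 1) (nat_lit 16) (nat_lit 1) (nat_lit 3) (nat_lit 3) true (nat_lit 4) true (nat_lit 7) true (nat_lit 1) true (nat_lit 8) true (nat_lit 7) (.s false (nat_lit 1) (nat_lit 26) (nat_lit 3) (nat_lit 0) (nat_lit 1) true (nat_lit 4) true (nat_lit 8) false (nat_lit 0) true (nat_lit 7) true (nat_lit 9) (.e false (nat_lit 36) (nat_lit 62) (nat_lit 7) (nat_lit 5) (.e false (nat_lit 36) (nat_lit 151) (nat_lit 1) (nat_lit 8) (.e true (nat_lit 72) (nat_lit 155) (nat_lit 1) (nat_lit 8) (.e false (nat_lit 36) (nat_lit 109) (nat_lit 3) (nat_lit 7) (.e false (nat_lit 72) (nat_lit 110) (nat_lit 3) (nat_lit 7) (.e true (nat_lit 36) (nat_lit 113) (nat_lit 3) (nat_lit 7) (.e false (nat_lit 72) (nat_lit 114) (nat_lit 3) (nat_lit 7) (.e true (nat_lit 36) (nat_lit 106) (nat_lit 3) (nat_lit 7) (.e false (nat_lit 36) (nat_lit 166) (nat_lit 0) (nat_lit 9) (.e true (nat_lit 36) (nat_lit 156) (nat_lit 0) (nat_lit 9)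 (.e true (nat_lit 36) (nat_lit 157) (nat_lit 0) (nat_lit 9) (.e false (nat_lit 36) (nat_lit 160) (nat_lit 0) (nat_lit 9) (.e true (nat_lit 36) (nat_lit 161) (nat_lit 0) (nat_lit 9) (.e false (nat_lit 36) (nat_lit 152) (nat_lit 1) (nat_lit 8) (.e true (nat_lit 72) (nat_lit 154) (nat_lit 1) (nat_lit 8) (.e false (nat_lit 36) (nat_lit 107) (nat_lit 3) (nat_lit 7) (.e true (nat_lit 36) (nat_lit 159) (nat_lit 0) (nat_lit 9) .nil))))))))))))))))))))))) .leaf) (nat_lit 59401) (nat_lit 556) (.p (nat_lit 327) (nat_lit 36) .z) .df (.nd .leaf (nat_lit 60416) (nat_lit 145) (.p (nat_lit 110) (nat_lit 36) .z) .df .leaf)) (nat_lit 60418) (nat_lit 190) (.p (nat_lit 137) (nat_lit 36) .z) .df (.nd (.nd (.nd .leaf (nat_lit 60419) (nat_lit 235) (.p (nat_lit 157) (nat_lit 36) .z) .df .leaf) (nat_lit 60421) (nat_lit 370) (.p (nat_lit 189) (nat_lit 69) (.n (nat_lit 190) (nat_lit 12) (.n (nat_lit 191) (nat_lit 42) (.n (nat_lit 192)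 (nat_lit 12) (.n (nat_lit 193) (nat_lit 66) (.n (nat_lit 194) (nat_lit 30) (.p (nat_lit 195) (nat_lit 54) (.p (nat_lit 196) (nat_lit 24) (.p (nat_lit 197) (nat_lit 54) (.p (nat_lit 198) (nat_lit 78) (.p (nat_lit 199) (nat_lit 45) (.p (nat_lit 200) (nat_lit 51) (.n (nat_lit 201) (nat_lit 15) (.n (nat_lit 202) (nat_lit 18) (.n (nat_lit 203) (nat_lit 18) (.p (nat_lit 204) (nat_lit 54) (.p (nat_lit 205) (nat_lit 21) (.n (nat_lit 206) (nat_lit 33) (.n (nat_lit 207) (nat_lit 3) (.p (nat_lit 208) (nat_lit 15) (.p (nat_lit 209) (nat_lit 15) (.p (nat_lit 210) (nat_lit 3) (.p (nat_lit 211) (nat_lit 21) (.p (nat_lit 214) (nat_lit 9) (.n (nat_lit 216) (nat_lit 9) (.n (nat_lit 217) (nat_lit 9) (.n (nat_lit 218) (nat_lit 9) (.n (nat_lit 219) (nat_lit 27) (.p (nat_lit 220) (nat_lit 18) (.p (nat_lit 221) (nat_lit 15) (.n (nat_lit 222) (nat_lit 6) (.n (nat_lit 223) (nat_lit 18) (.p (nat_lit 224) (nat_lit 30) (.n (nat_lit 225)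 (nat_lit 12) (.n (nat_lit 226) (nat_lit 27) (.n (nat_lit 227) (nat_lit 27) (.n (nat_lit 228) (nat_lit 30) (.p (nat_lit 229) (nat_lit 12) (.n (nat_lit 230) (nat_lit 33) (.n (nat_lit 231) (nat_lit 39) (.n (nat_lit 232) (nat_lit 3) (.n (nat_lit 233) (nat_lit 39) (.p (nat_lit 234) (nat_lit 21) (.n (nat_lit 235) (nat_lit 6) (.p (nat_lit 236) (nat_lit 12) (.p (nat_lit 237) (nat_lit 33) (.n (nat_lit 238) (nat_lit 3) (.n (nat_lit 239) (nat_lit 45) (.p (nat_lit 240) (nat_lit 18) .z))))))))))))))))))))))))))))))))))))))))))))))))) (.ct dW4x_c8466 (nat_lit 36) (nat_lit 10) (.s false (nat_lit 1) (nat_lit 5) (nat_lit 3) (nat_lit 3) (nat_lit 4) true (nat_lit 0) true (nat_lit 11) true (nat_lit 10) true (nat_lit 12) true (nat_lit 12) (.s true (nat_lit 1) (nat_lit 7) (nat_lit 1) (nat_lit 5) (nat_lit 3) true (nat_lit 7) true (nat_lit 12) true (nat_lit 8) true (nat_lit 14) true (nat_lit 10) (.s true (nat_lit 1) (nat_lit 8) (nat_lit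 3) (nat_lit 0) (nat_lit 5) false (nat_lit 0) true (nat_lit 10) true (nat_lit 7) true (nat_lit 12) true (nat_lit 15) (.s false (nat_lit 1) (nat_lit 9) (nat_lit 8) (nat_lit 0) (nat_lit 0) true (nat_lit 0) true (nat_lit 15) true (nat_lit 6) true (nat_lit 7) true (nat_lit 15) (.s true (nat_lit 1) (nat_lit 17) (nat_lit 2) (nat_lit 0) (nat_lit 3) true (nat_lit 6) true (nat_lit 12) true (nat_lit 0) true (nat_lit 13) true (nat_lit 15) (.s false (nat_lit 1) (nat_lit 19) (nat_lit 2) (nat_lit 0) (nat_lit 3) true (nat_lit 6) true (nat_lit 12) true (nat_lit 0) true (nat_lit 13) true (nat_lit 15) (.s false (nat_lit 1) (nat_lit 19) (nat_lit 2) (nat_lit 3) (nat_lit 0) true (nat_lit 10) true (nat_lit 15) true (nat_lit 0) true (nat_lit 13) true (nat_lit 12) (.s false (nat_lit 2) (nat_lit 20) (nat_lit 1) (nat_lit 3) (nat_lit 0) true (nat_lit 11) true (nat_lit 15) false (nat_lit 0) true (nat_lit 14) true (nat_lit 12) (.s true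 (nat_lit 1) (nat_lit 30) (nat_lit 0) (nat_lit 0) (nat_lit 1) true (nat_lit 11) true (nat_lit 14) false (nat_lit 4) true (nat_lit 15) true (nat_lit 15) (.e true (nat_lit 36) (nat_lit 64) (nat_lit 4) (nat_lit 11) (.e false (nat_lit 36) (nat_lit 86) (nat_lit 3) (nat_lit 12) (.e true (nat_lit 36) (nat_lit 88) (nat_lit 3) (nat_lit 12) (.e false (nat_lit 36) (nat_lit 89) (nat_lit 3) (nat_lit 12) (.e true (nat_lit 36) (nat_lit 90) (nat_lit 3) (nat_lit 12) (.e true (nat_lit 72) (nat_lit 91) (nat_lit 3) (nat_lit 12) (.e true (nat_lit 36) (nat_lit 92) (nat_lit 3) (nat_lit 12) (.e true (nat_lit 36) (nat_lit 93) (nat_lit 3) (nat_lit 12) (.e true (nat_lit 36) (nat_lit 95) (nat_lit 3) (nat_lit 12) (.e true (nat_lit 72) (nat_lit 98) (nat_lit 3) (nat_lit 12) (.e false (nat_lit 36) (nat_lit 99) (nat_lit 3) (nat_lit 12) (.e false (nat_lit 36) (nat_lit 101) (nat_lit 3) (nat_lit 12) (.e false (nat_lit 36) (nat_lit 102) (nat_lit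 3) (nat_lit 12) (.e true (nat_lit 36) (nat_lit 94) (nat_lit 3) (nat_lit 12) dW4x_i40)))))))))))))))))))))))) .leaf) (nat_lit 60423) (nat_lit 437) (.p (nat_lit 241) (nat_lit 72) (.n (nat_lit 242) (nat_lit 36) (.n (nat_lit 243) (nat_lit 18) (.n (nat_lit 244) (nat_lit 162) (.n (nat_lit 245) (nat_lit 126) (.p (nat_lit 246) (nat_lit 18) (.p (nat_lit 247) (nat_lit 72) (.p (nat_lit 248) (nat_lit 90) (.n (nat_lit 249) (nat_lit 180) (.n (nat_lit 250) (nat_lit 36) (.n (nat_lit 251) (nat_lit 18) (.p (nat_lit 252) (nat_lit 72) (.p (nat_lit 253) (nat_lit 108) (.p (nat_lit 254) (nat_lit 54) (.p (nat_lit 255) (nat_lit 90) (.n (nat_lit 256) (nat_lit 54) (.p (nat_lit 257) (nat_lit 72) (.n (nat_lit 258) (nat_lit 72) (.p (nat_lit 259) (nat_lit 36) (.n (nat_lit 260) (nat_lit 18) (.n (nat_lit 261) (nat_lit 36) .z))))))))))))))))))))) (.ct dW4x_c8451 (nat_lit 72) (nat_lit 5) (.s false (nat_lit 2) (nat_lit 8) (nat_lit 0) (nat_lit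 7) (nat_lit 3) true (nat_lit 5) true (nat_lit 7) true (nat_lit 4) true (nat_lit 9) true (nat_lit 5) (.s false (nat_lit 1) (nat_lit 10) (nat_lit 3) (nat_lit 4) (nat_lit 0) true (nat_lit 5) true (nat_lit 9) true (nat_lit 3) true (nat_lit 7) true (nat_lit 6) (.s false (nat_lit 1) (nat_lit 10) (nat_lit 7) (nat_lit 0) (nat_lit 1) true (nat_lit 0) true (nat_lit 8) true (nat_lit 3) true (nat_lit 5) true (nat_lit 9) (.s false (nat_lit 1) (nat_lit 16) (nat_lit 1) (nat_lit 3) (nat_lit 3) true (nat_lit 4) true (nat_lit 7) true (nat_lit 1) true (nat_lit 8) true (nat_lit 7) (.s false (nat_lit 1) (nat_lit 16) (nat_lit 3) (nat_lit 1) (nat_lit 3) true (nat_lit 3) true (nat_lit 7) true (nat_lit 1) true (nat_lit 7) true (nat_lit 8) (.s false (nat_lit 1) (nat_lit 16) (nat_lit 3) (nat_lit 3) (nat_lit 1) true (nat_lit 4) true (nat_lit 8) true (nat_lit 1) true (nat_lit 7) true (nat_lit 7) dW4x_i54))))))) (.nd .leaf (nat_lit 60425)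 (nat_lit 557) (.p (nat_lit 328) (nat_lit 36) .z) .df .leaf)))) (nat_lit 61440) (nat_lit 146) (.p (nat_lit 111) (nat_lit 36) .z) .df (.nd (.nd (.nd (.nd (.nd .leaf (nat_lit 61442) (nat_lit 191) (.p (nat_lit 138) (nat_lit 36) .z) .df .leaf) (nat_lit 61443) (nat_lit 236) (.p (nat_lit 158) (nat_lit 36) .z) .df .leaf) (nat_lit 61445) (nat_lit 376) (.p (nat_lit 189) (nat_lit 36) (.n (nat_lit 190) (nat_lit 36) (.n (nat_lit 191) (nat_lit 36) (.n (nat_lit 193) (nat_lit 72) (.n (nat_lit 194) (nat_lit 36) (.p (nat_lit 195) (nat_lit 36) (.p (nat_lit 196) (nat_lit 36) (.p (nat_lit 197) (nat_lit 36) (.p (nat_lit 198) (nat_lit 72) (.p (nat_lit 199) (nat_lit 36) (.p (nat_lit 200) (nat_lit 36) (.n (nat_lit 203) (nat_lit 36) (.p (nat_lit 204) (nat_lit 72) (.n (nat_lit 219) (nat_lit 36) (.p (nat_lit 235) (nat_lit 36) (.p (nat_lit 240) (nat_lit 36) .z)))))))))))))))) (.ct dW4x_c8466 (nat_lit 36) (nat_lit 10) (.s false (nat_lit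 1) (nat_lit 9) (nat_lit 8) (nat_lit 0) (nat_lit 0) true (nat_lit 0) true (nat_lit 15) true (nat_lit 6) true (nat_lit 7) true (nat_lit 15) dW4x_i45)) (.nd .leaf (nat_lit 61447) (nat_lit 447) (.n (nat_lit 246) (nat_lit 36) (.p (nat_lit 254) (nat_lit 36) (.p (nat_lit 255) (nat_lit 36) (.n (nat_lit 258) (nat_lit 36) (.p (nat_lit 259) (nat_lit 72) .z))))) (.ct dW4x_c8451 (nat_lit 36) (nat_lit 5) (.s true (nat_lit 1) (nat_lit 19) (nat_lit 3) (nat_lit 3) (nat_lit 0) true (nat_lit 5) true (nat_lit 9) true (nat_lit 0) true (nat_lit 7) true (nat_lit 7) (.s true (nat_lit 1) (nat_lit 27) (nat_lit 3) (nat_lit 1) (nat_lit 0) true (nat_lit 5) true (nat_lit 9) false (nat_lit 0) true (nat_lit 7) true (nat_lit 8) (.e true (nat_lit 36) (nat_lit 158) (nat_lit 0) (nat_lit 9) (.e false (nat_lit 72) (nat_lit 106) (nat_lit 3) (nat_lit 7) (.e true (nat_lit 108) (nat_lit 109) (nat_lit 3) (nat_lit 7) (.e true (nat_lit 36) (nat_lit 110)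 (nat_lit 3) (nat_lit 7) (.e false (nat_lit 72) (nat_lit 113) (nat_lit 3) (nat_lit 7) (.e true (nat_lit 144) (nat_lit 114) (nat_lit 3) (nat_lit 7) (.e false (nat_lit 36) (nat_lit 62) (nat_lit 7) (nat_lit 5) (.e true (nat_lit 36) (nat_lit 162) (nat_lit 0) (nat_lit 9) (.e true (nat_lit 36) (nat_lit 108) (nat_lit 3) (nat_lit 7) (.e false (nat_lit 72) (nat_lit 112) (nat_lit 3) (nat_lit 7) (.e false (nat_lit 36) (nat_lit 152) (nat_lit 1) (nat_lit 8) .nil)))))))))))))) .leaf)) (nat_lit 61449) (nat_lit 558) (.p (nat_lit 329) (nat_lit 36) .z) .df (.nd (.nd (.nd .leaf (nat_lit 62464) (nat_lit 147) (.p (nat_lit 112) (nat_lit 36) .z) .df .leaf) (nat_lit 62466) (nat_lit 192) (.p (nat_lit 139) (nat_lit 36) .z) .df .leaf) (nat_lit 62467) (nat_lit 237) (.p (nat_lit 159) (nat_lit 36) .z) .df (.nd .leaf (nat_lit 62469) (nat_lit 373) (.p (nat_lit 189) (nat_lit 96) (.n (nat_lit 190) (nat_lit 48) (.n (nat_lit 191) (nat_lit 24)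 (.p (nat_lit 192) (nat_lit 60) (.n (nat_lit 193) (nat_lit 120) (.p (nat_lit 194) (nat_lit 96) (.n (nat_lit 195) (nat_lit 36) (.p (nat_lit 196) (nat_lit 96) (.n (nat_lit 197) (nat_lit 36) (.p (nat_lit 198) (nat_lit 60) (.p (nat_lit 199) (nat_lit 180) (.n (nat_lit 200) (nat_lit 84) (.p (nat_lit 201) (nat_lit 84) (.n (nat_lit 202) (nat_lit 108) (.n (nat_lit 203) (nat_lit 108) (.p (nat_lit 204) (nat_lit 144) (.n (nat_lit 205) (nat_lit 204) (.p (nat_lit 206) (nat_lit 84) (.p (nat_lit 207) (nat_lit 168) (.n (nat_lit 208) (nat_lit 156) (.p (nat_lit 209) (nat_lit 60) (.n (nat_lit 210) (nat_lit 24) (.n (nat_lit 211) (nat_lit 204) (.n (nat_lit 218) (nat_lit 36) (.p (nat_lit 219) (nat_lit 36) (.n (nat_lit 220) (nat_lit 36) (.n (nat_lit 222) (nat_lit 36) (.n (nat_lit 224) (nat_lit 36) (.p (nat_lit 225) (nat_lit 36) (.p (nat_lit 226) (nat_lit 36) (.p (nat_lit 227) (nat_lit 36) (.p (nat_lit 228) (nat_lit 36) (.n (nat_lit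 229) (nat_lit 36) (.p (nat_lit 230) (nat_lit 36) (.p (nat_lit 233) (nat_lit 36) (.n (nat_lit 234) (nat_lit 36) (.n (nat_lit 237) (nat_lit 36) (.n (nat_lit 240) (nat_lit 36) .z)))))))))))))))))))))))))))))))))))))) (.ct dW4x_c8466 (nat_lit 36) (nat_lit 10) (.s false (nat_lit 1) (nat_lit 7) (nat_lit 1) (nat_lit 5) (nat_lit 3) true (nat_lit 7) true (nat_lit 12) true (nat_lit 8) true (nat_lit 14) true (nat_lit 10) (.s false (nat_lit 1) (nat_lit 8) (nat_lit 3) (nat_lit 0) (nat_lit 5) false (nat_lit 0) true (nat_lit 10) true (nat_lit 7) true (nat_lit 12) true (nat_lit 15) (.s true (nat_lit 1) (nat_lit 20) (nat_lit 1) (nat_lit 3) (nat_lit 0) true (nat_lit 11) true (nat_lit 15) false (nat_lit 0) true (nat_lit 14) true (nat_lit 12) (.s true (nat_lit 1) (nat_lit 28) (nat_lit 0) (nat_lit 0) (nat_lit 2) true (nat_lit 10) true (nat_lit 13) false (nat_lit 3) true (nat_lit 15) true (nat_lit 15) (.s false (nat_lit 1) (nat_lit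 30) (nat_lit 0) (nat_lit 0) (nat_lit 1) true (nat_lit 11) true (nat_lit 14) false (nat_lit 4) true (nat_lit 15) true (nat_lit 15) dW4x_i42)))))) .leaf))) (nat_lit 62471) (nat_lit 442) (.p (nat_lit 241) (nat_lit 1080) (.n (nat_lit 242) (nat_lit 252) (.n (nat_lit 243) (nat_lit 414) (.n (nat_lit 244) (nat_lit 1926) (.n (nat_lit 245) (nat_lit 990) (.p (nat_lit 246) (nat_lit 486) (.p (nat_lit 247) (nat_lit 1044) (.p (nat_lit 248) (nat_lit 918) (.n (nat_lit 249) (nat_lit 2412) (.n (nat_lit 250) (nat_lit 396) (.p (nat_lit 251) (nat_lit 90) (.p (nat_lit 252) (nat_lit 648) (.p (nat_lit 253) (nat_lit 900) (.n (nat_lit 254) (nat_lit 342) (.p (nat_lit 255) (nat_lit 162) (.n (nat_lit 256) (nat_lit 738) (.p (nat_lit 257) (nat_lit 756) (.n (nat_lit 258) (nat_lit 36) (.n (nat_lit 259) (nat_lit 684) (.n (nat_lit 260) (nat_lit 234) (.n (nat_lit 261) (nat_lit 612) .z))))))))))))))))))))) (.ct dW4x_c8451 (nat_lit 72) (nat_lit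 5) (.s false (nat_lit 1) (nat_lit 7) (nat_lit 1) (nat_lit 3) (nat_lit 7) true (nat_lit 0) true (nat_lit 5) true (nat_lit 5) true (nat_lit 8) true (nat_lit 7) (.s true (nat_lit 1) (nat_lit 7) (nat_lit 3) (nat_lit 1) (nat_lit 7) false (nat_lit 0) true (nat_lit 5) true (nat_lit 5) true (nat_lit 7) true (nat_lit 8) (.s true (nat_lit 1) (nat_lit 17) (nat_lit 0) (nat_lit 3) (nat_lit 3) true (nat_lit 5) true (nat_lit 7) true (nat_lit 0) true (nat_lit 9) true (nat_lit 7) (.s true (nat_lit 1) (nat_lit 26) (nat_lit 0) (nat_lit 1) (nat_lit 3) true (nat_lit 5) true (nat_lit 7) false (nat_lit 0) true (nat_lit 9) true (nat_lit 8) (.e false (nat_lit 108) (nat_lit 59) (nat_lit 7) (nat_lit 5) (.e false (nat_lit 36) (nat_lit 58) (nat_lit 7) (nat_lit 5) (.e true (nat_lit 72) (nat_lit 62) (nat_lit 7) (nat_lit 5) (.e false (nat_lit 72) (nat_lit 63) (nat_lit 7) (nat_lit 5) (.e false (nat_lit 36) (nat_lit 151) (nat_lit 1) (nat_lit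 8) (.e true (nat_lit 108) (nat_lit 104) (nat_lit 3) (nat_lit 7) (.e false (nat_lit 72) (nat_lit 105) (nat_lit 3) (nat_lit 7) (.e false (nat_lit 72) (nat_lit 109) (nat_lit 3) (nat_lit 7) (.e false (nat_lit 36) (nat_lit 110) (nat_lit 3) (nat_lit 7) (.e false (nat_lit 72) (nat_lit 111) (nat_lit 3) (nat_lit 7) (.e true (nat_lit 36) (nat_lit 112) (nat_lit 3) (nat_lit 7) (.e true (nat_lit 108) (nat_lit 113) (nat_lit 3) (nat_lit 7) (.e false (nat_lit 144) (nat_lit 114) (nat_lit 3) (nat_lit 7) (.e false (nat_lit 36) (nat_lit 108) (nat_lit 3) (nat_lit 7) (.e false (nat_lit 36) (nat_lit 154) (nat_lit 1) (nat_lit 8) (.e true (nat_lit 36) (nat_lit 152) (nat_lit 1) (nat_lit 8) (.e false (nat_lit 36) (nat_lit 165) (nat_lit 0) (nat_lit 9) (.e true (nat_lit 36) (nat_lit 166) (nat_lit 0) (nat_lit 9) .nil))))))))))))))))))))))) (.nd (.nd (.nd (.nd .leaf (nat_lit 62473) (nat_lit 561) (.n (nat_lit 283) (nat_lit 68) (.p (nat_lit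 284) (nat_lit 28) (.n (nat_lit 285) (nat_lit 64) (.n (nat_lit 286) (nat_lit 80) (.p (nat_lit 287) (nat_lit 88) (.n (nat_lit 288) (nat_lit 80) (.p (nat_lit 289) (nat_lit 60) (.n (nat_lit 290) (nat_lit 68) (.p (nat_lit 291) (nat_lit 60) (.n (nat_lit 292) (nat_lit 32) (.n (nat_lit 293) (nat_lit 192) (.n (nat_lit 294) (nat_lit 8) (.n (nat_lit 295) (nat_lit 64) (.p (nat_lit 296) (nat_lit 84) (.p (nat_lit 297) (nat_lit 180) (.n (nat_lit 298) (nat_lit 204) (.p (nat_lit 299) (nat_lit 224) (.n (nat_lit 301) (nat_lit 100) (.n (nat_lit 302) (nat_lit 200) (.p (nat_lit 303) (nat_lit 184) (.p (nat_lit 304) (nat_lit 4) (.p (nat_lit 305) (nat_lit 20) (.p (nat_lit 306) (nat_lit 344) (.p (nat_lit 307) (nat_lit 108) (.p (nat_lit 308) (nat_lit 108) (.n (nat_lit 309) (nat_lit 36) (.n (nat_lit 310) (nat_lit 72) (.p (nat_lit 311) (nat_lit 84) (.p (nat_lit 312) (nat_lit 60) (.p (nat_lit 313) (nat_lit 12) (.n (nat_lit 315) (nat_lit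 48) (.n (nat_lit 316) (nat_lit 96) (.p (nat_lit 319) (nat_lit 24) (.n (nat_lit 321) (nat_lit 24) (.n (nat_lit 322) (nat_lit 12) (.p (nat_lit 323) (nat_lit 24) (.p (nat_lit 324) (nat_lit 24) (.p (nat_lit 327) (nat_lit 12) (.n (nat_lit 328) (nat_lit 48) (.n (nat_lit 329) (nat_lit 24) .z)))))))))))))))))))))))))))))))))))))))) (.ct dW4x_c4371 (nat_lit 108) (nat_lit 5) (.s false (nat_lit 4) (nat_lit 7) (nat_lit 6) (nat_lit 3) (nat_lit 3) true (nat_lit 0) true (nat_lit 11) true (nat_lit 7) true (nat_lit 8) true (nat_lit 11) (.s false (nat_lit 5) (nat_lit 8) (nat_lit 2) (nat_lit 3) (nat_lit 7) true (nat_lit 1) true (nat_lit 7) true (nat_lit 6) true (nat_lit 12) true (nat_lit 11) (.s true (nat_lit 4) (nat_lit 8) (nat_lit 2) (nat_lit 7) (nat_lit 3) true (nat_lit 5) true (nat_lit 11) true (nat_lit 6) true (nat_lit 12) true (nat_lit 7) (.s false (nat_lit 3) (nat_lit 8) (nat_lit 3) (nat_lit 2) (nat_lit 7) false (nat_lit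 0) true (nat_lit 7) true (nat_lit 6) true (nat_lit 11) true (nat_lit 12) (.s true (nat_lit 4) (nat_lit 8) (nat_lit 7) (nat_lit 2) (nat_lit 3) false (nat_lit 0) true (nat_lit 11) true (nat_lit 6) true (nat_lit 7) true (nat_lit 12) (.s true (nat_lit 1) (nat_lit 9) (nat_lit 0) (nat_lit 3) (nat_lit 8) true (nat_lit 2) true (nat_lit 6) true (nat_lit 5) true (nat_lit 14) true (nat_lit 11) (.s false (nat_lit 4) (nat_lit 9) (nat_lit 1) (nat_lit 7) (nat_lit 3) true (nat_lit 6) true (nat_lit 11) true (nat_lit 5) true (nat_lit 13) true (nat_lit 7) (.s false (nat_lit 1) (nat_lit 9) (nat_lit 3) (nat_lit 0) (nat_lit 8) false (nat_lit 1) true (nat_lit 6) true (nat_lit 5) true (nat_lit 11) true (nat_lit 14) (.s true (nat_lit 1) (nat_lit 9) (nat_lit 8) (nat_lit 3) (nat_lit 0) true (nat_lit 2) true (nat_lit 14) true (nat_lit 5) true (nat_lit 6) true (nat_lit 11) (.s false (nat_lit 4) (nat_lit 10) (nat_lit 2) (nat_lit 7) (nat_lit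 1) true (nat_lit 8) true (nat_lit 13) true (nat_lit 4) true (nat_lit 12) true (nat_lit 7) (.s true (nat_lit 2) (nat_lit 19) (nat_lit 2) (nat_lit 3) (nat_lit 3) true (nat_lit 5) true (nat_lit 11) true (nat_lit 2) true (nat_lit 12) true (nat_lit 11) (.s false (nat_lit 1) (nat_lit 20) (nat_lit 1) (nat_lit 3) (nat_lit 3) true (nat_lit 6) true (nat_lit 11) true (nat_lit 1) true (nat_lit 13) true (nat_lit 11) dW4x_i63))))))))))))) .leaf) (nat_lit 63488) (nat_lit 148) (.p (nat_lit 113) (nat_lit 36) .z) .df .leaf) (nat_lit 63490) (nat_lit 193) (.p (nat_lit 140) (nat_lit 36) .z) .df (.nd .leaf (nat_lit 63491) (nat_lit 238) (.p (nat_lit 160) (nat_lit 36) .z) .df .leaf)) (nat_lit 63493) (nat_lit 393) (.p (nat_lit 189) (nat_lit 36) (.p (nat_lit 190) (nat_lit 36) (.n (nat_lit 191) (nat_lit 12) (.p (nat_lit 192) (nat_lit 24) (.p (nat_lit 194) (nat_lit 48) (.p (nat_lit 195) (nat_lit 12) (.n (nat_lit 196) (nat_lit 36) (.p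 (nat_lit 197) (nat_lit 12) (.n (nat_lit 198) (nat_lit 24) (.n (nat_lit 199) (nat_lit 36) (.n (nat_lit 200) (nat_lit 12) (.p (nat_lit 201) (nat_lit 12) (.p (nat_lit 202) (nat_lit 24) (.p (nat_lit 203) (nat_lit 48) (.n (nat_lit 204) (nat_lit 48) (.p (nat_lit 205) (nat_lit 48) (.n (nat_lit 206) (nat_lit 48) (.n (nat_lit 207) (nat_lit 24) (.p (nat_lit 208) (nat_lit 48) (.p (nat_lit 209) (nat_lit 24) (.p (nat_lit 211) (nat_lit 24) (.p (nat_lit 214) (nat_lit 24) (.n (nat_lit 216) (nat_lit 24) (.n (nat_lit 217) (nat_lit 12) (.n (nat_lit 218) (nat_lit 12) (.p (nat_lit 219) (nat_lit 12) (.n (nat_lit 220) (nat_lit 24) (.p (nat_lit 221) (nat_lit 32) (.n (nat_lit 222) (nat_lit 56) (.n (nat_lit 223) (nat_lit 24) (.p (nat_lit 224) (nat_lit 16) (.p (nat_lit 225) (nat_lit 8) (.n (nat_lit 226) (nat_lit 24) (.n (nat_lit 227) (nat_lit 24) (.n (nat_lit 228) (nat_lit 16) (.n (nat_lit 229) (nat_lit 8) (.n (nat_lit 230) (nat_lit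 44) (.n (nat_lit 231) (nat_lit 4) (.n (nat_lit 232) (nat_lit 28) (.n (nat_lit 233) (nat_lit 16) (.n (nat_lit 234) (nat_lit 8) (.n (nat_lit 235) (nat_lit 8) (.p (nat_lit 236) (nat_lit 28) (.p (nat_lit 237) (nat_lit 20) (.n (nat_lit 238) (nat_lit 4) (.n (nat_lit 239) (nat_lit 24) (.n (nat_lit 240) (nat_lit 24) .z))))))))))))))))))))))))))))))))))))))))))))))) (.ct dW4x_c8466 (nat_lit 36) (nat_lit 10) (.s false (nat_lit 1) (nat_lit 27) (nat_lit 1) (nat_lit 2) (nat_lit 0) true (nat_lit 11) true (nat_lit 15) false (nat_lit 2) true (nat_lit 14) true (nat_lit 13) (.s false (nat_lit 1) (nat_lit 27) (nat_lit 2) (nat_lit 1) (nat_lit 0) true (nat_lit 10) true (nat_lit 15) false (nat_lit 2) true (nat_lit 13) true (nat_lit 14) (.e true (nat_lit 36) (nat_lit 68) (nat_lit 4) (nat_lit 11) (.e false (nat_lit 36) (nat_lit 140) (nat_lit 0) (nat_lit 15) (.e false (nat_lit 72) (nat_lit 120) (nat_lit 1) (nat_lit 14) (.e true (nat_lit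 72) (nat_lit 123) (nat_lit 1) (nat_lit 14) (.e true (nat_lit 36) (nat_lit 124) (nat_lit 1) (nat_lit 14) (.e false (nat_lit 72) (nat_lit 125) (nat_lit 1) (nat_lit 14) (.e false (nat_lit 36) (nat_lit 145) (nat_lit 0) (nat_lit 15) (.e false (nat_lit 72) (nat_lit 109) (nat_lit 2) (nat_lit 13) (.e true (nat_lit 72) (nat_lit 112) (nat_lit 2) (nat_lit 13) (.e true (nat_lit 36) (nat_lit 113) (nat_lit 2) (nat_lit 13) (.e false (nat_lit 72) (nat_lit 114) (nat_lit 2) (nat_lit 13) .nil)))))))))))))) (.nd (.nd .leaf (nat_lit 63495) (nat_lit 435) (.n (nat_lit 241) (nat_lit 72) (.p (nat_lit 243) (nat_lit 36) (.p (nat_lit 244) (nat_lit 108) (.p (nat_lit 245) (nat_lit 36) (.n (nat_lit 246) (nat_lit 36) (.n (nat_lit 247) (nat_lit 72) (.n (nat_lit 248) (nat_lit 72) (.p (nat_lit 249) (nat_lit 144) (.n (nat_lit 251) (nat_lit 36) (.p (nat_lit 254) (nat_lit 36) (.p (nat_lit 255) (nat_lit 36) (.p (nat_lit 256) (nat_lit 36) (.n (nat_lit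 258) (nat_lit 36) (.p (nat_lit 259) (nat_lit 72) (.p (nat_lit 260) (nat_lit 36) .z))))))))))))))) (.ct dW4x_c8451 (nat_lit 36) (nat_lit 5) (.s false (nat_lit 1) (nat_lit 8) (nat_lit 0) (nat_lit 7) (nat_lit 3) true (nat_lit 5) true (nat_lit 7) true (nat_lit 4) true (nat_lit 9) true (nat_lit 5) (.s false (nat_lit 1) (nat_lit 8) (nat_lit 7) (nat_lit 0) (nat_lit 3) false (nat_lit 0) true (nat_lit 7) true (nat_lit 4) true (nat_lit 5) true (nat_lit 9) (.s true (nat_lit 1) (nat_lit 10) (nat_lit 8) (nat_lit 0) (nat_lit 0) true (nat_lit 0) true (nat_lit 9) true (nat_lit 3) true (nat_lit 4) true (nat_lit 9) (.s true (nat_lit 1) (nat_lit 19) (nat_lit 3) (nat_lit 0) (nat_lit 3) true (nat_lit 3) true (nat_lit 7) true (nat_lit 0) true (nat_lit 7) true (nat_lit 9) (.s false (nat_lit 1) (nat_lit 27) (nat_lit 3) (nat_lit 1) (nat_lit 0) true (nat_lit 5) true (nat_lit 9) false (nat_lit 0) true (nat_lit 7) true (nat_lit 8) (.s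 true (nat_lit 1) (nat_lit 28) (nat_lit 0) (nat_lit 0) (nat_lit 3) true (nat_lit 5) true (nat_lit 7) false (nat_lit 1) true (nat_lit 9) true (nat_lit 9) (.e true (nat_lit 72) (nat_lit 106) (nat_lit 3) (nat_lit 7) (.e false (nat_lit 108) (nat_lit 109) (nat_lit 3) (nat_lit 7) (.e false (nat_lit 36) (nat_lit 110) (nat_lit 3) (nat_lit 7) (.e true (nat_lit 72) (nat_lit 113) (nat_lit 3) (nat_lit 7) (.e false (nat_lit 144) (nat_lit 114) (nat_lit 3) (nat_lit 7) (.e false (nat_lit 36) (nat_lit 157) (nat_lit 0) (nat_lit 9) (.e false (nat_lit 36) (nat_lit 162) (nat_lit 0) (nat_lit 9) (.e false (nat_lit 36) (nat_lit 158) (nat_lit 0) (nat_lit 9) (.e false (nat_lit 72) (nat_lit 161) (nat_lit 0) (nat_lit 9) (.e false (nat_lit 36) (nat_lit 156) (nat_lit 0) (nat_lit 9) (.e true (nat_lit 36) (nat_lit 160) (nat_lit 0) (nat_lit 9) (.e true (nat_lit 36) (nat_lit 111) (nat_lit 3) (nat_lit 7) (.e false (nat_lit 36) (nat_lit 108) (nat_lit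 3) (nat_lit 7) (.e true (nat_lit 72) (nat_lit 112) (nat_lit 3) (nat_lit 7) (.e true (nat_lit 36) (nat_lit 152) (nat_lit 1) (nat_lit 8) .nil)))))))))))))))))))))) .leaf) (nat_lit 63497) (nat_lit 559) (.p (nat_lit 283) (nat_lit 24) (.n (nat_lit 284) (nat_lit 48) (.p (nat_lit 285) (nat_lit 30) (.p (nat_lit 286) (nat_lit 42) (.n (nat_lit 287) (nat_lit 48) (.p (nat_lit 288) (nat_lit 24) (.n (nat_lit 289) (nat_lit 18) (.p (nat_lit 290) (nat_lit 60) (.n (nat_lit 291) (nat_lit 36) (.p (nat_lit 292) (nat_lit 24) (.p (nat_lit 293) (nat_lit 126) (.p (nat_lit 294) (nat_lit 6) (.p (nat_lit 295) (nat_lit 12) (.n (nat_lit 296) (nat_lit 72) (.n (nat_lit 297) (nat_lit 144) (.p (nat_lit 298) (nat_lit 126) (.n (nat_lit 299) (nat_lit 132) (.p (nat_lit 301) (nat_lit 84) (.p (nat_lit 302) (nat_lit 114) (.n (nat_lit 303) (nat_lit 138) (.n (nat_lit 304) (nat_lit 12) (.n (nat_lit 305) (nat_lit 6) (.n (nat_lit 306) (nat_lit 186) (.n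 (nat_lit 307) (nat_lit 72) (.n (nat_lit 308) (nat_lit 54) (.n (nat_lit 309) (nat_lit 18) (.p (nat_lit 310) (nat_lit 54) (.n (nat_lit 311) (nat_lit 72) (.p (nat_lit 312) (nat_lit 18) (.n (nat_lit 313) (nat_lit 18) (.p (nat_lit 314) (nat_lit 18) (.p (nat_lit 315) (nat_lit 18) (.p (nat_lit 316) (nat_lit 18) (.n (nat_lit 317) (nat_lit 18) (.n (nat_lit 318) (nat_lit 18) (.n (nat_lit 319) (nat_lit 18) (.n (nat_lit 320) (nat_lit 18) (.p (nat_lit 321) (nat_lit 18) (.n (nat_lit 323) (nat_lit 18) (.p (nat_lit 325) (nat_lit 18) (.p (nat_lit 326) (nat_lit 18) (.n (nat_lit 327) (nat_lit 18) (.p (nat_lit 328) (nat_lit 18) .z))))))))))))))))))))))))))))))))))))))))))) (.ct dW4x_c4371 (nat_lit 72) (nat_lit 5) (.s true (nat_lit 3) (nat_lit 7) (nat_lit 6) (nat_lit 3) (nat_lit 3) true (nat_lit 0) true (nat_lit 11) true (nat_lit 7) true (nat_lit 8) true (nat_lit 11) (.s true (nat_lit 2) (nat_lit 8) (nat_lit 2) (nat_lit 3) (nat_lit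 7) true (nat_lit 1) true (nat_lit 7) true (nat_lit 6) true (nat_lit 12) true (nat_lit 11) (.s false (nat_lit 1) (nat_lit 8) (nat_lit 2) (nat_lit 7) (nat_lit 3) true (nat_lit 5) true (nat_lit 11) true (nat_lit 6) true (nat_lit 12) true (nat_lit 7) (.s false (nat_lit 1) (nat_lit 8) (nat_lit 7) (nat_lit 2) (nat_lit 3) false (nat_lit 0) true (nat_lit 11) true (nat_lit 6) true (nat_lit 7) true (nat_lit 12) (.s true (nat_lit 2) (nat_lit 9) (nat_lit 1) (nat_lit 7) (nat_lit 3) true (nat_lit 6) true (nat_lit 11) true (nat_lit 5) true (nat_lit 13) true (nat_lit 7) (.s false (nat_lit 1) (nat_lit 10) (nat_lit 0) (nat_lit 6) (nat_lit 3) true (nat_lit 7) true (nat_lit 11) true (nat_lit 4) true (nat_lit 14) true (nat_lit 8) (.s true (nat_lit 1) (nat_lit 10) (nat_lit 2) (nat_lit 7) (nat_lit 1) true (nat_lit 8) true (nat_lit 13) true (nat_lit 4) true (nat_lit 12) true (nat_lit 7) (.s false (nat_lit 1) (nat_lit 10) (nat_lit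 6) (nat_lit 0) (nat_lit 3) true (nat_lit 0) true (nat_lit 11) true (nat_lit 4) true (nat_lit 8) true (nat_lit 14) (.s false (nat_lit 1) (nat_lit 21) (nat_lit 3) (nat_lit 1) (nat_lit 3) true (nat_lit 4) true (nat_lit 11) true (nat_lit 1) true (nat_lit 11) true (nat_lit 13) (.s false (nat_lit 2) (nat_lit 23) (nat_lit 0) (nat_lit 3) (nat_lit 3) true (nat_lit 7) true (nat_lit 11) true (nat_lit 0) true (nat_lit 14) true (nat_lit 11) (.s false (nat_lit 2) (nat_lit 24) (nat_lit 3) (nat_lit 3) (nat_lit 0) true (nat_lit 7) true (nat_lit 14) true (nat_lit 0) true (nat_lit 11) true (nat_lit 11) dW4x_i59)))))))))))) (.nd .leaf (nat_lit 64512) (nat_lit 149) (.p (nat_lit 114) (nat_lit 36) .z) .df .leaf))))) (nat_lit 64514) (nat_lit 194) (.p (nat_lit 141) (nat_lit 36) .z) .df (.nd (.nd (.nd (.nd (.nd (.nd .leaf (nat_lit 64515) (nat_lit 239) (.p (nat_lit 161) (nat_lit 36) .z) .df .leaf) (nat_lit 64517) (nat_lit 383) (.p (nat_lit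 189) (nat_lit 39) (.p (nat_lit 190) (nat_lit 12) (.n (nat_lit 191) (nat_lit 6) (.p (nat_lit 192) (nat_lit 36) (.n (nat_lit 193) (nat_lit 6) (.p (nat_lit 194) (nat_lit 78) (.n (nat_lit 195) (nat_lit 42) (.p (nat_lit 196) (nat_lit 12) (.n (nat_lit 197) (nat_lit 42) (.n (nat_lit 198) (nat_lit 30) (.p (nat_lit 199) (nat_lit 63) (.n (nat_lit 200) (nat_lit 63) (.p (nat_lit 201) (nat_lit 63) (.n (nat_lit 202) (nat_lit 66) (.n (nat_lit 203) (nat_lit 42) (.p (nat_lit 204) (nat_lit 42) (.n (nat_lit 205) (nat_lit 81) (.p (nat_lit 206) (nat_lit 21) (.p (nat_lit 207) (nat_lit 87) (.n (nat_lit 208) (nat_lit 75) (.p (nat_lit 209) (nat_lit 45) (.n (nat_lit 210) (nat_lit 3) (.n (nat_lit 211) (nat_lit 105) (.p (nat_lit 214) (nat_lit 15) (.n (nat_lit 216) (nat_lit 15) (.p (nat_lit 217) (nat_lit 33) (.n (nat_lit 218) (nat_lit 3) (.p (nat_lit 219) (nat_lit 3) (.n (nat_lit 220) (nat_lit 6) (.n (nat_lit 221) (nat_lit 7) (.n (nat_lit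 222) (nat_lit 26) (.n (nat_lit 223) (nat_lit 6) (.p (nat_lit 224) (nat_lit 10) (.n (nat_lit 225) (nat_lit 4) (.p (nat_lit 226) (nat_lit 3) (.p (nat_lit 227) (nat_lit 3) (.n (nat_lit 228) (nat_lit 10) (.p (nat_lit 229) (nat_lit 4) (.n (nat_lit 230) (nat_lit 23) (.p (nat_lit 231) (nat_lit 11) (.n (nat_lit 232) (nat_lit 13) (.n (nat_lit 233) (nat_lit 1) (.n (nat_lit 234) (nat_lit 5) (.n (nat_lit 235) (nat_lit 50) (.p (nat_lit 236) (nat_lit 4) (.n (nat_lit 237) (nat_lit 1) (.p (nat_lit 238) (nat_lit 11) (.n (nat_lit 239) (nat_lit 15) (.n (nat_lit 240) (nat_lit 42) .z))))))))))))))))))))))))))))))))))))))))))))))))) (.ct dW4x_c8466 (nat_lit 36) (nat_lit 10) (.s true (nat_lit 1) (nat_lit 7) (nat_lit 1) (nat_lit 5) (nat_lit 3) true (nat_lit 7) true (nat_lit 12) true (nat_lit 8) true (nat_lit 14) true (nat_lit 10) (.s true (nat_lit 1) (nat_lit 8) (nat_lit 3) (nat_lit 0) (nat_lit 5) false (nat_lit 0) true (nat_lit 10)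 true (nat_lit 7) true (nat_lit 12) true (nat_lit 15) (.s false (nat_lit 1) (nat_lit 20) (nat_lit 1) (nat_lit 3) (nat_lit 0) true (nat_lit 11) true (nat_lit 15) false (nat_lit 0) true (nat_lit 14) true (nat_lit 12) (.e true (nat_lit 36) (nat_lit 86) (nat_lit 3) (nat_lit 12) (.e false (nat_lit 36) (nat_lit 87) (nat_lit 3) (nat_lit 12) (.e false (nat_lit 36) (nat_lit 88) (nat_lit 3) (nat_lit 12) (.e true (nat_lit 36) (nat_lit 96) (nat_lit 3) (nat_lit 12) (.e true (nat_lit 36) (nat_lit 46) (nat_lit 7) (nat_lit 8) (.e false (nat_lit 36) (nat_lit 61) (nat_lit 5) (nat_lit 10) (.e false (nat_lit 36) (nat_lit 126) (nat_lit 0) (nat_lit 15) (.e true (nat_lit 36) (nat_lit 130) (nat_lit 0) (nat_lit 15) (.e false (nat_lit 36) (nat_lit 134) (nat_lit 0) (nat_lit 15) (.e false (nat_lit 36) (nat_lit 135) (nat_lit 0) (nat_lit 15) (.e true (nat_lit 36) (nat_lit 64) (nat_lit 4) (nat_lit 11) (.e false (nat_lit 36) (nat_lit 132)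 (nat_lit 0) (nat_lit 15) .nil)))))))))))))))) .leaf) (nat_lit 64519) (nat_lit 440) (.p (nat_lit 241) (nat_lit 684) (.n (nat_lit 242) (nat_lit 180) (.n (nat_lit 243) (nat_lit 252) (.n (nat_lit 244) (nat_lit 1224) (.n (nat_lit 245) (nat_lit 648) (.p (nat_lit 246) (nat_lit 288) (.p (nat_lit 247) (nat_lit 648) (.p (nat_lit 248) (nat_lit 612) (.n (nat_lit 249) (nat_lit 1548) (.n (nat_lit 250) (nat_lit 252) (.p (nat_lit 251) (nat_lit 36) (.p (nat_lit 252) (nat_lit 432) (.p (nat_lit 253) (nat_lit 576) (.n (nat_lit 254) (nat_lit 216) (.p (nat_lit 255) (nat_lit 108) (.n (nat_lit 256) (nat_lit 432) (.p (nat_lit 257) (nat_lit 468) (.n (nat_lit 258) (nat_lit 36) (.n (nat_lit 259) (nat_lit 432) (.n (nat_lit 260) (nat_lit 144) (.n (nat_lit 261) (nat_lit 396) .z))))))))))))))))))))) (.ct dW4x_c8451 (nat_lit 36) (nat_lit 5) (.s true (nat_lit 1) (nat_lit 8) (nat_lit 0) (nat_lit 7) (nat_lit 3) true (nat_lit 5) true (nat_lit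 7) true (nat_lit 4) true (nat_lit 9) true (nat_lit 5) (.s true (nat_lit 1) (nat_lit 8) (nat_lit 7) (nat_lit 0) (nat_lit 3) false (nat_lit 0) true (nat_lit 7) true (nat_lit 4) true (nat_lit 5) true (nat_lit 9) (.s true (nat_lit 1) (nat_lit 10) (nat_lit 0) (nat_lit 8) (nat_lit 0) false (nat_lit 10) true (nat_lit 9) true (nat_lit 3) true (nat_lit 9) true (nat_lit 4) (.s false (nat_lit 1) (nat_lit 19) (nat_lit 3) (nat_lit 0) (nat_lit 3) true (nat_lit 3) true (nat_lit 7) true (nat_lit 0) true (nat_lit 7) true (nat_lit 9) (.s true (nat_lit 1) (nat_lit 17) (nat_lit 3) (nat_lit 3) (nat_lit 0) true (nat_lit 5) true (nat_lit 9) true (nat_lit 0) true (nat_lit 7) true (nat_lit 7) (.s true (nat_lit 1) (nat_lit 27) (nat_lit 1) (nat_lit 0) (nat_lit 3) true (nat_lit 4) true (nat_lit 7) false (nat_lit 0) true (nat_lit 8) true (nat_lit 9) (.e true (nat_lit 36) (nat_lit 58) (nat_lit 7) (nat_lit 5) (.e false (nat_lit 72) (nat_lit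 106) (nat_lit 3) (nat_lit 7) (.e true (nat_lit 36) (nat_lit 109) (nat_lit 3) (nat_lit 7) (.e true (nat_lit 72) (nat_lit 110) (nat_lit 3) (nat_lit 7) (.e true (nat_lit 108) (nat_lit 114) (nat_lit 3) (nat_lit 7) (.e true (nat_lit 72) (nat_lit 166) (nat_lit 0) (nat_lit 9) (.e true (nat_lit 72) (nat_lit 157) (nat_lit 0) (nat_lit 9) (.e false (nat_lit 36) (nat_lit 162) (nat_lit 0) (nat_lit 9) (.e true (nat_lit 108) (nat_lit 156) (nat_lit 0) (nat_lit 9) (.e false (nat_lit 72) (nat_lit 160) (nat_lit 0) (nat_lit 9) (.e true (nat_lit 108) (nat_lit 161) (nat_lit 0) (nat_lit 9) (.e false (nat_lit 72) (nat_lit 111) (nat_lit 3) (nat_lit 7) (.e false (nat_lit 72) (nat_lit 105) (nat_lit 3) (nat_lit 7) (.e false (nat_lit 36) (nat_lit 152) (nat_lit 1) (nat_lit 8) (.e true (nat_lit 36) (nat_lit 154) (nat_lit 1) (nat_lit 8) (.e true (nat_lit 72) (nat_lit 155) (nat_lit 1) (nat_lit 8) .nil))))))))))))))))))))))) (.nd .leaf (nat_lit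 64521) (nat_lit 560) (.n (nat_lit 283) (nat_lit 96) (.n (nat_lit 284) (nat_lit 60) (.n (nat_lit 285) (nat_lit 84) (.n (nat_lit 286) (nat_lit 60) (.p (nat_lit 287) (nat_lit 48) (.n (nat_lit 288) (nat_lit 132) (.p (nat_lit 289) (nat_lit 108) (.p (nat_lit 290) (nat_lit 12) (.p (nat_lit 291) (nat_lit 36) (.n (nat_lit 292) (nat_lit 24) (.n (nat_lit 293) (nat_lit 144) (.p (nat_lit 294) (nat_lit 12) (.n (nat_lit 295) (nat_lit 48) (.p (nat_lit 296) (nat_lit 72) (.p (nat_lit 297) (nat_lit 108) (.n (nat_lit 298) (nat_lit 144) (.p (nat_lit 299) (nat_lit 168) (.n (nat_lit 301) (nat_lit 12) (.n (nat_lit 302) (nat_lit 132) (.p (nat_lit 303) (nat_lit 84) (.n (nat_lit 304) (nat_lit 24) (.p (nat_lit 305) (nat_lit 24) (.p (nat_lit 306) (nat_lit 276) (.p (nat_lit 307) (nat_lit 72) (.p (nat_lit 308) (nat_lit 144) (.n (nat_lit 309) (nat_lit 72) (.n (nat_lit 310) (nat_lit 36) (.p (nat_lit 311) (nat_lit 36) (.p (nat_lit 312) (nat_lit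 72) (.n (nat_lit 313) (nat_lit 36) (.n (nat_lit 314) (nat_lit 36) (.n (nat_lit 315) (nat_lit 72) (.n (nat_lit 316) (nat_lit 72) (.n (nat_lit 317) (nat_lit 36) (.n (nat_lit 318) (nat_lit 36) (.n (nat_lit 320) (nat_lit 36) (.n (nat_lit 321) (nat_lit 36) (.n (nat_lit 322) (nat_lit 36) (.p (nat_lit 323) (nat_lit 36) (.p (nat_lit 324) (nat_lit 72) (.p (nat_lit 325) (nat_lit 72) (.p (nat_lit 326) (nat_lit 36) (.n (nat_lit 327) (nat_lit 72) (.n (nat_lit 328) (nat_lit 36) .z)))))))))))))))))))))))))))))))))))))))))))) (.ct dW4x_c4371 (nat_lit 36) (nat_lit 5) (.s false (nat_lit 3) (nat_lit 7) (nat_lit 6) (nat_lit 3) (nat_lit 3) true (nat_lit 0) true (nat_lit 11) true (nat_lit 7) true (nat_lit 8) true (nat_lit 11) (.s true (nat_lit 2) (nat_lit 8) (nat_lit 2) (nat_lit 7) (nat_lit 3) true (nat_lit 5) true (nat_lit 11) true (nat_lit 6) true (nat_lit 12) true (nat_lit 7) (.s false (nat_lit 2) (nat_lit 8) (nat_lit 3) (nat_lit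 2) (nat_lit 7) false (nat_lit 0) true (nat_lit 7) true (nat_lit 6) true (nat_lit 11) true (nat_lit 12) (.s false (nat_lit 1) (nat_lit 9) (nat_lit 1) (nat_lit 7) (nat_lit 3) true (nat_lit 6) true (nat_lit 11) true (nat_lit 5) true (nat_lit 13) true (nat_lit 7) (.s false (nat_lit 1) (nat_lit 9) (nat_lit 3) (nat_lit 0) (nat_lit 8) false (nat_lit 1) true (nat_lit 6) true (nat_lit 5) true (nat_lit 11) true (nat_lit 14) (.s true (nat_lit 1) (nat_lit 9) (nat_lit 7) (nat_lit 1) (nat_lit 3) false (nat_lit 0) true (nat_lit 11) true (nat_lit 5) true (nat_lit 7) true (nat_lit 13) (.s true (nat_lit 1) (nat_lit 9) (nat_lit 8) (nat_lit 3) (nat_lit 0) true (nat_lit 2) true (nat_lit 14) true (nat_lit 5) true (nat_lit 6) true (nat_lit 11) (.s true (nat_lit 1) (nat_lit 10) (nat_lit 0) (nat_lit 6) (nat_lit 3) true (nat_lit 7) true (nat_lit 11) true (nat_lit 4) true (nat_lit 14) true (nat_lit 8) (.s false (nat_lit 1) (nat_lit 10)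 (nat_lit 2) (nat_lit 7) (nat_lit 1) true (nat_lit 8) true (nat_lit 13) true (nat_lit 4) true (nat_lit 12) true (nat_lit 7) (.s true (nat_lit 1) (nat_lit 10) (nat_lit 6) (nat_lit 0) (nat_lit 3) true (nat_lit 0) true (nat_lit 11) true (nat_lit 4) true (nat_lit 8) true (nat_lit 14) (.s true (nat_lit 1) (nat_lit 19) (nat_lit 2) (nat_lit 3) (nat_lit 3) true (nat_lit 5) true (nat_lit 11) true (nat_lit 2) true (nat_lit 12) true (nat_lit 11) (.s true (nat_lit 1) (nat_lit 21) (nat_lit 1) (nat_lit 3) (nat_lit 3) true (nat_lit 6) true (nat_lit 11) true (nat_lit 1) true (nat_lit 13) true (nat_lit 11) (.s false (nat_lit 1) (nat_lit 22) (nat_lit 1) (nat_lit 3) (nat_lit 3) true (nat_lit 6) true (nat_lit 11) true (nat_lit 1) true (nat_lit 13) true (nat_lit 11) (.s true (nat_lit 1) (nat_lit 21) (nat_lit 3) (nat_lit 1) (nat_lit 3) true (nat_lit 4) true (nat_lit 11) true (nat_lit 1) true (nat_lit 11) true (nat_lit 13) (.s true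 (nat_lit 4) (nat_lit 23) (nat_lit 0) (nat_lit 3) (nat_lit 3) true (nat_lit 7) true (nat_lit 11) true (nat_lit 0) true (nat_lit 14) true (nat_lit 11) (.s true (nat_lit 1) (nat_lit 24) (nat_lit 3) (nat_lit 3) (nat_lit 0) true (nat_lit 7) true (nat_lit 14) true (nat_lit 0) true (nat_lit 11) true (nat_lit 11) (.s false (nat_lit 2) (nat_lit 25) (nat_lit 3) (nat_lit 3) (nat_lit 0) true (nat_lit 7) true (nat_lit 14) true (nat_lit 0) true (nat_lit 11) true (nat_lit 11) (.s false (nat_lit 1) (nat_lit 26) (nat_lit 1) (nat_lit 2) (nat_lit 3) true (nat_lit 6) true (nat_lit 11) false (nat_lit 0) true (nat_lit 13) true (nat_lit 12) (.s true (nat_lit 1) (nat_lit 27) (nat_lit 1) (nat_lit 2) (nat_lit 3) true (nat_lit 6) true (nat_lit 11) false (nat_lit 0) true (nat_lit 13) true (nat_lit 12) dW4x_i61)))))))))))))))))))) .leaf)) (nat_lit 65536) (nat_lit 164) (.p (nat_lit 120) (nat_lit 36) .z) .df (.nd (.nd (.nd .leaf (nat_lit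 65537) (nat_lit 195) (.p (nat_lit 142) (nat_lit 36) .z) .df .leaf) (nat_lit 65539) (nat_lit 254) (.p (nat_lit 167) (nat_lit 36) .z) .df .leaf) (nat_lit 65540) (nat_lit 353) (.p (nat_lit 189) (nat_lit 93) (.n (nat_lit 190) (nat_lit 60) (.n (nat_lit 191) (nat_lit 18) (.p (nat_lit 192) (nat_lit 24) (.n (nat_lit 193) (nat_lit 150) (.p (nat_lit 194) (nat_lit 18) (.p (nat_lit 195) (nat_lit 42) (.p (nat_lit 196) (nat_lit 84) (.p (nat_lit 197) (nat_lit 42) (.p (nat_lit 198) (nat_lit 126) (.p (nat_lit 199) (nat_lit 117) (.n (nat_lit 200) (nat_lit 21) (.p (nat_lit 201) (nat_lit 21) (.n (nat_lit 202) (nat_lit 42) (.n (nat_lit 203) (nat_lit 66) (.p (nat_lit 204) (nat_lit 102) (.n (nat_lit 205) (nat_lit 123) (.p (nat_lit 206) (nat_lit 63) (.p (nat_lit 207) (nat_lit 81) (.n (nat_lit 208) (nat_lit 81) (.p (nat_lit 209) (nat_lit 15) (.n (nat_lit 210) (nat_lit 21) (.n (nat_lit 211) (nat_lit 99) (.n (nat_lit 214) (nat_lit 15)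 (.p (nat_lit 216) (nat_lit 15) (.n (nat_lit 217) (nat_lit 33) (.n (nat_lit 218) (nat_lit 33) (.p (nat_lit 219) (nat_lit 33) (.n (nat_lit 220) (nat_lit 30) (.n (nat_lit 221) (nat_lit 29) (.p (nat_lit 222) (nat_lit 26) (.p (nat_lit 223) (nat_lit 42) (.n (nat_lit 224) (nat_lit 46) (.p (nat_lit 225) (nat_lit 40) (.p (nat_lit 226) (nat_lit 33) (.p (nat_lit 227) (nat_lit 33) (.p (nat_lit 228) (nat_lit 46) (.n (nat_lit 229) (nat_lit 40) (.p (nat_lit 230) (nat_lit 59) (.n (nat_lit 231) (nat_lit 47) (.p (nat_lit 232) (nat_lit 13) (.p (nat_lit 233) (nat_lit 37) (.n (nat_lit 234) (nat_lit 31) (.p (nat_lit 235) (nat_lit 50) (.n (nat_lit 236) (nat_lit 4) (.n (nat_lit 237) (nat_lit 35) (.n (nat_lit 238) (nat_lit 11) (.n (nat_lit 239) (nat_lit 21) (.p (nat_lit 240) (nat_lit 6) .z))))))))))))))))))))))))))))))))))))))))))))))))) (.ct dW4x_c8466 (nat_lit 36) (nat_lit 11) (.s false (nat_lit 1) (nat_lit 5) (nat_lit 3) (nat_lit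 3) (nat_lit 4) true (nat_lit 0) true (nat_lit 11) true (nat_lit 10) true (nat_lit 12) true (nat_lit 12) (.s true (nat_lit 1) (nat_lit 7) (nat_lit 1) (nat_lit 5) (nat_lit 3) true (nat_lit 7) true (nat_lit 12) true (nat_lit 8) true (nat_lit 14) true (nat_lit 10) (.s true (nat_lit 1) (nat_lit 8) (nat_lit 3) (nat_lit 0) (nat_lit 5) false (nat_lit 0) true (nat_lit 10) true (nat_lit 7) true (nat_lit 12) true (nat_lit 15) (.s false (nat_lit 1) (nat_lit 8) (nat_lit 5) (nat_lit 3) (nat_lit 0) true (nat_lit 3) true (nat_lit 15) true (nat_lit 7) true (nat_lit 10) true (nat_lit 12) (.s false (nat_lit 2) (nat_lit 9) (nat_lit 8) (nat_lit 0) (nat_lit 0) true (nat_lit 0) true (nat_lit 15) true (nat_lit 6) true (nat_lit 7) true (nat_lit 15) (.s true (nat_lit 1) (nat_lit 10) (nat_lit 0) (nat_lit 0) (nat_lit 6) true (nat_lit 2) true (nat_lit 9) true (nat_lit 5) true (nat_lit 15) true (nat_lit 15) (.s false (nat_lit 2) (nat_lit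 17) (nat_lit 0) (nat_lit 2) (nat_lit 3) true (nat_lit 8) true (nat_lit 12) true (nat_lit 0) true (nat_lit 15) true (nat_lit 13) (.s false (nat_lit 1) (nat_lit 19) (nat_lit 0) (nat_lit 2) (nat_lit 3) true (nat_lit 8) true (nat_lit 12) true (nat_lit 0) true (nat_lit 15) true (nat_lit 13) (.s false (nat_lit 2) (nat_lit 19) (nat_lit 2) (nat_lit 0) (nat_lit 3) true (nat_lit 6) true (nat_lit 12) true (nat_lit 0) true (nat_lit 13) true (nat_lit 15) (.s false (nat_lit 2) (nat_lit 17) (nat_lit 2) (nat_lit 3) (nat_lit 0) true (nat_lit 10) true (nat_lit 15) true (nat_lit 0) true (nat_lit 13) true (nat_lit 12) (.s false (nat_lit 1) (nat_lit 19) (nat_lit 2) (nat_lit 3) (nat_lit 0) true (nat_lit 10) true (nat_lit 15) true (nat_lit 0) true (nat_lit 13) true (nat_lit 12) (.s false (nat_lit 2) (nat_lit 17) (nat_lit 3) (nat_lit 2) (nat_lit 0) true (nat_lit 8) true (nat_lit 15) true (nat_lit 0) true (nat_lit 12) true (nat_lit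 13) dW4x_i20))))))))))))) (.nd .leaf (nat_lit 65543) (nat_lit 485) (.n (nat_lit 262) (nat_lit 108) (.p (nat_lit 263) (nat_lit 36) (.p (nat_lit 264) (nat_lit 36) (.p (nat_lit 265) (nat_lit 144) (.p (nat_lit 266) (nat_lit 108) (.n (nat_lit 267) (nat_lit 36) (.n (nat_lit 268) (nat_lit 72) (.n (nat_lit 269) (nat_lit 108) (.p (nat_lit 270) (nat_lit 216) (.p (nat_lit 271) (nat_lit 36) (.n (nat_lit 273) (nat_lit 72) (.n (nat_lit 274) (nat_lit 72) (.p (nat_lit 277) (nat_lit 36) (.n (nat_lit 278) (nat_lit 36) (.p (nat_lit 280) (nat_lit 36) (.p (nat_lit 281) (nat_lit 36) (.p (nat_lit 282) (nat_lit 36) .z))))))))))))))))) (.ct dW4x_c8211 (nat_lit 36) (nat_lit 5) (.s false (nat_lit 1) (nat_lit 7) (nat_lit 2) (nat_lit 3) (nat_lit 7) true (nat_lit 0) true (nat_lit 5) true (nat_lit 5) true (nat_lit 8) true (nat_lit 7) (.s false (nat_lit 1) (nat_lit 9) (nat_lit 0) (nat_lit 7) (nat_lit 3) true (nat_lit 5) true (nat_lit 7) true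 (nat_lit 4) true (nat_lit 9) true (nat_lit 5) (.s false (nat_lit 1) (nat_lit 9) (nat_lit 7) (nat_lit 3) (nat_lit 0) true (nat_lit 1) true (nat_lit 9) true (nat_lit 4) true (nat_lit 5) true (nat_lit 7) (.s false (nat_lit 1) (nat_lit 16) (nat_lit 2) (nat_lit 3) (nat_lit 3) true (nat_lit 4) true (nat_lit 7) true (nat_lit 1) true (nat_lit 8) true (nat_lit 7) (.s false (nat_lit 1) (nat_lit 26) (nat_lit 3) (nat_lit 0) (nat_lit 2) true (nat_lit 4) true (nat_lit 8) false (nat_lit 0) true (nat_lit 7) true (nat_lit 9) (.e false (nat_lit 36) (nat_lit 68) (nat_lit 7) (nat_lit 5) (.e false (nat_lit 36) (nat_lit 151) (nat_lit 2) (nat_lit 8) (.e true (nat_lit 72) (nat_lit 155) (nat_lit 2) (nat_lit 8) (.e false (nat_lit 36) (nat_lit 120) (nat_lit 3) (nat_lit 7) (.e false (nat_lit 72) (nat_lit 121) (nat_lit 3) (nat_lit 7) (.e true (nat_lit 36) (nat_lit 124) (nat_lit 3) (nat_lit 7) (.e false (nat_lit 72) (nat_lit 125) (nat_lit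 3) (nat_lit 7) (.e true (nat_lit 36) (nat_lit 117) (nat_lit 3) (nat_lit 7) (.e false (nat_lit 36) (nat_lit 177) (nat_lit 0) (nat_lit 9) (.e true (nat_lit 36) (nat_lit 167) (nat_lit 0) (nat_lit 9) (.e true (nat_lit 36) (nat_lit 168) (nat_lit 0) (nat_lit 9) (.e false (nat_lit 36) (nat_lit 171) (nat_lit 0) (nat_lit 9) (.e true (nat_lit 36) (nat_lit 172) (nat_lit 0) (nat_lit 9) (.e false (nat_lit 36) (nat_lit 152) (nat_lit 2) (nat_lit 8) (.e true (nat_lit 72) (nat_lit 154) (nat_lit 2) (nat_lit 8) (.e false (nat_lit 36) (nat_lit 118) (nat_lit 3) (nat_lit 7) (.e true (nat_lit 36) (nat_lit 170) (nat_lit 0) (nat_lit 9) .nil))))))))))))))))))))))) .leaf))) (nat_lit 65544) (nat_lit 573) (.p (nat_lit 283) (nat_lit 324) (.p (nat_lit 284) (nat_lit 540) (.p (nat_lit 285) (nat_lit 252) (.p (nat_lit 286) (nat_lit 180) (.n (nat_lit 287) (nat_lit 108) (.p (nat_lit 288) (nat_lit 540) (.n (nat_lit 289) (nat_lit 432) (.n (nat_lit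 290) (nat_lit 360) (.n (nat_lit 291) (nat_lit 72) (.n (nat_lit 292) (nat_lit 144) (.p (nat_lit 293) (nat_lit 288) (.n (nat_lit 294) (nat_lit 216) (.n (nat_lit 295) (nat_lit 180) (.n (nat_lit 296) (nat_lit 144) (.n (nat_lit 297) (nat_lit 108) (.p (nat_lit 298) (nat_lit 108) (.n (nat_lit 299) (nat_lit 360) (.n (nat_lit 301) (nat_lit 144) (.p (nat_lit 302) (nat_lit 180) (.p (nat_lit 303) (nat_lit 180) (.p (nat_lit 304) (nat_lit 144) (.n (nat_lit 305) (nat_lit 72) (.n (nat_lit 306) (nat_lit 540) (.p (nat_lit 307) (nat_lit 72) (.n (nat_lit 308) (nat_lit 252) (.p (nat_lit 309) (nat_lit 288) (.n (nat_lit 310) (nat_lit 288) (.p (nat_lit 311) (nat_lit 288) (.p (nat_lit 313) (nat_lit 252) (.p (nat_lit 314) (nat_lit 360) (.p (nat_lit 315) (nat_lit 180) (.p (nat_lit 316) (nat_lit 72) (.p (nat_lit 317) (nat_lit 108) (.p (nat_lit 318) (nat_lit 360) (.p (nat_lit 319) (nat_lit 288) (.p (nat_lit 320) (nat_lit 72) (.n (nat_lit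 321) (nat_lit 36) (.n (nat_lit 322) (nat_lit 36) (.n (nat_lit 324) (nat_lit 288) (.n (nat_lit 325) (nat_lit 360) (.n (nat_lit 326) (nat_lit 360) (.p (nat_lit 327) (nat_lit 432) (.p (nat_lit 328) (nat_lit 36) (.n (nat_lit 329) (nat_lit 432) .z)))))))))))))))))))))))))))))))))))))))))))) (.ct dW4x_c4371 (nat_lit 72) (nat_lit 6) (.s false (nat_lit 1) (nat_lit 8) (nat_lit 3) (nat_lit 2) (nat_lit 7) false (nat_lit 0) true (nat_lit 7) true (nat_lit 6) true (nat_lit 11) true (nat_lit 12) (.s false (nat_lit 1) (nat_lit 8) (nat_lit 7) (nat_lit 2) (nat_lit 3) false (nat_lit 0) true (nat_lit 11) true (nat_lit 6) true (nat_lit 7) true (nat_lit 12) (.s false (nat_lit 1) (nat_lit 9) (nat_lit 0) (nat_lit 8) (nat_lit 3) true (nat_lit 7) true (nat_lit 11) true (nat_lit 5) true (nat_lit 14) true (nat_lit 6) (.s true (nat_lit 1) (nat_lit 20) (nat_lit 1) (nat_lit 3) (nat_lit 3) true (nat_lit 6) true (nat_lit 11) true (nat_lit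 1) true (nat_lit 13) true (nat_lit 11) (.s false (nat_lit 2) (nat_lit 26) (nat_lit 3) (nat_lit 1) (nat_lit 2) true (nat_lit 5) true (nat_lit 12) false (nat_lit 0) true (nat_lit 11) true (nat_lit 13) (.s true (nat_lit 1) (nat_lit 28) (nat_lit 0) (nat_lit 2) (nat_lit 3) true (nat_lit 7) true (nat_lit 11) false (nat_lit 1) true (nat_lit 14) true (nat_lit 12) (.e false (nat_lit 36) (nat_lit 68) (nat_lit 8) (nat_lit 6) (.e true (nat_lit 24) (nat_lit 128) (nat_lit 3) (nat_lit 11) (.e true (nat_lit 48) (nat_lit 129) (nat_lit 3) (nat_lit 11) (.e true (nat_lit 12) (nat_lit 131) (nat_lit 3) (nat_lit 11) (.e false (nat_lit 24) (nat_lit 133) (nat_lit 3) (nat_lit 11) (.e false (nat_lit 36) (nat_lit 134) (nat_lit 3) (nat_lit 11) (.e false (nat_lit 24) (nat_lit 135) (nat_lit 3) (nat_lit 11) (.e true (nat_lit 108) (nat_lit 136) (nat_lit 3) (nat_lit 11) (.e false (nat_lit 108) (nat_lit 140) (nat_lit 3) (nat_lit 11) (.e true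 (nat_lit 144) (nat_lit 141) (nat_lit 3) (nat_lit 11) (.e true (nat_lit 36) (nat_lit 143) (nat_lit 3) (nat_lit 11) dW4x_i81)))))))))))))))))) (.nd (.nd (.nd (.nd .leaf (nat_lit 66560) (nat_lit 165) (.p (nat_lit 121) (nat_lit 36) .z) .df .leaf) (nat_lit 66561) (nat_lit 196) (.p (nat_lit 143) (nat_lit 36) .z) .df .leaf) (nat_lit 66563) (nat_lit 255) (.p (nat_lit 168) (nat_lit 36) .z) .df (.nd .leaf (nat_lit 66564) (nat_lit 350) (.n (nat_lit 189) (nat_lit 96) (.p (nat_lit 190) (nat_lit 48) (.p (nat_lit 191) (nat_lit 36) (.p (nat_lit 192) (nat_lit 6) (.p (nat_lit 193) (nat_lit 138) (.n (nat_lit 194) (nat_lit 18) (.n (nat_lit 195) (nat_lit 30) (.n (nat_lit 196) (nat_lit 42) (.n (nat_lit 197) (nat_lit 66) (.n (nat_lit 198) (nat_lit 144) (.n (nat_lit 199) (nat_lit 144) (.n (nat_lit 200) (nat_lit 30) (.n (nat_lit 201) (nat_lit 6) (.p (nat_lit 202) (nat_lit 66) (.p (nat_lit 203) (nat_lit 114) (.n (nat_lit 204) (nat_lit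 150) (.p (nat_lit 205) (nat_lit 120) (.n (nat_lit 206) (nat_lit 72) (.n (nat_lit 207) (nat_lit 108) (.p (nat_lit 208) (nat_lit 108) (.n (nat_lit 209) (nat_lit 48) (.p (nat_lit 210) (nat_lit 6) (.p (nat_lit 211) (nat_lit 72) (.p (nat_lit 212) (nat_lit 36) (.n (nat_lit 213) (nat_lit 36) (.p (nat_lit 214) (nat_lit 30) (.n (nat_lit 215) (nat_lit 36) (.n (nat_lit 216) (nat_lit 30) (.p (nat_lit 217) (nat_lit 12) (.p (nat_lit 218) (nat_lit 48) (.p (nat_lit 219) (nat_lit 24) (.p (nat_lit 220) (nat_lit 24) (.p (nat_lit 221) (nat_lit 40) (.n (nat_lit 222) (nat_lit 52) (.n (nat_lit 223) (nat_lit 12) (.p (nat_lit 224) (nat_lit 20) (.n (nat_lit 225) (nat_lit 8) (.n (nat_lit 226) (nat_lit 48) (.n (nat_lit 227) (nat_lit 48) (.n (nat_lit 228) (nat_lit 56) (.p (nat_lit 229) (nat_lit 8) (.n (nat_lit 230) (nat_lit 28) (.p (nat_lit 231) (nat_lit 76) (.n (nat_lit 232) (nat_lit 8) (.n (nat_lit 233) (nat_lit 38) (.p (nat_lit 234)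 (nat_lit 26) (.p (nat_lit 235) (nat_lit 26) (.n (nat_lit 236) (nat_lit 10) (.p (nat_lit 237) (nat_lit 34) (.n (nat_lit 238) (nat_lit 14) (.p (nat_lit 239) (nat_lit 60) (.n (nat_lit 240) (nat_lit 12) .z)))))))))))))))))))))))))))))))))))))))))))))))))))) (.ct dW4x_c8466 (nat_lit 72) (nat_lit 11) (.s false (nat_lit 6) (nat_lit 5) (nat_lit 4) (nat_lit 3) (nat_lit 3) true (nat_lit 0) true (nat_lit 12) true (nat_lit 10) true (nat_lit 11) true (nat_lit 12) (.s false (nat_lit 6) (nat_lit 7) (nat_lit 1) (nat_lit 5) (nat_lit 3) true (nat_lit 7) true (nat_lit 12) true (nat_lit 8) true (nat_lit 14) true (nat_lit 10) (.s false (nat_lit 4) (nat_lit 7) (nat_lit 2) (nat_lit 3) (nat_lit 4) true (nat_lit 2) true (nat_lit 11) true (nat_lit 8) true (nat_lit 13) true (nat_lit 12) (.s false (nat_lit 4) (nat_lit 7) (nat_lit 3) (nat_lit 4) (nat_lit 2) true (nat_lit 6) true (nat_lit 13) true (nat_lit 8) true (nat_lit 12) true (nat_lit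 11) (.s false (nat_lit 4) (nat_lit 7) (nat_lit 4) (nat_lit 3) (nat_lit 2) true (nat_lit 2) true (nat_lit 13) true (nat_lit 8) true (nat_lit 11) true (nat_lit 12) (.s false (nat_lit 6) (nat_lit 8) (nat_lit 3) (nat_lit 0) (nat_lit 5) false (nat_lit 0) true (nat_lit 10) true (nat_lit 7) true (nat_lit 12) true (nat_lit 15) (.s false (nat_lit 6) (nat_lit 9) (nat_lit 3) (nat_lit 4) (nat_lit 0) true (nat_lit 8) true (nat_lit 15) true (nat_lit 6) true (nat_lit 12) true (nat_lit 11) dW4x_i14)))))))) .leaf)) (nat_lit 66567) (nat_lit 486) (.p (nat_lit 262) (nat_lit 72) (.n (nat_lit 263) (nat_lit 36) (.n (nat_lit 264) (nat_lit 18) (.n (nat_lit 265) (nat_lit 162) (.n (nat_lit 266) (nat_lit 126) (.p (nat_lit 267) (nat_lit 18) (.p (nat_lit 268) (nat_lit 72) (.p (nat_lit 269) (nat_lit 90) (.n (nat_lit 270) (nat_lit 180) (.n (nat_lit 271) (nat_lit 36) (.n (nat_lit 272) (nat_lit 18) (.p (nat_lit 273) (nat_lit 72) (.p (nat_lit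 274) (nat_lit 108) (.p (nat_lit 275) (nat_lit 54) (.p (nat_lit 276) (nat_lit 90) (.n (nat_lit 277) (nat_lit 54) (.p (nat_lit 278) (nat_lit 72) (.n (nat_lit 279) (nat_lit 72) (.p (nat_lit 280) (nat_lit 36) (.n (nat_lit 281) (nat_lit 18) (.n (nat_lit 282) (nat_lit 36) .z))))))))))))))))))))) (.ct dW4x_c8211 (nat_lit 72) (nat_lit 5) (.s false (nat_lit 2) (nat_lit 9) (nat_lit 0) (nat_lit 7) (nat_lit 3) true (nat_lit 5) true (nat_lit 7) true (nat_lit 4) true (nat_lit 9) true (nat_lit 5) (.s false (nat_lit 1) (nat_lit 10) (nat_lit 3) (nat_lit 5) (nat_lit 0) true (nat_lit 5) true (nat_lit 9) true (nat_lit 3) true (nat_lit 7) true (nat_lit 6) (.s false (nat_lit 1) (nat_lit 10) (nat_lit 7) (nat_lit 0) (nat_lit 2) true (nat_lit 0) true (nat_lit 8) true (nat_lit 3) true (nat_lit 5) true (nat_lit 9) (.s false (nat_lit 1) (nat_lit 16) (nat_lit 2) (nat_lit 3) (nat_lit 3) true (nat_lit 4) true (nat_lit 7) true (nat_lit 1)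 true (nat_lit 8) true (nat_lit 7) (.s false (nat_lit 1) (nat_lit 16) (nat_lit 3) (nat_lit 2) (nat_lit 3) true (nat_lit 3) true (nat_lit 7) true (nat_lit 1) true (nat_lit 7) true (nat_lit 8) (.s false (nat_lit 1) (nat_lit 16) (nat_lit 3) (nat_lit 3) (nat_lit 2) true (nat_lit 4) true (nat_lit 8) true (nat_lit 1) true (nat_lit 7) true (nat_lit 7) dW4x_i56))))))) (.nd (.nd (.nd .leaf (nat_lit 66568) (nat_lit 568) (.n (nat_lit 283) (nat_lit 136) (.p (nat_lit 284) (nat_lit 56) (.n (nat_lit 285) (nat_lit 128) (.n (nat_lit 286) (nat_lit 160) (.p (nat_lit 287) (nat_lit 176) (.n (nat_lit 288) (nat_lit 160) (.p (nat_lit 289) (nat_lit 120) (.n (nat_lit 290) (nat_lit 136) (.p (nat_lit 291) (nat_lit 120) (.n (nat_lit 292) (nat_lit 64) (.n (nat_lit 293) (nat_lit 348) (.p (nat_lit 294) (nat_lit 20) (.n (nat_lit 295) (nat_lit 128) (.p (nat_lit 296) (nat_lit 204) (.p (nat_lit 297) (nat_lit 324) (.n (nat_lit 298) (nat_lit 372)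 (.p (nat_lit 299) (nat_lit 412) (.n (nat_lit 300) (nat_lit 36) (.n (nat_lit 301) (nat_lit 164) (.n (nat_lit 302) (nat_lit 364) (.p (nat_lit 303) (nat_lit 332) (.p (nat_lit 304) (nat_lit 8) (.p (nat_lit 305) (nat_lit 40) (.p (nat_lit 306) (nat_lit 616) (.p (nat_lit 307) (nat_lit 144) (.p (nat_lit 308) (nat_lit 108) (.n (nat_lit 310) (nat_lit 144) (.p (nat_lit 311) (nat_lit 168) (.p (nat_lit 312) (nat_lit 84) (.p (nat_lit 313) (nat_lit 60) (.n (nat_lit 315) (nat_lit 24) (.n (nat_lit 316) (nat_lit 120) (.p (nat_lit 318) (nat_lit 36) (.p (nat_lit 319) (nat_lit 120) (.n (nat_lit 321) (nat_lit 84) (.n (nat_lit 322) (nat_lit 60) (.p (nat_lit 323) (nat_lit 120) (.p (nat_lit 324) (nat_lit 48) (.p (nat_lit 327) (nat_lit 24) (.n (nat_lit 328) (nat_lit 60) (.n (nat_lit 329) (nat_lit 48) .z))))))))))))))))))))))))))))))))))))))))) (.ct dW4x_c4371 (nat_lit 36) (nat_lit 6) (.s true (nat_lit 1) (nat_lit 8) (nat_lit 7) (nat_lit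 2) (nat_lit 3) false (nat_lit 0) true (nat_lit 11) true (nat_lit 6) true (nat_lit 7) true (nat_lit 12) (.s false (nat_lit 1) (nat_lit 9) (nat_lit 7) (nat_lit 1) (nat_lit 3) false (nat_lit 0) true (nat_lit 11) true (nat_lit 5) true (nat_lit 7) true (nat_lit 13) (.s true (nat_lit 1) (nat_lit 26) (nat_lit 1) (nat_lit 3) (nat_lit 2) true (nat_lit 8) true (nat_lit 12) false (nat_lit 0) true (nat_lit 13) true (nat_lit 11) (.s true (nat_lit 1) (nat_lit 26) (nat_lit 2) (nat_lit 3) (nat_lit 1) true (nat_lit 8) true (nat_lit 13) false (nat_lit 0) true (nat_lit 12) true (nat_lit 11) (.s true (nat_lit 2) (nat_lit 26) (nat_lit 3) (nat_lit 1) (nat_lit 2) true (nat_lit 5) true (nat_lit 12) false (nat_lit 0) true (nat_lit 11) true (nat_lit 13) dW4x_i75)))))) .leaf) (nat_lit 67584) (nat_lit 166) (.p (nat_lit 122) (nat_lit 36) .z) .df .leaf) (nat_lit 67585) (nat_lit 206) (.n (nat_lit 126) (nat_lit 24) (.n (nat_lit 127) (nat_lit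 24) (.p (nat_lit 128) (nat_lit 24) (.p (nat_lit 129) (nat_lit 12) (.p (nat_lit 130) (nat_lit 12) (.p (nat_lit 131) (nat_lit 12) (.n (nat_lit 132) (nat_lit 36) (.p (nat_lit 133) (nat_lit 12) (.n (nat_lit 134) (nat_lit 36) (.n (nat_lit 135) (nat_lit 24) (.p (nat_lit 136) (nat_lit 36) (.p (nat_lit 137) (nat_lit 12) (.n (nat_lit 138) (nat_lit 12) (.n (nat_lit 140) (nat_lit 36) (.n (nat_lit 142) (nat_lit 12) (.p (nat_lit 143) (nat_lit 36) (.p (nat_lit 144) (nat_lit 24) (.p (nat_lit 145) (nat_lit 12) (.n (nat_lit 146) (nat_lit 24) (.n (nat_lit 147) (nat_lit 24) (.p (nat_lit 149) (nat_lit 24) (.n (nat_lit 150) (nat_lit 48) .z)))))))))))))))))))))) (.ct dW4x_c4370 (nat_lit 36) (nat_lit 9) (.s false (nat_lit 1) (nat_lit 4) (nat_lit 2) (nat_lit 3) (nat_lit 3) true (nat_lit 1) true (nat_lit 7) true (nat_lit 6) true (nat_lit 8) true (nat_lit 7) (.s false (nat_lit 1) (nat_lit 7) (nat_lit 2) (nat_lit 1) (nat_lit 3) true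 (nat_lit 1) true (nat_lit 7) true (nat_lit 3) true (nat_lit 8) true (nat_lit 9) (.s false (nat_lit 1) (nat_lit 7) (nat_lit 2) (nat_lit 3) (nat_lit 1) true (nat_lit 4) true (nat_lit 9) true (nat_lit 3) true (nat_lit 8) true (nat_lit 7) (.s true (nat_lit 1) (nat_lit 9) (nat_lit 0) (nat_lit 1) (nat_lit 3) true (nat_lit 3) true (nat_lit 7) true (nat_lit 1) true (nat_lit 10) true (nat_lit 9) (.s true (nat_lit 1) (nat_lit 9) (nat_lit 0) (nat_lit 3) (nat_lit 1) true (nat_lit 6) true (nat_lit 9) true (nat_lit 1) true (nat_lit 10) true (nat_lit 7) (.e false (nat_lit 72) (nat_lit 45) (nat_lit 3) (nat_lit 7) (.e true (nat_lit 72) (nat_lit 30) (nat_lit 4) (nat_lit 6) (.e true (nat_lit 36) (nat_lit 59) (nat_lit 2) (nat_lit 8) (.e false (nat_lit 36) (nat_lit 60) (nat_lit 2) (nat_lit 8) (.e true (nat_lit 36) (nat_lit 61) (nat_lit 2) (nat_lit 8) (.e false (nat_lit 36) (nat_lit 63) (nat_lit 2) (nat_lit 8) (.e false (nat_lit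 72) (nat_lit 52) (nat_lit 3) (nat_lit 7) (.e true (nat_lit 36) (nat_lit 23) (nat_lit 7) (nat_lit 3) (.e true (nat_lit 36) (nat_lit 67) (nat_lit 1) (nat_lit 9) (.e true (nat_lit 36) (nat_lit 26) (nat_lit 6) (nat_lit 4) (.e false (nat_lit 36) (nat_lit 65) (nat_lit 1) (nat_lit 9) (.e true (nat_lit 72) (nat_lit 49) (nat_lit 3) (nat_lit 7) (.e false (nat_lit 36) (nat_lit 69) (nat_lit 1) (nat_lit 9) (.e true (nat_lit 36) (nat_lit 47) (nat_lit 3) (nat_lit 7) (.e false (nat_lit 36) (nat_lit 54) (nat_lit 3) (nat_lit 7) .nil))))))))))))))))))))) (.nd .leaf (nat_lit 67587) (nat_lit 256) (.p (nat_lit 169) (nat_lit 36) .z) .df .leaf)))) (nat_lit 67588) (nat_lit 378) (.p (nat_lit 189) (nat_lit 51) (.n (nat_lit 190) (nat_lit 48) (.n (nat_lit 191) (nat_lit 6) (.p (nat_lit 192) (nat_lit 42) (.n (nat_lit 193) (nat_lit 84) (.p (nat_lit 194) (nat_lit 24) (.p (nat_lit 196) (nat_lit 114) (.n (nat_lit 197) (nat_lit 36) (.p (nat_lit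 198) (nat_lit 42) (.p (nat_lit 199) (nat_lit 27) (.n (nat_lit 200) (nat_lit 129) (.p (nat_lit 201) (nat_lit 93) (.n (nat_lit 202) (nat_lit 36) (.p (nat_lit 204) (nat_lit 36) (.n (nat_lit 205) (nat_lit 105) (.p (nat_lit 206) (nat_lit 21) (.p (nat_lit 207) (nat_lit 51) (.n (nat_lit 208) (nat_lit 39) (.n (nat_lit 209) (nat_lit 3) (.n (nat_lit 210) (nat_lit 33) (.n (nat_lit 211) (nat_lit 105) (.p (nat_lit 212) (nat_lit 36) (.n (nat_lit 213) (nat_lit 36) (.p (nat_lit 214) (nat_lit 9) (.n (nat_lit 215) (nat_lit 36) (.n (nat_lit 216) (nat_lit 9) (.p (nat_lit 217) (nat_lit 9) (.p (nat_lit 218) (nat_lit 45) (.p (nat_lit 219) (nat_lit 27) (.n (nat_lit 220) (nat_lit 18) (.p (nat_lit 221) (nat_lit 141) (.n (nat_lit 222) (nat_lit 150) (.n (nat_lit 223) (nat_lit 90) (.n (nat_lit 224) (nat_lit 42) (.p (nat_lit 225) (nat_lit 96) (.n (nat_lit 226) (nat_lit 9) (.n (nat_lit 227) (nat_lit 9) (.p (nat_lit 228) (nat_lit 6) (.n (nat_lit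 229) (nat_lit 96) (.n (nat_lit 230) (nat_lit 15) (.p (nat_lit 231) (nat_lit 87) (.n (nat_lit 232) (nat_lit 57) (.n (nat_lit 233) (nat_lit 39) (.n (nat_lit 234) (nat_lit 15) (.p (nat_lit 235) (nat_lit 84) (.p (nat_lit 236) (nat_lit 30) (.n (nat_lit 237) (nat_lit 3) (.n (nat_lit 238) (nat_lit 39) (.p (nat_lit 239) (nat_lit 45) (.n (nat_lit 240) (nat_lit 18) .z)))))))))))))))))))))))))))))))))))))))))))))))))) (.ct dW4x_c8466 (nat_lit 36) (nat_lit 11) (.s true (nat_lit 1) (nat_lit 5) (nat_lit 4) (nat_lit 3) (nat_lit 3) true (nat_lit 0) true (nat_lit 12) true (nat_lit 10) true (nat_lit 11) true (nat_lit 12) (.s false (nat_lit 1) (nat_lit 17) (nat_lit 2) (nat_lit 0) (nat_lit 3) true (nat_lit 6) true (nat_lit 12) true (nat_lit 0) true (nat_lit 13) true (nat_lit 15) (.e true (nat_lit 12) (nat_lit 86) (nat_lit 3) (nat_lit 12) (.e false (nat_lit 12) (nat_lit 87) (nat_lit 3) (nat_lit 12) dW4x_i47))))) (.nd (.nd (.nd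 (.nd (.nd .leaf (nat_lit 67591) (nat_lit 496) (.n (nat_lit 267) (nat_lit 36) (.p (nat_lit 275) (nat_lit 36) (.p (nat_lit 276) (nat_lit 36) (.n (nat_lit 279) (nat_lit 36) (.p (nat_lit 280) (nat_lit 72) .z))))) (.ct dW4x_c8211 (nat_lit 36) (nat_lit 5) (.s true (nat_lit 1) (nat_lit 22) (nat_lit 3) (nat_lit 3) (nat_lit 0) true (nat_lit 5) true (nat_lit 9) true (nat_lit 0) true (nat_lit 7) true (nat_lit 7) (.s true (nat_lit 1) (nat_lit 27) (nat_lit 3) (nat_lit 2) (nat_lit 0) true (nat_lit 5) true (nat_lit 9) false (nat_lit 0) true (nat_lit 7) true (nat_lit 8) (.e true (nat_lit 36) (nat_lit 169) (nat_lit 0) (nat_lit 9) (.e false (nat_lit 72) (nat_lit 117) (nat_lit 3) (nat_lit 7) (.e true (nat_lit 108) (nat_lit 120) (nat_lit 3) (nat_lit 7) (.e true (nat_lit 36) (nat_lit 121) (nat_lit 3) (nat_lit 7) (.e false (nat_lit 72) (nat_lit 124) (nat_lit 3) (nat_lit 7) (.e true (nat_lit 144) (nat_lit 125) (nat_lit 3) (nat_lit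 7) (.e false (nat_lit 36) (nat_lit 68) (nat_lit 7) (nat_lit 5) (.e true (nat_lit 36) (nat_lit 173) (nat_lit 0) (nat_lit 9) (.e true (nat_lit 36) (nat_lit 119) (nat_lit 3) (nat_lit 7) (.e false (nat_lit 72) (nat_lit 123) (nat_lit 3) (nat_lit 7) (.e false (nat_lit 36) (nat_lit 152) (nat_lit 2) (nat_lit 8) .nil)))))))))))))) .leaf) (nat_lit 67592) (nat_lit 587) (.n (nat_lit 283) (nat_lit 140) (.n (nat_lit 284) (nat_lit 44) (.n (nat_lit 285) (nat_lit 172) (.n (nat_lit 286) (nat_lit 152) (.p (nat_lit 287) (nat_lit 124) (.n (nat_lit 288) (nat_lit 224) (.p (nat_lit 289) (nat_lit 204) (.n (nat_lit 290) (nat_lit 32) (.p (nat_lit 291) (nat_lit 132) (.p (nat_lit 292) (nat_lit 4) (.n (nat_lit 293) (nat_lit 336) (.p (nat_lit 294) (nat_lit 64) (.n (nat_lit 295) (nat_lit 64) (.p (nat_lit 296) (nat_lit 192) (.p (nat_lit 297) (nat_lit 288) (.n (nat_lit 298) (nat_lit 312) (.p (nat_lit 299) (nat_lit 368) (.n (nat_lit 300) (nat_lit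 36) (.n (nat_lit 301) (nat_lit 100) (.n (nat_lit 302) (nat_lit 308) (.p (nat_lit 303) (nat_lit 220) (.p (nat_lit 304) (nat_lit 4) (.p (nat_lit 305) (nat_lit 20) (.p (nat_lit 306) (nat_lit 596) (.p (nat_lit 307) (nat_lit 72) (.p (nat_lit 308) (nat_lit 144) (.n (nat_lit 309) (nat_lit 72) (.n (nat_lit 310) (nat_lit 36) (.p (nat_lit 311) (nat_lit 48) (.p (nat_lit 312) (nat_lit 60) (.n (nat_lit 313) (nat_lit 24) (.n (nat_lit 314) (nat_lit 72) (.n (nat_lit 315) (nat_lit 84) (.n (nat_lit 316) (nat_lit 96) (.n (nat_lit 317) (nat_lit 36) (.n (nat_lit 318) (nat_lit 36) (.p (nat_lit 319) (nat_lit 24) (.n (nat_lit 321) (nat_lit 60) (.n (nat_lit 322) (nat_lit 48) (.p (nat_lit 323) (nat_lit 96) (.p (nat_lit 324) (nat_lit 96) (.p (nat_lit 325) (nat_lit 72) (.p (nat_lit 326) (nat_lit 72) (.n (nat_lit 327) (nat_lit 60) (.n (nat_lit 328) (nat_lit 12) (.p (nat_lit 329) (nat_lit 12) .z))))))))))))))))))))))))))))))))))))))))))))))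 (.ct dW4x_c4371 (nat_lit 36) (nat_lit 6) (.s true (nat_lit 1) (nat_lit 8) (nat_lit 2) (nat_lit 7) (nat_lit 3) true (nat_lit 5) true (nat_lit 11) true (nat_lit 6) true (nat_lit 12) true (nat_lit 7) (.s true (nat_lit 1) (nat_lit 9) (nat_lit 0) (nat_lit 3) (nat_lit 8) true (nat_lit 2) true (nat_lit 6) true (nat_lit 5) true (nat_lit 14) true (nat_lit 11) (.s true (nat_lit 1) (nat_lit 19) (nat_lit 2) (nat_lit 3) (nat_lit 3) true (nat_lit 5) true (nat_lit 11) true (nat_lit 2) true (nat_lit 12) true (nat_lit 11) (.s false (nat_lit 1) (nat_lit 20) (nat_lit 1) (nat_lit 3) (nat_lit 3) true (nat_lit 6) true (nat_lit 11) true (nat_lit 1) true (nat_lit 13) true (nat_lit 11) (.s false (nat_lit 1) (nat_lit 28) (nat_lit 0) (nat_lit 2) (nat_lit 3) true (nat_lit 7) true (nat_lit 11) false (nat_lit 1) true (nat_lit 14) true (nat_lit 12) (.e true (nat_lit 24) (nat_lit 133) (nat_lit 3) (nat_lit 11) (.e false (nat_lit 12) (nat_lit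 137) (nat_lit 3) (nat_lit 11) (.e false (nat_lit 60) (nat_lit 142) (nat_lit 3) (nat_lit 11) (.e true (nat_lit 24) (nat_lit 145) (nat_lit 3) (nat_lit 11) dW4x_i91)))))))))) .leaf) (nat_lit 68608) (nat_lit 167) (.p (nat_lit 123) (nat_lit 36) .z) .df (.nd .leaf (nat_lit 68609) (nat_lit 197) (.p (nat_lit 144) (nat_lit 36) .z) .df .leaf)) (nat_lit 68611) (nat_lit 257) (.p (nat_lit 170) (nat_lit 36) .z) .df (.nd (.nd (.nd .leaf (nat_lit 68612) (nat_lit 372) (.p (nat_lit 189) (nat_lit 108) (.n (nat_lit 190) (nat_lit 54) (.n (nat_lit 191) (nat_lit 42) (.p (nat_lit 192) (nat_lit 30) (.n (nat_lit 193) (nat_lit 162) (.p (nat_lit 194) (nat_lit 42) (.p (nat_lit 195) (nat_lit 24) (.p (nat_lit 196) (nat_lit 108) (.p (nat_lit 197) (nat_lit 24) (.p (nat_lit 198) (nat_lit 132) (.p (nat_lit 199) (nat_lit 180) (.n (nat_lit 200) (nat_lit 60) (.p (nat_lit 201) (nat_lit 60) (.n (nat_lit 202) (nat_lit 96) (.n (nat_lit 203) (nat_lit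 102) (.p (nat_lit 204) (nat_lit 156) (.n (nat_lit 205) (nat_lit 174) (.p (nat_lit 206) (nat_lit 66) (.p (nat_lit 207) (nat_lit 150) (.n (nat_lit 208) (nat_lit 138) (.p (nat_lit 209) (nat_lit 30) (.n (nat_lit 210) (nat_lit 18) (.n (nat_lit 211) (nat_lit 150) (.n (nat_lit 214) (nat_lit 24) (.p (nat_lit 216) (nat_lit 6) (.p (nat_lit 217) (nat_lit 12) (.n (nat_lit 218) (nat_lit 24) (.p (nat_lit 219) (nat_lit 24) (.n (nat_lit 220) (nat_lit 12) (.p (nat_lit 221) (nat_lit 22) (.n (nat_lit 222) (nat_lit 52) (.n (nat_lit 223) (nat_lit 12) (.n (nat_lit 224) (nat_lit 52) (.p (nat_lit 225) (nat_lit 64) (.p (nat_lit 226) (nat_lit 42) (.p (nat_lit 227) (nat_lit 42) (.p (nat_lit 228) (nat_lit 52) (.n (nat_lit 229) (nat_lit 64) (.p (nat_lit 230) (nat_lit 8) (.p (nat_lit 231) (nat_lit 4) (.n (nat_lit 232) (nat_lit 44) (.p (nat_lit 233) (nat_lit 16) (.n (nat_lit 234) (nat_lit 28) (.p (nat_lit 235) (nat_lit 26) (.p (nat_lit 236)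 (nat_lit 8) (.n (nat_lit 237) (nat_lit 38) (.n (nat_lit 238) (nat_lit 14) (.n (nat_lit 239) (nat_lit 30) (.n (nat_lit 240) (nat_lit 12) .z))))))))))))))))))))))))))))))))))))))))))))))))) (.ct dW4x_c8466 (nat_lit 36) (nat_lit 11) (.s false (nat_lit 1) (nat_lit 5) (nat_lit 4) (nat_lit 3) (nat_lit 3) true (nat_lit 0) true (nat_lit 12) true (nat_lit 10) true (nat_lit 11) true (nat_lit 12) (.s false (nat_lit 1) (nat_lit 9) (nat_lit 3) (nat_lit 4) (nat_lit 0) true (nat_lit 8) true (nat_lit 15) true (nat_lit 6) true (nat_lit 12) true (nat_lit 11) (.s true (nat_lit 1) (nat_lit 17) (nat_lit 2) (nat_lit 0) (nat_lit 3) true (nat_lit 6) true (nat_lit 12) true (nat_lit 0) true (nat_lit 13) true (nat_lit 15) (.e true (nat_lit 36) (nat_lit 86) (nat_lit 3) (nat_lit 12) (.e false (nat_lit 36) (nat_lit 88) (nat_lit 3) (nat_lit 12) (.e false (nat_lit 36) (nat_lit 58) (nat_lit 5) (nat_lit 10) (.e true (nat_lit 36) (nat_lit 65)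 (nat_lit 4) (nat_lit 11) (.e false (nat_lit 36) (nat_lit 69) (nat_lit 4) (nat_lit 11) (.e true (nat_lit 36) (nat_lit 89) (nat_lit 3) (nat_lit 12) (.e false (nat_lit 36) (nat_lit 90) (nat_lit 3) (nat_lit 12) (.e false (nat_lit 36) (nat_lit 91) (nat_lit 3) (nat_lit 12) (.e true (nat_lit 36) (nat_lit 46) (nat_lit 7) (nat_lit 8) (.e true (nat_lit 36) (nat_lit 50) (nat_lit 7) (nat_lit 8) dW4x_i41)))))))))))))) .leaf) (nat_lit 68615) (nat_lit 491) (.p (nat_lit 262) (nat_lit 1080) (.n (nat_lit 263) (nat_lit 252) (.n (nat_lit 264) (nat_lit 414) (.n (nat_lit 265) (nat_lit 1926) (.n (nat_lit 266) (nat_lit 990) (.p (nat_lit 267) (nat_lit 486) (.p (nat_lit 268) (nat_lit 1044) (.p (nat_lit 269) (nat_lit 918) (.n (nat_lit 270) (nat_lit 2412) (.n (nat_lit 271) (nat_lit 396) (.p (nat_lit 272) (nat_lit 90) (.p (nat_lit 273) (nat_lit 648) (.p (nat_lit 274) (nat_lit 900) (.n (nat_lit 275) (nat_lit 342) (.p (nat_lit 276) (nat_lit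 162) (.n (nat_lit 277) (nat_lit 738) (.p (nat_lit 278) (nat_lit 756) (.n (nat_lit 279) (nat_lit 36) (.n (nat_lit 280) (nat_lit 684) (.n (nat_lit 281) (nat_lit 234) (.n (nat_lit 282) (nat_lit 612) .z))))))))))))))))))))) (.ct dW4x_c8211 (nat_lit 72) (nat_lit 5) (.s false (nat_lit 1) (nat_lit 7) (nat_lit 2) (nat_lit 3) (nat_lit 7) true (nat_lit 0) true (nat_lit 5) true (nat_lit 5) true (nat_lit 8) true (nat_lit 7) (.s true (nat_lit 1) (nat_lit 7) (nat_lit 3) (nat_lit 2) (nat_lit 7) false (nat_lit 0) true (nat_lit 5) true (nat_lit 5) true (nat_lit 7) true (nat_lit 8) (.s true (nat_lit 1) (nat_lit 20) (nat_lit 0) (nat_lit 3) (nat_lit 3) true (nat_lit 5) true (nat_lit 7) true (nat_lit 0) true (nat_lit 9) true (nat_lit 7) (.s true (nat_lit 1) (nat_lit 26) (nat_lit 0) (nat_lit 2) (nat_lit 3) true (nat_lit 5) true (nat_lit 7) false (nat_lit 0) true (nat_lit 9) true (nat_lit 8) (.e false (nat_lit 108) (nat_lit 65) (nat_lit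 7) (nat_lit 5) (.e false (nat_lit 36) (nat_lit 64) (nat_lit 7) (nat_lit 5) (.e true (nat_lit 72) (nat_lit 68) (nat_lit 7) (nat_lit 5) (.e false (nat_lit 72) (nat_lit 69) (nat_lit 7) (nat_lit 5) (.e false (nat_lit 36) (nat_lit 151) (nat_lit 2) (nat_lit 8) (.e true (nat_lit 108) (nat_lit 115) (nat_lit 3) (nat_lit 7) (.e false (nat_lit 72) (nat_lit 116) (nat_lit 3) (nat_lit 7) (.e false (nat_lit 72) (nat_lit 120) (nat_lit 3) (nat_lit 7) (.e false (nat_lit 36) (nat_lit 121) (nat_lit 3) (nat_lit 7) (.e false (nat_lit 72) (nat_lit 122) (nat_lit 3) (nat_lit 7) (.e true (nat_lit 36) (nat_lit 123) (nat_lit 3) (nat_lit 7) (.e true (nat_lit 108) (nat_lit 124) (nat_lit 3) (nat_lit 7) (.e false (nat_lit 144) (nat_lit 125) (nat_lit 3) (nat_lit 7) (.e false (nat_lit 36) (nat_lit 119) (nat_lit 3) (nat_lit 7) (.e false (nat_lit 36) (nat_lit 154) (nat_lit 2) (nat_lit 8) (.e true (nat_lit 36) (nat_lit 152) (nat_lit 2) (nat_lit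 8) (.e false (nat_lit 36) (nat_lit 176) (nat_lit 0) (nat_lit 9) (.e true (nat_lit 36) (nat_lit 177) (nat_lit 0) (nat_lit 9) .nil))))))))))))))))))))))) .leaf) (nat_lit 68616) (nat_lit 602) (.p (nat_lit 283) (nat_lit 40) (.n (nat_lit 284) (nat_lit 80) (.p (nat_lit 285) (nat_lit 8) (.p (nat_lit 286) (nat_lit 64) (.n (nat_lit 287) (nat_lit 92) (.p (nat_lit 288) (nat_lit 28) (.n (nat_lit 289) (nat_lit 12) (.p (nat_lit 290) (nat_lit 112) (.n (nat_lit 291) (nat_lit 48) (.p (nat_lit 292) (nat_lit 40) (.p (nat_lit 293) (nat_lit 132) (.n (nat_lit 294) (nat_lit 8) (.p (nat_lit 295) (nat_lit 80) (.n (nat_lit 296) (nat_lit 96) (.n (nat_lit 297) (nat_lit 144) (.p (nat_lit 298) (nat_lit 156) (.n (nat_lit 299) (nat_lit 172) (.p (nat_lit 301) (nat_lit 80) (.p (nat_lit 302) (nat_lit 160) (.n (nat_lit 303) (nat_lit 176) (.p (nat_lit 304) (nat_lit 4) (.n (nat_lit 305) (nat_lit 16) (.n (nat_lit 306) (nat_lit 232) (.n (nat_lit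 307) (nat_lit 36) (.p (nat_lit 308) (nat_lit 36) (.n (nat_lit 309) (nat_lit 72) (.p (nat_lit 310) (nat_lit 72) (.n (nat_lit 311) (nat_lit 96) (.n (nat_lit 312) (nat_lit 12) (.n (nat_lit 313) (nat_lit 60) (.n (nat_lit 314) (nat_lit 36) (.n (nat_lit 315) (nat_lit 48) (.p (nat_lit 316) (nat_lit 12) (.n (nat_lit 318) (nat_lit 36) (.n (nat_lit 319) (nat_lit 84) (.p (nat_lit 321) (nat_lit 48) (.p (nat_lit 322) (nat_lit 24) (.n (nat_lit 323) (nat_lit 84) (.p (nat_lit 324) (nat_lit 24) (.p (nat_lit 325) (nat_lit 36) (.p (nat_lit 326) (nat_lit 36) (.n (nat_lit 327) (nat_lit 60) (.p (nat_lit 328) (nat_lit 24) (.p (nat_lit 329) (nat_lit 48) .z)))))))))))))))))))))))))))))))))))))))))))) (.ct dW4x_c4371 (nat_lit 36) (nat_lit 6) (.s true (nat_lit 1) (nat_lit 23) (nat_lit 0) (nat_lit 3) (nat_lit 3) true (nat_lit 7) true (nat_lit 11) true (nat_lit 0) true (nat_lit 14) true (nat_lit 11) (.s true (nat_lit 1) (nat_lit 26) (nat_lit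 1) (nat_lit 2) (nat_lit 3) true (nat_lit 6) true (nat_lit 11) false (nat_lit 0) true (nat_lit 13) true (nat_lit 12) (.e true (nat_lit 36) (nat_lit 70) (nat_lit 7) (nat_lit 7) (.e true (nat_lit 36) (nat_lit 135) (nat_lit 3) (nat_lit 11) (.e false (nat_lit 36) (nat_lit 187) (nat_lit 0) (nat_lit 14) (.e true (nat_lit 36) (nat_lit 147) (nat_lit 3) (nat_lit 11) (.e true (nat_lit 36) (nat_lit 139) (nat_lit 3) (nat_lit 11) (.e true (nat_lit 36) (nat_lit 177) (nat_lit 1) (nat_lit 13) (.e false (nat_lit 36) (nat_lit 156) (nat_lit 2) (nat_lit 12) (.e false (nat_lit 36) (nat_lit 157) (nat_lit 2) (nat_lit 12) (.e true (nat_lit 36) (nat_lit 158) (nat_lit 2) (nat_lit 12) (.e true (nat_lit 36) (nat_lit 159) (nat_lit 2) (nat_lit 12) (.e false (nat_lit 36) (nat_lit 162) (nat_lit 2) (nat_lit 12) (.e true (nat_lit 36) (nat_lit 165) (nat_lit 2) (nat_lit 12) (.e true (nat_lit 36) (nat_lit 166) (nat_lit 2) (nat_lit 12) .nil))))))))))))))))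 (.nd .leaf (nat_lit 69632) (nat_lit 168) (.p (nat_lit 124) (nat_lit 36) .z) .df .leaf))) (nat_lit 69633) (nat_lit 198) (.p (nat_lit 145) (nat_lit 36) .z) .df (.nd (.nd (.nd (.nd .leaf (nat_lit 69635) (nat_lit 258) (.p (nat_lit 171) (nat_lit 36) .z) .df .leaf) (nat_lit 69636) (nat_lit 346) (.p (nat_lit 189) (nat_lit 72) (.n (nat_lit 191) (nat_lit 48) (.p (nat_lit 192) (nat_lit 24) (.n (nat_lit 193) (nat_lit 72) (.n (nat_lit 194) (nat_lit 24) (.p (nat_lit 195) (nat_lit 48) (.p (nat_lit 197) (nat_lit 48) (.p (nat_lit 198) (nat_lit 48) (.p (nat_lit 199) (nat_lit 72) (.p (nat_lit 200) (nat_lit 24) (.n (nat_lit 201) (nat_lit 24) (.n (nat_lit 202) (nat_lit 48) (.n (nat_lit 203) (nat_lit 24) (.p (nat_lit 204) (nat_lit 96) (.n (nat_lit 205) (nat_lit 24) (.p (nat_lit 206) (nat_lit 24) (.p (nat_lit 207) (nat_lit 12) (.n (nat_lit 208) (nat_lit 24) (.p (nat_lit 209) (nat_lit 24) (.p (nat_lit 211) (nat_lit 24) (.n (nat_lit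 214) (nat_lit 12) (.n (nat_lit 216) (nat_lit 24) (.p (nat_lit 217) (nat_lit 24) (.p (nat_lit 218) (nat_lit 24) (.n (nat_lit 219) (nat_lit 24) (.p (nat_lit 220) (nat_lit 48) (.p (nat_lit 221) (nat_lit 8) (.n (nat_lit 222) (nat_lit 32) (.n (nat_lit 223) (nat_lit 24) (.p (nat_lit 224) (nat_lit 40) (.n (nat_lit 225) (nat_lit 16) (.n (nat_lit 226) (nat_lit 24) (.n (nat_lit 227) (nat_lit 24) (.n (nat_lit 228) (nat_lit 40) (.p (nat_lit 229) (nat_lit 16) (.n (nat_lit 230) (nat_lit 56) (.p (nat_lit 231) (nat_lit 8) (.n (nat_lit 232) (nat_lit 16) (.n (nat_lit 233) (nat_lit 40) (.p (nat_lit 234) (nat_lit 16) (.p (nat_lit 235) (nat_lit 16) (.p (nat_lit 236) (nat_lit 16) (.p (nat_lit 237) (nat_lit 32) (.p (nat_lit 238) (nat_lit 8) (.n (nat_lit 239) (nat_lit 24) (.p (nat_lit 240) (nat_lit 48) .z)))))))))))))))))))))))))))))))))))))))))))))) (.ct dW4x_c8466 (nat_lit 108) (nat_lit 11) (.s true (nat_lit 2) (nat_lit 5) (nat_lit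 4) (nat_lit 3) (nat_lit 3) true (nat_lit 0) true (nat_lit 12) true (nat_lit 10) true (nat_lit 11) true (nat_lit 12) (.s true (nat_lit 2) (nat_lit 7) (nat_lit 1) (nat_lit 5) (nat_lit 3) true (nat_lit 7) true (nat_lit 12) true (nat_lit 8) true (nat_lit 14) true (nat_lit 10) (.s true (nat_lit 2) (nat_lit 7) (nat_lit 2) (nat_lit 3) (nat_lit 4) true (nat_lit 2) true (nat_lit 11) true (nat_lit 8) true (nat_lit 13) true (nat_lit 12) (.s true (nat_lit 2) (nat_lit 8) (nat_lit 3) (nat_lit 0) (nat_lit 5) false (nat_lit 0) true (nat_lit 10) true (nat_lit 7) true (nat_lit 12) true (nat_lit 15) (.s true (nat_lit 2) (nat_lit 9) (nat_lit 3) (nat_lit 4) (nat_lit 0) true (nat_lit 8) true (nat_lit 15) true (nat_lit 6) true (nat_lit 12) true (nat_lit 11) (.s false (nat_lit 2) (nat_lit 9) (nat_lit 8) (nat_lit 0) (nat_lit 0) true (nat_lit 0) true (nat_lit 15) true (nat_lit 6) true (nat_lit 7) true (nat_lit 15) (.s true (nat_lit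 2) (nat_lit 10) (nat_lit 0) (nat_lit 0) (nat_lit 6) true (nat_lit 2) true (nat_lit 9) true (nat_lit 5) true (nat_lit 15) true (nat_lit 15) (.s true (nat_lit 1) (nat_lit 10) (nat_lit 1) (nat_lit 5) (nat_lit 0) true (nat_lit 11) true (nat_lit 15) true (nat_lit 5) true (nat_lit 14) true (nat_lit 10) (.s true (nat_lit 1) (nat_lit 10) (nat_lit 5) (nat_lit 1) (nat_lit 0) true (nat_lit 3) true (nat_lit 15) true (nat_lit 5) true (nat_lit 10) true (nat_lit 14) (.s true (nat_lit 2) (nat_lit 13) (nat_lit 0) (nat_lit 3) (nat_lit 3) true (nat_lit 8) true (nat_lit 12) true (nat_lit 2) true (nat_lit 15) true (nat_lit 12) (.s false (nat_lit 2) (nat_lit 13) (nat_lit 3) (nat_lit 3) (nat_lit 0) true (nat_lit 8) true (nat_lit 15) true (nat_lit 2) true (nat_lit 12) true (nat_lit 12) (.s false (nat_lit 2) (nat_lit 19) (nat_lit 0) (nat_lit 2) (nat_lit 3) true (nat_lit 8) true (nat_lit 12) true (nat_lit 0) true (nat_lit 15) true (nat_lit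 13) (.s false (nat_lit 2) (nat_lit 17) (nat_lit 2) (nat_lit 0) (nat_lit 3) true (nat_lit 6) true (nat_lit 12) true (nat_lit 0) true (nat_lit 13) true (nat_lit 15) (.s false (nat_lit 2) (nat_lit 19) (nat_lit 2) (nat_lit 0) (nat_lit 3) true (nat_lit 6) true (nat_lit 12) true (nat_lit 0) true (nat_lit 13) true (nat_lit 15) (.s true (nat_lit 2) (nat_lit 19) (nat_lit 3) (nat_lit 2) (nat_lit 0) true (nat_lit 8) true (nat_lit 15) true (nat_lit 0) true (nat_lit 12) true (nat_lit 13) (.s false (nat_lit 2) (nat_lit 20) (nat_lit 1) (nat_lit 3) (nat_lit 0) true (nat_lit 11) true (nat_lit 15) false (nat_lit 0) true (nat_lit 14) true (nat_lit 12) dW4x_i2))))))))))))))))) .leaf) (nat_lit 69639) (nat_lit 484) (.n (nat_lit 262) (nat_lit 72) (.p (nat_lit 264) (nat_lit 36) (.p (nat_lit 265) (nat_lit 108) (.p (nat_lit 266) (nat_lit 36) (.n (nat_lit 267) (nat_lit 36) (.n (nat_lit 268) (nat_lit 72) (.n (nat_lit 269) (nat_lit 72)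 (.p (nat_lit 270) (nat_lit 144) (.n (nat_lit 272) (nat_lit 36) (.p (nat_lit 275) (nat_lit 36) (.p (nat_lit 276) (nat_lit 36) (.p (nat_lit 277) (nat_lit 36) (.n (nat_lit 279) (nat_lit 36) (.p (nat_lit 280) (nat_lit 72) (.p (nat_lit 281) (nat_lit 36) .z))))))))))))))) (.ct dW4x_c8211 (nat_lit 36) (nat_lit 5) (.s false (nat_lit 1) (nat_lit 9) (nat_lit 0) (nat_lit 7) (nat_lit 3) true (nat_lit 5) true (nat_lit 7) true (nat_lit 4) true (nat_lit 9) true (nat_lit 5) (.s false (nat_lit 1) (nat_lit 9) (nat_lit 7) (nat_lit 0) (nat_lit 3) false (nat_lit 0) true (nat_lit 7) true (nat_lit 4) true (nat_lit 5) true (nat_lit 9) (.s true (nat_lit 1) (nat_lit 10) (nat_lit 9) (nat_lit 0) (nat_lit 0) true (nat_lit 0) true (nat_lit 9) true (nat_lit 3) true (nat_lit 4) true (nat_lit 9) (.s true (nat_lit 1) (nat_lit 22) (nat_lit 3) (nat_lit 0) (nat_lit 3) true (nat_lit 3) true (nat_lit 7) true (nat_lit 0) true (nat_lit 7) true (nat_lit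 9) (.s false (nat_lit 1) (nat_lit 27) (nat_lit 3) (nat_lit 2) (nat_lit 0) true (nat_lit 5) true (nat_lit 9) false (nat_lit 0) true (nat_lit 7) true (nat_lit 8) (.s true (nat_lit 1) (nat_lit 30) (nat_lit 0) (nat_lit 0) (nat_lit 3) true (nat_lit 5) true (nat_lit 7) false (nat_lit 1) true (nat_lit 9) true (nat_lit 9) (.e true (nat_lit 72) (nat_lit 117) (nat_lit 3) (nat_lit 7) (.e false (nat_lit 108) (nat_lit 120) (nat_lit 3) (nat_lit 7) (.e false (nat_lit 36) (nat_lit 121) (nat_lit 3) (nat_lit 7) (.e true (nat_lit 72) (nat_lit 124) (nat_lit 3) (nat_lit 7) (.e false (nat_lit 144) (nat_lit 125) (nat_lit 3) (nat_lit 7) (.e false (nat_lit 36) (nat_lit 168) (nat_lit 0) (nat_lit 9) (.e false (nat_lit 36) (nat_lit 173) (nat_lit 0) (nat_lit 9) (.e false (nat_lit 36) (nat_lit 169) (nat_lit 0) (nat_lit 9) (.e false (nat_lit 72) (nat_lit 172) (nat_lit 0) (nat_lit 9) (.e false (nat_lit 36) (nat_lit 167) (nat_lit 0) (nat_lit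 9) (.e true (nat_lit 36) (nat_lit 171) (nat_lit 0) (nat_lit 9) (.e true (nat_lit 36) (nat_lit 122) (nat_lit 3) (nat_lit 7) (.e false (nat_lit 36) (nat_lit 119) (nat_lit 3) (nat_lit 7) (.e true (nat_lit 72) (nat_lit 123) (nat_lit 3) (nat_lit 7) (.e true (nat_lit 36) (nat_lit 152) (nat_lit 2) (nat_lit 8) .nil)))))))))))))))))))))) (.nd .leaf (nat_lit 69640) (nat_lit 567) (.p (nat_lit 283) (nat_lit 244) (.p (nat_lit 284) (nat_lit 520) (.p (nat_lit 285) (nat_lit 128) (.p (nat_lit 286) (nat_lit 52) (.p (nat_lit 287) (nat_lit 4) (.p (nat_lit 288) (nat_lit 376) (.n (nat_lit 289) (nat_lit 300) (.n (nat_lit 290) (nat_lit 368) (.p (nat_lit 291) (nat_lit 24) (.n (nat_lit 292) (nat_lit 116) (.p (nat_lit 293) (nat_lit 60) (.n (nat_lit 294) (nat_lit 128) (.n (nat_lit 295) (nat_lit 196) (.n (nat_lit 296) (nat_lit 60) (.p (nat_lit 297) (nat_lit 108) (.n (nat_lit 298) (nat_lit 60) (.n (nat_lit 299) (nat_lit 52) (.n (nat_lit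 301) (nat_lit 304) (.n (nat_lit 302) (nat_lit 68) (.p (nat_lit 303) (nat_lit 388) (.p (nat_lit 304) (nat_lit 172) (.n (nat_lit 305) (nat_lit 76) (.n (nat_lit 306) (nat_lit 112) (.p (nat_lit 307) (nat_lit 108) (.n (nat_lit 308) (nat_lit 216) (.p (nat_lit 309) (nat_lit 252) (.n (nat_lit 310) (nat_lit 288) (.p (nat_lit 311) (nat_lit 300) (.p (nat_lit 312) (nat_lit 24) (.p (nat_lit 313) (nat_lit 264) (.p (nat_lit 314) (nat_lit 288) (.p (nat_lit 315) (nat_lit 132) (.n (nat_lit 316) (nat_lit 24) (.p (nat_lit 317) (nat_lit 108) (.p (nat_lit 318) (nat_lit 288) (.p (nat_lit 319) (nat_lit 276) (.p (nat_lit 320) (nat_lit 108) (.n (nat_lit 321) (nat_lit 24) (.n (nat_lit 322) (nat_lit 12) (.n (nat_lit 323) (nat_lit 12) (.n (nat_lit 324) (nat_lit 228) (.n (nat_lit 325) (nat_lit 324) (.n (nat_lit 326) (nat_lit 288) (.p (nat_lit 327) (nat_lit 408) (.p (nat_lit 328) (nat_lit 24) (.n (nat_lit 329) (nat_lit 348) .z))))))))))))))))))))))))))))))))))))))))))))))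 (.ct dW4x_c4371 (nat_lit 36) (nat_lit 6) (.s false (nat_lit 2) (nat_lit 7) (nat_lit 6) (nat_lit 3) (nat_lit 3) true (nat_lit 0) true (nat_lit 11) true (nat_lit 7) true (nat_lit 8) true (nat_lit 11) (.s false (nat_lit 1) (nat_lit 8) (nat_lit 2) (nat_lit 7) (nat_lit 3) true (nat_lit 5) true (nat_lit 11) true (nat_lit 6) true (nat_lit 12) true (nat_lit 7) (.s true (nat_lit 2) (nat_lit 8) (nat_lit 3) (nat_lit 2) (nat_lit 7) false (nat_lit 0) true (nat_lit 7) true (nat_lit 6) true (nat_lit 11) true (nat_lit 12) (.s false (nat_lit 1) (nat_lit 8) (nat_lit 7) (nat_lit 2) (nat_lit 3) false (nat_lit 0) true (nat_lit 11) true (nat_lit 6) true (nat_lit 7) true (nat_lit 12) (.s false (nat_lit 1) (nat_lit 9) (nat_lit 1) (nat_lit 3) (nat_lit 7) true (nat_lit 2) true (nat_lit 7) true (nat_lit 5) true (nat_lit 13) true (nat_lit 11) (.s false (nat_lit 2) (nat_lit 9) (nat_lit 1) (nat_lit 7) (nat_lit 3) true (nat_lit 6) true (nat_lit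 11) true (nat_lit 5) true (nat_lit 13) true (nat_lit 7) (.s true (nat_lit 2) (nat_lit 9) (nat_lit 7) (nat_lit 1) (nat_lit 3) false (nat_lit 0) true (nat_lit 11) true (nat_lit 5) true (nat_lit 7) true (nat_lit 13) (.s true (nat_lit 1) (nat_lit 10) (nat_lit 0) (nat_lit 6) (nat_lit 3) true (nat_lit 7) true (nat_lit 11) true (nat_lit 4) true (nat_lit 14) true (nat_lit 8) dW4x_i74))))))))) .leaf)) (nat_lit 70656) (nat_lit 169) (.p (nat_lit 125) (nat_lit 36) .z) .df (.nd (.nd .leaf (nat_lit 70657) (nat_lit 199) (.p (nat_lit 146) (nat_lit 36) .z) .df .leaf) (nat_lit 70659) (nat_lit 259) (.p (nat_lit 172) (nat_lit 36) .z) .df (.nd .leaf (nat_lit 70660) (nat_lit 367) (.p (nat_lit 189) (nat_lit 93) (.n (nat_lit 190) (nat_lit 42) (.n (nat_lit 191) (nat_lit 60) (.p (nat_lit 192) (nat_lit 18) (.n (nat_lit 193) (nat_lit 96) (.p (nat_lit 194) (nat_lit 24) (.n (nat_lit 195) (nat_lit 6) (.p (nat_lit 196) (nat_lit 84) (.n (nat_lit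 197) (nat_lit 6) (.p (nat_lit 198) (nat_lit 78) (.p (nat_lit 199) (nat_lit 153) (.n (nat_lit 200) (nat_lit 45) (.p (nat_lit 201) (nat_lit 45) (.n (nat_lit 202) (nat_lit 102) (.n (nat_lit 203) (nat_lit 96) (.p (nat_lit 204) (nat_lit 150) (.n (nat_lit 205) (nat_lit 153) (.p (nat_lit 206) (nat_lit 57) (.p (nat_lit 207) (nat_lit 123) (.n (nat_lit 208) (nat_lit 147) (.p (nat_lit 209) (nat_lit 45) (.n (nat_lit 210) (nat_lit 3) (.n (nat_lit 211) (nat_lit 105) (.n (nat_lit 214) (nat_lit 3) (.n (nat_lit 216) (nat_lit 15) (.p (nat_lit 217) (nat_lit 51) (.p (nat_lit 218) (nat_lit 15) (.n (nat_lit 219) (nat_lit 15) (.p (nat_lit 220) (nat_lit 30) (.p (nat_lit 221) (nat_lit 77) (.n (nat_lit 222) (nat_lit 110) (.n (nat_lit 223) (nat_lit 78) (.n (nat_lit 224) (nat_lit 2) (.p (nat_lit 225) (nat_lit 44) (.p (nat_lit 226) (nat_lit 3) (.p (nat_lit 227) (nat_lit 3) (.p (nat_lit 228) (nat_lit 2) (.n (nat_lit 229) (nat_lit 44) (.n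 (nat_lit 230) (nat_lit 53) (.p (nat_lit 231) (nat_lit 41) (.n (nat_lit 232) (nat_lit 55) (.n (nat_lit 233) (nat_lit 43) (.p (nat_lit 234) (nat_lit 1) (.n (nat_lit 235) (nat_lit 8) (.p (nat_lit 236) (nat_lit 28) (.p (nat_lit 237) (nat_lit 11) (.n (nat_lit 238) (nat_lit 13) (.n (nat_lit 239) (nat_lit 15) (.n (nat_lit 240) (nat_lit 6) .z))))))))))))))))))))))))))))))))))))))))))))))))) (.ct dW4x_c8466 (nat_lit 36) (nat_lit 11) (.s true (nat_lit 1) (nat_lit 19) (nat_lit 0) (nat_lit 2) (nat_lit 3) true (nat_lit 8) true (nat_lit 12) true (nat_lit 0) true (nat_lit 15) true (nat_lit 13) dW4x_i37)) .leaf))))))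

noncomputable def dW4x_t8 : Tr := (.nd (.nd (.nd (.nd (.nd (.nd (.nd .leaf (nat_lit 70664) (nat_lit 574) (.n (nat_lit 283) (nat_lit 172) (.n (nat_lit 284) (nat_lit 196) (.n (nat_lit 285) (nat_lit 218) (.n (nat_lit 286) (nat_lit 178) (.p (nat_lit 287) (nat_lit 104) (.n (nat_lit 288) (nat_lit 340) (.p (nat_lit 289) (nat_lit 282) (.p (nat_lit 290) (nat_lit 116) (.p (nat_lit 291) (nat_lit 120) (.p (nat_lit 292) (nat_lit 80) (.n (nat_lit 293) (nat_lit 330) (.p (nat_lit 294) (nat_lit 146) (.p (nat_lit 295) (nat_lit 52) (.p (nat_lit 296) (nat_lit 132) (.p (nat_lit 297) (nat_lit 252) (.n (nat_lit 298) (nat_lit 210) (.p (nat_lit 299) (nat_lit 376) (.n (nat_lit 301) (nat_lit 92) (.n (nat_lit 302) (nat_lit 274) (.p (nat_lit 303) (nat_lit 134) (.n (nat_lit 304) (nat_lit 28) (.p (nat_lit 305) (nat_lit 22) (.p (nat_lit 306) (nat_lit 598) (.p (nat_lit 307) (nat_lit 36) (.p (nat_lit 308) (nat_lit 198) (.n (nat_lit 309) (nat_lit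 162) (.p (nat_lit 310) (nat_lit 90) (.n (nat_lit 311) (nat_lit 84) (.p (nat_lit 312) (nat_lit 30) (.n (nat_lit 313) (nat_lit 102) (.n (nat_lit 314) (nat_lit 198) (.n (nat_lit 315) (nat_lit 150) (.n (nat_lit 316) (nat_lit 138) (.n (nat_lit 317) (nat_lit 54) (.n (nat_lit 318) (nat_lit 162) (.n (nat_lit 319) (nat_lit 114) (.n (nat_lit 320) (nat_lit 18) (.p (nat_lit 321) (nat_lit 6) (.p (nat_lit 322) (nat_lit 12) (.n (nat_lit 323) (nat_lit 6) (.p (nat_lit 324) (nat_lit 156) (.p (nat_lit 325) (nat_lit 162) (.p (nat_lit 326) (nat_lit 162) (.n (nat_lit 327) (nat_lit 174) (.n (nat_lit 328) (nat_lit 6) (.p (nat_lit 329) (nat_lit 204) .z)))))))))))))))))))))))))))))))))))))))))))))) (.ct dW4x_c4371 (nat_lit 36) (nat_lit 6) (.s true (nat_lit 1) (nat_lit 8) (nat_lit 2) (nat_lit 7) (nat_lit 3) true (nat_lit 5) true (nat_lit 11) true (nat_lit 6) true (nat_lit 12) true (nat_lit 7) (.s false (nat_lit 1) (nat_lit 8) (nat_lit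 3) (nat_lit 2) (nat_lit 7) false (nat_lit 0) true (nat_lit 7) true (nat_lit 6) true (nat_lit 11) true (nat_lit 12) (.s false (nat_lit 1) (nat_lit 26) (nat_lit 3) (nat_lit 1) (nat_lit 2) true (nat_lit 5) true (nat_lit 12) false (nat_lit 0) true (nat_lit 11) true (nat_lit 13) (.e false (nat_lit 36) (nat_lit 58) (nat_lit 9) (nat_lit 5) (.e false (nat_lit 36) (nat_lit 59) (nat_lit 9) (nat_lit 5) (.e true (nat_lit 36) (nat_lit 62) (nat_lit 9) (nat_lit 5) (.e false (nat_lit 36) (nat_lit 63) (nat_lit 9) (nat_lit 5) (.e false (nat_lit 36) (nat_lit 137) (nat_lit 3) (nat_lit 11) dW4x_i82))))))))) .leaf) (nat_lit 71680) (nat_lit 200) (.p (nat_lit 147) (nat_lit 36) .z) .df .leaf) (nat_lit 71683) (nat_lit 274) (.p (nat_lit 178) (nat_lit 36) .z) .df (.nd .leaf (nat_lit 71687) (nat_lit 588) (.n (nat_lit 283) (nat_lit 24) (.p (nat_lit 284) (nat_lit 48) (.p (nat_lit 285) (nat_lit 6) (.n (nat_lit 286) (nat_lit 6) (.p (nat_lit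 287) (nat_lit 84) (.p (nat_lit 288) (nat_lit 12) (.n (nat_lit 289) (nat_lit 18) (.n (nat_lit 290) (nat_lit 96) (.n (nat_lit 292) (nat_lit 24) (.n (nat_lit 293) (nat_lit 90) (.n (nat_lit 294) (nat_lit 6) (.n (nat_lit 295) (nat_lit 12) (.p (nat_lit 296) (nat_lit 36) (.p (nat_lit 297) (nat_lit 108) (.n (nat_lit 298) (nat_lit 90) (.p (nat_lit 299) (nat_lit 96) (.n (nat_lit 301) (nat_lit 48) (.n (nat_lit 302) (nat_lit 114) (.p (nat_lit 303) (nat_lit 102) (.p (nat_lit 304) (nat_lit 12) (.p (nat_lit 305) (nat_lit 6) (.p (nat_lit 306) (nat_lit 150) (.n (nat_lit 308) (nat_lit 18) (.p (nat_lit 309) (nat_lit 18) (.n (nat_lit 310) (nat_lit 18) (.n (nat_lit 312) (nat_lit 18) (.p (nat_lit 313) (nat_lit 18) (.p (nat_lit 314) (nat_lit 18) (.p (nat_lit 315) (nat_lit 18) (.n (nat_lit 316) (nat_lit 18) (.p (nat_lit 317) (nat_lit 18) (.p (nat_lit 318) (nat_lit 18) (.p (nat_lit 319) (nat_lit 18) (.p (nat_lit 320) (nat_lit 18) (.p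 (nat_lit 321) (nat_lit 18) (.p (nat_lit 323) (nat_lit 18) (.n (nat_lit 324) (nat_lit 36) (.n (nat_lit 325) (nat_lit 18) (.n (nat_lit 326) (nat_lit 18) (.p (nat_lit 327) (nat_lit 18) (.n (nat_lit 328) (nat_lit 18) .z))))))))))))))))))))))))))))))))))))))))) (.ct dW4x_c4371 (nat_lit 36) (nat_lit 7) (.s true (nat_lit 1) (nat_lit 23) (nat_lit 0) (nat_lit 3) (nat_lit 3) true (nat_lit 7) true (nat_lit 11) true (nat_lit 0) true (nat_lit 14) true (nat_lit 11) (.s false (nat_lit 1) (nat_lit 26) (nat_lit 2) (nat_lit 1) (nat_lit 3) true (nat_lit 5) true (nat_lit 11) false (nat_lit 0) true (nat_lit 12) true (nat_lit 13) (.e true (nat_lit 36) (nat_lit 135) (nat_lit 3) (nat_lit 11) (.e false (nat_lit 36) (nat_lit 187) (nat_lit 0) (nat_lit 14) (.e true (nat_lit 36) (nat_lit 147) (nat_lit 3) (nat_lit 11) (.e false (nat_lit 36) (nat_lit 61) (nat_lit 9) (nat_lit 5) (.e false (nat_lit 36) (nat_lit 144) (nat_lit 3) (nat_lit 11)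 (.e false (nat_lit 36) (nat_lit 166) (nat_lit 2) (nat_lit 12) (.e true (nat_lit 36) (nat_lit 167) (nat_lit 1) (nat_lit 13) (.e true (nat_lit 36) (nat_lit 168) (nat_lit 1) (nat_lit 13) (.e false (nat_lit 36) (nat_lit 169) (nat_lit 1) (nat_lit 13) (.e false (nat_lit 36) (nat_lit 170) (nat_lit 1) (nat_lit 13) (.e true (nat_lit 36) (nat_lit 173) (nat_lit 1) (nat_lit 13) (.e false (nat_lit 36) (nat_lit 176) (nat_lit 1) (nat_lit 13) (.e false (nat_lit 36) (nat_lit 177) (nat_lit 1) (nat_lit 13) .nil)))))))))))))))) .leaf)) (nat_lit 72704) (nat_lit 201) (.p (nat_lit 148) (nat_lit 36) .z) .df (.nd (.nd (.nd .leaf (nat_lit 72707) (nat_lit 275) (.p (nat_lit 179) (nat_lit 36) .z) .df .leaf) (nat_lit 72711) (nat_lit 578) (.p (nat_lit 283) (nat_lit 200) (.p (nat_lit 284) (nat_lit 68) (.p (nat_lit 285) (nat_lit 166) (.p (nat_lit 286) (nat_lit 194) (.n (nat_lit 287) (nat_lit 172) (.p (nat_lit 288) (nat_lit 284) (.n (nat_lit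 289) (nat_lit 222) (.p (nat_lit 290) (nat_lit 20) (.n (nat_lit 291) (nat_lit 132) (.p (nat_lit 292) (nat_lit 20) (.p (nat_lit 293) (nat_lit 426) (.n (nat_lit 294) (nat_lit 22) (.p (nat_lit 295) (nat_lit 76) (.n (nat_lit 296) (nat_lit 228) (.n (nat_lit 297) (nat_lit 360) (.p (nat_lit 298) (nat_lit 402) (.n (nat_lit 299) (nat_lit 428) (.p (nat_lit 300) (nat_lit 36) (.p (nat_lit 301) (nat_lit 112) (.p (nat_lit 302) (nat_lit 350) (.n (nat_lit 303) (nat_lit 250) (.p (nat_lit 304) (nat_lit 56) (.n (nat_lit 305) (nat_lit 62) (.n (nat_lit 306) (nat_lit 674) (.n (nat_lit 307) (nat_lit 144) (.n (nat_lit 308) (nat_lit 198) (.p (nat_lit 309) (nat_lit 54) (.p (nat_lit 310) (nat_lit 90) (.n (nat_lit 311) (nat_lit 120) (.n (nat_lit 312) (nat_lit 78) (.p (nat_lit 313) (nat_lit 6) (.p (nat_lit 314) (nat_lit 90) (.p (nat_lit 315) (nat_lit 66) (.p (nat_lit 316) (nat_lit 114) (.p (nat_lit 317) (nat_lit 54) (.p (nat_lit 318) (nat_lit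 54) (.n (nat_lit 319) (nat_lit 42) (.p (nat_lit 320) (nat_lit 54) (.p (nat_lit 321) (nat_lit 78) (.p (nat_lit 322) (nat_lit 48) (.n (nat_lit 323) (nat_lit 114) (.n (nat_lit 324) (nat_lit 96) (.n (nat_lit 325) (nat_lit 90) (.n (nat_lit 326) (nat_lit 54) (.p (nat_lit 327) (nat_lit 78) (.p (nat_lit 328) (nat_lit 66) (.n (nat_lit 329) (nat_lit 48) .z))))))))))))))))))))))))))))))))))))))))))))))) (.ct dW4x_c4371 (nat_lit 36) (nat_lit 7) (.s true (nat_lit 1) (nat_lit 7) (nat_lit 6) (nat_lit 3) (nat_lit 3) true (nat_lit 0) true (nat_lit 11) true (nat_lit 7) true (nat_lit 8) true (nat_lit 11) (.s true (nat_lit 2) (nat_lit 8) (nat_lit 2) (nat_lit 3) (nat_lit 7) true (nat_lit 1) true (nat_lit 7) true (nat_lit 6) true (nat_lit 12) true (nat_lit 11) (.s false (nat_lit 1) (nat_lit 8) (nat_lit 7) (nat_lit 2) (nat_lit 3) false (nat_lit 0) true (nat_lit 11) true (nat_lit 6) true (nat_lit 7) true (nat_lit 12) (.s true (nat_lit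 1) (nat_lit 9) (nat_lit 1) (nat_lit 7) (nat_lit 3) true (nat_lit 6) true (nat_lit 11) true (nat_lit 5) true (nat_lit 13) true (nat_lit 7) (.s true (nat_lit 1) (nat_lit 10) (nat_lit 2) (nat_lit 7) (nat_lit 1) true (nat_lit 8) true (nat_lit 13) true (nat_lit 4) true (nat_lit 12) true (nat_lit 7) dW4x_i86)))))) .leaf) (nat_lit 73728) (nat_lit 209) (.p (nat_lit 126) (nat_lit 12) (.p (nat_lit 127) (nat_lit 12) (.p (nat_lit 128) (nat_lit 24) (.p (nat_lit 129) (nat_lit 48) (.p (nat_lit 130) (nat_lit 12) (.p (nat_lit 131) (nat_lit 48) (.n (nat_lit 132) (nat_lit 36) (.n (nat_lit 133) (nat_lit 24) (.n (nat_lit 134) (nat_lit 36) (.n (nat_lit 135) (nat_lit 60) (.p (nat_lit 136) (nat_lit 36) (.n (nat_lit 137) (nat_lit 24) (.p (nat_lit 138) (nat_lit 24) (.n (nat_lit 139) (nat_lit 36) (.n (nat_lit 140) (nat_lit 36) (.p (nat_lit 141) (nat_lit 36) (.n (nat_lit 142) (nat_lit 48) (.p (nat_lit 144) (nat_lit 24) (.p (nat_lit 145)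 (nat_lit 48) (.n (nat_lit 146) (nat_lit 24) (.p (nat_lit 147) (nat_lit 12) (.p (nat_lit 148) (nat_lit 36) (.n (nat_lit 149) (nat_lit 12) (.n (nat_lit 150) (nat_lit 48) .z)))))))))))))))))))))))) (.ct dW4x_c4370 (nat_lit 36) (nat_lit 10) (.s true (nat_lit 1) (nat_lit 7) (nat_lit 1) (nat_lit 2) (nat_lit 3) true (nat_lit 2) true (nat_lit 7) true (nat_lit 3) true (nat_lit 9) true (nat_lit 8) (.s true (nat_lit 1) (nat_lit 8) (nat_lit 3) (nat_lit 0) (nat_lit 2) true (nat_lit 1) true (nat_lit 8) true (nat_lit 2) true (nat_lit 7) true (nat_lit 10) (.s true (nat_lit 1) (nat_lit 9) (nat_lit 1) (nat_lit 3) (nat_lit 0) true (nat_lit 6) true (nat_lit 10) true (nat_lit 1) true (nat_lit 9) true (nat_lit 7) (.e true (nat_lit 36) (nat_lit 23) (nat_lit 7) (nat_lit 3) (.e false (nat_lit 36) (nat_lit 61) (nat_lit 2) (nat_lit 8) (.e true (nat_lit 36) (nat_lit 63) (nat_lit 2) (nat_lit 8) (.e true (nat_lit 36) (nat_lit 45) (nat_lit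 3) (nat_lit 7) (.e true (nat_lit 36) (nat_lit 54) (nat_lit 3) (nat_lit 7) (.e false (nat_lit 36) (nat_lit 71) (nat_lit 0) (nat_lit 10) (.e false (nat_lit 36) (nat_lit 30) (nat_lit 4) (nat_lit 6) .nil))))))))))) (.nd .leaf (nat_lit 73731) (nat_lit 276) (.p (nat_lit 180) (nat_lit 36) .z) .df .leaf))) (nat_lit 73735) (nat_lit 579) (.p (nat_lit 283) (nat_lit 160) (.p (nat_lit 284) (nat_lit 148) (.p (nat_lit 285) (nat_lit 122) (.p (nat_lit 286) (nat_lit 94) (.n (nat_lit 287) (nat_lit 116) (.p (nat_lit 288) (nat_lit 220) (.n (nat_lit 289) (nat_lit 174) (.n (nat_lit 290) (nat_lit 56) (.n (nat_lit 291) (nat_lit 48) (.p (nat_lit 292) (nat_lit 16) (.p (nat_lit 293) (nat_lit 258) (.n (nat_lit 294) (nat_lit 50) (.n (nat_lit 295) (nat_lit 4) (.n (nat_lit 296) (nat_lit 132) (.n (nat_lit 297) (nat_lit 180) (.p (nat_lit 298) (nat_lit 210) (.n (nat_lit 299) (nat_lit 220) (.p (nat_lit 300) (nat_lit 36) (.n (nat_lit 301) (nat_lit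 4) (.p (nat_lit 302) (nat_lit 154) (.n (nat_lit 303) (nat_lit 38) (.p (nat_lit 304) (nat_lit 52) (.n (nat_lit 305) (nat_lit 46) (.n (nat_lit 306) (nat_lit 406) (.n (nat_lit 307) (nat_lit 36) (.n (nat_lit 308) (nat_lit 162) (.p (nat_lit 309) (nat_lit 90) (.n (nat_lit 310) (nat_lit 18) (.p (nat_lit 311) (nat_lit 12) (.n (nat_lit 312) (nat_lit 30) (.p (nat_lit 313) (nat_lit 66) (.p (nat_lit 314) (nat_lit 126) (.p (nat_lit 315) (nat_lit 78) (.p (nat_lit 316) (nat_lit 66) (.p (nat_lit 317) (nat_lit 54) (.p (nat_lit 318) (nat_lit 90) (.p (nat_lit 319) (nat_lit 42) (.p (nat_lit 320) (nat_lit 54) (.p (nat_lit 321) (nat_lit 30) (.p (nat_lit 322) (nat_lit 24) (.n (nat_lit 323) (nat_lit 66) (.n (nat_lit 324) (nat_lit 120) (.n (nat_lit 325) (nat_lit 126) (.n (nat_lit 326) (nat_lit 90) (.p (nat_lit 327) (nat_lit 138) (.p (nat_lit 328) (nat_lit 6) (.n (nat_lit 329) (nat_lit 96) .z)))))))))))))))))))))))))))))))))))))))))))))))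 (.ct dW4x_c4371 (nat_lit 36) (nat_lit 7) (.s true (nat_lit 1) (nat_lit 9) (nat_lit 1) (nat_lit 3) (nat_lit 7) true (nat_lit 2) true (nat_lit 7) true (nat_lit 5) true (nat_lit 13) true (nat_lit 11) (.s true (nat_lit 1) (nat_lit 18) (nat_lit 2) (nat_lit 3) (nat_lit 3) true (nat_lit 5) true (nat_lit 11) true (nat_lit 2) true (nat_lit 12) true (nat_lit 11) (.e true (nat_lit 36) (nat_lit 58) (nat_lit 9) (nat_lit 5) (.e true (nat_lit 72) (nat_lit 59) (nat_lit 9) (nat_lit 5) (.e false (nat_lit 36) (nat_lit 62) (nat_lit 9) (nat_lit 5) (.e true (nat_lit 36) (nat_lit 63) (nat_lit 9) (nat_lit 5) (.e true (nat_lit 36) (nat_lit 177) (nat_lit 1) (nat_lit 13) (.e false (nat_lit 36) (nat_lit 142) (nat_lit 3) (nat_lit 11) (.e false (nat_lit 36) (nat_lit 143) (nat_lit 3) (nat_lit 11) (.e true (nat_lit 36) (nat_lit 145) (nat_lit 3) (nat_lit 11) (.e false (nat_lit 36) (nat_lit 146) (nat_lit 3) (nat_lit 11) (.e true (nat_lit 36)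 (nat_lit 130) (nat_lit 3) (nat_lit 11) (.e false (nat_lit 72) (nat_lit 156) (nat_lit 2) (nat_lit 12) (.e false (nat_lit 108) (nat_lit 157) (nat_lit 2) (nat_lit 12) (.e true (nat_lit 36) (nat_lit 158) (nat_lit 2) (nat_lit 12) (.e false (nat_lit 36) (nat_lit 159) (nat_lit 2) (nat_lit 12) (.e true (nat_lit 36) (nat_lit 160) (nat_lit 2) (nat_lit 12) (.e false (nat_lit 36) (nat_lit 161) (nat_lit 2) (nat_lit 12) (.e true (nat_lit 36) (nat_lit 163) (nat_lit 2) (nat_lit 12) (.e true (nat_lit 36) (nat_lit 165) (nat_lit 2) (nat_lit 12) (.e true (nat_lit 36) (nat_lit 137) (nat_lit 3) (nat_lit 11) .nil)))))))))))))))))))))) (.nd (.nd (.nd (.nd .leaf (nat_lit 74752) (nat_lit 210) (.p (nat_lit 126) (nat_lit 24) (.p (nat_lit 127) (nat_lit 24) (.p (nat_lit 128) (nat_lit 12) (.n (nat_lit 129) (nat_lit 12) (.n (nat_lit 130) (nat_lit 12) (.p (nat_lit 131) (nat_lit 24) (.p (nat_lit 133) (nat_lit 24) (.p (nat_lit 134) (nat_lit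 36) (.p (nat_lit 135) (nat_lit 24) (.n (nat_lit 136) (nat_lit 36) (.n (nat_lit 137) (nat_lit 48) (.p (nat_lit 138) (nat_lit 12) (.p (nat_lit 140) (nat_lit 36) (.n (nat_lit 141) (nat_lit 36) (.n (nat_lit 142) (nat_lit 24) (.n (nat_lit 143) (nat_lit 36) (.n (nat_lit 144) (nat_lit 24) (.p (nat_lit 145) (nat_lit 24) (.n (nat_lit 146) (nat_lit 12) (.n (nat_lit 147) (nat_lit 12) (.n (nat_lit 148) (nat_lit 36) (.p (nat_lit 149) (nat_lit 12) (.n (nat_lit 150) (nat_lit 24) .z))))))))))))))))))))))) (.ct dW4x_c4370 (nat_lit 36) (nat_lit 10) (.s false (nat_lit 1) (nat_lit 6) (nat_lit 0) (nat_lit 3) (nat_lit 3) true (nat_lit 3) true (nat_lit 7) true (nat_lit 4) true (nat_lit 10) true (nat_lit 7) (.e false (nat_lit 36) (nat_lit 23) (nat_lit 7) (nat_lit 3) (.e false (nat_lit 36) (nat_lit 47) (nat_lit 3) (nat_lit 7) (.e true (nat_lit 36) (nat_lit 26) (nat_lit 6) (nat_lit 4) (.e true (nat_lit 36) (nat_lit 71) (nat_lit 0) (nat_lit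 10) (.e false (nat_lit 36) (nat_lit 72) (nat_lit 0) (nat_lit 10) (.e false (nat_lit 36) (nat_lit 75) (nat_lit 0) (nat_lit 10) (.e false (nat_lit 36) (nat_lit 54) (nat_lit 3) (nat_lit 7) .nil))))))))) .leaf) (nat_lit 74755) (nat_lit 277) (.p (nat_lit 181) (nat_lit 36) .z) .df .leaf) (nat_lit 74759) (nat_lit 590) (.n (nat_lit 283) (nat_lit 256) (.p (nat_lit 284) (nat_lit 44) (.n (nat_lit 285) (nat_lit 242) (.n (nat_lit 286) (nat_lit 262) (.p (nat_lit 287) (nat_lit 272) (.n (nat_lit 288) (nat_lit 316) (.p (nat_lit 289) (nat_lit 246) (.n (nat_lit 290) (nat_lit 220) (.p (nat_lit 291) (nat_lit 192) (.n (nat_lit 292) (nat_lit 112) (.n (nat_lit 293) (nat_lit 618) (.p (nat_lit 294) (nat_lit 62) (.n (nat_lit 295) (nat_lit 188) (.p (nat_lit 296) (nat_lit 348) (.p (nat_lit 297) (nat_lit 576) (.n (nat_lit 298) (nat_lit 642) (.p (nat_lit 299) (nat_lit 748) (.n (nat_lit 301) (nat_lit 260) (.n (nat_lit 302) (nat_lit 646) (.p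 (nat_lit 303) (nat_lit 590) (.n (nat_lit 304) (nat_lit 4) (.p (nat_lit 305) (nat_lit 70) (.p (nat_lit 306) (nat_lit 1114) (.p (nat_lit 307) (nat_lit 288) (.p (nat_lit 308) (nat_lit 306) (.n (nat_lit 309) (nat_lit 54) (.n (nat_lit 310) (nat_lit 234) (.p (nat_lit 311) (nat_lit 276) (.p (nat_lit 312) (nat_lit 138) (.p (nat_lit 313) (nat_lit 42) (.n (nat_lit 314) (nat_lit 54) (.n (nat_lit 315) (nat_lit 114) (.n (nat_lit 316) (nat_lit 246) (.n (nat_lit 317) (nat_lit 18) (.p (nat_lit 318) (nat_lit 18) (.p (nat_lit 319) (nat_lit 138) (.n (nat_lit 320) (nat_lit 18) (.n (nat_lit 321) (nat_lit 138) (.n (nat_lit 322) (nat_lit 96) (.p (nat_lit 323) (nat_lit 174) (.p (nat_lit 324) (nat_lit 120) (.p (nat_lit 325) (nat_lit 54) (.p (nat_lit 326) (nat_lit 18) (.p (nat_lit 327) (nat_lit 6) (.n (nat_lit 328) (nat_lit 78) (.n (nat_lit 329) (nat_lit 48) .z)))))))))))))))))))))))))))))))))))))))))))))) (.ct dW4x_c4371 (nat_lit 36)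 (nat_lit 7) (.s true (nat_lit 1) (nat_lit 8) (nat_lit 2) (nat_lit 7) (nat_lit 3) true (nat_lit 5) true (nat_lit 11) true (nat_lit 6) true (nat_lit 12) true (nat_lit 7) (.e false (nat_lit 36) (nat_lit 58) (nat_lit 9) (nat_lit 5) (.e false (nat_lit 36) (nat_lit 59) (nat_lit 9) (nat_lit 5) (.e true (nat_lit 36) (nat_lit 62) (nat_lit 9) (nat_lit 5) (.e false (nat_lit 36) (nat_lit 63) (nat_lit 9) (nat_lit 5) (.e true (nat_lit 36) (nat_lit 133) (nat_lit 3) (nat_lit 11) (.e false (nat_lit 36) (nat_lit 137) (nat_lit 3) (nat_lit 11) (.e false (nat_lit 36) (nat_lit 142) (nat_lit 3) (nat_lit 11) (.e false (nat_lit 36) (nat_lit 143) (nat_lit 3) (nat_lit 11) (.e true (nat_lit 36) (nat_lit 145) (nat_lit 3) (nat_lit 11) (.e false (nat_lit 36) (nat_lit 146) (nat_lit 3) (nat_lit 11) (.e false (nat_lit 36) (nat_lit 150) (nat_lit 3) (nat_lit 11) (.e false (nat_lit 36) (nat_lit 65) (nat_lit 8) (nat_lit 6) (.e true (nat_lit 36)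 (nat_lit 166) (nat_lit 2) (nat_lit 12) .nil))))))))))))))) (.nd .leaf (nat_lit 75776) (nat_lit 202) (.p (nat_lit 149) (nat_lit 36) .z) .df .leaf)) (nat_lit 75779) (nat_lit 278) (.p (nat_lit 182) (nat_lit 36) .z) .df (.nd (.nd (.nd .leaf (nat_lit 75783) (nat_lit 595) (.n (nat_lit 283) (nat_lit 120) (.p (nat_lit 284) (nat_lit 24) (.n (nat_lit 285) (nat_lit 114) (.n (nat_lit 286) (nat_lit 102) (.p (nat_lit 287) (nat_lit 132) (.n (nat_lit 288) (nat_lit 120) (.p (nat_lit 289) (nat_lit 90) (.n (nat_lit 290) (nat_lit 156) (.p (nat_lit 291) (nat_lit 72) (.n (nat_lit 292) (nat_lit 48) (.n (nat_lit 293) (nat_lit 270) (.p (nat_lit 294) (nat_lit 78) (.n (nat_lit 295) (nat_lit 60) (.p (nat_lit 296) (nat_lit 180) (.p (nat_lit 297) (nat_lit 252) (.n (nat_lit 298) (nat_lit 270) (.p (nat_lit 299) (nat_lit 336) (.n (nat_lit 301) (nat_lit 96) (.n (nat_lit 302) (nat_lit 318) (.p (nat_lit 303) (nat_lit 258) (.p (nat_lit 304) (nat_lit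 24) (.p (nat_lit 305) (nat_lit 30) (.p (nat_lit 306) (nat_lit 534) (.p (nat_lit 307) (nat_lit 72) (.p (nat_lit 308) (nat_lit 126) (.n (nat_lit 309) (nat_lit 54) (.n (nat_lit 310) (nat_lit 54) (.p (nat_lit 311) (nat_lit 36) (.p (nat_lit 312) (nat_lit 18) (.n (nat_lit 313) (nat_lit 18) (.n (nat_lit 314) (nat_lit 18) (.n (nat_lit 315) (nat_lit 54) (.n (nat_lit 316) (nat_lit 90) (.p (nat_lit 317) (nat_lit 18) (.p (nat_lit 318) (nat_lit 54) (.p (nat_lit 319) (nat_lit 54) (.p (nat_lit 320) (nat_lit 18) (.n (nat_lit 321) (nat_lit 54) (.n (nat_lit 322) (nat_lit 72) (.p (nat_lit 323) (nat_lit 90) (.p (nat_lit 324) (nat_lit 36) (.p (nat_lit 325) (nat_lit 18) (.p (nat_lit 326) (nat_lit 18) (.n (nat_lit 327) (nat_lit 18) (.p (nat_lit 328) (nat_lit 18) .z))))))))))))))))))))))))))))))))))))))))))))) (.ct dW4x_c4371 (nat_lit 36) (nat_lit 7) (.s false (nat_lit 1) (nat_lit 8) (nat_lit 7) (nat_lit 2) (nat_lit 3) false (nat_lit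 0) true (nat_lit 11) true (nat_lit 6) true (nat_lit 7) true (nat_lit 12) (.s false (nat_lit 1) (nat_lit 26) (nat_lit 3) (nat_lit 1) (nat_lit 2) true (nat_lit 5) true (nat_lit 12) false (nat_lit 0) true (nat_lit 11) true (nat_lit 13) (.e true (nat_lit 36) (nat_lit 136) (nat_lit 3) (nat_lit 11) (.e true (nat_lit 36) (nat_lit 137) (nat_lit 3) (nat_lit 11) (.e false (nat_lit 36) (nat_lit 140) (nat_lit 3) (nat_lit 11) (.e true (nat_lit 36) (nat_lit 141) (nat_lit 3) (nat_lit 11) (.e false (nat_lit 36) (nat_lit 65) (nat_lit 8) (nat_lit 6) (.e false (nat_lit 36) (nat_lit 70) (nat_lit 7) (nat_lit 7) (.e false (nat_lit 36) (nat_lit 71) (nat_lit 7) (nat_lit 7) (.e false (nat_lit 36) (nat_lit 75) (nat_lit 7) (nat_lit 7) (.e false (nat_lit 72) (nat_lit 157) (nat_lit 2) (nat_lit 12) (.e true (nat_lit 36) (nat_lit 163) (nat_lit 2) (nat_lit 12) (.e true (nat_lit 36) (nat_lit 61) (nat_lit 9) (nat_lit 5) (.e false (nat_lit 36)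 (nat_lit 156) (nat_lit 2) (nat_lit 12) (.e true (nat_lit 36) (nat_lit 158) (nat_lit 2) (nat_lit 12) (.e true (nat_lit 36) (nat_lit 165) (nat_lit 2) (nat_lit 12) (.e false (nat_lit 36) (nat_lit 150) (nat_lit 3) (nat_lit 11) (.e true (nat_lit 36) (nat_lit 170) (nat_lit 1) (nat_lit 13) .nil))))))))))))))))))) .leaf) (nat_lit 76800) (nat_lit 207) (.p (nat_lit 126) (nat_lit 12) (.p (nat_lit 127) (nat_lit 12) (.n (nat_lit 128) (nat_lit 12) (.n (nat_lit 129) (nat_lit 24) (.p (nat_lit 130) (nat_lit 12) (.p (nat_lit 131) (nat_lit 12) (.p (nat_lit 133) (nat_lit 12) (.p (nat_lit 134) (nat_lit 36) (.p (nat_lit 135) (nat_lit 12) (.n (nat_lit 136) (nat_lit 36) (.n (nat_lit 137) (nat_lit 24) (.n (nat_lit 138) (nat_lit 12) (.p (nat_lit 140) (nat_lit 36) (.n (nat_lit 141) (nat_lit 36) (.n (nat_lit 142) (nat_lit 12) (.n (nat_lit 143) (nat_lit 36) (.n (nat_lit 144) (nat_lit 12) (.p (nat_lit 145) (nat_lit 12) (.n (nat_lit 146)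 (nat_lit 24) (.n (nat_lit 147) (nat_lit 24) (.n (nat_lit 148) (nat_lit 36) (.p (nat_lit 149) (nat_lit 24) (.p (nat_lit 150) (nat_lit 24) .z))))))))))))))))))))))) (.ct dW4x_c4370 (nat_lit 36) (nat_lit 10) (.s true (nat_lit 1) (nat_lit 4) (nat_lit 2) (nat_lit 3) (nat_lit 3) true (nat_lit 1) true (nat_lit 7) true (nat_lit 6) true (nat_lit 8) true (nat_lit 7) (.s true (nat_lit 1) (nat_lit 7) (nat_lit 2) (nat_lit 3) (nat_lit 1) true (nat_lit 4) true (nat_lit 9) true (nat_lit 3) true (nat_lit 8) true (nat_lit 7) (.s false (nat_lit 1) (nat_lit 9) (nat_lit 0) (nat_lit 1) (nat_lit 3) true (nat_lit 3) true (nat_lit 7) true (nat_lit 1) true (nat_lit 10) true (nat_lit 9) (.e true (nat_lit 36) (nat_lit 45) (nat_lit 3) (nat_lit 7) (.e false (nat_lit 36) (nat_lit 30) (nat_lit 4) (nat_lit 6) (.e true (nat_lit 36) (nat_lit 60) (nat_lit 2) (nat_lit 8) (.e false (nat_lit 36) (nat_lit 61) (nat_lit 2) (nat_lit 8) (.e true (nat_lit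 72) (nat_lit 63) (nat_lit 2) (nat_lit 8) (.e true (nat_lit 36) (nat_lit 48) (nat_lit 3) (nat_lit 7) (.e false (nat_lit 36) (nat_lit 26) (nat_lit 6) (nat_lit 4) (.e true (nat_lit 36) (nat_lit 65) (nat_lit 1) (nat_lit 9) (.e true (nat_lit 36) (nat_lit 58) (nat_lit 2) (nat_lit 8) (.e false (nat_lit 36) (nat_lit 62) (nat_lit 2) (nat_lit 8) (.e false (nat_lit 36) (nat_lit 49) (nat_lit 3) (nat_lit 7) (.e false (nat_lit 36) (nat_lit 53) (nat_lit 3) (nat_lit 7) (.e true (nat_lit 36) (nat_lit 70) (nat_lit 0) (nat_lit 10) (.e true (nat_lit 36) (nat_lit 71) (nat_lit 0) (nat_lit 10) (.e false (nat_lit 36) (nat_lit 74) (nat_lit 0) (nat_lit 10) (.e true (nat_lit 36) (nat_lit 69) (nat_lit 1) (nat_lit 9) .nil)))))))))))))))))))) .leaf) (nat_lit 76803) (nat_lit 279) (.p (nat_lit 183) (nat_lit 36) .z) .df (.nd .leaf (nat_lit 76807) (nat_lit 594) (.n (nat_lit 283) (nat_lit 228) (.n (nat_lit 284) (nat_lit 120) (.n (nat_lit 285)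 (nat_lit 222) (.n (nat_lit 286) (nat_lit 210) (.p (nat_lit 287) (nat_lit 132) (.n (nat_lit 288) (nat_lit 336) (.p (nat_lit 289) (nat_lit 270) (.n (nat_lit 290) (nat_lit 12) (.p (nat_lit 291) (nat_lit 144) (.n (nat_lit 292) (nat_lit 12) (.n (nat_lit 293) (nat_lit 414) (.p (nat_lit 294) (nat_lit 114) (.n (nat_lit 295) (nat_lit 60) (.p (nat_lit 296) (nat_lit 252) (.p (nat_lit 297) (nat_lit 324) (.n (nat_lit 298) (nat_lit 378) (.p (nat_lit 299) (nat_lit 480) (.n (nat_lit 301) (nat_lit 96) (.n (nat_lit 302) (nat_lit 390) (.p (nat_lit 303) (nat_lit 258) (.n (nat_lit 304) (nat_lit 48) (.p (nat_lit 305) (nat_lit 66) (.p (nat_lit 306) (nat_lit 750) (.p (nat_lit 307) (nat_lit 144) (.p (nat_lit 308) (nat_lit 270) (.n (nat_lit 309) (nat_lit 126) (.n (nat_lit 310) (nat_lit 54) (.p (nat_lit 311) (nat_lit 72) (.p (nat_lit 312) (nat_lit 90) (.n (nat_lit 313) (nat_lit 54) (.n (nat_lit 314) (nat_lit 126) (.n (nat_lit 315) (nat_lit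 126) (.n (nat_lit 316) (nat_lit 162) (.n (nat_lit 317) (nat_lit 54) (.n (nat_lit 318) (nat_lit 54) (.p (nat_lit 319) (nat_lit 18) (.n (nat_lit 320) (nat_lit 54) (.n (nat_lit 321) (nat_lit 90) (.n (nat_lit 322) (nat_lit 72) (.p (nat_lit 323) (nat_lit 90) (.p (nat_lit 324) (nat_lit 144) (.p (nat_lit 325) (nat_lit 126) (.p (nat_lit 326) (nat_lit 90) (.n (nat_lit 327) (nat_lit 126) (.n (nat_lit 328) (nat_lit 18) (.p (nat_lit 329) (nat_lit 72) .z)))))))))))))))))))))))))))))))))))))))))))))) (.ct dW4x_c4371 (nat_lit 36) (nat_lit 7) (.s true (nat_lit 1) (nat_lit 9) (nat_lit 1) (nat_lit 7) (nat_lit 3) true (nat_lit 6) true (nat_lit 11) true (nat_lit 5) true (nat_lit 13) true (nat_lit 7) (.e false (nat_lit 36) (nat_lit 64) (nat_lit 8) (nat_lit 6) (.e false (nat_lit 36) (nat_lit 65) (nat_lit 8) (nat_lit 6) (.e true (nat_lit 36) (nat_lit 68) (nat_lit 8) (nat_lit 6) (.e false (nat_lit 36) (nat_lit 69) (nat_lit 8) (nat_lit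 6) (.e true (nat_lit 36) (nat_lit 130) (nat_lit 3) (nat_lit 11) (.e false (nat_lit 36) (nat_lit 136) (nat_lit 3) (nat_lit 11) (.e false (nat_lit 36) (nat_lit 137) (nat_lit 3) (nat_lit 11) (.e true (nat_lit 36) (nat_lit 140) (nat_lit 3) (nat_lit 11) (.e false (nat_lit 36) (nat_lit 141) (nat_lit 3) (nat_lit 11) (.e false (nat_lit 36) (nat_lit 143) (nat_lit 3) (nat_lit 11) (.e true (nat_lit 36) (nat_lit 150) (nat_lit 3) (nat_lit 11) (.e false (nat_lit 36) (nat_lit 59) (nat_lit 9) (nat_lit 5) (.e true (nat_lit 36) (nat_lit 177) (nat_lit 1) (nat_lit 13) .nil))))))))))))))) .leaf)))) (nat_lit 77824) (nat_lit 227) (.p (nat_lit 153) (nat_lit 36) .z) .df (.nd (.nd (.nd (.nd (.nd .leaf (nat_lit 77825) (nat_lit 252) (.p (nat_lit 156) (nat_lit 36) (.p (nat_lit 157) (nat_lit 36) (.n (nat_lit 158) (nat_lit 36) (.n (nat_lit 159) (nat_lit 36) (.p (nat_lit 162) (nat_lit 36) (.n (nat_lit 165) (nat_lit 36) (.n (nat_lit 166) (nat_lit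 36) .z))))))) (.ct dW4x_c4355 (nat_lit 36) (nat_lit 5) (.s true (nat_lit 1) (nat_lit 7) (nat_lit 3) (nat_lit 3) (nat_lit 1) true (nat_lit 1) true (nat_lit 5) true (nat_lit 2) true (nat_lit 4) true (nat_lit 4) (.e true (nat_lit 36) (nat_lit 26) (nat_lit 8) (nat_lit 1) (.e true (nat_lit 36) (nat_lit 29) (nat_lit 7) (nat_lit 2) (.e false (nat_lit 36) (nat_lit 58) (nat_lit 3) (nat_lit 4) (.e false (nat_lit 72) (nat_lit 59) (nat_lit 3) (nat_lit 4) (.e true (nat_lit 36) (nat_lit 62) (nat_lit 3) (nat_lit 4) (.e false (nat_lit 36) (nat_lit 63) (nat_lit 3) (nat_lit 4) .nil)))))))) .leaf) (nat_lit 77826) (nat_lit 272) (.p (nat_lit 167) (nat_lit 36) (.p (nat_lit 168) (nat_lit 36) (.n (nat_lit 169) (nat_lit 36) (.n (nat_lit 170) (nat_lit 36) (.p (nat_lit 173) (nat_lit 36) (.n (nat_lit 176) (nat_lit 36) (.n (nat_lit 177) (nat_lit 36) .z))))))) (.ct dW4x_c4115 (nat_lit 36) (nat_lit 5) (.s true (nat_lit 1) (nat_lit 7) (nat_lit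 3) (nat_lit 3) (nat_lit 2) true (nat_lit 1) true (nat_lit 5) true (nat_lit 2) true (nat_lit 4) true (nat_lit 4) (.e true (nat_lit 36) (nat_lit 26) (nat_lit 9) (nat_lit 1) (.e true (nat_lit 36) (nat_lit 31) (nat_lit 7) (nat_lit 2) (.e false (nat_lit 36) (nat_lit 64) (nat_lit 3) (nat_lit 4) (.e false (nat_lit 72) (nat_lit 65) (nat_lit 3) (nat_lit 4) (.e true (nat_lit 36) (nat_lit 68) (nat_lit 3) (nat_lit 4) (.e false (nat_lit 36) (nat_lit 69) (nat_lit 3) (nat_lit 4) .nil)))))))) .leaf) (nat_lit 77828) (nat_lit 462) (.p (nat_lit 241) (nat_lit 612) (.n (nat_lit 242) (nat_lit 72) (.n (nat_lit 243) (nat_lit 270) (.n (nat_lit 244) (nat_lit 972) (.n (nat_lit 245) (nat_lit 432) (.p (nat_lit 246) (nat_lit 288) (.p (nat_lit 247) (nat_lit 576) (.p (nat_lit 248) (nat_lit 414) (.n (nat_lit 249) (nat_lit 1260) (.n (nat_lit 250) (nat_lit 216) (.p (nat_lit 251) (nat_lit 126) (.p (nat_lit 252) (nat_lit 270) (.p (nat_lit 253)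 (nat_lit 396) (.n (nat_lit 254) (nat_lit 288) (.n (nat_lit 255) (nat_lit 36) (.n (nat_lit 256) (nat_lit 432) (.p (nat_lit 257) (nat_lit 432) (.p (nat_lit 258) (nat_lit 90) (.n (nat_lit 259) (nat_lit 468) (.n (nat_lit 260) (nat_lit 126) (.n (nat_lit 261) (nat_lit 324) .z))))))))))))))))))))) (.ct dW4x_c8451 (nat_lit 36) (nat_lit 6) (.s true (nat_lit 1) (nat_lit 26) (nat_lit 0) (nat_lit 3) (nat_lit 1) true (nat_lit 6) true (nat_lit 8) false (nat_lit 0) true (nat_lit 9) true (nat_lit 7) (.e false (nat_lit 36) (nat_lit 151) (nat_lit 1) (nat_lit 8) (.e true (nat_lit 36) (nat_lit 154) (nat_lit 1) (nat_lit 8) (.e true (nat_lit 36) (nat_lit 155) (nat_lit 1) (nat_lit 8) (.e true (nat_lit 36) (nat_lit 26) (nat_lit 18) (nat_lit 0) (.e false (nat_lit 36) (nat_lit 166) (nat_lit 0) (nat_lit 9) (.e false (nat_lit 36) (nat_lit 112) (nat_lit 3) (nat_lit 7) .nil)))))))) (.nd .leaf (nat_lit 77829) (nat_lit 511) (.p (nat_lit 262)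 (nat_lit 612) (.n (nat_lit 263) (nat_lit 72) (.n (nat_lit 264) (nat_lit 270) (.n (nat_lit 265) (nat_lit 972) (.n (nat_lit 266) (nat_lit 432) (.p (nat_lit 267) (nat_lit 288) (.p (nat_lit 268) (nat_lit 576) (.p (nat_lit 269) (nat_lit 414) (.n (nat_lit 270) (nat_lit 1260) (.n (nat_lit 271) (nat_lit 216) (.p (nat_lit 272) (nat_lit 126) (.p (nat_lit 273) (nat_lit 270) (.p (nat_lit 274) (nat_lit 396) (.n (nat_lit 275) (nat_lit 288) (.n (nat_lit 276) (nat_lit 36) (.n (nat_lit 277) (nat_lit 432) (.p (nat_lit 278) (nat_lit 432) (.p (nat_lit 279) (nat_lit 90) (.n (nat_lit 280) (nat_lit 468) (.n (nat_lit 281) (nat_lit 126) (.n (nat_lit 282) (nat_lit 324) .z))))))))))))))))))))) (.ct dW4x_c8211 (nat_lit 36) (nat_lit 6) (.s true (nat_lit 1) (nat_lit 26) (nat_lit 0) (nat_lit 3) (nat_lit 2) true (nat_lit 6) true (nat_lit 8) false (nat_lit 0) true (nat_lit 9) true (nat_lit 7) (.e false (nat_lit 36) (nat_lit 151) (nat_lit 2)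 (nat_lit 8) (.e true (nat_lit 36) (nat_lit 154) (nat_lit 2) (nat_lit 8) (.e true (nat_lit 36) (nat_lit 155) (nat_lit 2) (nat_lit 8) (.e true (nat_lit 36) (nat_lit 26) (nat_lit 21) (nat_lit 0) (.e false (nat_lit 36) (nat_lit 177) (nat_lit 0) (nat_lit 9) (.e false (nat_lit 36) (nat_lit 123) (nat_lit 3) (nat_lit 7) .nil)))))))) .leaf)) (nat_lit 77830) (nat_lit 623) (.n (nat_lit 283) (nat_lit 68) (.p (nat_lit 284) (nat_lit 28) (.n (nat_lit 285) (nat_lit 64) (.n (nat_lit 286) (nat_lit 80) (.p (nat_lit 287) (nat_lit 88) (.n (nat_lit 288) (nat_lit 80) (.p (nat_lit 289) (nat_lit 60) (.n (nat_lit 290) (nat_lit 68) (.p (nat_lit 291) (nat_lit 60) (.n (nat_lit 292) (nat_lit 32) (.n (nat_lit 293) (nat_lit 192) (.n (nat_lit 294) (nat_lit 8) (.n (nat_lit 295) (nat_lit 64) (.p (nat_lit 296) (nat_lit 84) (.p (nat_lit 297) (nat_lit 180) (.n (nat_lit 298) (nat_lit 204) (.p (nat_lit 299) (nat_lit 224) (.n (nat_lit 301) (nat_lit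 64) (.n (nat_lit 302) (nat_lit 200) (.p (nat_lit 303) (nat_lit 184) (.p (nat_lit 304) (nat_lit 4) (.p (nat_lit 305) (nat_lit 20) (.p (nat_lit 306) (nat_lit 308) (.p (nat_lit 307) (nat_lit 72) (.p (nat_lit 308) (nat_lit 72) (.n (nat_lit 310) (nat_lit 72) (.p (nat_lit 311) (nat_lit 84) (.p (nat_lit 312) (nat_lit 24) (.p (nat_lit 313) (nat_lit 12) (.n (nat_lit 315) (nat_lit 12) (.n (nat_lit 316) (nat_lit 60) (.p (nat_lit 319) (nat_lit 60) (.n (nat_lit 321) (nat_lit 24) (.n (nat_lit 322) (nat_lit 12) (.p (nat_lit 323) (nat_lit 60) (.p (nat_lit 324) (nat_lit 24) (.p (nat_lit 327) (nat_lit 12) (.n (nat_lit 328) (nat_lit 48) (.n (nat_lit 329) (nat_lit 24) .z))))))))))))))))))))))))))))))))))))))) (.ct dW4x_c4371 (nat_lit 36) (nat_lit 8) (.s true (nat_lit 1) (nat_lit 26) (nat_lit 1) (nat_lit 3) (nat_lit 2) true (nat_lit 8) true (nat_lit 12) false (nat_lit 0) true (nat_lit 13) true (nat_lit 11) (.e true (nat_lit 36)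 (nat_lit 159) (nat_lit 2) (nat_lit 12) (.e true (nat_lit 36) (nat_lit 26) (nat_lit 24) (nat_lit 0) (.e false (nat_lit 36) (nat_lit 177) (nat_lit 1) (nat_lit 13) (.e false (nat_lit 36) (nat_lit 144) (nat_lit 3) (nat_lit 11) .nil)))))) (.nd (.nd (.nd .leaf (nat_lit 78848) (nat_lit 228) (.p (nat_lit 154) (nat_lit 36) .z) .df .leaf) (nat_lit 78849) (nat_lit 240) (.p (nat_lit 162) (nat_lit 36) .z) .df .leaf) (nat_lit 78850) (nat_lit 260) (.p (nat_lit 173) (nat_lit 36) .z) .df (.nd .leaf (nat_lit 78852) (nat_lit 450) (.p (nat_lit 241) (nat_lit 72) (.n (nat_lit 243) (nat_lit 36) (.n (nat_lit 244) (nat_lit 36) (.n (nat_lit 245) (nat_lit 36) (.p (nat_lit 246) (nat_lit 36) (.p (nat_lit 248) (nat_lit 36) (.n (nat_lit 249) (nat_lit 72) (.p (nat_lit 251) (nat_lit 36) (.n (nat_lit 252) (nat_lit 36) (.n (nat_lit 253) (nat_lit 72) (.n (nat_lit 254) (nat_lit 36) (.n (nat_lit 255) (nat_lit 36) (.n (nat_lit 256) (nat_lit 36)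 (.p (nat_lit 258) (nat_lit 72) (.n (nat_lit 259) (nat_lit 72) .z))))))))))))))) (.ct dW4x_c8451 (nat_lit 36) (nat_lit 6) (.s false (nat_lit 1) (nat_lit 27) (nat_lit 1) (nat_lit 3) (nat_lit 0) true (nat_lit 6) true (nat_lit 9) false (nat_lit 0) true (nat_lit 8) true (nat_lit 7) (.s false (nat_lit 1) (nat_lit 27) (nat_lit 3) (nat_lit 1) (nat_lit 0) true (nat_lit 5) true (nat_lit 9) false (nat_lit 0) true (nat_lit 7) true (nat_lit 8) (.e false (nat_lit 36) (nat_lit 160) (nat_lit 0) (nat_lit 9) (.e true (nat_lit 36) (nat_lit 154) (nat_lit 1) (nat_lit 8) (.e true (nat_lit 72) (nat_lit 155) (nat_lit 1) (nat_lit 8) (.e true (nat_lit 36) (nat_lit 62) (nat_lit 7) (nat_lit 5) (.e false (nat_lit 36) (nat_lit 162) (nat_lit 0) (nat_lit 9) (.e false (nat_lit 72) (nat_lit 109) (nat_lit 3) (nat_lit 7) (.e true (nat_lit 72) (nat_lit 112) (nat_lit 3) (nat_lit 7) (.e true (nat_lit 36) (nat_lit 113) (nat_lit 3) (nat_lit 7) (.e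 false (nat_lit 72) (nat_lit 114) (nat_lit 3) (nat_lit 7) .nil)))))))))))) .leaf))) (nat_lit 78853) (nat_lit 500) (.p (nat_lit 262) (nat_lit 72) (.n (nat_lit 264) (nat_lit 36) (.n (nat_lit 265) (nat_lit 36) (.n (nat_lit 266) (nat_lit 36) (.p (nat_lit 267) (nat_lit 36) (.p (nat_lit 269) (nat_lit 36) (.n (nat_lit 270) (nat_lit 72) (.p (nat_lit 272) (nat_lit 36) (.n (nat_lit 273) (nat_lit 36) (.n (nat_lit 274) (nat_lit 72) (.n (nat_lit 275) (nat_lit 36) (.n (nat_lit 276) (nat_lit 36) (.n (nat_lit 277) (nat_lit 36) (.p (nat_lit 279) (nat_lit 72) (.n (nat_lit 280) (nat_lit 72) .z))))))))))))))) (.ct dW4x_c8211 (nat_lit 36) (nat_lit 6) (.s false (nat_lit 1) (nat_lit 27) (nat_lit 2) (nat_lit 3) (nat_lit 0) true (nat_lit 6) true (nat_lit 9) false (nat_lit 0) true (nat_lit 8) true (nat_lit 7) (.s false (nat_lit 1) (nat_lit 27) (nat_lit 3) (nat_lit 2) (nat_lit 0) true (nat_lit 5) true (nat_lit 9) false (nat_lit 0) true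 (nat_lit 7) true (nat_lit 8) (.e false (nat_lit 36) (nat_lit 171) (nat_lit 0) (nat_lit 9) (.e true (nat_lit 36) (nat_lit 154) (nat_lit 2) (nat_lit 8) (.e true (nat_lit 72) (nat_lit 155) (nat_lit 2) (nat_lit 8) (.e true (nat_lit 36) (nat_lit 68) (nat_lit 7) (nat_lit 5) (.e false (nat_lit 36) (nat_lit 173) (nat_lit 0) (nat_lit 9) (.e false (nat_lit 72) (nat_lit 120) (nat_lit 3) (nat_lit 7) (.e true (nat_lit 72) (nat_lit 123) (nat_lit 3) (nat_lit 7) (.e true (nat_lit 36) (nat_lit 124) (nat_lit 3) (nat_lit 7) (.e false (nat_lit 72) (nat_lit 125) (nat_lit 3) (nat_lit 7) .nil)))))))))))) (.nd (.nd (.nd (.nd .leaf (nat_lit 78854) (nat_lit 598) (.n (nat_lit 283) (nat_lit 68) (.n (nat_lit 284) (nat_lit 440) (.n (nat_lit 285) (nat_lit 28) (.p (nat_lit 286) (nat_lit 100) (.n (nat_lit 287) (nat_lit 164) (.n (nat_lit 288) (nat_lit 152) (.p (nat_lit 289) (nat_lit 132) (.p (nat_lit 290) (nat_lit 400) (.n (nat_lit 291) (nat_lit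 120) (.p (nat_lit 292) (nat_lit 148) (.p (nat_lit 293) (nat_lit 240) (.p (nat_lit 294) (nat_lit 64) (.p (nat_lit 295) (nat_lit 260) (.n (nat_lit 296) (nat_lit 96) (.n (nat_lit 297) (nat_lit 360) (.p (nat_lit 298) (nat_lit 336) (.n (nat_lit 299) (nat_lit 280) (.p (nat_lit 301) (nat_lit 332) (.p (nat_lit 302) (nat_lit 340) (.n (nat_lit 303) (nat_lit 536) (.n (nat_lit 304) (nat_lit 104) (.p (nat_lit 305) (nat_lit 20) (.n (nat_lit 306) (nat_lit 412) (.n (nat_lit 307) (nat_lit 252) (.n (nat_lit 309) (nat_lit 180) (.p (nat_lit 310) (nat_lit 324) (.n (nat_lit 311) (nat_lit 420) (.n (nat_lit 312) (nat_lit 84) (.n (nat_lit 313) (nat_lit 240) (.n (nat_lit 314) (nat_lit 180) (.n (nat_lit 315) (nat_lit 48) (.p (nat_lit 316) (nat_lit 120) (.n (nat_lit 317) (nat_lit 36) (.n (nat_lit 318) (nat_lit 216) (.n (nat_lit 319) (nat_lit 300) (.n (nat_lit 320) (nat_lit 36) (.p (nat_lit 321) (nat_lit 120) (.p (nat_lit 322) (nat_lit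 60) (.n (nat_lit 323) (nat_lit 84) (.p (nat_lit 324) (nat_lit 132) (.p (nat_lit 325) (nat_lit 252) (.p (nat_lit 326) (nat_lit 216) (.n (nat_lit 327) (nat_lit 312) (.p (nat_lit 328) (nat_lit 24) (.p (nat_lit 329) (nat_lit 300) .z))))))))))))))))))))))))))))))))))))))))))))) (.ct dW4x_c4371 (nat_lit 36) (nat_lit 8) (.s true (nat_lit 1) (nat_lit 27) (nat_lit 1) (nat_lit 3) (nat_lit 2) true (nat_lit 8) true (nat_lit 12) false (nat_lit 0) true (nat_lit 13) true (nat_lit 11) (.s true (nat_lit 1) (nat_lit 27) (nat_lit 3) (nat_lit 1) (nat_lit 2) true (nat_lit 5) true (nat_lit 12) false (nat_lit 0) true (nat_lit 11) true (nat_lit 13) (.e true (nat_lit 36) (nat_lit 160) (nat_lit 2) (nat_lit 12) (.e false (nat_lit 72) (nat_lit 167) (nat_lit 1) (nat_lit 13) (.e false (nat_lit 72) (nat_lit 168) (nat_lit 1) (nat_lit 13) (.e false (nat_lit 72) (nat_lit 172) (nat_lit 1) (nat_lit 13) (.e true (nat_lit 36) (nat_lit 175) (nat_lit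 1) (nat_lit 13) (.e true (nat_lit 36) (nat_lit 176) (nat_lit 1) (nat_lit 13) (.e false (nat_lit 36) (nat_lit 62) (nat_lit 9) (nat_lit 5) (.e true (nat_lit 36) (nat_lit 162) (nat_lit 2) (nat_lit 12) (.e true (nat_lit 36) (nat_lit 128) (nat_lit 3) (nat_lit 11) (.e true (nat_lit 36) (nat_lit 136) (nat_lit 3) (nat_lit 11) (.e false (nat_lit 36) (nat_lit 139) (nat_lit 3) (nat_lit 11) (.e false (nat_lit 36) (nat_lit 140) (nat_lit 3) (nat_lit 11) (.e true (nat_lit 36) (nat_lit 141) (nat_lit 3) (nat_lit 11) (.e false (nat_lit 36) (nat_lit 142) (nat_lit 3) (nat_lit 11) (.e true (nat_lit 36) (nat_lit 144) (nat_lit 3) (nat_lit 11) (.e false (nat_lit 36) (nat_lit 146) (nat_lit 3) (nat_lit 11) (.e false (nat_lit 36) (nat_lit 147) (nat_lit 3) (nat_lit 11) (.e false (nat_lit 36) (nat_lit 150) (nat_lit 3) (nat_lit 11) .nil))))))))))))))))))))) .leaf) (nat_lit 79872) (nat_lit 229) (.p (nat_lit 155) (nat_lit 36) .z) .df .leaf)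 (nat_lit 79873) (nat_lit 241) (.p (nat_lit 163) (nat_lit 36) .z) .df (.nd .leaf (nat_lit 79874) (nat_lit 261) (.p (nat_lit 174) (nat_lit 36) .z) .df .leaf)) (nat_lit 79876) (nat_lit 455) (.n (nat_lit 241) (nat_lit 540) (.p (nat_lit 242) (nat_lit 108) (.p (nat_lit 243) (nat_lit 216) (.p (nat_lit 244) (nat_lit 864) (.p (nat_lit 245) (nat_lit 468) (.n (nat_lit 246) (nat_lit 252) (.n (nat_lit 247) (nat_lit 468) (.n (nat_lit 248) (nat_lit 432) (.p (nat_lit 249) (nat_lit 1116) (.p (nat_lit 250) (nat_lit 180) (.n (nat_lit 251) (nat_lit 72) (.n (nat_lit 252) (nat_lit 288) (.n (nat_lit 253) (nat_lit 360) (.p (nat_lit 254) (nat_lit 180) (.n (nat_lit 255) (nat_lit 36) (.p (nat_lit 256) (nat_lit 360) (.n (nat_lit 257) (nat_lit 360) (.n (nat_lit 258) (nat_lit 36) (.p (nat_lit 259) (nat_lit 360) (.p (nat_lit 260) (nat_lit 144) (.p (nat_lit 261) (nat_lit 252) .z))))))))))))))))))))) (.ct dW4x_c8451 (nat_lit 36) (nat_lit 6)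 (.s true (nat_lit 1) (nat_lit 32) (nat_lit 0) (nat_lit 0) (nat_lit 1) true (nat_lit 6) true (nat_lit 8) false (nat_lit 2) true (nat_lit 9) true (nat_lit 9) (.e true (nat_lit 36) (nat_lit 155) (nat_lit 1) (nat_lit 8) (.e false (nat_lit 72) (nat_lit 158) (nat_lit 0) (nat_lit 9) (.e false (nat_lit 72) (nat_lit 161) (nat_lit 0) (nat_lit 9) (.e false (nat_lit 36) (nat_lit 165) (nat_lit 0) (nat_lit 9) (.e true (nat_lit 36) (nat_lit 162) (nat_lit 0) (nat_lit 9) (.e true (nat_lit 36) (nat_lit 163) (nat_lit 0) (nat_lit 9) (.e true (nat_lit 36) (nat_lit 164) (nat_lit 0) (nat_lit 9) .nil))))))))) (.nd (.nd .leaf (nat_lit 79877) (nat_lit 505) (.n (nat_lit 262) (nat_lit 540) (.p (nat_lit 263) (nat_lit 108) (.p (nat_lit 264) (nat_lit 216) (.p (nat_lit 265) (nat_lit 864) (.p (nat_lit 266) (nat_lit 468) (.n (nat_lit 267) (nat_lit 252) (.n (nat_lit 268) (nat_lit 468) (.n (nat_lit 269) (nat_lit 432) (.p (nat_lit 270) (nat_lit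 1116) (.p (nat_lit 271) (nat_lit 180) (.n (nat_lit 272) (nat_lit 72) (.n (nat_lit 273) (nat_lit 288) (.n (nat_lit 274) (nat_lit 360) (.p (nat_lit 275) (nat_lit 180) (.n (nat_lit 276) (nat_lit 36) (.p (nat_lit 277) (nat_lit 360) (.n (nat_lit 278) (nat_lit 360) (.n (nat_lit 279) (nat_lit 36) (.p (nat_lit 280) (nat_lit 360) (.p (nat_lit 281) (nat_lit 144) (.p (nat_lit 282) (nat_lit 252) .z))))))))))))))))))))) (.ct dW4x_c8211 (nat_lit 36) (nat_lit 6) (.s true (nat_lit 1) (nat_lit 32) (nat_lit 0) (nat_lit 0) (nat_lit 2) true (nat_lit 6) true (nat_lit 8) false (nat_lit 2) true (nat_lit 9) true (nat_lit 9) (.e true (nat_lit 36) (nat_lit 155) (nat_lit 2) (nat_lit 8) (.e false (nat_lit 72) (nat_lit 169) (nat_lit 0) (nat_lit 9) (.e false (nat_lit 72) (nat_lit 172) (nat_lit 0) (nat_lit 9) (.e false (nat_lit 36) (nat_lit 176) (nat_lit 0) (nat_lit 9) (.e true (nat_lit 36) (nat_lit 173) (nat_lit 0) (nat_lit 9) (.e true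 (nat_lit 36) (nat_lit 174) (nat_lit 0) (nat_lit 9) (.e true (nat_lit 36) (nat_lit 175) (nat_lit 0) (nat_lit 9) .nil))))))))) .leaf) (nat_lit 79878) (nat_lit 605) (.p (nat_lit 283) (nat_lit 124) (.p (nat_lit 284) (nat_lit 544) (.p (nat_lit 285) (nat_lit 14) (.n (nat_lit 286) (nat_lit 86) (.p (nat_lit 287) (nat_lit 136) (.p (nat_lit 288) (nat_lit 220) (.n (nat_lit 289) (nat_lit 174) (.n (nat_lit 290) (nat_lit 452) (.p (nat_lit 291) (nat_lit 132) (.n (nat_lit 292) (nat_lit 128) (.n (nat_lit 293) (nat_lit 210) (.n (nat_lit 294) (nat_lit 86) (.n (nat_lit 295) (nat_lit 256) (.p (nat_lit 296) (nat_lit 84) (.p (nat_lit 297) (nat_lit 396) (.n (nat_lit 298) (nat_lit 330) (.p (nat_lit 299) (nat_lit 248) (.n (nat_lit 301) (nat_lit 400) (.n (nat_lit 302) (nat_lit 350) (.p (nat_lit 303) (nat_lit 610) (.p (nat_lit 304) (nat_lit 160) (.n (nat_lit 305) (nat_lit 46) (.p (nat_lit 306) (nat_lit 422) (.p (nat_lit 307) (nat_lit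 216) (.n (nat_lit 308) (nat_lit 90) (.p (nat_lit 309) (nat_lit 234) (.n (nat_lit 310) (nat_lit 342) (.p (nat_lit 311) (nat_lit 408) (.p (nat_lit 312) (nat_lit 42) (.p (nat_lit 313) (nat_lit 282) (.p (nat_lit 314) (nat_lit 234) (.p (nat_lit 315) (nat_lit 78) (.n (nat_lit 316) (nat_lit 114) (.p (nat_lit 317) (nat_lit 90) (.p (nat_lit 318) (nat_lit 270) (.p (nat_lit 319) (nat_lit 294) (.p (nat_lit 320) (nat_lit 90) (.n (nat_lit 321) (nat_lit 78) (.n (nat_lit 322) (nat_lit 48) (.p (nat_lit 323) (nat_lit 78) (.n (nat_lit 324) (nat_lit 192) (.n (nat_lit 325) (nat_lit 306) (.n (nat_lit 326) (nat_lit 270) (.p (nat_lit 327) (nat_lit 390) (.p (nat_lit 328) (nat_lit 6) (.n (nat_lit 329) (nat_lit 348) .z)))))))))))))))))))))))))))))))))))))))))))))) (.ct dW4x_c4371 (nat_lit 36) (nat_lit 8) (.s false (nat_lit 1) (nat_lit 7) (nat_lit 6) (nat_lit 3) (nat_lit 3) true (nat_lit 0) true (nat_lit 11) true (nat_lit 7) true (nat_lit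 8) true (nat_lit 11) (.s true (nat_lit 1) (nat_lit 23) (nat_lit 0) (nat_lit 3) (nat_lit 3) true (nat_lit 7) true (nat_lit 11) true (nat_lit 0) true (nat_lit 14) true (nat_lit 11) (.e true (nat_lit 36) (nat_lit 128) (nat_lit 3) (nat_lit 11) (.e true (nat_lit 36) (nat_lit 129) (nat_lit 3) (nat_lit 11) (.e true (nat_lit 36) (nat_lit 130) (nat_lit 3) (nat_lit 11) (.e true (nat_lit 36) (nat_lit 131) (nat_lit 3) (nat_lit 11) (.e false (nat_lit 36) (nat_lit 132) (nat_lit 3) (nat_lit 11) (.e false (nat_lit 36) (nat_lit 133) (nat_lit 3) (nat_lit 11) (.e false (nat_lit 36) (nat_lit 134) (nat_lit 3) (nat_lit 11) (.e true (nat_lit 36) (nat_lit 77) (nat_lit 6) (nat_lit 8) (.e false (nat_lit 36) (nat_lit 150) (nat_lit 3) (nat_lit 11) (.e false (nat_lit 36) (nat_lit 187) (nat_lit 0) (nat_lit 14) (.e true (nat_lit 36) (nat_lit 147) (nat_lit 3) (nat_lit 11) .nil)))))))))))))) (.nd .leaf (nat_lit 80896) (nat_lit 253) (.n (nat_lit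 156) (nat_lit 36) (.n (nat_lit 157) (nat_lit 72) (.p (nat_lit 158) (nat_lit 36) (.n (nat_lit 159) (nat_lit 36) (.n (nat_lit 161) (nat_lit 36) (.p (nat_lit 162) (nat_lit 36) (.p (nat_lit 163) (nat_lit 36) (.p (nat_lit 164) (nat_lit 36) (.p (nat_lit 165) (nat_lit 36) (.n (nat_lit 166) (nat_lit 36) .z)))))))))) (.ct dW4x_c4355 (nat_lit 36) (nat_lit 6) (.s true (nat_lit 1) (nat_lit 8) (nat_lit 3) (nat_lit 0) (nat_lit 3) true (nat_lit 0) true (nat_lit 4) true (nat_lit 1) true (nat_lit 4) true (nat_lit 6) (.e false (nat_lit 36) (nat_lit 19) (nat_lit 10) (nat_lit 0) (.e true (nat_lit 72) (nat_lit 63) (nat_lit 3) (nat_lit 4) (.e true (nat_lit 36) (nat_lit 26) (nat_lit 8) (nat_lit 1) (.e true (nat_lit 36) (nat_lit 58) (nat_lit 3) (nat_lit 4) (.e true (nat_lit 36) (nat_lit 59) (nat_lit 3) (nat_lit 4) (.e false (nat_lit 36) (nat_lit 62) (nat_lit 3) (nat_lit 4) .nil)))))))) .leaf))))) (nat_lit 80898) (nat_lit 292) (.p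 (nat_lit 178) (nat_lit 36) (.p (nat_lit 179) (nat_lit 36) (.n (nat_lit 180) (nat_lit 36) (.n (nat_lit 181) (nat_lit 36) (.p (nat_lit 184) (nat_lit 36) (.n (nat_lit 187) (nat_lit 36) (.n (nat_lit 188) (nat_lit 36) .z))))))) (.ct dW4x_c275 (nat_lit 36) (nat_lit 5) (.s true (nat_lit 1) (nat_lit 8) (nat_lit 3) (nat_lit 3) (nat_lit 2) true (nat_lit 1) true (nat_lit 5) true (nat_lit 2) true (nat_lit 4) true (nat_lit 4) (.e true (nat_lit 36) (nat_lit 28) (nat_lit 9) (nat_lit 1) (.e true (nat_lit 36) (nat_lit 31) (nat_lit 8) (nat_lit 2) (.e false (nat_lit 36) (nat_lit 70) (nat_lit 3) (nat_lit 4) (.e false (nat_lit 72) (nat_lit 71) (nat_lit 3) (nat_lit 4) (.e true (nat_lit 36) (nat_lit 74) (nat_lit 3) (nat_lit 4) (.e false (nat_lit 36) (nat_lit 75) (nat_lit 3) (nat_lit 4) .nil)))))))) (.nd (.nd (.nd (.nd (.nd (.nd .leaf (nat_lit 80901) (nat_lit 618) (.p (nat_lit 283) (nat_lit 248) (.p (nat_lit 284) (nat_lit 116) (.p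 (nat_lit 285) (nat_lit 226) (.p (nat_lit 286) (nat_lit 242) (.n (nat_lit 287) (nat_lit 232) (.p (nat_lit 288) (nat_lit 368) (.n (nat_lit 289) (nat_lit 294) (.n (nat_lit 290) (nat_lit 4) (.n (nat_lit 291) (nat_lit 132) (.n (nat_lit 292) (nat_lit 4) (.p (nat_lit 293) (nat_lit 462) (.n (nat_lit 294) (nat_lit 154) (.p (nat_lit 295) (nat_lit 64) (.n (nat_lit 296) (nat_lit 228) (.n (nat_lit 297) (nat_lit 396) (.p (nat_lit 298) (nat_lit 366) (.n (nat_lit 299) (nat_lit 548) (.p (nat_lit 301) (nat_lit 172) (.p (nat_lit 302) (nat_lit 434) (.n (nat_lit 303) (nat_lit 310) (.p (nat_lit 304) (nat_lit 32) (.n (nat_lit 305) (nat_lit 38) (.n (nat_lit 306) (nat_lit 830) (.n (nat_lit 307) (nat_lit 108) (.n (nat_lit 308) (nat_lit 198) (.p (nat_lit 309) (nat_lit 90) (.p (nat_lit 310) (nat_lit 18) (.n (nat_lit 311) (nat_lit 84) (.n (nat_lit 312) (nat_lit 42) (.p (nat_lit 313) (nat_lit 42) (.p (nat_lit 314) (nat_lit 162) (.p (nat_lit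 315) (nat_lit 102) (.p (nat_lit 316) (nat_lit 150) (.p (nat_lit 317) (nat_lit 54) (.p (nat_lit 318) (nat_lit 126) (.p (nat_lit 319) (nat_lit 30) (.p (nat_lit 320) (nat_lit 18) (.p (nat_lit 321) (nat_lit 42) (.p (nat_lit 322) (nat_lit 12) (.n (nat_lit 323) (nat_lit 78) (.n (nat_lit 324) (nat_lit 132) (.n (nat_lit 325) (nat_lit 126) (.n (nat_lit 326) (nat_lit 126) (.p (nat_lit 327) (nat_lit 114) (.p (nat_lit 328) (nat_lit 30) (.n (nat_lit 329) (nat_lit 120) .z)))))))))))))))))))))))))))))))))))))))))))))) (.ct dW4x_c4371 (nat_lit 36) (nat_lit 9) (.s false (nat_lit 1) (nat_lit 28) (nat_lit 2) (nat_lit 3) (nat_lit 0) true (nat_lit 9) true (nat_lit 14) false (nat_lit 1) true (nat_lit 12) true (nat_lit 11) (.e false (nat_lit 36) (nat_lit 181) (nat_lit 0) (nat_lit 14) (.e false (nat_lit 36) (nat_lit 28) (nat_lit 22) (nat_lit 1) (.e true (nat_lit 36) (nat_lit 157) (nat_lit 2) (nat_lit 12) (.e true (nat_lit 36) (nat_lit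 159) (nat_lit 2) (nat_lit 12) (.e false (nat_lit 36) (nat_lit 162) (nat_lit 2) (nat_lit 12) (.e false (nat_lit 36) (nat_lit 163) (nat_lit 2) (nat_lit 12) (.e true (nat_lit 36) (nat_lit 166) (nat_lit 2) (nat_lit 12) (.e true (nat_lit 36) (nat_lit 141) (nat_lit 3) (nat_lit 11) .nil)))))))))) .leaf) (nat_lit 81920) (nat_lit 242) (.p (nat_lit 164) (nat_lit 36) .z) .df .leaf) (nat_lit 81922) (nat_lit 280) (.p (nat_lit 184) (nat_lit 36) .z) .df (.nd .leaf (nat_lit 81925) (nat_lit 593) (.p (nat_lit 283) (nat_lit 280) (.p (nat_lit 284) (nat_lit 448) (.p (nat_lit 285) (nat_lit 254) (.p (nat_lit 286) (nat_lit 142) (.n (nat_lit 287) (nat_lit 68) (.p (nat_lit 288) (nat_lit 448) (.n (nat_lit 289) (nat_lit 426) (.n (nat_lit 290) (nat_lit 332) (.n (nat_lit 291) (nat_lit 48) (.n (nat_lit 292) (nat_lit 152) (.p (nat_lit 293) (nat_lit 294) (.n (nat_lit 294) (nat_lit 218) (.n (nat_lit 295) (nat_lit 232) (.n (nat_lit 296) (nat_lit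 168) (.n (nat_lit 297) (nat_lit 144) (.p (nat_lit 298) (nat_lit 138) (.n (nat_lit 299) (nat_lit 304) (.n (nat_lit 301) (nat_lit 88) (.p (nat_lit 302) (nat_lit 166) (.p (nat_lit 303) (nat_lit 118) (.p (nat_lit 304) (nat_lit 100) (.n (nat_lit 305) (nat_lit 22) (.n (nat_lit 306) (nat_lit 490) (.p (nat_lit 307) (nat_lit 180) (.n (nat_lit 308) (nat_lit 162) (.p (nat_lit 309) (nat_lit 234) (.n (nat_lit 310) (nat_lit 342) (.p (nat_lit 311) (nat_lit 372) (.p (nat_lit 312) (nat_lit 42) (.p (nat_lit 313) (nat_lit 246) (.p (nat_lit 314) (nat_lit 342) (.p (nat_lit 315) (nat_lit 186) (.p (nat_lit 316) (nat_lit 66) (.p (nat_lit 317) (nat_lit 90) (.p (nat_lit 318) (nat_lit 306) (.p (nat_lit 319) (nat_lit 294) (.p (nat_lit 320) (nat_lit 18) (.n (nat_lit 321) (nat_lit 42) (.n (nat_lit 322) (nat_lit 12) (.p (nat_lit 323) (nat_lit 6) (.n (nat_lit 324) (nat_lit 228) (.n (nat_lit 325) (nat_lit 306) (.n (nat_lit 326) (nat_lit 306)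 (.p (nat_lit 327) (nat_lit 354) (.n (nat_lit 328) (nat_lit 66) (.n (nat_lit 329) (nat_lit 384) .z)))))))))))))))))))))))))))))))))))))))))))))) (.ct dW4x_c4371 (nat_lit 36) (nat_lit 9) (.s true (nat_lit 1) (nat_lit 10) (nat_lit 5) (nat_lit 3) (nat_lit 1) true (nat_lit 3) true (nat_lit 13) true (nat_lit 4) true (nat_lit 9) true (nat_lit 11) (.s true (nat_lit 1) (nat_lit 20) (nat_lit 1) (nat_lit 3) (nat_lit 3) true (nat_lit 6) true (nat_lit 11) true (nat_lit 1) true (nat_lit 13) true (nat_lit 11) (.s true (nat_lit 1) (nat_lit 20) (nat_lit 3) (nat_lit 1) (nat_lit 3) true (nat_lit 4) true (nat_lit 11) true (nat_lit 1) true (nat_lit 11) true (nat_lit 13) (.s true (nat_lit 1) (nat_lit 32) (nat_lit 0) (nat_lit 2) (nat_lit 1) true (nat_lit 10) true (nat_lit 13) false (nat_lit 3) true (nat_lit 14) true (nat_lit 12) dW4x_i92))))) .leaf)) (nat_lit 82944) (nat_lit 246) (.p (nat_lit 157) (nat_lit 36) (.p (nat_lit 158) (nat_lit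 36) (.p (nat_lit 159) (nat_lit 36) (.p (nat_lit 161) (nat_lit 36) (.n (nat_lit 162) (nat_lit 36) (.n (nat_lit 163) (nat_lit 36) (.n (nat_lit 164) (nat_lit 36) .z))))))) (.ct dW4x_c4355 (nat_lit 36) (nat_lit 6) (.s false (nat_lit 1) (nat_lit 7) (nat_lit 1) (nat_lit 3) (nat_lit 3) true (nat_lit 1) true (nat_lit 4) true (nat_lit 2) true (nat_lit 5) true (nat_lit 4) (.s false (nat_lit 1) (nat_lit 8) (nat_lit 0) (nat_lit 3) (nat_lit 3) true (nat_lit 2) true (nat_lit 4) true (nat_lit 1) true (nat_lit 6) true (nat_lit 4) (.e false (nat_lit 36) (nat_lit 59) (nat_lit 3) (nat_lit 4) (.e true (nat_lit 36) (nat_lit 77) (nat_lit 1) (nat_lit 5) (.e true (nat_lit 36) (nat_lit 78) (nat_lit 1) (nat_lit 5) (.e false (nat_lit 36) (nat_lit 61) (nat_lit 3) (nat_lit 4) (.e false (nat_lit 36) (nat_lit 60) (nat_lit 3) (nat_lit 4) (.e true (nat_lit 36) (nat_lit 80) (nat_lit 0) (nat_lit 6) (.e false (nat_lit 36) (nat_lit 63) (nat_lit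 3) (nat_lit 4) .nil)))))))))) (.nd (.nd (.nd .leaf (nat_lit 82946) (nat_lit 281) (.p (nat_lit 185) (nat_lit 36) .z) .df .leaf) (nat_lit 82949) (nat_lit 603) (.p (nat_lit 283) (nat_lit 84) (.p (nat_lit 284) (nat_lit 228) (.p (nat_lit 285) (nat_lit 42) (.n (nat_lit 286) (nat_lit 6) (.p (nat_lit 287) (nat_lit 12) (.p (nat_lit 288) (nat_lit 120) (.n (nat_lit 289) (nat_lit 90) (.n (nat_lit 290) (nat_lit 168) (.p (nat_lit 291) (nat_lit 36) (.n (nat_lit 292) (nat_lit 24) (.n (nat_lit 293) (nat_lit 54) (.n (nat_lit 294) (nat_lit 6) (.n (nat_lit 295) (nat_lit 84) (.p (nat_lit 296) (nat_lit 36) (.p (nat_lit 297) (nat_lit 108) (.n (nat_lit 298) (nat_lit 90) (.p (nat_lit 299) (nat_lit 24) (.n (nat_lit 301) (nat_lit 156) (.n (nat_lit 302) (nat_lit 78) (.p (nat_lit 303) (nat_lit 210) (.p (nat_lit 304) (nat_lit 48) (.n (nat_lit 305) (nat_lit 30) (.p (nat_lit 306) (nat_lit 42) (.n (nat_lit 308) (nat_lit 90) (.p (nat_lit 309)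 (nat_lit 126) (.n (nat_lit 310) (nat_lit 90) (.p (nat_lit 311) (nat_lit 108) (.n (nat_lit 312) (nat_lit 18) (.p (nat_lit 313) (nat_lit 90) (.p (nat_lit 314) (nat_lit 90) (.p (nat_lit 315) (nat_lit 54) (.n (nat_lit 316) (nat_lit 18) (.p (nat_lit 317) (nat_lit 54) (.p (nat_lit 318) (nat_lit 126) (.p (nat_lit 319) (nat_lit 90) (.p (nat_lit 320) (nat_lit 54) (.n (nat_lit 321) (nat_lit 18) (.n (nat_lit 322) (nat_lit 36) (.p (nat_lit 323) (nat_lit 18) (.n (nat_lit 324) (nat_lit 108) (.n (nat_lit 325) (nat_lit 126) (.n (nat_lit 326) (nat_lit 126) (.p (nat_lit 327) (nat_lit 162) (.p (nat_lit 328) (nat_lit 54) (.n (nat_lit 329) (nat_lit 144) .z))))))))))))))))))))))))))))))))))))))))))))) (.ct dW4x_c4371 (nat_lit 36) (nat_lit 9) (.s false (nat_lit 1) (nat_lit 32) (nat_lit 1) (nat_lit 2) (nat_lit 0) true (nat_lit 10) true (nat_lit 14) false (nat_lit 3) true (nat_lit 13) true (nat_lit 12) (.s false (nat_lit 1) (nat_lit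 32) (nat_lit 2) (nat_lit 1) (nat_lit 0) true (nat_lit 9) true (nat_lit 14) false (nat_lit 3) true (nat_lit 12) true (nat_lit 13) (.e true (nat_lit 36) (nat_lit 84) (nat_lit 4) (nat_lit 10) (.e true (nat_lit 36) (nat_lit 168) (nat_lit 1) (nat_lit 13) (.e false (nat_lit 36) (nat_lit 169) (nat_lit 1) (nat_lit 13) (.e true (nat_lit 36) (nat_lit 170) (nat_lit 1) (nat_lit 13) (.e false (nat_lit 36) (nat_lit 172) (nat_lit 1) (nat_lit 13) (.e false (nat_lit 36) (nat_lit 176) (nat_lit 1) (nat_lit 13) (.e true (nat_lit 36) (nat_lit 163) (nat_lit 2) (nat_lit 12) (.e false (nat_lit 36) (nat_lit 179) (nat_lit 0) (nat_lit 14) (.e false (nat_lit 36) (nat_lit 180) (nat_lit 0) (nat_lit 14) (.e false (nat_lit 36) (nat_lit 181) (nat_lit 0) (nat_lit 14) (.e false (nat_lit 36) (nat_lit 183) (nat_lit 0) (nat_lit 14) (.e true (nat_lit 36) (nat_lit 184) (nat_lit 0) (nat_lit 14) (.e true (nat_lit 36) (nat_lit 186) (nat_lit 0) (nat_lit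 14) (.e true (nat_lit 36) (nat_lit 157) (nat_lit 2) (nat_lit 12) (.e false (nat_lit 36) (nat_lit 158) (nat_lit 2) (nat_lit 12) (.e true (nat_lit 36) (nat_lit 159) (nat_lit 2) (nat_lit 12) (.e false (nat_lit 36) (nat_lit 161) (nat_lit 2) (nat_lit 12) (.e false (nat_lit 36) (nat_lit 165) (nat_lit 2) (nat_lit 12) (.e true (nat_lit 36) (nat_lit 174) (nat_lit 1) (nat_lit 13) .nil)))))))))))))))))))))) .leaf) (nat_lit 83968) (nat_lit 273) (.n (nat_lit 167) (nat_lit 36) (.n (nat_lit 168) (nat_lit 72) (.p (nat_lit 169) (nat_lit 36) (.n (nat_lit 170) (nat_lit 36) (.n (nat_lit 172) (nat_lit 36) (.p (nat_lit 173) (nat_lit 36) (.p (nat_lit 174) (nat_lit 36) (.p (nat_lit 175) (nat_lit 36) (.p (nat_lit 176) (nat_lit 36) (.n (nat_lit 177) (nat_lit 36) .z)))))))))) (.ct dW4x_c4115 (nat_lit 36) (nat_lit 6) (.s true (nat_lit 1) (nat_lit 9) (nat_lit 3) (nat_lit 0) (nat_lit 3) true (nat_lit 0) true (nat_lit 4) true (nat_lit 1)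 true (nat_lit 4) true (nat_lit 6) (.e false (nat_lit 36) (nat_lit 22) (nat_lit 10) (nat_lit 0) (.e true (nat_lit 72) (nat_lit 69) (nat_lit 3) (nat_lit 4) (.e true (nat_lit 36) (nat_lit 26) (nat_lit 9) (nat_lit 1) (.e true (nat_lit 36) (nat_lit 64) (nat_lit 3) (nat_lit 4) (.e true (nat_lit 36) (nat_lit 65) (nat_lit 3) (nat_lit 4) (.e false (nat_lit 36) (nat_lit 68) (nat_lit 3) (nat_lit 4) .nil)))))))) (.nd .leaf (nat_lit 83969) (nat_lit 293) (.n (nat_lit 178) (nat_lit 36) (.n (nat_lit 179) (nat_lit 72) (.p (nat_lit 180) (nat_lit 36) (.n (nat_lit 181) (nat_lit 36) (.n (nat_lit 183) (nat_lit 36) (.p (nat_lit 184) (nat_lit 36) (.p (nat_lit 185) (nat_lit 36) (.p (nat_lit 186) (nat_lit 36) (.p (nat_lit 187) (nat_lit 36) (.n (nat_lit 188) (nat_lit 36) .z)))))))))) (.ct dW4x_c275 (nat_lit 36) (nat_lit 6) (.s true (nat_lit 1) (nat_lit 9) (nat_lit 3) (nat_lit 1) (nat_lit 3) true (nat_lit 0) true (nat_lit 4) true (nat_lit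 1) true (nat_lit 4) true (nat_lit 6) (.e false (nat_lit 36) (nat_lit 25) (nat_lit 10) (nat_lit 0) (.e true (nat_lit 72) (nat_lit 75) (nat_lit 3) (nat_lit 4) (.e true (nat_lit 36) (nat_lit 28) (nat_lit 9) (nat_lit 1) (.e true (nat_lit 36) (nat_lit 70) (nat_lit 3) (nat_lit 4) (.e true (nat_lit 36) (nat_lit 71) (nat_lit 3) (nat_lit 4) (.e false (nat_lit 36) (nat_lit 74) (nat_lit 3) (nat_lit 4) .nil)))))))) .leaf))) (nat_lit 83972) (nat_lit 619) (.p (nat_lit 283) (nat_lit 40) (.p (nat_lit 284) (nat_lit 136) (.p (nat_lit 285) (nat_lit 8) (.n (nat_lit 286) (nat_lit 8) (.p (nat_lit 287) (nat_lit 16) (.p (nat_lit 288) (nat_lit 100) (.n (nat_lit 289) (nat_lit 48) (.n (nat_lit 290) (nat_lit 104) (.p (nat_lit 291) (nat_lit 24) (.n (nat_lit 292) (nat_lit 32) (.n (nat_lit 293) (nat_lit 12) (.n (nat_lit 294) (nat_lit 8) (.n (nat_lit 295) (nat_lit 28) (.p (nat_lit 296) (nat_lit 12) (.p (nat_lit 297) (nat_lit 72) (.n (nat_lit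 298) (nat_lit 60) (.p (nat_lit 299) (nat_lit 44) (.n (nat_lit 301) (nat_lit 100) (.n (nat_lit 302) (nat_lit 56) (.p (nat_lit 303) (nat_lit 112) (.p (nat_lit 304) (nat_lit 40) (.n (nat_lit 305) (nat_lit 16) (.p (nat_lit 306) (nat_lit 56) (.p (nat_lit 307) (nat_lit 36) (.n (nat_lit 308) (nat_lit 36) (.p (nat_lit 309) (nat_lit 36) (.n (nat_lit 310) (nat_lit 36) (.p (nat_lit 311) (nat_lit 48) (.n (nat_lit 312) (nat_lit 12) (.p (nat_lit 313) (nat_lit 48) (.p (nat_lit 314) (nat_lit 36) (.n (nat_lit 315) (nat_lit 12) (.n (nat_lit 316) (nat_lit 24) (.p (nat_lit 317) (nat_lit 36) (.p (nat_lit 318) (nat_lit 36) (.p (nat_lit 319) (nat_lit 24) (.p (nat_lit 320) (nat_lit 36) (.p (nat_lit 321) (nat_lit 12) (.p (nat_lit 322) (nat_lit 24) (.n (nat_lit 323) (nat_lit 12) (.n (nat_lit 324) (nat_lit 48) (.n (nat_lit 325) (nat_lit 72) (.n (nat_lit 326) (nat_lit 36) (.p (nat_lit 327) (nat_lit 120) (.p (nat_lit 328) (nat_lit 24)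 (.n (nat_lit 329) (nat_lit 60) .z)))))))))))))))))))))))))))))))))))))))))))))) (.ct dW4x_c4371 (nat_lit 36) (nat_lit 10) (.s false (nat_lit 1) (nat_lit 30) (nat_lit 1) (nat_lit 3) (nat_lit 0) true (nat_lit 10) true (nat_lit 14) false (nat_lit 2) true (nat_lit 13) true (nat_lit 11) (.e false (nat_lit 36) (nat_lit 183) (nat_lit 0) (nat_lit 14) (.e false (nat_lit 36) (nat_lit 30) (nat_lit 19) (nat_lit 2) (.e true (nat_lit 36) (nat_lit 168) (nat_lit 1) (nat_lit 13) (.e true (nat_lit 36) (nat_lit 170) (nat_lit 1) (nat_lit 13) (.e false (nat_lit 36) (nat_lit 173) (nat_lit 1) (nat_lit 13) (.e false (nat_lit 36) (nat_lit 174) (nat_lit 1) (nat_lit 13) (.e true (nat_lit 36) (nat_lit 177) (nat_lit 1) (nat_lit 13) (.e true (nat_lit 36) (nat_lit 146) (nat_lit 3) (nat_lit 11) .nil)))))))))) (.nd (.nd (.nd (.nd .leaf (nat_lit 84992) (nat_lit 262) (.p (nat_lit 175) (nat_lit 36) .z) .df .leaf) (nat_lit 84993) (nat_lit 282)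 (.p (nat_lit 186) (nat_lit 36) .z) .df .leaf) (nat_lit 84996) (nat_lit 592) (.p (nat_lit 283) (nat_lit 128) (.p (nat_lit 284) (nat_lit 284) (.p (nat_lit 285) (nat_lit 4) (.n (nat_lit 286) (nat_lit 40) (.p (nat_lit 287) (nat_lit 8) (.p (nat_lit 288) (nat_lit 176) (.n (nat_lit 289) (nat_lit 96) (.n (nat_lit 290) (nat_lit 196) (.p (nat_lit 291) (nat_lit 48) (.n (nat_lit 292) (nat_lit 52) (.n (nat_lit 293) (nat_lit 96) (.n (nat_lit 294) (nat_lit 40) (.n (nat_lit 295) (nat_lit 68) (.n (nat_lit 296) (nat_lit 12) (.p (nat_lit 297) (nat_lit 144) (.n (nat_lit 298) (nat_lit 84) (.p (nat_lit 299) (nat_lit 76) (.n (nat_lit 301) (nat_lit 212) (.n (nat_lit 302) (nat_lit 100) (.p (nat_lit 303) (nat_lit 272) (.p (nat_lit 304) (nat_lit 92) (.n (nat_lit 305) (nat_lit 44) (.p (nat_lit 306) (nat_lit 100) (.p (nat_lit 307) (nat_lit 36) (.n (nat_lit 308) (nat_lit 72) (.p (nat_lit 309) (nat_lit 72) (.n (nat_lit 310) (nat_lit 108)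 (.p (nat_lit 311) (nat_lit 96) (.p (nat_lit 312) (nat_lit 12) (.p (nat_lit 313) (nat_lit 132) (.p (nat_lit 314) (nat_lit 108) (.p (nat_lit 315) (nat_lit 48) (.n (nat_lit 316) (nat_lit 48) (.p (nat_lit 317) (nat_lit 72) (.p (nat_lit 318) (nat_lit 108) (.p (nat_lit 319) (nat_lit 84) (.p (nat_lit 320) (nat_lit 72) (.n (nat_lit 321) (nat_lit 12) (.p (nat_lit 322) (nat_lit 12) (.p (nat_lit 323) (nat_lit 12) (.n (nat_lit 324) (nat_lit 96) (.n (nat_lit 325) (nat_lit 144) (.n (nat_lit 326) (nat_lit 108) (.p (nat_lit 327) (nat_lit 168) (.p (nat_lit 328) (nat_lit 48) (.n (nat_lit 329) (nat_lit 156) .z)))))))))))))))))))))))))))))))))))))))))))))) (.ct dW4x_c4371 (nat_lit 36) (nat_lit 10) (.s false (nat_lit 1) (nat_lit 9) (nat_lit 4) (nat_lit 3) (nat_lit 3) true (nat_lit 2) true (nat_lit 11) true (nat_lit 5) true (nat_lit 10) true (nat_lit 11) (.s true (nat_lit 1) (nat_lit 17) (nat_lit 2) (nat_lit 3) (nat_lit 3) true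 (nat_lit 5) true (nat_lit 11) true (nat_lit 2) true (nat_lit 12) true (nat_lit 11) (.e false (nat_lit 48) (nat_lit 127) (nat_lit 3) (nat_lit 11) (.e false (nat_lit 48) (nat_lit 131) (nat_lit 3) (nat_lit 11) (.e true (nat_lit 24) (nat_lit 133) (nat_lit 3) (nat_lit 11) (.e true (nat_lit 24) (nat_lit 135) (nat_lit 3) (nat_lit 11) (.e true (nat_lit 36) (nat_lit 84) (nat_lit 4) (nat_lit 10) (.e false (nat_lit 48) (nat_lit 126) (nat_lit 3) (nat_lit 11) (.e true (nat_lit 12) (nat_lit 128) (nat_lit 3) (nat_lit 11) (.e true (nat_lit 24) (nat_lit 129) (nat_lit 3) (nat_lit 11) (.e true (nat_lit 24) (nat_lit 130) (nat_lit 3) (nat_lit 11) (.e true (nat_lit 24) (nat_lit 137) (nat_lit 3) (nat_lit 11) (.e false (nat_lit 24) (nat_lit 138) (nat_lit 3) (nat_lit 11) (.e true (nat_lit 36) (nat_lit 139) (nat_lit 3) (nat_lit 11) (.e false (nat_lit 36) (nat_lit 141) (nat_lit 3) (nat_lit 11) (.e true (nat_lit 12) (nat_lit 142) (nat_lit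 3) (nat_lit 11) (.e true (nat_lit 12) (nat_lit 144) (nat_lit 3) (nat_lit 11) (.e false (nat_lit 12) (nat_lit 145) (nat_lit 3) (nat_lit 11) (.e false (nat_lit 12) (nat_lit 146) (nat_lit 3) (nat_lit 11) (.e false (nat_lit 12) (nat_lit 147) (nat_lit 3) (nat_lit 11) (.e true (nat_lit 12) (nat_lit 149) (nat_lit 3) (nat_lit 11) (.e true (nat_lit 12) (nat_lit 150) (nat_lit 3) (nat_lit 11) (.e false (nat_lit 36) (nat_lit 165) (nat_lit 2) (nat_lit 12) (.e true (nat_lit 36) (nat_lit 136) (nat_lit 3) (nat_lit 11) .nil))))))))))))))))))))))))) (.nd .leaf (nat_lit 86016) (nat_lit 266) (.p (nat_lit 168) (nat_lit 36) (.p (nat_lit 169) (nat_lit 36) (.p (nat_lit 170) (nat_lit 36) (.p (nat_lit 172) (nat_lit 36) (.n (nat_lit 173) (nat_lit 36) (.n (nat_lit 174) (nat_lit 36) (.n (nat_lit 175) (nat_lit 36) .z))))))) (.ct dW4x_c4115 (nat_lit 36) (nat_lit 6) (.s false (nat_lit 1) (nat_lit 7) (nat_lit 2) (nat_lit 3) (nat_lit 3) true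 (nat_lit 1) true (nat_lit 4) true (nat_lit 2) true (nat_lit 5) true (nat_lit 4) (.s false (nat_lit 1) (nat_lit 9) (nat_lit 0) (nat_lit 3) (nat_lit 3) true (nat_lit 2) true (nat_lit 4) true (nat_lit 1) true (nat_lit 6) true (nat_lit 4) (.e false (nat_lit 36) (nat_lit 65) (nat_lit 3) (nat_lit 4) (.e true (nat_lit 36) (nat_lit 77) (nat_lit 2) (nat_lit 5) (.e true (nat_lit 36) (nat_lit 78) (nat_lit 2) (nat_lit 5) (.e false (nat_lit 36) (nat_lit 67) (nat_lit 3) (nat_lit 4) (.e false (nat_lit 36) (nat_lit 66) (nat_lit 3) (nat_lit 4) (.e true (nat_lit 36) (nat_lit 83) (nat_lit 0) (nat_lit 6) (.e false (nat_lit 36) (nat_lit 69) (nat_lit 3) (nat_lit 4) .nil)))))))))) .leaf)) (nat_lit 86017) (nat_lit 286) (.p (nat_lit 179) (nat_lit 36) (.p (nat_lit 180) (nat_lit 36) (.p (nat_lit 181) (nat_lit 36) (.p (nat_lit 183) (nat_lit 36) (.n (nat_lit 184) (nat_lit 36) (.n (nat_lit 185) (nat_lit 36) (.n (nat_lit 186) (nat_lit 36)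 .z))))))) (.ct dW4x_c275 (nat_lit 36) (nat_lit 6) (.s false (nat_lit 1) (nat_lit 8) (nat_lit 2) (nat_lit 3) (nat_lit 3) true (nat_lit 1) true (nat_lit 4) true (nat_lit 2) true (nat_lit 5) true (nat_lit 4) (.s false (nat_lit 1) (nat_lit 9) (nat_lit 1) (nat_lit 3) (nat_lit 3) true (nat_lit 2) true (nat_lit 4) true (nat_lit 1) true (nat_lit 6) true (nat_lit 4) (.e false (nat_lit 36) (nat_lit 71) (nat_lit 3) (nat_lit 4) (.e true (nat_lit 36) (nat_lit 80) (nat_lit 2) (nat_lit 5) (.e true (nat_lit 36) (nat_lit 81) (nat_lit 2) (nat_lit 5) (.e false (nat_lit 36) (nat_lit 73) (nat_lit 3) (nat_lit 4) (.e false (nat_lit 36) (nat_lit 72) (nat_lit 3) (nat_lit 4) (.e true (nat_lit 36) (nat_lit 83) (nat_lit 1) (nat_lit 6) (.e false (nat_lit 36) (nat_lit 75) (nat_lit 3) (nat_lit 4) .nil)))))))))) (.nd (.nd (.nd .leaf (nat_lit 86020) (nat_lit 571) (.n (nat_lit 283) (nat_lit 80) (.n (nat_lit 284) (nat_lit 236) (.n (nat_lit 285)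 (nat_lit 16) (.p (nat_lit 286) (nat_lit 16) (.n (nat_lit 287) (nat_lit 32) (.n (nat_lit 288) (nat_lit 128) (.p (nat_lit 289) (nat_lit 96) (.p (nat_lit 290) (nat_lit 172) (.n (nat_lit 291) (nat_lit 48) (.p (nat_lit 292) (nat_lit 28) (.p (nat_lit 293) (nat_lit 60) (.p (nat_lit 294) (nat_lit 16) (.p (nat_lit 295) (nat_lit 92) (.n (nat_lit 296) (nat_lit 24) (.n (nat_lit 297) (nat_lit 144) (.p (nat_lit 298) (nat_lit 120) (.n (nat_lit 299) (nat_lit 88) (.p (nat_lit 301) (nat_lit 200) (.p (nat_lit 302) (nat_lit 112) (.n (nat_lit 303) (nat_lit 260) (.n (nat_lit 304) (nat_lit 80) (.p (nat_lit 305) (nat_lit 32) (.n (nat_lit 306) (nat_lit 112) (.n (nat_lit 307) (nat_lit 36) (.p (nat_lit 308) (nat_lit 72) (.n (nat_lit 309) (nat_lit 72) (.p (nat_lit 310) (nat_lit 108) (.n (nat_lit 311) (nat_lit 96) (.n (nat_lit 312) (nat_lit 12) (.n (nat_lit 313) (nat_lit 132) (.n (nat_lit 314) (nat_lit 108) (.n (nat_lit 315) (nat_lit 12)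 (.p (nat_lit 316) (nat_lit 48) (.n (nat_lit 317) (nat_lit 72) (.n (nat_lit 318) (nat_lit 108) (.n (nat_lit 319) (nat_lit 84) (.n (nat_lit 320) (nat_lit 72) (.p (nat_lit 321) (nat_lit 12) (.n (nat_lit 322) (nat_lit 12) (.n (nat_lit 323) (nat_lit 12) (.p (nat_lit 324) (nat_lit 96) (.p (nat_lit 325) (nat_lit 144) (.p (nat_lit 326) (nat_lit 108) (.n (nat_lit 327) (nat_lit 168) (.n (nat_lit 328) (nat_lit 48) (.p (nat_lit 329) (nat_lit 156) .z)))))))))))))))))))))))))))))))))))))))))))))) (.ct dW4x_c4371 (nat_lit 36) (nat_lit 10) (.s true (nat_lit 1) (nat_lit 9) (nat_lit 3) (nat_lit 4) (nat_lit 3) true (nat_lit 4) true (nat_lit 11) true (nat_lit 5) true (nat_lit 11) true (nat_lit 10) (.s true (nat_lit 1) (nat_lit 10) (nat_lit 3) (nat_lit 2) (nat_lit 4) true (nat_lit 2) true (nat_lit 10) true (nat_lit 4) true (nat_lit 11) true (nat_lit 12) (.s true (nat_lit 1) (nat_lit 19) (nat_lit 2) (nat_lit 3) (nat_lit 3) true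 (nat_lit 5) true (nat_lit 11) true (nat_lit 2) true (nat_lit 12) true (nat_lit 11) (.s false (nat_lit 1) (nat_lit 17) (nat_lit 3) (nat_lit 3) (nat_lit 2) true (nat_lit 5) true (nat_lit 12) true (nat_lit 2) true (nat_lit 11) true (nat_lit 11) dW4x_i79))))) .leaf) (nat_lit 87043) (nat_lit 347) (.n (nat_lit 189) (nat_lit 144) (.p (nat_lit 190) (nat_lit 72) (.p (nat_lit 191) (nat_lit 72) (.n (nat_lit 192) (nat_lit 36) (.p (nat_lit 193) (nat_lit 180) (.n (nat_lit 194) (nat_lit 36) (.n (nat_lit 196) (nat_lit 144) (.n (nat_lit 198) (nat_lit 144) (.n (nat_lit 199) (nat_lit 180) (.p (nat_lit 200) (nat_lit 72) (.n (nat_lit 201) (nat_lit 72) (.p (nat_lit 202) (nat_lit 108) (.p (nat_lit 203) (nat_lit 108) (.n (nat_lit 204) (nat_lit 180) (.p (nat_lit 205) (nat_lit 216) (.n (nat_lit 206) (nat_lit 72) (.n (nat_lit 207) (nat_lit 144) (.p (nat_lit 208) (nat_lit 144) (.n (nat_lit 209) (nat_lit 72) (.p (nat_lit 210) (nat_lit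 36) (.p (nat_lit 211) (nat_lit 144) (.n (nat_lit 221) (nat_lit 132) (.p (nat_lit 222) (nat_lit 168) (.p (nat_lit 223) (nat_lit 108) (.p (nat_lit 224) (nat_lit 24) (.n (nat_lit 225) (nat_lit 96) (.n (nat_lit 228) (nat_lit 24) (.p (nat_lit 229) (nat_lit 96) (.p (nat_lit 230) (nat_lit 60) (.n (nat_lit 231) (nat_lit 60) (.p (nat_lit 232) (nat_lit 84) (.p (nat_lit 233) (nat_lit 48) (.p (nat_lit 234) (nat_lit 24) (.n (nat_lit 235) (nat_lit 48) (.n (nat_lit 236) (nat_lit 48) (.n (nat_lit 237) (nat_lit 24) (.p (nat_lit 238) (nat_lit 48) .z))))))))))))))))))))))))))))))))))))) (.ct dW4x_c8466 (nat_lit 72) (nat_lit 12) (.s true (nat_lit 2) (nat_lit 5) (nat_lit 3) (nat_lit 3) (nat_lit 4) true (nat_lit 0) true (nat_lit 11) true (nat_lit 10) true (nat_lit 12) true (nat_lit 12) (.s true (nat_lit 4) (nat_lit 5) (nat_lit 4) (nat_lit 3) (nat_lit 3) true (nat_lit 0) true (nat_lit 12) true (nat_lit 10) true (nat_lit 11) true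 (nat_lit 12) (.s true (nat_lit 2) (nat_lit 7) (nat_lit 0) (nat_lit 3) (nat_lit 6) true (nat_lit 2) true (nat_lit 9) true (nat_lit 8) true (nat_lit 15) true (nat_lit 12) (.s true (nat_lit 2) (nat_lit 7) (nat_lit 1) (nat_lit 5) (nat_lit 3) true (nat_lit 7) true (nat_lit 12) true (nat_lit 8) true (nat_lit 14) true (nat_lit 10) (.s true (nat_lit 2) (nat_lit 7) (nat_lit 2) (nat_lit 3) (nat_lit 4) true (nat_lit 2) true (nat_lit 11) true (nat_lit 8) true (nat_lit 13) true (nat_lit 12) (.s true (nat_lit 2) (nat_lit 7) (nat_lit 4) (nat_lit 3) (nat_lit 2) true (nat_lit 2) true (nat_lit 13) true (nat_lit 8) true (nat_lit 11) true (nat_lit 12) (.s true (nat_lit 4) (nat_lit 8) (nat_lit 3) (nat_lit 0) (nat_lit 5) false (nat_lit 0) true (nat_lit 10) true (nat_lit 7) true (nat_lit 12) true (nat_lit 15) dW4x_i5)))))))) .leaf) (nat_lit 88067) (nat_lit 326) (.p (nat_lit 221) (nat_lit 36) .z) .df (.nd .leaf (nat_lit 89091) (nat_lit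 327) (.p (nat_lit 222) (nat_lit 36) .z) .df .leaf)))) (nat_lit 90115) (nat_lit 328) (.p (nat_lit 223) (nat_lit 36) .z) .df (.nd (.nd (.nd (.nd (.nd .leaf (nat_lit 91139) (nat_lit 329) (.p (nat_lit 224) (nat_lit 36) .z) .df .leaf) (nat_lit 92163) (nat_lit 330) (.p (nat_lit 225) (nat_lit 36) .z) .df .leaf) (nat_lit 93187) (nat_lit 331) (.p (nat_lit 226) (nat_lit 36) .z) .df (.nd .leaf (nat_lit 94211) (nat_lit 332) (.p (nat_lit 227) (nat_lit 36) .z) .df .leaf)) (nat_lit 95235) (nat_lit 333) (.p (nat_lit 228) (nat_lit 36) .z) .df (.nd (.nd (.nd .leaf (nat_lit 96259) (nat_lit 334) (.p (nat_lit 229) (nat_lit 36) .z) .df .leaf) (nat_lit 97283) (nat_lit 335) (.p (nat_lit 230) (nat_lit 36) .z) .df .leaf) (nat_lit 98307) (nat_lit 336) (.p (nat_lit 231) (nat_lit 36) .z) .df (.nd .leaf (nat_lit 99331) (nat_lit 337) (.p (nat_lit 232) (nat_lit 36) .z) .df .leaf))) (nat_lit 100355) (nat_lit 338) (.p (nat_lit 233) (nat_lit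 36) .z) .df (.nd (.nd (.nd (.nd .leaf (nat_lit 101379) (nat_lit 339) (.p (nat_lit 234) (nat_lit 36) .z) .df .leaf) (nat_lit 102403) (nat_lit 340) (.p (nat_lit 235) (nat_lit 36) .z) .df .leaf) (nat_lit 103427) (nat_lit 341) (.p (nat_lit 236) (nat_lit 36) .z) .df (.nd .leaf (nat_lit 104451) (nat_lit 342) (.p (nat_lit 237) (nat_lit 36) .z) .df .leaf)) (nat_lit 105475) (nat_lit 343) (.p (nat_lit 238) (nat_lit 36) .z) .df (.nd (.nd .leaf (nat_lit 106498) (nat_lit 368) (.n (nat_lit 189) (nat_lit 114) (.p (nat_lit 190) (nat_lit 30) (.p (nat_lit 191) (nat_lit 66) (.n (nat_lit 192) (nat_lit 18) (.p (nat_lit 193) (nat_lit 102) (.p (nat_lit 194) (nat_lit 42) (.n (nat_lit 195) (nat_lit 60) (.p (nat_lit 196) (nat_lit 48) (.n (nat_lit 197) (nat_lit 132) (.n (nat_lit 198) (nat_lit 156) (.n (nat_lit 199) (nat_lit 162) (.n (nat_lit 200) (nat_lit 126) (.p (nat_lit 201) (nat_lit 54) (.p (nat_lit 202) (nat_lit 96) (.p (nat_lit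 203) (nat_lit 102) (.n (nat_lit 204) (nat_lit 192) (.p (nat_lit 205) (nat_lit 36) (.n (nat_lit 206) (nat_lit 60) (.n (nat_lit 207) (nat_lit 48) (.p (nat_lit 208) (nat_lit 60) (.n (nat_lit 209) (nat_lit 108) (.n (nat_lit 210) (nat_lit 12) (.n (nat_lit 211) (nat_lit 96) (.p (nat_lit 212) (nat_lit 72) (.n (nat_lit 213) (nat_lit 72) (.p (nat_lit 214) (nat_lit 42) (.n (nat_lit 215) (nat_lit 36) (.n (nat_lit 216) (nat_lit 24) (.p (nat_lit 217) (nat_lit 6) (.p (nat_lit 218) (nat_lit 78) (.p (nat_lit 219) (nat_lit 66) (.n (nat_lit 220) (nat_lit 24) (.p (nat_lit 221) (nat_lit 104) (.n (nat_lit 222) (nat_lit 56) (.n (nat_lit 223) (nat_lit 24) (.p (nat_lit 224) (nat_lit 52) (.n (nat_lit 225) (nat_lit 28) (.n (nat_lit 226) (nat_lit 132) (.n (nat_lit 227) (nat_lit 60) (.n (nat_lit 228) (nat_lit 52) (.n (nat_lit 229) (nat_lit 44) (.n (nat_lit 230) (nat_lit 26) (.p (nat_lit 231) (nat_lit 86) (.p (nat_lit 232) (nat_lit 26)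 (.n (nat_lit 233) (nat_lit 34) (.p (nat_lit 234) (nat_lit 82) (.p (nat_lit 235) (nat_lit 10) (.n (nat_lit 236) (nat_lit 8) (.p (nat_lit 237) (nat_lit 20) (.n (nat_lit 238) (nat_lit 40) (.p (nat_lit 239) (nat_lit 120) (.n (nat_lit 240) (nat_lit 60) .z)))))))))))))))))))))))))))))))))))))))))))))))))))) (.ct dW4x_c8466 (nat_lit 36) (nat_lit 13) (.s false (nat_lit 1) (nat_lit 7) (nat_lit 2) (nat_lit 3) (nat_lit 4) true (nat_lit 2) true (nat_lit 11) true (nat_lit 8) true (nat_lit 13) true (nat_lit 12) (.s false (nat_lit 1) (nat_lit 7) (nat_lit 4) (nat_lit 3) (nat_lit 2) true (nat_lit 2) true (nat_lit 13) true (nat_lit 8) true (nat_lit 11) true (nat_lit 12) (.s true (nat_lit 1) (nat_lit 17) (nat_lit 2) (nat_lit 3) (nat_lit 0) true (nat_lit 10) true (nat_lit 15) true (nat_lit 0) true (nat_lit 13) true (nat_lit 12) (.s true (nat_lit 1) (nat_lit 17) (nat_lit 3) (nat_lit 2) (nat_lit 0) true (nat_lit 8) true (nat_lit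 15) true (nat_lit 0) true (nat_lit 12) true (nat_lit 13) (.e false (nat_lit 72) (nat_lit 65) (nat_lit 4) (nat_lit 11) (.e false (nat_lit 36) (nat_lit 46) (nat_lit 7) (nat_lit 8) (.e false (nat_lit 36) (nat_lit 50) (nat_lit 7) (nat_lit 8) (.e true (nat_lit 36) (nat_lit 52) (nat_lit 7) (nat_lit 8) (.e true (nat_lit 36) (nat_lit 54) (nat_lit 7) (nat_lit 8) (.e false (nat_lit 72) (nat_lit 110) (nat_lit 2) (nat_lit 13) (.e true (nat_lit 72) (nat_lit 111) (nat_lit 2) (nat_lit 13) (.e false (nat_lit 132) (nat_lit 89) (nat_lit 3) (nat_lit 12) dW4x_i38))))))))))))) .leaf) (nat_lit 106499) (nat_lit 438) (.n (nat_lit 242) (nat_lit 36) (.p (nat_lit 243) (nat_lit 18) (.n (nat_lit 244) (nat_lit 90) (.n (nat_lit 245) (nat_lit 54) (.n (nat_lit 246) (nat_lit 18) (.p (nat_lit 247) (nat_lit 36) (.p (nat_lit 248) (nat_lit 54) (.n (nat_lit 249) (nat_lit 36) (.n (nat_lit 251) (nat_lit 54) (.p (nat_lit 252) (nat_lit 72) (.p (nat_lit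 253) (nat_lit 108) (.p (nat_lit 254) (nat_lit 90) (.p (nat_lit 255) (nat_lit 126) (.n (nat_lit 256) (nat_lit 18) (.p (nat_lit 257) (nat_lit 36) (.n (nat_lit 258) (nat_lit 108) (.p (nat_lit 259) (nat_lit 72) (.n (nat_lit 260) (nat_lit 18) .z)))))))))))))))))) (.ct dW4x_c8451 (nat_lit 36) (nat_lit 7) (.s false (nat_lit 1) (nat_lit 7) (nat_lit 1) (nat_lit 3) (nat_lit 7) true (nat_lit 0) true (nat_lit 5) true (nat_lit 5) true (nat_lit 8) true (nat_lit 7) (.s true (nat_lit 1) (nat_lit 7) (nat_lit 1) (nat_lit 7) (nat_lit 3) true (nat_lit 4) true (nat_lit 7) true (nat_lit 5) true (nat_lit 8) true (nat_lit 5) (.s false (nat_lit 1) (nat_lit 8) (nat_lit 0) (nat_lit 7) (nat_lit 3) true (nat_lit 5) true (nat_lit 7) true (nat_lit 4) true (nat_lit 9) true (nat_lit 5) (.s true (nat_lit 1) (nat_lit 8) (nat_lit 7) (nat_lit 0) (nat_lit 3) false (nat_lit 0) true (nat_lit 7) true (nat_lit 4) true (nat_lit 5) true (nat_lit 9) (.s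 true (nat_lit 1) (nat_lit 10) (nat_lit 0) (nat_lit 8) (nat_lit 0) false (nat_lit 10) true (nat_lit 9) true (nat_lit 3) true (nat_lit 9) true (nat_lit 4) (.s false (nat_lit 1) (nat_lit 16) (nat_lit 3) (nat_lit 3) (nat_lit 1) true (nat_lit 4) true (nat_lit 8) true (nat_lit 1) true (nat_lit 7) true (nat_lit 7) (.s false (nat_lit 1) (nat_lit 17) (nat_lit 0) (nat_lit 3) (nat_lit 3) true (nat_lit 5) true (nat_lit 7) true (nat_lit 0) true (nat_lit 9) true (nat_lit 7) (.s false (nat_lit 1) (nat_lit 19) (nat_lit 3) (nat_lit 0) (nat_lit 3) true (nat_lit 3) true (nat_lit 7) true (nat_lit 0) true (nat_lit 7) true (nat_lit 9) (.s false (nat_lit 1) (nat_lit 26) (nat_lit 0) (nat_lit 1) (nat_lit 3) true (nat_lit 5) true (nat_lit 7) false (nat_lit 0) true (nat_lit 9) true (nat_lit 8) (.s false (nat_lit 1) (nat_lit 26) (nat_lit 3) (nat_lit 0) (nat_lit 1) true (nat_lit 4) true (nat_lit 8) false (nat_lit 0) true (nat_lit 7) true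 (nat_lit 9) (.s true (nat_lit 1) (nat_lit 29) (nat_lit 0) (nat_lit 3) (nat_lit 0) false (nat_lit 10) true (nat_lit 9) false (nat_lit 1) true (nat_lit 9) true (nat_lit 7) (.e false (nat_lit 36) (nat_lit 59) (nat_lit 7) (nat_lit 5) (.e false (nat_lit 36) (nat_lit 62) (nat_lit 7) (nat_lit 5) (.e false (nat_lit 36) (nat_lit 151) (nat_lit 1) (nat_lit 8) (.e true (nat_lit 36) (nat_lit 109) (nat_lit 3) (nat_lit 7) (.e false (nat_lit 36) (nat_lit 110) (nat_lit 3) (nat_lit 7) (.e false (nat_lit 36) (nat_lit 112) (nat_lit 3) (nat_lit 7) (.e false (nat_lit 36) (nat_lit 113) (nat_lit 3) (nat_lit 7) (.e false (nat_lit 36) (nat_lit 166) (nat_lit 0) (nat_lit 9) (.e true (nat_lit 36) (nat_lit 159) (nat_lit 0) (nat_lit 9) (.e true (nat_lit 36) (nat_lit 162) (nat_lit 0) (nat_lit 9) (.e true (nat_lit 36) (nat_lit 161) (nat_lit 0) (nat_lit 9) .nil))))))))))))))))))))))) (.nd .leaf (nat_lit 107522) (nat_lit 359) (.n (nat_lit 189)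 (nat_lit 51) (.p (nat_lit 190) (nat_lit 12) (.p (nat_lit 191) (nat_lit 30) (.n (nat_lit 192) (nat_lit 18) (.p (nat_lit 193) (nat_lit 48) (.p (nat_lit 194) (nat_lit 24) (.n (nat_lit 195) (nat_lit 24) (.p (nat_lit 196) (nat_lit 30) (.n (nat_lit 197) (nat_lit 60) (.n (nat_lit 198) (nat_lit 66) (.n (nat_lit 199) (nat_lit 63) (.n (nat_lit 200) (nat_lit 63) (.p (nat_lit 201) (nat_lit 27) (.p (nat_lit 202) (nat_lit 24) (.p (nat_lit 203) (nat_lit 48) (.n (nat_lit 204) (nat_lit 84) (.p (nat_lit 205) (nat_lit 9) (.n (nat_lit 206) (nat_lit 33) (.n (nat_lit 207) (nat_lit 3) (.p (nat_lit 208) (nat_lit 15) (.n (nat_lit 209) (nat_lit 45) (.n (nat_lit 210) (nat_lit 3) (.n (nat_lit 211) (nat_lit 51) (.p (nat_lit 212) (nat_lit 36) (.n (nat_lit 213) (nat_lit 36) (.p (nat_lit 214) (nat_lit 15) (.n (nat_lit 215) (nat_lit 36) (.n (nat_lit 216) (nat_lit 15) (.p (nat_lit 217) (nat_lit 15) (.p (nat_lit 218) (nat_lit 51) (.p (nat_lit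 219) (nat_lit 21) (.n (nat_lit 220) (nat_lit 6) (.p (nat_lit 221) (nat_lit 47) (.n (nat_lit 222) (nat_lit 26) (.n (nat_lit 223) (nat_lit 6) (.p (nat_lit 224) (nat_lit 10) (.n (nat_lit 225) (nat_lit 4) (.n (nat_lit 226) (nat_lit 51) (.n (nat_lit 227) (nat_lit 15) (.n (nat_lit 228) (nat_lit 10) (.n (nat_lit 229) (nat_lit 32) (.n (nat_lit 230) (nat_lit 5) (.p (nat_lit 231) (nat_lit 29) (.p (nat_lit 232) (nat_lit 5) (.n (nat_lit 233) (nat_lit 1) (.p (nat_lit 234) (nat_lit 31) (.p (nat_lit 235) (nat_lit 4) (.n (nat_lit 236) (nat_lit 14) (.n (nat_lit 237) (nat_lit 1) (.n (nat_lit 238) (nat_lit 25) (.p (nat_lit 239) (nat_lit 39) (.n (nat_lit 240) (nat_lit 42) .z)))))))))))))))))))))))))))))))))))))))))))))))))))) (.ct dW4x_c8466 (nat_lit 36) (nat_lit 13) (.s false (nat_lit 1) (nat_lit 9) (nat_lit 4) (nat_lit 3) (nat_lit 0) true (nat_lit 4) true (nat_lit 15) true (nat_lit 6) true (nat_lit 11) true (nat_lit 12) (.s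 false (nat_lit 1) (nat_lit 17) (nat_lit 0) (nat_lit 2) (nat_lit 3) true (nat_lit 8) true (nat_lit 12) true (nat_lit 0) true (nat_lit 15) true (nat_lit 13) (.s true (nat_lit 1) (nat_lit 19) (nat_lit 0) (nat_lit 2) (nat_lit 3) true (nat_lit 8) true (nat_lit 12) true (nat_lit 0) true (nat_lit 15) true (nat_lit 13) (.s false (nat_lit 1) (nat_lit 17) (nat_lit 2) (nat_lit 0) (nat_lit 3) true (nat_lit 6) true (nat_lit 12) true (nat_lit 0) true (nat_lit 13) true (nat_lit 15) (.s false (nat_lit 1) (nat_lit 17) (nat_lit 2) (nat_lit 3) (nat_lit 0) true (nat_lit 10) true (nat_lit 15) true (nat_lit 0) true (nat_lit 13) true (nat_lit 12) (.s false (nat_lit 1) (nat_lit 17) (nat_lit 3) (nat_lit 2) (nat_lit 0) true (nat_lit 8) true (nat_lit 15) true (nat_lit 0) true (nat_lit 12) true (nat_lit 13) (.s false (nat_lit 1) (nat_lit 20) (nat_lit 1) (nat_lit 3) (nat_lit 0) true (nat_lit 11) true (nat_lit 15) false (nat_lit 0) true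 (nat_lit 14) true (nat_lit 12) (.s true (nat_lit 1) (nat_lit 30) (nat_lit 0) (nat_lit 0) (nat_lit 1) true (nat_lit 11) true (nat_lit 14) false (nat_lit 4) true (nat_lit 15) true (nat_lit 15) (.s false (nat_lit 1) (nat_lit 30) (nat_lit 0) (nat_lit 1) (nat_lit 0) false (nat_lit 16) true (nat_lit 15) false (nat_lit 4) true (nat_lit 15) true (nat_lit 14) (.e false (nat_lit 36) (nat_lit 127) (nat_lit 0) (nat_lit 15) (.e false (nat_lit 72) (nat_lit 131) (nat_lit 0) (nat_lit 15) (.e true (nat_lit 72) (nat_lit 133) (nat_lit 0) (nat_lit 15) (.e true (nat_lit 108) (nat_lit 135) (nat_lit 0) (nat_lit 15) (.e false (nat_lit 36) (nat_lit 65) (nat_lit 4) (nat_lit 11) (.e true (nat_lit 36) (nat_lit 68) (nat_lit 4) (nat_lit 11) (.e false (nat_lit 36) (nat_lit 85) (nat_lit 3) (nat_lit 12) dW4x_i29))))))))))))))))) .leaf))))))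

noncomputable def dW4x_t9 : Tr := (.nd dW4x_t7 (nat_lit 70663) (nat_lit 489) (.p (nat_lit 262) (nat_lit 684) (.n (nat_lit 263) (nat_lit 180) (.n (nat_lit 264) (nat_lit 252) (.n (nat_lit 265) (nat_lit 1224) (.n (nat_lit 266) (nat_lit 648) (.p (nat_lit 267) (nat_lit 288) (.p (nat_lit 268) (nat_lit 648) (.p (nat_lit 269) (nat_lit 612) (.n (nat_lit 270) (nat_lit 1548) (.n (nat_lit 271) (nat_lit 252) (.p (nat_lit 272) (nat_lit 36) (.p (nat_lit 273) (nat_lit 432) (.p (nat_lit 274) (nat_lit 576) (.n (nat_lit 275) (nat_lit 216) (.p (nat_lit 276) (nat_lit 108) (.n (nat_lit 277) (nat_lit 432) (.p (nat_lit 278) (nat_lit 468) (.n (nat_lit 279) (nat_lit 36) (.n (nat_lit 280) (nat_lit 432) (.n (nat_lit 281) (nat_lit 144) (.n (nat_lit 282) (nat_lit 396) .z))))))))))))))))))))) (.ct dW4x_c8211 (nat_lit 36) (nat_lit 5) (.s true (nat_lit 1) (nat_lit 9) (nat_lit 0) (nat_lit 7) (nat_lit 3) true (nat_lit 5) true (nat_lit 7) true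 (nat_lit 4) true (nat_lit 9) true (nat_lit 5) (.s true (nat_lit 1) (nat_lit 9) (nat_lit 7) (nat_lit 0) (nat_lit 3) false (nat_lit 0) true (nat_lit 7) true (nat_lit 4) true (nat_lit 5) true (nat_lit 9) (.s true (nat_lit 1) (nat_lit 10) (nat_lit 0) (nat_lit 9) (nat_lit 0) false (nat_lit 10) true (nat_lit 9) true (nat_lit 3) true (nat_lit 9) true (nat_lit 4) (.s false (nat_lit 1) (nat_lit 22) (nat_lit 3) (nat_lit 0) (nat_lit 3) true (nat_lit 3) true (nat_lit 7) true (nat_lit 0) true (nat_lit 7) true (nat_lit 9) (.s true (nat_lit 1) (nat_lit 20) (nat_lit 3) (nat_lit 3) (nat_lit 0) true (nat_lit 5) true (nat_lit 9) true (nat_lit 0) true (nat_lit 7) true (nat_lit 7) (.s true (nat_lit 1) (nat_lit 27) (nat_lit 2) (nat_lit 0) (nat_lit 3) true (nat_lit 4) true (nat_lit 7) false (nat_lit 0) true (nat_lit 8) true (nat_lit 9) (.e true (nat_lit 36) (nat_lit 64) (nat_lit 7) (nat_lit 5) (.e false (nat_lit 72) (nat_lit 117)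 (nat_lit 3) (nat_lit 7) (.e true (nat_lit 36) (nat_lit 120) (nat_lit 3) (nat_lit 7) (.e true (nat_lit 72) (nat_lit 121) (nat_lit 3) (nat_lit 7) (.e true (nat_lit 108) (nat_lit 125) (nat_lit 3) (nat_lit 7) (.e true (nat_lit 72) (nat_lit 177) (nat_lit 0) (nat_lit 9) (.e true (nat_lit 72) (nat_lit 168) (nat_lit 0) (nat_lit 9) (.e false (nat_lit 36) (nat_lit 173) (nat_lit 0) (nat_lit 9) (.e true (nat_lit 108) (nat_lit 167) (nat_lit 0) (nat_lit 9) (.e false (nat_lit 72) (nat_lit 171) (nat_lit 0) (nat_lit 9) (.e true (nat_lit 108) (nat_lit 172) (nat_lit 0) (nat_lit 9) (.e false (nat_lit 72) (nat_lit 122) (nat_lit 3) (nat_lit 7) (.e false (nat_lit 72) (nat_lit 116) (nat_lit 3) (nat_lit 7) (.e false (nat_lit 36) (nat_lit 152) (nat_lit 2) (nat_lit 8) (.e true (nat_lit 36) (nat_lit 154) (nat_lit 2) (nat_lit 8) (.e true (nat_lit 72) (nat_lit 155) (nat_lit 2) (nat_lit 8) .nil))))))))))))))))))))))) dW4x_t8)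

noncomputable def dW4x_t10 : Tr := (.nd (.nd (.nd (.nd (.nd (.nd (.nd .leaf (nat_lit 108546) (nat_lit 320) (.p (nat_lit 215) (nat_lit 36) .z) .df .leaf) (nat_lit 108547) (nat_lit 414) (.p (nat_lit 241) (nat_lit 36) .z) .df .leaf) (nat_lit 109570) (nat_lit 391) (.n (nat_lit 189) (nat_lit 111) (.n (nat_lit 190) (nat_lit 30) (.p (nat_lit 191) (nat_lit 36) (.n (nat_lit 192) (nat_lit 24) (.p (nat_lit 193) (nat_lit 6) (.n (nat_lit 194) (nat_lit 90) (.p (nat_lit 195) (nat_lit 48) (.p (nat_lit 196) (nat_lit 42) (.n (nat_lit 197) (nat_lit 24) (.n (nat_lit 198) (nat_lit 54) (.n (nat_lit 199) (nat_lit 207) (.n (nat_lit 200) (nat_lit 51) (.n (nat_lit 201) (nat_lit 21) (.p (nat_lit 202) (nat_lit 168) (.p (nat_lit 203) (nat_lit 138) (.n (nat_lit 204) (nat_lit 192) (.p (nat_lit 205) (nat_lit 159) (.n (nat_lit 206) (nat_lit 63) (.n (nat_lit 207) (nat_lit 153) (.p (nat_lit 208) (nat_lit 153) (.n (nat_lit 209) (nat_lit 123)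 (.p (nat_lit 210) (nat_lit 3) (.p (nat_lit 211) (nat_lit 63) (.p (nat_lit 212) (nat_lit 72) (.n (nat_lit 213) (nat_lit 72) (.p (nat_lit 214) (nat_lit 15) (.p (nat_lit 216) (nat_lit 3) (.n (nat_lit 217) (nat_lit 21) (.p (nat_lit 218) (nat_lit 51) (.p (nat_lit 219) (nat_lit 21) (.n (nat_lit 220) (nat_lit 42) (.p (nat_lit 221) (nat_lit 65) (.p (nat_lit 222) (nat_lit 10) (.n (nat_lit 223) (nat_lit 6) (.p (nat_lit 224) (nat_lit 46) (.n (nat_lit 225) (nat_lit 40) (.n (nat_lit 226) (nat_lit 105) (.n (nat_lit 227) (nat_lit 33) (.n (nat_lit 228) (nat_lit 46) (.n (nat_lit 229) (nat_lit 32) (.n (nat_lit 230) (nat_lit 5) (.p (nat_lit 231) (nat_lit 65) (.p (nat_lit 232) (nat_lit 41) (.n (nat_lit 233) (nat_lit 37) (.p (nat_lit 234) (nat_lit 103) (.p (nat_lit 235) (nat_lit 94) (.n (nat_lit 236) (nat_lit 50) (.p (nat_lit 237) (nat_lit 17) (.n (nat_lit 238) (nat_lit 43) (.p (nat_lit 239) (nat_lit 93) (.p (nat_lit 240) (nat_lit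 66) .z))))))))))))))))))))))))))))))))))))))))))))))))))) (.ct dW4x_c8466 (nat_lit 36) (nat_lit 13) (.s false (nat_lit 1) (nat_lit 16) (nat_lit 1) (nat_lit 2) (nat_lit 3) true (nat_lit 7) true (nat_lit 12) true (nat_lit 1) true (nat_lit 14) true (nat_lit 13) (.s false (nat_lit 1) (nat_lit 23) (nat_lit 3) (nat_lit 0) (nat_lit 0) true (nat_lit 8) true (nat_lit 15) false (nat_lit 1) true (nat_lit 12) true (nat_lit 15) (.e false (nat_lit 36) (nat_lit 42) (nat_lit 8) (nat_lit 7) (.e false (nat_lit 36) (nat_lit 89) (nat_lit 3) (nat_lit 12) (.e false (nat_lit 36) (nat_lit 117) (nat_lit 1) (nat_lit 14) (.e true (nat_lit 36) (nat_lit 120) (nat_lit 1) (nat_lit 14) (.e true (nat_lit 36) (nat_lit 121) (nat_lit 1) (nat_lit 14) (.e true (nat_lit 36) (nat_lit 122) (nat_lit 1) (nat_lit 14) (.e false (nat_lit 36) (nat_lit 124) (nat_lit 1) (nat_lit 14) (.e true (nat_lit 36) (nat_lit 125) (nat_lit 1) (nat_lit 14) (.e true (nat_lit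 36) (nat_lit 54) (nat_lit 7) (nat_lit 8) (.e false (nat_lit 36) (nat_lit 147) (nat_lit 0) (nat_lit 15) (.e true (nat_lit 36) (nat_lit 135) (nat_lit 0) (nat_lit 15) .nil)))))))))))))) (.nd .leaf (nat_lit 109571) (nat_lit 415) (.p (nat_lit 242) (nat_lit 36) .z) .df .leaf)) (nat_lit 110594) (nat_lit 321) (.p (nat_lit 216) (nat_lit 36) .z) .df (.nd (.nd (.nd .leaf (nat_lit 110595) (nat_lit 416) (.p (nat_lit 243) (nat_lit 36) .z) .df .leaf) (nat_lit 111618) (nat_lit 322) (.p (nat_lit 217) (nat_lit 36) .z) .df .leaf) (nat_lit 111619) (nat_lit 417) (.p (nat_lit 244) (nat_lit 36) .z) .df (.nd .leaf (nat_lit 112642) (nat_lit 323) (.p (nat_lit 218) (nat_lit 36) .z) .df .leaf))) (nat_lit 112643) (nat_lit 418) (.p (nat_lit 245) (nat_lit 36) .z) .df (.nd (.nd (.nd (.nd .leaf (nat_lit 113666) (nat_lit 324) (.p (nat_lit 219) (nat_lit 36) .z) .df .leaf) (nat_lit 113667) (nat_lit 419) (.p (nat_lit 246) (nat_lit 36) .z) .df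 .leaf) (nat_lit 114690) (nat_lit 371) (.n (nat_lit 189) (nat_lit 90) (.p (nat_lit 190) (nat_lit 36) (.p (nat_lit 191) (nat_lit 36) (.n (nat_lit 192) (nat_lit 36) (.p (nat_lit 193) (nat_lit 108) (.n (nat_lit 196) (nat_lit 72) (.n (nat_lit 198) (nat_lit 72) (.n (nat_lit 199) (nat_lit 90) (.p (nat_lit 200) (nat_lit 18) (.n (nat_lit 201) (nat_lit 18) (.p (nat_lit 202) (nat_lit 36) (.p (nat_lit 203) (nat_lit 72) (.n (nat_lit 204) (nat_lit 108) (.p (nat_lit 205) (nat_lit 90) (.n (nat_lit 206) (nat_lit 18) (.n (nat_lit 207) (nat_lit 54) (.p (nat_lit 208) (nat_lit 54) (.n (nat_lit 209) (nat_lit 18) (.p (nat_lit 210) (nat_lit 18) (.p (nat_lit 211) (nat_lit 90) (.n (nat_lit 214) (nat_lit 18) (.p (nat_lit 216) (nat_lit 18) (.p (nat_lit 217) (nat_lit 18) (.n (nat_lit 218) (nat_lit 18) (.p (nat_lit 219) (nat_lit 18) (.n (nat_lit 221) (nat_lit 30) (.p (nat_lit 222) (nat_lit 48) (.p (nat_lit 223) (nat_lit 36) (.n (nat_lit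 224) (nat_lit 24) (.n (nat_lit 225) (nat_lit 12) (.p (nat_lit 226) (nat_lit 18) (.p (nat_lit 227) (nat_lit 18) (.p (nat_lit 228) (nat_lit 24) (.p (nat_lit 229) (nat_lit 12) (.p (nat_lit 230) (nat_lit 30) (.n (nat_lit 231) (nat_lit 30) (.p (nat_lit 232) (nat_lit 6) (.p (nat_lit 233) (nat_lit 42) (.n (nat_lit 234) (nat_lit 6) (.n (nat_lit 235) (nat_lit 24) (.n (nat_lit 236) (nat_lit 24) (.n (nat_lit 237) (nat_lit 30) (.p (nat_lit 238) (nat_lit 6) (.n (nat_lit 239) (nat_lit 18) (.n (nat_lit 240) (nat_lit 36) .z))))))))))))))))))))))))))))))))))))))))))))) (.ct dW4x_c8466 (nat_lit 72) (nat_lit 13) (.s true (nat_lit 1) (nat_lit 10) (nat_lit 0) (nat_lit 0) (nat_lit 6) true (nat_lit 2) true (nat_lit 9) true (nat_lit 5) true (nat_lit 15) true (nat_lit 15) (.s true (nat_lit 1) (nat_lit 27) (nat_lit 0) (nat_lit 2) (nat_lit 1) true (nat_lit 11) true (nat_lit 14) false (nat_lit 2) true (nat_lit 15) true (nat_lit 13) (.s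 false (nat_lit 1) (nat_lit 27) (nat_lit 1) (nat_lit 2) (nat_lit 0) true (nat_lit 11) true (nat_lit 15) false (nat_lit 2) true (nat_lit 14) true (nat_lit 13) (.s true (nat_lit 1) (nat_lit 27) (nat_lit 2) (nat_lit 0) (nat_lit 1) true (nat_lit 9) true (nat_lit 14) false (nat_lit 2) true (nat_lit 13) true (nat_lit 15) (.e false (nat_lit 72) (nat_lit 136) (nat_lit 0) (nat_lit 15) (.e true (nat_lit 72) (nat_lit 139) (nat_lit 0) (nat_lit 15) (.e false (nat_lit 72) (nat_lit 141) (nat_lit 0) (nat_lit 15) (.e true (nat_lit 72) (nat_lit 142) (nat_lit 0) (nat_lit 15) (.e false (nat_lit 72) (nat_lit 144) (nat_lit 0) (nat_lit 15) (.e false (nat_lit 72) (nat_lit 145) (nat_lit 0) (nat_lit 15) (.e true (nat_lit 72) (nat_lit 146) (nat_lit 0) (nat_lit 15) (.e true (nat_lit 72) (nat_lit 68) (nat_lit 4) (nat_lit 11) (.e false (nat_lit 72) (nat_lit 120) (nat_lit 1) (nat_lit 14) (.e true (nat_lit 72) (nat_lit 123) (nat_lit 1) (nat_lit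 14) (.e true (nat_lit 72) (nat_lit 124) (nat_lit 1) (nat_lit 14) (.e false (nat_lit 72) (nat_lit 125) (nat_lit 1) (nat_lit 14) (.e false (nat_lit 72) (nat_lit 109) (nat_lit 2) (nat_lit 13) (.e false (nat_lit 72) (nat_lit 114) (nat_lit 2) (nat_lit 13) .nil))))))))))))))))))) (.nd .leaf (nat_lit 114691) (nat_lit 420) (.p (nat_lit 247) (nat_lit 36) .z) .df .leaf)) (nat_lit 115714) (nat_lit 362) (.p (nat_lit 189) (nat_lit 36) (.n (nat_lit 190) (nat_lit 36) (.n (nat_lit 191) (nat_lit 36) (.n (nat_lit 193) (nat_lit 72) (.n (nat_lit 194) (nat_lit 72) (.p (nat_lit 195) (nat_lit 36) (.p (nat_lit 196) (nat_lit 36) (.p (nat_lit 197) (nat_lit 36) (.p (nat_lit 198) (nat_lit 72) (.p (nat_lit 199) (nat_lit 36) (.p (nat_lit 200) (nat_lit 36) (.n (nat_lit 201) (nat_lit 36) (.n (nat_lit 203) (nat_lit 36) (.p (nat_lit 204) (nat_lit 72) (.p (nat_lit 217) (nat_lit 36) (.p (nat_lit 218) (nat_lit 36) (.n (nat_lit 219) (nat_lit 36)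 (.p (nat_lit 220) (nat_lit 72) (.n (nat_lit 221) (nat_lit 24) (.p (nat_lit 222) (nat_lit 24) (.p (nat_lit 224) (nat_lit 24) (.n (nat_lit 225) (nat_lit 24) (.n (nat_lit 228) (nat_lit 24) (.p (nat_lit 229) (nat_lit 24) (.n (nat_lit 230) (nat_lit 12) (.p (nat_lit 231) (nat_lit 12) (.p (nat_lit 232) (nat_lit 12) (.n (nat_lit 233) (nat_lit 24) (.p (nat_lit 234) (nat_lit 24) (.p (nat_lit 235) (nat_lit 24) (.n (nat_lit 236) (nat_lit 12) (.p (nat_lit 237) (nat_lit 12) (.p (nat_lit 238) (nat_lit 12) (.p (nat_lit 240) (nat_lit 72) .z)))))))))))))))))))))))))))))))))) (.ct dW4x_c8466 (nat_lit 36) (nat_lit 13) (.s false (nat_lit 1) (nat_lit 9) (nat_lit 8) (nat_lit 0) (nat_lit 0) true (nat_lit 0) true (nat_lit 15) true (nat_lit 6) true (nat_lit 7) true (nat_lit 15) (.s false (nat_lit 1) (nat_lit 19) (nat_lit 0) (nat_lit 2) (nat_lit 3) true (nat_lit 8) true (nat_lit 12) true (nat_lit 0) true (nat_lit 15) true (nat_lit 13)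 (.s false (nat_lit 1) (nat_lit 19) (nat_lit 2) (nat_lit 0) (nat_lit 3) true (nat_lit 6) true (nat_lit 12) true (nat_lit 0) true (nat_lit 13) true (nat_lit 15) (.s true (nat_lit 1) (nat_lit 19) (nat_lit 3) (nat_lit 2) (nat_lit 0) true (nat_lit 8) true (nat_lit 15) true (nat_lit 0) true (nat_lit 12) true (nat_lit 13) (.e false (nat_lit 36) (nat_lit 126) (nat_lit 0) (nat_lit 15) (.e true (nat_lit 36) (nat_lit 127) (nat_lit 0) (nat_lit 15) (.e true (nat_lit 36) (nat_lit 128) (nat_lit 0) (nat_lit 15) (.e true (nat_lit 72) (nat_lit 130) (nat_lit 0) (nat_lit 15) (.e true (nat_lit 72) (nat_lit 131) (nat_lit 0) (nat_lit 15) (.e false (nat_lit 36) (nat_lit 133) (nat_lit 0) (nat_lit 15) (.e false (nat_lit 36) (nat_lit 134) (nat_lit 0) (nat_lit 15) (.e false (nat_lit 72) (nat_lit 135) (nat_lit 0) (nat_lit 15) (.e false (nat_lit 36) (nat_lit 136) (nat_lit 0) (nat_lit 15) dW4x_i32)))))))))))))) (.nd (.nd (.nd .leaf (nat_lit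 115715) (nat_lit 421) (.p (nat_lit 248) (nat_lit 36) .z) .df .leaf) (nat_lit 116738) (nat_lit 325) (.p (nat_lit 220) (nat_lit 36) .z) .df .leaf) (nat_lit 116739) (nat_lit 422) (.p (nat_lit 249) (nat_lit 36) .z) .df (.nd .leaf (nat_lit 117761) (nat_lit 317) (.p (nat_lit 212) (nat_lit 36) .z) .df .leaf)))) (nat_lit 117763) (nat_lit 487) (.n (nat_lit 263) (nat_lit 36) (.p (nat_lit 264) (nat_lit 18) (.n (nat_lit 265) (nat_lit 90) (.n (nat_lit 266) (nat_lit 54) (.n (nat_lit 267) (nat_lit 18) (.p (nat_lit 268) (nat_lit 36) (.p (nat_lit 269) (nat_lit 54) (.n (nat_lit 270) (nat_lit 36) (.n (nat_lit 272) (nat_lit 54) (.p (nat_lit 273) (nat_lit 72) (.p (nat_lit 274) (nat_lit 108) (.p (nat_lit 275) (nat_lit 90) (.p (nat_lit 276) (nat_lit 126) (.n (nat_lit 277) (nat_lit 18) (.p (nat_lit 278) (nat_lit 36) (.n (nat_lit 279) (nat_lit 108) (.p (nat_lit 280) (nat_lit 72) (.n (nat_lit 281) (nat_lit 18) .z)))))))))))))))))) (.ct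 dW4x_c8211 (nat_lit 36) (nat_lit 7) (.s false (nat_lit 1) (nat_lit 7) (nat_lit 2) (nat_lit 3) (nat_lit 7) true (nat_lit 0) true (nat_lit 5) true (nat_lit 5) true (nat_lit 8) true (nat_lit 7) (.s true (nat_lit 1) (nat_lit 7) (nat_lit 2) (nat_lit 7) (nat_lit 3) true (nat_lit 4) true (nat_lit 7) true (nat_lit 5) true (nat_lit 8) true (nat_lit 5) (.s false (nat_lit 1) (nat_lit 9) (nat_lit 0) (nat_lit 7) (nat_lit 3) true (nat_lit 5) true (nat_lit 7) true (nat_lit 4) true (nat_lit 9) true (nat_lit 5) (.s true (nat_lit 1) (nat_lit 9) (nat_lit 7) (nat_lit 0) (nat_lit 3) false (nat_lit 0) true (nat_lit 7) true (nat_lit 4) true (nat_lit 5) true (nat_lit 9) (.s true (nat_lit 1) (nat_lit 10) (nat_lit 0) (nat_lit 9) (nat_lit 0) false (nat_lit 10) true (nat_lit 9) true (nat_lit 3) true (nat_lit 9) true (nat_lit 4) (.s false (nat_lit 1) (nat_lit 16) (nat_lit 3) (nat_lit 3) (nat_lit 2) true (nat_lit 4) true (nat_lit 8) true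 (nat_lit 1) true (nat_lit 7) true (nat_lit 7) (.s false (nat_lit 1) (nat_lit 20) (nat_lit 0) (nat_lit 3) (nat_lit 3) true (nat_lit 5) true (nat_lit 7) true (nat_lit 0) true (nat_lit 9) true (nat_lit 7) (.s false (nat_lit 1) (nat_lit 22) (nat_lit 3) (nat_lit 0) (nat_lit 3) true (nat_lit 3) true (nat_lit 7) true (nat_lit 0) true (nat_lit 7) true (nat_lit 9) (.s false (nat_lit 1) (nat_lit 26) (nat_lit 0) (nat_lit 2) (nat_lit 3) true (nat_lit 5) true (nat_lit 7) false (nat_lit 0) true (nat_lit 9) true (nat_lit 8) (.s false (nat_lit 1) (nat_lit 26) (nat_lit 3) (nat_lit 0) (nat_lit 2) true (nat_lit 4) true (nat_lit 8) false (nat_lit 0) true (nat_lit 7) true (nat_lit 9) (.s true (nat_lit 1) (nat_lit 31) (nat_lit 0) (nat_lit 3) (nat_lit 0) false (nat_lit 10) true (nat_lit 9) false (nat_lit 1) true (nat_lit 9) true (nat_lit 7) (.e false (nat_lit 36) (nat_lit 65) (nat_lit 7) (nat_lit 5) (.e false (nat_lit 36) (nat_lit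 68) (nat_lit 7) (nat_lit 5) (.e false (nat_lit 36) (nat_lit 151) (nat_lit 2) (nat_lit 8) (.e true (nat_lit 36) (nat_lit 120) (nat_lit 3) (nat_lit 7) (.e false (nat_lit 36) (nat_lit 121) (nat_lit 3) (nat_lit 7) (.e false (nat_lit 36) (nat_lit 123) (nat_lit 3) (nat_lit 7) (.e false (nat_lit 36) (nat_lit 124) (nat_lit 3) (nat_lit 7) (.e false (nat_lit 36) (nat_lit 177) (nat_lit 0) (nat_lit 9) (.e true (nat_lit 36) (nat_lit 170) (nat_lit 0) (nat_lit 9) (.e true (nat_lit 36) (nat_lit 173) (nat_lit 0) (nat_lit 9) (.e true (nat_lit 36) (nat_lit 172) (nat_lit 0) (nat_lit 9) .nil))))))))))))))))))))))) (.nd (.nd (.nd (.nd (.nd .leaf (nat_lit 118785) (nat_lit 349) (.p (nat_lit 189) (nat_lit 75) (.n (nat_lit 190) (nat_lit 24) (.n (nat_lit 191) (nat_lit 66) (.n (nat_lit 192) (nat_lit 6) (.n (nat_lit 193) (nat_lit 60) (.n (nat_lit 194) (nat_lit 24) (.p (nat_lit 196) (nat_lit 30) (.p (nat_lit 197) (nat_lit 36) (.p (nat_lit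 198) (nat_lit 66) (.p (nat_lit 199) (nat_lit 27) (.p (nat_lit 200) (nat_lit 3) (.p (nat_lit 201) (nat_lit 33) (.n (nat_lit 202) (nat_lit 36) (.p (nat_lit 204) (nat_lit 72) (.n (nat_lit 205) (nat_lit 21) (.n (nat_lit 206) (nat_lit 3) (.p (nat_lit 207) (nat_lit 3) (.n (nat_lit 208) (nat_lit 15) (.p (nat_lit 209) (nat_lit 57) (.n (nat_lit 210) (nat_lit 21) (.p (nat_lit 211) (nat_lit 51) (.p (nat_lit 214) (nat_lit 9) (.n (nat_lit 216) (nat_lit 9) (.p (nat_lit 217) (nat_lit 9) (.p (nat_lit 218) (nat_lit 9) (.n (nat_lit 219) (nat_lit 45) (.p (nat_lit 220) (nat_lit 18) (.p (nat_lit 221) (nat_lit 69) (.n (nat_lit 222) (nat_lit 114) (.n (nat_lit 223) (nat_lit 54) (.n (nat_lit 224) (nat_lit 42) (.p (nat_lit 225) (nat_lit 96) (.p (nat_lit 226) (nat_lit 63) (.p (nat_lit 227) (nat_lit 27) (.p (nat_lit 228) (nat_lit 42) (.n (nat_lit 229) (nat_lit 60) (.n (nat_lit 230) (nat_lit 15) (.p (nat_lit 231) (nat_lit 51) (.n (nat_lit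 232) (nat_lit 57) (.n (nat_lit 233) (nat_lit 3) (.n (nat_lit 234) (nat_lit 51) (.p (nat_lit 235) (nat_lit 48) (.p (nat_lit 236) (nat_lit 30) (.n (nat_lit 237) (nat_lit 3) (.n (nat_lit 238) (nat_lit 39) (.p (nat_lit 239) (nat_lit 9) (.p (nat_lit 240) (nat_lit 18) .z))))))))))))))))))))))))))))))))))))))))))))))) (.ct dW4x_c8466 (nat_lit 144) (nat_lit 14) (.s false (nat_lit 2) (nat_lit 5) (nat_lit 3) (nat_lit 3) (nat_lit 4) true (nat_lit 0) true (nat_lit 11) true (nat_lit 10) true (nat_lit 12) true (nat_lit 12) (.s false (nat_lit 6) (nat_lit 5) (nat_lit 4) (nat_lit 3) (nat_lit 3) true (nat_lit 0) true (nat_lit 12) true (nat_lit 10) true (nat_lit 11) true (nat_lit 12) (.s false (nat_lit 8) (nat_lit 7) (nat_lit 1) (nat_lit 5) (nat_lit 3) true (nat_lit 7) true (nat_lit 12) true (nat_lit 8) true (nat_lit 14) true (nat_lit 10) (.s false (nat_lit 2) (nat_lit 7) (nat_lit 3) (nat_lit 4) (nat_lit 2) true (nat_lit 6) true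 (nat_lit 13) true (nat_lit 8) true (nat_lit 12) true (nat_lit 11) (.s false (nat_lit 2) (nat_lit 8) (nat_lit 0) (nat_lit 2) (nat_lit 7) true (nat_lit 1) true (nat_lit 8) true (nat_lit 7) true (nat_lit 15) true (nat_lit 13) (.s false (nat_lit 6) (nat_lit 8) (nat_lit 3) (nat_lit 0) (nat_lit 5) false (nat_lit 0) true (nat_lit 10) true (nat_lit 7) true (nat_lit 12) true (nat_lit 15) (.s false (nat_lit 2) (nat_lit 8) (nat_lit 5) (nat_lit 3) (nat_lit 0) true (nat_lit 3) true (nat_lit 15) true (nat_lit 7) true (nat_lit 10) true (nat_lit 12) (.s true (nat_lit 2) (nat_lit 9) (nat_lit 1) (nat_lit 0) (nat_lit 7) true (nat_lit 0) true (nat_lit 8) true (nat_lit 6) true (nat_lit 14) true (nat_lit 15) (.s false (nat_lit 2) (nat_lit 9) (nat_lit 3) (nat_lit 4) (nat_lit 0) true (nat_lit 8) true (nat_lit 15) true (nat_lit 6) true (nat_lit 12) true (nat_lit 11) (.s true (nat_lit 2) (nat_lit 9) (nat_lit 4) (nat_lit 3) (nat_lit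 0) true (nat_lit 4) true (nat_lit 15) true (nat_lit 6) true (nat_lit 11) true (nat_lit 12) (.s true (nat_lit 2) (nat_lit 9) (nat_lit 7) (nat_lit 0) (nat_lit 1) true (nat_lit 0) true (nat_lit 14) true (nat_lit 6) true (nat_lit 8) true (nat_lit 15) (.s false (nat_lit 2) (nat_lit 9) (nat_lit 8) (nat_lit 0) (nat_lit 0) true (nat_lit 0) true (nat_lit 15) true (nat_lit 6) true (nat_lit 7) true (nat_lit 15) (.s true (nat_lit 1) (nat_lit 10) (nat_lit 0) (nat_lit 0) (nat_lit 6) true (nat_lit 2) true (nat_lit 9) true (nat_lit 5) true (nat_lit 15) true (nat_lit 15) (.s false (nat_lit 5) (nat_lit 10) (nat_lit 1) (nat_lit 5) (nat_lit 0) true (nat_lit 11) true (nat_lit 15) true (nat_lit 5) true (nat_lit 14) true (nat_lit 10) dW4x_i11))))))))))))))) .leaf) (nat_lit 118787) (nat_lit 488) (.p (nat_lit 262) (nat_lit 252) (.n (nat_lit 263) (nat_lit 72) (.n (nat_lit 264) (nat_lit 108) (.n (nat_lit 265) (nat_lit 522) (.n (nat_lit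 266) (nat_lit 234) (.p (nat_lit 267) (nat_lit 90) (.p (nat_lit 268) (nat_lit 288) (.p (nat_lit 269) (nat_lit 252) (.n (nat_lit 270) (nat_lit 612) (.n (nat_lit 271) (nat_lit 108) (.p (nat_lit 273) (nat_lit 198) (.p (nat_lit 274) (nat_lit 288) (.n (nat_lit 275) (nat_lit 54) (.p (nat_lit 276) (nat_lit 90) (.n (nat_lit 277) (nat_lit 198) (.p (nat_lit 278) (nat_lit 216) (.n (nat_lit 279) (nat_lit 54) (.n (nat_lit 280) (nat_lit 144) (.n (nat_lit 281) (nat_lit 72) (.n (nat_lit 282) (nat_lit 144) .z)))))))))))))))))))) (.ct dW4x_c8211 (nat_lit 72) (nat_lit 7) (.s false (nat_lit 2) (nat_lit 7) (nat_lit 2) (nat_lit 3) (nat_lit 7) true (nat_lit 0) true (nat_lit 5) true (nat_lit 5) true (nat_lit 8) true (nat_lit 7) (.s true (nat_lit 1) (nat_lit 7) (nat_lit 2) (nat_lit 7) (nat_lit 3) true (nat_lit 4) true (nat_lit 7) true (nat_lit 5) true (nat_lit 8) true (nat_lit 5) (.s true (nat_lit 1) (nat_lit 7) (nat_lit 3) (nat_lit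 2) (nat_lit 7) false (nat_lit 0) true (nat_lit 5) true (nat_lit 5) true (nat_lit 7) true (nat_lit 8) (.s true (nat_lit 1) (nat_lit 9) (nat_lit 7) (nat_lit 0) (nat_lit 3) false (nat_lit 0) true (nat_lit 7) true (nat_lit 4) true (nat_lit 5) true (nat_lit 9) (.s true (nat_lit 1) (nat_lit 10) (nat_lit 0) (nat_lit 9) (nat_lit 0) false (nat_lit 10) true (nat_lit 9) true (nat_lit 3) true (nat_lit 9) true (nat_lit 4) (.s false (nat_lit 2) (nat_lit 10) (nat_lit 3) (nat_lit 5) (nat_lit 0) true (nat_lit 5) true (nat_lit 9) true (nat_lit 3) true (nat_lit 7) true (nat_lit 6) dW4x_i57))))))) .leaf) (nat_lit 119809) (nat_lit 356) (.n (nat_lit 189) (nat_lit 222) (.p (nat_lit 190) (nat_lit 84) (.p (nat_lit 191) (nat_lit 120) (.p (nat_lit 193) (nat_lit 264) (.p (nat_lit 194) (nat_lit 60) (.n (nat_lit 195) (nat_lit 60) (.n (nat_lit 196) (nat_lit 132) (.n (nat_lit 197) (nat_lit 132) (.n (nat_lit 198) (nat_lit 264) (.n (nat_lit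 199) (nat_lit 162) (.n (nat_lit 200) (nat_lit 18) (.n (nat_lit 201) (nat_lit 54) (.p (nat_lit 202) (nat_lit 96) (.p (nat_lit 203) (nat_lit 84) (.n (nat_lit 204) (nat_lit 228) (.p (nat_lit 205) (nat_lit 126) (.n (nat_lit 206) (nat_lit 42) (.n (nat_lit 207) (nat_lit 66) (.p (nat_lit 208) (nat_lit 78) (.n (nat_lit 209) (nat_lit 90) (.p (nat_lit 210) (nat_lit 42) (.n (nat_lit 211) (nat_lit 6) (.p (nat_lit 212) (nat_lit 36) (.p (nat_lit 214) (nat_lit 6) (.n (nat_lit 216) (nat_lit 6) (.p (nat_lit 217) (nat_lit 6) (.p (nat_lit 218) (nat_lit 6) (.p (nat_lit 219) (nat_lit 66) (.n (nat_lit 220) (nat_lit 24) (.n (nat_lit 221) (nat_lit 94) (.p (nat_lit 222) (nat_lit 160) (.p (nat_lit 223) (nat_lit 84) (.p (nat_lit 224) (nat_lit 88) (.n (nat_lit 225) (nat_lit 172) (.n (nat_lit 226) (nat_lit 114) (.n (nat_lit 227) (nat_lit 42) (.n (nat_lit 228) (nat_lit 88) (.p (nat_lit 229) (nat_lit 100) (.p (nat_lit 230) (nat_lit 10) (.n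 (nat_lit 231) (nat_lit 22) (.p (nat_lit 232) (nat_lit 98) (.p (nat_lit 233) (nat_lit 2) (.p (nat_lit 234) (nat_lit 82) (.n (nat_lit 235) (nat_lit 116) (.n (nat_lit 236) (nat_lit 44) (.p (nat_lit 237) (nat_lit 2) (.p (nat_lit 238) (nat_lit 86) (.p (nat_lit 239) (nat_lit 30) (.n (nat_lit 240) (nat_lit 60) .z))))))))))))))))))))))))))))))))))))))))))))))))) (.ct dW4x_c8466 (nat_lit 36) (nat_lit 14) (.s true (nat_lit 1) (nat_lit 8) (nat_lit 0) (nat_lit 2) (nat_lit 7) true (nat_lit 1) true (nat_lit 8) true (nat_lit 7) true (nat_lit 15) true (nat_lit 13) (.s false (nat_lit 2) (nat_lit 8) (nat_lit 3) (nat_lit 0) (nat_lit 5) false (nat_lit 0) true (nat_lit 10) true (nat_lit 7) true (nat_lit 12) true (nat_lit 15) (.s false (nat_lit 1) (nat_lit 9) (nat_lit 7) (nat_lit 0) (nat_lit 1) true (nat_lit 0) true (nat_lit 14) true (nat_lit 6) true (nat_lit 8) true (nat_lit 15) (.s false (nat_lit 1) (nat_lit 9) (nat_lit 8) (nat_lit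 0) (nat_lit 0) true (nat_lit 0) true (nat_lit 15) true (nat_lit 6) true (nat_lit 7) true (nat_lit 15) (.s true (nat_lit 1) (nat_lit 16) (nat_lit 1) (nat_lit 2) (nat_lit 3) true (nat_lit 7) true (nat_lit 12) true (nat_lit 1) true (nat_lit 14) true (nat_lit 13) (.s true (nat_lit 1) (nat_lit 16) (nat_lit 3) (nat_lit 1) (nat_lit 2) true (nat_lit 6) true (nat_lit 13) true (nat_lit 1) true (nat_lit 12) true (nat_lit 14) (.s true (nat_lit 1) (nat_lit 19) (nat_lit 0) (nat_lit 2) (nat_lit 3) true (nat_lit 8) true (nat_lit 12) true (nat_lit 0) true (nat_lit 15) true (nat_lit 13) (.s false (nat_lit 1) (nat_lit 19) (nat_lit 2) (nat_lit 0) (nat_lit 3) true (nat_lit 6) true (nat_lit 12) true (nat_lit 0) true (nat_lit 13) true (nat_lit 15) (.s true (nat_lit 1) (nat_lit 19) (nat_lit 3) (nat_lit 2) (nat_lit 0) true (nat_lit 8) true (nat_lit 15) true (nat_lit 0) true (nat_lit 12) true (nat_lit 13) dW4x_i25)))))))))) (.nd .leaf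 (nat_lit 119811) (nat_lit 463) (.p (nat_lit 262) (nat_lit 36) .z) .df .leaf)) (nat_lit 120833) (nat_lit 385) (.n (nat_lit 189) (nat_lit 30) (.n (nat_lit 190) (nat_lit 66) (.p (nat_lit 191) (nat_lit 66) (.p (nat_lit 192) (nat_lit 42) (.n (nat_lit 193) (nat_lit 66) (.n (nat_lit 194) (nat_lit 30) (.p (nat_lit 196) (nat_lit 96) (.n (nat_lit 197) (nat_lit 72) (.p (nat_lit 198) (nat_lit 24) (.n (nat_lit 199) (nat_lit 54) (.n (nat_lit 200) (nat_lit 102) (.p (nat_lit 201) (nat_lit 30) (.p (nat_lit 202) (nat_lit 72) (.p (nat_lit 203) (nat_lit 18) (.n (nat_lit 204) (nat_lit 36) (.n (nat_lit 205) (nat_lit 24) (.p (nat_lit 206) (nat_lit 12) (.n (nat_lit 207) (nat_lit 12) (.p (nat_lit 208) (nat_lit 24) (.n (nat_lit 209) (nat_lit 120) (.n (nat_lit 210) (nat_lit 24) (.n (nat_lit 211) (nat_lit 132) (.p (nat_lit 212) (nat_lit 72) (.n (nat_lit 213) (nat_lit 72) (.p (nat_lit 214) (nat_lit 18) (.n (nat_lit 217) (nat_lit 18) (.p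 (nat_lit 218) (nat_lit 54) (.p (nat_lit 219) (nat_lit 18) (.n (nat_lit 220) (nat_lit 36) (.p (nat_lit 221) (nat_lit 84) (.n (nat_lit 222) (nat_lit 12) (.n (nat_lit 223) (nat_lit 36) (.p (nat_lit 224) (nat_lit 24) (.n (nat_lit 225) (nat_lit 24) (.n (nat_lit 226) (nat_lit 108) (.n (nat_lit 227) (nat_lit 36) (.n (nat_lit 228) (nat_lit 24) (.n (nat_lit 229) (nat_lit 48) (.p (nat_lit 230) (nat_lit 6) (.p (nat_lit 231) (nat_lit 66) (.p (nat_lit 232) (nat_lit 30) (.n (nat_lit 233) (nat_lit 78) (.p (nat_lit 234) (nat_lit 78) (.p (nat_lit 235) (nat_lit 78) (.n (nat_lit 236) (nat_lit 12) (.p (nat_lit 237) (nat_lit 48) (.n (nat_lit 238) (nat_lit 24) (.p (nat_lit 239) (nat_lit 108) (.p (nat_lit 240) (nat_lit 72) .z))))))))))))))))))))))))))))))))))))))))))))))))) (.ct dW4x_c8466 (nat_lit 36) (nat_lit 14) (.s false (nat_lit 1) (nat_lit 16) (nat_lit 2) (nat_lit 1) (nat_lit 3) true (nat_lit 6) true (nat_lit 12) true (nat_lit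 1) true (nat_lit 13) true (nat_lit 14) (.s true (nat_lit 1) (nat_lit 23) (nat_lit 3) (nat_lit 0) (nat_lit 0) true (nat_lit 8) true (nat_lit 15) false (nat_lit 1) true (nat_lit 12) true (nat_lit 15) (.e false (nat_lit 36) (nat_lit 38) (nat_lit 9) (nat_lit 6) (.e false (nat_lit 36) (nat_lit 93) (nat_lit 3) (nat_lit 12) (.e false (nat_lit 36) (nat_lit 106) (nat_lit 2) (nat_lit 13) (.e true (nat_lit 36) (nat_lit 109) (nat_lit 2) (nat_lit 13) (.e true (nat_lit 36) (nat_lit 110) (nat_lit 2) (nat_lit 13) (.e true (nat_lit 36) (nat_lit 111) (nat_lit 2) (nat_lit 13) (.e false (nat_lit 36) (nat_lit 113) (nat_lit 2) (nat_lit 13) (.e true (nat_lit 36) (nat_lit 114) (nat_lit 2) (nat_lit 13) (.e false (nat_lit 36) (nat_lit 54) (nat_lit 7) (nat_lit 8) (.e true (nat_lit 36) (nat_lit 147) (nat_lit 0) (nat_lit 15) (.e false (nat_lit 36) (nat_lit 135) (nat_lit 0) (nat_lit 15) .nil)))))))))))))) (.nd (.nd (.nd .leaf (nat_lit 120835)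 (nat_lit 464) (.p (nat_lit 263) (nat_lit 36) .z) .df .leaf) (nat_lit 121857) (nat_lit 366) (.p (nat_lit 189) (nat_lit 108) (.n (nat_lit 190) (nat_lit 72) (.n (nat_lit 191) (nat_lit 24) (.p (nat_lit 192) (nat_lit 12) (.n (nat_lit 193) (nat_lit 180) (.n (nat_lit 194) (nat_lit 12) (.n (nat_lit 195) (nat_lit 12) (.p (nat_lit 196) (nat_lit 180) (.n (nat_lit 197) (nat_lit 12) (.p (nat_lit 198) (nat_lit 168) (.p (nat_lit 199) (nat_lit 180) (.n (nat_lit 200) (nat_lit 60) (.p (nat_lit 201) (nat_lit 60) (.n (nat_lit 202) (nat_lit 96) (.n (nat_lit 203) (nat_lit 156) (.p (nat_lit 204) (nat_lit 192) (.n (nat_lit 205) (nat_lit 228) (.p (nat_lit 206) (nat_lit 84) (.p (nat_lit 207) (nat_lit 168) (.n (nat_lit 208) (nat_lit 156) (.p (nat_lit 209) (nat_lit 12) (.n (nat_lit 210) (nat_lit 36) (.n (nat_lit 211) (nat_lit 204) (.p (nat_lit 214) (nat_lit 12) (.p (nat_lit 216) (nat_lit 24) (.p (nat_lit 217) (nat_lit 12) (.p (nat_lit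 218) (nat_lit 12) (.n (nat_lit 219) (nat_lit 12) (.p (nat_lit 220) (nat_lit 24) (.p (nat_lit 221) (nat_lit 76) (.n (nat_lit 222) (nat_lit 88) (.n (nat_lit 223) (nat_lit 120) (.n (nat_lit 224) (nat_lit 16) (.p (nat_lit 225) (nat_lit 64) (.n (nat_lit 226) (nat_lit 12) (.n (nat_lit 227) (nat_lit 12) (.p (nat_lit 228) (nat_lit 16) (.n (nat_lit 229) (nat_lit 64) (.n (nat_lit 230) (nat_lit 28) (.p (nat_lit 231) (nat_lit 76) (.n (nat_lit 232) (nat_lit 44) (.n (nat_lit 233) (nat_lit 56) (.p (nat_lit 234) (nat_lit 8) (.p (nat_lit 235) (nat_lit 44) (.p (nat_lit 236) (nat_lit 44) (.p (nat_lit 237) (nat_lit 16) (.n (nat_lit 238) (nat_lit 32) (.p (nat_lit 239) (nat_lit 60) (.p (nat_lit 240) (nat_lit 24) .z))))))))))))))))))))))))))))))))))))))))))))))))) (.ct dW4x_c8466 (nat_lit 72) (nat_lit 14) (.s false (nat_lit 1) (nat_lit 10) (nat_lit 0) (nat_lit 0) (nat_lit 6) true (nat_lit 2) true (nat_lit 9) true (nat_lit 5) true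 (nat_lit 15) true (nat_lit 15) (.s false (nat_lit 1) (nat_lit 10) (nat_lit 0) (nat_lit 6) (nat_lit 0) false (nat_lit 16) true (nat_lit 15) true (nat_lit 5) true (nat_lit 15) true (nat_lit 9) (.s true (nat_lit 1) (nat_lit 15) (nat_lit 0) (nat_lit 3) (nat_lit 3) true (nat_lit 8) true (nat_lit 12) true (nat_lit 2) true (nat_lit 15) true (nat_lit 12) (.s true (nat_lit 1) (nat_lit 15) (nat_lit 3) (nat_lit 0) (nat_lit 3) true (nat_lit 5) true (nat_lit 12) true (nat_lit 2) true (nat_lit 12) true (nat_lit 15) (.s false (nat_lit 1) (nat_lit 15) (nat_lit 3) (nat_lit 3) (nat_lit 0) true (nat_lit 8) true (nat_lit 15) true (nat_lit 2) true (nat_lit 12) true (nat_lit 12) (.s true (nat_lit 2) (nat_lit 27) (nat_lit 1) (nat_lit 2) (nat_lit 0) true (nat_lit 11) true (nat_lit 15) false (nat_lit 2) true (nat_lit 14) true (nat_lit 13) (.e true (nat_lit 72) (nat_lit 129) (nat_lit 0) (nat_lit 15) (.e true (nat_lit 72) (nat_lit 130)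 (nat_lit 0) (nat_lit 15) (.e true (nat_lit 72) (nat_lit 131) (nat_lit 0) (nat_lit 15) (.e false (nat_lit 72) (nat_lit 132) (nat_lit 0) (nat_lit 15) (.e false (nat_lit 72) (nat_lit 133) (nat_lit 0) (nat_lit 15) dW4x_i36)))))))))))) .leaf) (nat_lit 121859) (nat_lit 465) (.p (nat_lit 264) (nat_lit 36) .z) .df (.nd .leaf (nat_lit 122881) (nat_lit 352) (.p (nat_lit 189) (nat_lit 123) (.n (nat_lit 190) (nat_lit 48) (.n (nat_lit 191) (nat_lit 54) (.p (nat_lit 192) (nat_lit 30) (.n (nat_lit 193) (nat_lit 156) (.p (nat_lit 194) (nat_lit 36) (.p (nat_lit 195) (nat_lit 12) (.p (nat_lit 196) (nat_lit 114) (.p (nat_lit 197) (nat_lit 12) (.p (nat_lit 198) (nat_lit 126) (.p (nat_lit 199) (nat_lit 171) (.n (nat_lit 200) (nat_lit 69) (.p (nat_lit 201) (nat_lit 69) (.n (nat_lit 202) (nat_lit 120) (.n (nat_lit 203) (nat_lit 132) (.p (nat_lit 204) (nat_lit 204) (.n (nat_lit 205) (nat_lit 201) (.p (nat_lit 206) (nat_lit 81) (.p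 (nat_lit 207) (nat_lit 171) (.n (nat_lit 208) (nat_lit 171) (.p (nat_lit 209) (nat_lit 57) (.n (nat_lit 210) (nat_lit 33) (.n (nat_lit 211) (nat_lit 189) (.n (nat_lit 214) (nat_lit 3) (.p (nat_lit 216) (nat_lit 3) (.p (nat_lit 217) (nat_lit 33) (.n (nat_lit 218) (nat_lit 3) (.p (nat_lit 219) (nat_lit 3) (.n (nat_lit 220) (nat_lit 6) (.p (nat_lit 221) (nat_lit 29) (.n (nat_lit 222) (nat_lit 26) (.n (nat_lit 223) (nat_lit 42) (.p (nat_lit 224) (nat_lit 10) (.n (nat_lit 225) (nat_lit 4) (.p (nat_lit 226) (nat_lit 3) (.p (nat_lit 227) (nat_lit 3) (.n (nat_lit 228) (nat_lit 10) (.p (nat_lit 229) (nat_lit 4) (.n (nat_lit 230) (nat_lit 23) (.p (nat_lit 231) (nat_lit 11) (.n (nat_lit 232) (nat_lit 13) (.n (nat_lit 233) (nat_lit 19) (.p (nat_lit 234) (nat_lit 13) (.n (nat_lit 235) (nat_lit 32) (.p (nat_lit 236) (nat_lit 22) (.n (nat_lit 237) (nat_lit 19) (.p (nat_lit 238) (nat_lit 29) (.n (nat_lit 239) (nat_lit 15)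 (.n (nat_lit 240) (nat_lit 6) .z))))))))))))))))))))))))))))))))))))))))))))))))) (.ct dW4x_c8466 (nat_lit 72) (nat_lit 14) (.s false (nat_lit 1) (nat_lit 7) (nat_lit 0) (nat_lit 3) (nat_lit 6) true (nat_lit 2) true (nat_lit 9) true (nat_lit 8) true (nat_lit 15) true (nat_lit 12) (.s true (nat_lit 1) (nat_lit 8) (nat_lit 0) (nat_lit 2) (nat_lit 7) true (nat_lit 1) true (nat_lit 8) true (nat_lit 7) true (nat_lit 15) true (nat_lit 13) (.s false (nat_lit 2) (nat_lit 8) (nat_lit 3) (nat_lit 0) (nat_lit 5) false (nat_lit 0) true (nat_lit 10) true (nat_lit 7) true (nat_lit 12) true (nat_lit 15) (.s false (nat_lit 1) (nat_lit 9) (nat_lit 7) (nat_lit 0) (nat_lit 1) true (nat_lit 0) true (nat_lit 14) true (nat_lit 6) true (nat_lit 8) true (nat_lit 15) (.s false (nat_lit 2) (nat_lit 9) (nat_lit 8) (nat_lit 0) (nat_lit 0) true (nat_lit 0) true (nat_lit 15) true (nat_lit 6) true (nat_lit 7) true (nat_lit 15) (.s false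 (nat_lit 1) (nat_lit 10) (nat_lit 0) (nat_lit 6) (nat_lit 0) false (nat_lit 16) true (nat_lit 15) true (nat_lit 5) true (nat_lit 15) true (nat_lit 9) (.s true (nat_lit 1) (nat_lit 15) (nat_lit 3) (nat_lit 0) (nat_lit 3) true (nat_lit 5) true (nat_lit 12) true (nat_lit 2) true (nat_lit 12) true (nat_lit 15) (.s false (nat_lit 1) (nat_lit 13) (nat_lit 3) (nat_lit 3) (nat_lit 0) true (nat_lit 8) true (nat_lit 15) true (nat_lit 2) true (nat_lit 12) true (nat_lit 12) (.s true (nat_lit 1) (nat_lit 16) (nat_lit 1) (nat_lit 2) (nat_lit 3) true (nat_lit 7) true (nat_lit 12) true (nat_lit 1) true (nat_lit 14) true (nat_lit 13) (.s false (nat_lit 1) (nat_lit 16) (nat_lit 2) (nat_lit 3) (nat_lit 1) true (nat_lit 9) true (nat_lit 14) true (nat_lit 1) true (nat_lit 13) true (nat_lit 12) (.s true (nat_lit 1) (nat_lit 16) (nat_lit 3) (nat_lit 1) (nat_lit 2) true (nat_lit 6) true (nat_lit 13) true (nat_lit 1) true (nat_lit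 12) true (nat_lit 14) (.s false (nat_lit 2) (nat_lit 19) (nat_lit 0) (nat_lit 2) (nat_lit 3) true (nat_lit 8) true (nat_lit 12) true (nat_lit 0) true (nat_lit 15) true (nat_lit 13) (.s false (nat_lit 1) (nat_lit 19) (nat_lit 0) (nat_lit 3) (nat_lit 2) true (nat_lit 10) true (nat_lit 13) true (nat_lit 0) true (nat_lit 15) true (nat_lit 12) (.s false (nat_lit 2) (nat_lit 19) (nat_lit 2) (nat_lit 0) (nat_lit 3) true (nat_lit 6) true (nat_lit 12) true (nat_lit 0) true (nat_lit 13) true (nat_lit 15) (.s false (nat_lit 1) (nat_lit 19) (nat_lit 2) (nat_lit 3) (nat_lit 0) true (nat_lit 10) true (nat_lit 15) true (nat_lit 0) true (nat_lit 13) true (nat_lit 12) (.s true (nat_lit 1) (nat_lit 19) (nat_lit 3) (nat_lit 2) (nat_lit 0) true (nat_lit 8) true (nat_lit 15) true (nat_lit 0) true (nat_lit 12) true (nat_lit 13) (.s false (nat_lit 1) (nat_lit 20) (nat_lit 0) (nat_lit 1) (nat_lit 3) true (nat_lit 8) true (nat_lit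 12) false (nat_lit 0) true (nat_lit 15) true (nat_lit 14) (.s false (nat_lit 1) (nat_lit 20) (nat_lit 1) (nat_lit 0) (nat_lit 3) true (nat_lit 7) true (nat_lit 12) false (nat_lit 0) true (nat_lit 14) true (nat_lit 15) (.s true (nat_lit 1) (nat_lit 22) (nat_lit 3) (nat_lit 0) (nat_lit 1) true (nat_lit 7) true (nat_lit 14) false (nat_lit 0) true (nat_lit 12) true (nat_lit 15) (.s false (nat_lit 2) (nat_lit 20) (nat_lit 3) (nat_lit 1) (nat_lit 0) true (nat_lit 8) true (nat_lit 15) false (nat_lit 0) true (nat_lit 12) true (nat_lit 14) (.s false (nat_lit 1) (nat_lit 21) (nat_lit 3) (nat_lit 1) (nat_lit 0) true (nat_lit 8) true (nat_lit 15) false (nat_lit 0) true (nat_lit 12) true (nat_lit 14) (.s true (nat_lit 1) (nat_lit 23) (nat_lit 3) (nat_lit 0) (nat_lit 0) true (nat_lit 8) true (nat_lit 15) false (nat_lit 1) true (nat_lit 12) true (nat_lit 15) dW4x_i18))))))))))))))))))))))) .leaf))) (nat_lit 122883) (nat_lit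 466) (.p (nat_lit 265) (nat_lit 36) .z) .df (.nd (.nd (.nd (.nd .leaf (nat_lit 123905) (nat_lit 318) (.p (nat_lit 213) (nat_lit 36) .z) .df .leaf) (nat_lit 123907) (nat_lit 467) (.p (nat_lit 266) (nat_lit 36) .z) .df .leaf) (nat_lit 124929) (nat_lit 358) (.p (nat_lit 189) (nat_lit 57) (.n (nat_lit 190) (nat_lit 24) (.p (nat_lit 191) (nat_lit 6) (.p (nat_lit 192) (nat_lit 30) (.n (nat_lit 193) (nat_lit 96) (.p (nat_lit 194) (nat_lit 48) (.p (nat_lit 196) (nat_lit 66) (.p (nat_lit 198) (nat_lit 66) (.p (nat_lit 199) (nat_lit 153) (.n (nat_lit 200) (nat_lit 15) (.p (nat_lit 201) (nat_lit 15) (.n (nat_lit 202) (nat_lit 72) (.n (nat_lit 203) (nat_lit 108) (.p (nat_lit 204) (nat_lit 108) (.n (nat_lit 205) (nat_lit 147) (.p (nat_lit 206) (nat_lit 51) (.p (nat_lit 207) (nat_lit 129) (.n (nat_lit 208) (nat_lit 105) (.p (nat_lit 209) (nat_lit 3) (.n (nat_lit 210) (nat_lit 3) (.n (nat_lit 211) (nat_lit 183) (.p (nat_lit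 213) (nat_lit 36) (.n (nat_lit 214) (nat_lit 9) (.p (nat_lit 216) (nat_lit 9) (.n (nat_lit 217) (nat_lit 9) (.n (nat_lit 218) (nat_lit 45) (.p (nat_lit 219) (nat_lit 45) (.n (nat_lit 220) (nat_lit 18) (.n (nat_lit 221) (nat_lit 105) (.p (nat_lit 222) (nat_lit 114) (.p (nat_lit 223) (nat_lit 90) (.p (nat_lit 224) (nat_lit 6) (.n (nat_lit 225) (nat_lit 60) (.p (nat_lit 226) (nat_lit 9) (.p (nat_lit 227) (nat_lit 9) (.n (nat_lit 228) (nat_lit 6) (.p (nat_lit 229) (nat_lit 60) (.p (nat_lit 230) (nat_lit 51) (.n (nat_lit 231) (nat_lit 87) (.p (nat_lit 232) (nat_lit 57) (.p (nat_lit 233) (nat_lit 39) (.p (nat_lit 234) (nat_lit 15) (.n (nat_lit 235) (nat_lit 48) (.n (nat_lit 236) (nat_lit 30) (.n (nat_lit 237) (nat_lit 33) (.p (nat_lit 238) (nat_lit 39) (.n (nat_lit 239) (nat_lit 45) (.n (nat_lit 240) (nat_lit 18) .z)))))))))))))))))))))))))))))))))))))))))))))))) (.ct dW4x_c8466 (nat_lit 36) (nat_lit 14) (.s false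 (nat_lit 1) (nat_lit 17) (nat_lit 0) (nat_lit 2) (nat_lit 3) true (nat_lit 8) true (nat_lit 12) true (nat_lit 0) true (nat_lit 15) true (nat_lit 13) (.s false (nat_lit 1) (nat_lit 17) (nat_lit 2) (nat_lit 3) (nat_lit 0) true (nat_lit 10) true (nat_lit 15) true (nat_lit 0) true (nat_lit 13) true (nat_lit 12) (.s false (nat_lit 1) (nat_lit 17) (nat_lit 3) (nat_lit 2) (nat_lit 0) true (nat_lit 8) true (nat_lit 15) true (nat_lit 0) true (nat_lit 12) true (nat_lit 13) (.s true (nat_lit 1) (nat_lit 20) (nat_lit 0) (nat_lit 1) (nat_lit 3) true (nat_lit 8) true (nat_lit 12) false (nat_lit 0) true (nat_lit 15) true (nat_lit 14) (.s true (nat_lit 1) (nat_lit 20) (nat_lit 1) (nat_lit 3) (nat_lit 0) true (nat_lit 11) true (nat_lit 15) false (nat_lit 0) true (nat_lit 14) true (nat_lit 12) (.s true (nat_lit 1) (nat_lit 20) (nat_lit 3) (nat_lit 1) (nat_lit 0) true (nat_lit 8) true (nat_lit 15) false (nat_lit 0) true (nat_lit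 12) true (nat_lit 14) (.e false (nat_lit 12) (nat_lit 90) (nat_lit 3) (nat_lit 12) (.e false (nat_lit 36) (nat_lit 129) (nat_lit 0) (nat_lit 15) (.e true (nat_lit 36) (nat_lit 130) (nat_lit 0) (nat_lit 15) (.e false (nat_lit 36) (nat_lit 131) (nat_lit 0) (nat_lit 15) (.e false (nat_lit 36) (nat_lit 133) (nat_lit 0) (nat_lit 15) (.e true (nat_lit 72) (nat_lit 142) (nat_lit 0) (nat_lit 15) (.e false (nat_lit 36) (nat_lit 145) (nat_lit 0) (nat_lit 15) (.e true (nat_lit 72) (nat_lit 150) (nat_lit 0) (nat_lit 15) (.e true (nat_lit 36) (nat_lit 109) (nat_lit 2) (nat_lit 13) dW4x_i28)))))))))))))))) (.nd .leaf (nat_lit 124931) (nat_lit 468) (.p (nat_lit 267) (nat_lit 36) .z) .df .leaf)) (nat_lit 125953) (nat_lit 355) (.p (nat_lit 189) (nat_lit 15) (.n (nat_lit 190) (nat_lit 30) (.p (nat_lit 191) (nat_lit 12) (.p (nat_lit 192) (nat_lit 24) (.n (nat_lit 193) (nat_lit 30) (.p (nat_lit 194) (nat_lit 78) (.n (nat_lit 195)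 (nat_lit 72) (.p (nat_lit 196) (nat_lit 78) (.n (nat_lit 197) (nat_lit 72) (.p (nat_lit 198) (nat_lit 6) (.p (nat_lit 199) (nat_lit 135) (.n (nat_lit 200) (nat_lit 57) (.p (nat_lit 201) (nat_lit 57) (.n (nat_lit 202) (nat_lit 72) (.n (nat_lit 203) (nat_lit 126) (.p (nat_lit 204) (nat_lit 108) (.n (nat_lit 205) (nat_lit 195) (.p (nat_lit 206) (nat_lit 75) (.p (nat_lit 207) (nat_lit 177) (.n (nat_lit 208) (nat_lit 165) (.p (nat_lit 209) (nat_lit 15) (.n (nat_lit 210) (nat_lit 15) (.n (nat_lit 211) (nat_lit 231) (.p (nat_lit 214) (nat_lit 9) (.p (nat_lit 216) (nat_lit 9) (.p (nat_lit 217) (nat_lit 9) (.n (nat_lit 218) (nat_lit 27) (.p (nat_lit 219) (nat_lit 27) (.n (nat_lit 220) (nat_lit 18) (.n (nat_lit 221) (nat_lit 33) (.p (nat_lit 222) (nat_lit 42) (.p (nat_lit 223) (nat_lit 18) (.p (nat_lit 224) (nat_lit 6) (.n (nat_lit 225) (nat_lit 24) (.p (nat_lit 226) (nat_lit 9) (.p (nat_lit 227) (nat_lit 9) (.n (nat_lit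 228) (nat_lit 6) (.p (nat_lit 229) (nat_lit 24) (.p (nat_lit 230) (nat_lit 33) (.p (nat_lit 231) (nat_lit 3) (.p (nat_lit 232) (nat_lit 39) (.p (nat_lit 233) (nat_lit 21) (.n (nat_lit 234) (nat_lit 3) (.n (nat_lit 235) (nat_lit 66) (.p (nat_lit 236) (nat_lit 6) (.n (nat_lit 237) (nat_lit 33) (.p (nat_lit 238) (nat_lit 39) (.p (nat_lit 239) (nat_lit 27) (.n (nat_lit 240) (nat_lit 54) .z))))))))))))))))))))))))))))))))))))))))))))))))) (.ct dW4x_c8466 (nat_lit 36) (nat_lit 14) (.s false (nat_lit 1) (nat_lit 5) (nat_lit 4) (nat_lit 3) (nat_lit 3) true (nat_lit 0) true (nat_lit 12) true (nat_lit 10) true (nat_lit 11) true (nat_lit 12) (.s false (nat_lit 2) (nat_lit 7) (nat_lit 1) (nat_lit 5) (nat_lit 3) true (nat_lit 7) true (nat_lit 12) true (nat_lit 8) true (nat_lit 14) true (nat_lit 10) (.s false (nat_lit 2) (nat_lit 8) (nat_lit 3) (nat_lit 0) (nat_lit 5) false (nat_lit 0) true (nat_lit 10) true (nat_lit 7)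 true (nat_lit 12) true (nat_lit 15) (.s false (nat_lit 1) (nat_lit 10) (nat_lit 1) (nat_lit 5) (nat_lit 0) true (nat_lit 11) true (nat_lit 15) true (nat_lit 5) true (nat_lit 14) true (nat_lit 10) (.s false (nat_lit 1) (nat_lit 10) (nat_lit 5) (nat_lit 1) (nat_lit 0) true (nat_lit 3) true (nat_lit 15) true (nat_lit 5) true (nat_lit 10) true (nat_lit 14) (.s false (nat_lit 1) (nat_lit 20) (nat_lit 0) (nat_lit 1) (nat_lit 3) true (nat_lit 8) true (nat_lit 12) false (nat_lit 0) true (nat_lit 15) true (nat_lit 14) (.s true (nat_lit 1) (nat_lit 20) (nat_lit 1) (nat_lit 3) (nat_lit 0) true (nat_lit 11) true (nat_lit 15) false (nat_lit 0) true (nat_lit 14) true (nat_lit 12) (.s false (nat_lit 1) (nat_lit 20) (nat_lit 3) (nat_lit 1) (nat_lit 0) true (nat_lit 8) true (nat_lit 15) false (nat_lit 0) true (nat_lit 12) true (nat_lit 14) (.s true (nat_lit 1) (nat_lit 29) (nat_lit 2) (nat_lit 0) (nat_lit 0) true (nat_lit 10)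 true (nat_lit 15) false (nat_lit 3) true (nat_lit 13) true (nat_lit 15) (.e false (nat_lit 36) (nat_lit 86) (nat_lit 3) (nat_lit 12) (.e true (nat_lit 36) (nat_lit 87) (nat_lit 3) (nat_lit 12) (.e true (nat_lit 36) (nat_lit 88) (nat_lit 3) (nat_lit 12) (.e true (nat_lit 36) (nat_lit 58) (nat_lit 5) (nat_lit 10) (.e false (nat_lit 72) (nat_lit 96) (nat_lit 3) (nat_lit 12) (.e false (nat_lit 72) (nat_lit 46) (nat_lit 7) (nat_lit 8) dW4x_i23)))))))))))))))) (.nd (.nd .leaf (nat_lit 125955) (nat_lit 469) (.p (nat_lit 268) (nat_lit 36) .z) .df .leaf) (nat_lit 126977) (nat_lit 319) (.p (nat_lit 214) (nat_lit 36) .z) .df (.nd .leaf (nat_lit 126979) (nat_lit 470) (.p (nat_lit 269) (nat_lit 36) .z) .df .leaf))))) (nat_lit 128001) (nat_lit 354) (.n (nat_lit 189) (nat_lit 126) (.p (nat_lit 190) (nat_lit 54) (.p (nat_lit 191) (nat_lit 54) (.n (nat_lit 192) (nat_lit 18) (.p (nat_lit 193) (nat_lit 162) (.p (nat_lit 194)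 (nat_lit 18) (.n (nat_lit 195) (nat_lit 36) (.n (nat_lit 196) (nat_lit 108) (.n (nat_lit 197) (nat_lit 36) (.n (nat_lit 198) (nat_lit 144) (.n (nat_lit 199) (nat_lit 90) (.p (nat_lit 200) (nat_lit 54) (.n (nat_lit 201) (nat_lit 54) (.p (nat_lit 202) (nat_lit 72) (.p (nat_lit 203) (nat_lit 54) (.n (nat_lit 204) (nat_lit 144) (.p (nat_lit 205) (nat_lit 108) (.n (nat_lit 206) (nat_lit 36) (.n (nat_lit 207) (nat_lit 72) (.p (nat_lit 208) (nat_lit 72) (.n (nat_lit 209) (nat_lit 36) (.p (nat_lit 210) (nat_lit 36) (.p (nat_lit 211) (nat_lit 72) (.p (nat_lit 214) (nat_lit 18) (.n (nat_lit 217) (nat_lit 18) (.n (nat_lit 218) (nat_lit 18) (.p (nat_lit 219) (nat_lit 18) (.n (nat_lit 221) (nat_lit 84) (.p (nat_lit 222) (nat_lit 84) (.p (nat_lit 223) (nat_lit 72) (.p (nat_lit 224) (nat_lit 12) (.n (nat_lit 225) (nat_lit 48) (.n (nat_lit 228) (nat_lit 12) (.p (nat_lit 229) (nat_lit 48) (.p (nat_lit 230) (nat_lit 30) (.n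 (nat_lit 231) (nat_lit 30) (.p (nat_lit 232) (nat_lit 42) (.p (nat_lit 233) (nat_lit 42) (.n (nat_lit 234) (nat_lit 6) (.n (nat_lit 235) (nat_lit 42) (.n (nat_lit 236) (nat_lit 24) (.n (nat_lit 237) (nat_lit 12) (.p (nat_lit 238) (nat_lit 24) (.n (nat_lit 240) (nat_lit 36) .z)))))))))))))))))))))))))))))))))))))))))))) (.ct dW4x_c8466 (nat_lit 144) (nat_lit 14) (.s false (nat_lit 2) (nat_lit 5) (nat_lit 4) (nat_lit 3) (nat_lit 3) true (nat_lit 0) true (nat_lit 12) true (nat_lit 10) true (nat_lit 11) true (nat_lit 12) (.s false (nat_lit 2) (nat_lit 7) (nat_lit 1) (nat_lit 5) (nat_lit 3) true (nat_lit 7) true (nat_lit 12) true (nat_lit 8) true (nat_lit 14) true (nat_lit 10) (.s false (nat_lit 2) (nat_lit 8) (nat_lit 3) (nat_lit 0) (nat_lit 5) false (nat_lit 0) true (nat_lit 10) true (nat_lit 7) true (nat_lit 12) true (nat_lit 15) (.s false (nat_lit 2) (nat_lit 9) (nat_lit 3) (nat_lit 4) (nat_lit 0) true (nat_lit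 8) true (nat_lit 15) true (nat_lit 6) true (nat_lit 12) true (nat_lit 11) (.s false (nat_lit 2) (nat_lit 9) (nat_lit 4) (nat_lit 3) (nat_lit 0) true (nat_lit 4) true (nat_lit 15) true (nat_lit 6) true (nat_lit 11) true (nat_lit 12) (.s false (nat_lit 1) (nat_lit 10) (nat_lit 1) (nat_lit 5) (nat_lit 0) true (nat_lit 11) true (nat_lit 15) true (nat_lit 5) true (nat_lit 14) true (nat_lit 10) (.s false (nat_lit 1) (nat_lit 10) (nat_lit 5) (nat_lit 1) (nat_lit 0) true (nat_lit 3) true (nat_lit 15) true (nat_lit 5) true (nat_lit 10) true (nat_lit 14) (.s false (nat_lit 4) (nat_lit 17) (nat_lit 0) (nat_lit 2) (nat_lit 3) true (nat_lit 8) true (nat_lit 12) true (nat_lit 0) true (nat_lit 15) true (nat_lit 13) (.s true (nat_lit 2) (nat_lit 19) (nat_lit 0) (nat_lit 2) (nat_lit 3) true (nat_lit 8) true (nat_lit 12) true (nat_lit 0) true (nat_lit 15) true (nat_lit 13) (.s false (nat_lit 4) (nat_lit 17) (nat_lit 2) (nat_lit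 3) (nat_lit 0) true (nat_lit 10) true (nat_lit 15) true (nat_lit 0) true (nat_lit 13) true (nat_lit 12) (.s false (nat_lit 4) (nat_lit 17) (nat_lit 3) (nat_lit 2) (nat_lit 0) true (nat_lit 8) true (nat_lit 15) true (nat_lit 0) true (nat_lit 12) true (nat_lit 13) (.s true (nat_lit 2) (nat_lit 20) (nat_lit 0) (nat_lit 1) (nat_lit 3) true (nat_lit 8) true (nat_lit 12) false (nat_lit 0) true (nat_lit 15) true (nat_lit 14) (.s true (nat_lit 2) (nat_lit 20) (nat_lit 1) (nat_lit 3) (nat_lit 0) true (nat_lit 11) true (nat_lit 15) false (nat_lit 0) true (nat_lit 14) true (nat_lit 12) dW4x_i22)))))))))))))) (.nd (.nd (.nd (.nd (.nd (.nd .leaf (nat_lit 128003) (nat_lit 471) (.p (nat_lit 270) (nat_lit 36) .z) .df .leaf) (nat_lit 129024) (nat_lit 294) (.p (nat_lit 189) (nat_lit 36) .z) .df .leaf) (nat_lit 129027) (nat_lit 512) (.p (nat_lit 283) (nat_lit 36) .z) .df (.nd .leaf (nat_lit 130048) (nat_lit 295) (.p (nat_lit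 190) (nat_lit 36) .z) .df .leaf)) (nat_lit 130051) (nat_lit 513) (.p (nat_lit 284) (nat_lit 36) .z) .df (.nd (.nd (.nd .leaf (nat_lit 131072) (nat_lit 296) (.p (nat_lit 191) (nat_lit 36) .z) .df .leaf) (nat_lit 131075) (nat_lit 514) (.p (nat_lit 285) (nat_lit 36) .z) .df .leaf) (nat_lit 132096) (nat_lit 297) (.p (nat_lit 192) (nat_lit 36) .z) .df (.nd .leaf (nat_lit 132099) (nat_lit 515) (.p (nat_lit 286) (nat_lit 36) .z) .df .leaf))) (nat_lit 133120) (nat_lit 298) (.p (nat_lit 193) (nat_lit 36) .z) .df (.nd (.nd (.nd (.nd .leaf (nat_lit 133123) (nat_lit 516) (.p (nat_lit 287) (nat_lit 36) .z) .df .leaf) (nat_lit 134144) (nat_lit 299) (.p (nat_lit 194) (nat_lit 36) .z) .df .leaf) (nat_lit 134147) (nat_lit 517) (.p (nat_lit 288) (nat_lit 36) .z) .df (.nd .leaf (nat_lit 135168) (nat_lit 300) (.p (nat_lit 195) (nat_lit 36) .z) .df .leaf)) (nat_lit 135171) (nat_lit 518) (.p (nat_lit 289) (nat_lit 36) .z) .df (.nd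 (.nd (.nd .leaf (nat_lit 136192) (nat_lit 301) (.p (nat_lit 196) (nat_lit 36) .z) .df .leaf) (nat_lit 136195) (nat_lit 519) (.p (nat_lit 290) (nat_lit 36) .z) .df .leaf) (nat_lit 137216) (nat_lit 302) (.p (nat_lit 197) (nat_lit 36) .z) .df (.nd .leaf (nat_lit 137219) (nat_lit 520) (.p (nat_lit 291) (nat_lit 36) .z) .df .leaf)))) (nat_lit 138240) (nat_lit 303) (.p (nat_lit 198) (nat_lit 36) .z) .df (.nd (.nd (.nd (.nd (.nd .leaf (nat_lit 138243) (nat_lit 521) (.p (nat_lit 292) (nat_lit 36) .z) .df .leaf) (nat_lit 139264) (nat_lit 304) (.p (nat_lit 199) (nat_lit 36) .z) .df .leaf) (nat_lit 139267) (nat_lit 522) (.p (nat_lit 293) (nat_lit 36) .z) .df (.nd .leaf (nat_lit 140288) (nat_lit 305) (.p (nat_lit 200) (nat_lit 36) .z) .df .leaf)) (nat_lit 140291) (nat_lit 523) (.p (nat_lit 294) (nat_lit 36) .z) .df (.nd (.nd (.nd .leaf (nat_lit 141312) (nat_lit 306) (.p (nat_lit 201) (nat_lit 36) .z) .df .leaf) (nat_lit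 141315) (nat_lit 524) (.p (nat_lit 295) (nat_lit 36) .z) .df .leaf) (nat_lit 142336) (nat_lit 307) (.p (nat_lit 202) (nat_lit 36) .z) .df (.nd .leaf (nat_lit 142339) (nat_lit 525) (.p (nat_lit 296) (nat_lit 36) .z) .df .leaf))) (nat_lit 143360) (nat_lit 308) (.p (nat_lit 203) (nat_lit 36) .z) .df (.nd (.nd (.nd (.nd .leaf (nat_lit 143363) (nat_lit 526) (.p (nat_lit 297) (nat_lit 36) .z) .df .leaf) (nat_lit 144384) (nat_lit 309) (.p (nat_lit 204) (nat_lit 36) .z) .df .leaf) (nat_lit 144387) (nat_lit 527) (.p (nat_lit 298) (nat_lit 36) .z) .df (.nd .leaf (nat_lit 145408) (nat_lit 310) (.p (nat_lit 205) (nat_lit 36) .z) .df .leaf)) (nat_lit 145411) (nat_lit 528) (.p (nat_lit 299) (nat_lit 36) .z) .df (.nd (.nd .leaf (nat_lit 146432) (nat_lit 357) (.p (nat_lit 189) (nat_lit 45) (.n (nat_lit 190) (nat_lit 36) (.n (nat_lit 191) (nat_lit 6) (.p (nat_lit 192) (nat_lit 30) (.n (nat_lit 193) (nat_lit 72) (.p (nat_lit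 194) (nat_lit 60) (.n (nat_lit 195) (nat_lit 12) (.p (nat_lit 196) (nat_lit 126) (.n (nat_lit 197) (nat_lit 48) (.p (nat_lit 198) (nat_lit 42) (.p (nat_lit 199) (nat_lit 81) (.n (nat_lit 200) (nat_lit 123) (.p (nat_lit 201) (nat_lit 87) (.n (nat_lit 202) (nat_lit 60) (.n (nat_lit 203) (nat_lit 48) (.p (nat_lit 204) (nat_lit 48) (.n (nat_lit 205) (nat_lit 183) (.p (nat_lit 206) (nat_lit 39) (.p (nat_lit 207) (nat_lit 141) (.n (nat_lit 208) (nat_lit 129) (.p (nat_lit 209) (nat_lit 3) (.n (nat_lit 210) (nat_lit 27) (.n (nat_lit 211) (nat_lit 195) (.p (nat_lit 212) (nat_lit 36) (.p (nat_lit 214) (nat_lit 3) (.n (nat_lit 215) (nat_lit 36) (.n (nat_lit 216) (nat_lit 3) (.p (nat_lit 217) (nat_lit 3) (.p (nat_lit 218) (nat_lit 3) (.p (nat_lit 219) (nat_lit 69) (.n (nat_lit 220) (nat_lit 30) (.p (nat_lit 221) (nat_lit 31) (.n (nat_lit 222) (nat_lit 34) (.p (nat_lit 223) (nat_lit 6) (.n (nat_lit 224) (nat_lit 34) (.p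 (nat_lit 225) (nat_lit 28) (.n (nat_lit 226) (nat_lit 3) (.n (nat_lit 227) (nat_lit 3) (.n (nat_lit 228) (nat_lit 2) (.n (nat_lit 229) (nat_lit 28) (.p (nat_lit 230) (nat_lit 35) (.p (nat_lit 231) (nat_lit 13) (.p (nat_lit 232) (nat_lit 1) (.p (nat_lit 233) (nat_lit 7) (.n (nat_lit 234) (nat_lit 1) (.p (nat_lit 235) (nat_lit 8) (.n (nat_lit 236) (nat_lit 10) (.n (nat_lit 237) (nat_lit 29) (.n (nat_lit 238) (nat_lit 5) (.p (nat_lit 239) (nat_lit 15) (.n (nat_lit 240) (nat_lit 66) .z))))))))))))))))))))))))))))))))))))))))))))))))))) (.ct dW4x_c8466 (nat_lit 72) (nat_lit 15) (.s true (nat_lit 2) (nat_lit 9) (nat_lit 8) (nat_lit 0) (nat_lit 0) true (nat_lit 0) true (nat_lit 15) true (nat_lit 6) true (nat_lit 7) true (nat_lit 15) (.s true (nat_lit 1) (nat_lit 10) (nat_lit 0) (nat_lit 0) (nat_lit 6) true (nat_lit 2) true (nat_lit 9) true (nat_lit 5) true (nat_lit 15) true (nat_lit 15) (.s true (nat_lit 1) (nat_lit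 10) (nat_lit 0) (nat_lit 6) (nat_lit 0) false (nat_lit 16) true (nat_lit 15) true (nat_lit 5) true (nat_lit 15) true (nat_lit 9) dW4x_i27)))) .leaf) (nat_lit 146435) (nat_lit 529) (.p (nat_lit 300) (nat_lit 36) .z) .df (.nd .leaf (nat_lit 147456) (nat_lit 311) (.p (nat_lit 206) (nat_lit 36) .z) .df .leaf))))))

noncomputable def dW4x_t11 : Tr := (.nd (.nd (.nd (.nd (.nd (.nd (.nd .leaf (nat_lit 148480) (nat_lit 312) (.p (nat_lit 207) (nat_lit 36) .z) .df .leaf) (nat_lit 148483) (nat_lit 531) (.p (nat_lit 302) (nat_lit 36) .z) .df .leaf) (nat_lit 149504) (nat_lit 313) (.p (nat_lit 208) (nat_lit 36) .z) .df (.nd .leaf (nat_lit 149507) (nat_lit 532) (.p (nat_lit 303) (nat_lit 36) .z) .df .leaf)) (nat_lit 150528) (nat_lit 314) (.p (nat_lit 209) (nat_lit 36) .z) .df (.nd (.nd (.nd .leaf (nat_lit 150531) (nat_lit 533) (.p (nat_lit 304) (nat_lit 36) .z) .df .leaf) (nat_lit 151552) (nat_lit 389) (.n (nat_lit 189) (nat_lit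 48) (.p (nat_lit 190) (nat_lit 24) (.p (nat_lit 191) (nat_lit 12) (.n (nat_lit 192) (nat_lit 66) (.p (nat_lit 193) (nat_lit 42) (.n (nat_lit 194) (nat_lit 102) (.p (nat_lit 195) (nat_lit 54) (.n (nat_lit 196) (nat_lit 102) (.p (nat_lit 197) (nat_lit 126) (.p (nat_lit 198) (nat_lit 24) (.n (nat_lit 199) (nat_lit 180) (.p (nat_lit 200) (nat_lit 114) (.n (nat_lit 201) (nat_lit 114) (.p (nat_lit 202) (nat_lit 126) (.p (nat_lit 203) (nat_lit 126) (.n (nat_lit 204) (nat_lit 126) (.p (nat_lit 205) (nat_lit 228) (.n (nat_lit 206) (nat_lit 60) (.n (nat_lit 207) (nat_lit 192) (.p (nat_lit 208) (nat_lit 168) (.n (nat_lit 209) (nat_lit 48) (.p (nat_lit 210) (nat_lit 30) (.p (nat_lit 211) (nat_lit 264) (.n (nat_lit 212) (nat_lit 36) (.n (nat_lit 214) (nat_lit 18) (.p (nat_lit 215) (nat_lit 36) (.p (nat_lit 216) (nat_lit 18) (.n (nat_lit 217) (nat_lit 36) (.n (nat_lit 219) (nat_lit 72) (.n (nat_lit 221) (nat_lit 24) (.p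 (nat_lit 222) (nat_lit 60) (.p (nat_lit 224) (nat_lit 24) (.n (nat_lit 225) (nat_lit 24) (.p (nat_lit 228) (nat_lit 12) (.p (nat_lit 229) (nat_lit 24) (.n (nat_lit 230) (nat_lit 12) (.n (nat_lit 231) (nat_lit 24) (.p (nat_lit 232) (nat_lit 12) (.n (nat_lit 233) (nat_lit 6) (.p (nat_lit 234) (nat_lit 6) (.p (nat_lit 235) (nat_lit 42) (.p (nat_lit 236) (nat_lit 6) (.p (nat_lit 237) (nat_lit 30) (.n (nat_lit 238) (nat_lit 6) (.p (nat_lit 240) (nat_lit 108) .z))))))))))))))))))))))))))))))))))))))))))))) (.ct dW4x_c8466 (nat_lit 36) (nat_lit 15) (.s true (nat_lit 1) (nat_lit 30) (nat_lit 0) (nat_lit 0) (nat_lit 1) true (nat_lit 11) true (nat_lit 14) false (nat_lit 4) true (nat_lit 15) true (nat_lit 15) (.e true (nat_lit 36) (nat_lit 69) (nat_lit 4) (nat_lit 11) (.e true (nat_lit 36) (nat_lit 125) (nat_lit 1) (nat_lit 14) (.e true (nat_lit 36) (nat_lit 126) (nat_lit 0) (nat_lit 15) (.e true (nat_lit 36) (nat_lit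 129) (nat_lit 0) (nat_lit 15) (.e false (nat_lit 36) (nat_lit 130) (nat_lit 0) (nat_lit 15) (.e true (nat_lit 36) (nat_lit 138) (nat_lit 0) (nat_lit 15) (.e false (nat_lit 36) (nat_lit 139) (nat_lit 0) (nat_lit 15) (.e true (nat_lit 72) (nat_lit 141) (nat_lit 0) (nat_lit 15) (.e true (nat_lit 36) (nat_lit 146) (nat_lit 0) (nat_lit 15) (.e true (nat_lit 36) (nat_lit 147) (nat_lit 0) (nat_lit 15) (.e false (nat_lit 36) (nat_lit 149) (nat_lit 0) (nat_lit 15) (.e false (nat_lit 36) (nat_lit 150) (nat_lit 0) (nat_lit 15) (.e false (nat_lit 36) (nat_lit 134) (nat_lit 0) (nat_lit 15) (.e true (nat_lit 36) (nat_lit 136) (nat_lit 0) (nat_lit 15) (.e false (nat_lit 36) (nat_lit 140) (nat_lit 0) (nat_lit 15) (.e true (nat_lit 36) (nat_lit 143) (nat_lit 0) (nat_lit 15) .nil)))))))))))))))))) .leaf) (nat_lit 151555) (nat_lit 564) (.n (nat_lit 283) (nat_lit 20) (.n (nat_lit 284) (nat_lit 212) (.n (nat_lit 285) (nat_lit 4)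 (.n (nat_lit 286) (nat_lit 32) (.n (nat_lit 287) (nat_lit 8) (.n (nat_lit 288) (nat_lit 104) (.p (nat_lit 289) (nat_lit 60) (.p (nat_lit 290) (nat_lit 232) (.n (nat_lit 291) (nat_lit 12) (.p (nat_lit 292) (nat_lit 124) (.p (nat_lit 293) (nat_lit 24) (.p (nat_lit 294) (nat_lit 40) (.p (nat_lit 295) (nat_lit 104) (.n (nat_lit 296) (nat_lit 96) (.n (nat_lit 297) (nat_lit 108) (.p (nat_lit 298) (nat_lit 156) (.n (nat_lit 299) (nat_lit 148) (.n (nat_lit 300) (nat_lit 36) (.p (nat_lit 301) (nat_lit 104) (.p (nat_lit 302) (nat_lit 172) (.n (nat_lit 303) (nat_lit 308) (.n (nat_lit 304) (nat_lit 56) (.p (nat_lit 305) (nat_lit 8) (.n (nat_lit 306) (nat_lit 172) (.n (nat_lit 307) (nat_lit 144) (.n (nat_lit 308) (nat_lit 36) (.n (nat_lit 309) (nat_lit 72) (.p (nat_lit 310) (nat_lit 180) (.n (nat_lit 311) (nat_lit 204) (.n (nat_lit 312) (nat_lit 48) (.n (nat_lit 313) (nat_lit 96) (.n (nat_lit 314) (nat_lit 108) (.p (nat_lit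 315) (nat_lit 24) (.p (nat_lit 316) (nat_lit 48) (.n (nat_lit 317) (nat_lit 36) (.n (nat_lit 318) (nat_lit 144) (.n (nat_lit 319) (nat_lit 156) (.n (nat_lit 320) (nat_lit 36) (.p (nat_lit 321) (nat_lit 84) (.p (nat_lit 322) (nat_lit 60) (.n (nat_lit 323) (nat_lit 84) (.p (nat_lit 324) (nat_lit 60) (.p (nat_lit 325) (nat_lit 108) (.p (nat_lit 326) (nat_lit 144) (.n (nat_lit 327) (nat_lit 204) (.n (nat_lit 328) (nat_lit 12) (.p (nat_lit 329) (nat_lit 192) .z))))))))))))))))))))))))))))))))))))))))))))))) (.ct dW4x_c4371 (nat_lit 36) (nat_lit 11) (.s true (nat_lit 2) (nat_lit 7) (nat_lit 6) (nat_lit 3) (nat_lit 3) true (nat_lit 0) true (nat_lit 11) true (nat_lit 7) true (nat_lit 8) true (nat_lit 11) (.s false (nat_lit 1) (nat_lit 8) (nat_lit 2) (nat_lit 3) (nat_lit 7) true (nat_lit 1) true (nat_lit 7) true (nat_lit 6) true (nat_lit 12) true (nat_lit 11) (.s true (nat_lit 1) (nat_lit 8) (nat_lit 7) (nat_lit 2)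 (nat_lit 3) false (nat_lit 0) true (nat_lit 11) true (nat_lit 6) true (nat_lit 7) true (nat_lit 12) (.s true (nat_lit 1) (nat_lit 9) (nat_lit 0) (nat_lit 3) (nat_lit 8) true (nat_lit 2) true (nat_lit 6) true (nat_lit 5) true (nat_lit 14) true (nat_lit 11) (.s false (nat_lit 1) (nat_lit 9) (nat_lit 1) (nat_lit 3) (nat_lit 7) true (nat_lit 2) true (nat_lit 7) true (nat_lit 5) true (nat_lit 13) true (nat_lit 11) (.s false (nat_lit 1) (nat_lit 10) (nat_lit 6) (nat_lit 0) (nat_lit 3) true (nat_lit 0) true (nat_lit 11) true (nat_lit 4) true (nat_lit 8) true (nat_lit 14) (.s true (nat_lit 1) (nat_lit 10) (nat_lit 6) (nat_lit 3) (nat_lit 0) true (nat_lit 3) true (nat_lit 14) true (nat_lit 4) true (nat_lit 8) true (nat_lit 11) (.s true (nat_lit 1) (nat_lit 15) (nat_lit 3) (nat_lit 3) (nat_lit 3) true (nat_lit 4) true (nat_lit 11) true (nat_lit 3) true (nat_lit 11) true (nat_lit 11) (.s false (nat_lit 1) (nat_lit 18)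 (nat_lit 2) (nat_lit 3) (nat_lit 3) true (nat_lit 5) true (nat_lit 11) true (nat_lit 2) true (nat_lit 12) true (nat_lit 11) (.s true (nat_lit 1) (nat_lit 19) (nat_lit 2) (nat_lit 3) (nat_lit 3) true (nat_lit 5) true (nat_lit 11) true (nat_lit 2) true (nat_lit 12) true (nat_lit 11) (.s false (nat_lit 1) (nat_lit 17) (nat_lit 3) (nat_lit 3) (nat_lit 2) true (nat_lit 5) true (nat_lit 12) true (nat_lit 2) true (nat_lit 11) true (nat_lit 11) (.s false (nat_lit 1) (nat_lit 19) (nat_lit 3) (nat_lit 3) (nat_lit 2) true (nat_lit 5) true (nat_lit 12) true (nat_lit 2) true (nat_lit 11) true (nat_lit 11) (.s false (nat_lit 1) (nat_lit 20) (nat_lit 1) (nat_lit 3) (nat_lit 3) true (nat_lit 6) true (nat_lit 11) true (nat_lit 1) true (nat_lit 13) true (nat_lit 11) (.s false (nat_lit 1) (nat_lit 21) (nat_lit 1) (nat_lit 3) (nat_lit 3) true (nat_lit 6) true (nat_lit 11) true (nat_lit 1) true (nat_lit 13) true (nat_lit 11) (.s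 false (nat_lit 1) (nat_lit 23) (nat_lit 0) (nat_lit 3) (nat_lit 3) true (nat_lit 7) true (nat_lit 11) true (nat_lit 0) true (nat_lit 14) true (nat_lit 11) (.s true (nat_lit 1) (nat_lit 23) (nat_lit 3) (nat_lit 0) (nat_lit 3) true (nat_lit 4) true (nat_lit 11) true (nat_lit 0) true (nat_lit 11) true (nat_lit 14) (.s true (nat_lit 1) (nat_lit 24) (nat_lit 3) (nat_lit 3) (nat_lit 0) true (nat_lit 7) true (nat_lit 14) true (nat_lit 0) true (nat_lit 11) true (nat_lit 11) dW4x_i68)))))))))))))))))) (.nd .leaf (nat_lit 152576) (nat_lit 315) (.p (nat_lit 210) (nat_lit 36) .z) .df .leaf))) (nat_lit 152579) (nat_lit 534) (.p (nat_lit 305) (nat_lit 36) .z) .df (.nd (.nd (.nd (.nd .leaf (nat_lit 153600) (nat_lit 316) (.p (nat_lit 211) (nat_lit 36) .z) .df .leaf) (nat_lit 153603) (nat_lit 535) (.p (nat_lit 306) (nat_lit 36) .z) .df .leaf) (nat_lit 154625) (nat_lit 423) (.p (nat_lit 250) (nat_lit 36) .z) .df (.nd .leaf (nat_lit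 154626) (nat_lit 472) (.p (nat_lit 271) (nat_lit 36) .z) .df .leaf)) (nat_lit 155649) (nat_lit 424) (.p (nat_lit 251) (nat_lit 36) .z) .df (.nd (.nd (.nd .leaf (nat_lit 155650) (nat_lit 473) (.p (nat_lit 272) (nat_lit 36) .z) .df .leaf) (nat_lit 156673) (nat_lit 454) (.p (nat_lit 241) (nat_lit 684) (.n (nat_lit 242) (nat_lit 216) (.n (nat_lit 243) (nat_lit 234) (.n (nat_lit 244) (nat_lit 1332) (.n (nat_lit 245) (nat_lit 720) (.p (nat_lit 246) (nat_lit 288) (.p (nat_lit 247) (nat_lit 720) (.p (nat_lit 248) (nat_lit 666) (.n (nat_lit 249) (nat_lit 1620) (.n (nat_lit 250) (nat_lit 216) (.p (nat_lit 251) (nat_lit 18) (.p (nat_lit 252) (nat_lit 450) (.p (nat_lit 253) (nat_lit 612) (.n (nat_lit 254) (nat_lit 144) (.p (nat_lit 255) (nat_lit 216) (.n (nat_lit 256) (nat_lit 468) (.p (nat_lit 257) (nat_lit 504) (.n (nat_lit 258) (nat_lit 126) (.n (nat_lit 259) (nat_lit 360) (.n (nat_lit 260) (nat_lit 162) (.n (nat_lit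 261) (nat_lit 360) .z))))))))))))))))))))) (.ct dW4x_c8451 (nat_lit 36) (nat_lit 8) (.s true (nat_lit 1) (nat_lit 26) (nat_lit 3) (nat_lit 0) (nat_lit 1) true (nat_lit 4) true (nat_lit 8) false (nat_lit 0) true (nat_lit 7) true (nat_lit 9) (.e false (nat_lit 36) (nat_lit 56) (nat_lit 8) (nat_lit 4) (.e false (nat_lit 36) (nat_lit 26) (nat_lit 18) (nat_lit 0) (.e true (nat_lit 36) (nat_lit 104) (nat_lit 3) (nat_lit 7) (.e false (nat_lit 72) (nat_lit 105) (nat_lit 3) (nat_lit 7) (.e false (nat_lit 36) (nat_lit 106) (nat_lit 3) (nat_lit 7) (.e false (nat_lit 36) (nat_lit 108) (nat_lit 3) (nat_lit 7) (.e false (nat_lit 36) (nat_lit 109) (nat_lit 3) (nat_lit 7) (.e true (nat_lit 36) (nat_lit 110) (nat_lit 3) (nat_lit 7) (.e false (nat_lit 36) (nat_lit 111) (nat_lit 3) (nat_lit 7) (.e true (nat_lit 36) (nat_lit 112) (nat_lit 3) (nat_lit 7) (.e true (nat_lit 36) (nat_lit 113) (nat_lit 3) (nat_lit 7) (.e false (nat_lit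 36) (nat_lit 114) (nat_lit 3) (nat_lit 7) (.e false (nat_lit 36) (nat_lit 159) (nat_lit 0) (nat_lit 9) .nil))))))))))))))) .leaf) (nat_lit 156674) (nat_lit 504) (.p (nat_lit 262) (nat_lit 684) (.n (nat_lit 263) (nat_lit 216) (.n (nat_lit 264) (nat_lit 234) (.n (nat_lit 265) (nat_lit 1332) (.n (nat_lit 266) (nat_lit 720) (.p (nat_lit 267) (nat_lit 288) (.p (nat_lit 268) (nat_lit 720) (.p (nat_lit 269) (nat_lit 666) (.n (nat_lit 270) (nat_lit 1620) (.n (nat_lit 271) (nat_lit 216) (.p (nat_lit 272) (nat_lit 18) (.p (nat_lit 273) (nat_lit 450) (.p (nat_lit 274) (nat_lit 612) (.n (nat_lit 275) (nat_lit 144) (.p (nat_lit 276) (nat_lit 216) (.n (nat_lit 277) (nat_lit 468) (.p (nat_lit 278) (nat_lit 504) (.n (nat_lit 279) (nat_lit 126) (.n (nat_lit 280) (nat_lit 360) (.n (nat_lit 281) (nat_lit 162) (.n (nat_lit 282) (nat_lit 360) .z))))))))))))))))))))) (.ct dW4x_c8211 (nat_lit 36) (nat_lit 8) (.s true (nat_lit 1)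 (nat_lit 26) (nat_lit 3) (nat_lit 0) (nat_lit 2) true (nat_lit 4) true (nat_lit 8) false (nat_lit 0) true (nat_lit 7) true (nat_lit 9) (.e false (nat_lit 36) (nat_lit 56) (nat_lit 9) (nat_lit 4) (.e false (nat_lit 36) (nat_lit 26) (nat_lit 21) (nat_lit 0) (.e true (nat_lit 36) (nat_lit 115) (nat_lit 3) (nat_lit 7) (.e false (nat_lit 72) (nat_lit 116) (nat_lit 3) (nat_lit 7) (.e false (nat_lit 36) (nat_lit 117) (nat_lit 3) (nat_lit 7) (.e false (nat_lit 36) (nat_lit 119) (nat_lit 3) (nat_lit 7) (.e false (nat_lit 36) (nat_lit 120) (nat_lit 3) (nat_lit 7) (.e true (nat_lit 36) (nat_lit 121) (nat_lit 3) (nat_lit 7) (.e false (nat_lit 36) (nat_lit 122) (nat_lit 3) (nat_lit 7) (.e true (nat_lit 36) (nat_lit 123) (nat_lit 3) (nat_lit 7) (.e true (nat_lit 36) (nat_lit 124) (nat_lit 3) (nat_lit 7) (.e false (nat_lit 36) (nat_lit 125) (nat_lit 3) (nat_lit 7) (.e false (nat_lit 36) (nat_lit 170) (nat_lit 0) (nat_lit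 9) .nil))))))))))))))) (.nd .leaf (nat_lit 157697) (nat_lit 425) (.p (nat_lit 252) (nat_lit 36) .z) .df .leaf)))) (nat_lit 157698) (nat_lit 474) (.p (nat_lit 273) (nat_lit 36) .z) .df (.nd (.nd (.nd (.nd (.nd .leaf (nat_lit 158721) (nat_lit 426) (.p (nat_lit 253) (nat_lit 36) .z) .df .leaf) (nat_lit 158722) (nat_lit 475) (.p (nat_lit 274) (nat_lit 36) .z) .df .leaf) (nat_lit 159744) (nat_lit 427) (.p (nat_lit 254) (nat_lit 36) .z) .df (.nd .leaf (nat_lit 159746) (nat_lit 536) (.p (nat_lit 307) (nat_lit 36) .z) .df .leaf)) (nat_lit 160768) (nat_lit 428) (.p (nat_lit 255) (nat_lit 36) .z) .df (.nd (.nd (.nd .leaf (nat_lit 160770) (nat_lit 537) (.p (nat_lit 308) (nat_lit 36) .z) .df .leaf) (nat_lit 161792) (nat_lit 429) (.p (nat_lit 256) (nat_lit 36) .z) .df .leaf) (nat_lit 161794) (nat_lit 538) (.p (nat_lit 309) (nat_lit 36) .z) .df (.nd .leaf (nat_lit 162816) (nat_lit 430) (.p (nat_lit 257) (nat_lit 36) .z)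 .df .leaf))) (nat_lit 162818) (nat_lit 563) (.p (nat_lit 283) (nat_lit 40) (.p (nat_lit 284) (nat_lit 136) (.p (nat_lit 285) (nat_lit 8) (.n (nat_lit 286) (nat_lit 8) (.p (nat_lit 287) (nat_lit 16) (.p (nat_lit 288) (nat_lit 64) (.n (nat_lit 289) (nat_lit 48) (.n (nat_lit 290) (nat_lit 104) (.p (nat_lit 291) (nat_lit 24) (.n (nat_lit 292) (nat_lit 32) (.n (nat_lit 293) (nat_lit 12) (.n (nat_lit 294) (nat_lit 8) (.n (nat_lit 295) (nat_lit 64) (.p (nat_lit 296) (nat_lit 12) (.p (nat_lit 297) (nat_lit 72) (.n (nat_lit 298) (nat_lit 60) (.p (nat_lit 299) (nat_lit 44) (.n (nat_lit 301) (nat_lit 100) (.n (nat_lit 302) (nat_lit 56) (.p (nat_lit 303) (nat_lit 148) (.p (nat_lit 304) (nat_lit 40) (.n (nat_lit 305) (nat_lit 16) (.p (nat_lit 306) (nat_lit 56) (.p (nat_lit 307) (nat_lit 36) (.n (nat_lit 308) (nat_lit 72) (.p (nat_lit 309) (nat_lit 72) (.n (nat_lit 310) (nat_lit 72) (.p (nat_lit 311) (nat_lit 84) (.p (nat_lit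 312) (nat_lit 24) (.p (nat_lit 313) (nat_lit 84) (.p (nat_lit 314) (nat_lit 72) (.p (nat_lit 315) (nat_lit 24) (.n (nat_lit 316) (nat_lit 24) (.p (nat_lit 317) (nat_lit 36) (.p (nat_lit 318) (nat_lit 72) (.p (nat_lit 319) (nat_lit 60) (.p (nat_lit 320) (nat_lit 36) (.n (nat_lit 321) (nat_lit 24) (.n (nat_lit 322) (nat_lit 12) (.p (nat_lit 323) (nat_lit 24) (.n (nat_lit 324) (nat_lit 48) (.n (nat_lit 325) (nat_lit 72) (.n (nat_lit 326) (nat_lit 72) (.p (nat_lit 327) (nat_lit 120) (.p (nat_lit 328) (nat_lit 24) (.n (nat_lit 329) (nat_lit 96) .z)))))))))))))))))))))))))))))))))))))))))))))) (.ct dW4x_c4371 (nat_lit 36) (nat_lit 12) (.s true (nat_lit 1) (nat_lit 9) (nat_lit 3) (nat_lit 3) (nat_lit 4) true (nat_lit 2) true (nat_lit 10) true (nat_lit 5) true (nat_lit 11) true (nat_lit 11) (.s false (nat_lit 1) (nat_lit 17) (nat_lit 2) (nat_lit 3) (nat_lit 3) true (nat_lit 5) true (nat_lit 11) true (nat_lit 2) true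 (nat_lit 12) true (nat_lit 11) (.s true (nat_lit 1) (nat_lit 19) (nat_lit 2) (nat_lit 3) (nat_lit 3) true (nat_lit 5) true (nat_lit 11) true (nat_lit 2) true (nat_lit 12) true (nat_lit 11) (.s true (nat_lit 1) (nat_lit 30) (nat_lit 1) (nat_lit 3) (nat_lit 0) true (nat_lit 10) true (nat_lit 14) false (nat_lit 2) true (nat_lit 13) true (nat_lit 11) (.e false (nat_lit 36) (nat_lit 59) (nat_lit 9) (nat_lit 5) (.e true (nat_lit 72) (nat_lit 60) (nat_lit 9) (nat_lit 5) (.e false (nat_lit 36) (nat_lit 61) (nat_lit 9) (nat_lit 5) (.e true (nat_lit 36) (nat_lit 63) (nat_lit 9) (nat_lit 5) (.e false (nat_lit 12) (nat_lit 126) (nat_lit 3) (nat_lit 11) (.e false (nat_lit 48) (nat_lit 127) (nat_lit 3) (nat_lit 11) (.e true (nat_lit 12) (nat_lit 128) (nat_lit 3) (nat_lit 11) (.e false (nat_lit 12) (nat_lit 129) (nat_lit 3) (nat_lit 11) (.e true (nat_lit 24) (nat_lit 130) (nat_lit 3) (nat_lit 11) (.e false (nat_lit 12) (nat_lit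 131) (nat_lit 3) (nat_lit 11) (.e true (nat_lit 24) (nat_lit 133) (nat_lit 3) (nat_lit 11) dW4x_i66)))))))))))))))) (.nd (.nd (.nd (.nd .leaf (nat_lit 163840) (nat_lit 431) (.p (nat_lit 258) (nat_lit 36) .z) .df .leaf) (nat_lit 163842) (nat_lit 539) (.p (nat_lit 310) (nat_lit 36) .z) .df .leaf) (nat_lit 164864) (nat_lit 432) (.p (nat_lit 259) (nat_lit 36) .z) .df (.nd .leaf (nat_lit 164866) (nat_lit 540) (.p (nat_lit 311) (nat_lit 36) .z) .df .leaf)) (nat_lit 165888) (nat_lit 433) (.p (nat_lit 260) (nat_lit 36) .z) .df (.nd (.nd .leaf (nat_lit 165890) (nat_lit 541) (.p (nat_lit 312) (nat_lit 36) .z) .df .leaf) (nat_lit 166912) (nat_lit 443) (.p (nat_lit 241) (nat_lit 72) (.n (nat_lit 243) (nat_lit 36) (.n (nat_lit 244) (nat_lit 72) (.n (nat_lit 245) (nat_lit 36) (.p (nat_lit 246) (nat_lit 36) (.p (nat_lit 247) (nat_lit 36) (.p (nat_lit 248) (nat_lit 36) (.n (nat_lit 249) (nat_lit 108) (.p (nat_lit 251) (nat_lit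 36) (.n (nat_lit 253) (nat_lit 36) (.n (nat_lit 254) (nat_lit 72) (.n (nat_lit 255) (nat_lit 36) (.n (nat_lit 256) (nat_lit 36) (.p (nat_lit 257) (nat_lit 36) (.p (nat_lit 258) (nat_lit 72) (.n (nat_lit 259) (nat_lit 108) (.n (nat_lit 260) (nat_lit 36) .z))))))))))))))))) (.ct dW4x_c8451 (nat_lit 36) (nat_lit 9) (.s false (nat_lit 1) (nat_lit 7) (nat_lit 1) (nat_lit 3) (nat_lit 7) true (nat_lit 0) true (nat_lit 5) true (nat_lit 5) true (nat_lit 8) true (nat_lit 7) (.s false (nat_lit 1) (nat_lit 8) (nat_lit 0) (nat_lit 7) (nat_lit 3) true (nat_lit 5) true (nat_lit 7) true (nat_lit 4) true (nat_lit 9) true (nat_lit 5) (.s true (nat_lit 1) (nat_lit 8) (nat_lit 3) (nat_lit 0) (nat_lit 7) false (nat_lit 0) true (nat_lit 5) true (nat_lit 4) true (nat_lit 7) true (nat_lit 9) (.s true (nat_lit 1) (nat_lit 10) (nat_lit 0) (nat_lit 8) (nat_lit 0) false (nat_lit 10) true (nat_lit 9) true (nat_lit 3) true (nat_lit 9) true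 (nat_lit 4) (.s false (nat_lit 1) (nat_lit 19) (nat_lit 3) (nat_lit 0) (nat_lit 3) true (nat_lit 3) true (nat_lit 7) true (nat_lit 0) true (nat_lit 7) true (nat_lit 9) (.s false (nat_lit 1) (nat_lit 26) (nat_lit 3) (nat_lit 0) (nat_lit 1) true (nat_lit 4) true (nat_lit 8) false (nat_lit 0) true (nat_lit 7) true (nat_lit 9) (.e false (nat_lit 36) (nat_lit 59) (nat_lit 7) (nat_lit 5) (.e false (nat_lit 36) (nat_lit 151) (nat_lit 1) (nat_lit 8) (.e true (nat_lit 36) (nat_lit 155) (nat_lit 1) (nat_lit 8) (.e true (nat_lit 36) (nat_lit 104) (nat_lit 3) (nat_lit 7) (.e false (nat_lit 36) (nat_lit 110) (nat_lit 3) (nat_lit 7) (.e false (nat_lit 36) (nat_lit 114) (nat_lit 3) (nat_lit 7) (.e false (nat_lit 36) (nat_lit 166) (nat_lit 0) (nat_lit 9) (.e true (nat_lit 36) (nat_lit 156) (nat_lit 0) (nat_lit 9) (.e false (nat_lit 36) (nat_lit 160) (nat_lit 0) (nat_lit 9) (.e true (nat_lit 72) (nat_lit 161) (nat_lit 0) (nat_lit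 9) (.e true (nat_lit 36) (nat_lit 162) (nat_lit 0) (nat_lit 9) .nil)))))))))))))))))) (.nd .leaf (nat_lit 166914) (nat_lit 542) (.p (nat_lit 313) (nat_lit 36) .z) .df .leaf))))) (nat_lit 167936) (nat_lit 446) (.p (nat_lit 241) (nat_lit 504) (.n (nat_lit 242) (nat_lit 144) (.n (nat_lit 243) (nat_lit 180) (.n (nat_lit 244) (nat_lit 936) (.n (nat_lit 245) (nat_lit 504) (.p (nat_lit 246) (nat_lit 216) (.p (nat_lit 247) (nat_lit 504) (.p (nat_lit 248) (nat_lit 468) (.n (nat_lit 249) (nat_lit 1152) (.n (nat_lit 250) (nat_lit 216) (.p (nat_lit 252) (nat_lit 360) (.p (nat_lit 253) (nat_lit 504) (.n (nat_lit 254) (nat_lit 72) (.p (nat_lit 255) (nat_lit 180) (.n (nat_lit 256) (nat_lit 324) (.p (nat_lit 257) (nat_lit 396) (.n (nat_lit 258) (nat_lit 108) (.n (nat_lit 259) (nat_lit 180) (.n (nat_lit 260) (nat_lit 144) (.n (nat_lit 261) (nat_lit 288) .z)))))))))))))))))))) (.ct dW4x_c8451 (nat_lit 36) (nat_lit 9) (.s false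 (nat_lit 1) (nat_lit 28) (nat_lit 0) (nat_lit 0) (nat_lit 3) true (nat_lit 5) true (nat_lit 7) false (nat_lit 1) true (nat_lit 9) true (nat_lit 9) (.e false (nat_lit 36) (nat_lit 63) (nat_lit 7) (nat_lit 5) (.e false (nat_lit 36) (nat_lit 114) (nat_lit 3) (nat_lit 7) (.e false (nat_lit 108) (nat_lit 157) (nat_lit 0) (nat_lit 9) (.e false (nat_lit 72) (nat_lit 159) (nat_lit 0) (nat_lit 9) (.e true (nat_lit 72) (nat_lit 162) (nat_lit 0) (nat_lit 9) (.e true (nat_lit 72) (nat_lit 163) (nat_lit 0) (nat_lit 9) (.e false (nat_lit 72) (nat_lit 166) (nat_lit 0) (nat_lit 9) (.e false (nat_lit 36) (nat_lit 156) (nat_lit 0) (nat_lit 9) (.e true (nat_lit 36) (nat_lit 158) (nat_lit 0) (nat_lit 9) (.e false (nat_lit 36) (nat_lit 161) (nat_lit 0) (nat_lit 9) (.e true (nat_lit 36) (nat_lit 165) (nat_lit 0) (nat_lit 9) .nil))))))))))))) (.nd (.nd (.nd (.nd (.nd (.nd .leaf (nat_lit 167938) (nat_lit 543) (.p (nat_lit 314) (nat_lit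 36) .z) .df .leaf) (nat_lit 168960) (nat_lit 441) (.p (nat_lit 241) (nat_lit 36) (.n (nat_lit 242) (nat_lit 36) (.n (nat_lit 244) (nat_lit 144) (.n (nat_lit 245) (nat_lit 72) (.p (nat_lit 247) (nat_lit 72) (.p (nat_lit 248) (nat_lit 72) (.n (nat_lit 249) (nat_lit 144) (.n (nat_lit 250) (nat_lit 36) (.n (nat_lit 251) (nat_lit 36) (.p (nat_lit 252) (nat_lit 72) (.p (nat_lit 253) (nat_lit 144) (.p (nat_lit 254) (nat_lit 36) (.p (nat_lit 255) (nat_lit 108) (.n (nat_lit 256) (nat_lit 72) (.p (nat_lit 257) (nat_lit 72) (.n (nat_lit 258) (nat_lit 72) (.n (nat_lit 261) (nat_lit 36) .z))))))))))))))))) (.ct dW4x_c8451 (nat_lit 36) (nat_lit 9) (.s false (nat_lit 1) (nat_lit 7) (nat_lit 1) (nat_lit 3) (nat_lit 7) true (nat_lit 0) true (nat_lit 5) true (nat_lit 5) true (nat_lit 8) true (nat_lit 7) (.s true (nat_lit 1) (nat_lit 7) (nat_lit 1) (nat_lit 7) (nat_lit 3) true (nat_lit 4) true (nat_lit 7) true (nat_lit 5) true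 (nat_lit 8) true (nat_lit 5) (.s true (nat_lit 1) (nat_lit 8) (nat_lit 7) (nat_lit 0) (nat_lit 3) false (nat_lit 0) true (nat_lit 7) true (nat_lit 4) true (nat_lit 5) true (nat_lit 9) (.s true (nat_lit 1) (nat_lit 10) (nat_lit 0) (nat_lit 8) (nat_lit 0) false (nat_lit 10) true (nat_lit 9) true (nat_lit 3) true (nat_lit 9) true (nat_lit 4) (.s false (nat_lit 1) (nat_lit 17) (nat_lit 0) (nat_lit 3) (nat_lit 3) true (nat_lit 5) true (nat_lit 7) true (nat_lit 0) true (nat_lit 9) true (nat_lit 7) (.s false (nat_lit 1) (nat_lit 19) (nat_lit 3) (nat_lit 0) (nat_lit 3) true (nat_lit 3) true (nat_lit 7) true (nat_lit 0) true (nat_lit 7) true (nat_lit 9) (.s false (nat_lit 1) (nat_lit 26) (nat_lit 0) (nat_lit 1) (nat_lit 3) true (nat_lit 5) true (nat_lit 7) false (nat_lit 0) true (nat_lit 9) true (nat_lit 8) (.s false (nat_lit 1) (nat_lit 26) (nat_lit 3) (nat_lit 0) (nat_lit 1) true (nat_lit 4) true (nat_lit 8) false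 (nat_lit 0) true (nat_lit 7) true (nat_lit 9) (.e false (nat_lit 72) (nat_lit 59) (nat_lit 7) (nat_lit 5) (.e false (nat_lit 36) (nat_lit 58) (nat_lit 7) (nat_lit 5) (.e false (nat_lit 36) (nat_lit 109) (nat_lit 3) (nat_lit 7) (.e false (nat_lit 72) (nat_lit 110) (nat_lit 3) (nat_lit 7) (.e true (nat_lit 72) (nat_lit 157) (nat_lit 0) (nat_lit 9) (.e true (nat_lit 36) (nat_lit 159) (nat_lit 0) (nat_lit 9) (.e true (nat_lit 72) (nat_lit 156) (nat_lit 0) (nat_lit 9) (.e false (nat_lit 72) (nat_lit 160) (nat_lit 0) (nat_lit 9) (.e true (nat_lit 108) (nat_lit 161) (nat_lit 0) (nat_lit 9) .nil)))))))))))))))))) .leaf) (nat_lit 168962) (nat_lit 544) (.p (nat_lit 315) (nat_lit 36) .z) .df (.nd .leaf (nat_lit 169984) (nat_lit 434) (.p (nat_lit 261) (nat_lit 36) .z) .df .leaf)) (nat_lit 169986) (nat_lit 545) (.p (nat_lit 316) (nat_lit 36) .z) .df (.nd (.nd (.nd .leaf (nat_lit 171008) (nat_lit 476) (.p (nat_lit 275) (nat_lit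 36) .z) .df .leaf) (nat_lit 171009) (nat_lit 546) (.p (nat_lit 317) (nat_lit 36) .z) .df .leaf) (nat_lit 172032) (nat_lit 477) (.p (nat_lit 276) (nat_lit 36) .z) .df (.nd .leaf (nat_lit 172033) (nat_lit 547) (.p (nat_lit 318) (nat_lit 36) .z) .df .leaf))) (nat_lit 173056) (nat_lit 478) (.p (nat_lit 277) (nat_lit 36) .z) .df (.nd (.nd (.nd (.nd .leaf (nat_lit 173057) (nat_lit 565) (.n (nat_lit 283) (nat_lit 352) (.n (nat_lit 284) (nat_lit 736) (.n (nat_lit 285) (nat_lit 236) (.n (nat_lit 286) (nat_lit 124) (.p (nat_lit 287) (nat_lit 32) (.n (nat_lit 288) (nat_lit 592) (.p (nat_lit 289) (nat_lit 480) (.p (nat_lit 290) (nat_lit 548) (.p (nat_lit 291) (nat_lit 12) (.p (nat_lit 292) (nat_lit 224) (.n (nat_lit 293) (nat_lit 168) (.p (nat_lit 294) (nat_lit 272) (.p (nat_lit 295) (nat_lit 340) (.p (nat_lit 296) (nat_lit 96) (.n (nat_lit 297) (nat_lit 72) (.p (nat_lit 298) (nat_lit 60) (.p (nat_lit 299) (nat_lit 160)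 (.p (nat_lit 301) (nat_lit 304) (.n (nat_lit 302) (nat_lit 4) (.n (nat_lit 303) (nat_lit 460) (.n (nat_lit 304) (nat_lit 208) (.p (nat_lit 305) (nat_lit 76) (.p (nat_lit 306) (nat_lit 292) (.n (nat_lit 307) (nat_lit 252) (.p (nat_lit 308) (nat_lit 216) (.n (nat_lit 309) (nat_lit 360) (.p (nat_lit 310) (nat_lit 504) (.n (nat_lit 311) (nat_lit 552) (.n (nat_lit 312) (nat_lit 60) (.n (nat_lit 313) (nat_lit 372) (.n (nat_lit 314) (nat_lit 468) (.n (nat_lit 315) (nat_lit 204) (.n (nat_lit 316) (nat_lit 12) (.n (nat_lit 317) (nat_lit 144) (.n (nat_lit 318) (nat_lit 432) (.n (nat_lit 319) (nat_lit 420) (.n (nat_lit 320) (nat_lit 108) (.p (nat_lit 321) (nat_lit 96) (.p (nat_lit 322) (nat_lit 48) (.n (nat_lit 323) (nat_lit 60) (.p (nat_lit 324) (nat_lit 336) (.p (nat_lit 325) (nat_lit 468) (.p (nat_lit 326) (nat_lit 468) (.n (nat_lit 327) (nat_lit 588) (.p (nat_lit 328) (nat_lit 12) (.p (nat_lit 329) (nat_lit 600) .z))))))))))))))))))))))))))))))))))))))))))))))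 (.ct dW4x_c4371 (nat_lit 36) (nat_lit 13) (.s true (nat_lit 4) (nat_lit 8) (nat_lit 2) (nat_lit 3) (nat_lit 7) true (nat_lit 1) true (nat_lit 7) true (nat_lit 6) true (nat_lit 12) true (nat_lit 11) (.s true (nat_lit 1) (nat_lit 8) (nat_lit 2) (nat_lit 7) (nat_lit 3) true (nat_lit 5) true (nat_lit 11) true (nat_lit 6) true (nat_lit 12) true (nat_lit 7) (.s false (nat_lit 3) (nat_lit 8) (nat_lit 3) (nat_lit 2) (nat_lit 7) false (nat_lit 0) true (nat_lit 7) true (nat_lit 6) true (nat_lit 11) true (nat_lit 12) (.s false (nat_lit 2) (nat_lit 8) (nat_lit 7) (nat_lit 2) (nat_lit 3) false (nat_lit 0) true (nat_lit 11) true (nat_lit 6) true (nat_lit 7) true (nat_lit 12) (.s false (nat_lit 2) (nat_lit 9) (nat_lit 0) (nat_lit 3) (nat_lit 8) true (nat_lit 2) true (nat_lit 6) true (nat_lit 5) true (nat_lit 14) true (nat_lit 11) (.s true (nat_lit 1) (nat_lit 9) (nat_lit 0) (nat_lit 8) (nat_lit 3) true (nat_lit 7) true (nat_lit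 11) true (nat_lit 5) true (nat_lit 14) true (nat_lit 6) (.s true (nat_lit 1) (nat_lit 9) (nat_lit 1) (nat_lit 3) (nat_lit 7) true (nat_lit 2) true (nat_lit 7) true (nat_lit 5) true (nat_lit 13) true (nat_lit 11) (.s true (nat_lit 4) (nat_lit 9) (nat_lit 1) (nat_lit 7) (nat_lit 3) true (nat_lit 6) true (nat_lit 11) true (nat_lit 5) true (nat_lit 13) true (nat_lit 7) (.s false (nat_lit 2) (nat_lit 9) (nat_lit 3) (nat_lit 0) (nat_lit 8) false (nat_lit 1) true (nat_lit 6) true (nat_lit 5) true (nat_lit 11) true (nat_lit 14) dW4x_i71)))))))))) .leaf) (nat_lit 174080) (nat_lit 479) (.p (nat_lit 278) (nat_lit 36) .z) .df .leaf) (nat_lit 174081) (nat_lit 548) (.p (nat_lit 319) (nat_lit 36) .z) .df (.nd .leaf (nat_lit 175104) (nat_lit 480) (.p (nat_lit 279) (nat_lit 36) .z) .df .leaf)) (nat_lit 175105) (nat_lit 581) (.p (nat_lit 283) (nat_lit 176) (.p (nat_lit 284) (nat_lit 80) (.p (nat_lit 285) (nat_lit 136) (.p (nat_lit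 286) (nat_lit 152) (.n (nat_lit 287) (nat_lit 160) (.p (nat_lit 288) (nat_lit 224) (.n (nat_lit 289) (nat_lit 168) (.p (nat_lit 290) (nat_lit 32) (.n (nat_lit 291) (nat_lit 96) (.p (nat_lit 292) (nat_lit 32) (.p (nat_lit 293) (nat_lit 336) (.n (nat_lit 294) (nat_lit 64) (.p (nat_lit 295) (nat_lit 64) (.n (nat_lit 296) (nat_lit 192) (.n (nat_lit 297) (nat_lit 252) (.p (nat_lit 298) (nat_lit 312) (.n (nat_lit 299) (nat_lit 368) (.p (nat_lit 301) (nat_lit 64) (.p (nat_lit 302) (nat_lit 308) (.n (nat_lit 303) (nat_lit 184) (.p (nat_lit 304) (nat_lit 32) (.n (nat_lit 305) (nat_lit 56) (.n (nat_lit 306) (nat_lit 560) (.n (nat_lit 307) (nat_lit 72) (.n (nat_lit 308) (nat_lit 144) (.p (nat_lit 309) (nat_lit 72) (.p (nat_lit 310) (nat_lit 36) (.n (nat_lit 311) (nat_lit 48) (.n (nat_lit 312) (nat_lit 60) (.p (nat_lit 313) (nat_lit 24) (.p (nat_lit 314) (nat_lit 72) (.p (nat_lit 315) (nat_lit 48) (.p (nat_lit 316) (nat_lit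 96) (.p (nat_lit 317) (nat_lit 72) (.p (nat_lit 318) (nat_lit 72) (.n (nat_lit 319) (nat_lit 24) (.p (nat_lit 320) (nat_lit 72) (.p (nat_lit 321) (nat_lit 60) (.p (nat_lit 322) (nat_lit 48) (.n (nat_lit 323) (nat_lit 96) (.n (nat_lit 324) (nat_lit 96) (.n (nat_lit 325) (nat_lit 72) (.n (nat_lit 326) (nat_lit 72) (.p (nat_lit 327) (nat_lit 96) (.p (nat_lit 328) (nat_lit 48) (.n (nat_lit 329) (nat_lit 48) .z)))))))))))))))))))))))))))))))))))))))))))))) (.ct dW4x_c4371 (nat_lit 36) (nat_lit 13) (.s false (nat_lit 1) (nat_lit 7) (nat_lit 6) (nat_lit 3) (nat_lit 3) true (nat_lit 0) true (nat_lit 11) true (nat_lit 7) true (nat_lit 8) true (nat_lit 11) (.s false (nat_lit 1) (nat_lit 8) (nat_lit 2) (nat_lit 3) (nat_lit 7) true (nat_lit 1) true (nat_lit 7) true (nat_lit 6) true (nat_lit 12) true (nat_lit 11) (.s true (nat_lit 1) (nat_lit 8) (nat_lit 7) (nat_lit 2) (nat_lit 3) false (nat_lit 0) true (nat_lit 11) true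 (nat_lit 6) true (nat_lit 7) true (nat_lit 12) (.s false (nat_lit 1) (nat_lit 9) (nat_lit 1) (nat_lit 7) (nat_lit 3) true (nat_lit 6) true (nat_lit 11) true (nat_lit 5) true (nat_lit 13) true (nat_lit 7) (.s false (nat_lit 1) (nat_lit 10) (nat_lit 2) (nat_lit 7) (nat_lit 1) true (nat_lit 8) true (nat_lit 13) true (nat_lit 4) true (nat_lit 12) true (nat_lit 7) (.s true (nat_lit 1) (nat_lit 21) (nat_lit 3) (nat_lit 1) (nat_lit 3) true (nat_lit 4) true (nat_lit 11) true (nat_lit 1) true (nat_lit 11) true (nat_lit 13) (.s true (nat_lit 1) (nat_lit 26) (nat_lit 2) (nat_lit 1) (nat_lit 3) true (nat_lit 5) true (nat_lit 11) false (nat_lit 0) true (nat_lit 12) true (nat_lit 13) (.s true (nat_lit 1) (nat_lit 26) (nat_lit 3) (nat_lit 1) (nat_lit 2) true (nat_lit 5) true (nat_lit 12) false (nat_lit 0) true (nat_lit 11) true (nat_lit 13) (.e true (nat_lit 36) (nat_lit 65) (nat_lit 8) (nat_lit 6) (.e true (nat_lit 36) (nat_lit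 137) (nat_lit 3) (nat_lit 11) (.e false (nat_lit 36) (nat_lit 157) (nat_lit 2) (nat_lit 12) (.e false (nat_lit 36) (nat_lit 159) (nat_lit 2) (nat_lit 12) (.e true (nat_lit 36) (nat_lit 143) (nat_lit 3) (nat_lit 11) (.e true (nat_lit 36) (nat_lit 59) (nat_lit 9) (nat_lit 5) (.e false (nat_lit 36) (nat_lit 168) (nat_lit 1) (nat_lit 13) (.e false (nat_lit 36) (nat_lit 170) (nat_lit 1) (nat_lit 13) (.e false (nat_lit 36) (nat_lit 172) (nat_lit 1) (nat_lit 13) (.e false (nat_lit 36) (nat_lit 156) (nat_lit 2) (nat_lit 12) (.e true (nat_lit 36) (nat_lit 160) (nat_lit 2) (nat_lit 12) (.e false (nat_lit 36) (nat_lit 161) (nat_lit 2) (nat_lit 12) (.e false (nat_lit 36) (nat_lit 167) (nat_lit 1) (nat_lit 13) .nil)))))))))))))))))))))) (.nd (.nd (.nd .leaf (nat_lit 176128) (nat_lit 481) (.p (nat_lit 280) (nat_lit 36) .z) .df .leaf) (nat_lit 176129) (nat_lit 549) (.p (nat_lit 320) (nat_lit 36) .z) .df .leaf) (nat_lit 177152)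 (nat_lit 482) (.p (nat_lit 281) (nat_lit 36) .z) .df (.nd .leaf (nat_lit 177153) (nat_lit 550) (.p (nat_lit 321) (nat_lit 36) .z) .df .leaf)))) (nat_lit 178176) (nat_lit 492) (.p (nat_lit 262) (nat_lit 72) (.n (nat_lit 264) (nat_lit 36) (.n (nat_lit 265) (nat_lit 72) (.n (nat_lit 266) (nat_lit 36) (.p (nat_lit 267) (nat_lit 36) (.p (nat_lit 268) (nat_lit 36) (.p (nat_lit 269) (nat_lit 36) (.n (nat_lit 270) (nat_lit 108) (.p (nat_lit 272) (nat_lit 36) (.n (nat_lit 274) (nat_lit 36) (.n (nat_lit 275) (nat_lit 72) (.n (nat_lit 276) (nat_lit 36) (.n (nat_lit 277) (nat_lit 36) (.p (nat_lit 278) (nat_lit 36) (.p (nat_lit 279) (nat_lit 72) (.n (nat_lit 280) (nat_lit 108) (.n (nat_lit 281) (nat_lit 36) .z))))))))))))))))) (.ct dW4x_c8211 (nat_lit 36) (nat_lit 9) (.s false (nat_lit 1) (nat_lit 7) (nat_lit 2) (nat_lit 3) (nat_lit 7) true (nat_lit 0) true (nat_lit 5) true (nat_lit 5) true (nat_lit 8) true (nat_lit 7)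 (.s false (nat_lit 1) (nat_lit 9) (nat_lit 0) (nat_lit 7) (nat_lit 3) true (nat_lit 5) true (nat_lit 7) true (nat_lit 4) true (nat_lit 9) true (nat_lit 5) (.s true (nat_lit 1) (nat_lit 9) (nat_lit 3) (nat_lit 0) (nat_lit 7) false (nat_lit 0) true (nat_lit 5) true (nat_lit 4) true (nat_lit 7) true (nat_lit 9) (.s true (nat_lit 1) (nat_lit 10) (nat_lit 0) (nat_lit 9) (nat_lit 0) false (nat_lit 10) true (nat_lit 9) true (nat_lit 3) true (nat_lit 9) true (nat_lit 4) (.s false (nat_lit 1) (nat_lit 22) (nat_lit 3) (nat_lit 0) (nat_lit 3) true (nat_lit 3) true (nat_lit 7) true (nat_lit 0) true (nat_lit 7) true (nat_lit 9) (.s false (nat_lit 1) (nat_lit 26) (nat_lit 3) (nat_lit 0) (nat_lit 2) true (nat_lit 4) true (nat_lit 8) false (nat_lit 0) true (nat_lit 7) true (nat_lit 9) (.e false (nat_lit 36) (nat_lit 65) (nat_lit 7) (nat_lit 5) (.e false (nat_lit 36) (nat_lit 151) (nat_lit 2) (nat_lit 8) (.e true (nat_lit 36)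 (nat_lit 155) (nat_lit 2) (nat_lit 8) (.e true (nat_lit 36) (nat_lit 115) (nat_lit 3) (nat_lit 7) (.e false (nat_lit 36) (nat_lit 121) (nat_lit 3) (nat_lit 7) (.e false (nat_lit 36) (nat_lit 125) (nat_lit 3) (nat_lit 7) (.e false (nat_lit 36) (nat_lit 177) (nat_lit 0) (nat_lit 9) (.e true (nat_lit 36) (nat_lit 167) (nat_lit 0) (nat_lit 9) (.e false (nat_lit 36) (nat_lit 171) (nat_lit 0) (nat_lit 9) (.e true (nat_lit 72) (nat_lit 172) (nat_lit 0) (nat_lit 9) (.e true (nat_lit 36) (nat_lit 173) (nat_lit 0) (nat_lit 9) .nil)))))))))))))))))) (.nd (.nd (.nd (.nd (.nd .leaf (nat_lit 178177) (nat_lit 551) (.p (nat_lit 322) (nat_lit 36) .z) .df .leaf) (nat_lit 179200) (nat_lit 495) (.p (nat_lit 262) (nat_lit 504) (.n (nat_lit 263) (nat_lit 144) (.n (nat_lit 264) (nat_lit 180) (.n (nat_lit 265) (nat_lit 936) (.n (nat_lit 266) (nat_lit 504) (.p (nat_lit 267) (nat_lit 216) (.p (nat_lit 268) (nat_lit 504) (.p (nat_lit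 269) (nat_lit 468) (.n (nat_lit 270) (nat_lit 1152) (.n (nat_lit 271) (nat_lit 216) (.p (nat_lit 273) (nat_lit 360) (.p (nat_lit 274) (nat_lit 504) (.n (nat_lit 275) (nat_lit 72) (.p (nat_lit 276) (nat_lit 180) (.n (nat_lit 277) (nat_lit 324) (.p (nat_lit 278) (nat_lit 396) (.n (nat_lit 279) (nat_lit 108) (.n (nat_lit 280) (nat_lit 180) (.n (nat_lit 281) (nat_lit 144) (.n (nat_lit 282) (nat_lit 288) .z)))))))))))))))))))) (.ct dW4x_c8211 (nat_lit 36) (nat_lit 9) (.s false (nat_lit 1) (nat_lit 30) (nat_lit 0) (nat_lit 0) (nat_lit 3) true (nat_lit 5) true (nat_lit 7) false (nat_lit 1) true (nat_lit 9) true (nat_lit 9) (.e false (nat_lit 36) (nat_lit 69) (nat_lit 7) (nat_lit 5) (.e false (nat_lit 36) (nat_lit 125) (nat_lit 3) (nat_lit 7) (.e false (nat_lit 108) (nat_lit 168) (nat_lit 0) (nat_lit 9) (.e false (nat_lit 72) (nat_lit 170) (nat_lit 0) (nat_lit 9) (.e true (nat_lit 72) (nat_lit 173) (nat_lit 0) (nat_lit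 9) (.e true (nat_lit 72) (nat_lit 174) (nat_lit 0) (nat_lit 9) (.e false (nat_lit 72) (nat_lit 177) (nat_lit 0) (nat_lit 9) (.e false (nat_lit 36) (nat_lit 167) (nat_lit 0) (nat_lit 9) (.e true (nat_lit 36) (nat_lit 169) (nat_lit 0) (nat_lit 9) (.e false (nat_lit 36) (nat_lit 172) (nat_lit 0) (nat_lit 9) (.e true (nat_lit 36) (nat_lit 176) (nat_lit 0) (nat_lit 9) .nil))))))))))))) .leaf) (nat_lit 179201) (nat_lit 586) (.n (nat_lit 283) (nat_lit 248) (.n (nat_lit 284) (nat_lit 260) (.n (nat_lit 285) (nat_lit 262) (.n (nat_lit 286) (nat_lit 206) (.p (nat_lit 287) (nat_lit 160) (.n (nat_lit 288) (nat_lit 404) (.p (nat_lit 289) (nat_lit 330) (.p (nat_lit 290) (nat_lit 148) (.p (nat_lit 291) (nat_lit 132) (.p (nat_lit 292) (nat_lit 76) (.n (nat_lit 293) (nat_lit 390) (.p (nat_lit 294) (nat_lit 190) (.p (nat_lit 295) (nat_lit 44) (.p (nat_lit 296) (nat_lit 192) (.p (nat_lit 297) (nat_lit 288) (.n (nat_lit 298) (nat_lit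 294) (.p (nat_lit 299) (nat_lit 440) (.n (nat_lit 301) (nat_lit 64) (.n (nat_lit 302) (nat_lit 326) (.p (nat_lit 303) (nat_lit 130) (.n (nat_lit 304) (nat_lit 32) (.p (nat_lit 305) (nat_lit 38) (.p (nat_lit 306) (nat_lit 722) (.p (nat_lit 308) (nat_lit 198) (.n (nat_lit 309) (nat_lit 198) (.p (nat_lit 310) (nat_lit 126) (.n (nat_lit 311) (nat_lit 132) (.p (nat_lit 312) (nat_lit 42) (.n (nat_lit 313) (nat_lit 114) (.n (nat_lit 314) (nat_lit 234) (.n (nat_lit 315) (nat_lit 174) (.n (nat_lit 316) (nat_lit 150) (.n (nat_lit 317) (nat_lit 54) (.n (nat_lit 318) (nat_lit 162) (.n (nat_lit 319) (nat_lit 102) (.p (nat_lit 320) (nat_lit 18) (.n (nat_lit 321) (nat_lit 42) (.n (nat_lit 322) (nat_lit 12) (.p (nat_lit 323) (nat_lit 42) (.p (nat_lit 324) (nat_lit 204) (.p (nat_lit 325) (nat_lit 198) (.p (nat_lit 326) (nat_lit 234) (.n (nat_lit 327) (nat_lit 222) (.p (nat_lit 328) (nat_lit 6) (.p (nat_lit 329) (nat_lit 228)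 .z))))))))))))))))))))))))))))))))))))))))))))) (.ct dW4x_c4371 (nat_lit 36) (nat_lit 13) (.s false (nat_lit 1) (nat_lit 27) (nat_lit 1) (nat_lit 2) (nat_lit 3) true (nat_lit 6) true (nat_lit 11) false (nat_lit 0) true (nat_lit 13) true (nat_lit 12) (.s false (nat_lit 1) (nat_lit 27) (nat_lit 2) (nat_lit 1) (nat_lit 3) true (nat_lit 5) true (nat_lit 11) false (nat_lit 0) true (nat_lit 12) true (nat_lit 13) (.e false (nat_lit 36) (nat_lit 68) (nat_lit 8) (nat_lit 6) (.e false (nat_lit 36) (nat_lit 140) (nat_lit 3) (nat_lit 11) (.e false (nat_lit 72) (nat_lit 167) (nat_lit 1) (nat_lit 13) (.e false (nat_lit 72) (nat_lit 168) (nat_lit 1) (nat_lit 13) (.e true (nat_lit 36) (nat_lit 171) (nat_lit 1) (nat_lit 13) (.e false (nat_lit 72) (nat_lit 172) (nat_lit 1) (nat_lit 13) (.e true (nat_lit 36) (nat_lit 176) (nat_lit 1) (nat_lit 13) (.e true (nat_lit 36) (nat_lit 162) (nat_lit 2) (nat_lit 12) (.e false (nat_lit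 36) (nat_lit 62) (nat_lit 9) (nat_lit 5) (.e false (nat_lit 36) (nat_lit 145) (nat_lit 3) (nat_lit 11) (.e false (nat_lit 72) (nat_lit 156) (nat_lit 2) (nat_lit 12) (.e false (nat_lit 72) (nat_lit 157) (nat_lit 2) (nat_lit 12) (.e true (nat_lit 36) (nat_lit 160) (nat_lit 2) (nat_lit 12) (.e false (nat_lit 72) (nat_lit 161) (nat_lit 2) (nat_lit 12) (.e true (nat_lit 36) (nat_lit 164) (nat_lit 2) (nat_lit 12) (.e true (nat_lit 36) (nat_lit 165) (nat_lit 2) (nat_lit 12) (.e true (nat_lit 36) (nat_lit 173) (nat_lit 1) (nat_lit 13) .nil)))))))))))))))))))) (.nd .leaf (nat_lit 180224) (nat_lit 490) (.p (nat_lit 262) (nat_lit 36) (.n (nat_lit 263) (nat_lit 36) (.n (nat_lit 265) (nat_lit 144) (.n (nat_lit 266) (nat_lit 72) (.p (nat_lit 268) (nat_lit 72) (.p (nat_lit 269) (nat_lit 72) (.n (nat_lit 270) (nat_lit 144) (.n (nat_lit 271) (nat_lit 36) (.n (nat_lit 272) (nat_lit 36) (.p (nat_lit 273) (nat_lit 72) (.p (nat_lit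 274) (nat_lit 144) (.p (nat_lit 275) (nat_lit 36) (.p (nat_lit 276) (nat_lit 108) (.n (nat_lit 277) (nat_lit 72) (.p (nat_lit 278) (nat_lit 72) (.n (nat_lit 279) (nat_lit 72) (.n (nat_lit 282) (nat_lit 36) .z))))))))))))))))) (.ct dW4x_c8211 (nat_lit 36) (nat_lit 9) (.s false (nat_lit 1) (nat_lit 7) (nat_lit 2) (nat_lit 3) (nat_lit 7) true (nat_lit 0) true (nat_lit 5) true (nat_lit 5) true (nat_lit 8) true (nat_lit 7) (.s true (nat_lit 1) (nat_lit 7) (nat_lit 2) (nat_lit 7) (nat_lit 3) true (nat_lit 4) true (nat_lit 7) true (nat_lit 5) true (nat_lit 8) true (nat_lit 5) (.s true (nat_lit 1) (nat_lit 9) (nat_lit 7) (nat_lit 0) (nat_lit 3) false (nat_lit 0) true (nat_lit 7) true (nat_lit 4) true (nat_lit 5) true (nat_lit 9) (.s true (nat_lit 1) (nat_lit 10) (nat_lit 0) (nat_lit 9) (nat_lit 0) false (nat_lit 10) true (nat_lit 9) true (nat_lit 3) true (nat_lit 9) true (nat_lit 4) (.s false (nat_lit 1) (nat_lit 20)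 (nat_lit 0) (nat_lit 3) (nat_lit 3) true (nat_lit 5) true (nat_lit 7) true (nat_lit 0) true (nat_lit 9) true (nat_lit 7) (.s false (nat_lit 1) (nat_lit 22) (nat_lit 3) (nat_lit 0) (nat_lit 3) true (nat_lit 3) true (nat_lit 7) true (nat_lit 0) true (nat_lit 7) true (nat_lit 9) (.s false (nat_lit 1) (nat_lit 26) (nat_lit 0) (nat_lit 2) (nat_lit 3) true (nat_lit 5) true (nat_lit 7) false (nat_lit 0) true (nat_lit 9) true (nat_lit 8) (.s false (nat_lit 1) (nat_lit 26) (nat_lit 3) (nat_lit 0) (nat_lit 2) true (nat_lit 4) true (nat_lit 8) false (nat_lit 0) true (nat_lit 7) true (nat_lit 9) (.e false (nat_lit 72) (nat_lit 65) (nat_lit 7) (nat_lit 5) (.e false (nat_lit 36) (nat_lit 64) (nat_lit 7) (nat_lit 5) (.e false (nat_lit 36) (nat_lit 120) (nat_lit 3) (nat_lit 7) (.e false (nat_lit 72) (nat_lit 121) (nat_lit 3) (nat_lit 7) (.e true (nat_lit 72) (nat_lit 168) (nat_lit 0) (nat_lit 9) (.e true (nat_lit 36) (nat_lit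 170) (nat_lit 0) (nat_lit 9) (.e true (nat_lit 72) (nat_lit 167) (nat_lit 0) (nat_lit 9) (.e false (nat_lit 72) (nat_lit 171) (nat_lit 0) (nat_lit 9) (.e true (nat_lit 108) (nat_lit 172) (nat_lit 0) (nat_lit 9) .nil)))))))))))))))))) .leaf)) (nat_lit 180225) (nat_lit 566) (.p (nat_lit 283) (nat_lit 340) (.p (nat_lit 284) (nat_lit 652) (.p (nat_lit 285) (nat_lit 284) (.p (nat_lit 286) (nat_lit 148) (.n (nat_lit 287) (nat_lit 44) (.p (nat_lit 288) (nat_lit 580) (.n (nat_lit 289) (nat_lit 480) (.n (nat_lit 290) (nat_lit 488) (.n (nat_lit 291) (nat_lit 48) (.n (nat_lit 292) (nat_lit 200) (.p (nat_lit 293) (nat_lit 240) (.n (nat_lit 294) (nat_lit 248) (.n (nat_lit 295) (nat_lit 292) (.n (nat_lit 296) (nat_lit 132) (.n (nat_lit 297) (nat_lit 36) (.p (nat_lit 298) (nat_lit 48) (.n (nat_lit 299) (nat_lit 256) (.n (nat_lit 301) (nat_lit 220) (.p (nat_lit 302) (nat_lit 100) (.p (nat_lit 303) (nat_lit 304) (.p (nat_lit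 304) (nat_lit 160) (.n (nat_lit 305) (nat_lit 64) (.n (nat_lit 306) (nat_lit 460) (.p (nat_lit 307) (nat_lit 180) (.n (nat_lit 308) (nat_lit 252) (.p (nat_lit 309) (nat_lit 360) (.n (nat_lit 310) (nat_lit 432) (.p (nat_lit 311) (nat_lit 480) (.p (nat_lit 312) (nat_lit 24) (.p (nat_lit 313) (nat_lit 336) (.p (nat_lit 314) (nat_lit 432) (.p (nat_lit 315) (nat_lit 240) (.p (nat_lit 316) (nat_lit 48) (.p (nat_lit 317) (nat_lit 144) (.p (nat_lit 318) (nat_lit 432) (.p (nat_lit 319) (nat_lit 384) (.p (nat_lit 320) (nat_lit 72) (.n (nat_lit 321) (nat_lit 60) (.n (nat_lit 322) (nat_lit 48) (.p (nat_lit 323) (nat_lit 24) (.n (nat_lit 324) (nat_lit 336) (.n (nat_lit 325) (nat_lit 432) (.n (nat_lit 326) (nat_lit 432) (.p (nat_lit 327) (nat_lit 516) (.n (nat_lit 328) (nat_lit 12) (.n (nat_lit 329) (nat_lit 528) .z)))))))))))))))))))))))))))))))))))))))))))))) (.ct dW4x_c4371 (nat_lit 36) (nat_lit 13) (.s true (nat_lit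 2) (nat_lit 7) (nat_lit 6) (nat_lit 3) (nat_lit 3) true (nat_lit 0) true (nat_lit 11) true (nat_lit 7) true (nat_lit 8) true (nat_lit 11) (.s true (nat_lit 3) (nat_lit 8) (nat_lit 2) (nat_lit 3) (nat_lit 7) true (nat_lit 1) true (nat_lit 7) true (nat_lit 6) true (nat_lit 12) true (nat_lit 11) (.s false (nat_lit 1) (nat_lit 8) (nat_lit 2) (nat_lit 7) (nat_lit 3) true (nat_lit 5) true (nat_lit 11) true (nat_lit 6) true (nat_lit 12) true (nat_lit 7) (.s true (nat_lit 1) (nat_lit 8) (nat_lit 3) (nat_lit 2) (nat_lit 7) false (nat_lit 0) true (nat_lit 7) true (nat_lit 6) true (nat_lit 11) true (nat_lit 12) (.s false (nat_lit 2) (nat_lit 8) (nat_lit 7) (nat_lit 2) (nat_lit 3) false (nat_lit 0) true (nat_lit 11) true (nat_lit 6) true (nat_lit 7) true (nat_lit 12) (.s true (nat_lit 2) (nat_lit 9) (nat_lit 1) (nat_lit 7) (nat_lit 3) true (nat_lit 6) true (nat_lit 11) true (nat_lit 5) true (nat_lit 13) true (nat_lit 7)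 (.s true (nat_lit 2) (nat_lit 10) (nat_lit 2) (nat_lit 7) (nat_lit 1) true (nat_lit 8) true (nat_lit 13) true (nat_lit 4) true (nat_lit 12) true (nat_lit 7) (.s true (nat_lit 1) (nat_lit 21) (nat_lit 1) (nat_lit 3) (nat_lit 3) true (nat_lit 6) true (nat_lit 11) true (nat_lit 1) true (nat_lit 13) true (nat_lit 11) (.s false (nat_lit 2) (nat_lit 21) (nat_lit 3) (nat_lit 1) (nat_lit 3) true (nat_lit 4) true (nat_lit 11) true (nat_lit 1) true (nat_lit 11) true (nat_lit 13) (.s false (nat_lit 1) (nat_lit 24) (nat_lit 3) (nat_lit 3) (nat_lit 0) true (nat_lit 7) true (nat_lit 14) true (nat_lit 0) true (nat_lit 11) true (nat_lit 11) (.s false (nat_lit 2) (nat_lit 26) (nat_lit 2) (nat_lit 1) (nat_lit 3) true (nat_lit 5) true (nat_lit 11) false (nat_lit 0) true (nat_lit 12) true (nat_lit 13) (.s false (nat_lit 1) (nat_lit 26) (nat_lit 3) (nat_lit 1) (nat_lit 2) true (nat_lit 5) true (nat_lit 12) false (nat_lit 0) true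 (nat_lit 11) true (nat_lit 13) (.s false (nat_lit 1) (nat_lit 27) (nat_lit 3) (nat_lit 1) (nat_lit 2) true (nat_lit 5) true (nat_lit 12) false (nat_lit 0) true (nat_lit 11) true (nat_lit 13) (.e false (nat_lit 36) (nat_lit 128) (nat_lit 3) (nat_lit 11) (.e false (nat_lit 36) (nat_lit 129) (nat_lit 3) (nat_lit 11) (.e true (nat_lit 36) (nat_lit 130) (nat_lit 3) (nat_lit 11) (.e false (nat_lit 36) (nat_lit 133) (nat_lit 3) (nat_lit 11) (.e true (nat_lit 36) (nat_lit 134) (nat_lit 3) (nat_lit 11) (.e true (nat_lit 180) (nat_lit 150) (nat_lit 3) (nat_lit 11) (.e false (nat_lit 36) (nat_lit 166) (nat_lit 2) (nat_lit 12) (.e false (nat_lit 108) (nat_lit 136) (nat_lit 3) (nat_lit 11) (.e false (nat_lit 36) (nat_lit 137) (nat_lit 3) (nat_lit 11) dW4x_i72))))))))))))))))))))))) (.nd (.nd (.nd .leaf (nat_lit 181248) (nat_lit 483) (.p (nat_lit 282) (nat_lit 36) .z) .df .leaf) (nat_lit 181249) (nat_lit 552) (.p (nat_lit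 323) (nat_lit 36) .z) .df .leaf) (nat_lit 182272) (nat_lit 553) (.p (nat_lit 324) (nat_lit 36) .z) .df (.nd .leaf (nat_lit 183296) (nat_lit 554) (.p (nat_lit 325) (nat_lit 36) .z) .df .leaf))) (nat_lit 184320) (nat_lit 575) (.p (nat_lit 283) (nat_lit 120) (.p (nat_lit 284) (nat_lit 372) (.p (nat_lit 285) (nat_lit 6) (.n (nat_lit 286) (nat_lit 78) (.p (nat_lit 287) (nat_lit 48) (.p (nat_lit 288) (nat_lit 156) (.n (nat_lit 289) (nat_lit 126) (.n (nat_lit 290) (nat_lit 276) (.p (nat_lit 291) (nat_lit 108) (.n (nat_lit 292) (nat_lit 96) (.n (nat_lit 293) (nat_lit 126) (.n (nat_lit 294) (nat_lit 42) (.n (nat_lit 295) (nat_lit 192) (.p (nat_lit 296) (nat_lit 36) (.p (nat_lit 297) (nat_lit 216) (.n (nat_lit 298) (nat_lit 198) (.p (nat_lit 299) (nat_lit 132) (.n (nat_lit 301) (nat_lit 264) (.n (nat_lit 302) (nat_lit 186) (.p (nat_lit 303) (nat_lit 390) (.p (nat_lit 304) (nat_lit 84) (.n (nat_lit 305) (nat_lit 30) (.p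 (nat_lit 306) (nat_lit 222) (.p (nat_lit 307) (nat_lit 144) (.n (nat_lit 308) (nat_lit 54) (.p (nat_lit 309) (nat_lit 162) (.n (nat_lit 310) (nat_lit 234) (.p (nat_lit 311) (nat_lit 288) (.p (nat_lit 312) (nat_lit 54) (.p (nat_lit 313) (nat_lit 198) (.p (nat_lit 314) (nat_lit 162) (.p (nat_lit 315) (nat_lit 54) (.n (nat_lit 316) (nat_lit 90) (.p (nat_lit 317) (nat_lit 54) (.p (nat_lit 318) (nat_lit 198) (.p (nat_lit 319) (nat_lit 234) (.p (nat_lit 320) (nat_lit 54) (.n (nat_lit 321) (nat_lit 90) (.n (nat_lit 322) (nat_lit 36) (.p (nat_lit 323) (nat_lit 54) (.n (nat_lit 324) (nat_lit 108) (.n (nat_lit 325) (nat_lit 198) (.n (nat_lit 326) (nat_lit 198) (.p (nat_lit 327) (nat_lit 270) (.p (nat_lit 328) (nat_lit 18) (.n (nat_lit 329) (nat_lit 252) .z)))))))))))))))))))))))))))))))))))))))))))))) (.ct dW4x_c4371 (nat_lit 36) (nat_lit 14) (.s false (nat_lit 1) (nat_lit 9) (nat_lit 1) (nat_lit 3) (nat_lit 7) true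 (nat_lit 2) true (nat_lit 7) true (nat_lit 5) true (nat_lit 13) true (nat_lit 11) (.s false (nat_lit 1) (nat_lit 18) (nat_lit 2) (nat_lit 3) (nat_lit 3) true (nat_lit 5) true (nat_lit 11) true (nat_lit 2) true (nat_lit 12) true (nat_lit 11) (.s true (nat_lit 1) (nat_lit 25) (nat_lit 3) (nat_lit 3) (nat_lit 0) true (nat_lit 7) true (nat_lit 14) true (nat_lit 0) true (nat_lit 11) true (nat_lit 11) (.s false (nat_lit 1) (nat_lit 27) (nat_lit 1) (nat_lit 2) (nat_lit 3) true (nat_lit 6) true (nat_lit 11) false (nat_lit 0) true (nat_lit 13) true (nat_lit 12) (.s false (nat_lit 1) (nat_lit 27) (nat_lit 1) (nat_lit 3) (nat_lit 2) true (nat_lit 8) true (nat_lit 12) false (nat_lit 0) true (nat_lit 13) true (nat_lit 11) (.s false (nat_lit 1) (nat_lit 27) (nat_lit 2) (nat_lit 1) (nat_lit 3) true (nat_lit 5) true (nat_lit 11) false (nat_lit 0) true (nat_lit 12) true (nat_lit 13) (.s false (nat_lit 1) (nat_lit 27) (nat_lit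 2) (nat_lit 3) (nat_lit 1) true (nat_lit 8) true (nat_lit 13) false (nat_lit 0) true (nat_lit 12) true (nat_lit 11) (.s false (nat_lit 1) (nat_lit 27) (nat_lit 3) (nat_lit 1) (nat_lit 2) true (nat_lit 5) true (nat_lit 12) false (nat_lit 0) true (nat_lit 11) true (nat_lit 13) (.e false (nat_lit 36) (nat_lit 58) (nat_lit 9) (nat_lit 5) (.e false (nat_lit 72) (nat_lit 59) (nat_lit 9) (nat_lit 5) (.e true (nat_lit 36) (nat_lit 62) (nat_lit 9) (nat_lit 5) (.e false (nat_lit 36) (nat_lit 63) (nat_lit 9) (nat_lit 5) (.e false (nat_lit 36) (nat_lit 177) (nat_lit 1) (nat_lit 13) (.e true (nat_lit 72) (nat_lit 142) (nat_lit 3) (nat_lit 11) (.e false (nat_lit 72) (nat_lit 145) (nat_lit 3) (nat_lit 11) dW4x_i83)))))))))))))))) (.nd (.nd (.nd (.nd .leaf (nat_lit 185344) (nat_lit 569) (.p (nat_lit 283) (nat_lit 16) (.n (nat_lit 284) (nat_lit 104) (.p (nat_lit 285) (nat_lit 32) (.p (nat_lit 286) (nat_lit 40) (.n (nat_lit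 287) (nat_lit 44) (.p (nat_lit 288) (nat_lit 4) (.n (nat_lit 289) (nat_lit 12) (.p (nat_lit 290) (nat_lit 88) (.n (nat_lit 291) (nat_lit 48) (.p (nat_lit 292) (nat_lit 52) (.p (nat_lit 293) (nat_lit 96) (.p (nat_lit 294) (nat_lit 40) (.p (nat_lit 295) (nat_lit 104) (.n (nat_lit 296) (nat_lit 60) (.n (nat_lit 297) (nat_lit 144) (.p (nat_lit 298) (nat_lit 156) (.n (nat_lit 299) (nat_lit 148) (.p (nat_lit 301) (nat_lit 104) (.p (nat_lit 302) (nat_lit 136) (.n (nat_lit 303) (nat_lit 200) (.n (nat_lit 304) (nat_lit 20) (.p (nat_lit 305) (nat_lit 8) (.n (nat_lit 306) (nat_lit 208) (.n (nat_lit 307) (nat_lit 144) (.n (nat_lit 308) (nat_lit 72) (.n (nat_lit 309) (nat_lit 36) (.p (nat_lit 310) (nat_lit 144) (.n (nat_lit 311) (nat_lit 204) (.n (nat_lit 312) (nat_lit 48) (.n (nat_lit 313) (nat_lit 60) (.n (nat_lit 314) (nat_lit 36) (.p (nat_lit 315) (nat_lit 24) (.p (nat_lit 316) (nat_lit 48) (.n (nat_lit 318) (nat_lit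 36) (.n (nat_lit 319) (nat_lit 84) (.p (nat_lit 321) (nat_lit 48) (.p (nat_lit 322) (nat_lit 24) (.n (nat_lit 323) (nat_lit 48) (.p (nat_lit 324) (nat_lit 24) (.p (nat_lit 325) (nat_lit 36) (.p (nat_lit 326) (nat_lit 72) (.n (nat_lit 327) (nat_lit 96) (.p (nat_lit 328) (nat_lit 24) (.p (nat_lit 329) (nat_lit 120) .z)))))))))))))))))))))))))))))))))))))))))))) (.ct dW4x_c4371 (nat_lit 36) (nat_lit 14) (.s false (nat_lit 3) (nat_lit 8) (nat_lit 2) (nat_lit 3) (nat_lit 7) true (nat_lit 1) true (nat_lit 7) true (nat_lit 6) true (nat_lit 12) true (nat_lit 11) (.s true (nat_lit 1) (nat_lit 8) (nat_lit 2) (nat_lit 7) (nat_lit 3) true (nat_lit 5) true (nat_lit 11) true (nat_lit 6) true (nat_lit 12) true (nat_lit 7) (.s false (nat_lit 2) (nat_lit 8) (nat_lit 3) (nat_lit 2) (nat_lit 7) false (nat_lit 0) true (nat_lit 7) true (nat_lit 6) true (nat_lit 11) true (nat_lit 12) (.s true (nat_lit 2) (nat_lit 8) (nat_lit 7)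 (nat_lit 2) (nat_lit 3) false (nat_lit 0) true (nat_lit 11) true (nat_lit 6) true (nat_lit 7) true (nat_lit 12) (.s false (nat_lit 1) (nat_lit 9) (nat_lit 1) (nat_lit 7) (nat_lit 3) true (nat_lit 6) true (nat_lit 11) true (nat_lit 5) true (nat_lit 13) true (nat_lit 7) (.s false (nat_lit 1) (nat_lit 10) (nat_lit 0) (nat_lit 6) (nat_lit 3) true (nat_lit 7) true (nat_lit 11) true (nat_lit 4) true (nat_lit 14) true (nat_lit 8) (.s false (nat_lit 2) (nat_lit 10) (nat_lit 2) (nat_lit 7) (nat_lit 1) true (nat_lit 8) true (nat_lit 13) true (nat_lit 4) true (nat_lit 12) true (nat_lit 7) (.s false (nat_lit 1) (nat_lit 10) (nat_lit 6) (nat_lit 0) (nat_lit 3) true (nat_lit 0) true (nat_lit 11) true (nat_lit 4) true (nat_lit 8) true (nat_lit 14) (.s false (nat_lit 1) (nat_lit 21) (nat_lit 1) (nat_lit 3) (nat_lit 3) true (nat_lit 6) true (nat_lit 11) true (nat_lit 1) true (nat_lit 13) true (nat_lit 11) (.s true (nat_lit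 2) (nat_lit 21) (nat_lit 3) (nat_lit 1) (nat_lit 3) true (nat_lit 4) true (nat_lit 11) true (nat_lit 1) true (nat_lit 11) true (nat_lit 13) (.s false (nat_lit 2) (nat_lit 23) (nat_lit 0) (nat_lit 3) (nat_lit 3) true (nat_lit 7) true (nat_lit 11) true (nat_lit 0) true (nat_lit 14) true (nat_lit 11) (.s true (nat_lit 1) (nat_lit 25) (nat_lit 3) (nat_lit 3) (nat_lit 0) true (nat_lit 7) true (nat_lit 14) true (nat_lit 0) true (nat_lit 11) true (nat_lit 11) (.s true (nat_lit 2) (nat_lit 26) (nat_lit 2) (nat_lit 1) (nat_lit 3) true (nat_lit 5) true (nat_lit 11) false (nat_lit 0) true (nat_lit 12) true (nat_lit 13) (.s true (nat_lit 1) (nat_lit 27) (nat_lit 2) (nat_lit 1) (nat_lit 3) true (nat_lit 5) true (nat_lit 11) false (nat_lit 0) true (nat_lit 12) true (nat_lit 13) (.s false (nat_lit 1) (nat_lit 27) (nat_lit 2) (nat_lit 3) (nat_lit 1) true (nat_lit 8) true (nat_lit 13) false (nat_lit 0) true (nat_lit 12) true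 (nat_lit 11) (.e true (nat_lit 72) (nat_lit 166) (nat_lit 2) (nat_lit 12) (.e false (nat_lit 36) (nat_lit 136) (nat_lit 3) (nat_lit 11) (.e true (nat_lit 72) (nat_lit 140) (nat_lit 3) (nat_lit 11) (.e false (nat_lit 36) (nat_lit 141) (nat_lit 3) (nat_lit 11) (.e false (nat_lit 36) (nat_lit 58) (nat_lit 9) (nat_lit 5) (.e true (nat_lit 72) (nat_lit 62) (nat_lit 9) (nat_lit 5) (.e false (nat_lit 36) (nat_lit 63) (nat_lit 9) (nat_lit 5) (.e true (nat_lit 36) (nat_lit 142) (nat_lit 3) (nat_lit 11) dW4x_i76)))))))))))))))))))))))) .leaf) (nat_lit 186368) (nat_lit 562) (.n (nat_lit 283) (nat_lit 164) (.p (nat_lit 284) (nat_lit 40) (.n (nat_lit 285) (nat_lit 130) (.n (nat_lit 286) (nat_lit 122) (.p (nat_lit 287) (nat_lit 136) (.n (nat_lit 288) (nat_lit 176) (.p (nat_lit 289) (nat_lit 150) (.n (nat_lit 290) (nat_lit 164) (.p (nat_lit 291) (nat_lit 96) (.n (nat_lit 292) (nat_lit 92) (.n (nat_lit 293) (nat_lit 354) (.p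 (nat_lit 294) (nat_lit 22) (.n (nat_lit 295) (nat_lit 112) (.p (nat_lit 296) (nat_lit 264) (.p (nat_lit 297) (nat_lit 324) (.n (nat_lit 298) (nat_lit 402) (.p (nat_lit 299) (nat_lit 428) (.n (nat_lit 301) (nat_lit 112) (.n (nat_lit 302) (nat_lit 386) (.p (nat_lit 303) (nat_lit 358) (.n (nat_lit 304) (nat_lit 20) (.p (nat_lit 305) (nat_lit 62) (.p (nat_lit 306) (nat_lit 638) (.p (nat_lit 307) (nat_lit 180) (.p (nat_lit 308) (nat_lit 198) (.n (nat_lit 309) (nat_lit 18) (.n (nat_lit 310) (nat_lit 162) (.p (nat_lit 311) (nat_lit 192) (.p (nat_lit 312) (nat_lit 78) (.p (nat_lit 313) (nat_lit 30) (.n (nat_lit 314) (nat_lit 18) (.n (nat_lit 315) (nat_lit 66) (.n (nat_lit 316) (nat_lit 114) (.n (nat_lit 317) (nat_lit 18) (.p (nat_lit 318) (nat_lit 54) (.p (nat_lit 319) (nat_lit 114) (.n (nat_lit 320) (nat_lit 18) (.n (nat_lit 321) (nat_lit 114) (.n (nat_lit 322) (nat_lit 84) (.p (nat_lit 323) (nat_lit 150) (.p (nat_lit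 324) (nat_lit 96) (.p (nat_lit 325) (nat_lit 54) (.p (nat_lit 326) (nat_lit 18) (.p (nat_lit 327) (nat_lit 30) (.n (nat_lit 328) (nat_lit 30) (.n (nat_lit 329) (nat_lit 60) .z)))))))))))))))))))))))))))))))))))))))))))))) (.ct dW4x_c4371 (nat_lit 36) (nat_lit 14) (.s false (nat_lit 2) (nat_lit 7) (nat_lit 6) (nat_lit 3) (nat_lit 3) true (nat_lit 0) true (nat_lit 11) true (nat_lit 7) true (nat_lit 8) true (nat_lit 11) (.s true (nat_lit 1) (nat_lit 8) (nat_lit 2) (nat_lit 3) (nat_lit 7) true (nat_lit 1) true (nat_lit 7) true (nat_lit 6) true (nat_lit 12) true (nat_lit 11) (.s true (nat_lit 1) (nat_lit 8) (nat_lit 2) (nat_lit 7) (nat_lit 3) true (nat_lit 5) true (nat_lit 11) true (nat_lit 6) true (nat_lit 12) true (nat_lit 7) (.s false (nat_lit 1) (nat_lit 8) (nat_lit 3) (nat_lit 2) (nat_lit 7) false (nat_lit 0) true (nat_lit 7) true (nat_lit 6) true (nat_lit 11) true (nat_lit 12) (.s false (nat_lit 1) (nat_lit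 9) (nat_lit 0) (nat_lit 3) (nat_lit 8) true (nat_lit 2) true (nat_lit 6) true (nat_lit 5) true (nat_lit 14) true (nat_lit 11) (.s true (nat_lit 1) (nat_lit 9) (nat_lit 1) (nat_lit 3) (nat_lit 7) true (nat_lit 2) true (nat_lit 7) true (nat_lit 5) true (nat_lit 13) true (nat_lit 11) (.s false (nat_lit 1) (nat_lit 9) (nat_lit 7) (nat_lit 1) (nat_lit 3) false (nat_lit 0) true (nat_lit 11) true (nat_lit 5) true (nat_lit 7) true (nat_lit 13) (.s true (nat_lit 1) (nat_lit 9) (nat_lit 8) (nat_lit 3) (nat_lit 0) true (nat_lit 2) true (nat_lit 14) true (nat_lit 5) true (nat_lit 6) true (nat_lit 11) (.s true (nat_lit 1) (nat_lit 10) (nat_lit 6) (nat_lit 0) (nat_lit 3) true (nat_lit 0) true (nat_lit 11) true (nat_lit 4) true (nat_lit 8) true (nat_lit 14) (.s false (nat_lit 1) (nat_lit 10) (nat_lit 6) (nat_lit 3) (nat_lit 0) true (nat_lit 3) true (nat_lit 14) true (nat_lit 4) true (nat_lit 8) true (nat_lit 11) (.s false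 (nat_lit 1) (nat_lit 15) (nat_lit 3) (nat_lit 3) (nat_lit 3) true (nat_lit 4) true (nat_lit 11) true (nat_lit 3) true (nat_lit 11) true (nat_lit 11) (.s true (nat_lit 1) (nat_lit 18) (nat_lit 2) (nat_lit 3) (nat_lit 3) true (nat_lit 5) true (nat_lit 11) true (nat_lit 2) true (nat_lit 12) true (nat_lit 11) (.s true (nat_lit 1) (nat_lit 17) (nat_lit 3) (nat_lit 3) (nat_lit 2) true (nat_lit 5) true (nat_lit 12) true (nat_lit 2) true (nat_lit 11) true (nat_lit 11) (.s true (nat_lit 1) (nat_lit 19) (nat_lit 3) (nat_lit 3) (nat_lit 2) true (nat_lit 5) true (nat_lit 12) true (nat_lit 2) true (nat_lit 11) true (nat_lit 11) (.s true (nat_lit 1) (nat_lit 20) (nat_lit 1) (nat_lit 3) (nat_lit 3) true (nat_lit 6) true (nat_lit 11) true (nat_lit 1) true (nat_lit 13) true (nat_lit 11) dW4x_i65)))))))))))))))) .leaf) (nat_lit 187392) (nat_lit 555) (.p (nat_lit 326) (nat_lit 36) .z) .df (.nd .leaf (nat_lit 188416) (nat_lit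 576) (.p (nat_lit 283) (nat_lit 428) (.p (nat_lit 284) (nat_lit 728) (.p (nat_lit 285) (nat_lit 298) (.p (nat_lit 286) (nat_lit 170) (.n (nat_lit 287) (nat_lit 88) (.p (nat_lit 288) (nat_lit 656) (.n (nat_lit 289) (nat_lit 582) (.n (nat_lit 290) (nat_lit 508) (.n (nat_lit 291) (nat_lit 24) (.n (nat_lit 292) (nat_lit 148) (.p (nat_lit 293) (nat_lit 318) (.n (nat_lit 294) (nat_lit 226) (.n (nat_lit 295) (nat_lit 260) (.n (nat_lit 296) (nat_lit 192) (.n (nat_lit 297) (nat_lit 72) (.p (nat_lit 298) (nat_lit 114) (.n (nat_lit 299) (nat_lit 368) (.n (nat_lit 301) (nat_lit 260) (.p (nat_lit 302) (nat_lit 146) (.p (nat_lit 303) (nat_lit 302) (.p (nat_lit 304) (nat_lit 212) (.n (nat_lit 305) (nat_lit 74) (.n (nat_lit 306) (nat_lit 542) (.p (nat_lit 307) (nat_lit 72) (.n (nat_lit 308) (nat_lit 378) (.p (nat_lit 309) (nat_lit 414) (.n (nat_lit 310) (nat_lit 378) (.p (nat_lit 311) (nat_lit 384) (.n (nat_lit 312) (nat_lit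 6) (.p (nat_lit 313) (nat_lit 366) (.p (nat_lit 314) (nat_lit 486) (.p (nat_lit 315) (nat_lit 282) (.p (nat_lit 316) (nat_lit 42) (.p (nat_lit 317) (nat_lit 198) (.p (nat_lit 318) (nat_lit 450) (.p (nat_lit 319) (nat_lit 354) (.p (nat_lit 320) (nat_lit 126) (.n (nat_lit 321) (nat_lit 30) (.n (nat_lit 322) (nat_lit 24) (.n (nat_lit 323) (nat_lit 6) (.n (nat_lit 324) (nat_lit 384) (.n (nat_lit 325) (nat_lit 486) (.n (nat_lit 326) (nat_lit 450) (.p (nat_lit 327) (nat_lit 546) (.p (nat_lit 328) (nat_lit 30) (.n (nat_lit 329) (nat_lit 516) .z)))))))))))))))))))))))))))))))))))))))))))))) (.ct dW4x_c4371 (nat_lit 36) (nat_lit 14) (.s true (nat_lit 1) (nat_lit 7) (nat_lit 6) (nat_lit 3) (nat_lit 3) true (nat_lit 0) true (nat_lit 11) true (nat_lit 7) true (nat_lit 8) true (nat_lit 11) (.s true (nat_lit 2) (nat_lit 8) (nat_lit 2) (nat_lit 3) (nat_lit 7) true (nat_lit 1) true (nat_lit 7) true (nat_lit 6) true (nat_lit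 12) true (nat_lit 11) (.s false (nat_lit 2) (nat_lit 8) (nat_lit 7) (nat_lit 2) (nat_lit 3) false (nat_lit 0) true (nat_lit 11) true (nat_lit 6) true (nat_lit 7) true (nat_lit 12) (.s true (nat_lit 2) (nat_lit 9) (nat_lit 1) (nat_lit 7) (nat_lit 3) true (nat_lit 6) true (nat_lit 11) true (nat_lit 5) true (nat_lit 13) true (nat_lit 7) (.s true (nat_lit 1) (nat_lit 10) (nat_lit 2) (nat_lit 7) (nat_lit 1) true (nat_lit 8) true (nat_lit 13) true (nat_lit 4) true (nat_lit 12) true (nat_lit 7) (.s true (nat_lit 1) (nat_lit 21) (nat_lit 1) (nat_lit 3) (nat_lit 3) true (nat_lit 6) true (nat_lit 11) true (nat_lit 1) true (nat_lit 13) true (nat_lit 11) (.s false (nat_lit 1) (nat_lit 21) (nat_lit 3) (nat_lit 1) (nat_lit 3) true (nat_lit 4) true (nat_lit 11) true (nat_lit 1) true (nat_lit 11) true (nat_lit 13) (.s true (nat_lit 1) (nat_lit 23) (nat_lit 0) (nat_lit 3) (nat_lit 3) true (nat_lit 7) true (nat_lit 11) true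 (nat_lit 0) true (nat_lit 14) true (nat_lit 11) (.s false (nat_lit 2) (nat_lit 26) (nat_lit 2) (nat_lit 1) (nat_lit 3) true (nat_lit 5) true (nat_lit 11) false (nat_lit 0) true (nat_lit 12) true (nat_lit 13) (.s false (nat_lit 2) (nat_lit 26) (nat_lit 3) (nat_lit 1) (nat_lit 2) true (nat_lit 5) true (nat_lit 12) false (nat_lit 0) true (nat_lit 11) true (nat_lit 13) (.s false (nat_lit 1) (nat_lit 29) (nat_lit 0) (nat_lit 2) (nat_lit 3) true (nat_lit 7) true (nat_lit 11) false (nat_lit 1) true (nat_lit 14) true (nat_lit 12) (.s false (nat_lit 1) (nat_lit 29) (nat_lit 2) (nat_lit 0) (nat_lit 3) true (nat_lit 5) true (nat_lit 11) false (nat_lit 1) true (nat_lit 12) true (nat_lit 14) (.e true (nat_lit 36) (nat_lit 130) (nat_lit 3) (nat_lit 11) (.e true (nat_lit 36) (nat_lit 133) (nat_lit 3) (nat_lit 11) (.e true (nat_lit 36) (nat_lit 135) (nat_lit 3) (nat_lit 11) (.e false (nat_lit 36) (nat_lit 65) (nat_lit 8) (nat_lit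 6) (.e true (nat_lit 36) (nat_lit 136) (nat_lit 3) (nat_lit 11) dW4x_i84)))))))))))))))))) .leaf)) (nat_lit 189440) (nat_lit 572) (.n (nat_lit 283) (nat_lit 148) (.n (nat_lit 284) (nat_lit 676) (.n (nat_lit 285) (nat_lit 8) (.p (nat_lit 286) (nat_lit 116) (.n (nat_lit 287) (nat_lit 196) (.n (nat_lit 288) (nat_lit 280) (.p (nat_lit 289) (nat_lit 228) (.p (nat_lit 290) (nat_lit 572) (.n (nat_lit 291) (nat_lit 168) (.p (nat_lit 292) (nat_lit 176) (.p (nat_lit 293) (nat_lit 300) (.p (nat_lit 294) (nat_lit 80) (.p (nat_lit 295) (nat_lit 352) (.n (nat_lit 296) (nat_lit 120) (.n (nat_lit 297) (nat_lit 504) (.p (nat_lit 298) (nat_lit 456) (.n (nat_lit 299) (nat_lit 368) (.p (nat_lit 301) (nat_lit 532) (.p (nat_lit 302) (nat_lit 452) (.n (nat_lit 303) (nat_lit 796) (.n (nat_lit 304) (nat_lit 220) (.p (nat_lit 305) (nat_lit 52) (.n (nat_lit 306) (nat_lit 560) (.n (nat_lit 307) (nat_lit 252) (.p (nat_lit 308) (nat_lit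 108) (.n (nat_lit 309) (nat_lit 288) (.p (nat_lit 310) (nat_lit 432) (.n (nat_lit 311) (nat_lit 516) (.n (nat_lit 312) (nat_lit 60) (.n (nat_lit 313) (nat_lit 336) (.n (nat_lit 314) (nat_lit 288) (.n (nat_lit 315) (nat_lit 96) (.p (nat_lit 316) (nat_lit 168) (.n (nat_lit 317) (nat_lit 144) (.n (nat_lit 318) (nat_lit 324) (.n (nat_lit 319) (nat_lit 348) (.n (nat_lit 320) (nat_lit 144) (.p (nat_lit 321) (nat_lit 96) (.p (nat_lit 322) (nat_lit 48) (.n (nat_lit 323) (nat_lit 96) (.p (nat_lit 324) (nat_lit 228) (.p (nat_lit 325) (nat_lit 396) (.p (nat_lit 326) (nat_lit 324) (.n (nat_lit 327) (nat_lit 480) (.n (nat_lit 328) (nat_lit 24) (.p (nat_lit 329) (nat_lit 456) .z)))))))))))))))))))))))))))))))))))))))))))))) (.ct dW4x_c4371 (nat_lit 36) (nat_lit 14) (.s false (nat_lit 1) (nat_lit 7) (nat_lit 6) (nat_lit 3) (nat_lit 3) true (nat_lit 0) true (nat_lit 11) true (nat_lit 7) true (nat_lit 8) true (nat_lit 11) (.s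 false (nat_lit 3) (nat_lit 8) (nat_lit 2) (nat_lit 3) (nat_lit 7) true (nat_lit 1) true (nat_lit 7) true (nat_lit 6) true (nat_lit 12) true (nat_lit 11) (.s true (nat_lit 1) (nat_lit 8) (nat_lit 2) (nat_lit 7) (nat_lit 3) true (nat_lit 5) true (nat_lit 11) true (nat_lit 6) true (nat_lit 12) true (nat_lit 7) (.s false (nat_lit 2) (nat_lit 8) (nat_lit 3) (nat_lit 2) (nat_lit 7) false (nat_lit 0) true (nat_lit 7) true (nat_lit 6) true (nat_lit 11) true (nat_lit 12) (.s true (nat_lit 2) (nat_lit 8) (nat_lit 7) (nat_lit 2) (nat_lit 3) false (nat_lit 0) true (nat_lit 11) true (nat_lit 6) true (nat_lit 7) true (nat_lit 12) (.s true (nat_lit 1) (nat_lit 9) (nat_lit 1) (nat_lit 3) (nat_lit 7) true (nat_lit 2) true (nat_lit 7) true (nat_lit 5) true (nat_lit 13) true (nat_lit 11) (.s false (nat_lit 1) (nat_lit 9) (nat_lit 1) (nat_lit 7) (nat_lit 3) true (nat_lit 6) true (nat_lit 11) true (nat_lit 5) true (nat_lit 13)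 true (nat_lit 7) (.s false (nat_lit 1) (nat_lit 10) (nat_lit 0) (nat_lit 6) (nat_lit 3) true (nat_lit 7) true (nat_lit 11) true (nat_lit 4) true (nat_lit 14) true (nat_lit 8) (.s false (nat_lit 2) (nat_lit 10) (nat_lit 2) (nat_lit 7) (nat_lit 1) true (nat_lit 8) true (nat_lit 13) true (nat_lit 4) true (nat_lit 12) true (nat_lit 7) (.s false (nat_lit 1) (nat_lit 15) (nat_lit 3) (nat_lit 3) (nat_lit 3) true (nat_lit 4) true (nat_lit 11) true (nat_lit 3) true (nat_lit 11) true (nat_lit 11) (.s true (nat_lit 1) (nat_lit 18) (nat_lit 2) (nat_lit 3) (nat_lit 3) true (nat_lit 5) true (nat_lit 11) true (nat_lit 2) true (nat_lit 12) true (nat_lit 11) (.s false (nat_lit 1) (nat_lit 21) (nat_lit 1) (nat_lit 3) (nat_lit 3) true (nat_lit 6) true (nat_lit 11) true (nat_lit 1) true (nat_lit 13) true (nat_lit 11) (.s true (nat_lit 2) (nat_lit 21) (nat_lit 3) (nat_lit 1) (nat_lit 3) true (nat_lit 4) true (nat_lit 11) true (nat_lit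 1) true (nat_lit 11) true (nat_lit 13) (.s false (nat_lit 1) (nat_lit 23) (nat_lit 0) (nat_lit 3) (nat_lit 3) true (nat_lit 7) true (nat_lit 11) true (nat_lit 0) true (nat_lit 14) true (nat_lit 11) (.s true (nat_lit 1) (nat_lit 27) (nat_lit 1) (nat_lit 2) (nat_lit 3) true (nat_lit 6) true (nat_lit 11) false (nat_lit 0) true (nat_lit 13) true (nat_lit 12) (.s true (nat_lit 1) (nat_lit 27) (nat_lit 1) (nat_lit 3) (nat_lit 2) true (nat_lit 8) true (nat_lit 12) false (nat_lit 0) true (nat_lit 13) true (nat_lit 11) (.s true (nat_lit 2) (nat_lit 26) (nat_lit 2) (nat_lit 1) (nat_lit 3) true (nat_lit 5) true (nat_lit 11) false (nat_lit 0) true (nat_lit 12) true (nat_lit 13) (.s true (nat_lit 1) (nat_lit 27) (nat_lit 2) (nat_lit 1) (nat_lit 3) true (nat_lit 5) true (nat_lit 11) false (nat_lit 0) true (nat_lit 12) true (nat_lit 13) (.s true (nat_lit 1) (nat_lit 27) (nat_lit 3) (nat_lit 1) (nat_lit 2) true (nat_lit 5)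 true (nat_lit 12) false (nat_lit 0) true (nat_lit 11) true (nat_lit 13) (.s true (nat_lit 1) (nat_lit 32) (nat_lit 1) (nat_lit 2) (nat_lit 0) true (nat_lit 10) true (nat_lit 14) false (nat_lit 3) true (nat_lit 13) true (nat_lit 12) (.e false (nat_lit 72) (nat_lit 150) (nat_lit 3) (nat_lit 11) dW4x_i80)))))))))))))))))))))) (.nd (.nd .leaf (nat_lit 190464) (nat_lit 570) (.n (nat_lit 283) (nat_lit 348) (.n (nat_lit 284) (nat_lit 672) (.n (nat_lit 285) (nat_lit 246) (.n (nat_lit 286) (nat_lit 186) (.p (nat_lit 287) (nat_lit 84) (.n (nat_lit 288) (nat_lit 564) (.p (nat_lit 289) (nat_lit 486) (.p (nat_lit 290) (nat_lit 480) (.p (nat_lit 291) (nat_lit 36) (.p (nat_lit 292) (nat_lit 156) (.n (nat_lit 293) (nat_lit 270) (.p (nat_lit 294) (nat_lit 246) (.p (nat_lit 295) (nat_lit 276) (.p (nat_lit 296) (nat_lit 108) (.n (nat_lit 298) (nat_lit 18) (.p (nat_lit 299) (nat_lit 276) (.p (nat_lit 301) (nat_lit 240) (.n (nat_lit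 302) (nat_lit 78) (.n (nat_lit 303) (nat_lit 366) (.n (nat_lit 304) (nat_lit 204) (.p (nat_lit 305) (nat_lit 78) (.p (nat_lit 306) (nat_lit 402) (.n (nat_lit 307) (nat_lit 144) (.p (nat_lit 308) (nat_lit 270) (.n (nat_lit 309) (nat_lit 378) (.p (nat_lit 310) (nat_lit 414) (.n (nat_lit 311) (nat_lit 432) (.n (nat_lit 312) (nat_lit 18) (.n (nat_lit 313) (nat_lit 342) (.n (nat_lit 314) (nat_lit 450) (.n (nat_lit 315) (nat_lit 198) (.n (nat_lit 316) (nat_lit 54) (.n (nat_lit 317) (nat_lit 162) (.n (nat_lit 318) (nat_lit 414) (.n (nat_lit 319) (nat_lit 342) (.n (nat_lit 320) (nat_lit 90) (.p (nat_lit 321) (nat_lit 54) (.p (nat_lit 322) (nat_lit 36) (.n (nat_lit 323) (nat_lit 54) (.p (nat_lit 324) (nat_lit 360) (.p (nat_lit 325) (nat_lit 450) (.p (nat_lit 326) (nat_lit 486) (.n (nat_lit 327) (nat_lit 558) (.n (nat_lit 328) (nat_lit 18) (.p (nat_lit 329) (nat_lit 540) .z)))))))))))))))))))))))))))))))))))))))))))))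 (.ct dW4x_c4371 (nat_lit 36) (nat_lit 14) dW4x_i78) .leaf) (nat_lit 191488) (nat_lit 577) (.p (nat_lit 283) (nat_lit 56) (.p (nat_lit 284) (nat_lit 104) (.p (nat_lit 285) (nat_lit 22) (.p (nat_lit 286) (nat_lit 50) (.p (nat_lit 287) (nat_lit 8) (.p (nat_lit 288) (nat_lit 104) (.n (nat_lit 289) (nat_lit 78) (.n (nat_lit 290) (nat_lit 88) (.n (nat_lit 291) (nat_lit 24) (.p (nat_lit 292) (nat_lit 20) (.p (nat_lit 293) (nat_lit 30) (.n (nat_lit 294) (nat_lit 22) (.p (nat_lit 295) (nat_lit 4) (.n (nat_lit 296) (nat_lit 12) (.p (nat_lit 297) (nat_lit 36) (.p (nat_lit 298) (nat_lit 6) (.n (nat_lit 299) (nat_lit 32) (.n (nat_lit 301) (nat_lit 68) (.n (nat_lit 302) (nat_lit 10) (.p (nat_lit 303) (nat_lit 74) (.p (nat_lit 304) (nat_lit 92) (.n (nat_lit 305) (nat_lit 26) (.n (nat_lit 306) (nat_lit 26) (.n (nat_lit 307) (nat_lit 36) (.n (nat_lit 308) (nat_lit 90) (.p (nat_lit 309) (nat_lit 54) (.n (nat_lit 310) (nat_lit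 18) (.n (nat_lit 311) (nat_lit 12) (.n (nat_lit 312) (nat_lit 42) (.p (nat_lit 313) (nat_lit 42) (.p (nat_lit 314) (nat_lit 54) (.p (nat_lit 315) (nat_lit 30) (.p (nat_lit 316) (nat_lit 6) (.p (nat_lit 317) (nat_lit 54) (.p (nat_lit 318) (nat_lit 54) (.n (nat_lit 319) (nat_lit 6) (.p (nat_lit 320) (nat_lit 54) (.p (nat_lit 321) (nat_lit 42) (.p (nat_lit 322) (nat_lit 12) (.n (nat_lit 323) (nat_lit 6) (.n (nat_lit 324) (nat_lit 60) (.n (nat_lit 325) (nat_lit 54) (.n (nat_lit 326) (nat_lit 54) (.p (nat_lit 327) (nat_lit 78) (.p (nat_lit 328) (nat_lit 30) (.n (nat_lit 329) (nat_lit 48) .z)))))))))))))))))))))))))))))))))))))))))))))) (.ct dW4x_c4371 (nat_lit 36) (nat_lit 14) (.s true (nat_lit 1) (nat_lit 7) (nat_lit 6) (nat_lit 3) (nat_lit 3) true (nat_lit 0) true (nat_lit 11) true (nat_lit 7) true (nat_lit 8) true (nat_lit 11) (.s true (nat_lit 1) (nat_lit 10) (nat_lit 6) (nat_lit 3) (nat_lit 0) true (nat_lit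 3) true (nat_lit 14) true (nat_lit 4) true (nat_lit 8) true (nat_lit 11) (.s false (nat_lit 1) (nat_lit 23) (nat_lit 0) (nat_lit 3) (nat_lit 3) true (nat_lit 7) true (nat_lit 11) true (nat_lit 0) true (nat_lit 14) true (nat_lit 11) dW4x_i85)))) (.nd .leaf (nat_lit 192512) (nat_lit 600) (.p (nat_lit 283) (nat_lit 232) (.n (nat_lit 284) (nat_lit 68) (.p (nat_lit 285) (nat_lit 266) (.p (nat_lit 286) (nat_lit 238) (.n (nat_lit 287) (nat_lit 224) (.p (nat_lit 288) (nat_lit 292) (.n (nat_lit 289) (nat_lit 282) (.p (nat_lit 290) (nat_lit 196) (.n (nat_lit 291) (nat_lit 192) (.p (nat_lit 292) (nat_lit 88) (.p (nat_lit 293) (nat_lit 582) (.n (nat_lit 294) (nat_lit 86) (.p (nat_lit 295) (nat_lit 140) (.n (nat_lit 296) (nat_lit 348) (.n (nat_lit 297) (nat_lit 576) (.p (nat_lit 298) (nat_lit 606) (.n (nat_lit 299) (nat_lit 724) (.p (nat_lit 301) (nat_lit 284) (.p (nat_lit 302) (nat_lit 622) (.n (nat_lit 303) (nat_lit 614)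 (.n (nat_lit 304) (nat_lit 20) (.n (nat_lit 305) (nat_lit 46) (.n (nat_lit 306) (nat_lit 1090) (.n (nat_lit 307) (nat_lit 252) (.n (nat_lit 308) (nat_lit 306) (.p (nat_lit 309) (nat_lit 90) (.p (nat_lit 310) (nat_lit 162) (.n (nat_lit 311) (nat_lit 204) (.n (nat_lit 312) (nat_lit 102) (.n (nat_lit 313) (nat_lit 6) (.p (nat_lit 314) (nat_lit 90) (.p (nat_lit 315) (nat_lit 186) (.p (nat_lit 316) (nat_lit 210) (.p (nat_lit 317) (nat_lit 18) (.n (nat_lit 318) (nat_lit 18) (.n (nat_lit 319) (nat_lit 102) (.n (nat_lit 320) (nat_lit 18) (.p (nat_lit 321) (nat_lit 138) (.p (nat_lit 322) (nat_lit 96) (.n (nat_lit 323) (nat_lit 174) (.n (nat_lit 324) (nat_lit 120) (.n (nat_lit 325) (nat_lit 54) (.n (nat_lit 326) (nat_lit 18) (.n (nat_lit 327) (nat_lit 42) (.p (nat_lit 328) (nat_lit 6) (.p (nat_lit 329) (nat_lit 48) .z)))))))))))))))))))))))))))))))))))))))))))))) (.ct dW4x_c4371 (nat_lit 36) (nat_lit 14) (.s true (nat_lit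 1) (nat_lit 20) (nat_lit 1) (nat_lit 3) (nat_lit 3) true (nat_lit 6) true (nat_lit 11) true (nat_lit 1) true (nat_lit 13) true (nat_lit 11) (.s true (nat_lit 1) (nat_lit 28) (nat_lit 0) (nat_lit 2) (nat_lit 3) true (nat_lit 7) true (nat_lit 11) false (nat_lit 1) true (nat_lit 14) true (nat_lit 12) (.e true (nat_lit 36) (nat_lit 64) (nat_lit 8) (nat_lit 6) (.e true (nat_lit 36) (nat_lit 132) (nat_lit 3) (nat_lit 11) (.e false (nat_lit 36) (nat_lit 176) (nat_lit 1) (nat_lit 13) (.e true (nat_lit 36) (nat_lit 142) (nat_lit 3) (nat_lit 11) (.e true (nat_lit 36) (nat_lit 73) (nat_lit 7) (nat_lit 7) (.e true (nat_lit 36) (nat_lit 141) (nat_lit 3) (nat_lit 11) (.e true (nat_lit 36) (nat_lit 156) (nat_lit 2) (nat_lit 12) (.e true (nat_lit 72) (nat_lit 157) (nat_lit 2) (nat_lit 12) (.e false (nat_lit 36) (nat_lit 158) (nat_lit 2) (nat_lit 12) (.e true (nat_lit 36) (nat_lit 159) (nat_lit 2) (nat_lit 12) (.e true (nat_lit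 36) (nat_lit 161) (nat_lit 2) (nat_lit 12) (.e false (nat_lit 36) (nat_lit 162) (nat_lit 2) (nat_lit 12) (.e false (nat_lit 36) (nat_lit 163) (nat_lit 2) (nat_lit 12) (.e false (nat_lit 36) (nat_lit 164) (nat_lit 2) (nat_lit 12) (.e false (nat_lit 36) (nat_lit 165) (nat_lit 2) (nat_lit 12) (.e true (nat_lit 36) (nat_lit 166) (nat_lit 2) (nat_lit 12) .nil))))))))))))))))))) .leaf))))))

noncomputable def dW4x_t12 : Tr := (.nd dW4x_t10 (nat_lit 147459) (nat_lit 530) (.p (nat_lit 301) (nat_lit 36) .z) .df dW4x_t11)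

noncomputable def dW4x_t13 : Tr := (.nd dW4x_t9 (nat_lit 107523) (nat_lit 439) (.p (nat_lit 241) (nat_lit 252) (.n (nat_lit 242) (nat_lit 72) (.n (nat_lit 243) (nat_lit 108) (.n (nat_lit 244) (nat_lit 522) (.n (nat_lit 245) (nat_lit 234) (.p (nat_lit 246) (nat_lit 90) (.p (nat_lit 247) (nat_lit 288) (.p (nat_lit 248) (nat_lit 252) (.n (nat_lit 249) (nat_lit 612) (.n (nat_lit 250) (nat_lit 108) (.p (nat_lit 252) (nat_lit 198) (.p (nat_lit 253) (nat_lit 288) (.n (nat_lit 254) (nat_lit 54) (.p (nat_lit 255) (nat_lit 90) (.n (nat_lit 256) (nat_lit 198) (.p (nat_lit 257) (nat_lit 216) (.n (nat_lit 258) (nat_lit 54) (.n (nat_lit 259) (nat_lit 144) (.n (nat_lit 260) (nat_lit 72) (.n (nat_lit 261) (nat_lit 144) .z)))))))))))))))))))) (.ct dW4x_c8451 (nat_lit 72) (nat_lit 7) (.s false (nat_lit 2) (nat_lit 7) (nat_lit 1) (nat_lit 3) (nat_lit 7) true (nat_lit 0) true (nat_lit 5) true (nat_lit 5) true (nat_lit 8) true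 (nat_lit 7) (.s true (nat_lit 1) (nat_lit 7) (nat_lit 1) (nat_lit 7) (nat_lit 3) true (nat_lit 4) true (nat_lit 7) true (nat_lit 5) true (nat_lit 8) true (nat_lit 5) (.s true (nat_lit 1) (nat_lit 7) (nat_lit 3) (nat_lit 1) (nat_lit 7) false (nat_lit 0) true (nat_lit 5) true (nat_lit 5) true (nat_lit 7) true (nat_lit 8) (.s true (nat_lit 1) (nat_lit 8) (nat_lit 7) (nat_lit 0) (nat_lit 3) false (nat_lit 0) true (nat_lit 7) true (nat_lit 4) true (nat_lit 5) true (nat_lit 9) (.s true (nat_lit 1) (nat_lit 10) (nat_lit 0) (nat_lit 8) (nat_lit 0) false (nat_lit 10) true (nat_lit 9) true (nat_lit 3) true (nat_lit 9) true (nat_lit 4) (.s false (nat_lit 2) (nat_lit 10) (nat_lit 3) (nat_lit 4) (nat_lit 0) true (nat_lit 5) true (nat_lit 9) true (nat_lit 3) true (nat_lit 7) true (nat_lit 6) dW4x_i55))))))) dW4x_t12)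

noncomputable def dW4x_t14 : Tr := (.nd dW4x_t6 (nat_lit 57352) (nat_lit 451) (.p (nat_lit 241) (nat_lit 756) (.n (nat_lit 242) (nat_lit 180) (.n (nat_lit 243) (nat_lit 306) (.n (nat_lit 244) (nat_lit 1386) (.n (nat_lit 245) (nat_lit 702) (.p (nat_lit 246) (nat_lit 342) (.p (nat_lit 247) (nat_lit 756) (.p (nat_lit 248) (nat_lit 666) (.n (nat_lit 249) (nat_lit 1728) (.n (nat_lit 250) (nat_lit 252) (.p (nat_lit 251) (nat_lit 90) (.p (nat_lit 252) (nat_lit 432) (.p (nat_lit 253) (nat_lit 576) (.n (nat_lit 254) (nat_lit 234) (.p (nat_lit 255) (nat_lit 126) (.n (nat_lit 256) (nat_lit 522) (.p (nat_lit 257) (nat_lit 504) (.n (nat_lit 258) (nat_lit 36) (.n (nat_lit 259) (nat_lit 468) (.n (nat_lit 260) (nat_lit 162) (.n (nat_lit 261) (nat_lit 432) .z))))))))))))))))))))) (.ct dW4x_c8451 (nat_lit 36) (nat_lit 4) (.s false (nat_lit 1) (nat_lit 7) (nat_lit 1) (nat_lit 3) (nat_lit 7) true (nat_lit 0) true (nat_lit 5)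 true (nat_lit 5) true (nat_lit 8) true (nat_lit 7) (.s false (nat_lit 1) (nat_lit 26) (nat_lit 3) (nat_lit 0) (nat_lit 1) true (nat_lit 4) true (nat_lit 8) false (nat_lit 0) true (nat_lit 7) true (nat_lit 9) (.e false (nat_lit 72) (nat_lit 59) (nat_lit 7) (nat_lit 5) (.e false (nat_lit 36) (nat_lit 58) (nat_lit 7) (nat_lit 5) (.e true (nat_lit 36) (nat_lit 62) (nat_lit 7) (nat_lit 5) (.e false (nat_lit 36) (nat_lit 63) (nat_lit 7) (nat_lit 5) (.e false (nat_lit 36) (nat_lit 151) (nat_lit 1) (nat_lit 8) (.e true (nat_lit 36) (nat_lit 155) (nat_lit 1) (nat_lit 8) (.e true (nat_lit 36) (nat_lit 104) (nat_lit 3) (nat_lit 7) (.e false (nat_lit 36) (nat_lit 109) (nat_lit 3) (nat_lit 7) (.e false (nat_lit 72) (nat_lit 110) (nat_lit 3) (nat_lit 7) (.e true (nat_lit 36) (nat_lit 113) (nat_lit 3) (nat_lit 7) (.e false (nat_lit 72) (nat_lit 114) (nat_lit 3) (nat_lit 7) (.e true (nat_lit 36) (nat_lit 106) (nat_lit 3) (nat_lit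 7) (.e true (nat_lit 36) (nat_lit 159) (nat_lit 0) (nat_lit 9) .nil)))))))))))))))) dW4x_t13)

noncomputable def dW4x_cl : CL := (.c (nat_lit 4096) (nat_lit 0) (nat_lit 1) (.c (nat_lit 256) (nat_lit 1) (nat_lit 1) (.c (nat_lit 16) (nat_lit 2) (nat_lit 1) (.c (nat_lit 1) (nat_lit 3) (nat_lit 1) (.c (nat_lit 8192) (nat_lit 10192) (nat_lit 0) (.c (nat_lit 4352) (nat_lit 4) (nat_lit 1) (.c (nat_lit 4112) (nat_lit 5) (nat_lit 1) (.c (nat_lit 272) (nat_lit 6) (nat_lit 1) (.c (nat_lit 4097) (nat_lit 7) (nat_lit 1) (.c (nat_lit 257) (nat_lit 8) (nat_lit 1) (.c (nat_lit 17) (nat_lit 9) (nat_lit 1) (.c (nat_lit 2) (nat_lit 10) (nat_lit 1) (.c (nat_lit 8448) (nat_lit 11) (nat_lit 1) (.c (nat_lit 8208) (nat_lit 12) (nat_lit 1) (.c (nat_lit 4368) (nat_lit 13) (nat_lit 3) (.c (nat_lit 8193) (nat_lit 16) (nat_lit 1) (.c (nat_lit 4353) (nat_lit 17) (nat_lit 3) (.c (nat_lit 4113) (nat_lit 20) (nat_lit 3) (.c (nat_lit 273) (nat_lit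 23) (nat_lit 3) (.c (nat_lit 4098) (nat_lit 26) (nat_lit 2) (.c (nat_lit 258) (nat_lit 28) (nat_lit 2) (.c (nat_lit 18) (nat_lit 30) (nat_lit 2) (.c (nat_lit 3) (nat_lit 32) (nat_lit 1) (.c (nat_lit 8464) (nat_lit 33) (nat_lit 4) (.c (nat_lit 8449) (nat_lit 37) (nat_lit 4) (.c (nat_lit 8209) (nat_lit 41) (nat_lit 4) (.c (nat_lit 4369) (nat_lit 45) (nat_lit 10) (.c (nat_lit 8194) (nat_lit 55) (nat_lit 3) (.c (nat_lit 4354) (nat_lit 58) (nat_lit 6) (.c (nat_lit 4114) (nat_lit 64) (nat_lit 6) (.c (nat_lit 274) (nat_lit 70) (nat_lit 6) (.c (nat_lit 4099) (nat_lit 76) (nat_lit 3) (.c (nat_lit 259) (nat_lit 79) (nat_lit 3) (.c (nat_lit 19) (nat_lit 82) (nat_lit 3) (.c (nat_lit 8465) (nat_lit 85) (nat_lit 19) (.c (nat_lit 8450) (nat_lit 104) (nat_lit 11) (.c (nat_lit 8210) (nat_lit 115) (nat_lit 11) (.c (nat_lit 4370) (nat_lit 126) (nat_lit 25) (.c (nat_lit 8195) (nat_lit 151) (nat_lit 5) (.c (nat_lit 4355) (nat_lit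 156) (nat_lit 11) (.c (nat_lit 4115) (nat_lit 167) (nat_lit 11) (.c (nat_lit 275) (nat_lit 178) (nat_lit 11) (.c (nat_lit 8466) (nat_lit 189) (nat_lit 52) (.c (nat_lit 8451) (nat_lit 241) (nat_lit 21) (.c (nat_lit 8211) (nat_lit 262) (nat_lit 21) (.c (nat_lit 4371) (nat_lit 283) (nat_lit 47) .nil))))))))))))))))))))))))))))))))))))))))))))))

noncomputable def dW4x_D : Dt := ⟨(nat_lit 18446744073709551616), (nat_lit 9223372036854775808), (nat_lit 36), (nat_lit 330), (nat_lit 1052908431942150162073532576117389184633488382104151833576584348099105737483784106831584523861269060126016001306870981348054057630809686659804825943267086087824077040727363658027315069917377205350397721596995090333888809324160680615966007770547206601460927123604742389138982786346396224903960213510772579385016147647423843552538564430675132981718275396100899902117762346366090785723674692624983546587664662395251193813039451054452296035609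18035545608973623585581526464531884493147150339425329168010299665081753220885121584486883774946408140555893899038656398983952551330501382414380563143383112892043119043243590877590780485453334157588508520905581718876889654635113091978091990622945373789075302968155523191453506847748674232239289249059426421603412534194569926665863289986155015835487046220454325401007563982956357105467061166494590838242350787320828160420177645173930901751479013820880739817226530689890934680080744618990765253207022941889467174900040997124314671267785298429693473421475925149259424819313714123578027679950184012327681976894772911828155084866255207668750227837335589897736423679730710317907555299130042238906926820798358678917547680818989577458434152158810701446703376003128897456589026039023839734115537334271152919929719914460487655210451234642418018952144063701470471181795644958224256015050563874424837896805579932580662032910370587952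9637204170670928331547492585382005495959155302762501107326776182221543140856140554693093777793151515003373684604262557418464490171286427468760364700136131335600219369538924880180084038447108902024250102349216531194414478557718535625289097178610352774337887301801374979348866228133002903316533122599798707933377469325598623297734567989195626359775531705339159204683503951897160395979333550715659816597192506137061933185296384721111764236427413611060660036599225234775497945913868081828742874737410826657646798811192016334605834218279166965968251859270169080145703708319797583054585955774721484624082539433576480902298853110565924416200054482054046155536409880741258426539436936498767258984971111031036611886494381337342181213710065011400966889861856197099623322741812981329638370011949864486870644316188167031821042710345291641264191870356810494879842630015462705274874345401793395787733326044900304195579811230571092722610966587471837683559117513892599911871568666762180828625305541571378320277635857218132953696815649128455),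 (nat_lit 2187250724783011924372502223583927235796401556364334355420533668816763626699396174718467756546524040), dW4x_t14, dW4x_cl⟩

noncomputable def dW4x_gs : BL := (.c (nat_lit 33) (nat_lit 4) (nat_lit 32) (nat_lit 1) (nat_lit 0) (.c (nat_lit 37) (nat_lit 4) (nat_lit 30) (nat_lit 2) (nat_lit 4) (.c (nat_lit 41) (nat_lit 4) (nat_lit 28) (nat_lit 2) (nat_lit 12) (.c (nat_lit 45) (nat_lit 10) (nat_lit 26) (nat_lit 2) (nat_lit 20) (.c (nat_lit 55) (nat_lit 3) (nat_lit 23) (nat_lit 3) (nat_lit 40) (.c (nat_lit 58) (nat_lit 6) (nat_lit 20) (nat_lit 3) (nat_lit 49) (.c (nat_lit 64) (nat_lit 6) (nat_lit 17) (nat_lit 3) (nat_lit 67) (.c (nat_lit 70) (nat_lit 6) (nat_lit 16) (nat_lit 1) (nat_lit 85) (.c (nat_lit 76) (nat_lit 3) (nat_lit 13) (nat_lit 3) (nat_lit 91) (.c (nat_lit 79) (nat_lit 3) (nat_lit 12) (nat_lit 1) (nat_lit 100) (.c (nat_lit 82) (nat_lit 3) (nat_lit 11) (nat_lit 1) (nat_lit 103) (.c (nat_lit 85)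 (nat_lit 19) (nat_lit 10) (nat_lit 1) (nat_lit 106) (.c (nat_lit 104) (nat_lit 11) (nat_lit 9) (nat_lit 1) (nat_lit 125) (.c (nat_lit 115) (nat_lit 11) (nat_lit 8) (nat_lit 1) (nat_lit 136) (.c (nat_lit 126) (nat_lit 25) (nat_lit 7) (nat_lit 1) (nat_lit 147) (.c (nat_lit 151) (nat_lit 5) (nat_lit 6) (nat_lit 1) (nat_lit 172) (.c (nat_lit 156) (nat_lit 11) (nat_lit 5) (nat_lit 1) (nat_lit 177) (.c (nat_lit 167) (nat_lit 11) (nat_lit 4) (nat_lit 1) (nat_lit 188) (.c (nat_lit 189) (nat_lit 52) (nat_lit 3) (nat_lit 1) (nat_lit 199) (.c (nat_lit 241) (nat_lit 21) (nat_lit 2) (nat_lit 1) (nat_lit 251) (.c (nat_lit 262) (nat_lit 21) (nat_lit 1) (nat_lit 1) (nat_lit 272) (.c (nat_lit 283) (nat_lit 47) (nat_lit 0) (nat_lit 1) (nat_lit 293) (.c (nat_lit 10192) (nat_lit 0) (nat_lit 178) (nat_lit 11) (nat_lit 340) .nil)))))))))))))))))))))))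

noncomputable def dW4x_i95 : IL := (.i false (nat_lit 2297714688) (nat_lit 2) (.c (nat_lit 241) (nat_lit 8451) (.c (nat_lit 2) (nat_lit 16) .nil)) (.i true (nat_lit 362797056) (nat_lit 2) (.c (nat_lit 242) (nat_lit 8451) (.c (nat_lit 2) (nat_lit 16) .nil)) (.i true (nat_lit 3869835264) (nat_lit 2) (.c (nat_lit 244) (nat_lit 8451) (.c (nat_lit 2) (nat_lit 16) .nil)) (.i true (nat_lit 1753519104) (nat_lit 2) (.c (nat_lit 245) (nat_lit 8451) (.c (nat_lit 2) (nat_lit 16) .nil)) (.i false (nat_lit 967458816) (nat_lit 2) (.c (nat_lit 246) (nat_lit 8451) (.c (nat_lit 2) (nat_lit 16) .nil)) (.i false (nat_lit 2116316160) (nat_lit 2) (.c (nat_lit 247) (nat_lit 8451) (.c (nat_lit 2) (nat_lit 16) .nil)) (.i false (nat_lit 1723286016) (nat_lit 2) (.c (nat_lit 248) (nat_lit 8451) (.c (nat_lit 2) (nat_lit 16) .nil)) (.i true (nat_lit 4897760256) (nat_lit 2) (.c (nat_lit 249) (nat_lit 8451) (.c (nat_lit 2) (nat_lit 16) .nil))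 (.i true (nat_lit 846526464) (nat_lit 2) (.c (nat_lit 250) (nat_lit 8451) (.c (nat_lit 2) (nat_lit 16) .nil)) (.i true (nat_lit 1027924992) (nat_lit 2) (.c (nat_lit 254) (nat_lit 8451) (.c (nat_lit 2) (nat_lit 16) .nil)) (.i true (nat_lit 1693052928) (nat_lit 2) (.c (nat_lit 256) (nat_lit 8451) (.c (nat_lit 2) (nat_lit 16) .nil)) (.i false (nat_lit 1572120576) (nat_lit 2) (.c (nat_lit 257) (nat_lit 8451) (.c (nat_lit 2) (nat_lit 16) .nil)) (.i false (nat_lit 211631616) (nat_lit 2) (.c (nat_lit 258) (nat_lit 8451) (.c (nat_lit 2) (nat_lit 16) .nil)) (.i true (nat_lit 1813985280) (nat_lit 2) (.c (nat_lit 259) (nat_lit 8451) (.c (nat_lit 2) (nat_lit 16) .nil)) (.i true (nat_lit 453496320) (nat_lit 2) (.c (nat_lit 260) (nat_lit 8451) (.c (nat_lit 2) (nat_lit 16) .nil)) (.i true (nat_lit 1269789696) (nat_lit 2) (.c (nat_lit 261) (nat_lit 8451) (.c (nat_lit 2) (nat_lit 16) .nil)) (.i true (nat_lit 60466176) (nat_lit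 2) (.c (nat_lit 55) (nat_lit 8194) (.c (nat_lit 23) (nat_lit 273) .nil)) (.i true (nat_lit 997691904) (nat_lit 2) (.c (nat_lit 243) (nat_lit 8451) (.c (nat_lit 2) (nat_lit 16) .nil)) (.i true (nat_lit 60466176) (nat_lit 2) (.c (nat_lit 48) (nat_lit 4369) (.c (nat_lit 26) (nat_lit 4098) .nil)) (.i false (nat_lit 60466176) (nat_lit 2) (.c (nat_lit 143) (nat_lit 4370) (.c (nat_lit 7) (nat_lit 4097) .nil)) (.i false (nat_lit 60466176) (nat_lit 2) (.c (nat_lit 62) (nat_lit 4354) (.c (nat_lit 22) (nat_lit 4113) .nil)) (.i true (nat_lit 60466176) (nat_lit 2) (.c (nat_lit 61) (nat_lit 4354) (.c (nat_lit 21) (nat_lit 4113) .nil)) (.i false (nat_lit 60466176) (nat_lit 2) (.c (nat_lit 63) (nat_lit 4354) (.c (nat_lit 21) (nat_lit 4113) .nil)) (.i true (nat_lit 60466176) (nat_lit 2) (.c (nat_lit 70) (nat_lit 274) (.c (nat_lit 16) (nat_lit 8193) .nil)) (.i false (nat_lit 60466176) (nat_lit 2) (.c (nat_lit 300) (nat_lit 4371)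 (.c (nat_lit 0) (nat_lit 4096) .nil)) .nil)))))))))))))))))))))))))

noncomputable def dW4x_i96 : IL := (.i true (nat_lit 483729408) (nat_lit 2) (.c (nat_lit 35) (nat_lit 8464) (.c (nat_lit 32) (nat_lit 3) .nil)) (.i true (nat_lit 241864704) (nat_lit 2) (.c (nat_lit 36) (nat_lit 8464) (.c (nat_lit 32) (nat_lit 3) .nil)) (.i false (nat_lit 241864704) (nat_lit 2) (.c (nat_lit 41) (nat_lit 8209) (.c (nat_lit 29) (nat_lit 258) .nil)) (.i true (nat_lit 241864704) (nat_lit 2) (.c (nat_lit 67) (nat_lit 4114) (.c (nat_lit 17) (nat_lit 4353) .nil)) (.i true (nat_lit 302330880) (nat_lit 2) (.c (nat_lit 279) (nat_lit 8211) (.c (nat_lit 1) (nat_lit 256) .nil)) (.i true (nat_lit 181398528) (nat_lit 2) (.c (nat_lit 163) (nat_lit 4355) (.c (nat_lit 5) (nat_lit 4112) .nil)) (.i false (nat_lit 60466176) (nat_lit 2) (.c (nat_lit 125) (nat_lit 8210) (.c (nat_lit 8) (nat_lit 257) .nil)) (.i true (nat_lit 60466176) (nat_lit 2)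 (.c (nat_lit 162) (nat_lit 4355) (.c (nat_lit 5) (nat_lit 4112) .nil)) (.i true (nat_lit 120932352) (nat_lit 2) (.c (nat_lit 164) (nat_lit 4355) (.c (nat_lit 5) (nat_lit 4112) .nil)) (.i false (nat_lit 60466176) (nat_lit 2) (.c (nat_lit 106) (nat_lit 8450) (.c (nat_lit 9) (nat_lit 17) .nil)) (.i false (nat_lit 60466176) (nat_lit 2) (.c (nat_lit 108) (nat_lit 8450) (.c (nat_lit 9) (nat_lit 17) .nil)) (.i true (nat_lit 60466176) (nat_lit 2) (.c (nat_lit 110) (nat_lit 8450) (.c (nat_lit 9) (nat_lit 17) .nil)) (.i false (nat_lit 60466176) (nat_lit 2) (.c (nat_lit 111) (nat_lit 8450) (.c (nat_lit 9) (nat_lit 17) .nil)) (.i false (nat_lit 60466176) (nat_lit 2) (.c (nat_lit 212) (nat_lit 8466) (.c (nat_lit 3) (nat_lit 1) .nil)) (.i true (nat_lit 60466176) (nat_lit 2) (.c (nat_lit 213) (nat_lit 8466) (.c (nat_lit 3) (nat_lit 1) .nil)) (.i true (nat_lit 60466176) (nat_lit 2) (.c (nat_lit 215) (nat_lit 8466) (.c (nat_lit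 3) (nat_lit 1) .nil)) (.i false (nat_lit 120932352) (nat_lit 2) (.c (nat_lit 136) (nat_lit 4370) (.c (nat_lit 7) (nat_lit 4097) .nil)) (.i true (nat_lit 60466176) (nat_lit 2) (.c (nat_lit 140) (nat_lit 4370) (.c (nat_lit 7) (nat_lit 4097) .nil)) (.i true (nat_lit 60466176) (nat_lit 2) (.c (nat_lit 77) (nat_lit 4099) (.c (nat_lit 15) (nat_lit 4368) .nil)) (.i true (nat_lit 60466176) (nat_lit 2) (.c (nat_lit 78) (nat_lit 4099) (.c (nat_lit 15) (nat_lit 4368) .nil)) (.i true (nat_lit 60466176) (nat_lit 2) (.c (nat_lit 71) (nat_lit 274) (.c (nat_lit 16) (nat_lit 8193) .nil)) (.i true (nat_lit 60466176) (nat_lit 2) (.c (nat_lit 75) (nat_lit 274) (.c (nat_lit 16) (nat_lit 8193) .nil)) (.i false (nat_lit 393030144) (nat_lit 2) (.c (nat_lit 251) (nat_lit 8451) (.c (nat_lit 2) (nat_lit 16) .nil)) (.i false (nat_lit 1239556608) (nat_lit 2) (.c (nat_lit 252) (nat_lit 8451) (.c (nat_lit 2) (nat_lit 16) .nil)) (.i false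 (nat_lit 1693052928) (nat_lit 2) (.c (nat_lit 253) (nat_lit 8451) (.c (nat_lit 2) (nat_lit 16) .nil)) dW4x_i95)))))))))))))))))))))))))

noncomputable def dW4x_i97 : IL := (.i true (nat_lit 302330880) (nat_lit 2) (.c (nat_lit 65) (nat_lit 4114) (.c (nat_lit 19) (nat_lit 4353) .nil)) (.i false (nat_lit 302330880) (nat_lit 2) (.c (nat_lit 66) (nat_lit 4114) (.c (nat_lit 19) (nat_lit 4353) .nil)) (.i true (nat_lit 302330880) (nat_lit 2) (.c (nat_lit 67) (nat_lit 4114) (.c (nat_lit 19) (nat_lit 4353) .nil)) (.i false (nat_lit 302330880) (nat_lit 2) (.c (nat_lit 69) (nat_lit 4114) (.c (nat_lit 19) (nat_lit 4353) .nil)) (.i true (nat_lit 302330880) (nat_lit 2) (.c (nat_lit 45) (nat_lit 4369) (.c (nat_lit 26) (nat_lit 4098) .nil)) (.i false (nat_lit 241864704) (nat_lit 2) (.c (nat_lit 45) (nat_lit 4369) (.c (nat_lit 27) (nat_lit 4098) .nil)) (.i false (nat_lit 241864704) (nat_lit 2) (.c (nat_lit 49) (nat_lit 4369)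 (.c (nat_lit 26) (nat_lit 4098) .nil)) (.i true (nat_lit 302330880) (nat_lit 2) (.c (nat_lit 49) (nat_lit 4369) (.c (nat_lit 27) (nat_lit 4098) .nil)) (.i true (nat_lit 241864704) (nat_lit 2) (.c (nat_lit 53) (nat_lit 4369) (.c (nat_lit 26) (nat_lit 4098) .nil)) (.i false (nat_lit 302330880) (nat_lit 2) (.c (nat_lit 53) (nat_lit 4369) (.c (nat_lit 27) (nat_lit 4098) .nil)) (.i true (nat_lit 120932352) (nat_lit 2) (.c (nat_lit 115) (nat_lit 8210) (.c (nat_lit 8) (nat_lit 257) .nil)) (.i false (nat_lit 241864704) (nat_lit 2) (.c (nat_lit 116) (nat_lit 8210) (.c (nat_lit 8) (nat_lit 257) .nil)) (.i false (nat_lit 60466176) (nat_lit 2) (.c (nat_lit 117) (nat_lit 8210) (.c (nat_lit 8) (nat_lit 257) .nil)) (.i false (nat_lit 60466176) (nat_lit 2) (.c (nat_lit 119) (nat_lit 8210) (.c (nat_lit 8) (nat_lit 257) .nil)) (.i true (nat_lit 60466176) (nat_lit 2) (.c (nat_lit 124) (nat_lit 8210) (.c (nat_lit 8) (nat_lit 257)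 .nil)) (.i true (nat_lit 120932352) (nat_lit 2) (.c (nat_lit 61) (nat_lit 4354) (.c (nat_lit 20) (nat_lit 4113) .nil)) (.i false (nat_lit 302330880) (nat_lit 2) (.c (nat_lit 65) (nat_lit 4114) (.c (nat_lit 18) (nat_lit 4353) .nil)) (.i true (nat_lit 302330880) (nat_lit 2) (.c (nat_lit 66) (nat_lit 4114) (.c (nat_lit 18) (nat_lit 4353) .nil)) (.i false (nat_lit 302330880) (nat_lit 2) (.c (nat_lit 67) (nat_lit 4114) (.c (nat_lit 18) (nat_lit 4353) .nil)) (.i true (nat_lit 302330880) (nat_lit 2) (.c (nat_lit 69) (nat_lit 4114) (.c (nat_lit 18) (nat_lit 4353) .nil)) (.i false (nat_lit 302330880) (nat_lit 2) (.c (nat_lit 42) (nat_lit 8209) (.c (nat_lit 29) (nat_lit 258) .nil)) (.i true (nat_lit 302330880) (nat_lit 2) (.c (nat_lit 44) (nat_lit 8209) (.c (nat_lit 29) (nat_lit 258) .nil)) (.i false (nat_lit 120932352) (nat_lit 2) (.c (nat_lit 58) (nat_lit 4354) (.c (nat_lit 20) (nat_lit 4113) .nil)) (.i false (nat_lit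 241864704) (nat_lit 2) (.c (nat_lit 33) (nat_lit 8464) (.c (nat_lit 32) (nat_lit 3) .nil)) (.i false (nat_lit 241864704) (nat_lit 2) (.c (nat_lit 34) (nat_lit 8464) (.c (nat_lit 32) (nat_lit 3) .nil)) dW4x_i96)))))))))))))))))))))))))

noncomputable def dW4x_i98 : IL := (.i true (nat_lit 120932352) (nat_lit 2) (.c (nat_lit 134) (nat_lit 4370) (.c (nat_lit 7) (nat_lit 4097) .nil)) (.i true (nat_lit 60466176) (nat_lit 2) (.c (nat_lit 121) (nat_lit 8210) (.c (nat_lit 8) (nat_lit 257) .nil)) (.i false (nat_lit 120932352) (nat_lit 2) (.c (nat_lit 122) (nat_lit 8210) (.c (nat_lit 8) (nat_lit 257) .nil)) (.i true (nat_lit 60466176) (nat_lit 2) (.c (nat_lit 267) (nat_lit 8211) (.c (nat_lit 1) (nat_lit 256) .nil)) (.i true (nat_lit 302330880) (nat_lit 2) (.c (nat_lit 64) (nat_lit 4114) (.c (nat_lit 18) (nat_lit 4353) .nil)) (.i false (nat_lit 241864704) (nat_lit 2) (.c (nat_lit 64) (nat_lit 4114) (.c (nat_lit 19) (nat_lit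 4353) .nil)) (.i false (nat_lit 544195584) (nat_lit 2) (.c (nat_lit 43) (nat_lit 8209) (.c (nat_lit 28) (nat_lit 258) .nil)) (.i true (nat_lit 604661760) (nat_lit 2) (.c (nat_lit 43) (nat_lit 8209) (.c (nat_lit 29) (nat_lit 258) .nil)) (.i true (nat_lit 60466176) (nat_lit 2) (.c (nat_lit 264) (nat_lit 8211) (.c (nat_lit 1) (nat_lit 256) .nil)) (.i true (nat_lit 60466176) (nat_lit 2) (.c (nat_lit 280) (nat_lit 8211) (.c (nat_lit 1) (nat_lit 256) .nil)) (.i true (nat_lit 181398528) (nat_lit 2) (.c (nat_lit 281) (nat_lit 8211) (.c (nat_lit 1) (nat_lit 256) .nil)) (.i true (nat_lit 241864704) (nat_lit 2) (.c (nat_lit 51) (nat_lit 4369) (.c (nat_lit 26) (nat_lit 4098) .nil)) (.i false (nat_lit 302330880) (nat_lit 2) (.c (nat_lit 51) (nat_lit 4369) (.c (nat_lit 27) (nat_lit 4098) .nil)) (.i true (nat_lit 60466176) (nat_lit 2) (.c (nat_lit 81) (nat_lit 259) (.c (nat_lit 12) (nat_lit 8208) .nil)) (.i false (nat_lit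 362797056) (nat_lit 2) (.c (nat_lit 156) (nat_lit 4355) (.c (nat_lit 5) (nat_lit 4112) .nil)) (.i false (nat_lit 665127936) (nat_lit 2) (.c (nat_lit 157) (nat_lit 4355) (.c (nat_lit 5) (nat_lit 4112) .nil)) (.i true (nat_lit 483729408) (nat_lit 2) (.c (nat_lit 158) (nat_lit 4355) (.c (nat_lit 5) (nat_lit 4112) .nil)) (.i false (nat_lit 181398528) (nat_lit 2) (.c (nat_lit 159) (nat_lit 4355) (.c (nat_lit 5) (nat_lit 4112) .nil)) (.i true (nat_lit 60466176) (nat_lit 2) (.c (nat_lit 161) (nat_lit 4355) (.c (nat_lit 5) (nat_lit 4112) .nil)) (.i true (nat_lit 544195584) (nat_lit 2) (.c (nat_lit 165) (nat_lit 4355) (.c (nat_lit 5) (nat_lit 4112) .nil)) (.i false (nat_lit 60466176) (nat_lit 2) (.c (nat_lit 59) (nat_lit 4354) (.c (nat_lit 20) (nat_lit 4113) .nil)) (.i false (nat_lit 120932352) (nat_lit 2) (.c (nat_lit 63) (nat_lit 4354) (.c (nat_lit 20) (nat_lit 4113) .nil)) (.i true (nat_lit 181398528) (nat_lit 2)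 (.c (nat_lit 41) (nat_lit 8209) (.c (nat_lit 28) (nat_lit 258) .nil)) (.i true (nat_lit 302330880) (nat_lit 2) (.c (nat_lit 42) (nat_lit 8209) (.c (nat_lit 28) (nat_lit 258) .nil)) (.i false (nat_lit 302330880) (nat_lit 2) (.c (nat_lit 44) (nat_lit 8209) (.c (nat_lit 28) (nat_lit 258) .nil)) dW4x_i97)))))))))))))))))))))))))

noncomputable def dW4x_i99 : IL := (.i true (nat_lit 120932352) (nat_lit 2) (.c (nat_lit 50) (nat_lit 4369) (.c (nat_lit 27) (nat_lit 4098) .nil)) (.i true (nat_lit 302330880) (nat_lit 2) (.c (nat_lit 52) (nat_lit 4369) (.c (nat_lit 26) (nat_lit 4098) .nil)) (.i false (nat_lit 120932352) (nat_lit 2) (.c (nat_lit 52) (nat_lit 4369) (.c (nat_lit 27) (nat_lit 4098) .nil)) (.i true (nat_lit 544195584) (nat_lit 2) (.c (nat_lit 54) (nat_lit 4369) (.c (nat_lit 26) (nat_lit 4098) .nil)) (.i false (nat_lit 423263232) (nat_lit 2) (.c (nat_lit 54) (nat_lit 4369) (.c (nat_lit 27) (nat_lit 4098) .nil))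 (.i false (nat_lit 60466176) (nat_lit 2) (.c (nat_lit 85) (nat_lit 8465) (.c (nat_lit 10) (nat_lit 2) .nil)) (.i true (nat_lit 60466176) (nat_lit 2) (.c (nat_lit 88) (nat_lit 8465) (.c (nat_lit 10) (nat_lit 2) .nil)) (.i true (nat_lit 120932352) (nat_lit 2) (.c (nat_lit 91) (nat_lit 8465) (.c (nat_lit 10) (nat_lit 2) .nil)) (.i true (nat_lit 120932352) (nat_lit 2) (.c (nat_lit 92) (nat_lit 8465) (.c (nat_lit 10) (nat_lit 2) .nil)) (.i false (nat_lit 60466176) (nat_lit 2) (.c (nat_lit 275) (nat_lit 8211) (.c (nat_lit 1) (nat_lit 256) .nil)) (.i false (nat_lit 302330880) (nat_lit 2) (.c (nat_lit 262) (nat_lit 8211) (.c (nat_lit 1) (nat_lit 256) .nil)) (.i true (nat_lit 302330880) (nat_lit 2) (.c (nat_lit 263) (nat_lit 8211) (.c (nat_lit 1) (nat_lit 256) .nil)) (.i true (nat_lit 1027924992) (nat_lit 2) (.c (nat_lit 265) (nat_lit 8211) (.c (nat_lit 1) (nat_lit 256) .nil)) (.i true (nat_lit 604661760) (nat_lit 2)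 (.c (nat_lit 266) (nat_lit 8211) (.c (nat_lit 1) (nat_lit 256) .nil)) (.i false (nat_lit 241864704) (nat_lit 2) (.c (nat_lit 268) (nat_lit 8211) (.c (nat_lit 1) (nat_lit 256) .nil)) (.i false (nat_lit 665127936) (nat_lit 2) (.c (nat_lit 269) (nat_lit 8211) (.c (nat_lit 1) (nat_lit 256) .nil)) (.i true (nat_lit 906992640) (nat_lit 2) (.c (nat_lit 270) (nat_lit 8211) (.c (nat_lit 1) (nat_lit 256) .nil)) (.i true (nat_lit 181398528) (nat_lit 2) (.c (nat_lit 271) (nat_lit 8211) (.c (nat_lit 1) (nat_lit 256) .nil)) (.i true (nat_lit 241864704) (nat_lit 2) (.c (nat_lit 272) (nat_lit 8211) (.c (nat_lit 1) (nat_lit 256) .nil)) (.i false (nat_lit 483729408) (nat_lit 2) (.c (nat_lit 273) (nat_lit 8211) (.c (nat_lit 1) (nat_lit 256) .nil)) (.i false (nat_lit 423263232) (nat_lit 2) (.c (nat_lit 274) (nat_lit 8211) (.c (nat_lit 1) (nat_lit 256) .nil)) (.i false (nat_lit 665127936) (nat_lit 2) (.c (nat_lit 276) (nat_lit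 8211) (.c (nat_lit 1) (nat_lit 256) .nil)) (.i true (nat_lit 362797056) (nat_lit 2) (.c (nat_lit 277) (nat_lit 8211) (.c (nat_lit 1) (nat_lit 256) .nil)) (.i false (nat_lit 241864704) (nat_lit 2) (.c (nat_lit 278) (nat_lit 8211) (.c (nat_lit 1) (nat_lit 256) .nil)) (.i true (nat_lit 60466176) (nat_lit 2) (.c (nat_lit 282) (nat_lit 8211) (.c (nat_lit 1) (nat_lit 256) .nil)) dW4x_i98)))))))))))))))))))))))))

noncomputable def dW4x_i100 : IL := (.i true (nat_lit 1244595456) (nat_lit 2) (.c (nat_lit 227) (nat_lit 8466) (.c (nat_lit 3) (nat_lit 1) .nil)) (.i false (nat_lit 962419968) (nat_lit 2) (.c (nat_lit 239) (nat_lit 8466) (.c (nat_lit 3) (nat_lit 1) .nil)) (.i true (nat_lit 413185536) (nat_lit 2) (.c (nat_lit 240) (nat_lit 8466) (.c (nat_lit 3) (nat_lit 1) .nil)) (.i true (nat_lit 1743441408) (nat_lit 2) (.c (nat_lit 195) (nat_lit 8466) (.c (nat_lit 3) (nat_lit 1) .nil)) (.i false (nat_lit 4303176192) (nat_lit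 2) (.c (nat_lit 203) (nat_lit 8466) (.c (nat_lit 3) (nat_lit 1) .nil)) (.i false (nat_lit 241864704) (nat_lit 2) (.c (nat_lit 66) (nat_lit 4114) (.c (nat_lit 17) (nat_lit 4353) .nil)) (.i true (nat_lit 362797056) (nat_lit 2) (.c (nat_lit 65) (nat_lit 4114) (.c (nat_lit 17) (nat_lit 4353) .nil)) (.i false (nat_lit 181398528) (nat_lit 2) (.c (nat_lit 68) (nat_lit 4114) (.c (nat_lit 17) (nat_lit 4353) .nil)) (.i false (nat_lit 60466176) (nat_lit 2) (.c (nat_lit 69) (nat_lit 4114) (.c (nat_lit 17) (nat_lit 4353) .nil)) (.i true (nat_lit 60466176) (nat_lit 2) (.c (nat_lit 171) (nat_lit 4115) (.c (nat_lit 4) (nat_lit 4352) .nil)) (.i false (nat_lit 1682975232) (nat_lit 2) (.c (nat_lit 191) (nat_lit 8466) (.c (nat_lit 3) (nat_lit 1) .nil)) (.i true (nat_lit 5698937088) (nat_lit 2) (.c (nat_lit 189) (nat_lit 8466) (.c (nat_lit 3) (nat_lit 1) .nil)) (.i false (nat_lit 8253633024) (nat_lit 2) (.c (nat_lit 193) (nat_lit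 8466) (.c (nat_lit 3) (nat_lit 1) .nil)) (.i false (nat_lit 302330880) (nat_lit 2) (.c (nat_lit 37) (nat_lit 8449) (.c (nat_lit 30) (nat_lit 18) .nil)) (.i false (nat_lit 302330880) (nat_lit 2) (.c (nat_lit 38) (nat_lit 8449) (.c (nat_lit 30) (nat_lit 18) .nil)) (.i true (nat_lit 604661760) (nat_lit 2) (.c (nat_lit 39) (nat_lit 8449) (.c (nat_lit 30) (nat_lit 18) .nil)) (.i true (nat_lit 302330880) (nat_lit 2) (.c (nat_lit 40) (nat_lit 8449) (.c (nat_lit 30) (nat_lit 18) .nil)) (.i true (nat_lit 362797056) (nat_lit 2) (.c (nat_lit 58) (nat_lit 4354) (.c (nat_lit 22) (nat_lit 4113) .nil)) (.i false (nat_lit 60466176) (nat_lit 2) (.c (nat_lit 59) (nat_lit 4354) (.c (nat_lit 22) (nat_lit 4113) .nil)) (.i true (nat_lit 120932352) (nat_lit 2) (.c (nat_lit 60) (nat_lit 4354) (.c (nat_lit 22) (nat_lit 4113) .nil)) (.i false (nat_lit 181398528) (nat_lit 2) (.c (nat_lit 61) (nat_lit 4354) (.c (nat_lit 22) (nat_lit 4113)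 .nil)) (.i true (nat_lit 181398528) (nat_lit 2) (.c (nat_lit 63) (nat_lit 4354) (.c (nat_lit 22) (nat_lit 4113) .nil)) (.i false (nat_lit 423263232) (nat_lit 2) (.c (nat_lit 46) (nat_lit 4369) (.c (nat_lit 26) (nat_lit 4098) .nil)) (.i true (nat_lit 302330880) (nat_lit 2) (.c (nat_lit 46) (nat_lit 4369) (.c (nat_lit 27) (nat_lit 4098) .nil)) (.i false (nat_lit 241864704) (nat_lit 2) (.c (nat_lit 50) (nat_lit 4369) (.c (nat_lit 26) (nat_lit 4098) .nil)) dW4x_i99)))))))))))))))))))))))))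

noncomputable def dW4x_i101 : IL := (.i true (nat_lit 100776960) (nat_lit 2) (.c (nat_lit 133) (nat_lit 4370) (.c (nat_lit 7) (nat_lit 4097) .nil)) (.i true (nat_lit 161243136) (nat_lit 2) (.c (nat_lit 135) (nat_lit 4370) (.c (nat_lit 7) (nat_lit 4097) .nil)) (.i true (nat_lit 161243136) (nat_lit 2) (.c (nat_lit 126) (nat_lit 4370) (.c (nat_lit 7) (nat_lit 4097) .nil)) (.i false (nat_lit 100776960) (nat_lit 2) (.c (nat_lit 128) (nat_lit 4370) (.c (nat_lit 7) (nat_lit 4097) .nil)) (.i true (nat_lit 40310784) (nat_lit 2) (.c (nat_lit 129) (nat_lit 4370) (.c (nat_lit 7) (nat_lit 4097) .nil)) (.i false (nat_lit 141087744) (nat_lit 2) (.c (nat_lit 130) (nat_lit 4370) (.c (nat_lit 7) (nat_lit 4097) .nil)) (.i false (nat_lit 80621568) (nat_lit 2) (.c (nat_lit 137) (nat_lit 4370) (.c (nat_lit 7) (nat_lit 4097) .nil)) (.i true (nat_lit 80621568) (nat_lit 2) (.c (nat_lit 138) (nat_lit 4370) (.c (nat_lit 7) (nat_lit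 4097) .nil)) (.i false (nat_lit 40310784) (nat_lit 2) (.c (nat_lit 142) (nat_lit 4370) (.c (nat_lit 7) (nat_lit 4097) .nil)) (.i false (nat_lit 40310784) (nat_lit 2) (.c (nat_lit 144) (nat_lit 4370) (.c (nat_lit 7) (nat_lit 4097) .nil)) (.i false (nat_lit 20155392) (nat_lit 2) (.c (nat_lit 145) (nat_lit 4370) (.c (nat_lit 7) (nat_lit 4097) .nil)) (.i true (nat_lit 40310784) (nat_lit 2) (.c (nat_lit 146) (nat_lit 4370) (.c (nat_lit 7) (nat_lit 4097) .nil)) (.i true (nat_lit 100776960) (nat_lit 2) (.c (nat_lit 147) (nat_lit 4370) (.c (nat_lit 7) (nat_lit 4097) .nil)) (.i false (nat_lit 40310784) (nat_lit 2) (.c (nat_lit 149) (nat_lit 4370) (.c (nat_lit 7) (nat_lit 4097) .nil)) (.i false (nat_lit 40310784) (nat_lit 2) (.c (nat_lit 150) (nat_lit 4370) (.c (nat_lit 7) (nat_lit 4097) .nil)) (.i true (nat_lit 1803907584) (nat_lit 2) (.c (nat_lit 197) (nat_lit 8466) (.c (nat_lit 3) (nat_lit 1) .nil)) (.i true (nat_lit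 6847794432) (nat_lit 2) (.c (nat_lit 199) (nat_lit 8466) (.c (nat_lit 3) (nat_lit 1) .nil)) (.i false (nat_lit 549234432) (nat_lit 2) (.c (nat_lit 214) (nat_lit 8466) (.c (nat_lit 3) (nat_lit 1) .nil)) (.i true (nat_lit 428302080) (nat_lit 2) (.c (nat_lit 216) (nat_lit 8466) (.c (nat_lit 3) (nat_lit 1) .nil)) (.i false (nat_lit 35271936) (nat_lit 2) (.c (nat_lit 217) (nat_lit 8466) (.c (nat_lit 3) (nat_lit 1) .nil)) (.i false (nat_lit 942264576) (nat_lit 2) (.c (nat_lit 218) (nat_lit 8466) (.c (nat_lit 3) (nat_lit 1) .nil)) (.i true (nat_lit 700399872) (nat_lit 2) (.c (nat_lit 219) (nat_lit 8466) (.c (nat_lit 3) (nat_lit 1) .nil)) (.i false (nat_lit 917070336) (nat_lit 2) (.c (nat_lit 220) (nat_lit 8466) (.c (nat_lit 3) (nat_lit 1) .nil)) (.i false (nat_lit 433340928) (nat_lit 2) (.c (nat_lit 223) (nat_lit 8466) (.c (nat_lit 3) (nat_lit 1) .nil)) (.i true (nat_lit 1305061632) (nat_lit 2) (.c (nat_lit 226) (nat_lit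 8466) (.c (nat_lit 3) (nat_lit 1) .nil)) dW4x_i100)))))))))))))))))))))))))

noncomputable def dW4x_i102 : IL := (.i false (nat_lit 241864704) (nat_lit 2) (.c (nat_lit 168) (nat_lit 4115) (.c (nat_lit 4) (nat_lit 4352) .nil)) (.i false (nat_lit 60466176) (nat_lit 2) (.c (nat_lit 172) (nat_lit 4115) (.c (nat_lit 4) (nat_lit 4352) .nil)) (.i false (nat_lit 60466176) (nat_lit 2) (.c (nat_lit 173) (nat_lit 4115) (.c (nat_lit 4) (nat_lit 4352) .nil)) (.i false (nat_lit 60466176) (nat_lit 2) (.c (nat_lit 174) (nat_lit 4115) (.c (nat_lit 4) (nat_lit 4352) .nil)) (.i true (nat_lit 120932352) (nat_lit 2) (.c (nat_lit 175) (nat_lit 4115) (.c (nat_lit 4) (nat_lit 4352) .nil)) (.i true (nat_lit 181398528) (nat_lit 2) (.c (nat_lit 176) (nat_lit 4115) (.c (nat_lit 4) (nat_lit 4352) .nil)) (.i true (nat_lit 362797056) (nat_lit 2) (.c (nat_lit 177) (nat_lit 4115) (.c (nat_lit 4) (nat_lit 4352) .nil)) (.i false (nat_lit 3386105856)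 (nat_lit 2) (.c (nat_lit 190) (nat_lit 8466) (.c (nat_lit 3) (nat_lit 1) .nil)) (.i true (nat_lit 715516416) (nat_lit 2) (.c (nat_lit 194) (nat_lit 8466) (.c (nat_lit 3) (nat_lit 1) .nil)) (.i true (nat_lit 5260557312) (nat_lit 2) (.c (nat_lit 196) (nat_lit 8466) (.c (nat_lit 3) (nat_lit 1) .nil)) (.i true (nat_lit 7064464896) (nat_lit 2) (.c (nat_lit 198) (nat_lit 8466) (.c (nat_lit 3) (nat_lit 1) .nil)) (.i true (nat_lit 1128701952) (nat_lit 2) (.c (nat_lit 192) (nat_lit 8466) (.c (nat_lit 3) (nat_lit 1) .nil)) (.i false (nat_lit 2635317504) (nat_lit 2) (.c (nat_lit 200) (nat_lit 8466) (.c (nat_lit 3) (nat_lit 1) .nil)) (.i true (nat_lit 2756249856) (nat_lit 2) (.c (nat_lit 201) (nat_lit 8466) (.c (nat_lit 3) (nat_lit 1) .nil)) (.i false (nat_lit 7160203008) (nat_lit 2) (.c (nat_lit 205) (nat_lit 8466) (.c (nat_lit 3) (nat_lit 1) .nil)) (.i true (nat_lit 3048503040) (nat_lit 2) (.c (nat_lit 206) (nat_lit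 8466) (.c (nat_lit 3) (nat_lit 1) .nil)) (.i true (nat_lit 4993498368) (nat_lit 2) (.c (nat_lit 207) (nat_lit 8466) (.c (nat_lit 3) (nat_lit 1) .nil)) (.i false (nat_lit 4892721408) (nat_lit 2) (.c (nat_lit 208) (nat_lit 8466) (.c (nat_lit 3) (nat_lit 1) .nil)) (.i true (nat_lit 1234517760) (nat_lit 2) (.c (nat_lit 209) (nat_lit 8466) (.c (nat_lit 3) (nat_lit 1) .nil)) (.i false (nat_lit 1103507712) (nat_lit 2) (.c (nat_lit 210) (nat_lit 8466) (.c (nat_lit 3) (nat_lit 1) .nil)) (.i false (nat_lit 6172588800) (nat_lit 2) (.c (nat_lit 211) (nat_lit 8466) (.c (nat_lit 3) (nat_lit 1) .nil)) (.i false (nat_lit 2771366400) (nat_lit 2) (.c (nat_lit 202) (nat_lit 8466) (.c (nat_lit 3) (nat_lit 1) .nil)) (.i true (nat_lit 6359026176) (nat_lit 2) (.c (nat_lit 204) (nat_lit 8466) (.c (nat_lit 3) (nat_lit 1) .nil)) (.i true (nat_lit 40310784) (nat_lit 2) (.c (nat_lit 127) (nat_lit 4370) (.c (nat_lit 7) (nat_lit 4097) .nil))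 (.i false (nat_lit 20155392) (nat_lit 2) (.c (nat_lit 131) (nat_lit 4370) (.c (nat_lit 7) (nat_lit 4097) .nil)) dW4x_i101)))))))))))))))))))))))))

noncomputable def dW4x_i103 : IL := (.i true (nat_lit 2331307008) (nat_lit 2) (.c (nat_lit 225) (nat_lit 8466) (.c (nat_lit 3) (nat_lit 1) .nil)) (.i true (nat_lit 1958432256) (nat_lit 2) (.c (nat_lit 228) (nat_lit 8466) (.c (nat_lit 3) (nat_lit 1) .nil)) (.i false (nat_lit 2331307008) (nat_lit 2) (.c (nat_lit 229) (nat_lit 8466) (.c (nat_lit 3) (nat_lit 1) .nil)) (.i true (nat_lit 1039682304) (nat_lit 2) (.c (nat_lit 230) (nat_lit 8466) (.c (nat_lit 3) (nat_lit 1) .nil)) (.i false (nat_lit 1039682304) (nat_lit 2) (.c (nat_lit 232) (nat_lit 8466) (.c (nat_lit 3) (nat_lit 1) .nil)) (.i true (nat_lit 189796608) (nat_lit 2) (.c (nat_lit 233) (nat_lit 8466) (.c (nat_lit 3) (nat_lit 1) .nil)) (.i false (nat_lit 623137536) (nat_lit 2) (.c (nat_lit 234) (nat_lit 8466)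 (.c (nat_lit 3) (nat_lit 1) .nil)) (.i true (nat_lit 147806208) (nat_lit 2) (.c (nat_lit 236) (nat_lit 8466) (.c (nat_lit 3) (nat_lit 1) .nil)) (.i false (nat_lit 999371520) (nat_lit 2) (.c (nat_lit 238) (nat_lit 8466) (.c (nat_lit 3) (nat_lit 1) .nil)) (.i true (nat_lit 120932352) (nat_lit 2) (.c (nat_lit 100) (nat_lit 8465) (.c (nat_lit 10) (nat_lit 2) .nil)) (.i false (nat_lit 120932352) (nat_lit 2) (.c (nat_lit 102) (nat_lit 8465) (.c (nat_lit 10) (nat_lit 2) .nil)) (.i false (nat_lit 60466176) (nat_lit 2) (.c (nat_lit 86) (nat_lit 8465) (.c (nat_lit 10) (nat_lit 2) .nil)) (.i false (nat_lit 120932352) (nat_lit 2) (.c (nat_lit 89) (nat_lit 8465) (.c (nat_lit 10) (nat_lit 2) .nil)) (.i true (nat_lit 181398528) (nat_lit 2) (.c (nat_lit 90) (nat_lit 8465) (.c (nat_lit 10) (nat_lit 2) .nil)) (.i true (nat_lit 120932352) (nat_lit 2) (.c (nat_lit 93) (nat_lit 8465) (.c (nat_lit 10) (nat_lit 2) .nil)) (.i false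 (nat_lit 60466176) (nat_lit 2) (.c (nat_lit 94) (nat_lit 8465) (.c (nat_lit 10) (nat_lit 2) .nil)) (.i true (nat_lit 181398528) (nat_lit 2) (.c (nat_lit 95) (nat_lit 8465) (.c (nat_lit 10) (nat_lit 2) .nil)) (.i true (nat_lit 60466176) (nat_lit 2) (.c (nat_lit 97) (nat_lit 8465) (.c (nat_lit 10) (nat_lit 2) .nil)) (.i true (nat_lit 60466176) (nat_lit 2) (.c (nat_lit 98) (nat_lit 8465) (.c (nat_lit 10) (nat_lit 2) .nil)) (.i false (nat_lit 60466176) (nat_lit 2) (.c (nat_lit 99) (nat_lit 8465) (.c (nat_lit 10) (nat_lit 2) .nil)) (.i false (nat_lit 60466176) (nat_lit 2) (.c (nat_lit 101) (nat_lit 8465) (.c (nat_lit 10) (nat_lit 2) .nil)) (.i false (nat_lit 60466176) (nat_lit 2) (.c (nat_lit 103) (nat_lit 8465) (.c (nat_lit 10) (nat_lit 2) .nil)) (.i true (nat_lit 50388480) (nat_lit 2) (.c (nat_lit 285) (nat_lit 4371) (.c (nat_lit 0) (nat_lit 4096) .nil)) (.i false (nat_lit 60466176) (nat_lit 2) (.c (nat_lit 82)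 (nat_lit 19) (.c (nat_lit 11) (nat_lit 8448) .nil)) (.i false (nat_lit 120932352) (nat_lit 2) (.c (nat_lit 167) (nat_lit 4115) (.c (nat_lit 4) (nat_lit 4352) .nil)) dW4x_i102)))))))))))))))))))))))))

noncomputable def dW4x_i104 : IL := (.i true (nat_lit 453496320) (nat_lit 2) (.c (nat_lit 316) (nat_lit 4371) (.c (nat_lit 0) (nat_lit 4096) .nil)) (.i false (nat_lit 997691904) (nat_lit 2) (.c (nat_lit 317) (nat_lit 4371) (.c (nat_lit 0) (nat_lit 4096) .nil)) (.i true (nat_lit 272097792) (nat_lit 2) (.c (nat_lit 319) (nat_lit 4371) (.c (nat_lit 0) (nat_lit 4096) .nil)) (.i false (nat_lit 1058158080) (nat_lit 2) (.c (nat_lit 320) (nat_lit 4371) (.c (nat_lit 0) (nat_lit 4096) .nil)) (.i false (nat_lit 574428672) (nat_lit 2) (.c (nat_lit 321) (nat_lit 4371) (.c (nat_lit 0) (nat_lit 4096) .nil)) (.i false (nat_lit 544195584) (nat_lit 2) (.c (nat_lit 322) (nat_lit 4371) (.c (nat_lit 0) (nat_lit 4096) .nil)) (.i true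 (nat_lit 574428672) (nat_lit 2) (.c (nat_lit 323) (nat_lit 4371) (.c (nat_lit 0) (nat_lit 4096) .nil)) (.i true (nat_lit 725594112) (nat_lit 2) (.c (nat_lit 324) (nat_lit 4371) (.c (nat_lit 0) (nat_lit 4096) .nil)) (.i true (nat_lit 1239556608) (nat_lit 2) (.c (nat_lit 325) (nat_lit 4371) (.c (nat_lit 0) (nat_lit 4096) .nil)) (.i false (nat_lit 695361024) (nat_lit 2) (.c (nat_lit 327) (nat_lit 4371) (.c (nat_lit 0) (nat_lit 4096) .nil)) (.i false (nat_lit 241864704) (nat_lit 2) (.c (nat_lit 329) (nat_lit 4371) (.c (nat_lit 0) (nat_lit 4096) .nil)) (.i true (nat_lit 725594112) (nat_lit 2) (.c (nat_lit 307) (nat_lit 4371) (.c (nat_lit 0) (nat_lit 4096) .nil)) (.i true (nat_lit 1541887488) (nat_lit 2) (.c (nat_lit 308) (nat_lit 4371) (.c (nat_lit 0) (nat_lit 4096) .nil)) (.i false (nat_lit 393030144) (nat_lit 2) (.c (nat_lit 310) (nat_lit 4371) (.c (nat_lit 0) (nat_lit 4096) .nil)) (.i false (nat_lit 332563968)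 (nat_lit 2) (.c (nat_lit 318) (nat_lit 4371) (.c (nat_lit 0) (nat_lit 4096) .nil)) (.i true (nat_lit 211631616) (nat_lit 2) (.c (nat_lit 326) (nat_lit 4371) (.c (nat_lit 0) (nat_lit 4096) .nil)) (.i false (nat_lit 503884800) (nat_lit 2) (.c (nat_lit 287) (nat_lit 4371) (.c (nat_lit 0) (nat_lit 4096) .nil)) (.i false (nat_lit 513962496) (nat_lit 2) (.c (nat_lit 315) (nat_lit 4371) (.c (nat_lit 0) (nat_lit 4096) .nil)) (.i false (nat_lit 151165440) (nat_lit 2) (.c (nat_lit 328) (nat_lit 4371) (.c (nat_lit 0) (nat_lit 4096) .nil)) (.i false (nat_lit 817972992) (nat_lit 2) (.c (nat_lit 231) (nat_lit 8466) (.c (nat_lit 3) (nat_lit 1) .nil)) (.i true (nat_lit 1568761344) (nat_lit 2) (.c (nat_lit 235) (nat_lit 8466) (.c (nat_lit 3) (nat_lit 1) .nil)) (.i false (nat_lit 838128384) (nat_lit 2) (.c (nat_lit 237) (nat_lit 8466) (.c (nat_lit 3) (nat_lit 1) .nil)) (.i true (nat_lit 1086711552) (nat_lit 2) (.c (nat_lit 221)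 (nat_lit 8466) (.c (nat_lit 3) (nat_lit 1) .nil)) (.i false (nat_lit 1474702848) (nat_lit 2) (.c (nat_lit 222) (nat_lit 8466) (.c (nat_lit 3) (nat_lit 1) .nil)) (.i false (nat_lit 1958432256) (nat_lit 2) (.c (nat_lit 224) (nat_lit 8466) (.c (nat_lit 3) (nat_lit 1) .nil)) dW4x_i103)))))))))))))))))))))))))

noncomputable def dW4x_i105 : IL := (.i true (nat_lit 312408576) (nat_lit 2) (.c (nat_lit 286) (nat_lit 4371) (.c (nat_lit 0) (nat_lit 4096) .nil)) (.i true (nat_lit 826371072) (nat_lit 2) (.c (nat_lit 290) (nat_lit 4371) (.c (nat_lit 0) (nat_lit 4096) .nil)) (.i false (nat_lit 382952448) (nat_lit 2) (.c (nat_lit 292) (nat_lit 4371) (.c (nat_lit 0) (nat_lit 4096) .nil)) (.i false (nat_lit 1289945088) (nat_lit 2) (.c (nat_lit 284) (nat_lit 4371) (.c (nat_lit 0) (nat_lit 4096) .nil)) (.i false (nat_lit 806215680) (nat_lit 2) (.c (nat_lit 288) (nat_lit 4371) (.c (nat_lit 0) (nat_lit 4096) .nil)) (.i true (nat_lit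 816293376) (nat_lit 2) (.c (nat_lit 289) (nat_lit 4371) (.c (nat_lit 0) (nat_lit 4096) .nil)) (.i false (nat_lit 362797056) (nat_lit 2) (.c (nat_lit 291) (nat_lit 4371) (.c (nat_lit 0) (nat_lit 4096) .nil)) (.i true (nat_lit 453496320) (nat_lit 2) (.c (nat_lit 293) (nat_lit 4371) (.c (nat_lit 0) (nat_lit 4096) .nil)) (.i false (nat_lit 352719360) (nat_lit 2) (.c (nat_lit 294) (nat_lit 4371) (.c (nat_lit 0) (nat_lit 4096) .nil)) (.i false (nat_lit 100776960) (nat_lit 2) (.c (nat_lit 295) (nat_lit 4371) (.c (nat_lit 0) (nat_lit 4096) .nil)) (.i true (nat_lit 423263232) (nat_lit 2) (.c (nat_lit 296) (nat_lit 4371) (.c (nat_lit 0) (nat_lit 4096) .nil)) (.i false (nat_lit 1027924992) (nat_lit 2) (.c (nat_lit 297) (nat_lit 4371) (.c (nat_lit 0) (nat_lit 4096) .nil)) (.i true (nat_lit 211631616) (nat_lit 2) (.c (nat_lit 298) (nat_lit 4371) (.c (nat_lit 0) (nat_lit 4096) .nil)) (.i false (nat_lit 524040192) (nat_lit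 2) (.c (nat_lit 299) (nat_lit 4371) (.c (nat_lit 0) (nat_lit 4096) .nil)) (.i true (nat_lit 1471343616) (nat_lit 2) (.c (nat_lit 301) (nat_lit 4371) (.c (nat_lit 0) (nat_lit 4096) .nil)) (.i true (nat_lit 977536512) (nat_lit 2) (.c (nat_lit 302) (nat_lit 4371) (.c (nat_lit 0) (nat_lit 4096) .nil)) (.i false (nat_lit 1380644352) (nat_lit 2) (.c (nat_lit 303) (nat_lit 4371) (.c (nat_lit 0) (nat_lit 4096) .nil)) (.i false (nat_lit 866681856) (nat_lit 2) (.c (nat_lit 304) (nat_lit 4371) (.c (nat_lit 0) (nat_lit 4096) .nil)) (.i true (nat_lit 292253184) (nat_lit 2) (.c (nat_lit 305) (nat_lit 4371) (.c (nat_lit 0) (nat_lit 4096) .nil)) (.i false (nat_lit 856604160) (nat_lit 2) (.c (nat_lit 306) (nat_lit 4371) (.c (nat_lit 0) (nat_lit 4096) .nil)) (.i false (nat_lit 755827200) (nat_lit 2) (.c (nat_lit 309) (nat_lit 4371) (.c (nat_lit 0) (nat_lit 4096) .nil)) (.i true (nat_lit 604661760) (nat_lit 2) (.c (nat_lit 311)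 (nat_lit 4371) (.c (nat_lit 0) (nat_lit 4096) .nil)) (.i true (nat_lit 513962496) (nat_lit 2) (.c (nat_lit 312) (nat_lit 4371) (.c (nat_lit 0) (nat_lit 4096) .nil)) (.i false (nat_lit 695361024) (nat_lit 2) (.c (nat_lit 313) (nat_lit 4371) (.c (nat_lit 0) (nat_lit 4096) .nil)) (.i false (nat_lit 393030144) (nat_lit 2) (.c (nat_lit 314) (nat_lit 4371) (.c (nat_lit 0) (nat_lit 4096) .nil)) dW4x_i104)))))))))))))))))))))))))

noncomputable def dW4x_i106 : IL := (.s true (nat_lit 93312) (nat_lit 71) (nat_lit 0) (nat_lit 3) (nat_lit 0) false (nat_lit 22) true (nat_lit 21) false (nat_lit 7) true (nat_lit 21) true (nat_lit 18) (.s false (nat_lit 46656) (nat_lit 70) (nat_lit 3) (nat_lit 0) (nat_lit 0) true (nat_lit 14) true (nat_lit 21) false (nat_lit 7) true (nat_lit 18) true (nat_lit 21) (.s false (nat_lit 93312) (nat_lit 71) (nat_lit 3) (nat_lit 0) (nat_lit 0) true (nat_lit 14) true (nat_lit 21) false (nat_lit 7)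 true (nat_lit 18) true (nat_lit 21) (.s false (nat_lit 46656) (nat_lit 73) (nat_lit 3) (nat_lit 0) (nat_lit 0) true (nat_lit 14) true (nat_lit 21) false (nat_lit 7) true (nat_lit 18) true (nat_lit 21) (.s false (nat_lit 46656) (nat_lit 75) (nat_lit 3) (nat_lit 0) (nat_lit 0) true (nat_lit 14) true (nat_lit 21) false (nat_lit 7) true (nat_lit 18) true (nat_lit 21) (.s true (nat_lit 46656) (nat_lit 76) (nat_lit 0) (nat_lit 1) (nat_lit 2) true (nat_lit 16) true (nat_lit 19) false (nat_lit 8) true (nat_lit 21) true (nat_lit 20) (.s true (nat_lit 46656) (nat_lit 77) (nat_lit 0) (nat_lit 2) (nat_lit 1) true (nat_lit 17) true (nat_lit 20) false (nat_lit 8) true (nat_lit 21) true (nat_lit 19) (.s true (nat_lit 93312) (nat_lit 78) (nat_lit 0) (nat_lit 2) (nat_lit 1) true (nat_lit 17) true (nat_lit 20) false (nat_lit 8) true (nat_lit 21) true (nat_lit 19) (.s true (nat_lit 46656) (nat_lit 77) (nat_lit 1) (nat_lit 0)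 (nat_lit 2) true (nat_lit 15) true (nat_lit 19) false (nat_lit 8) true (nat_lit 20) true (nat_lit 21) (.s true (nat_lit 46656) (nat_lit 78) (nat_lit 1) (nat_lit 0) (nat_lit 2) true (nat_lit 15) true (nat_lit 19) false (nat_lit 8) true (nat_lit 20) true (nat_lit 21) (.s true (nat_lit 46656) (nat_lit 77) (nat_lit 1) (nat_lit 2) (nat_lit 0) true (nat_lit 17) true (nat_lit 21) false (nat_lit 8) true (nat_lit 20) true (nat_lit 19) (.s true (nat_lit 93312) (nat_lit 78) (nat_lit 1) (nat_lit 2) (nat_lit 0) true (nat_lit 17) true (nat_lit 21) false (nat_lit 8) true (nat_lit 20) true (nat_lit 19) (.s false (nat_lit 93312) (nat_lit 76) (nat_lit 2) (nat_lit 0) (nat_lit 1) true (nat_lit 15) true (nat_lit 20) false (nat_lit 8) true (nat_lit 19) true (nat_lit 21) (.s true (nat_lit 93312) (nat_lit 77) (nat_lit 2) (nat_lit 0) (nat_lit 1) true (nat_lit 15) true (nat_lit 20) false (nat_lit 8) true (nat_lit 19) true (nat_lit 21)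 (.s false (nat_lit 93312) (nat_lit 78) (nat_lit 2) (nat_lit 0) (nat_lit 1) true (nat_lit 15) true (nat_lit 20) false (nat_lit 8) true (nat_lit 19) true (nat_lit 21) (.s true (nat_lit 93312) (nat_lit 77) (nat_lit 2) (nat_lit 1) (nat_lit 0) true (nat_lit 16) true (nat_lit 21) false (nat_lit 8) true (nat_lit 19) true (nat_lit 20) (.s false (nat_lit 46656) (nat_lit 78) (nat_lit 2) (nat_lit 1) (nat_lit 0) true (nat_lit 16) true (nat_lit 21) false (nat_lit 8) true (nat_lit 19) true (nat_lit 20) (.s true (nat_lit 93312) (nat_lit 80) (nat_lit 0) (nat_lit 0) (nat_lit 2) true (nat_lit 16) true (nat_lit 19) false (nat_lit 9) true (nat_lit 21) true (nat_lit 21) (.s true (nat_lit 93312) (nat_lit 79) (nat_lit 2) (nat_lit 0) (nat_lit 0) true (nat_lit 16) true (nat_lit 21) false (nat_lit 9) true (nat_lit 19) true (nat_lit 21) (.s false (nat_lit 46656) (nat_lit 80) (nat_lit 2) (nat_lit 0) (nat_lit 0) true (nat_lit 16) true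 (nat_lit 21) false (nat_lit 9) true (nat_lit 19) true (nat_lit 21) (.s true (nat_lit 93312) (nat_lit 83) (nat_lit 0) (nat_lit 0) (nat_lit 1) true (nat_lit 17) true (nat_lit 20) false (nat_lit 10) true (nat_lit 21) true (nat_lit 21) (.s true (nat_lit 46656) (nat_lit 84) (nat_lit 0) (nat_lit 0) (nat_lit 1) true (nat_lit 17) true (nat_lit 20) false (nat_lit 10) true (nat_lit 21) true (nat_lit 21) (.s true (nat_lit 93312) (nat_lit 83) (nat_lit 1) (nat_lit 0) (nat_lit 0) true (nat_lit 17) true (nat_lit 21) false (nat_lit 10) true (nat_lit 20) true (nat_lit 21) (.s true (nat_lit 93312) (nat_lit 84) (nat_lit 1) (nat_lit 0) (nat_lit 0) true (nat_lit 17) true (nat_lit 21) false (nat_lit 10) true (nat_lit 20) true (nat_lit 21) (.i false (nat_lit 745749504) (nat_lit 2) (.c (nat_lit 283) (nat_lit 4371) (.c (nat_lit 0) (nat_lit 4096) .nil)) dW4x_i105)))))))))))))))))))))))))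

noncomputable def dW4x_i107 : IL := (.s true (nat_lit 46656) (nat_lit 63) (nat_lit 2) (nat_lit 0) (nat_lit 3) true (nat_lit 12) true (nat_lit 18) false (nat_lit 5) true (nat_lit 19) true (nat_lit 21) (.s false (nat_lit 46656) (nat_lit 58) (nat_lit 2) (nat_lit 3) (nat_lit 0) true (nat_lit 16) true (nat_lit 21) false (nat_lit 5) true (nat_lit 19) true (nat_lit 18) (.s true (nat_lit 93312) (nat_lit 59) (nat_lit 2) (nat_lit 3) (nat_lit 0) true (nat_lit 16) true (nat_lit 21) false (nat_lit 5) true (nat_lit 19) true (nat_lit 18) (.s false (nat_lit 46656) (nat_lit 60) (nat_lit 2) (nat_lit 3) (nat_lit 0) true (nat_lit 16) true (nat_lit 21) false (nat_lit 5) true (nat_lit 19) true (nat_lit 18) (.s false (nat_lit 46656) (nat_lit 62) (nat_lit 2) (nat_lit 3) (nat_lit 0) true (nat_lit 16) true (nat_lit 21) false (nat_lit 5) true (nat_lit 19) true (nat_lit 18) (.s false (nat_lit 46656) (nat_lit 63) (nat_lit 2) (nat_lit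 3) (nat_lit 0) true (nat_lit 16) true (nat_lit 21) false (nat_lit 5) true (nat_lit 19) true (nat_lit 18) (.s true (nat_lit 93312) (nat_lit 63) (nat_lit 3) (nat_lit 0) (nat_lit 2) true (nat_lit 12) true (nat_lit 19) false (nat_lit 5) true (nat_lit 18) true (nat_lit 21) (.s false (nat_lit 46656) (nat_lit 60) (nat_lit 3) (nat_lit 2) (nat_lit 0) true (nat_lit 14) true (nat_lit 21) false (nat_lit 5) true (nat_lit 18) true (nat_lit 19) (.s true (nat_lit 46656) (nat_lit 62) (nat_lit 3) (nat_lit 2) (nat_lit 0) true (nat_lit 14) true (nat_lit 21) false (nat_lit 5) true (nat_lit 18) true (nat_lit 19) (.s false (nat_lit 46656) (nat_lit 63) (nat_lit 3) (nat_lit 2) (nat_lit 0) true (nat_lit 14) true (nat_lit 21) false (nat_lit 5) true (nat_lit 18) true (nat_lit 19) (.s true (nat_lit 93312) (nat_lit 64) (nat_lit 0) (nat_lit 1) (nat_lit 3) true (nat_lit 14) true (nat_lit 18) false (nat_lit 6) true (nat_lit 21) true (nat_lit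 20) (.s false (nat_lit 46656) (nat_lit 66) (nat_lit 0) (nat_lit 1) (nat_lit 3) true (nat_lit 14) true (nat_lit 18) false (nat_lit 6) true (nat_lit 21) true (nat_lit 20) (.s false (nat_lit 93312) (nat_lit 68) (nat_lit 0) (nat_lit 1) (nat_lit 3) true (nat_lit 14) true (nat_lit 18) false (nat_lit 6) true (nat_lit 21) true (nat_lit 20) (.s true (nat_lit 93312) (nat_lit 69) (nat_lit 0) (nat_lit 1) (nat_lit 3) true (nat_lit 14) true (nat_lit 18) false (nat_lit 6) true (nat_lit 21) true (nat_lit 20) (.s true (nat_lit 93312) (nat_lit 64) (nat_lit 0) (nat_lit 3) (nat_lit 1) true (nat_lit 17) true (nat_lit 20) false (nat_lit 6) true (nat_lit 21) true (nat_lit 18) (.s false (nat_lit 46656) (nat_lit 64) (nat_lit 1) (nat_lit 0) (nat_lit 3) true (nat_lit 13) true (nat_lit 18) false (nat_lit 6) true (nat_lit 20) true (nat_lit 21) (.s false (nat_lit 93312) (nat_lit 67) (nat_lit 1) (nat_lit 0) (nat_lit 3) true (nat_lit 13)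 true (nat_lit 18) false (nat_lit 6) true (nat_lit 20) true (nat_lit 21) (.s true (nat_lit 46656) (nat_lit 69) (nat_lit 1) (nat_lit 0) (nat_lit 3) true (nat_lit 13) true (nat_lit 18) false (nat_lit 6) true (nat_lit 20) true (nat_lit 21) (.s true (nat_lit 46656) (nat_lit 65) (nat_lit 1) (nat_lit 3) (nat_lit 0) true (nat_lit 17) true (nat_lit 21) false (nat_lit 6) true (nat_lit 20) true (nat_lit 18) (.s true (nat_lit 93312) (nat_lit 68) (nat_lit 1) (nat_lit 3) (nat_lit 0) true (nat_lit 17) true (nat_lit 21) false (nat_lit 6) true (nat_lit 20) true (nat_lit 18) (.s true (nat_lit 93312) (nat_lit 68) (nat_lit 3) (nat_lit 0) (nat_lit 1) true (nat_lit 13) true (nat_lit 20) false (nat_lit 6) true (nat_lit 18) true (nat_lit 21) (.s false (nat_lit 93312) (nat_lit 69) (nat_lit 3) (nat_lit 0) (nat_lit 1) true (nat_lit 13) true (nat_lit 20) false (nat_lit 6) true (nat_lit 18) true (nat_lit 21) (.s false (nat_lit 93312) (nat_lit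 64) (nat_lit 3) (nat_lit 1) (nat_lit 0) true (nat_lit 14) true (nat_lit 21) false (nat_lit 6) true (nat_lit 18) true (nat_lit 20) (.s true (nat_lit 46656) (nat_lit 70) (nat_lit 0) (nat_lit 0) (nat_lit 3) true (nat_lit 14) true (nat_lit 18) false (nat_lit 7) true (nat_lit 21) true (nat_lit 21) (.s true (nat_lit 93312) (nat_lit 74) (nat_lit 0) (nat_lit 0) (nat_lit 3) true (nat_lit 14) true (nat_lit 18) false (nat_lit 7) true (nat_lit 21) true (nat_lit 21) dW4x_i106)))))))))))))))))))))))))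

noncomputable def dW4x_i108 : IL := (.s true (nat_lit 93312) (nat_lit 46) (nat_lit 3) (nat_lit 3) (nat_lit 0) true (nat_lit 14) true (nat_lit 21) false (nat_lit 3) true (nat_lit 18) true (nat_lit 18) (.s true (nat_lit 93312) (nat_lit 47) (nat_lit 3) (nat_lit 3) (nat_lit 0) true (nat_lit 14) true (nat_lit 21) false (nat_lit 3) true (nat_lit 18) true (nat_lit 18) (.s false (nat_lit 93312) (nat_lit 49) (nat_lit 3) (nat_lit 3) (nat_lit 0) true (nat_lit 14) true (nat_lit 21) false (nat_lit 3) true (nat_lit 18) true (nat_lit 18) (.s false (nat_lit 46656) (nat_lit 51) (nat_lit 3) (nat_lit 3) (nat_lit 0) true (nat_lit 14) true (nat_lit 21) false (nat_lit 3) true (nat_lit 18) true (nat_lit 18) (.s false (nat_lit 46656) (nat_lit 52) (nat_lit 3) (nat_lit 3) (nat_lit 0) true (nat_lit 14) true (nat_lit 21) false (nat_lit 3) true (nat_lit 18) true (nat_lit 18) (.s true (nat_lit 46656) (nat_lit 53) (nat_lit 3) (nat_lit 3)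 (nat_lit 0) true (nat_lit 14) true (nat_lit 21) false (nat_lit 3) true (nat_lit 18) true (nat_lit 18) (.s true (nat_lit 46656) (nat_lit 54) (nat_lit 3) (nat_lit 3) (nat_lit 0) true (nat_lit 14) true (nat_lit 21) false (nat_lit 3) true (nat_lit 18) true (nat_lit 18) (.s true (nat_lit 93312) (nat_lit 55) (nat_lit 1) (nat_lit 2) (nat_lit 3) true (nat_lit 13) true (nat_lit 18) false (nat_lit 4) true (nat_lit 20) true (nat_lit 19) (.s true (nat_lit 93312) (nat_lit 57) (nat_lit 1) (nat_lit 3) (nat_lit 2) true (nat_lit 15) true (nat_lit 19) false (nat_lit 4) true (nat_lit 20) true (nat_lit 18) (.s false (nat_lit 93312) (nat_lit 57) (nat_lit 2) (nat_lit 1) (nat_lit 3) true (nat_lit 12) true (nat_lit 18) false (nat_lit 4) true (nat_lit 19) true (nat_lit 20) (.s true (nat_lit 93312) (nat_lit 57) (nat_lit 2) (nat_lit 3) (nat_lit 1) true (nat_lit 15) true (nat_lit 20) false (nat_lit 4) true (nat_lit 19) true (nat_lit 18)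 (.s true (nat_lit 46656) (nat_lit 55) (nat_lit 3) (nat_lit 1) (nat_lit 2) true (nat_lit 12) true (nat_lit 19) false (nat_lit 4) true (nat_lit 18) true (nat_lit 20) (.s false (nat_lit 46656) (nat_lit 57) (nat_lit 3) (nat_lit 1) (nat_lit 2) true (nat_lit 12) true (nat_lit 19) false (nat_lit 4) true (nat_lit 18) true (nat_lit 20) (.s true (nat_lit 93312) (nat_lit 55) (nat_lit 3) (nat_lit 2) (nat_lit 1) true (nat_lit 13) true (nat_lit 20) false (nat_lit 4) true (nat_lit 18) true (nat_lit 19) (.s false (nat_lit 46656) (nat_lit 58) (nat_lit 0) (nat_lit 2) (nat_lit 3) true (nat_lit 14) true (nat_lit 18) false (nat_lit 5) true (nat_lit 21) true (nat_lit 19) (.s false (nat_lit 93312) (nat_lit 60) (nat_lit 0) (nat_lit 2) (nat_lit 3) true (nat_lit 14) true (nat_lit 18) false (nat_lit 5) true (nat_lit 21) true (nat_lit 19) (.s false (nat_lit 93312) (nat_lit 63) (nat_lit 0) (nat_lit 2) (nat_lit 3) true (nat_lit 14) true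 (nat_lit 18) false (nat_lit 5) true (nat_lit 21) true (nat_lit 19) (.s false (nat_lit 46656) (nat_lit 58) (nat_lit 0) (nat_lit 3) (nat_lit 2) true (nat_lit 16) true (nat_lit 19) false (nat_lit 5) true (nat_lit 21) true (nat_lit 18) (.s false (nat_lit 93312) (nat_lit 59) (nat_lit 0) (nat_lit 3) (nat_lit 2) true (nat_lit 16) true (nat_lit 19) false (nat_lit 5) true (nat_lit 21) true (nat_lit 18) (.s true (nat_lit 46656) (nat_lit 60) (nat_lit 0) (nat_lit 3) (nat_lit 2) true (nat_lit 16) true (nat_lit 19) false (nat_lit 5) true (nat_lit 21) true (nat_lit 18) (.s true (nat_lit 46656) (nat_lit 61) (nat_lit 0) (nat_lit 3) (nat_lit 2) true (nat_lit 16) true (nat_lit 19) false (nat_lit 5) true (nat_lit 21) true (nat_lit 18) (.s true (nat_lit 93312) (nat_lit 59) (nat_lit 2) (nat_lit 0) (nat_lit 3) true (nat_lit 12) true (nat_lit 18) false (nat_lit 5) true (nat_lit 19) true (nat_lit 21) (.s false (nat_lit 93312) (nat_lit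 60) (nat_lit 2) (nat_lit 0) (nat_lit 3) true (nat_lit 12) true (nat_lit 18) false (nat_lit 5) true (nat_lit 19) true (nat_lit 21) (.s false (nat_lit 93312) (nat_lit 61) (nat_lit 2) (nat_lit 0) (nat_lit 3) true (nat_lit 12) true (nat_lit 18) false (nat_lit 5) true (nat_lit 19) true (nat_lit 21) (.s false (nat_lit 93312) (nat_lit 62) (nat_lit 2) (nat_lit 0) (nat_lit 3) true (nat_lit 12) true (nat_lit 18) false (nat_lit 5) true (nat_lit 19) true (nat_lit 21) dW4x_i107)))))))))))))))))))))))))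

noncomputable def dW4x_i109 : IL := (.s false (nat_lit 93312) (nat_lit 39) (nat_lit 3) (nat_lit 2) (nat_lit 3) true (nat_lit 11) true (nat_lit 18) false (nat_lit 1) true (nat_lit 18) true (nat_lit 19) (.s true (nat_lit 46656) (nat_lit 37) (nat_lit 3) (nat_lit 3) (nat_lit 2) true (nat_lit 12) true (nat_lit 19) false (nat_lit 1) true (nat_lit 18) true (nat_lit 18) (.s false (nat_lit 46656) (nat_lit 38) (nat_lit 3) (nat_lit 3) (nat_lit 2) true (nat_lit 12) true (nat_lit 19) false (nat_lit 1) true (nat_lit 18) true (nat_lit 18) (.s true (nat_lit 93312) (nat_lit 41) (nat_lit 1) (nat_lit 3) (nat_lit 3) true (nat_lit 13) true (nat_lit 18) false (nat_lit 2) true (nat_lit 20) true (nat_lit 18) (.s true (nat_lit 46656) (nat_lit 43) (nat_lit 1) (nat_lit 3) (nat_lit 3) true (nat_lit 13) true (nat_lit 18) false (nat_lit 2) true (nat_lit 20) true (nat_lit 18) (.s false (nat_lit 46656) (nat_lit 41) (nat_lit 3) (nat_lit 1)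 (nat_lit 3) true (nat_lit 11) true (nat_lit 18) false (nat_lit 2) true (nat_lit 18) true (nat_lit 20) (.s true (nat_lit 93312) (nat_lit 41) (nat_lit 3) (nat_lit 3) (nat_lit 1) true (nat_lit 13) true (nat_lit 20) false (nat_lit 2) true (nat_lit 18) true (nat_lit 18) (.s true (nat_lit 93312) (nat_lit 42) (nat_lit 3) (nat_lit 3) (nat_lit 1) true (nat_lit 13) true (nat_lit 20) false (nat_lit 2) true (nat_lit 18) true (nat_lit 18) (.s false (nat_lit 93312) (nat_lit 43) (nat_lit 3) (nat_lit 3) (nat_lit 1) true (nat_lit 13) true (nat_lit 20) false (nat_lit 2) true (nat_lit 18) true (nat_lit 18) (.s false (nat_lit 93312) (nat_lit 44) (nat_lit 3) (nat_lit 3) (nat_lit 1) true (nat_lit 13) true (nat_lit 20) false (nat_lit 2) true (nat_lit 18) true (nat_lit 18) (.s false (nat_lit 46656) (nat_lit 45) (nat_lit 0) (nat_lit 3) (nat_lit 3) true (nat_lit 14) true (nat_lit 18) false (nat_lit 3) true (nat_lit 21) true (nat_lit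 18) (.s false (nat_lit 93312) (nat_lit 47) (nat_lit 0) (nat_lit 3) (nat_lit 3) true (nat_lit 14) true (nat_lit 18) false (nat_lit 3) true (nat_lit 21) true (nat_lit 18) (.s true (nat_lit 93312) (nat_lit 48) (nat_lit 0) (nat_lit 3) (nat_lit 3) true (nat_lit 14) true (nat_lit 18) false (nat_lit 3) true (nat_lit 21) true (nat_lit 18) (.s true (nat_lit 46656) (nat_lit 49) (nat_lit 0) (nat_lit 3) (nat_lit 3) true (nat_lit 14) true (nat_lit 18) false (nat_lit 3) true (nat_lit 21) true (nat_lit 18) (.s false (nat_lit 46656) (nat_lit 50) (nat_lit 0) (nat_lit 3) (nat_lit 3) true (nat_lit 14) true (nat_lit 18) false (nat_lit 3) true (nat_lit 21) true (nat_lit 18) (.s false (nat_lit 93312) (nat_lit 51) (nat_lit 0) (nat_lit 3) (nat_lit 3) true (nat_lit 14) true (nat_lit 18) false (nat_lit 3) true (nat_lit 21) true (nat_lit 18) (.s false (nat_lit 93312) (nat_lit 54) (nat_lit 0) (nat_lit 3) (nat_lit 3) true (nat_lit 14)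 true (nat_lit 18) false (nat_lit 3) true (nat_lit 21) true (nat_lit 18) (.s false (nat_lit 93312) (nat_lit 45) (nat_lit 3) (nat_lit 0) (nat_lit 3) true (nat_lit 11) true (nat_lit 18) false (nat_lit 3) true (nat_lit 18) true (nat_lit 21) (.s false (nat_lit 46656) (nat_lit 46) (nat_lit 3) (nat_lit 0) (nat_lit 3) true (nat_lit 11) true (nat_lit 18) false (nat_lit 3) true (nat_lit 18) true (nat_lit 21) (.s true (nat_lit 46656) (nat_lit 48) (nat_lit 3) (nat_lit 0) (nat_lit 3) true (nat_lit 11) true (nat_lit 18) false (nat_lit 3) true (nat_lit 18) true (nat_lit 21) (.s false (nat_lit 93312) (nat_lit 49) (nat_lit 3) (nat_lit 0) (nat_lit 3) true (nat_lit 11) true (nat_lit 18) false (nat_lit 3) true (nat_lit 18) true (nat_lit 21) (.s false (nat_lit 93312) (nat_lit 50) (nat_lit 3) (nat_lit 0) (nat_lit 3) true (nat_lit 11) true (nat_lit 18) false (nat_lit 3) true (nat_lit 18) true (nat_lit 21) (.s true (nat_lit 46656)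 (nat_lit 53) (nat_lit 3) (nat_lit 0) (nat_lit 3) true (nat_lit 11) true (nat_lit 18) false (nat_lit 3) true (nat_lit 18) true (nat_lit 21) (.s false (nat_lit 93312) (nat_lit 54) (nat_lit 3) (nat_lit 0) (nat_lit 3) true (nat_lit 11) true (nat_lit 18) false (nat_lit 3) true (nat_lit 18) true (nat_lit 21) (.s false (nat_lit 46656) (nat_lit 45) (nat_lit 3) (nat_lit 3) (nat_lit 0) true (nat_lit 14) true (nat_lit 21) false (nat_lit 3) true (nat_lit 18) true (nat_lit 18) dW4x_i108)))))))))))))))))))))))))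

noncomputable def dW4x_i110 : IL := (.s false (nat_lit 93312) (nat_lit 27) (nat_lit 3) (nat_lit 2) (nat_lit 4) true (nat_lit 6) true (nat_lit 17) true (nat_lit 3) true (nat_lit 18) true (nat_lit 19) (.s false (nat_lit 46656) (nat_lit 26) (nat_lit 3) (nat_lit 4) (nat_lit 2) true (nat_lit 12) true (nat_lit 19) true (nat_lit 3) true (nat_lit 18) true (nat_lit 17) (.s true (nat_lit 46656) (nat_lit 26) (nat_lit 3) (nat_lit 6) (nat_lit 0) true (nat_lit 14) true (nat_lit 21) true (nat_lit 3) true (nat_lit 18) true (nat_lit 15) (.s true (nat_lit 93312) (nat_lit 27) (nat_lit 3) (nat_lit 6) (nat_lit 0) true (nat_lit 14) true (nat_lit 21) true (nat_lit 3) true (nat_lit 18) true (nat_lit 15) (.s false (nat_lit 93312) (nat_lit 26) (nat_lit 7) (nat_lit 1) (nat_lit 2) true (nat_lit 5) true (nat_lit 19) true (nat_lit 3) true (nat_lit 14) true (nat_lit 20) (.s true (nat_lit 46656) (nat_lit 26) (nat_lit 7) (nat_lit 2) (nat_lit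 1) true (nat_lit 6) true (nat_lit 20) true (nat_lit 3) true (nat_lit 14) true (nat_lit 19) (.s false (nat_lit 46656) (nat_lit 27) (nat_lit 7) (nat_lit 2) (nat_lit 1) true (nat_lit 6) true (nat_lit 20) true (nat_lit 3) true (nat_lit 14) true (nat_lit 19) (.s true (nat_lit 93312) (nat_lit 27) (nat_lit 9) (nat_lit 0) (nat_lit 1) true (nat_lit 4) true (nat_lit 20) true (nat_lit 3) true (nat_lit 12) true (nat_lit 21) (.s false (nat_lit 46656) (nat_lit 27) (nat_lit 9) (nat_lit 1) (nat_lit 0) true (nat_lit 5) true (nat_lit 21) true (nat_lit 3) true (nat_lit 12) true (nat_lit 20) (.s false (nat_lit 46656) (nat_lit 28) (nat_lit 0) (nat_lit 0) (nat_lit 9) true (nat_lit 5) true (nat_lit 12) true (nat_lit 2) true (nat_lit 21) true (nat_lit 21) (.s false (nat_lit 93312) (nat_lit 29) (nat_lit 0) (nat_lit 0) (nat_lit 9) true (nat_lit 5) true (nat_lit 12) true (nat_lit 2) true (nat_lit 21) true (nat_lit 21) (.s true (nat_lit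 46656) (nat_lit 28) (nat_lit 7) (nat_lit 0) (nat_lit 2) true (nat_lit 5) true (nat_lit 19) true (nat_lit 2) true (nat_lit 14) true (nat_lit 21) (.s false (nat_lit 46656) (nat_lit 28) (nat_lit 9) (nat_lit 0) (nat_lit 0) true (nat_lit 5) true (nat_lit 21) true (nat_lit 2) true (nat_lit 12) true (nat_lit 21) (.s false (nat_lit 46656) (nat_lit 30) (nat_lit 0) (nat_lit 0) (nat_lit 8) true (nat_lit 6) true (nat_lit 13) true (nat_lit 1) true (nat_lit 21) true (nat_lit 21) (.s false (nat_lit 46656) (nat_lit 30) (nat_lit 0) (nat_lit 3) (nat_lit 4) true (nat_lit 10) true (nat_lit 17) true (nat_lit 1) true (nat_lit 21) true (nat_lit 18) (.s true (nat_lit 46656) (nat_lit 31) (nat_lit 7) (nat_lit 1) (nat_lit 0) true (nat_lit 7) true (nat_lit 21) true (nat_lit 1) true (nat_lit 14) true (nat_lit 20) (.s false (nat_lit 93312) (nat_lit 32) (nat_lit 0) (nat_lit 0) (nat_lit 6) true (nat_lit 8) true (nat_lit 15) true (nat_lit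 0) true (nat_lit 21) true (nat_lit 21) (.s false (nat_lit 93312) (nat_lit 32) (nat_lit 6) (nat_lit 0) (nat_lit 0) true (nat_lit 8) true (nat_lit 21) true (nat_lit 0) true (nat_lit 15) true (nat_lit 21) (.s true (nat_lit 93312) (nat_lit 33) (nat_lit 3) (nat_lit 3) (nat_lit 3) true (nat_lit 11) true (nat_lit 18) false (nat_lit 0) true (nat_lit 18) true (nat_lit 18) (.s true (nat_lit 93312) (nat_lit 34) (nat_lit 3) (nat_lit 3) (nat_lit 3) true (nat_lit 11) true (nat_lit 18) false (nat_lit 0) true (nat_lit 18) true (nat_lit 18) (.s false (nat_lit 93312) (nat_lit 35) (nat_lit 3) (nat_lit 3) (nat_lit 3) true (nat_lit 11) true (nat_lit 18) false (nat_lit 0) true (nat_lit 18) true (nat_lit 18) (.s false (nat_lit 93312) (nat_lit 36) (nat_lit 3) (nat_lit 3) (nat_lit 3) true (nat_lit 11) true (nat_lit 18) false (nat_lit 0) true (nat_lit 18) true (nat_lit 18) (.s false (nat_lit 46656) (nat_lit 38) (nat_lit 2) (nat_lit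 3) (nat_lit 3) true (nat_lit 12) true (nat_lit 18) false (nat_lit 1) true (nat_lit 19) true (nat_lit 18) (.s false (nat_lit 46656) (nat_lit 40) (nat_lit 2) (nat_lit 3) (nat_lit 3) true (nat_lit 12) true (nat_lit 18) false (nat_lit 1) true (nat_lit 19) true (nat_lit 18) (.s false (nat_lit 93312) (nat_lit 38) (nat_lit 3) (nat_lit 2) (nat_lit 3) true (nat_lit 11) true (nat_lit 18) false (nat_lit 1) true (nat_lit 18) true (nat_lit 19) dW4x_i109)))))))))))))))))))))))))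

noncomputable def dW4x_i111 : IL := (.s true (nat_lit 46656) (nat_lit 20) (nat_lit 3) (nat_lit 8) (nat_lit 0) true (nat_lit 14) true (nat_lit 21) true (nat_lit 5) true (nat_lit 18) true (nat_lit 13) (.s false (nat_lit 46656) (nat_lit 20) (nat_lit 4) (nat_lit 3) (nat_lit 3) true (nat_lit 6) true (nat_lit 18) true (nat_lit 5) true (nat_lit 17) true (nat_lit 18) (.s false (nat_lit 93312) (nat_lit 20) (nat_lit 8) (nat_lit 0) (nat_lit 3) true (nat_lit 2) true (nat_lit 18) true (nat_lit 5) true (nat_lit 13) true (nat_lit 21) (.s true (nat_lit 46656) (nat_lit 22) (nat_lit 10) (nat_lit 0) (nat_lit 1) true (nat_lit 2) true (nat_lit 20) true (nat_lit 5) true (nat_lit 11) true (nat_lit 21) (.s true (nat_lit 46656) (nat_lit 23) (nat_lit 0) (nat_lit 0) (nat_lit 10) true (nat_lit 3) true (nat_lit 11) true (nat_lit 4) true (nat_lit 21) true (nat_lit 21) (.s true (nat_lit 46656) (nat_lit 25) (nat_lit 0) (nat_lit 0) (nat_lit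 10) true (nat_lit 3) true (nat_lit 11) true (nat_lit 4) true (nat_lit 21) true (nat_lit 21) (.s true (nat_lit 93312) (nat_lit 23) (nat_lit 0) (nat_lit 3) (nat_lit 7) true (nat_lit 7) true (nat_lit 14) true (nat_lit 4) true (nat_lit 21) true (nat_lit 18) (.s true (nat_lit 93312) (nat_lit 24) (nat_lit 0) (nat_lit 10) (nat_lit 0) false (nat_lit 22) true (nat_lit 21) true (nat_lit 4) true (nat_lit 21) true (nat_lit 11) (.s true (nat_lit 46656) (nat_lit 24) (nat_lit 7) (nat_lit 3) (nat_lit 0) true (nat_lit 7) true (nat_lit 21) true (nat_lit 4) true (nat_lit 14) true (nat_lit 18) (.s false (nat_lit 93312) (nat_lit 25) (nat_lit 10) (nat_lit 0) (nat_lit 0) true (nat_lit 3) true (nat_lit 21) true (nat_lit 4) true (nat_lit 11) true (nat_lit 21) (.s true (nat_lit 93312) (nat_lit 27) (nat_lit 0) (nat_lit 3) (nat_lit 6) true (nat_lit 8) true (nat_lit 15) true (nat_lit 3) true (nat_lit 21) true (nat_lit 18) (.s false (nat_lit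 93312) (nat_lit 27) (nat_lit 0) (nat_lit 6) (nat_lit 3) true (nat_lit 14) true (nat_lit 18) true (nat_lit 3) true (nat_lit 21) true (nat_lit 15) (.s false (nat_lit 46656) (nat_lit 26) (nat_lit 0) (nat_lit 8) (nat_lit 2) true (nat_lit 16) true (nat_lit 19) true (nat_lit 3) true (nat_lit 21) true (nat_lit 13) (.s true (nat_lit 46656) (nat_lit 26) (nat_lit 0) (nat_lit 9) (nat_lit 1) true (nat_lit 17) true (nat_lit 20) true (nat_lit 3) true (nat_lit 21) true (nat_lit 12) (.s true (nat_lit 93312) (nat_lit 27) (nat_lit 1) (nat_lit 0) (nat_lit 9) true (nat_lit 4) true (nat_lit 12) true (nat_lit 3) true (nat_lit 20) true (nat_lit 21) (.s false (nat_lit 46656) (nat_lit 27) (nat_lit 1) (nat_lit 5) (nat_lit 3) true (nat_lit 13) true (nat_lit 18) true (nat_lit 3) true (nat_lit 20) true (nat_lit 16) (.s false (nat_lit 93312) (nat_lit 26) (nat_lit 1) (nat_lit 7) (nat_lit 2) true (nat_lit 15) true (nat_lit 19) true (nat_lit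 3) true (nat_lit 20) true (nat_lit 14) (.s true (nat_lit 93312) (nat_lit 27) (nat_lit 1) (nat_lit 7) (nat_lit 2) true (nat_lit 15) true (nat_lit 19) true (nat_lit 3) true (nat_lit 20) true (nat_lit 14) (.s false (nat_lit 46656) (nat_lit 26) (nat_lit 2) (nat_lit 0) (nat_lit 8) true (nat_lit 4) true (nat_lit 13) true (nat_lit 3) true (nat_lit 19) true (nat_lit 21) (.s false (nat_lit 46656) (nat_lit 27) (nat_lit 2) (nat_lit 0) (nat_lit 8) true (nat_lit 4) true (nat_lit 13) true (nat_lit 3) true (nat_lit 19) true (nat_lit 21) (.s false (nat_lit 93312) (nat_lit 27) (nat_lit 2) (nat_lit 4) (nat_lit 3) true (nat_lit 12) true (nat_lit 18) true (nat_lit 3) true (nat_lit 19) true (nat_lit 17) (.s false (nat_lit 93312) (nat_lit 26) (nat_lit 2) (nat_lit 7) (nat_lit 1) true (nat_lit 15) true (nat_lit 20) true (nat_lit 3) true (nat_lit 19) true (nat_lit 14) (.s true (nat_lit 93312) (nat_lit 27) (nat_lit 2) (nat_lit 7) (nat_lit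 1) true (nat_lit 15) true (nat_lit 20) true (nat_lit 3) true (nat_lit 19) true (nat_lit 14) (.s false (nat_lit 93312) (nat_lit 26) (nat_lit 3) (nat_lit 0) (nat_lit 6) true (nat_lit 4) true (nat_lit 15) true (nat_lit 3) true (nat_lit 18) true (nat_lit 21) (.s false (nat_lit 93312) (nat_lit 27) (nat_lit 3) (nat_lit 1) (nat_lit 5) true (nat_lit 5) true (nat_lit 16) true (nat_lit 3) true (nat_lit 18) true (nat_lit 20) dW4x_i110)))))))))))))))))))))))))

noncomputable def dW4x_i112 : IL := (.s true (nat_lit 46656) (nat_lit 16) (nat_lit 10) (nat_lit 1) (nat_lit 2) true (nat_lit 1) true (nat_lit 19) true (nat_lit 7) true (nat_lit 11) true (nat_lit 20) (.s false (nat_lit 46656) (nat_lit 19) (nat_lit 0) (nat_lit 2) (nat_lit 10) true (nat_lit 3) true (nat_lit 11) true (nat_lit 6) true (nat_lit 21) true (nat_lit 19) (.s true (nat_lit 46656) (nat_lit 17) (nat_lit 0) (nat_lit 3) (nat_lit 9) true (nat_lit 5) true (nat_lit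 12) true (nat_lit 6) true (nat_lit 21) true (nat_lit 18) (.s false (nat_lit 46656) (nat_lit 17) (nat_lit 0) (nat_lit 9) (nat_lit 3) true (nat_lit 14) true (nat_lit 18) true (nat_lit 6) true (nat_lit 21) true (nat_lit 12) (.s true (nat_lit 93312) (nat_lit 17) (nat_lit 0) (nat_lit 10) (nat_lit 2) true (nat_lit 16) true (nat_lit 19) true (nat_lit 6) true (nat_lit 21) true (nat_lit 11) (.s true (nat_lit 46656) (nat_lit 19) (nat_lit 0) (nat_lit 10) (nat_lit 2) true (nat_lit 16) true (nat_lit 19) true (nat_lit 6) true (nat_lit 21) true (nat_lit 11) (.s true (nat_lit 46656) (nat_lit 17) (nat_lit 2) (nat_lit 3) (nat_lit 7) true (nat_lit 5) true (nat_lit 14) true (nat_lit 6) true (nat_lit 19) true (nat_lit 18) (.s false (nat_lit 93312) (nat_lit 17) (nat_lit 2) (nat_lit 7) (nat_lit 3) true (nat_lit 12) true (nat_lit 18) true (nat_lit 6) true (nat_lit 19) true (nat_lit 14) (.s true (nat_lit 93312) (nat_lit 19) (nat_lit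 2) (nat_lit 7) (nat_lit 3) true (nat_lit 12) true (nat_lit 18) true (nat_lit 6) true (nat_lit 19) true (nat_lit 14) (.s false (nat_lit 46656) (nat_lit 17) (nat_lit 3) (nat_lit 2) (nat_lit 7) true (nat_lit 3) true (nat_lit 14) true (nat_lit 6) true (nat_lit 18) true (nat_lit 19) (.s true (nat_lit 46656) (nat_lit 18) (nat_lit 3) (nat_lit 2) (nat_lit 7) true (nat_lit 3) true (nat_lit 14) true (nat_lit 6) true (nat_lit 18) true (nat_lit 19) (.s true (nat_lit 46656) (nat_lit 19) (nat_lit 7) (nat_lit 3) (nat_lit 2) true (nat_lit 5) true (nat_lit 19) true (nat_lit 6) true (nat_lit 14) true (nat_lit 18) (.s true (nat_lit 93312) (nat_lit 17) (nat_lit 9) (nat_lit 0) (nat_lit 3) true (nat_lit 1) true (nat_lit 18) true (nat_lit 6) true (nat_lit 12) true (nat_lit 21) (.s true (nat_lit 46656) (nat_lit 18) (nat_lit 9) (nat_lit 0) (nat_lit 3) true (nat_lit 1) true (nat_lit 18) true (nat_lit 6) true (nat_lit 12) true (nat_lit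 21) (.s false (nat_lit 46656) (nat_lit 19) (nat_lit 9) (nat_lit 0) (nat_lit 3) true (nat_lit 1) true (nat_lit 18) true (nat_lit 6) true (nat_lit 12) true (nat_lit 21) (.s false (nat_lit 46656) (nat_lit 17) (nat_lit 10) (nat_lit 0) (nat_lit 2) true (nat_lit 1) true (nat_lit 19) true (nat_lit 6) true (nat_lit 11) true (nat_lit 21) (.s false (nat_lit 46656) (nat_lit 19) (nat_lit 10) (nat_lit 2) (nat_lit 0) true (nat_lit 3) true (nat_lit 21) true (nat_lit 6) true (nat_lit 11) true (nat_lit 19) (.s false (nat_lit 46656) (nat_lit 22) (nat_lit 0) (nat_lit 1) (nat_lit 10) true (nat_lit 3) true (nat_lit 11) true (nat_lit 5) true (nat_lit 21) true (nat_lit 20) (.s true (nat_lit 93312) (nat_lit 22) (nat_lit 0) (nat_lit 3) (nat_lit 8) true (nat_lit 6) true (nat_lit 13) true (nat_lit 5) true (nat_lit 21) true (nat_lit 18) (.s false (nat_lit 46656) (nat_lit 22) (nat_lit 0) (nat_lit 8) (nat_lit 3) true (nat_lit 14) true (nat_lit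 18) true (nat_lit 5) true (nat_lit 21) true (nat_lit 13) (.s true (nat_lit 46656) (nat_lit 22) (nat_lit 0) (nat_lit 10) (nat_lit 1) true (nat_lit 17) true (nat_lit 20) true (nat_lit 5) true (nat_lit 21) true (nat_lit 11) (.s true (nat_lit 46656) (nat_lit 20) (nat_lit 1) (nat_lit 7) (nat_lit 3) true (nat_lit 13) true (nat_lit 18) true (nat_lit 5) true (nat_lit 20) true (nat_lit 14) (.s false (nat_lit 93312) (nat_lit 21) (nat_lit 3) (nat_lit 3) (nat_lit 4) true (nat_lit 6) true (nat_lit 17) true (nat_lit 5) true (nat_lit 18) true (nat_lit 18) (.s true (nat_lit 93312) (nat_lit 20) (nat_lit 3) (nat_lit 4) (nat_lit 3) true (nat_lit 11) true (nat_lit 18) true (nat_lit 5) true (nat_lit 18) true (nat_lit 17) (.s false (nat_lit 93312) (nat_lit 22) (nat_lit 3) (nat_lit 7) (nat_lit 1) true (nat_lit 13) true (nat_lit 20) true (nat_lit 5) true (nat_lit 18) true (nat_lit 14) dW4x_i111)))))))))))))))))))))))))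

noncomputable def dW4x_il : IL := (.s true (nat_lit 46656) (nat_lit 8) (nat_lit 3) (nat_lit 5) (nat_lit 7) true (nat_lit 3) true (nat_lit 14) true (nat_lit 13) true (nat_lit 18) true (nat_lit 16) (.s true (nat_lit 46656) (nat_lit 9) (nat_lit 3) (nat_lit 7) (nat_lit 4) true (nat_lit 6) true (nat_lit 17) true (nat_lit 12) true (nat_lit 18) true (nat_lit 14) (.s true (nat_lit 46656) (nat_lit 10) (nat_lit 5) (nat_lit 7) (nat_lit 1) true (nat_lit 8) true (nat_lit 20) true (nat_lit 11) true (nat_lit 16) true (nat_lit 14) (.s true (nat_lit 46656) (nat_lit 14) (nat_lit 0) (nat_lit 10) (nat_lit 3) true (nat_lit 14) true (nat_lit 18) true (nat_lit 8) true (nat_lit 21) true (nat_lit 11) (.s false (nat_lit 93312) (nat_lit 15) (nat_lit 0) (nat_lit 10) (nat_lit 3) true (nat_lit 14) true (nat_lit 18) true (nat_lit 8) true (nat_lit 21) true (nat_lit 11) (.s true (nat_lit 93312) (nat_lit 13) (nat_lit 3) (nat_lit 0) (nat_lit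 10) true (nat_lit 0) true (nat_lit 11) true (nat_lit 8) true (nat_lit 18) true (nat_lit 21) (.s true (nat_lit 93312) (nat_lit 15) (nat_lit 3) (nat_lit 0) (nat_lit 10) true (nat_lit 0) true (nat_lit 11) true (nat_lit 8) true (nat_lit 18) true (nat_lit 21) (.s true (nat_lit 46656) (nat_lit 13) (nat_lit 3) (nat_lit 3) (nat_lit 7) true (nat_lit 3) true (nat_lit 14) true (nat_lit 8) true (nat_lit 18) true (nat_lit 18) (.s false (nat_lit 46656) (nat_lit 13) (nat_lit 7) (nat_lit 3) (nat_lit 3) true (nat_lit 3) true (nat_lit 18) true (nat_lit 8) true (nat_lit 14) true (nat_lit 18) (.s true (nat_lit 46656) (nat_lit 16) (nat_lit 1) (nat_lit 2) (nat_lit 10) true (nat_lit 2) true (nat_lit 11) true (nat_lit 7) true (nat_lit 20) true (nat_lit 19) (.s false (nat_lit 46656) (nat_lit 16) (nat_lit 2) (nat_lit 1) (nat_lit 10) true (nat_lit 1) true (nat_lit 11) true (nat_lit 7) true (nat_lit 19) true (nat_lit 20) (.s false (nat_lit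 46656) (nat_lit 16) (nat_lit 3) (nat_lit 3) (nat_lit 6) true (nat_lit 4) true (nat_lit 15) true (nat_lit 7) true (nat_lit 18) true (nat_lit 18) (.s true (nat_lit 46656) (nat_lit 16) (nat_lit 8) (nat_lit 3) (nat_lit 2) true (nat_lit 4) true (nat_lit 19) true (nat_lit 7) true (nat_lit 13) true (nat_lit 18) (.s true (nat_lit 93312) (nat_lit 16) (nat_lit 9) (nat_lit 3) (nat_lit 1) true (nat_lit 4) true (nat_lit 20) true (nat_lit 7) true (nat_lit 12) true (nat_lit 18) dW4x_i112))))))))))))))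

theorem dW4x_chk : chk 1 idsM5 dW4x_D par1 (clsL [0,0,0,1,2,3,3]) W4xEx (.c (nat_lit 3) (nat_lit 1) (.c (nat_lit 3) (nat_lit 1) (.c (nat_lit 3) (nat_lit 1) (.c (nat_lit 2) (nat_lit 16) (.c (nat_lit 1) (nat_lit 256) (.c (nat_lit 0) (nat_lit 4096) (.c (nat_lit 0) (nat_lit 4096) .nil))))))) (nat_lit 624) (nat_lit 8467) (nat_lit 1) dW4x_gs dW4x_il = true := by
  decide +kernel

end Chk

/-- certificate of `W4xEx` -/
theorem cert_W4xEx : Cert.{u} 1 idsM5 par1 (clsL [0,0,0,1,2,3,3]) W4xEx :=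
  Chk.chk_sound _ _ (by simp [idsM5]) (by simp [idsM5]) _ _ _ _ _ _ _ _ _ _ Chk.dW4x_chk

end Pool.Agent.MalP
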