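import Pool.Agent.MalP.P5.Fv
import Pool.Agent.MalP.PSkew

/-! # Linearity of `fv` and `cc`; skewness -/

set_option autoImplicit false

namespace Pool.Agent.MalP.P5

universe u v

section lin

variable {A : Type v} [NonUnitalNonAssocRing A]

theorem P_addx (a b c d x y : A) : P108 a b c d (x + y) = P108 a b c d x + P108 a b c d y := by
  unfold P108
  simp only [PSkewAux.Jac_add1, PSkewAux.Jac_add2, PSkewAux.Jac_add3, add_mul, mul_add, smul_add,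
    smul_sub]
  abel

theorem P_addd (a b c d d' x : A) : P108 a b c (d + d') x = P108 a b c d x + P108 a b c d' x := by
  unfold P108
  simp only [PSkewAux.Jac_add1, PSkewAux.Jac_add2, PSkewAux.Jac_add3, add_mul, mul_add, smul_add,
    smul_sub]
  abel

theorem fv_add5 (x0 x1 x2 x3 x4 v w : A) :
    fv x0 x1 x2 x3 x4 (v + w) = fv x0 x1 x2 x3 x4 v + fv x0 x1 x2 x3 x4 w := by
  unfold fv
  rw [add_mul, P_addx, P_addx, add_mul]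
  abel

theorem fv_add4 (x0 x1 x2 x3 x y v : A) :
    fv x0 x1 x2 x3 (x + y) v = fv x0 x1 x2 x3 x v + fv x0 x1 x2 x3 y v := by
  unfold fv
  rw [mul_add, P_addx, mul_add]
  abel

theorem fv_add3 (x0 x1 x2 x y x4 v : A) :
    fv x0 x1 x2 (x + y) x4 v = fv x0 x1 x2 x x4 v + fv x0 x1 x2 y x4 v := by
  unfold fv
  rw [P_addd, P_addd, add_mul]
  abel

theorem P_adda (a a' b c d x : A) : P108 (a + a') b c d x = P108 a b c d x + P108 a' b c d x := by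
  unfold P108
  simp only [PSkewAux.Jac_add1, PSkewAux.Jac_add2, PSkewAux.Jac_add3, add_mul, mul_add, smul_add,
    smul_sub]
  abel

theorem fv_add0 (x y x1 x2 x3 x4 v : A) :
    fv (x + y) x1 x2 x3 x4 v = fv x x1 x2 x3 x4 v + fv y x1 x2 x3 x4 v := by
  unfold fv
  rw [P_adda, P_adda, add_mul]
  abel

theorem cc_add5 (x0 x1 x2 x3 x4 x y : A) :
    cc x0 x1 x2 x3 x4 (x + y) = cc x0 x1 x2 x3 x4 x + cc x0 x1 x2 x3 x4 y := by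
  unfold cc
  rw [fv_add4, fv_add4, fv_add4, fv_add4, fv_add4, fv_add5]
  abel

theorem cc_add0 (x y x1 x2 x3 x4 x5 : A) :
    cc (x + y) x1 x2 x3 x4 x5 = cc x x1 x2 x3 x4 x5 + cc y x1 x2 x3 x4 x5 := by
  unfold cc
  rw [fv_add0, fv_add0, fv_add0, fv_add0, fv_add0, fv_add5]
  abel

theorem fv_neg5 (x0 x1 x2 x3 x4 v : A) : fv x0 x1 x2 x3 x4 (-v) = - fv x0 x1 x2 x3 x4 v := by
  have h1 := fv_add5 x0 x1 x2 x3 x4 v (-v)
  have h2 := fv_add5 x0 x1 x2 x3 x4 (0 : A) 0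
  rw [add_zero] at h2
  rw [add_neg_cancel, left_eq_add.1 h2] at h1
  exact (neg_eq_of_add_eq_zero_right h1.symm).symm

theorem fv_neg0 (x x1 x2 x3 x4 v : A) : fv (-x) x1 x2 x3 x4 v = - fv x x1 x2 x3 x4 v := by
  have h1 := fv_add0 x (-x) x1 x2 x3 x4 v
  have h2 := fv_add0 (0 : A) 0 x1 x2 x3 x4 v
  rw [add_zero] at h2
  rw [add_neg_cancel, left_eq_add.1 h2] at h1
  exact (neg_eq_of_add_eq_zero_right h1.symm).symm

theorem cc_neg0 (x x1 x2 x3 x4 x5 : A) : cc (-x) x1 x2 x3 x4 x5 = - cc x x1 x2 x3 x4 x5 := by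
  have h1 := cc_add0 x (-x) x1 x2 x3 x4 x5
  have h2 := cc_add0 (0 : A) 0 x1 x2 x3 x4 x5
  rw [add_zero] at h2
  rw [add_neg_cancel, left_eq_add.1 h2] at h1
  exact (neg_eq_of_add_eq_zero_right h1.symm).symm

end lin

/-- `fv` is totally skew in the first five arguments -/
structure FSk (A : Type v) [NonUnitalNonAssocRing A] : Prop extends IsMalcev A where
  s0 : ∀ x0 x1 x2 x3 x4 v : A, fv x0 x1 x2 x4 x3 v = - fv x0 x1 x2 x3 x4 v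

variable {A : Type v} [NonUnitalNonAssocRing A]

theorem FSk.of0 (h : IsMalcev A) (h0 : ∀ x0 x1 x2 a v : A, fv x0 x1 x2 a a v = 0) : FSk A where
  toIsMalcev := h
  s0 := by
    intro x0 x1 x2 x3 x4 v
    have h1 := h0 x0 x1 x2 (x3 + x4) v
    rw [fv_add4, fv_add3, fv_add3, h0, h0, zero_add, add_zero] at h1
    exact eq_neg_of_add_eq_zero_left h1

namespace FSk

variable (h : FSk A)

include h

theorem f01 (x0 x1 x2 x3 x4 v : A) : fv x1 x0 x2 x3 x4 v = - fv x0 x1 x2 x3 x4 v := by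
  unfold fv
  rw [h.toIsMalcev.P12 x0, h.toIsMalcev.P12 x0, neg_mul]
  abel

theorem f12 (x0 x1 x2 x3 x4 v : A) : fv x0 x2 x1 x3 x4 v = - fv x0 x1 x2 x3 x4 v := by
  unfold fv
  rw [h.toIsMalcev.P23 x0 x1, h.toIsMalcev.P23 x0 x1, neg_mul]
  abel

theorem f23 (x0 x1 x2 x3 x4 v : A) : fv x0 x1 x3 x2 x4 v = - fv x0 x1 x2 x3 x4 v := by
  unfold fv
  rw [h.toIsMalcev.P34 x0 x1 x2, h.toIsMalcev.P34 x0 x1 x2, neg_mul]
  abel

theorem f34 (x0 x1 x2 x3 x4 v : A) : fv x0 x1 x2 x4 x3 v = - fv x0 x1 x2 x3 x4 v :=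
  h.s0 x0 x1 x2 x3 x4 v

theorem c01 (x0 x1 x2 x3 x4 x5 : A) : cc x1 x0 x2 x3 x4 x5 = - cc x0 x1 x2 x3 x4 x5 := by
  unfold cc
  rw [h.f01 x0 x1 x3 x4 x5, h.f01 x0 x1 x2 x4 x5, h.f01 x0 x1 x2 x3 x5, h.f01 x0 x1 x2 x3 x4]
  abel

theorem c12 (x0 x1 x2 x3 x4 x5 : A) : cc x0 x2 x1 x3 x4 x5 = - cc x0 x1 x2 x3 x4 x5 := by
  unfold cc
  rw [h.f01 x1 x2 x3 x4 x5, h.f12 x0 x1 x2 x4 x5, h.f12 x0 x1 x2 x3 x5, h.f12 x0 x1 x2 x3 x4]
  abel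

theorem c23 (x0 x1 x2 x3 x4 x5 : A) : cc x0 x1 x3 x2 x4 x5 = - cc x0 x1 x2 x3 x4 x5 := by
  unfold cc
  rw [h.f12 x1 x2 x3 x4 x5, h.f12 x0 x2 x3 x4 x5, h.f23 x0 x1 x2 x3 x5, h.f23 x0 x1 x2 x3 x4]
  abel

theorem c34 (x0 x1 x2 x3 x4 x5 : A) : cc x0 x1 x2 x4 x3 x5 = - cc x0 x1 x2 x3 x4 x5 := by
  unfold cc
  rw [h.f23 x1 x2 x3 x4 x5, h.f23 x0 x2 x3 x4 x5, h.f23 x0 x1 x3 x4 x5, h.f34 x0 x1 x2 x3 x4]
  abel

theorem c45 (x0 x1 x2 x3 x4 x5 : A) : cc x0 x1 x2 x3 x5 x4 = - cc x0 x1 x2 x3 x4 x5 := by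
  unfold cc
  rw [h.f34 x1 x2 x3 x4 x5, h.f34 x0 x2 x3 x4 x5, h.f34 x0 x1 x3 x4 x5, h.f34 x0 x1 x2 x4 x5]
  abel

end FSk

end Pool.Agent.MalP.P5
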