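import Pool.Agent.MalP.P5.SMod
import Pool.Agent.MalP.P5.Lin
import Pool.Agent.MalP.P5.CertS0
import Pool.Agent.MalP.P5.Certz0
import Pool.Agent.MalP.P5.CertW1x
import Pool.Agent.MalP.P5.CertW2x
import Pool.Agent.MalP.P5.CertW3x
import Pool.Agent.MalP.P5.CertW4x

/-! # Characteristic 5: the identities in degrees 6 and 7 -/

set_option autoImplicit false

namespace Pool.Agent.MalP.P5

universe u v

open Finset Equiv

variable (F : Type u) [Field F] [C23 F] {A : Type v} [NonUnitalNonAssocRing A] [Module F A]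

include F in
theorem fv_S0 (h : IsMalcev A) (x0 x1 x2 a v : A) : fv x0 x1 x2 a a v = 0 := by
  have key := super_mod (hsm := by decide +kernel) idsM_ml 3 par1 (clsL [0, 0, 0, 1, 2, 2]) S0Ex (by decide +kernel)
    (by decide +kernel) (by decide) (by decide +kernel) cert_S0Ex (h.algM 1 F)
    (wv v a 0 0) (ι := Empty) (fun a => a.elim) (fun a => a.elim) (fun a => a.elim) 1
    (fun y => fv (y 0) (y 1) (y 2) a a v)
    (fun y => by
      rw [one_smul]
      exact (add_zero _).symm)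
    (by decide)
    (fun i j hij _ y => by
      fin_cases i <;> fin_cases j <;> first | (exfalso; revert hij; decide) | skip
      · show fv (y 1) (y 0) (y 2) a a v = - fv (y 0) (y 1) (y 2) a a v
        unfold fv
        rw [h.P12 (y 0), h.P12 (y 0), neg_mul]
        abel
      · show fv (y 0) (y 2) (y 1) a a v = - fv (y 0) (y 1) (y 2) a a v
        unfold fv
        rw [h.P23 (y 0) (y 1), h.P23 (y 0) (y 1), neg_mul]
        abel) ![x0, x1, x2]
  exact key

include F in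
theorem fsk (h : IsMalcev A) : FSk A := FSk.of0 h (fv_S0 F h)

/-- Malcev algebras with `5 = 0` -/
structure IsM5 (A : Type v) [NonUnitalNonAssocRing A] : Prop extends IsMalcev A where
  five : ∀ x : A, (5 : ℤ) • x = 0

include F in
theorem IsM5.algM5 (h : IsM5 A) : Alg 1 idsM5 A where
  tf := tf_of_field F
  ids := by
    intro e he y
    have h1 := (h.toIsMalcev.algM 1 F).ids e
    simp only [idsM5, List.mem_cons, List.not_mem_nil, or_false] at he
    rcases he with rfl | rfl | rfl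
    · exact h1 (by simp [idsM]) y
    · exact h1 (by simp [idsM]) y
    · have h2 := h.five (y 0 * y 1)
      show (5 : ℕ) • (y 0 * y 1) = 0
      rw [← h2]
      exact (natCast_zsmul _ 5).symm

variable (h : IsM5 A)

include F h

theorem c_z0 (x0 x1 x2 x3 x4 b : A) : cc x0 x1 x2 x3 x4 b * b = 0 := by
  have hs := fsk F h.toIsMalcev
  have key := super_mod (hsm := by decide +kernel) idsM5_ml 4 par1 (clsL [0, 0, 0, 0, 1, 2, 2]) z0Ex (by decide +kernel)
    (by decide +kernel) (by decide) (by decide +kernel) cert_z0Ex (h.algM5 F)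
    (wv x4 b 0 0) (ι := Empty) (fun a => a.elim) (fun a => a.elim) (fun a => a.elim) 1
    (fun y => cc (y 0) (y 1) (y 2) (y 3) x4 b * b)
    (fun y => by
      rw [one_smul]
      exact (add_zero _).symm)
    (by decide)
    (fun i j hij _ y => by
      fin_cases i <;> fin_cases j <;> first | (exfalso; revert hij; decide) | skip
      · show cc (y 1) (y 0) (y 2) (y 3) x4 b * b = - (cc (y 0) (y 1) (y 2) (y 3) x4 b * b)
        rw [hs.c01 (y 0), neg_mul]
      · show cc (y 0) (y 2) (y 1) (y 3) x4 b * b = - (cc (y 0) (y 1) (y 2) (y 3) x4 b * b)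
        rw [hs.c12 (y 0) (y 1), neg_mul]
      · show cc (y 0) (y 1) (y 3) (y 2) x4 b * b = - (cc (y 0) (y 1) (y 2) (y 3) x4 b * b)
        rw [hs.c23 (y 0) (y 1) (y 2), neg_mul]) ![x0, x1, x2, x3]
  exact key

/-- (W3) -/
theorem W3 (y0 y1 y2 a x : A) : fv y0 y1 y2 a x a * x = - cc (a * x) y0 y1 y2 a x := by
  have hs := fsk F h.toIsMalcev
  have key := super_mod (hsm := by decide +kernel) idsM5_ml 3 par1 (clsL [0, 0, 0, 1, 1, 2, 2]) W3xEx (by decide +kernel)
    (by decide +kernel) (by decide) (by decide +kernel) cert_W3xEx (h.algM5 F)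
    (wv a x 0 0) (ι := Empty) (fun a => a.elim) (fun a => a.elim) (fun a => a.elim) 1
    (fun y => fv (y 0) (y 1) (y 2) a x a * x + cc (a * x) (y 0) (y 1) (y 2) a x)
    (fun y => by
      rw [one_smul]
      exact (add_zero _).symm)
    (by decide)
    (fun i j hij _ y => by
      fin_cases i <;> fin_cases j <;> first | (exfalso; revert hij; decide) | skip
      · show fv (y 1) (y 0) (y 2) a x a * x + cc (a * x) (y 1) (y 0) (y 2) a x =
          - (fv (y 0) (y 1) (y 2) a x a * x + cc (a * x) (y 0) (y 1) (y 2) a x)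
        rw [hs.f01 (y 0), hs.c12 (a * x) (y 0), neg_mul]
        abel
      · show fv (y 0) (y 2) (y 1) a x a * x + cc (a * x) (y 0) (y 2) (y 1) a x =
          - (fv (y 0) (y 1) (y 2) a x a * x + cc (a * x) (y 0) (y 1) (y 2) a x)
        rw [hs.f12 (y 0) (y 1), hs.c23 (a * x) (y 0) (y 1), neg_mul]
        abel) ![y0, y1, y2]
  exact eq_neg_of_add_eq_zero_left key

/-- (W4) -/
theorem W4 (u v y0 y1 y2 y : A) :
    (2 : ℤ) • (fv u v y0 y1 y2 y * v) - (2 : ℤ) • fv (u * v) v y0 y1 y2 y +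
      cc (v * y) u v y0 y1 y2 = 0 := by
  have hs := fsk F h.toIsMalcev
  have key := super_mod (hsm := by decide +kernel) idsM5_ml 3 par1 (clsL [0, 0, 0, 1, 2, 3, 3]) W4xEx (by decide +kernel)
    (by decide +kernel) (by decide) (by decide +kernel) cert_W4xEx (h.algM5 F)
    (wv y u v 0) (ι := Empty) (fun a => a.elim) (fun a => a.elim) (fun a => a.elim) 1
    (fun z => (2 : ℤ) • (fv u v (z 0) (z 1) (z 2) y * v) - (2 : ℤ) • fv (u * v) v (z 0) (z 1) (z 2) y +
      cc (v * y) u v (z 0) (z 1) (z 2))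
    (fun z => by
      rw [one_smul, ofNat_zsmul, ofNat_zsmul]
      exact (add_zero _).symm)
    (by decide)
    (fun i j hij _ z => by
      fin_cases i <;> fin_cases j <;> first | (exfalso; revert hij; decide) | skip
      · show (2 : ℤ) • (fv u v (z 1) (z 0) (z 2) y * v) - (2 : ℤ) • fv (u * v) v (z 1) (z 0) (z 2) y +
          cc (v * y) u v (z 1) (z 0) (z 2) = - ((2 : ℤ) • (fv u v (z 0) (z 1) (z 2) y * v) -
          (2 : ℤ) • fv (u * v) v (z 0) (z 1) (z 2) y + cc (v * y) u v (z 0) (z 1) (z 2))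
        rw [hs.f23 u v (z 0), hs.f23 (u * v) v (z 0), hs.c34 (v * y) u v (z 0), neg_mul]
        module
      · show (2 : ℤ) • (fv u v (z 0) (z 2) (z 1) y * v) - (2 : ℤ) • fv (u * v) v (z 0) (z 2) (z 1) y +
          cc (v * y) u v (z 0) (z 2) (z 1) = - ((2 : ℤ) • (fv u v (z 0) (z 1) (z 2) y * v) -
          (2 : ℤ) • fv (u * v) v (z 0) (z 1) (z 2) y + cc (v * y) u v (z 0) (z 1) (z 2))
        rw [hs.f34 u v (z 0) (z 1), hs.f34 (u * v) v (z 0) (z 1), hs.c45 (v * y) u v (z 0) (z 1),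
          neg_mul]
        module) ![y0, y1, y2]
  exact key

theorem c_z0' (x0 x1 x2 x3 x4 a b : A) :
    cc x0 x1 x2 x3 x4 a * b = - (cc x0 x1 x2 x3 x4 b * a) := by
  have h1 := c_z0 F h x0 x1 x2 x3 x4 (a + b)
  rw [cc_add5, add_mul, mul_add, mul_add, c_z0 F h, c_z0 F h, zero_add, add_zero] at h1
  exact eq_neg_of_add_eq_zero_left h1

/-- (W1) -/
theorem W1 (x0 x1 x2 x3 x4 u v : A) :
    (2 : ℤ) • fv x0 x1 x2 x3 x4 (u * v) = cc (u * v) x0 x1 x2 x3 x4 - cc x0 x1 x2 x3 x4 u * v := by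
  have hs := fsk F h.toIsMalcev
  have key := super_mod (hsm := by decide +kernel) idsM5_ml 6 par2 (clsL [0, 0, 0, 0, 1, 1, 2]) W1xEx (by decide +kernel)
    (by decide +kernel) (by decide) (by decide +kernel) cert_W1xEx (h.algM5 F)
    (wv 0 x4 0 0) (ι := Empty) (fun a => a.elim) (fun a => a.elim) (fun a => a.elim) 1
    (fun z => (2 : ℤ) • fv (z 0) (z 1) (z 2) (z 3) x4 (z 4 * z 5) -
      cc (z 4 * z 5) (z 0) (z 1) (z 2) (z 3) x4 + cc (z 0) (z 1) (z 2) (z 3) x4 (z 4) * z 5)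
    (fun z => by
      rw [one_smul, ofNat_zsmul]
      exact (add_zero _).symm)
    (by decide)
    (fun i j hij _ z => by
      fin_cases i <;> fin_cases j <;> first | (exfalso; revert hij; decide) | skip
      · show (2 : ℤ) • fv (z 1) (z 0) (z 2) (z 3) x4 (z 4 * z 5) -
          cc (z 4 * z 5) (z 1) (z 0) (z 2) (z 3) x4 + cc (z 1) (z 0) (z 2) (z 3) x4 (z 4) * z 5 =
          - ((2 : ℤ) • fv (z 0) (z 1) (z 2) (z 3) x4 (z 4 * z 5) -
          cc (z 4 * z 5) (z 0) (z 1) (z 2) (z 3) x4 + cc (z 0) (z 1) (z 2) (z 3) x4 (z 4) * z 5)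
        rw [hs.f01 (z 0) (z 1), hs.c12 (z 4 * z 5) (z 0) (z 1), hs.c01 (z 0) (z 1), neg_mul]
        module
      · show (2 : ℤ) • fv (z 0) (z 2) (z 1) (z 3) x4 (z 4 * z 5) -
          cc (z 4 * z 5) (z 0) (z 2) (z 1) (z 3) x4 + cc (z 0) (z 2) (z 1) (z 3) x4 (z 4) * z 5 =
          - ((2 : ℤ) • fv (z 0) (z 1) (z 2) (z 3) x4 (z 4 * z 5) -
          cc (z 4 * z 5) (z 0) (z 1) (z 2) (z 3) x4 + cc (z 0) (z 1) (z 2) (z 3) x4 (z 4) * z 5)
        rw [hs.f12 (z 0) (z 1), hs.c23 (z 4 * z 5) (z 0) (z 1), hs.c12 (z 0) (z 1), neg_mul]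
        module
      · show (2 : ℤ) • fv (z 0) (z 1) (z 3) (z 2) x4 (z 4 * z 5) -
          cc (z 4 * z 5) (z 0) (z 1) (z 3) (z 2) x4 + cc (z 0) (z 1) (z 3) (z 2) x4 (z 4) * z 5 =
          - ((2 : ℤ) • fv (z 0) (z 1) (z 2) (z 3) x4 (z 4 * z 5) -
          cc (z 4 * z 5) (z 0) (z 1) (z 2) (z 3) x4 + cc (z 0) (z 1) (z 2) (z 3) x4 (z 4) * z 5)
        rw [hs.f23 (z 0) (z 1) (z 2), hs.c34 (z 4 * z 5) (z 0) (z 1) (z 2),
          hs.c23 (z 0) (z 1) (z 2), neg_mul]
        module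
      · revert ‹clsL [0, 0, 0, 0, 1, 1, 2] _ = clsL [0, 0, 0, 0, 1, 1, 2] _›
        intro hc
        exact absurd hc (by decide)
      · show (2 : ℤ) • fv (z 0) (z 1) (z 2) (z 3) x4 (z 5 * z 4) -
          cc (z 5 * z 4) (z 0) (z 1) (z 2) (z 3) x4 + cc (z 0) (z 1) (z 2) (z 3) x4 (z 5) * z 4 =
          - ((2 : ℤ) • fv (z 0) (z 1) (z 2) (z 3) x4 (z 4 * z 5) -
          cc (z 4 * z 5) (z 0) (z 1) (z 2) (z 3) x4 + cc (z 0) (z 1) (z 2) (z 3) x4 (z 4) * z 5)
        rw [h.toIsMalcev.ac (z 5) (z 4), fv_neg5, cc_neg0, c_z0' F h _ _ _ _ _ (z 5) (z 4)]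
        module) ![x0, x1, x2, x3, u, v]
  have k2 : (2 : ℤ) • fv x0 x1 x2 x3 x4 (u * v) - cc (u * v) x0 x1 x2 x3 x4 +
    cc x0 x1 x2 x3 x4 u * v = 0 := key
  rw [← sub_eq_zero, ← k2]
  abel

end Pool.Agent.MalP.P5
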