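import Pool.Agent.MalP.Two

/-! # A variant of `super_skew2` -/

set_option autoImplicit false

namespace Pool.Agent.MalP

universe u v

open Finset Equiv

/-- swaps of neighbours suffice -/
theorem skew_adj {k : ℕ} {A : Type u} [AddCommGroup A] (cls : ℕ → ℕ)
    (hmono : ∀ i j : Fin k, i ≤ j → cls i ≤ cls j) (f : (Fin k → A) → A)
    (hadj : ∀ i j : Fin k, (i : ℕ) + 1 = j → cls i = cls j → ∀ y : Fin k → A,
      f (y ∘ swap i j) = - f y) :
    ∀ i j : Fin k, i ≠ j → cls i = cls j → ∀ y : Fin k → A, f (y ∘ swap i j) = - f y := by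
  have key : ∀ (n : ℕ) (i j : Fin k), (i : ℕ) + (n + 1) = j → cls i = cls j →
      ∀ y : Fin k → A, f (y ∘ swap i j) = - f y := by
    intro n
    induction n with
    | zero => exact fun i j h => hadj i j h
    | succ n ih =>
      intro i j h hc y
      have hj : (j : ℕ) < k := j.2
      obtain ⟨m, hm⟩ : ∃ m : Fin k, (m : ℕ) + 1 = j := ⟨⟨(j : ℕ) - 1, by omega⟩, by
        show (j : ℕ) - 1 + 1 = j
        omega⟩
      have h1 : i ≤ m := Fin.le_def.2 (by omega)
      have h2 : m ≤ j := Fin.le_def.2 (by omega)
      have e1 := hmono i m h1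
      have e2 := hmono m j h2
      have e3 : cls i = cls m := le_antisymm e1 (hc ▸ e2)
      have e4 : cls m = cls j := e3.symm.trans hc
      have hij : i ≠ j := by
        intro e
        rw [e] at h
        omega
      have him : i ≠ m := by
        intro e
        rw [e] at h
        omega
      have hmj : m ≠ j := by
        intro e
        rw [e] at hm
        omega
      have e5 : y ∘ swap i j = ((y ∘ swap m j) ∘ swap i m) ∘ swap m j := by
        have e6 : swap i j = swap m j * swap i m * swap m j := by
          ext x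
          simp only [Perm.mul_apply]
          by_cases x1 : x = i
          · subst x1
            rw [swap_apply_left, swap_apply_of_ne_of_ne him hij, swap_apply_left,
              swap_apply_left]
          · by_cases x2 : x = j
            · subst x2
              rw [swap_apply_right, swap_apply_right, swap_apply_right,
                swap_apply_of_ne_of_ne him hij]
            · by_cases x3 : x = m
              · subst x3
                rw [swap_apply_of_ne_of_ne x1 x2, swap_apply_left,
                  swap_apply_of_ne_of_ne hij.symm hmj.symm, swap_apply_right]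
              · rw [swap_apply_of_ne_of_ne x1 x2, swap_apply_of_ne_of_ne x3 x2,
                  swap_apply_of_ne_of_ne x1 x3, swap_apply_of_ne_of_ne x3 x2]
        rw [e6]
        funext x
        simp only [Function.comp_apply, Perm.mul_apply]
      rw [e5, hadj m j hm e4, ih i m (by omega) e3, hadj m j hm e4, neg_neg]
  intro i j hij hc y
  rcases lt_or_gt_of_ne hij with h | h
  · have h1 := Fin.lt_def.1 h
    exact key ((j : ℕ) - i - 1) i j (by omega) hc y
  · have h1 := Fin.lt_def.1 h
    rw [swap_comm]
    exact key ((i : ℕ) - j - 1) j i (by omega) hc.symm y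

/-- an expression which is skew modulo terms killed by the alternation -/
theorem super_mod {M : ℕ} {ids : List PEx} (hids : ∀ e ∈ ids, e.ml = true) (k : ℕ) (par : ℕ → Bool)
    (cls : ℕ → ℕ) (e : PEx) (he : e.ml = true) (hk : ∀ i : Fin k, (i : ℕ) ∈ e.ls)
    (hodd : ∀ i : Fin k, par (cls i) = true)
    (heven : ∀ l ∈ e.ls, k ≤ l → par (cls l) = false)
    (C : Cert.{u} M ids par cls e)
    {A : Type u} [NonUnitalNonAssocRing A] (hA : Alg M ids A) (w : ℕ → A)
    {ι : Type*} [Fintype ι] (t : ι → Perm (Fin k)) (ht : ∀ a i, cls (t a i) = cls i)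
    (G : ι → (Fin k → A) → A) (n : ℤ) (f : (Fin k → A) → A)
    (hf : ∀ y, f y = n • e.ev (asg k cls y w) +
      ∑ a, ((Perm.sign (t a) : ℤ) • G a (y ∘ t a) - G a y))
    (hmono : ∀ i j : Fin k, i ≤ j → cls i ≤ cls j)
    (hadj : ∀ i j : Fin k, (i : ℕ) + 1 = j → cls i = cls j → ∀ y : Fin k → A,
      f (y ∘ swap i j) = - f y) (y : Fin k → A) (hsm : ClsOk M k cls) :
    f y = 0 := by
  have hskew := skew_adj cls hmono f hadj
  set H : Finset (Perm (Fin k)) := univ.filter (fun σ : Perm (Fin k) => ∀ i, cls (σ i) = cls i)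
    with hH
  have h1 := super_sound hids k par cls e he hk hodd heven C hA y w
  have h2 : ∑ σ ∈ H, (Perm.sign σ : ℤ) • f (y ∘ σ) = H.card • f y := by
    rw [← sum_const]
    refine sum_congr rfl fun σ hσ => ?_
    rw [hH, mem_filter] at hσ
    rw [skew_cls cls f hskew _ σ rfl hσ.2 y, smul_smul, ← Units.val_mul, Int.units_mul_self,
      Units.val_one, one_smul]
  have h3 : ∑ σ ∈ H, (Perm.sign σ : ℤ) • f (y ∘ σ) = 0 := by
    simp_rw [hf, smul_add, smul_sum, smul_sub]
    rw [sum_add_distrib, sum_comm]
    have e1 : ∑ σ ∈ H, (Perm.sign σ : ℤ) • n • e.ev (asg k cls (y ∘ σ) w) = 0 := by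
      simp_rw [smul_comm _ n]
      rw [← smul_sum, h1, smul_zero]
    rw [e1, zero_add]
    refine sum_eq_zero fun a _ => ?_
    rw [sum_sub_distrib, sub_eq_zero]
    refine sum_bij (fun σ _ => σ * t a) ?_ ?_ ?_ ?_
    · intro σ hσ
      rw [hH, mem_filter] at hσ
      rw [hH, mem_filter]
      refine ⟨mem_univ _, fun i => ?_⟩
      rw [Perm.mul_apply, hσ.2, ht]
    · intro σ _ σ' _ h
      exact mul_right_cancel h
    · intro σ hσ
      rw [hH, mem_filter] at hσ
      refine ⟨σ * (t a)⁻¹, ?_, by simp⟩
      rw [hH, mem_filter]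
      refine ⟨mem_univ _, fun i => ?_⟩
      rw [Perm.mul_apply, hσ.2]
      have := ht a ((t a)⁻¹ i)
      rw [← this]
      simp
    · intro σ _
      rw [smul_smul, ← Units.val_mul, ← Perm.sign_mul]
      rfl
  rw [h2] at h3
  exact hA.tf (H.card : ℤ) _ (smooth_cls hsm) (by rw [natCast_zsmul]; exact h3)

end Pool.Agent.MalP
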