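import Pool.Agent.MalP.PSkew
import Pool.Agent.MalP.P5.Fv
import Pool.Agent.MalP.Z5.CB

/-! # Characteristic 5: consequences of the identities of degree 7 and 8 -/

set_option autoImplicit false

namespace Pool.Agent.MalP

open PSkewAux

set_option linter.unusedSimpArgs false
set_option linter.unusedTactic false
set_option linter.unreachableTactic false
set_option linter.unnecessarySeqFocus false
set_option linter.unusedSectionVars false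

universe v

section

variable (A : Type v) [NonUnitalNonAssocRing A]

/-- Malcev algebras in characteristic 5 with the identities of degree 7 and 8 (`s0`, `W1`, ..., `zP` and
`E`) -/
structure IsC5 : Prop extends IsMalcev A where
  five : ∀ v : A, (5 : ℤ) • v = 0
  s0 : ∀ x0 x1 x2 x3 x4 v : A, fv x0 x1 x2 x4 x3 v = - fv x0 x1 x2 x3 x4 v
  W1 : ∀ x0 x1 x2 x3 x4 u v : A, (2 : ℤ) • fv x0 x1 x2 x3 x4 (u * v) =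
    cc (u * v) x0 x1 x2 x3 x4 - cc x0 x1 x2 x3 x4 u * v
  W2 : ∀ u v y0 y1 y2 a : A, fv (u * v) y0 y1 y2 a a =
    (-2 : ℤ) • (cc (a * u) v y0 y1 y2 a - cc (a * v) u y0 y1 y2 a) -
      (cc (a * y0) y1 y2 u v a - cc (a * y1) y0 y2 u v a + cc (a * y2) y0 y1 u v a)
  W3 : ∀ y0 y1 y2 a x : A, fv y0 y1 y2 a x a * x = - cc (a * x) y0 y1 y2 a x
  W4 : ∀ u v y0 y1 y2 y : A, fv (u * v) v y0 y1 y2 y =
    fv u v y0 y1 y2 y * v + (3 : ℤ) • cc (v * y) u v y0 y1 y2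
  z0 : ∀ x0 x1 x2 x3 x4 b : A, cc x0 x1 x2 x3 x4 b * b = 0
  zP : ∀ x0 x1 x2 x3 x4 x5 x6 : A,
    cc x0 x1 x2 x3 x4 x5 * x6 +
    cc (x0 * x1) x2 x3 x4 x5 x6 - cc (x0 * x2) x1 x3 x4 x5 x6 + cc (x0 * x3) x1 x2 x4 x5 x6 -
      cc (x0 * x4) x1 x2 x3 x5 x6 + cc (x0 * x5) x1 x2 x3 x4 x6 - cc (x0 * x6) x1 x2 x3 x4 x5 +
      cc (x1 * x2) x0 x3 x4 x5 x6 - cc (x1 * x3) x0 x2 x4 x5 x6 + cc (x1 * x4) x0 x2 x3 x5 x6 -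
      cc (x1 * x5) x0 x2 x3 x4 x6 + cc (x1 * x6) x0 x2 x3 x4 x5 + cc (x2 * x3) x0 x1 x4 x5 x6 -
      cc (x2 * x4) x0 x1 x3 x5 x6 + cc (x2 * x5) x0 x1 x3 x4 x6 - cc (x2 * x6) x0 x1 x3 x4 x5 +
      cc (x3 * x4) x0 x1 x2 x5 x6 - cc (x3 * x5) x0 x1 x2 x4 x6 + cc (x3 * x6) x0 x1 x2 x4 x5 +
      cc (x4 * x5) x0 x1 x2 x3 x6 - cc (x4 * x6) x0 x1 x2 x3 x5 + cc (x5 * x6) x0 x1 x2 x3 x4 = 0
  E : ∀ x0 x1 x2 x3 x4 x5 a b : A, cc x0 x1 x2 x3 x4 x5 * (a * b) = 0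

variable {A}

/-! ## Additivity -/

theorem P108_add_a (a a' b c d x : A) : P108 (a + a') b c d x = P108 a b c d x + P108 a' b c d x := by
  unfold P108
  simp only [Jac_add1, Jac_add2, Jac_add3, add_mul, mul_add, smul_add, smul_sub]
  abel

theorem P108_add_x (a b c d x x' : A) : P108 a b c d (x + x') = P108 a b c d x + P108 a b c d x' := by
  unfold P108
  simp only [Jac_add1, Jac_add2, Jac_add3, add_mul, mul_add, smul_add, smul_sub]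
  abel

theorem fv_add_a (a a' x1 x2 x3 x4 v : A) :
    fv (a + a') x1 x2 x3 x4 v = fv a x1 x2 x3 x4 v + fv a' x1 x2 x3 x4 v := by
  unfold fv
  rw [P108_add_a, P108_add_a, add_mul]
  abel

theorem fv_add_v (x0 x1 x2 x3 x4 v v' : A) :
    fv x0 x1 x2 x3 x4 (v + v') = fv x0 x1 x2 x3 x4 v + fv x0 x1 x2 x3 x4 v' := by
  unfold fv
  rw [add_mul, P108_add_x, P108_add_x, add_mul]
  abel

theorem cc_add_a (a a' x1 x2 x3 x4 x5 : A) :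
    cc (a + a') x1 x2 x3 x4 x5 = cc a x1 x2 x3 x4 x5 + cc a' x1 x2 x3 x4 x5 := by
  unfold cc
  rw [fv_add_v, fv_add_a, fv_add_a, fv_add_a, fv_add_a, fv_add_a]
  abel

namespace IsC5

variable (h : IsC5 A)

include h

/-! ## Skewness -/

theorem f01 (x0 x1 x2 x3 x4 v : A) : fv x1 x0 x2 x3 x4 v = - fv x0 x1 x2 x3 x4 v := by
  unfold fv
  rw [h.toIsMalcev.P12, h.toIsMalcev.P12 x0 x1 x2 x3 v, neg_mul]
  abel

theorem f12 (x0 x1 x2 x3 x4 v : A) : fv x0 x2 x1 x3 x4 v = - fv x0 x1 x2 x3 x4 v := by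
  unfold fv
  rw [h.toIsMalcev.P23, h.toIsMalcev.P23 x0 x1 x2 x3 v, neg_mul]
  abel

theorem f23 (x0 x1 x2 x3 x4 v : A) : fv x0 x1 x3 x2 x4 v = - fv x0 x1 x2 x3 x4 v := by
  unfold fv
  rw [h.toIsMalcev.P34, h.toIsMalcev.P34 x0 x1 x2 x3 v, neg_mul]
  abel

theorem s01 (x0 x1 x2 x3 x4 x5 : A) : cc x0 x1 x2 x3 x4 x5 = - cc x1 x0 x2 x3 x4 x5 := by
  unfold cc
  rw [h.f01 x0 x1 x3 x4 x5 x2, h.f01 x0 x1 x2 x4 x5 x3, h.f01 x0 x1 x2 x3 x5 x4,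
    h.f01 x0 x1 x2 x3 x4 x5]
  abel

theorem s12 (x0 x1 x2 x3 x4 x5 : A) : cc x0 x1 x2 x3 x4 x5 = - cc x0 x2 x1 x3 x4 x5 := by
  unfold cc
  rw [h.f01 x1 x2 x3 x4 x5 x0, h.f12 x0 x1 x2 x4 x5 x3, h.f12 x0 x1 x2 x3 x5 x4,
    h.f12 x0 x1 x2 x3 x4 x5]
  abel

theorem s23 (x0 x1 x2 x3 x4 x5 : A) : cc x0 x1 x2 x3 x4 x5 = - cc x0 x1 x3 x2 x4 x5 := by
  unfold cc
  rw [h.f12 x1 x2 x3 x4 x5 x0, h.f12 x0 x2 x3 x4 x5 x1, h.f23 x0 x1 x2 x3 x5 x4,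
    h.f23 x0 x1 x2 x3 x4 x5]
  abel

theorem s34 (x0 x1 x2 x3 x4 x5 : A) : cc x0 x1 x2 x3 x4 x5 = - cc x0 x1 x2 x4 x3 x5 := by
  unfold cc
  rw [h.f23 x1 x2 x3 x4 x5 x0, h.f23 x0 x2 x3 x4 x5 x1, h.f23 x0 x1 x3 x4 x5 x2,
    h.s0 x0 x1 x2 x3 x4 x5]
  abel

theorem s45 (x0 x1 x2 x3 x4 x5 : A) : cc x0 x1 x2 x3 x4 x5 = - cc x0 x1 x2 x3 x5 x4 := by
  unfold cc
  rw [h.s0 x1 x2 x3 x4 x5 x0, h.s0 x0 x2 x3 x4 x5 x1, h.s0 x0 x1 x3 x4 x5 x2, h.s0 x0 x1 x2 x4 x5 x3]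
  abel

theorem cyc (x0 x1 x2 x3 x4 x5 : A) : cc x0 x1 x2 x3 x4 x5 = - cc x1 x2 x3 x4 x5 x0 := by
  rw [h.s01 x0, h.s12 x1 x0, h.s23 x1 x2 x0, h.s34 x1 x2 x3 x0, h.s45 x1 x2 x3 x4 x0]
  simp only [neg_neg]

theorem n0 (x0 x1 x2 x3 x4 x5 : A) : cc (-x0) x1 x2 x3 x4 x5 = - cc x0 x1 x2 x3 x4 x5 := by
  have h0 : cc 0 x1 x2 x3 x4 x5 = 0 := by
    have := cc_add_a 0 0 x1 x2 x3 x4 x5
    rw [add_zero] at this
    exact left_eq_add.mp this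
  have h1 := cc_add_a x0 (-x0) x1 x2 x3 x4 x5
  rw [add_neg_cancel, h0] at h1
  exact (neg_eq_of_add_eq_zero_right h1.symm).symm

theorem n1 (x0 x1 x2 x3 x4 x5 : A) : cc x0 (-x1) x2 x3 x4 x5 = - cc x0 x1 x2 x3 x4 x5 := by
  rw [h.s01 x0 (-x1), h.n0, h.s01 x0 x1]

theorem n2 (x0 x1 x2 x3 x4 x5 : A) : cc x0 x1 (-x2) x3 x4 x5 = - cc x0 x1 x2 x3 x4 x5 := by
  rw [h.s12 x0 x1 (-x2), h.n1, h.s12 x0 x1 x2]

theorem n3 (x0 x1 x2 x3 x4 x5 : A) : cc x0 x1 x2 (-x3) x4 x5 = - cc x0 x1 x2 x3 x4 x5 := by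
  rw [h.s23 x0 x1 x2 (-x3), h.n2, h.s23 x0 x1 x2 x3]

theorem n4 (x0 x1 x2 x3 x4 x5 : A) : cc x0 x1 x2 x3 (-x4) x5 = - cc x0 x1 x2 x3 x4 x5 := by
  rw [h.s34 x0 x1 x2 x3 (-x4), h.n3, h.s34 x0 x1 x2 x3 x4]

theorem n5 (x0 x1 x2 x3 x4 x5 : A) : cc x0 x1 x2 x3 x4 (-x5) = - cc x0 x1 x2 x3 x4 x5 := by
  rw [h.s45 x0 x1 x2 x3 x4 (-x5), h.n4, h.s45 x0 x1 x2 x3 x4 x5]

theorem a1 (x0 x1 y x2 x3 x4 x5 : A) :
    cc x0 (x1 + y) x2 x3 x4 x5 = cc x0 x1 x2 x3 x4 x5 + cc x0 y x2 x3 x4 x5 := by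
  rw [h.s01 x0 (x1 + y), cc_add_a, h.s01 x0 x1, h.s01 x0 y, neg_add]

theorem a2 (x0 x1 x2 y x3 x4 x5 : A) :
    cc x0 x1 (x2 + y) x3 x4 x5 = cc x0 x1 x2 x3 x4 x5 + cc x0 x1 y x3 x4 x5 := by
  rw [h.s12 x0 x1 (x2 + y), h.a1, h.s12 x0 x1 x2, h.s12 x0 x1 y, neg_add]

theorem a3 (x0 x1 x2 x3 y x4 x5 : A) :
    cc x0 x1 x2 (x3 + y) x4 x5 = cc x0 x1 x2 x3 x4 x5 + cc x0 x1 x2 y x4 x5 := by
  rw [h.s23 x0 x1 x2 (x3 + y), h.a2, h.s23 x0 x1 x2 x3, h.s23 x0 x1 x2 y, neg_add]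

theorem a5 (x0 x1 x2 x3 x4 x5 y : A) :
    cc x0 x1 x2 x3 x4 (x5 + y) = cc x0 x1 x2 x3 x4 x5 + cc x0 x1 x2 x3 x4 y := by
  have e1 := h.cyc (x5 + y) x0 x1 x2 x3 x4
  have e2 := h.cyc x5 x0 x1 x2 x3 x4
  have e3 := h.cyc y x0 x1 x2 x3 x4
  rw [cc_add_a, e2, e3] at e1
  linear_combination (norm := abel) (1 : ℤ) • e1

theorem two (v : A) (hv : 2 • v = 0) : v = 0 := by
  have h1 := h.five v
  have h2 : (5 : ℤ) • v = 2 • v + 2 • v + v := by abel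
  rw [h1, hv, add_zero, zero_add] at h2
  exact h2.symm

/-! ## Products -/

theorem z0' (x0 x1 x2 x3 x4 b b' : A) :
    cc x0 x1 x2 x3 x4 b * b' + cc x0 x1 x2 x3 x4 b' * b = 0 := by
  have h1 := h.z0 x0 x1 x2 x3 x4 (b + b')
  rw [h.a5, add_mul, mul_add, mul_add, h.z0, h.z0, zero_add, add_zero] at h1
  exact h1

/-- (D) -/
theorem z1 (u v x1 x2 x3 x4 x5 b : A) : cc (u * v) x1 x2 x3 x4 x5 * b = 0 := by
  rw [h.cyc, neg_mul]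
  have h1 := h.z0' x1 x2 x3 x4 x5 (u * v) b
  rw [h.E, add_zero] at h1
  rw [h1, neg_zero]

theorem cR2 (x0 x1 x2 x3 x4 x5 a b : A) : cc x0 x1 x2 x3 x4 x5 * (a * b) = 0 := h.E _ _ _ _ _ _ _ _

/-- (F) -/
theorem cRR (x0 x1 x2 x3 x4 x5 a b : A) : (cc x0 x1 x2 x3 x4 x5 * a) * b = 0 := by
  have h1 := congrArg (· * b) (h.zP x0 x1 x2 x3 x4 x5 a)
  simp only [add_mul, sub_mul, h.z1, zero_mul, add_zero, sub_zero] at h1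
  exact h1

/-- (zA) -/
theorem zA (u v x y a b : A) : cc (u * v) (x * y) x y a b = 0 := by
  have h1 := h.W3 (u * v) a b x y
  have h2 : fv (u * v) a b x y x * y = 0 := by
    have h3 := h.s0 (u * v) a b y x x
    rw [h3, h.W2]
    simp only [neg_mul, sub_mul, add_mul, smul_mul_assoc, h.z1, smul_zero, sub_zero, add_zero, neg_zero]
  rw [h2] at h1
  have h4 : cc (x * y) (u * v) a b x y = - cc (u * v) (x * y) x y a b := by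
    rw [h.s01 (x * y), h.s23 (u * v) (x * y) a b x y, h.s34 (u * v) (x * y) b a x y,
      h.s23 (u * v) (x * y) b x a y, h.s45 (u * v) (x * y) x b a y, h.s34 (u * v) (x * y) x b y a,
      h.s45 (u * v) (x * y) x y b a]
    simp only [neg_neg]
  rw [h4, neg_neg] at h1
  exact h1.symm

theorem zA1 (u v x x' y a b : A) :
    cc (u * v) (x * y) x' y a b + cc (u * v) (x' * y) x y a b = 0 := by
  have h1 := h.zA u v (x + x') y a b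
  rw [add_mul, h.a1, h.a2, h.a2, h.zA, h.zA, zero_add, add_zero] at h1
  exact h1

theorem zA2 (u v x y x' y' a b : A) :
    cc (u * v) (x * y) x' y' a b + cc (u * v) (x * y') x' y a b + cc (u * v) (x' * y) x y' a b +
      cc (u * v) (x' * y') x y a b = 0 := by
  have h1 := h.zA1 u v x x' (y + y') a b
  have h2 := h.zA1 u v x x' y a b
  have h3 := h.zA1 u v x x' y' a b
  rw [mul_add, mul_add, h.a1, h.a1, h.a3, h.a3, h.a3, h.a3] at h1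
  linear_combination (norm := abel) (1:ℤ) • h1 + (-1:ℤ) • h2 + (-1:ℤ) • h3

/-- (zC') -/
theorem zC' (p q u v y0 y1 y2 : A) :
    cc (v * (p * q)) u v y0 y1 y2 = cc (p * q) (u * v) v y0 y1 y2 := by
  have h1 := h.W4 u v y0 y1 y2 (p * q)
  have h2 := h.W1 (u * v) v y0 y1 y2 p q
  have h3 : fv u v y0 y1 y2 (p * q) * v = 0 := by
    have h4 := congrArg (· * v) (h.W1 u v y0 y1 y2 p q)
    simp only [smul_mul_assoc, sub_mul, h.z1, h.cRR, sub_zero] at h4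
    apply h.two
    rw [← h4]
    abel
  rw [h.z1, sub_zero] at h2
  rw [h3, zero_add] at h1
  rw [h1] at h2
  have h5 := h.five (cc (v * (p * q)) u v y0 y1 y2)
  linear_combination (norm := abel) (1:ℤ) • h2 + (-1:ℤ) • h5

theorem zC2 (u v y x0 x1 x2 x3 : A) :
    cc ((u * v) * y) x0 x1 x2 x3 y = cc (u * v) (x0 * y) y x1 x2 x3 := by
  have h1 := h.zC' u v x0 y x1 x2 x3
  rw [← h1, h.toIsMalcev.anti y (u * v), h.n0, h.s23 ((u * v) * y) x0 y, h.s34 ((u * v) * y) x0 x1 y,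
    h.s45 ((u * v) * y) x0 x1 x2 y]
  simp only [neg_neg]

theorem zP0 (u v x0 x1 x2 x3 x4 x5 : A) :
    cc ((u * v) * x0) x1 x2 x3 x4 x5 - cc ((u * v) * x1) x0 x2 x3 x4 x5 +
      cc ((u * v) * x2) x0 x1 x3 x4 x5 - cc ((u * v) * x3) x0 x1 x2 x4 x5 +
      cc ((u * v) * x4) x0 x1 x2 x3 x5 - cc ((u * v) * x5) x0 x1 x2 x3 x4 +
      cc (x0 * x1) (u * v) x2 x3 x4 x5 - cc (x0 * x2) (u * v) x1 x3 x4 x5 +
      cc (x0 * x3) (u * v) x1 x2 x4 x5 - cc (x0 * x4) (u * v) x1 x2 x3 x5 +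
      cc (x0 * x5) (u * v) x1 x2 x3 x4 + cc (x1 * x2) (u * v) x0 x3 x4 x5 -
      cc (x1 * x3) (u * v) x0 x2 x4 x5 + cc (x1 * x4) (u * v) x0 x2 x3 x5 -
      cc (x1 * x5) (u * v) x0 x2 x3 x4 + cc (x2 * x3) (u * v) x0 x1 x4 x5 -
      cc (x2 * x4) (u * v) x0 x1 x3 x5 + cc (x2 * x5) (u * v) x0 x1 x3 x4 +
      cc (x3 * x4) (u * v) x0 x1 x2 x5 - cc (x3 * x5) (u * v) x0 x1 x2 x4 +
      cc (x4 * x5) (u * v) x0 x1 x2 x3 = 0 := by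
  have h1 := h.zP (u * v) x0 x1 x2 x3 x4 x5
  rw [h.z1, zero_add] at h1
  exact h1

/-- (zS) -/
theorem zS (u v x0 x1 x2 x3 x4 x5 : A) :
    cc ((u * v) * x0) x1 x2 x3 x4 x5 - cc ((u * v) * x1) x0 x2 x3 x4 x5 +
      cc ((u * v) * x2) x0 x1 x3 x4 x5 - cc ((u * v) * x3) x0 x1 x2 x4 x5 +
      cc ((u * v) * x4) x0 x1 x2 x3 x5 - cc ((u * v) * x5) x0 x1 x2 x3 x4 = 0 := by
  have e0 := h.zA2 u v x0 x1 x2 x3 x4 x5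
  have e1 := h.zA2 u v x0 x1 x2 x4 x3 x5
  have e2 := h.zA2 u v x0 x1 x2 x5 x3 x4
  have e3 := h.zA2 u v x0 x1 x3 x2 x4 x5
  have e4 := h.zA2 u v x0 x1 x3 x4 x2 x5
  have e5 := h.zA2 u v x0 x1 x3 x5 x2 x4
  have e6 := h.zA2 u v x0 x1 x4 x2 x3 x5
  have e7 := h.zA2 u v x0 x1 x4 x5 x2 x3
  have e8 := h.zA2 u v x0 x1 x5 x2 x3 x4
  have e9 := h.zP0 u v x0 x1 x2 x3 x4 x5
  have f0 : cc (u * v) (x0 * x3) x2 x1 x4 x5 = - cc (u * v) (x0 * x3) x1 x2 x4 x5 := by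
    rw [h.s23 (u * v) (x0 * x3) x2 x1 x4 x5] <;> simp only [neg_neg]
  have f1 : cc (u * v) (x2 * x1) x0 x3 x4 x5 = - cc (u * v) (x1 * x2) x0 x3 x4 x5 := by
    simp only [h.anti x2 x1, h.n0, h.n1, h.n2, h.n3, h.n4, h.n5, neg_neg]
  have f2 : cc (u * v) (x0 * x1) x2 x4 x3 x5 = - cc (u * v) (x0 * x1) x2 x3 x4 x5 := by
    rw [h.s34 (u * v) (x0 * x1) x2 x4 x3 x5] <;> simp only [neg_neg]
  have f3 : cc (u * v) (x0 * x4) x2 x1 x3 x5 = - cc (u * v) (x0 * x4) x1 x2 x3 x5 := by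
    rw [h.s23 (u * v) (x0 * x4) x2 x1 x3 x5] <;> simp only [neg_neg]
  have f4 : cc (u * v) (x2 * x1) x0 x4 x3 x5 = cc (u * v) (x1 * x2) x0 x3 x4 x5 := by
    simp only [h.anti x2 x1, h.n0, h.n1, h.n2, h.n3, h.n4, h.n5, neg_neg]
    rw [h.s34 (u * v) (x1 * x2) x0 x4 x3 x5] <;> simp only [neg_neg]
  have f5 : cc (u * v) (x0 * x1) x2 x5 x3 x4 = cc (u * v) (x0 * x1) x2 x3 x4 x5 := by
    rw [h.s34 (u * v) (x0 * x1) x2 x5 x3 x4, h.s45 (u * v) (x0 * x1) x2 x3 x5 x4] <;> simp only [neg_neg]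
  have f6 : cc (u * v) (x0 * x5) x2 x1 x3 x4 = - cc (u * v) (x0 * x5) x1 x2 x3 x4 := by
    rw [h.s23 (u * v) (x0 * x5) x2 x1 x3 x4] <;> simp only [neg_neg]
  have f7 : cc (u * v) (x2 * x1) x0 x5 x3 x4 = - cc (u * v) (x1 * x2) x0 x3 x4 x5 := by
    simp only [h.anti x2 x1, h.n0, h.n1, h.n2, h.n3, h.n4, h.n5, neg_neg]
    rw [h.s34 (u * v) (x1 * x2) x0 x5 x3 x4, h.s45 (u * v) (x1 * x2) x0 x3 x5 x4] <;> simp only [neg_neg]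
  have f8 : cc (u * v) (x0 * x1) x3 x2 x4 x5 = - cc (u * v) (x0 * x1) x2 x3 x4 x5 := by
    rw [h.s23 (u * v) (x0 * x1) x3 x2 x4 x5] <;> simp only [neg_neg]
  have f9 : cc (u * v) (x0 * x2) x3 x1 x4 x5 = - cc (u * v) (x0 * x2) x1 x3 x4 x5 := by
    rw [h.s23 (u * v) (x0 * x2) x3 x1 x4 x5] <;> simp only [neg_neg]
  have f10 : cc (u * v) (x3 * x1) x0 x2 x4 x5 = - cc (u * v) (x1 * x3) x0 x2 x4 x5 := by
    simp only [h.anti x3 x1, h.n0, h.n1, h.n2, h.n3, h.n4, h.n5, neg_neg]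
  have f11 : cc (u * v) (x3 * x2) x0 x1 x4 x5 = - cc (u * v) (x2 * x3) x0 x1 x4 x5 := by
    simp only [h.anti x3 x2, h.n0, h.n1, h.n2, h.n3, h.n4, h.n5, neg_neg]
  have f12 : cc (u * v) (x0 * x1) x3 x4 x2 x5 = cc (u * v) (x0 * x1) x2 x3 x4 x5 := by
    rw [h.s34 (u * v) (x0 * x1) x3 x4 x2 x5, h.s23 (u * v) (x0 * x1) x3 x2 x4 x5] <;> simp only [neg_neg]
  have f13 : cc (u * v) (x0 * x4) x3 x1 x2 x5 = cc (u * v) (x0 * x4) x1 x2 x3 x5 := by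
    rw [h.s23 (u * v) (x0 * x4) x3 x1 x2 x5, h.s34 (u * v) (x0 * x4) x1 x3 x2 x5] <;> simp only [neg_neg]
  have f14 : cc (u * v) (x3 * x1) x0 x4 x2 x5 = cc (u * v) (x1 * x3) x0 x2 x4 x5 := by
    simp only [h.anti x3 x1, h.n0, h.n1, h.n2, h.n3, h.n4, h.n5, neg_neg]
    rw [h.s34 (u * v) (x1 * x3) x0 x4 x2 x5] <;> simp only [neg_neg]
  have f15 : cc (u * v) (x0 * x1) x3 x5 x2 x4 = - cc (u * v) (x0 * x1) x2 x3 x4 x5 := by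
    rw [h.s34 (u * v) (x0 * x1) x3 x5 x2 x4, h.s45 (u * v) (x0 * x1) x3 x2 x5 x4, h.s23 (u * v) (x0 * x1) x3 x2 x4 x5] <;> simp only [neg_neg]
  have f16 : cc (u * v) (x0 * x5) x3 x1 x2 x4 = cc (u * v) (x0 * x5) x1 x2 x3 x4 := by
    rw [h.s23 (u * v) (x0 * x5) x3 x1 x2 x4, h.s34 (u * v) (x0 * x5) x1 x3 x2 x4] <;> simp only [neg_neg]
  have f17 : cc (u * v) (x3 * x1) x0 x5 x2 x4 = - cc (u * v) (x1 * x3) x0 x2 x4 x5 := by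
    simp only [h.anti x3 x1, h.n0, h.n1, h.n2, h.n3, h.n4, h.n5, neg_neg]
    rw [h.s34 (u * v) (x1 * x3) x0 x5 x2 x4, h.s45 (u * v) (x1 * x3) x0 x2 x5 x4] <;> simp only [neg_neg]
  have f18 : cc (u * v) (x0 * x1) x4 x2 x3 x5 = cc (u * v) (x0 * x1) x2 x3 x4 x5 := by
    rw [h.s23 (u * v) (x0 * x1) x4 x2 x3 x5, h.s34 (u * v) (x0 * x1) x2 x4 x3 x5] <;> simp only [neg_neg]
  have f19 : cc (u * v) (x0 * x2) x4 x1 x3 x5 = cc (u * v) (x0 * x2) x1 x3 x4 x5 := by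
    rw [h.s23 (u * v) (x0 * x2) x4 x1 x3 x5, h.s34 (u * v) (x0 * x2) x1 x4 x3 x5] <;> simp only [neg_neg]
  have f20 : cc (u * v) (x4 * x1) x0 x2 x3 x5 = - cc (u * v) (x1 * x4) x0 x2 x3 x5 := by
    simp only [h.anti x4 x1, h.n0, h.n1, h.n2, h.n3, h.n4, h.n5, neg_neg]
  have f21 : cc (u * v) (x4 * x2) x0 x1 x3 x5 = - cc (u * v) (x2 * x4) x0 x1 x3 x5 := by
    simp only [h.anti x4 x2, h.n0, h.n1, h.n2, h.n3, h.n4, h.n5, neg_neg]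
  have f22 : cc (u * v) (x0 * x1) x4 x5 x2 x3 = cc (u * v) (x0 * x1) x2 x3 x4 x5 := by
    rw [h.s34 (u * v) (x0 * x1) x4 x5 x2 x3, h.s45 (u * v) (x0 * x1) x4 x2 x5 x3, h.s23 (u * v) (x0 * x1) x4 x2 x3 x5, h.s34 (u * v) (x0 * x1) x2 x4 x3 x5] <;> simp only [neg_neg]
  have f23 : cc (u * v) (x0 * x5) x4 x1 x2 x3 = - cc (u * v) (x0 * x5) x1 x2 x3 x4 := by
    rw [h.s23 (u * v) (x0 * x5) x4 x1 x2 x3, h.s34 (u * v) (x0 * x5) x1 x4 x2 x3, h.s45 (u * v) (x0 * x5) x1 x2 x4 x3] <;> simp only [neg_neg]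
  have f24 : cc (u * v) (x4 * x1) x0 x5 x2 x3 = - cc (u * v) (x1 * x4) x0 x2 x3 x5 := by
    simp only [h.anti x4 x1, h.n0, h.n1, h.n2, h.n3, h.n4, h.n5, neg_neg]
    rw [h.s34 (u * v) (x1 * x4) x0 x5 x2 x3, h.s45 (u * v) (x1 * x4) x0 x2 x5 x3] <;> simp only [neg_neg]
  have f25 : cc (u * v) (x0 * x1) x5 x2 x3 x4 = - cc (u * v) (x0 * x1) x2 x3 x4 x5 := by
    rw [h.s23 (u * v) (x0 * x1) x5 x2 x3 x4, h.s34 (u * v) (x0 * x1) x2 x5 x3 x4, h.s45 (u * v) (x0 * x1) x2 x3 x5 x4] <;> simp only [neg_neg]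
  have f26 : cc (u * v) (x0 * x2) x5 x1 x3 x4 = - cc (u * v) (x0 * x2) x1 x3 x4 x5 := by
    rw [h.s23 (u * v) (x0 * x2) x5 x1 x3 x4, h.s34 (u * v) (x0 * x2) x1 x5 x3 x4, h.s45 (u * v) (x0 * x2) x1 x3 x5 x4] <;> simp only [neg_neg]
  have f27 : cc (u * v) (x5 * x1) x0 x2 x3 x4 = - cc (u * v) (x1 * x5) x0 x2 x3 x4 := by
    simp only [h.anti x5 x1, h.n0, h.n1, h.n2, h.n3, h.n4, h.n5, neg_neg]
  have f28 : cc (u * v) (x5 * x2) x0 x1 x3 x4 = - cc (u * v) (x2 * x5) x0 x1 x3 x4 := by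
    simp only [h.anti x5 x2, h.n0, h.n1, h.n2, h.n3, h.n4, h.n5, neg_neg]
  have f29 : cc (x0 * x1) (u * v) x2 x3 x4 x5 = - cc (u * v) (x0 * x1) x2 x3 x4 x5 := by
    rw [h.s01 (x0 * x1) (u * v) x2 x3 x4 x5] <;> simp only [neg_neg]
  have f30 : cc (x0 * x2) (u * v) x1 x3 x4 x5 = - cc (u * v) (x0 * x2) x1 x3 x4 x5 := by
    rw [h.s01 (x0 * x2) (u * v) x1 x3 x4 x5] <;> simp only [neg_neg]
  have f31 : cc (x0 * x3) (u * v) x1 x2 x4 x5 = - cc (u * v) (x0 * x3) x1 x2 x4 x5 := by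
    rw [h.s01 (x0 * x3) (u * v) x1 x2 x4 x5] <;> simp only [neg_neg]
  have f32 : cc (x0 * x4) (u * v) x1 x2 x3 x5 = - cc (u * v) (x0 * x4) x1 x2 x3 x5 := by
    rw [h.s01 (x0 * x4) (u * v) x1 x2 x3 x5] <;> simp only [neg_neg]
  have f33 : cc (x0 * x5) (u * v) x1 x2 x3 x4 = - cc (u * v) (x0 * x5) x1 x2 x3 x4 := by
    rw [h.s01 (x0 * x5) (u * v) x1 x2 x3 x4] <;> simp only [neg_neg]
  have f34 : cc (x1 * x2) (u * v) x0 x3 x4 x5 = - cc (u * v) (x1 * x2) x0 x3 x4 x5 := by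
    rw [h.s01 (x1 * x2) (u * v) x0 x3 x4 x5] <;> simp only [neg_neg]
  have f35 : cc (x1 * x3) (u * v) x0 x2 x4 x5 = - cc (u * v) (x1 * x3) x0 x2 x4 x5 := by
    rw [h.s01 (x1 * x3) (u * v) x0 x2 x4 x5] <;> simp only [neg_neg]
  have f36 : cc (x1 * x4) (u * v) x0 x2 x3 x5 = - cc (u * v) (x1 * x4) x0 x2 x3 x5 := by
    rw [h.s01 (x1 * x4) (u * v) x0 x2 x3 x5] <;> simp only [neg_neg]
  have f37 : cc (x1 * x5) (u * v) x0 x2 x3 x4 = - cc (u * v) (x1 * x5) x0 x2 x3 x4 := by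
    rw [h.s01 (x1 * x5) (u * v) x0 x2 x3 x4] <;> simp only [neg_neg]
  have f38 : cc (x2 * x3) (u * v) x0 x1 x4 x5 = - cc (u * v) (x2 * x3) x0 x1 x4 x5 := by
    rw [h.s01 (x2 * x3) (u * v) x0 x1 x4 x5] <;> simp only [neg_neg]
  have f39 : cc (x2 * x4) (u * v) x0 x1 x3 x5 = - cc (u * v) (x2 * x4) x0 x1 x3 x5 := by
    rw [h.s01 (x2 * x4) (u * v) x0 x1 x3 x5] <;> simp only [neg_neg]
  have f40 : cc (x2 * x5) (u * v) x0 x1 x3 x4 = - cc (u * v) (x2 * x5) x0 x1 x3 x4 := by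
    rw [h.s01 (x2 * x5) (u * v) x0 x1 x3 x4] <;> simp only [neg_neg]
  have f41 : cc (x3 * x4) (u * v) x0 x1 x2 x5 = - cc (u * v) (x3 * x4) x0 x1 x2 x5 := by
    rw [h.s01 (x3 * x4) (u * v) x0 x1 x2 x5] <;> simp only [neg_neg]
  have f42 : cc (x3 * x5) (u * v) x0 x1 x2 x4 = - cc (u * v) (x3 * x5) x0 x1 x2 x4 := by
    rw [h.s01 (x3 * x5) (u * v) x0 x1 x2 x4] <;> simp only [neg_neg]
  have f43 : cc (x4 * x5) (u * v) x0 x1 x2 x3 = - cc (u * v) (x4 * x5) x0 x1 x2 x3 := by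
    rw [h.s01 (x4 * x5) (u * v) x0 x1 x2 x3] <;> simp only [neg_neg]
  have g0 := h.five (cc (u * v) (x0 * x5) x1 x2 x3 x4)
  have g1 := h.five (cc (u * v) (x1 * x3) x0 x2 x4 x5)
  have g2 := h.five (cc (u * v) (x2 * x4) x0 x1 x3 x5)
  linear_combination (norm := abel) (-1:ℤ) • e0 + (2:ℤ) • e1 + (2:ℤ) • e2 + (-2:ℤ) • e3 + (1:ℤ) • e4 + (-1:ℤ) • e5 + (-2:ℤ) • e6 + (1:ℤ) • e7 + (1:ℤ) • e8 + (1:ℤ) • e9 + (1:ℤ) • f0 + (1:ℤ) • f1 + (-2:ℤ) • f2 + (-2:ℤ) • f3 + (-2:ℤ) • f4 + (-2:ℤ) • f5 + (-2:ℤ) • f6 + (-2:ℤ) • f7 + (2:ℤ) • f8 + (2:ℤ) • f9 + (2:ℤ) • f10 + (2:ℤ) • f11 + (-1:ℤ) • f12 + (-1:ℤ) • f13 + (-1:ℤ) • f14 + (1:ℤ) • f15 + (1:ℤ) • f16 + (1:ℤ) • f17 + (2:ℤ) • f18 + (2:ℤ) • f19 + (2:ℤ) • f20 + (2:ℤ) • f21 + (-1:ℤ) • f22 + (-1:ℤ) • f23 + (-1:ℤ) • f24 + (-1:ℤ) • f25 + (-1:ℤ) • f26 + (-1:ℤ) • f27 + (-1:ℤ) • f28 + (-1:ℤ)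 • f29 + (1:ℤ) • f30 + (-1:ℤ) • f31 + (1:ℤ) • f32 + (-1:ℤ) • f33 + (-1:ℤ) • f34 + (1:ℤ) • f35 + (-1:ℤ) • f36 + (1:ℤ) • f37 + (-1:ℤ) • f38 + (1:ℤ) • f39 + (-1:ℤ) • f40 + (-1:ℤ) • f41 + (1:ℤ) • f42 + (-1:ℤ) • f43 + (1:ℤ) • g0 + (-1:ℤ) • g1 + (-1:ℤ) • g2

/-- the structure `CB` -/
theorem CB : Z5.CB (cc : A → A → A → A → A → A → A) :=
  { anti := h.toIsMalcev.anti, two := h.two, five := h.five, add := cc_add_a, s01 := h.s01,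
    s12 := h.s12, s23 := h.s23, s34 := h.s34, s45 := h.s45, zA := h.zA, zC2 := h.zC2, zS := h.zS }

end IsC5

end

end Pool.Agent.MalP
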